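import Pool.Agent.Work.MP_bf98aa_gt.Cy.StmtM

/-!
Vanishing of the third cohomology.
-/

set_option autoImplicit false

namespace Pool.Agent.Work.MP_bf98aa_gt.B3

open Pool.Agent.Work.MP_bf98aa_gt.Th Pool.Agent.Work.MP_bf98aa_gt.Cy

/-- Every closed 3-form is exact. -/
def NoH3 {E : Type} [NormedAddCommGroup E] [NormedSpace ℝ E] (X : Mfd E) : Prop :=
  ∀ w : Form E X.M 3, w.Closed → w.Exact

end Pool.Agent.Work.MP_bf98aa_gt.B3
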