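import Pool.Agent.Work.MP_bf98aa_gt.B3.F5

-- merged part: Pool.Agent.Work.MP_bf98aa_gt.B3.A1
section
/-!
Gluing the pieces to the neck.

PLAN. `RP_*`: unfold `atlP`, `glue`, `fam`, `Bar`. `gok_P.iff`: four cases; `K, K`: `oK_iff`, `R_same`, `R_cross` (false for `m`); `F, F`: `Ph_iff`, `amb_F_iff`, `cross_iff`, `RA_F_iff`; `K, F`: both sides false (`Ko_near`, `R_cross`).
`bar_K`: `oK_iff`, `RK_norm`. `bar_X`: let `x ~ z ∈ DP j l` in the half `b''` and `Ph z ~ y`; if `b'' = b'` take `z`; else `to_F` for `y` (`RA_rad` gives the radius `> max 2 (2 t)`), `DP_onto`, `gok_P.iff`. `bar_T`: `T_to_F`, `XT_rad`, `DP_onto`; the level forces `l = 2` (`Ph_img`).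
`gok_P.clo`: for `y` in `K`: nearby points have `‖cc 1 ·‖ ≤ r < 1 / 64`, `bar_K`, `closed_K`, `to_DK`; the chart of `x` must be `m` of the same half (`R_lev`). For `y` in `X` of the half `b'`: `xr ≤ r < 8` nearby (`continuous_amb`), `bar_X`;
if `x` is in the same half, `closed_near`; else `R_cross`, apply `gl` (continuous; the limit has `7 / 8 < tt x` because `xt < 9 / 8 - ε` near `y`) and `closed_near`. For `y` in `T`: `bar_T` with `b'` the half of `x`.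
-/

set_option autoImplicit false

open scoped Manifold ContDiff Topology Matrix ComplexConjugate
open Set Complex Filter

namespace Pool.Agent.Work.MP_bf98aa_gt.B3

open Pool.Agent.Work.MP_bf98aa_gt.Th Pool.Agent.Work.MP_bf98aa_gt.Cy

theorem A1_xr (a : XA) : xr a = xu a + xt a := by
  simp only [xr, xu, xt]; ring

theorem HD.Ok.A1_lev {d : HD} (h : d.Ok) {j : J4} {l : Fin 5} {z : E6} (hz : z ∈ d.Do j l)
    (ht : 7 / 8 < tF (d.Ph j l z)) : l = 2 := by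
  have h1 := h.Ph_img hz
  have h2 : d.nuF (d.Ph j l z) = d.μ₁ + tF (d.Ph j l z) := by simp only [HD.nuF, tF]; ring
  have hm := h.hμ
  generalize d.Ph j l z = w at h1 h2 ht
  fin_cases l
  · exact absurd h1.2.2 (by linarith)
  · exact absurd h1.1 (by linarith)
  · rfl
  · exact absurd (show d.nuF w < -d.μ₁ from h1) (by linarith)
  · have := h1.2
    rw [tF] at ht
    linarith [normSq_nonneg (cc 0 w)]

namespace GD

variable {D : GD} {x y z : E6} {p : Bool × K3} {b b' : Bool} {c : K3} {j j' k k' : J4}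

theorem RP_K : D.atlP.R (.inl ((b, k), ())) x (.inl ((b', k'), ())) y ↔
    (b = b' ∧ k = k') ∧ x ∈ WK ∧ y ∈ WK ∧ RK x y :=
  and_congr_left' Prod.ext_iff

theorem RP_W {a a' : Bool × X3 ⊕ Bool} : D.atlP.R (.inr (j, a)) x (.inr (j', a')) y ↔
    j = j' ∧ (D.atlW j).R a x a' y := Iff.rfl

theorem RP_KW {s : (Bool × J4) × Unit} {a : J4 × (Bool × X3 ⊕ Bool)} :
    ¬D.atlP.R (.inl s) x (.inr a) y ∧ ¬D.atlP.R (.inr a) y (.inl s) x :=
  ⟨fun ⟨_, _, _, _, _, e, _⟩ => e, fun ⟨_, _, _, _, _, e, _⟩ => e⟩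

theorem Ok.pre0_P (h : D.Ok) : Pre0 D.atlP :=
  gok_empty.pre0 (pre0_fam fun _ => pre0_atlK) (pre0_fam (pre0_atlW h))

theorem Ok.free_P (h : D.Ok) : Free D.atlP :=
  free_glue (free_fam fun _ => free_atlK) (free_fam (free_atlW h))

theorem Ok.invF_P (h : D.Ok) : InvF D.atlP fun s => d1 (D.lamM (.inr s)) := by
  have e : (fun s : IP => d1 (D.lamM (.inr s))) =
      Sum.elim (fun q : (Bool × J4) × Unit => d1 (D.H q.1.1).lamK)
        fun q : J4 × (Bool × X3 ⊕ Bool) => d1 (GD.lamW q.2) := by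
    funext s
    rcases s with s | ⟨j, a | a⟩ <;> rfl
  rw [e]
  exact gok_empty.invF (pre0_fam fun _ => pre0_atlK) (pre0_fam (pre0_atlW h))
    (invF_fam fun q => invF_atlK (D.H q.1)) (invF_fam fun q => invF_atlW h q)
    fun _ _ _ _ e => e.elim

theorem A1_SK {u : Unit} (hs : D.SP p x (.inl ((b, k), u)) y) :
    p = (b, .m) ∧ x ∈ (D.H b).DK k ∧ y = (D.H b).oK k x := by
  obtain ⟨e, h1, h2⟩ := hs
  obtain rfl : p = (b, .m) := e
  exact ⟨rfl, h1, h2⟩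

theorem A1_SX {a : Bool × X3 ⊕ Bool} (hs : D.SP p x (.inr (j, a)) y) : ∃ b l, p = (b, sP l) ∧
    a = .inl (b, .F) ∧ x ∈ (D.H b).DP j l ∧ y = (D.H b).Ph j l x := by
  obtain ⟨e, l, e', h1, h2⟩ := hs
  exact ⟨p.1, l, Prod.ext rfl e', e, h1, h2⟩

theorem Ok.SP_ar (h : D.Ok) {s : IP} (hs : D.SP p x s y) : ∃ f,
    Ar (fun z w => D.SP p z s w) x y f ∧
      pb f (d1 (D.lamM (.inr s))) x = d1 ((D.H p.1).lam p.2) x := by
  rcases s with ⟨⟨b, k⟩, u⟩ | ⟨j, a⟩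
  · obtain ⟨rfl, hx, rfl⟩ := A1_SK hs
    obtain ⟨h1, h2⟩ := (h.ok b).oK_ar hx
    exact ⟨_, h1.mono (Eventually.of_forall fun _ hz => ⟨rfl, hz⟩), h2⟩
  · obtain ⟨b, l, rfl, rfl, hx, rfl⟩ := A1_SX hs
    have hd := HD.DP_sub hx
    refine ⟨(D.H b).Ph j l, ⟨(h.ok b).Ph_sm hd, rfl, (h.ok b).Ph_inj hd, ?_⟩, (h.ok b).Ph_symp hd⟩
    filter_upwards [((h.ok b).isOpen_DP j l).mem_nhds hx] with w hw
    exact ⟨rfl, l, rfl, hw, rfl⟩

theorem Ok.SP_mem (h : D.Ok) {s : IP} (hs : D.SP p x s y) : x ∈ D.atlN.W p ∧ y ∈ D.atlP.W s := by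
  rcases s with ⟨⟨b, k⟩, u⟩ | ⟨j, a⟩
  · obtain ⟨rfl, hx, rfl⟩ := A1_SK hs
    exact ⟨hx.1, ((h.ok b).oK_mem hx).1⟩
  · obtain ⟨b, l, rfl, rfl, hx, rfl⟩ := A1_SX hs
    exact ⟨hx.1, (h.ok b).DP_WX hx⟩

theorem A1_bool (b b' : Bool) : b' = b ∨ b' = !b := by
  cases b <;> cases b' <;> simp

theorem Ok.A1_KF (h : D.Ok) {l : Fin 5} (hx : x ∈ (D.H b).DK k) (hy : y ∈ (D.H b').DP j l) :
    ¬D.atlN.R (b, .m) x (b', sP l) y := by
  intro hr
  have hr' := hr.2.2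
  rcases A1_bool b b' with rfl | rfl
  · exact (h.ok b').Ko_near (j := j) ((h.ok b').DK_sub hx).1
      ⟨l, y, HD.DP_sub hy, le_rfl, R_same.1 hr'⟩
  · exact absurd (h.R_cross.1 hr').1 (by decide)

theorem Ok.SP_iff (h : D.Ok) {s s' : IP} {p' : Bool × K3} {x' y' : E6} (hs : D.SP p x s y)
    (hs' : D.SP p' x' s' y') : D.atlN.R p x p' x' ↔ D.atlP.R s y s' y' := by
  rcases s with ⟨⟨b, k⟩, ⟨⟩⟩ | ⟨j, a⟩ <;> rcases s' with ⟨⟨b', k'⟩, ⟨⟩⟩ | ⟨j', a'⟩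
  · obtain ⟨rfl, hx, rfl⟩ := A1_SK hs
    obtain ⟨rfl, hx', rfl⟩ := A1_SK hs'
    rw [RP_K, h.R_N (p := (b, .m)) hx.1]
    have m1 := ((h.ok b).oK_mem hx).1
    have m2 := ((h.ok b').oK_mem hx').1
    rcases A1_bool b b' with rfl | rfl
    · rw [R_same, HD.R_mm, (h.ok b').oK_iff hx hx']
      constructor
      · rintro ⟨-, -, rfl, e⟩
        exact ⟨⟨rfl, rfl⟩, m1, m2, e⟩
      · rintro ⟨⟨-, rfl⟩, -, -, e⟩
        exact ⟨HD.Wn_sub .m hx.1, HD.Wn_sub .m hx'.1, rfl, e⟩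
    · exact ⟨fun e => absurd (h.R_cross.1 e).1 (by decide), fun e => absurd e.1.1 (by simp)⟩
  · obtain ⟨rfl, hx, rfl⟩ := A1_SK hs
    obtain ⟨b', l, rfl, rfl, hx', rfl⟩ := A1_SX hs'
    exact iff_of_false (h.A1_KF hx hx') RP_KW.1
  · obtain ⟨rfl, hx', rfl⟩ := A1_SK hs'
    obtain ⟨b, l, rfl, rfl, hx, rfl⟩ := A1_SX hs
    exact iff_of_false (fun hr => h.A1_KF hx' hx (h.pre0_N.symm hr)) RP_KW.2
  · obtain ⟨b, l, rfl, rfl, hx, rfl⟩ := A1_SX hs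
    obtain ⟨b', l', rfl, rfl, hx', rfl⟩ := A1_SX hs'
    rw [RP_W, h.R_N (p := (b, sP l)) hx.1]
    have m1 := (h.ok b).DP_WX hx
    have m2 := (h.ok b').DP_WX hx'
    rcases A1_bool b b' with rfl | rfl
    · rw [R_same, (h.ok b').Ph_iff (HD.DP_sub hx) (HD.DP_sub hx')]
      refine and_congr_right fun e => ?_
      subst e
      refine ⟨fun e => ⟨m1, m2, .inl ⟨rfl, (amb_F_iff m1 m2).2 e⟩⟩, ?_⟩
      rintro ⟨-, -, e | e⟩
      · exact (amb_F_iff m1 m2).1 e.2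
      · exact absurd rfl e.1
    · rw [h.cross_iff (HD.DP_sub hx) (HD.DP_sub hx')]
      refine and_congr_right fun e => ?_
      subst e
      rw [← RA_F_iff h m1 m2]
      exact ⟨fun e => ⟨m1, m2, e⟩, fun e => e.2.2⟩

theorem Ok.bar_K (h : D.Ok) (hr : Bar D.atlN D.atlP D.SP p x (.inl ((b, k), ())) y) :
    p = (b, .m) ∧ ∃ γ, (D.H b).gm γ x ∈ (D.H b).DK k ∧
      kr ((D.H b).kU k ((D.H b).gm γ x)) = ‖cc 1 y‖ := by
  obtain ⟨i', x', s, y', h1, h2, h3⟩ := hr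
  rcases s with ⟨⟨b', k'⟩, ⟨⟩⟩ | a
  · obtain ⟨⟨rfl, rfl⟩, -, -, h4⟩ := RP_K.1 h3
    obtain ⟨rfl, h5, rfl⟩ := h2
    obtain ⟨b0, c⟩ := p
    have ho := h.ok b'
    have h6 := abs_lt.1 (ho.small h5.2.1).1
    have h7 : b0 = b' := by
      by_contra hb
      obtain rfl : b' = !b0 := by cases b0 <;> cases b' <;> simp_all
      exact absurd (h.R_cross.1 h1.2.2).2.1 (by decide)
    subst h7
    have h8 := R_same.1 h1.2.2
    have h9 := HD.Wn_sub _ h1.1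
    have hm := ho.hμ
    have h10 : c = .m := by
      rcases ho.R_lev h8 with e | e
      · cases c
        · rfl
        · have := h9.1
          simp only [HD.lev, HD.tt] at e this
          linarith [h6.2]
        · have := h9.1
          simp only [HD.lev, HD.nuF] at e
          linarith [h6.2, normSq_nonneg (cc 2 x)]
      · exact e.1
    subst h10
    obtain ⟨-, -, γ, rfl⟩ := HD.R_mm.1 h8
    exact ⟨rfl, γ, h5, (ho.oK_mem h5).2.symm.trans (RK_norm h4).symm⟩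
  · exact absurd h3 RP_KW.2

theorem Ok.bar_X (h : D.Ok) {a : X3}
    (hr : Bar D.atlN D.atlP D.SP p x (.inr (j, .inl (b, a))) y) : ∃ l, ∃ z ∈ (D.H b).DP j l,
      D.atlN.R p x (b, sP l) z ∧ (D.H b).amb .F ((D.H b).Ph j l z) = (D.H b).amb a y := by
  obtain ⟨⟨b0, c⟩, x', s, y', h1, h2, h3⟩ := hr
  rcases s with s | ⟨j0, a0⟩
  · exact absurd h3 RP_KW.1
  obtain ⟨rfl, h4⟩ := RP_W.1 h3
  have h2' := h2
  obtain ⟨rfl, l, rfl, h5, rfl⟩ := h2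
  by_cases hb : b0 = b
  · subst hb
    rcases h4.2.2 with e | e
    · exact ⟨l, x', h5, h1, e.2⟩
    · exact absurd rfl e.1
  obtain rfl : b = !b0 := by cases b0 <;> cases b <;> simp_all
  have h6 := max_lt_iff.1 (((h.ok b0).Do_Wn (HD.DP_sub h5)).1 h5)
  have h7 : 1 < xr ((D.H (!b0)).amb a y) := by
    have e1 := A1_xr ((D.H (!b0)).amb a y)
    have e2 := A1_xr ((D.H b0).amb .F ((D.H b0).Ph j0 l x'))
    rcases RA_rad h h4 with e | ⟨-, e, e'⟩ <;> rw [xr_F, xt_F] at * <;> linarith [h6.1, h6.2]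
  obtain ⟨w, hw, e⟩ := to_F (h.ok _) h4.2.1 h7
  have h8 : D.RA j0 b0 _ (!b0) ((D.H (!b0)).amb .F w) := e ▸ h4.2.2
  have h9 : max 2 (2 * tF w) < rF w := by
    have hm := (h.ok (!b0)).hμ
    rcases (RA_F_iff h h4.1 hw).1 h8 with e1 | e1
    · obtain ⟨e2, e3, e4⟩ := h.LoR_norm e1
      have e5 : (D.H (!b0)).nuF w = (D.H (!b0)).μ₁ + tF w := by simp only [HD.nuF, tF]; ring
      have e6 : (D.H (!b0)).M = (D.H (!b0)).μ₁ + 1 := rfl
      exact max_lt (by linarith [h6.1]) (by linarith [h6.1, (abs_lt.1 e2).1])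
    · obtain ⟨-, e3, e4⟩ := UpR_norm e1
      exact max_lt (by linarith [h6.2]) (by linarith [h6.1])
  obtain ⟨l', z, hz, rfl⟩ := (h.ok (!b0)).DP_onto j0 hw.1 h9
  exact ⟨l', z, hz, h.pre0_N.trans h1 ((h.SP_iff h2' (s' := .inr (j0, .inl (!b0, .F)))
    (p' := (!b0, sP l')) (x' := z) ⟨rfl, l', rfl, hz, rfl⟩).2 (RP_W.2 ⟨rfl, h4.1, hw, h8⟩)), e⟩

theorem Ok.bar_T (h : D.Ok) {i : Bool} (hr : Bar D.atlN D.atlP D.SP p x (.inr (j, .inr i)) y)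
    (b : Bool) : ∃ z ∈ HD.DP (D.H b) j 2, D.atlN.R p x (b, .p) z ∧
      (D.atlW j).R (.inl (b, .F)) ((D.H b).Ph j 2 z) (.inr i) y := by
  obtain ⟨⟨b0, c⟩, x', s, y', h1, h2, h3⟩ := hr
  rcases s with s | ⟨j0, a0⟩
  · exact absurd h3 RP_KW.1
  obtain ⟨rfl, h4⟩ := RP_W.1 h3
  have h2' := h2
  obtain ⟨rfl, l, rfl, h5, rfl⟩ := h2
  have h6 := max_lt_iff.1 (((h.ok b0).Do_Wn (HD.DP_sub h5)).1 h5)
  obtain ⟨e1, e2⟩ := XT_rad h h4
  have e3 := A1_xr ((D.H b0).amb .F ((D.H b0).Ph j0 l x'))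
  have e4 := h4.2.2.1
  rw [xt_F] at e2 e3 e4
  rw [xr_F] at e3
  have h0 : cc 1 y ≠ 0 := fun h0 => by
    have := h4.2.1.1
    rw [rT, h0, map_zero, add_zero, Real.sqrt_sq_eq_abs] at e1
    linarith [h6.2]
  obtain ⟨w, hw⟩ := T_to_F h j0 b i h4.2.1 h0
  obtain ⟨f1, f2⟩ := XT_rad h hw
  have f3 := A1_xr ((D.H b).amb .F w)
  have f4 := hw.2.2.1
  rw [xt_F] at f2 f3 f4
  rw [xr_F] at f3
  have h9 : max 2 (2 * tF w) < rF w := by
    cases b <;> cases b0 <;> simp only [cond_true, cond_false] at e2 f2 <;>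
      exact max_lt (by linarith [h6.1, h6.2]) (by linarith [h6.1, h6.2])
  obtain ⟨l', z, hz, rfl⟩ := (h.ok b).DP_onto j0 hw.1.1 h9
  obtain rfl : l' = 2 := (h.ok b).A1_lev (HD.DP_sub hz) f4
  have hW := pre0_atlW h j0
  exact ⟨z, hz, h.pre0_N.trans h1 ((h.SP_iff h2' (s' := .inr (j0, .inl (b, .F)))
    (p' := (b, .p)) (x' := z) ⟨rfl, 2, rfl, hz, rfl⟩).2 (RP_W.2 ⟨rfl, hW.trans h4 (hW.symm hw)⟩)), hw⟩

theorem A1_clo {S : Set (E6 × E6)} {C : Set E6} {f : E6 → E6} (hf : Continuous f)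
    (hc : (x, y) ∈ closure S) (h : ∀ᶠ q in 𝓝 (x, y), q ∈ S → f q.1 ∈ C) : f x ∈ closure C := by
  rw [mem_closure_iff_frequently] at hc ⊢
  exact ((hf.comp continuous_fst).tendsto (x, y)).frequently
    ((hc.and_eventually h).mono fun _ hq => hq.2 hq.1)

theorem A1_ev {f : E6 → ℝ} {r : ℝ} (hf : Continuous f) (h : f y < r) :
    ∀ᶠ q : E6 × E6 in 𝓝 (x, y), f q.2 < r :=
  ((hf.comp continuous_snd).tendsto (x, y)).eventually_lt_const h

theorem A1_fin (h : D.Ok) (hx : x ∈ (D.H p.1).Wn p.2) {r : ℝ} (hr : D.atlO.R p x (b, c) z)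
    (hz : z ∈ (D.H b).Near j r c) : ∃ p' x' s y', D.atlN.R p x p' x' ∧ D.SP p' x' s y' := by
  obtain ⟨l, w, hw, -, h1⟩ := hz
  have h2 : D.atlO.R p x (b, sP l) w := h.pre0_O.trans hr (R_same.2 h1)
  exact ⟨(b, sP l), w, .inr (j, .inl (b, .F)), _, (h.R_N hx).2 h2, rfl, l, rfl,
    ⟨(h.Wn_sat h2).1 hx, hw.2⟩, rfl⟩

theorem A1_rad (h : D.Ok) {l : Fin 5} (hz : z ∈ (D.H b).DP j l) :
    (D.H b).rP j l z = xr ((D.H b).amb .F ((D.H b).Ph j l z)) := by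
  rw [xr_F, ((h.ok b).Ph_lev (HD.DP_sub hz)).1]

theorem A1_lev (h : D.Ok) {l : Fin 5} (hz : z ∈ (D.H b).DP j l) (hl : sP l = .p) :
    (D.H b).tt z ≤ max (xt ((D.H b).amb .F ((D.H b).Ph j l z)))
      (-2 * (D.H b).μ₁ - xt ((D.H b).amb .F ((D.H b).Ph j l z))) := by
  have h1 := ((h.ok b).Ph_lev (HD.DP_sub hz)).2.1
  rw [xt_F]
  fin_cases l
  · cases hl
  · cases hl
  · refine le_max_of_le_left (le_of_eq ?_)
    simp only [HD.nuP, HD.nuF, HD.tt, tF] at h1 ⊢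
    simp at h1 ⊢
    linarith
  · refine le_max_of_le_right (le_of_eq ?_)
    simp only [HD.nuP, HD.nuF, HD.tt, tF] at h1 ⊢
    simp at h1 ⊢
    linarith
  · cases hl

theorem A1_K (h : D.Ok) (hx : x ∈ (D.H p.1).Wn p.2) (hy : y ∈ WK)
    (hc : (x, y) ∈ closure {q : E6 × E6 | Bar D.atlN D.atlP D.SP p q.1 (.inl ((b, k), ())) q.2}) :
    ∃ p' x' s y', D.atlN.R p x p' x' ∧ D.SP p' x' s y' := by
  obtain ⟨r, h1, h2⟩ := exists_between (show ‖cc 1 y‖ < 1 / 64 from hy)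
  obtain ⟨q, hq⟩ := Set.Nonempty.of_closure ⟨_, hc⟩
  obtain rfl := (h.bar_K hq).1
  have hb := h.ok b
  have h3 := A1_clo (C := {z | ∃ γ, kr ((D.H b).kU k ((D.H b).gm γ z)) ≤ r}) continuous_id hc
    ((A1_ev (continuous_cc 1).norm h1).mono fun q h4 hq => by
      obtain ⟨-, γ, -, h5⟩ := h.bar_K hq
      exact ⟨γ, h5.trans_le h4.le⟩)
  obtain ⟨γ, h4⟩ := (hb.closed_K k h2).closure_subset h3
  have h5 := hb.Ko_iff.2 (h4.trans_lt h2)
  have h6 := HD.Wn_iff.1 hx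
  obtain ⟨l, n, h7, -⟩ := hb.to_DK h5 fun h0 => h6.2.2 rfl ((hb.Kset_gm γ).1 h0)
  refine ⟨(b, .m), _, .inl ((b, k), ()), _, (h.R_N hx).2 (R_same.2 ?_), rfl, h7, rfl⟩
  exact hb.pre0_half.trans (HD.R_mm.2 ⟨h6.1, h5.1, γ, rfl⟩)
    (HD.R_mm.2 ⟨h5.1, HD.Wn_sub _ h7.1, (l, n, false, false), rfl⟩)

theorem A1_X (h : D.Ok) {a : X3} (hx : x ∈ (D.H b).Wn c) (hy : y ∈ (D.H b').WX a)
    (hc : (x, y) ∈ closure
      {q : E6 × E6 | Bar D.atlN D.atlP D.SP (b, c) q.1 (.inr (j, .inl (b', a))) q.2}) :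
    ∃ p' x' s y', D.atlN.R (b, c) x p' x' ∧ D.SP p' x' s y' := by
  have hB := WX_bounds (h.ok b') hy
  obtain ⟨r, h1, h2⟩ := exists_between hB.2.1
  have ha := continuous_amb (D.H b') a
  have e1 := A1_ev (x := x) (f := fun y => xr ((D.H b').amb a y)) (by unfold xr; fun_prop) h1
  have hx' := HD.Wn_sub _ hx
  by_cases hb : b' = b
  · subst hb
    refine A1_fin (p := (b', c)) h hx (h.pre0_O.refl (atlO_W (D := D) (b', c) ▸ hx'))
      ((h.ok b').closed_near j h2 c hx' (A1_clo continuous_id hc (e1.mono fun q h3 hq => ?_)))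
    obtain ⟨l, z, hz, h4, h5⟩ := h.bar_X hq
    exact ⟨l, z, HD.DP_sub hz, by rw [A1_rad h hz, h5]; exact h3.le, R_same.1 h4.2.2⟩
  obtain rfl : b' = !b := Bool.eq_not.2 hb
  obtain ⟨q, hq⟩ := Set.Nonempty.of_closure ⟨_, hc⟩
  obtain ⟨l, z, -, h4, -⟩ := h.bar_X hq
  obtain rfl := (h.R_cross.1 h4.2.2).1
  obtain ⟨t, h5, h6⟩ := exists_between (show max (xt ((D.H (!b)).amb a y))
    (-2 * (D.H (!b)).μ₁ - xt ((D.H (!b)).amb a y)) < 9 / 8 from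
      max_lt hB.2.2.2.1 (by linarith [hB.2.2.1]))
  have e2 := A1_ev (x := x) (f := fun y => max (xt ((D.H (!b)).amb a y))
    (-2 * (D.H (!b)).μ₁ - xt ((D.H (!b)).amb a y))) (by unfold xt; fun_prop) h5
  have h7 : 2 - t ≤ (D.H b).tt x := by
    refine (isClosed_le continuous_const (by unfold HD.tt; fun_prop)).closure_subset
      (A1_clo (C := {w | 2 - t ≤ (D.H b).tt w}) continuous_id hc (e2.mono fun q h3 hq => ?_))
    obtain ⟨l, z, hz, h4, h5⟩ := h.bar_X hq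
    obtain ⟨-, hl, -, -, γ, h8⟩ := h.R_cross.1 h4.2.2
    have h9 := A1_lev h hz hl
    have h10 : (D.H (!b)).tt z = 2 - (D.H b).tt q.1 := by
      rw [← gl_tt, h8, HD.tt, HD.gp_level, HD.tt]
    rw [h5] at h9
    show 2 - t ≤ (D.H b).tt q.1
    linarith
  have hW : ∀ w ∈ (D.H b).Wo .p, 7 / 8 < (D.H b).tt w → D.gl b w ∈ (D.H (!b)).Wo .p :=
    fun w hw h0 => by
      have := hw.2
      constructor <;> rw [gl_tt] <;> linarith
  have h8 : 7 / 8 < (D.H b).tt x := by linarith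
  refine A1_fin (p := (b, .p)) (z := D.gl b x) h hx
    (h.R_cross.2 ⟨rfl, rfl, hx', h8, (0, 0, false), (HD.Dp_zero _).symm⟩)
    ((h.ok _).closed_near j h2 .p (hW x hx' h8)
      (A1_clo (D.contDiff_gl b).continuous hc (e1.mono fun q h3 hq => ?_)))
  obtain ⟨l, z, hz, h4, h5⟩ := h.bar_X hq
  obtain ⟨-, hl, h9, h10, γ, h11⟩ := h.R_cross.1 h4.2.2
  refine ⟨l, z, HD.DP_sub hz, by rw [A1_rad h hz, h5]; exact h3.le, ?_⟩
  have h12 := HD.Wn_sub _ hz.1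
  rw [hl] at h12 ⊢
  exact HD.R_pp.2 ⟨hW _ h9 h10, h12, γ, h11.symm⟩

theorem A1_T (h : D.Ok) {i : Bool} (hx : x ∈ (D.H b).Wn c) (hy : y ∈ WT)
    (hc : (x, y) ∈ closure
      {q : E6 × E6 | Bar D.atlN D.atlP D.SP (b, c) q.1 (.inr (j, .inr i)) q.2}) :
    ∃ p' x' s y', D.atlN.R (b, c) x p' x' ∧ D.SP p' x' s y' := by
  obtain ⟨r, h1, h2⟩ := exists_between (show rT y + |y (2, 0)| + 1 < 8 by
    have := hy.2
    unfold rT
    linarith)
  have e1 := A1_ev (x := x) (f := fun y => rT y + |y (2, 0)| + 1) (by unfold rT; fun_prop) h1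
  have hx' := HD.Wn_sub _ hx
  refine A1_fin (p := (b, c)) h hx (h.pre0_O.refl (atlO_W (D := D) (b, c) ▸ hx'))
    ((h.ok b).closed_near j h2 c hx' (A1_clo continuous_id hc (e1.mono fun q h3 hq => ?_)))
  obtain ⟨z, hz, h4, h5⟩ := h.bar_T hq b
  refine ⟨2, z, HD.DP_sub hz, ?_, R_same.1 h4.2.2⟩
  obtain ⟨h6, h7⟩ := XT_rad h h5
  have h8 : cond b (q.2 (2, 0)) (-q.2 (2, 0)) ≤ |q.2 (2, 0)| := by
    cases b
    exacts [neg_le_abs _, le_abs_self _]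
  rw [A1_rad h hz]
  unfold xr xu xt at *
  linarith

theorem Ok.gok_P (h : D.Ok) : GOk D.atlN D.atlP D.SP := by
  refine ⟨h.SP_mem, fun hs => (h.SP_ar hs).imp fun _ hf => hf.1, h.SP_iff, ?_⟩
  rintro ⟨b, c⟩ x (⟨⟨b', k⟩, ⟨⟩⟩ | ⟨j, ⟨b', a⟩ | i⟩) y hx hy hc
  exacts [A1_K h hx hy hc, A1_X h hx hy hc, A1_T h hx hy hc]

theorem Ok.pre0_M (h : D.Ok) : Pre0 D.atlM := h.gok_P.pre0 h.pre0_N h.pre0_P

theorem Ok.free_M (h : D.Ok) : Free D.atlM := free_glue h.free_N h.free_P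

theorem Ok.invF_M (h : D.Ok) : InvF D.atlM fun s => d1 (D.lamM s) := by
  have e : (fun s : IM => d1 (D.lamM s)) =
      Sum.elim (fun p : Bool × K3 => d1 ((D.H p.1).lam p.2))
        fun s : IP => d1 (D.lamM (.inr s)) := by
    funext s
    rcases s with s | s <;> rfl
  rw [e]
  exact h.gok_P.invF h.pre0_N h.pre0_P h.invF_N h.invF_P fun _ _ _ _ hs => h.SP_ar hs

end GD

end Pool.Agent.Work.MP_bf98aa_gt.B3
end

-- merged part: Pool.Agent.Work.MP_bf98aa_gt.B3.A2a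
section
/-!
Compactness of a half: first without holes (`A2_C`, `A2_good`), then the open tubes `A2_U` are removed.
-/

set_option autoImplicit false

open scoped Manifold ContDiff Topology Matrix ComplexConjugate
open Set Complex Filter

namespace Pool.Agent.Work.MP_bf98aa_gt.B3

open Pool.Agent.Work.MP_bf98aa_gt.Th Pool.Agent.Work.MP_bf98aa_gt.Cy

/-- The box for `x` and the angle. -/
def A2_B : Set E6 := {z | (∀ i, |xv z i| ≤ 1 / 2) ∧ |z (2, 1)| ≤ 1 / 2}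

theorem A2_rd (s : ℝ) : |s + ((-round s : ℤ) : ℝ)| ≤ 1 / 2 := by
  rw [Int.cast_neg, ← sub_eq_add_neg]
  exact abs_sub_round s

theorem A2_closed : IsClosed A2_B := by
  refine IsClosed.and ?_ (isClosed_le (by fun_prop) continuous_const)
  rw [ofPred_forall]
  exact isClosed_iInter fun i => isClosed_le (by fun_prop) continuous_const

theorem A2_cpt {S : Set E6} {r : ℝ} (hS : IsClosed S) (h : ∀ z ∈ S, ∀ i, |z i| ≤ r) :
    IsCompact S :=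
  (isCompact_closedBall 0 (max r 0)).of_isClosed_subset hS fun z hz =>
    mem_closedBall_zero_iff.2 ((pi_norm_le_iff_of_nonneg (le_max_right _ _)).2 fun i =>
      (h z hz i).trans (le_max_left _ _))

theorem A2_bd {z : E6} {r : ℝ} (hz : z ∈ A2_B) (h : |z (2, 0)| ≤ r) (hr : 1 / 2 ≤ r) (i : Cx) :
    |z i| ≤ r := by
  obtain ⟨i, j⟩ := i
  fin_cases i <;> fin_cases j
  exacts [(hz.1 0).trans hr, (hz.1 1).trans hr, (hz.1 2).trans hr, (hz.1 3).trans hr, h,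
    hz.2.trans hr]

theorem A2_zero {s : ℝ} (h : |s| ≤ 1 / 2) (h0 : rd s = 0) : s = 0 := by
  have e : s = round s := sub_eq_zero.1 h0
  rw [abs_le] at h
  rw [e, HD.Kg_int (m := round s) (by linarith) (by linarith), Int.cast_zero]

namespace HD

variable {d : HD} {x y z : E6} {c c' : K3}

/-- Compact sets in the charts without holes. -/
def A2_C (d : HD) : K3 → Set E6
  | .m => {z | z ∈ A2_B ∧ 0 ≤ z (2, 0) ∧ d.tt z ≤ 1 / 64 ∧
      1 / 32 ≤ d.hh (z (2, 0)) (xv z) - d.tt z}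
  | .p => {z | z ∈ A2_B ∧ 1 / 64 ≤ d.tt z ∧ d.tt z ≤ 1}
  | .f => {z | normSq (cc 0 z) ≤ 1 / 16 ∧ normSq (cc 2 z) ≤ 1 / 16 ∧ |z (1, 0)| ≤ 1 / 2 ∧
      |z (1, 1)| ≤ 1 / 2}

theorem Ok.A2_hh (h : d.Ok) (hz : z ∈ A2_B) (ht : |d.tt z| ≤ 1 / 4) (h0 : d.gz z = 0) :
    d.hh (z (2, 0)) (xv z) ≤ max 0 (d.tt z) := by
  obtain ⟨a, b⟩ := h.gz_zero.1 h0
  have e : d.qq (xv z 2) (xv z 3) = 0 := h.qq_zero.2 ⟨A2_zero (hz.1 2) a, A2_zero (hz.1 3) b⟩
  rw [hh, (h.normSq_z1 ht _).1, e, mul_zero, zero_add]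
  exact (h.ex_mem _ _).2

theorem Ok.A2_sub (h : d.Ok) (c : K3) : d.A2_C c ⊆ d.Wo c := by
  cases c
  · rintro z ⟨a, b, c, e⟩
    refine ⟨by linarith, by linarith, or_iff_not_imp_right.2 fun ht h0 => ?_⟩
    have := h.A2_hh a (abs_le.2 ⟨by linarith, by linarith⟩) h0
    rw [max_eq_right (not_lt.1 ht)] at this
    linarith
  · exact fun z hz => ⟨by linarith [hz.2.1], by linarith [hz.2.2]⟩
  · exact fun z hz => ⟨by linarith [hz.1], by linarith [hz.2.1]⟩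

theorem Ok.A2_cpt (h : d.Ok) (c : K3) : IsCompact (d.A2_C c) := by
  have ht := (contDiff_tt (d := d)).continuous
  have hμ := h.hμ
  cases c
  · refine B3.A2_cpt (r := d.μ₁ + 1) (A2_closed.and ((isClosed_le continuous_const
      (by fun_prop)).and ((isClosed_le ht continuous_const).and (isClosed_le continuous_const
        ((h.hh_cont.comp DFr_lev.continuous).sub ht))))) fun z hz => A2_bd hz.1 ?_ (by linarith)
    have := hz.2.2.1
    rw [tt] at this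
    exact abs_le.2 ⟨by linarith [hz.2.1], by linarith⟩
  · refine B3.A2_cpt (r := d.μ₁ + 1) (A2_closed.and ((isClosed_le continuous_const ht).and
      (isClosed_le ht continuous_const))) fun z hz => A2_bd hz.1 ?_ (by linarith)
    have h1 := hz.2.1
    have h2 := hz.2.2
    rw [tt] at h1 h2
    exact abs_le.2 ⟨by linarith, by linarith⟩
  · refine B3.A2_cpt (r := 1) ((isClosed_le (by fun_prop) continuous_const).and
      ((isClosed_le (by fun_prop) continuous_const).and ((isClosed_le (by fun_prop)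
        continuous_const).and (isClosed_le (by fun_prop) continuous_const)))) ?_
    rintro z ⟨h1, h2, h3, h4⟩ ⟨i, j⟩
    rw [normSq_cc] at h1 h2
    have := sq_nonneg (z (0, 0))
    have := sq_nonneg (z (0, 1))
    have := sq_nonneg (z (2, 0))
    have := sq_nonneg (z (2, 1))
    fin_cases i <;> fin_cases j
    exacts [(sq_le_one_iff_abs_le_one (z (0, 0))).1 (by linarith),
      (sq_le_one_iff_abs_le_one (z (0, 1))).1 (by linarith), h3.trans (by norm_num),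
      h4.trans (by norm_num), (sq_le_one_iff_abs_le_one (z (2, 0))).1 (by linarith),
      (sq_le_one_iff_abs_le_one (z (2, 1))).1 (by linarith)]

/-- The point is equivalent to a point of the compact sets. -/
def A2_G (d : HD) (c : K3) (x : E6) : Prop := ∃ c', ∃ y ∈ d.A2_C c', d.atlO.R c x c' y

theorem Ok.A2_tr (h : d.Ok) (hr : d.atlO.R c x c' y) (hy : d.A2_G c' y) : d.A2_G c x :=
  let ⟨a, z, hz, e⟩ := hy
  ⟨a, z, hz, h.pre0_half.trans hr e⟩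

theorem A2_f0 (hx : x ∈ d.Wo .f) (h0 : normSq (cc 0 x) ≤ 1 / 16) (h2 : normSq (cc 2 x) ≤ 1 / 16) :
    d.A2_G .f x := by
  obtain ⟨a, b, e⟩ := gf_norm (d := d) (-round (x (1, 0)), -round (x (1, 1)), false) x
  refine ⟨.f, _, ⟨a.trans_le h0, b.trans_le h2, ?_, ?_⟩,
    R_ff.2 ⟨hx, (gf_mem _).2 hx, _, rfl⟩⟩
  · exact (congrArg (fun a : ℂ => |a.re|) e).trans_le (A2_rd _)
  · exact (congrArg (fun a : ℂ => |a.im|) e).trans_le (A2_rd _)

theorem A2_boxp (hx : x ∈ d.Wo .p) : ∃ y ∈ A2_B, d.atlO.R .p x .p y ∧ y (2, 0) = x (2, 0) := by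
  let l : L4 := fun i => -round (xv x i)
  refine ⟨d.gp (l, -round (d.Dp l 0 x (2, 1)), false) x, ⟨fun i => ?_, ?_⟩,
    R_pp.2 ⟨hx, (gp_mem _).2 hx, _, rfl⟩, gp_level _ _⟩
  · rw [gp_xv]
    exact A2_rd _
  · refine (congrArg abs ?_).trans_le (A2_rd (d.Dp l 0 x (2, 1)))
    simp only [gp, Dp, cond, id, mk4_21, Int.cast_zero, add_zero]

theorem Ok.A2_boxm (h : d.Ok) (hx : x ∈ d.Wo .m) :
    ∃ y ∈ A2_B, d.atlO.R .m x .m y ∧ y (2, 0) = x (2, 0) := by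
  let l : L4 := fun i => -round (xv x i)
  refine ⟨d.gm (l, -round (d.Dm l 0 x (2, 1)), false, false) x, ⟨fun i => ?_, ?_⟩,
    R_mm.2 ⟨hx, h.gm_mem _ hx (by simp), _, rfl⟩, gm_level _ _⟩
  · rw [gm_xv]
    exact A2_rd _
  · refine (congrArg abs ?_).trans_le (A2_rd (d.Dm l 0 x (2, 1)))
    simp only [gm, Dm, cond, id, mk4_21, Int.cast_zero, add_zero]

theorem A2_p0 (hx : x ∈ d.Wo .p) (h0 : 1 / 64 ≤ d.tt x) (h1 : d.tt x ≤ 1) : d.A2_G .p x := by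
  obtain ⟨y, a, b, e⟩ := A2_boxp hx
  have : d.tt y = d.tt x := by rw [tt, tt, e]
  exact ⟨.p, y, ⟨a, this ▸ h0, this ▸ h1⟩, b⟩

theorem Ok.A2_Rmp (h : d.Ok) (hs : d.Smp x y) : d.atlO.R .m x .p y := by
  have e : d.gm (0, 0, false, false) x = x := Dm_zero x
  exact h.R_mp.2 ⟨0, 0, false, e.symm ▸ hs⟩

theorem Ok.A2_Rmf (h : d.Ok) (hx : x ∈ d.Wo .m) (hx' : x ∈ d.Nf) : d.atlO.R .m x .f (d.omf x) := by
  have e : d.gm (0, 0, false, false) x = x := Dm_zero x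
  exact h.R_mf.2 ⟨hx, 0, 0, false, e.symm ▸ ⟨hx', rfl⟩⟩

theorem Ok.A2_Rpf (h : d.Ok) (hx : x ∈ d.Wo .p) (hx' : x ∈ d.Nf) : d.atlO.R .p x .f (d.opf x) := by
  have e : d.gp (0, 0, false) x = x := Dp_zero x
  exact h.R_pf.2 ⟨hx, (0, 0, false), e.symm ▸ ⟨hx', rfl⟩⟩

theorem Ok.A2_m0 (h : d.Ok) (hx : x ∈ d.Wo .m) (h0 : 0 ≤ x (2, 0)) : d.A2_G .m x := by
  obtain ⟨y, a, b, e⟩ := h.A2_boxm hx
  have hy : y ∈ d.Wo .m := (h.pre0_half.mem b).2
  refine h.A2_tr b ?_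
  by_cases ht : 1 / 64 < d.tt y
  · obtain ⟨z, hs⟩ := h.exists_p hy (by linarith)
    obtain ⟨-, h1, -, h2, -⟩ := h.Smp_lev hs
    exact h.A2_tr (h.A2_Rmp hs) (A2_p0 hs.2.1 (by linarith) (by linarith))
  by_cases hh : 1 / 32 ≤ d.hh (y (2, 0)) (xv y) - d.tt y
  · exact ⟨.m, y, ⟨a, e ▸ h0, not_lt.1 ht, hh⟩, h.pre0_half.refl hy⟩
  have hN : y ∈ d.Nf := ⟨hy.2.1, by linarith, by linarith⟩
  obtain ⟨h1, h2, -, h3⟩ := h.omf_lev hy hN
  rw [nuF] at h2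
  rw [tt] at hh ht
  exact h.A2_tr (h.A2_Rmf hy hN) (A2_f0 h1 (by linarith) (by linarith))

theorem Ok.A2_m (h : d.Ok) (hx : x ∈ d.Wo .m) : d.A2_G .m x := by
  by_cases h0 : 0 ≤ x (2, 0)
  · exact h.A2_m0 hx h0
  have h1 := h.gm_mem (0, 0, true, false) hx fun _ => by linarith
  refine h.A2_tr (R_mm.2 ⟨hx, h1, _, rfl⟩) (h.A2_m0 h1 ?_)
  rw [gm_level]
  exact neg_nonneg.2 (not_le.1 h0).le

theorem Ok.A2_p (h : d.Ok) (hx : x ∈ d.Wo .p) (h1 : d.tt x ≤ 1) : d.A2_G .p x := by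
  by_cases h0 : 1 / 64 ≤ d.tt x
  · exact A2_p0 hx h0 h1
  obtain ⟨y, a, b, e⟩ := A2_boxp hx
  have hy : y ∈ d.Wo .p := (h.pre0_half.mem b).2
  have ht : d.tt y = d.tt x := by rw [tt, tt, e]
  have h2 := hy.1
  refine h.A2_tr b ?_
  by_cases hg : d.gz y = 0
  · have h3 := h.A2_hh a (abs_le.2 ⟨by linarith, by linarith⟩) hg
    rw [max_eq_right h2.le] at h3
    have hN : y ∈ d.Nf := ⟨by linarith, by linarith, by linarith⟩
    obtain ⟨h4, h5, -, h6⟩ := h.opf_lev hy hN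
    rw [nuF] at h5
    rw [← ht] at h0
    rw [tt] at h0 h2 h3
    exact h.A2_tr (h.A2_Rpf hy hN) (A2_f0 h4 (by linarith) (by linarith))
  · obtain ⟨z, hs⟩ := h.exists_m hy (by linarith) hg
    exact h.A2_tr (h.pre0_half.symm (h.A2_Rmp hs)) (h.A2_m hs.1)

theorem Ok.A2_f (h : d.Ok) (hx : x ∈ d.Wo .f) : d.A2_G .f x := by
  by_cases h0 : cc 0 x = 0
  · by_cases h2 : normSq (cc 2 x) ≤ 1 / 16
    · exact A2_f0 hx (by rw [h0, map_zero]; norm_num) h2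
    obtain ⟨z, a, b, rfl⟩ := h.opf_surj hx (by rw [tF, h0, map_zero]; linarith)
    exact h.A2_tr (h.pre0_half.symm (h.A2_Rpf a b)) (h.A2_p a (by linarith [b.1]))
  · obtain ⟨z, a, b, rfl⟩ := h.omf_surj hx h0
    exact h.A2_tr (h.pre0_half.symm (h.A2_Rmf a b)) (h.A2_m a)

theorem Ok.A2_good (h : d.Ok) (hx : x ∈ d.Wo c) (hl : d.lev c x ≤ d.M) : d.A2_G c x := by
  cases c
  exacts [h.A2_m hx, h.A2_p hx (sub_le_iff_le_add'.2 hl), h.A2_f hx]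

/-- The open tubes around the singular set. -/
def A2_U (d : HD) (c : K3) : Set E6 :=
  {x | (∃ j l, ∃ z ∈ d.Do j l, d.rP j l z < 5 ∧ d.atlO.R c x (sP l) z) ∨
    (c = .m ∧ ∃ k γ, kr (d.kU k (d.gm γ x)) < 1 / 128)}

theorem Ok.A2_open (h : d.Ok) (c : K3) : IsOpen (d.A2_U c) := by
  refine isOpen_iff_mem_nhds.2 ?_
  rintro x (⟨j, l, z, a, b, e⟩ | ⟨hc, k, γ, e⟩)
  · obtain ⟨f, hf⟩ := h.pre0_half.loc e
    have h1 := hf.sm.continuousAt
    rw [ContinuousAt, hf.eq] at h1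
    filter_upwards [hf.ev, h1.eventually ((h.isOpen_Do j l).mem_nhds a),
      h1.eventually ((isOpen_lt (h.rP_cont j l) continuous_const).mem_nhds b)] with w h2 h3 h4
    exact Or.inl ⟨j, l, f w, h3, h4, h2⟩
  · filter_upwards [(isOpen_lt (contDiff_kr.continuous.comp ((d.continuous_kU k).comp
      (h.grp_m.sm γ).continuous)) continuous_const).mem_nhds e] with w h2
    exact Or.inr ⟨hc, k, γ, h2⟩

theorem Ok.A2_Wn (h : d.Ok) (hx : x ∈ d.Wo c) (hU : x ∉ d.A2_U c) : x ∈ d.Wn c := by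
  refine Wn_iff.2 ⟨hx, fun hH => hU (Or.inl ?_), fun hc hK => hU (Or.inr ⟨hc, ?_⟩)⟩
  · obtain ⟨j, l, z, a, b, e⟩ := (h.hole_iff hx).1 hH
    obtain ⟨h1, -, -, h2⟩ := h.Ph_lev a
    refine ⟨j, l, z, a, h1 ▸ e.trans_lt (max_lt (by norm_num) ?_), b⟩
    have h3 := (abs_lt.1 h2).2
    rw [nuF, M] at h3
    rw [tF]
    linarith
  · obtain ⟨l, n, e, k, h1⟩ := h.Kset_iff.1 hK
    exact ⟨k, _, h1.trans_lt (by norm_num)⟩

theorem Ok.A2_back (h : d.Ok) (hr : d.atlO.R c x c' y) (hy : y ∈ d.A2_U c') :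
    (∃ j, x ∈ d.Near j 5 c) ∨
      (c = .m ∧ ∃ k γ, d.gm γ x ∈ d.Ko k ∧ kr (d.kU k (d.gm γ x)) ≤ 1 / 128) := by
  obtain ⟨j, l, z, a, b, e⟩ | ⟨rfl, k, γ, e⟩ := hy
  · exact Or.inl ⟨j, l, z, a, b.le, h.pre0_half.trans hr e⟩
  have h0 : kr (d.kU k (d.gm γ y)) < 1 / 64 := e.trans (by norm_num)
  have h1 : y (2, 0) < 1 / 8 := by
    have h2 := (h.small h0).1
    rw [gm_level] at h2
    cases hγ : γ.2.2.1 <;> rw [hγ] at h2
    exacts [(abs_lt.1 h2).2, neg_lt_neg_iff.1 (abs_lt.1 h2).1]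
  have hμ := h.hμ
  have hx := (h.pre0_half.mem hr).1
  have hc : c = .m := by
    refine (h.R_lev hr).elim (fun h2 => ?_) fun h2 => h2.1
    cases c
    · rfl
    · have h3 : 0 < x (2, 0) - d.μ₁ := hx.1
      have h4 : y (2, 0) = x (2, 0) := h2
      linarith
    · have h3 : normSq (cc 0 x) < 1 / 8 := hx.1
      have h4 : y (2, 0) = d.μ₁ + normSq (cc 2 x) - normSq (cc 0 x) := h2
      linarith [normSq_nonneg (cc 2 x)]
  subst hc
  obtain ⟨-, -, γ', rfl⟩ := R_mm.1 hr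
  obtain ⟨γ'', e'⟩ := h.grp_m.mul γ' γ
  exact Or.inr ⟨rfl, k, γ'', by rw [e']; exact ⟨h.Ko_iff.2 h0, e.le⟩⟩

end HD

end Pool.Agent.Work.MP_bf98aa_gt.B3
end

-- merged part: Pool.Agent.Work.MP_bf98aa_gt.B3.A2
section
/-!
Compactness.

PLAN. `cpt_f`: the part of `Wo f` with `normSq u, normSq w ≤ 1 / 16`, `y ∈ [0, 1]²` and `normSq w + normSq (zy ν (y - l / 2)) ≥ 4` for all `l` (closed, bounded, inside `Wn f`). A point with `hole radius < 4` lies in `Near j 5 f`.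
`cpt_m`: `0 ≤ μ ≤ μ₁ + 1 / 16`, `x ∈ [0, 1]⁴`, `φ ∈ [0, 1]`, all radii `rho ≥ 4`, `kr (kU k (gm γ z)) ≥ 1 / 128` for all `γ`, `k`, and `tt ≤ -1 / 64` or `qr ≥ q₀` with `q₀ > 0` small; `cpt_p`: `1 / 64 ≤ tt ≤ 1`, similarly.
State the sets as intersections over `l`, `γ` of closed sets. `cpt_half`: a point `x` of `m` with `μ < 0` is moved by `ka`; if `1 / 32 < tt` it has a partner in `p`; if `-1 / 64 < tt ≤ 1 / 32` and `qr < q₀` a translate lies in `Nf` with `hh, hh - t ≤ 1 / 16`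
(`hh ≤ kap q + max 0 t`, `kap` is bounded on the compact interval). A point of `p` with `tt < 1 / 64`: if `qr < q₀` go to `f`, else to `m`. A point of `f` with `1 / 16 < normSq u` goes to `m` (`omf_surj`) and one with `normSq u ≤ 1 / 16 < normSq w` to `p` (`opf_surj`), then the previous cases.
`cpt_M`: points of `p` with `1 < tt` go to the other half (`gl`); `cpt_atlK`, `cpt_atlW`, `oK_surj`, `to_DK`, `to_F`, `T_to_F`, `DP_onto`.
-/

set_option autoImplicit false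

open scoped Manifold ContDiff Topology Matrix ComplexConjugate
open Set Complex Filter

namespace Pool.Agent.Work.MP_bf98aa_gt.B3

open Pool.Agent.Work.MP_bf98aa_gt.Th Pool.Agent.Work.MP_bf98aa_gt.Cy

namespace HD

variable {d : HD}

theorem Ok.cpt_half (h : d.Ok) : ∃ K : K3 → Set E6, (∀ c, IsCompact (K c) ∧ K c ⊆ d.Wn c) ∧
    ∀ c, ∀ x ∈ d.Wn c, d.lev c x ≤ d.M → (∃ c', ∃ y ∈ K c', d.atlO.R c x c' y) ∨
      (∃ j, x ∈ d.Near j 5 c) ∨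
      (c = .m ∧ ∃ k γ, d.gm γ x ∈ d.Ko k ∧ kr (d.kU k (d.gm γ x)) ≤ 1 / 128) := by
  refine ⟨fun c => d.A2_C c \ d.A2_U c, fun c => ⟨(h.A2_cpt c).diff (h.A2_open c),
    fun x hx => h.A2_Wn (h.A2_sub c hx.1) hx.2⟩, fun c x hx hl => ?_⟩
  obtain ⟨c', y, hy, hr⟩ := h.A2_good (Wn_sub c hx) hl
  by_cases hU : y ∈ d.A2_U c'
  exacts [Or.inr (h.A2_back hr hU), Or.inl ⟨c', y, ⟨hy, hU⟩, hr⟩]

end HD

namespace GD

variable {D : GD}

theorem Ok.A2_SP (h : D.Ok) {p : Bool × K3} {s : IP} {x y : E6} (hs : D.SP p x s y) :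
    D.atlM.R (.inl p) x (.inr s) y :=
  ⟨p, x, s, y, h.pre0_N.refl (h.SP_mem hs).1, hs, h.pre0_P.refl (h.SP_mem hs).2⟩

theorem Ok.A2_N (h : D.Ok) {b : Bool} {c c' : K3} {x y : E6} (hx : x ∈ (D.H b).Wn c)
    (hr : (D.H b).atlO.R c x c' y) : D.atlM.R (.inl (b, c)) x (.inl (b, c')) y :=
  (h.R_N (p := (b, c)) (p' := (b, c')) hx).2 (R_same.2 hr)

theorem Ok.cpt_M (h : D.Ok) : D.atlM.Cpt := by
  choose KN hKN hN using fun b => (h.ok b).cpt_half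
  obtain ⟨C, hC, hCW, hCK⟩ := cpt_atlK
  choose KW hKW hW using fun j => cpt_atlW h j
  let K : IM → Set E6 := Sum.elim (fun p => KN p.1 p.2) (Sum.elim (fun _ => C) fun p => KW p.1 p.2)
  have tr : ∀ {i x j y}, D.atlM.R i x j y → (∃ l, ∃ z ∈ K l, D.atlM.R j y l z) →
      ∃ l, ∃ z ∈ K l, D.atlM.R i x l z :=
    fun hr ⟨l, z, hz, hr'⟩ => ⟨l, z, hz, h.pre0_M.trans hr hr'⟩
  have gK : ∀ b k, ∀ x ∈ WK, ‖cc 1 x‖ ≤ 1 / 128 →
      ∃ l, ∃ z ∈ K l, D.atlM.R (.inr (.inl ((b, k), ()))) x l z := fun b k x hx h1 => by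
    obtain ⟨y, hy, hr⟩ := hCK x h1
    exact ⟨.inr (.inl ((b, k), ())), y, hy, (RP_K (D := D)).2 ⟨⟨rfl, rfl⟩, hx, hCW hy, hr⟩⟩
  have gW : ∀ j a, ∀ x ∈ (D.atlW j).W a, D.radW a x ≤ 5 →
      ∃ l, ∃ z ∈ K l, D.atlM.R (.inr (.inr (j, a))) x l z := fun j a x hx h1 => by
    obtain ⟨a', y, hy, hr⟩ := hW j a x hx h1
    exact ⟨.inr (.inr (j, a')), y, hy, RP_W.2 ⟨rfl, hr⟩⟩
  have g0 : ∀ b c, ∀ x ∈ (D.H b).Wn c, (D.H b).lev c x ≤ (D.H b).M →
      ∃ l, ∃ z ∈ K l, D.atlM.R (.inl (b, c)) x l z := fun b c x hx h1 => by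
    have hb := h.ok b
    rcases hN b c x hx h1 with ⟨c', y, hy, hr⟩ | ⟨j, l, z, hz, h5, hr⟩ | ⟨rfl, k, γ, hz, h5⟩
    · exact ⟨.inl (b, c'), y, hy, h.A2_N hx hr⟩
    · have hD : z ∈ (D.H b).DP j l := ⟨(hb.Wn_sat hr).1 hx, hz.2⟩
      refine tr (h.A2_N hx hr) (tr (h.A2_SP (s := .inr (j, .inl (b, .F))) ⟨rfl, l, rfl, hD, rfl⟩)
        (gW j (.inl (b, .F)) _ (hb.DP_WX hD) ?_))
      exact (xr_F.trans (hb.Ph_lev hz).1).trans_le h5
    · have hr : (D.H b).atlO.R .m x .m ((D.H b).gm γ x) := ⟨HD.Wn_sub _ hx, hz.1, γ, rfl⟩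
      have hz' := (hb.Wn_sat hr).1 hx
      obtain ⟨l, n, hD, he⟩ := hb.to_DK hz ((HD.Wn_iff.1 hz').2.2 rfl)
      have hr' : (D.H b).atlO.R .m ((D.H b).gm γ x) .m ((D.H b).Dm l n ((D.H b).gm γ x)) :=
        ⟨hz.1, HD.Wn_sub _ hD.1, (l, n, false, false), rfl⟩
      refine tr (h.A2_N hx hr) (tr (h.A2_N hz' hr')
        (tr (h.A2_SP (s := .inl ((b, k), ())) ⟨rfl, hD, rfl⟩) (gK b k _ (hb.oK_mem hD).1 ?_)))
      rw [(hb.oK_mem hD).2, he]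
      exact h5
  have gN : ∀ b c, ∀ x ∈ (D.H b).Wn c, ∃ l, ∃ z ∈ K l, D.atlM.R (.inl (b, c)) x l z :=
    fun b c x hx => by
    rcases le_or_gt ((D.H b).lev c x) (D.H b).M with h1 | h1
    · exact g0 b c x hx h1
    have hW := HD.Wn_sub _ hx
    cases c with
    | m =>
      have h2 : x (2, 0) - (D.H b).μ₁ < 1 / 8 := hW.2.1
      have h3 : (D.H b).μ₁ + 1 < x (2, 0) := h1
      linarith
    | f =>
      have h2 : normSq (cc 2 x) < 1 / 8 := hW.2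
      have h3 : (D.H b).μ₁ + 1 < (D.H b).μ₁ + normSq (cc 2 x) - normSq (cc 0 x) := h1
      linarith [normSq_nonneg (cc 0 x)]
    | p =>
      have h3 : (D.H b).μ₁ + 1 < x (2, 0) := h1
      have h4 : 7 / 8 < (D.H b).tt x := by unfold HD.tt; linarith
      have hr : D.atlO.R (b, .p) x (!b, .p) ((D.H (!b)).gp (0, 0, false) (D.gl b x)) :=
        h.R_cross.2 ⟨rfl, rfl, hW, h4, _, rfl⟩
      refine tr (j := .inl (!b, .p)) ((h.R_N (p := (b, .p)) hx).2 hr)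
        (g0 _ _ _ ((h.Wn_sat hr).1 hx) ?_)
      show (D.H b).M + (D.H (!b)).M - x (2, 0) ≤ (D.H (!b)).M
      unfold HD.M
      linarith
  have gF : ∀ j b, ∀ x ∈ (D.H b).WX .F, 3 < rF x →
      ∃ l, ∃ z ∈ K l, D.atlM.R (.inr (.inr (j, .inl (b, .F)))) x l z := fun j b x hx h1 => by
    have h2 := (WX_bounds (h.ok b) hx).2.2.2.1
    rw [xt_F] at h2
    obtain ⟨l, z, hz, rfl⟩ := (h.ok b).DP_onto j hx.1 (max_lt (by linarith) (by linarith))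
    exact tr (h.pre0_M.symm (h.A2_SP (p := (b, sP l)) (s := .inr (j, .inl (b, .F)))
      ⟨rfl, l, rfl, hz, rfl⟩)) (gN b _ z hz.1)
  refine ⟨K, ?_, ?_⟩
  · rintro (⟨b, c⟩ | ⟨⟨b, k⟩, u⟩ | ⟨j, a⟩)
    exacts [hKN b c, ⟨hC, hCW⟩, hKW j a]
  rintro (⟨b, c⟩ | ⟨⟨b, k⟩, ⟨⟩⟩ | ⟨j, a⟩) x hx
  · exact gN b c x hx
  · rcases le_or_gt ‖cc 1 x‖ (1 / 128) with h1 | h1
    · exact gK b k x hx h1
    obtain ⟨z, hz, rfl⟩ := (h.ok b).oK_surj k hx (norm_pos_iff.1 (by linarith))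
    exact tr (h.pre0_M.symm (h.A2_SP (p := (b, .m)) (s := .inl ((b, k), ())) ⟨rfl, hz, rfl⟩))
      (gN b _ z hz.1)
  rcases le_or_gt (D.radW a x) 5 with h1 | h1
  · exact gW j a x hx h1
  rcases a with ⟨b, c⟩ | i
  · have h2 : 5 < xr ((D.H b).amb c x) := h1
    obtain ⟨y, hy, he⟩ := to_F (h.ok b) (c := c) hx (by linarith)
    have hr : (D.atlW j).R (.inl (b, c)) x (.inl (b, .F)) y := ⟨hx, hy, .inl ⟨rfl, he.symm⟩⟩
    refine tr (j := .inr (.inr (j, .inl (b, .F)))) (RP_W.2 ⟨rfl, hr⟩) (gF j b y hy ?_)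
    rw [← xr_F (d := D.H b), he]
    linarith
  · have h2 : 5 < rT x + |x (2, 0)| + 1 := h1
    have h3 : |x (2, 0)| < 1 / 8 := hx.1
    have h0 : cc 1 x ≠ 0 := fun h0 => by
      rw [rT, h0, map_zero, add_zero, Real.sqrt_sq_eq_abs] at h2
      linarith
    obtain ⟨y, hr⟩ := T_to_F h j true i hx h0
    obtain ⟨h4, h5⟩ := XT_rad h hr
    refine tr (j := .inr (.inr (j, .inl (true, .F))))
      (h.pre0_M.symm (i := .inr (.inr (j, .inl (true, .F)))) (RP_W.2 ⟨rfl, hr⟩)) (gF j true y hr.1 ?_)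
    rw [xu_F] at h4
    rw [xt_F] at h5
    have h6 : tF y - 1 = x (2, 0) := h5
    unfold tF at h6
    unfold rF
    linarith [neg_abs_le (x (2, 0))]

end GD

end Pool.Agent.Work.MP_bf98aa_gt.B3
end

-- merged part: Pool.Agent.Work.MP_bf98aa_gt.B3.A3
section
/-!
The manifold.

PLAN. `exists_M` for `atlM`; `q.N b c = q (.inl (b, c))`, `q.K b k = q (.inr (.inl ((b, k), ())))`, `q.X j b c = q (.inr (.inr (j, .inl (b, c))))`, `q.T j i = q (.inr (.inr (j, .inr i)))`.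
The fields: `R_N`, `RP_K`, `RP_W`, `RP_KW`, `GOk.bar`, `bar_K`, `bar_X`, `bar_T`. A point of `WT` is `0`.
-/

set_option autoImplicit false

open scoped Manifold ContDiff Topology Matrix ComplexConjugate
open Set Complex Filter

namespace Pool.Agent.Work.MP_bf98aa_gt.B3

open Pool.Agent.Work.MP_bf98aa_gt.Th Pool.Agent.Work.MP_bf98aa_gt.Cy

theorem A3_ne (D : GD) : ∃ i, (D.atlM.W i).Nonempty := by
  refine ⟨.inr (.inr ((0, 0), .inr true)), 0, ?_⟩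
  change (0 : E6) ∈ WT
  have h1 : cc 1 (0 : E6) = 0 := rfl
  have h2 : (0 : E6) (2, 0) = 0 := rfl
  simp only [WT, mem_ofPred_eq, h1, h2]
  norm_num

theorem A3_sm {D : GD} (h : D.Ok) : ∀ i, ∀ z ∈ D.atlM.W i, ContDiffAt ℝ ∞ (D.lamM i) z
  | .inl c, _, hz => (h.ok c.1).lam_sm (HD.Wn_sub _ hz)
  | .inr (.inl p), _, _ => (contDiff_lamK (D.H p.1.1)).contDiffAt
  | .inr (.inr (_, .inl p)), _, _ => (contDiff_lamX p.2).contDiffAt
  | .inr (.inr (_, .inr _)), _, _ => contDiff_lamT.contDiffAt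

theorem A3_nd {D : GD} (h : D.Ok) : ∀ i, ∀ z ∈ D.atlM.W i, ND (d1 (D.lamM i) z)
  | .inl c, _, hz => (h.ok c.1).nd_lam (HD.Wn_sub _ hz)
  | .inr (.inl p), z, _ => nd_lamK (h.ok p.1.1) z
  | .inr (.inr (_, .inl p)), z, _ => nd_lamX p.2 z
  | .inr (.inr (_, .inr _)), z, _ => nd_lamT z

theorem A3_K {D : GD} {p : Bool × K3} {x y : E6} {b : Bool} {k : J4}
    (hr : Bar D.atlN D.atlP D.SP p x (.inl ((b, k), ())) y) :
    ∃ z ∈ (D.H b).DK k, D.atlN.R p x (b, .m) z := by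
  obtain ⟨i', x', j', y', h1, h2, h3⟩ := hr
  rcases j' with ⟨⟨b', k'⟩, ⟨⟩⟩ | a
  · obtain ⟨⟨rfl, rfl⟩, -⟩ := GD.RP_K.1 h3
    obtain ⟨rfl, h4, -⟩ := h2
    exact ⟨x', h4, h1⟩
  · exact (GD.RP_KW.2 h3).elim

theorem exists_WM {D : GD} (h : D.Ok) : ∃ (M : Type) (_ : TopologicalSpace M) (_ : T2Space M)
    (_ : CompactSpace M) (_ : ChartedSpace E6 M) (_ : IsManifold 𝓘(ℝ, E6) ∞ M) (q : Ch M)
    (η : Fo M 2), WM D q η := by
  obtain ⟨M, i1, i2, i3, i4, i5, q, η, hP, he, hs, hcl, hnd, hη⟩ :=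
    exists_M (A := D.atlM) (l := D.lamM) h.pre0_M h.free_M h.cpt_M (A3_ne D) (A3_sm h) (A3_nd h)
      h.invF_M
  have hN : ∀ {p p' : Bool × K3} {x y : E6}, D.atlN.R p x p' y → q (.inl p) x = q (.inl p') y :=
    fun {p p' x y} hr => (he (.inl p) (.inl p') x hr.1 y hr.2.1).2 hr
  have hS : ∀ {p : Bool × K3} {s : IP} {x y : E6}, D.SP p x s y → q (.inl p) x = q (.inr s) y :=
    fun {p s x y} hr => (he (.inl p) (.inr s) x (h.SP_mem hr).1 y (h.SP_mem hr).2).2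
      (h.gok_P.bar h.pre0_N h.pre0_P hr)
  refine ⟨M, i1, i2, i3, i4, i5, ⟨fun b c => q (.inl (b, c)),
    fun b k => q (.inr (.inl ((b, k), ()))), fun j b c => q (.inr (.inr (j, .inl (b, c)))),
    fun j i => q (.inr (.inr (j, .inr i)))⟩, η,
    { ok := h
      pN := fun b c => hP (.inl (b, c))
      pK := fun b k => hP (.inr (.inl ((b, k), ())))
      pX := fun j b c => hP (.inr (.inr (j, .inl (b, c))))
      pT := fun j i => hP (.inr (.inr (j, .inr i)))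
      cl := hcl
      nd := hnd
      oN := fun b c => hη (.inl (b, c))
      oK := fun b k => hη (.inr (.inl ((b, k), ())))
      oX := fun j b c => hη (.inr (.inr (j, .inl (b, c))))
      oT := fun j i => hη (.inr (.inr (j, .inr i)))
      cov := fun m => ?_
      eN := fun b c b' c' x hx y hy => ?_
      eK := fun b k b' k' x hx y hy => ?_
      eX := fun j b c j' b' c' x hx y hy => ?_
      eXT := fun j b c j' i x hx y hy => ?_
      eT := fun j i j' i' x hx y hy => ?_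
      gK := fun b k z hz => hS (p := (b, .m)) (s := .inl ((b, k), ())) ⟨rfl, hz, rfl⟩
      cK := fun b c b' k x hx y hy e => ?_
      gP := fun j b l z hz =>
        hS (p := (b, sP l)) (s := .inr (j, .inl (b, .F))) ⟨rfl, l, rfl, hz, rfl⟩
      cX := fun b c j b' c' x hx y hy e => ?_
      cT := fun b c j i x hx y hy e b' => ?_
      dX := fun b k j b' c x hx y hy e => (GD.RP_KW (D := D)).1
        ((he (.inr (.inl ((b, k), ()))) (.inr (.inr (j, .inl (b', c)))) x hx y hy).1 e)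
      dT := fun b k j i x hx y hy e => (GD.RP_KW (D := D)).1
        ((he (.inr (.inl ((b, k), ()))) (.inr (.inr (j, .inr i))) x hx y hy).1 e) }⟩
  · obtain ⟨i, x, hx, e⟩ := hs m
    rcases i with ⟨b, c⟩ | ⟨⟨b, k⟩, ⟨⟩⟩ | ⟨j, ⟨b, c⟩ | i⟩
    · exact .inl ⟨b, c, x, hx, e⟩
    · exact .inr (.inl ⟨b, k, x, hx, e⟩)
    · exact .inr (.inr (.inl ⟨j, b, c, x, hx, e⟩))
    · exact .inr (.inr (.inr ⟨j, i, x, hx, e⟩))
  · exact (he (.inl (b, c)) (.inl (b', c')) x hx y hy).trans (h.R_N (p := (b, c)) hx)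
  · refine (he (.inr (.inl ((b, k), ()))) (.inr (.inl ((b', k'), ()))) x hx y hy).trans
      ((GD.RP_K (D := D)).trans ?_)
    exact ⟨fun a => ⟨a.1.1, a.1.2, a.2.2.2⟩, fun a => ⟨⟨a.1, a.2.1⟩, hx, hy, a.2.2⟩⟩
  · refine (he (.inr (.inr (j, .inl (b, c)))) (.inr (.inr (j', .inl (b', c')))) x hx y hy).trans
      ((GD.RP_W (D := D)).trans ?_)
    exact ⟨fun a => ⟨a.1, a.2.2.2⟩, fun a => ⟨a.1, hx, hy, a.2⟩⟩
  · refine (he (.inr (.inr (j, .inl (b, c)))) (.inr (.inr (j', .inr i))) x hx y hy).trans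
      ((GD.RP_W (D := D)).trans ?_)
    exact ⟨fun a => ⟨a.1, a.2.2.2⟩, fun a => ⟨a.1, hx, hy, a.2⟩⟩
  · refine (he (.inr (.inr (j, .inr i))) (.inr (.inr (j', .inr i'))) x hx y hy).trans
      ((GD.RP_W (D := D)).trans ?_)
    exact ⟨fun a => ⟨a.1, a.2.2.2⟩, fun a => ⟨a.1, hx, hy, a.2⟩⟩
  · obtain ⟨z, hz, hr⟩ := A3_K ((he (.inl (b, c)) (.inr (.inl ((b', k), ()))) x hx y hy).1 e)
    exact ⟨z, hz, hN hr⟩
  · obtain ⟨l, z, hz, hr, -⟩ :=
      h.bar_X ((he (.inl (b, c)) (.inr (.inr (j, .inl (b', c')))) x hx y hy).1 e)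
    exact ⟨l, z, hz, hN hr⟩
  · obtain ⟨z, hz, hr, -⟩ :=
      h.bar_T ((he (.inl (b, c)) (.inr (.inr (j, .inr i))) x hx y hy).1 e) b'
    exact ⟨z, hz, hN hr⟩

end Pool.Agent.Work.MP_bf98aa_gt.B3
end
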