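import Mathlib

-- merged part: Pool.Agent.Work.MP_bf98aa_gt.B3.Fr1
section
/-!
Symplectic Gram-Schmidt coframes in dimension four.
-/

set_option autoImplicit false

open scoped Topology ContDiff
open Set Matrix Real

namespace Pool.Agent.Work.MP_bf98aa_gt.B3.Fr

noncomputable section

/-- Real matrices of size four. -/
abbrev M4 : Type := Matrix (Fin 4) (Fin 4) ℝ

/-- The standard skew matrix. -/
def J4 : M4 := !![0, 1, 0, 0; -1, 0, 0, 0; 0, 0, 0, 1; 0, 0, -1, 0]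

/-- The Pfaffian. -/
def pf4 (W : M4) : ℝ := W 0 1 * W 2 3 - W 0 2 * W 1 3 + W 0 3 * W 1 2

/-- The dual skew matrix. -/
def du (W : M4) : M4 :=
  !![0, -W 2 3, W 1 3, -W 1 2; W 2 3, 0, -W 0 3, W 0 2; -W 1 3, W 0 3, 0, -W 0 1;
    W 1 2, -W 0 2, W 0 1, 0]

/-- The triangular coframe of a skew matrix. -/
def gs (W : M4) : M4 :=
  !![0, 0, √(π * pf4 W / W 0 1), 0; 0, 0, 0, √(π * pf4 W / W 0 1);
    √(π * W 0 1), 0, -(√(π * W 0 1) * W 1 2 / W 0 1), -(√(π * W 0 1) * W 1 3 / W 0 1);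
    0, √(π * W 0 1), √(π * W 0 1) * W 0 2 / W 0 1, √(π * W 0 1) * W 0 3 / W 0 1]

/-- The Gram matrix. -/
def gm (O B : M4) : M4 := Bᵀ * O * B

/-- The inverse of the basis. -/
def bi (O B : M4) : M4 := (pf4 (gm O B))⁻¹ • (du (gm O B) * Bᵀ * O)

/-- The coframe of a form with respect to a basis. -/
def fr (O B : M4) : M4 := gs (gm O B) * bi O B

/-- Admissible pairs. -/
def Good (O B : M4) : Prop := Oᵀ = -O ∧ 0 < gm O B 0 1 ∧ 0 < pf4 (gm O B)

theorem skew_eq {W : M4} (h : Wᵀ = -W) :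
    W = !![0, W 0 1, W 0 2, W 0 3; -W 0 1, 0, W 1 2, W 1 3; -W 0 2, -W 1 2, 0, W 2 3;
      -W 0 3, -W 1 3, -W 2 3, 0] := by
  have e : ∀ i j, W j i = -W i j := fun i j => congrFun (congrFun h i) j
  have d : ∀ i, W i i = 0 := fun i => by linarith [e i i]
  ext i j
  fin_cases i <;> fin_cases j <;> simp [d] <;> exact e _ _

theorem gm_skew {O : M4} (h : Oᵀ = -O) (B : M4) : (gm O B)ᵀ = -gm O B := by
  simp [gm, transpose_mul, h, Matrix.mul_assoc]

theorem du_mul {W : M4} (h : Wᵀ = -W) : du W * W = pf4 W • (1 : M4) := by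
  rw [skew_eq h]
  ext i j
  fin_cases i <;> fin_cases j <;> simp [du, pf4, Matrix.mul_apply, Fin.sum_univ_four] <;> ring

theorem gs_spec {W : M4} (h : Wᵀ = -W) (h1 : 0 < W 0 1) (h2 : 0 < pf4 W) :
    (gs W)ᵀ * J4 * gs W = π • W := by
  have e1 : √(π * pf4 W / W 0 1) * √(π * pf4 W / W 0 1) = π * pf4 W / W 0 1 :=
    mul_self_sqrt (by positivity)
  have e2 : √(π * W 0 1) * √(π * W 0 1) = π * W 0 1 := mul_self_sqrt (by positivity)
  unfold gs
  generalize √(π * pf4 W / W 0 1) = s at e1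
  generalize √(π * W 0 1) = r at e2
  have h3 := h1.ne'
  have e3 : s * s * W 0 1 = π * pf4 W := by rw [e1]; field_simp
  conv_rhs => rw [skew_eq h]
  unfold pf4 at e3
  ext i j
  fin_cases i <;> fin_cases j <;> simp [J4, Matrix.mul_apply, Fin.sum_univ_four] <;> field_simp <;>
    first
      | ring1
      | linear_combination e2
      | linear_combination (W 0 2) * e2
      | linear_combination (W 0 3) * e2
      | linear_combination (W 1 2) * e2
      | linear_combination (W 1 3) * e2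
      | linear_combination -(W 0 2) * e2
      | linear_combination -(W 0 3) * e2
      | linear_combination -(W 1 2) * e2
      | linear_combination -(W 1 3) * e2
      | linear_combination (W 0 1) * e3 + (W 0 2 * W 1 3 - W 0 3 * W 1 2) * e2
      | linear_combination -(W 0 1) * e3 - (W 0 2 * W 1 3 - W 0 3 * W 1 2) * e2

variable {O B : M4}

theorem Good.bi_mul (h : Good O B) : bi O B * B = 1 := by
  rw [bi, Matrix.smul_mul, Matrix.mul_assoc (du _), Matrix.mul_assoc (du _)]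
  change _ • (_ * gm O B) = _
  rw [du_mul (gm_skew h.1 B), smul_smul, inv_mul_cancel₀ h.2.2.ne', one_smul]

theorem Good.mul_bi (h : Good O B) : B * bi O B = 1 := mul_eq_one_comm.1 h.bi_mul

theorem Good.bi_eq (h : Good O B) {N : M4} (hN : B * N = 1) : bi O B = N := by
  rw [← Matrix.mul_one (bi O B), ← hN, ← Matrix.mul_assoc, h.bi_mul, Matrix.one_mul]

theorem Good.spec (h : Good O B) : (fr O B)ᵀ * J4 * fr O B = π • O := by
  have e := gs_spec (gm_skew h.1 B) h.2.1 h.2.2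
  calc (fr O B)ᵀ * J4 * fr O B
      = (bi O B)ᵀ * ((gs (gm O B))ᵀ * J4 * gs (gm O B)) * bi O B := by
        simp only [fr, transpose_mul, Matrix.mul_assoc]
    _ = π • ((B * bi O B)ᵀ * O * (B * bi O B)) := by
        rw [e]
        simp only [gm, transpose_mul, Matrix.mul_assoc, Matrix.smul_mul, Matrix.mul_smul]
    _ = π • O := by rw [h.mul_bi]; simp

theorem gm_pull (O G B : M4) : gm (Gᵀ * O * G) B = gm O (G * B) := by
  simp only [gm, transpose_mul, Matrix.mul_assoc]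

theorem fr_pull (O G B : M4) : fr (Gᵀ * O * G) B = fr O (G * B) * G := by
  rw [fr, fr, bi, bi, gm_pull]
  simp only [transpose_mul, Matrix.mul_assoc, Matrix.smul_mul]

theorem Good.pull {G : M4} (h : Good O (G * B)) : Good (Gᵀ * O * G) B :=
  ⟨gm_skew h.1 G, by rw [gm_pull]; exact h.2.1, by rw [gm_pull]; exact h.2.2⟩

theorem gm_smul (t : ℝ) (O B : M4) : gm (t • O) B = t • gm O B := by
  simp only [gm, Matrix.smul_mul, Matrix.mul_smul]

theorem pf4_smul (t : ℝ) (W : M4) : pf4 (t • W) = t ^ 2 * pf4 W := by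
  simp only [pf4, Matrix.smul_apply, smul_eq_mul]; ring

theorem Good.smul (h : Good O B) {t : ℝ} (ht : 0 < t) : Good (t • O) B := by
  refine ⟨by rw [transpose_smul, h.1, smul_neg], ?_, ?_⟩
  · rw [gm_smul]; exact mul_pos ht h.2.1
  · rw [gm_smul, pf4_smul]; exact mul_pos (by positivity) h.2.2

theorem gs_smul {W : M4} (h1 : 0 < W 0 1) {s : ℝ} (hs : 0 < s) : gs (s ^ 2 • W) = s • gs W := by
  have e1 : √(π * pf4 (s ^ 2 • W) / (s ^ 2 * W 0 1)) = s * √(π * pf4 W / W 0 1) := by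
    rw [pf4_smul, show π * ((s ^ 2) ^ 2 * pf4 W) / (s ^ 2 * W 0 1) =
      s ^ 2 * (π * pf4 W / W 0 1) by field_simp, sqrt_mul (sq_nonneg s), sqrt_sq hs.le]
  have e2 : √(π * (s ^ 2 * W 0 1)) = s * √(π * W 0 1) := by
    rw [show π * (s ^ 2 * W 0 1) = s ^ 2 * (π * W 0 1) by ring, sqrt_mul (sq_nonneg s),
      sqrt_sq hs.le]
  have h3 := h1.ne'
  have h4 := hs.ne'
  unfold gs
  simp only [Matrix.smul_apply, smul_eq_mul, e1, e2]
  ext i j
  fin_cases i <;> fin_cases j <;> simp <;> field_simp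

theorem Good.fr_smul (h : Good O B) {s : ℝ} (hs : 0 < s) : fr (s ^ 2 • O) B = s • fr O B := by
  rw [fr, (h.smul (by positivity)).bi_eq h.mul_bi, gm_smul, gs_smul h.2.1 hs, Matrix.smul_mul, fr]

end

end Pool.Agent.Work.MP_bf98aa_gt.B3.Fr
end

-- merged part: Pool.Agent.Work.MP_bf98aa_gt.B3.Fr2
section
/-!
Smoothness of the coframes and uniform bounds.
-/

set_option autoImplicit false

open scoped Topology ContDiff
open Set Matrix Real Filter

namespace Pool.Agent.Work.MP_bf98aa_gt.B3.Fr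

noncomputable section

variable {X : Type} [NormedAddCommGroup X] [NormedSpace ℝ X] {x : X} {f g : X → M4}

/-- The entries are smooth at a point. -/
def SmM (f : X → M4) (x : X) : Prop := ∀ i j, ContDiffAt ℝ ∞ (fun y => f y i j) x

theorem SmM.const (A : M4) : SmM (fun _ : X => A) x := fun _ _ => contDiffAt_const

theorem SmM.mul (hf : SmM f x) (hg : SmM g x) : SmM (fun y => f y * g y) x := fun i j => by
  simp only [Matrix.mul_apply]
  exact ContDiffAt.sum fun l _ => (hf i l).mul (hg l j)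

theorem SmM.add (hf : SmM f x) (hg : SmM g x) : SmM (fun y => f y + g y) x :=
  fun i j => (hf i j).add (hg i j)

theorem SmM.sub (hf : SmM f x) (hg : SmM g x) : SmM (fun y => f y - g y) x :=
  fun i j => (hf i j).sub (hg i j)

theorem SmM.smul {t : X → ℝ} (ht : ContDiffAt ℝ ∞ t x) (hf : SmM f x) :
    SmM (fun y => t y • f y) x := fun i j => ht.mul (hf i j)

theorem SmM.tr (hf : SmM f x) : SmM (fun y => (f y)ᵀ) x := fun i j => hf j i

theorem SmM.gm (hf : SmM f x) (hg : SmM g x) : SmM (fun y => gm (f y) (g y)) x :=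
  (hg.tr.mul hf).mul hg

theorem SmM.pf4 (hf : SmM f x) : ContDiffAt ℝ ∞ (fun y => pf4 (f y)) x :=
  (((hf _ _).mul (hf _ _)).sub ((hf _ _).mul (hf _ _))).add ((hf _ _).mul (hf _ _))

theorem SmM.du (hf : SmM f x) : SmM (fun y => du (f y)) x := fun i j => by
  fin_cases i <;> fin_cases j <;> first
    | exact contDiffAt_const
    | exact hf _ _
    | exact (hf _ _).neg

theorem SmM.gs (hf : SmM f x) (h1 : 0 < f x 0 1) (h2 : 0 < Fr.pf4 (f x)) :
    SmM (fun y => gs (f y)) x := fun i j => by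
  have a1 : ContDiffAt ℝ ∞ (fun y => √(π * Fr.pf4 (f y) / f y 0 1)) x :=
    ((contDiffAt_const.mul hf.pf4).div (hf _ _) h1.ne').sqrt
      (div_pos (mul_pos pi_pos h2) h1).ne'
  have a2 : ContDiffAt ℝ ∞ (fun y => √(π * f y 0 1)) x :=
    (contDiffAt_const.mul (hf _ _)).sqrt (by positivity)
  have a3 : ∀ i j, ContDiffAt ℝ ∞ (fun y => √(π * f y 0 1) * f y i j / f y 0 1) x :=
    fun i j => (a2.mul (hf i j)).div (hf _ _) h1.ne'
  fin_cases i <;> fin_cases j <;> first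
    | exact contDiffAt_const
    | exact a1
    | exact a2
    | exact a3 _ _
    | exact (a3 _ _).neg

theorem SmM.fr (hf : SmM f x) (hg : SmM g x) (h : Good (f x) (g x)) :
    SmM (fun y => fr (f y) (g y)) x :=
  ((hf.gm hg).gs h.2.1 h.2.2).mul
    (SmM.smul ((hf.gm hg).pf4.inv h.2.2.ne') (((hf.gm hg).du.mul hg.tr).mul hf))

/-- The square of the Euclidean norm. -/
def nsq (v : Fin 4 → ℝ) : ℝ := v 0 ^ 2 + v 1 ^ 2 + v 2 ^ 2 + v 3 ^ 2

theorem nsq_smul (t : ℝ) (v : Fin 4 → ℝ) : nsq (t • v) = t ^ 2 * nsq v := by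
  simp only [nsq, Pi.smul_apply, smul_eq_mul]; ring

theorem nsq_pos {v : Fin 4 → ℝ} (h : v ≠ 0) : 0 < nsq v := by
  by_contra h1
  refine h (funext fun i => ?_)
  have h2 : nsq v ≤ 0 := not_lt.1 h1
  unfold nsq at h2
  fin_cases i <;> simp <;>
    nlinarith [sq_nonneg (v 0), sq_nonneg (v 1), sq_nonneg (v 2), sq_nonneg (v 3)]

theorem Good.inj {O B : M4} (h : Good O B) {v : Fin 4 → ℝ} (hv : fr O B *ᵥ v = 0) : v = 0 := by
  have e : (π • O) *ᵥ v = 0 := by rw [← h.spec, ← mulVec_mulVec, hv, mulVec_zero]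
  rw [smul_mulVec, smul_eq_zero_iff_right pi_ne_zero] at e
  rw [← one_mulVec v, ← h.mul_bi, ← mulVec_mulVec, bi, smul_mulVec, ← mulVec_mulVec, e]
  simp

/-- Two-sided bounds with the constants `c`, `C`. -/
def Bd (c C : ℝ) (O B : M4) : Prop :=
  Good O B ∧ c ≤ gm O B 0 1 ∧ gm O B 0 1 ≤ C ∧ c ≤ pf4 (gm O B) ∧ pf4 (gm O B) ≤ C ∧
    ∀ v, c * ‖v‖ ^ 2 ≤ nsq (fr O B *ᵥ v) ∧ nsq (fr O B *ᵥ v) ≤ C * ‖v‖ ^ 2

theorem Bd.mono {c C c' C' : ℝ} {O B : M4} (h : Bd c C O B) (h1 : c' ≤ c) (h2 : C ≤ C') :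
    Bd c' C' O B :=
  ⟨h.1, h1.trans h.2.1, h.2.2.1.trans h2, h1.trans h.2.2.2.1, h.2.2.2.2.1.trans h2, fun v =>
    ⟨(mul_le_mul_of_nonneg_right h1 (sq_nonneg _)).trans (h.2.2.2.2.2 v).1,
      (h.2.2.2.2.2 v).2.trans (mul_le_mul_of_nonneg_right h2 (sq_nonneg _))⟩⟩

theorem two_sided {Y : Type} [TopologicalSpace Y] {K : Set Y} (hK : IsCompact K) {u : Y → ℝ}
    (hu : ContinuousOn u K) (h : ∀ y ∈ K, 0 < u y) : ∃ c C, 0 < c ∧ ∀ y ∈ K, c ≤ u y ∧ u y ≤ C := by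
  obtain ⟨c, hc, h1⟩ := hK.exists_forall_le' hu h
  obtain ⟨C, h2⟩ := hK.bddAbove_image hu
  exact ⟨c, C, hc, fun y hy => ⟨h1 y hy, h2 ⟨y, hy, rfl⟩⟩⟩

theorem bd_cpt {K : Set X} (hK : IsCompact K) (hf : ∀ x, SmM f x) (hg : ∀ x, SmM g x)
    (h : ∀ x ∈ K, Good (f x) (g x)) : ∃ c C, 0 < c ∧ ∀ x ∈ K, Bd c C (f x) (g x) := by
  obtain ⟨c1, C1, p1, q1⟩ := two_sided hK (u := fun x => gm (f x) (g x) 0 1)
    (fun x _ => ((hf x).gm (hg x) 0 1).continuousAt.continuousWithinAt) fun x hx => (h x hx).2.1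
  obtain ⟨c2, C2, p2, q2⟩ := two_sided hK (u := fun x => pf4 (gm (f x) (g x)))
    (fun x _ => ((hf x).gm (hg x)).pf4.continuousAt.continuousWithinAt) fun x hx => (h x hx).2.2
  obtain ⟨c3, C3, p3, q3⟩ := two_sided (hK.prod (isCompact_sphere (0 : Fin 4 → ℝ) 1))
    (u := fun p => nsq (fr (f p.1) (g p.1) *ᵥ p.2)) (fun p hp => by
      have a : ∀ i, ContinuousAt (fun p : X × (Fin 4 → ℝ) => (fr (f p.1) (g p.1) *ᵥ p.2) i) p :=
        fun i => by
          simp only [mulVec, dotProduct]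
          exact tendsto_finsetSum _ fun l _ =>
            ((((hf _).fr (hg _) (h _ hp.1)) i l).continuousAt.comp continuousAt_fst).mul
              ((continuous_apply l).continuousAt.comp continuousAt_snd)
      exact (((((a 0).pow 2).add ((a 1).pow 2)).add ((a 2).pow 2)).add
        ((a 3).pow 2)).continuousWithinAt)
    fun p hp => nsq_pos fun e => by
      have := hp.2
      rw [(h _ hp.1).inj e] at this
      simp at this
  refine ⟨min c1 (min c2 c3), max C1 (max C2 C3), by positivity, fun x hx =>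
    ⟨h x hx, (min_le_left _ _).trans (q1 x hx).1, (q1 x hx).2.trans (le_max_left _ _),
      ((min_le_right _ _).trans (min_le_left _ _)).trans (q2 x hx).1,
      (q2 x hx).2.trans ((le_max_left _ _).trans (le_max_right _ _)), fun v => ?_⟩⟩
  rcases eq_or_ne v 0 with rfl | hv
  · simp [nsq]
  have n0 : 0 < ‖v‖ := norm_pos_iff.2 hv
  have e : nsq (fr (f x) (g x) *ᵥ v) = nsq (fr (f x) (g x) *ᵥ (‖v‖⁻¹ • v)) * ‖v‖ ^ 2 := by
    rw [mulVec_smul, nsq_smul]; field_simp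
  obtain ⟨r1, r2⟩ := q3 (x, ‖v‖⁻¹ • v) ⟨hx, by simp [norm_smul, n0.ne']⟩
  rw [e]
  exact ⟨mul_le_mul_of_nonneg_right (((min_le_right _ _).trans (min_le_right _ _)).trans r1)
    (sq_nonneg _), mul_le_mul_of_nonneg_right
      (r2.trans ((le_max_right _ _).trans (le_max_right _ _))) (sq_nonneg _)⟩

theorem bd_tube {f g : ℝ × X → M4} {K : Set X} (hK : IsCompact K) (hf : ∀ p, SmM f p)
    (hg : ∀ p, SmM g p) (hs : ∀ p, (f p)ᵀ = -f p) (h : ∀ x ∈ K, Good (f (0, x)) (g (0, x))) :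
    ∃ c C δ, 0 < c ∧ 0 < δ ∧ ∀ e, |e| ≤ δ → ∀ x ∈ K, Bd c C (f (e, x)) (g (e, x)) := by
  have h1 : ∀ᶠ e in 𝓝 (0 : ℝ), ∀ x ∈ K, Good (f (e, x)) (g (e, x)) :=
    hK.eventually_forall_of_forall_eventually (P := fun e x => Good (f (e, x)) (g (e, x)))
      fun x hx => by
        filter_upwards [((hf _).gm (hg _) 0 1).continuousAt.eventually (lt_mem_nhds (h x hx).2.1),
          ((hf _).gm (hg _)).pf4.continuousAt.eventually (lt_mem_nhds (h x hx).2.2)] with p a b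
        exact ⟨hs p, a, b⟩
  obtain ⟨δ, hδ, h2⟩ := Metric.nhds_basis_closedBall.eventually_iff.1 h1
  obtain ⟨c, C, hc, h3⟩ := bd_cpt ((isCompact_closedBall (0 : ℝ) δ).prod hK) hf hg
    fun p hp => h2 hp.1 p.2 hp.2
  exact ⟨c, C, δ, hc, hδ, fun e he x hx => h3 (e, x) ⟨by simpa using he, hx⟩⟩

end

end Pool.Agent.Work.MP_bf98aa_gt.B3.Fr
end

-- merged part: Pool.Agent.Work.MP_bf98aa_gt.B3.Fr3
section
/-!
The normalised families of forms and bases, in the coordinates of the folds.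
-/

set_option autoImplicit false

open scoped Topology ContDiff
open Set Matrix Real Filter

namespace Pool.Agent.Work.MP_bf98aa_gt.B3.Fr

noncomputable section

/-- A skew matrix from its entries. -/
def sk (a b c d e f : ℝ) : M4 := !![0, a, b, c; -a, 0, d, e; -b, -d, 0, f; -c, -e, -f, 0]

theorem sk_skew (a b c d e f : ℝ) : (sk a b c d e f)ᵀ = -sk a b c d e f := by
  ext i j
  fin_cases i <;> fin_cases j <;> simp [sk]

/-- Parameters. -/
abbrev Pm : Type := ℝ × (Fin 6 → ℝ)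

/-- The normalised form of the first half. -/
def oA (p : Pm) : M4 :=
  sk (2 + 3 * p.1 - 2 * p.1 ^ 3 - p.1 ^ 2 * (p.2 2 + p.2 3) * (1 - p.1))
    ((p.2 0 + p.1 * p.2 1) * (2 * p.1) - p.1 ^ 2 * (p.2 2 - p.2 3) * (p.1 - 2))
    ((p.2 0 + p.1 * p.2 1) * (2 + 2 * p.1) - p.1 ^ 2 * (p.2 2 - p.2 3) * (1 + p.1))
    ((p.2 0 + p.1 * p.2 1) * (2 + 4 * p.1) - p.1 ^ 2 * (p.2 2 - p.2 3))
    (-(p.2 0 + p.1 * p.2 1) + p.1 ^ 2 * (p.2 2 - p.2 3) * (1 + p.1))
    (2 + 5 * p.1 + 3 * p.1 ^ 2 - p.1 ^ 2 * (p.2 2 + p.2 3) * (1 + p.1))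

/-- The normalised form of the second half. -/
def oB (p : Pm) : M4 :=
  sk (2 + p.1 - 3 * p.1 ^ 2 - 2 * p.1 ^ 3 - p.1 ^ 2 * (p.2 2 + p.2 3) * (1 + p.1))
    ((p.2 0 + p.1 * p.2 1) * (2 * p.1) - p.1 ^ 2 * (p.2 2 - p.2 3) * (2 + 3 * p.1))
    (-2 * (p.2 0 + p.1 * p.2 1) + p.1 ^ 2 * (p.2 2 - p.2 3) * (1 + p.1))
    (-2 * (p.2 0 + p.1 * p.2 1) - p.1 ^ 2 * (p.2 2 - p.2 3) * (1 + 2 * p.1))
    (-(p.2 0 + p.1 * p.2 1) - p.1 ^ 2 * (p.2 2 - p.2 3) * (1 + p.1))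
    (2 + 5 * p.1 - p.1 ^ 2 - 2 * p.1 ^ 3 - p.1 ^ 2 * (p.2 2 + p.2 3) * (3 + 5 * p.1))

/-- The adapted basis of the first half. -/
def bA (e : ℝ) : M4 := !![-1, e, 1, 1; -3, 2 * e - 1, 2, 2; -2, e - 1, 2, 1; -1, e - 1, 1, 1]

/-- The adapted basis of the second half. -/
def bB (e : ℝ) : M4 := !![1, 0, 0, 0; 1, 3 + 5 * e, 1, 5; 0, -1 - e, 0, -1; 1, 1 + 2 * e, 0, 2]

/-- The basis of the first half seen from the second one. -/
def b1 (e : ℝ) : M4 := !![3, 2 - 2 * e, -2, -2; -1, e - 1, 1, 1; -2, e - 1, 2, 1; 3, 1 - 2 * e, -2, -2]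

/-- The same through both folds. -/
def b2 (e : ℝ) : M4 := !![1, 0, 0, 0; 1, 1 - e, -1, -1; -2, e - 1, 2, 1; -3, 2 * e - 1, 2, 2]

/-- The path of bases of the second half. -/
def bP (p : Pm) : M4 := bB p.1 + p.2 4 • (b1 p.1 - bB p.1) + p.2 5 • (b2 p.1 - bB p.1)

/-- The compact set of parameters. -/
def KP : Set (Fin 6 → ℝ) :=
  Icc ![-3 / 2, -3, 0, 0, 0, 0] ![3 / 2, 3, 2, 2, 1, 1] ∩
    {x | x 4 * (x 0 - 1) = 0 ∧ x 5 * (x 0 + 1) = 0}

theorem KP_cpt : IsCompact KP :=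
  isCompact_Icc.inter_right ((isClosed_eq (by fun_prop) continuous_const).inter
    (isClosed_eq (by fun_prop) continuous_const))

theorem sm_sk {X : Type} [NormedAddCommGroup X] [NormedSpace ℝ X] {x : X} {a b c d e f : X → ℝ}
    (ha : ContDiffAt ℝ ∞ a x) (hb : ContDiffAt ℝ ∞ b x) (hc : ContDiffAt ℝ ∞ c x)
    (hd : ContDiffAt ℝ ∞ d x) (he : ContDiffAt ℝ ∞ e x) (hf : ContDiffAt ℝ ∞ f x) :
    SmM (fun y => sk (a y) (b y) (c y) (d y) (e y) (f y)) x := fun i j => by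
  fin_cases i <;> fin_cases j <;> simp [sk] <;> fun_prop

theorem sm_oA (p : Pm) : SmM oA p :=
  sm_sk (by fun_prop) (by fun_prop) (by fun_prop) (by fun_prop) (by fun_prop) (by fun_prop)

theorem sm_oB (p : Pm) : SmM oB p :=
  sm_sk (by fun_prop) (by fun_prop) (by fun_prop) (by fun_prop) (by fun_prop) (by fun_prop)

theorem sm_bA (p : Pm) : SmM (fun p : Pm => bA p.1) p := fun i j => by
  fin_cases i <;> fin_cases j <;> simp [bA] <;> fun_prop

theorem sm_bP (p : Pm) : SmM bP p := fun i j => by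
  fin_cases i <;> fin_cases j <;> simp [bP, bB, b1, b2] <;> fun_prop

theorem good_A {x : Fin 6 → ℝ} (hx : x ∈ KP) : Good (oA (0, x)) (bA 0) := by
  have h : -3 / 2 ≤ x 0 := hx.1.1 0
  refine ⟨sk_skew _ _ _ _ _ _, ?_, ?_⟩
  · have : gm (oA (0, x)) (bA 0) 0 1 = 4 + 2 * x 0 := by
      simp [gm, oA, bA, sk, Matrix.mul_apply, Fin.sum_univ_four]; ring
    linarith
  · have : pf4 (gm (oA (0, x)) (bA 0)) = 4 + 4 * x 0 ^ 2 := by
      simp [pf4, gm, oA, bA, sk, Matrix.mul_apply, Fin.sum_univ_four]; ring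
    rw [this]; positivity

theorem quart {s : ℝ} (h0 : 0 ≤ s) (h1 : s ≤ 1) {a b c : ℝ} (ha : 0 ≤ a) (hb : 0 ≤ b) (hc : 0 ≤ c) :
    0 < (1 - s) ^ 4 + a * s * (1 - s) ^ 3 + b * s ^ 2 * (1 - s) ^ 2 + c * s ^ 3 * (1 - s) +
      s ^ 4 := by
  have h2 : 0 ≤ 1 - s := by linarith
  rcases h0.eq_or_lt with rfl | h
  · norm_num
  · positivity

theorem good_B {x : Fin 6 → ℝ} (hx : x ∈ KP) : Good (oB (0, x)) (bP (0, x)) := by
  have h : -3 / 2 ≤ x 0 := hx.1.1 0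
  have a4 : 0 ≤ x 4 := hx.1.1 4
  have c4 : x 4 ≤ 1 := hx.1.2 4
  have a5 : 0 ≤ x 5 := hx.1.1 5
  have c5 : x 5 ≤ 1 := hx.1.2 5
  obtain ⟨e4, e5⟩ := hx.2
  refine ⟨sk_skew _ _ _ _ _ _, ?_⟩
  by_cases k1 : x 0 = 1
  · have k : x 5 = 0 := by rw [k1] at e5; linarith
    constructor
    · have : gm (oB (0, x)) (bP (0, x)) 0 1 =
          10 * (1 - x 4) ^ 2 + 8 * x 4 * (1 - x 4) + 6 * x 4 ^ 2 := by
        simp [gm, oB, bP, bB, b1, b2, sk, Matrix.mul_apply, Fin.sum_univ_four, k1, k]; ring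
      nlinarith
    · have : pf4 (gm (oB (0, x)) (bP (0, x))) = 8 * ((1 - x 4) ^ 4 + 12 * x 4 * (1 - x 4) ^ 3 +
          6 * x 4 ^ 2 * (1 - x 4) ^ 2 + 12 * x 4 ^ 3 * (1 - x 4) + x 4 ^ 4) := by
        simp [pf4, gm, oB, bP, bB, b1, b2, sk, Matrix.mul_apply, Fin.sum_univ_four, k1, k]; ring
      rw [this]
      exact mul_pos (by norm_num) (quart a4 c4 (by norm_num) (by norm_num) (by norm_num))
  have k4 : x 4 = 0 := (mul_eq_zero.1 e4).resolve_right (sub_ne_zero.2 k1)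
  by_cases k2 : x 0 = -1
  · constructor
    · have : gm (oB (0, x)) (bP (0, x)) 0 1 =
          6 * (1 - x 5) ^ 2 + 16 * x 5 * (1 - x 5) + 2 * x 5 ^ 2 := by
        simp [gm, oB, bP, bB, b1, b2, sk, Matrix.mul_apply, Fin.sum_univ_four, k2, k4]; ring
      nlinarith
    · have : pf4 (gm (oB (0, x)) (bP (0, x))) = 8 * ((1 - x 5) ^ 4 + 4 * x 5 * (1 - x 5) ^ 3 +
          14 * x 5 ^ 2 * (1 - x 5) ^ 2 + 12 * x 5 ^ 3 * (1 - x 5) + x 5 ^ 4) := by
        simp [pf4, gm, oB, bP, bB, b1, b2, sk, Matrix.mul_apply, Fin.sum_univ_four, k2, k4]; ring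
      rw [this]
      exact mul_pos (by norm_num) (quart a5 c5 (by norm_num) (by norm_num) (by norm_num))
  have k5 : x 5 = 0 := (mul_eq_zero.1 e5).resolve_right fun e => k2 (by linarith)
  constructor
  · have : gm (oB (0, x)) (bP (0, x)) 0 1 = 8 + 2 * x 0 := by
      simp [gm, oB, bP, bB, b1, b2, sk, Matrix.mul_apply, Fin.sum_univ_four, k4, k5]; ring
    linarith
  · have : pf4 (gm (oB (0, x)) (bP (0, x))) = 4 + 4 * x 0 ^ 2 := by
      simp [pf4, gm, oB, bP, bB, b1, b2, sk, Matrix.mul_apply, Fin.sum_univ_four, k4, k5]; ring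
    rw [this]; positivity

theorem bd_AB : ∃ c C δ, 0 < c ∧ 0 < δ ∧ ∀ e, |e| ≤ δ → ∀ x ∈ KP,
    Bd c C (oA (e, x)) (bA e) ∧ Bd c C (oB (e, x)) (bP (e, x)) := by
  obtain ⟨c, C, δ, h1, h2, h3⟩ := bd_tube (f := oA) (g := fun p => bA p.1) KP_cpt sm_oA sm_bA
    (fun _ => sk_skew _ _ _ _ _ _) fun _ => good_A
  obtain ⟨c', C', δ', h4, h5, h6⟩ := bd_tube KP_cpt sm_oB sm_bP (fun _ => sk_skew _ _ _ _ _ _)
    fun _ => good_B
  exact ⟨min c c', max C C', min δ δ', lt_min h1 h4, lt_min h2 h5, fun e he x hx =>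
    ⟨(h3 e (he.trans (min_le_left _ _)) x hx).mono (min_le_left _ _) (le_max_left _ _),
      (h6 e (he.trans (min_le_right _ _)) x hx).mono (min_le_right _ _) (le_max_right _ _)⟩⟩

end

end Pool.Agent.Work.MP_bf98aa_gt.B3.Fr
end

-- merged part: Pool.Agent.Work.MP_bf98aa_gt.B3.Fr4
section
/-!
The adapted basis.
-/

set_option autoImplicit false

open scoped Topology ContDiff
open Set Matrix Real Filter

namespace Pool.Agent.Work.MP_bf98aa_gt.B3.Fr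

noncomputable section

/-- The adapted basis. -/
def b0 (k : ℝ) : M4 := !![1, 0, 0, 0; 0, k⁻¹, 0, 1; 0, 0, 1, 0; 0, 0, 0, k]

theorem gm_b0 {O : M4} (h : Oᵀ = -O) {k : ℝ} (hk : k ≠ 0) : gm O (b0 k) =
    sk (O 0 1 / k) (O 0 2) (O 0 1 + k * O 0 3) (O 1 2 / k) (O 1 3) (k * O 2 3 - O 1 2) := by
  conv_lhs => rw [skew_eq h]
  ext i j
  fin_cases i <;> fin_cases j <;>
    simp [gm, b0, sk, Matrix.mul_apply, Fin.sum_univ_four] <;> field_simp <;> ring

theorem gm_b0_01 {O : M4} (h : Oᵀ = -O) {k : ℝ} (hk : k ≠ 0) : gm O (b0 k) 0 1 = O 0 1 / k := by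
  rw [gm_b0 h hk]; simp [sk]

theorem pf_b0 {O : M4} (h : Oᵀ = -O) {k : ℝ} (hk : k ≠ 0) : pf4 (gm O (b0 k)) = pf4 O := by
  rw [gm_b0 h hk]; simp [sk, pf4]; field_simp; ring

theorem fr_b0 {O : M4} {s : ℝ} (hs : 0 < s) (h : Good O (b0 (s ^ 2))) :
    fr O (b0 (s ^ 2)) =
      !![0, 0, √(π * pf4 O / O 0 1) * s, 0; 0, 0, 0, √(π * pf4 O / O 0 1) / s;
        √(π * O 0 1) / s, 0, -(√(π * O 0 1) / s * O 1 2 / O 0 1),
          -(√(π * O 0 1) / s * O 1 3 / O 0 1);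
        0, √(π * O 0 1) * s, √(π * O 0 1) * s * O 0 2 / O 0 1,
          √(π * O 0 1) * s * O 0 3 / O 0 1] := by
  have hs' := hs.ne'
  have hk : s ^ 2 ≠ 0 := by positivity
  have h1 : 0 < O 0 1 := by
    have := h.2.1
    rw [gm_b0_01 h.1 hk] at this
    exact (div_pos_iff_of_pos_right (by positivity)).1 this
  have h1' := h1.ne'
  have e0 : bi O (b0 (s ^ 2)) =
      !![1, 0, 0, 0; 0, s ^ 2, 0, -1; 0, 0, 1, 0; 0, 0, 0, (s ^ 2)⁻¹] := h.bi_eq (by
    ext i j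
    fin_cases i <;> fin_cases j <;> simp [b0, Matrix.mul_apply, Fin.sum_univ_four, hs'])
  have e1 : √(π * pf4 O / (O 0 1 / s ^ 2)) = √(π * pf4 O / O 0 1) * s := by
    rw [show π * pf4 O / (O 0 1 / s ^ 2) = (π * pf4 O / O 0 1) * s ^ 2 by field_simp,
      sqrt_mul' _ (sq_nonneg s), sqrt_sq hs.le]
  have e2 : √(π * (O 0 1 / s ^ 2)) = √(π * O 0 1) / s := by
    rw [← mul_div_assoc, sqrt_div' _ (sq_nonneg s), sqrt_sq hs.le]
  rw [fr, e0, gs, pf_b0 h.1 hk, gm_b0_01 h.1 hk, e1, e2, gm_b0 h.1 hk]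
  ext i j
  fin_cases i <;> fin_cases j <;> simp [sk, Matrix.mul_apply, Fin.sum_univ_four] <;>
    field_simp <;> ring

end

end Pool.Agent.Work.MP_bf98aa_gt.B3.Fr
end
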