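import Pool.Agent.Work.MP_bf98aa_gt.B3.DAl
import Pool.Agent.Work.MP_bf98aa_gt.B3.Fr4

/-!
From a path of bases to admissible data of a half.
-/

set_option autoImplicit false

open scoped ContDiff Matrix
open Set Complex

namespace Pool.Agent.Work.MP_bf98aa_gt.B3

open Fr (Good Bd SmM fr gm sk b0 nsq)

noncomputable section

/-- The identity on `|s| ≤ R + 1 / 8`, with values in `|s| ≤ R + 1 / 4`. -/
def clp (R s : ℝ) : ℝ :=
  s * (Real.smoothTransition (8 * (R - s) + 2) * Real.smoothTransition (8 * (R + s) + 2))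

theorem clp_eq {R s : ℝ} (h : |s| ≤ R + 1 / 8) : clp R s = s := by
  rw [abs_le] at h
  rw [clp, Real.smoothTransition.one_of_one_le (by linarith only [h, h.2]),
    Real.smoothTransition.one_of_one_le (by linarith only [h, h.1]), mul_one, mul_one]

theorem clp_le {R : ℝ} (hR : 0 ≤ R) (s : ℝ) : |clp R s| ≤ R + 1 / 4 := by
  unfold clp
  by_cases h : |s| ≤ R + 1 / 4
  · rw [abs_mul]
    refine (mul_le_of_le_one_right (abs_nonneg _) ?_).trans h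
    rw [abs_of_nonneg (mul_nonneg (Real.smoothTransition.nonneg _) (Real.smoothTransition.nonneg _))]
    exact mul_le_one₀ (Real.smoothTransition.le_one _) (Real.smoothTransition.nonneg _)
      (Real.smoothTransition.le_one _)
  · rcases lt_abs.1 (not_le.1 h) with h | h
    · rw [Real.smoothTransition.zero_of_nonpos (x := 8 * (R - s) + 2) (by linarith only [h])]
      simp; linarith only [hR]
    · rw [Real.smoothTransition.zero_of_nonpos (x := 8 * (R + s) + 2) (by linarith only [h])]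
      simp; linarith only [hR]

theorem contDiff_clp (R : ℝ) : ContDiff ℝ ∞ (clp R) :=
  contDiff_id.mul ((Real.smoothTransition.contDiff.comp (by fun_prop)).mul
    (Real.smoothTransition.contDiff.comp (by fun_prop)))

theorem JJ_eq : JJ = Fr.J4 := by
  ext i j; fin_cases i <;> fin_cases j <;> simp [JJ, rm, E01, E23, Fr.J4]

theorem row_le (A : M4) (y : V4) (i : Fin 4) {R : ℝ} (h : ∑ j, |A i j| ≤ R) :
    |(A *ᵥ y) i| ≤ R * ‖y‖ := by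
  refine (Finset.abs_sum_le_sum_abs (fun j => A i j * y j) Finset.univ).trans
    (le_trans ?_ (mul_le_mul_of_nonneg_right h (norm_nonneg y)))
  rw [Finset.sum_mul]
  exact Finset.sum_le_sum fun j _ => by
    rw [abs_mul]; exact mul_le_mul_of_nonneg_left (norm_le_pi_norm y j) (abs_nonneg _)

theorem rows_le (A : M4) (y : V4) {R : ℝ} (h : ∀ i, ∑ j, |A i j| ≤ R) : ‖A *ᵥ y‖ ≤ R * ‖y‖ :=
  (pi_norm_le_iff_of_nonneg (mul_nonneg ((Finset.sum_nonneg fun _ _ => abs_nonneg _).trans (h 0))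
    (norm_nonneg _))).2 fun i => row_le A y i (h i)

/-- The diagonal matrix of the fold. -/
def DD : Z4 := Matrix.diagonal ![1, 1, -1, -1]

theorem norm_DD (y : V4) : ‖rm DD *ᵥ y‖ ≤ ‖y‖ := by
  simpa using rows_le (rm DD) y (R := 1) fun i => by
    fin_cases i <;> simp [rm, DD, Fin.sum_univ_four, Matrix.diagonal]

namespace HD

variable (d : HD)

/-- The data with the frames of a path of bases. -/
def wi (B : ℝ → M4) : HD := { d with cf := fun ν => fr (d.Om (clp d.M ν)) (B (clp d.M ν)) }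

/-- The Poincare dual of the kink torus in the fold frame. -/
def Cf (i j : Fin 4) : ℝ := d.A 2 i * d.A 3 j - d.A 3 i * d.A 2 j

variable {d}

theorem fold_pull (h : d.A' * d.A = 1) (W : Z4) : d.Aᵀ * (d.A'ᵀ * W * d.A') * d.A = W := by
  calc _ = (d.A' * d.A)ᵀ * W * (d.A' * d.A) := by
        simp only [Matrix.transpose_mul, Matrix.mul_assoc]
    _ = W := by rw [h]; simp

theorem fold_T (h : d.A' * d.A = 1) : d.T * d.A = d.A * DD := by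
  rw [T, Matrix.mul_assoc, h, Matrix.mul_one, DD]

theorem fold_comb (h : d.A' * d.A = 1) (s t u : ℝ) :
    (rm d.A)ᵀ * (s • rm d.α + t • rm d.β + u • rm d.v) * rm d.A =
      sk s (2 * u * d.Xh 0 0) (2 * u * d.Xh 0 1) (2 * u * d.Xh 1 0) (2 * u * d.Xh 1 1) t := by
  simp only [Matrix.mul_add, Matrix.add_mul, Matrix.mul_smul, Matrix.smul_mul, ← rm_tr, ← rm_mul,
    α, β, v, fold_pull h]
  ext i j
  fin_cases i <;> fin_cases j <;> simp [rm, E01, E23, vA, sk] <;> ring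

theorem fold_Om (h : d.A' * d.A = 1) (ν p q : ℝ) :
    (rm d.A)ᵀ * (d.Om0 ν - p • rm E23 - q • rm (d.Tᵀ * E23 * d.T)) * rm d.A =
      sk (d.a - (p + q) * d.Cf 0 1) (2 * ν * d.Xh 0 0 - (p - q) * d.Cf 0 2)
        (2 * ν * d.Xh 0 1 - (p - q) * d.Cf 0 3) (2 * ν * d.Xh 1 0 - (p - q) * d.Cf 1 2)
        (2 * ν * d.Xh 1 1 - (p - q) * d.Cf 1 3) (d.a' - (p + q) * d.Cf 2 3) := by
  have e1 : (rm d.A)ᵀ * rm E23 * rm d.A =
      sk (d.Cf 0 1) (d.Cf 0 2) (d.Cf 0 3) (d.Cf 1 2) (d.Cf 1 3) (d.Cf 2 3) := by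
    ext i j
    fin_cases i <;> fin_cases j <;>
      simp [rm, E23, Cf, sk, Matrix.mul_apply, Fin.sum_univ_four] <;> ring
  have e2 : (rm d.A)ᵀ * rm (d.Tᵀ * E23 * d.T) * rm d.A =
      sk (d.Cf 0 1) (-d.Cf 0 2) (-d.Cf 0 3) (-d.Cf 1 2) (-d.Cf 1 3) (d.Cf 2 3) := by
    calc _ = (rm (d.T * d.A))ᵀ * rm E23 * rm (d.T * d.A) := by
          simp only [rm_mul, rm_tr, Matrix.transpose_mul, Matrix.mul_assoc]
      _ = (rm DD)ᵀ * ((rm d.A)ᵀ * rm E23 * rm d.A) * rm DD := by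
          rw [fold_T h]
          simp only [rm_mul, Matrix.transpose_mul, Matrix.mul_assoc]
      _ = _ := by
          rw [e1]
          ext i j
          fin_cases i <;> fin_cases j <;>
            simp [rm, DD, sk, Matrix.mul_apply, Matrix.diagonal]
  simp only [Matrix.mul_sub, Matrix.sub_mul, Matrix.mul_smul, Matrix.smul_mul, e1, e2, Om0,
    fold_comb h]
  ext i j
  fin_cases i <;> fin_cases j <;> simp [sk] <;> ring

theorem sm_Om (d : HD) (ν : ℝ) : SmM d.Om ν :=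
  ((((SmM.const _).add (SmM.const _)).add (SmM.smul contDiffAt_id (SmM.const _))).sub
    (SmM.smul (contDiff_shf.comp (by fun_prop)).contDiffAt (SmM.const _))).sub
    (SmM.smul (contDiff_shf.comp (by fun_prop)).contDiffAt (SmM.const _))

/-- The pair is, in the fold frame and after scaling, a pair with bounds. -/
def Nrm (d : HD) (c C : ℝ) (O B : M4) : Prop :=
  ∃ O' B', Bd c C O' B' ∧ (rm d.A)ᵀ * O * rm d.A = (d.σ ^ 3) ^ 2 • O' ∧ B = rm d.A * B'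

theorem Nrm.good {c C : ℝ} {O B : M4} (h : d.Nrm c C O B) (hσ : 0 < d.σ) (hO : Oᵀ = -O) :
    Good O B ∧ c * d.σ ^ 6 ≤ gm O B 0 1 ∧ gm O B 0 1 ≤ C * d.σ ^ 6 ∧
      c * d.σ ^ 12 ≤ Fr.pf4 (gm O B) := by
  obtain ⟨O', B', h1, h2, rfl⟩ := h
  have e : gm O (rm d.A * B') = (d.σ ^ 3) ^ 2 • gm O' B' := by rw [← Fr.gm_pull, h2, Fr.gm_smul]
  have p : 0 < (d.σ ^ 3) ^ 2 := by positivity
  unfold Good
  rw [e, Fr.pf4_smul, Matrix.smul_apply, smul_eq_mul]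
  refine ⟨⟨hO, mul_pos p h1.1.2.1, mul_pos (by positivity) h1.1.2.2⟩, ?_, ?_, ?_⟩
  · linarith only [h1, p, mul_le_mul_of_nonneg_left h1.2.1 p.le]
  · nlinarith [mul_le_mul_of_nonneg_left h1.2.2.1 p.le]
  · linarith only [h1, mul_le_mul_of_nonneg_left h1.2.2.2.1 (sq_nonneg ((d.σ ^ 3) ^ 2)), sq_nonneg ((d.σ ^ (3 : ℕ)) ^ (2 : ℕ))]

theorem Nrm.low {c C : ℝ} {O B : M4} (h : d.Nrm c C O B) (hσ : 0 < d.σ) (hA : d.A * d.A' = 1)
    (x : V4) : c * d.σ ^ 6 * ‖rm d.A' *ᵥ x‖ ^ 2 ≤ nsq (fr O B *ᵥ x) := by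
  obtain ⟨O', B', h1, h2, rfl⟩ := h
  have e : fr O (rm d.A * B') *ᵥ x = d.σ ^ 3 • (fr O' B' *ᵥ (rm d.A' *ᵥ x)) := by
    rw [← Matrix.smul_mulVec, ← h1.1.fr_smul (by positivity), ← h2, Fr.fr_pull,
      Matrix.mulVec_mulVec, Matrix.mul_assoc, ← rm_mul, hA, rm_one, Matrix.mul_one]
  rw [e, Fr.nsq_smul]
  linarith only [h1, mul_le_mul_of_nonneg_left (h1.2.2.2.2.2 (rm d.A' *ᵥ x)).1 (sq_nonneg (d.σ ^ 3)), sq_nonneg (d.σ ^ (3 : ℕ))]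

/-- The conditions that do not involve frames. -/
structure Pre (d : HD) (c C : ℝ) : Prop where
  AA : d.A * d.A' = 1
  AA' : d.A' * d.A = 1
  c2 : Odd (d.A 2 2)
  c3 : Even (d.A 3 2)
  e3 : Odd (d.A 3 3)
  u0 : Even (d.A 3 0 + d.Xh 0 0)
  u1 : Even (d.A 3 1 + d.Xh 1 0)
  v01 : d.v 0 1 ≠ 0
  ha : 0 < d.a
  ha' : 1 ≤ d.a'
  hX : d.Xh.det ≤ 0
  hμ : 2 ≤ d.μ₁
  hσ : 1 ≤ d.σ
  hY : d.Y = !![d.σ⁻¹, 0; 0, d.σ]
  hη : EtaOk d.η d.M₁ d.M₂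
  hg : GaugeOk d.g d.σ
  r1 : ∀ i, ∑ j, |rm d.A i j| ≤ 5 * d.σ ^ 2
  r2 : ∑ j, |rm d.A 2 j| ≤ 5
  hc : 0 < c
  hC : 1 ≤ C
  c0 : d.c₀ = c / C * d.σ ^ 4
  m1 : d.M₁ = 3200
  k1 : 204800 ≤ c * d.σ ^ 2
  k2 : 2048 * d.M₂ ≤ c / C * d.σ ^ 2
  k3 : 8 ≤ c / C * d.σ ^ 2

theorem Pre.small {c C : ℝ} (h : d.Pre c C) {O B : M4} (hN : d.Nrm c C O B) {x : V4}
    (hx : nsq (fr O B *ᵥ x) ≤ 8) :
    5 * d.σ ^ 2 * ‖rm d.A' *ᵥ x‖ ≤ 1 / 32 ∧ c * d.σ ^ 6 * ‖rm d.A' *ᵥ x‖ ^ 2 ≤ 8 := by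
  have h1 := (hN.low (by linarith [h.hσ]) h.AA x).trans hx
  refine ⟨abs_le_of_sq_le_sq' (b := 1 / 32) ?_ (by norm_num) |>.2, h1⟩
  linarith only [h1, h, mul_le_mul_of_nonneg_right h.k1 (sq_nonneg (d.σ ^ 2 * ‖rm d.A' *ᵥ x‖)), sq_nonneg (d.σ ^ (2 : ℕ) * ‖rm d.A' *ᵥ x‖)]

theorem Pre.ok {c C : ℝ} (h : d.Pre c C) {B : ℝ → M4} (hB : ∀ ν, SmM B ν)
    (h1 : ∀ ν, |ν| ≤ d.M + 1 / 4 → d.Nrm c C (d.Om ν) (B ν))
    (h2 : ∀ ν, |ν - d.μ₁| ≤ 1 / 4 → B ν = b0 (d.σ ^ 2))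
    (h3 : ∀ ν, |ν| ≤ d.M + 1 / 4 → d.Nrm c C (d.Om0 ν) (b0 (d.σ ^ 2))) : (d.wi B).Ok := by
  have hσ : 0 < d.σ := by linarith [h.hσ]
  have hσ' := hσ.ne'
  have hμ := h.hμ
  have hM : d.M = d.μ₁ + 1 := rfl
  have hc := h.hc
  have hC := h.hC
  have s2 : 1 ≤ d.σ ^ 2 := one_le_pow₀ h.hσ
  have g : ∀ ν, |ν| ≤ d.M + 1 / 4 → Good (d.Om ν) (B ν) := fun ν hν =>
    ((h1 ν hν).good hσ (d.Om_skew ν)).1
  have sm : ∀ i j, ContDiff ℝ ∞ fun s => (d.wi B).cf s i j := fun i j =>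
    contDiff_iff_contDiffAt.2 fun s =>
      (((d.sm_Om _).fr (hB _) (g _ (clp_le (by linarith) s))) i j).comp s
        (contDiff_clp d.M).contDiffAt
  have cf : ∀ ν, |ν| ≤ d.M + 1 / 8 → (d.wi B).cf ν = fr (d.Om ν) (B ν) := fun ν hν => by
    change fr (d.Om (clp d.M ν)) (B (clp d.M ν)) = _
    rw [clp_eq hν]
  have nz : ∀ ν, |ν| ≤ d.M + 1 / 8 → ∀ x, normSq ((d.wi B).z1 ν x) + normSq ((d.wi B).z2 ν x) =
      nsq (fr (d.Om ν) (B ν) *ᵥ x) := fun ν hν x => by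
    simp only [z1, z2, cf ν hν, normSq_mk, nsq]; ring
  have ad : ∀ ν, |ν - d.μ₁| ≤ 1 / 4 → ∃ hg : Good (d.Om0 ν) (b0 (d.σ ^ 2)),
      (d.wi B).cf ν = fr (d.Om0 ν) (b0 (d.σ ^ 2)) := fun ν hν => by
    have a := abs_le.1 hν
    have b : |ν| ≤ d.M + 1 / 8 := abs_le.2 ⟨by linarith only [hμ, hM, a, a.1], by linarith only [hM, a, a.2]⟩
    exact ⟨((h3 ν (by linarith only [b])).good hσ (d.Om0_skew ν)).1,
      by rw [cf ν b, h2 ν hν, d.Om_mid a.2 (by linarith only [hμ, a, a.1])]⟩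
  have xA : ∀ x, rm d.A *ᵥ (rm d.A' *ᵥ x) = x := fun x => by
    rw [Matrix.mulVec_mulVec, ← rm_mul, h.AA, rm_one, Matrix.one_mulVec]
  have sk : ∀ ν i j, d.Om0 ν j i = -d.Om0 ν i j := fun ν i j =>
    congrFun (congrFun (d.Om0_skew ν) i) j
  have dg : ∀ ν i, d.Om0 ν i i = 0 := fun ν i => by linarith only [sk, sk ν i i]
  have bp : ∀ ν, Good (d.Om0 ν) (b0 (d.σ ^ 2)) → d.Om0 ν 0 1 ≠ 0 := fun ν hg e => by
    have := hg.2.1
    rw [Fr.gm_b0_01 hg.1 (by positivity), e, zero_div] at this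
    exact this.false
  refine ⟨h.AA, h.AA', h.c2, h.c3, h.e3, h.u0, h.u1, h.v01, h.ha, fun μ _ => ?_, h.hμ, hσ, ?_, h.hη,
    h.hg, fun i j ν _ => (sm i j).contDiffAt, sm, fun ν hν => ?_, fun ν hν x => ?_,
    fun ν hν x => ?_, fun ν hν x hx => ?_, fun ν h4 h5 x hx => ?_, ?_, ?_, fun μ h4 h5 => ?_⟩
  · have : μ ^ 2 * (4 * (d.Xh.det : ℝ)) / d.a ≤ 0 := div_nonpos_of_nonpos_of_nonneg
      (mul_nonpos_of_nonneg_of_nonpos (sq_nonneg μ)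
        (by have : (d.Xh.det : ℝ) ≤ 0 := by exact_mod_cast h.hX
            linarith only [this])) h.ha.le
    change 1 ≤ d.a' - μ ^ 2 * (4 * (d.Xh.det : ℝ)) / d.a
    linarith only [this, h, h.ha']
  · change 0 < d.Y.det
    simp [h.hY, hσ']
  · change _ ≤ d.M + 1 / 8 at hν
    rw [cf ν hν, JJ_eq]
    exact (g ν (by linarith only [hν])).spec
  · obtain ⟨hg, e⟩ := ad ν hν
    rw [z1, e, Fr.fr_b0 hσ hg]
    change _ = (√(Real.pi * Fr.pf4 (d.Om0 ν) / d.Om0 ν 0 1) : ℝ) * (⟨d.σ * x 2, x 3 / d.σ⟩ : ℂ)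
    apply Complex.ext <;> simp [Matrix.mulVec, dotProduct, Fin.sum_univ_four] <;> ring
  · obtain ⟨hg, e⟩ := ad ν hν
    have := bp ν hg
    rw [z2, e, Fr.fr_b0 hσ hg]
    change _ = (√(Real.pi * d.Om0 ν 0 1 / d.Y.det) : ℝ) *
      (⟨d.Y 0 0 * d.y0 ν x + d.Y 0 1 * d.y1 ν x, d.Y 1 0 * d.y0 ν x + d.Y 1 1 * d.y1 ν x⟩ : ℂ)
    apply Complex.ext <;>
      simp [h.hY, hσ', y0, y1, b, bf, Matrix.mulVec, dotProduct, Fin.sum_univ_four, dg,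
        sk ν 1 2, sk ν 1 3] <;> field_simp <;> ring
  · change _ ≤ d.M + 1 / 8 at hν
    rw [nz ν hν] at hx
    have a := (h.small (h1 ν (by linarith only [hν])) hx).1
    have n0 := norm_nonneg (rm d.A' *ᵥ x)
    refine ⟨?_, ?_, by change ‖rm d.A' *ᵥ x‖ ≤ _; (refine le_of_not_gt fun h_nl => ?_; linarith only [h_nl, s2, a, mul_nonneg_of_nonpos_of_nonpos (Mathlib.Tactic.Linarith.sub_nonpos_of_le (sq_nonneg d.σ)) (le_of_lt (Mathlib.Tactic.Linarith.sub_neg_of_lt h_nl))])⟩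
    · rw [← xA x]
      exact (rows_le _ _ h.r1).trans a
    · change ‖rm (d.A * DD * d.A') *ᵥ x‖ ≤ _
      rw [rm_mul, rm_mul, ← Matrix.mulVec_mulVec, ← Matrix.mulVec_mulVec]
      exact (rows_le _ _ h.r1).trans ((mul_le_mul_of_nonneg_left (norm_DD _)
        (by positivity)).trans a)
  · change _ ≤ d.M + 1 / 8 at h5
    change d.μ₁ + 1 / 8 ≤ _ at h4
    have hν : |ν| ≤ d.M + 1 / 8 := abs_le.2 ⟨by linarith only [hμ, hM, h4], h5⟩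
    rw [nz ν hν] at hx
    have a := (h.small (h1 ν (by linarith only [hν])) hx).2
    have a2 := sq_le_sq' (abs_le.1 (row_le _ (rm d.A' *ᵥ x) 2 h.r2)).1
      (abs_le.1 (row_le _ (rm d.A' *ᵥ x) 2 h.r2)).2
    have a3 := sq_le_sq' (abs_le.1 (row_le _ (rm d.A' *ᵥ x) 3 (h.r1 3))).1
      (abs_le.1 (row_le _ (rm d.A' *ᵥ x) 3 (h.r1 3))).2
    rw [xA] at a2 a3
    change 8 * d.c₀ * (d.σ ^ 2 * x 2 ^ 2 + x 3 ^ 2 / d.σ ^ 2) ≤ d.M₁
    have a4 : d.σ ^ 2 * x 2 ^ 2 + x 3 ^ 2 / d.σ ^ 2 ≤ 50 * d.σ ^ 2 * ‖rm d.A' *ᵥ x‖ ^ 2 := by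
      have : x 3 ^ 2 / d.σ ^ 2 ≤ 25 * d.σ ^ 2 * ‖rm d.A' *ᵥ x‖ ^ 2 := by
        rw [div_le_iff₀ (by positivity)]; linarith only [a3]
      linarith only [this, a2, mul_le_mul_of_nonneg_left a2 (sq_nonneg d.σ), sq_nonneg d.σ]
    have a5 : c / C ≤ c := div_le_self hc.le hC
    rw [h.c0, h.m1]
    calc _ ≤ 8 * (c * d.σ ^ 4) * (50 * d.σ ^ 2 * ‖rm d.A' *ᵥ x‖ ^ 2) := by gcongr
      _ ≤ _ := by linarith only [a]
  · change 2048 * d.M₂ ≤ d.c₀ * min (d.σ ^ 2) (1 / d.σ ^ 2)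
    rw [min_eq_right ((div_le_one (by positivity)).2 s2 |>.trans s2), h.c0]
    convert h.k2 using 1
    field_simp
  · change 8 ≤ d.c₀
    rw [h.c0]
    linarith only [h, s2, hc, hC, hσ, h.k3, mul_le_mul_of_nonneg_left s2 (show 0 ≤ c / C * d.σ ^ 2 by positivity)]
  · change _ ≤ d.M + 1 / 8 at h5
    change d.μ₁ - 1 / 4 ≤ _ at h4
    obtain ⟨hg, a1, a2, a3⟩ := (h3 μ (abs_le.2 ⟨by linarith only [hμ, hM, h4], by linarith only [h5]⟩)).good hσ (d.Om0_skew μ)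
    rw [Fr.gm_b0_01 hg.1 (by positivity)] at a1 a2
    rw [Fr.pf_b0 hg.1 (by positivity)] at a3
    rw [le_div_iff₀ (by positivity)] at a1
    rw [div_le_iff₀ (by positivity)] at a2
    have b1 : 0 < d.Om0 μ 0 1 := lt_of_lt_of_le (by positivity) a1
    refine ⟨b1, ?_⟩
    change d.c₀ ≤ Real.pi * Fr.pf4 (d.Om0 μ) / d.Om0 μ 0 1
    rw [le_div_iff₀ b1, h.c0]
    calc _ ≤ c / C * d.σ ^ 4 * (C * d.σ ^ 6 * d.σ ^ 2) := by gcongr
      _ = 1 * (c * d.σ ^ 12) := by field_simp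
      _ ≤ _ := by gcongr; linarith only [Real.pi_gt_three]

end HD

end

end Pool.Agent.Work.MP_bf98aa_gt.B3
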