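import Pool.Agent.Work.MP_bf98aa_gt.Cy.Stmt
import Pool.Agent.Work.MP_bf98aa_gt.Th.FMV

-- merged part: Pool.Agent.Work.MP_bf98aa_gt.Cy.KDefs
section
-- merged part: Pool.Agent.Work.MP_bf98aa_gt.Cy.GDefs
section
/-!
Working definitions, abstract layer. See the team-store file `h41_bf98aa_cy.md`.
Coordinates `(j, 0)` are base coordinates and `(j, 1)` fibre coordinates.
-/

set_option autoImplicit false

open scoped Manifold ContDiff Topology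
open Set

namespace Pool.Agent.Work.MP_bf98aa_gt.Cy

open Pool.Agent.Work.MP_bf98aa_gt.Th

/-- The model space. -/
abbrev E6 : Type := Sp (Fin 3)

/-- Indices of coordinates. -/
abbrev Cx : Type := Fin 3 × Fin 2

/-- A point from its coordinates `(0,0) (0,1) (1,0) (1,1) (2,0) (2,1)`. -/
def mk (a b c d e f : ℝ) : E6 := fun i => ![![a, b], ![c, d], ![e, f]] i.1 i.2

@[simp] theorem mk00 (a b c d e f : ℝ) : mk a b c d e f (0, 0) = a := rfl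
@[simp] theorem mk01 (a b c d e f : ℝ) : mk a b c d e f (0, 1) = b := rfl
@[simp] theorem mk10 (a b c d e f : ℝ) : mk a b c d e f (1, 0) = c := rfl
@[simp] theorem mk11 (a b c d e f : ℝ) : mk a b c d e f (1, 1) = d := rfl
@[simp] theorem mk20 (a b c d e f : ℝ) : mk a b c d e f (2, 0) = e := rfl
@[simp] theorem mk21 (a b c d e f : ℝ) : mk a b c d e f (2, 1) = f := rfl

theorem ext6 {z z' : E6} (h00 : z (0, 0) = z' (0, 0)) (h01 : z (0, 1) = z' (0, 1))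
    (h10 : z (1, 0) = z' (1, 0)) (h11 : z (1, 1) = z' (1, 1)) (h20 : z (2, 0) = z' (2, 0))
    (h21 : z (2, 1) = z' (2, 1)) : z = z' := by
  funext ⟨i, j⟩
  fin_cases i <;> fin_cases j <;> assumption

/-- Basis vectors. -/
def bv (i : Cx) : E6 := Pi.single i 1

/-- Coordinate forms. -/
def dc (i : Cx) : E6 →L[ℝ] ℝ := ContinuousLinearMap.proj i

/-- Forms on `M`. -/
abbrev Fo (M : Type) (k : ℕ) : Type := M → Alt E6 k

section
variable {M : Type} [TopologicalSpace M] [ChartedSpace E6 M] {F : Type} [NormedAddCommGroup F]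
  [NormedSpace ℝ F] {k : ℕ}

/-- Smooth at a point. -/
def SmAt (ψ : F → M) (x : F) : Prop := ContMDiffAt 𝓘(ℝ, F) 𝓘(ℝ, E6) ∞ ψ x

/-- The derivative. -/
noncomputable def dM (ψ : F → M) (x : F) : F →L[ℝ] E6 := mfderiv 𝓘(ℝ, F) 𝓘(ℝ, E6) ψ x

/-- Pull-back to a vector space. -/
noncomputable def pl (ψ : F → M) (w : Fo M k) : Fm F k :=
  fun y => (w (ψ y)).compContinuousLinearMap (dM ψ y)

/-- `ψ` is a local diffeomorphism on the open set `U`. -/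
structure Par (ψ : E6 → M) (U : Set E6) : Prop where
  opn : IsOpen U
  sm : ∀ x ∈ U, SmAt ψ x
  inv : ∀ x ∈ U, ∃ χ : M → E6, ContMDiffAt 𝓘(ℝ, E6) 𝓘(ℝ, E6) ∞ χ (ψ x) ∧
    (∀ᶠ y in 𝓝 x, χ (ψ y) = y) ∧ ∀ᶠ m in 𝓝 (ψ x), ψ (χ m) = m

/-- `f` is a smooth local lift of `ψ` through `ψ'` at `x`. -/
def Tr (ψ : F → M) (ψ' : E6 → M) (f : F → E6) (x : F) : Prop :=
  ContDiffAt ℝ ∞ f x ∧ ∀ᶠ z in 𝓝 x, ψ' (f z) = ψ z

/-- The forms `α`, `α'` correspond at `x`, `y`. -/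
def Cmp (ψ : E6 → M) (α : Fm E6 k) (x : E6) (ψ' : E6 → M) (α' : Fm E6 k) (y : E6) : Prop :=
  ∃ f, Tr ψ ψ' f x ∧ f x = y ∧ pb f α' x = α x

/-- Smooth on `O`. -/
def SmO (w : Fo M k) (O : Set M) : Prop := ∀ ψ U, Par ψ U → MapsTo ψ U O → Sm (pl ψ w) U

/-- Smooth and closed on `O`. -/
def ClO (w : Fo M k) (O : Set M) : Prop := ∀ ψ U, Par ψ U → MapsTo ψ U O → Cl (pl ψ w) U

/-- `b` is a smooth primitive of `w` on `O`. -/
def IsDO (b : Fo M k) (w : Fo M (k + 1)) (O : Set M) : Prop :=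
  ∀ ψ U, Par ψ U → MapsTo ψ U O → IsD (pl ψ b) (pl ψ w) U

/-- Exact on `O`. -/
def ExO (w : Fo M (k + 1)) (O : Set M) : Prop := ∃ b : Fo M k, IsDO b w O

/-- The fibres of `ψ` on `U` are the orbits of the family `T`. -/
structure Deck (ψ : E6 → M) (U : Set E6) (T : Set (E6 → E6)) : Prop where
  par : Par ψ U
  sm : ∀ f ∈ T, ContDiff ℝ ∞ f
  maps : ∀ f ∈ T, MapsTo f U U
  eq : ∀ f ∈ T, ∀ x ∈ U, ψ (f x) = ψ x
  trans : ∀ x ∈ U, ∀ y ∈ U, ψ x = ψ y → ∃ f ∈ T, f x = y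

/-- Integral of a 2-form over the circle `t ↦ c (s, t)` against the `s`-direction. -/
noncomputable def cyl (c : ℝ × ℝ → M) (w : Fo M 2) (s : ℝ) : ℝ :=
  ∫ t in (0 : ℝ)..1, pl c w (s, t) ![(1, 0), (0, 1)]

/-- Integral of a 1-form over the circle `t ↦ c (s, t)`. -/
noncomputable def circ (c : ℝ × ℝ → M) (b : Fo M 1) (s : ℝ) : ℝ :=
  ∫ t in (0 : ℝ)..1, pl c b (s, t) ![(0, 1)]

/-- A parametrised affine plane. -/
def lin (ψ : E6 → M) (z a b : E6) : ℝ × ℝ → M := fun p => ψ (z + p.1 • a + p.2 • b)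

end

/-- Integral of a 2-form over a parallelogram. -/
noncomputable def per2 (α : Fm E6 2) (z a b : E6) : ℝ :=
  ∫ s in (0 : ℝ)..1, ∫ t in (0 : ℝ)..1, α (z + s • a + t • b) ![a, b]

/-- The segments from `x` to `π x` stay in `U`. -/
def Seg (U : Set E6) (π : E6 → E6) : Prop :=
  ∀ x ∈ U, ∀ t ∈ Icc (0 : ℝ) 1, x + t • (π x - x) ∈ U

/-- The maps of `T` commute with the straight homotopy from the identity to `π`. -/
def Comm (T : Set (E6 → E6)) (π : E6 → E6) : Prop :=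
  ∀ f ∈ T, ∀ (x : E6) (t : ℝ), f (x + t • (π x - x)) = f x + t • (π (f x) - f x)

/-- Projection to the affine slice through `z₀` with free coordinates `S`. -/
def slice (S : Finset Cx) (z₀ z : E6) : E6 := fun i => if i ∈ S then z i else z₀ i

/-- The constant form `∑ γ i j d(base i) ∧ d(fibre j)`, `i, j < 2`. -/
noncomputable def cst (γ : Matrix (Fin 2) (Fin 2) ℝ) : Alt E6 2 :=
  ∑ i : Fin 2, ∑ j : Fin 2, γ i j • wedge (dc (i.castSucc, 0)) (dc (j.castSucc, 1))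

/-- The connection form `dφ + ∑ A i j (base i) d(fibre j)`. -/
noncomputable def conn (A : Matrix (Fin 2) (Fin 2) ℝ) (z : E6) : E6 →L[ℝ] ℝ :=
  dc (2, 1) + ∑ i : Fin 2, ∑ j : Fin 2, (A i j * z (i.castSucc, 0)) • dc (j.castSucc, 1)

/-- The form `γ + d (μ α)` on a circle bundle with Euler class `A`. -/
noncomputable def heis (γ A : Matrix (Fin 2) (Fin 2) ℝ) : Fm E6 2 :=
  fun z => cst (γ + z (2, 0) • A) + wedge (dc (2, 0)) (conn A z)

/-- An integer matrix as a real one. -/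
def toR (A : Matrix (Fin 2) (Fin 2) ℤ) : Matrix (Fin 2) (Fin 2) ℝ := fun i j => A i j

/-- The Heisenberg type deck transformation. -/
noncomputable def hact (A : Matrix (Fin 2) (Fin 2) ℤ) (m₀ m₁ n₀ n₁ l : ℤ) (z : E6) : E6 :=
  mk (z (0, 0) + m₀) (z (0, 1) + n₀) (z (1, 0) + m₁) (z (1, 1) + n₁) (z (2, 0))
    (z (2, 1) - (m₀ * (A 0 0 * z (0, 1) + A 0 1 * z (1, 1)) +
      m₁ * (A 1 0 * z (0, 1) + A 1 1 * z (1, 1))) + l)

/-- The deck group; for `κ = 0` the first coordinate is not periodic. -/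
def HT (κ : ℤ) (A : Matrix (Fin 2) (Fin 2) ℤ) : Set (E6 → E6) :=
  {f | ∃ m₀ m₁ n₀ n₁ l : ℤ, f = hact A (κ * m₀) m₁ n₀ n₁ l}

/-- The orbit relation of the deck group. -/
def RS (κ : ℤ) (A : Matrix (Fin 2) (Fin 2) ℤ) (z z' : E6) : Prop := ∃ f ∈ HT κ A, f z = z'

/-- The slab `a < μ < b`. -/
def Slab (a b : ℝ) : Set E6 := {z | a < z (2, 0) ∧ z (2, 0) < b}

/-- An atlas with a gluing relation. -/
structure Atl (ι : Type) where
  W : ι → Set E6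
  R : ι → E6 → ι → E6 → Prop

/-- The relation is a closed etale equivalence relation. -/
structure Atl.Pre {ι : Type} (A : Atl ι) : Prop where
  opn : ∀ i, IsOpen (A.W i)
  mem : ∀ {i x j y}, A.R i x j y → x ∈ A.W i ∧ y ∈ A.W j
  refl : ∀ {i x}, x ∈ A.W i → A.R i x i x
  symm : ∀ {i x j y}, A.R i x j y → A.R j y i x
  trans : ∀ {i x j y l z}, A.R i x j y → A.R j y l z → A.R i x l z
  loc : ∀ {i x j y}, A.R i x j y →
    ∃ f : E6 → E6, ContDiffAt ℝ ∞ f x ∧ f x = y ∧ ∀ᶠ z in 𝓝 x, A.R i z j (f z)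
  inj : ∀ {i x}, x ∈ A.W i → ∀ᶠ p : E6 × E6 in 𝓝 (x, x), A.R i p.1 i p.2 → p.1 = p.2
  clo : ∀ {i x j y}, x ∈ A.W i → y ∈ A.W j →
    (x, y) ∈ closure {p : E6 × E6 | A.R i p.1 j p.2} → A.R i x j y

/-- Finitely many compact sets meet every class. -/
def Atl.Cpt {ι : Type} (A : Atl ι) : Prop :=
  ∃ K : ι → Set E6, (∀ i, IsCompact (K i) ∧ K i ⊆ A.W i) ∧
    ∀ i, ∀ x ∈ A.W i, ∃ j, ∃ y ∈ K j, A.R i x j y

/-- Disjoint union of copies. -/
def Atl.copies {ι : Type} (A : Atl ι) (J : Type) : Atl (J × ι) where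
  W p := A.W p.2
  R p x p' y := p.1 = p'.1 ∧ A.R p.2 x p'.2 y

/-- Data for gluing two atlases: the map `o l` takes `D l` in the chart `s l` of the first atlas to
the chart `t l` of the second one. -/
structure Gl (ι₁ ι₂ L : Type) where
  D : L → Set E6
  s : L → ι₁
  t : L → ι₂
  o : L → E6 → E6

/-- The mixed relation. -/
def Gl.S {ι₁ ι₂ L : Type} (G : Gl ι₁ ι₂ L) (A : Atl ι₁) (B : Atl ι₂) (i : ι₁) (x : E6) (j : ι₂)
    (y : E6) : Prop :=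
  ∃ l, ∃ z ∈ G.D l, A.R i x (G.s l) z ∧ B.R (G.t l) (G.o l z) j y

/-- The glued atlas. -/
def Gl.atl {ι₁ ι₂ L : Type} (G : Gl ι₁ ι₂ L) (A : Atl ι₁) (B : Atl ι₂) : Atl (ι₁ ⊕ ι₂) where
  W := Sum.elim A.W B.W
  R := fun
    | .inl i, x, .inl j, y => A.R i x j y
    | .inl i, x, .inr j, y => G.S A B i x j y
    | .inr i, x, .inl j, y => G.S A B j y i x
    | .inr i, x, .inr j, y => B.R i x j y

/-- Conditions for gluing. -/
structure Gl.Ok {ι₁ ι₂ L : Type} (G : Gl ι₁ ι₂ L) (A : Atl ι₁) (B : Atl ι₂) : Prop where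
  opn : ∀ l, IsOpen (G.D l)
  sub : ∀ l, G.D l ⊆ A.W (G.s l)
  maps : ∀ l, MapsTo (G.o l) (G.D l) (B.W (G.t l))
  sm : ∀ l, ∀ z ∈ G.D l, ContDiffAt ℝ ∞ (G.o l) z ∧ ∃ o' : E6 → E6, ContDiffAt ℝ ∞ o' (G.o l z) ∧
    o' (G.o l z) = z ∧ ∀ᶠ y in 𝓝 (G.o l z), G.o l (o' y) = y
  iff : ∀ l l', ∀ z ∈ G.D l, ∀ z' ∈ G.D l',
    A.R (G.s l) z (G.s l') z' ↔ B.R (G.t l) (G.o l z) (G.t l') (G.o l' z')
  clo : ∀ i j, ∀ x ∈ A.W i, ∀ y ∈ B.W j, (x, y) ∈ closure {p : E6 × E6 | G.S A B i p.1 j p.2} →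
    ∃ l, ∃ z ∈ G.D l, A.R i x (G.s l) z

/-- A locally constant cocycle on the pairs of points with the same image. -/
structure Coc {M ι H : Type} [Group H] (ψ : ι → E6 → M) (U : ι → Set E6)
    (T : ι → E6 → ι → E6 → H) : Prop where
  mul : ∀ i x j y l z, T i x j y * T j y l z = T i x l z
  lc : ∀ i j, ∀ x ∈ U i, ∀ y ∈ U j, ψ i x = ψ j y →
    ∀ᶠ p : E6 × E6 in 𝓝 (x, y), ψ i p.1 = ψ j p.2 → T i p.1 j p.2 = T i x j y

/-- Vertical vectors. -/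
def Vert (v : E6) : Prop := ∀ j, v (j, 0) = 0

/-- The linear map preserves vertical vectors and the vertical volume. -/
def VOk (L : E6 →L[ℝ] E6) : Prop :=
  (∀ v, Vert v → Vert (L v)) ∧ (Matrix.of fun i j : Fin 3 => L (bv (j, 1)) (i, 1)).det = 1

/-- The transition map respects the vertical data. -/
def VCmp {M : Type} (ψ : E6 → M) (x : E6) (ψ' : E6 → M) (y : E6) : Prop :=
  ∃ f, Tr ψ ψ' f x ∧ f x = y ∧ VOk (fderiv ℝ f x)

/-- The complex volume of three vectors. -/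
noncomputable def detC (S : E6 →L[ℝ] (Fin 3 → ℂ)) (v : Fin 3 → E6) : ℂ :=
  (Matrix.of fun i j : Fin 3 => S (v j) i).det

/-- The complex structure induced by `S` is tamed by `η`. -/
def TameS (η : Alt E6 2) (S : E6 →L[ℝ] (Fin 3 → ℂ)) : Prop :=
  Function.Bijective S ∧ ∀ v v', v ≠ 0 → S v' = Complex.I • S v → 0 < η ![v, v']

end Pool.Agent.Work.MP_bf98aa_gt.Cy
end

-- merged part: Pool.Agent.Work.MP_bf98aa_gt.Cy.KDefs
section
/-!
The kink model. Coordinates on the charts `m`, `p`: `(p, q) = (z (0,0), z (0,1))`, `(x, y) = (z (1,0), z (1,1))`,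
`(μ, φ) = (z (2,0), z (2,1))`; on the chart `f`: `u = z (0,0) + i z (0,1)`, `w = z (2,0) + i z (2,1)`.
All three charts map to the hypersurface `U W = g (p, q)` of the ambient space `Am ∋ ((p, q, x, y), U, W)`.
-/

set_option autoImplicit false

open scoped Manifold ContDiff Topology
open Set Complex

namespace Pool.Agent.Work.MP_bf98aa_gt.Cy

open Pool.Agent.Work.MP_bf98aa_gt.Th

noncomputable section

/-- `exp (2 π i t)`. -/
def ee (t : ℝ) : ℂ := Complex.exp (2 * Real.pi * t * I)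

/-- Equal to `p` near `0` and to `± 1` for `± p ≥ 1 / 4`. -/
def nu (p : ℝ) : ℝ :=
  p + (1 - p) * Real.smoothTransition (8 * p - 1) - (1 + p) * Real.smoothTransition (-8 * p - 1)

/-- The gauge function on a strip. -/
def g0 (p q : ℝ) : ℂ := ((1 - nu p) / 2 : ℝ) + ((1 + nu p) / 2 : ℝ) * ee q

/-- The gauge function. -/
def gg (p q : ℝ) : ℂ := ee (round p * q) * g0 (p - round p) q

/-- Equal to `t` for `t ≤ 1 / 128` and to `1 / 64` for `t ≥ 1 / 64`. -/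
def tau (t : ℝ) : ℝ :=
  t * (1 - Real.smoothTransition (128 * t - 1)) + Real.smoothTransition (128 * t - 1) / 64

/-- `tau t / t`. -/
def tau1 (t : ℝ) : ℝ :=
  (1 - Real.smoothTransition (128 * t - 1)) + Real.smoothTransition (128 * t - 1) / (64 * t)

/-- A bump: 1 on `|μ| ≤ 1 / 32`, 0 on `|μ| ≥ 1 / 16`. -/
def psi (μ : ℝ) : ℝ := Real.smoothTransition (2 - 32 * μ) * Real.smoothTransition (2 + 32 * μ)

/-- The modified radius. -/
def rt (t μ : ℝ) : ℝ := √(μ ^ 2 + 4 * tau t * psi μ)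

/-- The radius `|U|² + |W|²`. -/
def r0 (t μ : ℝ) : ℝ := √(μ ^ 2 + 4 * t)

/-- The function `h₋`. -/
def hm (t μ : ℝ) : ℝ := (rt t μ + μ) / 2

/-- The function `h₋` far from the zeros. -/
def hinf (μ : ℝ) : ℝ := hm 1 μ

/-- `(rt - r0) / (2 t)`. -/
def kk (t μ : ℝ) : ℝ := 2 * (tau1 t * psi μ - 1) / (rt t μ + r0 t μ)

/-- First component of the local inverse of `g0`. -/
def PP (s : ℂ) : ℝ := (normSq s - s.re) / (1 - s.re)

/-- Second component of the local inverse of `g0`. -/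
def QQ (s : ℂ) : ℝ := 1 / 2 + Real.arctan (-s.im / ((1 - PP s) / 2 - s.re)) / (2 * Real.pi)

/-- The ambient space. -/
abbrev Am : Type := (Fin 4 → ℝ) × ℂ × ℂ

/-- The three charts. -/
inductive K3
  | m
  | p
  | f
  deriving DecidableEq, Fintype

/-- Data of a kink: periodicity `κ`, Euler class `A` below the kink, range of `μ`. -/
structure TD where
  κ : ℤ
  A : Matrix (Fin 2) (Fin 2) ℤ
  lo : ℝ
  hi : ℝ

/-- Admissible data. -/
structure TD.Ok (D : TD) : Prop where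
  κ01 : D.κ = 0 ∨ D.κ = 1
  lo : D.lo < -1 / 16
  hi : 1 / 16 < D.hi

/-- The gauge function on a chart. -/
def gz (z : E6) : ℂ := gg (z (0, 0)) (z (0, 1))

/-- Complex coordinate `u`. -/
def uu (z : E6) : ℂ := ⟨z (0, 0), z (0, 1)⟩

/-- Complex coordinate `w`. -/
def ww (z : E6) : ℂ := ⟨z (2, 0), z (2, 1)⟩

/-- A point of the chart `f`. -/
def cplx (u w : ℂ) (x y : ℝ) : E6 := mk u.re u.im x y w.re w.im

/-- The moment map on the chart `f`. -/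
def mF (z : E6) : ℝ := normSq (uu z) - normSq (ww z)

/-- `|U|` for `e = 1`, `|W|` for `e = -1`. -/
def rad (e : ℝ) (z : E6) : ℝ := √((r0 (normSq (gz z)) (z (2, 0)) + e * z (2, 0)) / 2)

/-- Change the coordinate `μ`. -/
def setM (t : ℝ) (z : E6) : E6 := Function.update z (2, 0) t

/-- Change the coordinate `φ`. -/
def setF (t : ℝ) (z : E6) : E6 := Function.update z (2, 1) t

/-- The matrix unit. -/
def E00 : Matrix (Fin 2) (Fin 2) ℝ := !![1, 0; 0, 0]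

/-- The deck transformations of the chart `f`. -/
def fact (a m n : ℤ) (z : E6) : E6 :=
  cplx (uu z * ee (-(m * a * z (1, 1)))) (ww z * ee (m * a * z (1, 1))) (z (1, 0) + m) (z (1, 1) + n)

/-- The deck group of the chart `f`. -/
def FT (a : ℤ) : Set (E6 → E6) := {f | ∃ m n : ℤ, f = fact a m n}

/-- The moment map. -/
def amu (a : Am) : ℝ := normSq a.2.1 - normSq a.2.2

/-- `|U W|²`. -/
def atq (a : Am) : ℝ := normSq (a.2.1 * a.2.2)

/-- Real coordinate forms. -/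
def cx (i : Fin 4) : Am →L[ℝ] ℝ :=
  (ContinuousLinearMap.proj i).comp (ContinuousLinearMap.fst ℝ (Fin 4 → ℝ) (ℂ × ℂ))

/-- `dU`. -/
def cU : Am →L[ℝ] ℂ :=
  (ContinuousLinearMap.fst ℝ ℂ ℂ).comp (ContinuousLinearMap.snd ℝ (Fin 4 → ℝ) (ℂ × ℂ))

/-- `dW`. -/
def cW : Am →L[ℝ] ℂ :=
  (ContinuousLinearMap.snd ℝ ℂ ℂ).comp (ContinuousLinearMap.snd ℝ (Fin 4 → ℝ) (ℂ × ℂ))

/-- `Im (conj u * L) / (2 π)`. -/
def imd (u : ℂ) (L : Am →L[ℝ] ℂ) : Am →L[ℝ] ℝ :=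
  (2 * Real.pi)⁻¹ • (u.re • imCLM.comp L - u.im • reCLM.comp L)

/-- The constant part of the symplectic form. -/
def cstA (γ : Matrix (Fin 2) (Fin 2) ℝ) : Alt Am 2 :=
  γ 0 0 • wedge (cx 0) (cx 1) + γ 0 1 • wedge (cx 0) (cx 3) + γ 1 0 • wedge (cx 2) (cx 1) +
    γ 1 1 • wedge (cx 2) (cx 3)

namespace TD

variable (D : TD)

/-- The base domain. -/
def dom (p μ : ℝ) : Prop := (D.κ = 0 → -1 / 2 < p ∧ p < 3 / 4) ∧ D.lo < μ ∧ μ < D.hi

/-- The domains of the charts. -/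
def W : K3 → Set E6
  | .m => {z | D.dom (z (0, 0)) (z (2, 0)) ∧ (gz z ≠ 0 ∨ z (2, 0) < 0)}
  | .p => {z | D.dom (z (0, 0)) (z (2, 0)) ∧ (gz z ≠ 0 ∨ 0 < z (2, 0))}
  | .f => {z | normSq (uu z * ww z) < 1 / 128 ∧ D.lo < mF z ∧ mF z < D.hi}

/-- The maps to the ambient space. -/
def io : K3 → E6 → Am
  | .m, z => (![z (0, 0), z (0, 1), z (1, 0), z (1, 1)], gz z * ee (z (2, 1)) / rad (-1) z,
      rad (-1) z * ee (-z (2, 1)))
  | .p, z => (![z (0, 0), z (0, 1), z (1, 0), z (1, 1)], rad 1 z * ee (z (2, 1)),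
      gz z * ee (-z (2, 1)) / rad 1 z)
  | .f, z => (![PP (uu z * ww z), QQ (uu z * ww z), z (1, 0), z (1, 1)],
      uu z * ee (-(D.A 1 0 * z (1, 0) * QQ (uu z * ww z))),
      ww z * ee (D.A 1 0 * z (1, 0) * QQ (uu z * ww z)))

/-- The twist. -/
def tw (a a' : Am) : ℝ := (a'.1 0 - a.1 0) * (D.A 0 0 * a.1 1 + D.A 0 1 * a.1 3) +
  (a'.1 2 - a.1 2) * (D.A 1 0 * a.1 1 + D.A 1 1 * a.1 3)

/-- The orbit relation on the ambient space. -/
def RN (a a' : Am) : Prop :=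
  (∃ m : ℤ, a'.1 0 - a.1 0 = D.κ * m) ∧ (∃ n : ℤ, a'.1 1 - a.1 1 = n) ∧
  (∃ m : ℤ, a'.1 2 - a.1 2 = m) ∧ (∃ n : ℤ, a'.1 3 - a.1 3 = n) ∧
  a'.2.1 = a.2.1 * ee (D.κ * (a'.1 0 - a.1 0) * a.1 1 - D.tw a a') ∧
  a'.2.2 = a.2.2 * ee (D.tw a a')

/-- The group action on the ambient space. -/
def nact (m₀ m₁ n₀ n₁ : ℤ) (a : Am) : Am :=
  (![a.1 0 + D.κ * m₀, a.1 1 + n₀, a.1 2 + m₁, a.1 3 + n₁],
    a.2.1 * ee (D.κ * (D.κ * m₀) * a.1 1 - (D.κ * m₀ * (D.A 0 0 * a.1 1 + D.A 0 1 * a.1 3) +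
      m₁ * (D.A 1 0 * a.1 1 + D.A 1 1 * a.1 3))),
    a.2.2 * ee (D.κ * m₀ * (D.A 0 0 * a.1 1 + D.A 0 1 * a.1 3) +
      m₁ * (D.A 1 0 * a.1 1 + D.A 1 1 * a.1 3)))

/-- The atlas of a kink. -/
def atl : Atl K3 where
  W := D.W
  R s z s' z' := z ∈ D.W s ∧ z' ∈ D.W s' ∧ D.RN (D.io s z) (D.io s' z')

/-- The Euler classes below and above the kink. -/
def As : K3 → Matrix (Fin 2) (Fin 2) ℤ
  | .p => D.A - !![D.κ, 0; 0, 0]
  | _ => D.A

/-- The part of the chart `m` near the zero `(0, 1 / 2)`. -/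
def U0 : Set E6 :=
  {z | z ∈ D.W .m ∧ |z (0, 0)| < 1 / 8 ∧ |z (0, 1) - 1 / 2| < 1 / 4 ∧ normSq (gz z) < 1 / 128}

/-- The background connection. -/
def bA (a : Am) : Am →L[ℝ] ℝ :=
  (D.A 0 0 * a.1 0 + D.A 1 0 * a.1 2) • cx 1 + (D.A 0 1 * a.1 0 + D.A 1 1 * a.1 2) • cx 3

/-- The invariant primitive. -/
def lamL (a : Am) : Am →L[ℝ] ℝ :=
  imd a.2.1 cU + imd a.2.2 cW + amu a • D.bA a - (D.κ * hm (atq a) (amu a) * a.1 0) • cx 1 +
    kk (atq a) (amu a) • imd (a.2.1 * a.2.2) (a.2.1 • cW + a.2.2 • cU)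

/-- The ambient closed form. -/
def omA (γ : Matrix (Fin 2) (Fin 2) ℝ) : Fm Am 2 :=
  fun a => cstA γ + extDeriv (fun a => alt1 (D.lamL a)) a

/-- The symplectic form on the charts. -/
def om (γ : Matrix (Fin 2) (Fin 2) ℝ) (s : K3) : Fm E6 2 := pb (D.io s) (D.omA γ)

/-- The ambient complex coframe. -/
def SA (a : Am) : Am →L[ℝ] (Fin 3 → ℂ) :=
  ContinuousLinearMap.pi
    ![(-ee (-a.1 1)) • (cU + (2 * Real.pi * I * a.2.1) • ofRealCLM.comp (D.bA a)),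
      cW - (2 * Real.pi * I * a.2.2) • ofRealCLM.comp (D.bA a),
      ofRealCLM.comp (cx 3) - I • ofRealCLM.comp (cx 2)]

/-- The complex coframe on the chart `f`. -/
def SF (z : E6) : E6 →L[ℝ] (Fin 3 → ℂ) := (D.SA (D.io .f z)).comp (fderiv ℝ (D.io .f) z)

end TD

/-- A kink inside a manifold. -/
structure TM {M : Type} [TopologicalSpace M] [ChartedSpace E6 M] (D : TD) (q : K3 → E6 → M) :
    Prop where
  ok : D.Ok
  par : ∀ s, Par (q s) (D.W s)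
  eq : ∀ s s', ∀ x ∈ D.W s, ∀ y ∈ D.W s', q s x = q s' y ↔ D.RN (D.io s x) (D.io s' y)

/-- Trivial holonomy for the deck transformations with lattice part `(κ m₀, m₁, n₀, n₁)`. -/
def Hol {H : Type} [Group H] (T : E6 → E6 → H) (U : Set E6) (κ : ℤ)
    (K : Matrix (Fin 2) (Fin 2) ℤ) (m₀ m₁ n₀ n₁ : ℤ) : Prop :=
  ∀ z ∈ U, ∀ l : ℤ, T z (hact K (κ * m₀) m₁ n₀ n₁ l z) = 1

end

end Pool.Agent.Work.MP_bf98aa_gt.Cy
end
end

-- merged part: Pool.Agent.Work.MP_bf98aa_gt.B3.DAl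
section
-- merged part: Pool.Agent.Work.MP_bf98aa_gt.B3.DDef
section
/-!
Data of a half and of the whole manifold. See the team-store file `h8_bf98aa_b3.md`.
Constants: `δ = δ₀ = 1 / 8`, `δ' = 1 / 16`, `ρ₀ = 8`, holes `ρ ≤ 2`, `r_K = 1 / 64`.
-/

set_option autoImplicit false

open scoped ContDiff Matrix
open Set Complex

namespace Pool.Agent.Work.MP_bf98aa_gt.B3

noncomputable section

/-- Vectors. -/
abbrev V4 : Type := Fin 4 → ℝ

/-- Lattice vectors. -/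
abbrev L4 : Type := Fin 4 → ℤ

/-- Real matrices. -/
abbrev M4 : Type := Matrix (Fin 4) (Fin 4) ℝ

/-- Integer matrices. -/
abbrev Z4 : Type := Matrix (Fin 4) (Fin 4) ℤ

/-- An integer matrix as a real one. -/
def rm (A : Z4) : M4 := Matrix.of fun i j => (A i j : ℝ)

/-- A lattice vector as a real one. -/
def rv (l : L4) : V4 := fun i => (l i : ℝ)

/-- The bilinear form of a matrix. -/
def bf (Ω : M4) (x y : V4) : ℝ := x ⬝ᵥ Ω *ᵥ y

/-- The form `dx₀ dx₁`. -/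
def E01 : Z4 := !![0, 1, 0, 0; -1, 0, 0, 0; 0, 0, 0, 0; 0, 0, 0, 0]

/-- The form `dx₂ dx₃`. -/
def E23 : Z4 := !![0, 0, 0, 0; 0, 0, 0, 0; 0, 0, 0, 1; 0, 0, -1, 0]

/-- The standard form. -/
def JJ : M4 := rm (E01 + E23)

/-- The Pfaffian. -/
def pf4 (Ω : M4) : ℝ := Ω 0 1 * Ω 2 3 - Ω 0 2 * Ω 1 3 + Ω 0 3 * Ω 1 2

/-- `0` for `t ≤ 1 / 4`, `1` for `1 / 2 ≤ t`. -/
def ss (t : ℝ) : ℝ := Real.smoothTransition (4 * t - 1)

/-- `0` for `t ≤ 1 / 4`, `t` for `1 / 2 ≤ t`. -/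
def shf (t : ℝ) : ℝ := t * ss t

/-- A cut-off function with small slope. -/
structure EtaOk (η : ℝ → ℝ) (M₁ M₂ : ℝ) : Prop where
  sm : ContDiff ℝ ∞ η
  one : ∀ r, r ≤ M₁ → η r = 1
  zero : ∀ r, M₂ ≤ r → η r = 0
  mem : ∀ r, 0 ≤ η r ∧ η r ≤ 1
  der : ∀ r, -1 / 2 ≤ deriv η r
  pos : 1 ≤ M₁

/-- A gauge function. -/
structure GaugeOk (g : ℝ × ℝ → ℂ) (σ : ℝ) : Prop where
  sm : ContDiff ℝ ∞ g
  odd : ∀ p q, g (-p, -q) = -g (p, q)
  per : ∀ (p q : ℝ) (m n : ℤ), g (p + m, q + n) = Cy.ee ((m + n) / 2 + m * q) * g (p, q)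
  zero : ∀ p q, g (p, q) = 0 → (∃ m : ℤ, p = m) ∧ ∃ n : ℤ, q = n
  near : ∀ p q, |p| ≤ 1 / 32 → |q| ≤ 1 / 32 → g (p, q) = ⟨σ * p, q / σ⟩
  far : ∀ p q, 1 / 4 ≤ p → p ≤ 3 / 4 → g (p, q) = Cy.ee (q / 2)

/-- Data of a half, in coordinates where the kink torus is `x₂ = x₃ = 0`. -/
structure HD where
  A : Z4
  A' : Z4
  a : ℝ
  a' : ℝ
  Xh : Matrix (Fin 2) (Fin 2) ℤ
  μ₁ : ℝ
  σ : ℝ
  c₀ : ℝ
  M₁ : ℝ
  M₂ : ℝ
  Y : Matrix (Fin 2) (Fin 2) ℝ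
  η : ℝ → ℝ
  g : ℝ × ℝ → ℂ
  cf : ℝ → M4

namespace HD

variable (d : HD)

/-- The linear part of the fold. -/
def T : Z4 := d.A * Matrix.diagonal ![1, 1, -1, -1] * d.A'

/-- The third vector of the fold frame. -/
def c : L4 := fun i => d.A i 2

/-- The fourth vector of the fold frame. -/
def e : L4 := fun i => d.A i 3

/-- Half of the slope, in the fold frame. -/
def vA : Z4 := !![0, 0, d.Xh 0 0, d.Xh 0 1; 0, 0, d.Xh 1 0, d.Xh 1 1;
  -d.Xh 0 0, -d.Xh 1 0, 0, 0; -d.Xh 0 1, -d.Xh 1 1, 0, 0]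

/-- The slope below the kink. -/
def v : Z4 := (2 : ℤ) • (d.A'ᵀ * d.vA * d.A')

/-- The first invariant form. -/
def α : Z4 := d.A'ᵀ * E01 * d.A'

/-- The second invariant form. -/
def β : Z4 := d.A'ᵀ * E23 * d.A'

/-- The reduced form below the kink. -/
def Om0 (μ : ℝ) : M4 := d.a • rm d.α + d.a' • rm d.β + μ • rm d.v

/-- The path of forms along a singular strand. -/
def Om (ν : ℝ) : M4 :=
  d.Om0 ν - shf (ν - d.μ₁) • rm E23 - shf (-ν - d.μ₁) • rm (d.Tᵀ * E23 * d.T)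

/-- The middle level. -/
def M : ℝ := d.μ₁ + 1

/-- The area of the kink torus. -/
def b (μ : ℝ) : ℝ := d.Om0 μ 0 1

/-- The size of the form normal to the kink torus. -/
def kap (μ : ℝ) : ℝ := Real.pi * pf4 (d.Om0 μ) / d.b μ

/-- First coordinate of the projection to the kink torus. -/
def y0 (μ : ℝ) (x : V4) : ℝ := bf (d.Om0 μ) x (Pi.single 1 1) / d.b μ

/-- Second coordinate of the projection to the kink torus. -/
def y1 (μ : ℝ) (x : V4) : ℝ := bf (d.Om0 μ) (Pi.single 0 1) x / d.b μ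

/-- The complex coordinate along the kink torus. -/
def zy (μ s t : ℝ) : ℂ :=
  (√(Real.pi * d.b μ / d.Y.det) : ℝ) * (⟨d.Y 0 0 * s + d.Y 0 1 * t, d.Y 1 0 * s + d.Y 1 1 * t⟩ : ℂ)

/-- The normal quadratic form. -/
def qq (s t : ℝ) : ℝ := d.σ ^ 2 * s ^ 2 + t ^ 2 / d.σ ^ 2

/-- First unitary coordinate. -/
def z1 (ν : ℝ) (x : V4) : ℂ := ⟨(d.cf ν *ᵥ x) 0, (d.cf ν *ᵥ x) 1⟩

/-- Second unitary coordinate. -/
def z2 (ν : ℝ) (x : V4) : ℂ := ⟨(d.cf ν *ᵥ x) 2, (d.cf ν *ᵥ x) 3⟩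

/-- The Hamiltonian of the frame. -/
def Hh (ν : ℝ) (x : V4) : ℝ :=
  bf JJ (d.cf ν *ᵥ x) (deriv (fun s => d.cf s *ᵥ x) ν) / (2 * Real.pi)

/-- The size of the form normal to the fixed tori of the fold. -/
def gK (μ : ℝ) : ℝ := d.a' - μ ^ 2 * (4 * (d.Xh.det : ℝ)) / d.a

/-- Admissible data. -/
structure Ok : Prop where
  AA : d.A * d.A' = 1
  AA' : d.A' * d.A = 1
  c2 : Odd (d.A 2 2)
  c3 : Even (d.A 3 2)
  e3 : Odd (d.A 3 3)
  u0 : Even (d.A 3 0 + d.Xh 0 0)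
  u1 : Even (d.A 3 1 + d.Xh 1 0)
  v01 : d.v 0 1 ≠ 0
  ha : 0 < d.a
  hK : ∀ μ, |μ| ≤ 1 / 8 → 1 ≤ d.gK μ
  hμ : 2 ≤ d.μ₁
  hσ : 0 < d.σ
  hY : 0 < d.Y.det
  hη : EtaOk d.η d.M₁ d.M₂
  hg : GaugeOk d.g d.σ
  sm : ∀ i j ν, |ν| < d.M + 1 / 4 → ContDiffAt ℝ ∞ (fun s => d.cf s i j) ν
  smg : ∀ i j, ContDiff ℝ ∞ fun s => d.cf s i j
  fr : ∀ ν, |ν| ≤ d.M + 1 / 8 → (d.cf ν)ᵀ * JJ * d.cf ν = Real.pi • d.Om ν
  f1 : ∀ ν, |ν - d.μ₁| ≤ 1 / 4 → ∀ x,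
    d.z1 ν x = (√(d.kap ν) : ℝ) * (⟨d.σ * x 2, x 3 / d.σ⟩ : ℂ)
  f2 : ∀ ν, |ν - d.μ₁| ≤ 1 / 4 → ∀ x, d.z2 ν x = d.zy ν (d.y0 ν x) (d.y1 ν x)
  b1 : ∀ ν, |ν| ≤ d.M + 1 / 8 → ∀ x, normSq (d.z1 ν x) + normSq (d.z2 ν x) ≤ 8 →
    ‖x‖ ≤ 1 / 32 ∧ ‖rm d.T *ᵥ x‖ ≤ 1 / 32 ∧ ‖rm d.A' *ᵥ x‖ ≤ 1 / 32
  b2 : ∀ ν, d.μ₁ + 1 / 8 ≤ ν → ν ≤ d.M + 1 / 8 → ∀ x,
    normSq (d.z1 ν x) + normSq (d.z2 ν x) ≤ 8 → 8 * d.c₀ * d.qq (x 2) (x 3) ≤ d.M₁
  b3 : 2048 * d.M₂ ≤ d.c₀ * min (d.σ ^ 2) (1 / d.σ ^ 2)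
  b4 : 8 ≤ d.c₀
  b5 : ∀ μ, d.μ₁ - 1 / 4 ≤ μ → μ ≤ d.M + 1 / 8 → 0 < d.b μ ∧ d.c₀ ≤ d.kap μ

end HD

/-- Data of the whole manifold: two halves, and `G b` from the coordinates of the half `b` to those
of the other half. -/
structure GD where
  H : Bool → HD
  G : Bool → Z4

/-- Admissible data. -/
structure GD.Ok (D : GD) : Prop where
  ok : ∀ b, (D.H b).Ok
  inv : ∀ b, D.G (!b) * D.G b = 1
  two : ∀ b i j, Even (D.G b i j - (1 : Z4) i j)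
  cpar : ∀ i, Even ((D.H true).c i - (D.H false).c i)
  slope : ∀ b, (D.G b)ᵀ * ((D.H (!b)).v - E23) * D.G b = -((D.H b).v - E23)
  up : ∀ b m, |m| ≤ 1 / 8 →
    (D.H b).cf ((D.H b).M + m) = (D.H (!b)).cf ((D.H (!b)).M - m) * rm (D.G b)
  lo : ∀ b m, |m| ≤ 1 / 8 → (D.H b).cf (-(D.H b).M - m) * rm (D.H b).T =
    (D.H (!b)).cf (-(D.H (!b)).M + m) * rm (D.H (!b)).T * rm (D.G b)
  ind : ∀ s : Fin 6 → ℝ, s 0 • rm (D.H true).α + s 1 • rm (D.H true).β + s 2 • rm (D.H true).v +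
    (rm (D.G true))ᵀ * (s 3 • rm (D.H false).α + s 4 • rm (D.H false).β + s 5 • rm (D.H false).v) *
      rm (D.G true) = 0 → s = 0

end

end Pool.Agent.Work.MP_bf98aa_gt.B3
end

-- merged part: Pool.Agent.Work.MP_bf98aa_gt.B3.DAl
section
/-!
Linear algebra of the data.
-/

set_option autoImplicit false

open scoped ContDiff Matrix
open Set Complex

namespace Pool.Agent.Work.MP_bf98aa_gt.B3

theorem rm_apply (A : Z4) (i j : Fin 4) : rm A i j = A i j := rfl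

theorem rv_apply (l : L4) (i : Fin 4) : rv l i = l i := rfl

theorem rm_mul (A B : Z4) : rm (A * B) = rm A * rm B := by
  ext i j; simp [rm, Matrix.mul_apply]

theorem rm_one : rm 1 = 1 := by
  ext i j; simp [rm, Matrix.one_apply]

theorem rm_tr (A : Z4) : rm Aᵀ = (rm A)ᵀ := rfl

theorem rm_add (A B : Z4) : rm (A + B) = rm A + rm B := by
  ext i j; simp [rm]

theorem rm_sub (A B : Z4) : rm (A - B) = rm A - rm B := by
  ext i j; simp [rm]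

theorem rm_neg (A : Z4) : rm (-A) = -rm A := by
  ext i j; simp [rm]

theorem rm_smul (n : ℤ) (A : Z4) : rm (n • A) = (n : ℝ) • rm A := by
  ext i j; simp [rm]

theorem rv_mulVec (A : Z4) (l : L4) : rv (A *ᵥ l) = rm A *ᵥ rv l := by
  ext i; simp [rm, rv, Matrix.mulVec, dotProduct]

theorem rv_add (l l' : L4) : rv (l + l') = rv l + rv l' := by
  ext i; simp [rv]

theorem rv_sub (l l' : L4) : rv (l - l') = rv l - rv l' := by
  ext i; simp [rv]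

theorem rv_neg (l : L4) : rv (-l) = -rv l := by
  ext i; simp [rv]

theorem rv_zero : rv 0 = 0 := by
  ext i; simp [rv]

theorem rv_smul (n : ℤ) (l : L4) : rv (n • l) = (n : ℝ) • rv l := by
  ext i; simp [rv]

theorem bf_rv (A : Z4) (l l' : L4) : bf (rm A) (rv l) (rv l') = (l ⬝ᵥ A *ᵥ l' : ℤ) := by
  rw [bf, ← rv_mulVec]; simp [rv, dotProduct]

section
variable (Ω Ω' : M4) (x y z : V4) (t : ℝ)

theorem bf_add_left : bf Ω (x + y) z = bf Ω x z + bf Ω y z := add_dotProduct _ _ _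

theorem bf_add_right : bf Ω x (y + z) = bf Ω x y + bf Ω x z := by
  simp only [bf, Matrix.mulVec_add, dotProduct_add]

theorem bf_sub_left : bf Ω (x - y) z = bf Ω x z - bf Ω y z := sub_dotProduct _ _ _

theorem bf_sub_right : bf Ω x (y - z) = bf Ω x y - bf Ω x z := by
  simp only [bf, Matrix.mulVec_sub, dotProduct_sub]

theorem bf_neg_left : bf Ω (-x) y = -bf Ω x y := neg_dotProduct _ _

theorem bf_neg_right : bf Ω x (-y) = -bf Ω x y := by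
  simp only [bf, Matrix.mulVec_neg, dotProduct_neg]

theorem bf_smul_left : bf Ω (t • x) y = t * bf Ω x y := smul_dotProduct _ _ _

theorem bf_smul_right : bf Ω x (t • y) = t * bf Ω x y := by
  simp only [bf, Matrix.mulVec_smul, dotProduct_smul, smul_eq_mul]

theorem bf_zero_left : bf Ω 0 y = 0 := zero_dotProduct _

theorem bf_zero_right : bf Ω x 0 = 0 := by
  simp only [bf, Matrix.mulVec_zero, dotProduct_zero]

theorem bf_add : bf (Ω + Ω') x y = bf Ω x y + bf Ω' x y := by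
  simp only [bf, Matrix.add_mulVec, dotProduct_add]

theorem bf_sub : bf (Ω - Ω') x y = bf Ω x y - bf Ω' x y := by
  simp only [bf, Matrix.sub_mulVec, dotProduct_sub]

theorem bf_neg : bf (-Ω) x y = -bf Ω x y := by
  simp only [bf, Matrix.neg_mulVec, dotProduct_neg]

theorem bf_smul : bf (t • Ω) x y = t * bf Ω x y := by
  simp only [bf, Matrix.smul_mulVec, dotProduct_smul, smul_eq_mul]

theorem bf_pull (G : M4) : bf (Gᵀ * Ω * G) x y = bf Ω (G *ᵥ x) (G *ᵥ y) := by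
  simp only [bf, ← Matrix.mulVec_mulVec, Matrix.dotProduct_mulVec x Gᵀ, Matrix.vecMul_transpose]

theorem bf_vecMul : (x ᵥ* Ω) ⬝ᵥ y = bf Ω x y := (Matrix.dotProduct_mulVec _ _ _).symm

theorem bf_tr : bf Ωᵀ x y = bf Ω y x := by
  rw [bf, Matrix.dotProduct_mulVec, Matrix.vecMul_transpose, dotProduct_comm, bf]

theorem bf_E01 : bf (rm E01) x y = x 0 * y 1 - x 1 * y 0 := by
  simp [bf, rm, E01, Matrix.mulVec, dotProduct, Fin.sum_univ_four]; ring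

theorem bf_E23 : bf (rm E23) x y = x 2 * y 3 - x 3 * y 2 := by
  simp [bf, rm, E23, Matrix.mulVec, dotProduct, Fin.sum_univ_four]; ring

theorem bf_JJ : bf JJ x y = x 0 * y 1 - x 1 * y 0 + (x 2 * y 3 - x 3 * y 2) := by
  rw [JJ, rm_add, bf_add, bf_E01, bf_E23]

theorem bf_single (i j : Fin 4) : bf Ω (Pi.single i 1) (Pi.single j 1) = Ω i j := by
  simp [bf]

variable {Ω}

theorem bf_skew (h : Ωᵀ = -Ω) : bf Ω x y = -bf Ω y x := by
  rw [← bf_tr, h, bf_neg]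

theorem bf_self (h : Ωᵀ = -Ω) : bf Ω x x = 0 := by
  linarith [bf_skew x x h]

end

theorem E01_skew : E01ᵀ = -E01 := by decide

theorem E23_skew : E23ᵀ = -E23 := by decide

theorem pull_skew {R : Type} [CommRing R] {W : Matrix (Fin 4) (Fin 4) R} (h : Wᵀ = -W)
    (G : Matrix (Fin 4) (Fin 4) R) : (Gᵀ * W * G)ᵀ = -(Gᵀ * W * G) := by
  simp [Matrix.transpose_mul, h, Matrix.mul_assoc]

theorem rm_skew {A : Z4} (h : Aᵀ = -A) : (rm A)ᵀ = -rm A := by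
  rw [← rm_tr, h, rm_neg]

theorem pf4_sub (Ω : M4) (r : ℝ) : pf4 (Ω - r • rm E23) = pf4 Ω - r * Ω 0 1 := by
  simp [pf4, rm, E23]; ring

theorem shf_low {t : ℝ} (h : t ≤ 1 / 4) : shf t = 0 := by
  rw [shf, ss, Real.smoothTransition.zero_of_nonpos (by linarith), mul_zero]

theorem shf_high {t : ℝ} (h : 1 / 2 ≤ t) : shf t = t := by
  rw [shf, ss, Real.smoothTransition.one_of_one_le (by linarith), mul_one]

theorem contDiff_ss : ContDiff ℝ ∞ ss :=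
  Real.smoothTransition.contDiff.comp (by fun_prop)

theorem contDiff_shf : ContDiff ℝ ∞ shf := contDiff_id.mul contDiff_ss

theorem shf_mem (t : ℝ) : 0 ≤ shf t ∧ shf t ≤ max 0 t := by
  rcases le_total t (1 / 4) with h | h
  · rw [shf_low h]; exact ⟨le_rfl, le_max_left _ _⟩
  · have h0 : 0 ≤ t := by linarith
    exact ⟨mul_nonneg h0 (Real.smoothTransition.nonneg _),
      (mul_le_of_le_one_right h0 (Real.smoothTransition.le_one _)).trans (le_max_right _ _)⟩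

namespace HD

variable (d : HD)

theorem vA_skew : d.vAᵀ = -d.vA := by
  ext i j; fin_cases i <;> fin_cases j <;> simp [vA]

theorem v_skew : d.vᵀ = -d.v := by
  rw [v, Matrix.transpose_smul, pull_skew d.vA_skew, smul_neg]

theorem α_skew : d.αᵀ = -d.α := pull_skew E01_skew _

theorem β_skew : d.βᵀ = -d.β := pull_skew E23_skew _

theorem v_even (i j : Fin 4) : Even (d.v i j) := ⟨_, by rw [v, Matrix.smul_apply, two_smul]⟩

theorem Om0_skew (μ : ℝ) : (d.Om0 μ)ᵀ = -d.Om0 μ := by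
  simp only [Om0, Matrix.transpose_add, Matrix.transpose_smul, rm_skew d.α_skew, rm_skew d.β_skew,
    rm_skew d.v_skew, smul_neg, neg_add]

theorem Om_skew (ν : ℝ) : (d.Om ν)ᵀ = -d.Om ν := by
  simp only [Om, Matrix.transpose_sub, Matrix.transpose_smul, d.Om0_skew, rm_skew E23_skew,
    rm_skew (pull_skew E23_skew d.T), smul_neg]
  abel

theorem Om0_add (μ t : ℝ) : d.Om0 (μ + t) = d.Om0 μ + t • rm d.v := by
  simp only [Om0, add_smul, add_assoc]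

theorem b_add (μ t : ℝ) : d.b (μ + t) = d.b μ + t * d.v 0 1 := by
  rw [b, Om0_add]; rfl

theorem Om_mid {ν : ℝ} (h1 : ν - d.μ₁ ≤ 1 / 4) (h2 : -ν - d.μ₁ ≤ 1 / 4) : d.Om ν = d.Om0 ν := by
  rw [Om, shf_low h1, shf_low h2, zero_smul, zero_smul, sub_zero, sub_zero]

theorem Om_up {ν : ℝ} (h2 : -ν - d.μ₁ ≤ 1 / 4) :
    d.Om ν = d.Om0 ν - shf (ν - d.μ₁) • rm E23 := by
  rw [Om, shf_low h2, zero_smul, sub_zero]

variable {d}

theorem Ok.A'T (h : d.Ok) : d.A' * d.T = Matrix.diagonal ![1, 1, -1, -1] * d.A' := by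
  rw [T, ← Matrix.mul_assoc, ← Matrix.mul_assoc, h.AA', Matrix.one_mul]

theorem Ok.TA (h : d.Ok) : d.T * d.A = d.A * Matrix.diagonal ![1, 1, -1, -1] := by
  rw [T, Matrix.mul_assoc, h.AA', Matrix.mul_one]

theorem Ok.TT (h : d.Ok) : d.T * d.T = 1 := by
  have e : Matrix.diagonal ![1, 1, -1, -1] * Matrix.diagonal ![1, 1, -1, -1] = (1 : Z4) := by decide
  conv_lhs => arg 1; rw [T]
  rw [Matrix.mul_assoc, h.A'T, ← Matrix.mul_assoc, Matrix.mul_assoc d.A, e, Matrix.mul_one, h.AA]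

theorem Ok.T_col (h : d.Ok) (j : Fin 4) :
    d.T *ᵥ (fun i => d.A i j) = (![1, 1, -1, -1] j : ℤ) • fun i => d.A i j := by
  ext i
  have := congrFun (congrFun h.TA i) j
  rw [Matrix.mul_diagonal] at this
  exact this.trans (mul_comm _ _)

theorem Ok.Tc (h : d.Ok) : d.T *ᵥ d.c = -d.c := (h.T_col 2).trans (by simp; rfl)

theorem Ok.Te (h : d.Ok) : d.T *ᵥ d.e = -d.e := (h.T_col 3).trans (by simp; rfl)

theorem Ok.T_pull (h : d.Ok) (W : Z4) : d.Tᵀ * (d.A'ᵀ * W * d.A') * d.T =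
    d.A'ᵀ * (Matrix.diagonal ![1, 1, -1, -1] * W * Matrix.diagonal ![1, 1, -1, -1]) * d.A' := by
  calc _ = (d.A' * d.T)ᵀ * W * (d.A' * d.T) := by
        simp only [Matrix.transpose_mul, Matrix.mul_assoc]
    _ = _ := by
        rw [h.A'T]
        simp only [Matrix.transpose_mul, Matrix.mul_assoc, Matrix.diagonal_transpose]

theorem Ok.Tα (h : d.Ok) : d.Tᵀ * d.α * d.T = d.α := by
  rw [α, h.T_pull]; congr 2; decide

theorem Ok.Tβ (h : d.Ok) : d.Tᵀ * d.β * d.T = d.β := by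
  rw [β, h.T_pull]; congr 2; decide

theorem Ok.Tv (h : d.Ok) : d.Tᵀ * d.v * d.T = -d.v := by
  have e : Matrix.diagonal ![1, 1, -1, -1] * d.vA * Matrix.diagonal ![1, 1, -1, -1] = -d.vA := by
    ext i j
    rw [Matrix.mul_diagonal, Matrix.diagonal_mul]
    fin_cases i <;> fin_cases j <;> simp [vA]
  rw [v, Matrix.mul_smul, Matrix.smul_mul, h.T_pull, e, Matrix.mul_neg, Matrix.neg_mul, smul_neg]

theorem Ok.T_two (h : d.Ok) (i j : Fin 4) : Even (d.T i j - (1 : Z4) i j) := by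
  refine ⟨-(d.A i 2 * d.A' 2 j + d.A i 3 * d.A' 3 j), ?_⟩
  rw [← h.AA, T, Matrix.mul_apply, Matrix.mul_apply]
  simp [Matrix.mul_diagonal, Fin.sum_univ_four]
  ring

theorem Ok.rTT (h : d.Ok) : rm d.T * rm d.T = 1 := by rw [← rm_mul, h.TT, rm_one]

theorem Ok.TTv (h : d.Ok) (x : V4) : rm d.T *ᵥ (rm d.T *ᵥ x) = x := by
  rw [Matrix.mulVec_mulVec, h.rTT, Matrix.one_mulVec]

theorem Ok.Om0_neg (h : d.Ok) (μ : ℝ) : d.Om0 (-μ) = (rm d.T)ᵀ * d.Om0 μ * rm d.T := by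
  simp only [Om0, Matrix.mul_add, Matrix.add_mul, Matrix.mul_smul, Matrix.smul_mul, ← rm_tr,
    ← rm_mul, h.Tα, h.Tβ, h.Tv, rm_neg, smul_neg, neg_smul]

theorem Ok.Om_neg (h : d.Ok) (ν : ℝ) : d.Om (-ν) = (rm d.T)ᵀ * d.Om ν * rm d.T := by
  have e : d.Tᵀ * (d.Tᵀ * E23 * d.T) * d.T = E23 := by
    calc _ = (d.T * d.T)ᵀ * E23 * (d.T * d.T) := by
          simp only [Matrix.transpose_mul, Matrix.mul_assoc]
      _ = _ := by rw [h.TT]; simp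
  simp only [Om, Matrix.mul_sub, Matrix.sub_mul, Matrix.mul_smul, Matrix.smul_mul, h.Om0_neg,
    neg_neg, ← rm_tr, ← rm_mul, e]
  abel

theorem Ok.bf_vT (h : d.Ok) (x y : V4) :
    bf (rm d.v) (rm d.T *ᵥ x) (rm d.T *ᵥ y) = -bf (rm d.v) x y := by
  rw [← bf_pull, ← rm_tr, ← rm_mul, ← rm_mul, h.Tv, rm_neg, bf_neg]

end HD

end Pool.Agent.Work.MP_bf98aa_gt.B3
end
end
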