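import Pool.Agent.Work.MP_bf98aa_gt.Cy.G8
import Pool.Agent.Work.MP_bf98aa_gt.B3.DAl

/-!
Frame lemmas.
-/

set_option autoImplicit false

open scoped ContDiff Topology Matrix
open Set Complex Filter

namespace Pool.Agent.Work.MP_bf98aa_gt.B3

open Pool.Agent.Work.MP_bf98aa_gt.Th Pool.Agent.Work.MP_bf98aa_gt.Cy

noncomputable section

/-- The map `xv` as a linear map. -/
def xL : E6 →L[ℝ] V4 := ContinuousLinearMap.pi ![dc (0, 0), dc (0, 1), dc (1, 0), dc (1, 1)]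

theorem xL_apply (z : E6) : xL z = xv z := by
  ext i; fin_cases i <;> rfl

theorem DFr_contDiff_xv : ContDiff ℝ ∞ xv := by
  rw [← funext xL_apply]; exact xL.contDiff

theorem DFr_lf_apply (a : V4) (v : E6) : lf a v = a ⬝ᵥ xv v := by
  simp [lf, dc, xv, dotProduct, Fin.sum_univ_four]

theorem lf_vecMul (x : V4) (Ω : M4) (v : E6) : lf (x ᵥ* Ω) v = bf Ω x (xv v) := by
  rw [DFr_lf_apply, bf_vecMul]

theorem DFr_mk {X : Type} [NormedAddCommGroup X] [NormedSpace ℝ X] {a b : X → ℝ}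
    (ha : ContDiff ℝ ∞ a) (hb : ContDiff ℝ ∞ b) : ContDiff ℝ ∞ fun x => (⟨a x, b x⟩ : ℂ) :=
  equivRealProdCLM.symm.contDiff.comp (ha.prodMk hb)

theorem DFr_ang {a b : E6 → ℝ} {z : E6} {a' b' : E6 →L[ℝ] ℝ} (ha : HasFDerivAt a a' z)
    (hb : HasFDerivAt b b' z) (v : E6) :
    ang (fun y => (⟨a y, b y⟩ : ℂ)) z v = (a z * b' v - b z * a' v) / (2 * Real.pi) := by
  have h : HasFDerivAt (fun y => (⟨a y, b y⟩ : ℂ)) _ z :=
    equivRealProdCLM.symm.hasFDerivAt.comp z (ha.prodMk hb)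
  rw [ang, h.fderiv]
  simp [equivRealProdCLM_symm_apply]
  ring

theorem DFr_pb1_rot1 {f : E6 → E6} {z : E6} (hf : DifferentiableAt ℝ f z) (i : Fin 3) :
    pb1 f (rot1 i) z = ang (fun y => cc i (f y)) z := by
  ext1 v
  have h := fun j => hasFDerivAt_pi'.1 hf.hasFDerivAt j
  rw [show (fun y => cc i (f y)) = fun y => (⟨f y (i, 0), f y (i, 1)⟩ : ℂ) from rfl,
    DFr_ang (h (i, 0)) (h (i, 1))]
  simp [pb1, rot1, dc]
  ring

namespace HD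

variable (d : HD)

/-- The derivative of the frame. -/
def cf' (ν : ℝ) : M4 := Matrix.of fun i j => deriv (fun s => d.cf s i j) ν

theorem z1_neg (ν : ℝ) (x : V4) : d.z1 ν (-x) = -d.z1 ν x := by
  simp only [z1, Matrix.mulVec_neg]; rfl

theorem z2_neg (ν : ℝ) (x : V4) : d.z2 ν (-x) = -d.z2 ν x := by
  simp only [z2, Matrix.mulVec_neg]; rfl

theorem z1_zero (ν : ℝ) : d.z1 ν 0 = 0 := by
  simp only [z1, Matrix.mulVec_zero]; rfl

theorem z2_zero (ν : ℝ) : d.z2 ν 0 = 0 := by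
  simp only [z2, Matrix.mulVec_zero]; rfl

theorem z1_smul (ν t : ℝ) (x : V4) : d.z1 ν (t • x) = t * d.z1 ν x := by
  apply Complex.ext <;> simp [z1, Matrix.mulVec_smul]

theorem z2_smul (ν t : ℝ) (x : V4) : d.z2 ν (t • x) = t * d.z2 ν x := by
  apply Complex.ext <;> simp [z2, Matrix.mulVec_smul]

theorem z1_add (ν : ℝ) (x y : V4) : d.z1 ν (x + y) = d.z1 ν x + d.z1 ν y := by
  simp only [z1, Matrix.mulVec_add]; rfl

theorem z2_add (ν : ℝ) (x y : V4) : d.z2 ν (x + y) = d.z2 ν x + d.z2 ν y := by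
  simp only [z2, Matrix.mulVec_add]; rfl

variable {d}

theorem Ok.hasDeriv_cf (h : d.Ok) (ν : ℝ) (x : V4) :
    HasDerivAt (fun s => d.cf s *ᵥ x) (d.cf' ν *ᵥ x) ν :=
  hasDerivAt_pi.2 fun i => HasDerivAt.fun_sum (u := Finset.univ) fun j _ =>
    ((h.smg i j).differentiable (by simp) ν).hasDerivAt.mul_const (x j)

theorem Ok.Hh_eq (h : d.Ok) (ν : ℝ) (x : V4) :
    d.Hh ν x = bf JJ (d.cf ν *ᵥ x) (d.cf' ν *ᵥ x) / (2 * Real.pi) := by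
  rw [Hh, (h.hasDeriv_cf ν x).deriv]

theorem Ok.Hh_smul (h : d.Ok) (ν t : ℝ) (x : V4) : d.Hh ν (t • x) = t ^ 2 * d.Hh ν x := by
  simp only [h.Hh_eq, Matrix.mulVec_smul, bf_smul_left, bf_smul_right]; ring

theorem Ok.Hh_neg (h : d.Ok) (ν : ℝ) (x : V4) : d.Hh ν (-x) = d.Hh ν x := by
  simpa using h.Hh_smul ν (-1) x

theorem Ok.Hh_zero (h : d.Ok) (ν : ℝ) : d.Hh ν 0 = 0 := by
  simpa using h.Hh_smul ν 0 0

theorem Ok.contDiff_cf (h : d.Ok) : ContDiff ℝ ∞ fun p : ℝ × V4 => d.cf p.1 *ᵥ p.2 :=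
  contDiff_pi.2 fun i => ContDiff.sum (f := fun j (p : ℝ × V4) => d.cf p.1 i j * p.2 j)
    (s := Finset.univ) fun j _ => ((h.smg i j).comp contDiff_fst).mul (by fun_prop)

theorem Ok.contDiff_cf' (h : d.Ok) : ContDiff ℝ ∞ fun p : ℝ × V4 => d.cf' p.1 *ᵥ p.2 :=
  contDiff_pi.2 fun i => ContDiff.sum (f := fun j (p : ℝ × V4) => d.cf' p.1 i j * p.2 j)
    (s := Finset.univ) fun j _ =>
      ((contDiff_infty_iff_deriv.1 (h.smg i j)).2.comp contDiff_fst).mul (by fun_prop)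

theorem Ok.contDiff_z1 (h : d.Ok) : ContDiff ℝ ∞ fun p : ℝ × V4 => d.z1 p.1 p.2 :=
  DFr_mk (contDiff_pi.1 h.contDiff_cf 0) (contDiff_pi.1 h.contDiff_cf 1)

theorem Ok.contDiff_z2 (h : d.Ok) : ContDiff ℝ ∞ fun p : ℝ × V4 => d.z2 p.1 p.2 :=
  DFr_mk (contDiff_pi.1 h.contDiff_cf 2) (contDiff_pi.1 h.contDiff_cf 3)

theorem Ok.contDiff_Hh (h : d.Ok) : ContDiff ℝ ∞ fun p : ℝ × V4 => d.Hh p.1 p.2 := by
  have a := contDiff_pi.1 h.contDiff_cf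
  have b := contDiff_pi.1 h.contDiff_cf'
  simp only [h.Hh_eq, bf_JJ]
  exact ((((a 0).mul (b 1)).sub ((a 1).mul (b 0))).add
    (((a 2).mul (b 3)).sub ((a 3).mul (b 2)))).div_const _

theorem DFr_lev : ContDiff ℝ ∞ fun z : E6 => (z (2, 0), xv z) :=
  (dc (2, 0)).contDiff.prodMk DFr_contDiff_xv

theorem Ok.contDiff_z1E (h : d.Ok) : ContDiff ℝ ∞ fun z : E6 => d.z1 (z (2, 0)) (xv z) :=
  h.contDiff_z1.comp DFr_lev

theorem Ok.contDiff_z2E (h : d.Ok) : ContDiff ℝ ∞ fun z : E6 => d.z2 (z (2, 0)) (xv z) :=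
  h.contDiff_z2.comp DFr_lev

theorem Ok.contDiff_HhE (h : d.Ok) : ContDiff ℝ ∞ fun z : E6 => d.Hh (z (2, 0)) (xv z) :=
  (h.contDiff_Hh.comp DFr_lev :)

theorem Ok.contDiff_phH (h : d.Ok) : ContDiff ℝ ∞ d.phH :=
  (dc (2, 1)).contDiff.add h.contDiff_HhE

theorem Ok.contDiff_uni (h : d.Ok) : ContDiff ℝ ∞ d.uni := by
  refine contDiff_pi.2 fun ⟨i, j⟩ => ?_
  fin_cases i <;> fin_cases j
  exacts [reCLM.contDiff.comp h.contDiff_z1E, imCLM.contDiff.comp h.contDiff_z1E,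
    reCLM.contDiff.comp h.contDiff_z2E, imCLM.contDiff.comp h.contDiff_z2E,
    (dc (2, 0)).contDiff, h.contDiff_phH]

theorem Ok.bf_cf (h : d.Ok) {ν : ℝ} (hν : |ν| ≤ d.M + 1 / 8) (x y : V4) :
    bf JJ (d.cf ν *ᵥ x) (d.cf ν *ᵥ y) = Real.pi * bf (d.Om ν) x y := by
  rw [← bf_pull, h.fr ν hν, bf_smul]

theorem Ok.cf_inj (h : d.Ok) {ν : ℝ} (hν : |ν| ≤ d.M + 1 / 8) {x : V4} (h1 : d.z1 ν x = 0)
    (h2 : d.z2 ν x = 0) : x = 0 := by
  by_contra hx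
  have hn : 0 < ‖x‖ := norm_pos_iff.2 hx
  have := (h.b1 ν hν (‖x‖⁻¹ • x) (by simp [z1_smul, z2_smul, h1, h2])).1
  rw [norm_smul, norm_inv, norm_norm, inv_mul_cancel₀ hn.ne'] at this
  norm_num at this

theorem Ok.z_inj (h : d.Ok) {ν : ℝ} (hν : |ν| ≤ d.M + 1 / 8) {x y : V4} (h1 : d.z1 ν x = d.z1 ν y)
    (h2 : d.z2 ν x = d.z2 ν y) : x = y :=
  sub_eq_zero.1 (h.cf_inj hν (by rw [sub_eq_add_neg, z1_add, z1_neg, h1, add_neg_cancel])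
    (by rw [sub_eq_add_neg, z2_add, z2_neg, h2, add_neg_cancel]))

theorem Ok.cf_unit (h : d.Ok) {ν : ℝ} (hν : |ν| ≤ d.M + 1 / 8) : IsUnit (d.cf ν) :=
  Matrix.mulVec_injective_iff_isUnit.1 fun x y e =>
    h.z_inj hν (by simp only [z1, e]) (by simp only [z2, e])

theorem Ok.z_surj (h : d.Ok) {ν : ℝ} (hν : |ν| ≤ d.M + 1 / 8) (a b : ℂ) :
    ∃ x, d.z1 ν x = a ∧ d.z2 ν x = b := by
  obtain ⟨x, hx⟩ := Matrix.mulVec_surjective_iff_isUnit.2 (h.cf_unit hν) ![a.re, a.im, b.re, b.im]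
  exact ⟨x, by simp only [z1, hx]; rfl, by simp only [z2, hx]; rfl⟩

theorem Ok.hasFDeriv_cf (h : d.Ok) (z : E6) (i : Fin 4) : ∃ L : E6 →L[ℝ] ℝ,
    HasFDerivAt (fun z : E6 => (d.cf (z (2, 0)) *ᵥ xv z) i) L z ∧ ∀ v, L v =
      (d.cf (z (2, 0)) *ᵥ xv v) i + v (2, 0) * (d.cf' (z (2, 0)) *ᵥ xv z) i := by
  have a := fun j => ((((h.smg i j).differentiable (by simp) (z (2, 0))).hasDerivAt).comp_hasFDerivAt
    z (dc (2, 0)).hasFDerivAt).mul (hasFDerivAt_pi'.1 (xL.hasFDerivAt (x := z)) j)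
  refine ⟨_, (HasFDerivAt.fun_sum (u := Finset.univ) fun j _ => a j).congr_of_eventuallyEq
    (Eventually.of_forall fun y => ?_), fun v => ?_⟩
  · simp [Matrix.mulVec, dotProduct, xL_apply, dc]
  · simp [Matrix.mulVec, dotProduct, xL_apply, cf', dc, Fin.sum_univ_four]
    ring

theorem Ok.lemF (h : d.Ok) {z : E6} (hz : |z (2, 0)| ≤ d.M + 1 / 8) :
    ang (fun z => d.z1 (z (2, 0)) (xv z)) z + ang (fun z => d.z2 (z (2, 0)) (xv z)) z =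
      (1 / 2 : ℝ) • lf (xv z ᵥ* d.Om (z (2, 0))) + d.Hh (z (2, 0)) (xv z) • dc (2, 0) := by
  ext1 v
  choose L h1 h2 using h.hasFDeriv_cf z
  have e := h.bf_cf hz (xv z) (xv v)
  simp only [add_apply, smul_apply, z1, z2, lf_vecMul,
    DFr_ang (h1 0) (h1 1), DFr_ang (h1 2) (h1 3), h2, h.Hh_eq, smul_eq_mul]
  rw [bf_JJ] at e ⊢
  change _ = _ + _ * v (2, 0)
  field_simp
  linear_combination e

theorem Ok.lemF_rot (h : d.Ok) {z : E6} (hz : |z (2, 0)| ≤ d.M + 1 / 8) :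
    pb1 d.uni (rot1 0) z + pb1 d.uni (rot1 1) z =
      (1 / 2 : ℝ) • lf (xv z ᵥ* d.Om (z (2, 0))) + d.Hh (z (2, 0)) (xv z) • dc (2, 0) := by
  have := h.contDiff_uni.differentiable (by simp) z
  rw [DFr_pb1_rot1 this, DFr_pb1_rot1 this]
  exact h.lemF hz

theorem Ok.lemF_uni (h : d.Ok) {z : E6} (hz : |z (2, 0)| ≤ d.M + 1 / 8) :
    pb1 d.uni (fun z => rot1 0 z + rot1 1 z + z (2, 0) • dc (2, 1)) z =
      lamO d.Om z + fderiv ℝ (fun z : E6 => z (2, 0) * d.Hh (z (2, 0)) (xv z)) z := by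
  have a := (h.contDiff_HhE.differentiable (by simp) z).hasFDerivAt
  have b := hasFDerivAt_pi'.1 (h.contDiff_uni.differentiable (by simp) z).hasFDerivAt (2, 1)
  have c := b.unique ((dc (2, 1)).hasFDerivAt.add a)
  have e := ((dc (2, 0)).hasFDerivAt (x := z)).mul a
  rw [show (fun z : E6 => z (2, 0) * d.Hh (z (2, 0)) (xv z)) =
    (dc (2, 0) : E6 → ℝ) * fun z : E6 => d.Hh (z (2, 0)) (xv z) from rfl, e.fderiv]
  ext1 v
  have f1 := DFunLike.congr_fun (h.lemF_rot hz) v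
  have f2 := DFunLike.congr_fun c v
  simp only [pb1, lamO, add_apply, smul_apply,
    ContinuousLinearMap.comp_apply, smul_eq_mul] at f1 f2 ⊢
  change _ + z (2, 0) * (ContinuousLinearMap.proj (2, 1) : E6 →L[ℝ] ℝ) _ = _ + (z (2, 0) * _ + _)
  rw [f1, f2]
  ring

theorem hasDerivAt_bf (d : HD) (x y : V4) (ν : ℝ) :
    HasDerivAt (fun s => bf (d.Om0 s) x y) (bf (rm d.v) x y) ν := by
  simp only [Om0, bf_add, bf_smul]
  exact (hasDerivAt_mul_const _).const_add _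

theorem hasDerivAt_b (d : HD) (ν : ℝ) : HasDerivAt d.b (d.v 0 1) ν := by
  have := d.hasDerivAt_bf (Pi.single 0 1) (Pi.single 1 1) ν
  simp only [bf_single] at this
  exact this

theorem Ok.b_pos (h : d.Ok) {ν : ℝ} (hν : |ν - d.μ₁| ≤ 1 / 4) : 0 < d.b ν := by
  rw [abs_le] at hν
  exact (h.b5 ν (by linarith [hν.1]) (by unfold M; linarith [hν.2])).1

theorem Ok.Hh_kink (h : d.Ok) {ν : ℝ} (hν : |ν - d.μ₁| < 1 / 4) (x : V4) :
    d.Hh ν x = bf (rm d.v) ![d.y0 ν x, d.y1 ν x, 0, 0] x / 2 := by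
  have ev : ∀ᶠ s in 𝓝 ν, |s - d.μ₁| < 1 / 4 :=
    (by fun_prop : ContinuousAt (fun s => |s - d.μ₁|) ν).eventually (gt_mem_nhds hν)
  have c : ∀ s, |s - d.μ₁| < 1 / 4 → (d.cf s *ᵥ x) 0 = √(d.kap s) * (d.σ * x 2) ∧
      (d.cf s *ᵥ x) 1 = √(d.kap s) * (x 3 / d.σ) ∧
      (d.cf s *ᵥ x) 2 = √(Real.pi * d.b s / d.Y.det) * (d.Y 0 0 * d.y0 s x + d.Y 0 1 * d.y1 s x) ∧
      (d.cf s *ᵥ x) 3 = √(Real.pi * d.b s / d.Y.det) * (d.Y 1 0 * d.y0 s x + d.Y 1 1 * d.y1 s x) :=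
    fun s hs => by
      have a := Complex.ext_iff.1 (h.f1 s hs.le x)
      have b := Complex.ext_iff.1 (h.f2 s hs.le x)
      simp only [z1, z2, zy, re_ofReal_mul, im_ofReal_mul] at a b
      exact ⟨a.1, a.2, b.1, b.2⟩
  have hb := h.b_pos hν.le
  have D := hasDerivAt_pi.1 (h.hasDeriv_cf ν x)
  have y0' : HasDerivAt (fun s => d.y0 s x) _ ν :=
    (d.hasDerivAt_bf x (Pi.single 1 1) ν).div (d.hasDerivAt_b ν) hb.ne'
  have y1' : HasDerivAt (fun s => d.y1 s x) _ ν :=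
    (d.hasDerivAt_bf (Pi.single 0 1) x ν).div (d.hasDerivAt_b ν) hb.ne'
  have e1 := ((D 0).mul_const (x 3 / d.σ)).unique (((D 1).mul_const (d.σ * x 2)).congr_of_eventuallyEq
    (ev.mono fun s hs => by simp only [(c s hs).1, (c s hs).2.1]; ring))
  have e2 := ((D 2).mul ((y0'.const_mul (d.Y 1 0)).add (y1'.const_mul (d.Y 1 1)))).unique
    (((D 3).mul ((y0'.const_mul (d.Y 0 0)).add (y1'.const_mul (d.Y 0 1)))).congr_of_eventuallyEq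
      (ev.mono fun s hs => by
        simp only [Pi.mul_apply, Pi.add_apply, (c s hs).2.2.1, (c s hs).2.2.2]; ring))
  obtain ⟨c0, c1, c2, c3⟩ := c ν hν
  have hY := h.hY
  have e3 : √(Real.pi * d.b ν / d.Y.det) * √(Real.pi * d.b ν / d.Y.det) * d.Y.det =
      Real.pi * d.b ν := by
    rw [Real.mul_self_sqrt (by have := Real.pi_pos; positivity)]; field_simp
  have e4 : bf (rm d.v) ![d.y0 ν x, d.y1 ν x, 0, 0] x =
      d.y0 ν x * bf (rm d.v) (Pi.single 0 1) x - d.y1 ν x * bf (rm d.v) x (Pi.single 1 1) := by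
    rw [bf_skew x _ (rm_skew d.v_skew), mul_neg, sub_neg_eq_add, ← bf_smul_left, ← bf_smul_left,
      ← bf_add_left]
    congr 1
    ext i
    fin_cases i <;> simp
  have e5 : bf (d.Om0 ν) x (Pi.single 1 1) = d.y0 ν x * d.b ν := by rw [y0]; field_simp
  have e6 : bf (d.Om0 ν) (Pi.single 0 1) x = d.y1 ν x * d.b ν := by rw [y1]; field_simp
  simp only [Pi.add_apply, c2, c3, e5, e6] at e2
  rw [h.Hh_eq, bf_JJ, c0, c1, c2, c3, e4]
  generalize √(Real.pi * d.b ν / d.Y.det) = r at e2 e3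
  rw [Matrix.det_fin_two] at e3
  have hb' := hb.ne'
  have e7 : (bf (rm d.v) x (Pi.single 1 1) * d.b ν - d.y0 ν x * d.b ν * d.v 0 1) / d.b ν ^ 2 * d.b ν =
    bf (rm d.v) x (Pi.single 1 1) - d.y0 ν x * d.v 0 1 := by field_simp
  have e8 : (bf (rm d.v) (Pi.single 0 1) x * d.b ν - d.y1 ν x * d.b ν * d.v 0 1) / d.b ν ^ 2 * d.b ν =
    bf (rm d.v) (Pi.single 0 1) x - d.y1 ν x * d.v 0 1 := by field_simp
  generalize (bf (rm d.v) x (Pi.single 1 1) * d.b ν - d.y0 ν x * d.b ν * d.v 0 1) / d.b ν ^ 2 = p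
    at e2 e7
  generalize (bf (rm d.v) (Pi.single 0 1) x * d.b ν - d.y1 ν x * d.b ν * d.v 0 1) / d.b ν ^ 2 = q
    at e2 e8
  rw [div_eq_div_iff (by have := Real.pi_pos; positivity) two_ne_zero]
  linear_combination (-2 * √(d.kap ν)) * e1 - 2 * r * e2 + 2 * (d.y0 ν x * q - d.y1 ν x * p) * e3 +
    2 * Real.pi * d.y0 ν x * e8 - 2 * Real.pi * d.y1 ν x * e7

end HD

namespace GD

variable {D : GD}

theorem DFr_cross {f g : ℝ → V4} {a b m : ℝ} {f' g' : V4} (hm : |m| < 1 / 8)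
    (hf : HasDerivAt f f' (a + m)) (hg : HasDerivAt g g' (b - m))
    (e : ∀ m, |m| ≤ 1 / 8 → f (a + m) = g (b - m)) : g' = -f' := by
  have h1 := hf.scomp m ((hasDerivAt_id m).const_add a)
  have h2 := hg.scomp m ((hasDerivAt_id m).const_sub b)
  have h3 := h1.unique (h2.congr_of_eventuallyEq (by
    filter_upwards [continuous_abs.continuousAt.eventually (gt_mem_nhds hm)] with s hs
    exact e s hs.le))
  rw [one_smul, neg_smul, one_smul] at h3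
  rw [h3, neg_neg]

theorem Ok.cf_up (h : D.Ok) (b : Bool) {m : ℝ} (hm : |m| ≤ 1 / 8) (x : V4) :
    (D.H (!b)).cf ((D.H (!b)).M - m) *ᵥ (rm (D.G b) *ᵥ x) = (D.H b).cf ((D.H b).M + m) *ᵥ x := by
  rw [h.up b m hm, Matrix.mulVec_mulVec]

theorem Ok.cf_lo (h : D.Ok) (b : Bool) {m : ℝ} (hm : |m| ≤ 1 / 8) (x : V4) :
    (D.H (!b)).cf (-(D.H (!b)).M + m) *ᵥ (rm (D.H (!b)).T *ᵥ (rm (D.G b) *ᵥ x)) =
      (D.H b).cf (-(D.H b).M - m) *ᵥ (rm (D.H b).T *ᵥ x) := by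
  simp only [Matrix.mulVec_mulVec, h.lo b m hm, Matrix.mul_assoc]

theorem Ok.z1_up (h : D.Ok) (b : Bool) {m : ℝ} (hm : |m| ≤ 1 / 8) (x : V4) :
    (D.H (!b)).z1 ((D.H (!b)).M - m) (rm (D.G b) *ᵥ x) = (D.H b).z1 ((D.H b).M + m) x := by
  simp only [HD.z1, h.cf_up b hm]

theorem Ok.z2_up (h : D.Ok) (b : Bool) {m : ℝ} (hm : |m| ≤ 1 / 8) (x : V4) :
    (D.H (!b)).z2 ((D.H (!b)).M - m) (rm (D.G b) *ᵥ x) = (D.H b).z2 ((D.H b).M + m) x := by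
  simp only [HD.z2, h.cf_up b hm]

theorem Ok.z1_lo (h : D.Ok) (b : Bool) {m : ℝ} (hm : |m| ≤ 1 / 8) (x : V4) :
    (D.H (!b)).z1 (-(D.H (!b)).M + m) (rm (D.H (!b)).T *ᵥ (rm (D.G b) *ᵥ x)) =
      (D.H b).z1 (-(D.H b).M - m) (rm (D.H b).T *ᵥ x) := by
  simp only [HD.z1, h.cf_lo b hm]

theorem Ok.z2_lo (h : D.Ok) (b : Bool) {m : ℝ} (hm : |m| ≤ 1 / 8) (x : V4) :
    (D.H (!b)).z2 (-(D.H (!b)).M + m) (rm (D.H (!b)).T *ᵥ (rm (D.G b) *ᵥ x)) =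
      (D.H b).z2 (-(D.H b).M - m) (rm (D.H b).T *ᵥ x) := by
  simp only [HD.z2, h.cf_lo b hm]

theorem Ok.Hh_up (h : D.Ok) (b : Bool) {m : ℝ} (hm : |m| < 1 / 8) (x : V4) :
    (D.H (!b)).Hh ((D.H (!b)).M - m) (rm (D.G b) *ᵥ x) = -(D.H b).Hh ((D.H b).M + m) x := by
  rw [(h.ok _).Hh_eq, (h.ok _).Hh_eq, h.cf_up b hm.le, DFr_cross hm ((h.ok b).hasDeriv_cf _ x)
    ((h.ok (!b)).hasDeriv_cf _ _) fun s hs => (h.cf_up b hs x).symm, bf_neg_right, neg_div]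

theorem Ok.Hh_lo (h : D.Ok) (b : Bool) {m : ℝ} (hm : |m| < 1 / 8) (x : V4) :
    (D.H (!b)).Hh (-(D.H (!b)).M + m) (rm (D.H (!b)).T *ᵥ (rm (D.G b) *ᵥ x)) =
      -(D.H b).Hh (-(D.H b).M - m) (rm (D.H b).T *ᵥ x) := by
  rw [(h.ok _).Hh_eq, (h.ok _).Hh_eq, h.cf_lo b hm.le, DFr_cross hm ((h.ok (!b)).hasDeriv_cf _ _)
    ((h.ok b).hasDeriv_cf _ _) fun s hs => h.cf_lo b hs x, bf_neg_right, neg_div, neg_neg]

theorem Ok.rGG (h : D.Ok) (b : Bool) : rm (D.G (!b)) * rm (D.G b) = 1 := by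
  rw [← rm_mul, h.inv, rm_one]

theorem Ok.Om_up (h : D.Ok) (b : Bool) {m : ℝ} (hm : |m| ≤ 1 / 8) :
    (rm (D.G b))ᵀ * (D.H (!b)).Om ((D.H (!b)).M - m) * rm (D.G b) =
      (D.H b).Om ((D.H b).M + m) := by
  have k : ∀ b m, |m| ≤ 1 / 8 → |(D.H b).M + m| ≤ (D.H b).M + 1 / 8 := fun b m hm => by
    have := (h.ok b).hμ
    rw [abs_le] at hm ⊢
    unfold HD.M
    constructor <;> linarith [hm.1, hm.2]
  have e1 := (h.ok b).fr _ (k b m hm)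
  have e2 := (h.ok (!b)).fr _ (k (!b) (-m) (by rwa [abs_neg]))
  rw [h.up b m hm] at e1
  refine smul_right_injective M4 Real.pi_ne_zero ?_
  beta_reduce
  rw [← e1, ← Matrix.smul_mul, ← Matrix.mul_smul, sub_eq_add_neg, ← e2]
  simp only [Matrix.transpose_mul, Matrix.mul_assoc]

end GD

end

end Pool.Agent.Work.MP_bf98aa_gt.B3
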