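import Pool.Agent.Work.MP_bf98aa_gt.B3.Ke

-- merged part: Pool.Agent.Work.MP_bf98aa_gt.B3.X1
section
-- merged part: Pool.Agent.Work.MP_bf98aa_gt.B3.X0
section
/-!
The resolved strand upstairs: points `(u, z, w, β)` with `|w|² + |z|² = 2 |β|² + 1`, modulo the circle action
`rt4`. The charts `F`, `V`, `L` are the gauges `β > 0`, `z > 0`, `u w > 0`.
-/

set_option autoImplicit false

open scoped Manifold ContDiff Topology Matrix ComplexConjugate
open Set Complex Filter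

namespace Pool.Agent.Work.MP_bf98aa_gt.B3

open Pool.Agent.Work.MP_bf98aa_gt.Th Pool.Agent.Work.MP_bf98aa_gt.Cy

noncomputable section

/-- Points `(u, z, w, β)`. -/
abbrev C4 : Type := ℂ × ℂ × ℂ × ℂ

/-- The invariants of the circle action. -/
def am0 (p : C4) : XA :=
  (p.1, normSq p.2.2.1, normSq p.2.1, p.2.2.1 * conj p.2.1, p.2.2.2 * p.2.2.1 ^ 2,
    p.2.2.2 * (p.2.2.1 * p.2.1), p.2.2.2 * p.2.1 ^ 2)

/-- The level set. -/
def Lv (p : C4) : Prop := normSq p.2.2.1 + normSq p.2.1 = 2 * normSq p.2.2.2 + 1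

/-- The circle action. -/
def rt4 (θ : ℝ) (p : C4) : C4 :=
  (p.1, ee θ * p.2.1, ee θ * p.2.2.1, ee (-(2 * θ)) * p.2.2.2)

/-- The lifts of the charts. -/
def HD.up4 (d : HD) : X3 → E6 → C4
  | .F, z => (cc 0 z, cc 1 z, cc 2 z, (√((rF z - 1) / 2) : ℝ))
  | .V, z => (cc 0 z, (√(r2 z) : ℝ), cc 2 z, cc 1 z)
  | .L, z => ((√(r1 z - d.tt z) : ℝ) * ee (-z (2, 1)), cc 0 z, (√(r1 z) : ℝ) * ee (z (2, 1)), cc 1 z)

/-- The pull-back of the standard primitive by a lift. -/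
def La4 (l : E6 → C4) : F1 := fun x => ang (fun y => (l y).1) x + ang (fun y => (l y).2.1) x +
  ang (fun y => (l y).2.2.1) x + ang (fun y => (l y).2.2.2) x

/-- The long map upstairs. -/
def lg4 (s θ : ℝ) (p : C4) : C4 :=
  ((√(normSq p.2.2.1 - (s - xt (am0 p))) : ℝ) * conj (p.1 / ‖p.1‖) * ee (-θ), p.2.1,
    p.2.2.1 * (p.1 / ‖p.1‖) ^ 2 * ee θ, p.2.2.2)

/-- Ambient points in the range of the half `d`. -/
structure XBd (d : HD) (a : XA) : Prop where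
  va : ∃ p, Lv p ∧ a = am0 p
  r8 : xr a < 8
  lo : -2 * d.μ₁ - 9 / 8 < xt a
  hi : xt a < 9 / 8
  up : xt a - 1 < xu a

/-- Ambient points where the map to the cotangent bundle is defined. -/
structure Upp (a : XA) : Prop where
  va : ∃ p, Lv p ∧ a = am0 p
  pos : 0 < a.2.1
  up : xt a - 1 < xu a

/-- The Hermitian product. -/
def hp2 (a b : ℂ × ℂ) : ℂ := conj a.1 * b.1 + conj a.2 * b.2

/-- Points of the cotangent bundle of the 3-sphere. -/
def TV (a : TA) : Prop := hp2 a.1 a.1 = 1 ∧ (hp2 a.2 a.1).re = 0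

/-- The moment map of the Hopf action. -/
def tmm (a : TA) : ℝ := -(hp2 a.2 a.1).im

/-- The length of the covector. -/
def trr (a : TA) : ℝ := √(normSq a.2.1 + normSq a.2.2)

/-- The pull-back of the canonical form `Re (conj P · d q) / (2 π)`. -/
def can2 (g : E6 → TA) : F1 := fun x => (2 * Real.pi)⁻¹ • reCLM.comp
  (conj (g x).2.1 • fderiv ℝ (fun y => (g y).1.1) x + conj (g x).2.2 • fderiv ℝ (fun y => (g y).1.2) x)

/-- The coordinate of `q` that does not vanish on the Hopf chart `i`. -/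
def tq1 (i : Bool) (a : TA) : ℂ := cond i a.1.1 a.1.2

/-- The point of the Hopf chart `i` over `a`, for the argument `ψ` of `tq1 i a`. -/
def toT (i : Bool) (ψ : ℝ) (a : TA) : E6 :=
  mkc (tq1 (!i) a / tq1 i a) (ee (-ψ) * hp2 (hn' i (mkc (tq1 (!i) a / tq1 i a) 0 0)) a.2)
    ⟨tmm a, ψ⟩

end

theorem xt_am0 (p : C4) : xt (am0 p) = normSq p.2.2.1 - normSq p.1 := rfl

theorem xr_am0 (p : C4) : xr (am0 p) = normSq p.2.2.1 + normSq p.2.1 := rfl

theorem xu_am0 (p : C4) : xu (am0 p) = normSq p.1 + normSq p.2.1 := rfl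

theorem xr_eq (a : XA) : xr a = xu a + xt a := by
  simp only [xr, xu, xt]
  ring

theorem Lv.xr_eq {p : C4} (h : Lv p) : xr (am0 p) = 2 * normSq p.2.2.2 + 1 := h

theorem can2_apply (g : E6 → TA) (x v : E6) : can2 g x v =
    (conj (g x).2.1 * fderiv ℝ (fun y => (g y).1.1) x v +
      conj (g x).2.2 * fderiv ℝ (fun y => (g y).1.2) x v).re / (2 * Real.pi) := by
  simp [can2, div_eq_inv_mul]
  ring

theorem Upp.one_le {a : XA} (h : Upp a) : 1 ≤ xr a := by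
  obtain ⟨p, hp, rfl⟩ := h.va
  rw [hp.xr_eq]
  linarith [normSq_nonneg p.2.2.2]

theorem Upp.xu_pos {a : XA} (h : Upp a) : 0 < xu a := by
  linarith [h.one_le, h.up, xr_eq a]

theorem XBd.one_le {d : HD} {a : XA} (h : XBd d a) : 1 ≤ xr a := by
  obtain ⟨p, hp, rfl⟩ := h.va
  rw [hp.xr_eq]
  linarith [normSq_nonneg p.2.2.2]

theorem XBd.nonneg {d : HD} {a : XA} (h : XBd d a) : 0 ≤ a.2.1 := by
  obtain ⟨p, -, rfl⟩ := h.va
  exact normSq_nonneg _

theorem XBd.upp {d : HD} {a : XA} (h : XBd d a) (h0 : 0 < xt a) : Upp a :=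
  ⟨h.va, h0.trans_le (sub_le_self _ (normSq_nonneg _)), h.up⟩

theorem XBd.ne_zero {d : HD} {a : XA} (h : XBd d a) (h0 : xt a < 0) : a.1 ≠ 0 := fun e => by
  have := h.nonneg
  simp only [xt, e, map_zero] at h0
  linarith

theorem conj_ee (t : ℝ) : conj (ee t) = ee (-t) := by
  have h := ee_mul_neg t
  have h2 : ee t * conj (ee t) = 1 := by rw [mul_conj, normSq_ee]; simp
  exact mul_left_cancel₀ (ee_ne_zero t) (h2.trans h.symm)

theorem hp2_self (a : ℂ × ℂ) : hp2 a a = (normSq a.1 + normSq a.2 : ℝ) := by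
  simp [hp2, normSq_eq_conj_mul_self]

theorem hp2_sharp (θ : ℝ) (a b : ℂ × ℂ) : hp2 (sharp θ a) (sharp θ b) = conj (hp2 a b) := by
  simp only [hp2, sharp, Prod.smul_fst, Prod.smul_snd, smul_eq_mul, map_mul, map_add, map_neg,
    conj_conj, conj_ee]
  linear_combination (a.2 * conj b.2 + a.1 * conj b.1) * ee_mul_neg θ

theorem sharp_sharp (θ : ℝ) (a : ℂ × ℂ) : sharp θ (sharp θ a) = -a := by
  refine Prod.ext ?_ ?_ <;> simp only [sharp, Prod.smul_fst, Prod.smul_snd, smul_eq_mul, map_mul,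
    map_neg, conj_conj, conj_ee, Prod.fst_neg, Prod.snd_neg]
  · linear_combination (-a.1) * ee_mul_neg θ
  · linear_combination (-a.2) * ee_mul_neg θ

theorem tal_am0 {p : C4} {φ : ℝ} (h0 : p.2.2.1 ≠ 0) (h : p.2.2.1 = ‖p.2.2.1‖ * ee φ) :
    tal (am0 p) = (p.2.2.2 * ee φ * (ee φ * p.1), p.2.2.2 * ee φ * p.2.1) := by
  have h1 : (‖p.2.2.1‖ : ℂ) ≠ 0 := by exact_mod_cast norm_ne_zero_iff.2 h0
  simp only [tal, am0, normSq_eq_norm_sq, Real.sqrt_sq (norm_nonneg _), ofReal_pow]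
  generalize (‖p.2.2.1‖ : ℂ) = r at h h1
  rw [h]
  refine Prod.ext ?_ ?_ <;> field_simp

theorem tga_am0 {p : C4} {φ : ℝ} (h0 : p.2.2.1 ≠ 0) (h : p.2.2.1 = ‖p.2.2.1‖ * ee φ) :
    tga (am0 p) = √((xu (am0 p) - (xt (am0 p) - 1)) / 2) • (ee φ * conj p.2.1, -conj p.1) := by
  have h1 : (‖p.2.2.1‖ : ℂ) ≠ 0 := by exact_mod_cast norm_ne_zero_iff.2 h0
  rw [tga]
  congr 2
  simp only [am0, normSq_eq_norm_sq, Real.sqrt_sq (norm_nonneg _)]
  generalize (‖p.2.2.1‖ : ℂ) = r at h h1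
  rw [h]
  field_simp

end Pool.Agent.Work.MP_bf98aa_gt.B3
end

-- merged part: Pool.Agent.Work.MP_bf98aa_gt.B3.X1
section
/-!
Algebra of the ambient maps of the charts `F`, `V`, `L`.

PLAN. `am0_eq_iff`: `w ≠ 0` or `z ≠ 0` by `Lv`; if `w ≠ 0` then `|w'| = |w|`, `w' = e(θ) w` (`exists_ee (w' / w)`), `z'` from `w' conj z' = w conj z`, `β'` from `β' w'² = β w²`; same for `z ≠ 0`.
`amb_F_iff'`, `amb_V_inj`, `amb_L_iff`: `amb_up`, `am0_eq_iff` (for `F`: `rF` is an invariant, so `e(-2θ) = 1`, `e(θ) = ±1`; for `L`: `u` gives `tt` and `e(φ)`, then `w` gives `e(θ) = 1`).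
Note `nuF z = μ₁ + tF z`, `M = μ₁ + 1`.
-/

set_option autoImplicit false

open scoped Manifold ContDiff Topology Matrix ComplexConjugate
open Set Complex Filter

namespace Pool.Agent.Work.MP_bf98aa_gt.B3

open Pool.Agent.Work.MP_bf98aa_gt.Th Pool.Agent.Work.MP_bf98aa_gt.Cy

variable {D : GD} {d : HD} {x y z : E6} {j : J4} {b : Bool} {p p' : C4} {a : XA}

theorem am0_rt (θ : ℝ) (p : C4) : am0 (rt4 θ p) = am0 p := by
  obtain ⟨u, a, w, β⟩ := p
  have h1 := ee_mul_neg θ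
  have h2 : ee (-(2 * θ)) = ee (-θ) * ee (-θ) := by rw [← ee_add]; congr 1; ring
  simp only [am0, rt4, map_mul, normSq_ee, one_mul, conj_ee, h2, Prod.mk.injEq, true_and]
  refine ⟨?_, ?_, ?_, ?_⟩
  · linear_combination (w * conj a) * h1
  · linear_combination (β * w ^ 2 * (ee θ * ee (-θ) + 1)) * h1
  · linear_combination (β * w * a * (ee θ * ee (-θ) + 1)) * h1
  · linear_combination (β * a ^ 2 * (ee θ * ee (-θ) + 1)) * h1

theorem Lv.rt (h : Lv p) (θ : ℝ) : Lv (rt4 θ p) := by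
  simpa only [Lv, rt4, map_mul, normSq_ee, one_mul] using h

theorem X1_rot {w w' β β' : ℂ} (hw : w ≠ 0) (e : normSq w = normSq w')
    (e' : β * w ^ 2 = β' * w' ^ 2) : ∃ θ, w' = ee θ * w ∧ β' = ee (-(2 * θ)) * β := by
  obtain ⟨θ, h⟩ := exists_ee (w' / w)
  have hn : ‖w'‖ = ‖w‖ := by rw [Complex.norm_def, Complex.norm_def, e]
  rw [norm_div, hn, div_self (norm_ne_zero_iff.2 hw), ofReal_one, one_mul, div_eq_iff hw] at h
  refine ⟨θ, h, ?_⟩
  have h2 : ee (-(2 * θ)) = ee (-θ) * ee (-θ) := by rw [← ee_add]; congr 1; ring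
  rw [h, mul_pow, ← mul_assoc] at e'
  rw [mul_right_cancel₀ (pow_ne_zero 2 hw) e', h2]
  linear_combination (-β' * (ee θ * ee (-θ) + 1)) * ee_mul_neg θ

theorem X1_ns {r : ℝ} (h : 0 ≤ r) : normSq ((√r : ℝ) : ℂ) = r := by
  rw [normSq_ofReal, Real.mul_self_sqrt h]

theorem X1_sq {r : ℝ} (h : 0 ≤ r) : ((√r : ℝ) : ℂ) ^ 2 = r := by
  rw [← ofReal_pow, Real.sq_sqrt h]

theorem X1_r2 (hz : z ∈ d.WX .V) : 0 < r2 z := by
  have := hz.1
  unfold r2
  linarith [normSq_nonneg (cc 1 z)]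

theorem am0_eq_iff (h : Lv p) : am0 p = am0 p' ↔ ∃ θ, p' = rt4 θ p := by
  refine ⟨fun e => ?_, fun ⟨θ, e⟩ => by rw [e, am0_rt]⟩
  obtain ⟨u, a, w, β⟩ := p
  obtain ⟨u', a', w', β'⟩ := p'
  simp only [am0, Prod.mk.injEq] at e
  obtain ⟨e1, e2, e3, e4, e5, -, e7⟩ := e
  simp only [rt4, Prod.mk.injEq]
  by_cases hw : w = 0
  · have ha : a ≠ 0 := fun ha => by
      simp only [Lv, hw, ha, map_zero] at h
      linarith [normSq_nonneg β]
    obtain ⟨θ, k1, k2⟩ := X1_rot ha e3 e7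
    refine ⟨θ, e1.symm, k1, ?_, k2⟩
    rw [hw, map_zero] at e2
    rw [normSq_eq_zero.1 e2.symm, hw, mul_zero]
  · obtain ⟨θ, k1, k2⟩ := X1_rot hw e2 e5
    refine ⟨θ, e1.symm, ?_, k1, k2⟩
    rw [k1, mul_comm (ee θ), mul_assoc] at e4
    have e8 := congrArg conj (mul_left_cancel₀ hw e4)
    simp only [map_mul, conj_conj, conj_ee] at e8
    linear_combination (-ee θ) * e8 + (-a') * ee_mul_neg θ

theorem amb_up_F (d : HD) (z : E6) : d.amb .F z = am0 (d.up4 .F z) := by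
  rfl

theorem amb_up {c : X3} (hz : z ∈ d.WX c) : d.amb c z = am0 (d.up4 c z) := by
  cases c
  · rfl
  · have h := (X1_r2 hz).le
    simp only [HD.amb, HD.up4, am0, X1_ns h, X1_sq h, conj_ofReal, mul_assoc]
  · have h := hz.1.le
    have h2 : ee (2 * z (2, 1)) = ee (z (2, 1)) ^ 2 := by rw [two_mul, ee_add, sq]
    simp only [HD.amb, HD.up4, am0, map_mul, X1_ns h, normSq_ee, mul_one, mul_pow, X1_sq h, h2,
      Prod.mk.injEq, true_and, and_true]
    refine ⟨?_, ?_, ?_⟩ <;> ring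

theorem lv_up_F (d : HD) (h : 1 ≤ rF z) : Lv (d.up4 .F z) := by
  simp only [Lv, HD.up4]
  rw [X1_ns (by linarith), rF]
  ring

theorem lv_up {c : X3} (hz : z ∈ d.WX c) : Lv (d.up4 c z) := by
  cases c
  · exact lv_up_F d hz.2.1.le
  · simp only [Lv, HD.up4]
    rw [X1_ns (X1_r2 hz).le, r2]
    ring
  · simp only [Lv, HD.up4, map_mul, normSq_ee, mul_one]
    rw [X1_ns hz.1.le, r1]
    ring

theorem xt_F : xt (d.amb .F z) = tF z := by
  rfl

theorem xr_F : xr (d.amb .F z) = rF z := by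
  rfl

theorem xu_F : xu (d.amb .F z) = normSq (cc 0 z) + normSq (cc 1 z) := by
  rfl

theorem xt_V : xt (d.amb .V z) = tF z := by
  rfl

theorem xr_V : xr (d.amb .V z) = 2 * normSq (cc 1 z) + 1 := by
  simp only [xr, HD.amb, r2]
  ring

theorem xt_L (h : d.tt z ≤ r1 z) : xt (d.amb .L z) = d.tt z := by
  simp only [xt, HD.amb, map_mul, normSq_ee, mul_one]
  rw [X1_ns (sub_nonneg.2 h)]
  ring

theorem xr_L : xr (d.amb .L z) = 2 * normSq (cc 1 z) + 1 := by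
  simp only [xr, HD.amb, r1]
  ring

theorem isOpen_Fo (d : HD) : IsOpen d.Fo := by
  unfold HD.Fo rF HD.nuF
  refine .and (isOpen_lt ?_ ?_) (isOpen_lt ?_ ?_) <;> fun_prop

theorem isOpen_WX (d : HD) (c : X3) : IsOpen (d.WX c) := by
  cases c
  · unfold HD.WX rF tF
    refine .and (isOpen_Fo d) (.and (isOpen_lt ?_ ?_) (isOpen_lt ?_ ?_)) <;> fun_prop
  · unfold HD.WX HD.nuF
    refine .and (isOpen_lt ?_ ?_) (.and (isOpen_lt ?_ ?_) (isOpen_lt ?_ ?_)) <;> fun_prop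
  · unfold HD.WX HD.tt r1
    refine .and (isOpen_lt ?_ ?_) (.and (isOpen_lt ?_ ?_) (.and (isOpen_lt ?_ ?_)
      (.and (isOpen_lt ?_ ?_) (isOpen_lt ?_ ?_)))) <;> fun_prop

theorem continuous_amb (d : HD) (c : X3) : Continuous (d.amb c) := by
  have he : Continuous ee := contDiff_ee.continuous
  cases c
  · unfold HD.amb rF
    fun_prop
  · unfold HD.amb r2
    fun_prop
  · unfold HD.amb r1 HD.tt
    fun_prop

theorem xbd_amb {c : X3} (hz : z ∈ d.WX c) : XBd d (d.amb c z) := by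
  have hv : ∃ p, Lv p ∧ d.amb c z = am0 p := ⟨_, lv_up hz, amb_up hz⟩
  cases c
  · obtain ⟨⟨h1, h2⟩, -, h3⟩ := hz
    have h4 := abs_lt.1 h2
    simp only [HD.nuF, HD.M] at h4
    refine ⟨hv, h1, ?_, ?_, h3⟩ <;> rw [xt_F, tF] <;> linarith [h4.1, h4.2]
  · have h0 := X1_r2 hz
    obtain ⟨h1, h2, h3⟩ := hz
    simp only [HD.nuF, HD.M] at h3
    have h5 : xu (d.amb .V z) = normSq (cc 0 z) + r2 z := rfl
    refine ⟨hv, by rwa [xr_V], ?_, ?_, ?_⟩ <;> rw [xt_V, tF] <;>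
      linarith [normSq_nonneg (cc 0 z)]
  · obtain ⟨-, h0, h1, h2, h3⟩ := hz
    have h5 : 0 ≤ xu (d.amb .L z) := add_nonneg (normSq_nonneg _) (normSq_nonneg _)
    have h6 : d.tt z = z (2, 0) - d.μ₁ := rfl
    simp only [HD.M] at h3
    refine ⟨hv, by rwa [xr_L], ?_, ?_, ?_⟩ <;> rw [xt_L h0.le] <;> linarith

theorem WX_bounds (hd : d.Ok) {c : X3} (hz : z ∈ d.WX c) : 1 ≤ xr (d.amb c z) ∧ xr (d.amb c z) < 8 ∧
    -2 * d.μ₁ - 9 / 8 < xt (d.amb c z) ∧ xt (d.amb c z) < 9 / 8 ∧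
    xt (d.amb c z) - 1 < xu (d.amb c z) := by
  have h := xbd_amb hz
  exact ⟨h.one_le, h.r8, h.lo, h.hi, h.up⟩

theorem amb_F_iff' (hx : 1 < rF x) : d.amb .F x = d.amb .F y ↔ Sgn x y := by
  constructor
  · intro h
    have hr : rF x = rF y := by rw [← xr_F (d := d), h, xr_F]
    rw [amb_up_F, amb_up_F, am0_eq_iff (lv_up_F d hx.le)] at h
    obtain ⟨θ, h⟩ := h
    simp only [HD.up4, rt4, Prod.mk.injEq, ← hr] at h
    obtain ⟨h0, h1, h2, h3⟩ := h
    have h4 : ((√((rF x - 1) / 2) : ℝ) : ℂ) ≠ 0 :=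
      ofReal_ne_zero.2 (Real.sqrt_pos.2 (by linarith)).ne'
    have h5 : ee (-(2 * θ)) = 1 := mul_right_cancel₀ h4 (by rw [← h3, one_mul])
    have h6 : ee θ * ee θ = 1 := by
      rw [← ee_add, ← two_mul, ← ee_mul_neg (2 * θ), h5, mul_one]
    rcases mul_self_eq_one_iff.1 h6 with h7 | h7
    · left
      exact extc h0 (by rw [h1, h7, one_mul]) (by rw [h2, h7, one_mul])
    · right
      exact extc h0 (by rw [h1, h7]; simp [iof]) (by rw [h2, h7]; simp [iof])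
  · rintro (rfl | rfl)
    · rfl
    · simp [HD.amb, iof, rF]

theorem amb_F_iff (hx : x ∈ d.WX .F) (hy : y ∈ d.WX .F) : d.amb .F x = d.amb .F y ↔ Sgn x y := by
  exact amb_F_iff' hx.2.1

theorem X1_two {θ : ℝ} (h : ee θ = 1) : ee (-(2 * θ)) = 1 := by
  rw [← ee_mul_neg (2 * θ), two_mul, ee_add, h, one_mul, one_mul]

theorem amb_V_inj (hx : x ∈ d.WX .V) (hy : y ∈ d.WX .V) (h : d.amb .V x = d.amb .V y) : x = y := by
  have hr : r2 x = r2 y := congrArg (fun a : XA => a.2.2.1) h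
  rw [amb_up hx, amb_up hy, am0_eq_iff (lv_up hx)] at h
  obtain ⟨θ, h⟩ := h
  simp only [HD.up4, rt4, Prod.mk.injEq, ← hr] at h
  obtain ⟨h0, h1, h2, h3⟩ := h
  have h4 : ((√(r2 x) : ℝ) : ℂ) ≠ 0 := ofReal_ne_zero.2 (Real.sqrt_pos.2 (X1_r2 hx)).ne'
  have h5 : ee θ = 1 := mul_right_cancel₀ h4 (by rw [← h1, one_mul])
  exact (extc h0 (by rw [h3, X1_two h5, one_mul]) (by rw [h2, h5, one_mul])).symm

theorem amb_L_iff (hx : x ∈ d.WX .L) (hy : y ∈ d.WX .L) : d.amb .L x = d.amb .L y ↔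
    cc 0 y = cc 0 x ∧ cc 1 y = cc 1 x ∧ y (2, 0) = x (2, 0) ∧ ∃ n : ℤ, y (2, 1) = x (2, 1) + n := by
  constructor
  · intro h
    have hr : r1 x = r1 y := congrArg (fun a : XA => a.2.1) h
    have ht : d.tt x = d.tt y := by rw [← xt_L hx.2.1.le, h, xt_L hy.2.1.le]
    rw [amb_up hx, amb_up hy, am0_eq_iff (lv_up hx)] at h
    obtain ⟨θ, h⟩ := h
    simp only [HD.up4, rt4, Prod.mk.injEq, ← hr, ← ht] at h
    obtain ⟨h0, h1, h2, h3⟩ := h
    have h4 : ((√(r1 x - d.tt x) : ℝ) : ℂ) ≠ 0 :=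
      ofReal_ne_zero.2 (Real.sqrt_pos.2 (sub_pos.2 hx.2.1)).ne'
    have h4' : ((√(r1 x) : ℝ) : ℂ) ≠ 0 := ofReal_ne_zero.2 (Real.sqrt_pos.2 hx.1).ne'
    have h5 : ee (y (2, 1)) = ee (x (2, 1)) := by
      have := congrArg conj (mul_left_cancel₀ h4 h0)
      simpa only [conj_ee, neg_neg] using this
    have h6 : ee θ = 1 := mul_right_cancel₀ (mul_ne_zero h4' (ee_ne_zero (x (2, 1))))
      (by rw [← h2, h5, one_mul])
    refine ⟨by rw [h1, h6, one_mul], by rw [h3, X1_two h6, one_mul], ?_, ee_eq_iff.1 h5⟩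
    simp only [HD.tt] at ht
    linarith
  · rintro ⟨h0, h1, h2, n, h3⟩
    have h5 : ee (y (2, 1)) = ee (x (2, 1)) := ee_eq_iff.2 ⟨n, h3⟩
    rw [amb_up hx, amb_up hy]
    simp only [HD.up4, r1, HD.tt, h0, h1, h2, h5, ← conj_ee]

end Pool.Agent.Work.MP_bf98aa_gt.B3
end

-- merged part: Pool.Agent.Work.MP_bf98aa_gt.B3.X3
section
/-!
The Hopf charts of the cotangent bundle of the 3-sphere: algebra.

PLAN. `hn i`, `hn' i` is a unitary frame (`hp2`). `ambT_toT`: `|q₁| = 1 / √(1 + |ξ|²)` since `|q| = 1`, so `q = e(ψ) n`; `P` is expanded in the frame `e(ψ) n`, `e(ψ) n'`, with `hp2 q P = i m`.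
`ex_T`: take `i` with `|tq1 (!i) a| ≤ |tq1 i a|`, `exists_ee`, `Int.fract`.
-/

set_option autoImplicit false

open scoped Manifold ContDiff Topology Matrix ComplexConjugate
open Set Complex Filter

namespace Pool.Agent.Work.MP_bf98aa_gt.B3

open Pool.Agent.Work.MP_bf98aa_gt.Th Pool.Agent.Work.MP_bf98aa_gt.Cy

variable {D : GD} {d : HD} {x y z : E6} {j : J4} {b : Bool} {i : Bool} {a : TA}

theorem continuous_rT : Continuous rT := by
  unfold rT
  exact (((continuous_apply _).pow 2).add (continuous_normSq.comp (continuous_cc 1))).sqrt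

theorem isOpen_WT : IsOpen WT := by
  have h : Continuous fun z : E6 => |z (2, 0)| := (continuous_apply _).abs
  exact (isOpen_lt h continuous_const).inter (isOpen_lt (continuous_rT.add h) continuous_const)

theorem X3_pos (z : E6) : 0 < nT z := by
  unfold nT
  linarith [normSq_nonneg (cc 0 z)]

theorem X3_cs (z : E6) : ContDiffAt ℝ ∞ (fun z => (√(nT z))⁻¹) z := by
  have h : ContDiffAt ℝ ∞ nT z :=
    contDiffAt_const.add (contDiffAt_normSq (contDiff_cc 0).contDiffAt)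
  exact (h.sqrt (X3_pos z).ne').inv (Real.sqrt_pos.2 (X3_pos z)).ne'

theorem contDiff_ambT (i : Bool) : ContDiff ℝ ∞ (ambT i) := by
  refine contDiff_iff_contDiffAt.2 fun z => ?_
  have h0 := (contDiff_cc 0).contDiffAt (x := z)
  have h1 : ContDiffAt ℝ ∞ (hn i) z := by
    cases i
    exacts [(X3_cs z).smul (h0.prodMk contDiffAt_const), (X3_cs z).smul (contDiffAt_const.prodMk h0)]
  have h2 : ContDiffAt ℝ ∞ (hn' i) z := by
    cases i
    exacts [(X3_cs z).smul (contDiffAt_const.prodMk (contDiffAt_conj h0).neg),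
      (X3_cs z).smul ((contDiffAt_conj h0).neg.prodMk contDiffAt_const)]
  have h3 : ContDiffAt ℝ ∞ (fun z : E6 => ee (z (2, 1))) z :=
    contDiffAt_ee (contDiff_apply ℝ ℝ _).contDiffAt
  have h4 : ContDiffAt ℝ ∞ (fun z : E6 => I * (z (2, 0) : ℂ)) z :=
    contDiffAt_const.mul (contDiffAt_ofReal (contDiff_apply ℝ ℝ _).contDiffAt)
  exact (h3.smul h1).prodMk (h3.smul ((h4.smul h1).add ((contDiff_cc 1).contDiffAt.smul h2)))

theorem X3_s (z : E6) :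
    (((√(nT z))⁻¹ : ℝ) : ℂ) ^ 2 * (1 + conj (cc 0 z) * cc 0 z) = 1 := by
  have h : ((√(nT z))⁻¹) ^ 2 * nT z = 1 := by
    rw [inv_pow, Real.sq_sqrt (X3_pos z).le, inv_mul_cancel₀ (X3_pos z).ne']
  rw [← normSq_eq_conj_mul_self]
  exact_mod_cast h

theorem X3_ee (t : ℝ) : conj (ee t) * ee t = 1 := by
  rw [conj_ee, mul_comm, ee_mul_neg]

theorem X3_fr (i : Bool) (z : E6) : hp2 (hn i z) (hn i z) = 1 ∧ hp2 (hn' i z) (hn' i z) = 1 ∧
    hp2 (hn i z) (hn' i z) = 0 ∧ hp2 (hn' i z) (hn i z) = 0 := by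
  have h := X3_s z
  cases i <;> simp only [hp2, hn, hn', Prod.smul_mk, real_smul, map_mul, conj_ofReal, map_one,
    map_neg, conj_conj] <;>
  exact ⟨by linear_combination h, by linear_combination h, by ring, by ring⟩

theorem X3_exp (i : Bool) (z : E6) (P : ℂ × ℂ) :
    hp2 (hn i z) P • hn i z + hp2 (hn' i z) P • hn' i z = P := by
  have h := X3_s z
  cases i <;> refine Prod.ext ?_ ?_ <;> simp only [hp2, hn, hn', Prod.smul_mk, real_smul, map_mul,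
    conj_ofReal, map_one, map_neg, conj_conj, Prod.mk_add_mk, smul_eq_mul]
  exacts [by linear_combination P.1 * h, by linear_combination P.2 * h,
    by linear_combination P.1 * h, by linear_combination P.2 * h]

theorem X3_sl (c : ℂ) (p q : ℂ × ℂ) : hp2 (c • p) q = conj c * hp2 p q := by
  simp only [hp2, Prod.smul_fst, Prod.smul_snd, smul_eq_mul, map_mul]
  ring

theorem X3_sr (c : ℂ) (p q : ℂ × ℂ) : hp2 p (c • q) = c * hp2 p q := by
  simp only [hp2, Prod.smul_fst, Prod.smul_snd, smul_eq_mul]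
  ring

theorem X3_al (p p' q : ℂ × ℂ) : hp2 (p + p') q = hp2 p q + hp2 p' q := by
  simp only [hp2, Prod.fst_add, Prod.snd_add, map_add]
  ring

theorem X3_ar (p q q' : ℂ × ℂ) : hp2 p (q + q') = hp2 p q + hp2 p q' := by
  simp only [hp2, Prod.fst_add, Prod.snd_add]
  ring

theorem X3_pq (i : Bool) (z : E6) : hp2 (ambT i z).2 (ambT i z).1 = -(I * z (2, 0)) := by
  obtain ⟨h1, -, -, h4⟩ := X3_fr i z
  simp only [ambT, X3_sl, X3_sr, X3_al, h1, h4, map_mul, conj_I, conj_ofReal]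
  linear_combination (-(I * z (2, 0))) * X3_ee (z (2, 1))

theorem tv_ambT (i : Bool) (z : E6) : TV (ambT i z) := by
  refine ⟨?_, by simp [X3_pq]⟩
  simp only [ambT, X3_sl, X3_sr, (X3_fr i z).1]
  linear_combination X3_ee (z (2, 1))

theorem tmm_ambT (i : Bool) (z : E6) : tmm (ambT i z) = z (2, 0) := by
  simp [tmm, X3_pq]

theorem trr_ambT (i : Bool) (z : E6) : trr (ambT i z) = rT z := by
  obtain ⟨h1, h2, h3, h4⟩ := X3_fr i z
  have h : hp2 (ambT i z).2 (ambT i z).2 = (z (2, 0) ^ 2 + normSq (cc 1 z) : ℝ) := by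
    simp only [ambT, X3_sl, X3_sr, X3_al, X3_ar, h1, h2, h3, h4, map_mul, conj_I, conj_ofReal,
      ofReal_add, ofReal_pow, normSq_eq_conj_mul_self]
    linear_combination (-I * I * (z (2, 0) : ℂ) ^ 2 + conj (cc 1 z) * cc 1 z) * X3_ee (z (2, 1))
      - (z (2, 0) : ℂ) ^ 2 * I_mul_I
  rw [hp2_self] at h
  rw [trr, rT, ofReal_injective h]

theorem X3_tq1 (i : Bool) (z : E6) :
    tq1 i (ambT i z) = ((√(nT z))⁻¹ : ℝ) * ee (z (2, 1)) ∧
      tq1 (!i) (ambT i z) = ((√(nT z))⁻¹ : ℝ) * ee (z (2, 1)) * cc 0 z := by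
  cases i <;> simp only [tq1, ambT, hn, Bool.not_true, Bool.not_false, cond_true, cond_false,
    Prod.smul_mk, real_smul, smul_eq_mul] <;> exact ⟨by ring, by ring⟩

theorem X3_ne (z : E6) : (((√(nT z))⁻¹ : ℝ) : ℂ) ≠ 0 :=
  ofReal_ne_zero.2 (inv_ne_zero (Real.sqrt_pos.2 (X3_pos z)).ne')

theorem X3_div (i : Bool) (z : E6) : tq1 (!i) (ambT i z) / tq1 i (ambT i z) = cc 0 z := by
  rw [(X3_tq1 i z).1, (X3_tq1 i z).2]
  exact mul_div_cancel_left₀ _ (mul_ne_zero (X3_ne z) (ee_ne_zero _))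

theorem X3_hn (h : cc 0 x = cc 0 y) (i : Bool) : hn i x = hn i y ∧ hn' i x = hn' i y := by
  cases i <;> simp only [hn, hn', nT, h, and_self]

theorem X3_c1 (i : Bool) (z : E6) : hp2 (hn' i z) (ambT i z).2 = ee (z (2, 1)) * cc 1 z := by
  obtain ⟨-, h2, -, h4⟩ := X3_fr i z
  simp only [ambT, X3_sr, X3_ar, h2, h4]
  ring

theorem ambT_iff {i : Bool} : ambT i x = ambT i y ↔
    cc 0 y = cc 0 x ∧ cc 1 y = cc 1 x ∧ y (2, 0) = x (2, 0) ∧ ∃ n : ℤ, y (2, 1) = x (2, 1) + n := by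
  refine ⟨fun h => ?_, fun ⟨h0, h1, h2, n, h3⟩ => ?_⟩
  · have h0 : cc 0 y = cc 0 x := by rw [← X3_div i x, h, X3_div]
    have h3 : ee (y (2, 1)) = ee (x (2, 1)) := by
      have e := (X3_tq1 i x).1
      rw [h, (X3_tq1 i y).1, show nT y = nT x by rw [nT, nT, h0]] at e
      exact mul_left_cancel₀ (X3_ne x) e
    refine ⟨h0, ?_, by rw [← tmm_ambT i x, h, tmm_ambT], ee_eq_iff.1 h3⟩
    have e := X3_c1 i x
    rw [h, ← (X3_hn h0 i).2, X3_c1, h3] at e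
    exact mul_left_cancel₀ (ee_ne_zero _) e
  · rw [ambT, ambT, (X3_hn h0 i).1, (X3_hn h0 i).2, h1, h2, ee_eq_iff.2 ⟨n, h3⟩]

theorem tq1_ambT (i : Bool) (z : E6) : tq1 i (ambT i z) = ((√(nT z))⁻¹ : ℝ) * ee (z (2, 1)) := by
  exact (X3_tq1 i z).1

theorem X3_one (h : TV a) (i : Bool) : normSq (tq1 i a) + normSq (tq1 (!i) a) = 1 := by
  have e := h.1
  rw [hp2_self] at e
  have e' : normSq a.1.1 + normSq a.1.2 = 1 := by exact_mod_cast e
  cases i
  · exact (add_comm _ _).trans e'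
  · exact e'

theorem ambT_toT {ψ : ℝ} (h : TV a) (h0 : tq1 i a ≠ 0) (hψ : tq1 i a = ‖tq1 i a‖ * ee ψ) :
    ambT i (toT i ψ a) = a := by
  set z := toT i ψ a with hz
  have c0 : cc 0 z = tq1 (!i) a / tq1 i a := rfl
  have c1 : cc 1 z = ee (-ψ) * hp2 (hn' i z) a.2 := by
    rw [(X3_hn (x := z) (y := mkc (tq1 (!i) a / tq1 i a) 0 0) rfl i).2]
    rfl
  have c2 : z (2, 0) = tmm a := rfl
  have c3 : z (2, 1) = ψ := rfl
  have hn0 : normSq (tq1 i a) ≠ 0 := (normSq_pos.2 h0).ne'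
  have hs : (√(nT z))⁻¹ = ‖tq1 i a‖ := by
    have e : nT z = (‖tq1 i a‖⁻¹) ^ 2 := by
      rw [nT, c0, map_div₀, inv_pow, ← normSq_eq_norm_sq]
      field_simp
      exact X3_one h i
    rw [e, Real.sqrt_sq (inv_nonneg.2 (norm_nonneg _)), inv_inv]
  have e1 : tq1 i (ambT i z) = tq1 i a := by rw [(X3_tq1 i z).1, hs, c3, ← hψ]
  have e2 : tq1 (!i) (ambT i z) = tq1 (!i) a := by
    rw [(X3_tq1 i z).2, hs, c3, ← hψ, c0, mul_div_cancel₀ _ h0]
  have hq : ee ψ • hn i z = a.1 := by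
    cases i
    exacts [Prod.ext e2 e1, Prod.ext e1 e2]
  have hP : hp2 a.1 a.2 = I * tmm a := by
    have e : hp2 a.1 a.2 = conj (hp2 a.2 a.1) := by
      simp only [hp2, map_add, map_mul, conj_conj]
      ring
    rw [e]
    exact Complex.ext (by simp [h.2]) (by simp [tmm])
  rw [← hq, X3_sl, conj_ee] at hP
  refine Prod.ext hq ?_
  change ee (z (2, 1)) • ((I * z (2, 0)) • hn i z + cc 1 z • hn' i z) = a.2
  rw [c1, c2, c3, ← hP, smul_add, smul_smul, smul_smul, ← mul_assoc, ← mul_assoc, ee_mul_neg,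
    one_mul, one_mul, X3_exp]

theorem toT_ambT (i : Bool) (z : E6) : toT i (z (2, 1)) (ambT i z) = z := by
  refine extc (X3_div i z) ?_ (Complex.ext (tmm_ambT i z) rfl)
  rw [toT, cc_mkc1, X3_div, (X3_hn (x := mkc (cc 0 z) 0 0) (y := z) rfl i).2, X3_c1, ← mul_assoc,
    mul_comm (ee _), ee_mul_neg, one_mul]

theorem ex_T (h : TV a) :
    ∃ i y, ambT i y = a ∧ normSq (cc 0 y) ≤ 1 ∧ y (2, 1) ∈ Icc (0 : ℝ) 1 := by
  obtain ⟨i, hi⟩ : ∃ i, normSq (tq1 (!i) a) ≤ normSq (tq1 i a) := by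
    rcases le_total (normSq a.1.1) (normSq a.1.2) with e | e
    exacts [⟨false, e⟩, ⟨true, e⟩]
  have h1 := X3_one h i
  have hp : 0 < normSq (tq1 i a) := by linarith
  obtain ⟨t, ht⟩ := exists_ee (tq1 i a)
  have e : ee t = ee (Int.fract t) := ee_eq_iff.2 ⟨⌊t⌋, (Int.fract_add_floor t).symm⟩
  rw [e] at ht
  refine ⟨i, toT i (Int.fract t) a, ambT_toT h (normSq_pos.1 hp) ht, ?_,
    Int.fract_nonneg t, (Int.fract_lt_one t).le⟩
  rw [toT, cc_mkc0, map_div₀]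
  exact (div_le_one hp).2 hi

end Pool.Agent.Work.MP_bf98aa_gt.B3
end

-- merged part: Pool.Agent.Work.MP_bf98aa_gt.B3.X4
section
/-!
The map to the cotangent bundle of the 3-sphere: algebra.

PLAN. For `a = am0 (u, z, w, β)`, `w = |w| e(φ) ≠ 0`, `ρ = xu a = |u|² + |z|²`, `m = xt a - 1`, `A = √((ρ - m) / 2)`: `tal_am0`, `tga_am0`, `|β|² = (ρ + m) / 2` (`Lv`);
so `α = tal a`, `γ = tga a` are orthogonal for `hp2`, `|α|² = ρ (ρ + m) / 2`, `|γ|² = ρ (ρ - m) / 2`. First prove everything for `ta ε` with `ε ^ 2 = 1`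
(`tmm (ta ε a) = m`), then use `hp2_sharp`, `sharp_sharp`.
`Upp.inj`: `ρ`, `m` by `trr_eq`, `tmm_eq`; then `α`, `γ`; `γ` gives `u`, `|w|² = m + 1 + |u|²`, `c = w conj z`, `|z|² = ρ - |u|²`; `α` gives `B`;
`A' ρ = α₁ |w|² conj u + B c` and `C |w|² = B conj c` for the last three entries `A', B, C` of `a`.
-/

set_option autoImplicit false

open scoped Manifold ContDiff Topology Matrix ComplexConjugate
open Set Complex Filter

namespace Pool.Agent.Work.MP_bf98aa_gt.B3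

open Pool.Agent.Work.MP_bf98aa_gt.Th Pool.Agent.Work.MP_bf98aa_gt.Cy

variable {D : GD} {d : HD} {x y z : E6} {j : J4} {b : Bool} {a a' : XA} {θ : ℝ}

theorem X4_key (h : Upp a) : hp2 (tal a) (tga a) = 0 ∧ hp2 (tga a) (tal a) = 0 ∧
    hp2 (tal a) (tal a) = xu a * (xu a + (xt a - 1 : ℝ)) / 2 ∧
    hp2 (tga a) (tga a) = xu a * (xu a - (xt a - 1 : ℝ)) / 2 := by
  have hA := Real.mul_self_sqrt (by linarith [h.up] : 0 ≤ (xu a - (xt a - 1)) / 2)
  obtain ⟨p, hp, rfl⟩ := h.va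
  have h0 : p.2.2.1 ≠ 0 := normSq_pos.1 h.pos
  obtain ⟨φ, hφ⟩ := exists_ee p.2.2.1
  rw [tal_am0 h0 hφ, tga_am0 h0 hφ]
  generalize √((xu (am0 p) - (xt (am0 p) - 1)) / 2) = A at hA
  refine ⟨?_, ?_, ?_, ?_⟩
  · simp only [hp2, Prod.smul_mk, real_smul, map_mul, conj_ee]
    linear_combination (A * conj p.2.2.2 * conj p.1 * conj p.2.1 * ee (-φ)) * ee_mul_neg φ
  · simp only [hp2, Prod.smul_mk, real_smul, map_mul, map_neg, conj_ee, conj_conj, conj_ofReal]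
    linear_combination (A * p.2.2.2 * p.1 * p.2.1 * ee φ) * ee_mul_neg φ
  · rw [hp2_self]
    norm_cast
    simp only [map_mul, normSq_ee, xu_am0, xt_am0]
    unfold Lv at hp
    linear_combination (-(normSq p.1 + normSq p.2.1) / 2) * hp
  · rw [hp2_self]
    norm_cast
    simp only [Prod.smul_mk, real_smul, map_mul, normSq_ee, normSq_ofReal, normSq_neg, normSq_conj,
      hA, xu_am0]
    ring

theorem X4_ta (h : Upp a) {ε : ℝ} (hε : ε ^ 2 = 1) : hp2 (ta ε a).1 (ta ε a).1 = 1 ∧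
    hp2 (ta ε a).2 (ta ε a).1 = -I * (xt a - 1 : ℝ) ∧
    hp2 (ta ε a).2 (ta ε a).2 = (xu a ^ 2 : ℝ) := by
  obtain ⟨h1, h2, h3, h4⟩ := X4_key h
  have hr : (((xu a)⁻¹ : ℝ) : ℂ) * xu a = 1 := by exact_mod_cast inv_mul_cancel₀ h.xu_pos.ne'
  have he : (ε : ℂ) ^ 2 = 1 := by exact_mod_cast hε
  simp only [ta, hp2, Prod.smul_fst, Prod.smul_snd, Prod.fst_add, Prod.snd_add, Prod.fst_sub,
    Prod.snd_sub, real_smul, smul_eq_mul, map_mul, map_add, map_sub, conj_ofReal, conj_I,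
    ofReal_pow] at h1 h2 h3 h4 ⊢
  generalize (((xu a)⁻¹ : ℝ) : ℂ) = r at hr ⊢
  generalize ((xt a - 1 : ℝ) : ℂ) = m at h3 h4 ⊢
  generalize (xu a : ℂ) = ρ at hr h3 h4 ⊢
  refine ⟨?_, ?_, ?_⟩
  · linear_combination r ^ 2 * (h3 + ε * h1 + ε * h2 + ε ^ 2 * h4 + ρ * (ρ - m) / 2 * he) +
      (r * ρ + 1) * hr
  · linear_combination -I * r * (h3 + ε * h1 - ε * h2 - ε ^ 2 * h4 - ρ * (ρ - m) / 2 * he) -
      I * m * hr
  · linear_combination -I * I * (h3 - ε * h1 - ε * h2 + ε ^ 2 * h4 + ρ * (ρ - m) / 2 * he) -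
      ρ ^ 2 * I_mul_I

theorem X4_rel (h : Upp a) : a.2.2.2.2.1 * xu a =
    (tal a).1 * a.2.1 * conj a.1 + a.2.2.2.2.2.1 * a.2.2.2.1 ∧
      a.2.2.2.2.2.2 * a.2.1 = a.2.2.2.2.2.1 * conj a.2.2.2.1 := by
  rw [tal, div_mul_cancel₀ _ (ofReal_ne_zero.2 h.pos.ne')]
  obtain ⟨p, -, rfl⟩ := h.va
  simp only [xu, am0, ofReal_add, normSq_eq_conj_mul_self, map_mul, conj_conj]
  constructor <;> ring

theorem X4_inj (h : Upp a) (h' : Upp a') {ε : ℝ} (hε : ε ≠ 0) (hu : xu a = xu a')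
    (ht : xt a = xt a') (he : ta ε a = ta ε a') : a = a' := by
  have e1 : tal a + ε • tga a = tal a' + ε • tga a' :=
    smul_right_injective _ (inv_ne_zero h.xu_pos.ne') ((congrArg Prod.fst he).trans (by rw [hu]; rfl))
  have e2 : tal a - ε • tga a = tal a' - ε • tga a' :=
    smul_right_injective _ I_ne_zero (congrArg Prod.snd he)
  have e3 : tal a = tal a' := smul_right_injective _ (two_ne_zero (α := ℝ)) (by
    linear_combination (norm := module) e1 + e2)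
  have e4 : tga a = tga a' := smul_right_injective _ hε (add_left_cancel (e3 ▸ e1))
  rw [tga, tga, ← hu, ← ht] at e4
  have e5 := smul_right_injective _ (Real.sqrt_pos.2 (by linarith [h.up])).ne' e4
  have f1 : a.1 = a'.1 := star_injective (neg_injective (congrArg Prod.snd e5))
  have f2 : a.2.1 = a'.2.1 := by simpa only [xt, f1, sub_left_inj] using ht
  have f3 : a.2.2.1 = a'.2.2.1 := by simpa only [xu, f1, add_right_inj] using hu
  have hW := ofReal_ne_zero.2 (Real.sqrt_pos.2 h'.pos).ne'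
  have f4 : a.2.2.2.1 = a'.2.2.2.1 := by
    simpa only [f2, div_left_inj' hW] using congrArg Prod.fst e5
  have f6 : a.2.2.2.2.2.1 = a'.2.2.2.2.2.1 := by
    simpa only [tal, f2, div_left_inj' hW] using congrArg Prod.snd e3
  obtain ⟨r1, r2⟩ := X4_rel h
  rw [e3, f2, f1, f6, f4, ← (X4_rel h').1, hu] at r1
  rw [f6, f4, ← (X4_rel h').2, f2] at r2
  exact Prod.ext f1 (Prod.ext f2 (Prod.ext f3 (Prod.ext f4 (Prod.ext
    (mul_right_cancel₀ (ofReal_ne_zero.2 h'.xu_pos.ne') r1)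
    (Prod.ext f6 (mul_right_cancel₀ (ofReal_ne_zero.2 h'.pos.ne') r2))))))

theorem X4_sm (h : Upp a) (ε : ℝ) : ContDiffAt ℝ ∞ (ta ε) a := by
  have h1 : ContDiffAt ℝ ∞ xu a := by unfold xu; fun_prop
  have h2 : ContDiffAt ℝ ∞ xt a := by unfold xt; fun_prop
  have h3 : ContDiffAt ℝ ∞ (fun a : XA => a.2.1) a := by fun_prop
  have h4 := h3.inv h.pos.ne'
  have h5 := (h3.sqrt h.pos.ne').inv (Real.sqrt_pos.2 h.pos).ne'
  have h6 := ((h1.sub (h2.sub (contDiffAt_const (c := (1 : ℝ))))).div_const 2).sqrt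
    (by linarith [h.up] : 0 < (xu a - (xt a - 1)) / 2).ne'
  have h7 : ContDiffAt ℝ ∞ tal a := by
    unfold tal
    simp only [div_eq_mul_inv, ← ofReal_inv]
    exact ((by fun_prop : ContDiffAt ℝ ∞ (fun a : XA => a.2.2.2.2.1 * a.1) a).mul
      (contDiffAt_ofReal h4)).prodMk
        ((by fun_prop : ContDiffAt ℝ ∞ (fun a : XA => a.2.2.2.2.2.1) a).mul (contDiffAt_ofReal h5))
  have h8 : ContDiffAt ℝ ∞ tga a := by
    refine h6.smul (ContDiffAt.prodMk ?_ (contDiffAt_conj contDiffAt_fst).neg)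
    simp only [div_eq_mul_inv, ← ofReal_inv]
    exact (by fun_prop : ContDiffAt ℝ ∞ (fun a : XA => a.2.2.2.1) a).mul (contDiffAt_ofReal h5)
  exact ((h1.inv h.xu_pos.ne').smul (h7.add (h8.const_smul ε))).prodMk
    ((h7.sub (h8.const_smul ε)).const_smul I)

theorem Upp.hp2_tal_tga (h : Upp a) : hp2 (tal a) (tga a) = 0 := by
  exact (X4_key h).1

theorem Upp.tv (h : Upp a) (θ : ℝ) (b : Bool) : TV (taH θ b a) := by
  cases b
  · obtain ⟨h1, h2, -⟩ := X4_ta h (ε := -1) (by norm_num)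
    exact ⟨by simp only [taH, hp2_sharp, h1, map_one], by simp [taH, hp2_sharp, h2]⟩
  · obtain ⟨h1, h2, -⟩ := X4_ta h (ε := 1) (by norm_num)
    exact ⟨h1, by simp [taH, h2]⟩

theorem Upp.tmm_eq (h : Upp a) (θ : ℝ) (b : Bool) :
    xt a - 1 = cond b (tmm (taH θ b a)) (-tmm (taH θ b a)) := by
  cases b
  · simp [tmm, taH, hp2_sharp, (X4_ta h (ε := -1) (by norm_num)).2.1]
  · simp [tmm, taH, (X4_ta h (ε := 1) (by norm_num)).2.1]

theorem Upp.trr_eq (h : Upp a) (θ : ℝ) (b : Bool) : trr (taH θ b a) = xu a := by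
  have : hp2 (taH θ b a).2 (taH θ b a).2 = (xu a ^ 2 : ℝ) := by
    cases b
    · simp only [taH, hp2_sharp, (X4_ta h (ε := -1) (by norm_num)).2.2, conj_ofReal]
    · exact (X4_ta h (ε := 1) (by norm_num)).2.2
  rw [hp2_self, ofReal_inj] at this
  rw [trr, this, Real.sqrt_sq h.xu_pos.le]

theorem Upp.inj (h : Upp a) (h' : Upp a') (he : taH θ b a = taH θ b a') : a = a' := by
  have hu : xu a = xu a' := by rw [← h.trr_eq θ b, he, h'.trr_eq]
  have ht : xt a = xt a' := sub_left_injective (b := 1) (by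
    simp only [h.tmm_eq θ b, he, h'.tmm_eq θ b])
  cases b
  · have hs : Function.Injective (sharp θ) := fun x y e =>
      neg_injective (by rw [← sharp_sharp θ, e, sharp_sharp])
    exact X4_inj h h' (ε := -1) (by norm_num) hu ht
      (Prod.ext (hs (congrArg Prod.fst he)) (hs (congrArg Prod.snd he)))
  · exact X4_inj h h' one_ne_zero hu ht he

theorem contDiffAt_taH (h : Upp a) (θ : ℝ) (b : Bool) : ContDiffAt ℝ ∞ (taH θ b) a := by
  cases b
  · have hs : ContDiff ℝ ∞ (sharp θ) := contDiff_iff_contDiffAt.2 fun _ =>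
      ((contDiffAt_conj contDiffAt_snd).prodMk (contDiffAt_conj contDiffAt_fst).neg).const_smul _
    exact (hs.contDiffAt.comp a (X4_sm h _).fst).prodMk (hs.contDiffAt.comp a (X4_sm h _).snd)
  · exact X4_sm h 1

end Pool.Agent.Work.MP_bf98aa_gt.B3
end
end

-- merged part: Pool.Agent.Work.MP_bf98aa_gt.B3.X2
section
/-!
Arrows into the charts `F`, `V`, `L`.

PLAN. `La4_up`: on the (open) domain `La4 (up4 c) = lamX c` for `F`, `V` (`ang_cc`, `ang_real`) and `lamX L - μ₁ • dc (2,1)` for `L` (`ang_polar` or `ang_mul`, `ang_ee`); `d1_congr`, `d1_sub`, `d1_const`.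
`La4_rt`: `ang_mul`, `ang_ee`, and `Lv`. `arrow_X`: `amb_up`, `am0_eq_iff` give `θ₀` with `up4 c y = rt4 θ₀ (l x)`. Find a smooth `θ` with `θ x = θ₀` and a smooth `f` with `f x = y` and
`up4 c (f z) = rt4 (θ z) (l z)` near `x` (`X2_gauge`; `ee_lift` for `β`, with `2 θ`, resp. `conj z`, resp. `conj u` and `w`; the formulas are those of `ex_F`, `ex_V`, `ex_L`). Then
`pb f (d1 (lamX c)) = pb f (d1 (La4 (up4 c))) = d1 (pb1 f (La4 (up4 c))) = d1 (La4 (up4 c ∘ f)) = d1 (La4 l + fderiv θ)` (`pb_congr'`, `pb_d1`, `pb1_ang`, `ang_congr`, `d1_fderiv`).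
-/

set_option autoImplicit false

open scoped Manifold ContDiff Topology Matrix ComplexConjugate
open Set Complex Filter

namespace Pool.Agent.Work.MP_bf98aa_gt.B3

open Pool.Agent.Work.MP_bf98aa_gt.Th Pool.Agent.Work.MP_bf98aa_gt.Cy

variable {D : GD} {d : HD} {x y z : E6} {j : J4} {b : Bool} {l l' : E6 → C4}

theorem X2_co (i : Cx) : ContDiff ℝ ∞ fun z : E6 => z i := (dc i).contDiff

theorem X2_dco (i : Cx) (x : E6) : fderiv ℝ (fun z : E6 => z i) x = dc i := (dc i).fderiv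

theorem X2_nd {w : Alt E6 2} {k : ℝ} (hk : k ≠ 0) (h : ∀ u v : E6, w ![u, v] =
    (u (0, 0) * v (0, 1) - u (0, 1) * v (0, 0)) / Real.pi +
      (u (1, 0) * v (1, 1) - u (1, 1) * v (1, 0)) / Real.pi +
      (u (2, 0) * v (2, 1) - u (2, 1) * v (2, 0)) / k) : ND w := by
  intro u hu
  simp only [h] at hu
  have := Real.pi_ne_zero
  refine ext6 ?_ ?_ ?_ ?_ ?_ ?_
  · simpa [bv, this] using hu (bv (0, 1))
  · simpa [bv, this] using hu (bv (0, 0))
  · simpa [bv, this] using hu (bv (1, 1))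
  · simpa [bv, this] using hu (bv (1, 0))
  · simpa [bv, hk] using hu (bv (2, 1))
  · simpa [bv, hk] using hu (bv (2, 0))

theorem X2_rF : ContDiffAt ℝ ∞ (fun z => (rF z - 1) / 2) z := by
  unfold rF
  fun_prop

theorem X2_r2 : ContDiffAt ℝ ∞ r2 z := by
  unfold r2
  fun_prop

theorem X2_r1 : ContDiffAt ℝ ∞ r1 z := by
  unfold r1
  fun_prop

theorem X2_tt : ContDiffAt ℝ ∞ (fun z => r1 z - d.tt z) z :=
  X2_r1.sub ((X2_co (2, 0)).contDiffAt.sub contDiffAt_const)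

theorem X2_pF (hz : z ∈ d.WX .F) : 0 < (rF z - 1) / 2 := by linarith [hz.2.1]

theorem X2_pV (hz : z ∈ d.WX .V) : 0 < r2 z := by
  unfold r2
  linarith [hz.1, normSq_nonneg (cc 1 z)]

theorem X2_pL (hz : z ∈ d.WX .L) : 0 < r1 z - d.tt z := sub_pos.2 hz.2.1

theorem X2_dee {θ : E6 → ℝ} (hθ : DifferentiableAt ℝ θ x) :
    DifferentiableAt ℝ (fun z => ee (θ z)) x := (hasDerivAt_ee _).differentiableAt.comp x hθ

theorem X2_pol {r θ : E6 → ℝ} (hr : ContDiffAt ℝ ∞ r x) (h0 : 0 < r x)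
    (hθ : DifferentiableAt ℝ θ x) :
    ang (fun z => ((√(r z) : ℝ) : ℂ) * ee (θ z)) x = r x • fderiv ℝ θ x := by
  have h := hr.sqrt h0.ne'
  rw [ang_mul ((contDiffAt_ofReal h).differentiableAt (by simp)) (X2_dee hθ),
    ang_real (h.differentiableAt (by simp)), ang_ee hθ, smul_zero, zero_add, normSq_ofReal,
    Real.mul_self_sqrt h0.le]

theorem X2_rot {g : E6 → ℂ} {θ : E6 → ℝ} (hg : DifferentiableAt ℝ g x)
    (hθ : DifferentiableAt ℝ θ x) :
    ang (fun z => ee (θ z) * g z) x = normSq (g x) • fderiv ℝ θ x + ang g x := by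
  rw [ang_mul (X2_dee hθ) hg, ang_ee hθ, normSq_ee, one_smul]

theorem X2_lift {g : E6 → ℂ} (hg : ContDiffAt ℝ ∞ g x) {s t t' : ℝ} (hs : 0 < s)
    (h : (√s : ℝ) * ee t = ee t' * g x) : normSq (g x) = s ∧
    ∃ G : E6 → ℝ, ContDiffAt ℝ ∞ G x ∧ G x = t - t' ∧
      ∀ᶠ y in 𝓝 x, g y = (√(normSq (g y)) : ℝ) * ee (G y) := by
  have h1 : normSq (g x) = s := by
    have := congrArg normSq h
    rwa [map_mul, map_mul, normSq_ee, normSq_ee, one_mul, mul_one, normSq_ofReal,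
      Real.mul_self_sqrt hs.le, eq_comm] at this
  refine ⟨h1, ee_lift hg (fun q => ?_) ?_⟩
  · rw [q, map_zero] at h1
    exact hs.ne h1
  · rw [norm_def, h1, sub_eq_add_neg, ee_add, ← mul_assoc, h]
    linear_combination (-g x) * ee_mul_neg t'

theorem X2_ev {Y : Type} [NormedAddCommGroup Y] [NormedSpace ℝ Y] {f : E6 → Y}
    (hf : ContDiffAt ℝ ∞ f x) : ∀ᶠ z in 𝓝 x, DifferentiableAt ℝ f z :=
  ((hf.of_le (show (1 : WithTop ℕ∞) ≤ ∞ by simp)).eventually (by simp)).mono fun _ h =>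
    h.differentiableAt one_ne_zero

theorem X2_pb1 {f : E6 → E6} (hf : DifferentiableAt ℝ f x) (hl : DifferentiableAt ℝ l (f x)) :
    pb1 f (La4 l) x = La4 (fun z => l (f z)) x := by
  unfold La4
  rw [← pb1_ang hf hl.fst, ← pb1_ang hf hl.snd.fst, ← pb1_ang hf hl.snd.snd.fst,
    ← pb1_ang hf hl.snd.snd.snd]
  rfl

theorem contDiff_lamX (c : X3) : ContDiff ℝ ∞ (lamX c) := by
  have h := (contDiff_rot1 0).add (contDiff_rot1 1)
  cases c
  · exact h.add (contDiff_rot1 2)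
  · exact h.add (contDiff_rot1 2)
  · exact h.add ((X2_co (2, 0)).smul contDiff_const)

theorem nd_lamX (c : X3) (z : E6) : ND (d1 (lamX c) z) := by
  have h0 := (contDiff_rot1 0).contDiffAt (x := z)
  have h1 := (contDiff_rot1 1).contDiffAt (x := z)
  have hS : ND (d1 lamS z) := X2_nd Real.pi_ne_zero fun u v => by
    unfold lamS
    rw [d1_add (h0.add h1) (contDiff_rot1 2).contDiffAt, d1_add h0 h1]
    simp only [ContinuousAlternatingMap.add_apply, d1_rot1]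
  cases c
  · exact hS
  · exact hS
  · refine X2_nd one_ne_zero fun u v => ?_
    have h2 := (X2_co (2, 0)).contDiffAt (x := z)
    change d1 (fun z => rot1 0 z + rot1 1 z + z (2, 0) • dc (2, 1)) z ![u, v] = _
    rw [d1_add (h0.add h1) (h2.fun_smul contDiffAt_const), d1_add h0 h1,
      d1_smul h2 contDiffAt_const, d1_const, smul_zero, add_zero, X2_dco]
    simp only [ContinuousAlternatingMap.add_apply, d1_rot1, wedge_apply, dc_apply,
      Matrix.cons_val_zero, Matrix.cons_val_one]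
    ring

theorem contDiffAt_up4 {c : X3} (hz : z ∈ d.WX c) : ContDiffAt ℝ ∞ (d.up4 c) z := by
  have h := fun i => (contDiff_cc i).contDiffAt (x := z)
  have h2 := (X2_co (2, 1)).contDiffAt (x := z)
  cases c
  · exact (h 0).prodMk ((h 1).prodMk ((h 2).prodMk (contDiffAt_ofReal (X2_rF.sqrt (X2_pF hz).ne'))))
  · exact (h 0).prodMk ((contDiffAt_ofReal (X2_r2.sqrt (X2_pV hz).ne')).prodMk ((h 2).prodMk (h 1)))
  · exact ((contDiffAt_ofReal (X2_tt.sqrt (X2_pL hz).ne')).mul (contDiffAt_ee h2.neg)).prodMk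
      ((h 0).prodMk (((contDiffAt_ofReal (X2_r1.sqrt hz.1.ne')).mul (contDiffAt_ee h2)).prodMk (h 1)))

theorem contDiffAt_La4 (hl : ContDiffAt ℝ ∞ l x) : ContDiffAt ℝ ∞ (La4 l) x := by
  exact (((contDiffAt_ang hl.fst).add (contDiffAt_ang hl.snd.fst)).add
    (contDiffAt_ang hl.snd.snd.fst)).add (contDiffAt_ang hl.snd.snd.snd)

theorem La4_congr (he : l =ᶠ[𝓝 x] l') : La4 l x = La4 l' x := by
  exact congrArg₂ (· + ·) (congrArg₂ (· + ·) (congrArg₂ (· + ·)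
    (ang_congr (he.fun_comp fun p => p.1))
    (ang_congr (he.fun_comp fun p => p.2.1))) (ang_congr (he.fun_comp fun p => p.2.2.1)))
    (ang_congr (he.fun_comp fun p => p.2.2.2))

theorem La4_up {c : X3} (hz : z ∈ d.WX c) : d1 (La4 (d.up4 c)) z = d1 (lamX c) z := by
  have hW := (isOpen_WX d c).mem_nhds hz
  cases c
  · refine d1_congr (mem_of_superset hW fun y hy => ?_)
    change ang (cc 0) y + ang (cc 1) y + ang (cc 2) y +
      ang (fun y => ((√((rF y - 1) / 2) : ℝ) : ℂ)) y = lamS y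
    rw [ang_cc, ang_cc, ang_cc, ang_real ((X2_rF.sqrt (X2_pF hy).ne').differentiableAt (by simp)),
      add_zero, lamS]
  · refine d1_congr (mem_of_superset hW fun y hy => ?_)
    change ang (cc 0) y + ang (fun y => ((√(r2 y) : ℝ) : ℂ)) y + ang (cc 2) y + ang (cc 1) y =
      lamS y
    rw [ang_cc, ang_cc, ang_cc, ang_real ((X2_r2.sqrt (X2_pV hy).ne').differentiableAt (by simp)),
      add_zero, lamS, add_right_comm]
  · have : La4 (d.up4 .L) =ᶠ[𝓝 z] fun y => lamX .L y - d.μ₁ • dc (2, 1) := by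
      refine mem_of_superset hW fun y hy => ?_
      have h2 : DifferentiableAt ℝ (fun z : E6 => z (2, 1)) y := (dc (2, 1)).differentiableAt
      change ang (fun y => ((√(r1 y - d.tt y) : ℝ) : ℂ) * ee (-y (2, 1))) y + ang (cc 0) y +
        ang (fun y => ((√(r1 y) : ℝ) : ℂ) * ee (y (2, 1))) y + ang (cc 1) y =
        rot1 0 y + rot1 1 y + y (2, 0) • dc (2, 1) - d.μ₁ • dc (2, 1)
      rw [ang_cc, ang_cc, X2_pol X2_tt (X2_pL hy) h2.fun_neg, X2_pol X2_r1 hy.1 h2, fderiv_fun_neg,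
        X2_dco, HD.tt]
      module
    rw [d1_congr this, d1_sub (contDiff_lamX .L).contDiffAt contDiffAt_const, d1_const, sub_zero]

theorem La4_rt {θ : E6 → ℝ} (hl : DifferentiableAt ℝ l x) (hθ : DifferentiableAt ℝ θ x)
    (hv : Lv (l x)) : La4 (fun z => rt4 (θ z) (l z)) x = La4 l x + fderiv ℝ θ x := by
  change ang (fun y => (l y).1) x + ang (fun y => ee (θ y) * (l y).2.1) x +
    ang (fun y => ee (θ y) * (l y).2.2.1) x + ang (fun y => ee (-(2 * θ y)) * (l y).2.2.2) x = _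
  rw [X2_rot hl.snd.fst hθ, X2_rot hl.snd.snd.fst hθ, X2_rot hl.snd.snd.snd (hθ.const_mul 2).fun_neg,
    fderiv_fun_neg, fderiv_const_mul hθ, La4, eq_sub_of_add_eq hv]
  module

theorem X2_gauge {c : X3} (hl : ContDiffAt ℝ ∞ l x) (hv : ∀ᶠ z in 𝓝 x, Lv (l z))
    (hy : y ∈ d.WX c) (he : am0 (l x) = d.amb c y) :
    ∃ (f : E6 → E6) (θ : E6 → ℝ), ContDiffAt ℝ ∞ f x ∧ ContDiffAt ℝ ∞ θ x ∧ f x = y ∧
      ∀ᶠ z in 𝓝 x, d.up4 c (f z) = rt4 (θ z) (l z) := by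
  obtain ⟨t, ht⟩ := (am0_eq_iff hv.self_of_nhds).1 (he.trans (amb_up hy))
  have l1 := hl.fst
  have l2 := hl.snd.fst
  have l3 := hl.snd.snd.fst
  have l4 := hl.snd.snd.snd
  cases c <;> simp only [HD.up4, rt4, Prod.mk.injEq] at ht <;> obtain ⟨e1, e2, e3, e4⟩ := ht
  · obtain ⟨-, G, g1, g2, g3⟩ := X2_lift l4 (X2_pF hy) (t := 0) (t' := -(2 * t))
      (by rw [ee_zero, mul_one, e4])
    obtain rfl : t = G x / 2 := by linarith
    refine ⟨fun z => mkc (l z).1 (ee (G z / 2) * (l z).2.1) (ee (G z / 2) * (l z).2.2.1),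
      fun z => G z / 2, by fun_prop, by fun_prop, extc e1.symm e2.symm e3.symm, ?_⟩
    filter_upwards [hv, g3] with z h1 h2
    refine Prod.ext rfl (Prod.ext rfl (Prod.ext rfl ?_))
    have : (normSq (l z).2.2.1 + normSq (l z).2.1 - 1) / 2 = normSq (l z).2.2.2 := by
      rw [h1]; ring
    simp only [HD.up4, rt4, rF, cc_mkc1, cc_mkc2, map_mul, normSq_ee, one_mul, this,
      mul_div_cancel₀ _ (two_ne_zero' ℝ)]
    linear_combination (-ee (-G z)) * h2 - ((√(normSq (l z).2.2.2) : ℝ) : ℂ) * ee_mul_neg (G z)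
  · obtain ⟨-, G, g1, g2, g3⟩ := X2_lift l2 (X2_pV hy) (t := 0) (t' := t)
      (by rw [ee_zero, mul_one, e2])
    obtain rfl : t = -G x := by linarith
    refine ⟨fun z => mkc (l z).1 (ee (-(2 * -G z)) * (l z).2.2.2) (ee (-G z) * (l z).2.2.1),
      fun z => -G z, by fun_prop, by fun_prop, extc e1.symm e4.symm e3.symm, ?_⟩
    filter_upwards [hv, g3] with z h1 h2
    refine Prod.ext rfl (Prod.ext ?_ rfl)
    have : 2 * normSq (l z).2.2.2 + 1 - normSq (l z).2.2.1 = normSq (l z).2.1 := by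
      rw [← h1]; ring
    simp only [HD.up4, rt4, r2, cc_mkc1, cc_mkc2, map_mul, normSq_ee, one_mul, this]
    linear_combination (-ee (-G z)) * h2 - ((√(normSq (l z).2.1) : ℝ) : ℂ) * ee_mul_neg (G z)
  · obtain ⟨n1, G, g1, g2, g3⟩ := X2_lift l1 (X2_pL hy) (t := -y (2, 1)) (t' := 0)
      (by rw [ee_zero, one_mul, e1])
    obtain ⟨n2, H, k1, k2, k3⟩ := X2_lift l3 hy.1 e3
    obtain rfl : t = -G x - H x := by linarith
    refine ⟨fun z => mkc (ee (-G z - H z) * (l z).2.1) (ee (-(2 * (-G z - H z))) * (l z).2.2.2)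
      ⟨d.μ₁ + normSq (l z).2.2.1 - normSq (l z).1, -G z⟩, fun z => -G z - H z,
      contDiffAt_mkc (by fun_prop) (by fun_prop) (contDiffAt_cmk (by fun_prop) g1.neg),
      by fun_prop, extc e2.symm e4.symm (Complex.ext ?_ ?_), ?_⟩
    · simp only [cc_mkc2, n1, n2, HD.tt, cc_re]
      ring
    · simp only [cc_mkc2, g2, cc_im]
      ring
    filter_upwards [hv, g3, k3] with z h1 h2 h3
    have q1 : 2 * normSq (l z).2.2.2 + 1 - normSq (l z).2.1 = normSq (l z).2.2.1 := by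
      rw [← h1]; ring
    have q2 : normSq (l z).2.2.1 - (d.μ₁ + normSq (l z).2.2.1 - normSq (l z).1 - d.μ₁) =
        normSq (l z).1 := by ring
    have q3 : ee (-G z) = ee (-G z - H z) * ee (H z) := by rw [← ee_add, sub_add_cancel]
    simp only [HD.up4, rt4, r1, HD.tt, cc_mkc0, cc_mkc1, mkc_20, mkc_21, map_mul, normSq_ee,
      one_mul, q1, q2, neg_neg, ← h2, Prod.mk.injEq, true_and, and_true]
    rw [q3]
    linear_combination (-ee (-G z - H z)) * h3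

theorem arrow_X {c : X3} (hl : ContDiffAt ℝ ∞ l x) (hv : ∀ᶠ z in 𝓝 x, Lv (l z))
    (hy : y ∈ d.WX c) (he : am0 (l x) = d.amb c y) :
    ∃ f : E6 → E6, ContDiffAt ℝ ∞ f x ∧ f x = y ∧
      (∀ᶠ z in 𝓝 x, f z ∈ d.WX c ∧ am0 (l z) = d.amb c (f z)) ∧
      pb f (d1 (lamX c)) x = d1 (La4 l) x := by
  obtain ⟨f, θ, hf, hθ, rfl, h⟩ := X2_gauge hl hv hy he
  have hW : ∀ᶠ z in 𝓝 x, f z ∈ d.WX c := hf.continuousAt ((isOpen_WX d c).mem_nhds hy)
  refine ⟨f, hf, rfl, ?_, ?_⟩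
  · filter_upwards [hW, h] with z h1 h2
    exact ⟨h1, by rw [amb_up h1, h2, am0_rt]⟩
  · rw [pb_congr' (La4_up hy).symm]
    refine symp_of hf (contDiffAt_La4 (contDiffAt_up4 hy)) (contDiffAt_La4 hl) hθ ?_
    filter_upwards [hW, h.eventually_nhds, hv, X2_ev hf, X2_ev hl, X2_ev hθ] with z h1 h2 h3 h4 h5 h6
    rw [X2_pb1 h4 ((contDiffAt_up4 h1).differentiableAt (by simp)), La4_congr h2, La4_rt h5 h6 h3]

end Pool.Agent.Work.MP_bf98aa_gt.B3
end

-- merged part: Pool.Agent.Work.MP_bf98aa_gt.B3.X1b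
section
-- merged part: Pool.Agent.Work.MP_bf98aa_gt.B3.X1b
section
/-!
Existence of points in the charts `F`, `V`, `L`, and polar coordinates.

PLAN. `ex_F`, `ex_V`, `ex_L`: `a = am0 (u, z, w, β)`; rotate (`am0_rt`) by `θ` with `e(-2θ) β = |β|`, resp. `e(θ) z = |z|`, resp. `u = |u| e(-φ)` (`φ` replaced by `Int.fract φ`), `e(θ) w = |w| e(φ)`;
the point is `mkc u z' w'`, resp. `mkc u β' w'`, resp. `mkc z' β' ⟨μ₁ + |w|² - |u|², φ⟩`; show `up4 c y = rt4 θ p`, membership (`nuF z = μ₁ + tF z`, `M = μ₁ + 1`), then `amb_up`.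
`ex_Pup`: `w = |w| e(φ)`, `p = mkc (u e(φ)) z ⟨tF x - 1, φ⟩`. `ex_Plow`: `u = |u| e(-φ)`, `p = mkc (w e(-φ)) z ⟨μ + tF x, φ⟩`.
-/

set_option autoImplicit false

open scoped Manifold ContDiff Topology Matrix ComplexConjugate
open Set Complex Filter

namespace Pool.Agent.Work.MP_bf98aa_gt.B3

open Pool.Agent.Work.MP_bf98aa_gt.Th Pool.Agent.Work.MP_bf98aa_gt.Cy

variable {D : GD} {d : HD} {x y z : E6} {j : J4} {b : Bool} {a : XA}

theorem X1b_sqrt (c : ℂ) : √(normSq c) = ‖c‖ := by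
  rw [normSq_eq_norm_sq, Real.sqrt_sq (norm_nonneg _)]

theorem X1b_nl (t : ℝ) (c : ℂ) : normSq (ee t * c) = normSq c := by
  rw [map_mul, normSq_ee, one_mul]

theorem X1b_nr (t : ℝ) (c : ℂ) : normSq (c * ee t) = normSq c := by
  rw [map_mul, normSq_ee, mul_one]

theorem X1b_ns {r : ℝ} (h : 0 ≤ r) (t : ℝ) : normSq (((√r : ℝ) : ℂ) * ee t) = r := by
  rw [X1b_nr, normSq_ofReal, Real.mul_self_sqrt h]

theorem X1b_rot (c : ℂ) (φ : ℝ) : ∃ θ : ℝ, ee θ * c = ‖c‖ * ee φ := by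
  obtain ⟨t, ht⟩ := exists_ee c
  refine ⟨φ + -t, ?_⟩
  rw [ee_add]
  linear_combination ee φ * ee (-t) * ht + ‖c‖ * ee φ * ee_mul_neg t

theorem X1b_neg (c : ℂ) : ∃ φ ∈ Icc (0 : ℝ) 1, c = ‖c‖ * ee (-φ) := by
  obtain ⟨t, ht⟩ := exists_ee c
  refine ⟨Int.fract (-t), ⟨Int.fract_nonneg _, (Int.fract_lt_one _).le⟩, ht.trans ?_⟩
  congr 1
  refine ee_eq_iff.2 ⟨-⌊-t⌋, ?_⟩
  rw [Int.fract]
  push_cast
  ring

theorem ex_F (h : XBd d a) (h1 : 1 < xr a) : ∃ y ∈ d.WX .F, d.amb .F y = a := by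
  obtain ⟨⟨u, z, w, β⟩, hp, rfl⟩ := h.va
  obtain ⟨t, ht⟩ := X1b_rot β 0
  have hl : normSq w + normSq z = 2 * normSq β + 1 := hp
  have hr : rF (mkc u (ee (-t / 2) * z) (ee (-t / 2) * w)) = 2 * normSq β + 1 := by
    simpa only [rF, cc_mkc1, cc_mkc2, X1b_nl] using hl
  have he : d.amb .F (mkc u (ee (-t / 2) * z) (ee (-t / 2) * w)) = am0 (u, z, w, β) := by
    rw [amb_up_F, ← am0_rt (-t / 2) (u, z, w, β)]
    congr 1
    simp only [HD.up4, rt4, cc_mkc0, cc_mkc1, cc_mkc2, hr]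
    rw [show -(2 * (-t / 2)) = t by ring, ht, ee_zero, mul_one,
      show (2 * normSq β + 1 - 1) / 2 = normSq β by ring, X1b_sqrt]
  have h2 := h.r8
  have h3 := h.lo
  have h4 := h.hi
  have h5 := h.up
  rw [← he] at h1 h2 h3 h4 h5
  rw [xr_F] at h1 h2
  rw [xt_F] at h3 h4
  rw [xt_F, xu_F] at h5
  refine ⟨_, ⟨⟨h2, ?_⟩, h1, h5⟩, he⟩
  simp only [tF] at h3 h4
  simp only [HD.nuF, HD.M, abs_lt]
  constructor <;> linarith

theorem ex_V (h : XBd d a) (h1 : a.2.1 < 15 / 16) : ∃ y ∈ d.WX .V, d.amb .V y = a := by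
  obtain ⟨⟨u, z, w, β⟩, hp, rfl⟩ := h.va
  obtain ⟨t, ht⟩ := X1b_rot z 0
  have hl : normSq w + normSq z = 2 * normSq β + 1 := hp
  have h2 : normSq w + normSq z < 8 := h.r8
  have h3 : -2 * d.μ₁ - 9 / 8 < normSq w - normSq u := h.lo
  have h1' : normSq w < 15 / 16 := h1
  have hm : mkc u (ee (-(2 * t)) * β) (ee t * w) ∈ d.WX .V := by
    simp only [HD.WX, HD.nuF, HD.M, mem_ofPred_eq, cc_mkc0, cc_mkc1, cc_mkc2, X1b_nl]
    exact ⟨h1', by linarith, by linarith⟩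
  refine ⟨_, hm, ?_⟩
  rw [amb_up hm, ← am0_rt t (u, z, w, β)]
  congr 1
  simp only [HD.up4, rt4, r2, cc_mkc0, cc_mkc1, cc_mkc2, X1b_nl]
  rw [ht, ee_zero, mul_one, show 2 * normSq β + 1 - normSq w = normSq z by linarith, X1b_sqrt]

theorem ex_L (h : XBd d a) (h0 : a.1 ≠ 0) (h1 : 0 < a.2.1) (h2 : xt a < 15 / 16) :
    ∃ y ∈ d.WX .L, y (2, 1) ∈ Icc (0 : ℝ) 1 ∧ d.amb .L y = a := by
  obtain ⟨⟨u, z, w, β⟩, hp, rfl⟩ := h.va
  obtain ⟨φ, hφ, hu⟩ := X1b_neg u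
  obtain ⟨t, ht⟩ := X1b_rot w φ
  have hl : normSq w + normSq z = 2 * normSq β + 1 := hp
  have h3 : normSq w + normSq z < 8 := h.r8
  have h4 : -2 * d.μ₁ - 9 / 8 < normSq w - normSq u := h.lo
  have h0' : 0 < normSq u := normSq_pos.2 h0
  have h1' : 0 < normSq w := h1
  have h2' : normSq w - normSq u < 15 / 16 := h2
  have hm : mkc (ee t * z) (ee (-(2 * t)) * β) ⟨d.μ₁ + normSq w - normSq u, φ⟩ ∈ d.WX .L := by
    simp only [HD.WX, HD.tt, r1, HD.M, mem_ofPred_eq, cc_mkc0, cc_mkc1, mkc_20, X1b_nl]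
    exact ⟨by linarith, by linarith, by linarith, by linarith, by linarith⟩
  refine ⟨_, hm, hφ, ?_⟩
  rw [amb_up hm, ← am0_rt t (u, z, w, β)]
  congr 1
  simp only [HD.up4, rt4, r1, HD.tt, cc_mkc0, cc_mkc1, mkc_20, mkc_21, X1b_nl]
  rw [show 2 * normSq β + 1 - normSq z = normSq w by linarith,
    show normSq w - (d.μ₁ + normSq w - normSq u - d.μ₁) = normSq u by ring, X1b_sqrt, X1b_sqrt,
    ← hu, ht]

theorem to_F (hd : d.Ok) {c : X3} (hz : z ∈ d.WX c) (h : 1 < xr (d.amb c z)) :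
    ∃ x ∈ d.WX .F, d.amb .F x = d.amb c z :=
  ex_F (xbd_amb hz) h

theorem tF_Pup (h : -1 ≤ z (2, 0)) : tF (Pup z) = 1 + z (2, 0) := by
  simp only [tF, Pup, cc_mkc0, cc_mkc2]
  rw [X1b_ns (by linarith [normSq_nonneg (cc 0 z)]), X1b_nr]
  ring

theorem rF_Pup (h : -1 ≤ z (2, 0)) :
    rF (Pup z) = 1 + z (2, 0) + (normSq (cc 0 z) + normSq (cc 1 z)) := by
  simp only [rF, Pup, cc_mkc1, cc_mkc2]
  rw [X1b_ns (by linarith [normSq_nonneg (cc 0 z)])]
  ring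

theorem ex_Pup (h : 0 < tF x) : ∃ p : E6, p (2, 0) = tF x - 1 ∧ x = Pup p := by
  obtain ⟨φ, hφ⟩ := exists_ee (cc 2 x)
  refine ⟨mkc (cc 0 x * ee φ) (cc 1 x) ⟨tF x - 1, φ⟩, rfl, extc ?_ rfl ?_⟩
  · simp only [Pup, cc_mkc0, mkc_21]
    rw [mul_assoc, ee_mul_neg, mul_one]
  · simp only [Pup, cc_mkc0, cc_mkc2, mkc_20, mkc_21, X1b_nr, tF]
    rw [show 1 + (normSq (cc 2 x) - normSq (cc 0 x) - 1) + normSq (cc 0 x) = normSq (cc 2 x) by ring,
      X1b_sqrt, ← hφ]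

theorem tF_Plow {μ : ℝ} (h : z (2, 0) ≤ μ) : tF (Plow μ z) = z (2, 0) - μ := by
  simp only [tF, Plow, cc_mkc0, cc_mkc2]
  rw [X1b_ns (by linarith [normSq_nonneg (cc 0 z)]), X1b_nr]
  ring

theorem ex_Plow (μ : ℝ) (h : tF x < 0) : ∃ p : E6, p (2, 0) = μ + tF x ∧ x = Plow μ p := by
  obtain ⟨φ, -, hφ⟩ := X1b_neg (cc 0 x)
  refine ⟨mkc (cc 2 x * ee (-φ)) (cc 1 x) ⟨μ + tF x, φ⟩, rfl, extc ?_ rfl ?_⟩
  · simp only [Plow, cc_mkc0, mkc_20, mkc_21, X1b_nr, tF]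
    rw [show normSq (cc 2 x) - (μ + (normSq (cc 2 x) - normSq (cc 0 x)) - μ) = normSq (cc 0 x) by ring,
      X1b_sqrt, ← hφ]
  · simp only [Plow, cc_mkc0, cc_mkc2, mkc_21]
    linear_combination (-cc 2 x) * ee_mul_neg φ

theorem rF_Plow {μ : ℝ} : rF (Plow μ z) = normSq (cc 0 z) + normSq (cc 1 z) := by
  simp only [rF, Plow, cc_mkc1, cc_mkc2, X1b_nr]

end Pool.Agent.Work.MP_bf98aa_gt.B3
end

-- merged part: Pool.Agent.Work.MP_bf98aa_gt.B3.X4b
section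
/-!
The map to the cotangent bundle of the 3-sphere: the image, and upper polar coordinates.

PLAN. `ex_taH`: first for `ta ε`, `ε ^ 2 = 1`, `t = (q, P)`, `m = tmm t`, `ρ = trr t` (`|m| ≤ ρ` by Cauchy-Schwarz, so `0 < ρ`), `A = √((ρ - m) / 2)`: `α = (ρ q - i P) / 2`, `γ = ε (ρ q + i P) / 2`,
`hp2 γ α = 0`, `|γ|² = ρ A²`, `|α|² = ρ (ρ + m) / 2`, `u = -conj γ₂ / A`, `z = conj γ₁ / A`, `w = √(m + 1 + |u|²)`, `β = hp2 (u, z) α / ρ`, so `α = β • (u, z)`; `tal_am0`, `tga_am0` with `φ = 0`.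
For `b = false` apply it to `-sharp θ` of both parts (`hp2_sharp`, `sharp_sharp`).
`taH_Pup`: `amb_up_F`, `tal_am0`, `tga_am0` at `Pup p`: `w = √(1 + m + |z₁|²) e(φ)`, `u = z₁ e(-φ)`, `β = √((ρ + m) / 2)`; `flp` exchanges the two square roots; `flp 0 θ` is an involution, so do `b = true` first.
-/

set_option autoImplicit false

open scoped Manifold ContDiff Topology Matrix ComplexConjugate
open Set Complex Filter

namespace Pool.Agent.Work.MP_bf98aa_gt.B3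

open Pool.Agent.Work.MP_bf98aa_gt.Th Pool.Agent.Work.MP_bf98aa_gt.Cy

variable {D : GD} {d : HD} {x y z : E6} {j : J4} {b : Bool} {θ : ℝ}

theorem X4b_core {α γ : ℂ × ℂ} {ρ m A : ℝ} (hρ : 0 < ρ) (hA : 0 < A) (hA2 : A ^ 2 = (ρ - m) / 2)
    (hm : -1 < m) (h0 : hp2 γ α = 0) (h1 : normSq γ.1 + normSq γ.2 = ρ * A ^ 2)
    (h2 : normSq α.1 + normSq α.2 = ρ * (ρ + m) / 2) :
    ∃ a, Upp a ∧ xu a = ρ ∧ tal a = α ∧ tga a = γ := by
  have hA' : (A : ℂ) ≠ 0 := by exact_mod_cast hA.ne'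
  have hρ' : (ρ : ℂ) ≠ 0 := by exact_mod_cast hρ.ne'
  obtain ⟨u, hu⟩ : ∃ u, γ.2 = -A * conj u := ⟨-conj γ.2 / A, by simp [mul_div_cancel₀, hA']⟩
  obtain ⟨z, hz⟩ : ∃ z, γ.1 = A * conj z := ⟨conj γ.1 / A, by simp [mul_div_cancel₀, hA']⟩
  have r : normSq u + normSq z = ρ := by
    simp only [hu, hz, map_mul, normSq_neg, normSq_ofReal, normSq_conj] at h1
    refine mul_left_cancel₀ (pow_ne_zero 2 hA.ne') ?_
    linear_combination h1
  have r' : conj u * u + conj z * z = ρ := by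
    rw [← r, ← normSq_eq_conj_mul_self, ← normSq_eq_conj_mul_self, ofReal_add]
  have o : z * α.1 = u * α.2 := by
    simp only [hp2, hu, hz, map_mul, map_neg, conj_ofReal, conj_conj] at h0
    refine mul_left_cancel₀ hA' ?_
    linear_combination h0
  obtain ⟨β, e1, e2⟩ : ∃ β, β * u = α.1 ∧ β * z = α.2 := by
    refine ⟨(conj u * α.1 + conj z * α.2) / ρ, ?_, ?_⟩ <;> field_simp
    · linear_combination α.1 * r' - conj z * o
    · linear_combination α.2 * r' + conj u * o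
  have hβ : 2 * normSq β = ρ + m := by
    simp only [← e1, ← e2, map_mul] at h2
    refine mul_left_cancel₀ hρ.ne' ?_
    linear_combination 2 * h2 - 2 * normSq β * r
  have p0 : 0 < m + 1 + normSq u := by linarith [normSq_nonneg u]
  obtain ⟨w, w0, hw⟩ : ∃ w : ℝ, 0 < w ∧ normSq (w : ℂ) = m + 1 + normSq u :=
    ⟨_, Real.sqrt_pos.2 p0, by rw [normSq_ofReal, Real.mul_self_sqrt p0.le]⟩
  have w1 : (w : ℂ) ≠ 0 := by exact_mod_cast w0.ne'
  have w2 : (w : ℂ) = ‖(w : ℂ)‖ * ee 0 := by simp [ee_zero, abs_of_pos w0]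
  have xu' : xu (am0 (u, z, w, β)) = ρ := r
  have xt' : xt (am0 (u, z, w, β)) = m + 1 := by
    rw [xt_am0]
    linear_combination hw
  refine ⟨am0 (u, z, w, β), ⟨⟨_, ?_, rfl⟩, p0.trans_eq hw.symm, ?_⟩, xu', ?_, ?_⟩
  · change normSq (w : ℂ) + normSq z = 2 * normSq β + 1
    linear_combination hw + r - hβ
  · rw [xu', xt']
    nlinarith [pow_pos hA 2]
  · rw [tal_am0 (φ := 0) w1 w2]
    simp [ee_zero, e1, e2]
  · rw [tga_am0 (φ := 0) w1 w2, xu', xt', add_sub_cancel_right, ← hA2, Real.sqrt_sq hA.le]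
    refine Prod.ext ?_ ?_ <;> simp [ee_zero, hu, hz]

theorem X4b_ex {t : TA} (h : TV t) {ε : ℝ} (hε : ε * ε = 1) (h1 : -1 < tmm t)
    (h2 : tmm t < trr t) : ∃ a, Upp a ∧ ta ε a = t := by
  obtain ⟨⟨q1, q2⟩, P1, P2⟩ := t
  set m := tmm ((q1, q2), P1, P2) with hm
  set ρ := trr ((q1, q2), P1, P2) with hρ
  have ρ2 : ρ ^ 2 = normSq P1 + normSq P2 :=
    Real.sq_sqrt (add_nonneg (normSq_nonneg _) (normSq_nonneg _))
  have a1 : conj q1 * q1 + conj q2 * q2 = 1 := h.1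
  have a2 : conj P1 * q1 + conj P2 * q2 = -(I * m) :=
    Complex.ext (h.2.trans (by simp)) (by simp [hm, tmm, hp2])
  have a3 : P1 * conj q1 + P2 * conj q2 = I * m := by simpa using congrArg conj a2
  have a4 : conj P1 * P1 + conj P2 * P2 = ρ ^ 2 := by
    rw [← normSq_eq_conj_mul_self, ← normSq_eq_conj_mul_self, ← ofReal_add, ← ρ2, ofReal_pow]
  have ρ0 : 0 < ρ := by
    refine lt_of_le_of_ne (Real.sqrt_nonneg _) fun e => ?_
    rw [← e] at ρ2 h2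
    have b1 : P1 = 0 := normSq_eq_zero.1 (by nlinarith [normSq_nonneg P1, normSq_nonneg P2])
    have b2 : P2 = 0 := normSq_eq_zero.1 (by nlinarith [normSq_nonneg P1, normSq_nonneg P2])
    simp [hm, tmm, hp2, b1, b2] at h2
  have hε' : (ε : ℂ) * ε = 1 := by exact_mod_cast hε
  have A2 : √((ρ - m) / 2) ^ 2 = (ρ - m) / 2 := Real.sq_sqrt (by linarith)
  obtain ⟨a, ha, e0, e1, e2⟩ := X4b_core (α := ((ρ * q1 - I * P1) / 2, (ρ * q2 - I * P2) / 2))
    (γ := (ε * (ρ * q1 + I * P1) / 2, ε * (ρ * q2 + I * P2) / 2)) ρ0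
    (Real.sqrt_pos.2 (by linarith)) A2 h1
    (by
      simp only [hp2, map_div₀, map_mul, map_add, conj_ofReal, conj_I, map_ofNat]
      linear_combination ε / 4 * (ρ ^ 2 * a1 - I * ρ * a2 - I * ρ * a3 - a4 +
        (conj P1 * P1 + conj P2 * P2) * I_mul_I))
    (by
      rw [A2]
      apply ofReal_injective
      rw [ofReal_add, normSq_eq_conj_mul_self, normSq_eq_conj_mul_self]
      simp only [map_div₀, map_mul, map_add, conj_ofReal, conj_I, map_ofNat]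
      push_cast
      linear_combination (ε * ε) / 4 * (ρ ^ 2 * a1 - I * ρ * a2 + I * ρ * a3 + a4 +
        (2 * ρ * m - conj P1 * P1 - conj P2 * P2) * I_mul_I) + ρ * (ρ - m) / 2 * hε')
    (by
      apply ofReal_injective
      rw [ofReal_add, normSq_eq_conj_mul_self, normSq_eq_conj_mul_self]
      simp only [map_div₀, map_mul, map_sub, conj_ofReal, conj_I, map_ofNat]
      push_cast
      linear_combination 1 / 4 * (ρ ^ 2 * a1 + I * ρ * a2 - I * ρ * a3 + a4 -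
        (2 * ρ * m + conj P1 * P1 + conj P2 * P2) * I_mul_I))
  have hρ' : (ρ : ℂ) ≠ 0 := by exact_mod_cast ρ0.ne'
  refine ⟨a, ha, ?_⟩
  rw [ta, e0, e1, e2]
  refine Prod.ext (Prod.ext ?_ ?_) (Prod.ext ?_ ?_) <;>
    simp only [Prod.smul_fst, Prod.smul_snd, Prod.fst_add, Prod.snd_add, Prod.fst_sub,
      Prod.snd_sub, real_smul, smul_eq_mul, ofReal_inv]
  · field_simp
    linear_combination (ρ * q1 + I * P1) * hε'
  · field_simp
    linear_combination (ρ * q2 + I * P2) * hε'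
  · linear_combination (-I * (ρ * q1 + I * P1) / 2) * hε' - P1 * I_mul_I
  · linear_combination (-I * (ρ * q2 + I * P2) / 2) * hε' - P2 * I_mul_I

theorem ex_taH {t : TA} (h : TV t) (θ : ℝ) (b : Bool) (h1 : -1 < cond b (tmm t) (-tmm t))
    (h2 : cond b (tmm t) (-tmm t) < trr t) : ∃ a, Upp a ∧ taH θ b a = t := by
  cases b
  · have e : ∀ a b, hp2 (-sharp θ a) (-sharp θ b) = conj (hp2 a b) := fun a b => by
      rw [← hp2_sharp θ]
      simp [hp2]
    have e2 : ∀ a, sharp θ (-sharp θ a) = a := fun a => by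
      refine Eq.trans ?_ (neg_eq_iff_eq_neg.2 (sharp_sharp θ a))
      simp [sharp, Prod.smul_mk]
    have m : tmm (-sharp θ t.1, -sharp θ t.2) = -tmm t := by simp [tmm, e]
    have r : trr (-sharp θ t.1, -sharp θ t.2) = trr t := by
      have := e t.2 t.2
      rw [hp2_self, hp2_self, conj_ofReal, ofReal_inj] at this
      exact congrArg Real.sqrt this
    obtain ⟨a, ha, e3⟩ := X4b_ex (t := (-sharp θ t.1, -sharp θ t.2)) (ε := -1)
      ⟨by simp [e, h.1], by simp [e, h.2]⟩ (by norm_num) (m ▸ h1) (m ▸ r ▸ h2)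
    exact ⟨a, ha, by simp only [taH, e3, e2]⟩
  · exact X4b_ex h (one_mul 1) h1 h2

theorem X4b_ta (d : HD) (ε : ℝ) (h : |z (2, 0)| < 1) {ρ : ℝ}
    (hρ : ρ = normSq (cc 0 z) + normSq (cc 1 z)) {α γ : ℂ × ℂ}
    (hα : α = ((√((ρ + z (2, 0)) / 2) : ℝ) * ee (z (2, 1))) • (cc 0 z, cc 1 z))
    (hγ : γ = ((√((ρ - z (2, 0)) / 2) : ℝ) * ee (z (2, 1))) • (conj (cc 1 z), -conj (cc 0 z))) :
    ta ε (d.amb .F (Pup z)) = (ρ⁻¹ • (α + ε • γ), I • (α - ε • γ)) := by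
  have h1 := (abs_lt.1 h).1
  have p0 : 0 < √(1 + z (2, 0) + normSq (cc 0 z)) :=
    Real.sqrt_pos.2 (by linarith [normSq_nonneg (cc 0 z)])
  have w2 : (d.up4 .F (Pup z)).2.2.1 = ‖(d.up4 .F (Pup z)).2.2.1‖ * ee (z (2, 1)) := by
    simp [HD.up4, Pup, norm_ee, abs_of_pos p0]
  have w1 : (d.up4 .F (Pup z)).2.2.1 ≠ 0 := by
    simp [HD.up4, Pup, ee_ne_zero, p0.ne']
  have e1 : xu (am0 (d.up4 .F (Pup z))) = ρ := by
    simp [xu_am0, HD.up4, Pup, normSq_ee, hρ]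
  have e2 : xt (am0 (d.up4 .F (Pup z))) = 1 + z (2, 0) := tF_Pup h1.le
  have e3 : (d.up4 .F (Pup z)).2.2.2 = (√((ρ + z (2, 0)) / 2) : ℝ) := by
    simp only [HD.up4, rF_Pup h1.le, hρ]
    congr 2
    ring
  rw [amb_up_F, ta, tal_am0 w1 w2, tga_am0 w1 w2, e1, e2, e3, add_sub_cancel_left]
  have := ee_mul_neg (z (2, 1))
  congr 3
  all_goals
    first
      | (rw [hα]
         refine Prod.ext ?_ rfl
         simp only [HD.up4, Pup, cc_mkc0, Prod.smul_fst, smul_eq_mul]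
         linear_combination ((√((ρ + z (2, 0)) / 2) : ℝ) * ee (z (2, 1)) * cc 0 z) * this)
      | (rw [hγ]
         congr 1
         refine Prod.ext ?_ ?_ <;> simp [HD.up4, Pup, conj_ee, mul_assoc, mul_comm])

theorem X4b_true (d d' : HD) (h : |z (2, 0)| < 1) :
    taH θ true (d.amb .F (Pup z)) = taH θ false (d'.amb .F (Pup (flp 0 θ z))) := by
  have f0 : flp 0 θ z (2, 0) = -z (2, 0) := zero_sub _
  have f1 : ee (flp 0 θ z (2, 1)) = ee θ * ee (-z (2, 1)) := ee_add θ _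
  have c0 : cc 0 (flp 0 θ z) = cc 0 z := rfl
  have c1 : cc 1 (flp 0 θ z) = cc 1 z := rfl
  rw [taH, taH, X4b_ta d 1 h rfl rfl rfl, X4b_ta d' (-1) (by rwa [f0, abs_neg]) rfl rfl rfl]
  simp only [f0, f1, c0, c1, sub_neg_eq_add, ← sub_eq_add_neg]
  generalize √((normSq (cc 0 z) + normSq (cc 1 z) + z (2, 0)) / 2) = A
  generalize √((normSq (cc 0 z) + normSq (cc 1 z) - z (2, 0)) / 2) = B
  generalize (normSq (cc 0 z) + normSq (cc 1 z))⁻¹ = r
  have := ee_mul_neg θ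
  refine Prod.ext (Prod.ext ?_ ?_) (Prod.ext ?_ ?_) <;>
    simp only [sharp, Prod.smul_fst, Prod.smul_snd, Prod.fst_add, Prod.snd_add, Prod.fst_sub,
      Prod.snd_sub, real_smul, smul_eq_mul, map_mul, map_add, map_sub, map_neg, conj_ofReal,
      conj_conj, conj_ee, conj_I, neg_neg, ofReal_neg, ofReal_one, map_one]
  · linear_combination (-r * ee (z (2, 1)) * (A * cc 0 z + B * conj (cc 1 z))) * this
  · linear_combination (-r * ee (z (2, 1)) * (A * cc 1 z - B * conj (cc 0 z))) * this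
  · linear_combination (-I * ee (z (2, 1)) * (A * cc 0 z - B * conj (cc 1 z))) * this
  · linear_combination (-I * ee (z (2, 1)) * (A * cc 1 z + B * conj (cc 0 z))) * this

theorem taH_Pup {d' : HD} (h : |z (2, 0)| < 1) :
    taH θ b (d.amb .F (Pup z)) = taH θ (!b) (d'.amb .F (Pup (flp 0 θ z))) := by
  cases b
  · have f0 : flp 0 θ z (2, 0) = -z (2, 0) := zero_sub _
    have e : flp 0 θ (flp 0 θ z) = z := extc rfl rfl (Complex.ext (by simp [flp, cc_re])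
      (by simp [flp, cc_im]))
    simpa only [e, Bool.not_false] using (X4b_true (θ := θ) d' d (z := flp 0 θ z) (by rwa [f0, abs_neg])).symm
  · exact X4b_true d d' h

end Pool.Agent.Work.MP_bf98aa_gt.B3
end
end

-- merged part: Pool.Agent.Work.MP_bf98aa_gt.B3.X5b
section
/-!
The long map.

PLAN. With `e = u / |u|`, `normSq e = 1`, `e * conj e = 1`. `La4_lg4`: with `u = |u| e(φ)` near `x` (`ang_log`): `La4 (lg4 s θ ∘ l) = La4 l + s • fderiv φ` near `x`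
(`ang u' = -|u'|² dφ`, `ang w' = ang w + 2 |w|² dφ`, `|u'|² = |w|² - s + |w|² - |u|²`, `ang u = |u|² dφ`); `d1_congr`, `d1_add`, `d1_fderiv` for `s * φ`.
`lg_Plow`: `u / |u| = e(-φ)`, `tF_Plow`, `rF_Plow`.
-/

set_option autoImplicit false

open scoped Manifold ContDiff Topology Matrix ComplexConjugate
open Set Complex Filter

namespace Pool.Agent.Work.MP_bf98aa_gt.B3

open Pool.Agent.Work.MP_bf98aa_gt.Th Pool.Agent.Work.MP_bf98aa_gt.Cy

variable {D : GD} {d : HD} {x y z : E6} {j : J4} {b : Bool} {l : E6 → C4} {p : C4} {a : XA} {s θ : ℝ}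

theorem X5b_div {r : ℝ} (hr : 0 < r) (φ : ℝ) : r * ee φ / (‖r * ee φ‖ : ℝ) = ee φ := by
  rw [norm_mul, norm_ee, mul_one, norm_real, Real.norm_of_nonneg hr.le,
    mul_div_cancel_left₀ _ (ofReal_ne_zero.2 hr.ne')]

theorem X5b_ex {u : ℂ} (h : u ≠ 0) : ∃ φ, u = ‖u‖ * ee φ ∧ u / ‖u‖ = ee φ := by
  obtain ⟨φ, e⟩ := exists_ee u
  exact ⟨φ, e, by rw [div_eq_iff (ofReal_ne_zero.2 (norm_ne_zero_iff.2 h)), mul_comm, ← e]⟩

theorem X5b_neg (t : ℝ) : ee (-t) = (ee t)⁻¹ := eq_inv_of_mul_eq_one_right (ee_mul_neg t)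

theorem am0_lg4 (h0 : p.1 ≠ 0) : am0 (lg4 s θ p) = lg s θ (am0 p) := by
  obtain ⟨φ, -, h⟩ := X5b_ex h0
  simp only [am0, lg4, lg, h, map_mul, map_pow, normSq_ee, two_mul, ee_add, Prod.mk.injEq, true_and,
    and_true]
  refine ⟨?_, ?_, ?_, ?_⟩ <;> ring

theorem Lv.lgU (h : Lv p) (h0 : p.1 ≠ 0) : Lv (lg4 s θ p) := by
  obtain ⟨φ, -, e⟩ := X5b_ex h0
  simpa only [Lv, lg4, e, map_mul, map_pow, normSq_ee, one_pow, mul_one] using h

theorem xr_lg : xr (lg s θ a) = xr a := rfl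

theorem xt_lg (h0 : a.1 ≠ 0) (h : s - xt a ≤ a.2.1) : xt (lg s θ a) = s - xt a := by
  obtain ⟨φ, -, e⟩ := X5b_ex h0
  rw [xt]
  simp only [lg, e, map_mul, normSq_conj, normSq_ee, normSq_ofReal, mul_one,
    Real.mul_self_sqrt (sub_nonneg.2 h), sub_sub_cancel]

theorem lg_lg (h0 : a.1 ≠ 0) (h : s - xt a < a.2.1) : lg s θ (lg s θ a) = a := by
  obtain ⟨φ, e1, e⟩ := X5b_ex h0
  have e2 : (lg s θ a).1 / ‖(lg s θ a).1‖ = ee (-φ + -θ) := by
    simp only [lg, e, conj_ee, mul_assoc, ← ee_add]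
    exact X5b_div (Real.sqrt_pos.2 (sub_pos.2 h)) _
  have := ee_ne_zero φ
  have := ee_ne_zero θ
  rw [lg, e2, xt_lg h0 h.le, conj_ee]
  simp only [lg, e, xt, sub_sub_cancel, normSq_eq_norm_sq, Real.sqrt_sq (norm_nonneg _), neg_add,
    neg_neg, two_mul, ee_add, X5b_neg]
  refine Prod.ext (Eq.trans ?_ e1.symm) (Prod.ext rfl (Prod.ext rfl (Prod.ext ?_ (Prod.ext ?_
    (Prod.ext ?_ rfl))))) <;> field_simp

theorem continuousAt_lg (h0 : a.1 ≠ 0) : ContinuousAt (lg s θ) a := by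
  have := ofReal_ne_zero.2 (norm_ne_zero_iff.2 h0)
  unfold lg xt
  fun_prop (disch := assumption)

theorem contDiffAt_lg4 (h0 : p.1 ≠ 0) (h : s - xt (am0 p) < normSq p.2.2.1) :
    ContDiffAt ℝ ∞ (lg4 s θ) p := by
  have h1 : ContDiffAt ℝ ∞ (fun p : C4 => p.1 / ‖p.1‖) p := by
    simp only [div_eq_mul_inv]
    exact contDiffAt_fst.mul ((contDiffAt_ofReal (contDiffAt_fst.norm ℝ h0)).inv
      (ofReal_ne_zero.2 (norm_ne_zero_iff.2 h0)))
  have h2 := (sub_pos.2 h).ne'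
  unfold lg4
  simp only [xt_am0] at h2 ⊢
  fun_prop (disch := assumption)

theorem La4_lg4 (hl : ContDiffAt ℝ ∞ l x) (h0 : (l x).1 ≠ 0)
    (h : s - xt (am0 (l x)) < normSq (l x).2.2.1) :
    d1 (La4 fun z => lg4 s θ (l z)) x = d1 (La4 l) x := by
  obtain ⟨t, e⟩ := exists_ee (l x).1
  obtain ⟨φ, h1, -, h2⟩ := ang_log (g := fun z => (l z).1) hl.fst h0 e
  have h3 : ContDiffAt ℝ ∞ (fun z => normSq (l z).2.2.1 - (s - xt (am0 (l z)))) x := by
    simp only [xt_am0]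
    fun_prop
  have h4 : ContDiffAt ℝ ∞ (fun z => s * φ z) x := by fun_prop
  rw [← add_zero (d1 (La4 l) x), ← d1_fderiv h4, ← d1_add (contDiffAt_La4 hl)
    (h4.fderiv_right (by simp))]
  refine d1_congr ?_
  filter_upwards [h2.eventually_nhds, hl.fst.continuousAt.eventually_ne h0 |>.eventually_nhds,
    h3.continuousAt.eventually (lt_mem_nhds (sub_pos.2 h)), (hl.of_le (m := 1) (by simp)).eventually (by simp),
    (h1.of_le (m := 1) (by simp)).eventually (by simp), (h3.of_le (m := 1) (by simp)).eventually (by simp)]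
    with z a1 a2 a3 a4 a5 a6
  have b4 := a4.differentiableAt one_ne_zero
  have b5 := a5.differentiableAt one_ne_zero
  have b6 := (a6.differentiableAt one_ne_zero).sqrt a3.ne'
  have c : ∀ᶠ y in 𝓝 z, (l y).1 / ‖(l y).1‖ = ee (φ y) := (a1.and a2).mono fun y hy => by
    rw [div_eq_iff (ofReal_ne_zero.2 (norm_ne_zero_iff.2 hy.2)), mul_comm, ← hy.1.1]
  have c1 := ang_polar (g := fun _ => 1) (θ := fun y => -φ y - θ) (differentiableAt_const _) b6
    (by fun_prop)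
  have c2 := ang_polar (g := fun y => (l y).2.2.1) (r := fun _ => 1) (θ := fun y => 2 * φ y + θ)
    b4.snd.snd.fst (differentiableAt_const _) (by fun_prop)
  rw [La4, La4, (ang_congr (c.mono fun y hy => by
      simp only [lg4, hy, conj_ee, one_mul, sub_eq_add_neg (-φ y), ee_add, mul_assoc])).trans c1,
    show (ang (fun y => (lg4 s θ (l y)).2.2.1) z) = _ from (ang_congr (c.mono fun y hy => by
      simp only [lg4, hy, ofReal_one, mul_one, two_mul, ee_add, mul_assoc, sq])).trans c2,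
    a1.self_of_nhds.2, ang_const, Real.sq_sqrt a3.le, fderiv_sub_const, fderiv_add_const,
    fderiv_const_mul b5, fderiv_const_mul b5, fderiv_fun_neg, xt_am0, map_one]
  simp only [lg4]
  module

theorem lg_Plow {d' : HD} {μ μ' : ℝ} (h : z (2, 0) < μ) :
    lg (s - μ - μ') θ (d.amb .F (Plow μ z)) = d'.amb .F (Plow μ' (flp s θ z)) := by
  have e : (d.amb .F (Plow μ z)).1 / ‖(d.amb .F (Plow μ z)).1‖ = ee (-z (2, 1)) :=
    X5b_div (Real.sqrt_pos.2 (by linarith [normSq_nonneg (cc 0 z)])) _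
  have := ee_ne_zero (z (2, 1))
  rw [lg, e, show xt (d.amb .F (Plow μ z)) = _ from tF_Plow h.le]
  simp only [HD.amb, rF_Plow]
  have := ee_ne_zero θ
  simp only [Plow, flp, cc_mkc0, cc_mkc1, cc_mkc2, mkc_20, mkc_21, map_mul, normSq_ee, conj_ee,
    neg_neg, mul_one, show s - μ - μ' - (z (2, 0) - μ) = s - z (2, 0) - μ' by ring]
  simp only [sub_eq_add_neg θ, two_mul, ee_add, X5b_neg]
  refine Prod.ext ?_ (Prod.ext rfl (Prod.ext rfl (Prod.ext ?_ (Prod.ext ?_ (Prod.ext ?_ rfl))))) <;>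
    field_simp

end Pool.Agent.Work.MP_bf98aa_gt.B3
end

-- merged part: Pool.Agent.Work.MP_bf98aa_gt.B3.XMain
section
-- merged part: Pool.Agent.Work.MP_bf98aa_gt.B3.X3b
section
/-!
The Hopf charts: the canonical form, arrows.

PLAN. `nd_lamT`: `d1_apply'`; test with the basis vectors `bv (1,0)`, `bv (1,1)` (gives `u (0,0) = u (0,1) = 0`), then `bv (2,0)`, `bv (2,1)`, `bv (0,0)`, `bv (0,1)`.
`can2_ambT`: `q = e(ψ) n`, `conj P · dq = conj (i m n + π n') · (2 π i dψ n + dn)`, `conj n · dn = -dN / N + conj ξ dξ / N²`, `conj n' · dn = dξ / N²` (`N² = nT`); `can2_apply`, `HasFDerivAt`.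
`arrow_T`: `ψ` by `ee_lift` for `tq1 i (g z)` (`tq1_ambT`), `f z = toT i (ψ z) (g z)`, `ambT_toT`, `toT_ambT`; last clause: `pb_d1`, `can2_ambT`, `can2_comp`, `can2_congr`, `d1_congr`.
-/

set_option autoImplicit false

open scoped Manifold ContDiff Topology Matrix ComplexConjugate
open Set Complex Filter

namespace Pool.Agent.Work.MP_bf98aa_gt.B3

open Pool.Agent.Work.MP_bf98aa_gt.Th Pool.Agent.Work.MP_bf98aa_gt.Cy

variable {D : GD} {d : HD} {x y z : E6} {j : J4} {b : Bool} {i : Bool} {a : TA} {g g' : E6 → TA}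

theorem X3b_pos (z : E6) : 0 < nT z := by
  have := normSq_nonneg (cc 0 z)
  unfold nT
  linarith

theorem X3b_nT : ContDiff ℝ ∞ nT :=
  contDiff_iff_contDiffAt.2 fun z => contDiffAt_const.add (contDiffAt_normSq (contDiff_cc 0).contDiffAt)

theorem X3b_s : ContDiff ℝ ∞ fun z => (√(nT z))⁻¹ :=
  (X3b_nT.sqrt fun z => (X3b_pos z).ne').inv fun z => (Real.sqrt_pos.2 (X3b_pos z)).ne'

theorem X3b_co (i : Cx) : ContDiff ℝ ∞ fun z : E6 => z i := contDiff_apply ℝ ℝ i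

theorem X3b_lam (z v : E6) : lamT z v = z (2, 0) * v (2, 1) + (2 * Real.pi * nT z)⁻¹ *
    ((z (1, 0) - z (2, 0) * z (0, 1)) * v (0, 0) + (z (1, 1) + z (2, 0) * z (0, 0)) * v (0, 1)) := by
  simp only [lamT, add_apply, smul_apply, smul_eq_mul, dc_apply, rot1_apply]
  ring

theorem contDiff_lamT : ContDiff ℝ ∞ lamT := by
  exact (((X3b_co _).smul contDiff_const).add (((X3b_co _).div X3b_nT fun z => (X3b_pos z).ne').smul
    (contDiff_rot1 0))).add (((contDiff_const.mul X3b_nT).inv fun z =>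
      (mul_pos Real.two_pi_pos (X3b_pos z)).ne').smul
        (((X3b_co _).smul contDiff_const).add ((X3b_co _).smul contDiff_const)))

theorem X3b_fd (z : E6) : ∃ c k : ℝ, c ≠ 0 ∧ ∀ u v : E6, fderiv ℝ (fun z => lamT z v) z u =
    u (2, 0) * v (2, 1) + k * (z (0, 0) * u (0, 0) + z (0, 1) * u (0, 1)) *
      ((z (1, 0) - z (2, 0) * z (0, 1)) * v (0, 0) + (z (1, 1) + z (2, 0) * z (0, 0)) * v (0, 1)) +
    c * ((u (1, 0) - u (2, 0) * z (0, 1) - z (2, 0) * u (0, 1)) * v (0, 0) +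
      (u (1, 1) + u (2, 0) * z (0, 0) + z (2, 0) * u (0, 0)) * v (0, 1)) := by
  have h0 : 2 * Real.pi * nT z ≠ 0 := (mul_pos Real.two_pi_pos (X3b_pos z)).ne'
  have hc : ∀ i : Cx, HasFDerivAt (fun z : E6 => z i) (dc i) z := fun i => (dc i).hasFDerivAt
  have e : nT = fun z => 1 + (z (0, 0) * z (0, 0) + z (0, 1) * z (0, 1)) := rfl
  have hN : HasFDerivAt nT _ z := e ▸ (((hc (0, 0)).fun_mul (hc (0, 0))).fun_add
    ((hc (0, 1)).fun_mul (hc (0, 1)))).const_add 1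
  have h1 : HasFDerivAt (fun z => (2 * Real.pi * nT z)⁻¹) _ z :=
    (hasDerivAt_inv h0).comp_hasFDerivAt z (hN.const_mul (2 * Real.pi))
  refine ⟨(2 * Real.pi * nT z)⁻¹, -((2 * Real.pi * nT z) ^ 2)⁻¹ * (4 * Real.pi), inv_ne_zero h0,
    fun u v => ?_⟩
  have h2 := ((hc (2, 0)).mul_const (v (2, 1))).fun_add (h1.fun_mul
    ((((hc (1, 0)).fun_sub ((hc (2, 0)).fun_mul (hc (0, 1)))).mul_const (v (0, 0))).fun_add
      (((hc (1, 1)).fun_add ((hc (2, 0)).fun_mul (hc (0, 0)))).mul_const (v (0, 1)))))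
  rw [funext fun z => X3b_lam z v, h2.fderiv]
  simp only [add_apply, sub_apply, smul_apply, smul_eq_mul, dc_apply]
  ring

theorem nd_lamT (z : E6) : ND (d1 lamT z) := by
  obtain ⟨c, k, hc, h⟩ := X3b_fd z
  intro u hu
  have key := fun i : Cx => (d1_apply' contDiff_lamT.contDiffAt u (bv i)).symm.trans (hu _)
  simp only [h] at key
  have a1 : u (0, 0) = 0 := by simpa [bv, hc] using key (1, 0)
  have a2 : u (0, 1) = 0 := by simpa [bv, hc] using key (1, 1)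
  have a3 : u (2, 0) = 0 := by simpa [bv, a1, a2] using key (2, 1)
  have a4 : u (2, 1) = 0 := by simpa [bv, a1, a2] using key (2, 0)
  have a5 : u (1, 0) = 0 := by simpa [bv, a1, a2, a3, hc] using key (0, 0)
  have a6 : u (1, 1) = 0 := by simpa [bv, a1, a2, a3, hc] using key (0, 1)
  exact ext6 a1 a2 a5 a6 a3 a4

theorem can2_congr (he : g =ᶠ[𝓝 x] g') : can2 g x = can2 g' x := by
  have h1 : (fun y => (g y).1.1) =ᶠ[𝓝 x] fun y => (g' y).1.1 := he.mono fun y e => by simp only [e]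
  have h2 : (fun y => (g y).1.2) =ᶠ[𝓝 x] fun y => (g' y).1.2 := he.mono fun y e => by simp only [e]
  simp only [can2, he.eq_of_nhds, h1.fderiv_eq, h2.fderiv_eq]

theorem can2_comp {f : E6 → E6} (hf : DifferentiableAt ℝ f x) (hg : DifferentiableAt ℝ g (f x)) :
    pb1 f (can2 g) x = can2 (fun z => g (f z)) x := by
  ext v : 1
  rw [pb1_apply, can2_apply, can2_apply,
    fderiv_fun_comp (g := fun y => (g y).1.1) x hg.fst.fst hf,
    fderiv_fun_comp (g := fun y => (g y).1.2) x hg.fst.snd hf]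
  rfl

theorem X3b_alg (e ξ p w : ℂ) (s r m t : ℝ) (he : normSq e = 1) (hs : s ^ 2 * (1 + normSq ξ) = 1) :
    (conj (e * (I * m * s + p * (s * -conj ξ))) * (e * r + s * (t * (I * e))) +
      conj (e * (I * m * (s * ξ) + p * s)) * (e * (s * w + ξ * r) + s * ξ * (t * (I * e)))).re =
      m * t + s ^ 2 * ((p.re - m * ξ.im) * w.re + (p.im + m * ξ.re) * w.im) := by
  rw [normSq_apply] at he hs
  simp
  linear_combination (m * t * s ^ 2 * (1 + (ξ.re * ξ.re + ξ.im * ξ.im)) +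
    s ^ 2 * ((p.re - m * ξ.im) * w.re + (p.im + m * ξ.re) * w.im)) * he + m * t * hs

theorem X3b_fq (z v : E6) : ∃ r : ℝ,
    fderiv ℝ (fun y : E6 => ee (y (2, 1)) * ((√(nT y))⁻¹ : ℝ)) z v = ee (z (2, 1)) * r +
      ((√(nT z))⁻¹ : ℝ) * ((2 * Real.pi * v (2, 1) : ℝ) * (I * ee (z (2, 1)))) ∧
    fderiv ℝ (fun y : E6 => ee (y (2, 1)) * (((√(nT y))⁻¹ : ℝ) * cc 0 y)) z v =
      ee (z (2, 1)) * (((√(nT z))⁻¹ : ℝ) * cc 0 v + cc 0 z * r) +
      ((√(nT z))⁻¹ : ℝ) * cc 0 z * ((2 * Real.pi * v (2, 1) : ℝ) * (I * ee (z (2, 1)))) := by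
  have hE : HasFDerivAt (fun y : E6 => ee (y (2, 1))) _ z :=
    (hasDerivAt_ee _).hasFDerivAt.comp z (dc (2, 1)).hasFDerivAt
  have hS : HasFDerivAt (fun y : E6 => (((√(nT y))⁻¹ : ℝ) : ℂ)) _ z :=
    ofRealCLM.hasFDerivAt.comp z (X3b_s.differentiable (by simp) z).hasFDerivAt
  have hX := ((contDiff_cc 0).differentiable (by simp) z).hasFDerivAt
  refine ⟨fderiv ℝ (fun z => (√(nT z))⁻¹) z v, ?_, ?_⟩
  · rw [(hE.fun_mul hS).fderiv]
    simp [dc_apply, -mul_eq_mul_left_iff]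
    ring
  · rw [(hE.fun_mul (hS.fun_mul hX)).fderiv]
    simp [dc_apply, G1_fderiv_cc]
    ring

theorem can2_ambT (i : Bool) : can2 (ambT i) = lamT := by
  funext z
  ext v : 1
  obtain ⟨r, h1, h2⟩ := X3b_fq z v
  have hs : (√(nT z))⁻¹ ^ 2 = (nT z)⁻¹ := by rw [inv_pow, Real.sq_sqrt (X3b_pos z).le]
  have h3 := X3b_alg (ee (z (2, 1))) (cc 0 z) (cc 1 z) (cc 0 v) (√(nT z))⁻¹ r (z (2, 0))
    (2 * Real.pi * v (2, 1)) (normSq_ee _) (by rw [hs]; exact inv_mul_cancel₀ (X3b_pos z).ne')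
  rw [← h1, ← h2, hs] at h3
  have h4 : can2 (ambT i) z v * (2 * Real.pi) = z (2, 0) * (2 * Real.pi * v (2, 1)) + (nT z)⁻¹ *
      ((z (1, 0) - z (2, 0) * z (0, 1)) * v (0, 0) + (z (1, 1) + z (2, 0) * z (0, 0)) * v (0, 1)) := by
    rw [can2_apply, div_mul_cancel₀ _ Real.two_pi_pos.ne']
    refine Eq.trans ?_ h3
    cases i
    · rw [add_comm]
      simp only [ambT, hn, hn', Prod.smul_mk, Prod.mk_add_mk, smul_eq_mul, real_smul, mul_one]
    · simp only [ambT, hn, hn', Prod.smul_mk, Prod.mk_add_mk, smul_eq_mul, real_smul, mul_one]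
  rw [X3b_lam, eq_div_of_mul_eq Real.two_pi_pos.ne' h4]
  have := Real.pi_pos
  field_simp

theorem X3b_hn (i : Bool) : ContDiff ℝ ∞ (hn' i) := by
  have h : ContDiff ℝ ∞ fun z => -conj (cc 0 z) :=
    contDiff_iff_contDiffAt.2 fun z => (contDiffAt_conj (contDiff_cc 0).contDiffAt).neg
  cases i
  · exact X3b_s.smul (contDiff_const.prodMk h)
  · exact X3b_s.smul (h.prodMk contDiff_const)

theorem X3b_tq (i : Bool) (hg : ContDiffAt ℝ ∞ g x) : ContDiffAt ℝ ∞ (fun z => tq1 i (g z)) x := by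
  cases i
  · exact hg.fst.snd
  · exact hg.fst.fst

theorem X3b_hp {a b : E6 → ℂ × ℂ} (ha : ContDiffAt ℝ ∞ a x) (hb : ContDiffAt ℝ ∞ b x) :
    ContDiffAt ℝ ∞ (fun z => hp2 (a z) (b z)) x :=
  ((contDiffAt_conj ha.fst).mul hb.fst).add ((contDiffAt_conj ha.snd).mul hb.snd)

theorem X3b_toT {ψ : E6 → ℝ} (hg : ContDiffAt ℝ ∞ g x) (hψ : ContDiffAt ℝ ∞ ψ x)
    (h0 : tq1 i (g x) ≠ 0) : ContDiffAt ℝ ∞ (fun z => toT i (ψ z) (g z)) x := by
  have h1 : ContDiffAt ℝ ∞ (fun z => tq1 (!i) (g z) / tq1 i (g z)) x := by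
    simp only [div_eq_mul_inv]
    exact (X3b_tq _ hg).mul ((X3b_tq _ hg).inv h0)
  exact contDiffAt_mkc h1 ((contDiffAt_ee hψ.neg).mul (X3b_hp ((X3b_hn i).contDiffAt.comp x
    (contDiffAt_mkc h1 contDiffAt_const contDiffAt_const)) hg.snd))
    (contDiffAt_cmk (imCLM.contDiff.contDiffAt.comp x (X3b_hp hg.snd hg.fst)).neg hψ)

theorem arrow_T (hg : ContDiffAt ℝ ∞ g x) (hv : ∀ᶠ z in 𝓝 x, TV (g z)) (he : g x = ambT i y) :
    ∃ f : E6 → E6, ContDiffAt ℝ ∞ f x ∧ f x = y ∧ (∀ᶠ z in 𝓝 x, g z = ambT i (f z)) ∧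
      pb f (d1 lamT) x = d1 (can2 g) x := by
  have hs : 0 < (√(nT y))⁻¹ := inv_pos.2 (Real.sqrt_pos.2 (X3b_pos y))
  have e1 : tq1 i (g x) = ((√(nT y))⁻¹ : ℝ) * ee (y (2, 1)) := by rw [he, tq1_ambT]
  have h0 : tq1 i (g x) ≠ 0 := e1 ▸ mul_ne_zero (ofReal_ne_zero.2 hs.ne') (ee_ne_zero _)
  obtain ⟨ψ, h1, h2, h3⟩ := ee_lift (X3b_tq i hg) h0 (t₀ := y (2, 1)) (by
    rw [e1, norm_mul, norm_ee, mul_one, norm_real, Real.norm_of_nonneg hs.le])
  have hf := X3b_toT hg h1 h0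
  have h4 : ∀ᶠ z in 𝓝 x, g z = ambT i (toT i (ψ z) (g z)) := by
    filter_upwards [hv, h3, (X3b_tq i hg).continuousAt.eventually_ne h0] with z a b c
    exact (ambT_toT a c b).symm
  refine ⟨_, hf, by rw [h2, he, toT_ambT], h4, ?_⟩
  rw [pb_d1 hf contDiff_lamT.contDiffAt, ← can2_ambT i]
  refine d1_congr ?_
  filter_upwards [h4.eventually_nhds,
    (hf.of_le (show (1 : WithTop ℕ∞) ≤ ∞ by simp)).eventually (by simp)] with z a b
  rw [can2_comp (b.differentiableAt one_ne_zero) ((contDiff_ambT i).differentiable (by simp) _)]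
  exact (can2_congr a).symm

end Pool.Agent.Work.MP_bf98aa_gt.B3
end

-- merged part: Pool.Agent.Work.MP_bf98aa_gt.B3.X5
section
/-!
The canonical form under `taH`.

PLAN. Notation of `X4`. For smooth `α γ : E6 → ℂ × ℂ`, `ρ : E6 → ℝ` with `hp2 α γ = 0` near `x`, `ε ^ 2 = 1`: `can2 (ρ⁻¹ • (α + ε γ), I • (α - ε γ)) = ρ⁻¹ • (ang α₁ + ang α₂ - ang γ₁ - ang γ₂)`
(`can2_apply`, `ang_apply`; the derivative of `ρ⁻¹` meets `Re (hp2 P q) = 0`, the cross terms cancel by the derivative of `hp2 α γ = 0`). With `w = |w| e(φ)` near `x` (`ang_log`), `tal_am0`, `tga_am0`,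
`ang_mul`, `ang_conj`, `ang_ee`, `ang_real`: `can2 (ta ε ∘ am0 ∘ l) = La4 l - fderiv φ` near `x` (use `|β|² = (ρ + m) / 2`, `|w|² = m + 1 + |u|²`, `ang w = |w|² dφ`).
`sharp θ` on both parts does not change `can2`. Finish with `d1_congr`, `d1_sub`, `d1_fderiv`. `Upp (am0 (l z))` holds near `x`.
-/

set_option autoImplicit false

open scoped Manifold ContDiff Topology Matrix ComplexConjugate
open Set Complex Filter

namespace Pool.Agent.Work.MP_bf98aa_gt.B3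

open Pool.Agent.Work.MP_bf98aa_gt.Th Pool.Agent.Work.MP_bf98aa_gt.Cy

variable {D : GD} {d : HD} {x y z : E6} {j : J4} {b : Bool} {l : E6 → C4} {θ : ℝ}

theorem X5_ev {F : Type} [NormedAddCommGroup F] [NormedSpace ℝ F] {f : E6 → F}
    (h : ContDiffAt ℝ ∞ f x) : ∀ᶠ z in 𝓝 x, DifferentiableAt ℝ f z :=
  ((h.of_le (show (1 : WithTop ℕ∞) ≤ ∞ by simp)).eventually (by simp)).mono fun _ k =>
    k.differentiableAt one_ne_zero

theorem X5_conj {g : E6 → ℂ} (hg : DifferentiableAt ℝ g x) : HasFDerivAt (fun z => conj (g z))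
    (conjCLE.toContinuousLinearMap.comp (fderiv ℝ g x)) x :=
  conjCLE.toContinuousLinearMap.hasFDerivAt.comp x hg.hasFDerivAt

theorem X5_sharp {g : E6 → TA} (h : DifferentiableAt ℝ (fun z => (g z).1) x) :
    can2 (fun z => (sharp θ (g z).1, sharp θ (g z).2)) x = can2 g x := by
  ext v : 1
  have h1 : HasFDerivAt (fun z => (sharp θ (g z).1).1) _ x := (X5_conj h.snd).const_mul (ee θ)
  have h2 : HasFDerivAt (fun z => (sharp θ (g z).1).2) _ x := (X5_conj h.fst).neg.const_mul (ee θ)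
  have h3 := normSq_ee θ
  rw [normSq_apply] at h3
  rw [can2_apply, can2_apply, h1.fderiv, h2.fderiv]
  congr 1
  simp [sharp]
  linear_combination ((g x).2.1.re * (fderiv ℝ (fun z => (g z).1.1) x v).re +
    (g x).2.1.im * (fderiv ℝ (fun z => (g z).1.1) x v).im +
    (g x).2.2.re * (fderiv ℝ (fun z => (g z).1.2) x v).re +
    (g x).2.2.im * (fderiv ℝ (fun z => (g z).1.2) x v).im) * h3

theorem X5_gen {a a' c c' : E6 → ℂ} {r : E6 → ℝ} {ε : ℝ} (hε : ε ^ 2 = 1)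
    (ha : DifferentiableAt ℝ a x) (ha' : DifferentiableAt ℝ a' x) (hc : DifferentiableAt ℝ c x)
    (hc' : DifferentiableAt ℝ c' x) (hr : DifferentiableAt ℝ r x)
    (h0 : ∀ z, conj (a z) * c z + conj (a' z) * c' z = 0) :
    can2 (fun z => (r z • ((a z, a' z) + ε • (c z, c' z)), I • ((a z, a' z) - ε • (c z, c' z)))) x =
      r x • (ang a x + ang a' x - ang c x - ang c' x) := by
  ext v : 1
  have h1 : HasFDerivAt (fun z => (r z • ((a z, a' z) + ε • (c z, c' z))).1) _ x :=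
    hr.hasFDerivAt.smul (ha.hasFDerivAt.add (hc.hasFDerivAt.const_smul ε))
  have h2 : HasFDerivAt (fun z => (r z • ((a z, a' z) + ε • (c z, c' z))).2) _ x :=
    hr.hasFDerivAt.smul (ha'.hasFDerivAt.add (hc'.hasFDerivAt.const_smul ε))
  have h3 : HasFDerivAt (fun z => conj (a z) * c z + conj (a' z) * c' z) _ x :=
    ((X5_conj ha).mul hc.hasFDerivAt).add ((X5_conj ha').mul hc'.hasFDerivAt)
  rw [funext h0] at h3
  have h4 := congrArg (fun L : E6 →L[ℝ] ℂ => (L v).im) (h3.unique (hasFDerivAt_const 0 x))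
  have h5 := congrArg im (h0 x)
  rw [can2_apply, h1.fderiv, h2.fderiv]
  simp only [smul_apply, add_apply, sub_apply, ang_apply, smul_eq_mul, ← add_div, ← sub_div,
    ← mul_div_assoc]
  congr 1
  simp at h4 h5 ⊢
  linear_combination (-r x * ((c x).re * (fderiv ℝ c x v).im - (c x).im * (fderiv ℝ c x v).re +
    (c' x).re * (fderiv ℝ c' x v).im - (c' x).im * (fderiv ℝ c' x v).re)) * hε +
    r x * ε * h4 + 2 * fderiv ℝ r x v * ε * h5

theorem X5_pt {u w β : E6 → ℂ} {φ A r : E6 → ℝ} {ε t : ℝ} (hε : ε ^ 2 = 1)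
    (hu : DifferentiableAt ℝ u x) (hw : DifferentiableAt ℝ w x) (hβ : DifferentiableAt ℝ β x)
    (hφ : DifferentiableAt ℝ φ x) (hA : DifferentiableAt ℝ A x) (hr : DifferentiableAt ℝ r x)
    (e1 : r x * (normSq (u x) + normSq (w x)) = 1)
    (e2 : A x ^ 2 = (normSq (u x) + normSq (w x) - (t - normSq (u x) - 1)) / 2)
    (e3 : t + normSq (w x) = 2 * normSq (β x) + 1) {g : E6 → TA}
    (hg : g =ᶠ[𝓝 x] fun z => (r z • ((β z * ee (φ z) * (ee (φ z) * u z), β z * ee (φ z) * w z) +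
      ε • A z • (ee (φ z) * conj (w z), -conj (u z))), I • ((β z * ee (φ z) * (ee (φ z) * u z),
        β z * ee (φ z) * w z) - ε • A z • (ee (φ z) * conj (w z), -conj (u z))))) :
    can2 g x = ang u x + ang w x + t • fderiv ℝ φ x + ang β x - fderiv ℝ φ x ∧
      DifferentiableAt ℝ (fun z => (g z).1) x := by
  have he : DifferentiableAt ℝ (fun z => ee (φ z)) x :=
    (hasDerivAt_ee _).differentiableAt.comp x hφ
  have hA' : DifferentiableAt ℝ (fun z => (A z : ℂ)) x := ofRealCLM.differentiableAt.comp x hA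
  have hu' := (X5_conj hu).differentiableAt
  have hw' := (X5_conj hw).differentiableAt
  have h1 := hβ.fun_mul he
  refine ⟨?_, DifferentiableAt.congr_of_eventuallyEq (hr.fun_smul (((h1.fun_mul (he.fun_mul hu)).prodMk
    (h1.fun_mul hw)).fun_add ((hA.fun_smul ((he.fun_mul hw').prodMk hu'.fun_neg)).fun_const_smul ε)))
    (hg.fun_comp Prod.fst)⟩
  refine (can2_congr hg).trans ((X5_gen hε (h1.fun_mul (he.fun_mul hu)) (h1.fun_mul hw)
    (hA'.fun_mul (he.fun_mul hw')) (hA'.fun_mul hu'.fun_neg) hr fun z => ?_).trans ?_)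
  · simp only [map_mul, conj_ee]
    linear_combination (conj (β z) * ee (-φ z) * conj (u z) * A z * conj (w z)) * ee_mul_neg (φ z)
  rw [ang_mul h1 (he.fun_mul hu), ang_mul h1 hw, ang_mul hβ he, ang_mul he hu,
    ang_mul hA' (he.fun_mul hw'), ang_mul hA' hu'.fun_neg, ang_mul he hw', ang_neg, ang_conj hu,
    ang_conj hw, ang_real hA, ang_ee hφ]
  ext v : 1
  simp only [smul_apply, add_apply, sub_apply, neg_apply, smul_eq_mul, map_mul, normSq_ee,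
    normSq_ofReal, normSq_conj, zero_apply, ← sq, e2]
  linear_combination (ang u x v + ang w x v + (t - 1) * fderiv ℝ φ x v + ang β x v) * e1 -
    r x * (ang u x v + ang w x v + (2 * normSq (u x) + normSq (w x)) * fderiv ℝ φ x v) / 2 * e3

theorem contDiff_am0 : ContDiff ℝ ∞ am0 := by
  refine contDiff_iff_contDiffAt.2 fun p => ?_
  unfold am0
  fun_prop

theorem can2_taH (hl : ContDiffAt ℝ ∞ l x) (hv : ∀ᶠ z in 𝓝 x, Lv (l z)) (h : Upp (am0 (l x))) :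
    d1 (can2 fun z => taH θ b (am0 (l z))) x = d1 (La4 l) x := by
  have hw : ContDiffAt ℝ ∞ (fun z => (l z).2.2.1) x := hl.snd.snd.fst
  have h0 : (l x).2.2.1 ≠ 0 := normSq_pos.1 h.pos
  obtain ⟨t, ht⟩ := exists_ee (l x).2.2.1
  obtain ⟨φ, h1, -, h2⟩ := ang_log hw h0 ht
  have c1 : ContDiffAt ℝ ∞ (fun z => xu (am0 (l z))) x := by
    simp only [xu_am0]
    fun_prop
  have c2 : ContDiffAt ℝ ∞ (fun z => (xu (am0 (l z)) - (xt (am0 (l z)) - 1)) / 2) x := by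
    simp only [xu_am0, xt_am0]
    fun_prop
  have p2 : 0 < (xu (am0 (l x)) - (xt (am0 (l x)) - 1)) / 2 := by linarith [h.up]
  have h3 := h2.and (hw.continuousAt.eventually_ne h0)
  rw [← sub_zero (d1 (La4 l) x), ← d1_fderiv h1, ← d1_sub (contDiffAt_La4 hl) (h1.fderiv_right le_rfl)]
  refine d1_congr ?_
  filter_upwards [hv, h2, h3.eventually_nhds, X5_ev hl, X5_ev h1, X5_ev (c1.inv h.xu_pos.ne'),
    X5_ev (c2.sqrt p2.ne'), c1.continuousAt.eventually_ne h.xu_pos.ne',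
    c2.continuousAt.eventually_const_lt p2] with z a1 a2 a3 a4 a5 a6 a7 a8 a9
  have key := fun (ε : ℝ) (hε : ε ^ 2 = 1) => X5_pt (g := fun y => ta ε (am0 (l y))) hε a4.fst
    a4.snd.fst a4.snd.snd.snd a5 a7 a6 (inv_mul_cancel₀ a8) (Real.sq_sqrt a9.le) a1
    (a3.mono fun y k => by simp only [ta, tal_am0 k.2 k.1.1, tga_am0 k.2 k.1.1, Pi.inv_apply])
  rw [La4, a2.2]
  cases b
  · exact (X5_sharp (key (-1) (by norm_num)).2).trans (key (-1) (by norm_num)).1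
  · exact (key 1 (by norm_num)).1

end Pool.Agent.Work.MP_bf98aa_gt.B3
end

-- merged part: Pool.Agent.Work.MP_bf98aa_gt.B3.X6
section
/-!
The relation on the neighbourhood of a resolved sphere is a closed equivalence relation.
-/

set_option autoImplicit false

open scoped Manifold ContDiff Topology Matrix ComplexConjugate
open Set Complex Filter

namespace Pool.Agent.Work.MP_bf98aa_gt.B3

open Pool.Agent.Work.MP_bf98aa_gt.Th Pool.Agent.Work.MP_bf98aa_gt.Cy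

variable {D : GD} {d : HD} {x y z : E6} {j : J4} {b : Bool} {b' b'' i i' : Bool} {c c' : X3}
  {a a' a'' : XA} {θ : ℝ} {t : TA}

theorem RW_XX : (D.atlW j).R (.inl (b, c)) x (.inl (b', c')) y ↔ x ∈ (D.H b).WX c ∧
    y ∈ (D.H b').WX c' ∧ D.RA j b ((D.H b).amb c x) b' ((D.H b').amb c' y) := Iff.rfl

theorem RW_XT : (D.atlW j).R (.inl (b, c)) x (.inr i) y ↔ x ∈ (D.H b).WX c ∧ y ∈ WT ∧
    7 / 8 < xt ((D.H b).amb c x) ∧ taH (D.thU j) b ((D.H b).amb c x) = ambT i y := Iff.rfl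

theorem RW_TX : (D.atlW j).R (.inr i) y (.inl (b, c)) x ↔
    (D.atlW j).R (.inl (b, c)) x (.inr i) y := Iff.rfl

theorem RW_TT : (D.atlW j).R (.inr i) x (.inr i') y ↔ x ∈ WT ∧ y ∈ WT ∧ ambT i x = ambT i' y :=
  Iff.rfl

theorem sL_eq (D : GD) (b : Bool) : D.sL = -2 * ((D.H b).μ₁ + (D.H (!b)).μ₁ + 1) := by
  cases b <;> simp only [GD.sL, Bool.not_false, Bool.not_true]
  ring

theorem XBd.low (h : D.Ok) (ha : XBd (D.H b) a) (hl : xt a < -2 * (D.H b).μ₁ - 7 / 8) (θ : ℝ) :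
    a.1 ≠ 0 ∧ D.sL - xt a < a.2.1 ∧ xt (lg D.sL θ a) = D.sL - xt a ∧
      XBd (D.H (!b)) (lg D.sL θ a) ∧ xt (lg D.sL θ a) < -2 * (D.H (!b)).μ₁ - 7 / 8 := by
  have m1 := (h.ok b).hμ
  have m2 := (h.ok (!b)).hμ
  have e := sL_eq D b
  have h0 := ha.ne_zero (by linarith)
  have h1 : D.sL - xt a < a.2.1 := by linarith [ha.lo, ha.nonneg]
  have h2 := xt_lg (θ := θ) h0 h1.le
  refine ⟨h0, h1, h2, ⟨?_, ha.r8, by linarith, by linarith [ha.lo], ?_⟩, by linarith [ha.lo]⟩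
  · obtain ⟨p, hp, rfl⟩ := ha.va
    exact ⟨_, hp.lgU h0, (am0_lg4 h0).symm⟩
  · linarith [xr_eq (lg D.sL θ a), xr_lg (s := D.sL) (θ := θ) (a := a), ha.one_le, ha.lo]

theorem Upp.cross (h : Upp a) (h' : Upp a') (hb : b ≠ b') (he : taH θ b a = taH θ b' a') :
    xt a + xt a' = 2 ∧ xu a' = xu a := by
  have h1 := h.tmm_eq θ b
  have h2 := h'.tmm_eq θ b'
  refine ⟨?_, by rw [← h.trr_eq θ b, he, h'.trr_eq]⟩
  rw [he] at h1
  cases b <;> cases b' <;> simp only [cond_true, cond_false, ne_eq, not_true] at h1 h2 hb <;>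
    linarith

theorem Upp.rad (h : Upp a) (he : taH θ b a = ambT i y) :
    xu a = rT y ∧ xt a - 1 = cond b (y (2, 0)) (-y (2, 0)) := by
  rw [← h.trr_eq θ b, h.tmm_eq θ b, he, trr_ambT, tmm_ambT]
  exact ⟨rfl, rfl⟩

theorem RA_symm (h : D.Ok) (ha : XBd (D.H b) a) (hr : D.RA j b a b' a') : D.RA j b' a' b a := by
  rcases hr with ⟨rfl, rfl⟩ | ⟨hb, ⟨h1, rfl⟩ | ⟨h1, h2, h3⟩⟩
  · exact Or.inl ⟨rfl, rfl⟩
  · obtain rfl := Bool.eq_not_of_ne hb.symm
    obtain ⟨h0, h2, -, -, h3⟩ := ha.low h h1 (D.thL j)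
    exact Or.inr ⟨hb.symm, Or.inl ⟨h3, (lg_lg h0 h2).symm⟩⟩
  · exact Or.inr ⟨hb.symm, Or.inr ⟨h2, h1, h3.symm⟩⟩

theorem RA_up (h : D.Ok) (ha : XBd (D.H b) a) (hr : D.RA j b a b' a') (h1 : 7 / 8 < xt a') :
    7 / 8 < xt a ∧ taH (D.thU j) b a = taH (D.thU j) b' a' := by
  rcases hr with ⟨rfl, rfl⟩ | ⟨hb, ⟨h2, rfl⟩ | ⟨h2, -, h3⟩⟩
  · exact ⟨h1, rfl⟩
  · linarith [(ha.low h h2 (D.thL j)).2.2.2.2, (h.ok (!b)).hμ]
  · exact ⟨h2, h3⟩

theorem RA_of_up (ha : XBd (D.H b) a) (ha' : XBd (D.H b') a') (h1 : 7 / 8 < xt a)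
    (h2 : 7 / 8 < xt a') (he : taH (D.thU j) b a = taH (D.thU j) b' a') : D.RA j b a b' a' := by
  by_cases hb : b = b'
  · subst hb
    exact Or.inl ⟨rfl, (ha.upp (by linarith)).inj (ha'.upp (by linarith)) he⟩
  · exact Or.inr ⟨hb, Or.inr ⟨h1, h2, he⟩⟩

theorem RA_trans (h : D.Ok) (ha : XBd (D.H b) a) (ha' : XBd (D.H b') a') (ha'' : XBd (D.H b'') a'')
    (hr : D.RA j b a b' a') (hr' : D.RA j b' a' b'' a'') : D.RA j b a b'' a'' := by
  rcases hr' with ⟨rfl, rfl⟩ | ⟨hb, ⟨h1, rfl⟩ | ⟨h1, h2, h3⟩⟩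
  · exact hr
  · rcases RA_symm h ha hr with ⟨rfl, rfl⟩ | ⟨hb', ⟨-, rfl⟩ | ⟨h2, -⟩⟩
    · exact Or.inr ⟨hb, Or.inl ⟨h1, rfl⟩⟩
    · exact Or.inl ⟨(Bool.eq_not_of_ne hb'.symm).trans (Bool.eq_not_of_ne hb.symm).symm, rfl⟩
    · linarith [(h.ok b').hμ]
  · obtain ⟨h4, h5⟩ := RA_up h ha hr h1
    exact RA_of_up ha ha'' h4 h2 (h5.trans h3)

theorem RW_mem {k k' : Bool × X3 ⊕ Bool} (hr : (D.atlW j).R k x k' y) :
    x ∈ (D.atlW j).W k ∧ y ∈ (D.atlW j).W k' := by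
  rcases k with p | i <;> rcases k' with p' | i'
  exacts [⟨hr.1, hr.2.1⟩, ⟨hr.1, hr.2.1⟩, ⟨hr.2.1, hr.1⟩, ⟨hr.1, hr.2.1⟩]

theorem RW_refl {k : Bool × X3 ⊕ Bool} (hx : x ∈ (D.atlW j).W k) : (D.atlW j).R k x k x := by
  rcases k with p | i
  exacts [⟨hx, hx, Or.inl ⟨rfl, rfl⟩⟩, ⟨hx, hx, rfl⟩]

theorem RW_symm (h : D.Ok) {k k' : Bool × X3 ⊕ Bool} (hr : (D.atlW j).R k x k' y) :
    (D.atlW j).R k' y k x := by
  rcases k with p | i <;> rcases k' with p' | i'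
  exacts [⟨hr.2.1, hr.1, RA_symm h (xbd_amb hr.1) hr.2.2⟩, hr, hr, ⟨hr.2.1, hr.1, hr.2.2.symm⟩]

theorem RW_trans (h : D.Ok) {k k' k'' : Bool × X3 ⊕ Bool} (hr : (D.atlW j).R k x k' y)
    (hr' : (D.atlW j).R k' y k'' z) : (D.atlW j).R k x k'' z := by
  rcases k with p | i <;> rcases k' with p' | i' <;> rcases k'' with p'' | i''
  · exact ⟨hr.1, hr'.2.1, RA_trans h (xbd_amb hr.1) (xbd_amb hr.2.1) (xbd_amb hr'.2.1)
      hr.2.2 hr'.2.2⟩
  · obtain ⟨h1, h2⟩ := RA_up h (xbd_amb hr.1) hr.2.2 hr'.2.2.1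
    exact ⟨hr.1, hr'.2.1, h1, h2.trans hr'.2.2.2⟩
  · exact ⟨hr.1, hr'.1, RA_of_up (xbd_amb hr.1) (xbd_amb hr'.1) hr.2.2.1 hr'.2.2.1
      (hr.2.2.2.trans hr'.2.2.2.symm)⟩
  · exact ⟨hr.1, hr'.2.1, hr.2.2.1, hr.2.2.2.trans hr'.2.2⟩
  · obtain ⟨h1, h2⟩ := RA_up h (xbd_amb hr'.2.1) (RA_symm h (xbd_amb hr'.1) hr'.2.2) hr.2.2.1
    exact ⟨hr'.2.1, hr.2.1, h1, h2.trans hr.2.2.2⟩
  · exact ⟨hr.2.1, hr'.2.1, hr.2.2.2.symm.trans hr'.2.2.2⟩
  · exact ⟨hr'.1, hr.1, hr'.2.2.1, hr'.2.2.2.trans hr.2.2.symm⟩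
  · exact ⟨hr.1, hr'.2.1, hr.2.2.trans hr'.2.2⟩

theorem X6_eq {T : Type} [TopologicalSpace T] [T2Space T] {S : Set (E6 × E6)} {p : E6 × E6}
    {F G : E6 → T} (hp : p ∈ closure S) (hF : ContinuousAt F p.1) (hG : ContinuousAt G p.2)
    (h : ∀ q ∈ S, F q.1 = G q.2) : F p.1 = G p.2 :=
  tendsto_nhds_unique_of_frequently_eq (hF.comp continuousAt_fst) (hG.comp continuousAt_snd)
    ((mem_closure_iff_frequently.1 hp).mono h)

theorem continuous_xt : Continuous xt := by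
  unfold xt
  fun_prop

theorem X6_le {S : Set (E6 × E6)} {p : E6 × E6} {F G : E6 × E6 → ℝ} (hp : p ∈ closure S)
    (hF : Continuous F) (hG : Continuous G) (h : ∀ q ∈ S, F q ≤ G q) : F p ≤ G p :=
  closure_minimal h (isClosed_le hF hG) hp

theorem X6_XT (hx : x ∈ (D.H b).WX c) (hy : y ∈ WT)
    (hc : (x, y) ∈ closure {p : E6 × E6 | (D.atlW j).R (.inl (b, c)) p.1 (.inr i) p.2}) :
    (D.atlW j).R (.inl (b, c)) x (.inr i) y := by
  have ca := continuous_amb (D.H b) c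
  have h1 : 7 / 8 ≤ xt ((D.H b).amb c x) := X6_le (G := fun q => xt ((D.H b).amb c q.1)) hc
    continuous_const (continuous_xt.comp (ca.comp continuous_fst)) fun q hq => hq.2.2.1.le
  have h2 := (xbd_amb hx).upp (by linarith)
  have h3 : taH (D.thU j) b ((D.H b).amb c x) = ambT i y :=
    X6_eq (F := fun z => taH (D.thU j) b ((D.H b).amb c z)) hc
      ((contDiffAt_taH h2 _ _).continuousAt.comp ca.continuousAt)
      (contDiff_ambT i).continuous.continuousAt fun q hq => hq.2.2.2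
  refine ⟨hx, hy, ?_, h3⟩
  have h4 := (h2.rad h3).2
  have h5 := abs_lt.1 hy.1
  cases b <;> simp only [cond_true, cond_false] at h4 <;> linarith

theorem RW_clo (h : D.Ok) {k k' : Bool × X3 ⊕ Bool} (hx : x ∈ (D.atlW j).W k)
    (hy : y ∈ (D.atlW j).W k')
    (hc : (x, y) ∈ closure {p : E6 × E6 | (D.atlW j).R k p.1 k' p.2}) : (D.atlW j).R k x k' y := by
  rcases k with ⟨b, c⟩ | i <;> rcases k' with ⟨b', c'⟩ | i'
  · have ca := continuous_amb (D.H b) c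
    have ca' := continuous_amb (D.H b') c'
    have ba := xbd_amb (d := D.H b) hx
    have ba' := xbd_amb (d := D.H b') hy
    refine ⟨hx, hy, ?_⟩
    by_cases hb : b = b'
    · subst hb
      exact Or.inl ⟨rfl, X6_eq hc ca.continuousAt ca'.continuousAt fun q hq =>
        hq.2.2.elim And.right fun e => absurd rfl e.1⟩
    have h1 := closure_mono (fun q hq => (hq.2.2.resolve_left fun e => hb e.1).2 :
      _ ⊆ {q : E6 × E6 | xt ((D.H b).amb c q.1) < -2 * (D.H b).μ₁ - 7 / 8 ∧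
        (D.H b').amb c' q.2 = lg D.sL (D.thL j) ((D.H b).amb c q.1)} ∪
      {q : E6 × E6 | 7 / 8 < xt ((D.H b).amb c q.1) ∧ 7 / 8 < xt ((D.H b').amb c' q.2) ∧
        taH (D.thU j) b ((D.H b).amb c q.1) = taH (D.thU j) b' ((D.H b').amb c' q.2)}) hc
    rw [closure_union] at h1
    refine Or.inr ⟨hb, h1.imp (fun h1 => ?_) fun h1 => ?_⟩
    · obtain rfl := Bool.eq_not_of_ne (Ne.symm hb)
      have m1 := (h.ok b).hμ
      have m2 := (h.ok (!b)).hμ
      have e := sL_eq D b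
      have h2 : xt ((D.H b).amb c x) ≤ -2 * (D.H b).μ₁ - 7 / 8 :=
        X6_le (F := fun q => xt ((D.H b).amb c q.1)) h1
          (continuous_xt.comp (ca.comp continuous_fst)) continuous_const fun q hq => hq.1.le
      have h0 := ba.ne_zero (by linarith)
      have h3 : lg D.sL (D.thL j) ((D.H b).amb c x) = (D.H (!b)).amb c' y :=
        (X6_eq (F := fun z => lg D.sL (D.thL j) ((D.H b).amb c z)) (G := (D.H (!b)).amb c') h1
          ((continuousAt_lg h0).comp ca.continuousAt :) ca'.continuousAt fun q hq => hq.2.symm :)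
      have h4 := xt_lg (s := D.sL) (θ := D.thL j) h0 (by linarith [ba.lo, ba.nonneg])
      rw [h3] at h4
      exact ⟨by linarith [ba'.lo], h3.symm⟩
    · have h2 : 7 / 8 ≤ xt ((D.H b).amb c x) := X6_le (G := fun q => xt ((D.H b).amb c q.1)) h1
        continuous_const (continuous_xt.comp (ca.comp continuous_fst)) fun q hq => hq.1.le
      have h3 : 7 / 8 ≤ xt ((D.H b').amb c' y) :=
        X6_le (G := fun q => xt ((D.H b').amb c' q.2)) h1
          continuous_const (continuous_xt.comp (ca'.comp continuous_snd)) fun q hq => hq.2.1.le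
      have u := ba.upp (by linarith)
      have u' := ba'.upp (by linarith)
      have h4 : taH (D.thU j) b ((D.H b).amb c x) = taH (D.thU j) b' ((D.H b').amb c' y) :=
        X6_eq (F := fun z => taH (D.thU j) b ((D.H b).amb c z))
          (G := fun z => taH (D.thU j) b' ((D.H b').amb c' z)) h1
          ((contDiffAt_taH u _ _).continuousAt.comp ca.continuousAt :)
          ((contDiffAt_taH u' _ _).continuousAt.comp ca'.continuousAt :) fun q hq => hq.2.2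
      have h5 := (u.cross u' hb h4).1
      exact ⟨by linarith [ba'.hi], by linarith [ba.hi], h4⟩
  · exact X6_XT hx hy hc
  · exact X6_XT hy hx (map_mem_closure (f := Prod.swap) (x := (x, y)) continuous_swap hc
      fun p hp => hp)
  · exact ⟨hx, hy, X6_eq hc (contDiff_ambT i).continuous.continuousAt
      (contDiff_ambT i').continuous.continuousAt fun q hq => hq.2.2⟩

theorem X6_near (x : E6) : ∀ᶠ p : E6 × E6 in 𝓝 (x, x), (cc 0 p.2 = cc 0 p.1 ∧ cc 1 p.2 = cc 1 p.1 ∧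
    p.2 (2, 0) = p.1 (2, 0) ∧ ∃ n : ℤ, p.2 (2, 1) = p.1 (2, 1) + n) → p.1 = p.2 := by
  have h1 : ∀ᶠ p : E6 × E6 in 𝓝 (x, x), |p.2 (2, 1) - p.1 (2, 1)| < 1 :=
    (isOpen_lt (by fun_prop) continuous_const).mem_nhds (by simp)
  filter_upwards [h1] with p hp ⟨h2, h3, h4, n, h5⟩
  rw [h5, add_sub_cancel_left] at hp
  obtain rfl : n = 0 := Int.abs_lt_one_iff.1 (by exact_mod_cast hp)
  exact extc h2.symm h3.symm (Complex.ext h4.symm (by simpa [cc_im] using h5.symm))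

theorem free_atlW (h : D.Ok) (j : J4) : Free (D.atlW j) := by
  rintro (⟨b, c⟩ | i) x hx
  · have key : ∀ p : E6 × E6, (D.atlW j).R (.inl (b, c)) p.1 (.inl (b, c)) p.2 →
        (D.H b).amb c p.1 = (D.H b).amb c p.2 :=
      fun p hp => hp.2.2.elim And.right fun e => absurd rfl e.1
    rcases c with _ | _ | _
    · have h1 : ∀ᶠ p : E6 × E6 in 𝓝 (x, x), (cc 1 p.2, cc 2 p.2) ≠ (-cc 1 p.1, -cc 2 p.1) := by
        refine (isOpen_ne_fun (by fun_prop) (by fun_prop)).mem_nhds fun e => ?_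
        have h2 : 1 < rF x := hx.2.1
        obtain ⟨e1, e2⟩ := Prod.mk.inj e
        rw [rF, self_eq_neg.1 e1, self_eq_neg.1 e2] at h2
        norm_num at h2
      filter_upwards [h1] with p hp hr
      refine ((amb_F_iff hr.1 hr.2.1).1 (key p hr)).elim Eq.symm fun e => absurd ?_ hp
      rw [e]
      rfl
    · exact Eventually.of_forall fun p hr => amb_V_inj hr.1 hr.2.1 (key p hr)
    · exact (X6_near x).mono fun p hp hr => hp ((amb_L_iff hr.1 hr.2.1).1 (key p hr))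
  · exact (X6_near x).mono fun p hp hr => hp (ambT_iff.1 hr.2.2)

theorem XT_rad (h : D.Ok) {c : X3} {i : Bool} (hr : (D.atlW j).R (.inl (b, c)) x (.inr i) y) :
    xu ((D.H b).amb c x) = rT y ∧ xt ((D.H b).amb c x) - 1 = cond b (y (2, 0)) (-y (2, 0)) :=
  ((xbd_amb hr.1).upp (by linarith [hr.2.2.1])).rad hr.2.2.2

theorem RA_rad (h : D.Ok) {c c' : X3} {b' : Bool}
    (hr : (D.atlW j).R (.inl (b, c)) x (.inl (b', c')) y) :
    xr ((D.H b').amb c' y) = xr ((D.H b).amb c x) ∨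
      (7 / 8 < xt ((D.H b).amb c x) ∧ xu ((D.H b').amb c' y) = xu ((D.H b).amb c x) ∧
        xt ((D.H b).amb c x) + xt ((D.H b').amb c' y) = 2) := by
  rcases (RW_XX.1 hr).2.2 with ⟨-, e⟩ | ⟨hb, ⟨-, e⟩ | ⟨h1, h2, h3⟩⟩
  · exact Or.inl (by rw [e])
  · exact Or.inl (by rw [e, xr_lg])
  · have := ((xbd_amb hr.1).upp (by linarith)).cross ((xbd_amb hr.2.1).upp (by linarith)) hb h3
    exact Or.inr ⟨h1, this.2, this.1⟩

theorem ex_of_T (h : D.Ok) (θ : ℝ) (b i : Bool) (hy : y ∈ WT)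
    (h0 : cond b (y (2, 0)) (-y (2, 0)) < rT y) : ∃ a, XBd (D.H b) a ∧ taH θ b a = ambT i y ∧
      xu a = rT y ∧ xt a - 1 = cond b (y (2, 0)) (-y (2, 0)) := by
  have h1 : |cond b (y (2, 0)) (-y (2, 0))| = |y (2, 0)| := by cases b <;> simp
  have h2 := abs_lt.1 (h1.trans_lt hy.1)
  obtain ⟨a, ha, he⟩ := ex_taH (tv_ambT i y) θ b (by rw [tmm_ambT]; linarith)
    (by rw [tmm_ambT, trr_ambT]; exact h0)
  obtain ⟨h3, h4⟩ := ha.rad he
  have h5 : rT y + |y (2, 0)| < 7 := hy.2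
  exact ⟨a, ⟨ha.va, by linarith [xr_eq a, le_abs_self (cond b (y (2, 0)) (-y (2, 0)))],
    by linarith [(h.ok b).hμ], by linarith, ha.up⟩, he, h3, h4⟩

theorem T_to_F (h : D.Ok) (j : J4) (b i : Bool) (hy : y ∈ WT) (h0 : cc 1 y ≠ 0) :
    ∃ x, (D.atlW j).R (.inl (b, .F)) x (.inr i) y := by
  have h1 : |cond b (y (2, 0)) (-y (2, 0))| = |y (2, 0)| := by cases b <;> simp
  have h2 : |y (2, 0)| < rT y := Real.lt_sqrt_of_sq_lt (by
    rw [sq_abs]; linarith [normSq_pos.2 h0])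
  have h3 := abs_lt.1 (h1.trans_lt h2)
  have h4 := abs_lt.1 (h1.trans_lt hy.1)
  obtain ⟨a, ha, e1, e2, e3⟩ := ex_of_T h (D.thU j) b i hy h3.2
  obtain ⟨x, hx, rfl⟩ := ex_F ha (by linarith [xr_eq a])
  exact ⟨x, hx, hy, by linarith, e1⟩

theorem ex_to_T (ha : XBd d a) (θ : ℝ) (b : Bool) (h1 : 7 / 8 < xt a) (h2 : xu a - xt a < 6) :
    ∃ i, ∃ y ∈ WT, taH θ b a = ambT i y ∧ normSq (cc 0 y) ≤ 1 ∧ y (2, 1) ∈ Icc (0 : ℝ) 1 := by
  have u := ha.upp (by linarith)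
  obtain ⟨i, y, e, h3⟩ := ex_T (u.tv θ b)
  obtain ⟨h4, h5⟩ := u.rad e.symm
  have h6 : |y (2, 0)| = |xt a - 1| := by rw [h5]; cases b <;> simp
  refine ⟨i, y, ⟨?_, ?_⟩, e.symm, h3⟩
  · rw [h6, abs_lt]
    exact ⟨by linarith, by linarith [ha.hi]⟩
  · change rT y + _ < 7
    rw [h6, ← h4]
    rcases abs_cases (xt a - 1) with e | e <;> linarith [ha.r8, xr_eq a]

theorem RA_F_iff (h : D.Ok) (hx : x ∈ (D.H b).WX .F) (hy : y ∈ (D.H (!b)).WX .F) :
    D.RA j b ((D.H b).amb .F x) (!b) ((D.H (!b)).amb .F y) ↔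
      D.LoR j b x y ∨ UpR (D.thU j) x y := by
  have hb : b ≠ !b := by simp
  have m1 := (h.ok b).hμ
  have ba := xbd_amb hx
  have ba' := xbd_amb hy
  have e : D.sL = -(D.H b).M - (D.H (!b)).M - (D.H b).μ₁ - (D.H (!b)).μ₁ := by
    rw [sL_eq D b, HD.M, HD.M]; ring
  have r : ∀ p : E6, rF (Plow (D.H (!b)).μ₁ (flp (-(D.H b).M - (D.H (!b)).M) (D.thL j) p)) =
      rF (Plow (D.H b).μ₁ p) := fun p => by rw [rF_Plow, rF_Plow]; rfl
  have up : ∀ p : E6, |p (2, 0)| < 1 / 8 → x = Pup p →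
      tF x = 1 + p (2, 0) ∧ tF (Pup (flp 0 (D.thU j) p)) = 1 - p (2, 0) ∧
      1 < rF (Pup (flp 0 (D.thU j) p)) ∧ Upp ((D.H (!b)).amb .F (Pup (flp 0 (D.thU j) p))) ∧
      taH (D.thU j) b ((D.H b).amb .F x) =
        taH (D.thU j) (!b) ((D.H (!b)).amb .F (Pup (flp 0 (D.thU j) p))) := by
    rintro p hp rfl
    have h1 := abs_lt.1 hp
    have h2 : flp 0 (D.thU j) p (2, 0) = 0 - p (2, 0) := rfl
    have h3 := tF_Pup (z := p) (by linarith)
    have h4 := tF_Pup (z := flp 0 (D.thU j) p) (by linarith)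
    have h5 := rF_Pup (z := p) (by linarith)
    have h6 : _ = _ + (normSq (cc 0 p) + normSq (cc 1 p)) :=
      rF_Pup (z := flp 0 (D.thU j) p) (by linarith)
    have h7 := ba.up
    have h8 := xr_eq ((D.H b).amb .F (Pup p))
    have h9 := xr_eq ((D.H (!b)).amb .F (Pup (flp 0 (D.thU j) p)))
    have h10 : 1 < rF (Pup p) := hx.2.1
    rw [xt_F] at h7
    rw [xt_F, xr_F] at h8 h9
    have h11 : 1 < rF (Pup (flp 0 (D.thU j) p)) := by linarith
    refine ⟨h3, by linarith, h11, ⟨⟨_, lv_up_F _ h11.le, amb_up_F _ _⟩, ?_, ?_⟩,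
      taH_Pup (by linarith)⟩
    · refine lt_of_lt_of_le ?_ (sub_le_self _ (normSq_nonneg _) : xt _ ≤ _)
      change 0 < tF _
      linarith
    · rw [xt_F]; linarith
  constructor
  · rintro (⟨e, -⟩ | ⟨-, ⟨h1, h2⟩ | ⟨h1, h2, h3⟩⟩)
    · exact absurd e hb
    · have h3 := ba.lo
      rw [xt_F] at h1 h3
      obtain ⟨p, h4, rfl⟩ := ex_Plow (D.H b).μ₁ (x := x) (by linarith)
      refine Or.inl ⟨p, abs_lt.2 ⟨by rw [HD.M]; linarith, by rw [HD.M]; linarith⟩, rfl, ?_⟩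
      rw [e, lg_Plow (d' := D.H (!b)) (by linarith)] at h2
      exact (amb_F_iff' ((r p).symm ▸ hx.2.1)).1 h2.symm
    · have h4 := ba.hi
      rw [xt_F] at h1 h4
      obtain ⟨p, h5, h6⟩ := ex_Pup (x := x) (by linarith)
      have h7 : |p (2, 0)| < 1 / 8 := abs_lt.2 ⟨by linarith, by linarith⟩
      obtain ⟨-, -, h8, h9, h10⟩ := up p h7 h6
      exact Or.inr ⟨p, h7, h6, (amb_F_iff' h8).1
        (h9.inj (ba'.upp (by linarith)) (h10.symm.trans h3))⟩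
  · rintro (⟨p, h1, rfl, h2⟩ | ⟨p, h1, h2, h3⟩)
    · have h3 := abs_lt.1 h1
      rw [HD.M] at h3
      refine Or.inr ⟨hb, Or.inl ⟨?_, ?_⟩⟩
      · rw [xt_F, tF_Plow (by linarith)]
        linarith
      · rw [e, lg_Plow (d' := D.H (!b)) (by linarith)]
        exact ((amb_F_iff' ((r p).symm ▸ hx.2.1)).2 h2).symm
    · obtain ⟨h4, h5, h6, -, h7⟩ := up p h1 h2
      have h8 := abs_lt.1 h1
      rw [← (amb_F_iff' (d := D.H (!b)) h6).2 h3]
      exact Or.inr ⟨hb, Or.inr ⟨by rw [xt_F]; linarith, by rw [xt_F]; linarith, h7⟩⟩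

end Pool.Agent.Work.MP_bf98aa_gt.B3
end

-- merged part: Pool.Agent.Work.MP_bf98aa_gt.B3.X7
section
/-!
Arrows and compactness on the neighbourhood of a resolved sphere.
-/

set_option autoImplicit false

open scoped Manifold ContDiff Topology Matrix ComplexConjugate
open Set Complex Filter

namespace Pool.Agent.Work.MP_bf98aa_gt.B3

open Pool.Agent.Work.MP_bf98aa_gt.Th Pool.Agent.Work.MP_bf98aa_gt.Cy

variable {D : GD} {d : HD} {x y z : E6} {j : J4} {b : Bool} {b' i i' : Bool} {c c' : X3} {a : XA}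

theorem X7_up (hx : x ∈ d.WX c) :
    ∀ᶠ z in 𝓝 x, z ∈ d.WX c ∧ Lv (d.up4 c z) ∧ d.amb c z = am0 (d.up4 c z) :=
  Eventually.mono ((isOpen_WX d c).mem_nhds hx) fun _ h => ⟨h, lv_up h, amb_up h⟩

theorem X7_xt (d : HD) (c : X3) (x : E6) : ContinuousAt (fun z => xt (d.amb c z)) x :=
  (continuous_xt.comp (continuous_amb d c)).continuousAt

theorem X7_XT (hr : (D.atlW j).R (.inl (b, c)) x (.inr i) y) :
    ∃ f, Ar (fun z w => (D.atlW j).R (.inl (b, c)) z (.inr i) w) x y f ∧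
      pb f (d1 lamT) x = d1 (lamX c) x := by
  obtain ⟨hx, hy, h1, h2⟩ := RW_XT.1 hr
  have e1 := X7_up hx
  have e2 : ∀ᶠ z in 𝓝 x, 7 / 8 < xt ((D.H b).amb c z) := (X7_xt _ c x).eventually (lt_mem_nhds h1)
  have e3 : ∀ᶠ z in 𝓝 x, Upp (am0 ((D.H b).up4 c z)) := (e1.and e2).mono fun z h =>
    h.1.2.2 ▸ (xbd_amb h.1.1).upp (by linarith [h.2])
  obtain ⟨f, f1, f2, f3, f4⟩ := arrow_T (g := fun z => taH (D.thU j) b (am0 ((D.H b).up4 c z)))
    (ContDiffAt.comp (f := fun z => am0 ((D.H b).up4 c z)) x (contDiffAt_taH e3.self_of_nhds _ _)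
      (contDiff_am0.contDiffAt.comp x (contDiffAt_up4 hx)))
    (e3.mono fun z h => h.tv _ _) (by rw [← h2, amb_up hx])
  rw [can2_taH (contDiffAt_up4 hx) (e1.mono fun z h => h.2.1) e3.self_of_nhds, La4_up hx] at f4
  refine ⟨f, ⟨f1, f2, (nd_lamX c x).inj f4, ?_⟩, f4⟩
  filter_upwards [e1, e2, f3, f1.continuousAt.eventually (isOpen_WT.mem_nhds (f2 ▸ hy))]
    with z a1 a2 a3 a4
  exact ⟨a1.1, a4, a2, by rw [← a3, a1.2.2]⟩

theorem invF_atlW (h : D.Ok) (j : J4) : InvF (D.atlW j) fun c => d1 (GD.lamW c) := by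
  rintro (⟨b, c⟩ | i) x (⟨b', c'⟩ | i') y hr
  · obtain ⟨hx, hy, h1⟩ := RW_XX.1 hr
    have e1 := X7_up hx
    rcases h1 with ⟨rfl, h1⟩ | ⟨hb, ⟨h1, h2⟩ | ⟨h1, h2, h3⟩⟩
    · obtain ⟨f, f1, f2, f3, f4⟩ := arrow_X (contDiffAt_up4 hx) (e1.mono fun z h => h.2.1) hy
        ((amb_up hx).symm.trans h1)
      rw [La4_up hx] at f4
      refine ⟨f, ⟨f1, f2, (nd_lamX c x).inj f4, ?_⟩, f4⟩
      filter_upwards [e1, f3] with z a1 a2
      exact ⟨a1.1, a2.1, Or.inl ⟨rfl, a1.2.2.trans a2.2⟩⟩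
    · have e2 : ∀ᶠ z in 𝓝 x, xt ((D.H b).amb c z) < -2 * (D.H b).μ₁ - 7 / 8 :=
        (X7_xt _ c x).eventually (gt_mem_nhds h1)
      have e3 : ∀ᶠ z in 𝓝 x, ((D.H b).up4 c z).1 ≠ 0 ∧
          D.sL - xt (am0 ((D.H b).up4 c z)) < normSq ((D.H b).up4 c z).2.2.1 :=
        (e1.and e2).mono fun z e => by
          obtain ⟨a1, a2, -⟩ := (xbd_amb e.1.1).low h e.2 0
          rw [e.1.2.2] at a1 a2
          exact ⟨a1, a2⟩
      obtain ⟨a1, a2⟩ := e3.self_of_nhds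
      obtain ⟨f, f1, f2, f3, f4⟩ := arrow_X (l := fun z => lg4 D.sL (D.thL j) ((D.H b).up4 c z))
        ((contDiffAt_lg4 a1 a2).comp x (contDiffAt_up4 hx))
        ((e1.and e3).mono fun z e => e.1.2.1.lgU e.2.1) hy (by rw [am0_lg4 a1, h2, amb_up hx])
      rw [La4_lg4 (contDiffAt_up4 hx) a1 a2, La4_up hx] at f4
      refine ⟨f, ⟨f1, f2, (nd_lamX c x).inj f4, ?_⟩, f4⟩
      filter_upwards [e1, e2, e3, f3] with z a1 a2 a3 a4
      exact ⟨a1.1, a4.1, Or.inr ⟨hb, Or.inl ⟨a2, by rw [← a4.2, am0_lg4 a3.1, a1.2.2]⟩⟩⟩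
    · obtain ⟨h4, h5⟩ := ((xbd_amb hx).upp (by linarith)).cross ((xbd_amb hy).upp (by linarith))
        hb h3
      obtain ⟨i, w, hw, h6, -⟩ := ex_to_T (xbd_amb hx) (D.thU j) b h1
        (by linarith [(xbd_amb hy).r8, xr_eq ((D.H b').amb c' y)])
      obtain ⟨f, f1, f2⟩ := X7_XT (RW_XT.2 ⟨hx, hw, h1, h6⟩)
      obtain ⟨g, g1, g2⟩ := X7_XT (RW_XT.2 ⟨hy, hw, h2, h3.symm.trans h6⟩)
      obtain ⟨k, k1, k2⟩ := g1.symm_pb g2
      exact ⟨_, f1.trans k1 fun _ _ _ a1 a2 => RW_trans h a1 (RW_TX.2 a2), f1.trans_pb k1 f2 k2⟩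
  · exact X7_XT hr
  · obtain ⟨g, g1, g2⟩ := X7_XT (RW_TX.1 hr)
    exact g1.symm_pb g2
  · obtain ⟨hx, hy, h1⟩ := RW_TT.1 hr
    obtain ⟨f, f1, f2, f3, f4⟩ := arrow_T (contDiff_ambT i).contDiffAt
      (Eventually.of_forall (tv_ambT i)) h1
    rw [can2_ambT] at f4
    refine ⟨f, ⟨f1, f2, (nd_lamT x).inj f4, ?_⟩, f4⟩
    filter_upwards [isOpen_WT.mem_nhds hx, f3,
      f1.continuousAt.eventually (isOpen_WT.mem_nhds (f2 ▸ hy))] with z a1 a2 a3
    exact ⟨a1, a3, a2⟩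

theorem pre0_atlW (h : D.Ok) (j : J4) : Pre0 (D.atlW j) := by
  refine ⟨?_, RW_mem, RW_refl, RW_symm h, RW_trans h,
    fun hr => (invF_atlW h j _ _ _ _ hr).imp fun _ e => e.1, RW_clo h⟩
  rintro (p | i)
  exacts [isOpen_WX _ _, isOpen_WT]

theorem X7_cpt {K : Set E6} (hK : IsClosed K) {r : ℝ} (h : ∀ z ∈ K, normSq (cc 0 z) ≤ r ∧
    normSq (cc 1 z) ≤ r ∧ normSq (cc 2 z) ≤ r) : IsCompact K := by
  refine (isCompact_closedBall (0 : E6) √r).of_isClosed_subset hK fun z hz => ?_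
  rw [mem_closedBall_zero_iff, pi_norm_le_iff_of_nonneg (Real.sqrt_nonneg r)]
  obtain ⟨h0, h1, h2⟩ := h z hz
  rw [normSq_cc] at h0 h1 h2
  rintro ⟨k, l⟩
  refine Real.abs_le_sqrt ?_
  fin_cases k <;> fin_cases l <;> simp only [Fin.zero_eta, Fin.mk_one, Fin.reduceFinMk] <;>
    nlinarith [sq_nonneg (z (0, 0)), sq_nonneg (z (0, 1)), sq_nonneg (z (1, 0)),
      sq_nonneg (z (1, 1)), sq_nonneg (z (2, 0)), sq_nonneg (z (2, 1))]

/-- Compact parts of the charts of the resolved strand. -/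
def HD.KX (d : HD) : X3 → Set E6
  | .F => ∅
  | .V => {z | normSq (cc 2 z) ≤ 29 / 32 ∧ 2 * normSq (cc 1 z) + 1 ≤ 6 ∧ -2 * d.μ₁ - 1 ≤ tF z}
  | .L => {z | 29 / 32 ≤ r1 z ∧ d.tt z ≤ 9 / 10 ∧ 2 * normSq (cc 1 z) + 1 ≤ 6 ∧
      -2 * d.μ₁ - 1 ≤ d.tt z ∧ z (2, 1) ∈ Icc (0 : ℝ) 1}

/-- Compact part of the Hopf charts. -/
def KT : Set E6 :=
  {z | |z (2, 0)| ≤ 1 / 10 ∧ rT z ≤ 5 ∧ normSq (cc 0 z) ≤ 1 ∧ z (2, 1) ∈ Icc (0 : ℝ) 1}

theorem X7_KX (hd : d.Ok) (c : X3) : IsCompact (d.KX c) ∧ d.KX c ⊆ d.WX c := by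
  have m := hd.hμ
  rcases c with _ | _ | _
  · exact ⟨isCompact_empty, empty_subset _⟩
  · refine ⟨X7_cpt (r := 2 * d.μ₁ + 3) ?_ fun z ⟨h1, h2, h3⟩ => ?_, fun z ⟨h1, h2, h3⟩ => ?_⟩
    · have h1 : Continuous tF := by unfold tF; fun_prop
      exact IsClosed.and (isClosed_le (by fun_prop) continuous_const)
        (IsClosed.and (isClosed_le (by fun_prop) continuous_const)
          (isClosed_le continuous_const h1))
    · rw [tF] at h3
      exact ⟨by linarith, by linarith, by linarith⟩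
    · rw [tF] at h3
      exact ⟨by linarith, by linarith, by rw [HD.M, HD.nuF]; linarith⟩
  · refine ⟨X7_cpt (r := (d.μ₁ + 1) ^ 2 + 1) ?_ fun z ⟨h1, h2, h3, h4, h5⟩ => ?_,
      fun z ⟨h1, h2, h3, h4, h5⟩ => ?_⟩
    · have ht : Continuous d.tt := by unfold HD.tt; fun_prop
      have h1 : Continuous r1 := by unfold r1; fun_prop
      exact IsClosed.and (isClosed_le continuous_const h1) (IsClosed.and
        (isClosed_le ht continuous_const) (IsClosed.and (isClosed_le (by fun_prop) continuous_const)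
          (IsClosed.and (isClosed_le continuous_const ht)
            (isClosed_Icc.preimage (continuous_apply _)))))
    · rw [HD.tt] at h2 h4
      rw [r1] at h1
      refine ⟨by nlinarith, by nlinarith, ?_⟩
      rw [normSq_cc]
      nlinarith [h5.1, h5.2, abs_le.2 (show -(d.μ₁ + 1) ≤ z (2, 0) ∧ z (2, 0) ≤ d.μ₁ + 1 from
        ⟨by linarith, by linarith⟩), sq_le_sq' (show -(d.μ₁ + 1) ≤ z (2, 0) by linarith)
          (show z (2, 0) ≤ d.μ₁ + 1 by linarith)]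
    · exact ⟨by linarith, by linarith, by linarith, by linarith, by
        rw [HD.tt] at h4; rw [HD.M]; linarith⟩

theorem X7_KT : IsCompact KT ∧ KT ⊆ WT := by
  refine ⟨X7_cpt (r := 25) ?_ fun z ⟨h1, h2, h3, h4⟩ => ⟨by linarith, ?_, ?_⟩,
    fun z ⟨h1, h2, _⟩ => ⟨by linarith, show rT z + _ < 7 by linarith⟩⟩
  · exact IsClosed.and (isClosed_le (by fun_prop) continuous_const)
      (IsClosed.and (isClosed_le continuous_rT continuous_const)
        (IsClosed.and (isClosed_le (by fun_prop) continuous_const)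
          (isClosed_Icc.preimage (continuous_apply _))))
  · have := (Real.sqrt_le_left (by norm_num)).1 h2
    nlinarith [sq_nonneg (z (2, 0))]
  · rw [normSq_cc]
    nlinarith [h4.1, h4.2, abs_le.1 h1]

theorem X7_mid (ha : XBd d a) (h1 : xr a ≤ 6) (h2 : -2 * d.μ₁ - 1 ≤ xt a) (h3 : xt a ≤ 9 / 10) :
    ∃ c, ∃ y ∈ d.KX c, d.amb c y = a := by
  by_cases h : a.2.1 ≤ 29 / 32
  · obtain ⟨y, -, rfl⟩ := ex_V ha (by linarith)
    rw [xr_V] at h1
    rw [xt_V] at h2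
    exact ⟨.V, y, ⟨h, h1, h2⟩, rfl⟩
  · have h0 : a.1 ≠ 0 := fun e => by
      simp only [xt, e, map_zero] at h3
      linarith
    obtain ⟨y, hy, h4, rfl⟩ := ex_L ha h0 (by linarith) (by linarith)
    rw [xr_L] at h1
    rw [xt_L hy.2.1.le] at h2 h3
    exact ⟨.L, y, ⟨(not_le.1 h).le, h3, h1, h2, h4⟩, rfl⟩

theorem cpt_atlW (h : D.Ok) (j : J4) : ∃ K : Bool × X3 ⊕ Bool → Set E6,
    (∀ c, IsCompact (K c) ∧ K c ⊆ (D.atlW j).W c) ∧
      ∀ c, ∀ x ∈ (D.atlW j).W c, D.radW c x ≤ 5 → ∃ c', ∃ y ∈ K c', (D.atlW j).R c x c' y := by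
  refine ⟨Sum.elim (fun p => (D.H p.1).KX p.2) fun _ => KT, ?_, ?_⟩
  · rintro (p | i)
    exacts [X7_KX (h.ok _) _, X7_KT]
  have key : ∀ i, ∀ x ∈ WT, rT x ≤ 5 → ∃ c', ∃ y ∈ Sum.elim (fun p : Bool × X3 =>
      (D.H p.1).KX p.2) (fun _ : Bool => KT) c', (D.atlW j).R (.inr i) x c' y := by
    intro i x hx h1
    by_cases h2 : |x (2, 0)| ≤ 1 / 10
    · obtain ⟨i', y, e, h3⟩ := ex_T (tv_ambT i x)
      have e1 : y (2, 0) = x (2, 0) := by rw [← tmm_ambT i' y, e, tmm_ambT]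
      have e2 : rT y = rT x := by rw [← trr_ambT i', e, trr_ambT]
      have hy : y ∈ KT := ⟨e1 ▸ h2, e2 ▸ h1, h3⟩
      exact ⟨.inr i', y, hy, hx, X7_KT.2 hy, e.symm⟩
    · obtain ⟨b, hb⟩ : ∃ b : Bool, cond b (x (2, 0)) (-x (2, 0)) = -|x (2, 0)| := by
        rcases abs_cases (x (2, 0)) with e | e
        exacts [⟨false, by rw [e.1]; rfl⟩, ⟨true, by rw [e.1, neg_neg]; rfl⟩]
      have h3 : |x (2, 0)| < 1 / 8 := hx.1
      obtain ⟨a, ha, e1, e2, e3⟩ := ex_of_T h (D.thU j) b i hx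
        (by linarith [Real.sqrt_nonneg (x (2, 0) ^ 2 + normSq (cc 1 x)), show rT x = √_ from rfl])
      obtain ⟨c, y, hy, rfl⟩ := X7_mid ha (by linarith [xr_eq a]) (by linarith [(h.ok b).hμ])
        (by linarith)
      exact ⟨.inl (b, c), y, hy, (X7_KX (h.ok b) c).2 hy, hx, by linarith, e1⟩
  rintro (⟨b, c⟩ | i) x hx hr
  · have ba := xbd_amb (d := D.H b) hx
    replace hr : xr ((D.H b).amb c x) ≤ 5 := hr
    by_cases h1 : xt ((D.H b).amb c x) < -2 * (D.H b).μ₁ - 1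
    · obtain ⟨-, -, h2, h3, h4⟩ := ba.low h (by linarith) (D.thL j)
      obtain ⟨c', y, hy, e⟩ := X7_mid h3 (by rw [xr_lg]; linarith) (by linarith [sL_eq D b])
        (by linarith [(h.ok (!b)).hμ])
      exact ⟨.inl (!b, c'), y, hy, hx, (X7_KX (h.ok _) c').2 hy,
        Or.inr ⟨by simp, Or.inl ⟨by linarith, e⟩⟩⟩
    by_cases h2 : xt ((D.H b).amb c x) ≤ 9 / 10
    · obtain ⟨c', y, hy, e⟩ := X7_mid ba (by linarith) (not_lt.1 h1) h2
      exact ⟨.inl (b, c'), y, hy, hx, (X7_KX (h.ok _) c').2 hy, Or.inl ⟨rfl, e.symm⟩⟩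
    · have h3 := xr_eq ((D.H b).amb c x)
      obtain ⟨i, w, hw, e, -⟩ := ex_to_T ba (D.thU j) b (by linarith) (by linarith)
      have h4 : (D.atlW j).R (.inl (b, c)) x (.inr i) w := ⟨hx, hw, by linarith, e⟩
      obtain ⟨c', y, hy, h5⟩ := key i w hw (by linarith [(XT_rad h h4).1])
      exact ⟨c', y, hy, RW_trans h h4 h5⟩
  · replace hr : rT x + |x (2, 0)| + 1 ≤ 5 := hr
    exact key i x hx (by linarith [abs_nonneg (x (2, 0))])

end Pool.Agent.Work.MP_bf98aa_gt.B3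
end

-- merged part: Pool.Agent.Work.MP_bf98aa_gt.B3.XMain
section
/-!
The neighbourhood of a resolved sphere: the interface. The statements are in the files `X1` to `X7`:
`contDiff_lamX`, `nd_lamX` (`X2`); `contDiff_lamT`, `nd_lamT` (`X3b`); `xt_F`, `xr_F`, `xu_F`, `isOpen_Fo`, `isOpen_WX`,
`continuous_amb`, `WX_bounds`, `amb_F_iff`, `amb_V_inj`, `amb_L_iff` (`X1`); `to_F` (`X1b`); `isOpen_WT`, `ambT_iff` (`X3`);
`RA_F_iff`, `XT_rad`, `T_to_F`, `RA_rad`, `free_atlW` (`X6`); `pre0_atlW`, `invF_atlW`, `cpt_atlW` (`X7`).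
-/
end
end
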