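import Pool.Agent.Work.MP_bf98aa_gt.B3.N6
import Pool.Agent.Work.MP_bf98aa_gt.B3.XMain

-- merged part: Pool.Agent.Work.MP_bf98aa_gt.B3.N9
section
-- merged part: Pool.Agent.Work.MP_bf98aa_gt.B3.N7
section
/-!
Gluing the chart `f`.

PLAN. On `Nf`: `|tt z| < 1 / 8` (`hh ≥ 0`), `|x₂|, |x₃| < 1 / 32` (`hh_small`). `y0`, `y1` are linear in `x`, `y0 (e 0) = 1`, `y0 (e 1) = 0`, `y1 (e 0) = 0`, `y1 (e 1) = 1` (`Om0_skew`, `b_pos`).
`omf_Dm`: `Hh_kink`, `z1_add` with `f1`; the unitary angle changes by `n - psi`. `fF_omf`: `f2`, `low_norm`. `fF` is injective where `b > 0`, so injectivity and surjectivity come from `lowF_inj`, `lowF_surj` (`fF_surj`).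
`omf_ar`: `ND.inj`, `nd_m`. `gm_Nf`: if `z` and `gm γ z` lie in `Wo m ∩ Nf` then `γ` has no `κ` (levels, `2 ≤ μ₁`) and `l 2 = l 3 = 0`.
`gok_f.clo`: unfold `Bar`; `y` close to the limit has `normSq u, normSq w ≤ r < 1 / 8`; the set of `x` with `hh (x' ) ≤ r`, `hh - t ≤ r` for a translate `x' = ± x + l` is closed (`hh_cont`; `l 2`, `l 3` are determined by rounding, use `l = (0, 0, -round x₂, -round x₃)`).
-/

set_option autoImplicit false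

open scoped Manifold ContDiff Topology Matrix ComplexConjugate
open Set Complex Filter

namespace Pool.Agent.Work.MP_bf98aa_gt.B3

open Pool.Agent.Work.MP_bf98aa_gt.Th Pool.Agent.Work.MP_bf98aa_gt.Cy

namespace HD

variable {d : HD} {z y z' y' : E6}

theorem Ok.Nf_small (h : d.Ok) (hz : z ∈ d.Nf) :
    |d.tt z| < 1 / 8 ∧ |z (1, 0)| < 1 / 32 ∧ |z (1, 1)| < 1 / 32 := by
  obtain ⟨a1, a2, a3⟩ := hz
  have k : 0 ≤ d.hh (z (2, 0)) (xv z) := add_nonneg (normSq_nonneg _) (h.ex_mem _ _).1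
  have t : |d.tt z| < 1 / 8 := abs_lt.2 ⟨by linarith only [a3, k], a1⟩
  exact ⟨t, h.hh_small (x := xv z) (t.le.trans (by norm_num)) (a2.le.trans (by norm_num))⟩

theorem Ok.isOpen_Nf (h : d.Ok) : IsOpen d.Nf := by
  have c1 : Continuous d.tt := contDiff_tt.continuous
  have c2 : Continuous fun z : E6 => d.hh (z (2, 0)) (xv z) := h.hh_cont.comp DFr_lev.continuous
  exact (isOpen_lt c1 continuous_const).inter ((isOpen_lt c2 continuous_const).inter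
    (isOpen_lt (c2.sub c1) continuous_const))

theorem Ok.Nf_CL (h : d.Ok) (hz : z ∈ d.Wo .m) (hz' : z ∈ d.Nf) : z ∈ d.CL := by
  have := h.hμ
  refine ⟨by unfold M; linarith only [this, hz, hz.1], hz'.1, hz.2.2.imp_left fun k q => k ?_⟩
  obtain ⟨a1, a2⟩ := h.qq_zero.1 q
  rw [h.gz_zero, a1, a2]
  exact ⟨(rd_eq (by norm_num)).1, (rd_eq (by norm_num)).1⟩

theorem Ok.Nf_CU (h : d.Ok) (hz : z ∈ d.Wo .p) (hz' : z ∈ d.Nf) : z ∈ d.CU ∧ d.pu z ∈ d.CU := by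
  have k : d.tt z < 1 / 4 := hz'.1.trans (by norm_num)
  exact ⟨⟨hz.1, hz.2, Or.inl k⟩, hz.1, hz.2, Or.inl k⟩

theorem N7_bf {Ω : M4} (h : Ωᵀ = -Ω) (a b s t : ℝ) :
    bf Ω ![a, b, 0, 0] ![s, t, 0, 0] = Ω 0 1 * (a * t - b * s) := by
  have k : ∀ i j, Ω j i = -Ω i j := fun i j => congrFun (congrFun h i) j
  have k0 : Ω 0 0 = 0 := by linarith only [k, k 0 0]
  have k1 : Ω 1 1 = 0 := by linarith only [k, k 1 1]
  simp [bf, dotProduct, Matrix.mulVec, Fin.sum_univ_four, k0, k1, k 0 1]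
  ring

theorem Ok.N7_y (h : d.Ok) {ν : ℝ} (hν : |ν - d.μ₁| ≤ 1 / 4) (s t : ℝ) :
    d.y0 ν ![s, t, 0, 0] = s ∧ d.y1 ν ![s, t, 0, 0] = t := by
  have b0 := (h.b_pos hν).ne'
  have e0 : (Pi.single 0 1 : V4) = ![1, 0, 0, 0] := by ext i; fin_cases i <;> simp
  have e1 : (Pi.single 1 1 : V4) = ![0, 1, 0, 0] := by ext i; fin_cases i <;> simp
  rw [y0, y1, e0, e1, N7_bf (d.Om0_skew ν), N7_bf (d.Om0_skew ν), div_eq_iff b0, div_eq_iff b0, b]
  constructor <;> ring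

theorem Ok.yc_add (h : d.Ok) (hz : |d.tt z| ≤ 1 / 4) {s t : ℝ} (hl : y (2, 0) = z (2, 0))
    (hx : xv y = xv z + ![s, t, 0, 0]) : d.yc y = d.yc z + ⟨s, t⟩ := by
  obtain ⟨a1, a2⟩ := h.N7_y hz s t
  refine Complex.ext ?_ ?_
  · simp only [yc, hl, hx, add_re]
    rw [y0, bf_add_left, add_div]
    exact congrArg _ a1
  · simp only [yc, hl, hx, add_im]
    rw [y1, bf_add_right, add_div]
    exact congrArg _ a2

theorem yc_neg (hl : y (2, 0) = z (2, 0)) (hx : xv y = -xv z) : d.yc y = -d.yc z := by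
  refine Complex.ext ?_ ?_
  · simp only [yc, hl, hx, neg_re, y0, bf_neg_left, neg_div]
  · simp only [yc, hl, hx, neg_im, y1, bf_neg_right, neg_div]

theorem Ok.yc_base (h : d.Ok) (hz : |d.tt z| ≤ 1 / 4) (h2 : z (1, 0) = 0) (h3 : z (1, 1) = 0) :
    d.yc z = cc 0 z := by
  have e : xv z = ![z (0, 0), z (0, 1), 0, 0] := by rw [xv, h2, h3]
  obtain ⟨a1, a2⟩ := h.N7_y hz (z (0, 0)) (z (0, 1))
  rw [yc, e, a1, a2, cc]

theorem Ok.fF_omf (h : d.Ok) (hz : z ∈ d.CL) (ht : |d.tt z| ≤ 1 / 4) :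
    d.fF (d.omf z) = d.lowF z := by
  exact h.FC_fF_omf hz ht

theorem Ok.fF_opf (h : d.Ok) (hz : d.pu z ∈ d.CU) (ht : |d.tt z| ≤ 1 / 4) :
    d.fF (d.opf z) = d.uppF (d.pu z) := by
  exact h.FC_fF_opf (FC_pu_mem.1 hz) ht

theorem Ok.fF_inj (h : d.Ok) (hz : |tF z| ≤ 1 / 4) (he : d.fF z = d.fF z') : z = z' := by
  exact h.FC_fF_inj hz he

theorem Ok.fF_surj (h : d.Ok) (hy : |tF y| ≤ 1 / 4) : ∃ z, d.fF z = y := by
  exact (h.FC_fF_surj hy).imp fun _ a => a.2.2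

theorem Ok.N7_hh (h : d.Ok) {ν : ℝ} (hν : |ν - d.μ₁| ≤ 1 / 4) (x : V4) (s t : ℝ) :
    d.z1 ν (x + ![s, t, 0, 0]) = d.z1 ν x ∧ d.ex ν (x + ![s, t, 0, 0]) = d.ex ν x ∧
      d.hh ν (x + ![s, t, 0, 0]) = d.hh ν x := by
  have e2 : (x + ![s, t, 0, 0] : V4) 2 = x 2 := add_zero _
  have e3 : (x + ![s, t, 0, 0] : V4) 3 = x 3 := add_zero _
  have a : d.z1 ν (x + ![s, t, 0, 0]) = d.z1 ν x := by rw [h.f1 ν hν, h.f1 ν hν, e2, e3]
  have b : d.ex ν (x + ![s, t, 0, 0]) = d.ex ν x := by rw [ex, ex, e2, e3]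
  exact ⟨a, b, by rw [hh, hh, a, b]⟩

theorem Ok.N7_sh (h : d.Ok) (hz : |d.tt z| < 1 / 4) {s t : ℝ} (hl : y (2, 0) = z (2, 0))
    (hx : xv y = xv z + ![s, t, 0, 0])
    (hφ : y (2, 1) = z (2, 1) - bf (rm d.v) ![s, t, 0, 0] (xv z) / 2) :
    d.tt y = d.tt z ∧ d.z1 (y (2, 0)) (xv y) = d.z1 (z (2, 0)) (xv z) ∧
      d.ex (y (2, 0)) (xv y) = d.ex (z (2, 0)) (xv z) ∧
      d.hh (y (2, 0)) (xv y) = d.hh (z (2, 0)) (xv z) ∧ d.yc y = d.yc z + ⟨s, t⟩ ∧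
      d.phH y = d.phH z - d.v 0 1 * (s * (d.yc z).im - t * (d.yc z).re) / 2 := by
  obtain ⟨a1, a2, a3⟩ := h.N7_hh hz.le (xv z) s t
  have k := h.yc_add hz.le hl hx
  refine ⟨by rw [tt, tt, hl], by rw [hl, hx, a1], by rw [hl, hx, a2], by rw [hl, hx, a3], k, ?_⟩
  have k0 : d.y0 (z (2, 0)) (xv z + ![s, t, 0, 0]) = d.y0 (z (2, 0)) (xv z) + s := by
    simpa only [yc, hl, hx, add_re] using congrArg re k
  have k1 : d.y1 (z (2, 0)) (xv z + ![s, t, 0, 0]) = d.y1 (z (2, 0)) (xv z) + t := by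
    simpa only [yc, hl, hx, add_im] using congrArg im k
  have e : ∀ a b : ℝ, (![a + s, b + t, 0, 0] : V4) = ![a, b, 0, 0] + ![s, t, 0, 0] :=
    fun a b => by simp
  rw [phH, phH, hφ, hl, hx, h.Hh_kink hz, h.Hh_kink hz, k0, k1, bf_add_right,
    N7_bf (rm_skew d.v_skew), e, bf_add_left, rm_apply, yc]
  ring

theorem N7_rv (s t : ℤ) : rv ![s, t, 0, 0] = ![(s : ℝ), t, 0, 0] := by
  ext i
  fin_cases i <;> simp [rv]

theorem Ok.omf_shift (h : d.Ok) (hz : |d.tt z| < 1 / 4) (s t : ℝ) :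
    d.omf (mk4 (xv z + ![s, t, 0, 0]) (z (2, 0))
      (z (2, 1) - bf (rm d.v) ![s, t, 0, 0] (xv z) / 2)) = d.Df s t (d.omf z) := by
  obtain ⟨a1, a2, a3, a4, a5, a6⟩ := h.N7_sh (y := mk4 (xv z + ![s, t, 0, 0]) (z (2, 0))
    (z (2, 1) - bf (rm d.v) ![s, t, 0, 0] (xv z) / 2)) hz rfl (xv_mk4 _ _ _) rfl
  generalize mk4 (xv z + ![s, t, 0, 0]) _ _ = y at *
  refine extc ?_ a5 ?_
  · simp only [omf, Df, cc_mkc0, uL, a1, a4, a6, psi, mkc_10, mkc_11, sub_eq_add_neg,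
      neg_add, neg_neg, ee_add, mul_assoc]
  · simp only [omf, Df, cc_mkc2, wL, a2, a3, a6, psi, mkc_10, mkc_11, sub_eq_add_neg, ee_add,
      mul_assoc]

theorem Ok.opf_shift (h : d.Ok) (hz : |d.tt z| < 1 / 4) (s t : ℝ) :
    d.opf (mk4 (xv z + ![s, t, 0, 0]) (z (2, 0))
      (z (2, 1) - bf (rm d.v) ![s, t, 0, 0] (xv z) / 2)) = d.Df s t (d.opf z) := by
  set y := mk4 (xv z + ![s, t, 0, 0]) (z (2, 0))
    (z (2, 1) - bf (rm d.v) ![s, t, 0, 0] (xv z) / 2) with hy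
  have e : d.yc (d.pu z) = d.yc z := by simp [yc, pu]
  obtain ⟨a1, a2, a3, a4, -, a6⟩ := h.N7_sh (z := d.pu z) (y := d.pu y) (s := s) (t := t)
    (by simpa only [tt, pu, mk4_20] using hz) (by simp only [pu, hy, mk4_20])
    (by simp only [pu, hy, xv_mk4]) (by
      have e2 : (xv z + ![s, t, 0, 0] : V4) 2 = z (1, 0) := add_zero _
      have e3 : (xv z + ![s, t, 0, 0] : V4) 3 = z (1, 1) := add_zero _
      simp only [pu, hy, tt, mk4_21, mk4_20, mk4_10, mk4_11, xv_mk4, e2, e3]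
      ring)
  rw [e] at a6
  refine extc ?_ (h.yc_add hz.le rfl (xv_mk4 _ _ _)) ?_
  · simp only [opf, Df, cc_mkc0, uU, a1, a2, a3, a6, psi, mkc_10, mkc_11, sub_eq_add_neg,
      neg_add, neg_neg, ee_add, mul_assoc]
  · simp only [opf, Df, cc_mkc2, wU, a4, a6, psi, mkc_10, mkc_11, sub_eq_add_neg, ee_add,
      mul_assoc]

theorem N7_omf_act (s : ℝ) (z : E6) : d.omf (act s .m z) = act s .f (d.omf z) := by
  have e : d.phH (act s .m z) = d.phH z + s := by simp [phH, act]; ring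
  simp only [omf, uL, wL, e, neg_add, ee_add]
  simp [act, tt, yc, mul_assoc]

theorem N7_opf_act (s : ℝ) (z : E6) : d.opf (act s .p z) = act s .f (d.opf z) := by
  have e : d.phH (d.pu (act s .p z)) = d.phH (d.pu z) + s := by simp [phH, act, pu, tt]; ring
  simp only [opf, uU, wU, e, neg_add, ee_add]
  simp [act, tt, yc, pu, mul_assoc]

theorem Ok.omf_g (h : d.Ok) (hz : |d.tt z| < 1 / 4) (s t n : ℤ) (e : Bool) :
    d.omf (d.gm (![s, t, 0, 0], n, false, e) z) = d.gf (s, t, e) (d.omf z) := by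
  have k : ∀ w, |d.tt w| < 1 / 4 → d.omf (d.Dm ![s, t, 0, 0] n w) = d.Df s t (d.omf w) :=
    fun w hw => by
      rw [← h.omf_shift hw, ← act_f_int n (d.omf (mk4 _ _ _)), ← N7_omf_act]
      simp [Dm, act, N7_rv]
  cases e
  · exact k z hz
  · have q0 := congrArg (cc 0) (h.lowF_io z)
    have q2 := congrArg (cc 2) (h.lowF_io z)
    have q1 : d.yc (io z) = -d.yc z := yc_neg rfl (xv_mk4 _ _ _)
    simp only [lowF, iof, cc_mkc0, cc_mkc2] at q0 q2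
    refine (k (io z) hz).trans (congrArg (d.Df s t) (?_ : _ = iof (d.omf z)))
    simp only [omf, iof, cc_mkc0, cc_mkc1, cc_mkc2, q0, q1, q2]

theorem Ok.opf_g (h : d.Ok) (hz : |d.tt z| < 1 / 4) (s t n : ℤ) (e : Bool) :
    d.opf (d.gp (![s, t, 0, 0], n, e) z) = d.gf (s, t, e) (d.opf z) := by
  have k : ∀ w, |d.tt w| < 1 / 4 → d.opf (d.Dp ![s, t, 0, 0] n w) = d.Df s t (d.opf w) :=
    fun w hw => by
      rw [← h.opf_shift hw, ← act_f_int n (d.opf (mk4 _ _ _)), ← N7_opf_act]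
      simp [Dp, act, N7_rv, rm_sub, bf_sub, bf_E23]
  cases e
  · exact k z hz
  · have q := h.uppF_io (d.pu z)
    have e : iop (d.pu z) = d.pu (iop z) := by
      simp only [iop, pu, tt, xv_mk4, mk4_10, mk4_11, mk4_20, mk4_21, Pi.neg_apply, xv_2, xv_3,
        neg_mul_neg, add_right_comm]
    rw [e] at q
    have q0 := congrArg (cc 0) q
    have q2 := congrArg (cc 2) q
    have q1 : d.yc (iop z) = -d.yc z := yc_neg rfl (xv_mk4 _ _ _)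
    simp only [uppF, iof, cc_mkc0, cc_mkc2] at q0 q2
    refine (k (iop z) hz).trans (congrArg (d.Df s t) (?_ : _ = iof (d.opf z)))
    simp only [opf, iof, cc_mkc0, cc_mkc1, cc_mkc2, q0, q1, q2]

theorem Ok.N7_Nf (h : d.Ok) (hz : z ∈ d.Nf) {s t : ℤ} {e : Bool} (hl : y (2, 0) = z (2, 0))
    (hx : xv y = cond e (-xv z) (xv z) + rv ![s, t, 0, 0]) : y ∈ d.Nf := by
  have k : d.hh (y (2, 0)) (xv y) = d.hh (z (2, 0)) (xv z) := by
    rw [hl, hx, N7_rv, (h.N7_hh ((h.Nf_small hz).1.le.trans (by norm_num)) _ _ _).2.2]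
    cases e
    · rfl
    · exact (rho_neg _ _).2.1
  have k' : d.tt y = d.tt z := by rw [tt, tt, hl]
  simpa only [Nf, mem_ofPred_eq, k, k'] using hz

theorem Ok.N7_lat (h : d.Ok) (hz : z ∈ d.Nf) (hy : y ∈ d.Nf) {l : L4} {e : Bool}
    (hx : xv y = cond e (-xv z) (xv z) + rv l) : l = ![l 0, l 1, 0, 0] := by
  obtain ⟨-, a1, a2⟩ := h.Nf_small hz
  obtain ⟨-, b1, b2⟩ := h.Nf_small hy
  have k : ∀ i, |xv z i| < 1 / 32 → |xv y i| < 1 / 32 → l i = 0 := fun i p q => by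
    have c : |(l i : ℝ)| < 1 := by
      rw [hx] at q
      rw [abs_lt] at p q ⊢
      cases e <;> simp only [cond, Pi.add_apply, Pi.neg_apply, rv_apply] at q <;>
        constructor <;> linarith only [p, q, p.1, p.2, q.1, q.2]
    exact Int.abs_lt_one_iff.1 (by exact_mod_cast c)
  ext i
  fin_cases i
  exacts [rfl, rfl, k 2 a1 b1, k 3 a2 b2]

theorem Ok.Nf_gm (h : d.Ok) (hz : z ∈ d.Nf) (s t n : ℤ) (e : Bool) :
    d.gm (![s, t, 0, 0], n, false, e) z ∈ d.Nf := by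
  exact h.N7_Nf hz (gm_level _ _) (gm_xv _ _)

theorem Ok.Nf_gp (h : d.Ok) (hz : z ∈ d.Nf) (s t n : ℤ) (e : Bool) :
    d.gp (![s, t, 0, 0], n, e) z ∈ d.Nf := by
  exact h.N7_Nf hz (gp_level _ _) (gp_xv _ _)

theorem Ok.gm_Nf (h : d.Ok) {γ : L4 × ℤ × Bool × Bool} (hz : z ∈ d.Nf) (hγ : d.gm γ z ∈ d.Nf) :
    ∃ s t n e, γ = (![s, t, 0, 0], n, false, e) := by
  obtain ⟨l, n, k, e⟩ := γ
  cases k
  · exact ⟨l 0, l 1, n, e, by rw [← h.N7_lat hz hγ (gm_xv _ _)]⟩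
  · have a := abs_lt.1 (h.Nf_small hz).1
    have b := abs_lt.1 (h.Nf_small hγ).1
    simp only [tt, gm_level, cond] at a b
    linarith only [a, b, h, h.hμ, a.1, b.1]

theorem Ok.gp_Nf (h : d.Ok) {γ : L4 × ℤ × Bool} (hz : z ∈ d.Nf) (hγ : d.gp γ z ∈ d.Nf) :
    ∃ s t n e, γ = (![s, t, 0, 0], n, e) := by
  obtain ⟨l, n, e⟩ := γ
  exact ⟨l 0, l 1, n, e, by rw [← h.N7_lat hz hγ (gp_xv _ _)]⟩

theorem omf_act (s : ℝ) (z : E6) : d.omf (act s .m z) = act s .f (d.omf z) := by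
  exact N7_omf_act s z

theorem opf_act (s : ℝ) (z : E6) : d.opf (act s .p z) = act s .f (d.opf z) := by
  exact N7_opf_act s z

theorem Ok.omf_opf (h : d.Ok) (hs : d.Smp z y) (hz : z ∈ d.Nf) :
    y ∈ d.Nf ∧ d.opf y = d.omf z := by
  have hl := h.Smp_lev hs
  obtain ⟨h1, -, hx, h0, he⟩ := hs
  obtain ⟨-, s1, s2⟩ := h.Nf_small hz
  have e1 : y (1, 0) = z (1, 0) := congrFun hx 2
  have e2 : y (1, 1) = z (1, 1) := congrFun hx 3
  rw [gz, h.hg.near _ _ s1.le s2.le] at he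
  have k := h.low_upp (y := d.pu y) (h.Nf_CL h1 hz) hl.1 (by simp [pu, hx]) h0 (by
    rw [pu, mk4_21, deriv_shf_low (by linarith only [hl, hl.2.1, hl.2.2.2.1]), sub_zero, one_mul, ee_add,
      mul_right_comm, he, mul_right_comm, ← ee_add, e1, e2, sub_add_cancel])
  refine ⟨?_, by rw [opf, omf, k.1, k.2, yc, yc, hx, h0]⟩
  simpa only [Nf, mem_ofPred_eq, hl.2.2.2.1, hx, h0] using hz

theorem Ok.omf_lev (h : d.Ok) (hz : z ∈ d.Wo .m) (hz' : z ∈ d.Nf) : d.omf z ∈ d.Wo .f ∧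
    d.nuF (d.omf z) = z (2, 0) ∧ cc 0 (d.omf z) ≠ 0 ∧
    normSq (cc 2 (d.omf z)) = d.hh (z (2, 0)) (xv z) := by
  obtain ⟨h0, h1, h2⟩ := h.low_norm (h.Nf_CL hz hz')
  refine ⟨⟨h1.trans_lt hz'.2.2, h2.trans_lt hz'.2.1⟩, ?_,
    normSq_pos.1 (h0.trans_eq h1.symm), h2⟩
  simp only [nuF, omf, cc_mkc0, cc_mkc2, h1, h2, tt]
  ring

theorem Ok.opf_lev (h : d.Ok) (hz : z ∈ d.Wo .p) (hz' : z ∈ d.Nf) : d.opf z ∈ d.Wo .f ∧
    d.nuF (d.opf z) = z (2, 0) ∧ cc 2 (d.opf z) ≠ 0 ∧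
    normSq (cc 2 (d.opf z)) = d.hh (z (2, 0)) (xv z) := by
  obtain ⟨h0, h1, h2⟩ := h.upp_norm (h.Nf_CU hz hz').2
  simp only [pu, tt, mk4_20, xv_mk4] at h0 h1 h2
  refine ⟨⟨h1.trans_lt hz'.2.2, h2.trans_lt hz'.2.1⟩, ?_,
    normSq_pos.1 (h0.trans_eq h2.symm), h2⟩
  simp only [nuF, opf, cc_mkc0, cc_mkc2, pu, tt, h1, h2]
  ring

theorem Ok.omf_inj (h : d.Ok) (hz : z ∈ d.Wo .m) (h1 : z ∈ d.Nf) (hz' : z' ∈ d.Wo .m)
    (h1' : z' ∈ d.Nf) (he : d.omf z = d.omf z') : ∃ n : ℤ, z' = d.Dm 0 n z := by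
  have c := h.Nf_CL hz h1
  have c' := h.Nf_CL hz' h1'
  obtain ⟨n, hn⟩ := h.lowF_inj c c' (by
    rw [← h.fF_omf c (by linarith only [h, h1, (h.Nf_small h1).1]), he,
      h.fF_omf c' (by linarith only [h, h1', (h.Nf_small h1').1])])
  exact ⟨n, hn.trans (act_m_int n z)⟩

theorem Ok.opf_inj (h : d.Ok) (hz : z ∈ d.Wo .p) (h1 : z ∈ d.Nf) (hz' : z' ∈ d.Wo .p)
    (h1' : z' ∈ d.Nf) (he : d.opf z = d.opf z') : ∃ n : ℤ, z' = d.Dp 0 n z := by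
  have c := (h.Nf_CU hz h1).2
  have c' := (h.Nf_CU hz' h1').2
  obtain ⟨n, hn⟩ := h.uppF_inj c c' (by
    rw [← h.fF_opf c (by linarith only [h, h1, (h.Nf_small h1).1]), he,
      h.fF_opf c' (by linarith only [h, h1', (h.Nf_small h1').1])])
  have e0 : z' (2, 0) = z (2, 0) := congrFun hn (2, 0)
  have e1 : z' (1, 0) = z (1, 0) := congrFun hn (1, 0)
  have e2 : z' (1, 1) = z (1, 1) := congrFun hn (1, 1)
  have e3 := congrFun hn (2, 1)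
  simp only [act, pu, tt, mk4_21, e0, e1, e2] at e3
  refine ⟨n, Eq.trans ?_ (act_p_int n z)⟩
  have e4 : z' (0, 0) = z (0, 0) := congrFun hn (0, 0)
  have e5 : z' (0, 1) = z (0, 1) := congrFun hn (0, 1)
  refine ext6 e4 e5 e1 e2 e0 ?_
  simp only [act, mk4_21]
  linarith only [e3]

theorem Ok.omf_surj (h : d.Ok) (hy : y ∈ d.Wo .f) (h0 : cc 0 y ≠ 0) :
    ∃ z ∈ d.Wo .m, z ∈ d.Nf ∧ d.omf z = y := by
  have u0 := normSq_nonneg (cc 0 y)
  have w0 := normSq_nonneg (cc 2 y)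
  obtain ⟨z, c, e⟩ := h.lowF_surj (y := d.fF y) h0
    (by simp only [nuF, M, fF, cc_mkc0, cc_mkc2]; linarith only [w0, hy, h, hy.1, h.hμ])
    (by simp only [tF, fF, cc_mkc0, cc_mkc2]; linarith only [u0, hy, hy.2])
  obtain ⟨-, h1, h2⟩ := h.low_norm c
  rw [show d.uL z = cc 0 y from congrArg (cc 0) e] at h1
  rw [show d.wL z = cc 2 y from congrArg (cc 2) e] at h2
  have hn : z ∈ d.Nf := ⟨c.2.1, h2 ▸ hy.2, h1 ▸ hy.1⟩
  obtain ⟨s0, s1, s2⟩ := h.Nf_small hn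
  have ht : |tF y| ≤ 1 / 4 := by rw [tF, abs_le]; constructor <;> linarith only [w0, hy, u0, hy.1, hy.2]
  refine ⟨z, ⟨?_, c.2.1, c.2.2.imp_left fun hq hg => hq ?_⟩, hn,
    (h.fF_inj ht (e.symm.trans (h.fF_omf c (by linarith only [s0])).symm)).symm⟩
  · have := (abs_lt.1 s0).1
    rw [tt] at this
    linarith only [this, h, h.hμ]
  · rw [gz, h.hg.near _ _ s1.le s2.le] at hg
    rw [← normSq_sig, hg, map_zero]

theorem Ok.opf_surj (h : d.Ok) (hy : y ∈ d.Wo .f) (h0 : 0 < tF y) :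
    ∃ z ∈ d.Wo .p, z ∈ d.Nf ∧ d.opf z = y := by
  have u0 := normSq_nonneg (cc 0 y)
  have t1 : tF y < 1 / 8 := by rw [tF]; linarith only [u0, hy, hy.2]
  obtain ⟨w, c, e⟩ := h.uppF_surj (y := d.fF y) h0 (t1.trans (by norm_num))
    (.inl (t1.trans (by norm_num)))
  obtain ⟨-, h1, h2⟩ := h.upp_norm c
  rw [show d.uU w = cc 0 y from congrArg (cc 0) e] at h1
  rw [show d.wU w = cc 2 y from congrArg (cc 2) e] at h2
  obtain ⟨z, rfl⟩ : ∃ z, d.pu z = w := ⟨mk4 (xv w) (w (2, 0))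
    (w (2, 1) - (1 - deriv shf (d.tt w)) * (w (1, 0) * w (1, 1)) / 2),
      ext4 (by simp [pu]) rfl (by simp [pu, tt])⟩
  simp only [pu, tt, mk4_20, xv_mk4] at h1 h2
  have hn : z ∈ d.Nf := ⟨by rw [tt]; linarith only [u0, h1, h2, hy, hy.2], h2 ▸ hy.2, (h1.symm.trans_lt hy.1 :)⟩
  exact ⟨z, ⟨c.1, c.2.1⟩, hn, (h.fF_inj (abs_le.2 ⟨by linarith only [h0, t1], by linarith only [h0, t1]⟩)
    (e.symm.trans (h.fF_opf c (by linarith only [h0, t1, h, hn, (h.Nf_small hn).1])).symm)).symm⟩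

theorem Ok.omf_ar (h : d.Ok) (hz : z ∈ d.Wo .m) (hz' : z ∈ d.Nf) :
    Ar (fun a b => a ∈ d.Wo .m ∧ a ∈ d.Nf ∧ b = d.omf a) z (d.omf z) d.omf ∧
      pb d.omf (d1 (d.lam .f)) z = d1 (d.lam .m) z := by
  have ho : IsOpen (d.Wo .m ∩ d.Nf) := (h.isOpen_Wo _).inter h.isOpen_Nf
  have hn := ho.mem_nhds ⟨hz, hz'⟩
  obtain ⟨h1, h2, h3⟩ := h.Nf_small hz'
  have hc := h.Nf_CL hz hz'
  have hs : ContDiffAt ℝ ∞ d.omf z :=
    contDiffAt_mkc (h.uL_sm hc).1 (h.yc_sm (by linarith only [h1])) (h.uL_sm hc).2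
  have ht : |tF (d.omf z)| < 1 / 4 := by
    have e : tF (d.omf z) = d.tt z := by
      rw [tF, omf, cc_mkc0, cc_mkc2, (h.low_norm hc).2.1, (h.low_norm hc).2.2]; ring
    rw [e]; linarith only [h1]
  have he : pb d.omf (d1 (d.lam .f)) z = d1 (d.lam .m) z := by
    rw [← pb_congr' (β := d1 (d.lam .f)) (h.fF_symp ht),
      ← pb_comp _ (hs.differentiableAt (by simp)) ((h.fF_sm ht).differentiableAt (by simp)),
      pb_congr (g := d.lowF) _ ?_, h.lowF_symp hc,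
      (h.lamL_m hz (Or.inr ⟨by linarith only [h2], by linarith only [h3]⟩)).2]
    filter_upwards [hn] with a ha
    exact h.fF_omf (h.Nf_CL ha.1 ha.2) (by linarith only [h, ha, (h.Nf_small ha.2).1])
  exact ⟨⟨hs, rfl, ND.inj (h.nd_m hz) he, by
    filter_upwards [hn] with a ha using ⟨ha.1, ha.2, rfl⟩⟩, he⟩

theorem Ok.opf_ar (h : d.Ok) (hz : z ∈ d.Wo .p) (hz' : z ∈ d.Nf) :
    Ar (fun a b => a ∈ d.Wo .p ∧ a ∈ d.Nf ∧ b = d.opf a) z (d.opf z) d.opf ∧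
      pb d.opf (d1 (d.lam .f)) z = d1 (d.lam .p) z := by
  have ho : IsOpen (d.Wo .p ∩ d.Nf) := (h.isOpen_Wo _).inter h.isOpen_Nf
  have hn := ho.mem_nhds ⟨hz, hz'⟩
  obtain ⟨h1, h2, h3⟩ := h.Nf_small hz'
  have hc := (h.Nf_CU hz hz').2
  have hp : ContDiffAt ℝ ∞ d.pu z := d.contDiff_pu.contDiffAt
  have hs : ContDiffAt ℝ ∞ d.opf z :=
    contDiffAt_mkc ((h.uU_sm hc).1.comp z hp) (h.yc_sm (by linarith only [h1])) ((h.uU_sm hc).2.comp z hp)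
  have ht : |tF (d.opf z)| < 1 / 4 := by
    have e : tF (d.opf z) = d.tt z := by
      rw [tF, opf, cc_mkc0, cc_mkc2, (h.upp_norm hc).2.1, (h.upp_norm hc).2.2,
        show d.tt (d.pu z) = d.tt z from rfl]; ring
    rw [e]; linarith only [h1]
  have he : pb d.opf (d1 (d.lam .f)) z = d1 (d.lam .p) z := by
    rw [← pb_congr' (β := d1 (d.lam .f)) (h.fF_symp ht),
      ← pb_comp _ (hs.differentiableAt (by simp)) ((h.fF_sm ht).differentiableAt (by simp)),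
      pb_congr (g := fun a => d.uppF (d.pu a)) _ ?_,
      pb_comp _ (hp.differentiableAt (by simp)) ((h.uppF_sm hc).differentiableAt (by simp)),
      pb_congr' (h.uppF_symp hc), h.pu_symp hz h2 h3]
    filter_upwards [hn] with a ha
    exact h.fF_opf (h.Nf_CU ha.1 ha.2).2 (by linarith only [h, ha, (h.Nf_small ha.2).1])
  exact ⟨⟨hs, rfl, ND.inj (h.nd_p hz) he, by
    filter_upwards [hn] with a ha using ⟨ha.1, ha.2, rfl⟩⟩, he⟩

theorem Ok.omf_iff (h : d.Ok) (hz : z ∈ d.Wo .m) (h1 : z ∈ d.Nf) (hz' : z' ∈ d.Wo .m)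
    (h1' : z' ∈ d.Nf) : (∃ γ, d.gm γ z = z') ↔ ∃ γ, d.gf γ (d.omf z) = d.omf z' := by
  have ht : |d.tt z| < 1 / 4 := by linarith only [h, h1, (h.Nf_small h1).1]
  constructor
  · rintro ⟨γ, rfl⟩
    obtain ⟨s, t, n, e, rfl⟩ := h.gm_Nf h1 h1'
    exact ⟨_, (h.omf_g ht s t n e).symm⟩
  · rintro ⟨⟨s, t, e⟩, he⟩
    obtain ⟨n, rfl⟩ := h.omf_inj (h.gm_mem (![s, t, 0, 0], 0, false, e) hz (by simp))
      (h.Nf_gm h1 s t 0 e) hz' h1' ((h.omf_g ht s t 0 e).trans he)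
    exact ⟨(![s, t, 0, 0], 0 + n, false, e), (Dm_add _ _ _ _).symm⟩

theorem Ok.opf_iff (h : d.Ok) (hz : z ∈ d.Wo .p) (h1 : z ∈ d.Nf) (hz' : z' ∈ d.Wo .p)
    (h1' : z' ∈ d.Nf) : (∃ γ, d.gp γ z = z') ↔ ∃ γ, d.gf γ (d.opf z) = d.opf z' := by
  have ht : |d.tt z| < 1 / 4 := by linarith only [h, h1, (h.Nf_small h1).1]
  constructor
  · rintro ⟨γ, rfl⟩
    obtain ⟨s, t, n, e, rfl⟩ := h.gp_Nf h1 h1'
    exact ⟨_, (h.opf_g ht s t n e).symm⟩
  · rintro ⟨⟨s, t, e⟩, he⟩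
    obtain ⟨n, rfl⟩ := h.opf_inj ((gp_mem (![s, t, 0, 0], 0, e)).2 hz)
      (h.Nf_gp h1 s t 0 e) hz' h1' ((h.opf_g ht s t 0 e).trans he)
    exact ⟨(![s, t, 0, 0], 0 + n, e), (Dp_add _ _ _ _).symm⟩

theorem Ok.ompf_iff (h : d.Ok) (hz : z ∈ d.Wo .m) (h1 : z ∈ d.Nf) (hy : y ∈ d.Wo .p)
    (h1' : y ∈ d.Nf) : (∃ l n e, d.Smp (d.gm (l, n, false, e) z) y) ↔
      ∃ γ, d.gf γ (d.omf z) = d.opf y := by
  have ht : |d.tt z| < 1 / 4 := by linarith only [h, h1, (h.Nf_small h1).1]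
  constructor
  · rintro ⟨l, n, e, hs⟩
    have hm : d.gm (l, n, false, e) z ∈ d.Nf := by
      simpa only [Nf, tt, mem_ofPred_eq, hs.2.2.1, hs.2.2.2.1] using h1'
    obtain ⟨s, t, n', e', hγ⟩ := h.gm_Nf h1 hm
    exact ⟨(s, t, e'), by rw [(h.omf_opf hs hm).2, hγ, h.omf_g ht]⟩
  · rintro ⟨⟨s, t, e⟩, he⟩
    have hw := h.gm_mem (![s, t, 0, 0], 0, false, e) hz (by simp)
    have hm := h.Nf_gm h1 s t 0 e
    rw [← h.omf_g ht s t 0 e] at he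
    have hl := (h.omf_lev hw hm).2.1
    rw [he, (h.opf_lev hy h1').2.1] at hl
    obtain ⟨y', hs⟩ := h.exists_p hw (by rw [tt, ← hl]; exact hy.1)
    obtain ⟨n, rfl⟩ := h.opf_inj hs.2.1 (h.omf_opf hs hm).1 hy h1'
      ((h.omf_opf hs hm).2.trans he)
    exact ⟨_, 0, e, by simpa only [Dm_zero] using h.Smp_Dm hs 0 0 n⟩

/-- The function `hh` at the nearest lattice point. -/
noncomputable def N7_f (d : HD) (z : E6) : ℝ :=
  d.hh (z (2, 0)) ![0, 0, |rd (z (1, 0))|, |rd (z (1, 1))|]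

theorem Ok.N7_rd (h : d.Ok) (ht : |d.tt z| ≤ 1 / 4) (h0 : y (2, 0) = z (2, 0))
    (h1 : y (1, 0) = rd (z (1, 0))) (h2 : y (1, 1) = rd (z (1, 1))) :
    d.hh (y (2, 0)) (xv y) = d.N7_f z := by
  simp [N7_f, hh, ex, (h.normSq_z1 ht _).1, qq, h0, h1, h2]

theorem N7_eq {l : L4} {e : Bool} (h0 : y (2, 0) = z (2, 0))
    (hx : xv y = cond e (-xv z) (xv z) + rv l) : d.N7_f y = d.N7_f z := by
  have h1 : y (1, 0) = _ := congrFun hx 2
  have h2 : y (1, 1) = _ := congrFun hx 3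
  cases e <;> simp [N7_f, h0, h1, h2, rv_apply, rd_add_int, abs_rd_neg]

theorem Ok.N7_R (h : d.Ok) {i i' : Unit ⊕ Unit} (hr : d.atlMP.R i z i' y) (hy : y ∈ d.Nf) :
    y (2, 0) = z (2, 0) ∧ d.N7_f y = d.N7_f z := by
  have A : ∀ {z y l n e}, d.Smp (d.gm (l, n, false, e) z) y →
      y (2, 0) = z (2, 0) ∧ d.N7_f y = d.N7_f z := fun {z y l n e} k => by
    have k0 := k.2.2.2.1.trans (gm_level _ z)
    exact ⟨k0, N7_eq k0 (k.2.2.1.trans (gm_xv _ z))⟩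
  rcases i with _ | _ <;> rcases i' with _ | _
  · obtain ⟨hz, -, ⟨l, n, _ | _, e⟩, rfl⟩ := hr
    · exact ⟨gm_level _ z, N7_eq (gm_level _ z) (gm_xv _ z)⟩
    · have k := (abs_lt.1 (h.Nf_small hy).1).1
      rw [tt, gm_level] at k
      exact absurd hz.1 (by have := h.hμ; simp only [cond_true] at k; linarith only [k, this])
  · obtain ⟨l, n, e, k⟩ := h.bar_mp.1 hr
    exact A k
  · obtain ⟨l, n, e, k⟩ := (h.bar_mp (z := y) (y := z)).1 hr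
    exact (A k).imp Eq.symm Eq.symm
  · obtain ⟨-, -, γ, rfl⟩ := hr
    exact ⟨gp_level _ z, N7_eq (gp_level _ z) (gp_xv _ z)⟩

theorem Ok.N7_bar (h : d.Ok) {i : Unit ⊕ Unit} {j : Unit}
    (hb : Bar d.atlMP (orb (d.Wo .f) d.gf) d.Sf i z j y) :
    normSq (cc 2 y) = d.N7_f z ∧ d.nuF y = z (2, 0) := by
  obtain ⟨i', x, j', y', hr, hs, -, -, γ, rfl⟩ := hb
  have k : x ∈ d.Nf ∧ d.nuF y' = x (2, 0) ∧ normSq (cc 2 y') = d.hh (x (2, 0)) (xv x) := by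
    rcases i' with _ | _ <;> obtain ⟨a, b, rfl⟩ := hs
    · exact ⟨b, (h.omf_lev a b).2.1, (h.omf_lev a b).2.2.2⟩
    · exact ⟨b, (h.opf_lev a b).2.1, (h.opf_lev a b).2.2.2⟩
  obtain ⟨k1, k2, k3⟩ := h.Nf_small k.1
  obtain ⟨r1, r2⟩ := h.N7_R hr k.1
  rw [nuF, (gf_norm γ y').1, (gf_norm γ y').2.1, ← nuF, k.2.1, k.2.2, ← r2, r1]
  exact ⟨r1 ▸ h.N7_rd (by linarith only [k1]) rfl (rd_eq (by linarith only [k2])).1.symm (rd_eq (by linarith only [k3])).1.symm,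
    rfl⟩

theorem Ok.gok_f (h : d.Ok) : GOk d.atlMP (orb (d.Wo .f) d.gf) d.Sf := by
  refine ⟨?_, ?_, ?_, ?_⟩
  · rintro (_ | _) x j y ⟨a, b, rfl⟩
    exacts [⟨a, (h.omf_lev a b).1⟩, ⟨a, (h.opf_lev a b).1⟩]
  · rintro (_ | _) x j y ⟨a, b, rfl⟩
    exacts [⟨_, (h.omf_ar a b).1⟩, ⟨_, (h.opf_ar a b).1⟩]
  · have P := pre0_orb (h.isOpen_Wo .f) d.grp_f
    have A : ∀ {x x'}, x ∈ d.Wo .m → x ∈ d.Nf → x' ∈ d.Wo .p → x' ∈ d.Nf →
        (d.atlMP.R (.inl ()) x (.inr ()) x' ↔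
          (orb (d.Wo .f) d.gf).R () (d.omf x) () (d.opf x')) := fun a b a' b' =>
      (h.bar_mp.trans (h.ompf_iff a b a' b')).trans
        ⟨fun k => ⟨(h.omf_lev a b).1, (h.opf_lev a' b').1, k⟩, fun k => k.2.2⟩
    rintro (_ | _) x j y (_ | _) x' j' y' ⟨a, b, rfl⟩ ⟨a', b', rfl⟩
    · exact ⟨fun k => ⟨(h.omf_lev a b).1, (h.omf_lev a' b').1, (h.omf_iff a b a' b').1 k.2.2⟩,
        fun k => ⟨a, a', (h.omf_iff a b a' b').2 k.2.2⟩⟩
    · exact A a b a' b'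
    · exact (A a' b' a b).trans ⟨P.symm, P.symm⟩
    · exact ⟨fun k => ⟨(h.opf_lev a b).1, (h.opf_lev a' b').1, (h.opf_iff a b a' b').1 k.2.2⟩,
        fun k => ⟨a, a', (h.opf_iff a b a' b').2 k.2.2⟩⟩
  · intro i x j y hx hy hc
    have c0 : ∀ i, Continuous fun z : E6 => |rd (z i)| := fun i =>
      continuous_abs_rd.comp (continuous_apply i)
    have c1 : Continuous d.N7_f := h.hh_cont.comp (f := fun z : E6 =>
      (z (2, 0), ![0, 0, |rd (z (1, 0))|, |rd (z (1, 1))|])) (by fun_prop)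
    obtain ⟨e1, e2⟩ : normSq (cc 2 y) = d.N7_f x ∧ d.nuF y = x (2, 0) :=
      closure_minimal (fun p hp => h.N7_bar hp) ((isClosed_eq
        (continuous_normSq.comp ((continuous_cc 2).comp continuous_snd))
        (c1.comp continuous_fst)).inter (isClosed_eq
          (contDiff_nuF.continuous.comp continuous_snd)
          ((continuous_apply (2, 0)).comp continuous_fst))) hc
    have n0 := normSq_nonneg (cc 0 y)
    have n2 := normSq_nonneg (cc 2 y)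
    obtain ⟨y0, y2⟩ := hy
    rw [nuF] at e2
    have N : ∀ {w : E6}, w (2, 0) = x (2, 0) →
        xv w = xv x + rv ![0, 0, -round (x (1, 0)), -round (x (1, 1))] → w ∈ d.Nf :=
      fun {w} w0 wx => by
        have k := h.N7_rd (y := w) (z := x) (abs_le.2 ⟨by rw [tt]; linarith only [e2, n2, y0], by rw [tt]; linarith only [e2, n0, y2]⟩)
          w0 ((congrFun wx 2).trans (by simp [rv_apply, rd, sub_eq_add_neg]))
          ((congrFun wx 3).trans (by simp [rv_apply, rd, sub_eq_add_neg]))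
        refine ⟨?_, ?_, ?_⟩ <;> simp only [tt, k] <;> linarith only [e2, n0, y2, w0, e1, y0]
    rcases i with _ | _
    · have a := h.gm_mem (![0, 0, -round (x (1, 0)), -round (x (1, 1))], 0, false, false) hx
        (by simp)
      exact ⟨.inl (), _, (), _, ⟨hx, a, _, rfl⟩, a, N (gm_level _ x) (gm_xv _ x), rfl⟩
    · have a := (gp_mem (![0, 0, -round (x (1, 0)), -round (x (1, 1))], 0, false)).2 hx
      exact ⟨.inr (), _, (), _, ⟨hx, a, _, rfl⟩, a, N (gp_level _ x) (gp_xv _ x), rfl⟩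

end HD

end Pool.Agent.Work.MP_bf98aa_gt.B3
end

-- merged part: Pool.Agent.Work.MP_bf98aa_gt.B3.N8
section
/-!
The relation on a half without holes.

PLAN. Unfold `atlO`, `comap`, `glue`, `Bar`, `orb`; use the group laws (`Grp`), `bar_mp`, `Smp_g`, `omf_g`, `opf_g`, `omf_opf`. For `R_mf`: if the chain passes through `p` (`Smp (gm γ x) y'`, `gp γ' y' ∈ Nf`), move `γ'` to `m` by `Smp_g`,
then `hh` depends only on `xv` and the level, so the point of `m` is in `Nf`. For `R_pf` through `m`: the same with `Smp_g` for the inverse.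
`invF_half`: `InvF.comap`, `GOk.invF` twice, `invF_orb`; the family on the glued index set is `Sum.elim (Sum.elim (fun _ => α .m) fun _ => α .p) fun _ => α .f`.
-/

set_option autoImplicit false

open scoped Manifold ContDiff Topology Matrix ComplexConjugate
open Set Complex Filter

namespace Pool.Agent.Work.MP_bf98aa_gt.B3

open Pool.Agent.Work.MP_bf98aa_gt.Th Pool.Agent.Work.MP_bf98aa_gt.Cy

namespace HD

variable {d : HD} {x y : E6} {c c' : K3} {k : ℕ}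

theorem atlO_W (c : K3) : d.atlO.W c = d.Wo c := by
  cases c <;> rfl

theorem Ok.pre0_half (h : d.Ok) : Pre0 d.atlO :=
  (h.gok_f.pre0 h.pre0_mp (pre0_orb (h.isOpen_Wo _) d.grp_f)).comap _

theorem R_mm : d.atlO.R .m x .m y ↔ x ∈ d.Wo .m ∧ y ∈ d.Wo .m ∧ ∃ γ, d.gm γ x = y := Iff.rfl

theorem R_pp : d.atlO.R .p x .p y ↔ x ∈ d.Wo .p ∧ y ∈ d.Wo .p ∧ ∃ γ, d.gp γ x = y := Iff.rfl

theorem R_ff : d.atlO.R .f x .f y ↔ x ∈ d.Wo .f ∧ y ∈ d.Wo .f ∧ ∃ γ, d.gf γ x = y := Iff.rfl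

theorem Ok.R_mp (h : d.Ok) :
    d.atlO.R .m x .p y ↔ ∃ l n e, d.Smp (d.gm (l, n, false, e) x) y := h.bar_mp

theorem Ok.R_mp' (h : d.Ok) : d.atlO.R .m x .p y ↔ ∃ γ, d.Smp x (d.gp γ y) := by
  constructor
  · intro hr
    obtain ⟨l, n, e, hs⟩ := h.R_mp.1 hr
    obtain ⟨l', n', hi⟩ := N1_m_inv (d := d) l n
    have h1 := h.Smp_Dm hs l' n' 0
    rw [show d.gm (l, n, false, e) x = d.Dm l n (cond e io id x) from rfl, hi] at h1
    cases e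
    · exact ⟨(l', 0, false), h1⟩
    · obtain ⟨n'', h2⟩ := iop_Dp (d := d) l' 0
      have h3 := h.Smp_io h1
      rw [show cond true io id x = io x from rfl, io_io, h2] at h3
      exact ⟨(-l', n'', true), h3⟩
  · rintro ⟨γ, hs⟩
    obtain ⟨γ₀, h0⟩ := h.grp_m.one
    obtain ⟨γ', h1⟩ := d.grp_p.inv γ
    exact ⟨(), x, (), d.gp γ y, ⟨hs.1, hs.1, γ₀, h0 x⟩, hs,
      hs.2.1, (gp_mem γ).1 hs.2.1, γ', h1 y⟩

theorem N8_Nf (hx : xv y = xv x) (hl : y (2, 0) = x (2, 0)) : y ∈ d.Nf ↔ x ∈ d.Nf := by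
  simp only [Nf, tt, mem_ofPred_eq, hx, hl]

theorem N8_act (hx : x ∈ d.Nf) (s : ℝ) : act s .m x ∈ d.Nf ∧ act s .p x ∈ d.Nf :=
  ⟨(N8_Nf (xv_mk4 _ _ _) (mk4_20 _ _ _)).2 hx, (N8_Nf (xv_mk4 _ _ _) (mk4_20 _ _ _)).2 hx⟩

theorem Ok.N8_nok (h : d.Ok) {γ : L4 × ℤ × Bool × Bool} (hx : x ∈ d.Wo .m)
    (hγ : d.gm γ x ∈ d.Nf) : ∃ l n e, γ = (l, n, false, e) := by
  obtain ⟨l, n, b, e⟩ := γ
  cases b
  · exact ⟨l, n, e, rfl⟩
  · have h1 := (abs_lt.1 (h.Nf_small hγ).1).1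
    have h2 : d.gm (l, n, true, e) x (2, 0) = -x (2, 0) := gm_level _ x
    have h3 : -1 / 8 < x (2, 0) := hx.1
    have h4 := h.hμ
    simp only [tt, h2] at h1
    exfalso
    linarith only [h3, h4, h1]

theorem Ok.N8_mf (h : d.Ok) {γ : L4 × ℤ × Bool × Bool} {γ' : ℤ × ℤ × Bool} (hx : x ∈ d.Wo .m)
    (hγ : d.gm γ x ∈ d.Nf) (hy : d.gf γ' (d.omf (d.gm γ x)) = y) : ∃ l n e,
      d.gm (l, n, false, e) x ∈ d.Nf ∧ y = d.omf (d.gm (l, n, false, e) x) := by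
  obtain ⟨s, t, e⟩ := γ'
  obtain ⟨γ₃, h3⟩ := h.grp_m.mul γ (![s, t, 0, 0], 0, false, e)
  have h1 := h.Nf_gm hγ s t 0 e
  rw [← h.omf_g ((h.Nf_small hγ).1.trans (by norm_num)) s t 0 e] at hy
  rw [← h3] at h1 hy
  obtain ⟨l, n, e', rfl⟩ := h.N8_nok hx h1
  exact ⟨l, n, e', h1, hy.symm⟩

theorem Ok.N8_pf (h : d.Ok) {γ : L4 × ℤ × Bool} {γ' : ℤ × ℤ × Bool}
    (hγ : d.gp γ x ∈ d.Nf) (hy : d.gf γ' (d.opf (d.gp γ x)) = y) :
    ∃ γ, d.gp γ x ∈ d.Nf ∧ y = d.opf (d.gp γ x) := by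
  obtain ⟨s, t, e⟩ := γ'
  obtain ⟨γ₃, h3⟩ := d.grp_p.mul γ (![s, t, 0, 0], 0, e)
  have h1 := h.Nf_gp hγ s t 0 e
  rw [← h.opf_g ((h.Nf_small hγ).1.trans (by norm_num)) s t 0 e] at hy
  rw [← h3] at h1 hy
  exact ⟨γ₃, h1, hy.symm⟩

theorem Ok.R_mf (h : d.Ok) : d.atlO.R .m x .f y ↔ x ∈ d.Wo .m ∧ ∃ l n e,
    d.gm (l, n, false, e) x ∈ d.Nf ∧ y = d.omf (d.gm (l, n, false, e) x) := by
  constructor
  · rintro ⟨i, x', j, y', h1, h2, -, -, γ', h3⟩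
    have hx : x ∈ d.Wo .m := (h.pre0_mp.mem h1).1
    refine ⟨hx, ?_⟩
    rcases i with i | i
    · obtain ⟨-, -, γ, rfl⟩ := h1
      obtain ⟨-, h4, rfl⟩ := h2
      exact h.N8_mf hx h4 h3
    · obtain ⟨l, n, e, hs⟩ := h.bar_mp.1 h1
      obtain ⟨-, h4, rfl⟩ := h2
      have h5 := (N8_Nf hs.2.2.1 hs.2.2.2.1).1 h4
      rw [(h.omf_opf hs h5).2] at h3
      exact h.N8_mf hx h5 h3
  · rintro ⟨hx, l, n, e, h1, rfl⟩
    have h2 := h.gm_mem (l, n, false, e) hx fun a => nomatch a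
    have h3 := (h.omf_lev h2 h1).1
    obtain ⟨γ₀, h0⟩ := d.grp_f.one
    exact ⟨.inl (), _, (), _, ⟨hx, h2, _, rfl⟩, ⟨h2, h1, rfl⟩, h3, h3, γ₀, h0 _⟩

theorem Ok.R_pf (h : d.Ok) :
    d.atlO.R .p x .f y ↔ x ∈ d.Wo .p ∧ ∃ γ, d.gp γ x ∈ d.Nf ∧ y = d.opf (d.gp γ x) := by
  constructor
  · rintro ⟨i, x', j, y', h1, h2, -, -, γ', h3⟩
    refine ⟨(h.pre0_mp.mem h1).1, ?_⟩
    rcases i with i | i
    · obtain ⟨γ, hs⟩ := h.R_mp'.1 (show d.atlO.R .m x' .p x from h1)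
      obtain ⟨-, h4, rfl⟩ := h2
      obtain ⟨h5, h6⟩ := h.omf_opf hs h4
      rw [← h6] at h3
      exact h.N8_pf h5 h3
    · obtain ⟨-, -, γ, rfl⟩ := h1
      obtain ⟨-, h4, rfl⟩ := h2
      exact h.N8_pf h4 h3
  · rintro ⟨hx, γ, h1, rfl⟩
    have h2 := (gp_mem γ).2 hx
    have h3 := (h.opf_lev h2 h1).1
    obtain ⟨γ₀, h0⟩ := d.grp_f.one
    exact ⟨.inr (), _, (), _, ⟨hx, h2, _, rfl⟩, ⟨h2, h1, rfl⟩, h3, h3, γ₀, h0 _⟩

/-- The level on the charts of the neck. -/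
noncomputable def lev (d : HD) : K3 → E6 → ℝ
  | .f, z => d.nuF z
  | _, z => z (2, 0)

theorem Ok.N8_lmp (h : d.Ok) (hr : d.atlO.R .m x .p y) : d.lev .p y = d.lev .m x := by
  obtain ⟨l, n, e, hs⟩ := h.R_mp.1 hr
  exact hs.2.2.2.1.trans (gm_level (l, n, false, e) x)

theorem Ok.N8_lmf (h : d.Ok) (hr : d.atlO.R .m x .f y) : d.lev .f y = d.lev .m x := by
  obtain ⟨hx, l, n, e, h1, rfl⟩ := h.R_mf.1 hr
  exact (h.omf_lev (h.gm_mem (l, n, false, e) hx fun a => nomatch a) h1).2.1.trans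
    (gm_level (l, n, false, e) x)

theorem Ok.N8_lpf (h : d.Ok) (hr : d.atlO.R .p x .f y) : d.lev .f y = d.lev .p x := by
  obtain ⟨hx, γ, h1, rfl⟩ := h.R_pf.1 hr
  exact (h.opf_lev ((gp_mem γ).2 hx) h1).2.1.trans (gp_level γ x)

theorem Ok.R_lev (h : d.Ok) (hr : d.atlO.R c x c' y) : d.lev c' y = d.lev c x ∨
    (c = .m ∧ c' = .m ∧ |x (2, 0)| < 1 / 8 ∧ y (2, 0) = -x (2, 0)) := by
  have hr' := h.pre0_half.symm hr
  cases c <;> cases c'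
  · obtain ⟨hx, hy, ⟨l, n, b, e⟩, rfl⟩ := R_mm.1 hr
    cases b
    · exact .inl (gm_level (l, n, false, e) x)
    · exact .inr ⟨rfl, rfl, h.gm_ka hx hy rfl, gm_level (l, n, true, e) x⟩
  · exact .inl (h.N8_lmp hr)
  · exact .inl (h.N8_lmf hr)
  · exact .inl (h.N8_lmp hr').symm
  · obtain ⟨-, -, γ, rfl⟩ := R_pp.1 hr
    exact .inl (gp_level γ x)
  · exact .inl (h.N8_lpf hr)
  · exact .inl (h.N8_lmf hr').symm
  · exact .inl (h.N8_lpf hr').symm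
  · obtain ⟨-, -, γ, rfl⟩ := R_ff.1 hr
    obtain ⟨h1, h2, -⟩ := gf_norm (d := d) γ x
    exact .inl (by simp only [lev, nuF, h1, h2])

theorem Ok.N8_amp (h : d.Ok) (hr : d.atlO.R .m x .p y) (s : ℝ) :
    d.atlO.R .m (act s .m x) .p (act s .p y) := by
  obtain ⟨l, n, e, hs⟩ := h.R_mp.1 hr
  refine h.R_mp.2 ⟨l, n, e, ?_⟩
  rw [gm_act]
  exact h.Smp_act hs s

theorem Ok.N8_amf (h : d.Ok) (hr : d.atlO.R .m x .f y) (s : ℝ) :
    d.atlO.R .m (act s .m x) .f (act s .f y) := by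
  obtain ⟨hx, l, n, e, h1, rfl⟩ := h.R_mf.1 hr
  refine h.R_mf.2 ⟨(act_mem s _).2 hx, l, n, e, ?_⟩
  rw [gm_act]
  exact ⟨(N8_act h1 s).1, (omf_act s _).symm⟩

theorem Ok.N8_apf (h : d.Ok) (hr : d.atlO.R .p x .f y) (s : ℝ) :
    d.atlO.R .p (act s .p x) .f (act s .f y) := by
  obtain ⟨hx, γ, h1, rfl⟩ := h.R_pf.1 hr
  refine h.R_pf.2 ⟨(act_mem s _).2 hx, γ, ?_⟩
  rw [gp_act]
  exact ⟨(N8_act h1 s).2, (opf_act s _).symm⟩

theorem Ok.R_act (h : d.Ok) (hr : d.atlO.R c x c' y) (s : ℝ) :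
    d.atlO.R c (act s c x) c' (act s c' y) ∨
      (c = .m ∧ c' = .m ∧ |x (2, 0)| < 1 / 8 ∧ d.atlO.R c (act s c x) c' (act (-s) c' y)) := by
  have hs := @Pre0.symm _ _ h.pre0_half
  cases c <;> cases c'
  · obtain ⟨hx, hy, ⟨l, n, b, e⟩, rfl⟩ := R_mm.1 hr
    cases b
    · exact .inl (R_mm.2 ⟨(act_mem s _).2 hx, (act_mem s _).2 hy, _, gm_act (l, n, false, e) s x⟩)
    · exact .inr ⟨rfl, rfl, h.gm_ka hx hy rfl,
        R_mm.2 ⟨(act_mem s _).2 hx, (act_mem (-s) _).2 hy, _, gm_act (l, n, true, e) s x⟩⟩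
  · exact .inl (h.N8_amp hr s)
  · exact .inl (h.N8_amf hr s)
  · exact .inl (hs (h.N8_amp (hs hr) s))
  · obtain ⟨hx, hy, γ, rfl⟩ := R_pp.1 hr
    exact .inl (R_pp.2 ⟨(act_mem s _).2 hx, (act_mem s _).2 hy, γ, gp_act γ s x⟩)
  · exact .inl (h.N8_apf hr s)
  · exact .inl (hs (h.N8_amf (hs hr) s))
  · exact .inl (hs (h.N8_apf (hs hr) s))
  · obtain ⟨hx, hy, γ, rfl⟩ := R_ff.1 hr
    exact .inl (R_ff.2 ⟨(act_mem s _).2 hx, (act_mem s _).2 hy, γ, gf_act γ s x⟩)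

/-- Invariance of a family of forms under the generating arrows of a half. -/
structure Arr (d : HD) (α : K3 → Fm E6 k) : Prop where
  m : ∀ γ, ∀ z ∈ d.Wo .m, d.gm γ z ∈ d.Wo .m → pb (d.gm γ) (α .m) z = α .m z
  p : ∀ γ, ∀ z ∈ d.Wo .p, pb (d.gp γ) (α .p) z = α .p z
  f : ∀ γ, ∀ z ∈ d.Wo .f, pb (d.gf γ) (α .f) z = α .f z
  mp : ∀ z y, d.Smp z y → ∃ g, Ar d.Smp z y g ∧ pb g (α .p) z = α .m z
  mf : ∀ z ∈ d.Wo .m, z ∈ d.Nf → pb d.omf (α .f) z = α .m z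
  pf : ∀ z ∈ d.Wo .p, z ∈ d.Nf → pb d.opf (α .f) z = α .p z

theorem Ok.invF_half (h : d.Ok) {α : K3 → Fm E6 k} (ha : d.Arr α) : InvF d.atlO α := by
  have h1 := h.gok_mp.invF (pre0_orb (h.isOpen_Wo _) h.grp_m) (pre0_orb (h.isOpen_Wo _) d.grp_p)
    (invF_orb (h.isOpen_Wo _) h.grp_m ha.m)
    (invF_orb (h.isOpen_Wo _) d.grp_p fun γ z hz _ => ha.p γ z hz) fun _ z _ w hs => ha.mp z w hs
  have h2 := h.gok_f.invF h.pre0_mp (pre0_orb (h.isOpen_Wo _) d.grp_f) h1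
    (invF_orb (h.isOpen_Wo _) d.grp_f fun γ z hz _ => ha.f γ z hz) (by
      rintro (i | i) z j w ⟨a, b, rfl⟩
      exacts [⟨_, (h.omf_ar a b).1, ha.mf z a b⟩, ⟨_, (h.opf_ar a b).1, ha.pf z a b⟩])
  have h3 := h2.comap fun c : K3 => match c with
    | .m => .inl (.inl ())
    | .p => .inl (.inr ())
    | .f => .inr ()
  intro i z j w hr
  obtain ⟨g, h4, h5⟩ := h3 i z j w hr
  refine ⟨g, h4, ?_⟩
  cases i <;> cases j <;> exact h5

theorem Ok.arr_lam (h : d.Ok) : d.Arr fun c => d1 (d.lam c) :=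
  ⟨fun γ _ hz hγ => h.gm_symp γ hz hγ, fun γ _ hz => h.gp_symp γ hz, fun γ z _ => gf_symp γ z,
    fun _ _ hs => h.Smp_ar hs, fun _ hz hz' => (h.omf_ar hz hz').2,
    fun _ hz hz' => (h.opf_ar hz hz').2⟩

end HD

end Pool.Agent.Work.MP_bf98aa_gt.B3
end

-- merged part: Pool.Agent.Work.MP_bf98aa_gt.B3.N9
section
/-!
The neck without holes.

PLAN. `gl_Dp`: `slope` (`bf_pull`, `rm_mul`), and `(G l) i ≡ l i` mod 2 (`two`), so `l 2 (1 + l 3) + (G l) 2 (1 + (G l) 3)` is even. `gl_symp`: `lam_mid` on both sides, `GD.Ok.Om_up`;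
`pb1 (gl b) (lamO Om') = lamO Om - (M + M') dφ` on the band. `gok_g`: `R_pp`; for `clo` use the levels (`R_lev`): related pairs have `lev c x + lev c' y = M + M'` with `7 / 8 < lev c x - μ₁`, which forces `c = c' = p`; in the limit
`lev x - μ₁ = 2 - (lev y - μ₁') > 7 / 8`. `R_cross`: for `b = true` unfold `Bar`, for `b = false` use symmetry, `gl_gl`, `gl_gp`.
-/

set_option autoImplicit false

open scoped Manifold ContDiff Topology Matrix ComplexConjugate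
open Set Complex Filter

namespace Pool.Agent.Work.MP_bf98aa_gt.B3

open Pool.Agent.Work.MP_bf98aa_gt.Th Pool.Agent.Work.MP_bf98aa_gt.Cy

namespace GD

variable {D : GD} {x y z : E6} {b b' : Bool} {c c' : K3} {k : ℕ}

theorem Ok.gl_gl (h : D.Ok) (b : Bool) (z : E6) : D.gl (!b) (D.gl b z) = z := by
  refine ext4 ?_ ?_ (neg_neg _)
  · simp only [gl, xv_mk4, Matrix.mulVec_mulVec, h.rGG, Matrix.one_mulVec]
  · simp only [gl, mk4_20, Bool.not_not]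
    ring

theorem contDiff_gl (D : GD) (b : Bool) : ContDiff ℝ ∞ (D.gl b) := by
  refine contDiff_iff_contDiffAt.2 fun z => ?_
  unfold gl
  fun_prop

theorem gl_tt (b : Bool) (z : E6) : (D.H (!b)).tt (D.gl b z) = 2 - (D.H b).tt z := by
  simp only [HD.tt, gl, mk4_20, HD.M]
  ring

theorem gl_act (b : Bool) (s : ℝ) (z : E6) : D.gl b (act s .p z) = act (-s) .p (D.gl b z) := by
  refine ext4 ?_ ?_ ?_ <;> simp -implicitDefEqProofs only [gl, act, xv_mk4, mk4_20, mk4_21]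
  ring

theorem Ok.gl_Dp (h : D.Ok) (b : Bool) (l : L4) (n : ℤ) :
    ∃ n' : ℤ, ∀ z, D.gl b ((D.H b).Dp l n z) = (D.H (!b)).Dp (D.G b *ᵥ l) n' (D.gl b z) := by
  have e : ∀ i, ∃ j : ℤ, (D.G b *ᵥ l) i = l i + 2 * j := fun i => by
    obtain ⟨j, hj⟩ : Even (((D.G b - 1) *ᵥ l) i) :=
      Finset.even_sum (s := Finset.univ) (fun k => (D.G b - 1) i k * l k) fun k _ =>
        (h.two b i k).mul_right _
    rw [Matrix.sub_mulVec, Matrix.one_mulVec, Pi.sub_apply] at hj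
    exact ⟨j, by omega⟩
  obtain ⟨i, hi⟩ := e 2
  obtain ⟨j, hj⟩ := e 3
  have e2 : ∀ x, bf (rm ((D.H (!b)).v - E23)) (rm (D.G b) *ᵥ rv l) (rm (D.G b) *ᵥ x) =
      -bf (rm ((D.H b).v - E23)) (rv l) x := fun x => by
    rw [← bf_pull, ← rm_tr, ← rm_mul, ← rm_mul, h.slope, rm_neg, bf_neg]
  refine ⟨-n - (l 2 * (1 + l 3) + j * l 2 + i * (1 + l 3 + 2 * j)), fun z => ext4 ?_ ?_ ?_⟩
  · simp only [gl, HD.Dp, xv_mk4, rv_mulVec, Matrix.mulVec_add]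
  · simp only [gl, HD.Dp, mk4_20]
  · simp only [gl, HD.Dp, xv_mk4, mk4_21, rv_mulVec, e2, hi, hj]
    push_cast
    ring

theorem Ok.gl_gp (h : D.Ok) (b : Bool) (l : L4) (n : ℤ) (e : Bool) : ∃ n' : ℤ, ∀ z,
    D.gl b ((D.H b).gp (l, n, e) z) = (D.H (!b)).gp (D.G b *ᵥ l, n', e) (D.gl b z) := by
  obtain ⟨m, hm⟩ := h.gl_Dp b l n
  cases e
  · exact ⟨m, hm⟩
  obtain ⟨k, hk⟩ := HD.Dp_Dp (d := D.H (!b)) (D.G b *ᵥ l) 0 m (-1)
  refine ⟨k, fun z => (hm _).trans ?_⟩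
  rw [add_zero] at hk
  refine Eq.trans (congrArg _ (ext4 ?_ ?_ ?_)) (hk (iop (D.gl b z)))
  · simp only [gl, HD.Dp, iop, cond, xv_mk4, rv_zero, add_zero, Matrix.mulVec_neg]
  · simp only [gl, HD.Dp, iop, cond, mk4_20]
  · simp only [gl, HD.Dp, iop, cond, mk4_21, rv_zero, bf_zero_left, Pi.zero_apply]
    push_cast
    ring

theorem N9_fderiv (b : Bool) (z v : E6) :
    fderiv ℝ (D.gl b) z v = mk4 (rm (D.G b) *ᵥ xv v) (-v (2, 0)) (-v (2, 1)) := by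
  have h1 : HasDerivAt (fun t : ℝ => D.gl b (z + t • v)) (fderiv ℝ (D.gl b) z v) 0 :=
    ((D.contDiff_gl b).differentiable (by simp) z).hasFDerivAt.hasLineDerivAt v
  have h2 : (fun t : ℝ => D.gl b (z + t • v)) =
      fun t => D.gl b z + t • mk4 (rm (D.G b) *ᵥ xv v) (-v (2, 0)) (-v (2, 1)) := by
    have e : ∀ (x y : E6) (t : ℝ), xv (x + t • y) = xv x + t • xv y := fun x y t => by
      funext i
      fin_cases i <;> rfl
    funext t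
    refine ext4 ?_ ?_ ?_
    · simp only [gl, e, xv_mk4, Matrix.mulVec_add, Matrix.mulVec_smul]
    · simp only [gl, mk4_20, Pi.add_apply, Pi.smul_apply, smul_eq_mul]
      ring
    · simp only [gl, mk4_21, Pi.add_apply, Pi.smul_apply, smul_eq_mul]
      ring
  rw [h2] at h1
  exact (h1.unique (((hasDerivAt_id (0 : ℝ)).smul_const _).const_add _)).trans (one_smul _ _)

theorem Ok.gl_symp (h : D.Ok) (h1 : 7 / 8 < (D.H b).tt z) (h2 : (D.H b).tt z < 9 / 8) :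
    pb (D.gl b) (d1 ((D.H (!b)).lam .p)) z = d1 ((D.H b).lam .p) z := by
  rw [pb_congr' ((h.ok _).lam_mid (by rw [gl_tt]; linarith only [h2])), (h.ok b).lam_mid (by linarith only [h1])]
  refine symp_of' (D.contDiff_gl b).contDiffAt (HD.contDiff_lamO _).contDiffAt
    (HD.contDiff_lamO _).contDiffAt contDiffAt_const
    (d1_const (-((D.H b).M + (D.H (!b)).M) • dc (2, 1))) ?_
  have h3 : ∀ᶠ w : E6 in 𝓝 z, |w (2, 0) - (D.H b).M| < 1 / 8 :=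
    ContinuousAt.eventually_lt ((continuous_apply _).sub continuous_const).abs.continuousAt
      continuousAt_const (by
      unfold HD.tt at h1 h2
      unfold HD.M
      exact abs_lt.2 ⟨by linarith only [h1], by linarith only [h2]⟩)
  filter_upwards [h3] with w hw
  have h4 := h.Om_up b hw.le
  rw [add_sub_cancel, ← sub_add, sub_add_eq_add_sub, add_comm] at h4
  ext1 v
  rw [pb1_apply, N9_fderiv]
  simp only [lamO, gl, add_apply, smul_apply, dc_apply, lf_bf, xv_mk4, mk4_20, mk4_21, smul_eq_mul,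
    ← h4, bf_pull]
  ring

theorem N9_high {d : HD} (h : d.Ok) (hr : d.atlO.R c x .p y) (ht : 7 / 8 < d.tt y) : c = .p := by
  have hx := (h.pre0_half.mem hr).1
  have hl : d.lev .p y = d.lev c x := (h.R_lev hr).resolve_right fun h1 => by cases h1.2.1
  cases c with
  | p => rfl
  | m =>
    have h1 : x (2, 0) - d.μ₁ < 1 / 8 := hx.2.1
    have h2 : y (2, 0) = x (2, 0) := hl
    unfold HD.tt at ht
    linarith only [ht, h1, h2]
  | f =>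
    have h1 : normSq (cc 2 x) < 1 / 8 := hx.2
    have h2 : y (2, 0) = d.μ₁ + normSq (cc 2 x) - normSq (cc 0 x) := hl
    unfold HD.tt at ht
    linarith only [ht, h1, h2, normSq_nonneg (cc 0 x)]

theorem N9_tt (d : HD) (γ : L4 × ℤ × Bool) (z : E6) : d.tt (d.gp γ z) = d.tt z := by
  unfold HD.tt
  rw [HD.gp_level]

theorem N9_mem (hz : z ∈ (D.H b).Wo .p) (ht : 7 / 8 < (D.H b).tt z) :
    D.gl b z ∈ (D.H (!b)).Wo .p ∧ 7 / 8 < (D.H (!b)).tt (D.gl b z) := by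
  have h1 : (D.H b).tt z < 9 / 8 := hz.2
  have h2 := gl_tt (D := D) b z
  exact ⟨⟨by linarith only [h1, h2], by linarith only [ht, h2]⟩, by linarith only [h1, h2]⟩

theorem Ok.N9_gp (h : D.Ok) (b : Bool) (γ : L4 × ℤ × Bool) :
    ∃ γ', ∀ z, D.gl b ((D.H b).gp γ z) = (D.H (!b)).gp γ' (D.gl b z) :=
  (h.gl_gp b γ.1 γ.2.1 γ.2.2).elim fun _ hn => ⟨_, hn⟩

theorem Ok.N9_sym (h : D.Ok) (hx : x ∈ (D.H b).Wo .p) (ht : 7 / 8 < (D.H b).tt x)
    (hy : ∃ γ, y = (D.H (!b)).gp γ (D.gl b x)) : y ∈ (D.H (!b)).Wo .p ∧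
      7 / 8 < (D.H (!b)).tt y ∧ ∃ γ, x = (D.H b).gp γ (D.gl (!b) y) := by
  obtain ⟨γ, rfl⟩ := hy
  obtain ⟨γ', h1⟩ := h.N9_gp (!b) γ
  rw [Bool.not_not] at h1
  obtain ⟨γ'', h2⟩ := (D.H b).grp_p.inv γ'
  exact ⟨(HD.gp_mem γ).2 (N9_mem hx ht).1, (N9_mem hx ht).2.trans_eq (N9_tt _ γ _).symm,
    γ'', by rw [h1, h.gl_gl, h2]⟩

theorem Ok.N9_bar (h : D.Ok) : Bar (D.H true).atlO (D.H false).atlO D.Sg c x c' y ↔ c = .p ∧
    c' = .p ∧ x ∈ (D.H true).Wo .p ∧ 7 / 8 < (D.H true).tt x ∧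
      ∃ γ, y = (D.H false).gp γ (D.gl true x) := by
  constructor
  · rintro ⟨_, x', _, _, h1, ⟨rfl, rfl, hx, ht, rfl⟩, h2⟩
    obtain rfl := N9_high (h.ok true) h1 ht
    obtain rfl := N9_high (h.ok false) ((h.ok false).pre0_half.symm h2) (N9_mem hx ht).2
    obtain ⟨h3, -, γ, rfl⟩ := HD.R_pp.1 h1
    obtain ⟨-, -, γ', rfl⟩ := HD.R_pp.1 h2
    obtain ⟨γ₁, h4⟩ := h.N9_gp true γ
    obtain ⟨γ₂, h5⟩ := (D.H false).grp_p.mul γ₁ γ'
    exact ⟨rfl, rfl, h3, N9_tt _ γ x ▸ ht, γ₂, by rw [h5, h4]; rfl⟩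
  · rintro ⟨rfl, rfl, hx, ht, γ, rfl⟩
    exact ⟨.p, x, .p, _, (h.ok true).pre0_half.refl hx, ⟨rfl, rfl, hx, ht, rfl⟩,
      (N9_mem hx ht).1, (HD.gp_mem γ).2 (N9_mem hx ht).1, γ, rfl⟩

theorem Ok.N9_ar (h : D.Ok) (hx : x ∈ (D.H true).Wo .p) (ht : 7 / 8 < (D.H true).tt x) :
    Ar (fun z w => D.Sg .p z .p w) x (D.gl true x) (D.gl true) where
  sm := (D.contDiff_gl true).contDiffAt
  eq := rfl
  inj := inj_of_left (D.contDiff_gl true).contDiffAt (D.contDiff_gl (!true)).contDiffAt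
    (Eventually.of_forall (h.gl_gl true))
  ev := by
    filter_upwards [((h.ok true).isOpen_Wo .p).mem_nhds hx,
      HD.contDiff_tt.continuous.continuousAt.eventually (lt_mem_nhds ht)] with z h1 h2
    exact ⟨rfl, rfl, h1, h2, rfl⟩

theorem Ok.gok_g (h : D.Ok) : GOk (D.H true).atlO (D.H false).atlO D.Sg := by
  refine ⟨?_, ?_, ?_, ?_⟩
  · rintro _ x _ _ ⟨rfl, rfl, hx, ht, rfl⟩
    exact ⟨hx, (N9_mem hx ht).1⟩
  · rintro _ x _ _ ⟨rfl, rfl, hx, ht, rfl⟩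
    exact ⟨_, h.N9_ar hx ht⟩
  · rintro _ x _ _ _ x' _ _ ⟨rfl, rfl, hx, ht, rfl⟩ ⟨rfl, rfl, hx', ht', rfl⟩
    constructor
    · rintro ⟨-, -, γ, rfl⟩
      obtain ⟨γ', h1⟩ := h.N9_gp true γ
      exact ⟨(N9_mem hx ht).1, (N9_mem hx' ht').1, γ', (h1 x).symm⟩
    · rintro ⟨-, -, γ, h1⟩
      obtain ⟨-, -, γ', h2⟩ := h.N9_sym hx ht ⟨γ, h1.symm⟩
      obtain ⟨γ'', h3⟩ := (D.H true).grp_p.inv γ'
      rw [h.gl_gl] at h2
      exact ⟨hx, hx', γ'', by rw [h2, h3]⟩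
  · intro c x c' y hx hy hc
    obtain ⟨_, h1⟩ := closure_nonempty_iff.1 ⟨_, hc⟩
    obtain ⟨rfl, rfl, -⟩ := h.N9_bar.1 h1
    have h2 : (D.H false).tt y = 2 - (D.H true).tt x := by
      refine closure_minimal (t := {p : E6 × E6 | (D.H false).tt p.2 = 2 - (D.H true).tt p.1})
        (fun p hp => ?_) (isClosed_eq (HD.contDiff_tt.continuous.comp continuous_snd)
          (continuous_const.sub (HD.contDiff_tt.continuous.comp continuous_fst))) hc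
      obtain ⟨-, -, -, -, γ, h3⟩ := h.N9_bar.1 hp
      exact (congrArg _ h3).trans ((N9_tt _ γ _).trans (gl_tt true _))
    have h3 : (D.H false).tt y < 9 / 8 := hy.2
    exact ⟨.p, x, .p, _, (h.ok true).pre0_half.refl hx, rfl, rfl, hx, by linarith only [h2, h3], rfl⟩

theorem Ok.pre0_O (h : D.Ok) : Pre0 D.atlO :=
  (h.gok_g.pre0 (h.ok true).pre0_half (h.ok false).pre0_half).comap _

theorem atlO_W (p : Bool × K3) : D.atlO.W p = (D.H p.1).Wo p.2 := by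
  obtain ⟨b, c⟩ := p
  cases b <;> cases c <;> rfl

theorem R_same : D.atlO.R (b, c) x (b, c') y ↔ (D.H b).atlO.R c x c' y := by
  cases b <;> rfl

theorem Ok.R_cross (h : D.Ok) : D.atlO.R (b, c) x (!b, c') y ↔ c = .p ∧ c' = .p ∧
    x ∈ (D.H b).Wo .p ∧ 7 / 8 < (D.H b).tt x ∧ ∃ γ, y = (D.H (!b)).gp γ (D.gl b x) := by
  cases b
  · exact (h.N9_bar (c := c') (x := y) (c' := c) (y := x)).trans
      ⟨fun ⟨a, b, h1, h2, h3⟩ => ⟨b, a, h.N9_sym h1 h2 h3⟩,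
        fun ⟨a, b, h1, h2, h3⟩ => ⟨b, a, h.N9_sym h1 h2 h3⟩⟩
  · exact h.N9_bar

theorem Ok.invF_O (h : D.Ok) {α : Bool × K3 → Fm E6 k} (ha : ∀ b, (D.H b).Arr fun c => α (b, c))
    (hg : ∀ z ∈ (D.H true).Wo .p, 7 / 8 < (D.H true).tt z →
      pb (D.gl true) (α (false, .p)) z = α (true, .p) z) : InvF D.atlO α := by
  have h1 := (h.gok_g.invF (h.ok true).pre0_half (h.ok false).pre0_half
    ((h.ok true).invF_half (ha true)) ((h.ok false).invF_half (ha false)) (by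
      rintro _ x _ _ ⟨rfl, rfl, hx, ht, rfl⟩
      exact ⟨_, h.N9_ar hx ht, hg x hx ht⟩)).comap
    fun p : Bool × K3 => cond p.1 (.inl p.2) (.inr p.2)
  have e : α = fun p : Bool × K3 => Sum.elim (fun c => α (true, c)) (fun c => α (false, c))
      (cond p.1 (.inl p.2) (.inr p.2)) := by
    funext ⟨b, c⟩
    cases b <;> rfl
  rw [e]
  exact h1

theorem Ok.invF_lam (h : D.Ok) : InvF D.atlO fun p => d1 ((D.H p.1).lam p.2) :=
  h.invF_O (fun b => (h.ok b).arr_lam) fun _ hz ht => h.gl_symp (b := true) ht hz.2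

end GD

end Pool.Agent.Work.MP_bf98aa_gt.B3
end
end

-- merged part: Pool.Agent.Work.MP_bf98aa_gt.B3.F1
section
-- merged part: Pool.Agent.Work.MP_bf98aa_gt.B3.F1l
section
/-!
The centring maps: the circle action and the real translations.
-/

set_option autoImplicit false

open scoped Manifold ContDiff Topology Matrix ComplexConjugate
open Set Complex Filter

namespace Pool.Agent.Work.MP_bf98aa_gt.B3

open Pool.Agent.Work.MP_bf98aa_gt.Th Pool.Agent.Work.MP_bf98aa_gt.Cy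

namespace HD

variable {d : HD} {z : E6} {j : J4}

theorem F1_cen_act (j : J4) (s : ℝ) (z : E6) :
    d.cen j 0 (act s .m z) = act s .m (d.cen j 0 z) ∧
    d.cen j 1 (act s .m z) = act (-s) .m (d.cen j 1 z) ∧
    d.cen j 2 (act s .p z) = act s .m (d.cen j 2 z) ∧
    d.cen j 3 (act s .p z) = act (-s) .m (d.cen j 3 z) ∧
    d.cen j 4 (act s .f z) = act s .f (d.cen j 4 z) := by
  refine ⟨?_, ?_, ?_, ?_, ?_⟩
  · change d.trn j _ = act s .m (d.trn j z)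
    refine ext4 ?_ ?_ ?_ <;>
      simp -implicitDefEqProofs only [trn, act, xv_mk4, mk4_20, mk4_21] <;> ring
  · change d.trn j (d.ka _) = act (-s) .m (d.trn j (d.ka z))
    refine ext4 ?_ ?_ ?_ <;>
      simp -implicitDefEqProofs only [trn, ka, act, xv_mk4, mk4_20, mk4_21] <;> ring
  · change d.trn j (d.pu _) = act s .m (d.trn j (d.pu z))
    refine ext4 ?_ ?_ ?_ <;>
      simp -implicitDefEqProofs only [trn, pu, tt, act, xv_mk4, mk4_20, mk4_21, mk4_10, mk4_11,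
        xv_2, xv_3] <;> ring
  · change d.trn j (d.ka (d.pm j _)) = act (-s) .m (d.trn j (d.ka (d.pm j z)))
    refine ext4 ?_ ?_ ?_ <;>
      simp -implicitDefEqProofs only [trn, ka, pm, tt, act, xv_mk4, mk4_20, mk4_21, mk4_10, mk4_11,
        xv_2, xv_3] <;> ring
  · change d.Df _ _ _ = act s .f (d.Df _ _ z)
    refine extc ?_ ?_ ?_ <;>
      simp -implicitDefEqProofs only [Df, psi, act, cc_mkc0, cc_mkc1, cc_mkc2, mkc_10, mkc_11,
        cc_re, cc_im] <;> ring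

theorem F1_fF_act (s : ℝ) (z : E6) : d.fF (act s .f z) = act s .f (d.fF z) := by
  simp -implicitDefEqProofs only [fF, nuF, act, cc_mkc0, cc_mkc1, cc_mkc2, mkc_10, mkc_11,
    cc_re, cc_im, map_mul, normSq_ee, mul_one]

theorem F1_rF_act (s : ℝ) (z : E6) : rF (act s .f z) = rF z := by
  simp -implicitDefEqProofs only [rF, act, cc_mkc1, cc_mkc2, map_mul, normSq_ee, mul_one]

theorem F1_Df (s t : ℝ) (z : E6) : normSq (cc 0 (d.Df s t z)) = normSq (cc 0 z) ∧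
    normSq (cc 2 (d.Df s t z)) = normSq (cc 2 z) := by
  simp only [Df, cc_mkc0, cc_mkc2, map_mul, normSq_ee, mul_one, and_self]

theorem F1_tF (hz : z ∈ d.Wo .f) : |tF (d.cen j 4 z)| < 1 / 4 := by
  have h0 := normSq_nonneg (cc 0 z)
  have h2 := normSq_nonneg (cc 2 z)
  change |normSq (cc 2 (d.Df _ _ z)) - normSq (cc 0 (d.Df _ _ z))| < _
  rw [(F1_Df _ _ z).1, (F1_Df _ _ z).2, abs_lt]
  constructor <;> linarith only [h2, hz, h0, hz.1, hz.2]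

theorem F1_fderiv (j : J4) (y v : E6) : fderiv ℝ (d.trn j) y v =
    mk4 (xv v) (v (2, 0)) (v (2, 1) + bf (rm d.v) (wj j) (xv v) / 2) := by
  have e : d.trn j = fun z => (ContinuousLinearMap.id ℝ E6 +
      (lf (wj j ᵥ* rm d.v)).smulRight ((1 / 2 : ℝ) • bv (2, 1))) z + mk4 (-wj j) 0 0 := by
    funext z
    refine ext6 ?_ ?_ ?_ ?_ ?_ ?_ <;> simp [trn, bv, lf_bf, sub_eq_add_neg, div_eq_mul_inv]
  rw [e, fderiv_add_const, ContinuousLinearMap.fderiv]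
  refine ext6 ?_ ?_ ?_ ?_ ?_ ?_ <;> simp [bv, lf_bf, div_eq_mul_inv]

theorem F1_trn_sm (d : HD) (j : J4) (z : E6) : ContDiffAt ℝ ∞ (d.trn j) z := by
  unfold trn
  fun_prop

theorem F1_trn {a : E6 → ℝ} {l : F1} (hl : ∀ y, l y = lamO d.Om y + a y • rq y)
    (ha : ∀ y, a (d.trn j y) = a y) (h1 : ContDiffAt ℝ ∞ l z) (h2 : ContDiffAt ℝ ∞ l (d.trn j z))
    (h3 : -d.μ₁ < z (2, 0)) : pb (d.trn j) (d1 l) z = d1 l z := by
  refine symp_of' (c := fun _ => (-1 / 2 : ℝ) • lf (wj j ᵥ* d.Om0 0)) (d.F1_trn_sm j z) h2 h1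
    contDiffAt_const (d1_const _) ?_
  filter_upwards [(continuous_apply (2, 0)).continuousAt.eventually (lt_mem_nhds h3)] with y hy
  ext v : 1
  have e := d.Om0_add 0 (y (2, 0))
  rw [zero_add] at e
  rw [pb1_apply, F1_fderiv, hl, hl, ha]
  simp only [lamO, rq, trn, add_apply, smul_apply, sub_apply, dc_apply, lf_bf, xv_mk4, mk4_20,
    mk4_21, mk4_10, mk4_11, smul_eq_mul, Pi.sub_apply, xv_2, xv_3,
    d.Om_up (show -y (2, 0) - d.μ₁ ≤ 1 / 4 by linarith only [hy]), e, bf_sub_left, bf_sub, bf_add, bf_smul,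
    bf_E23]
  simp only [wj, Matrix.cons_val]
  ring

theorem F1_trn_inv (j : J4) (y : E6) : d.trn j y (1, 0) = y (1, 0) ∧ d.trn j y (1, 1) = y (1, 1) ∧
    d.tt (d.trn j y) = d.tt y ∧
    d.ex (d.trn j y (2, 0)) (xv (d.trn j y)) = d.ex (y (2, 0)) (xv y) := by
  have h2 : wj j 2 = 0 := rfl
  have h3 : wj j 3 = 0 := rfl
  simp only [trn, tt, ex, mk4_10, mk4_11, mk4_20, xv_mk4, Pi.sub_apply, xv_2, xv_3, h2, h3,
    sub_zero, and_self]

end HD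

end Pool.Agent.Work.MP_bf98aa_gt.B3
end

-- merged part: Pool.Agent.Work.MP_bf98aa_gt.B3.F1
section
/-!
The maps to `F`: centring, smoothness, symplecticity.

PLAN. `cen_xv`, `cen_lev` by `fin_cases l`. `Do_cen`: `rho_small'` bounds `xv (cen j l z)`; for `l = 0`: `lamL_m`; for `l = 1, 3` the level is `-μ` with `tt < 0`; for `l = 2`: `rho < 8`.
`trn_symp*`: `pb1 (trn j) lamL = lamL + d(..)`: the real translation by a vector `w` of the plane `x₂ = x₃ = 0` changes `lamO Om` by `μ bf v w dx / 2 - bf (Om μ) w dx / 2 = -bf (Om μ - μ v) w dx / 2`, and `Om μ - μ v` applied to `w` is constant if `-μ - μ₁ ≤ 1 / 4` (`Om_up`, `bf_E23`).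
`Ph_symp`: `l = 0`: `lowF_symp`, `trn_L`, `lamL_m`. `l = 2`: `uppF_symp`, `trn_H`, `pu_symp`. `l = 4`: `fF_symp`, `Df_symp`. `l = 1, 3`: `mir_symp`: with `x' = T (x - x0)`, `pb1 (trn j ∘ ka) (lamO Om) = μ dφ + (μ / 2) bf v x0 dx + bf (Om μ) (x - x0) dx / 2` (`Om_neg`, `bf_vT`);
on `m` near `x0`, `a0 = 0` (`x0_parity`, `a0_zero`) and `Om = Om0`; on `p` use `gz_far`, `ang_ee`, and `μ d (a P) = d (μ a P) - a P dμ` for functions `a` of the level.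
-/

set_option autoImplicit false

open scoped Manifold ContDiff Topology Matrix ComplexConjugate
open Set Complex Filter

namespace Pool.Agent.Work.MP_bf98aa_gt.B3

open Pool.Agent.Work.MP_bf98aa_gt.Th Pool.Agent.Work.MP_bf98aa_gt.Cy

namespace HD

variable {d : HD} {z y : E6} {j : J4} {l : Fin 5}

theorem Ok.x0_parity (h : d.Ok) (j : J4) : ∃ m : L4, d.x0 j = (1 / 2 : ℝ) • rv m ∧ Odd (m 2) ∧
    Even (m 3) ∧ Even (m 0 - d.c 0 - (j.1 : ℕ)) ∧ Even (m 1 - d.c 1 - (j.2 : ℕ)) := by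
  set u : L4 := ![((j.1 : ℕ) : ℤ), ((j.2 : ℕ) : ℤ), 0, 0] with hu
  have hw : wj j = (1 / 2 : ℝ) • rv u := by
    ext i; fin_cases i <;> simp [wj, rv, hu, div_eq_inv_mul]
  have e : ∀ i, Even ((d.T *ᵥ u) i - u i) := fun i => by
    have : Even (((d.T - 1) *ᵥ u) i) := Finset.even_sum (s := Finset.univ)
      (fun k => (d.T - 1) i k * u k) fun k _ => (h.T_two i k).mul_right _
    rwa [Matrix.sub_mulVec, Matrix.one_mulVec] at this
  refine ⟨d.T *ᵥ u + d.c, ?_, ?_, ?_, ?_, ?_⟩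
  · rw [x0, hw, rv_add, rv_mulVec, Matrix.mulVec_smul, smul_add]
  · exact Even.add_odd (by simpa [hu] using e 2) h.c2
  · exact Even.add (by simpa [hu] using e 3) h.c3
  · simpa [hu] using e 0
  · simpa [hu] using e 1

theorem Ok.T_x0 (h : d.Ok) (j : J4) (x : V4) :
    rm d.T *ᵥ x + (1 / 2 : ℝ) • rv d.c - wj j = rm d.T *ᵥ (x - d.x0 j) := by
  rw [x0, Matrix.mulVec_sub, Matrix.mulVec_add, h.TTv, Matrix.mulVec_smul, h.N1_m_c, smul_neg]
  abel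

theorem Ok.cen_xv (h : d.Ok) (j : J4) (z : E6) : xv (d.cen j 0 z) = xv z - wj j ∧
    xv (d.cen j 1 z) = rm d.T *ᵥ (xv z - d.x0 j) ∧ xv (d.cen j 2 z) = xv z - wj j ∧
    xv (d.cen j 3 z) = rm d.T *ᵥ (xv z - d.x0 j) := by
  rw [← h.T_x0]
  refine ⟨xv_mk4 _ _ _, ?_, ?_, ?_⟩
  · change xv (d.trn j (d.ka z)) = _
    simp only [trn, ka, xv_mk4]
  · change xv (d.trn j (d.pu z)) = _
    simp only [trn, pu, xv_mk4]
  · change xv (d.trn j (d.ka (d.pm j z))) = _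
    simp only [trn, ka, pm, xv_mk4]

theorem cen_lev (j : J4) (z : E6) : d.cen j 0 z (2, 0) = z (2, 0) ∧
    d.cen j 1 z (2, 0) = -z (2, 0) ∧ d.cen j 2 z (2, 0) = z (2, 0) ∧
    d.cen j 3 z (2, 0) = -z (2, 0) :=
  ⟨rfl, rfl, rfl, rfl⟩

theorem Ph_eq (j : J4) (z : E6) : d.Ph j 0 z = d.lowF (d.cen j 0 z) ∧
    d.Ph j 1 z = d.lowF (d.cen j 1 z) ∧ d.Ph j 2 z = d.uppF (d.cen j 2 z) ∧
    d.Ph j 3 z = d.lowF (d.cen j 3 z) ∧ d.Ph j 4 z = d.fF (d.cen j 4 z) :=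
  ⟨rfl, rfl, rfl, rfl, rfl⟩

theorem Ok.rP_eq (h : d.Ok) (j : J4) (z : E6) : d.rP j 0 z = d.rho (z (2, 0)) (xv z - wj j) ∧
    d.rP j 1 z = d.rho (-z (2, 0)) (rm d.T *ᵥ (xv z - d.x0 j)) ∧
    d.rP j 2 z = d.rho (z (2, 0)) (xv z - wj j) ∧
    d.rP j 3 z = d.rho (-z (2, 0)) (rm d.T *ᵥ (xv z - d.x0 j)) ∧
    d.rP j 4 z = normSq (cc 2 z) +
      normSq (d.zy (d.nuF z) (z (1, 0) - wj j 0) (z (1, 1) - wj j 1)) := by
  obtain ⟨h0, h1, h2, h3⟩ := h.cen_xv j z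
  refine ⟨congrArg (d.rho _) h0, congrArg (d.rho _) h1, congrArg (d.rho _) h2,
    congrArg (d.rho _) h3, ?_⟩
  change rF (d.fF (d.Df (-wj j 0) (-wj j 1) z)) = _
  simp only [rF, fF, Df, nuF, cc_mkc0, cc_mkc1, cc_mkc2, map_mul, normSq_ee, mul_one, mkc_10, mkc_11,
    add_re, add_im, cc_re, cc_im, sub_eq_add_neg]

theorem contDiff_cen (d : HD) (j : J4) (l : Fin 5) : ContDiff ℝ ∞ (d.cen j l) := by
  have e : ContDiff ℝ ∞ fun z => deriv shf (d.tt z) := contDiff_deriv_shf.comp contDiff_tt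
  have h0 : ContDiff ℝ ∞ (d.trn j) := contDiff_iff_contDiffAt.2 fun z => by unfold trn; fun_prop
  have h1 : ContDiff ℝ ∞ d.ka := contDiff_iff_contDiffAt.2 fun z => by unfold ka; fun_prop
  have h3 : ContDiff ℝ ∞ (d.pm j) := contDiff_iff_contDiffAt.2 fun z => by unfold pm; fun_prop
  have h4 : ∀ s t, ContDiff ℝ ∞ (d.Df s t) := fun s t => contDiff_iff_contDiffAt.2 fun z => by
    unfold Df psi; fun_prop
  fin_cases l
  exacts [h0, h0.comp h1, h0.comp d.contDiff_pu, h0.comp (h1.comp h3), h4 _ _]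

theorem F1_bij (w : V4) (F : V4 → ℝ → ℝ) {f : E6 → E6}
    (hf : ∀ z, f z = mk4 (xv z - w) (z (2, 0)) (z (2, 1) + F (xv z) (z (2, 0)))) :
    Function.Bijective f :=
  Function.bijective_iff_has_inverse.2
    ⟨fun y => mk4 (xv y + w) (y (2, 0)) (y (2, 1) - F (xv y + w) (y (2, 0))),
      fun z => by simp [hf, mk4_eta], fun z => by simp [hf, mk4_eta]⟩

theorem Ok.cen_inv (h : d.Ok) (j : J4) (l : Fin 5) : Function.Bijective (d.cen j l) := by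
  have h0 : Function.Bijective (d.trn j) :=
    F1_bij (wj j) (fun x _ => bf (rm d.v) (wj j) x / 2) fun _ => rfl
  have h1 : Function.Bijective d.ka := Function.Involutive.bijective h.ka_ka
  have h2 : Function.Bijective d.pu :=
    F1_bij 0 (fun x μ => (1 - deriv shf (μ - d.μ₁)) * (x 2 * x 3) / 2) fun z => by
      rw [sub_zero]; rfl
  have h3 : Function.Bijective (d.pm j) :=
    F1_bij 0 (fun x μ => x 2 * x 3 / 2 - d.x0 j 2 * x 3 - (d.x0 j 2 - 1 / 2) / 2 -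
      deriv shf (μ - d.μ₁) * ((x 2 - d.x0 j 2) * (x 3 - d.x0 j 3)) / 2) fun z => by
      rw [sub_zero, pm, tt, xv_2, xv_3]; congr 1; ring
  have h4 : ∀ s t z, d.Df s t (d.Df (-s) (-t) z) = z := fun s t z => by
    rw [Df_Df', add_neg_cancel, add_neg_cancel, Df_zero, show s * -t - t * -s = 0 by ring]
    simpa using act_zero .f z
  fin_cases l
  exacts [h0, h0.comp h1, h0.comp h2, h0.comp (h1.comp h3), Function.bijective_iff_has_inverse.2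
    ⟨_, h4 _ _, fun z => by have := h4 (-wj j 0) (-wj j 1) z; rwa [neg_neg, neg_neg] at this⟩]

theorem Ok.rP_cont (h : d.Ok) (j : J4) (l : Fin 5) : Continuous (d.rP j l) := by
  by_cases hl : l = 4
  · subst hl
    have e := (contDiff_nuF (d := d)).continuous
    have : ∀ s t : ℝ, (⟨s, t⟩ : ℂ) = s + t * I := fun s t => (re_add_im ⟨s, t⟩).symm
    rw [funext fun z => (h.rP_eq j z).2.2.2.2]
    simp only [zy, this, b, Om0, Matrix.add_apply, Matrix.smul_apply]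
    fun_prop
  · have e := (d.contDiff_cen j l).continuous
    rw [show d.rP j l = _ from funext fun z => if_neg hl]
    exact h.rho_cont.comp (f := fun z => (d.cen j l z (2, 0), xv (d.cen j l z))) (by fun_prop)

theorem Ok.isOpen_Do (h : d.Ok) (j : J4) (l : Fin 5) : IsOpen (d.Do j l) :=
  (h.isOpen_Wo _).inter (isOpen_lt (h.rP_cont j l) continuous_const)

theorem Ok.F1_lev (h : d.Ok) (hz : z ∈ d.Wo .m ∨ z ∈ d.Wo .p) :
    -1 / 8 < z (2, 0) ∧ z (2, 0) < d.M + 1 / 8 := by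
  have := h.hμ
  rcases hz with ⟨h1, h2, -⟩ | ⟨h1, h2⟩ <;> simp only [tt, M] at * <;> constructor <;> linarith only [h1, h2, this]

theorem Ok.F1_abs (h : d.Ok) (hz : z ∈ d.Wo .m ∨ z ∈ d.Wo .p) : |z (2, 0)| ≤ d.M + 1 / 8 := by
  have := h.hμ
  have h1 := h.F1_lev hz
  rw [M] at *
  exact abs_le.2 ⟨by linarith only [this, h1, h1.1], h1.2.le⟩

theorem Ok.F1_nA (h : d.Ok) (x : V4) : ‖rm d.A' *ᵥ x‖ = ‖rm d.A' *ᵥ (rm d.T *ᵥ x)‖ := by
  rw [Matrix.mulVec_mulVec, ← rm_mul, h.A'T, rm_mul, ← Matrix.mulVec_mulVec]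
  refine congrArg (fun f : Fin 4 → NNReal => ((Finset.univ.sup f : NNReal) : ℝ)) (funext fun i => ?_)
  generalize rm d.A' *ᵥ x = y
  fin_cases i <;> simp [rm, Matrix.mulVec, dotProduct, Matrix.diagonal]

theorem Ok.F1_zy (h : d.Ok) {ν s t : ℝ} (hν : |ν - d.μ₁| ≤ 1 / 4) (hs : normSq (d.zy ν s t) ≤ 8) :
    |s| ≤ 1 / 32 ∧ |t| ≤ 1 / 32 := by
  have := h.hμ
  have h1 := abs_le.1 hν
  have hb := (h.b5 ν (by linarith only [h1, h1.1]) (by rw [M]; linarith only [h1, h1.2])).1.ne'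
  have hs0 : ∀ i, d.Om0 ν i i = 0 := fun i =>
    (bf_single _ i i).symm.trans (bf_self _ (d.Om0_skew ν))
  have e0 : d.y0 ν ![s, t, 0, 0] = s := by
    rw [y0, div_eq_iff hb]; simp [bf, dotProduct, Fin.sum_univ_four, hs0, b]
  have e1 : d.y1 ν ![s, t, 0, 0] = t := by
    rw [y1, div_eq_iff hb]; simp [bf, Matrix.mulVec, dotProduct, Fin.sum_univ_four, hs0, b, mul_comm]
  have := (h.b1 ν (abs_le.2 ⟨by rw [M]; linarith only [this, h1, h1.1], by rw [M]; linarith only [h1, h1.2]⟩) ![s, t, 0, 0]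
    (by rw [h.f1 ν hν, h.f2 ν hν, e0, e1]; simpa [normSq_mk] using hs)).1
  exact ⟨(abs_le_norm4 ![s, t, 0, 0] 0).trans this, (abs_le_norm4 ![s, t, 0, 0] 1).trans this⟩

theorem Ok.Do_near (h : d.Ok) : (z ∈ d.Do j 0 ∨ z ∈ d.Do j 2 →
      ‖xv z - wj j‖ < 1 / 32 ∧ ‖rm d.A' *ᵥ (xv z - wj j)‖ < 1 / 32) ∧
    (z ∈ d.Do j 1 ∨ z ∈ d.Do j 3 →
      ‖xv z - d.x0 j‖ < 1 / 32 ∧ ‖rm d.A' *ᵥ (xv z - d.x0 j)‖ < 1 / 32) ∧
    (z ∈ d.Do j 4 → |z (1, 0) - wj j 0| < 1 / 16 ∧ |z (1, 1) - wj j 1| < 1 / 16) := by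
  obtain ⟨h0, h1, h2, h3, h4⟩ := h.rP_eq j z
  refine ⟨fun hz => ?_, fun hz => ?_, fun ⟨⟨a, b⟩, hz⟩ => ?_⟩
  · have := h.rho_small' (h.F1_abs (hz.imp And.left And.left))
      (hz.elim (fun a => h0 ▸ a.2) fun a => h2 ▸ a.2)
    exact ⟨this.1, this.2.2⟩
  · have := h.rho_small' ((abs_neg _).trans_le (h.F1_abs (hz.imp And.left And.left)))
      (hz.elim (fun a => h1 ▸ a.2) fun a => h3 ▸ a.2)
    rw [h.TTv, ← h.F1_nA] at this
    exact this.2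
  · have a' := normSq_nonneg (cc 0 z)
    have b' := normSq_nonneg (cc 2 z)
    have := h.F1_zy (ν := d.nuF z) (s := z (1, 0) - wj j 0) (t := z (1, 1) - wj j 1)
      (by rw [nuF, abs_le]; constructor <;> linarith only [a, b', b, a']) (by linarith only [h4, hz, b'])
    exact ⟨by linarith only [this, this.1], by linarith only [this, this.2]⟩

theorem Ok.Do_cen (h : d.Ok) : (z ∈ d.Do j 0 → d.cen j 0 z ∈ d.CL) ∧
    (z ∈ d.Do j 1 → d.cen j 1 z ∈ d.CL) ∧ (z ∈ d.Do j 2 → d.cen j 2 z ∈ d.CU) ∧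
    (z ∈ d.Do j 3 → d.cen j 3 z ∈ d.CL) := by
  have := h.hμ
  have e : ∀ y : E6, z ∈ d.Wo .m ∨ z ∈ d.Wo .p → y (2, 0) = -z (2, 0) → y ∈ d.CL := fun y hz hy => by
    have h1 := h.F1_lev hz
    refine ⟨?_, ?_, .inr ?_⟩ <;> simp only [tt, hy] <;> linarith only [h1, this, h1.1, h1.2]
  refine ⟨fun hz => ⟨?_, hz.1.2.1, hz.1.2.2.imp_left fun a b => a ?_⟩,
    fun hz => e _ (.inl hz.1) rfl, fun hz => ⟨hz.1.1, hz.1.2, .inr hz.2⟩, fun hz => e _ (.inr hz.1) rfl⟩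
  · change _ < z (2, 0)
    rw [M]
    linarith only [this, hz, hz.1.1]
  · obtain ⟨b1, b2⟩ : z (1, 0) - 0 = 0 ∧ z (1, 1) - 0 = 0 := h.qq_zero.1 b
    rw [sub_zero] at b1 b2
    simp [h.gz_zero, b1, b2, rd]

/-- The level along the strand. -/
noncomputable def nuP (d : HD) (l : Fin 5) (z : E6) : ℝ :=
  ![z (2, 0), -z (2, 0), z (2, 0), -z (2, 0), d.nuF z] l

theorem Ok.Ph_lev (h : d.Ok) (hz : z ∈ d.Do j l) : rF (d.Ph j l z) = d.rP j l z ∧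
    d.nuF (d.Ph j l z) = d.nuP l z ∧ d.Ph j l z ∈ d.Fo := by
  have lo : ∀ {y : E6}, y ∈ d.CL → d.rho (y (2, 0)) (xv y) < 8 →
      rF (d.lowF y) = d.rho (y (2, 0)) (xv y) ∧ d.nuF (d.lowF y) = y (2, 0) ∧ d.lowF y ∈ d.Fo :=
    fun hc hr => ⟨(h.lowF_lev hc).1, (h.lowF_lev hc).2.1, (h.lowF_lev hc).1.trans_lt hr,
      (h.lowF_lev hc).2.1.symm ▸ h.CL_lev hc⟩
  fin_cases l
  · exact lo (h.Do_cen.1 hz) hz.2
  · exact lo (h.Do_cen.2.1 hz) hz.2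
  · have hc := h.Do_cen.2.2.1 hz
    exact ⟨(h.uppF_lev hc).1, (h.uppF_lev hc).2.1, (h.uppF_lev hc).1.trans_lt hz.2,
      (congrArg abs (h.uppF_lev hc).2.1).trans_lt (h.CU_lev hc)⟩
  · exact lo (h.Do_cen.2.2.2 hz) hz.2
  · have e : d.nuF (d.Ph j 4 z) = d.nuF z := by
      change d.μ₁ + normSq (cc 2 (d.Df _ _ z)) - normSq (cc 0 (d.Df _ _ z)) = _
      rw [(F1_Df _ _ z).1, (F1_Df _ _ z).2, nuF]
    refine ⟨rfl, e, hz.2, (congrArg abs e).trans_lt (abs_lt.2 ?_)⟩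
    have h0 := normSq_nonneg (cc 0 z)
    have h2 := normSq_nonneg (cc 2 z)
    have h3 : z ∈ d.Wo .f := hz.1
    unfold nuF M
    constructor <;> linarith only [h2, h3, h, h0, h3.1, h3.2, h.hμ]

theorem Ok.Ph_act (h : d.Ok) (j : J4) (l : Fin 5) (s : ℝ) (z : E6) :
    d.Ph j l (act s (sP l) z) = act (![s, -s, s, -s, s] l) .f (d.Ph j l z) := by
  obtain ⟨h0, h1, h2, h3, h4⟩ := d.F1_cen_act j s z
  fin_cases l
  exacts [(congrArg d.lowF h0).trans (lowF_act _ _), (congrArg d.lowF h1).trans (lowF_act _ _),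
    (congrArg d.uppF h2).trans (uppF_act _ _), (congrArg d.lowF h3).trans (lowF_act _ _),
    (congrArg d.fF h4).trans (F1_fF_act _ _)]

theorem rP_act (j : J4) (l : Fin 5) (s : ℝ) (z : E6) :
    d.rP j l (act s (sP l) z) = d.rP j l z := by
  obtain ⟨h0, h1, h2, h3, h4⟩ := d.F1_cen_act j s z
  have e : ∀ {t : ℝ} {x y : E6}, x = act t .m y →
      d.rho (x (2, 0)) (xv x) = d.rho (y (2, 0)) (xv y) := fun e => by
    rw [e, act, xv_mk4, mk4_20]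
    simp
  fin_cases l
  exacts [e h0, e h1, e h2, e h3,
    (congrArg rF ((congrArg d.fF h4).trans (F1_fF_act _ _))).trans (F1_rF_act _ _)]

theorem Ok.Ph_sm (h : d.Ok) (hz : z ∈ d.Do j l) : ContDiffAt ℝ ∞ (d.Ph j l) z := by
  fin_cases l
  exacts [(h.lowF_sm (h.Do_cen.1 hz)).comp z (d.contDiff_cen j 0).contDiffAt,
    (h.lowF_sm (h.Do_cen.2.1 hz)).comp z (d.contDiff_cen j 1).contDiffAt,
    (h.uppF_sm (h.Do_cen.2.2.1 hz)).comp z (d.contDiff_cen j 2).contDiffAt,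
    (h.lowF_sm (h.Do_cen.2.2.2 hz)).comp z (d.contDiff_cen j 3).contDiffAt,
    (h.fF_sm (F1_tF hz.1)).comp z (d.contDiff_cen j 4).contDiffAt]

theorem Ok.trn_L (h : d.Ok) (hz : z ∈ d.CL) (h1 : -d.μ₁ < z (2, 0)) :
    pb (d.trn j) (d1 d.lamL) z = d1 d.lamL z := by
  obtain ⟨e0, e1, e2, -⟩ := d.F1_trn_inv j z
  refine F1_trn (fun _ => rfl) (fun y => ?_) (h.lamL_sm hz) (h.lamL_sm ⟨hz.1, ?_, ?_⟩) h1
  · rw [(F1_trn_inv j y).1, (F1_trn_inv j y).2.1, (F1_trn_inv j y).2.2.1]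
  · exact e2.trans_lt hz.2.1
  · rw [e0, e1, e2]
    exact hz.2.2

theorem Ok.trn_H (h : d.Ok) (hz : 0 < d.tt z) :
    pb (d.trn j) (d1 d.lamH) z = d1 d.lamH z := by
  refine F1_trn (fun _ => (sub_eq_add_neg _ _).trans (congrArg _ (neg_smul _ _).symm))
    (fun y => ?_) (h.lamH_sm hz) (h.lamH_sm hz) ?_
  · rw [(F1_trn_inv j y).1, (F1_trn_inv j y).2.1, (F1_trn_inv j y).2.2.1,
      (F1_trn_inv j y).2.2.2]
  · linarith only [h, hz, h.hμ, (show 0 < z (2, 0) - d.μ₁ from hz)]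

theorem F1_bf (Ω : M4) (a : V4) (z : E6) :
    HasFDerivAt (fun y => bf Ω a (xv y) / 2) ((2 : ℝ)⁻¹ • lf (a ᵥ* Ω)) z := by
  simp only [← lf_bf, div_eq_inv_mul]
  exact (lf _).hasFDerivAt.const_mul _

theorem F1_c (i : Cx) (z : E6) : HasFDerivAt (fun y : E6 => y i) (dc i) z := (dc i).hasFDerivAt

theorem F1_pbO (Ω : ℝ → M4) {a : E6 → V4} {a' : E6 →L[ℝ] V4} {e f : E6 → ℝ}
    {f' : E6 →L[ℝ] ℝ} (ha : HasFDerivAt a a' z) (he : DifferentiableAt ℝ e z)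
    (hf : HasFDerivAt f f' z) (v : E6) : pb1 (fun y => mk4 (a y) (e y) (f y)) (lamO Ω) z v =
      e z * f' v + bf (Ω (e z)) (a z) (a' v) / 2 := by
  have hd : DifferentiableAt ℝ (fun y => mk4 (a y) (e y) (f y)) z :=
    differentiableAt_pi.2 fun ⟨a, b⟩ => by
      have k := differentiableAt_pi.1 ha.differentiableAt
      fin_cases a <;> fin_cases b
      exacts [k 0, k 1, k 2, k 3, he, hf.differentiableAt]
  have e1 : fderiv ℝ (fun y => mk4 (a y) (e y) (f y)) z v (2, 1) = f' v :=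
    DFunLike.congr_fun ((hasFDerivAt_pi'.1 hd.hasFDerivAt (2, 1)).unique hf) v
  have e2 := DFunLike.congr_fun ((xL.hasFDerivAt.comp z hd.hasFDerivAt).unique
    (ha.congr_of_eventuallyEq (Eventually.of_forall fun y => (xL_apply _).trans (xv_mk4 ..)))) v
  simp only [ContinuousLinearMap.comp_apply, xL_apply] at e2
  simp only [pb1_apply, lamO, add_apply, smul_apply, dc_apply, lf_bf, e1, e2, smul_eq_mul,
    xv_mk4, mk4_20]
  ring

theorem Ok.F1_mir (h : d.Ok) {f : E6 → ℝ} {f' : E6 →L[ℝ] ℝ} (hf : HasFDerivAt f f' z) (v : E6) :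
    pb1 (fun y => d.trn j (d.ka (mk4 (xv y) (y (2, 0)) (f y)))) (lamO d.Om) z v =
      z (2, 0) * f' v + z (2, 0) * bf (rm d.v) (d.x0 j) (xv v) / 2 +
        bf (d.Om (z (2, 0))) (xv z - d.x0 j) (xv v) / 2 := by
  have e : (fun y => d.trn j (d.ka (mk4 (xv y) (y (2, 0)) (f y)))) = fun y =>
      mk4 (rm d.T *ᵥ (xv y - d.x0 j)) (-y (2, 0))
        (-f y - bf (rm d.v) (d.x0 j) (xv y) / 2 + bf (rm d.v) (wj j) (rv d.c) / 4) := by
    funext y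
    have := h.bf_vT (rm d.T *ᵥ wj j) (xv y)
    refine ext4 (by simp only [trn, ka, xv_mk4, h.T_x0]) (by simp only [trn, ka, mk4_20]) ?_
    simp only [trn, ka, x0, xv_mk4, mk4_21, bf_add_left, bf_add_right, bf_smul_left,
      bf_smul_right, h.TTv] at this ⊢
    rw [this]
    ring
  have ha : HasFDerivAt (fun y => rm d.T *ᵥ (xv y - d.x0 j)) _ z :=
    (LinearMap.toContinuousLinearMap (rm d.T).mulVecLin).hasFDerivAt.comp z
      ((funext xL_apply ▸ xL.hasFDerivAt : HasFDerivAt xv xL z).sub_const _)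
  have := h.Om_neg (-z (2, 0))
  rw [neg_neg] at this
  rw [e, F1_pbO _ ha (F1_c _ z).differentiableAt.fun_neg
    ((hf.fun_neg.fun_sub (F1_bf (rm d.v) (d.x0 j) z)).add_const _), this, bf_pull]
  simp only [ContinuousLinearMap.comp_apply, xL_apply, sub_apply, neg_apply, smul_apply, lf_bf,
    LinearMap.coe_toContinuousLinearMap', Matrix.mulVecLin_apply, smul_eq_mul]
  ring

theorem Ok.F1_near (h : d.Ok) (hz : ‖xv z - d.x0 j‖ < 1 / 32) : ∃ n : ℤ, d.x0 j 2 = n + 1 / 2 ∧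
    |z (1, 0) - (n + 1 / 2)| < 1 / 32 ∧ ∀ᶠ y in 𝓝 z, d.a0 y = 0 := by
  obtain ⟨m, hm, ⟨n, hn⟩, -⟩ := h.x0_parity j
  have e : d.x0 j 2 = n + 1 / 2 := by
    simp only [hm, Pi.smul_apply, rv_apply, hn, smul_eq_mul]
    push_cast
    ring
  have k : |z (1, 0) - (n + 1 / 2)| < 1 / 32 := e ▸ (abs_le_norm4 (xv z - d.x0 j) 2).trans_lt hz
  refine ⟨n, e, k, h.a0_zero (Or.inl ?_)⟩
  rw [abs_lt] at k
  rw [rd, lt_abs]
  rcases le_or_gt (round (z (1, 0))) n with a | a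
  · have : (round (z (1, 0)) : ℝ) ≤ n := by exact_mod_cast a
    exact Or.inl (by linarith only [k, this])
  · have : (n : ℝ) + 1 ≤ round (z (1, 0)) := by exact_mod_cast a
    exact Or.inr (by linarith only [k, this])

theorem F1_L (hz : d.tt z < 0) : d1 d.lamL z = d1 (lamO d.Om) z :=
  d1_congr ((contDiff_tt.continuous.continuousAt.eventually (gt_mem_nhds hz)).mono fun y hy => by
    simp only [lamL, al_neg hy.le, zero_div, zero_smul, add_zero])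

theorem F1_Om (μ : ℝ) (a b : V4) :
    bf (d.Om0 μ) a b = bf (d.Om0 0) a b + μ * bf (rm d.v) a b := by
  rw [← bf_smul, ← bf_add, ← Om0_add, zero_add]

theorem Ok.mir_m (h : d.Ok) (hz : z ∈ d.Do j 1) :
    pb (d.cen j 1) (d1 d.lamL) z = d1 (d.lam .m) z := by
  have hμ := h.hμ
  obtain ⟨n, -, -, ha⟩ := h.F1_near (h.Do_near.2.1 (Or.inl hz)).1
  rw [pb_congr' (F1_L (by rw [tt, (cen_lev j z).2.1]; linarith only [hμ, hz, hz.1.1]))]
  refine symp_of (r := fun y => d.μ₁ * y (2, 1) - bf (d.Om0 0) (d.x0 j) (xv y) / 2)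
    (d.contDiff_cen j 1).contDiffAt d.contDiff_lamO.contDiffAt (h.lam_sm hz.1) (by fun_prop) ?_
  filter_upwards [ha, (h.isOpen_Wo .m).mem_nhds hz.1] with y a0 hy
  ext1 v
  have e : d.cen j 1 = fun y => d.trn j (d.ka (mk4 (xv y) (y (2, 0)) (y (2, 1)))) :=
    funext fun y => by rw [mk4_eta]; rfl
  have hr : HasFDerivAt (fun y : E6 => d.μ₁ * y (2, 1) - bf (d.Om0 0) (d.x0 j) (xv y) / 2) _ y :=
    ((dc (2, 1)).hasFDerivAt.const_mul _).sub (F1_bf ..)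
  rw [e, h.F1_mir (F1_c _ y), hr.fderiv,
    d.Om_mid (hy.2.1.le.trans (by norm_num)) (by linarith only [hμ, hy, hy.1]), bf_sub_left,
    F1_Om _ (d.x0 j)]
  simp only [lam, a0, tt, add_apply, sub_apply, smul_apply, lf_bf, smul_eq_mul, zero_div, zero_mul]
  ring

theorem Ok.mir_p (h : d.Ok) (hz : z ∈ d.Do j 3) :
    pb (d.cen j 3) (d1 d.lamL) z = d1 (d.lam .p) z := by
  have hμ := h.hμ
  obtain ⟨n, hn, hx, ha⟩ := h.F1_near (h.Do_near.2.1 (Or.inr hz)).1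
  have lv : ∀ y ∈ d.Wo .p, d.μ₁ < y (2, 0) := fun y hy => sub_pos.1 hy.1
  rw [pb_congr' (F1_L (by rw [tt, (cen_lev j z).2.2.2]; linarith only [hμ, lv, hz, lv z hz.1]))]
  let W : E6 → ℝ := fun y =>
    deriv shf (d.tt y) * ((y (1, 0) - d.x0 j 2) * (y (1, 1) - d.x0 j 3)) / 2
  let f : E6 → ℝ := fun y => y (2, 1) + y (1, 0) * y (1, 1) / 2 - d.x0 j 2 * y (1, 1) -
    (d.x0 j 2 - 1 / 2) / 2 - W y
  have s0 := d.contDiff_tt
  have s1 := contDiff_shf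
  have s2 := contDiff_deriv_shf
  have sW : ContDiff ℝ ∞ W := by fun_prop
  refine symp_of (r := fun y => d.μ₁ * f y - d.tt y * W y + shf (d.tt y) *
      ((y (1, 0) - d.x0 j 2) * (y (1, 1) - d.x0 j 3)) * 2⁻¹ - bf (d.Om0 0) (d.x0 j) (xv y) / 2)
    (d.contDiff_cen j 3).contDiffAt d.contDiff_lamO.contDiffAt (h.lam_sm hz.1) (by fun_prop) ?_
  have hg : ∀ᶠ y in 𝓝 z, d.gz y = ee ((n + 1 / 2) * y (1, 1) + n / 2) :=
    (((F1_c (1, 0) z).sub_const _).continuousAt.abs.eventually (gt_mem_nhds hx)).mono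
      fun y hy => h.gz_far (hy.le.trans (by norm_num))
  filter_upwards [ha, (h.isOpen_Wo .p).mem_nhds hz.1, hg.eventually_nhds] with y a0 hy gy
  ext1 v
  have hW := (sW.differentiable (by simp) y).hasFDerivAt
  have hf : HasFDerivAt f _ y := (((F1_c _ y).fun_add (((F1_c _ y).fun_mul (F1_c _ y)).mul_const
    2⁻¹)).fun_sub ((F1_c _ y).const_mul _)).sub_const _ |>.fun_sub hW
  have ht : HasFDerivAt d.tt _ y := (F1_c _ y).sub_const _
  have hs := (s1.differentiable (by simp) (d.tt y)).hasDerivAt.comp_hasFDerivAt y ht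
  have hr := ((hf.const_mul d.μ₁).fun_sub (ht.fun_mul hW)).fun_add ((hs.fun_mul
    (((F1_c (1, 0) y).sub_const (d.x0 j 2)).fun_mul
      ((F1_c (1, 1) y).sub_const (d.x0 j 3)))).mul_const 2⁻¹) |>.fun_sub
    (F1_bf (d.Om0 0) (d.x0 j) y)
  have hθ := ((F1_c (1, 1) y).const_mul ((n : ℝ) + 1 / 2)).add_const ((n : ℝ) / 2)
  have hA : ang d.gz y = _ := (ang_congr gy).trans ((ang_ee hθ.differentiableAt).trans hθ.fderiv)
  refine (h.F1_mir hf v).trans ?_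
  rw [add_apply]
  erw [hr.fderiv]
  rw [d.Om_up (by linarith only [hμ, lv, hy, lv y hy]), bf_sub, bf_smul, bf_E23, bf_sub_left, F1_Om _ (d.x0 j)]
  simp only [lam, a0, hA, gy.self_of_nhds, normSq_ee, ← hn, W, add_apply, sub_apply, smul_apply,
    lf_bf, smul_eq_mul, dc_apply, Pi.sub_apply, xv_2, xv_3, Function.comp_apply]
  simp only [tt]
  ring

theorem Ok.Ph_symp (h : d.Ok) (hz : z ∈ d.Do j l) :
    pb (d.Ph j l) (d1 lamS) z = d1 (d.lam (sP l)) z := by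
  have dc : ∀ l, DifferentiableAt ℝ (d.cen j l) z := fun l =>
    (d.contDiff_cen j l).differentiable (by simp) z
  have lo : ∀ l, d.cen j l z ∈ d.CL →
      pb (fun y => d.lowF (d.cen j l y)) (d1 lamS) z = pb (d.cen j l) (d1 d.lamL) z :=
    fun l hc => (pb_comp _ (dc l) ((h.lowF_sm hc).differentiableAt (by simp))).trans
      (pb_congr' (h.lowF_symp hc))
  have nr : z ∈ d.Do j 0 ∨ z ∈ d.Do j 2 → |z (1, 0)| < 1 / 32 ∧ |z (1, 1)| < 1 / 32 := fun hz =>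
    ⟨(congrArg abs (sub_zero _).symm).trans_lt
      ((abs_le_norm4 (xv z - wj j) 2).trans_lt (h.Do_near.1 hz).1),
    (congrArg abs (sub_zero _).symm).trans_lt
      ((abs_le_norm4 (xv z - wj j) 3).trans_lt (h.Do_near.1 hz).1)⟩
  fin_cases l
  · obtain ⟨n1, n2⟩ := nr (.inl hz)
    have hm : z ∈ d.Wo .m := hz.1
    obtain ⟨hc, he⟩ := h.lamL_m hm (.inr ⟨by linarith only [n1], by linarith only [n2]⟩)
    exact (lo 0 (h.Do_cen.1 hz)).trans ((h.trn_L hc (by linarith only [hm, h, hm.1, h.hμ])).trans he)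
  · exact (lo 1 (h.Do_cen.2.1 hz)).trans (h.mir_m hz)
  · obtain ⟨n1, n2⟩ := nr (.inr hz)
    have hp : z ∈ d.Wo .p := hz.1
    have hc := h.Do_cen.2.2.1 hz
    refine (pb_comp _ (dc 2) ((h.uppF_sm hc).differentiableAt (by simp))).trans
      ((pb_congr' (h.uppF_symp hc)).trans ?_)
    exact (pb_comp _ (d.contDiff_pu.differentiable (by simp) z)
      ((d.F1_trn_sm j _).differentiableAt (by simp))).trans
        ((pb_congr' (h.trn_H (z := d.pu z) hp.1)).trans (h.pu_symp hp n1 n2))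
  · exact (lo 3 (h.Do_cen.2.2.2 hz)).trans (h.mir_p hz)
  · have ht := F1_tF (j := j) hz.1
    exact (pb_comp _ (dc 4) ((h.fF_sm ht).differentiableAt (by simp))).trans
      ((pb_congr' (h.fF_symp ht)).trans (Df_symp _ _ z))

theorem Ok.Ph_inj (h : d.Ok) (hz : z ∈ d.Do j l) :
    Function.Injective (fderiv ℝ (d.Ph j l) z) :=
  ND.inj (h.nd_lam hz.1) (h.Ph_symp hz)

theorem Ok.par_Ph (h : d.Ok) (j : J4) (l : Fin 5) : Par (M := E6) (d.Ph j l) (d.Do j l) :=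
  par_of_inj (h.isOpen_Do j l) (fun _ hz => h.Ph_sm hz) fun _ hz => h.Ph_inj hz

end HD

end Pool.Agent.Work.MP_bf98aa_gt.B3
end
end
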