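import Pool.Agent.Work.MP_bf98aa_gt.B3.Ke

/-!
The group near the fixed tori.

PLAN. `psK z = φ + xy X₀ X₁ X₂ X₃ / 2`, so `kf k z = psK z - xy X₀ X₁ (1 / 4) (k.1 / 2) - (k.1 e₃ / 4 + k.2 / 2)`; `bf_v`, `XX_*`, `ring`. With `L = A' l`: `l = A L`, `l 3 = ∑ j, A 3 j * L j`, `e 3 = A 3 3`.
`kf_Dm`: the constant is `l 3 / 2 + n - (L₀ Xh₀₀ + L₁ Xh₁₀) / 2 - k.1 (..)`, an integer by `u0`, `u1`. `kf_ka`: the same with `A 3 3 * k.1 / 2 - k.1 e₃ / 2 = 0`.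
`shift`: `l = A *ᵥ ![m, m', 0, 0]`, `n` from `kf_Dm` (`Dm_add`). `flip`: `l = A *ᵥ ![m, m', 0, k.1]`. `kU_iff`: (←) `shift`, `flip`, `kI_kU`. (→) `small` for both points; `X 2` excludes one use of `io` with or without `ka`
(`|L 2 ± 1 / 2| < 1 / 4`) and gives `L 2 = 0`; `X 3` gives `k.1 = k'.1` and `L 3 = 0` or `k.1`; `kf k' = kf k + (k.2 - k'.2) / 2` gives `k.2 = k'.2` and that the integer is `0`.
`Kset_gm`: conjugate with the laws of `N1`. `Kset_iff`: (←) `kr_zero`, `flip 0 0`, `kI_kU`, `Kset_gm`. (→) a fixed point has `μ = 0`, `L 0 = L 1 = 0`, `X 2 = 1 / 4 + L 2 / 2`, `X 3 = L 3 / 2`, `psK = xy X₀ X₁ X₂ X₃ + l 3 / 4 + n / 2`;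
`k.1 = L 3 mod 2`; `L 2` even: translate by `A *ᵥ ![0, 0, -L 2 / 2, (k.1 - L 3) / 2]`; `L 2` odd: `io`, then `A *ᵥ ![0, 0, (L 2 + 1) / 2, (k.1 + L 3) / 2]` (`c3`); then `kf (k.1, 0) ∈ ℤ / 2`, choose `k.2` and `n`.
`Ko_far`: `X 2` is within `1 / 8` of `1 / 4 + ℤ / 2`. `Ko_hole`: `ex = 0` below the kink, `b1`, the entry `2` of `A' (x - l / 2)` and `A' T = diag A'`.
-/

set_option autoImplicit false

open scoped Manifold ContDiff Topology Matrix ComplexConjugate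
open Set Complex Filter

namespace Pool.Agent.Work.MP_bf98aa_gt.B3

open Pool.Agent.Work.MP_bf98aa_gt.Th Pool.Agent.Work.MP_bf98aa_gt.Cy

namespace HD

variable {d : HD} {z z' : E6} {k k' : J4}

/-- The angle in the gauge of the fold. -/
noncomputable def psK (d : HD) (z : E6) : ℝ :=
  z (2, 1) + d.xy (d.XX z 0) (d.XX z 1) (d.XX z 2) (d.XX z 3) / 2

theorem psK_Dm (l : L4) (n : ℤ) (z : E6) : d.psK (d.Dm l n z) = d.psK z +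
    d.xy (d.XX z 0) (d.XX z 1) ((d.A' *ᵥ l) 2) ((d.A' *ᵥ l) 3) +
    d.xy ((d.A' *ᵥ l) 0) ((d.A' *ᵥ l) 1) ((d.A' *ᵥ l) 2) ((d.A' *ᵥ l) 3) / 2 + l 3 / 2 + n := by
  have e : d.Dm l n z (2, 1) = z (2, 1) - bf (rm d.v) (rv l) (xv z) / 2 + l 3 / 2 + n := rfl
  rw [psK, psK, e, XX_Dm, bf_v, ← rv_mulVec]
  simp only [Pi.add_apply, rv_apply, XX, xy]
  ring

theorem psK_io (z : E6) : d.psK (io z) = d.psK z := by
  have e : io z (2, 1) = z (2, 1) := rfl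
  rw [psK, psK, e, XX_io]
  simp only [Pi.neg_apply, xy]
  ring

theorem Ok.Kg_c (h : d.Ok) : d.A' *ᵥ d.c = ![0, 0, 1, 0] := by
  have e : ∀ i, (d.A' *ᵥ d.c) i = (d.A' * d.A) i 2 := fun i => rfl
  funext i
  rw [e, h.AA']
  fin_cases i <;> rfl

theorem Ok.Kg_A (h : d.Ok) (L : L4) : d.A' *ᵥ (d.A *ᵥ L) = L := by
  rw [Matrix.mulVec_mulVec, h.AA', Matrix.one_mulVec]

theorem Ok.Kg_l3 (h : d.Ok) (l : L4) : l 3 = d.A 3 0 * (d.A' *ᵥ l) 0 + d.A 3 1 * (d.A' *ᵥ l) 1 +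
    d.A 3 2 * (d.A' *ᵥ l) 2 + d.A 3 3 * (d.A' *ᵥ l) 3 := by
  have e : d.A *ᵥ (d.A' *ᵥ l) = l := by rw [Matrix.mulVec_mulVec, h.AA, Matrix.one_mulVec]
  generalize d.A' *ᵥ l = L at e ⊢
  rw [← e]
  simp [Matrix.mulVec, dotProduct, Fin.sum_univ_four]

theorem Kg_kf (k : J4) (z : E6) : d.kf k z = d.psK z -
    d.xy (d.XX z 0) (d.XX z 1) (1 / 4) (((k.1 : ℕ) : ℝ) / 2) -
    (((k.1 : ℕ) : ℝ) * d.A 3 3 / 4 + ((k.2 : ℕ) : ℝ) / 2) := rfl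

theorem Kg_int {m : ℤ} (h1 : (-1 : ℝ) < m) (h2 : (m : ℝ) < 1) : m = 0 := by
  have h1' : (-1 : ℤ) < m := by exact_mod_cast h1
  have h2' : m < (1 : ℤ) := by exact_mod_cast h2
  omega

theorem Ok.psK_ka (h : d.Ok) (z : E6) :
    d.psK (d.ka z) = -d.psK z + d.xy (d.XX z 0) (d.XX z 1) (1 / 2) 0 := by
  have e : d.ka z (2, 1) = -z (2, 1) - bf (rm d.v) (rv d.c) (xv z) / 4 := rfl
  rw [psK, psK, e, h.XX_ka, bf_v, ← rv_mulVec, h.Kg_c]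
  simp [rv_apply, XX, xy]
  ring

theorem Ok.kf_Dm (h : d.Ok) (k : J4) {l : L4} (h2 : (d.A' *ᵥ l) 2 = 0) (h3 : (d.A' *ᵥ l) 3 = 0) :
    ∃ N : ℤ, ∀ (n : ℤ) z, d.kf k (d.Dm l n z) = d.kf k z + N + n := by
  obtain ⟨j0, hj0⟩ := h.u0
  obtain ⟨j1, hj1⟩ := h.u1
  have e := h.Kg_l3 l
  refine ⟨(d.A' *ᵥ l) 0 * (j0 - d.Xh 0 0) + (d.A' *ᵥ l) 1 * (j1 - d.Xh 1 0) -
    (k.1 : ℕ) * ((d.A' *ᵥ l) 0 * d.Xh 0 1 + (d.A' *ᵥ l) 1 * d.Xh 1 1), fun n z => ?_⟩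
  rw [Kg_kf, Kg_kf, psK_Dm, XX_Dm, e, eq_sub_of_add_eq hj0, eq_sub_of_add_eq hj1]
  simp only [Pi.add_apply, rv_apply, h2, h3, xy]
  push_cast
  ring

theorem Ok.kf_ka (h : d.Ok) (k : J4) {l : L4} (h2 : (d.A' *ᵥ l) 2 = 0)
    (h3 : (d.A' *ᵥ l) 3 = ((k.1 : ℕ) : ℤ)) :
    ∃ N : ℤ, ∀ (n : ℤ) z, d.kf k (d.Dm l n (d.ka z)) = -d.kf k z + N + n := by
  obtain ⟨j0, hj0⟩ := h.u0
  obtain ⟨j1, hj1⟩ := h.u1
  have e := h.Kg_l3 l
  refine ⟨(d.A' *ᵥ l) 0 * (j0 - d.Xh 0 0) + (d.A' *ᵥ l) 1 * (j1 - d.Xh 1 0) - (k.2 : ℕ),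
    fun n z => ?_⟩
  rw [Kg_kf, Kg_kf, psK_Dm, XX_Dm, h.psK_ka, h.XX_ka, e, eq_sub_of_add_eq hj0,
    eq_sub_of_add_eq hj1]
  simp only [Pi.add_apply, rv_apply, h2, h3, xy, Matrix.cons_val_zero, Matrix.cons_val_one]
  push_cast
  ring

theorem Kg_D (k : J4) {l : L4} {n : ℤ} (h2 : (d.A' *ᵥ l) 2 = 0) (h3 : (d.A' *ᵥ l) 3 = 0)
    (hf : d.kf k (d.Dm l n z) = d.kf k z) : d.kU k (d.Dm l n z) =
      mkc (d.k1 k z) (d.k2 k z) ⟨d.ks k z + (d.A' *ᵥ l) 0, d.kt k z + (d.A' *ᵥ l) 1⟩ := by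
  simp only [kU, k1, k2, ks, kt, hf, N1_m_D0, XX_Dm, Pi.add_apply, rv_apply, h2, h3, Int.cast_zero,
    add_zero]
  congr 2 <;> ring

theorem Ok.Kg_K (h : d.Ok) (k : J4) {l : L4} {n : ℤ} (h2 : (d.A' *ᵥ l) 2 = 0)
    (h3 : (d.A' *ᵥ l) 3 = ((k.1 : ℕ) : ℤ)) (hf : d.kf k (d.Dm l n (d.ka z)) = -d.kf k z) :
    d.kU k (d.Dm l n (d.ka z)) =
      mkc (-d.k1 k z) (-d.k2 k z) ⟨d.ks k z + (d.A' *ᵥ l) 0, d.kt k z + (d.A' *ᵥ l) 1⟩ := by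
  have eg : d.gK (-z (2, 0)) = d.gK (z (2, 0)) := by simp only [gK, neg_sq]
  have e0 : d.XX (d.Dm l n (d.ka z)) 0 = d.XX z 0 + (d.A' *ᵥ l) 0 := by
    rw [XX_Dm, h.XX_ka]; rfl
  have e1 : d.XX (d.Dm l n (d.ka z)) 1 = d.XX z 1 + (d.A' *ᵥ l) 1 := by
    rw [XX_Dm, h.XX_ka]; rfl
  have e2 : d.XX (d.Dm l n (d.ka z)) 2 = 1 / 2 - d.XX z 2 := by
    rw [XX_Dm, h.XX_ka, Pi.add_apply, rv_apply, h2, Int.cast_zero, add_zero]; rfl
  have e3 : d.XX (d.Dm l n (d.ka z)) 3 = -d.XX z 3 + (k.1 : ℕ) := by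
    rw [XX_Dm, h.XX_ka, Pi.add_apply, rv_apply, h3, Int.cast_natCast]; rfl
  simp only [kU, k1, k2, ks, kt, hf, N1_m_D0, N1_m_K0, eg, e0, e1, e2, e3, xy]
  congr 1
  · rw [← mul_neg]
    congr 1
    refine Complex.ext ?_ ?_ <;> simp only [neg_re, neg_im] <;> ring
  · rw [← mul_neg]
    rfl
  · congr 1 <;> ring

theorem Ok.shift (h : d.Ok) (k : J4) (m m' : ℤ) : ∃ l n, ∀ z, d.kU k (d.Dm l n z) =
    mkc (d.k1 k z) (d.k2 k z) ⟨d.ks k z + m, d.kt k z + m'⟩ := by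
  have e := h.Kg_A ![m, m', 0, 0]
  obtain ⟨N, hN⟩ := h.kf_Dm k (l := d.A *ᵥ ![m, m', 0, 0]) (by rw [e]; rfl) (by rw [e]; rfl)
  refine ⟨d.A *ᵥ ![m, m', 0, 0], -N, fun z => ?_⟩
  rw [Kg_D k (by rw [e]; rfl) (by rw [e]; rfl) (by rw [hN]; push_cast; ring), e]
  rfl

theorem Ok.flip (h : d.Ok) (k : J4) (m m' : ℤ) : ∃ l n, ∀ z, d.kU k (d.Dm l n (d.ka z)) =
    mkc (-d.k1 k z) (-d.k2 k z) ⟨d.ks k z + m, d.kt k z + m'⟩ := by
  have e := h.Kg_A ![m, m', 0, ((k.1 : ℕ) : ℤ)]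
  obtain ⟨N, hN⟩ := h.kf_ka k (l := d.A *ᵥ ![m, m', 0, ((k.1 : ℕ) : ℤ)]) (by rw [e]; rfl)
    (by rw [e]; rfl)
  refine ⟨d.A *ᵥ ![m, m', 0, ((k.1 : ℕ) : ℤ)], -N, fun z => ?_⟩
  rw [h.Kg_K k (by rw [e]; rfl) (by rw [e]; rfl) (by rw [hN]; push_cast; ring), e]
  rfl

theorem Kg_kf2 (p q q' : Fin 2) (z : E6) :
    d.kf (p, q') z = d.kf (p, q) z + (((q : ℕ) : ℝ) - (q' : ℕ)) / 2 := by
  simp only [kf]
  ring

theorem Kg_RU (a b : ℂ) (s t : ℝ) (m m' : ℤ) :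
    RU (mkc a b ⟨s, t⟩) (mkc a b ⟨s + m, t + m'⟩) ∧
      RU (mkc a b ⟨s, t⟩) (mkc (-a) (-b) ⟨s + m, t + m'⟩) := by
  refine ⟨⟨m, m', ?_⟩, ⟨m, m', ?_⟩⟩ <;>
    simp only [mkc_20, mkc_21, cc_mkc0, cc_mkc1, and_self, true_or, or_true]

theorem Kg_RU' {a b : ℂ} {s t : ℝ} {y : E6} (h : RU (mkc a b ⟨s, t⟩) y) : ∃ m m' : ℤ,
    mkc a b ⟨s + m, t + m'⟩ = y ∨ mkc (-a) (-b) ⟨s + m, t + m'⟩ = y := by
  obtain ⟨m, m', h0, h1, h2⟩ := h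
  rw [mkc_20] at h0
  rw [mkc_21] at h1
  rw [cc_mkc0, cc_mkc1] at h2
  refine ⟨m, m', h2.imp (fun c => ?_) fun c => ?_⟩ <;>
    exact extc ((cc_mkc0 _ _ _).trans c.1.symm) ((cc_mkc1 _ _ _).trans c.2.symm)
      ((cc_mkc2 _ _ _).trans (Complex.ext h0.symm h1.symm))

theorem Ok.kU_iff (h : d.Ok) (hz : z ∈ d.Ko k) (hz' : z' ∈ d.Ko k') :
    (∃ γ, d.gm γ z = z') ↔ k = k' ∧ RU (d.kU k z) (d.kU k z') := by
  obtain ⟨a0, a1, a2, a3⟩ := h.small (h.Ko_iff.1 hz)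
  obtain ⟨b0, b1, b2, b3⟩ := h.small (h.Ko_iff.1 hz')
  constructor
  · rintro ⟨⟨l, n, b, e⟩, rfl⟩
    rw [abs_lt] at a1 a2 a3 b1 b2 b3
    obtain ⟨p, q⟩ := k
    obtain ⟨p', q'⟩ := k'
    have hp := p.2
    have hp' := p'.2
    have hq := q.2
    have hq' := q'.2
    cases b <;> cases e <;> simp only [gm, cond_true, cond_false, id] at b1 b2 b3 ⊢
    · rw [XX_Dm, Pi.add_apply, rv_apply] at b2 b3
      have h2 : (d.A' *ᵥ l) 2 = 0 := Kg_int (by linarith only [a2, b2]) (by linarith only [a2, b2])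
      have h3 : 2 * (d.A' *ᵥ l) 3 + (p : ℕ) - (p' : ℕ) = 0 :=
        Kg_int (by push_cast; linarith only [a3, b3]) (by push_cast; linarith only [a3, b3])
      obtain rfl : p = p' := Fin.ext (by omega)
      obtain ⟨N, hN⟩ := h.kf_Dm (p, q) h2 (by omega)
      rw [Kg_kf2 p q q', hN] at b1
      have h4 : 2 * (N + n) + (q : ℕ) - (q' : ℕ) = 0 :=
        Kg_int (by push_cast; linarith only [a1, b1]) (by push_cast; linarith only [a1, b1])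
      obtain rfl : q = q' := Fin.ext (by omega)
      have h5 : (N : ℝ) + n = 0 := by exact_mod_cast (by omega : N + n = 0)
      rw [Kg_D _ h2 (by omega) (by rw [hN]; linarith only [h5])]
      exact ⟨rfl, (Kg_RU _ _ _ _ _ _).1⟩
    · rw [XX_Dm, XX_io, Pi.add_apply, Pi.neg_apply, rv_apply] at b2
      have h2 : 2 * (d.A' *ᵥ l) 2 - 1 = 0 := Kg_int (by push_cast; linarith only [a2, b2]) (by push_cast; linarith only [a2, b2])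
      omega
    · rw [XX_Dm, h.XX_ka, Pi.add_apply, rv_apply] at b2 b3
      simp only [Matrix.cons_val] at b2 b3
      have h2 : (d.A' *ᵥ l) 2 = 0 := Kg_int (by linarith only [a2, b2]) (by linarith only [a2, b2])
      have h3 : 2 * (d.A' *ᵥ l) 3 - (p : ℕ) - (p' : ℕ) = 0 :=
        Kg_int (by push_cast; linarith only [a3, b3]) (by push_cast; linarith only [a3, b3])
      obtain rfl : p = p' := Fin.ext (by omega)
      have h3' : (d.A' *ᵥ l) 3 = (((p, q) : J4).1 : ℕ) := by simp only; omega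
      obtain ⟨N, hN⟩ := h.kf_ka (p, q) h2 h3'
      rw [Kg_kf2 p q q', hN] at b1
      have h4 : 2 * (N + n) + (q : ℕ) - (q' : ℕ) = 0 :=
        Kg_int (by push_cast; linarith only [a1, b1]) (by push_cast; linarith only [a1, b1])
      obtain rfl : q = q' := Fin.ext (by omega)
      have h5 : (N : ℝ) + n = 0 := by exact_mod_cast (by omega : N + n = 0)
      rw [h.Kg_K _ h2 h3' (by rw [hN]; linarith only [h5])]
      exact ⟨rfl, (Kg_RU _ _ _ _ _ _).2⟩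
    · rw [XX_Dm, h.XX_ka, XX_io, Pi.add_apply, rv_apply] at b2
      simp only [Matrix.cons_val, Pi.neg_apply] at b2
      have h2 : 2 * (d.A' *ᵥ l) 2 + 1 = 0 := Kg_int (by push_cast; linarith only [a2, b2]) (by push_cast; linarith only [a2, b2])
      omega
  · rintro ⟨rfl, h2⟩
    obtain ⟨m, m', c0 | c0⟩ := Kg_RU' h2
    · obtain ⟨l, n, e⟩ := h.shift k m m'
      refine ⟨(l, n, false, false), ?_⟩
      have e' : d.kU k (d.Dm l n z) = d.kU k z' :=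
        (e z).trans c0
      exact (h.kI_kU (k := k) (z := d.Dm l n z) a0.le).symm.trans (e' ▸ h.kI_kU b0.le)
    · obtain ⟨l, n, e⟩ := h.flip k m m'
      refine ⟨(l, n, true, false), ?_⟩
      have e' : d.kU k (d.Dm l n (d.ka z)) = d.kU k z' :=
        (e z).trans c0
      exact (h.kI_kU (k := k) (z := d.Dm l n (d.ka z))
        (by rw [N1_m_D0, N1_m_K0, abs_neg]; exact a0.le)).symm.trans (e' ▸ h.kI_kU b0.le)

theorem Kg_trans (l l' : L4) (n n' : ℤ) : ∃ a b, ∀ w, d.Dm a b (d.Dm l n w) = d.Dm l' n' w := by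
  obtain ⟨m, hm⟩ := Dm_Dm (d := d) (l' - l) l 0 n
  exact ⟨l' - l, 0 + (n' - m), fun w => by
    rw [← Dm_add, hm, Dm_add, sub_add_cancel, add_sub_cancel]⟩

theorem Ok.Kg_gm (h : d.Ok) (γ : L4 × ℤ × Bool × Bool) (hz : z ∈ d.Kset) : d.gm γ z ∈ d.Kset := by
  have hD : ∀ a b, ∀ z ∈ d.Kset, d.Dm a b z ∈ d.Kset := by
    rintro a b z ⟨l, n, e⟩
    obtain ⟨m, hm⟩ := h.ka_Dm a b
    obtain ⟨m', hm'⟩ := Dm_Dm (d := d) a l b n
    obtain ⟨s, t, e'⟩ := Kg_trans (d := d) (d.T *ᵥ a) (a + l) m m'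
    exact ⟨s, t, by rw [hm, e', ← hm', e]⟩
  have hK : ∀ z ∈ d.Kset, d.ka z ∈ d.Kset := by
    rintro z ⟨l, n, e⟩
    obtain ⟨m, hm⟩ := h.ka_Dm l n
    exact ⟨_, m, by rw [← hm, e]⟩
  have hI : ∀ z ∈ d.Kset, io z ∈ d.Kset := by
    rintro z ⟨l, n, e⟩
    obtain ⟨m, hm⟩ := h.ka_io
    obtain ⟨s, t, e'⟩ := Kg_trans (d := d) d.c (-l) m (n + l 3)
    exact ⟨s, t, by rw [hm, e', ← io_Dm, e]⟩
  obtain ⟨l, n, b, e⟩ := γ
  cases b <;> cases e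
  exacts [hD _ _ _ hz, hD _ _ _ (hI _ hz), hD _ _ _ (hK _ hz), hD _ _ _ (hK _ (hI _ hz))]

theorem Ok.Kg_fix (h : d.Ok) {l : L4} {n : ℤ} (e : d.Dm l n (d.ka z) = z) : z (2, 0) = 0 ∧
    d.XX z 2 = 1 / 4 + ((d.A' *ᵥ l) 2 : ℝ) / 2 ∧ d.XX z 3 = ((d.A' *ᵥ l) 3 : ℝ) / 2 := by
  have h0 := congrFun e (2, 0)
  have h1 := congrArg d.XX e
  rw [N1_m_D0, N1_m_K0] at h0
  rw [XX_Dm, h.XX_ka] at h1
  have h2 := congrFun h1 2
  have h3 := congrFun h1 3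
  simp only [Pi.add_apply, rv_apply, Matrix.cons_val] at h2 h3
  exact ⟨by linarith only [h0], by linarith only [h2], by linarith only [h3]⟩

theorem Ok.Kset_gm (h : d.Ok) (γ : L4 × ℤ × Bool × Bool) : d.gm γ z ∈ d.Kset ↔ z ∈ d.Kset := by
  obtain ⟨γ', e⟩ := h.grp_m.inv γ
  exact ⟨fun hz => e z ▸ h.Kg_gm γ' hz, h.Kg_gm γ⟩

theorem Ok.Kset_iff (h : d.Ok) :
    z ∈ d.Kset ↔ ∃ l n e k, kr (d.kU k (d.gm (l, n, false, e) z)) = 0 := by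
  constructor
  · intro hz
    have key : ∀ (l : L4) (e : Bool) (p : Fin 2), d.XX (d.gm (l, 0, false, e) z) 2 = 1 / 4 →
        d.XX (d.gm (l, 0, false, e) z) 3 = ((p : ℕ) : ℝ) / 2 →
        ∃ l n e k, kr (d.kU k (d.gm (l, n, false, e) z)) = 0 := by
      intro l e p h2 h3
      obtain ⟨l', n', e'⟩ := h.Kg_gm (l, 0, false, e) hz
      obtain ⟨f0, f2, f3⟩ := h.Kg_fix e'
      have g2 : (d.A' *ᵥ l') 2 = 0 := by
        have : (((d.A' *ᵥ l') 2 : ℤ) : ℝ) = 0 := by linarith only [h2, f2]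
        exact_mod_cast this
      have g3 : (d.A' *ᵥ l') 3 = ((((p, 0) : J4).1 : ℕ) : ℤ) := by
        have : (((d.A' *ᵥ l') 3 : ℤ) : ℝ) = (p : ℕ) := by linarith only [h3, f3]
        exact_mod_cast this
      obtain ⟨N, hN⟩ := h.kf_ka (p, 0) g2 g3
      have g4 := hN n' (d.gm (l, 0, false, e) z)
      rw [e'] at g4
      obtain ⟨q, s, hq⟩ : ∃ (q : Fin 2) (s : ℤ), N + n' = 2 * s + (q : ℕ) := by
        rcases Int.even_or_odd' (N + n') with ⟨s, hs | hs⟩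
        exacts [⟨0, s, by simpa using hs⟩, ⟨1, s, by simpa using hs⟩]
      have hq' : (N : ℝ) + n' = 2 * s + (q : ℕ) := by exact_mod_cast hq
      obtain ⟨N', hN'⟩ := h.kf_Dm (p, q) (l := 0) (by simp) (by simp)
      have e2 : d.gm (l, 0 + (-s - N'), false, e) z =
          d.Dm 0 (-s - N') (d.gm (l, 0, false, e) z) := (Dm_add _ _ _ _).symm
      refine ⟨l, 0 + (-s - N'), e, (p, q), ?_⟩
      rw [e2, h.kr_zero, N1_m_D0, hN', Kg_kf2 p 0 q, XX_Dm, Matrix.mulVec_zero, rv_zero, add_zero]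
      refine ⟨f0, ?_, h2, h3⟩
      push_cast
      simp only [Fin.val_zero, Nat.cast_zero]
      linarith only [g4, hq']
    obtain ⟨l, n, e⟩ := hz
    obtain ⟨-, f2, f3⟩ := h.Kg_fix e
    obtain ⟨p, i, hp⟩ : ∃ (p : Fin 2) (i : ℤ), (d.A' *ᵥ l) 3 = 2 * i + (p : ℕ) := by
      rcases Int.even_or_odd' ((d.A' *ᵥ l) 3) with ⟨s, hs | hs⟩
      exacts [⟨0, s, by simpa using hs⟩, ⟨1, s, by simpa using hs⟩]
    rw [hp] at f3
    rcases Int.even_or_odd' ((d.A' *ᵥ l) 2) with ⟨j, hj | hj⟩ <;> rw [hj] at f2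
    · refine key (d.A *ᵥ ![0, 0, -j, -i]) false p ?_ ?_ <;>
        simp only [gm, cond_false, id, XX_Dm, h.Kg_A, Pi.add_apply, rv_apply, Matrix.cons_val, f2,
          f3] <;> push_cast <;> ring
    · refine key (d.A *ᵥ ![0, 0, j + 1, i + (p : ℕ)]) true p ?_ ?_ <;>
        simp only [gm, cond_false, cond_true, id, XX_Dm, XX_io, h.Kg_A, Pi.add_apply, Pi.neg_apply,
          rv_apply, Matrix.cons_val, f2, f3] <;> push_cast <;> ring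
  · rintro ⟨l, n, e, k, hk⟩
    rw [← h.Kset_gm (l, n, false, e)]
    generalize d.gm (l, n, false, e) z = w at hk
    obtain ⟨f0, f1, f2, f3⟩ := h.kr_zero.1 hk
    obtain ⟨l', n', e'⟩ := h.flip k 0 0
    have g1 : d.k1 k w = 0 := by
      rw [k1, f2, f3, sub_self, sub_self]
      exact mul_zero _
    have g2 : d.k2 k w = 0 := by
      rw [k2, f0, f1]
      exact mul_zero _
    have e2 : d.kU k (d.Dm l' n' (d.ka w)) = d.kU k w := by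
      rw [e', kU, g1, g2, neg_zero, Int.cast_zero, add_zero, add_zero]
    exact ⟨l', n', (h.kI_kU (k := k) (z := d.Dm l' n' (d.ka w))
      (by rw [N1_m_D0, N1_m_K0, f0]; norm_num)).symm.trans (e2 ▸ h.kI_kU (by rw [f0]; norm_num))⟩

theorem Ok.Ko_Kset (h : d.Ok) (hz : z ∈ d.Ko k) : z ∈ d.Kset ↔ kr (d.kU k z) = 0 := by
  constructor
  · intro hK
    obtain ⟨l, n, e, k', hk⟩ := h.Kset_iff.1 hK
    obtain ⟨rfl, -, -, -, -, h2⟩ :=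
      (h.kU_iff hz (h.Ko_iff.2 (by rw [hk]; norm_num))).1 ⟨(l, n, false, e), rfl⟩
    rw [← hk]
    rcases h2 with ⟨c0, c1⟩ | ⟨c0, c1⟩ <;> simp only [kr, c0, c1, normSq_neg]
  · intro hk
    refine h.Kset_iff.2 ⟨0, 0, false, k, ?_⟩
    simpa only [gm, cond_false, id, Dm_zero] using hk

theorem Kg_quarter {y : ℝ} (m : ℤ) (h : |y - (2 * m + 1) / 4| < 1 / 8) : 1 / 8 < |y| := by
  rw [abs_lt] at h
  rcases le_or_gt 0 m with hm | hm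
  · have : (0 : ℝ) ≤ m := by exact_mod_cast hm
    exact lt_abs.2 (Or.inl (by linarith only [h, this]))
  · have : (m : ℝ) ≤ -1 := by exact_mod_cast (by omega : m ≤ -1)
    exact lt_abs.2 (Or.inr (by linarith only [h, this]))

theorem Ok.Kg_far (h : d.Ok) (γ : L4 × ℤ × Bool × Bool) (hz : d.gm γ z ∈ d.Ko k) (l : L4) :
    1 / 8 < |(rm d.A' *ᵥ (xv z - (1 / 2 : ℝ) • rv l)) 2| := by
  have h2 := (h.Ko_small hz).2.1
  have e : (rm d.A' *ᵥ (xv z - (1 / 2 : ℝ) • rv l)) 2 = d.XX z 2 - ((d.A' *ᵥ l) 2 : ℝ) / 2 := by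
    rw [Matrix.mulVec_sub, Matrix.mulVec_smul, ← rv_mulVec, Pi.sub_apply, Pi.smul_apply, rv_apply,
      smul_eq_mul, XX]
    ring
  rw [e]
  obtain ⟨a, n, b, c⟩ := γ
  cases b <;> cases c <;>
    simp only [gm, cond_true, cond_false, id, XX_Dm, h.XX_ka, XX_io, Pi.add_apply, Pi.neg_apply,
      rv_apply, Matrix.cons_val] at h2
  · refine Kg_quarter (-2 * (d.A' *ᵥ a) 2 - (d.A' *ᵥ l) 2) ?_
    convert h2 using 2
    push_cast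
    ring
  · refine Kg_quarter (2 * (d.A' *ᵥ a) 2 - (d.A' *ᵥ l) 2 - 1) ?_
    rw [← abs_neg]
    convert h2 using 2
    push_cast
    ring
  · refine Kg_quarter (2 * (d.A' *ᵥ a) 2 - (d.A' *ᵥ l) 2) ?_
    rw [← abs_neg]
    convert h2 using 2
    push_cast
    ring
  · refine Kg_quarter (-2 * (d.A' *ᵥ a) 2 - (d.A' *ᵥ l) 2 - 1) ?_
    convert h2 using 2
    push_cast
    ring

theorem Ok.Ko_far (h : d.Ok) (γ : L4 × ℤ × Bool × Bool) (hz : d.gm γ z ∈ d.Ko k) (l : L4) :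
    1 / 32 < ‖rm d.A' *ᵥ (xv z - (1 / 2 : ℝ) • rv l)‖ := by
  exact lt_of_lt_of_le (lt_trans (by norm_num) (h.Kg_far γ hz l))
    (norm_le_pi_norm (rm d.A' *ᵥ (xv z - (1 / 2 : ℝ) • rv l)) 2)

theorem Ok.Ko_hole (h : d.Ok) (hz : z ∈ d.Ko k) : z ∉ d.Hole := by
  have h0 := (h.Ko_small hz).1
  have hμ := h.hμ
  have key : ∀ ν x, |ν| < 1 / 8 → d.rho ν x ≤ 2 → |(rm d.A' *ᵥ x) 2| ≤ 1 / 32 := by
    intro ν x hν hr
    have h1 := (abs_lt.1 hν).2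
    rw [rho, hh, ex, al, if_neg (by linarith only [hμ, h1]), shf_low (by linarith only [hμ, h1])] at hr
    exact (norm_le_pi_norm (rm d.A' *ᵥ x) 2).trans
      (h.b1 ν (by rw [M]; linarith only [hμ, hν]) x (by linarith only [hr])).2.2
  rintro ⟨l, -, hl⟩
  have h3 := h.Kg_far (k := k) (z := z) (0, 0, false, false)
    (by simpa only [gm, cond_false, id, Dm_zero] using hz) l
  rcases hl with ⟨-, hr⟩ | ⟨-, hr⟩
  · rw [max_eq_left (by rw [tt]; linarith only [hμ, h0, (abs_lt.1 h0).2])] at hr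
    linarith only [h3, key, h0, hr, key _ _ h0 hr]
  · have h4 := key _ _ (by rwa [abs_neg]) hr
    rw [Matrix.mulVec_mulVec, ← rm_mul, h.A'T, rm_mul, ← Matrix.mulVec_mulVec] at h4
    generalize rm d.A' *ᵥ (xv z - (1 / 2 : ℝ) • rv l) = y at h3 h4
    have e : (rm (Matrix.diagonal ![1, 1, -1, -1]) *ᵥ y) 2 = -y 2 := by
      simp [Matrix.mulVec, dotProduct, rm_apply, Matrix.diagonal]
    rw [e, abs_neg] at h4
    linarith only [h3, h4]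

end HD

end Pool.Agent.Work.MP_bf98aa_gt.B3
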