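import Pool.Agent.Work.MP_bf98aa_gt.B3.Ke
import Pool.Agent.Work.MP_bf98aa_gt.B3.Kg

-- merged part: Pool.Agent.Work.MP_bf98aa_gt.B3.Kc
section
/-!
The forms on the chart `K`.

PLAN. `nd_lamK`: with `f = (2 π nT)⁻¹`, `d1 lamK z ![u, v] = a (u20 v21 - u21 v20) + ∑ i, (d(f π_i) u * v0i - d(f π_i) v * u0i)` (`d1_add`, `d1_smul`, `d1_const`, or `d1_apply'`); test with `bv (1,i)` (gives `u0i = 0`), then `bv (0,i)`, `bv (2,i)`.
`lamK_eq`: `d (2 ξ / nT, 1 - 2 / nT)` by `HasFDerivAt`, `d nT = 2 ξ · dξ`; `field_simp; ring`. `pb1_toK`: `lamK_eq`, chain rule, `qK ∘ toK = q` near `z` (`TS.qK`, `EventuallyEq.fderiv_eq`).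
`invF_atlK`: `RK_ar`, `symp_of` with `r z = a n z(2,1)`, `pb1_toK` at the points near `x`, `lamK_eq`.
-/

set_option autoImplicit false

open scoped Manifold ContDiff Topology Matrix ComplexConjugate
open Set Complex Filter

namespace Pool.Agent.Work.MP_bf98aa_gt.B3

open Pool.Agent.Work.MP_bf98aa_gt.Th Pool.Agent.Work.MP_bf98aa_gt.Cy

variable {d : HD} {z : E6}

theorem Kc_c (i : Cx) (z : E6) : HasFDerivAt (fun y : E6 => y i) (dc i) z := (dc i).hasFDerivAt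

theorem Kc_nT (z : E6) :
    HasFDerivAt nT ((2 * z (0, 0)) • dc (0, 0) + (2 * z (0, 1)) • dc (0, 1)) z := by
  have h1 : nT = fun y : E6 => 1 + (y (0, 0) * y (0, 0) + y (0, 1) * y (0, 1)) := rfl
  rw [h1]
  refine ((((Kc_c (0, 0) z).fun_mul (Kc_c (0, 0) z)).fun_add
    ((Kc_c (0, 1) z).fun_mul (Kc_c (0, 1) z))).const_add 1).congr_fderiv ?_
  module

theorem Kc_inv (z : E6) : HasFDerivAt (fun y => (nT y)⁻¹)
    ((-(nT z ^ 2)⁻¹) • ((2 * z (0, 0)) • dc (0, 0) + (2 * z (0, 1)) • dc (0, 1))) z :=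
  (hasDerivAt_inv (nT_pos z).ne').comp_hasFDerivAt z (Kc_nT z)

theorem Kc_f : ContDiff ℝ ∞ fun z => (2 * Real.pi * nT z)⁻¹ :=
  (contDiff_const.mul contDiff_nT).inv fun z => by
    have := nT_pos z
    positivity

theorem Kc_d1 (c : ℝ) (i j : Cx) (z u v : E6) :
    d1 (fun y => (c * y i) • dc j) z ![u, v] = c * (u i * v j - v i * u j) := by
  rw [d1_smul (l := fun _ => dc j) (by fun_prop) contDiffAt_const, d1_const, smul_zero, add_zero,
    wedge_apply, ((Kc_c i z).const_mul c).fderiv]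
  simp [dc_apply]
  ring

theorem contDiff_lamU (d : HD) : ContDiff ℝ ∞ d.lamU := by
  exact ((contDiff_rot1 0).add (contDiff_rot1 1)).add (by fun_prop)

theorem contDiff_lamK (d : HD) : ContDiff ℝ ∞ d.lamK := by
  have h0 := Kc_f
  unfold HD.lamK
  fun_prop

theorem nd_lamK (h : d.Ok) (z : E6) : ND (d1 d.lamK z) := by
  intro u hu
  have hf : (2 * Real.pi * nT z)⁻¹ ≠ 0 := by
    have := nT_pos z
    positivity
  have hD := ((Kc_inv z).const_mul (2 * Real.pi)⁻¹).fderiv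
  simp only [← mul_inv] at hD
  have key : ∀ v : E6, d.a * (u (2, 0) * v (2, 1) - v (2, 0) * u (2, 1)) +
      (fderiv ℝ (fun y => (2 * Real.pi * nT y)⁻¹) z u * (z (1, 0) * v (0, 0) + z (1, 1) * v (0, 1)) -
      fderiv ℝ (fun y => (2 * Real.pi * nT y)⁻¹) z v * (z (1, 0) * u (0, 0) + z (1, 1) * u (0, 1)) +
      (2 * Real.pi * nT z)⁻¹ * ((u (1, 0) * v (0, 0) - v (1, 0) * u (0, 0)) +
        (u (1, 1) * v (0, 1) - v (1, 1) * u (0, 1)))) = 0 := fun v => by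
    have h1 := hu v
    have h2 := Kc_d1 1 (1, 0) (0, 0) z u v
    have h3 := Kc_d1 1 (1, 1) (0, 1) z u v
    simp only [one_mul] at h2 h3
    have h4 := Kc_f
    unfold HD.lamK at h1
    rw [d1_add (by fun_prop) (by fun_prop),
      d1_smul Kc_f.contDiffAt (by fun_prop), d1_add (by fun_prop) (by fun_prop)] at h1
    simp only [ContinuousAlternatingMap.add_apply, ContinuousAlternatingMap.smul_apply, Kc_d1, h2,
      h3, wedge_apply] at h1
    exact h1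
  rw [hD] at key
  generalize (2 * Real.pi * nT z)⁻¹ = f at hf key
  have ha := h.ha.ne'
  have a0 : u (0, 0) = 0 := by simpa [bv, dc_apply, hf] using key (bv (1, 0))
  have a1 : u (0, 1) = 0 := by simpa [bv, dc_apply, hf] using key (bv (1, 1))
  exact ext6 a0 a1 (by simpa [bv, dc_apply, hf, a0, a1] using key (bv (0, 0)))
    (by simpa [bv, dc_apply, hf, a0, a1] using key (bv (0, 1)))
    (by simpa [bv, dc_apply, ha, a0, a1] using key (bv (2, 1)))
    (by simpa [bv, dc_apply, ha, a0, a1] using key (bv (2, 0)))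

theorem nd_lamU (h : d.Ok) (z : E6) : ND (d1 d.lamU z) := by
  intro u hu
  have key : ∀ v : E6, (u (0, 0) * v (0, 1) - u (0, 1) * v (0, 0)) / Real.pi +
      (u (1, 0) * v (1, 1) - u (1, 1) * v (1, 0)) / Real.pi +
      d.a * (u (2, 0) * v (2, 1) - v (2, 0) * u (2, 1)) = 0 := fun v => by
    have h1 := hu v
    unfold HD.lamU at h1
    rw [d1_add ((contDiff_rot1 0).add (contDiff_rot1 1)).contDiffAt (by fun_prop),
      d1_add (contDiff_rot1 0).contDiffAt (contDiff_rot1 1).contDiffAt] at h1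
    simpa only [ContinuousAlternatingMap.add_apply, Kc_d1, d1_rot1] using h1
  have ha := h.ha.ne'
  have hp := Real.pi_ne_zero
  exact ext6 (by simpa [bv, hp] using key (bv (0, 1))) (by simpa [bv, hp] using key (bv (0, 0)))
    (by simpa [bv, hp] using key (bv (1, 1))) (by simpa [bv, hp] using key (bv (1, 0)))
    (by simpa [bv, ha] using key (bv (2, 1))) (by simpa [bv, ha] using key (bv (2, 0)))

theorem lamK_eq (d : HD) (z : E6) : d.lamK z = (d.a * z (2, 0)) • dc (2, 1) +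
    (4 * Real.pi)⁻¹ • ∑ i, pK z i • fderiv ℝ (fun y => qK y i) z := by
  have h0 : fderiv ℝ (fun y => qK y 0) z = _ :=
    (((Kc_c (0, 0) z).const_mul 2).fun_mul (Kc_inv z)).fderiv
  have h1 : fderiv ℝ (fun y => qK y 1) z = _ :=
    (((Kc_c (0, 1) z).const_mul 2).fun_mul (Kc_inv z)).fderiv
  have h2 : fderiv ℝ (fun y => qK y 2) z = _ := (((Kc_inv z).const_mul 2).const_sub 1).fderiv
  have h3 := (nT_pos z).ne'
  have h4 : nT z = 1 + (z (0, 0) * z (0, 0) + z (0, 1) * z (0, 1)) := rfl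
  have hp := Real.pi_ne_zero
  rw [Fin.sum_univ_three, h0, h1, h2, HD.lamK, add_right_inj]
  ext v : 1
  simp [pK, dc_apply]
  field_simp
  rw [h4]
  ring

theorem pb1_toK (d : HD) {q P : E6 → Fin 3 → ℝ} {s t : E6 → ℝ} (hq : ContDiffAt ℝ ∞ q z)
    (hP : ContDiffAt ℝ ∞ P z) (hs : ContDiffAt ℝ ∞ s z) (ht : ContDiffAt ℝ ∞ t z)
    (h : ∀ᶠ y in 𝓝 z, TS (q y) (P y)) :
    pb1 (fun y => toK (q y) (P y) (s y) (t y)) d.lamK z = (d.a * s z) • fderiv ℝ t z +
      (4 * Real.pi)⁻¹ • ∑ i, P z i • fderiv ℝ (fun y => q y i) z := by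
  have h0 := h.self_of_nhds
  have hF := (contDiffAt_toK hq hP hs ht h0.ne).differentiableAt (by simp)
  have h1 : (dc (2, 1)).comp (fderiv ℝ (fun y => toK (q y) (P y) (s y) (t y)) z) = fderiv ℝ t z :=
    ((dc (2, 1)).hasFDerivAt.comp z hF.hasFDerivAt).fderiv.symm
  have h2 : ∀ i, (fderiv ℝ (fun y => qK y i) (toK (q z) (P z) (s z) (t z))).comp
      (fderiv ℝ (fun y => toK (q y) (P y) (s y) (t y)) z) = fderiv ℝ (fun y => q y i) z := fun i => by
    rw [← fderiv_fun_comp z ((contDiff_pi.1 contDiff_qK i).differentiable (by simp) _) hF]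
    exact Filter.EventuallyEq.fderiv_eq (h.mono fun y hy => congrFun (hy.qK _ _) i)
  rw [pb1, lamK_eq, h0.pK, ← h1]
  simp only [← h2, ContinuousLinearMap.add_comp, ContinuousLinearMap.smul_comp,
    ContinuousLinearMap.finsetSum_comp, toK_20]

theorem invF_atlK (d : HD) : InvF atlK fun _ => d1 d.lamK := by
  rintro i x j y ⟨hx, -, h⟩
  obtain ⟨n, n', h1, h2⟩ := RK_ar hx h
  refine ⟨mvK n n', h1, symp_of (r := fun z => d.a * n * z (2, 1)) h1.sm
    (contDiff_lamK d).contDiffAt (contDiff_lamK d).contDiffAt (by fun_prop) ?_⟩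
  filter_upwards [h2.eventually_nhds] with z hz
  have h3 := pb1_toK d (q := fun y => ((-1 : ℝ) ^ n) • qK y) (P := fun y => ((-1 : ℝ) ^ n) • pK y)
    (s := fun y => y (2, 0) + n) (t := fun y => y (2, 1) + n') (contDiff_qK.const_smul _).contDiffAt
    (contDiff_pK.const_smul _).contDiffAt (by fun_prop) (by fun_prop) hz
  have h4 : ∀ i, fderiv ℝ (fun y => (((-1 : ℝ) ^ n) • qK y) i) z =
      ((-1 : ℝ) ^ n) • fderiv ℝ (fun y => qK y i) z := fun i =>
    (((contDiff_pi.1 contDiff_qK i).differentiable (by simp) z).hasFDerivAt.const_mul _).fderiv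
  have h5 : (-1 : ℝ) ^ n * (-1) ^ n = 1 := by rw [← mul_zpow, neg_mul_neg, one_mul, one_zpow]
  have h6 : ∀ i, (-1 : ℝ) ^ n * pK z i * (-1) ^ n = pK z i := fun i => by
    rw [mul_right_comm, h5, one_mul]
  refine h3.trans ?_
  rw [lamK_eq, ((Kc_c (2, 1) z).add_const _).fderiv, ((Kc_c (2, 1) z).const_mul _).fderiv]
  simp only [h4]
  simp only [smul_smul, Pi.smul_apply, smul_eq_mul, h6]
  module

end Pool.Agent.Work.MP_bf98aa_gt.B3
end

-- merged part: Pool.Agent.Work.MP_bf98aa_gt.B3.KMain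
section
-- merged part: Pool.Agent.Work.MP_bf98aa_gt.B3.Kd
section
/-!
The twist.

PLAN. `ts_kV`, `TS.qK`, `TS.pK`, `pK_norm`, `kV_facts`. `tw_iff`: `RK_norm` and `tw_norm` give `kr w' = kr w`; then `kV w' = (-1) ^ n • kV w`, `ee (-(s + n) / 2) = (-1) ^ n * ee (-s / 2)` (`ee_add`, `ee_half`), `ver_inj`.
`tw_surj`: `r = ‖cc 1 y‖`, `U i = ee (s / 2) * (r * qK y i - I * pK y i)` is a null vector (`ts_K`, `pK_norm`), `ver_surj`, `ver_norm` gives `kr = r`; `w = mkc a b ⟨s, t + r / (4 a)⟩`, `toK_K`.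
`ang_kV`: `ang_mul`, `ang_ee`, `ver_norm`; `∑ conj (V i) dV i = 4 kr (conj a da + conj b db)` (`ang_apply`, `HasFDerivAt`).
`tw_pb1`: `pb1_toK`; with `R`, `J` the real and imaginary parts of `kV`: `R · J = 0` near `w` gives `R · dJ = -J · dR`, so `-J · d(R / kr) = -J · dR / kr = π (∑ ang) / kr`. `tw_symp`: `symp_of`.
-/

set_option autoImplicit false

open scoped Manifold ContDiff Topology Matrix ComplexConjugate
open Set Complex Filter

namespace Pool.Agent.Work.MP_bf98aa_gt.B3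

open Pool.Agent.Work.MP_bf98aa_gt.Th Pool.Agent.Work.MP_bf98aa_gt.Cy

variable {d : HD} {y w w' : E6} {a : ℝ}

theorem Kd_q (h0 : kr w ≠ 0) : ContDiffAt ℝ ∞ (fun z i => (kV z i).re / kr z) w :=
  contDiffAt_pi.2 fun i => (reCLM.contDiff.comp (contDiff_pi.1 contDiff_kV i)).contDiffAt.div
    contDiff_kr.contDiffAt h0

theorem Kd_P (w : E6) : ContDiffAt ℝ ∞ (fun z i => -(kV z i).im) w :=
  contDiffAt_pi.2 fun i => (imCLM.contDiff.comp (contDiff_pi.1 contDiff_kV i)).contDiffAt.neg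

theorem Kd_t (a : ℝ) (w : E6) : ContDiffAt ℝ ∞ (fun z : E6 => z (2, 1) - kr z / (4 * a)) w :=
  (contDiffAt_apply ℝ ℝ _ w).sub (contDiff_kr.contDiffAt.div_const _)

theorem Kd_ev (h1 : (kV w 2).re ≠ kr w) : ∀ᶠ z in 𝓝 w, (kV z 2).re ≠ kr z :=
  (isOpen_ne_fun (continuous_re.comp (contDiff_pi.1 contDiff_kV 2).continuous)
    contDiff_kr.continuous).mem_nhds h1

theorem Kd_ee (s : ℝ) (n : ℤ) : ee (-(s + n) / 2) = ((-1 : ℝ) ^ n : ℝ) * ee (-s / 2) := by
  rw [show -(s + n) / 2 = -n / 2 + -s / 2 by ring, ee_add]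
  congr 1
  have : ee (-n / 2) = Complex.exp (n * (-(Real.pi * I))) := by
    unfold ee
    congr 1
    push_cast
    ring
  rw [this, Complex.exp_int_mul, Complex.exp_neg, Complex.exp_pi_mul_I]
  push_cast
  rw [inv_neg, inv_one]

/-- The derivative of the Veronese map. -/
noncomputable def Kd_dv (a b u v : ℂ) : Fin 3 → ℂ :=
  ![2 * a * u - 2 * b * v, I * (2 * a * u + 2 * b * v), -2 * (a * v + b * u)]

theorem Kd_ver (w : E6) (i : Fin 3) : ∃ L : E6 →L[ℝ] ℂ,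
    HasFDerivAt (fun z => ver (cc 0 z) (cc 1 z) i) L w ∧
      ∀ v, L v = Kd_dv (cc 0 w) (cc 1 w) (cc 0 v) (cc 1 v) i := by
  have hc : ∀ j, HasFDerivAt (cc j) (fderiv ℝ (cc j) w) w := fun j =>
    ((contDiff_cc j).differentiable (by simp) w).hasFDerivAt
  have h0 := (hc 0).mul (hc 0)
  have h1 := (hc 1).mul (hc 1)
  fin_cases i
  · refine ⟨_, (h0.sub h1).congr_of_eventuallyEq (Eventually.of_forall fun z => ?_), fun v => ?_⟩
    · simp [ver, sq]
    · simp [Kd_dv, G1_fderiv_cc]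
      ring
  · refine ⟨_, ((h0.add h1).const_mul I).congr_of_eventuallyEq
      (Eventually.of_forall fun z => ?_), fun v => ?_⟩
    · simp [ver, sq]
    · simp [Kd_dv, G1_fderiv_cc]
      ring
  · refine ⟨_, (((hc 0).mul (hc 1)).const_mul (-2)).congr_of_eventuallyEq
      (Eventually.of_forall fun z => ?_), fun v => ?_⟩
    · simp [ver, mul_assoc]
    · simp [Kd_dv, G1_fderiv_cc]
      ring

theorem tw_sm (h0 : kr w ≠ 0) (h1 : (kV w 2).re ≠ kr w) : ContDiffAt ℝ ∞ (tw a) w := by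
  exact contDiffAt_toK (Kd_q h0) (Kd_P w) (contDiffAt_apply ℝ ℝ _ w) (Kd_t a w) (ts_kV h1).ne

theorem tw_norm (h0 : kr w ≠ 0) (h1 : (kV w 2).re ≠ kr w) : ‖cc 1 (tw a w)‖ = kr w := by
  have k := pK_norm (tw a w)
  rw [tw, (ts_kV h1).pK, ← tw] at k
  simp only [neg_sq] at k
  rw [(kV_facts w).2.1, Complex.normSq_eq_norm_sq] at k
  exact ((pow_left_inj₀ (kr_nonneg w) (norm_nonneg _) two_ne_zero).1 k).symm

theorem tw_iff (h0 : kr w ≠ 0) (h1 : (kV w 2).re ≠ kr w) (h0' : kr w' ≠ 0)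
    (h1' : (kV w' 2).re ≠ kr w') : RK (tw a w) (tw a w') ↔ RU w w' := by
  constructor
  · intro h
    have e : kr w' = kr w := by rw [← tw_norm (a := a) h0 h1, ← tw_norm (a := a) h0' h1', RK_norm h]
    obtain ⟨n, n', e1, e2, e3, e4⟩ := h
    simp only [tw, toK_20, toK_21, (ts_kV h1).qK, (ts_kV h1).pK, (ts_kV h1').qK,
      (ts_kV h1').pK] at e1 e2 e3 e4
    refine ⟨n, n', e1, by rw [e] at e2; linarith, ver_inj.1 (funext fun i => ?_)⟩
    have k : kV w' i = ((-1 : ℝ) ^ n : ℝ) * kV w i := by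
      have k3 := congrFun e3 i
      have k4 := congrFun e4 i
      simp only [Pi.smul_apply, smul_eq_mul, e] at k3 k4
      refine Complex.ext ?_ ?_
      · rw [re_ofReal_mul]
        field_simp at k3
        linarith
      · rw [im_ofReal_mul]
        linarith
    simp only [kV, Pi.smul_apply, smul_eq_mul, e1, Kd_ee] at k
    rw [mul_assoc] at k
    exact mul_left_cancel₀ (ee_ne_zero _) (mul_left_cancel₀
      (ofReal_ne_zero.2 (zpow_ne_zero n (by norm_num))) k)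
  · rintro ⟨n, n', e1, e2, e3⟩
    have e : kr w' = kr w := by
      rcases e3 with ⟨k, k'⟩ | ⟨k, k'⟩ <;> simp only [kr, k, k', normSq_neg]
    have k : ∀ i, kV w' i = ((-1 : ℝ) ^ n : ℝ) * kV w i := fun i => by
      simp only [kV, Pi.smul_apply, smul_eq_mul, e1, Kd_ee, ver_inj.2 e3, mul_assoc]
    refine ⟨n, n', ?_⟩
    simp only [tw, toK_20, toK_21, (ts_kV h1).qK, (ts_kV h1).pK, (ts_kV h1').qK, (ts_kV h1').pK]
    refine ⟨e1, by rw [e, e2]; ring, funext fun i => ?_, funext fun i => ?_⟩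
    · rw [Pi.smul_apply, smul_eq_mul, k, re_ofReal_mul, e, mul_div_assoc]
    · rw [Pi.smul_apply, smul_eq_mul, k, im_ofReal_mul, mul_neg]

theorem tw_surj (a : ℝ) (hy : cc 1 y ≠ 0) :
    ∃ w, kr w ≠ 0 ∧ (kV w 2).re ≠ kr w ∧ tw a w = y := by
  obtain ⟨t1, t2, t3⟩ := ts_K y
  have t4 := pK_norm y
  rw [Complex.normSq_eq_norm_sq] at t4
  have hr : 0 < ‖cc 1 y‖ := norm_pos_iff.2 hy
  generalize ‖cc 1 y‖ = r at t4 hr
  obtain ⟨u, v, huv⟩ := ver_surj
    (U := fun i => ee (y (2, 0) / 2) * (⟨r * qK y i, -pK y i⟩ : ℂ)) (by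
      have : ((⟨r * qK y 0, -pK y 0⟩ : ℂ) ^ 2 + (⟨r * qK y 1, -pK y 1⟩ : ℂ) ^ 2 +
          (⟨r * qK y 2, -pK y 2⟩ : ℂ) ^ 2) = 0 := by
        refine Complex.ext ?_ ?_
        · simp only [sq, add_re, mul_re, zero_re]
          linear_combination r ^ 2 * t1 - t4
        · simp only [sq, add_im, mul_im, zero_im]
          linear_combination -2 * r * t2
      linear_combination ee (y (2, 0) / 2) ^ 2 * this)
  have hn := ver_norm u v
  simp only [huv, map_mul, normSq_ee, one_mul, normSq_mk] at hn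
  have e : normSq u + normSq v = r :=
    (pow_left_inj₀ (add_nonneg (normSq_nonneg _) (normSq_nonneg _)) hr.le two_ne_zero).1
      (by linear_combination -hn / 2 + r ^ 2 / 2 * t1 + t4 / 2)
  have e1 : kr (mkc u v ⟨y (2, 0), y (2, 1) + r / (4 * a)⟩) = r := e
  have e2 : ∀ i, kV (mkc u v ⟨y (2, 0), y (2, 1) + r / (4 * a)⟩) i = ⟨r * qK y i, -pK y i⟩ :=
    fun i => by
      simp only [kV, Pi.smul_apply, smul_eq_mul, cc_mkc0, cc_mkc1, mkc_20, huv]
      rw [← mul_assoc, ← ee_add, show -y (2, 0) / 2 + y (2, 0) / 2 = 0 by ring, ee_zero, one_mul]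
  refine ⟨mkc u v ⟨y (2, 0), y (2, 1) + r / (4 * a)⟩, e1.trans_ne hr.ne', ?_, ?_⟩
  · rw [e1, e2]
    exact fun h => t3 (mul_left_cancel₀ hr.ne' (h.trans (mul_one r).symm))
  · simp only [tw, e1, e2, neg_neg, mul_div_cancel_left₀ _ hr.ne', mkc_20, mkc_21,
      add_sub_cancel_right]
    exact toK_K y

theorem ang_kV (w : E6) : ∑ i, ang (fun z => kV z i) w =
    (4 * kr w) • (rot1 0 w + rot1 1 w) - kr w ^ 2 • dc (2, 0) := by
  have hs : HasFDerivAt (fun z : E6 => -z (2, 0) / 2) ((-1 / 2 : ℝ) • dc (2, 0)) w := by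
    refine (((-1 / 2 : ℝ) • dc (2, 0)).hasFDerivAt (x := w)).congr_of_eventuallyEq
      (Eventually.of_forall fun z => ?_)
    simp only [smul_apply, dc_apply, smul_eq_mul]
    ring
  have hE : DifferentiableAt ℝ (fun z : E6 => ee (-z (2, 0) / 2)) w :=
    (contDiff_ee.differentiable (by simp) _).comp w hs.differentiableAt
  have k : ∀ i, ang (fun z => kV z i) w = normSq (ver (cc 0 w) (cc 1 w) i) •
      ((-1 / 2 : ℝ) • dc (2, 0)) + ang (fun z => ver (cc 0 z) (cc 1 z) i) w := fun i => by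
    obtain ⟨L, hL, -⟩ := Kd_ver w i
    have := ang_mul hE hL.differentiableAt
    rw [ang_ee hs.differentiableAt, hs.fderiv, normSq_ee, one_smul] at this
    exact this
  have hn := ver_norm (cc 0 w) (cc 1 w)
  obtain ⟨L0, a0, b0⟩ := Kd_ver w 0
  obtain ⟨L1, a1, b1⟩ := Kd_ver w 1
  obtain ⟨L2, a2, b2⟩ := Kd_ver w 2
  ext v
  simp only [Fin.sum_univ_three, k, add_apply, sub_apply,
    smul_apply, smul_eq_mul, ang_apply, rot1_apply, dc_apply, a0.fderiv,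
    a1.fderiv, a2.fderiv, b0, b1, b2]
  have hp := Real.pi_pos
  rw [← kr] at hn
  have e : (conj (ver (cc 0 w) (cc 1 w) 0) * Kd_dv (cc 0 w) (cc 1 w) (cc 0 v) (cc 1 v) 0).im +
      (conj (ver (cc 0 w) (cc 1 w) 1) * Kd_dv (cc 0 w) (cc 1 w) (cc 0 v) (cc 1 v) 1).im +
      (conj (ver (cc 0 w) (cc 1 w) 2) * Kd_dv (cc 0 w) (cc 1 w) (cc 0 v) (cc 1 v) 2).im =
      4 * kr w * (w (0, 0) * v (0, 1) - w (0, 1) * v (0, 0) +
        (w (1, 0) * v (1, 1) - w (1, 1) * v (1, 0))) := by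
    simp [ver, Kd_dv, kr, normSq_apply, sq, cc_re, cc_im]
    ring
  linear_combination (-1 / 2 * v (2, 0)) * hn + e / (2 * Real.pi)

theorem tw_pb1 (h : d.Ok) (h1 : (kV w 2).re ≠ kr w) : pb1 (tw d.a) d.lamK w =
    d.lamU w + fderiv ℝ (fun z : E6 => -(z (2, 0) * kr z / 4)) w := by
  have h0 := kr_ne h1
  have ha := h.ha.ne'
  have hp := Real.pi_pos.ne'
  have hK : HasFDerivAt kr (fderiv ℝ kr w) w :=
    (contDiff_kr.differentiable (by simp) w).hasFDerivAt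
  have hV : ∀ i, HasFDerivAt (fun z => kV z i) (fderiv ℝ (fun z => kV z i) w) w := fun i =>
    ((contDiff_pi.1 contDiff_kV i).differentiable (by simp) w).hasFDerivAt
  have hR := fun i => reCLM.hasFDerivAt.comp w (hV i)
  have hJ := fun i => imCLM.hasFDerivAt.comp w (hV i)
  have hq : ∀ i v, fderiv ℝ (fun z => (kV z i).re / kr z) w v =
      (fderiv ℝ (fun z => kV z i) w v).re / kr w - (kV w i).re * fderiv ℝ kr w v / kr w ^ 2 :=
    fun i v => by
      have := ((hR i).mul ((hasDerivAt_inv h0).comp_hasFDerivAt w hK)).fderiv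
      have e : (fun z => (kV z i).re / kr z) = (reCLM ∘ fun z => kV z i) *
        (fun y : ℝ => y⁻¹) ∘ kr := funext fun z => div_eq_mul_inv _ _
      rw [e, this]
      simp
      ring
  have h20 : HasFDerivAt (fun z : E6 => z (2, 0)) (dc (2, 0)) w := (dc (2, 0)).hasFDerivAt
  have h21 : HasFDerivAt (fun z : E6 => z (2, 1)) (dc (2, 1)) w := (dc (2, 1)).hasFDerivAt
  have ht : HasFDerivAt (fun z : E6 => z (2, 1) - kr z / (4 * d.a)) _ w :=
    h21.sub (hK.mul_const (4 * d.a)⁻¹)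
  have hr : HasFDerivAt (fun z : E6 => -(z (2, 0) * kr z / 4)) _ w :=
    ((h20.mul hK).mul_const (4 : ℝ)⁻¹).neg
  have z0 := ((((hR 0).mul (hJ 0)).add ((hR 1).mul (hJ 1))).add ((hR 2).mul (hJ 2))).unique
    ((hasFDerivAt_const (0 : ℝ) w).congr_of_eventuallyEq
      (Eventually.of_forall fun z => (kV_facts z).2.2))
  have key := pb1_toK d (Kd_q h0) (Kd_P w) (contDiffAt_apply ℝ ℝ (2, 0) w) (Kd_t d.a w)
    ((Kd_ev h1).mono fun z hz => ts_kV hz)
  refine key.trans ?_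
  ext v
  have z1 := congrArg (fun L : E6 →L[ℝ] ℝ => L v) z0
  have z2 := congrArg (fun L : E6 →L[ℝ] ℝ => L v) (ang_kV w)
  have z3 := (kV_facts w).2.2
  simp only [Fin.sum_univ_three, add_apply, sub_apply,
    smul_apply, neg_apply, smul_eq_mul, ang_apply, dc_apply,
    ContinuousLinearMap.comp_apply, Function.comp_apply, reCLM_apply, imCLM_apply,
    zero_apply, mul_im, conj_re, conj_im, hq, ht.fderiv, hr.fderiv, HD.lamU] at z1 z2 ⊢
  generalize fderiv ℝ (fun z => kV z 0) w v = D0 at z1 z2 ⊢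
  generalize fderiv ℝ (fun z => kV z 1) w v = D1 at z1 z2 ⊢
  generalize fderiv ℝ (fun z => kV z 2) w v = D2 at z1 z2 ⊢
  field_simp at z2 ⊢
  linear_combination kr w / 2 * (z2 - z1) + fderiv ℝ kr w v * z3

theorem tw_symp (h : d.Ok) (h0 : kr w ≠ 0) (h1 : (kV w 2).re ≠ kr w) :
    pb (tw d.a) (d1 d.lamK) w = d1 d.lamU w := by
  refine symp_of (tw_sm h0 h1) (contDiff_lamK d).contDiffAt (contDiff_lamU d).contDiffAt ?_
    ((Kd_ev h1).mono fun z hz => tw_pb1 h hz)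
  exact (((contDiffAt_apply ℝ ℝ (2, 0) w).mul contDiff_kr.contDiffAt).div_const 4).neg

end Pool.Agent.Work.MP_bf98aa_gt.B3
end

-- merged part: Pool.Agent.Work.MP_bf98aa_gt.B3.Kf
section
/-!
The untwisted coordinates are symplectic.

PLAN. `kU_pb1`: `pb1_rot1`; `k1 = r * g` with `r` real: `ang_mul`, `ang_real` give `π gK • ang g`; `ang_apply` with `HasFDerivAt` of `XX i` (a linear map: `lf` of a row of `rm A'`). With `y = (X 2 - 1 / 4, X 3 - k / 2)`, `ζ₀ = μ xy 1 0 y`, `ζ₁ = μ xy 0 1 y`: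
the left side is `gK / 2 (y₀ dy₁ - y₁ dy₀) + (μ dkf - kf dμ) / 2 + a ks dkt`; apply both sides to a vector `v`, `lf_bf`, `bf_Om0`, `bf_v`, `Matrix.det_fin_two`, `field_simp; ring`.
`kU_symp`: `tt < 0` near `z` (`Ko_small`, `hμ`), so `a0 = 0` and `lam .m = lamB` near `z` (`d1_congr`); `symp_of`.
-/

set_option autoImplicit false

open scoped Manifold ContDiff Topology Matrix ComplexConjugate
open Set Complex Filter

namespace Pool.Agent.Work.MP_bf98aa_gt.B3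

open Pool.Agent.Work.MP_bf98aa_gt.Th Pool.Agent.Work.MP_bf98aa_gt.Cy

namespace HD

variable {d : HD} {z : E6} {k : J4}

/-- The primitive below the kink. -/
noncomputable def lamB (d : HD) : F1 := fun z =>
  d.tt z • dc (2, 1) + (1 / 2 : ℝ) • lf (xv z ᵥ* d.Om0 (z (2, 0)))

/-- The difference of the primitives. -/
noncomputable def rK (d : HD) (k : J4) (z : E6) : ℝ :=
  d.XX z 0 * (z (2, 0) * d.xy 1 0 (d.XX z 2 - 1 / 4) (d.XX z 3 - ((k.1 : ℕ) : ℝ) / 2)) -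
    z (2, 0) * d.kf k z / 2 + d.μ₁ * z (2, 1) + d.a * d.XX z 0 * d.XX z 1 / 2 -
    z (2, 0) * d.xy 1 0 (d.XX z 2 - 1 / 4) (d.XX z 3 - ((k.1 : ℕ) : ℝ) / 2) *
      (z (2, 0) * d.xy 0 1 (d.XX z 2 - 1 / 4) (d.XX z 3 - ((k.1 : ℕ) : ℝ) / 2)) / (2 * d.a) -
    d.a' * d.XX z 3 / 8 + d.a' * ((k.1 : ℕ) : ℝ) * d.XX z 2 / 4

/-- The derivative of `f` at `z` in the direction `v` is `a`. -/
def Kf_D (z v : E6) (f : E6 → ℝ) (a : ℝ) : Prop :=
  DifferentiableAt ℝ f z ∧ fderiv ℝ f z v = a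

section
variable {v : E6} {f g f' g' : E6 → ℝ} {a b a' b' : ℝ}

theorem Kf_D.add (hf : Kf_D z v f a) (hg : Kf_D z v g b) :
    Kf_D z v (fun y => f y + g y) (a + b) :=
  ⟨hf.1.fun_add hg.1, by rw [fderiv_fun_add hf.1 hg.1, ← hf.2, ← hg.2]; rfl⟩

theorem Kf_D.sub (hf : Kf_D z v f a) (hg : Kf_D z v g b) :
    Kf_D z v (fun y => f y - g y) (a - b) :=
  ⟨hf.1.fun_sub hg.1, by rw [fderiv_fun_sub hf.1 hg.1, ← hf.2, ← hg.2]; rfl⟩

theorem Kf_D.mul (hf : Kf_D z v f a) (hg : Kf_D z v g b) :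
    Kf_D z v (fun y => f y * g y) (f z * b + g z * a) :=
  ⟨hf.1.fun_mul hg.1, by rw [fderiv_fun_mul hf.1 hg.1, ← hf.2, ← hg.2]; rfl⟩

theorem Kf_const (c : ℝ) : Kf_D z v (fun _ => c) 0 :=
  ⟨differentiableAt_const _, by simp⟩

theorem Kf_D.of (hf : Kf_D z v f a) (h : a = b) : Kf_D z v f b := h ▸ hf

theorem Kf_D.div (hf : Kf_D z v f a) (c : ℝ) : Kf_D z v (fun y => f y / c) (a / c) := by
  simp only [div_eq_mul_inv]
  exact (hf.mul (Kf_const c⁻¹)).of (by ring)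

theorem Kf_D.subc (hf : Kf_D z v f a) (c : ℝ) : Kf_D z v (fun y => f y - c) a :=
  (hf.sub (Kf_const c)).of (sub_zero a)

theorem Kf_D.cmul (hf : Kf_D z v f a) (c : ℝ) : Kf_D z v (fun y => c * f y) (c * a) :=
  ((Kf_const c).mul hf).of (by ring)

theorem Kf_clm (L : E6 →L[ℝ] ℝ) (h : ∀ y, f y = L y) : Kf_D z v f (f v) := by
  rw [funext h]
  exact ⟨L.differentiableAt, by rw [L.fderiv]⟩

theorem Kf_co (i : Cx) : Kf_D z v (fun y => y i) (v i) := Kf_clm (dc i) fun _ => rfl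

theorem Kf_XX (d : HD) (i : Fin 4) : Kf_D z v (fun y => d.XX y i) (d.XX v i) :=
  Kf_clm (lf (rm d.A' i)) fun y => (lf_apply _ y).symm

theorem Kf_xy (d : HD) (hf : Kf_D z v f a) (hg : Kf_D z v g b) (hf' : Kf_D z v f' a')
    (hg' : Kf_D z v g' b') : Kf_D z v (fun y => d.xy (f y) (g y) (f' y) (g' y))
      (d.xy a b (f' z) (g' z) + d.xy (f z) (g z) a' b') :=
  (((hf.mul ((hf'.cmul _).add (hg'.cmul _))).add
    (hg.mul ((hf'.cmul _).add (hg'.cmul _)))).cmul 2).of (by unfold xy; ring)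

theorem Kf_zeta (d : HD) (s t p q : ℝ) :
    Kf_D z v (fun y => y (2, 0) * d.xy s t (d.XX y 2 - p) (d.XX y 3 - q))
      (z (2, 0) * d.xy s t (d.XX v 2) (d.XX v 3) +
        d.xy s t (d.XX z 2 - p) (d.XX z 3 - q) * v (2, 0)) :=
  ((Kf_co _).mul (Kf_xy d (Kf_const s) (Kf_const t) ((Kf_XX d 2).subc p)
    ((Kf_XX d 3).subc q))).of (by unfold xy; ring)

theorem Kf_kf (d : HD) (k : J4) : Kf_D z v (d.kf k)
    (v (2, 1) + (d.xy (d.XX v 0) (d.XX v 1) (d.XX z 2) (d.XX z 3) +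
      d.xy (d.XX z 0) (d.XX z 1) (d.XX v 2) (d.XX v 3)) / 2 -
      d.xy (d.XX v 0) (d.XX v 1) (1 / 4) (((k.1 : ℕ) : ℝ) / 2)) :=
  ((((Kf_co _).add ((Kf_xy d (Kf_XX d 0) (Kf_XX d 1) (Kf_XX d 2) (Kf_XX d 3)).div 2)).sub
    (Kf_xy d (Kf_XX d 0) (Kf_XX d 1) (Kf_const _) (Kf_const _))).subc _).of (by unfold xy; ring)

theorem Kf_rot {r : E6 → ℝ} {c G : ℝ} (hr : Kf_D z v r c) (hf : Kf_D z v f a)
    (hg : Kf_D z v g b) (hG : r z * r z = Real.pi * G) :
    (r z * f z * fderiv ℝ (fun y => r y * g y) z v -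
      r z * g z * fderiv ℝ (fun y => r y * f y) z v) / (2 * Real.pi) =
      G / 2 * (f z * b - g z * a) := by
  rw [(hr.mul hf).2, (hr.mul hg).2, div_eq_iff (by positivity)]
  linear_combination (f z * b - g z * a) * hG

end

theorem contDiff_lamB (d : HD) : ContDiff ℝ ∞ d.lamB := by
  have h1 : ∀ j, ContDiff ℝ ∞ fun z : E6 => (xv z ᵥ* d.Om0 (z (2, 0))) j := fun j => by
    simp only [Matrix.vecMul, dotProduct, Fin.sum_univ_four, Om0, Matrix.add_apply,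
      Matrix.smul_apply, smul_eq_mul, xv_0, xv_1, xv_2, xv_3]
    fun_prop
  have h0 := h1 0
  have h2 := h1 2
  have h3 := h1 3
  have h1 := h1 1
  unfold lamB tt lf
  fun_prop

theorem lamB_low (hz : d.tt z ≤ 0) : d.lam .m z = d.lamB z := by
  simp only [lam, lamB, a0, al, if_neg (not_lt.2 hz), zero_div, zero_smul, add_zero]

theorem contDiff_rK (d : HD) (k : J4) : ContDiff ℝ ∞ (d.rK k) := by
  have h0 := contDiff_pi.1 d.contDiff_XX 0
  have h1 := contDiff_pi.1 d.contDiff_XX 1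
  have h2 := contDiff_pi.1 d.contDiff_XX 2
  have h3 := contDiff_pi.1 d.contDiff_XX 3
  have h4 := d.contDiff_kf k
  unfold rK xy
  fun_prop

theorem Ok.kU_pb1 (h : d.Ok) (hz : |z (2, 0)| < 1 / 8) :
    pb1 (d.kU k) d.lamU z = d.lamB z + fderiv ℝ (d.rK k) z := by
  ext v : 1
  have hd := (h.kU_sm (k := k) hz).differentiableAt (by simp)
  have hW : ∀ i, fderiv ℝ (d.kU k) z v i = fderiv ℝ (fun y => d.kU k y i) z v := fun i => by
    rw [fderiv_apply hd]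
    rfl
  have hG := h.hK _ hz.le
  have hp : 0 < Real.pi * d.gK (z (2, 0)) := mul_pos Real.pi_pos (by linarith)
  have hr : Kf_D z v (fun y => √(Real.pi * d.gK (y (2, 0)))) _ :=
    ⟨DifferentiableAt.sqrt (by unfold gK; fun_prop) hp.ne', rfl⟩
  have e0 := Kf_rot hr ((Kf_XX d 2).subc (1 / 4)) ((Kf_XX d 3).subc (((k.1 : ℕ) : ℝ) / 2))
    (Real.mul_self_sqrt hp.le)
  have e1 := Kf_rot (v := v) (Kf_const √Real.pi) (Kf_co (2, 0)) (Kf_kf (z := z) d k)
    ((Real.mul_self_sqrt Real.pi_pos.le).trans (mul_one _).symm)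
  have e2 := ((Kf_XX (z := z) (v := v) d 1).add
    ((Kf_zeta d 1 0 (1 / 4) (((k.1 : ℕ) : ℝ) / 2)).div d.a)).2
  have e3 := ((((((((Kf_XX (z := z) (v := v) d 0).mul
    (Kf_zeta d 1 0 (1 / 4) (((k.1 : ℕ) : ℝ) / 2))).sub (((Kf_co (2, 0)).mul (Kf_kf d k)).div 2)).add
    ((Kf_co (2, 1)).cmul d.μ₁)).add ((((Kf_XX d 0).cmul d.a).mul (Kf_XX d 1)).div 2)).sub
    (((Kf_zeta d 1 0 (1 / 4) (((k.1 : ℕ) : ℝ) / 2)).mul
      (Kf_zeta d 0 1 (1 / 4) (((k.1 : ℕ) : ℝ) / 2))).div (2 * d.a))).sub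
    (((Kf_XX d 3).cmul d.a').div 8)).add
    (((Kf_XX d 2).cmul (d.a' * ((k.1 : ℕ) : ℝ))).div 4)).2
  have c0 : ∀ y, d.kU k y (0, 0) = √(Real.pi * d.gK (y (2, 0))) * (d.XX y 2 - 1 / 4) :=
    fun y => re_ofReal_mul _ _
  have c1 : ∀ y, d.kU k y (0, 1) =
      √(Real.pi * d.gK (y (2, 0))) * (d.XX y 3 - ((k.1 : ℕ) : ℝ) / 2) := fun y => im_ofReal_mul _ _
  have c2 : ∀ y, d.kU k y (1, 0) = √Real.pi * y (2, 0) := fun y => re_ofReal_mul _ _
  have c3 : ∀ y, d.kU k y (1, 1) = √Real.pi * d.kf k y := fun y => im_ofReal_mul _ _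
  have c4 : d.kU k z (2, 0) = d.ks k z := rfl
  have c5 : fderiv ℝ (fun y => d.kU k y (2, 1)) z v = _ := e2
  have c6 : fderiv ℝ (d.rK k) z v = _ := e3
  have ha := h.ha.ne'
  simp only [pb1_apply, lamU, lamB, add_apply, smul_apply,
    rot1_apply, dc_apply, hW, smul_eq_mul, lf_bf, c4, c5, c6]
  simp only [c0, c1, c2, c3]
  rw [e0, e1, bf_Om0, bf_v]
  simp only [← XX.eq_1, gK, ks, tt, xy, Matrix.det_fin_two]
  push_cast
  field_simp
  ring

theorem Ok.kU_symp (h : d.Ok) (hz : z ∈ d.Ko k) :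
    pb (d.kU k) (d1 d.lamU) z = d1 (d.lam .m) z := by
  have h1 := (h.Ko_small hz).1
  have h2 : ∀ᶠ y in 𝓝 z, |y (2, 0)| < 1 / 8 :=
    (continuous_apply _).abs.continuousAt.eventually_lt_const h1
  rw [d1_congr (l := d.lam .m) (l' := d.lamB) (h2.mono fun y hy => lamB_low ?_)]
  · exact symp_of (h.kU_sm h1) (contDiff_lamU d).contDiffAt d.contDiff_lamB.contDiffAt
      (d.contDiff_rK k).contDiffAt (h2.mono fun y hy => h.kU_pb1 hy)
  · have := h.hμ
    have := (abs_lt.1 hy).2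
    unfold tt
    linarith

end HD

end Pool.Agent.Work.MP_bf98aa_gt.B3
end

-- merged part: Pool.Agent.Work.MP_bf98aa_gt.B3.KMain
section
/-!
The fixed tori of the folds and their replacement: the interface (with the files `Ka` to `Kg`).

PLAN. `closed_K`: `Grp.closed` for `C = kI k '' {w | kr w ≤ r, |w (2,0)| ≤ 1, |w (2,1)| ≤ 1}` (`kI_sm`, `kU_kI`, `kI_kU`); `shift` with `m = -round ks`, `m' = -round kt` and `Dm_Dm` move a point into `C`.
`isClosed_Kset`: `Kset` is the union over `k` of the sets of `closed_K` with `r = 0` (`Kset_iff`, `Kset_gm`, `Ko_Kset`, `kr_nonneg`). `DK_iff`: `Ko_iff`, `Ko_hole`, `Ko_Kset`, `kr_ne`.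
`oK_ar`: `Ar.trans_pb` for the arrows `kU k` (injective derivative by `inj_of_left`, `kI_kU`) and `tw a` (`ND.inj`, `nd_lamU`, `tw_symp`). `to_DK`: `l = 0`, `n = 0`, or `shift k 1 0`, which changes the sign of `kV`.
-/

set_option autoImplicit false

open scoped Manifold ContDiff Topology Matrix ComplexConjugate
open Set Complex Filter

namespace Pool.Agent.Work.MP_bf98aa_gt.B3

open Pool.Agent.Work.MP_bf98aa_gt.Th Pool.Agent.Work.MP_bf98aa_gt.Cy

variable {d : HD} {x y z z' w w' : E6} {k k' : J4} {a : ℝ}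

namespace HD

theorem KMain_kV (a b : ℂ) (s t : ℝ) : kV (mkc a b ⟨s, t⟩) = ee (-s / 2) • ver a b := rfl

theorem KMain_kr (k : J4) (z : E6) (c : ℂ) :
    kr (mkc (d.k1 k z) (d.k2 k z) c) = kr (d.kU k z) := by
  simp only [kr, kU, cc_mkc0, cc_mkc1]

theorem Ok.closed_K (h : d.Ok) (k : J4) {r : ℝ} (hr : r < 1 / 64) :
    IsClosed {z | ∃ γ, kr (d.kU k (d.gm γ z)) ≤ r} := by
  have hc : IsCompact {w : E6 | kr w ≤ r ∧ |w (2, 0)| ≤ 1 ∧ |w (2, 1)| ≤ 1} := by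
    refine (isCompact_closedBall 0 1).of_isClosed_subset
      ((isClosed_le contDiff_kr.continuous continuous_const).and
        ((isClosed_le (by fun_prop) continuous_const).and
          (isClosed_le (by fun_prop) continuous_const))) fun w ⟨h1, h2, h3⟩ => ?_
    rw [kr, normSq_cc, normSq_cc] at h1
    have := sq_nonneg (w (0, 0))
    have := sq_nonneg (w (0, 1))
    have := sq_nonneg (w (1, 0))
    have := sq_nonneg (w (1, 1))
    have a0 : |w (0, 0)| ≤ 1 := (sq_le_one_iff_abs_le_one _).1 (by linarith)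
    have a1 : |w (0, 1)| ≤ 1 := (sq_le_one_iff_abs_le_one _).1 (by linarith)
    have a2 : |w (1, 0)| ≤ 1 := (sq_le_one_iff_abs_le_one _).1 (by linarith)
    have a3 : |w (1, 1)| ≤ 1 := (sq_le_one_iff_abs_le_one _).1 (by linarith)
    refine mem_closedBall_zero_iff.2 ((pi_norm_le_iff_of_nonneg zero_le_one).2 fun ⟨i, j⟩ => ?_)
    fin_cases i <;> fin_cases j <;> assumption
  have h1 := h.grp_m.closed (hc.image_of_continuousOn (f := d.kI k) fun w hw =>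
    (h.kI_sm (hw.1.trans_lt hr)).continuousAt.continuousWithinAt)
  refine (congrArg IsClosed (Set.ext fun z => ⟨?_, ?_⟩)).mp h1
  · rintro ⟨γ, w, hw, e⟩
    exact ⟨γ, by rw [← e, h.kU_kI (hw.1.trans_lt hr)]; exact hw.1⟩
  · rintro ⟨γ, hz⟩
    obtain ⟨l, n, e⟩ := h.shift k (-round (d.ks k (d.gm γ z))) (-round (d.kt k (d.gm γ z)))
    obtain ⟨γ', e'⟩ := N1_m_D (d := d) ⟨γ, fun _ => rfl⟩ l n
    refine ⟨γ', d.kU k (d.gm γ' z), ?_, h.kI_kU ?_⟩
    · have b : ∀ s : ℝ, |s + (-round s : ℤ)| ≤ 1 := fun s => by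
        rw [Int.cast_neg, ← sub_eq_add_neg]
        exact (abs_sub_round s).trans (by norm_num)
      rw [e', e]
      exact ⟨(KMain_kr _ _ _).trans_le hz, b _, b _⟩
    · rw [e', N1_m_D0]
      exact (h.small (hz.trans_lt hr)).1.le

theorem Ok.isClosed_Kset (h : d.Ok) : IsClosed d.Kset := by
  refine (congrArg IsClosed (Set.ext fun z => ⟨fun hz => ?_, fun hz => ?_⟩)).mp
    (isClosed_iUnion_of_finite fun k => h.closed_K k (r := 0) (by norm_num))
  · obtain ⟨k, γ, e⟩ := mem_iUnion.1 hz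
    exact (h.Kset_gm γ).1 ((h.Ko_Kset (h.Ko_iff.2 (e.trans_lt (by norm_num)))).2
      (e.antisymm (kr_nonneg _)))
  · obtain ⟨l, n, e, k, h1⟩ := h.Kset_iff.1 hz
    exact mem_iUnion.2 ⟨k, _, h1.le⟩

theorem Ok.DK_iff (h : d.Ok) : z ∈ d.DK k ↔
    kr (d.kU k z) < 1 / 64 ∧ (kV (d.kU k z) 2).re ≠ kr (d.kU k z) := by
  refine ⟨fun hz => hz.2, fun hz => ⟨?_, hz⟩⟩
  have h1 := h.Ko_iff.2 hz.1
  exact ⟨h1.1, fun e => e.elim (h.Ko_hole h1) fun e => kr_ne hz.2 ((h.Ko_Kset h1).1 e)⟩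

theorem Ok.DK_sub (h : d.Ok) (hz : z ∈ d.DK k) : z ∈ d.Ko k ∧ kr (d.kU k z) ≠ 0 := by
  exact ⟨h.Ko_iff.2 hz.2.1, kr_ne hz.2.2⟩

theorem Ok.isOpen_DK (h : d.Ok) (k : J4) : IsOpen (d.DK k) := by
  have h1 := contDiff_kr.continuous.comp (d.continuous_kU k)
  have h2 := (continuous_apply 2).comp (contDiff_kV.continuous.comp (d.continuous_kU k))
  exact (Set.ext fun z => h.DK_iff.symm : _ = _) ▸
    (isOpen_lt h1 continuous_const).and (isOpen_ne_fun (continuous_re.comp h2) h1)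

theorem Ok.oK_mem (h : d.Ok) (hz : z ∈ d.DK k) :
    d.oK k z ∈ WK ∧ ‖cc 1 (d.oK k z)‖ = kr (d.kU k z) := by
  have h1 := tw_norm (a := d.a) (kr_ne hz.2.2) hz.2.2
  exact ⟨h1.trans_lt hz.2.1, h1⟩

theorem Ok.oK_ar (h : d.Ok) (hz : z ∈ d.DK k) :
    Ar (fun a b => a ∈ d.DK k ∧ b = d.oK k a) z (d.oK k z) (d.oK k) ∧
      pb (d.oK k) (d1 d.lamK) z = d1 (d.lam .m) z := by
  have h0 := (h.small hz.2.1).1
  have h1 := h.kU_sm (k := k) h0
  have h2 := tw_sm (a := d.a) (kr_ne hz.2.2) hz.2.2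
  have h3 := tw_symp h (kr_ne hz.2.2) hz.2.2
  have a1 : Ar (fun _ _ => True) z _ (d.kU k) :=
    ⟨h1, rfl, inj_of_left h1 (h.kI_sm hz.2.1) (((isOpen_lt (f := fun a : E6 => |a (2, 0)|)
      (by fun_prop) continuous_const).eventually_mem h0).mono fun _ e => h.kI_kU (le_of_lt e)),
      Eventually.of_forall fun _ => trivial⟩
  have a2 : Ar (fun _ _ => True) (d.kU k z) _ (tw d.a) :=
    ⟨h2, rfl, (nd_lamU h _).inj h3, Eventually.of_forall fun _ => trivial⟩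
  exact ⟨(a1.trans (R'' := fun _ _ => True) a2 fun _ _ _ _ _ => trivial).mono
    (((h.isOpen_DK k).eventually_mem hz).mono fun _ e _ => ⟨e, rfl⟩),
    a1.trans_pb a2 (h.kU_symp (h.DK_sub hz).1) h3⟩

theorem Ok.oK_iff (h : d.Ok) (hz : z ∈ d.DK k) (hz' : z' ∈ d.DK k') :
    (∃ γ, d.gm γ z = z') ↔ k = k' ∧ RK (d.oK k z) (d.oK k z') := by
  exact (h.kU_iff (h.DK_sub hz).1 (h.DK_sub hz').1).trans (and_congr_right fun e => by
    subst e
    exact (tw_iff (kr_ne hz.2.2) hz.2.2 (kr_ne hz'.2.2) hz'.2.2).symm)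

theorem Ok.oK_surj (h : d.Ok) (k : J4) (hy : y ∈ WK) (h0 : cc 1 y ≠ 0) :
    ∃ z ∈ d.DK k, d.oK k z = y := by
  obtain ⟨w, h1, h2, rfl⟩ := tw_surj d.a h0
  have h3 : kr w < 1 / 64 := (tw_norm h1 h2).symm.trans_lt hy
  exact ⟨d.kI k w, h.DK_iff.2 (by rw [h.kU_kI h3]; exact ⟨h3, h2⟩), by rw [oK, h.kU_kI h3]⟩

theorem Ok.to_DK (h : d.Ok) (hz : z ∈ d.Ko k) (h0 : z ∉ d.Kset) :
    ∃ l n, d.Dm l n z ∈ d.DK k ∧ kr (d.kU k (d.Dm l n z)) = kr (d.kU k z) := by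
  by_cases h1 : (kV (d.kU k z) 2).re = kr (d.kU k z)
  · obtain ⟨l, n, e⟩ := h.shift k 1 0
    have e1 : kr (d.kU k (d.Dm l n z)) = kr (d.kU k z) := by rw [e, KMain_kr]
    have e2 : kV (d.kU k (d.Dm l n z)) = -kV (d.kU k z) := by
      have e3 : ee (-(d.ks k z + (1 : ℤ)) / 2) = -ee (-d.ks k z / 2) := by
        rw [show -d.ks k z / 2 = -(d.ks k z + (1 : ℤ)) / 2 + 1 / 2 by push_cast; ring, ee_add,
          ee_half, mul_neg_one, neg_neg]
      rw [e, kU, KMain_kV, KMain_kV, e3, neg_smul]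
    refine ⟨l, n, h.DK_iff.2 ⟨e1.trans_lt hz.2, fun e4 => h0 ((h.Ko_Kset hz).2 ?_)⟩, e1⟩
    rw [e2, e1, Pi.neg_apply, neg_re, h1] at e4
    linarith
  · exact ⟨0, 0, by rw [Dm_zero]; exact ⟨h.DK_iff.2 ⟨hz.2, h1⟩, rfl⟩⟩

end HD

end Pool.Agent.Work.MP_bf98aa_gt.B3
end
end
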