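import Pool.Agent.Work.MP_bf98aa_gt.B3.F1
import Pool.Agent.Work.MP_bf98aa_gt.B3.KMain

-- merged part: Pool.Agent.Work.MP_bf98aa_gt.B3.F2f
section
/-!
Auxiliary lemmas for the flip of the maps to `F`.
-/

set_option autoImplicit false

open scoped Manifold ContDiff Topology Matrix ComplexConjugate
open Set Complex Filter

namespace Pool.Agent.Work.MP_bf98aa_gt.B3

open Pool.Agent.Work.MP_bf98aa_gt.Th Pool.Agent.Work.MP_bf98aa_gt.Cy

namespace HD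

variable {d : HD} {z y z' : E6} {j : J4} {l : Fin 5}

/-- Twice the half period. -/
def F2f_u (j : J4) : L4 := ![((j.1 : ℕ) : ℤ), ((j.2 : ℕ) : ℤ), 0, 0]

theorem F2f_rv (j : J4) : rv (F2f_u j) = (2 : ℝ) • wj j := by
  ext i; fin_cases i <;> simp [wj, rv, F2f_u] <;> ring

theorem F2f_iof (x : E6) : rF (iof x) = rF x ∧ tF (iof x) = tF x ∧ d.nuF (iof x) = d.nuF x ∧
    cc 0 (iof x) = cc 0 x := by
  simp only [rF, tF, nuF, iof, cc_mkc0, cc_mkc1, cc_mkc2, normSq_neg, and_self]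

theorem F2f_trn (j : J4) (y : E6) : d.trn j (d.Dm (F2f_u j) 0 (io y)) = io (d.trn j y) := by
  refine ext4 ?_ (by simp only [trn, Dm, io, mk4_20]) ?_
  · simp only [trn, Dm, io, xv_mk4, F2f_rv]
    module
  · have e : ((F2f_u j 3 : ℤ) : ℝ) = 0 := by simp [F2f_u]
    simp only [trn, Dm, io, xv_mk4, mk4_21, F2f_rv, bf_add_right, bf_neg_right, bf_smul_left,
      bf_smul_right, N1_m_self, e]
    push_cast
    ring

theorem F2f_trn' (j : J4) (y : E6) :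
    d.trn j (d.pu (d.Dp (F2f_u j) 0 (iop y))) = iop (d.trn j (d.pu y)) := by
  have e2 : ((F2f_u j 2 : ℤ) : ℝ) = 0 := by simp [F2f_u]
  have w2 : wj j 2 = 0 := rfl
  have w3 : wj j 3 = 0 := rfl
  refine ext4 ?_ (by simp -implicitDefEqProofs only [trn, pu, Dp, iop, mk4_20]) ?_
  · simp -implicitDefEqProofs only [trn, pu, Dp, iop, xv_mk4, F2f_rv]
    module
  · simp -implicitDefEqProofs only [trn, pu, tt, Dp, iop, xv_mk4, mk4_21, mk4_20, mk4_10, mk4_11,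
      F2f_rv, bf_add_right, bf_neg_right, bf_smul_left, bf_smul_right, N1_m_self, e2, rm_sub, bf_sub, bf_E23,
      Pi.add_apply, Pi.neg_apply, Pi.smul_apply, w2, w3, xv_2, xv_3, smul_eq_mul]
    push_cast
    ring

theorem Ok.F2f_mir (h : d.Ok) (j : J4) : ∃ (m : L4) (n p q : ℤ), rv m = (2 : ℝ) • d.x0 j ∧
    m 2 = 2 * p + 1 ∧ m 3 = 2 * q ∧
    ∀ y, d.ka (d.Dm m n (io y)) = d.Dm (F2f_u j) 0 (io (d.ka y)) := by
  obtain ⟨m, hm, ⟨p, hp⟩, ⟨q, hq⟩, -⟩ := h.x0_parity j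
  have e : rv (d.T *ᵥ F2f_u j + d.c) = (2 : ℝ) • d.x0 j := by
    rw [rv_add, rv_mulVec, F2f_rv, Matrix.mulVec_smul, x0]
    module
  have e' : m = d.T *ᵥ F2f_u j + d.c := funext fun i => by
    have := congrFun e i
    rw [hm, smul_smul, show (2 : ℝ) * (1 / 2) = 1 by norm_num, one_smul, rv_apply, rv_apply] at this
    exact_mod_cast this.symm
  obtain ⟨n1, h1⟩ := h.ka_Dm (F2f_u j) 0
  obtain ⟨n2, h2⟩ := h.ka_io
  obtain ⟨n3, h3⟩ := Dm_Dm (d := d) (d.T *ᵥ F2f_u j) d.c n1 n2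
  refine ⟨m, n3, p, q, e' ▸ e, hp, by rw [hq, two_mul], fun y => ?_⟩
  rw [e', ← h.ka_ka (d.Dm (F2f_u j) 0 _), h1, h2, h.ka_ka, h3]

theorem F2f_pm {m : L4} {p q : ℤ} (hm : rv m = (2 : ℝ) • d.x0 j) (hp : m 2 = 2 * p + 1)
    (hq : m 3 = 2 * q) (n : ℤ) (y : E6) :
    d.pm j (d.Dp m (n + q - 1 - p - (2 * p + 1) * q) (iop y)) = d.Dm m n (io (d.pm j y)) := by
  have a2 : d.x0 j 2 = p + 1 / 2 := by
    have := congrFun hm 2
    rw [rv_apply, hp, Pi.smul_apply, smul_eq_mul] at this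
    push_cast at this
    linarith only [this]
  have a3 : d.x0 j 3 = q := by
    have := congrFun hm 3
    rw [rv_apply, hq, Pi.smul_apply, smul_eq_mul] at this
    push_cast at this
    linarith only [this]
  refine ext4 ?_ (by simp -implicitDefEqProofs only [pm, Dp, Dm, io, iop, mk4_20]) ?_
  · simp -implicitDefEqProofs only [pm, Dp, Dm, io, iop, xv_mk4]
  · simp -implicitDefEqProofs only [pm, tt, Dp, Dm, io, iop, xv_mk4, mk4_21, mk4_20, mk4_10, mk4_11,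
      bf_neg_right, rm_sub, bf_sub, bf_E23, Pi.add_apply, Pi.neg_apply, xv_2, xv_3, rv_apply,
      a2, a3, hp, hq]
    push_cast
    ring

theorem F2f_Df (j : J4) (y : E6) :
    d.cen j 4 (d.gf (((j.1 : ℕ) : ℤ), ((j.2 : ℕ) : ℤ), true) y) = iof (d.cen j 4 y) := by
  have w0 : wj j 0 = ((j.1 : ℕ) : ℝ) / 2 := rfl
  have w1 : wj j 1 = ((j.2 : ℕ) : ℝ) / 2 := rfl
  change d.Df (-wj j 0) (-wj j 1) (d.Df (((j.1 : ℕ) : ℤ) : ℝ) (((j.2 : ℕ) : ℤ) : ℝ) (iof y)) =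
    iof (d.Df (-wj j 0) (-wj j 1) y)
  rw [Df_Df', iof_Df, w0, w1, Int.cast_natCast, Int.cast_natCast]
  generalize ((j.1 : ℕ) : ℝ) = s
  generalize ((j.2 : ℕ) : ℝ) = t
  rw [show -(s / 2) * t - -(t / 2) * s = 0 by ring, mul_zero, zero_div, neg_zero, act_zero,
    show -(s / 2) + s = - -(s / 2) by ring, show -(t / 2) + t = - -(t / 2) by ring]

theorem F2f_fF (y : E6) : d.fF (iof y) = iof (d.fF y) := by
  refine extc rfl ?_ rfl
  have e := (F2f_iof (d := d) y).2.2.1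
  simp only [fF, e, cc_mkc1]
  simp only [iof, zy, cc_mkc1, mkc_10, mkc_11, neg_re, neg_im, cc_re, cc_im, ← mul_neg]
  congr 1
  apply Complex.ext <;> simp only [neg_re, neg_im] <;> ring

theorem F2f_rP (hl : l ≠ 4) (h1 : d.cen j l z' (2, 0) = d.cen j l z (2, 0))
    (h2 : xv (d.cen j l z') = -xv (d.cen j l z)) : d.rP j l z' = d.rP j l z := by
  rw [rP, rP, if_neg hl, if_neg hl, h1, h2, (rho_neg _ _).1]

theorem F2f_io (hl : l ≠ 4) (e : d.cen j l z' = io (d.cen j l z)) : d.rP j l z' = d.rP j l z :=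
  F2f_rP hl (by rw [e, io, mk4_20]) (by rw [e, io, xv_mk4])

theorem F2f_iop (hl : l ≠ 4) (e : d.cen j l z' = iop (d.cen j l z)) : d.rP j l z' = d.rP j l z :=
  F2f_rP hl (by rw [e, iop, mk4_20]) (by rw [e, iop, xv_mk4])

theorem Ok.F2f_flip (h : d.Ok) (hz : z ∈ d.Do j l) : ∃ z' ∈ d.Do j l,
    d.atlO.R (sP l) z (sP l) z' ∧ d.Ph j l z' = iof (d.Ph j l z) := by
  obtain ⟨m, n, p, q, hm, hp, hq, hk⟩ := h.F2f_mir j
  fin_cases l
  · have e : d.cen j 0 (d.gm (F2f_u j, 0, false, true) z) = io (d.cen j 0 z) := F2f_trn j z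
    have w := h.gm_mem (F2f_u j, 0, false, true) hz.1 (fun k => absurd k (by simp))
    exact ⟨_, ⟨w, (F2f_io (by decide) e).trans_lt hz.2⟩, R_mm.2 ⟨hz.1, w, _, rfl⟩,
      (congrArg d.lowF e).trans (h.lowF_io _)⟩
  · have e : d.cen j 1 (d.gm (m, n, false, true) z) = io (d.cen j 1 z) :=
      (congrArg (d.trn j) (hk z)).trans (F2f_trn j _)
    have w := h.gm_mem (m, n, false, true) hz.1 (fun k => absurd k (by simp))
    exact ⟨_, ⟨w, (F2f_io (by decide) e).trans_lt hz.2⟩, R_mm.2 ⟨hz.1, w, _, rfl⟩,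
      (congrArg d.lowF e).trans (h.lowF_io _)⟩
  · have e : d.cen j 2 (d.gp (F2f_u j, 0, true) z) = iop (d.cen j 2 z) := F2f_trn' j z
    have w := (gp_mem (F2f_u j, 0, true)).2 hz.1
    exact ⟨_, ⟨w, (F2f_iop (by decide) e).trans_lt hz.2⟩, R_pp.2 ⟨hz.1, w, _, rfl⟩,
      (congrArg d.uppF e).trans (h.uppF_io _)⟩
  · have e : d.cen j 3 (d.gp (m, n + q - 1 - p - (2 * p + 1) * q, true) z) = io (d.cen j 3 z) :=
      (congrArg (fun a => d.trn j (d.ka a)) (F2f_pm hm hp hq n z)).trans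
        ((congrArg (d.trn j) (hk _)).trans (F2f_trn j _))
    have w := (gp_mem (m, n + q - 1 - p - (2 * p + 1) * q, true)).2 hz.1
    exact ⟨_, ⟨w, (F2f_io (by decide) e).trans_lt hz.2⟩, R_pp.2 ⟨hz.1, w, _, rfl⟩,
      (congrArg d.lowF e).trans (h.lowF_io _)⟩
  · have e := (congrArg d.fF (F2f_Df (d := d) j z)).trans (F2f_fF _)
    have w := (gf_mem (((j.1 : ℕ) : ℤ), ((j.2 : ℕ) : ℤ), true)).2 hz.1
    exact ⟨_, ⟨w, ((congrArg rF e).trans (F2f_iof (d := d) _).1).trans_lt hz.2⟩,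
      R_ff.2 ⟨hz.1, w, _, rfl⟩, e⟩

theorem Ok.F2f_same (h : d.Ok) (hz : z ∈ d.Do j l) (hz' : z' ∈ d.Do j l)
    (he : d.Ph j l z = d.Ph j l z') : z' = z ∨ ∃ n : ℤ, l ≠ 4 ∧ z' = act n .m z := by
  have i := (h.cen_inv j l).1
  fin_cases l
  · obtain ⟨n, e⟩ := h.lowF_inj (h.Do_cen.1 hz) (h.Do_cen.1 hz') he
    exact Or.inr ⟨n, by decide, i (e.trans (d.F1_cen_act j n z).1.symm)⟩
  · obtain ⟨n, e⟩ := h.lowF_inj (h.Do_cen.2.1 hz) (h.Do_cen.2.1 hz') he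
    have k := (d.F1_cen_act j ((-n : ℤ) : ℝ) z).2.1
    rw [Int.cast_neg, neg_neg, ← Int.cast_neg] at k
    exact Or.inr ⟨-n, by decide, i (e.trans k.symm)⟩
  · obtain ⟨n, e⟩ := h.uppF_inj (h.Do_cen.2.2.1 hz) (h.Do_cen.2.2.1 hz') he
    exact Or.inr ⟨n, by decide, i (e.trans (d.F1_cen_act j n z).2.2.1.symm)⟩
  · obtain ⟨n, e⟩ := h.lowF_inj (h.Do_cen.2.2.2 hz) (h.Do_cen.2.2.2 hz') he
    have k := (d.F1_cen_act j ((-n : ℤ) : ℝ) z).2.2.2.1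
    rw [Int.cast_neg, neg_neg, ← Int.cast_neg] at k
    exact Or.inr ⟨-n, by decide, i (e.trans k.symm)⟩
  · exact Or.inl (i (h.fF_inj (F1_tF (j := j) hz.1).le he)).symm

end HD

end Pool.Agent.Work.MP_bf98aa_gt.B3
end

-- merged part: Pool.Agent.Work.MP_bf98aa_gt.B3.F2
section
-- merged part: Pool.Agent.Work.MP_bf98aa_gt.B3.F2c
section
/-!
The maps to `F`: compatibility with the changes of charts.
-/

set_option autoImplicit false

open scoped Manifold ContDiff Topology Matrix ComplexConjugate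
open Set Complex Filter

namespace Pool.Agent.Work.MP_bf98aa_gt.B3

open Pool.Agent.Work.MP_bf98aa_gt.Th Pool.Agent.Work.MP_bf98aa_gt.Cy

namespace HD

variable {d : HD} {z y : E6} {j : J4}

theorem F2_trn (j : J4) (z : E6) : d.trn j z = mk4 (xv z + ![-wj j 0, -wj j 1, 0, 0]) (z (2, 0))
    (z (2, 1) - bf (rm d.v) ![-wj j 0, -wj j 1, 0, 0] (xv z) / 2) := by
  have e : ![-wj j 0, -wj j 1, 0, 0] = -wj j := by
    funext i
    fin_cases i <;> simp [wj]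
  rw [e, bf_neg_left, trn, sub_eq_add_neg, neg_div, sub_neg_eq_add]

theorem F2_trn1 (j : J4) (z : E6) :
    d.trn j z (1, 0) = z (1, 0) ∧ d.trn j z (1, 1) = z (1, 1) := ⟨sub_zero _, sub_zero _⟩

theorem F2_Ph (j : J4) (z : E6) : d.Ph j 0 z = d.lowF (d.trn j z) ∧
    d.Ph j 1 z = d.lowF (d.trn j (d.ka z)) ∧ d.Ph j 2 z = d.uppF (d.trn j (d.pu z)) ∧
    d.Ph j 3 z = d.lowF (d.trn j (d.ka (d.pm j z))) ∧
    d.Ph j 4 z = d.fF (d.Df (-wj j 0) (-wj j 1) z) := by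
  simp [Ph, cen]

theorem F2_rP (j : J4) (z : E6) : d.rP j 0 z = d.rho (d.trn j z (2, 0)) (xv (d.trn j z)) ∧
    d.rP j 1 z = d.rho (d.trn j (d.ka z) (2, 0)) (xv (d.trn j (d.ka z))) ∧
    d.rP j 2 z = d.rho (d.trn j (d.pu z) (2, 0)) (xv (d.trn j (d.pu z))) ∧
    d.rP j 4 z = rF (d.Ph j 4 z) := by
  simp [rP, cen]

theorem Ok.F2_c01 (h : d.Ok) (hz : |z (2, 0)| < 1 / 8) :
    (z ∈ d.Do j 1 ↔ d.ka z ∈ d.Do j 0) ∧ d.Ph j 1 z = d.Ph j 0 (d.ka z) := by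
  have h1 := h.hμ
  obtain ⟨h2, h3⟩ := abs_lt.1 hz
  have h4 : d.tt z < 0 := by unfold tt; linarith only [h1, h3]
  have h5 : d.tt (d.ka z) < 0 := by rw [tt, N1_m_K0]; linarith only [h1, h2]
  exact ⟨and_congr (iff_of_true ⟨by linarith only [h2], by linarith only [h4], .inr h4⟩
    ⟨by rw [N1_m_K0]; linarith only [h3], by linarith only [h5], .inr h5⟩) (by rw [(F2_rP j z).2.1, (F2_rP j _).1]),
    by rw [(F2_Ph j z).2.1, (F2_Ph j _).1]⟩

theorem Ok.F2_c02 (h : d.Ok) (hs : d.Smp z y) :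
    (z ∈ d.Do j 0 ↔ y ∈ d.Do j 2) ∧ (z ∈ d.Do j 0 → d.Ph j 2 y = d.Ph j 0 z) := by
  obtain ⟨t0, t1, -, t2, -⟩ := h.Smp_lev hs
  obtain ⟨h1, h2, hx, hl, he⟩ := hs
  refine ⟨and_congr (iff_of_true h1 h2) (by rw [(h.rP_eq j z).1, (h.rP_eq j y).2.2.1, hx, hl]),
    fun hz => ?_⟩
  have n := (h.Do_near.1 (.inl hz)).1.le
  have n2 : |z (1, 0)| ≤ 1 / 32 := by simpa [wj] using (abs_le_norm4 _ 2).trans n
  have n3 : |z (1, 1)| ≤ 1 / 32 := by simpa [wj] using (abs_le_norm4 _ 3).trans n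
  have x2 : y (1, 0) = z (1, 0) := congrFun hx 2
  have x3 : y (1, 1) = z (1, 1) := congrFun hx 3
  have ex : xv (d.trn j (d.pu y)) = xv (d.trn j z) := by simp [trn, pu, hx]
  rw [gz, h.hg.near _ _ n2 n3] at he
  obtain ⟨e1, e2⟩ := h.low_upp (z := d.trn j z) (y := d.trn j (d.pu y)) (h.Do_cen.1 hz) t0 ex hl (by
    have a1 : d.trn j (d.pu y) (2, 1) =
        z (1, 0) * z (1, 1) / 2 + bf (rm d.v) (wj j) (xv z) / 2 + y (2, 1) := by
      simp only [trn, pu, mk4_21, xv_mk4, hx, x2, x3, t2]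
      rw [deriv_shf_low (by linarith only [t0, t1])]
      ring
    have a2 : d.trn j z (2, 1) = z (1, 0) * z (1, 1) / 2 + bf (rm d.v) (wj j) (xv z) / 2 +
        (z (2, 1) - z (1, 0) * z (1, 1) / 2) := by
      simp only [trn, mk4_21]
      ring
    rw [(F2_trn1 j z).1, (F2_trn1 j z).2, a1, a2, ee_add _ (y (2, 1)), mul_assoc, he, ← mul_assoc,
      ← ee_add])
  rw [(F2_Ph j y).2.2.1, (F2_Ph j z).1, uppF, lowF, e1, e2, ex]
  exact congrArg (fun t => mkc _ (d.z2 t _) _) hl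

theorem Ok.F2_c13 (h : d.Ok) (hs : d.Smp z y) :
    (z ∈ d.Do j 1 ↔ y ∈ d.Do j 3) ∧ (z ∈ d.Do j 1 → d.Ph j 3 y = d.Ph j 1 z) := by
  obtain ⟨-, t1, -, t2, -⟩ := h.Smp_lev hs
  obtain ⟨h1, h2, hx, hl, he⟩ := hs
  refine ⟨and_congr (iff_of_true h1 h2) (by rw [(h.rP_eq j z).2.1, (h.rP_eq j y).2.2.2.1, hx, hl]),
    fun hz => ?_⟩
  obtain ⟨m, hm, ⟨n, hn⟩, -⟩ := h.x0_parity j
  have a : d.x0 j 2 = n + 1 / 2 := by
    rw [hm, Pi.smul_apply, rv_apply, hn, smul_eq_mul]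
    push_cast
    ring
  have n2 := (abs_le_norm4 _ 2).trans (h.Do_near.2.1 (.inl hz)).1.le
  rw [Pi.sub_apply, a, xv_2] at n2
  rw [h.gz_far (n2.trans (by norm_num)), norm_ee, ofReal_one, mul_one, ← ee_add, ee_eq_iff] at he
  obtain ⟨k, hk⟩ := he
  have x2 : y (1, 0) = z (1, 0) := congrFun hx 2
  have x3 : y (1, 1) = z (1, 1) := congrFun hx 3
  have e : d.pm j y = act k .m z := ext4 (by simp [pm, act, hx]) hl (by
    simp only [pm, act, mk4_21, x2, x3, t2, a, hk]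
    rw [deriv_shf_low (by linarith only [t1])]
    ring)
  have e2 := h.Ph_act j 1 k z
  rw [show sP 1 = .m from rfl, ← e, show (![(k : ℝ), -k, k, -k, k] : Fin 5 → ℝ) 1 = (-k : ℤ) by simp,
    act_f_int] at e2
  rw [← e2, (F2_Ph j y).2.2.2.1, (F2_Ph j _).2.1]

theorem Ok.F2_c04 (h : d.Ok) (hz : z ∈ d.Wo .m) (hz' : z ∈ d.Nf) :
    (z ∈ d.Do j 0 ↔ d.omf z ∈ d.Do j 4) ∧ d.Ph j 4 (d.omf z) = d.Ph j 0 z := by
  have t := (h.Nf_small hz').1
  have c := h.Nf_CL hz hz'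
  have c' : d.trn j z ∈ d.CL := ⟨c.1, c.2.1, by rw [(F2_trn1 j z).1, (F2_trn1 j z).2]; exact c.2.2⟩
  have e : d.Ph j 4 (d.omf z) = d.lowF (d.trn j z) := by
    rw [← h.fF_omf c' (show |d.tt z| ≤ 1 / 4 by linarith only [t]), F2_trn, h.omf_shift (by linarith only [t]),
      (F2_Ph j _).2.2.2.2]
  refine ⟨and_congr (iff_of_true hz (h.omf_lev hz hz').1) ?_, e.trans (F2_Ph j z).1.symm⟩
  rw [(F2_rP j _).2.2.2, e, (h.lowF_lev c').1, (F2_rP j z).1]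

theorem Ok.F2_c24 (h : d.Ok) (hz : z ∈ d.Wo .p) (hz' : z ∈ d.Nf) :
    (z ∈ d.Do j 2 ↔ d.opf z ∈ d.Do j 4) ∧ d.Ph j 4 (d.opf z) = d.Ph j 2 z := by
  have t := (h.Nf_small hz').1
  have p : d.pu (d.trn j z) = d.trn j (d.pu z) := ext4 (by simp [pu, trn]) (by simp [pu, trn]) (by
    rw [pu, mk4_21, (F2_trn1 j z).1, (F2_trn1 j z).2]
    simp only [trn, pu, tt, mk4_21, mk4_20, xv_mk4]
    ring)
  have c' : d.trn j (d.pu z) ∈ d.CU :=
    ⟨hz.1, hz.2, .inl (show d.tt z < 1 / 4 by linarith only [hz', hz'.1])⟩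
  have e : d.Ph j 4 (d.opf z) = d.uppF (d.trn j (d.pu z)) := by
    rw [← p, ← h.fF_opf (z := d.trn j z) (p ▸ c') (show |d.tt z| ≤ 1 / 4 by linarith only [t]), F2_trn,
      h.opf_shift (by linarith only [t]), (F2_Ph j _).2.2.2.2]
  refine ⟨and_congr (iff_of_true hz (h.opf_lev hz hz').1) ?_, e.trans (F2_Ph j z).2.2.1.symm⟩
  rw [(F2_rP j _).2.2.2, e, (h.uppF_lev c').1, (F2_rP j z).2.2.1]

end HD

end Pool.Agent.Work.MP_bf98aa_gt.B3
end

-- merged part: Pool.Agent.Work.MP_bf98aa_gt.B3.F2u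
section
/-!
Uniqueness of the centre: auxiliary lemmas for `F2`.
-/

set_option autoImplicit false

open scoped Manifold ContDiff Topology Matrix ComplexConjugate
open Set Complex Filter

namespace Pool.Agent.Work.MP_bf98aa_gt.B3

open Pool.Agent.Work.MP_bf98aa_gt.Th Pool.Agent.Work.MP_bf98aa_gt.Cy

namespace HD

variable {d : HD} {z u : E6} {j j' : J4} {l : Fin 5}

/-- Twice the half period. -/
def F2u_W (j : J4) : L4 := ![(j.1 : ℕ), (j.2 : ℕ), 0, 0]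

theorem F2u_wj (j : J4) : wj j = (1 / 2 : ℝ) • rv (F2u_W j) := by
  funext i; fin_cases i <;> simp [wj, rv, F2u_W] <;> ring

theorem F2u_int {e : Bool} {x : ℝ} {m m' k : ℤ} (h1 : |x - m / 2| < 1 / 16)
    (h2 : |cond e (-x) x + k - m' / 2| < 1 / 16) : m' = cond e (-m) m + 2 * k := by
  rw [abs_lt] at h1 h2
  have : |((m' - (cond e (-m) m + 2 * k) : ℤ) : ℝ)| < 1 := by
    cases e <;> simp only [cond] at h2 ⊢ <;> push_cast <;> rw [abs_lt] <;> constructor <;>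
      linarith only [h1, h2, h1.1, h1.2, h2.1, h2.2]
  rw [← Int.cast_abs, ← Int.cast_one, Int.cast_lt, abs_lt] at this
  omega

theorem F2u_lat {e : Bool} {x : V4} {m m' L : L4} (h1 : ‖x - (1 / 2 : ℝ) • rv m‖ < 1 / 32)
    (h2 : ‖cond e (-x) x + rv L - (1 / 2 : ℝ) • rv m'‖ < 1 / 32) (i : Fin 4) :
    m' i = cond e (-m i) (m i) + 2 * L i := by
  have a1 := (norm_le_pi_norm _ i).trans_lt h1
  have a2 := (norm_le_pi_norm _ i).trans_lt h2
  refine F2u_int (x := x i) ?_ ?_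
  · refine lt_trans (lt_of_eq_of_lt ?_ a1) (by norm_num)
    simp [rv, div_eq_inv_mul]
  · refine lt_trans (lt_of_eq_of_lt ?_ a2) (by norm_num)
    cases e <;> simp [rv, div_eq_inv_mul]

theorem F2u_jj {a b : ℤ} (h0 : Even ((j'.1 : ℕ) - a - ((j.1 : ℕ) - a : ℤ)))
    (h1 : Even ((j'.2 : ℕ) - b - ((j.2 : ℕ) - b : ℤ))) : j = j' := by
  obtain ⟨r, hr⟩ := h0
  obtain ⟨s, hs⟩ := h1
  have := j.1.2; have := j.2.2; have := j'.1.2; have := j'.2.2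
  exact Prod.ext (Fin.ext (by omega)) (Fin.ext (by omega))

theorem F2u_L {e : Bool} {m L : L4} (h : ∀ i, m i = cond e (-m i) (m i) + 2 * L i) :
    L = cond e m 0 := by
  funext i; have := h i
  cases e <;> simp only [cond, Pi.zero_apply] at this ⊢ <;> omega

theorem F2u_WW {e : Bool} {L : L4}
    (h : ∀ i, F2u_W j' i = cond e (-F2u_W j i) (F2u_W j i) + 2 * L i) :
    j = j' ∧ L = cond e (F2u_W j) 0 := by
  have h0 := h 0
  have h1 := h 1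
  obtain rfl : j = j' := by
    refine F2u_jj (a := 0) (b := 0) ?_ ?_ <;> rw [Int.even_iff] <;> cases e <;>
      simp [F2u_W] at h0 h1 <;> omega
  exact ⟨rfl, F2u_L h⟩

theorem F2u_cen (d : HD) (j : J4) (z : E6) : d.cen j 0 z = d.trn j z ∧
    d.cen j 1 z = d.trn j (d.ka z) ∧ d.cen j 2 z = d.trn j (d.pu z) ∧
    d.cen j 3 z = d.trn j (d.ka (d.pm j z)) ∧ d.cen j 4 z = d.Df (-wj j 0) (-wj j 1) z := by
  simp only [cen, Matrix.cons_val, and_self]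

theorem F2u_Ph (d : HD) (j : J4) (z : E6) : d.Ph j 0 z = d.lowF (d.trn j z) ∧
    d.Ph j 1 z = d.Ph j 0 (d.ka z) ∧ d.Ph j 2 z = d.uppF (d.trn j (d.pu z)) ∧
    d.Ph j 3 z = d.Ph j 0 (d.ka (d.pm j z)) ∧
    d.Ph j 4 z = d.fF (d.Df (-wj j 0) (-wj j 1) z) := by
  simp only [Ph, cen, Matrix.cons_val, and_self]

theorem F2u_flip (j : J4) (n : ℤ) (z : E6) :
    d.trn j (d.Dm (F2u_W j) n (io z)) = act n .m (io (d.trn j z)) := by
  have e : rv (F2u_W j) = (2 : ℝ) • wj j := by rw [F2u_wj, smul_smul]; norm_num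
  refine ext4 ?_ (by simp only [trn, Dm, io, act, mk4_20]) ?_
  · simp only [trn, Dm, io, act, xv_mk4, e, two_smul]; abel
  · simp only [trn, Dm, io, act, xv_mk4, e, mk4_21, bf_smul_left, bf_neg_right, bf_add_right,
      bf_smul_right, N1_m_self]
    simp [F2u_W]; ring

theorem Ok.F2u_core (h : d.Ok) {γ : L4 × ℤ × Bool × Bool} (h1 : ‖xv u - wj j‖ < 1 / 32)
    (h2 : ‖rm d.T *ᵥ (xv u - wj j)‖ < 1 / 32) (h3 : ‖xv (d.gm γ u) - wj j'‖ < 1 / 32) :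
    j = j' ∧ Sgn (d.Ph j 0 u) (d.Ph j 0 (d.gm γ u)) := by
  obtain ⟨L, n, k, e⟩ := γ
  rw [gm_xv] at h3
  cases k
  · rw [F2u_wj] at h1 h3
    obtain ⟨rfl, rfl⟩ := F2u_WW (F2u_lat (e := e) (L := L) h1 h3)
    refine ⟨rfl, ?_⟩
    cases e
    · left
      have := h.Ph_act j 0 n u
      rw [show sP 0 = .m from rfl, act_m_int (d := d)] at this
      exact this.trans (act_f_int n _)
    · right
      simp only [gm, cond, id, F2u_Ph]
      rw [F2u_flip, lowF_act, act_f_int, h.lowF_io]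
  · exfalso
    obtain ⟨m, hm, ⟨r, hr⟩, -⟩ := h.x0_parity j
    have e1 : rm d.T *ᵥ (xv u - wj j) = rm d.T *ᵥ xv u - (1 / 2 : ℝ) • rv (m - d.c) := by
      rw [rv_sub, smul_sub, ← hm, x0, Matrix.mulVec_sub]; abel
    have e2 : rm d.T *ᵥ cond e (-xv u) (xv u) + (1 / 2 : ℝ) • rv d.c + rv L - wj j' =
        cond e (-(rm d.T *ᵥ xv u)) (rm d.T *ᵥ xv u) + rv L -
          (1 / 2 : ℝ) • rv (F2u_W j' - d.c) := by
      rw [rv_sub, smul_sub, ← F2u_wj]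
      cases e <;> simp only [cond, Matrix.mulVec_neg] <;> abel
    rw [e1] at h2
    have := F2u_lat h2 (e2 ▸ h3) 2
    cases e <;> simp [F2u_W] at this <;> omega

theorem Ok.F2u_nr (h : d.Ok) (hz : z ∈ d.Do j l) (hl : l ≠ 4) (hu : d.cen j l z = d.trn j u) :
    ‖xv u - wj j‖ < 1 / 32 ∧ ‖rm d.T *ᵥ (xv u - wj j)‖ < 1 / 32 := by
  have h8 := hz.2
  rw [rP, if_neg hl] at h8
  have : |d.cen j l z (2, 0)| < d.M + 1 / 8 := by
    fin_cases l
    exacts [h.CL_lev (h.Do_cen.1 hz), h.CL_lev (h.Do_cen.2.1 hz), h.CU_lev (h.Do_cen.2.2.1 hz),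
      h.CL_lev (h.Do_cen.2.2.2 hz), absurd rfl hl]
  have := h.rho_small' this.le h8
  rw [hu, trn, xv_mk4] at this
  exact ⟨this.1, this.2.1⟩

theorem Ok.F2u_conj (h : d.Ok) (γ : L4 × ℤ × Bool × Bool) (b b' : Bool) :
    ∃ γ', ∀ z, d.gm γ' (cond b d.ka id z) = cond b' d.ka id (d.gm γ z) := by
  obtain ⟨γ₁, h1⟩ := h.grp_m.mul (0, 0, b, false) γ
  obtain ⟨γ₂, h2⟩ := h.N1_m_K ⟨γ₁, fun _ => rfl⟩ b'
  refine ⟨γ₂, fun z => ?_⟩
  rw [h2, h1]
  cases b <;> simp only [gm, cond, id, Dm_zero, h.ka_ka]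

theorem Ok.F2u_m (h : d.Ok) {γ : L4 × ℤ × Bool × Bool} {l' : Fin 5} (hl : l = 0 ∨ l = 1)
    (hl' : l' = 0 ∨ l' = 1) (hz : z ∈ d.Do j l) (hz' : d.gm γ z ∈ d.Do j' l') :
    j = j' ∧ Sgn (d.Ph j l z) (d.Ph j l' (d.gm γ z)) := by
  have a : ∀ {z j l}, l = 0 ∨ l = 1 → z ∈ d.Do j l → ∃ b : Bool,
      (‖xv (cond b d.ka id z) - wj j‖ < 1 / 32 ∧
        ‖rm d.T *ᵥ (xv (cond b d.ka id z) - wj j)‖ < 1 / 32) ∧
      ∀ j, d.Ph j l z = d.Ph j 0 (cond b d.ka id z) := by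
    rintro z j l (rfl | rfl) hz
    · exact ⟨false, h.F2u_nr hz (by decide) (d.F2u_cen j z).1, fun _ => rfl⟩
    · exact ⟨true, h.F2u_nr hz (by decide) (d.F2u_cen j z).2.1, fun j => (d.F2u_Ph j z).2.1⟩
  obtain ⟨b, a1, e1⟩ := a hl hz
  obtain ⟨b', a2, e2⟩ := a hl' hz'
  obtain ⟨γ', hγ⟩ := h.F2u_conj γ b b'
  rw [← hγ] at a2 e2
  rw [e1, e2]
  exact h.F2u_core a1.1 a1.2 a2.1

theorem F2u_flip2 (j : J4) (n : ℤ) (z : E6) :
    d.trn j (d.pu (d.Dp (F2u_W j) n (iop z))) = act n .m (iop (d.trn j (d.pu z))) := by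
  have e : rv (F2u_W j) = (2 : ℝ) • wj j := by rw [F2u_wj, smul_smul]; norm_num
  refine ext4 ?_ (by simp only [trn, pu, Dp, iop, act, mk4_20]) ?_
  · simp only [trn, pu, Dp, iop, act, xv_mk4, e, two_smul]; abel
  · simp only [trn, pu, Dp, iop, act, xv_mk4, e, mk4_21, mk4_10, mk4_11, mk4_20, tt, rm_sub,
      bf_sub, bf_E23, bf_smul_left, bf_neg_right, bf_add_right, bf_smul_right, N1_m_self]
    simp [F2u_W, wj]; ring

theorem F2u_flip3 {m : L4} (hm : d.x0 j = (1 / 2 : ℝ) • rv m) (h2 : Odd (m 2)) (h3 : Even (m 3))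
    (n : ℤ) : ∃ n' : ℤ, ∀ z, d.pm j (d.Dp m n (iop z)) = d.Dm m n' (io (d.pm j z)) := by
  obtain ⟨r, hr⟩ := h2
  obtain ⟨s, hs⟩ := h3
  refine ⟨n + 1 + r + 2 * r * s, fun z => ext4 (by simp only [pm, Dp, Dm, iop, io, xv_mk4])
    (by simp only [pm, Dp, Dm, iop, io, mk4_20]) ?_⟩
  simp only [pm, Dp, Dm, iop, io, xv_mk4, hm, mk4_21, mk4_10, mk4_11, mk4_20, tt, rm_sub,
    bf_sub, bf_E23, Pi.add_apply, Pi.neg_apply, Pi.smul_apply, rv_apply, hr, hs, xv_2, xv_3,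
    smul_eq_mul]
  push_cast; ring

theorem Ok.F2u_p0 (h : d.Ok) (hl : l = 2 ∨ l = 3) (n : ℤ) :
    d.Ph j l (d.gp (0, n, false) z) = d.Ph j l z := by
  have := h.Ph_act j l n z
  rcases hl with rfl | rfl
  · rw [show sP 2 = .p from rfl, act_p_int (d := d)] at this
    exact this.trans (act_f_int n _)
  · rw [show sP 3 = .p from rfl, act_p_int (d := d)] at this
    refine this.trans ?_
    have := act_f_int (-n) (d.Ph j 3 z)
    rwa [Int.cast_neg] at this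

theorem Ok.F2u_p (h : d.Ok) {γ : L4 × ℤ × Bool} {l' : Fin 5} (hl : l = 2 ∨ l = 3)
    (hl' : l' = 2 ∨ l' = 3) (hz : z ∈ d.Do j l) (hz' : d.gp γ z ∈ d.Do j' l') :
    j = j' ∧ l = l' ∧ Sgn (d.Ph j l z) (d.Ph j l (d.gp γ z)) := by
  obtain ⟨L, n, e⟩ := γ
  obtain ⟨m, hm, ⟨r, hr⟩, m3, m0, m1⟩ := h.x0_parity j
  obtain ⟨m', hm', ⟨r', hr'⟩, -, m0', m1'⟩ := h.x0_parity j'
  rcases hl with rfl | rfl <;> rcases hl' with rfl | rfl
  · have a1 := (h.Do_near.1 (.inr hz)).1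
    have a2 := (h.Do_near.1 (.inr hz')).1
    rw [gp_xv, F2u_wj] at a2
    rw [F2u_wj] at a1
    obtain ⟨rfl, rfl⟩ := F2u_WW (F2u_lat (e := e) (L := L) a1 a2)
    refine ⟨rfl, rfl, ?_⟩
    cases e
    · exact .inl (h.F2u_p0 (.inl rfl) n)
    · right
      simp only [gp, cond, F2u_Ph]
      rw [F2u_flip2, uppF_act, act_f_int, h.uppF_io]
  · have a1 := (h.Do_near.1 (.inr hz)).1
    have a2 := (h.Do_near.2.1 (.inr hz')).1
    rw [gp_xv, hm'] at a2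
    rw [F2u_wj] at a1
    have := F2u_lat a1 a2 2
    cases e <;> simp [F2u_W] at this <;> omega
  · have a1 := (h.Do_near.2.1 (.inr hz)).1
    have a2 := (h.Do_near.1 (.inr hz')).1
    rw [gp_xv, F2u_wj] at a2
    rw [hm] at a1
    have := F2u_lat a1 a2 2
    cases e <;> simp [F2u_W] at this <;> omega
  · have a1 := (h.Do_near.2.1 (.inr hz)).1
    have a2 := (h.Do_near.2.1 (.inr hz')).1
    rw [hm] at a1
    rw [gp_xv] at a2
    obtain rfl : j = j' := by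
      have b0 := F2u_lat a1 (hm' ▸ a2) 0
      have b1 := F2u_lat a1 (hm' ▸ a2) 1
      rw [Int.even_iff] at m0 m1 m0' m1'
      refine F2u_jj (a := 0) (b := 0) ?_ ?_ <;> rw [Int.even_iff] <;> cases e <;>
        simp only [cond] at b0 b1 <;> omega
    obtain rfl := F2u_L (F2u_lat (e := e) (L := L) a1 (hm ▸ a2))
    refine ⟨rfl, rfl, ?_⟩
    cases e
    · exact .inl (h.F2u_p0 (.inr rfl) n)
    · obtain ⟨n', hn⟩ := F2u_flip3 hm ⟨r, hr⟩ m3 n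
      obtain ⟨γ', hγ⟩ := h.F2u_conj (m, n', false, true) true true
      have e1 : d.gm γ' (d.ka (d.pm j z)) = d.ka (d.pm j (d.gp (m, n, true) z)) :=
        (hγ _).trans (congrArg d.ka (hn z).symm)
      have b1 := h.F2u_nr hz (by decide) (d.F2u_cen j z).2.2.2.1
      have b2 := (h.F2u_nr hz' (by decide) (d.F2u_cen j _).2.2.2.1).1
      rw [(d.F2u_Ph j _).2.2.2.1, (d.F2u_Ph j _).2.2.2.1]
      simp only [cond] at b2 ⊢
      rw [← e1] at b2 ⊢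
      exact (h.F2u_core b1.1 b1.2 b2).2

theorem F2u_fF (z : E6) : d.fF (iof z) = iof (d.fF z) := by
  have e : d.nuF (iof z) = d.nuF z := by simp [nuF, iof]
  refine extc (by simp only [fF, iof, cc_mkc0]) ?_ (by simp only [fF, iof, cc_mkc2])
  simp only [fF, cc_mkc1, e]
  simp only [iof, cc_mkc1, mkc_10, mkc_11, neg_re, neg_im, cc_re, cc_im, zy]
  rw [← mul_neg]
  congr 1
  refine Complex.ext ?_ ?_ <;> simp <;> ring

theorem Ok.F2u_f (h : d.Ok) {γ : ℤ × ℤ × Bool} (hz : z ∈ d.Do j 4) (hz' : d.gf γ z ∈ d.Do j' 4) :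
    j = j' ∧ Sgn (d.Ph j 4 z) (d.Ph j 4 (d.gf γ z)) := by
  obtain ⟨s, t, e⟩ := γ
  obtain ⟨a0, a1⟩ := h.Do_near.2.2 hz
  obtain ⟨b0, b1⟩ := h.Do_near.2.2 hz'
  have c := (gf_norm (d := d) (s, t, e) z).2.2
  have c0 : d.gf (s, t, e) z (1, 0) = cond e (-z (1, 0)) (z (1, 0)) + s :=
    (congrArg re c).trans (by cases e <;> rfl)
  have c1 : d.gf (s, t, e) z (1, 1) = cond e (-z (1, 1)) (z (1, 1)) + t :=
    (congrArg im c).trans (by cases e <;> rfl)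
  rw [c0] at b0
  rw [c1] at b1
  have w0 : ∀ j, wj j 0 = (F2u_W j 0 : ℤ) / 2 := fun j => by simp [wj, F2u_W]
  have w1 : ∀ j, wj j 1 = (F2u_W j 1 : ℤ) / 2 := fun j => by simp [wj, F2u_W]
  rw [w0] at a0 b0
  rw [w1] at a1 b1
  have k0 := F2u_int a0 b0
  have k1 := F2u_int a1 b1
  obtain ⟨rfl, hL⟩ := F2u_WW (e := e) (L := ![s, t, 0, 0]) (j := j) (j' := j') fun i => by
    fin_cases i
    exacts [k0, k1, by cases e <;> rfl, by cases e <;> rfl]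
  have s0 : s = _ := congrFun hL 0
  have t0 : t = _ := congrFun hL 1
  refine ⟨rfl, ?_⟩
  cases e
  · left
    obtain rfl : s = 0 := s0
    obtain rfl : t = 0 := t0
    simp only [gf, cond, id, Int.cast_zero, Df_zero]
  · right
    have s1 : (s : ℝ) = 2 * wj j 0 := by rw [w0, s0]; simp only [cond]; ring
    have t1 : (t : ℝ) = 2 * wj j 1 := by rw [w1, t0]; simp only [cond]; ring
    simp only [gf, cond, F2u_Ph]
    rw [← F2u_fF, iof_Df, Df_Df', s1, t1]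
    congr 1
    rw [show -(d.v 0 1 * (-wj j 0 * (2 * wj j 1) - -wj j 1 * (2 * wj j 0)) / 2) = (0 : ℝ) by ring,
      act_zero]
    congr 1 <;> ring

end HD

end Pool.Agent.Work.MP_bf98aa_gt.B3
end

-- merged part: Pool.Agent.Work.MP_bf98aa_gt.B3.F2
section
/-!
The maps to `F`: compatibility with the arrows of a half.

PLAN. `Ph_flip`: the map `gm (l, n, false, true)` with `l = 2 w` (resp. `l = 2 x0` for the mirror maps, `l 3` even) becomes `io` in centred coordinates up to an integer shift of `φ`, for `p` near `w` it becomes `iop` (`ext4`, `lowF_io`, `uppF_io`, `lowF_act`, `act_f_int`);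
for `l = 1`: conjugate the case `l = 0` by `ka` (`ka_Dm`, `ka_io`). For `l = 3` compute: `cen j 3 z (2,1) = -φ - x₂ x₃ / 2 + a x₃ + (a - 1 / 2) / 2 + shf' t (x₂ - a) (x₃ - b) / 2 - bf v x0 x / 2 + const`, `(a, b) = (x0 2, x0 3)`.
`uni_*`: from `Do_near` the translation part is forced (`x ≡ w_j` or `x0 j` modulo the lattice up to `1 / 32`; `x0_parity`; second coordinates of `w_j` and `x0 j'` differ by a half integer); then `Ph_flip`, or an integer shift of `φ`.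
`c02`: `low_upp`, `near`; `c13`: `gz_far`; `c04`, `c24`: `omf_shift`, `opf_shift` with `(s, t) = -w`, `fF_omf`, `fF_opf`.
-/

set_option autoImplicit false

open scoped Manifold ContDiff Topology Matrix ComplexConjugate
open Set Complex Filter

namespace Pool.Agent.Work.MP_bf98aa_gt.B3

open Pool.Agent.Work.MP_bf98aa_gt.Th Pool.Agent.Work.MP_bf98aa_gt.Cy

namespace HD

variable {d : HD} {z y z' : E6} {j j' : J4} {l l' : Fin 5}

theorem Sgn_refl (x : E6) : Sgn x x := Or.inl rfl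

theorem Sgn_symm {x y : E6} (h : Sgn x y) : Sgn y x := by
  rcases h with h | h
  exacts [Or.inl h.symm, Or.inr (by rw [h, iof_iof])]

theorem Sgn_trans {x y z : E6} (h : Sgn x y) (h' : Sgn y z) : Sgn x z := by
  rcases h with rfl | rfl
  · exact h'
  · rcases h' with h' | h'
    exacts [Or.inr h', Or.inl (h'.trans (iof_iof _))]

theorem Sgn_norm {x y : E6} (h : Sgn x y) :
    rF y = rF x ∧ tF y = tF x ∧ d.nuF y = d.nuF x ∧ cc 0 y = cc 0 x := by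
  rcases h with rfl | rfl
  exacts [⟨rfl, rfl, rfl, rfl⟩, F2f_iof x]

theorem Ok.Ph_flip (h : d.Ok) (hz : z ∈ d.Do j l) : ∃ z' ∈ d.Do j l,
    d.atlO.R (sP l) z (sP l) z' ∧ d.Ph j l z' = iof (d.Ph j l z) :=
  h.F2f_flip hz

theorem Ok.Ph_same (h : d.Ok) (hz : z ∈ d.Do j l) (hz' : z' ∈ d.Do j l)
    (he : d.Ph j l z = d.Ph j l z') : z' = z ∨ ∃ n : ℤ, l ≠ 4 ∧ z' = act n .m z :=
  h.F2f_same hz hz' he

theorem Ok.c01 (h : d.Ok) (hz : |z (2, 0)| < 1 / 8) :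
    (z ∈ d.Do j 1 ↔ d.ka z ∈ d.Do j 0) ∧ d.Ph j 1 z = d.Ph j 0 (d.ka z) :=
  h.F2_c01 hz

theorem Ok.c02 (h : d.Ok) (hs : d.Smp z y) :
    (z ∈ d.Do j 0 ↔ y ∈ d.Do j 2) ∧ (z ∈ d.Do j 0 → d.Ph j 2 y = d.Ph j 0 z) :=
  h.F2_c02 hs

theorem Ok.c13 (h : d.Ok) (hs : d.Smp z y) :
    (z ∈ d.Do j 1 ↔ y ∈ d.Do j 3) ∧ (z ∈ d.Do j 1 → d.Ph j 3 y = d.Ph j 1 z) :=
  h.F2_c13 hs

theorem Ok.c04 (h : d.Ok) (hz : z ∈ d.Wo .m) (hz' : z ∈ d.Nf) :
    (z ∈ d.Do j 0 ↔ d.omf z ∈ d.Do j 4) ∧ d.Ph j 4 (d.omf z) = d.Ph j 0 z :=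
  h.F2_c04 hz hz'

theorem Ok.c24 (h : d.Ok) (hz : z ∈ d.Wo .p) (hz' : z ∈ d.Nf) :
    (z ∈ d.Do j 2 ↔ d.opf z ∈ d.Do j 4) ∧ d.Ph j 4 (d.opf z) = d.Ph j 2 z :=
  h.F2_c24 hz hz'

theorem Ok.uni_m (h : d.Ok) {γ : L4 × ℤ × Bool × Bool} (hl : l = 0 ∨ l = 1) (hl' : l' = 0 ∨ l' = 1)
    (hz : z ∈ d.Do j l) (hz' : d.gm γ z ∈ d.Do j' l') :
    j = j' ∧ Sgn (d.Ph j l z) (d.Ph j l' (d.gm γ z)) :=
  h.F2u_m hl hl' hz hz'

theorem Ok.uni_p (h : d.Ok) {γ : L4 × ℤ × Bool} (hl : l = 2 ∨ l = 3) (hl' : l' = 2 ∨ l' = 3)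
    (hz : z ∈ d.Do j l) (hz' : d.gp γ z ∈ d.Do j' l') :
    j = j' ∧ l = l' ∧ Sgn (d.Ph j l z) (d.Ph j l (d.gp γ z)) :=
  h.F2u_p hl hl' hz hz'

theorem Ok.uni_f (h : d.Ok) {γ : ℤ × ℤ × Bool} (hz : z ∈ d.Do j 4) (hz' : d.gf γ z ∈ d.Do j' 4) :
    j = j' ∧ Sgn (d.Ph j 4 z) (d.Ph j 4 (d.gf γ z)) :=
  h.F2u_f hz hz'

end HD

end Pool.Agent.Work.MP_bf98aa_gt.B3
end
end

-- merged part: Pool.Agent.Work.MP_bf98aa_gt.B3.F3
section
/-!
The maps to `F`: images, saturation, the relation.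

PLAN. `Ph_img`: `lowF_lev`, `uppF_lev`. `Ph_onto`: `lowF_surj`, `uppF_surj`, `fF_surj`, `cen_inv`; membership in `Wo` from the level and `rho_small'` (for `l = 1`, `0 ≤ tt z`: `x₂` is near a half integer, so `gz ≠ 0`).
`Fo_cover`: by the level `ν` and `u = 0` or not: `ν ≤ -μ₁ - 1 / 16`: 3; `ν ≤ 0`: 1; `u ≠ 0`, `t < 1 / 8`: 0; `0 < t`: 2; else `u = 0`, `t ≤ 0`, so `w = 0`: 4.
`sat`: cases on `l` and `c` with `R_mm`, `R_mp`, `R_mp'`, `R_mf`, `R_pf`, `Smp_g`, `omf_g`, `opf_g` and `c01 .. c24`; a point of `Nf` is never a translate of a point of `Do j 1`, `Do j 3` (`x₂`).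
`Ph_iff`: forward by `sat` and `uni_*`; backward by `Ph_flip`, then for `Ph j l z = Ph j l' z'` produce the partner of `z` in the chart of `l'` (`exists_p`, `exists_m`, `omf`, `opf`, `ka`; the pairs (0,3), (1,2), (1,4), (2,3), (3,4) have disjoint levels) and use `Ph_same`.
`closed_near`: by `sat` the set is the union over `j`-independent finitely many `l` of `{z ∈ Wo c | ∃ γ, rP j l (g γ z) ≤ r}` (no `κ`); `rP j l (g γ z) ≤ r < 8` bounds `γ` near a point up to the integer shift of `φ`, which does not change `rP`.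
-/

set_option autoImplicit false

open scoped Manifold ContDiff Topology Matrix ComplexConjugate
open Set Complex Filter

namespace Pool.Agent.Work.MP_bf98aa_gt.B3

open Pool.Agent.Work.MP_bf98aa_gt.Th Pool.Agent.Work.MP_bf98aa_gt.Cy

namespace HD

variable {d : HD} {z y z' : E6} {j j' : J4} {l l' : Fin 5} {c : K3}

/-- The images of the maps to `F`. -/
def Img (d : HD) (l : Fin 5) : Set E6 :=
  ![{y | cc 0 y ≠ 0 ∧ -1 / 8 < d.nuF y ∧ tF y < 1 / 8},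
    {y | d.nuF y < 1 / 8 ∧ -d.μ₁ - 1 / 8 < d.nuF y}, {y | 0 < tF y}, {y | d.nuF y < -d.μ₁},
    d.Wo .f] l

theorem F3_nu (y : E6) : d.nuF y = d.μ₁ + tF y := by
  simp only [nuF, tF]; ring

theorem F3_neg (hy : tF y < 0) : cc 0 y ≠ 0 := fun h0 => by
  rw [tF, h0, map_zero, sub_zero] at hy
  exact absurd hy (not_lt.2 (normSq_nonneg _))

theorem F3_f (j : J4) (z : E6) : d.Ph j 4 z ∈ d.Wo .f ↔ z ∈ d.Wo .f := by
  change normSq (cc 0 z * ee _) < 1 / 8 ∧ normSq (cc 2 z * ee _) < 1 / 8 ↔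
    normSq (cc 0 z) < 1 / 8 ∧ normSq (cc 2 z) < 1 / 8
  simp only [map_mul, normSq_ee, mul_one]

theorem F3_rP (j : J4) (z : E6) (hl : l ≠ 4) :
    d.rP j l z = d.rho (d.cen j l z (2, 0)) (xv (d.cen j l z)) := if_neg hl

theorem Ok.Ph_img (h : d.Ok) (hz : z ∈ d.Do j l) : d.Ph j l z ∈ d.Img l := by
  have h1 := (h.Ph_lev hz).2.1
  have h2 := F3_nu (d := d) (d.Ph j l z)
  have h3 := hz.1
  fin_cases l
  · have h4 : -1 / 8 < z (2, 0) := h3.1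
    have h5 : z (2, 0) - d.μ₁ < 1 / 8 := h3.2.1
    have h6 : d.nuF (d.Ph j 0 z) = z (2, 0) := h1
    have h7 : d.nuF (d.Ph j 0 z) = d.μ₁ + tF (d.Ph j 0 z) := h2
    exact ⟨(h.lowF_lev (h.Do_cen.1 hz)).2.2.2, h4.trans_eq h6.symm,
      show tF (d.Ph j 0 z) < 1 / 8 by linarith only [h5, h6, h7]⟩
  · have h4 : -1 / 8 < z (2, 0) := h3.1
    have h5 : z (2, 0) - d.μ₁ < 1 / 8 := h3.2.1
    have h6 : d.nuF (d.Ph j 1 z) = -z (2, 0) := h1
    exact ⟨show d.nuF (d.Ph j 1 z) < 1 / 8 by linarith only [h4, h6],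
      show -d.μ₁ - 1 / 8 < d.nuF (d.Ph j 1 z) by linarith only [h5, h6]⟩
  · have h4 : 0 < z (2, 0) - d.μ₁ := h3.1
    have h6 : d.nuF (d.Ph j 2 z) = z (2, 0) := h1
    have h7 : d.nuF (d.Ph j 2 z) = d.μ₁ + tF (d.Ph j 2 z) := h2
    exact show 0 < tF (d.Ph j 2 z) by linarith
  · have h4 : 0 < z (2, 0) - d.μ₁ := h3.1
    have h6 : d.nuF (d.Ph j 3 z) = -z (2, 0) := h1
    exact show d.nuF (d.Ph j 3 z) < -d.μ₁ by linarith
  · exact (F3_f j z).2 h3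

theorem Ok.Ph_onto (h : d.Ok) (j : J4) (hy : y ∈ d.Fo) (hl : y ∈ d.Img l) :
    ∃ z ∈ d.Do j l, d.Ph j l z = y := by
  have hν := F3_nu (d := d) y
  have hμ := h.hμ
  have hr : rF y < 8 := hy.1
  obtain ⟨hν1, hν2⟩ := abs_lt.1 hy.2
  have hM : d.M = d.μ₁ + 1 := rfl
  fin_cases l
  · obtain ⟨w, hw, rfl⟩ := h.lowF_surj hl.1 (by linarith only [hν1]) hl.2.2
    obtain ⟨z, rfl⟩ := (h.cen_inv j 0).2 w
    obtain ⟨e1, e2, -⟩ := h.lowF_lev hw
    have e3 := (cen_lev (d := d) j z).1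
    have e4 : d.tt (d.cen j 0 z) = d.tt z := by simp only [tt, e3]
    refine ⟨z, ⟨⟨?_, e4 ▸ hw.2.1, hw.2.2.imp (fun hq hg => hq ?_) fun ht => e4 ▸ ht⟩,
      (F3_rP j z (l := 0) (by decide)).trans_lt (e1 ▸ hr)⟩, rfl⟩
    · rw [← e3, ← e2]; exact hl.2.1
    · have e5 := (h.rho_small' (h.CL_lev hw).le (e1 ▸ hr)).1
      have e6 : d.cen j 0 z (1, 0) = z (1, 0) := by
        simpa [wj] using congrFun (h.cen_xv j z).1 2
      have e7 : d.cen j 0 z (1, 1) = z (1, 1) := by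
        simpa [wj] using congrFun (h.cen_xv j z).1 3
      have e8 := (abs_le_norm4 _ 2).trans_lt e5
      have e9 := (abs_le_norm4 _ 3).trans_lt e5
      rw [xv_2, e6] at e8
      rw [xv_3, e7] at e9
      rw [h.gz_zero, (rd_eq (by linarith only [e8])).1, (rd_eq (by linarith only [e9])).1] at hg
      rw [e6, e7, h.qq_zero]
      exact hg
  · have l1 : d.nuF y < 1 / 8 := hl.1
    have l2 : -d.μ₁ - 1 / 8 < d.nuF y := hl.2
    obtain ⟨w, hw, rfl⟩ := h.lowF_surj (F3_neg (y := y) (by linarith only [hν, hμ, l1])) (by linarith only [hν1]) (by linarith only [hν, hμ, l1])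
    obtain ⟨z, rfl⟩ := (h.cen_inv j 1).2 w
    obtain ⟨e1, e2, -⟩ := h.lowF_lev hw
    have e3 := (cen_lev (d := d) j z).2.1
    refine ⟨z, ⟨⟨by linarith only [l1, e2, e3], show z (2, 0) - d.μ₁ < 1 / 8 by linarith only [l2, e2, e3], Or.inl ?_⟩,
      (F3_rP j z (l := 1) (by decide)).trans_lt (e1 ▸ hr)⟩, rfl⟩
    have e5 := (h.rho_small' (h.CL_lev hw).le (e1 ▸ hr)).2.1
    rw [(h.cen_xv j z).2.1, h.TTv] at e5
    obtain ⟨m, hm, ⟨k, hk⟩, -⟩ := h.x0_parity j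
    have e8 := (abs_le_norm4 _ 2).trans_lt e5
    have e9 : d.x0 j 2 = k + 1 / 2 := by
      rw [hm, Pi.smul_apply, rv, hk, smul_eq_mul]
      push_cast
      ring
    rw [Pi.sub_apply, xv_2, e9] at e8
    rw [h.gz_far (n := k) (by linarith only [e8])]
    exact ee_ne_zero _
  · have l1 : 0 < tF y := hl
    obtain ⟨w, hw, rfl⟩ := h.uppF_surj l1 (by linarith only [hν, hν2, hM]) (Or.inr hr)
    obtain ⟨z, rfl⟩ := (h.cen_inv j 2).2 w
    obtain ⟨e1, -⟩ := h.uppF_lev hw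
    have e4 : d.tt (d.cen j 2 z) = d.tt z := by simp only [tt, (cen_lev (d := d) j z).2.2.1]
    exact ⟨z, ⟨⟨e4 ▸ hw.1, e4 ▸ hw.2.1⟩,
      (F3_rP j z (l := 2) (by decide)).trans_lt (e1 ▸ hr)⟩, rfl⟩
  · have l1 : d.nuF y < -d.μ₁ := hl
    obtain ⟨w, hw, rfl⟩ := h.lowF_surj (F3_neg (y := y) (by linarith only [hν, hμ, l1])) (by linarith only [hν1]) (by linarith only [hν, hμ, l1])
    obtain ⟨z, rfl⟩ := (h.cen_inv j 3).2 w
    obtain ⟨e1, e2, -⟩ := h.lowF_lev hw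
    have e3 := (cen_lev (d := d) j z).2.2.2
    exact ⟨z, ⟨⟨show 0 < z (2, 0) - d.μ₁ by linarith only [l1, e2, e3], show z (2, 0) - d.μ₁ < 9 / 8 by linarith only [hM, hν1, e2, e3]⟩,
      (F3_rP j z (l := 3) (by decide)).trans_lt (e1 ▸ hr)⟩, rfl⟩
  · have l1 : normSq (cc 0 y) < 1 / 8 := hl.1
    have l2 : normSq (cc 2 y) < 1 / 8 := hl.2
    have l3 := normSq_nonneg (cc 0 y)
    have l4 := normSq_nonneg (cc 2 y)
    obtain ⟨w, rfl⟩ := h.fF_surj (y := y) (abs_le.2 ⟨by rw [tF]; linarith only [l1, l4], by rw [tF]; linarith only [l2, l3]⟩)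
    obtain ⟨z, rfl⟩ := (h.cen_inv j 4).2 w
    exact ⟨z, ⟨(F3_f j z).1 hl, (if_pos rfl : d.rP j 4 z = _).trans_lt hr⟩, rfl⟩

theorem Ok.Fo_cover (h : d.Ok) (hy : y ∈ d.Fo) : ∃ l, y ∈ d.Img l := by
  rcases lt_or_ge (d.nuF y) (-d.μ₁) with h1 | h1
  · exact ⟨3, h1⟩
  rcases lt_or_ge (d.nuF y) (1 / 8) with h2 | h2
  · exact ⟨1, h2, show -d.μ₁ - 1 / 8 < d.nuF y by linarith only [h1]⟩
  rcases lt_or_ge 0 (tF y) with h3 | h3
  · exact ⟨2, h3⟩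
  by_cases h4 : cc 0 y = 0
  · rw [tF, h4, map_zero, sub_zero] at h3
    exact ⟨4, show normSq (cc 0 y) < 1 / 8 by rw [h4, map_zero]; norm_num,
      show normSq (cc 2 y) < 1 / 8 by linarith only [h3]⟩
  · exact ⟨0, h4, show -1 / 8 < d.nuF y by linarith only [h2], show tF y < 1 / 8 by linarith only [h3]⟩

theorem Ok.Ph_surj (h : d.Ok) (j : J4) (hy : y ∈ d.Fo) : ∃ l, ∃ z ∈ d.Do j l, d.Ph j l z = y :=
  (h.Fo_cover hy).imp fun _ hl => h.Ph_onto j hy hl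

theorem F3_sint {a : ℝ} {n : ℤ} {e : Bool} (h1 : |a| < 1 / 32) (h2 : |cond e (-a) a + n| < 1 / 32) :
    n = 0 := by
  rw [abs_lt] at h1 h2
  have h3 : (-1 : ℝ) < n ∧ (n : ℝ) < 1 := by
    cases e <;> simp only [cond_true, cond_false] at h2 <;> constructor <;> linarith only [h1, h2, h2.1, h2.2]
  have h4 : (-1 : ℤ) < n ∧ n < 1 := by exact_mod_cast h3
  omega

theorem F3_sodd {a : ℝ} {n m : ℤ} {e : Bool} (hm : Odd m) (h1 : |a - 1 / 2 * m| < 1 / 32)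
    (h2 : |cond e (-a) a + n| < 1 / 32) : False := by
  obtain ⟨k, rfl⟩ := hm
  rw [abs_lt] at h1 h2
  push_cast at h1
  cases e <;> simp only [cond_true, cond_false] at h2
  · have h3 : ((-1 : ℤ) : ℝ) < (k + n : ℤ) ∧ ((k + n : ℤ) : ℝ) < (0 : ℤ) := by
      push_cast
      constructor <;> linarith only [h1, h2, h1.1, h1.2, h2.1, h2.2]
    have h4 : (-1 : ℤ) < k + n ∧ k + n < 0 := by exact_mod_cast h3
    omega
  · have h3 : ((-1 : ℤ) : ℝ) < (k - n : ℤ) ∧ ((k - n : ℤ) : ℝ) < (0 : ℤ) := by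
      push_cast
      constructor <;> linarith only [h1, h2, h1.1, h1.2, h2.1, h2.2]
    have h4 : (-1 : ℤ) < k - n ∧ k - n < 0 := by exact_mod_cast h3
    omega

theorem F3_sxv {w : E6} {m : L4} {e : Bool} (hx : xv w = cond e (-xv z) (xv z) + rv m) :
    w (1, 0) = cond e (-z (1, 0)) (z (1, 0)) + m 2 ∧
      w (1, 1) = cond e (-z (1, 1)) (z (1, 1)) + m 3 := by
  cases e <;> exact ⟨congrFun hx 2, congrFun hx 3⟩

theorem Ok.F3_sNf (h : d.Ok) (hz : z ∈ d.Do j 0 ∨ z ∈ d.Do j 2) {w : E6} {m : L4} {e : Bool}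
    (hw : w ∈ d.Nf) (hl : w (2, 0) = z (2, 0)) (hx : xv w = cond e (-xv z) (xv z) + rv m) :
    z ∈ d.Nf := by
  obtain ⟨h1, h2, h3⟩ := h.Nf_small hw
  obtain ⟨e2, e3⟩ := F3_sxv hx
  have hn := (h.Do_near.1 hz).1
  have a2 : |z (1, 0)| < 1 / 32 := by
    simpa [wj, xv] using (abs_le_norm4 _ 2).trans_lt hn
  have a3 : |z (1, 1)| < 1 / 32 := by
    simpa [wj, xv] using (abs_le_norm4 _ 3).trans_lt hn
  rw [F3_sint (n := m 2) (e := e) a2 (e2 ▸ h2), Int.cast_zero, add_zero] at e2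
  rw [F3_sint (n := m 3) (e := e) a3 (e3 ▸ h3), Int.cast_zero, add_zero] at e3
  have hq : d.qq (xv w 2) (xv w 3) = d.qq (xv z 2) (xv z 3) := by
    show d.qq (w (1, 0)) (w (1, 1)) = d.qq (z (1, 0)) (z (1, 1))
    rw [e2, e3]
    cases e <;> simp [qq]
  have hν : |z (2, 0) - d.μ₁| ≤ 1 / 4 := by
    rw [← hl]
    exact h1.le.trans (by norm_num)
  have e1 : d.hh (w (2, 0)) (xv w) = d.hh (z (2, 0)) (xv z) := by
    rw [hl, hh, hh, (h.normSq_z1 hν _).1, (h.normSq_z1 hν _).1, ex, ex, hq]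
  have e0 : d.tt w = d.tt z := by rw [tt, tt, hl]
  have hw' := hw
  rw [Nf, mem_ofPred_eq, e1, e0] at hw'
  exact hw'

theorem Ok.F3_sfar (h : d.Ok) (hz : z ∈ d.Do j 1 ∨ z ∈ d.Do j 3) {w : E6} {m : L4} {e : Bool}
    (hw : w ∈ d.Nf) (hx : xv w = cond e (-xv z) (xv z) + rv m) : False := by
  obtain ⟨n, hn, h1, -⟩ := h.x0_parity j
  have h2 := (abs_le_norm4 _ 2).trans_lt (h.Do_near.2.1 hz).1
  rw [hn] at h2
  exact F3_sodd (a := z (1, 0)) h1 h2 ((F3_sxv hx).1 ▸ (h.Nf_small hw).2.1)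

theorem Ok.F3_smp (h : d.Ok) (hs : d.Smp z y) : d.atlO.R .m z .p y :=
  h.R_mp.2 ⟨0, 0, false, by rwa [show d.gm (0, 0, false, false) z = z from Dm_zero z]⟩

theorem Ok.F3_smf (h : d.Ok) (hz : z ∈ d.Wo .m) (hz' : z ∈ d.Nf) : d.atlO.R .m z .f (d.omf z) := by
  refine h.R_mf.2 ⟨hz, 0, 0, false, ?_⟩
  rw [show d.gm (0, 0, false, false) z = z from Dm_zero z]
  exact ⟨hz', rfl⟩

theorem Ok.F3_spf (h : d.Ok) (hz : z ∈ d.Wo .p) (hz' : z ∈ d.Nf) : d.atlO.R .p z .f (d.opf z) := by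
  refine h.R_pf.2 ⟨hz, (0, 0, false), ?_⟩
  rw [show d.gp (0, 0, false) z = z from Dp_zero z]
  exact ⟨hz', rfl⟩

theorem Ok.F3_ssat (h : d.Ok) (hz : z ∈ d.Do j l) (hr : d.atlO.R (sP l) z c y) :
    ∃ l' y', sP l' = c ∧ y' ∈ d.Do j l' ∧ d.atlO.R (sP l) z c y' ∧
      d.Ph j l' y' = d.Ph j l z := by
  have P := h.pre0_half
  by_cases hc : sP l = c
  · exact ⟨l, z, hc, hz, hc ▸ P.refl (P.mem hr).1, rfl⟩
  fin_cases l <;> cases c <;> first | exact absurd rfl hc | skip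
  · obtain ⟨γ, hs⟩ := h.R_mp'.1 hr
    exact ⟨2, _, rfl, (h.c02 hs).1.1 hz, h.F3_smp hs, (h.c02 hs).2 hz⟩
  · obtain ⟨h1, m, n, e, h2, -⟩ := h.R_mf.1 hr
    have h3 := h.F3_sNf (Or.inl hz) h2 (gm_level _ _) (gm_xv _ _)
    exact ⟨4, _, rfl, (h.c04 h1 h3).1.1 hz, h.F3_smf h1 h3, (h.c04 h1 h3).2⟩
  · obtain ⟨γ, hs⟩ := h.R_mp'.1 hr
    exact ⟨3, _, rfl, (h.c13 hs).1.1 hz, h.F3_smp hs, (h.c13 hs).2 hz⟩
  · obtain ⟨-, m, n, e, h2, -⟩ := h.R_mf.1 hr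
    exact (h.F3_sfar (Or.inl hz) h2 (gm_xv _ _)).elim
  · obtain ⟨m, n, e, hs⟩ := h.R_mp.1 (P.symm hr)
    have h1 := (h.c02 hs).1.2 hz
    exact ⟨0, _, rfl, h1, P.symm (h.F3_smp hs), ((h.c02 hs).2 h1).symm⟩
  · obtain ⟨h1, γ, h2, -⟩ := h.R_pf.1 hr
    have h3 := h.F3_sNf (Or.inr hz) h2 (gp_level _ _) (gp_xv _ _)
    exact ⟨4, _, rfl, (h.c24 h1 h3).1.1 hz, h.F3_spf h1 h3, (h.c24 h1 h3).2⟩
  · obtain ⟨m, n, e, hs⟩ := h.R_mp.1 (P.symm hr)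
    have h1 := (h.c13 hs).1.2 hz
    exact ⟨1, _, rfl, h1, P.symm (h.F3_smp hs), ((h.c13 hs).2 h1).symm⟩
  · obtain ⟨-, γ, h2, -⟩ := h.R_pf.1 hr
    exact (h.F3_sfar (Or.inr hz) h2 (gp_xv _ _)).elim
  · obtain ⟨h1, m, n, e, h2, rfl⟩ := h.R_mf.1 (P.symm hr)
    have h3 := h.gm_mem (m, n, false, e) h1 fun h => absurd h Bool.false_ne_true
    exact ⟨0, _, rfl, (h.c04 h3 h2).1.2 hz, P.symm (h.F3_smf h3 h2), (h.c04 h3 h2).2.symm⟩
  · obtain ⟨h1, γ, h2, rfl⟩ := h.R_pf.1 (P.symm hr)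
    have h3 := (gp_mem γ).2 h1
    exact ⟨2, _, rfl, (h.c24 h3 h2).1.2 hz, P.symm (h.F3_spf h3 h2), (h.c24 h3 h2).2.symm⟩

theorem Ok.sat (h : d.Ok) (hz : z ∈ d.Do j l) (hr : d.atlO.R (sP l) z c y) :
    ∃ l' y', sP l' = c ∧ y' ∈ d.Do j l' ∧ d.atlO.R c y c y' ∧ d.lev c y' = d.lev c y ∧
      d.Ph j l' y' = d.Ph j l z := by
  have P := h.pre0_half
  obtain ⟨l', y', h1, h2, h3, h4⟩ := h.F3_ssat hz hr
  have h5 := P.trans (P.symm hr) h3
  rcases h.R_lev h5 with h6 | ⟨rfl, -, h6, h7⟩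
  · exact ⟨l', y', h1, h2, h5, h6, h4⟩
  have h8 : |y' (2, 0)| < 1 / 8 := by rwa [h7, abs_neg]
  have h9 : |d.ka y' (2, 0)| < 1 / 8 := by rwa [N1_m_K0, abs_neg]
  have fin : ∀ l'', sP l'' = .m → d.ka y' ∈ d.Do j l'' → d.Ph j l'' (d.ka y') = d.Ph j l' y' →
      ∃ l' y', sP l' = .m ∧ y' ∈ d.Do j l' ∧ d.atlO.R .m y .m y' ∧ d.lev .m y' = d.lev .m y ∧
        d.Ph j l' y' = d.Ph j l z := fun l'' a1 a2 a3 =>
    ⟨l'', _, a1, a2, P.trans h5 (R_mm.2 ⟨(P.mem h5).2, a1 ▸ a2.1, (0, 0, true, false),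
      Dm_zero _⟩), by show -y' (2, 0) = y (2, 0); rw [h7, neg_neg], a3.trans h4⟩
  fin_cases l' <;> first | exact absurd h1 (by decide) | skip
  · have a := h.c01 (j := j) h9
    rw [h.ka_ka] at a
    exact fin 1 rfl (a.1.2 h2) a.2
  · have a := h.c01 (j := j) h8
    exact fin 0 rfl (a.1.1 h2) a.2.symm

theorem F3_sP (l : Fin 5) : (sP l = .m ∧ (l = 0 ∨ l = 1)) ∨ (sP l = .p ∧ (l = 2 ∨ l = 3)) ∨
    (sP l = .f ∧ l = 4) := by
  fin_cases l <;> simp [sP]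

theorem Ok.F3_same (h : d.Ok) (hz : z ∈ d.Do j l) (hz' : z' ∈ d.Do j l)
    (he : d.Ph j l z = d.Ph j l z') : d.atlO.R (sP l) z (sP l) z' := by
  rcases h.Ph_same hz hz' he with e | ⟨n, hl, e⟩
  · rw [e]
    exact h.pre0_half.refl ((atlO_W _).symm ▸ hz.1)
  · have a := hz.1
    have b := hz'.1
    rcases F3_sP l with ⟨c, -⟩ | ⟨c, -⟩ | ⟨-, c⟩
    · rw [c] at a b ⊢
      exact R_mm.2 ⟨a, b, (0, n, false, false), (act_m_int n z).symm.trans e.symm⟩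
    · rw [c] at a b ⊢
      exact R_pp.2 ⟨a, b, (0, n, false), (act_p_int n z).symm.trans e.symm⟩
    · exact absurd c hl

theorem Ok.F3_lev (h : d.Ok) (hz : z ∈ d.Do j l) (hz' : z' ∈ d.Do j l')
    (he : d.Ph j l z = d.Ph j l' z') : d.nuP l z = d.nuP l' z' := by
  rw [← (h.Ph_lev hz).2.1, he, (h.Ph_lev hz').2.1]

theorem F3_fl (hz : z ∈ d.Do j 4) : d.μ₁ - 1 / 8 < d.nuF z ∧ d.nuF z < d.μ₁ + 1 / 8 := by
  have a := hz.1.1
  have b := hz.1.2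
  have c := normSq_nonneg (cc 0 z)
  have e := normSq_nonneg (cc 2 z)
  unfold nuF
  constructor <;> linarith only [a, e, b, c]

theorem F3_gm (z : E6) : d.gm (0, 0, false, false) z = z := Dm_zero z

theorem F3_gp (z : E6) : d.gp (0, 0, false) z = z := Dp_zero z

theorem F3_u (j : J4) (z : E6) :
    cc 0 (d.Ph j 4 z) = cc 0 z * ee (d.psi (-wj j 0) (-wj j 1) z) := rfl

theorem Ok.F3_mp (h : d.Ok) (hs : d.Smp z y) : d.atlO.R .m z .p y :=
  h.R_mp.2 ⟨0, 0, false, by rwa [F3_gm]⟩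

theorem Ok.F3_lt (h : d.Ok) (hl : l < l') (hz : z ∈ d.Do j l) (hz' : z' ∈ d.Do j l')
    (he : d.Ph j l z = d.Ph j l' z') : d.atlO.R (sP l) z (sP l') z' := by
  have e := h.F3_lev hz hz' he
  have m := h.hμ
  have P := h.pre0_half
  fin_cases l <;> fin_cases l' <;> simp only [Fin.mk_lt_mk] at hl <;> try omega
  · have e' : z (2, 0) = -z' (2, 0) := e
    obtain ⟨a, b⟩ := h.c01 (j := j) (z := z')
      (abs_lt.2 ⟨by linarith only [hz', hz'.1.1], by linarith only [e', hz, hz.1.1]⟩)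
    exact P.trans (h.F3_same hz (a.1 hz') (he.trans b))
      (P.symm (R_mm.2 ⟨hz'.1, (a.1 hz').1, (0, 0, true, false), Dm_zero _⟩))
  · have e' : z (2, 0) = z' (2, 0) := e
    obtain ⟨y, hy⟩ := h.exists_p hz.1 (by have := hz'.1.1; unfold tt at this ⊢; linarith)
    obtain ⟨a, b⟩ := h.c02 (j := j) hy
    exact P.trans (h.F3_mp hy) (h.F3_same (a.1 hz) hz' ((b hz).trans he))
  · have e' : z (2, 0) = -z' (2, 0) := e
    have a := hz.1.1
    have b := hz'.1.1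
    unfold tt at b
    linarith only [m, e', a, b]
  · have i : cc 0 (d.Ph j 0 z) ≠ 0 := (h.Ph_img hz).1
    obtain ⟨w, w1, w2, rfl⟩ := h.omf_surj hz'.1 fun k => i (by
      rw [show d.Ph j 0 z = d.Ph j 4 z' from he, F3_u, k, zero_mul])
    obtain ⟨a, b⟩ := h.c04 (j := j) w1 w2
    exact P.trans (h.F3_same hz (a.2 hz') (he.trans b))
      (h.R_mf.2 ⟨w1, 0, 0, false, by rwa [F3_gm], by rw [F3_gm]⟩)
  · have e' : -z (2, 0) = z' (2, 0) := e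
    have a := hz.1.1
    have b := hz'.1.1
    unfold tt at b
    linarith only [m, e', a, b]
  · have e' : -z (2, 0) = -z' (2, 0) := e
    obtain ⟨y, hy⟩ := h.exists_p hz.1 (by have := hz'.1.1; unfold tt at this ⊢; linarith)
    obtain ⟨a, b⟩ := h.c13 (j := j) hy
    exact P.trans (h.F3_mp hy) (h.F3_same (a.1 hz) hz' ((b hz).trans he))
  · have e' : -z (2, 0) = d.nuF z' := e
    linarith only [m, e', hz, hz', hz.1.1, (F3_fl hz').1]
  · have e' : z (2, 0) = -z' (2, 0) := e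
    have a := hz.1.1
    have b := hz'.1.1
    unfold tt at a b
    linarith
  · have e' : z (2, 0) = d.nuF z' := e
    obtain ⟨w, w1, w2, rfl⟩ := h.opf_surj hz'.1 (by
      have a := hz.1.1
      unfold tt at a
      unfold nuF at e'
      unfold tF
      linarith)
    obtain ⟨a, b⟩ := h.c24 (j := j) w1 w2
    exact P.trans (h.F3_same hz (a.2 hz') (he.trans b))
      (h.R_pf.2 ⟨w1, (0, 0, false), by rwa [F3_gp], by rw [F3_gp]⟩)
  · have e' : -z (2, 0) = d.nuF z' := e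
    have a := hz.1.1
    unfold tt at a
    linarith only [m, e', a, hz', (F3_fl hz').1]

theorem Ok.F3_eq (h : d.Ok) (hz : z ∈ d.Do j l) (hz' : z' ∈ d.Do j l')
    (he : d.Ph j l z = d.Ph j l' z') : d.atlO.R (sP l) z (sP l') z' := by
  rcases lt_trichotomy l l' with k | rfl | k
  · exact h.F3_lt k hz hz' he
  · exact h.F3_same hz hz' he
  · exact h.pre0_half.symm (h.F3_lt k hz' hz he.symm)

theorem Ok.Ph_iff (h : d.Ok) (hz : z ∈ d.Do j l) (hz' : z' ∈ d.Do j' l') :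
    d.atlO.R (sP l) z (sP l') z' ↔ j = j' ∧ Sgn (d.Ph j l z) (d.Ph j l' z') := by
  refine ⟨fun hr => ?_, ?_⟩
  · obtain ⟨k, y, e, hy, r, -, p⟩ := h.sat hz hr
    rw [← p]
    rcases F3_sP l' with ⟨a, a'⟩ | ⟨a, a'⟩ | ⟨a, a'⟩ <;>
      rcases F3_sP k with ⟨b, b'⟩ | ⟨b, b'⟩ | ⟨b, b'⟩ <;> rw [a] at r <;> rw [a, b] at e <;>
      cases e
    · obtain ⟨-, -, γ, rfl⟩ := R_mm.1 r
      obtain ⟨rfl, s⟩ := h.uni_m a' b' hz' hy
      exact ⟨rfl, Sgn_symm s⟩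
    · obtain ⟨-, -, γ, rfl⟩ := R_pp.1 r
      obtain ⟨rfl, rfl, s⟩ := h.uni_p a' b' hz' hy
      exact ⟨rfl, Sgn_symm s⟩
    · obtain ⟨-, -, γ, rfl⟩ := R_ff.1 r
      subst a' b'
      obtain ⟨rfl, s⟩ := h.uni_f hz' hy
      exact ⟨rfl, Sgn_symm s⟩
  · rintro ⟨rfl, e | e⟩
    · exact h.F3_eq hz hz' e.symm
    · obtain ⟨w, hw, r, p⟩ := h.Ph_flip hz
      exact h.pre0_half.trans r (h.F3_eq hw hz' (p.trans e.symm))

/-- The points of a chart that lie in a tube of radius at most `r`. -/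
def Near (d : HD) (j : J4) (r : ℝ) (c : K3) : Set E6 :=
  {x | ∃ l, ∃ z ∈ d.Do j l, d.rP j l z ≤ r ∧ d.atlO.R c x (sP l) z}

theorem F3_closed {Γ : Type} {g : Γ → E6 → E6} (h : Grp g) {K : Set (E6 × E6)} (hK : IsClosed K)
    {B : ℝ} (hB : ∀ p ∈ K, ‖p.2‖ ≤ B) : IsClosed {z | ∃ γ, (z, g γ z) ∈ K} := by
  rw [ofPred_exists]
  refine LocallyFinite.isClosed_iUnion (fun z => ⟨{w | ‖w‖ < ‖z‖ + 1},
    (isOpen_lt continuous_norm continuous_const).mem_nhds (lt_add_one ‖z‖),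
    (h.fin (max (‖z‖ + 1) B)).subset ?_⟩) fun γ =>
      hK.preimage (continuous_id.prodMk (h.sm γ).continuous)
  rintro γ ⟨w, a, b⟩
  exact ⟨w, le_max_of_le_left (le_of_lt b), le_max_of_le_right (hB _ a)⟩

theorem F3_norm {y : E6} {B : ℝ} (h : ‖xv y‖ ≤ B) (h1 : |y (2, 0)| ≤ B) (h2 : |y (2, 1)| ≤ B) :
    ‖y‖ ≤ B := by
  refine (pi_norm_le_iff_of_nonneg ((norm_nonneg _).trans h)).2 fun ⟨i, k⟩ => ?_
  have := fun i => (abs_le_norm4 (xv y) i).trans h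
  fin_cases i <;> fin_cases k
  exacts [this 0, this 1, this 2, this 3, h1, h2]

theorem F3_sq {i : Fin 3} {y : E6} (h : normSq (cc i y) < 1 / 8) :
    |y (i, 0)| ≤ 1 ∧ |y (i, 1)| ≤ 1 := by
  rw [normSq_cc] at h
  constructor <;> refine (sq_le_one_iff_abs_le_one _).1 ?_ <;>
    linarith only [h, sq_nonneg (y (i, 0)), sq_nonneg (y (i, 1)), sq_nonneg (y (i, (1 : Fin (2 : ℕ)))), sq_nonneg (y (i, (0 : Fin (2 : ℕ))))]

theorem Ok.F3_bd (h : d.Ok) (hy : y ∈ d.Do j l) (h2 : |y (2, 1)| ≤ 1) :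
    ‖y‖ ≤ ‖wj j‖ + ‖d.x0 j‖ + d.μ₁ + 2 := by
  have hμ := h.hμ
  have a := norm_nonneg (wj j)
  have b := norm_nonneg (d.x0 j)
  have n1 := norm_le_norm_add_norm_sub' (xv y) (wj j)
  have n2 := norm_le_norm_add_norm_sub' (xv y) (d.x0 j)
  obtain ⟨e1, e2, e3⟩ := h.Do_near (z := y) (j := j)
  have hw := hy.1
  fin_cases l
  · refine F3_norm (by linarith only [hμ, b, n1, e1, hy, (e1 (.inl hy)).1]) (abs_le.2 ?_) (by linarith only [h2, hμ, a, b])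
    constructor <;> linarith only [hμ, a, b, hw, hw.1, hw.2.1, show d.tt y = y (2, 0) - d.μ₁ from rfl]
  · refine F3_norm (by linarith only [hμ, a, n2, e2, hy, (e2 (.inl hy)).1]) (abs_le.2 ?_) (by linarith)
    constructor <;> linarith only [hμ, a, b, hw, hw.1, hw.2.1, show d.tt y = y (2, 0) - d.μ₁ from rfl]
  · refine F3_norm (by linarith only [hμ, b, n1, e1, hy, (e1 (.inr hy)).1]) (abs_le.2 ?_) (by linarith)
    constructor <;> linarith only [hμ, a, b, hw, hw.1, hw.2, show d.tt y = y (2, 0) - d.μ₁ from rfl]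
  · refine F3_norm (by linarith only [hμ, a, n2, e2, hy, (e2 (.inr hy)).1]) (abs_le.2 ?_) (by linarith)
    constructor <;> linarith only [hμ, a, b, hw, hw.1, hw.2, show d.tt y = y (2, 0) - d.μ₁ from rfl]
  · refine F3_norm ((pi_norm_le_iff_of_nonneg (by linarith)).2 fun i => ?_)
      (by linarith [(F3_sq hw.2).1]) (by linarith)
    have p0 := abs_sub_abs_le_abs_sub (y (1, 0)) (wj j 0)
    have p1 := abs_sub_abs_le_abs_sub (y (1, 1)) (wj j 1)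
    have q0 := abs_le_norm4 (wj j) 0
    have q1 := abs_le_norm4 (wj j) 1
    obtain ⟨s0, s1⟩ := F3_sq hw.1
    obtain ⟨t0, t1⟩ := e3 hy
    fin_cases i
    · show |y (0, 0)| ≤ _; linarith only [hμ, a, b, s0]
    · show |y (0, 1)| ≤ _; linarith only [hμ, a, b, s1]
    · show |y (1, 0)| ≤ _; linarith only [hμ, b, p0, q0, t0]
    · show |y (1, 1)| ≤ _; linarith only [hμ, b, p1, q1, t1]

theorem Ok.F3_sat (h : d.Ok) {r : ℝ} {x : E6} (hx : x ∈ d.Near j r c) :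
    ∃ l y, sP l = c ∧ y ∈ d.Do j l ∧ d.rP j l y ≤ r ∧ d.atlO.R c x c y ∧ d.lev c y = d.lev c x ∧
      |y (2, 1)| ≤ 1 := by
  obtain ⟨l, z, hz, hr, hR⟩ := hx
  obtain ⟨l', y, rfl, hy, a, b, e⟩ := h.sat hz (h.pre0_half.symm hR)
  have hr' : d.rP j l' y ≤ r := by rwa [← (h.Ph_lev hy).1, e, (h.Ph_lev hz).1]
  have hs := (act_mem (d := d) ((-⌊y (2, 1)⌋ : ℤ) : ℝ) (sP l')).2 hy.1
  have hf : |y (2, 1) + ((-⌊y (2, 1)⌋ : ℤ) : ℝ)| ≤ 1 := by
    push_cast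
    exact abs_le.2 ⟨by linarith [Int.floor_le (y (2, 1))], by linarith [Int.lt_floor_add_one (y (2, 1))]⟩
  refine ⟨l', _, rfl, ⟨hs, (rP_act ..).trans_lt hy.2⟩, (rP_act ..).trans_le hr', ?_⟩
  have hw := hy.1
  generalize sP l' = c at *
  cases c
  · exact ⟨h.pre0_half.trans a (R_mm.2 ⟨hw, hs, (0, _, false, false), (act_m_int _ y).symm⟩), b, hf⟩
  · exact ⟨h.pre0_half.trans a (R_pp.2 ⟨hw, hs, (0, _, false), (act_p_int _ y).symm⟩), b, hf⟩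
  · rw [act_f_int]
    exact ⟨a, b, (F3_sq hw.2).2⟩

theorem Ok.F3_gen (h : d.Ok) {Γ : Type} {g : Γ → E6 → E6} (hg : Grp g) {r : ℝ} (hr : r < 8)
    (hR : ∀ {x y}, d.atlO.R c x c y ↔ x ∈ d.Wo c ∧ y ∈ d.Wo c ∧ ∃ γ, g γ x = y) {x : E6}
    (hx : x ∈ d.Wo c) (hm : ∀ γ, d.lev c (g γ x) = d.lev c x → g γ x ∈ d.Wo c)
    (hc : x ∈ closure (d.Near j r c)) : x ∈ d.Near j r c := by
  have hl : Continuous (d.lev c) := by
    cases c
    exacts [continuous_apply _, continuous_apply _, contDiff_nuF.continuous]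
  have hK : IsClosed {p : E6 × E6 | (∃ l, sP l = c ∧ d.rP j l p.2 ≤ r) ∧
      d.lev c p.2 = d.lev c p.1 ∧ ‖p.2‖ ≤ ‖wj j‖ + ‖d.x0 j‖ + d.μ₁ + 2} := by
    refine IsClosed.inter (s₁ := {p : E6 × E6 | ∃ l, sP l = c ∧ d.rP j l p.2 ≤ r}) ?_ (IsClosed.inter
      (isClosed_eq (hl.comp continuous_snd) (hl.comp continuous_fst))
      (isClosed_le continuous_snd.norm continuous_const))
    rw [ofPred_exists]
    exact isClosed_iUnion_of_finite fun l => IsClosed.inter isClosed_const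
      (isClosed_le ((h.rP_cont j l).comp continuous_snd) continuous_const)
  obtain ⟨γ, ⟨l, rfl, a⟩, b, -⟩ := closure_minimal (t := {z | ∃ γ, (z, g γ z) ∈ _}) (fun z hz => by
    obtain ⟨l, y, e, hy, a, b, b', f⟩ := h.F3_sat hz
    obtain ⟨-, -, γ, rfl⟩ := hR.1 b
    exact ⟨γ, ⟨l, e, a⟩, b', h.F3_bd hy f⟩) (F3_closed hg hK fun _ hp => hp.2.2) hc
  exact ⟨l, _, ⟨hm γ b, a.trans_lt hr⟩, a, hR.2 ⟨hx, hm γ b, γ, rfl⟩⟩

theorem Ok.closed_near (h : d.Ok) (j : J4) {r : ℝ} (hr : r < 8) (c : K3) {x : E6}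
    (hx : x ∈ d.Wo c) (hc : x ∈ closure (d.Near j r c)) : x ∈ d.Near j r c := by
  cases c
  · refine h.F3_gen h.grp_m hr R_mm hx (fun γ e => h.gm_mem γ hx fun k => ?_) hc
    have := gm_level (d := d) γ x
    rw [k] at this
    linarith only [e, this, show x (2, 0) = -x (2, 0) from e.symm.trans this]
  · exact h.F3_gen d.grp_p hr R_pp hx (fun γ _ => (gp_mem γ).2 hx) hc
  · exact h.F3_gen d.grp_f hr R_ff hx (fun γ _ => (gf_mem γ).2 hx) hc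

/-- Near a half period with even last coordinate. -/
def F3_P (d : HD) (v : V4) : Prop :=
  ∃ m : L4, Even (m 3) ∧ ‖rm d.A' *ᵥ (v - (1 / 2 : ℝ) • rv m)‖ < 1 / 32

theorem F3_add {v : V4} {a : L4} (h : d.F3_P (v + rv a)) : d.F3_P v := by
  obtain ⟨m, e, b⟩ := h
  refine ⟨m - (2 : ℤ) • a, e.sub (even_two_mul _), ?_⟩
  convert b using 3
  rw [rv_sub, rv_smul]
  push_cast
  module

theorem F3_negP {v : V4} (e : Bool) (h : d.F3_P (cond e (-v) v)) : d.F3_P v := by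
  cases e
  · exact h
  obtain ⟨m, e, b⟩ := h
  refine ⟨-m, e.neg, ?_⟩
  rwa [← norm_neg, ← Matrix.mulVec_neg, rv_neg, smul_neg, sub_neg_eq_add, neg_add, ← sub_eq_add_neg]

theorem Ok.F3_ka (h : d.Ok) {v : V4} (hv : d.F3_P (rm d.T *ᵥ v + (1 / 2 : ℝ) • rv d.c)) :
    d.F3_P v := by
  obtain ⟨m, e, b⟩ := hv
  refine ⟨d.T *ᵥ (m - d.c), ?_, ?_⟩
  · have e1 : Even (((d.T - 1) *ᵥ (m - d.c)) 3) :=
      Finset.even_sum (s := Finset.univ) (fun i => (d.T - 1) 3 i * (m - d.c) i) fun i _ =>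
        (h.T_two 3 i).mul_right _
    rw [Matrix.sub_mulVec, Matrix.one_mulVec] at e1
    simpa using e1.add (show Even ((m - d.c) 3) from e.sub h.c3)
  · have e1 : rm d.T *ᵥ v + (1 / 2 : ℝ) • rv d.c - (1 / 2 : ℝ) • rv m =
        rm d.T *ᵥ (v - (1 / 2 : ℝ) • rv (d.T *ᵥ (m - d.c))) := by
      rw [rv_mulVec, Matrix.mulVec_sub, Matrix.mulVec_smul, h.TTv, rv_sub]
      module
    rw [e1, Matrix.mulVec_mulVec, ← rm_mul, h.A'T, rm_mul, ← Matrix.mulVec_mulVec] at b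
    refine lt_of_le_of_lt ((pi_norm_le_iff_of_nonneg (norm_nonneg _)).2 fun i => ?_) b
    refine le_trans (le_of_eq ?_) (norm_le_pi_norm _ i)
    generalize rm d.A' *ᵥ _ = u
    fin_cases i <;> simp [rm, Matrix.mulVec, dotProduct, Fin.sum_univ_four]

theorem Ok.near_x (h : d.Ok) {r : ℝ} {x : E6} (hc : c ≠ .f) (hx : x ∈ d.Near j r c) :
    ∃ m : L4, Even (m 3) ∧ ‖rm d.A' *ᵥ (xv x - (1 / 2 : ℝ) • rv m)‖ < 1 / 32 := by
  obtain ⟨l, y, e, hy, -, a, -⟩ := h.F3_sat hx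
  have hP : d.F3_P (xv y) := by
    obtain ⟨e1, e2, -⟩ := h.Do_near (z := y) (j := j)
    obtain ⟨m, em, -, ev, -⟩ := h.x0_parity j
    have ew : wj j = (1 / 2 : ℝ) • rv ![((j.1 : ℕ) : ℤ), ((j.2 : ℕ) : ℤ), 0, 0] := by
      funext i
      fin_cases i <;> simp [wj, rv, div_eq_inv_mul]
    have p1 : _ → d.F3_P (xv y) := fun k => ⟨_, Even.zero, ew ▸ (e1 k).2⟩
    have p2 : _ → d.F3_P (xv y) := fun k => ⟨m, ev, em ▸ (e2 k).2⟩
    fin_cases l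
    exacts [p1 (.inl hy), p2 (.inl hy), p1 (.inr hy), p2 (.inr hy), absurd e.symm hc]
  cases c
  · obtain ⟨-, -, ⟨a, n, k, e⟩, rfl⟩ := R_mm.1 a
    rw [gm_xv] at hP
    cases k
    exacts [F3_negP e (F3_add hP), F3_negP e (h.F3_ka (F3_add hP))]
  · obtain ⟨-, -, γ, rfl⟩ := R_pp.1 a
    rw [gp_xv] at hP
    exact F3_negP _ (F3_add hP)
  · exact absurd rfl hc

end HD

end Pool.Agent.Work.MP_bf98aa_gt.B3
end

-- merged part: Pool.Agent.Work.MP_bf98aa_gt.B3.F4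
section
-- merged part: Pool.Agent.Work.MP_bf98aa_gt.B3.F4x
section
/-!
The special arrows between the halves.
-/

set_option autoImplicit false

open scoped Manifold ContDiff Topology Matrix ComplexConjugate
open Set Complex Filter

namespace Pool.Agent.Work.MP_bf98aa_gt.B3

open Pool.Agent.Work.MP_bf98aa_gt.Th Pool.Agent.Work.MP_bf98aa_gt.Cy

theorem F4_ee (s : ℝ) (n : ℤ) : ee (s + n) = ee s ∧ ee (-(s + n)) = ee (-s) := by
  refine ⟨by rw [ee_add, ee_int, mul_one], ?_⟩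
  rw [neg_add, ee_add, ← Int.cast_neg, ee_int, mul_one]

theorem F4_even {A : Z4} (hA : ∀ i j, Even (A i j - (1 : Z4) i j)) (m : L4) (i : Fin 4) :
    Even ((A *ᵥ m) i - m i) := by
  have : (A *ᵥ m) i - m i = ∑ k, (A i k - (1 : Z4) i k) * m k := by
    rw [show (A *ᵥ m) i - m i = ((A - 1) *ᵥ m) i by simp [Matrix.sub_mulVec]]
    rfl
  rw [this]
  exact Finset.even_sum _ fun k _ => (hA i k).mul_right _

theorem F4_wj (j : J4) : wj j = (1 / 2 : ℝ) • rv ![((j.1 : ℕ) : ℤ), ((j.2 : ℕ) : ℤ), 0, 0] := by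
  funext i
  fin_cases i <;> simp [wj, rv, div_eq_inv_mul]

theorem F4_cen2 (d : HD) (j : J4) {z : E6} (hz : 1 / 2 < d.tt z) : d.cen j 2 z (2, 1) =
    ((1 : ℤ) : ℝ) * (z (2, 1) + bf (rm (d.v - E23)) (wj j) (xv z) / 2) + 0 := by
  change d.trn j (d.pu z) (2, 1) = _
  simp [HD.trn, HD.pu, deriv_shf_high hz, rm_sub, bf_sub, bf_E23, wj]

theorem F4_cen3 {d : HD} (h : d.Ok) (j : J4) {z : E6} (hz : 1 / 2 < d.tt z) : d.cen j 3 z (2, 1) =
    ((-1 : ℤ) : ℝ) * (z (2, 1) + bf (rm (d.v - E23)) (d.x0 j) (xv z) / 2) +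
      ((d.x0 j 2 - 1 / 2) / 2 + d.x0 j 2 * d.x0 j 3 / 2 + bf (rm d.v) (wj j) (rv d.c) / 4) := by
  change d.trn j (d.ka (d.pm j z)) (2, 1) = _
  have h1 := h.bf_vT (rm d.T *ᵥ wj j) (xv z)
  rw [h.TTv] at h1
  have h2 : bf (rm d.v) (d.x0 j) (xv z) =
      bf (rm d.v) (rm d.T *ᵥ wj j) (xv z) + 1 / 2 * bf (rm d.v) (rv d.c) (xv z) := by
    rw [HD.x0, bf_add_left, bf_smul_left]
  simp only [HD.trn, HD.ka, HD.pm, deriv_shf_high hz, rm_sub, bf_sub, bf_E23, xv_mk4, mk4_21,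
    bf_add_right, bf_smul_right, h1, h2, xv_2, xv_3]
  push_cast
  ring

namespace GD

variable {D : GD}

theorem Ok.F4_half (h : D.Ok) {m m' : L4} (hm : ∀ i, Even (m' i - m i)) :
    rm (D.G true) *ᵥ ((1 / 2 : ℝ) • rv m) + rv (fun i => (m' i - (D.G true *ᵥ m) i) / 2) =
      (1 / 2 : ℝ) • rv m' := by
  funext i
  obtain ⟨k, hk⟩ := (hm i).sub (F4_even (h.two true) m i)
  have h1 : m' i = (D.G true *ᵥ m) i + 2 * k := by omega
  rw [Matrix.mulVec_smul, ← rv_mulVec]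
  simp only [Pi.add_apply, Pi.smul_apply, rv_apply, smul_eq_mul, h1, add_sub_cancel_left,
    Int.mul_ediv_cancel_left k two_ne_zero]
  push_cast
  ring

theorem F4_x0 (b : Bool) (j : J4) : (D.H b).x0 j = (1 / 2 : ℝ) • rv (D.lam0 b j) := by
  rw [HD.x0, F4_wj, lam0, rv_add, rv_mulVec, smul_add, Matrix.mulVec_smul]

theorem Ok.F4_sum (h : D.Ok) (b : Bool) {l : L4} {w w' : V4} (hl : rm (D.G b) *ᵥ w + rv l = w')
    (z : E6) : z (2, 1) + bf (rm ((D.H b).v - E23)) w (xv z) / 2 +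
      ((D.H (!b)).Dp l 0 (D.gl b z) (2, 1) + bf (rm ((D.H (!b)).v - E23)) w'
        (xv ((D.H (!b)).Dp l 0 (D.gl b z))) / 2) =
      l 2 * (1 + l 3) / 2 + bf (rm ((D.H (!b)).v - E23)) w' (rv l) / 2 := by
  have h1 := bf_pull (rm ((D.H (!b)).v - E23)) w (xv z) (rm (D.G b))
  rw [← rm_tr, ← rm_mul, ← rm_mul, h.slope, rm_neg, bf_neg] at h1
  subst hl
  simp only [HD.Dp, gl, xv_mk4, mk4_21, bf_add_left, bf_add_right, ← h1]
  push_cast
  ring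

theorem Ok.F4_inv (h : D.Ok) (l : L4) : ∃ n : ℤ, ∀ z, (D.H false).Dp l 0 (D.gl true
    ((D.H true).Dp (-(D.G false *ᵥ l)) 0 (D.gl false z))) = mk4 (xv z) (z (2, 0)) (z (2, 1) + n) := by
  obtain ⟨n, hn⟩ := h.gl_Dp true (-(D.G false *ᵥ l)) 0
  refine ⟨n + l 2 * l 3, fun z => ?_⟩
  have h1 : D.G true * D.G false = 1 := h.inv false
  have h2 : D.gl true (D.gl false z) = z := h.gl_gl false z
  have h3 : bf (rm ((D.H false).v - E23)) (rv l) (rv l) = 0 :=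
    bf_self _ (rm_skew (by rw [Matrix.transpose_sub, HD.v_skew, E23_skew, neg_sub_neg, neg_sub]))
  rw [hn, h2, Matrix.mulVec_neg, Matrix.mulVec_mulVec, h1, Matrix.one_mulVec]
  refine ext4 (by simp [HD.Dp, rv_neg]) rfl ?_
  simp only [HD.Dp, Bool.not_true, xv_mk4, mk4_21, rv_neg, bf_neg_left, bf_add_right, bf_neg_right,
    h3, Pi.neg_apply]
  push_cast
  ring

theorem Ok.F4_arrow (h : D.Ok) {k : Fin 5} {j : J4} {ε : ℤ} {w : Bool → V4} {c : Bool → ℝ}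
    (hc : ∀ b z, 1 / 2 < (D.H b).tt z → (D.H b).cen j k z (2, 1) =
      ε * (z (2, 1) + bf (rm ((D.H b).v - E23)) (w b) (xv z) / 2) + c b)
    {l : L4} (hl : rm (D.G true) *ᵥ w true + rv l = w false) (b : Bool) :
    ∃ (l' : L4) (n : ℤ), ∀ z, 7 / 8 < (D.H b).tt z → (D.H b).tt z < 9 / 8 →
      xv ((D.H (!b)).Dp l' 0 (D.gl b z)) - w (!b) = rm (D.G b) *ᵥ (xv z - w b) ∧
      (D.H (!b)).cen j k ((D.H (!b)).Dp l' 0 (D.gl b z)) (2, 1) =
        (D.H true).cen j k (mk4 (w true) (D.H true).M 0) (2, 1) + (D.H false).cen j k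
          ((D.H false).Dp l 0 (D.gl true (mk4 (w true) (D.H true).M 0))) (2, 1) -
          (D.H b).cen j k z (2, 1) + n := by
  have ht : ∀ b l z, (D.H (!b)).tt ((D.H (!b)).Dp l 0 (D.gl b z)) = 2 - (D.H b).tt z :=
    fun b l z => gl_tt b z
  have key : ∀ z, 7 / 8 < (D.H true).tt z → (D.H true).tt z < 9 / 8 →
      (D.H true).cen j k z (2, 1) + (D.H false).cen j k ((D.H false).Dp l 0 (D.gl true z)) (2, 1) =
        ε * (l 2 * (1 + l 3) / 2 + bf (rm ((D.H false).v - E23)) (w false) (rv l) / 2) +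
          (c true + c false) := fun z h1 h2 => by
    have h3 := h.F4_sum true hl z
    have h4 := ht true l z
    simp only [Bool.not_true] at h3 h4
    rw [hc true z (by linarith only [h1]), hc false _ (by linarith only [h2, h4]), ← h3]
    ring
  have h0 : (D.H true).tt (mk4 (w true) (D.H true).M 0) = 1 := by simp [HD.tt, HD.M]
  rw [key _ (by rw [h0]; norm_num) (by rw [h0]; norm_num)]
  cases b with
  | true =>
    refine ⟨l, 0, fun z h1 h2 => ⟨?_, ?_⟩⟩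
    · simp [HD.Dp, gl, ← hl, Matrix.mulVec_sub]
    · simp only [Bool.not_true, ← key z h1 h2]
      simp
  | false =>
    obtain ⟨n, hn⟩ := h.F4_inv l
    refine ⟨-(D.G false *ᵥ l), -(ε * n), fun z h1 h2 => ⟨?_, ?_⟩⟩
    · have h3 : rm (D.G false) * rm (D.G true) = 1 := h.rGG true
      simp only [HD.Dp, gl, xv_mk4, ← hl, Matrix.mulVec_sub, Matrix.mulVec_add, rv_neg, rv_mulVec,
        Matrix.mulVec_mulVec, h3, Matrix.one_mulVec, Bool.not_false]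
      abel
    · have h3 := ht false (-(D.G false *ᵥ l)) z
      simp only [Bool.not_false] at h3 ⊢
      rw [← key ((D.H true).Dp (-(D.G false *ᵥ l)) 0 (D.gl false z)) (by linarith only [h2, h3]) (by linarith only [h1, h3]), hn, hc false z (by linarith only [h1]),
        hc false (mk4 _ _ _) (show 1 / 2 < (D.H false).tt z by linarith only [h1])]
      simp only [xv_mk4, mk4_21]
      push_cast
      ring

theorem Ok.F4_up (h : D.Ok) (b : Bool) (j : J4) : ∃ l : L4, ∀ z, 7 / 8 < (D.H b).tt z →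
    (D.H b).tt z < 9 / 8 →
      xv ((D.H (!b)).Dp l 0 (D.gl b z)) - wj j = rm (D.G b) *ᵥ (xv z - wj j) ∧
      (D.H (!b)).rP j 2 ((D.H (!b)).Dp l 0 (D.gl b z)) =
        (D.H b).rP j 2 z - 2 * ((D.H b).tt z - 1) ∧
      UpR (D.thU j) ((D.H b).Ph j 2 z) ((D.H (!b)).Ph j 2 ((D.H (!b)).Dp l 0 (D.gl b z))) := by
  obtain ⟨l, n, hl⟩ := h.F4_arrow (w := fun _ => wj j) (l := D.lU j)
    (fun b z hz => F4_cen2 (D.H b) j hz) (by rw [F4_wj]; exact h.F4_half fun i => by simp) b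
  refine ⟨l, fun z h1 h2 => ?_⟩
  obtain ⟨hx, hθ⟩ := hl z h1 h2
  refine ⟨hx, ?_⟩
  obtain ⟨m, hm⟩ : ∃ m, z (2, 0) = (D.H b).M + m := ⟨_, (add_sub_cancel _ _).symm⟩
  have ht : (D.H b).tt z = 1 + m := by rw [HD.tt, hm, HD.M]; ring
  have hm' : |m| < 1 / 8 := abs_lt.2 ⟨by linarith only [h1, ht], by linarith only [h2, ht]⟩
  have hy : (D.H (!b)).Dp l 0 (D.gl b z) (2, 0) = (D.H (!b)).M - m := by
    simp only [HD.Dp, gl, mk4_20, hm]; ring
  generalize (D.H (!b)).Dp l 0 (D.gl b z) = y at hx hθ hy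
  have e1 : (D.H b).M + m - (D.H b).μ₁ = 1 + m := by rw [HD.M]; ring
  have e2 : (D.H (!b)).M - m - (D.H (!b)).μ₁ = 1 - m := by rw [HD.M]; ring
  have p1 : 1 / 2 ≤ 1 + m := by linarith only [h1, ht]
  have p2 : 1 / 2 ≤ 1 - m := by linarith only [h2, ht]
  constructor
  · rw [((h.ok _).rP_eq j y).2.2.1, ((h.ok _).rP_eq j z).2.2.1, hx, hy, hm, ht]
    simp only [HD.rho, HD.hh, HD.ex, h.z1_up b hm'.le, h.z2_up b hm'.le, e1, e2, HD.al_high p1,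
      HD.al_high p2, shf_high p1, shf_high p2]
    ring
  · have a1 := ((h.ok b).cen_xv j z).2.2.1
    have a2 := (((h.ok (!b)).cen_xv j y).2.2.1).trans hx
    have a3 := ((D.H b).cen_lev j z).2.2.1.trans hm
    have a4 := ((D.H (!b)).cen_lev j y).2.2.1.trans hy
    rw [((D.H b).Ph_eq j z).2.2.1, ((D.H (!b)).Ph_eq j y).2.2.1,
      HD.uppF_polar (by rw [HD.tt, a3, e1]; exact p1),
      HD.uppF_polar (by rw [HD.tt, a4, e2]; exact p2)]
    refine ⟨_, ?_, rfl, Or.inl ?_⟩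
    · simpa [HD.tt, a3, e1] using hm'
    · have a5 : (D.H (!b)).phH ((D.H (!b)).cen j 2 y) =
          D.thU j - (D.H b).phH ((D.H b).cen j 2 z) + n := by
        simp only [HD.phH, hθ, a1, a2, a3, a4, h.Hh_up b hm', thU]
        ring
      simp only [Pup, flp, HD.uni, HD.tt, cc_mkc0, cc_mkc1, mkc_20, mkc_21, a1, a2, a3, a4, a5, e1,
        e2, h.z1_up b hm'.le, h.z2_up b hm'.le, (F4_ee _ n).1, (F4_ee _ n).2]
      rw [show 1 - m - 1 = 0 - (1 + m - 1) by ring]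

theorem Ok.F4_lo (h : D.Ok) (b : Bool) (j : J4) : ∃ l : L4, ∀ z, 7 / 8 < (D.H b).tt z →
    (D.H b).tt z < 9 / 8 →
      xv ((D.H (!b)).Dp l 0 (D.gl b z)) - (D.H (!b)).x0 j =
        rm (D.G b) *ᵥ (xv z - (D.H b).x0 j) ∧
      (D.H (!b)).rP j 3 ((D.H (!b)).Dp l 0 (D.gl b z)) = (D.H b).rP j 3 z ∧
      D.LoR j b ((D.H b).Ph j 3 z) ((D.H (!b)).Ph j 3 ((D.H (!b)).Dp l 0 (D.gl b z))) := by
  obtain ⟨l, n, hl⟩ := h.F4_arrow (w := fun b => (D.H b).x0 j) (l := D.lL j)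
    (fun b z hz => F4_cen3 (h.ok b) j hz) (by
      rw [F4_x0, F4_x0]
      refine h.F4_half fun i => ?_
      have := ((F4_even (h.ok false).T_two ![((j.1 : ℕ) : ℤ), ((j.2 : ℕ) : ℤ), 0, 0] i).sub
        (F4_even (h.ok true).T_two ![((j.1 : ℕ) : ℤ), ((j.2 : ℕ) : ℤ), 0, 0] i)).sub (h.cpar i)
      simp only [lam0, Pi.add_apply]
      exact Eq.mp (congrArg Even (by ring)) this) b
  refine ⟨l, fun z h1 h2 => ?_⟩
  obtain ⟨hx, hθ⟩ := hl z h1 h2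
  refine ⟨hx, ?_⟩
  obtain ⟨m, hm⟩ : ∃ m, z (2, 0) = (D.H b).M + m := ⟨_, (add_sub_cancel _ _).symm⟩
  have ht : (D.H b).tt z = 1 + m := by rw [HD.tt, hm, HD.M]; ring
  have hm' : |m| < 1 / 8 := abs_lt.2 ⟨by linarith only [h1, ht], by linarith only [h2, ht]⟩
  have hy : -(D.H (!b)).Dp l 0 (D.gl b z) (2, 0) = -(D.H (!b)).M + m := by
    simp only [HD.Dp, gl, mk4_20, hm]; ring
  have hz : -z (2, 0) = -(D.H b).M - m := by rw [hm]; ring
  generalize (D.H (!b)).Dp l 0 (D.gl b z) = y at hx hθ hy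
  have p1 : -(D.H b).M - m - (D.H b).μ₁ ≤ 0 := by
    have := (h.ok b).hμ
    rw [HD.M]; linarith only [h1, ht, this]
  have p2 : -(D.H (!b)).M + m - (D.H (!b)).μ₁ ≤ 0 := by
    have := (h.ok (!b)).hμ
    rw [HD.M]; linarith only [h2, ht, this]
  constructor
  · rw [((h.ok _).rP_eq j y).2.2.2.1, ((h.ok _).rP_eq j z).2.2.2.1, hx, hy, hz]
    simp only [HD.rho, HD.hh, HD.ex, h.z1_lo b hm'.le, h.z2_lo b hm'.le, HD.al_neg p1,
      HD.al_neg p2, shf_low (p1.trans (by norm_num)), shf_low (p2.trans (by norm_num))]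
  · have a1 := ((h.ok b).cen_xv j z).2.2.2
    have a2 := ((h.ok (!b)).cen_xv j y).2.2.2
    rw [hx] at a2
    have a3 := ((D.H b).cen_lev j z).2.2.2.trans hz
    have a4 := ((D.H (!b)).cen_lev j y).2.2.2.trans hy
    rw [((D.H b).Ph_eq j z).2.2.2.1, ((D.H (!b)).Ph_eq j y).2.2.2.1,
      HD.lowF_polar (by rw [HD.tt, a3]; exact p1), HD.lowF_polar (by rw [HD.tt, a4]; exact p2)]
    refine ⟨_, ?_, rfl, Or.inl ?_⟩
    · simpa [HD.uni, a3, sub_add_eq_add_sub] using hm'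
    · have a5 : (D.H (!b)).phH ((D.H (!b)).cen j 3 y) =
          D.thL j - (D.H b).phH ((D.H b).cen j 3 z) + n := by
        simp only [HD.phH, hθ, a1, a2, a3, a4, h.Hh_lo b hm', thL]
        ring
      simp only [Plow, flp, HD.uni, cc_mkc0, cc_mkc1, mkc_20, mkc_21, a1, a2, a3, a4, a5,
        h.z1_lo b hm'.le, h.z2_lo b hm'.le, (F4_ee _ n).1, (F4_ee _ n).2]
      rw [show -(D.H b).M - (D.H (!b)).M - (-(D.H b).M - m) = -(D.H (!b)).M + m by ring]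

end GD

end Pool.Agent.Work.MP_bf98aa_gt.B3
end

-- merged part: Pool.Agent.Work.MP_bf98aa_gt.B3.F4
section
/-!
The maps to `F` and the gluing of the halves.

PLAN. First for `b = true` and the arrow `y = Dp (lU j) 0 (gl z)` (resp. `lL j`): `xv y - w = G (xv z - w)` (`two`, `Int.ediv` is exact on even numbers), `z1_up`, `z2_up`, `Hh_up`; the sum of the `(2,1)` coordinates of the centred points
does not depend on `z` on the band (`slope`, `deriv_shf_high`), so it equals `thU j`. `uppF_polar`, `lowF_polar`. For `b = false` invert the arrow (`gl_gl`, `gl_Dp`); `UpR`, `LoR` are symmetric (`UpR_symm`, `LoR_symm`).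
`cross_iff`: forward: `R_cross`, so `l, l' ∈ {2, 3}`; the image of `z` under the special arrow lies in `Do` if `l = 3` or `1 ≤ tt z`, then `uni_p`; otherwise start from `y` (symmetry of the relation, `tt y = 2 - tt z`).
Backward: the levels force `l = l' = 3` resp. `2` (`Ph_img`, `LoR_norm`, `UpR_norm`); the special image lies in `Do` (same radius as `y`), `LoR_uniq`, `UpR_uniq`, `Ph_iff`.
-/

set_option autoImplicit false

open scoped Manifold ContDiff Topology Matrix ComplexConjugate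
open Set Complex Filter

namespace Pool.Agent.Work.MP_bf98aa_gt.B3

open Pool.Agent.Work.MP_bf98aa_gt.Th Pool.Agent.Work.MP_bf98aa_gt.Cy

theorem F4_nsq {A : ℝ} (h : 0 ≤ A) (t : ℝ) : normSq ((√A : ℝ) * ee t) = A := by
  rw [map_mul, normSq_ee, normSq_ofReal, mul_one, Real.mul_self_sqrt h]

theorem F4_pol {A A' s s' : ℝ} (h : 0 < A) (h' : 0 < A')
    (e : (√A : ℝ) * ee s = (√A' : ℝ) * ee s') : A = A' ∧ ∃ n : ℤ, s = s' + n := by
  have h1 : A = A' := by rw [← F4_nsq h.le s, e, F4_nsq h'.le]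
  subst h1
  exact ⟨rfl, ee_eq_iff.1 (mul_left_cancel₀ (ofReal_ne_zero.2 (Real.sqrt_pos.2 h).ne') e)⟩

theorem F4_add (t : ℝ) (n : ℤ) : ee (t + n) = ee t := by rw [ee_add, ee_int, mul_one]

theorem F4_sub (t : ℝ) (n : ℤ) : ee (t - n) = ee t := by rw [← F4_add _ n, sub_add_cancel]

theorem F4_half (t : ℝ) : ee (t + 1 / 2) = -ee t := by rw [ee_add, ee_half, mul_neg_one]

theorem F4_half' (t : ℝ) : ee (t - 1 / 2) = -ee t := by
  rw [← neg_neg (ee _), ← F4_half, sub_add_cancel]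

theorem F4_flp (s θ : ℝ) (p : E6) : flp s θ (flp s θ p) = p := by
  simp only [flp, cc_mkc0, cc_mkc1, mkc_20, mkc_21, sub_sub_cancel]
  exact mkc_eta p

theorem F4_sgn {P Q : E6 → E6} {p x x' y y' : E6} (e : x = P p) (h : Sgn (Q p) y) (h1 : Sgn x x')
    (h2 : Sgn y y') (H : ∃ q : E6, q (2, 0) = p (2, 0) ∧ P q = iof (P p) ∧ Q q = iof (Q p)) :
    ∃ q : E6, q (2, 0) = p (2, 0) ∧ x' = P q ∧ Sgn (Q q) y' := by
  obtain ⟨q, a, b, c⟩ := H
  rcases h1 with rfl | rfl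
  · exact ⟨p, rfl, e, HD.Sgn_trans h h2⟩
  · exact ⟨q, a, by rw [b, e], HD.Sgn_trans (HD.Sgn_symm (Or.inr c)) (HD.Sgn_trans h h2)⟩

theorem F4_up {θ : ℝ} {x x' y y' : E6} (h : UpR θ x y) (h1 : Sgn x x') (h2 : Sgn y y') :
    UpR θ x' y' := by
  obtain ⟨p, a, b, c⟩ := h
  obtain ⟨q, e, H⟩ := F4_sgn (Q := fun p => Pup (flp 0 θ p)) b c h1 h2
    ⟨mkc (-cc 0 p) (-cc 1 p) ⟨p (2, 0), p (2, 1) + 1 / 2⟩, rfl, by
      simp only [Pup, iof, cc_mkc0, cc_mkc1, cc_mkc2, mkc_20, mkc_21, normSq_neg, neg_add,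
        ← sub_eq_add_neg, F4_half, F4_half', mul_neg, neg_mul, neg_neg], by
      simp only [Pup, iof, flp, cc_mkc0, cc_mkc1, cc_mkc2, mkc_20, mkc_21, normSq_neg, ← sub_sub,
        neg_sub', sub_neg_eq_add, F4_half, F4_half', mul_neg, neg_mul, neg_neg]⟩
  exact ⟨q, e ▸ a, H⟩

theorem F4_upn {p : E6} (h : |p (2, 0)| < 1 / 8) : tF (Pup p) = 1 + p (2, 0) ∧
    rF (Pup p) = 1 + p (2, 0) + normSq (cc 0 p) + normSq (cc 1 p) := by
  have h1 := F4_nsq (A := 1 + p (2, 0) + normSq (cc 0 p))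
    (by linarith only [h, (abs_lt.1 h).1, normSq_nonneg (cc 0 p)]) (p (2, 1))
  simp only [tF, rF, Pup, cc_mkc0, cc_mkc1, cc_mkc2, h1]
  simp [normSq_ee]

theorem F4_lon {d : HD} {p : E6} (h : p (2, 0) ≤ d.μ₁) : d.nuF (Plow d.μ₁ p) = p (2, 0) ∧
    rF (Plow d.μ₁ p) = normSq (cc 0 p) + normSq (cc 1 p) := by
  have h1 := F4_nsq (A := normSq (cc 0 p) - (p (2, 0) - d.μ₁))
    (by linarith [normSq_nonneg (cc 0 p)]) (-p (2, 1))
  simp only [HD.nuF, rF, Plow, cc_mkc0, cc_mkc1, cc_mkc2, h1]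
  simp only [map_mul, normSq_ee, mul_one]
  exact ⟨by ring, trivial⟩

theorem UpR_symm {θ : ℝ} {x y : E6} (h : UpR θ x y) : UpR θ y x := by
  obtain ⟨p, a, rfl, c⟩ := h
  exact F4_up ⟨flp 0 θ p, by simpa [flp] using a, rfl, Or.inl (by rw [F4_flp])⟩ c (Or.inl rfl)

theorem UpR_sgn {θ : ℝ} {x x' y y' : E6} (h : UpR θ x y) (h1 : Sgn x x') (h2 : Sgn y y') :
    UpR θ x' y' := by
  exact F4_up h h1 h2

theorem UpR_uniq {θ : ℝ} {x y y' : E6} (h : UpR θ x y) (h' : UpR θ x y') : Sgn y y' := by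
  obtain ⟨p, a, rfl, c⟩ := h
  obtain ⟨q, a', e, c'⟩ := h'
  have e0 : cc 0 p * ee (-p (2, 1)) = cc 0 q * ee (-q (2, 1)) := congrArg (cc 0) e
  have e1 : cc 1 p = cc 1 q := (congrArg (cc 1) e :)
  obtain ⟨e2, n, e3⟩ := F4_pol (by linarith only [a, (abs_lt.1 a).1, normSq_nonneg (cc 0 p)])
    (by linarith only [a', (abs_lt.1 a').1, normSq_nonneg (cc 0 q)]) (congrArg (cc 2) e)
  rw [e3, neg_add, ← sub_eq_add_neg, F4_sub, mul_left_inj' (ee_ne_zero _)] at e0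
  rw [e0, add_left_inj, add_right_inj] at e2
  refine HD.Sgn_trans (HD.Sgn_symm c) (HD.Sgn_trans (Or.inl ?_) c')
  simp only [Pup, flp, cc_mkc0, cc_mkc1, mkc_20, mkc_21, e0, e1, e2, e3, ← sub_sub, neg_sub',
    sub_neg_eq_add, F4_add, F4_sub]

theorem UpR_norm {θ : ℝ} {x y : E6} (h : UpR θ x y) : |tF x - 1| < 1 / 8 ∧ tF x + tF y = 2 ∧
    rF y = rF x - 2 * (tF x - 1) := by
  obtain ⟨p, a, rfl, c⟩ := h
  obtain ⟨h1, h2, -⟩ := HD.Sgn_norm (d := ⟨0, 0, 0, 0, 0, 0, 0, 0, 0, 0, 0, 0, 0, 0⟩) c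
  obtain ⟨h3, h4⟩ := F4_upn a
  obtain ⟨h5, h6⟩ := F4_upn (p := flp 0 θ p) (by simpa [flp] using a)
  rw [h1, h2, h3, h4, h5, h6, add_sub_cancel_left]
  simp only [flp, cc_mkc0, cc_mkc1, mkc_20]
  exact ⟨a, by ring, by ring⟩

namespace GD

variable {D : GD} {x x' y y' z : E6} {b : Bool} {j j' : J4} {l l' : Fin 5}

theorem F4_lo (h : D.LoR j b x y) (h1 : Sgn x x') (h2 : Sgn y y') : D.LoR j b x' y' := by
  obtain ⟨p, a, e, c⟩ := h
  obtain ⟨q, e, H⟩ := F4_sgn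
    (Q := fun p => Plow (D.H (!b)).μ₁ (flp (-(D.H b).M - (D.H (!b)).M) (D.thL j) p)) e c h1 h2
    ⟨mkc (-cc 0 p) (-cc 1 p) (cc 2 p), rfl, by
      simp only [Plow, iof, cc_mkc0, cc_mkc1, cc_mkc2, mkc_20, mkc_21, normSq_neg, neg_mul, cc_re,
        cc_im], by
      simp only [Plow, iof, flp, cc_mkc0, cc_mkc1, cc_mkc2, mkc_20, mkc_21, normSq_neg, neg_mul,
        cc_re, cc_im]⟩
  exact ⟨q, e ▸ a, H⟩

theorem F4_lt (h : D.Ok) (b : Bool) {ν : ℝ} (a : |ν + (D.H b).M| < 1 / 8) : ν < (D.H b).μ₁ := by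
  have := (h.ok b).hμ
  have := (abs_lt.1 a).2
  unfold HD.M at this
  linarith

theorem LoR_symm (h : D.LoR j b x y) : D.LoR j (!b) y x := by
  obtain ⟨p, a, rfl, c⟩ := h
  refine F4_lo ⟨flp (-(D.H b).M - (D.H (!b)).M) (D.thL j) p, ?_, rfl, Or.inl ?_⟩ c (Or.inl rfl)
  · rw [← abs_neg]
    exact (congrArg abs (by simp only [flp, mkc_20]; ring)).trans_lt a
  · rw [Bool.not_not, show -(D.H (!b)).M - (D.H b).M = -(D.H b).M - (D.H (!b)).M by ring, F4_flp]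

theorem LoR_sgn (h : D.LoR j b x y) (h1 : Sgn x x') (h2 : Sgn y y') : D.LoR j b x' y' := by
  exact F4_lo h h1 h2

theorem Ok.LoR_uniq (h : D.Ok) (h1 : D.LoR j b x y) (h2 : D.LoR j b x y') : Sgn y y' := by
  obtain ⟨p, a, rfl, c⟩ := h1
  obtain ⟨q, a', e, c'⟩ := h2
  have e0 : cc 0 p * ee (p (2, 1)) = cc 0 q * ee (q (2, 1)) := congrArg (cc 2) e
  have e1 : cc 1 p = cc 1 q := (congrArg (cc 1) e :)
  obtain ⟨e2, n, e3⟩ := F4_pol (by linarith only [h, a, F4_lt h b a, normSq_nonneg (cc 0 p)])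
    (by linarith only [h, a', F4_lt h b a', normSq_nonneg (cc 0 q)]) (congrArg (cc 0) e)
  have e4 : p (2, 1) = q (2, 1) - n := by linarith only [e3]
  rw [e4, F4_sub, mul_left_inj' (ee_ne_zero _)] at e0
  rw [e0, sub_right_inj, sub_left_inj] at e2
  refine HD.Sgn_trans (HD.Sgn_symm c) (HD.Sgn_trans (Or.inl ?_) c')
  simp only [Plow, flp, cc_mkc0, cc_mkc1, mkc_20, mkc_21, e0, e1, e2, e4, ← sub_add, neg_add,
    ← sub_eq_add_neg, F4_add, F4_sub]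

theorem Ok.LoR_norm (h : D.Ok) (h1 : D.LoR j b x y) : |(D.H b).nuF x + (D.H b).M| < 1 / 8 ∧
    (D.H b).nuF x + (D.H (!b)).nuF y = -(D.H b).M - (D.H (!b)).M ∧ rF y = rF x := by
  obtain ⟨p, a, rfl, c⟩ := h1
  obtain ⟨h1, -, h2, -⟩ := HD.Sgn_norm (d := D.H (!b)) c
  obtain ⟨h3, h4⟩ := F4_lon (F4_lt h b a).le
  obtain ⟨h5, h6⟩ := F4_lon (p := flp (-(D.H b).M - (D.H (!b)).M) (D.thL j) p) (F4_lt h (!b) (by
    rw [← abs_neg]
    exact (congrArg abs (by simp only [flp, mkc_20]; ring)).trans_lt a)).le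
  rw [h1, h2, h3, h4, h5, h6]
  simp only [flp, cc_mkc0, cc_mkc1, mkc_20]
  exact ⟨a, by ring, trivial⟩

theorem Ok.cross_up (h : D.Ok) (b : Bool) (j : J4) : ∃ l : L4, ∀ z, 7 / 8 < (D.H b).tt z →
    (D.H b).tt z < 9 / 8 →
      xv ((D.H (!b)).Dp l 0 (D.gl b z)) - wj j = rm (D.G b) *ᵥ (xv z - wj j) ∧
      (D.H (!b)).rP j 2 ((D.H (!b)).Dp l 0 (D.gl b z)) =
        (D.H b).rP j 2 z - 2 * ((D.H b).tt z - 1) ∧
      UpR (D.thU j) ((D.H b).Ph j 2 z) ((D.H (!b)).Ph j 2 ((D.H (!b)).Dp l 0 (D.gl b z))) := by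
  exact h.F4_up b j

theorem Ok.cross_lo (h : D.Ok) (b : Bool) (j : J4) : ∃ l : L4, ∀ z, 7 / 8 < (D.H b).tt z →
    (D.H b).tt z < 9 / 8 →
      xv ((D.H (!b)).Dp l 0 (D.gl b z)) - (D.H (!b)).x0 j =
        rm (D.G b) *ᵥ (xv z - (D.H b).x0 j) ∧
      (D.H (!b)).rP j 3 ((D.H (!b)).Dp l 0 (D.gl b z)) = (D.H b).rP j 3 z ∧
      D.LoR j b ((D.H b).Ph j 3 z) ((D.H (!b)).Ph j 3 ((D.H (!b)).Dp l 0 (D.gl b z))) := by
  exact h.F4_lo b j

theorem F4_ci_tt (b : Bool) (m : L4) (z : E6) :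
    (D.H (!b)).tt ((D.H (!b)).Dp m 0 (D.gl b z)) = 2 - (D.H b).tt z := gl_tt b z

theorem F4_ci_Wo (m : L4) (h1 : 7 / 8 < (D.H b).tt z) (h2 : (D.H b).tt z < 9 / 8) :
    (D.H (!b)).Dp m 0 (D.gl b z) ∈ (D.H (!b)).Wo .p := by
  have e := F4_ci_tt (D := D) b m z
  exact ⟨by linarith only [h2, e], by linarith only [h1, e]⟩

theorem Ok.F4_ci_arrow (h : D.Ok) (m : L4) (hz : z ∈ (D.H b).Wo .p) (h1 : 7 / 8 < (D.H b).tt z) :
    D.atlO.R (b, .p) z (!b, .p) ((D.H (!b)).Dp m 0 (D.gl b z)) :=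
  h.R_cross.2 ⟨rfl, rfl, hz, h1, (m, 0, false), rfl⟩

/-- The relation across, read through a special arrow. -/
theorem Ok.F4_ci_via (h : D.Ok) {k : Fin 5} (m : L4) (hk : sP k = .p) (hz : z ∈ (D.H b).Wo .p)
    (h1 : 7 / 8 < (D.H b).tt z) (hr : (D.H (!b)).rP j k ((D.H (!b)).Dp m 0 (D.gl b z)) < 8)
    (hy : y ∈ (D.H (!b)).Do j' l') :
    D.atlO.R (b, .p) z (!b, sP l') y ↔ j = j' ∧
      Sgn ((D.H (!b)).Ph j k ((D.H (!b)).Dp m 0 (D.gl b z))) ((D.H (!b)).Ph j l' y) := by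
  have hw : (D.H (!b)).Dp m 0 (D.gl b z) ∈ (D.H (!b)).Do j k :=
    ⟨by rw [hk]; exact F4_ci_Wo m h1 hz.2, hr⟩
  have ha := h.F4_ci_arrow m hz h1
  rw [← (h.ok (!b)).Ph_iff hw hy, hk, ← R_same]
  exact ⟨fun hR => h.pre0_O.trans (h.pre0_O.symm ha) hR, fun hR => h.pre0_O.trans ha hR⟩

theorem Ok.F4_ci_fwd (h : D.Ok) (hz : z ∈ (D.H b).Do j l) (hy : y ∈ (D.H (!b)).Do j' l')
    (hR : D.atlO.R (b, sP l) z (!b, sP l') y) (ht : 1 ≤ (D.H b).tt z) : j = j' ∧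
      (D.LoR j b ((D.H b).Ph j l z) ((D.H (!b)).Ph j l' y) ∨
        UpR (D.thU j) ((D.H b).Ph j l z) ((D.H (!b)).Ph j l' y)) := by
  obtain ⟨hl, -, hW, h1, -⟩ := h.R_cross.1 hR
  rw [hl] at hR
  have hr := hz.2
  obtain rfl | rfl : l = 2 ∨ l = 3 := by
    revert hl
    fin_cases l <;> simp [sP]
  · obtain ⟨m, hm⟩ := h.cross_up b j
    obtain ⟨-, e, hu⟩ := hm z h1 hW.2
    obtain ⟨hj, hs⟩ := (h.F4_ci_via (j := j) (k := 2) m rfl hW h1 (by linarith only [ht, hr, e]) hy).1 hR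
    exact ⟨hj, Or.inr (UpR_sgn hu (HD.Sgn_refl _) hs)⟩
  · obtain ⟨m, hm⟩ := h.cross_lo b j
    obtain ⟨-, e, hu⟩ := hm z h1 hW.2
    obtain ⟨hj, hs⟩ := (h.F4_ci_via (j := j) (k := 3) m rfl hW h1 (by linarith) hy).1 hR
    exact ⟨hj, Or.inl (LoR_sgn hu (HD.Sgn_refl _) hs)⟩

theorem F4_ci_low {d : HD} (h : d.Ok) (hz : z ∈ d.Do j l) (ht : d.nuF (d.Ph j l z) < -d.μ₁ - 1 / 8) :
    l = 3 := by
  have hi := h.Ph_img hz
  have hμ := h.hμ
  generalize d.Ph j l z = x at hi ht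
  have n0 := normSq_nonneg (cc 0 x)
  have n2 := normSq_nonneg (cc 2 x)
  fin_cases l
  · exact absurd hi.2.1 (by linarith only [hμ, ht])
  · exact absurd hi.2 (by linarith only [ht])
  · have : 0 < normSq (cc 2 x) - normSq (cc 0 x) := hi
    unfold HD.nuF at ht
    linarith only [hμ, ht, this]
  · rfl
  · have := hi.1
    unfold HD.nuF at ht
    linarith only [hμ, ht, n2, this]

theorem F4_ci_upp {d : HD} (h : d.Ok) (hz : z ∈ d.Do j l) (ht : 1 / 8 < tF (d.Ph j l z)) :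
    l = 2 := by
  have hi := h.Ph_img hz
  have hμ := h.hμ
  generalize d.Ph j l z = x at hi ht
  have n0 := normSq_nonneg (cc 0 x)
  have e : d.nuF x = d.μ₁ + tF x := add_sub_assoc _ _ _
  fin_cases l
  · exact absurd hi.2.2 (by linarith only [ht])
  · exact absurd hi.1 (by linarith only [hμ, ht, e])
  · rfl
  · have : d.nuF x < -d.μ₁ := hi
    linarith only [hμ, ht, e, this]
  · have := hi.2
    unfold tF at ht
    linarith only [ht, n0, this]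

theorem Ok.cross_iff (h : D.Ok) (hz : z ∈ (D.H b).Do j l) (hy : y ∈ (D.H (!b)).Do j' l') :
    D.atlO.R (b, sP l) z (!b, sP l') y ↔ j = j' ∧
      (D.LoR j b ((D.H b).Ph j l z) ((D.H (!b)).Ph j l' y) ∨
        UpR (D.thU j) ((D.H b).Ph j l z) ((D.H (!b)).Ph j l' y)) := by
  constructor
  · intro hR
    rcases le_total 1 ((D.H b).tt z) with ht | ht
    · exact h.F4_ci_fwd hz hy hR ht
    · obtain ⟨-, -, -, -, γ, e⟩ := h.R_cross.1 hR
      have e' : (D.H (!b)).tt y = 2 - (D.H b).tt z := by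
        rw [e, ← gl_tt]
        obtain ⟨m, n, s⟩ := γ
        cases s <;> rfl
      have ht' : 1 ≤ (D.H (!b)).tt y := by linarith
      have hS := h.pre0_O.symm hR
      cases b <;>
      · obtain ⟨rfl, hc⟩ := h.F4_ci_fwd hy hz hS ht'
        exact ⟨rfl, hc.imp LoR_symm UpR_symm⟩
  · rintro ⟨rfl, hc⟩
    obtain ⟨a1, a2, -⟩ := (h.ok b).Ph_lev hz
    obtain ⟨b1, -, -⟩ := (h.ok (!b)).Ph_lev hy
    have hr := hz.2
    have hr' := hy.2
    rcases hc with hc | hc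
    · obtain ⟨c1, -, -⟩ := h.LoR_norm hc
      rw [abs_lt, HD.M] at c1
      obtain rfl := F4_ci_low (h.ok b) hz (by linarith only [c1, c1.2])
      have a3 : (D.H b).nuF ((D.H b).Ph j 3 z) = -z (2, 0) := a2
      have h1 : 7 / 8 < (D.H b).tt z := by
        unfold HD.tt
        linarith only [c1, a3, c1.2]
      obtain ⟨m, hm⟩ := h.cross_lo b j
      obtain ⟨-, e, hu⟩ := hm z h1 hz.1.2
      exact (h.F4_ci_via (j := j) (k := 3) m rfl hz.1 h1 (by linarith only [hr, e]) hy).2 ⟨rfl, h.LoR_uniq hu hc⟩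
    · obtain ⟨c1, -, c3⟩ := UpR_norm hc
      rw [abs_lt] at c1
      obtain rfl := F4_ci_upp (h.ok b) hz (by linarith only [c1, c1.1])
      have a3 : (D.H b).μ₁ + tF ((D.H b).Ph j 2 z) = z (2, 0) :=
        (add_sub_assoc _ _ _).symm.trans a2
      have a4 : (D.H b).tt z = tF ((D.H b).Ph j 2 z) := by
        unfold HD.tt
        linarith only [a3]
      have h1 : 7 / 8 < (D.H b).tt z := by linarith only [c1, a4, c1.1]
      obtain ⟨m, hm⟩ := h.cross_up b j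
      obtain ⟨-, e, hu⟩ := hm z h1 hz.1.2
      exact (h.F4_ci_via (j := j) (k := 2) m rfl hz.1 h1 (by linarith only [b1, hr', a1, c3, a4, e]) hy).2 ⟨rfl, UpR_uniq hu hc⟩

end GD

end Pool.Agent.Work.MP_bf98aa_gt.B3
end
end

-- merged part: Pool.Agent.Work.MP_bf98aa_gt.B3.F5a
section
/-!
The holes in terms of the tubes around the strands.
-/

set_option autoImplicit false

open scoped Manifold ContDiff Topology Matrix ComplexConjugate
open Set Complex Filter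

namespace Pool.Agent.Work.MP_bf98aa_gt.B3

open Pool.Agent.Work.MP_bf98aa_gt.Th Pool.Agent.Work.MP_bf98aa_gt.Cy

namespace HD

variable {d : HD} {x y z : E6} {j : J4} {l : Fin 5} {B μ : ℝ} {v : V4}

/-- The hole with a given bound. -/
def F5_H (d : HD) (B μ : ℝ) (v : V4) : Prop := ∃ l : L4, Even (l 3) ∧
  ((Even (l 2) ∧ d.rho μ (v - (1 / 2 : ℝ) • rv l) ≤ B) ∨
    (Odd (l 2) ∧ d.rho (-μ) (rm d.T *ᵥ (v - (1 / 2 : ℝ) • rv l)) ≤ 2))

theorem F5_mono {B' : ℝ} (h : d.F5_H B μ v) (hB : B ≤ B') : d.F5_H B' μ v :=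
  h.imp fun _ h => ⟨h.1, h.2.imp_left fun h => ⟨h.1, h.2.trans hB⟩⟩

theorem F5_add (L : L4) (h : d.F5_H B μ (v + rv L)) : d.F5_H B μ v := by
  obtain ⟨m, h3, hm⟩ := h
  have e : v - (1 / 2 : ℝ) • rv (m - (L + L)) = v + rv L - (1 / 2 : ℝ) • rv m := by
    rw [rv_sub, rv_add]; module
  refine ⟨m - (L + L), h3.sub (Even.add_self _), ?_⟩
  rw [e]
  exact hm.imp (And.imp_left fun h => h.sub (Even.add_self _))
    (And.imp_left fun h => h.sub_even (Even.add_self _))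

theorem F5_neg (e : Bool) (h : d.F5_H B μ (cond e (-v) v)) : d.F5_H B μ v := by
  cases e
  · exact h
  obtain ⟨m, h3, hm⟩ := h
  have e : v - (1 / 2 : ℝ) • rv (-m) = -(-v - (1 / 2 : ℝ) • rv m) := by
    rw [rv_neg]; module
  refine ⟨-m, h3.neg, ?_⟩
  rw [e, Matrix.mulVec_neg, (rho_neg _ _).1, (rho_neg _ _).1]
  exact hm.imp (And.imp_left fun h => h.neg) (And.imp_left fun h => h.neg)

theorem Ok.F5_par (h : d.Ok) (m : L4) (i : Fin 4) : Even ((d.T *ᵥ m) i - m i) := by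
  have : Even (((d.T - 1) *ᵥ m) i) :=
    Finset.even_sum (s := Finset.univ) (fun k => (d.T - 1) i k * m k) fun k _ =>
      (h.T_two i k).mul_right _
  rwa [Matrix.sub_mulVec, Matrix.one_mulVec] at this

theorem Ok.F5_ka (h : d.Ok) (hv : d.F5_H 2 (-μ) (rm d.T *ᵥ v + (1 / 2 : ℝ) • rv d.c)) :
    d.F5_H 2 μ v := by
  obtain ⟨m, h3, hm⟩ := hv
  have e : rm d.T *ᵥ v + (1 / 2 : ℝ) • rv d.c - (1 / 2 : ℝ) • rv m =
      rm d.T *ᵥ (v - (1 / 2 : ℝ) • rv (d.T *ᵥ m + d.c)) := by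
    rw [rv_add, rv_mulVec, Matrix.mulVec_sub, Matrix.mulVec_smul, Matrix.mulVec_add, h.TTv,
      h.N1_m_c]
    module
  have c2 : Odd (d.c 2) := h.c2
  have c3 : Even (d.c 3) := h.c3
  have p2 := h.F5_par m 2
  have p3 := h.F5_par m 3
  rw [e, h.TTv, neg_neg] at hm
  refine ⟨d.T *ᵥ m + d.c, ?_, hm.symm.imp (And.imp_left fun h => ?_) (And.imp_left fun h => ?_)⟩ <;>
    rw [Pi.add_apply] <;> (clear * - c2 c3 h h3 p2 p3; grind)

theorem F5_j (s : ℤ) : ∃ (i : Fin 2) (a : ℤ), s = 2 * a + (i : ℕ) := by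
  obtain ⟨a, e | e⟩ := Int.even_or_odd' s
  exacts [⟨0, a, by simpa using e⟩, ⟨1, a, by simpa using e⟩]

theorem F5_w (j : J4) : wj j = (1 / 2 : ℝ) • rv ![(j.1 : ℕ), (j.2 : ℕ), 0, 0] := by
  ext i
  fin_cases i <;> simp [wj, rv, div_eq_inv_mul]

theorem F5_shift {m m' : L4} (h : ∀ i, Even (m i - m' i)) :
    ∃ L : L4, ∀ v : V4, v + rv L - (1 / 2 : ℝ) • rv m' = v - (1 / 2 : ℝ) • rv m := by
  choose L hL using h
  refine ⟨-L, fun v => ?_⟩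
  rw [show m = m' + (L + L) from funext fun i => by simp only [Pi.add_apply, ← hL]; ring,
    rv_neg, rv_add, rv_add]
  module

theorem Ok.F5_to (h : d.Ok) (hv : d.F5_H B μ v) : ∃ j L, d.rho μ (v + rv L - wj j) ≤ B ∨
    d.rho (-μ) (rm d.T *ᵥ (v + rv L - d.x0 j)) ≤ 2 := by
  obtain ⟨m, h3, ⟨h2, hm⟩ | ⟨h2, hm⟩⟩ := hv
  · obtain ⟨i, a, e⟩ := F5_j (m 0)
    obtain ⟨i', a', e'⟩ := F5_j (m 1)
    obtain ⟨L, hL⟩ := F5_shift (m := m) (m' := ![(i : ℕ), (i' : ℕ), 0, 0]) fun k => by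
      fin_cases k <;> simp <;> (clear * - e e' h2 h3; grind)
    exact ⟨(i, i'), L, .inl (by rwa [F5_w, hL])⟩
  · obtain ⟨i, a, e⟩ := F5_j (m 0 - d.c 0)
    obtain ⟨i', a', e'⟩ := F5_j (m 1 - d.c 1)
    obtain ⟨m', e0, p2, p3, p0, p1⟩ := h.x0_parity (i, i')
    obtain ⟨L, hL⟩ := F5_shift (m := m) (m' := m') fun k => by
      fin_cases k <;> simp at p0 p1 ⊢ <;> (clear * - e e' h2 h3 p0 p1 p2 p3; grind)
    exact ⟨(i, i'), L, .inr (by rwa [e0, hL])⟩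

theorem F5_of_w (hv : d.rho μ (v - wj j) ≤ B) : d.F5_H B μ v :=
  ⟨![(j.1 : ℕ), (j.2 : ℕ), 0, 0], Even.zero, .inl ⟨Even.zero, by rwa [← F5_w]⟩⟩

theorem Ok.F5_of_x (h : d.Ok) (hv : d.rho (-μ) (rm d.T *ᵥ (v - d.x0 j)) ≤ 2) : d.F5_H B μ v := by
  obtain ⟨m, e, p2, p3, -⟩ := h.x0_parity j
  exact ⟨m, p3, .inr ⟨p2, by rwa [← e]⟩⟩

theorem Ok.F5_lev (h : d.Ok) (hz : z ∈ d.Do j l) : rF (d.Ph j l z) = d.rP j l z ∧
    tF (d.Ph j l z) = d.nuP l z - d.μ₁ := by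
  obtain ⟨e1, e2, -⟩ := h.Ph_lev hz
  refine ⟨e1, ?_⟩
  rw [← e2, nuF, tF]
  ring

theorem F5_zy (μ s t : ℝ) : normSq (d.zy μ (-s) (-t)) = normSq (d.zy μ s t) := by
  simp only [zy, map_mul, normSq_mk]
  ring

theorem Ok.F5_far (h : d.Ok) {k : J4} {r : ℝ} (γ : L4 × ℤ × Bool × Bool)
    (hz : d.gm γ z ∈ d.Ko k) : z ∉ d.Near j r .m := fun hn => by
  obtain ⟨m, -, hm⟩ := h.near_x (by decide) hn
  exact (h.Ko_far γ hz m).not_gt hm

/-- The tube condition. -/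
def F5_T (d : HD) (c : K3) (x : E6) : Prop := ∃ j l, ∃ z ∈ d.Do j l,
  d.atlO.R c x (sP l) z ∧ rF (d.Ph j l z) ≤ max 2 (2 * tF (d.Ph j l z))

theorem Ok.F5_in (h : d.Ok) {c : K3} (hl : sP l = c) (hr : d.atlO.R c x c z)
    (ht : d.nuP l z - d.μ₁ < 4) (hb : d.rP j l z ≤ max 2 (2 * (d.nuP l z - d.μ₁))) :
    d.F5_T c x := by
  subst hl
  have hz : z ∈ d.Do j l := ⟨atlO_W (d := d) _ ▸ (h.pre0_half.mem hr).2,
    hb.trans_lt (max_lt (by norm_num) (by linarith))⟩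
  exact ⟨j, l, z, hz, hr, by rwa [(h.F5_lev hz).1, (h.F5_lev hz).2]⟩

theorem Ok.F5_out (h : d.Ok) {c : K3} (hx : d.F5_T c x) : ∃ j l z, sP l = c ∧
    d.atlO.R c x c z ∧ d.rP j l z ≤ max 2 (2 * (d.nuP l z - d.μ₁)) := by
  obtain ⟨j, l, z, hz, hr, hb⟩ := hx
  obtain ⟨l', y, hl, hy, hr', -, e⟩ := h.sat hz (h.pre0_half.symm hr)
  exact ⟨j, l', y, hl, hr', by rwa [← e, (h.F5_lev hy).1, (h.F5_lev hy).2] at hb⟩

theorem Ok.F5_m (h : d.Ok) (hx : x ∈ d.Wo .m) : x ∈ d.Hole ↔ d.F5_T .m x := by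
  have hμ := h.hμ
  refine ⟨fun hh => ?_, fun hh => ?_⟩
  · obtain ⟨j, L, hb⟩ := h.F5_to (μ := x (2, 0)) (v := xv x) hh
    have hr : d.atlO.R .m x .m (d.Dm L 0 x) :=
      R_mm.2 ⟨hx, h.gm_mem (L, 0, false, false) hx nofun, (L, 0, false, false), rfl⟩
    have h1 := hx.1
    have h2 : x (2, 0) - d.μ₁ < 1 / 8 := hx.2.1
    have e : xv (d.Dm L 0 x) = xv x + rv L := xv_mk4 _ _ _
    rcases hb with hb | hb
    · exact h.F5_in (j := j) (l := 0) rfl hr (h2.trans (by norm_num))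
        ((h.rP_eq j _).1.trans_le (by rw [e]; exact hb))
    · exact h.F5_in (j := j) (l := 1) rfl hr (show -x (2, 0) - d.μ₁ < 4 by linarith only [hμ, h1])
        ((h.rP_eq j _).2.1.trans_le (le_max_of_le_left (by rw [e]; exact hb)))
  · obtain ⟨j, l, z, hl, ⟨-, hz, ⟨L, n, k, e⟩, rfl⟩, hb⟩ := h.F5_out hh
    have h1 := hz.1
    have h2 : d.gm (L, n, k, e) x (2, 0) - d.μ₁ < 1 / 8 := hz.2.1
    have key : d.F5_H 2 (d.gm (L, n, k, e) x (2, 0)) (xv (d.gm (L, n, k, e) x)) := by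
      rcases (by decide : ∀ l, sP l = .m → l = 0 ∨ l = 1) l hl with rfl | rfl
      · exact F5_of_w ((h.rP_eq j _).1.symm.trans_le (hb.trans (max_le le_rfl (by
          change 2 * (d.gm (L, n, k, e) x (2, 0) - d.μ₁) ≤ 2; linarith only [h2]))))
      · exact h.F5_of_x ((h.rP_eq j _).2.1.symm.trans_le (hb.trans (max_le le_rfl (by
          change 2 * (-d.gm (L, n, k, e) x (2, 0) - d.μ₁) ≤ 2; linarith only [hμ, h1]))))
    rw [gm_level, gm_xv] at key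
    refine F5_mono (B := 2) (μ := x (2, 0)) (v := xv x) (F5_neg e ?_) (le_max_left _ _)
    cases k
    exacts [F5_add L key, h.F5_ka (F5_add L key)]

theorem Ok.F5_p (h : d.Ok) (hx : x ∈ d.Wo .p) : x ∈ d.Hole ↔ d.F5_T .p x := by
  have hμ := h.hμ
  have h1 : 0 < x (2, 0) - d.μ₁ := hx.1
  have h2 : x (2, 0) - d.μ₁ < 9 / 8 := hx.2
  refine ⟨fun hh => ?_, fun hh => ?_⟩
  · obtain ⟨j, L, hb⟩ := h.F5_to (μ := x (2, 0)) (v := xv x) hh
    have hr : d.atlO.R .p x .p (d.Dp L 0 x) :=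
      R_pp.2 ⟨hx, (gp_mem (L, 0, false)).2 hx, (L, 0, false), rfl⟩
    have e : xv (d.Dp L 0 x) = xv x + rv L := xv_mk4 _ _ _
    rcases hb with hb | hb
    · exact h.F5_in (j := j) (l := 2) rfl hr (h2.trans (by norm_num))
        ((h.rP_eq j _).2.2.1.trans_le (by rw [e]; exact hb))
    · exact h.F5_in (j := j) (l := 3) rfl hr (show -x (2, 0) - d.μ₁ < 4 by linarith only [hμ, h1])
        ((h.rP_eq j _).2.2.2.1.trans_le (le_max_of_le_left (by rw [e]; exact hb)))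
  · obtain ⟨j, l, z, hl, ⟨-, -, γ, rfl⟩, hb⟩ := h.F5_out hh
    have key : d.F5_H (max 2 (2 * d.tt x)) (x (2, 0)) (xv (d.gp γ x)) := by
      rcases (by decide : ∀ l, sP l = .p → l = 2 ∨ l = 3) l hl with rfl | rfl
      · rw [(h.rP_eq j _).2.2.1] at hb
        change _ ≤ max 2 (2 * (d.gp γ x (2, 0) - d.μ₁)) at hb
        rw [gp_level] at hb
        exact F5_of_w hb
      · rw [(h.rP_eq j _).2.2.2.1] at hb
        change _ ≤ max 2 (2 * (-d.gp γ x (2, 0) - d.μ₁)) at hb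
        rw [gp_level] at hb
        exact h.F5_of_x (hb.trans (max_le le_rfl (by linarith only [hμ, h1])))
    rw [gp_xv] at key
    exact F5_neg _ (F5_add _ key)

theorem F5_gf (γ : ℤ × ℤ × Bool) (x : E6) : d.nuF (d.gf γ x) = d.nuF x ∧
    d.gf γ x (1, 0) = cond γ.2.2 (-x (1, 0)) (x (1, 0)) + γ.1 ∧
    d.gf γ x (1, 1) = cond γ.2.2 (-x (1, 1)) (x (1, 1)) + γ.2.1 := by
  obtain ⟨e0, e2, e1⟩ := gf_norm (d := d) γ x
  refine ⟨by rw [nuF, nuF, e0, e2], (congrArg re e1).trans ?_, (congrArg im e1).trans ?_⟩ <;>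
    cases γ.2.2 <;> rfl

theorem Ok.F5_f (h : d.Ok) (hx : x ∈ d.Wo .f) : x ∈ d.HoleF ↔ d.F5_T .f x := by
  have h0 := normSq_nonneg (cc 0 x)
  have h2 : d.nuF x - d.μ₁ < 1 / 8 := by
    have := hx.2
    rw [nuF]
    linarith only [h0, this]
  refine ⟨fun ⟨s, t, hb⟩ => ?_, fun hh => ?_⟩
  · obtain ⟨i, a, rfl⟩ := F5_j s
    obtain ⟨i', a', rfl⟩ := F5_j t
    obtain ⟨e0, e1, e2⟩ := F5_gf (d := d) (-a, -a', false) x
    refine h.F5_in (j := (i, i')) (l := 4) rfl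
      (R_ff.2 ⟨hx, (gf_mem (-a, -a', false)).2 hx, _, rfl⟩) 
      ((congrArg (· - d.μ₁) e0).trans_lt (h2.trans (by norm_num)))
      ((h.rP_eq _ _).2.2.2.2.trans_le (le_max_of_le_left ?_))
    rw [e0, e1, e2, (gf_norm _ _).2.1]
    refine Eq.trans_le ?_ hb
    congr 3 <;> simp [wj] <;> ring
  · obtain ⟨j, l, z, hl, ⟨-, -, ⟨a, a', e⟩, rfl⟩, hb⟩ := h.F5_out hh
    obtain rfl := (by decide : ∀ l, sP l = .f → l = 4) l hl
    obtain ⟨e0, e1, e2⟩ := F5_gf (d := d) (a, a', e) x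
    rw [(h.rP_eq _ _).2.2.2.2] at hb
    change _ ≤ max 2 (2 * (d.nuF (d.gf (a, a', e) x) - d.μ₁)) at hb
    rw [e0, e1, e2, (gf_norm _ _).2.1, max_eq_left (by linarith only [h2])] at hb
    cases e
    · refine ⟨(j.1 : ℕ) - 2 * a, (j.2 : ℕ) - 2 * a', ?_⟩
      convert hb using 4 <;> simp [wj] <;> ring
    · refine ⟨2 * a - (j.1 : ℕ), 2 * a' - (j.2 : ℕ), ?_⟩
      rw [← F5_zy]
      convert hb using 4 <;> simp [wj] <;> ring

end HD

end Pool.Agent.Work.MP_bf98aa_gt.B3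
end

-- merged part: Pool.Agent.Work.MP_bf98aa_gt.B3.F5
section
/-!
The holes; the neck as a free atlas.

PLAN. `hole_iff`: a centre `m / 2` with `m 3` even is moved to `w_j` (`m 2` even) or to `x0 j` (`m 2` odd, `x0_parity`) by a lattice translation `Dm`, `Dp`; conversely use `sat` and `rho_neg`. On `f`: `zy` is odd and only `y` enters.
`Wn_sat`: `hole_iff`, transitivity, `Kset_gm`, `R_lev`; across the halves `cross_up`, `cross_lo`, `UpR_norm`. `isOpen_Wn`: the hole is closed in `Wo c`: as in `closed_near` (it is contained in `Near j 3 c`), or `open_hole` of `P7` (do not import), `isClosed_Kset`.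
`stab_*`: compare `xv` (`gm_xv`; in fold coordinates for `κ ι`: `X 2 + 1 / 2 + integer = X 2`), then the angle. `free_N`: `Grp.free`, `R_same`, `rho ν 0 = max 0 t` (`al_one`).
-/

set_option autoImplicit false

open scoped Manifold ContDiff Topology Matrix ComplexConjugate
open Set Complex Filter

namespace Pool.Agent.Work.MP_bf98aa_gt.B3

open Pool.Agent.Work.MP_bf98aa_gt.Th Pool.Agent.Work.MP_bf98aa_gt.Cy

namespace HD

variable {d : HD} {x y z : E6} {j : J4} {l : Fin 5} {c c' : K3}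

/-- The hole in the chart `c`. -/
def HoleC (d : HD) : K3 → Set E6
  | .f => d.HoleF
  | _ => d.Hole

theorem Wn_iff : x ∈ d.Wn c ↔ x ∈ d.Wo c ∧ x ∉ d.HoleC c ∧ (c = .m → x ∉ d.Kset) := by
  cases c <;> simp [Wn, HoleC, not_or]

theorem Wn_sub (c : K3) : d.Wn c ⊆ d.Wo c := fun _ hx => (Wn_iff.1 hx).1

theorem Ok.rho_zero' (h : d.Ok) (ν : ℝ) : d.rho ν 0 = max 0 (ν - d.μ₁) := by
  have e : d.rho ν 0 = d.al 0 (ν - d.μ₁) + shf (ν - d.μ₁) := by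
    simp [rho, hh, ex, z1, z2, qq, normSq_mk]
  rcases le_or_gt (ν - d.μ₁) 0 with ht | ht
  · rw [e, al_neg ht, shf_low (by linarith only [ht]), max_eq_left ht, add_zero]
  · rw [e, h.al_one ht (by linarith only [ht, h, h.M12.1, mul_nonneg_of_nonpos_of_nonpos (le_of_lt (Mathlib.Tactic.Linarith.sub_neg_of_lt ht)) (Mathlib.Tactic.Linarith.sub_nonpos_of_le (M12 h).left)]), max_eq_right ht.le]

theorem Ok.hole_iff (h : d.Ok) (hx : x ∈ d.Wo c) : x ∈ d.HoleC c ↔ ∃ j l, ∃ z ∈ d.Do j l,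
    d.atlO.R c x (sP l) z ∧ rF (d.Ph j l z) ≤ max 2 (2 * tF (d.Ph j l z)) := by
  cases c
  exacts [h.F5_m hx, h.F5_p hx, h.F5_f hx]

theorem Ok.Do_Wn (h : d.Ok) (hz : z ∈ d.Do j l) :
    z ∈ d.DP j l ↔ max 2 (2 * tF (d.Ph j l z)) < rF (d.Ph j l z) := by
  have hr : d.atlO.R (sP l) z (sP l) z := h.pre0_half.refl (atlO_W (d := d) _ ▸ hz.1)
  refine ⟨fun hd => not_le.1 fun e => (Wn_iff.1 hd.1).2.1
    ((h.hole_iff hz.1).2 ⟨j, l, z, hz, hr, e⟩), fun hl => ⟨Wn_iff.2 ⟨hz.1, fun hh => ?_,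
      fun hm hk => ?_⟩, hz.2⟩⟩
  · obtain ⟨j', l', z', hz', hr', e⟩ := (h.hole_iff hz.1).1 hh
    obtain ⟨rfl, s⟩ := (h.Ph_iff hz hz').1 hr'
    obtain ⟨s1, s2, -⟩ := Sgn_norm (d := d) s
    rw [s1, s2] at e
    exact hl.not_ge e
  · obtain ⟨L, n, e, k, h0⟩ := h.Kset_iff.1 hk
    exact h.F5_far _ (h.Ko_iff.2 (h0.trans_lt (by norm_num))) ⟨l, z, hz, le_rfl, hm ▸ hr⟩

theorem DP_sub (hz : z ∈ d.DP j l) : z ∈ d.Do j l := ⟨Wn_sub _ hz.1, hz.2⟩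

theorem Ok.DP_WX (h : d.Ok) (hz : z ∈ d.DP j l) : d.Ph j l z ∈ d.WX .F := by
  obtain ⟨h1, h2⟩ := max_lt_iff.1 ((h.Do_Wn (DP_sub hz)).1 hz)
  refine ⟨(h.Ph_lev (DP_sub hz)).2.2, by linarith, ?_⟩
  rw [rF, tF] at h2
  rw [tF]
  linarith

theorem Ok.DP_onto (h : d.Ok) (j : J4) (hy : y ∈ d.Fo) (h1 : max 2 (2 * tF y) < rF y) :
    ∃ l, ∃ z ∈ d.DP j l, d.Ph j l z = y := by
  obtain ⟨l, z, hz, rfl⟩ := h.Ph_surj j hy
  exact ⟨l, z, (h.Do_Wn hz).2 h1, rfl⟩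

theorem Ok.F5_sat (h : d.Ok) (hr : d.atlO.R c x c' y) (hx : x ∈ d.Wn c) : y ∈ d.Wn c' := by
  obtain ⟨h0, h1, h2⟩ := Wn_iff.1 hx
  have hy : y ∈ d.Wo c' := atlO_W c' ▸ (h.pre0_half.mem hr).2
  refine Wn_iff.2 ⟨hy, fun hh => h1 ?_, ?_⟩
  · obtain ⟨j, l, z, hz, hr', e⟩ := (h.hole_iff hy).1 hh
    exact (h.hole_iff h0).2 ⟨j, l, z, hz, h.pre0_half.trans hr hr', e⟩
  rintro rfl hk
  have hμ := h.hμ
  obtain ⟨l, n, e⟩ := id hk
  have e0 := (h.Kg_fix e).1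
  cases c
  · obtain ⟨-, -, γ, rfl⟩ := R_mm.1 hr
    exact h2 rfl ((h.Kset_gm γ).1 hk)
  · rcases h.R_lev hr with e1 | ⟨e1, -⟩
    · have := h0.1
      simp only [lev, tt] at e1 this
      linarith only [hμ, e0, e1, this]
    · cases e1
  · rcases h.R_lev hr with e1 | ⟨e1, -⟩
    · have := h0.1
      have := normSq_nonneg (cc 2 x)
      simp only [lev, nuF] at e1
      linarith
    · cases e1

theorem Ok.Wn_sat (h : d.Ok) (hr : d.atlO.R c x c' y) : x ∈ d.Wn c ↔ y ∈ d.Wn c' := by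
  exact ⟨h.F5_sat hr, h.F5_sat (h.pre0_half.symm hr)⟩

theorem Ok.F5_three (h : d.Ok) (hz : z ∈ d.Do j l)
    (e : rF (d.Ph j l z) ≤ max 2 (2 * tF (d.Ph j l z))) : d.rP j l z ≤ 3 := by
  obtain ⟨e1, -, -, e2⟩ := h.Ph_lev hz
  have := (abs_lt.1 e2).2
  simp only [nuF, M, tF] at this e
  exact e1 ▸ e.trans (max_le (by norm_num) (by linarith only [this]))

theorem Ok.F5_ev (h : d.Ok) (hx : x ∈ d.Wo c) (h1 : x ∉ d.HoleC c) :
    ∀ᶠ a in 𝓝 x, a ∈ d.Wo c → a ∉ d.HoleC c := by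
  by_cases hn : ∃ j, x ∈ d.Near j 3 c
  · obtain ⟨j, l, z, hz, -, hr⟩ := hn
    obtain ⟨f, hf⟩ := h.pre0_half.loc hr
    obtain rfl := hf.eq
    have c1 : ContinuousAt (fun a => d.Ph j l (f a)) x :=
      (h.Ph_sm hz).continuousAt.comp hf.sm.continuousAt
    have c2 : Continuous fun a => max 2 (2 * tF a) := by unfold tF; fun_prop
    have c3 : Continuous rF := by unfold rF; fun_prop
    have lt := not_le.1 fun e => h1 ((h.hole_iff hx).2 ⟨j, l, _, hz, hr, e⟩)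
    filter_upwards [hf.ev, hf.sm.continuousAt ((h.isOpen_Do j l).mem_nhds hz),
      c1 ((isOpen_lt c2 c3).mem_nhds lt)] with a r1 r2 r3 ha hh
    obtain ⟨j', l', z', hz', hr', e⟩ := (h.hole_iff ha).1 hh
    obtain ⟨rfl, s⟩ := (h.Ph_iff r2 hz').1 (h.pre0_half.trans (h.pre0_half.symm r1) hr')
    obtain ⟨s1, s2, -⟩ := Sgn_norm (d := d) s
    rw [s1, s2] at e
    exact not_le.2 r3 e
  · have : ∀ j, ∀ᶠ a in 𝓝 x, a ∉ d.Near j 3 c := fun j => not_frequently.1 fun hc =>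
      hn ⟨j, h.closed_near j (by norm_num) c hx (mem_closure_iff_frequently.2 hc)⟩
    filter_upwards [eventually_all.2 this] with a r1 ha hh
    obtain ⟨j, l, z, hz, hr, e⟩ := (h.hole_iff ha).1 hh
    exact r1 j ⟨l, z, hz, h.F5_three hz e, hr⟩

theorem Ok.isOpen_Wn (h : d.Ok) (c : K3) : IsOpen (d.Wn c) := by
  have e : d.Wn c = (d.Wo c \ d.HoleC c) ∩ {x | c = .m → x ∉ d.Kset} :=
    Set.ext fun x => Wn_iff.trans and_assoc.symm
  rw [e]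
  refine (isOpen_iff_mem_nhds.2 fun x hx => ?_).inter ?_
  · filter_upwards [(h.isOpen_Wo c).mem_nhds hx.1, h.F5_ev hx.1 hx.2] with a h1 h2 using ⟨h1, h2 h1⟩
  · by_cases hc : c = .m
    · simp only [hc, true_implies]
      exact h.isClosed_Kset.isOpen_compl
    · simp [hc]

theorem Ok.isOpen_DP (h : d.Ok) (j : J4) (l : Fin 5) : IsOpen (d.DP j l) := by
  exact (h.isOpen_Wn _).inter (isOpen_lt (h.rP_cont j l) continuous_const)

theorem Ok.Wn_act (h : d.Ok) (s : ℝ) : act s c x ∈ d.HoleC c ↔ x ∈ d.HoleC c := by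
  cases c <;> simp [HoleC, Hole, HoleF, act, tt, nuF, normSq_ee, cc_re, cc_im]

theorem F5_stl0 {a : V4} {l : L4} (h : a + rv l = a) : l = 0 := by
  funext i
  have := congrFun (add_eq_left.1 h) i
  exact Int.cast_eq_zero.1 this

theorem F5_sthalf {a : V4} {l : L4} (h : -a + rv l = a) : a = (1 / 2 : ℝ) • rv l := by
  rw [neg_add_eq_iff_eq_add.1 h]
  module

theorem Ok.stab_m (h : d.Ok) {γ : L4 × ℤ × Bool × Bool} (he : d.gm γ x = x) :
    (∀ z, d.gm γ z = z) ∨ (∃ m : L4, Even (m 3) ∧ xv x = (1 / 2 : ℝ) • rv m) ∨ x ∈ d.Kset := by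
  obtain ⟨l, n, k, e⟩ := γ
  have h1 := congrArg xv he
  have h2 := congrFun he (2, 1)
  rw [gm_xv] at h1
  cases k <;> cases e
  · obtain rfl := F5_stl0 h1
    obtain rfl : n = 0 := by simpa [gm, Dm, rv_zero, bf_zero_left] using h2
    exact Or.inl Dm_zero
  · have h3 := F5_sthalf h1
    refine Or.inr (Or.inl ⟨l, ⟨-n, ?_⟩, h3⟩)
    simp only [gm, Dm, io, cond, id, mk4_21, xv_mk4] at h2
    rw [h3, bf_neg_right, bf_smul_right, N1_m_self] at h2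
    exact_mod_cast (by linarith only [h2] : (l 3 : ℝ) = -n + -n)
  · exact Or.inr (Or.inr ⟨l, n, he⟩)
  · have h3 := congrFun (congrArg (rm d.T *ᵥ ·) h1) 2
    have h4 := congrFun h1 2
    simp only [cond, Matrix.mulVec_add, h.TTv, Matrix.mulVec_smul, h.N1_m_c, ← rv_mulVec,
      Matrix.mulVec_neg, Pi.add_apply, Pi.neg_apply, Pi.smul_apply, smul_eq_mul, rv_apply] at h3 h4
    have h5 : d.A 2 2 = ∑ j, (d.T 2 j - (1 : Z4) 2 j) * l j := by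
      have h6 : d.c 2 + l 2 = (d.T *ᵥ l) 2 := by
        exact_mod_cast (by linarith only [h3, h4] : (d.c 2 + l 2 : ℝ) = (d.T *ᵥ l) 2)
      have h7 := congrFun (Matrix.sub_mulVec d.T 1 l) 2
      rw [Matrix.one_mulVec, Pi.sub_apply, ← h6, add_sub_cancel_right] at h7
      exact h7.symm
    exact absurd (h5 ▸ Finset.even_sum _ fun j _ => (h.T_two 2 j).mul_right _)
      (Int.not_even_iff_odd.2 h.c2)

theorem stab_p {γ : L4 × ℤ × Bool} (he : d.gp γ x = x) :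
    (∀ z, d.gp γ z = z) ∨ ∃ m : L4, Odd (m 2) ∧ Even (m 3) ∧ xv x = (1 / 2 : ℝ) • rv m := by
  obtain ⟨l, n, e⟩ := γ
  have h1 := congrArg xv he
  have h2 := congrFun he (2, 1)
  rw [gp_xv] at h1
  cases e
  · obtain rfl := F5_stl0 h1
    obtain rfl : n = 0 := by simpa [gp, Dp, rv_zero, bf_zero_left] using h2
    exact Or.inl Dp_zero
  · have h3 := F5_sthalf h1
    simp only [gp, Dp, iop, cond, mk4_21, xv_mk4] at h2
    rw [h3, bf_neg_right, bf_smul_right,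
      bf_self _ (rm_skew (by rw [Matrix.transpose_sub, v_skew, E23_skew]; abel))] at h2
    have h4 : l 2 * (1 + l 3) = 2 * (-n - 1) + 1 := by
      exact_mod_cast (by linarith only [h2] : (l 2 * (1 + l 3) : ℝ) = 2 * (-n - 1) + 1)
    obtain ⟨h5, h6⟩ := Int.odd_mul.1 ⟨_, h4⟩
    exact Or.inr ⟨l, h5, by simpa [parity_simps] using h6, h3⟩

theorem stab_f {γ : ℤ × ℤ × Bool} (he : d.gf γ x = x) : (∀ z, d.gf γ z = z) ∨
    (cc 2 x = 0 ∧ ∃ m m' : ℤ, x (1, 0) = m / 2 ∧ x (1, 1) = m' / 2) := by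
  obtain ⟨s, t, e⟩ := γ
  have h1 := congrFun he (1, 0)
  have h2 := congrFun he (1, 1)
  have h3 := congrArg (cc 2) he
  cases e
  · obtain rfl : s = 0 := by simpa [gf, Df, cc_re] using h1
    obtain rfl : t = 0 := by simpa [gf, Df, cc_im] using h2
    exact Or.inl fun z => by simpa [gf] using Df_zero z
  · simp only [gf, Df, iof, psi, cond, cc_mkc1, cc_mkc2, mkc_10, mkc_11, add_re, add_im, neg_re,
      neg_im, cc_re, cc_im] at h1 h2 h3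
    have h4 : x (1, 0) = s / 2 := by linarith only [h1]
    have h5 : x (1, 1) = t / 2 := by linarith only [h2]
    rw [h4, h5, show (s : ℝ) * -(t / 2) - t * -(s / 2) = 0 by ring, mul_zero, zero_div, neg_zero,
      ee_zero, mul_one] at h3
    exact Or.inr ⟨by linear_combination -h3 / 2, s, t, h4, h5⟩

theorem Ok.Ko_near (h : d.Ok) {k : J4} {r : ℝ} (hz : z ∈ d.Ko k) : z ∉ d.Near j r .m := by
  exact h.F5_far (0, 0, false, false) (by simpa only [gm, cond_false, id, Dm_zero] using hz)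

end HD

namespace GD

variable {D : GD} {x y : E6} {p p' : Bool × K3}

theorem Ok.F5_hole (h : D.Ok) {b : Bool} (hr : D.atlO.R (b, .p) x (!b, .p) y)
    (hx : x ∈ (D.H b).HoleC .p) : y ∈ (D.H (!b)).HoleC .p := by
  have P := h.pre0_O
  have hm := P.mem hr
  rw [atlO_W, atlO_W] at hm
  obtain ⟨j, l, z, hz, hr', e⟩ := ((h.ok b).hole_iff hm.1).1 hx
  have r1 := P.trans (P.symm (R_same.2 hr')) hr
  obtain ⟨hl, -, hz1, hz2, -⟩ := h.R_cross.1 r1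
  have h3 := (h.ok b).F5_three hz e
  have key : ∀ L : L4, ∀ w, w = (D.H (!b)).Dp L 0 (D.gl b z) → (D.H (!b)).rP j l w < 8 →
      rF ((D.H (!b)).Ph j l w) ≤ max 2 (2 * tF ((D.H (!b)).Ph j l w)) →
      y ∈ (D.H (!b)).HoleC .p := fun L w hw h1 h2 => by
    have r2 : D.atlO.R (b, sP l) z (!b, sP l) w :=
      h.R_cross.2 ⟨hl, hl, hz1, hz2, (L, 0, false), hw⟩
    have := (P.mem r2).2
    rw [atlO_W] at this
    exact ((h.ok (!b)).hole_iff hm.2).2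
      ⟨j, l, w, ⟨this, h1⟩, R_same.1 (P.trans (P.symm r1) r2), h2⟩
  rcases (by decide : ∀ l, sP l = .p → l = 2 ∨ l = 3) l hl with rfl | rfl
  · obtain ⟨L, hL⟩ := h.cross_up b j
    obtain ⟨-, a1, a2⟩ := hL z hz2 hz1.2
    obtain ⟨-, a3, a4⟩ := UpR_norm a2
    refine key L _ rfl (by linarith only [hz2, h3, a1]) ?_
    rcases le_max_iff.1 e with e | e
    · exact le_max_iff.2 ((le_total 1 (tF ((D.H b).Ph j 2 z))).imp (by intro; linarith)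
        (by intro; linarith only [a3, a4, e]))
    · exact le_max_of_le_left (by linarith only [a4, e])
  · obtain ⟨L, hL⟩ := h.cross_lo b j
    obtain ⟨-, a1, a2⟩ := hL z hz2 hz1.2
    obtain ⟨a3, -, a4⟩ := h.LoR_norm a2
    have a5 := (abs_lt.1 a3).2
    have := (h.ok b).hμ
    refine key L _ rfl (by linarith only [h3, a1]) (le_max_of_le_left (a4 ▸ e.trans (max_le le_rfl ?_)))
    simp only [HD.nuF, HD.M, tF] at a5 ⊢
    linarith only [a5, this]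

theorem Ok.F5_sat (h : D.Ok) (hr : D.atlO.R p x p' y) (hy : y ∈ (D.H p'.1).Wn p'.2) :
    x ∈ (D.H p.1).Wn p.2 := by
  obtain ⟨b, c⟩ := p
  obtain ⟨b', c'⟩ := p'
  obtain rfl | rfl : b = b' ∨ b' = !b := by cases b <;> cases b' <;> simp
  · exact ((h.ok b).Wn_sat (R_same.1 hr)).2 hy
  · obtain ⟨rfl, rfl, h1, -⟩ := h.R_cross.1 hr
    exact HD.Wn_iff.2 ⟨h1, fun hh => (HD.Wn_iff.1 hy).2.1 (h.F5_hole hr hh), nofun⟩

theorem Ok.Wn_sat (h : D.Ok) (hr : D.atlO.R p x p' y) :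
    x ∈ (D.H p.1).Wn p.2 ↔ y ∈ (D.H p'.1).Wn p'.2 :=
  ⟨h.F5_sat (h.pre0_O.symm hr), h.F5_sat hr⟩

theorem Ok.pre0_N (h : D.Ok) : Pre0 D.atlN :=
  h.pre0_O.res (fun p => (h.ok p.1).isOpen_Wn p.2) fun p => by
    rw [atlO_W]; exact HD.Wn_sub _

theorem F5_cen {d : HD} (h : d.Ok) {m : L4} (h3 : Even (m 3)) (hx : xv x = (1 / 2 : ℝ) • rv m)
    (h0 : -1 < x (2, 0)) : x ∈ d.Hole := by
  refine ⟨m, h3, (Int.even_or_odd (m 2)).imp (fun k => ⟨k, ?_⟩) fun k => ⟨k, ?_⟩⟩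
  · rw [hx, sub_self, h.rho_zero', HD.tt, max_le_iff, le_max_iff, le_max_iff]
    exact ⟨Or.inl zero_le_two, (le_total _ 2).imp id fun k => by linarith only [k]⟩
  · rw [hx, sub_self, Matrix.mulVec_zero, h.rho_zero']
    exact max_le zero_le_two (by linarith only [h0, h, h.hμ])

theorem Ok.free_N (h : D.Ok) : Free D.atlN := by
  rintro ⟨b, c⟩ x hx
  have k := h.ok b
  cases c
  · refine (k.grp_m.free fun γ he => (k.stab_m he).resolve_right ?_).mono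
      fun p hp hr => hp (HD.R_mm.1 (R_same.1 hr.2.2)).2.2
    rintro (⟨m, h1, h2⟩ | h1)
    · exact hx.2 (Or.inl (F5_cen k h1 h2 (by linarith only [hx, hx.1.1])))
    · exact hx.2 (Or.inr h1)
  · refine ((HD.grp_p _).free fun γ he => (HD.stab_p he).resolve_right ?_).mono
      fun p hp hr => hp (HD.R_pp.1 (R_same.1 hr.2.2)).2.2
    rintro ⟨m, -, h1, h2⟩
    have h3 : 0 < x (2, 0) - (D.H b).μ₁ := hx.1.1
    exact hx.2 (F5_cen k h1 h2 (by linarith only [h3, k, k.hμ]))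
  · refine ((HD.grp_f _).free fun γ he => (HD.stab_f he).resolve_right ?_).mono
      fun p hp hr => hp (HD.R_ff.1 (R_same.1 hr.2.2)).2.2
    rintro ⟨h0, m, m', h1, h2⟩
    refine hx.2 ⟨m, m', ?_⟩
    simp [h0, h1, h2, HD.zy, normSq_apply]

theorem Ok.invF_N (h : D.Ok) : InvF D.atlN fun p => d1 ((D.H p.1).lam p.2) :=
  h.invF_lam.res fun p => (h.ok p.1).isOpen_Wn p.2

theorem Ok.R_N (h : D.Ok) (hx : x ∈ (D.H p.1).Wn p.2) :
    D.atlN.R p x p' y ↔ D.atlO.R p x p' y :=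
  ⟨fun hr => hr.2.2, fun hr => ⟨hx, (h.Wn_sat hr).1 hx, hr⟩⟩

end GD

end Pool.Agent.Work.MP_bf98aa_gt.B3
end
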