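import Pool.Agent.Work.MP_bf98aa_gt.B3.Ke

-- merged part: Pool.Agent.Work.MP_bf98aa_gt.B3.FC
section
/-!
The centred maps to the chart `F`: norms, fibres and images.
-/

set_option autoImplicit false

open scoped Manifold ContDiff Topology Matrix ComplexConjugate
open Set Complex Filter

namespace Pool.Agent.Work.MP_bf98aa_gt.B3

open Pool.Agent.Work.MP_bf98aa_gt.Th Pool.Agent.Work.MP_bf98aa_gt.Cy

theorem FC_ss (t : ℝ) : 0 ≤ ss t ∧ ss t ≤ 1 :=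
  ⟨Real.smoothTransition.nonneg _, Real.smoothTransition.le_one _⟩

theorem FC_ss0 {t : ℝ} (h : t ≤ 1 / 4) : ss t = 0 :=
  Real.smoothTransition.zero_of_nonpos (by linarith)

theorem FC_ss1 {t : ℝ} (h : 1 / 2 ≤ t) : ss t = 1 :=
  Real.smoothTransition.one_of_one_le (by linarith)

theorem FC_polar {r r' s s' : ℝ} (hr : 0 < r) (hr' : 0 ≤ r') (h : (r : ℂ) * ee s = r' * ee s') :
    r = r' ∧ ee s = ee s' := by
  have e : r = r' := by
    have := congrArg norm h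
    rwa [norm_mul, norm_mul, norm_ee, norm_ee, mul_one, mul_one, norm_real, norm_real,
      Real.norm_of_nonneg hr.le, Real.norm_of_nonneg hr'] at this
  subst e
  exact ⟨rfl, mul_left_cancel₀ (ofReal_ne_zero.2 hr.ne') h⟩

theorem FC_neg {s s' : ℝ} (h : ee s = ee s') : ee (-s) = ee (-s') := by
  obtain ⟨n, hn⟩ := ee_eq_iff.1 h
  exact ee_eq_iff.2 ⟨-n, by push_cast; linarith⟩

theorem FC_sq (c : ℂ) (e s : ℝ) (h0 : 0 ≤ normSq c + e) (h : c ≠ 0 ∨ e = 0) :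
    normSq (c * (√(1 + e / normSq c) : ℝ) * ee s) = normSq c + e := by
  rw [normSq_mul, normSq_mul, normSq_ee, normSq_ofReal, mul_one]
  by_cases hc : c = 0
  · rcases h with h | h
    · exact absurd hc h
    · simp [hc, h]
  · have p : 0 < normSq c := normSq_pos.2 hc
    have e1 : 1 + e / normSq c = (normSq c + e) / normSq c := by field_simp
    rw [Real.mul_self_sqrt (by rw [e1]; positivity), e1]
    field_simp

theorem FC_sq' {r : ℝ} (s : ℝ) (h : 0 ≤ r) : normSq ((√r : ℝ) * ee s) = r := by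
  rw [normSq_mul, normSq_ee, normSq_ofReal, mul_one, Real.mul_self_sqrt h]

theorem FC_scale {c : ℂ} {r e : ℝ} (hr : 0 < r) (hc : normSq c = r + e) (h0 : c ≠ 0) :
    ∃ a : ℂ, normSq a = r ∧ a * (√(1 + e / r) : ℝ) = c := by
  have p : 0 < normSq c := normSq_pos.2 h0
  have e1 : 1 + e / r = normSq c / r := by rw [hc]; field_simp
  have p1 : 0 < √(1 + e / r) := Real.sqrt_pos.2 (by rw [e1]; positivity)
  refine ⟨c / (√(1 + e / r) : ℝ), ?_, div_mul_cancel₀ _ (ofReal_ne_zero.2 p1.ne')⟩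
  rw [normSq_div, normSq_ofReal, Real.mul_self_sqrt (by rw [e1]; positivity), e1]
  field_simp

theorem FC_sqrt {c : ℂ} (hc : c ≠ 0) (e : ℝ) : √(1 + e / normSq c) = √(normSq c + e) / ‖c‖ := by
  have p : 0 < normSq c := normSq_pos.2 hc
  rw [Complex.norm_def, ← Real.sqrt_div' _ p.le]
  congr 1
  field_simp

theorem FC_cancel {c c' : ℂ} {e s s' : ℝ} (hn : normSq c = normSq c') (hs : ee s = ee s')
    (hp : c ≠ 0 → 0 < normSq c + e) (h : c * (√(1 + e / normSq c) : ℝ) * ee s =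
      c' * (√(1 + e / normSq c') : ℝ) * ee s') : c = c' := by
  by_cases hc : c = 0
  · rw [hc, normSq_zero] at hn
    rw [hc, normSq_eq_zero.1 hn.symm]
  have p : 0 < √(1 + e / normSq c) := by
    rw [FC_sqrt hc]
    exact div_pos (Real.sqrt_pos.2 (hp hc)) (norm_pos_iff.2 hc)
  rw [← hn, ← hs] at h
  exact mul_right_cancel₀ (ofReal_ne_zero.2 p.ne') (mul_right_cancel₀ (ee_ne_zero s) h)

namespace HD

variable {d : HD} {z z' y : E6} {ν q t : ℝ} {x x' : V4}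

theorem FC_al_low (h : t ≤ 0) : d.al q t = 0 := if_neg h.not_gt

theorem FC_al_pos (h : 0 < t) : d.al q t = t * (1 - ss t) * d.η (d.c₀ * q / t) := if_pos h

theorem Ok.FC_al_mem (h : d.Ok) (q t : ℝ) : 0 ≤ d.al q t ∧ d.al q t ≤ max 0 t * (1 - ss t) := by
  have s := FC_ss t
  rcases le_or_gt t 0 with ht | ht
  · rw [FC_al_low ht, max_eq_left ht]; simp
  · have e := h.hη.mem (d.c₀ * q / t)
    have p : 0 ≤ t * (1 - ss t) := mul_nonneg ht.le (by linarith)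
    rw [FC_al_pos ht, max_eq_right ht.le]
    exact ⟨mul_nonneg p e.1, mul_le_of_le_one_right p e.2⟩

theorem FC_ex_low (h : ν - d.μ₁ ≤ 0) : d.ex ν x = 0 := by
  rw [ex, FC_al_low h, shf_low (by linarith), add_zero]

theorem FC_ex_top (h : 1 / 2 ≤ ν - d.μ₁) : d.ex ν x = ν - d.μ₁ := by
  rw [ex, FC_al_pos (by linarith), FC_ss1 h, shf_high h]; ring

theorem FC_ex_kink (h : ν - d.μ₁ ≤ 1 / 4) : d.ex ν x = d.al (d.qq (x 2) (x 3)) (ν - d.μ₁) := by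
  rw [ex, shf_low h, add_zero]

theorem FC_ex_neg (ν : ℝ) (x : V4) : d.ex ν (-x) = d.ex ν x := by
  simp [ex, qq]

theorem Ok.FC_ex_mem (h : d.Ok) (ν : ℝ) (x : V4) : 0 ≤ d.ex ν x ∧ d.ex ν x ≤ max 0 (ν - d.μ₁) := by
  rcases le_or_gt (ν - d.μ₁) 0 with ht | ht
  · rw [FC_ex_low ht, max_eq_left ht]; simp
  · have a := h.FC_al_mem (d.qq (x 2) (x 3)) (ν - d.μ₁)
    have s := FC_ss (ν - d.μ₁)
    rw [max_eq_right ht.le] at a ⊢
    rw [ex, shf]
    exact ⟨add_nonneg a.1 (mul_nonneg ht.le s.1), by linarith [a.2]⟩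

theorem FC_qq_nonneg (s t : ℝ) : 0 ≤ d.qq s t := by unfold qq; positivity

theorem Ok.FC_qq_zero (h : d.Ok) {s t : ℝ} : d.qq s t = 0 ↔ s = 0 ∧ t = 0 := by
  have p := h.hσ
  refine ⟨fun e => ?_, fun e => by simp [qq, e.1, e.2]⟩
  have a : 0 ≤ d.σ ^ 2 * s ^ 2 := by positivity
  have b : 0 ≤ t ^ 2 / d.σ ^ 2 := by positivity
  unfold qq at e
  have a' : d.σ ^ 2 * s ^ 2 = 0 := by linarith
  have b' : t ^ 2 / d.σ ^ 2 = 0 := by linarith
  simp [p.ne'] at a' b'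
  exact ⟨a', b'⟩

theorem Ok.FC_ex_one (h : d.Ok) (ht : 0 < ν - d.μ₁)
    (hq : d.c₀ * d.qq (x 2) (x 3) ≤ d.M₁ * (ν - d.μ₁)) : d.ex ν x = ν - d.μ₁ := by
  rw [ex, FC_al_pos ht, h.hη.one _ ((div_le_iff₀ ht).2 hq), shf]; ring

theorem Ok.FC_ex_hi (h : d.Ok) (h1 : 1 / 8 ≤ ν - d.μ₁) (h2 : ν - d.μ₁ ≤ 9 / 8)
    (h3 : normSq (d.z1 ν x) + normSq (d.z2 ν x) ≤ 8) : d.ex ν x = ν - d.μ₁ := by
  have b := h.b2 ν (by linarith) (by unfold M; linarith) x h3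
  have p := h.hη.pos
  exact h.FC_ex_one (by linarith) (by nlinarith)

theorem Ok.FC_ex_zero (h : d.Ok) (ht : 0 < ν - d.μ₁) (hq : d.qq (x 2) (x 3) = 0) :
    d.ex ν x = ν - d.μ₁ :=
  h.FC_ex_one ht (by rw [hq, mul_zero]; exact mul_nonneg (by linarith [h.hη.pos]) ht.le)

theorem Ok.FC_kap_ge (h : d.Ok) (hν : |ν - d.μ₁| ≤ 1 / 4) : d.c₀ ≤ d.kap ν := by
  have a := abs_le.1 hν
  exact (h.b5 ν (by linarith) (by unfold M; linarith)).2

theorem Ok.FC_kap_pos (h : d.Ok) (hν : |ν - d.μ₁| ≤ 1 / 4) : 0 < d.kap ν := by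
  linarith [h.FC_kap_ge hν, h.b4]

theorem Ok.FC_normSq_g (h : d.Ok) (s t : ℝ) : normSq (⟨d.σ * s, t / d.σ⟩ : ℂ) = d.qq s t := by
  rw [normSq_mk, qq]; ring

theorem Ok.FC_normSq_z1 (h : d.Ok) (hν : |ν - d.μ₁| ≤ 1 / 4) (x : V4) :
    normSq (d.z1 ν x) = d.kap ν * d.qq (x 2) (x 3) := by
  rw [h.f1 ν hν, normSq_mul, normSq_ofReal, Real.mul_self_sqrt (h.FC_kap_pos hν).le, h.FC_normSq_g]

theorem Ok.FC_z1_ne (h : d.Ok) (hν : |ν - d.μ₁| ≤ 1 / 4) : d.z1 ν x ≠ 0 ↔ d.qq (x 2) (x 3) ≠ 0 := by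
  rw [Ne, ← normSq_eq_zero, h.FC_normSq_z1 hν, mul_eq_zero, or_iff_right (h.FC_kap_pos hν).ne']

theorem Ok.FC_hq_der (h : d.Ok) {k : ℝ} (ht : 0 < t) (q : ℝ) :
    HasDerivAt (fun q => k * q + d.al q t)
      (k + (1 - ss t) * d.c₀ * deriv d.η (d.c₀ * q / t)) q := by
  have a : HasDerivAt (fun q => d.c₀ * q / t) (d.c₀ / t) q := by
    simpa using ((hasDerivAt_id q).const_mul d.c₀).div_const t
  have b := ((h.hη.sm.differentiable (by simp) (d.c₀ * q / t)).hasDerivAt.comp q a).const_mul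
    (t * (1 - ss t))
  have c := ((hasDerivAt_id q).const_mul k).add b
  refine (c.congr_deriv (by field_simp)).congr_of_eventuallyEq (Eventually.of_forall fun q => ?_)
  simp [FC_al_pos ht]

theorem Ok.FC_hq_mono (h : d.Ok) {k : ℝ} (hk : d.c₀ ≤ k) (t : ℝ) :
    StrictMono fun q => k * q + d.al q t := by
  have c := h.b4
  rcases le_or_gt t 0 with ht | ht
  · intro a b hab
    simp only [FC_al_low ht]
    nlinarith
  · refine strictMono_of_deriv_pos fun q => ?_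
    rw [(h.FC_hq_der ht q).deriv]
    have s := FC_ss t
    have e := h.hη.der (d.c₀ * q / t)
    have p : 0 ≤ (1 - ss t) * d.c₀ := mul_nonneg (by linarith) (by linarith)
    nlinarith

theorem Ok.FC_hq_surj (h : d.Ok) {k r : ℝ} (hk : d.c₀ ≤ k) (ht : 0 < t) (h4 : t ≤ 1 / 4) (hr : t < r) :
    ∃ q, 0 < q ∧ k * q + d.al q t = r := by
  have c := h.b4
  have a0 : k * 0 + d.al 0 t = t := by
    rw [FC_al_pos ht, FC_ss0 h4, h.hη.one _ (by simpa using le_trans zero_le_one h.hη.pos)]; ring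
  have hc : ContinuousOn (fun q => k * q + d.al q t) (Icc 0 r) := fun q _ =>
    (h.FC_hq_der ht q).continuousAt.continuousWithinAt
  have a1 : r ≤ k * r + d.al r t := by nlinarith [(h.FC_al_mem r t).1]
  obtain ⟨q, hq, e⟩ := intermediate_value_Icc (by linarith) hc ⟨by rw [a0]; exact hr.le, a1⟩
  refine ⟨q, lt_of_le_of_ne hq.1 ?_, e⟩
  rintro rfl
  simp only at e
  linarith

theorem Ok.FC_hh_kink (h : d.Ok) (hν : |ν - d.μ₁| ≤ 1 / 4) (x : V4) :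
    d.hh ν x = d.kap ν * d.qq (x 2) (x 3) + d.al (d.qq (x 2) (x 3)) (ν - d.μ₁) := by
  rw [hh, h.FC_normSq_z1 hν, FC_ex_kink (abs_le.1 hν).2]

theorem Ok.FC_hh_nonneg (h : d.Ok) (ν : ℝ) (x : V4) : 0 ≤ d.hh ν x :=
  add_nonneg (normSq_nonneg _) (h.FC_ex_mem ν x).1

theorem Ok.FC_le_rho (h : d.Ok) (ν : ℝ) (x : V4) :
    normSq (d.z1 ν x) + normSq (d.z2 ν x) ≤ d.rho ν x := by
  unfold rho hh; linarith [(h.FC_ex_mem ν x).1]

theorem FC_hh_neg (ν : ℝ) (x : V4) : d.hh ν (-x) = d.hh ν x := by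
  rw [hh, hh, z1_neg, normSq_neg, FC_ex_neg]

theorem FC_rho_neg (ν : ℝ) (x : V4) : d.rho ν (-x) = d.rho ν x := by
  rw [rho, rho, FC_hh_neg, z2_neg, normSq_neg]

theorem Ok.FC_hh_ge (h : d.Ok) (hν : ν - d.μ₁ ≤ 1 / 4) (x : V4) : ν - d.μ₁ ≤ d.hh ν x := by
  rcases le_or_gt (ν - d.μ₁) 0 with ht | ht
  · linarith [h.FC_hh_nonneg ν x]
  have a : |ν - d.μ₁| ≤ 1 / 4 := abs_le.2 ⟨by linarith, hν⟩
  have m := (h.FC_hq_mono (h.FC_kap_ge a) (ν - d.μ₁)).monotone (FC_qq_nonneg (d := d) (x 2) (x 3))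
  have e := h.FC_ex_zero (x := 0) ht (h.FC_qq_zero.2 ⟨rfl, rfl⟩)
  rw [FC_ex_kink hν, (h.FC_qq_zero (s := (0 : V4) 2) (t := (0 : V4) 3)).2 ⟨rfl, rfl⟩] at e
  rw [h.FC_hh_kink a]
  linarith

theorem Ok.FC_hh_gt (h : d.Ok) (hν : ν - d.μ₁ ≤ 1 / 4) (hq : d.qq (x 2) (x 3) ≠ 0 ∨ ν - d.μ₁ < 0) :
    ν - d.μ₁ < d.hh ν x := by
  rcases lt_or_ge (ν - d.μ₁) 0 with ht | ht
  · linarith [h.FC_hh_nonneg ν x]
  have a : |ν - d.μ₁| ≤ 1 / 4 := abs_le.2 ⟨by linarith, hν⟩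
  have q0 : 0 < d.qq (x 2) (x 3) :=
    lt_of_le_of_ne (FC_qq_nonneg _ _) (hq.resolve_right ht.not_gt).symm
  have m := h.FC_hq_mono (h.FC_kap_ge a) (ν - d.μ₁) q0
  have e := h.FC_hh_ge (x := 0) hν
  rw [h.FC_hh_kink a, (h.FC_qq_zero (s := (0 : V4) 2) (t := (0 : V4) 3)).2 ⟨rfl, rfl⟩] at e
  rw [h.FC_hh_kink a]
  simp only at m
  linarith

theorem Ok.FC_hh_inj (h : d.Ok) (h4 : ν - d.μ₁ ≤ 1 / 4) (e : d.hh ν x = d.hh ν x') :
    normSq (d.z1 ν x) = normSq (d.z1 ν x') ∧ d.ex ν x = d.ex ν x' := by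
  rcases le_or_gt (ν - d.μ₁) 0 with ht | ht
  · rw [hh, hh, FC_ex_low ht, FC_ex_low ht] at e
    exact ⟨by linarith, by rw [FC_ex_low ht, FC_ex_low ht]⟩
  have hν : |ν - d.μ₁| ≤ 1 / 4 := abs_le.2 ⟨by linarith, h4⟩
  have e' := e
  rw [h.FC_hh_kink hν, h.FC_hh_kink hν] at e'
  have q := (h.FC_hq_mono (h.FC_kap_ge hν) (ν - d.μ₁)).injective e'
  rw [h.FC_normSq_z1 hν, h.FC_normSq_z1 hν, ex, ex, q]
  exact ⟨rfl, rfl⟩

theorem Ok.FC_dir_surj (h : d.Ok) (ht : 0 < ν - d.μ₁) (h4 : ν - d.μ₁ ≤ 1 / 4) {r e : ℝ} {c : ℂ}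
    (hr : ν - d.μ₁ < r) (hc : normSq c = r - e) (h0 : c ≠ 0) (b : ℂ) :
    ∃ x, d.z2 ν x = b ∧ d.hh ν x = r ∧ d.qq (x 2) (x 3) ≠ 0 ∧
      d.z1 ν x * (√(1 + (d.ex ν x - e) / normSq (d.z1 ν x)) : ℝ) = c := by
  have a : |ν - d.μ₁| ≤ 1 / 4 := abs_le.2 ⟨by linarith, h4⟩
  have k := h.FC_kap_pos a
  obtain ⟨q, q0, hq⟩ := h.FC_hq_surj (h.FC_kap_ge a) ht h4 hr
  obtain ⟨w, w1, w2⟩ := FC_scale (r := d.kap ν * q) (e := d.al q (ν - d.μ₁) - e) (mul_pos k q0)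
    (by linarith) h0
  obtain ⟨x, x1, x2⟩ := h.z_surj (ν := ν)
    (abs_le.2 ⟨by unfold M; linarith [h.hμ], by unfold M; linarith⟩) w b
  have e1 : d.qq (x 2) (x 3) = q := by
    have := h.FC_normSq_z1 a x
    rw [x1, w1] at this
    exact (mul_left_cancel₀ k.ne' this).symm
  refine ⟨x, x2, by rw [h.FC_hh_kink a, e1, hq], by rw [e1]; exact q0.ne', ?_⟩
  rw [FC_ex_kink h4, e1, x1, w1, w2]

theorem FC_tF_nuF (y : E6) : d.nuF y = d.μ₁ + tF y := by unfold nuF tF; ring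

theorem Ok.FC_CL_lev (h : d.Ok) (hz : z ∈ d.CL) : |z (2, 0)| ≤ d.M + 1 / 8 := by
  have a := hz.1
  have b := hz.2.1
  unfold tt at b
  exact abs_le.2 ⟨by linarith, by unfold M; linarith⟩

theorem Ok.FC_CL_gt (h : d.Ok) (hz : z ∈ d.CL) : d.tt z < d.hh (z (2, 0)) (xv z) :=
  h.FC_hh_gt (le_trans hz.2.1.le (by norm_num)) hz.2.2

theorem Ok.FC_CL_z1 (h : d.Ok) (hz : z ∈ d.CL) :
    d.z1 (z (2, 0)) (xv z) ≠ 0 ∨ d.ex (z (2, 0)) (xv z) = 0 := by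
  rcases le_or_gt (d.tt z) 0 with ht | ht
  · exact .inr (FC_ex_low ht)
  · have b := hz.2.1
    exact .inl ((h.FC_z1_ne (abs_le.2 ⟨by unfold tt at ht; linarith, by unfold tt at b; linarith⟩)).2
      (hz.2.2.resolve_right ht.not_gt))

theorem Ok.FC_normSq_wL (h : d.Ok) (hz : z ∈ d.CL) : normSq (d.wL z) = d.hh (z (2, 0)) (xv z) :=
  FC_sq _ _ _ (h.FC_hh_nonneg _ _) (h.FC_CL_z1 hz)

theorem Ok.FC_normSq_uL (h : d.Ok) (hz : z ∈ d.CL) :
    normSq (d.uL z) = d.hh (z (2, 0)) (xv z) - d.tt z :=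
  FC_sq' _ (sub_nonneg.2 (h.FC_CL_gt hz).le)

theorem Ok.FC_uL_ne (h : d.Ok) (hz : z ∈ d.CL) : d.uL z ≠ 0 :=
  normSq_pos.1 (by rw [h.FC_normSq_uL hz]; exact sub_pos.2 (h.FC_CL_gt hz))

theorem Ok.FC_tF_lowF (h : d.Ok) (hz : z ∈ d.CL) : tF (d.lowF z) = d.tt z := by
  simp only [tF, lowF, cc_mkc0, cc_mkc2, h.FC_normSq_wL hz, h.FC_normSq_uL hz]; ring

theorem Ok.FC_nuF_lowF (h : d.Ok) (hz : z ∈ d.CL) : d.nuF (d.lowF z) = z (2, 0) := by
  rw [FC_tF_nuF, h.FC_tF_lowF hz, tt]; ring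

theorem Ok.FC_rF_lowF (h : d.Ok) (hz : z ∈ d.CL) : rF (d.lowF z) = d.rho (z (2, 0)) (xv z) := by
  simp only [rF, lowF, cc_mkc1, cc_mkc2, h.FC_normSq_wL hz, rho]

theorem FC_ph (h1 : xv z' = xv z) (h2 : z' (2, 0) = z (2, 0)) :
    ee (d.phH z') = ee (d.phH z) ↔ ∃ n : ℤ, z' (2, 1) = z (2, 1) + n := by
  rw [ee_eq_iff, phH, phH, h1, h2]
  exact exists_congr fun n => ⟨fun e => by linarith, fun e => by linarith⟩

theorem Ok.FC_lowF_iff (h : d.Ok) (hz : z ∈ d.CL) (hz' : z' ∈ d.CL) : d.lowF z = d.lowF z' ↔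
    xv z' = xv z ∧ z' (2, 0) = z (2, 0) ∧ ∃ n : ℤ, z' (2, 1) = z (2, 1) + n := by
  refine ⟨fun e => ?_, fun ⟨h1, h2, h3⟩ => ?_⟩
  · have l : z' (2, 0) = z (2, 0) := by rw [← h.FC_nuF_lowF hz, e, h.FC_nuF_lowF hz']
    have e0 : d.uL z = d.uL z' := congrArg (cc 0) e
    have e1 : d.z2 _ _ = d.z2 _ _ := congrArg (cc 1) e
    have e2 : d.wL z = d.wL z' := congrArg (cc 2) e
    have a := h.FC_normSq_wL hz
    rw [e2, h.FC_normSq_wL hz', l] at a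
    have p := (FC_polar (Real.sqrt_pos.2 (sub_pos.2 (h.FC_CL_gt hz))) (Real.sqrt_nonneg _) e0).2
    have p' := FC_neg p
    rw [neg_neg, neg_neg] at p'
    obtain ⟨n, x⟩ := h.FC_hh_inj (le_trans hz.2.1.le (by norm_num)) a.symm
    rw [wL, wL, l, ← x] at e2
    rw [l] at e1
    have c := FC_cancel n p' (fun c => add_pos_of_pos_of_nonneg (normSq_pos.2 c) (h.FC_ex_mem _ _).1) e2
    have X := (h.z_inj (h.FC_CL_lev hz) c e1).symm
    exact ⟨X, l, (FC_ph X l).1 p'.symm⟩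
  · have p := (FC_ph (d := d) h1 h2).2 h3
    simp only [lowF, uL, wL, tt, h1, h2, p, FC_neg p]

theorem Ok.FC_lowF_io (h : d.Ok) (z : E6) : d.lowF (io z) = iof (d.lowF z) := by
  simp [lowF, iof, io, uL, wL, tt, phH, FC_hh_neg, FC_ex_neg, z1_neg, z2_neg, h.Hh_neg]

theorem FC_lowF_act (s : ℝ) (z : E6) : d.lowF (act s .m z) = act s .f (d.lowF z) := by
  have e : d.phH (act s .m z) = d.phH z + s := by simp [phH, act]; ring
  simp only [lowF, uL, wL, e, neg_add, ee_add]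
  simp [act, tt, mul_assoc]

theorem Ok.FC_lowF_surj (h : d.Ok) (h0 : cc 0 y ≠ 0) (h1 : -d.M - 1 / 8 < d.nuF y) (h2 : tF y < 1 / 8) :
    ∃ z ∈ d.CL, d.lowF z = y := by
  obtain ⟨s, hs⟩ := exists_ee (cc 0 y)
  have t0 : d.nuF y - d.μ₁ = tF y := by rw [FC_tF_nuF]; ring
  have p := normSq_pos.2 h0
  have n : normSq (cc 2 y * ee s) = normSq (cc 2 y) := by rw [normSq_mul, normSq_ee, mul_one]
  obtain ⟨x, x2, x0, xq, x1⟩ : ∃ x, d.z2 (d.nuF y) x = cc 1 y ∧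
      d.hh (d.nuF y) x = normSq (cc 2 y) ∧ (d.qq (x 2) (x 3) ≠ 0 ∨ tF y < 0) ∧ d.z1 (d.nuF y) x *
        (√(1 + d.ex (d.nuF y) x / normSq (d.z1 (d.nuF y) x)) : ℝ) = cc 2 y * ee s := by
    rcases le_or_gt (tF y) 0 with ht | ht
    · obtain ⟨x, x1, x2⟩ := h.z_surj (ν := d.nuF y)
        (abs_le.2 ⟨by linarith, by unfold M; linarith⟩) (cc 2 y * ee s) (cc 1 y)
      have e : d.ex (d.nuF y) x = 0 := FC_ex_low (by linarith)
      refine ⟨x, x2, by rw [hh, e, x1, n, add_zero], ?_, by simp [e, x1]⟩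
      refine ht.lt_or_eq.symm.imp (fun e0 => ?_) id
      refine (h.FC_z1_ne (ν := d.nuF y) (by rw [t0, e0]; norm_num)).1 ?_
      rw [x1, ← normSq_pos, n]
      unfold tF at e0
      linarith
    · have w : 0 < normSq (cc 2 y) := by unfold tF at ht; linarith
      obtain ⟨x, a, b, c, e⟩ := h.FC_dir_surj (ν := d.nuF y) (r := normSq (cc 2 y)) (e := 0)
        (c := cc 2 y * ee s) (by linarith) (by linarith) (by rw [t0]; unfold tF; linarith)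
        (by rw [n, sub_zero]) (by rwa [← normSq_pos, n]) (cc 1 y)
      exact ⟨x, a, b, .inl c, by rwa [sub_zero] at e⟩
  have e : d.phH (mk4 x (d.nuF y) (-s - d.Hh (d.nuF y) x)) = -s := by simp [phH]
  refine ⟨mk4 x (d.nuF y) (-s - d.Hh (d.nuF y) x), ⟨h1, by simp only [tt, mk4_20]; linarith,
    by simpa only [tt, mk4_20, mk4_10, mk4_11, t0] using xq⟩, extc ?_ x2 ?_⟩
  · simp only [lowF, cc_mkc0, uL, e, tt, mk4_20, xv_mk4, x0, t0, neg_neg]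
    rw [show normSq (cc 2 y) - tF y = normSq (cc 0 y) by unfold tF; ring, ← Complex.norm_def, ← hs]
  · simp only [lowF, cc_mkc2, wL, e, mk4_20, xv_mk4, x1]
    rw [mul_assoc, ee_mul_neg, mul_one]

theorem Ok.FC_CU_lev (h : d.Ok) (hz : z ∈ d.CU) : |z (2, 0)| ≤ d.M + 1 / 8 := by
  have a := hz.1
  have b := hz.2.1
  unfold tt at a b
  exact abs_le.2 ⟨by unfold M; linarith [h.hμ], by unfold M; linarith⟩

theorem Ok.FC_CU_hi (h : d.Ok) (hz : z ∈ d.CU) (ht : 1 / 4 ≤ d.tt z) :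
    d.ex (z (2, 0)) (xv z) = d.tt z :=
  h.FC_ex_hi (le_trans (by norm_num) ht) hz.2.1.le
    ((h.FC_le_rho _ _).trans (hz.2.2.resolve_left ht.not_gt).le)

theorem Ok.FC_CU_z1 (h : d.Ok) (hz : z ∈ d.CU) (h0 : d.z1 (z (2, 0)) (xv z) = 0) :
    d.ex (z (2, 0)) (xv z) = d.tt z := by
  rcases le_or_gt (1 / 4) (d.tt z) with ht | ht
  · exact h.FC_CU_hi hz ht
  · refine h.FC_ex_zero hz.1 (by_contra fun c => ?_)
    exact (h.FC_z1_ne (abs_le.2 ⟨le_trans (by norm_num) hz.1.le, ht.le⟩)).2 c h0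

theorem Ok.FC_CU_gt (h : d.Ok) (hz : z ∈ d.CU) (h0 : d.z1 (z (2, 0)) (xv z) ≠ 0) :
    d.tt z < d.hh (z (2, 0)) (xv z) := by
  rcases le_or_gt (1 / 4) (d.tt z) with ht | ht
  · rw [hh, h.FC_CU_hi hz ht]; linarith [normSq_pos.2 h0]
  · exact h.FC_hh_gt ht.le
      (.inl ((h.FC_z1_ne (abs_le.2 ⟨le_trans (by norm_num) hz.1.le, ht.le⟩)).1 h0))

theorem Ok.FC_CU_ge (h : d.Ok) (hz : z ∈ d.CU) : d.tt z ≤ d.hh (z (2, 0)) (xv z) := by
  by_cases h0 : d.z1 (z (2, 0)) (xv z) = 0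
  · rw [hh, h.FC_CU_z1 hz h0]; linarith [normSq_nonneg (d.z1 (z (2, 0)) (xv z))]
  · exact (h.FC_CU_gt hz h0).le

theorem FC_uU_eq (z : E6) : d.uU z = d.z1 (z (2, 0)) (xv z) *
    (√(1 + (d.ex (z (2, 0)) (xv z) - d.tt z) / normSq (d.z1 (z (2, 0)) (xv z))) : ℝ) *
      ee (-d.phH z) := by
  rw [uU]; congr 4; ring

theorem Ok.FC_normSq_wU (h : d.Ok) (z : E6) : normSq (d.wU z) = d.hh (z (2, 0)) (xv z) :=
  FC_sq' _ (h.FC_hh_nonneg _ _)

theorem Ok.FC_normSq_uU (h : d.Ok) (hz : z ∈ d.CU) :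
    normSq (d.uU z) = d.hh (z (2, 0)) (xv z) - d.tt z := by
  have a := h.FC_CU_ge hz
  rw [FC_uU_eq, FC_sq _ _ _ (by unfold hh at a; linarith)
    ((ne_or_eq _ _).imp id fun e => by rw [h.FC_CU_z1 hz e, sub_self]), hh]
  ring

theorem Ok.FC_wU_ne (h : d.Ok) (hz : z ∈ d.CU) : d.wU z ≠ 0 :=
  normSq_pos.1 (by rw [h.FC_normSq_wU]; exact hz.1.trans_le (h.FC_CU_ge hz))

theorem Ok.FC_tF_uppF (h : d.Ok) (hz : z ∈ d.CU) : tF (d.uppF z) = d.tt z := by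
  simp only [tF, uppF, cc_mkc0, cc_mkc2, h.FC_normSq_wU, h.FC_normSq_uU hz]; ring

theorem Ok.FC_nuF_uppF (h : d.Ok) (hz : z ∈ d.CU) : d.nuF (d.uppF z) = z (2, 0) := by
  rw [FC_tF_nuF, h.FC_tF_uppF hz, tt]; ring

theorem Ok.FC_rF_uppF (h : d.Ok) (z : E6) : rF (d.uppF z) = d.rho (z (2, 0)) (xv z) := by
  simp only [rF, uppF, cc_mkc1, cc_mkc2, h.FC_normSq_wU, rho]

theorem Ok.FC_uppF_iff (h : d.Ok) (hz : z ∈ d.CU) (hz' : z' ∈ d.CU) : d.uppF z = d.uppF z' ↔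
    xv z' = xv z ∧ z' (2, 0) = z (2, 0) ∧ ∃ n : ℤ, z' (2, 1) = z (2, 1) + n := by
  refine ⟨fun e => ?_, fun ⟨h1, h2, h3⟩ => ?_⟩
  · have l : z' (2, 0) = z (2, 0) := by rw [← h.FC_nuF_uppF hz, e, h.FC_nuF_uppF hz']
    have l' : d.tt z' = d.tt z := by rw [tt, tt, l]
    have e0 : d.uU z = d.uU z' := congrArg (cc 0) e
    have e1 : d.z2 _ _ = d.z2 _ _ := congrArg (cc 1) e
    have e2 : d.wU z = d.wU z' := congrArg (cc 2) e
    have a := h.FC_normSq_wU z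
    rw [e2, h.FC_normSq_wU, l] at a
    have p := (FC_polar (Real.sqrt_pos.2 (hz.1.trans_le (h.FC_CU_ge hz))) (Real.sqrt_nonneg _) e2).2
    obtain ⟨n, x⟩ : normSq (d.z1 (z (2, 0)) (xv z)) = normSq (d.z1 (z (2, 0)) (xv z')) ∧
        d.ex (z (2, 0)) (xv z) = d.ex (z (2, 0)) (xv z') := by
      rcases le_or_gt (d.tt z) (1 / 4) with ht | ht
      · exact h.FC_hh_inj ht a.symm
      · have b := h.FC_CU_hi hz ht.le
        have b' := h.FC_CU_hi hz' (l' ▸ ht.le)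
        rw [l, l'] at b'
        unfold hh at a
        exact ⟨by linarith, by linarith⟩
    rw [FC_uU_eq, FC_uU_eq, l, l', ← x] at e0
    rw [l] at e1
    have c := FC_cancel n (FC_neg p) (fun c => by have := h.FC_CU_gt hz c; unfold hh at this; linarith) e0
    have X := (h.z_inj (h.FC_CU_lev hz) c e1).symm
    exact ⟨X, l, (FC_ph X l).1 p.symm⟩
  · have p := (FC_ph (d := d) h1 h2).2 h3
    simp only [uppF, uU, wU, tt, h1, h2, p, FC_neg p]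

theorem Ok.FC_uppF_iop (h : d.Ok) (z : E6) : d.uppF (iop z) = iof (d.uppF z) := by
  have e : d.phH (iop z) = d.phH z + 1 / 2 := by simp [phH, iop, h.Hh_neg]; ring
  have e' : ee (-(1 / 2)) = -1 := by
    have := ee_mul_neg (1 / 2)
    rw [ee_half] at this
    linear_combination -this
  simp only [uppF, uU, wU, e, neg_add, ee_add, ee_half, e']
  simp [iof, iop, tt, FC_hh_neg, FC_ex_neg, z1_neg, z2_neg]

theorem FC_uppF_act (s : ℝ) (z : E6) : d.uppF (act s .p z) = act s .f (d.uppF z) := by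
  have e : d.phH (act s .p z) = d.phH z + s := by simp [phH, act]; ring
  simp only [uppF, uU, wU, e, neg_add, ee_add]
  simp [act, tt, mul_assoc]

theorem Ok.FC_uppF_surj (h : d.Ok) (h0 : 0 < tF y) (h1 : tF y < 9 / 8) (h2 : tF y < 1 / 4 ∨ rF y < 8) :
    ∃ z ∈ d.CU, d.uppF z = y := by
  obtain ⟨s, hs⟩ := exists_ee (cc 2 y)
  have t0 : d.nuF y - d.μ₁ = tF y := by rw [FC_tF_nuF]; ring
  have n : normSq (cc 0 y * ee s) = normSq (cc 2 y) - tF y := by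
    rw [normSq_mul, normSq_ee, tF]; ring
  obtain ⟨x, x2, x0, x1⟩ : ∃ x, d.z2 (d.nuF y) x = cc 1 y ∧
      d.hh (d.nuF y) x = normSq (cc 2 y) ∧ d.z1 (d.nuF y) x *
        (√(1 + (d.ex (d.nuF y) x - tF y) / normSq (d.z1 (d.nuF y) x)) : ℝ) = cc 0 y * ee s := by
    by_cases c : tF y < 1 / 4 ∧ cc 0 y ≠ 0
    · obtain ⟨x, a, b, -, e⟩ := h.FC_dir_surj (ν := d.nuF y) (r := normSq (cc 2 y)) (e := tF y)
        (c := cc 0 y * ee s) (by linarith) (by linarith)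
        (by rw [t0]; unfold tF; linarith [normSq_pos.2 c.2]) n (mul_ne_zero c.2 (ee_ne_zero s))
        (cc 1 y)
      exact ⟨x, a, b, e⟩
    · obtain ⟨x, x1, x2⟩ := h.z_surj (ν := d.nuF y)
        (abs_le.2 ⟨by unfold M; linarith [h.hμ], by unfold M; linarith⟩) (cc 0 y * ee s) (cc 1 y)
      have e : d.ex (d.nuF y) x = tF y := by
        rw [← t0]
        rcases lt_or_ge (tF y) (1 / 4) with ht | ht
        · refine h.FC_ex_zero (by linarith) (by_contra fun q => ?_)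
          refine (h.FC_z1_ne (ν := d.nuF y) (abs_le.2 ⟨by linarith, by linarith⟩)).2 q ?_
          rw [x1, not_not.1 (not_and.1 c ht), zero_mul]
        · have r := h2.resolve_left ht.not_gt
          refine h.FC_ex_hi (by linarith) (by linarith) ?_
          rw [x1, x2, n]
          unfold rF at r
          linarith
      exact ⟨x, x2, by rw [hh, e, x1, n]; ring, by simp [e, x1]⟩
  have e : d.phH (mk4 x (d.nuF y) (s - d.Hh (d.nuF y) x)) = s := by simp [phH]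
  refine ⟨mk4 x (d.nuF y) (s - d.Hh (d.nuF y) x), ⟨by simp only [tt, mk4_20]; linarith,
    by simp only [tt, mk4_20]; linarith, ?_⟩, extc ?_ x2 ?_⟩
  · simpa only [tt, mk4_20, xv_mk4, t0, rho, x0, x2, rF] using h2
  · simp only [uppF, cc_mkc0, FC_uU_eq, e, tt, mk4_20, xv_mk4, t0, x1]
    rw [mul_assoc, ee_mul_neg, mul_one]
  · simp only [uppF, cc_mkc2, wU, e, mk4_20, xv_mk4, x0]
    rw [← Complex.norm_def, ← hs]

theorem Ok.FC_low_upp (h : d.Ok) (hz : z ∈ d.CL) (hz' : z' ∈ d.CU) : d.lowF z = d.uppF z' ↔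
    xv z' = xv z ∧ z' (2, 0) = z (2, 0) ∧
      ee (z' (2, 1)) * ‖d.z1 (z (2, 0)) (xv z)‖ = ee (z (2, 1)) * d.z1 (z (2, 0)) (xv z) := by
  have key : z' (2, 0) = z (2, 0) → d.z1 (z (2, 0)) (xv z) ≠ 0 := fun l => by
    have a := hz'.1
    have b := hz.2.1
    unfold tt at a b
    rw [l] at a
    exact (h.FC_z1_ne (abs_le.2 ⟨by linarith, by linarith⟩)).2 (hz.2.2.resolve_right a.not_gt)
  have g := h.FC_CL_gt hz
  refine ⟨fun e => ?_, fun ⟨h1, h2, h3⟩ => ?_⟩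
  · have l : z' (2, 0) = z (2, 0) := by rw [← h.FC_nuF_lowF hz, e, h.FC_nuF_uppF hz']
    have l' : d.tt z' = d.tt z := by rw [tt, tt, l]
    have c := key l
    have c' : (‖d.z1 (z (2, 0)) (xv z)‖ : ℂ) ≠ 0 := ofReal_ne_zero.2 (norm_ne_zero_iff.2 c)
    have e0 : d.uL z = d.uU z' := congrArg (cc 0) e
    have e1 : d.z2 _ _ = d.z2 _ _ := congrArg (cc 1) e
    have e2 : d.wL z = d.wU z' := congrArg (cc 2) e
    have a := h.FC_normSq_wL hz
    rw [e2, h.FC_normSq_wU, l] at a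
    obtain ⟨n, x⟩ := h.FC_hh_inj (le_trans hz.2.1.le (by norm_num)) a.symm
    have t0 : 0 < d.tt z := l' ▸ hz'.1
    rw [FC_uU_eq, uL, l, l', ← x, ← n, FC_sqrt c, ← add_sub_assoc, ← hh, ofReal_div] at e0
    rw [wL, wU, l, a, FC_sqrt c, ← hh, ofReal_div] at e2
    rw [l] at e1
    have s0 : ((√(d.hh (z (2, 0)) (xv z) - d.tt z) : ℝ) : ℂ) ≠ 0 :=
      ofReal_ne_zero.2 (Real.sqrt_pos.2 (by linarith)).ne'
    have s2 : ((√(d.hh (z (2, 0)) (xv z)) : ℝ) : ℂ) ≠ 0 :=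
      ofReal_ne_zero.2 (Real.sqrt_pos.2 (by linarith)).ne'
    field_simp at e0 e2
    have u := ee_mul_neg (d.phH z)
    have u' := ee_mul_neg (d.phH z')
    have X : xv z = xv z' := h.z_inj (h.FC_CL_lev hz) (mul_right_cancel₀ (ee_ne_zero (d.phH z)) (by
      linear_combination e2 + ee (d.phH z) * ee (d.phH z') * e0 -
        ‖d.z1 (z (2, 0)) (xv z)‖ * ee (d.phH z') * u +
          d.z1 (z (2, 0)) (xv z') * ee (d.phH z) * u')) e1
    refine ⟨X.symm, l, mul_right_cancel₀ (ee_ne_zero (d.Hh (z (2, 0)) (xv z))) ?_⟩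
    rw [phH, phH, l, ← X, ee_add, ee_add] at e2
    linear_combination -e2
  · have c := key h2
    have c' : (‖d.z1 (z (2, 0)) (xv z)‖ : ℂ) ≠ 0 := ofReal_ne_zero.2 (norm_ne_zero_iff.2 c)
    have p : ee (d.phH z') * ‖d.z1 (z (2, 0)) (xv z)‖ = ee (d.phH z) * d.z1 (z (2, 0)) (xv z) := by
      rw [phH, phH, h1, h2, ee_add, ee_add]
      linear_combination ee (d.Hh (z (2, 0)) (xv z)) * h3
    have u := ee_mul_neg (d.phH z)
    have u' := ee_mul_neg (d.phH z')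
    refine extc ?_ (by simp only [lowF, uppF, cc_mkc1, h1, h2]) ?_
    · simp only [lowF, uppF, cc_mkc0, uL, FC_uU_eq, tt, h1, h2]
      rw [FC_sqrt c, ← add_sub_assoc, ← hh, ofReal_div]
      field_simp
      linear_combination (√(d.hh (z (2, 0)) (xv z) - (z (2, 0) - d.μ₁)) : ℝ) *
        (ee (-d.phH z) * ee (-d.phH z') * p - ee (-d.phH z) * ‖d.z1 (z (2, 0)) (xv z)‖ * u' +
          d.z1 (z (2, 0)) (xv z) * ee (-d.phH z') * u)
    · simp only [lowF, uppF, cc_mkc2, wL, wU, h1, h2]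
      rw [FC_sqrt c, ← hh, ofReal_div]
      field_simp
      linear_combination -(√(d.hh (z (2, 0)) (xv z)) : ℝ) * p

theorem FC_zy_neg (ν s t : ℝ) : d.zy ν (-s) (-t) = -d.zy ν s t := by
  apply Complex.ext <;> simp [zy] <;> ring

theorem FC_zy_add (ν s t s' t' : ℝ) : d.zy ν (s + s') (t + t') = d.zy ν s t + d.zy ν s' t' := by
  apply Complex.ext <;> simp [zy] <;> ring

theorem Ok.FC_zy_c (h : d.Ok) (hν : |ν - d.μ₁| ≤ 1 / 4) : 0 < √(Real.pi * d.b ν / d.Y.det) :=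
  Real.sqrt_pos.2 (div_pos (mul_pos Real.pi_pos (h.b_pos hν)) h.hY)

theorem Ok.FC_zy_inj (h : d.Ok) (hν : |ν - d.μ₁| ≤ 1 / 4) {s t s' t' : ℝ}
    (e : d.zy ν s t = d.zy ν s' t') : s = s' ∧ t = t' := by
  have e' := mul_left_cancel₀ (ofReal_ne_zero.2 (h.FC_zy_c hν).ne') e
  have a := congrArg re e'
  have b := congrArg im e'
  have c := h.hY.ne'
  rw [Matrix.det_fin_two] at c
  exact ⟨mul_left_cancel₀ c (by linear_combination d.Y 1 1 * a - d.Y 0 1 * b),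
    mul_left_cancel₀ c (by linear_combination d.Y 0 0 * b - d.Y 1 0 * a)⟩

theorem Ok.FC_zy_surj (h : d.Ok) (hν : |ν - d.μ₁| ≤ 1 / 4) (c : ℂ) : ∃ s t, d.zy ν s t = c := by
  have p := (h.FC_zy_c hν).ne'
  have q := h.hY.ne'
  refine ⟨(d.Y 1 1 * c.re - d.Y 0 1 * c.im) / (d.Y.det * √(Real.pi * d.b ν / d.Y.det)),
    (d.Y 0 0 * c.im - d.Y 1 0 * c.re) / (d.Y.det * √(Real.pi * d.b ν / d.Y.det)), ?_⟩
  unfold zy
  generalize √(Real.pi * d.b ν / d.Y.det) = r at p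
  apply Complex.ext <;> simp only [re_ofReal_mul, im_ofReal_mul] <;> field_simp <;>
    rw [Matrix.det_fin_two] <;> ring

theorem FC_tF_fF (y : E6) : tF (d.fF y) = tF y := rfl

theorem FC_nuF_fF (y : E6) : d.nuF (d.fF y) = d.nuF y := rfl

theorem FC_fF_iof (y : E6) : d.fF (iof y) = iof (d.fF y) := by
  simp [fF, iof, nuF, cc_re, cc_im, FC_zy_neg]

theorem FC_fF_act (s : ℝ) (y : E6) : d.fF (act s .f y) = act s .f (d.fF y) := by
  simp [fF, act, nuF, cc_re, cc_im, normSq_ee]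

theorem Ok.FC_fF_inj (h : d.Ok) (hy : |tF y| ≤ 1 / 4) (e : d.fF y = d.fF z) : y = z := by
  have l : d.nuF y = d.nuF z := by rw [← FC_nuF_fF, e, FC_nuF_fF]
  have e1 : d.zy _ _ _ = d.zy _ _ _ := congrArg (cc 1) e
  rw [← l] at e1
  obtain ⟨a, b⟩ := h.FC_zy_inj (by rwa [FC_tF_nuF, add_sub_cancel_left]) e1
  exact extc (congrArg (cc 0) e :) (Complex.ext a b) (congrArg (cc 2) e :)

theorem Ok.FC_fF_surj (h : d.Ok) (hy : |tF y| ≤ 1 / 4) :
    ∃ z, cc 0 z = cc 0 y ∧ cc 2 z = cc 2 y ∧ d.fF z = y := by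
  obtain ⟨s, t, e⟩ := h.FC_zy_surj (ν := d.nuF y) (by rwa [FC_tF_nuF, add_sub_cancel_left]) (cc 1 y)
  exact ⟨mkc (cc 0 y) ⟨s, t⟩ (cc 2 y), rfl, rfl, extc rfl e rfl⟩

theorem Ok.FC_fF_omf (h : d.Ok) (hz : z ∈ d.CL) (ht : |d.tt z| ≤ 1 / 4) :
    d.fF (d.omf z) = d.lowF z := by
  have l : d.nuF (d.omf z) = z (2, 0) := h.FC_nuF_lowF hz
  refine extc rfl ?_ rfl
  simp only [fF, lowF, cc_mkc1, l, h.f2 _ ht]
  rfl

theorem FC_xv_pu (z : E6) : xv (d.pu z) = xv z := xv_mk4 _ _ _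

theorem FC_pu_mem : d.pu z ∈ d.CU ↔ z ∈ d.CU := by
  simp only [CU, mem_ofPred_eq, tt, FC_xv_pu]
  rfl

theorem Ok.FC_fF_opf (h : d.Ok) (hz : z ∈ d.CU) (ht : |d.tt z| ≤ 1 / 4) :
    d.fF (d.opf z) = d.uppF (d.pu z) := by
  have l : d.nuF (d.opf z) = z (2, 0) := h.FC_nuF_uppF (FC_pu_mem.2 hz)
  refine extc rfl ?_ rfl
  simp only [fF, uppF, cc_mkc1, l, FC_xv_pu]
  exact (h.f2 _ ht _).symm

end HD

end Pool.Agent.Work.MP_bf98aa_gt.B3
end

-- merged part: Pool.Agent.Work.MP_bf98aa_gt.B3.FD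
section
/-!
The centred maps to the chart `F` are smooth and symplectic.
-/

set_option autoImplicit false

open scoped Manifold ContDiff Topology Matrix ComplexConjugate
open Set Complex Filter

namespace Pool.Agent.Work.MP_bf98aa_gt.B3

open Pool.Agent.Work.MP_bf98aa_gt.Th Pool.Agent.Work.MP_bf98aa_gt.Cy

theorem FD_co (i : Cx) : ContDiff ℝ ∞ fun z : E6 => z i := (dc i).contDiff

theorem FD_lf {a : E6 → V4} (ha : ContDiff ℝ ∞ a) : ContDiff ℝ ∞ fun z => lf (a z) := by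
  have c : ∀ i, ContDiff ℝ ∞ fun z => a z i := contDiff_pi.1 ha
  unfold lf
  exact ((((c 0).smul contDiff_const).add ((c 1).smul contDiff_const)).add
    ((c 2).smul contDiff_const)).add ((c 3).smul contDiff_const)

theorem FD_lamO {Ω : ℝ → M4} (h : ∀ i j, ContDiff ℝ ∞ fun s => Ω s i j) :
    ContDiff ℝ ∞ (lamO Ω) := by
  refine ((FD_co _).smul contDiff_const).add (ContDiff.const_smul _ (FD_lf ?_))
  refine contDiff_pi.2 fun j => ?_
  simp only [Matrix.vecMul, dotProduct]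
  exact ContDiff.sum fun i _ => (contDiff_pi.1 contDiff_xv i).mul ((h i j).comp (FD_co _))

theorem FD_lamS : ContDiff ℝ ∞ lamS :=
  ((contDiff_rot1 0).add (contDiff_rot1 1)).add (contDiff_rot1 2)

theorem FD_pb {f : E6 → E6} {z : E6} (hf : DifferentiableAt ℝ f z) : pb1 f lamS z =
    ang (fun y => cc 0 (f y)) z + ang (fun y => cc 1 (f y)) z + ang (fun y => cc 2 (f y)) z := by
  rw [← pb1_rot1 0 hf, ← pb1_rot1 1 hf, ← pb1_rot1 2 hf]
  rfl

theorem FD_polar {r θ : E6 → ℝ} {z : E6} (hr : DifferentiableAt ℝ r z)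
    (hθ : DifferentiableAt ℝ θ z) :
    ang (fun y => (r y : ℂ) * ee (θ y)) z = r z ^ 2 • fderiv ℝ θ z := by
  have := ang_polar (g := fun _ => 1) (differentiableAt_const _) hr hθ
  simpa [ang_const] using this

theorem FD_contDiff_rq : ContDiff ℝ ∞ HD.rq :=
  ((FD_co _).smul contDiff_const).sub ((FD_co _).smul contDiff_const)

namespace HD

variable {d : HD} {z y : E6}

theorem FD_contDiff_tt (d : HD) : ContDiff ℝ ∞ d.tt := (FD_co _).sub contDiff_const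

theorem FD_contDiff_qqE (d : HD) : ContDiff ℝ ∞ fun z : E6 => d.qq (z (1, 0)) (z (1, 1)) :=
  (contDiff_const.mul ((FD_co _).pow 2)).add (((FD_co _).pow 2).div_const _)

theorem FD_contDiff_Om0 (d : HD) (i j : Fin 4) : ContDiff ℝ ∞ fun s => d.Om0 s i j := by
  simp only [Om0, Matrix.add_apply, Matrix.smul_apply, smul_eq_mul]
  fun_prop

theorem FD_contDiff_Om (d : HD) (i j : Fin 4) : ContDiff ℝ ∞ fun s => d.Om s i j := by
  have a := d.FD_contDiff_Om0 i j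
  have b := contDiff_shf
  simp only [Om, Matrix.sub_apply, Matrix.smul_apply, smul_eq_mul]
  fun_prop

theorem FD_contDiff_lamO (d : HD) : ContDiff ℝ ∞ (lamO d.Om) := FD_lamO d.FD_contDiff_Om

theorem Ok.FD_al_ev {X : Type} [TopologicalSpace X] {Q T : X → ℝ} {x : X} (h : d.Ok)
    (hQ : ContinuousAt Q x) (hT : ContinuousAt T x) (h0 : T x < 0 ∨ d.M₂ * T x < d.c₀ * Q x) :
    ∀ᶠ y in 𝓝 x, d.al (Q y) (T y) = 0 := by
  rcases h0 with h0 | h0
  · filter_upwards [hT.eventually_lt continuousAt_const h0] with y hy using FC_al_low hy.le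
  · filter_upwards [(continuousAt_const.mul hT).eventually_lt (continuousAt_const.mul hQ) h0]
      with y hy
    rcases le_or_gt (T y) 0 with t | t
    · exact FC_al_low t
    · rw [FC_al_pos t, h.hη.zero (d.c₀ * Q y / T y) ((le_div_iff₀ t).2 hy.le), mul_zero]

theorem Ok.FD_contDiffAt_al {X : Type} [NormedAddCommGroup X] [NormedSpace ℝ X] {Q T : X → ℝ} {x : X}
    (h : d.Ok) (hQ : ContDiffAt ℝ ∞ Q x) (hT : ContDiffAt ℝ ∞ T x) (h0 : 0 < Q x ∨ T x ≠ 0) :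
    ContDiffAt ℝ ∞ (fun y => d.al (Q y) (T y)) x := by
  rcases lt_or_ge 0 (T x) with t | t
  · have a : ContDiffAt ℝ ∞ (fun y => T y * (1 - ss (T y)) * d.η (d.c₀ * Q y / T y)) x :=
      (hT.mul (contDiffAt_const.sub (contDiff_ss.contDiffAt.comp x hT))).mul
        (h.hη.sm.contDiffAt.comp x ((contDiffAt_const.mul hQ).div hT t.ne'))
    refine a.congr_of_eventuallyEq ?_
    filter_upwards [continuousAt_const.eventually_lt hT.continuousAt t] with y hy using FC_al_pos hy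
  · refine contDiffAt_const.congr_of_eventuallyEq (h.FD_al_ev hQ.continuousAt hT.continuousAt ?_)
    rcases t.lt_or_eq with t | t
    · exact .inl t
    · exact .inr (by
        rw [t, mul_zero]; exact mul_pos (by linarith [h.b4]) (h0.resolve_right (not_not.2 t)))

theorem Ok.FD_ex_sm (h : d.Ok) (h0 : d.qq (z (1, 0)) (z (1, 1)) ≠ 0 ∨ d.tt z ≠ 0) :
    ContDiffAt ℝ ∞ (fun z : E6 => d.ex (z (2, 0)) (xv z)) z :=
  (h.FD_contDiffAt_al d.FD_contDiff_qqE.contDiffAt d.FD_contDiff_tt.contDiffAt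
    (h0.imp_left fun a => lt_of_le_of_ne (FC_qq_nonneg _ _) a.symm)).add
    (contDiff_shf.comp d.FD_contDiff_tt).contDiffAt

theorem Ok.FD_hh_sm (h : d.Ok) (h0 : d.qq (z (1, 0)) (z (1, 1)) ≠ 0 ∨ d.tt z ≠ 0) :
    ContDiffAt ℝ ∞ (fun z : E6 => d.hh (z (2, 0)) (xv z)) z :=
  (contDiffAt_normSq h.contDiff_z1E.contDiffAt).add (h.FD_ex_sm h0)

theorem Ok.FD_rho_sm (h : d.Ok) (h0 : d.qq (z (1, 0)) (z (1, 1)) ≠ 0 ∨ d.tt z ≠ 0) :
    ContDiffAt ℝ ∞ (fun z : E6 => d.rho (z (2, 0)) (xv z)) z :=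
  (h.FD_hh_sm h0).add (contDiffAt_normSq h.contDiff_z2E.contDiffAt)

theorem FD_isOpen_CL (d : HD) : IsOpen d.CL := by
  have a := d.FD_contDiff_tt.continuous
  exact (isOpen_lt continuous_const (FD_co _).continuous).inter ((isOpen_lt a continuous_const).inter
    ((isOpen_ne_fun d.FD_contDiff_qqE.continuous continuous_const).union
      (isOpen_lt a continuous_const)))

theorem Ok.FD_isOpen_CU (h : d.Ok) : IsOpen d.CU := by
  have a := d.FD_contDiff_tt.continuous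
  refine isOpen_iff_mem_nhds.2 fun z hz => ?_
  have b : ∀ᶠ y in 𝓝 z, d.tt y < 1 / 4 ∨ d.rho (y (2, 0)) (xv y) < 8 := by
    rcases hz.2.2 with c | c
    · exact (a.continuousAt.eventually_lt continuousAt_const c).mono fun _ => .inl
    · exact ((h.FD_rho_sm (.inr hz.1.ne')).continuousAt.eventually_lt continuousAt_const c).mono
        fun _ => .inr
  filter_upwards [continuousAt_const.eventually_lt a.continuousAt hz.1,
    a.continuousAt.eventually_lt continuousAt_const hz.2.1, b] with y h1 h2 h3 using ⟨h1, h2, h3⟩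

theorem FD_CL_ne (hz : z ∈ d.CL) : d.qq (z (1, 0)) (z (1, 1)) ≠ 0 ∨ d.tt z ≠ 0 :=
  hz.2.2.imp_right ne_of_lt

theorem Ok.FD_CL_ev (h : d.Ok) (hz : z ∈ d.CL) :
    (d.z1 (z (2, 0)) (xv z) ≠ 0 ∧ d.qq (z (1, 0)) (z (1, 1)) ≠ 0 ∧ |d.tt z| < 1 / 4) ∨
      ∀ᶠ y in 𝓝 z, d.tt y < 0 := by
  rcases lt_or_ge (d.tt z) 0 with t | t
  · exact .inr (d.FD_contDiff_tt.continuous.continuousAt.eventually_lt continuousAt_const t)
  · have q := hz.2.2.resolve_right t.not_gt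
    have a : |d.tt z| < 1 / 4 := abs_lt.2 ⟨by linarith, by linarith [hz.2.1]⟩
    exact .inl ⟨(h.FC_z1_ne a.le).2 q, q, a⟩

theorem Ok.FD_CU_ev (h : d.Ok) (hz : z ∈ d.CU) :
    (d.z1 (z (2, 0)) (xv z) ≠ 0 ∧ d.qq (z (1, 0)) (z (1, 1)) ≠ 0 ∧ |d.tt z| < 1 / 4) ∨
      ∀ᶠ y in 𝓝 z, d.ex (y (2, 0)) (xv y) = d.tt y := by
  have c := d.FD_contDiff_tt.continuous.continuousAt (x := z)
  rcases lt_or_ge (d.tt z) (1 / 4) with t | t
  · have a : |d.tt z| < 1 / 4 := abs_lt.2 ⟨by linarith [hz.1], t⟩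
    by_cases q : d.qq (z (1, 0)) (z (1, 1)) = 0
    · refine .inr ?_
      filter_upwards [continuousAt_const.eventually_lt c hz.1,
        (continuousAt_const.mul d.FD_contDiff_qqE.continuous.continuousAt).eventually_lt
          (continuousAt_const.mul c) (show d.c₀ * d.qq _ _ < d.M₁ * d.tt z by
            rw [q, mul_zero]; exact mul_pos (by linarith [h.hη.pos]) hz.1)] with y h1 h2
      exact h.FC_ex_one h1 h2.le
    · exact .inl ⟨(h.FC_z1_ne a.le).2 q, q, a⟩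
  · refine .inr ?_
    filter_upwards [continuousAt_const.eventually_lt c (show 1 / 8 < d.tt z by linarith),
      c.eventually_lt continuousAt_const hz.2.1,
      (h.FD_rho_sm (.inr hz.1.ne')).continuousAt.eventually_lt continuousAt_const
        (hz.2.2.resolve_left t.not_gt)] with y h1 h2 h3
    exact h.FC_ex_hi h1.le h2.le ((h.FC_le_rho _ _).trans h3.le)

theorem Ok.FD_r {e : E6 → ℝ} (h : d.Ok) (he : ContDiffAt ℝ ∞ e z)
    (h0 : (d.z1 (z (2, 0)) (xv z) ≠ 0 ∧ 0 < normSq (d.z1 (z (2, 0)) (xv z)) + e z) ∨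
      ∀ᶠ y in 𝓝 z, e y = 0) :
    ContDiffAt ℝ ∞ (fun y : E6 => √(1 + e y / normSq (d.z1 (y (2, 0)) (xv y)))) z := by
  rcases h0 with ⟨a, b⟩ | a
  · have p := normSq_pos.2 a
    refine (contDiffAt_const.add
      (he.div (contDiffAt_normSq h.contDiff_z1E.contDiffAt) p.ne')).sqrt (ne_of_gt ?_)
    change 0 < 1 + e z / normSq (d.z1 (z (2, 0)) (xv z))
    rw [one_add_div p.ne']
    positivity
  · refine (contDiffAt_const (c := 1)).congr_of_eventuallyEq ?_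
    filter_upwards [a] with y hy
    simp [hy]

theorem Ok.FD_rL_sm (h : d.Ok) (hz : z ∈ d.CL) : ContDiffAt ℝ ∞
    (fun y : E6 => √(1 + d.ex (y (2, 0)) (xv y) / normSq (d.z1 (y (2, 0)) (xv y)))) z :=
  h.FD_r (h.FD_ex_sm (FD_CL_ne hz)) ((h.FD_CL_ev hz).imp
    (fun a => ⟨a.1, add_pos_of_pos_of_nonneg (normSq_pos.2 a.1) (h.FC_ex_mem _ _).1⟩)
    fun a => a.mono fun _ b => FC_ex_low b.le)

theorem Ok.FD_rU_sm (h : d.Ok) (hz : z ∈ d.CU) : ContDiffAt ℝ ∞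
    (fun y : E6 => √(1 + (d.ex (y (2, 0)) (xv y) - d.tt y) / normSq (d.z1 (y (2, 0)) (xv y)))) z :=
  h.FD_r ((h.FD_ex_sm (.inr hz.1.ne')).sub d.FD_contDiff_tt.contDiffAt) ((h.FD_CU_ev hz).imp
    (fun a => ⟨a.1, by have := h.FC_CU_gt hz a.1; unfold hh at this; linarith⟩)
    fun a => a.mono fun _ b => sub_eq_zero.2 b)

theorem Ok.FD_sL_sm (h : d.Ok) (hz : z ∈ d.CL) :
    ContDiffAt ℝ ∞ (fun y : E6 => √(d.hh (y (2, 0)) (xv y) - d.tt y)) z :=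
  ((h.FD_hh_sm (FD_CL_ne hz)).sub d.FD_contDiff_tt.contDiffAt).sqrt (sub_pos.2 (h.FC_CL_gt hz)).ne'

theorem Ok.FD_sU_sm (h : d.Ok) (hz : z ∈ d.CU) :
    ContDiffAt ℝ ∞ (fun y : E6 => √(d.hh (y (2, 0)) (xv y))) z :=
  (h.FD_hh_sm (.inr hz.1.ne')).sqrt (hz.1.trans_le (h.FC_CU_ge hz)).ne'

theorem Ok.FD_uL_sm (h : d.Ok) (hz : z ∈ d.CL) : ContDiffAt ℝ ∞ d.uL z :=
  (contDiffAt_ofReal (h.FD_sL_sm hz)).mul (contDiffAt_ee h.contDiff_phH.contDiffAt.neg)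

theorem Ok.FD_wL_sm (h : d.Ok) (hz : z ∈ d.CL) : ContDiffAt ℝ ∞ d.wL z :=
  (h.contDiff_z1E.contDiffAt.mul (contDiffAt_ofReal (h.FD_rL_sm hz))).mul
    (contDiffAt_ee h.contDiff_phH.contDiffAt)

theorem Ok.FD_uU_sm (h : d.Ok) (hz : z ∈ d.CU) : ContDiffAt ℝ ∞ d.uU z := by
  rw [funext (FC_uU_eq (d := d))]
  exact (h.contDiff_z1E.contDiffAt.mul (contDiffAt_ofReal (h.FD_rU_sm hz))).mul
    (contDiffAt_ee h.contDiff_phH.contDiffAt.neg)

theorem Ok.FD_wU_sm (h : d.Ok) (hz : z ∈ d.CU) : ContDiffAt ℝ ∞ d.wU z :=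
  (contDiffAt_ofReal (h.FD_sU_sm hz)).mul (contDiffAt_ee h.contDiff_phH.contDiffAt)

theorem Ok.FD_lowF_sm (h : d.Ok) (hz : z ∈ d.CL) : ContDiffAt ℝ ∞ d.lowF z :=
  contDiffAt_mkc (h.FD_uL_sm hz) h.contDiff_z2E.contDiffAt (h.FD_wL_sm hz)

theorem Ok.FD_uppF_sm (h : d.Ok) (hz : z ∈ d.CU) : ContDiffAt ℝ ∞ d.uppF z :=
  contDiffAt_mkc (h.FD_uU_sm hz) h.contDiff_z2E.contDiffAt (h.FD_wU_sm hz)

theorem Ok.FD_lamL_sm (h : d.Ok) (hz : z ∈ d.CL) : ContDiffAt ℝ ∞ d.lamL z := by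
  refine d.FD_contDiff_lamO.contDiffAt.add (ContDiffAt.fun_smul ?_ FD_contDiff_rq.contDiffAt)
  rcases h.FD_CL_ev hz with a | a
  · exact (h.FD_contDiffAt_al d.FD_contDiff_qqE.contDiffAt d.FD_contDiff_tt.contDiffAt
      (.inl (lt_of_le_of_ne (FC_qq_nonneg _ _) a.2.1.symm))).div
      (contDiffAt_const.mul d.FD_contDiff_qqE.contDiffAt) (mul_ne_zero Real.two_pi_pos.ne' a.2.1)
  · refine (contDiffAt_const (c := 0)).congr_of_eventuallyEq ?_
    filter_upwards [a] with y hy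
    rw [FC_al_low hy.le, zero_div]

theorem Ok.FD_lamH_sm (h : d.Ok) (hz : z ∈ d.CU) : ContDiffAt ℝ ∞ d.lamH z := by
  refine d.FD_contDiff_lamO.contDiffAt.sub (ContDiffAt.fun_smul ?_ FD_contDiff_rq.contDiffAt)
  rcases h.FD_CU_ev hz with a | a
  · exact (d.FD_contDiff_tt.contDiffAt.sub (h.FD_ex_sm (.inr hz.1.ne'))).div
      (contDiffAt_const.mul d.FD_contDiff_qqE.contDiffAt) (mul_ne_zero Real.two_pi_pos.ne' a.2.1)
  · refine (contDiffAt_const (c := 0)).congr_of_eventuallyEq ?_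
    filter_upwards [a] with y hy
    rw [hy, sub_self, zero_div]

theorem Ok.FD_kap_sm (h : d.Ok) {ν : ℝ} (hν : |ν - d.μ₁| ≤ 1 / 4) : ContDiffAt ℝ ∞ d.kap ν := by
  have a := d.FD_contDiff_Om0
  refine ContDiffAt.div (ContDiff.contDiffAt ?_) (a 0 1).contDiffAt (h.b_pos hν).ne'
  unfold pf4
  fun_prop

theorem FD_ang_g (h : d.Ok) (z : E6) :
    ang (fun y : E6 => (⟨d.σ * y (1, 0), y (1, 1) / d.σ⟩ : ℂ)) z = (2 * Real.pi)⁻¹ • rq z := by
  ext v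
  have p := h.hσ.ne'
  rw [DFr_ang (a := fun y : E6 => d.σ * y (1, 0)) (b := fun y : E6 => y (1, 1) / d.σ)
    ((dc (1, 0)).hasFDerivAt.const_mul d.σ)
    ((dc (1, 1)).hasFDerivAt.mul_const d.σ⁻¹)]
  simp [rq, dc_apply]
  field_simp

theorem Ok.FD_ang_z1 (h : d.Ok) (hz : |d.tt z| < 1 / 4) :
    ang (fun y : E6 => d.z1 (y (2, 0)) (xv y)) z = (d.kap (z (2, 0)) / (2 * Real.pi)) • rq z := by
  have k := h.FC_kap_pos hz.le
  have e : (fun y : E6 => d.z1 (y (2, 0)) (xv y)) =ᶠ[𝓝 z] fun y =>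
      (√(d.kap (y (2, 0))) : ℝ) * (⟨d.σ * y (1, 0), y (1, 1) / d.σ⟩ : ℂ) := by
    filter_upwards [d.FD_contDiff_tt.continuous.abs.continuousAt.eventually_lt continuousAt_const hz]
      with y hy using h.f1 _ hy.le _
  have r : ContDiffAt ℝ ∞ (fun y : E6 => √(d.kap (y (2, 0)))) z :=
    ContDiffAt.sqrt (f := fun y : E6 => d.kap (y (2, 0)))
      (ContDiffAt.comp (g := d.kap) z (h.FD_kap_sm hz.le) (FD_co (2, 0)).contDiffAt) k.ne'
  have g : ContDiffAt ℝ ∞ (fun y : E6 => (⟨d.σ * y (1, 0), y (1, 1) / d.σ⟩ : ℂ)) z :=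
    contDiffAt_cmk (contDiffAt_const.mul (FD_co _).contDiffAt) ((FD_co _).contDiffAt.div_const _)
  rw [ang_congr e, ang_mul ((contDiffAt_ofReal r).differentiableAt (by simp))
    (g.differentiableAt (by simp)), ang_real (r.differentiableAt (by simp)), smul_zero, zero_add,
    FD_ang_g h, normSq_ofReal, Real.mul_self_sqrt k.le, smul_smul, div_eq_mul_inv]

/-- The function by which the primitives differ. -/
noncomputable def rF0 (d : HD) (z : E6) : ℝ := d.tt z * d.Hh (z (2, 0)) (xv z) - d.μ₁ * z (2, 1)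

theorem Ok.FD_contDiff_rF0 (h : d.Ok) : ContDiff ℝ ∞ d.rF0 :=
  (d.FD_contDiff_tt.mul h.contDiff_HhE).sub (contDiff_const.mul (FD_co _))

theorem Ok.FD_core (h : d.Ok) (hz : |z (2, 0)| ≤ d.M + 1 / 8) :
    ang (fun z => d.z1 (z (2, 0)) (xv z)) z + ang (fun z => d.z2 (z (2, 0)) (xv z)) z +
      d.tt z • fderiv ℝ d.phH z = lamO d.Om z + fderiv ℝ d.rF0 z := by
  have H := (h.contDiff_HhE.differentiable (by simp) z).hasFDerivAt
  have a : HasFDerivAt d.tt (dc (2, 0)) z := (dc (2, 0)).hasFDerivAt.sub_const _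
  have b : HasFDerivAt d.phH _ z := (dc (2, 1)).hasFDerivAt.add H
  have c : HasFDerivAt d.rF0 _ z := (a.mul H).sub ((dc (2, 1)).hasFDerivAt.const_mul d.μ₁)
  rw [h.lemF hz, b.fderiv, c.fderiv, lamO, tt]
  module

theorem Ok.FD_ang {e : ℝ} (h : d.Ok) (h0 : e = 0 ∨ (d.z1 (z (2, 0)) (xv z) ≠ 0 ∧ |d.tt z| < 1 / 4))
    (hp : 0 ≤ normSq (d.z1 (z (2, 0)) (xv z)) + e) :
    √(1 + e / normSq (d.z1 (z (2, 0)) (xv z))) ^ 2 • ang (fun z => d.z1 (z (2, 0)) (xv z)) z =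
      ang (fun z => d.z1 (z (2, 0)) (xv z)) z +
        (e / (2 * Real.pi * d.qq (z (1, 0)) (z (1, 1)))) • rq z ∧
    normSq (d.z1 (z (2, 0)) (xv z)) * √(1 + e / normSq (d.z1 (z (2, 0)) (xv z))) ^ 2 =
      normSq (d.z1 (z (2, 0)) (xv z)) + e := by
  rcases h0 with rfl | ⟨a, b⟩
  · simp
  have p := normSq_pos.2 a
  have k := h.FC_kap_pos b.le
  have q := (h.FC_z1_ne b.le).1 a
  rw [Real.sq_sqrt (by rw [one_add_div p.ne']; positivity)]
  refine ⟨?_, by field_simp⟩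
  rw [add_smul, one_smul, h.FD_ang_z1 b, smul_smul, h.FC_normSq_z1 b.le]
  congr 2
  simp only [xv_2, xv_3] at q ⊢
  field_simp

theorem Ok.FD_lowF_pb1 (h : d.Ok) (hz : z ∈ d.CL) :
    pb1 d.lowF lamS z = d.lamL z + fderiv ℝ d.rF0 z := by
  have P := h.contDiff_phH.differentiable (by simp) z
  have a := ang_polar (h.contDiff_z1E.differentiable (by simp) z)
    ((h.FD_rL_sm hz).differentiableAt (by simp)) P
  have b := FD_polar ((h.FD_sL_sm hz).differentiableAt (by simp)) P.fun_neg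
  obtain ⟨c, c'⟩ := h.FD_ang (z := z) (e := d.ex (z (2, 0)) (xv z)) (by
    rcases h.FD_CL_ev hz with a | a
    · exact .inr ⟨a.1, a.2.2⟩
    · exact .inl (FC_ex_low a.self_of_nhds.le)) (h.FC_hh_nonneg _ _)
  rw [c, c', ← hh] at a
  rw [Real.sq_sqrt (sub_pos.2 (h.FC_CL_gt hz)).le, fderiv_fun_neg] at b
  rw [FD_pb ((h.FD_lowF_sm hz).differentiableAt (by simp))]
  change ang d.uL z + ang (fun z => d.z2 (z (2, 0)) (xv z)) z + ang d.wL z = _
  rw [show ang d.uL z = _ from b, show ang d.wL z = _ from a, lamL, add_right_comm (lamO _ _),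
    ← h.FD_core (h.FC_CL_lev hz), FC_ex_kink (le_trans hz.2.1.le (by norm_num))]
  simp only [xv_2, xv_3, tt]
  module

theorem Ok.FD_uppF_pb1 (h : d.Ok) (hz : z ∈ d.CU) :
    pb1 d.uppF lamS z = d.lamH z + fderiv ℝ d.rF0 z := by
  have P := h.contDiff_phH.differentiable (by simp) z
  have a := ang_polar (h.contDiff_z1E.differentiable (by simp) z)
    ((h.FD_rU_sm hz).differentiableAt (by simp)) P.fun_neg
  have b := FD_polar ((h.FD_sU_sm hz).differentiableAt (by simp)) P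
  obtain ⟨c, c'⟩ := h.FD_ang (z := z) (e := d.ex (z (2, 0)) (xv z) - d.tt z) (by
    rcases h.FD_CU_ev hz with a | a
    · exact .inr ⟨a.1, a.2.2⟩
    · exact .inl (sub_eq_zero.2 a.self_of_nhds)) (by have := h.FC_CU_ge hz; unfold hh at this; linarith)
  rw [c, c', ← add_sub_assoc, ← hh, fderiv_fun_neg] at a
  rw [Real.sq_sqrt (h.FC_hh_nonneg _ _)] at b
  rw [FD_pb ((h.FD_uppF_sm hz).differentiableAt (by simp))]
  change ang d.uU z + ang (fun z => d.z2 (z (2, 0)) (xv z)) z + ang d.wU z = _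
  rw [funext (FC_uU_eq (d := d)), a, show ang d.wU z = _ from b, lamH, sub_add_eq_add_sub,
    ← h.FD_core (h.FC_CU_lev hz), ← neg_sub (d.tt z), neg_div]
  module

theorem Ok.FD_lowF_symp (h : d.Ok) (hz : z ∈ d.CL) : pb d.lowF (d1 lamS) z = d1 d.lamL z :=
  symp_of (h.FD_lowF_sm hz) FD_lamS.contDiffAt (h.FD_lamL_sm hz) h.FD_contDiff_rF0.contDiffAt
    ((d.FD_isOpen_CL.eventually_mem hz).mono fun _ => h.FD_lowF_pb1)

theorem Ok.FD_uppF_symp (h : d.Ok) (hz : z ∈ d.CU) : pb d.uppF (d1 lamS) z = d1 d.lamH z :=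
  symp_of (h.FD_uppF_sm hz) FD_lamS.contDiffAt (h.FD_lamH_sm hz) h.FD_contDiff_rF0.contDiffAt
    ((h.FD_isOpen_CU.eventually_mem hz).mono fun _ => h.FD_uppF_pb1)

theorem FD_contDiff_tF : ContDiff ℝ ∞ tF := contDiff_iff_contDiffAt.2 fun z =>
  (contDiffAt_normSq (contDiff_cc 2).contDiffAt).sub (contDiffAt_normSq (contDiff_cc 0).contDiffAt)

theorem FD_contDiff_nuF (d : HD) : ContDiff ℝ ∞ d.nuF := by
  rw [funext (FC_tF_nuF (d := d))]
  exact contDiff_const.add FD_contDiff_tF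

theorem FD_contDiff_b (d : HD) : ContDiff ℝ ∞ d.b := d.FD_contDiff_Om0 0 1

theorem Ok.FD_c (h : d.Ok) (hz : |tF z| ≤ 1 / 4) :
    ContDiffAt ℝ ∞ (fun y => √(Real.pi * d.b (d.nuF y) / d.Y.det)) z :=
  ((contDiff_const.mul (d.FD_contDiff_b.comp d.FD_contDiff_nuF)).div_const _).contDiffAt.sqrt
    (div_pos (mul_pos Real.pi_pos (h.b_pos (by rwa [FC_tF_nuF, add_sub_cancel_left]))) h.hY).ne'

theorem FD_Y (d : HD) : ContDiff ℝ ∞ fun y : E6 =>
    (⟨d.Y 0 0 * y (1, 0) + d.Y 0 1 * y (1, 1), d.Y 1 0 * y (1, 0) + d.Y 1 1 * y (1, 1)⟩ : ℂ) :=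
  DFr_mk ((contDiff_const.mul (FD_co _)).add (contDiff_const.mul (FD_co _)))
    ((contDiff_const.mul (FD_co _)).add (contDiff_const.mul (FD_co _)))

theorem Ok.FD_fF_sm (h : d.Ok) (hz : |tF z| ≤ 1 / 4) : ContDiffAt ℝ ∞ d.fF z :=
  contDiffAt_mkc (contDiff_cc 0).contDiffAt
    ((contDiffAt_ofReal (h.FD_c hz)).mul d.FD_Y.contDiffAt) (contDiff_cc 2).contDiffAt

theorem FD_contDiff_lamf (d : HD) : ContDiff ℝ ∞ (d.lam .f) :=
  ((contDiff_rot1 0).add (contDiff_rot1 2)).add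
    (((d.FD_contDiff_b.comp d.FD_contDiff_nuF).div_const _).smul FD_contDiff_rq)

theorem Ok.FD_fF_pb1 (h : d.Ok) (hz : |tF z| ≤ 1 / 4) : pb1 d.fF lamS z = d.lam .f z := by
  have r := h.FD_c hz
  have p := div_pos (mul_pos Real.pi_pos (h.b_pos (ν := d.nuF z)
    (by rwa [FC_tF_nuF, add_sub_cancel_left]))) h.hY
  have a := ang_mul ((contDiffAt_ofReal r).differentiableAt (by simp))
    (d.FD_Y.differentiable (by simp) z)
  rw [ang_real (r.differentiableAt (by simp)), smul_zero, zero_add, normSq_ofReal,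
    Real.mul_self_sqrt p.le] at a
  rw [FD_pb ((h.FD_fF_sm hz).differentiableAt (by simp))]
  change ang (cc 0) z + ang (fun y => d.zy (d.nuF y) (y (1, 0)) (y (1, 1))) z + ang (cc 2) z = _
  rw [ang_cc, ang_cc, add_right_comm, show ang (fun y => d.zy _ _ _) z = _ from a, lam]
  congr 1
  ext v
  have c := h.hY.ne'
  have e := Real.pi_pos.ne'
  rw [smul_apply, DFr_ang (a := fun y : E6 => d.Y 0 0 * y (1, 0) + d.Y 0 1 * y (1, 1))
    (b := fun y : E6 => d.Y 1 0 * y (1, 0) + d.Y 1 1 * y (1, 1)) (((dc (1, 0)).hasFDerivAt.const_mul _).add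
    ((dc (1, 1)).hasFDerivAt.const_mul _)) (((dc (1, 0)).hasFDerivAt.const_mul _).add
    ((dc (1, 1)).hasFDerivAt.const_mul _))]
  simp [dc_apply]
  field_simp
  rw [Matrix.det_fin_two]
  ring

theorem Ok.FD_fF_symp (h : d.Ok) (hz : |tF z| < 1 / 4) : pb d.fF (d1 lamS) z = d1 (d.lam .f) z := by
  rw [pb_d1 (h.FD_fF_sm hz.le) FD_lamS.contDiffAt]
  refine d1_congr ?_
  filter_upwards [FD_contDiff_tF.continuous.abs.continuousAt.eventually_lt continuousAt_const hz]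
    with y hy using h.FD_fF_pb1 hy.le

end HD

end Pool.Agent.Work.MP_bf98aa_gt.B3
end
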