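import Pool.Agent.Work.MP_bf98aa_gt.B3.HL
import Pool.Agent.Work.MP_bf98aa_gt.B3.KMain

-- merged part: Pool.Agent.Work.MP_bf98aa_gt.B3.HO1
section
/-!
Families of forms on an atlas with fixed points.
PLAN. `FreeAt.rel`: take `Ar` from `y` to `x` (`loc`, `symm`); it is injective near `y` (`loc_inv`) and maps related pairs to related pairs.
`HO1_core`: `f` is `C¹` near `x` (`ContDiffAt.eventually`), so `pb f (α j)` and `α i` are continuous on an open neighbourhood `N` of `x`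
(`continuous_alt_comp`) on which `R i z j (f z)`; free points are dense in `N`, so it is enough to treat a free `z`. Two continuous local sections with the same
value at a free point agree near it (the value is free by `FreeAt.rel`), use `pb_congr`. In the second alternative `g ∘ f = id` near `z`, use `pb_comp`, `pb_id`.
`SmF.dF`: `extDeriv_pb`, `SmF.ev`, `Filter.EventuallyEq.extDeriv_eq`. `IsDF.of_dense`: `dF β` and `α` are invariant, agree on `sat` by `eq_of_rel`, continuous.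
-/

set_option autoImplicit false

open scoped Manifold ContDiff Topology Matrix ComplexConjugate
open Set Complex Filter

namespace Pool.Agent.Work.MP_bf98aa_gt.B3

open Pool.Agent.Work.MP_bf98aa_gt.Th Pool.Agent.Work.MP_bf98aa_gt.Cy

variable {ι : Type} {k : ℕ} {A : Atl ι} {V : ι → Set E6} {α α' : ι → Fm E6 k} {i j l : ι}
  {x y : E6} {f g : E6 → E6}

theorem Orb.of_pre (h : Pre0 A)
    (hd : ∀ i, A.W i ⊆ closure {x | x ∈ A.W i ∧ FreeAt A i x}) : Orb A :=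
  ⟨h.opn, h.mem, h.refl, h.symm, h.trans, h.loc, hd⟩

theorem Orb.res (h : Orb A) (ho : ∀ i, IsOpen (V i)) (hs : ∀ i, V i ⊆ A.W i) :
    Orb (res A V) := by
  refine ⟨ho, fun e => ⟨e.1, e.2.1⟩, fun e => ⟨e, e, h.refl (hs _ e)⟩,
    fun e => ⟨e.2.1, e.1, h.symm e.2.2⟩, fun e e' => ⟨e.1, e'.2.1, h.trans e.2.2 e'.2.2⟩,
    fun e => ?_, fun i x hx => closure_mono
      (fun z hz => And.intro hz.1 (hz.2.2.mono fun p hp e => hp e.2.2))
      ((ho i).inter_closure ⟨hx, h.den i (hs i hx)⟩)⟩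
  obtain ⟨f, h1⟩ := h.loc e.2.2
  refine ⟨f, h1.mono ?_⟩
  filter_upwards [(ho _).mem_nhds e.1,
    h1.sm.continuousAt.eventually ((ho _).mem_nhds (h1.eq.symm ▸ e.2.1))] with z a b c
  exact ⟨a, b, c⟩

theorem Ar.sec (h : Ar (fun z w => A.R i z j w) x y f) : Sec A i x j f := ⟨h.sm, h.ev⟩

theorem Sec.rel (h : Sec A i x j f) : A.R i x j (f x) := h.2.self_of_nhds

theorem Sec.comp (hA : Orb A) (h : Sec A i x j f) (h' : Sec A j (f x) l g) :
    Sec A i x l fun z => g (f z) :=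
  ⟨h'.1.comp x h.1,
    (h.2.and (h.1.continuousAt.eventually h'.2)).mono fun _ ha => hA.trans ha.1 ha.2⟩

theorem Sec.res (h : Sec A i x j f) (ho : ∀ i, IsOpen (V i)) (hx : x ∈ V i) (hy : f x ∈ V j) :
    Sec (res A V) i x j f := by
  refine ⟨h.1, ?_⟩
  filter_upwards [(ho _).mem_nhds hx, h.1.continuousAt.eventually ((ho _).mem_nhds hy), h.2]
    with z a b c
  exact ⟨a, b, c⟩

theorem Sec.of_res (h : Sec (B3.res A V) i x j f) : Sec A i x j f :=
  ⟨h.1, h.2.mono fun _ e => e.2.2⟩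

theorem FreeAt.rel (hA : Orb A) (h : FreeAt A i x) (hr : A.R i x j y) : FreeAt A j y := by
  obtain ⟨g, h1⟩ := hA.loc (hA.symm hr)
  obtain ⟨g', -, h2, -⟩ := h1.symm
  have c : Tendsto g (𝓝 y) (𝓝 x) := h1.eq ▸ h1.sm.continuousAt
  have c1 : Tendsto Prod.fst (𝓝 (y, y)) (𝓝 y) := continuous_fst.continuousAt
  have c2 : Tendsto Prod.snd (𝓝 (y, y)) (𝓝 y) := continuous_snd.continuousAt
  filter_upwards [((c.comp c1).prodMk_nhds (c.comp c2)).eventually h, c1.eventually h1.ev,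
    c2.eventually h1.ev, c1.eventually h2, c2.eventually h2] with p a b d e e' r
  have h3 : g p.1 = g p.2 := a (hA.trans (hA.symm b) (hA.trans r d))
  rw [← e, h3, e']

theorem HO1_uniq (hA : Orb A) (h : FreeAt A i x) (hf : ContinuousAt f x) (hg : ContinuousAt g x)
    (he : g x = f x) (h1 : ∀ᶠ z in 𝓝 x, A.R i z j (f z)) (h2 : ∀ᶠ z in 𝓝 x, A.R i z j (g z)) :
    f =ᶠ[𝓝 x] g := by
  have c : Tendsto g (𝓝 x) (𝓝 (f x)) := he ▸ hg
  filter_upwards [(hf.tendsto.prodMk_nhds c).eventually (h.rel hA h1.self_of_nhds), h1, h2]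
    with z a b d
  exact a (hA.trans (hA.symm b) d)

theorem HO1_core (hA : Orb A) (hc : ∀ i, ContinuousOn (α i) (A.W i))
    (h : ∀ i x j y, A.R i x j y → (∃ f, Sec A i x j f ∧ f x = y ∧ pb f (α j) x = α i x) ∨
      ∃ f, Sec A j y i f ∧ f y = x ∧ pb f (α i) y = α j y) (hf : ContDiffAt ℝ 1 f x)
    (hr : ∀ᶠ z in 𝓝 x, A.R i z j (f z)) : pb f (α j) =ᶠ[𝓝 x] α i := by
  have hN := ((hf.eventually (by simp)).and hr.eventually_nhds).eventually_nhds
  filter_upwards [hN] with z hz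
  obtain ⟨h1, h2⟩ := hz.self_of_nhds
  have m := hA.mem h2.self_of_nhds
  have c1 : ContinuousAt (pb f (α j)) z := continuous_alt_comp.continuousAt.comp
    ((((hc j).continuousAt ((hA.opn j).mem_nhds m.2)).comp h1.continuousAt).prodMk
      (h1.fderiv_right (m := 0) (by simp)).continuousAt)
  refine tendsto_nhds_unique_of_frequently_eq c1 ((hc i).continuousAt ((hA.opn i).mem_nhds m.1))
    (((mem_closure_iff_frequently.1 (hA.den i m.1)).and_eventually hz).mono ?_)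
  rintro w ⟨⟨-, fr⟩, h3, h4⟩
  rcases h i w j (f w) h4.self_of_nhds with ⟨g, s, e, e'⟩ | ⟨g, s, e, e'⟩
  · rw [pb_congr _ (HO1_uniq hA fr h3.continuousAt s.1.continuousAt e h4 s.2), e']
  · have h5 := HO1_uniq (j := i) (g := fun a => a) hA fr (s.1.continuousAt.comp h3.continuousAt)
      continuousAt_id e.symm ((h4.and (h3.continuousAt.eventually s.2)).mono
        fun _ ha => hA.trans ha.1 ha.2) (h4.mono fun _ ha => hA.refl (hA.mem ha).1)
    rw [← pb_congr' e', ← pb_comp _ (h3.differentiableAt (by simp))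
      (s.1.differentiableAt (by simp))]
    exact (pb_congr _ h5).trans (congrFun (pb_id _) w)

theorem InvR.of_weak (hA : Orb A) (hc : ∀ i, ContinuousOn (α i) (A.W i))
    (h : ∀ i x j y, A.R i x j y → (∃ f, Sec A i x j f ∧ f x = y ∧ pb f (α j) x = α i x) ∨
      ∃ f, Sec A j y i f ∧ f y = x ∧ pb f (α i) y = α j y) : InvR A α :=
  fun _ _ _ _ hf => (HO1_core hA hc h (hf.1.of_le FHom_one_le) hf.2).self_of_nhds

theorem SmF.ev1 (hA : Orb A) (h : SmF A α) (hf : ContDiffAt ℝ 1 f x)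
    (hr : ∀ᶠ z in 𝓝 x, A.R i z j (f z)) : pb f (α j) =ᶠ[𝓝 x] α i := by
  refine HO1_core hA (fun i => ContDiffOn.continuousOn (h.1 i)) (fun i x j y r => ?_) hf hr
  obtain ⟨g, a⟩ := hA.loc r
  exact Or.inl ⟨g, a.sec, a.eq, h.2 _ _ _ _ a.sec⟩

theorem SmF.ev (hA : Orb A) (h : SmF A α) (hf : Sec A i x j f) : pb f (α j) =ᶠ[𝓝 x] α i :=
  h.ev1 hA (hf.1.of_le FHom_one_le) hf.2

theorem InvR.res (h : InvR A α) (V : ι → Set E6) : InvR (res A V) α :=
  fun i x j f hf => h i x j f hf.of_res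

theorem InvR.zero : InvR A (0 : ι → Fm E6 k) :=
  fun _ x _ f _ => congrFun (pb_zero f) x

theorem InvR.add (h : InvR A α) (h' : InvR A α') : InvR A (α + α') :=
  fun i x j f s => congrArg₂ (· + ·) (h i x j f s) (h' i x j f s)

theorem InvR.sub (h : InvR A α) (h' : InvR A α') : InvR A (α - α') :=
  fun i x j f s => congrArg₂ (· - ·) (h i x j f s) (h' i x j f s)

theorem InvR.smul (h : InvR A α) (t : ℝ) : InvR A (t • α) :=
  fun i x j f s => congrArg (t • ·) (h i x j f s)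

theorem InvR.fsmul (h : InvR A α) {r : ι → E6 → ℝ}
    (hr : ∀ i x j y, A.R i x j y → r j y = r i x) : InvR A fun i z => r i z • α i z := by
  intro i x j f s
  rw [pb_fun_smul, hr _ _ _ _ s.rel, h i x j f s]

theorem InvR.congr (hA : Orb A) (h : InvR A α) (he : ∀ i, ∀ x ∈ A.W i, α' i x = α i x) :
    InvR A α' := by
  intro i x j f s
  rw [pb_congr' (he j _ (hA.mem s.rel).2), he i x (hA.mem s.rel).1, h i x j f s]

theorem InvR.eq_of_rel (hA : Orb A) (h : InvR A α) (h' : InvR A α') (hr : A.R i x j y)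
    (he : α j y = α' j y) : α i x = α' i x := by
  obtain ⟨f, a⟩ := hA.loc hr
  rw [← h _ _ _ _ a.sec, ← h' _ _ _ _ a.sec]
  exact pb_congr' (a.eq.symm ▸ he)

theorem InvR.zero_of_rel (hA : Orb A) (h : InvR A α) (hr : A.R i x j y) (he : α j y = 0) :
    α i x = 0 := h.eq_of_rel hA InvR.zero hr he

theorem ClF.sm (h : ClF A α) : SmF A α := ⟨fun i => (h.1 i).1, h.2⟩

theorem SmF.dF (hA : Orb A) (h : SmF A α) : ClF A (dF α) := by
  refine ⟨fun i => IsD.cl ⟨h.1 i, fun _ _ => rfl⟩ (hA.opn i), fun i x j f s => ?_⟩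
  exact (extDeriv_pb ((h.1 j).diffAt (hA.opn j) (hA.mem s.rel).2) s.1).symm.trans
    (h.ev hA s).extDeriv_eq

theorem SmF.isDF (h : SmF A α) : IsDF A α (B3.dF α) := ⟨fun i => ⟨h.1 i, fun _ _ => rfl⟩, h.2⟩

theorem SmF.add (h : SmF A α) (h' : SmF A α') : SmF A (α + α') :=
  ⟨fun i => ContDiffOn.add (h.1 i) (h'.1 i), h.2.add h'.2⟩

theorem SmF.sub (h : SmF A α) (h' : SmF A α') : SmF A (α - α') :=
  ⟨fun i => ContDiffOn.sub (h.1 i) (h'.1 i), h.2.sub h'.2⟩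

theorem SmF.smul (h : SmF A α) (t : ℝ) : SmF A (t • α) :=
  ⟨fun i => ContDiffOn.const_smul t (h.1 i), h.2.smul t⟩

theorem SmF.res (h : SmF A α) (hs : ∀ i, V i ⊆ A.W i) : SmF (res A V) α :=
  ⟨fun i => ContDiffOn.mono (h.1 i) (hs i), h.2.res V⟩

theorem ClF.zero : ClF A (0 : ι → Fm E6 k) :=
  ⟨fun _ => ⟨contDiffOn_const, fun x _ => extDeriv_const 0 x⟩, InvR.zero⟩

theorem ClF.add (hA : Orb A) (h : ClF A α) (h' : ClF A α') : ClF A (α + α') := by
  refine ⟨fun i => ⟨(h.sm.add h'.sm).1 i, fun x hx => ?_⟩, h.2.add h'.2⟩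
  rw [Pi.add_apply, extDeriv_add ((h.1 i).1.diffAt (hA.opn i) hx) ((h'.1 i).1.diffAt (hA.opn i) hx),
    (h.1 i).2 x hx, (h'.1 i).2 x hx, add_zero]

theorem ClF.sub (hA : Orb A) (h : ClF A α) (h' : ClF A α') : ClF A (α - α') :=
  ⟨fun i => (h.1 i).sub (hA.opn i) (h'.1 i), h.2.sub h'.2⟩

theorem ClF.smul (hA : Orb A) (h : ClF A α) (t : ℝ) : ClF A (t • α) := by
  refine ⟨fun i => ⟨(h.sm.smul t).1 i, fun x hx => ?_⟩, h.2.smul t⟩
  rw [Pi.smul_apply, extDeriv_smul, (h.1 i).2 x hx, smul_zero]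

theorem ClF.res (h : ClF A α) (hs : ∀ i, V i ⊆ A.W i) : ClF (res A V) α :=
  ⟨fun i => ⟨(h.sm.res hs).1 i, fun x hx => (h.1 i).2 x (hs i hx)⟩, h.2.res V⟩

variable {w w' : ι → Fm E6 (k + 1)}

theorem IsDF.sm (h : IsDF A α w) : SmF A α := ⟨fun i => (h.1 i).1, h.2⟩

theorem IsDF.cl (hA : Orb A) (h : IsDF A α w) : ClF A w :=
  ⟨fun i => (h.1 i).cl (hA.opn i),
    (h.sm.dF hA).2.congr hA fun i x hx => ((h.1 i).2 x hx).symm⟩

theorem IsDF.add (hA : Orb A) (h : IsDF A α w) (h' : IsDF A α' w') :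
    IsDF A (α + α') (w + w') := by
  refine ⟨fun i => ⟨(h.sm.add h'.sm).1 i, fun x hx => ?_⟩, h.2.add h'.2⟩
  rw [Pi.add_apply, extDeriv_add ((h.1 i).1.diffAt (hA.opn i) hx) ((h'.1 i).1.diffAt (hA.opn i) hx),
    (h.1 i).2 x hx, (h'.1 i).2 x hx]
  rfl

theorem IsDF.sub (hA : Orb A) (h : IsDF A α w) (h' : IsDF A α' w') :
    IsDF A (α - α') (w - w') := by
  refine ⟨fun i => ⟨(h.sm.sub h'.sm).1 i, fun x hx => ?_⟩, h.2.sub h'.2⟩
  rw [Pi.sub_apply, extDeriv_sub' ((h.1 i).1.diffAt (hA.opn i) hx)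
    ((h'.1 i).1.diffAt (hA.opn i) hx), (h.1 i).2 x hx, (h'.1 i).2 x hx]
  rfl

theorem IsDF.smul (hA : Orb A) (h : IsDF A α w) (t : ℝ) : IsDF A (t • α) (t • w) := by
  refine ⟨fun i => ⟨(h.sm.smul t).1 i, fun x hx => ?_⟩, h.2.smul t⟩
  rw [Pi.smul_apply, extDeriv_smul, (h.1 i).2 x hx]
  rfl

theorem IsDF.congr (h : IsDF A α w) (he : ∀ i, ∀ x ∈ A.W i, w' i x = w i x) : IsDF A α w' :=
  ⟨fun i => ⟨(h.1 i).1, fun x hx => ((h.1 i).2 x hx).trans (he i x hx).symm⟩, h.2⟩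

theorem IsDF.res (h : IsDF A α w) (hs : ∀ i, V i ⊆ A.W i) : IsDF (res A V) α w :=
  ⟨fun i => ⟨(h.sm.res hs).1 i, fun x hx => (h.1 i).2 x (hs i hx)⟩, h.2.res V⟩

theorem IsDF.clF (h : IsDF A α w) (he : ∀ i, ∀ x ∈ A.W i, w i x = 0) : ClF A α :=
  ⟨fun i => ⟨(h.1 i).1, fun x hx => ((h.1 i).2 x hx).trans (he i x hx)⟩, h.2⟩

theorem ExF.add (hA : Orb A) (h : ExF A w) (h' : ExF A w') : ExF A (w + w') :=
  h.elim fun _ a => h'.elim fun _ b => ⟨_, a.add hA b⟩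

theorem ExF.sub (hA : Orb A) (h : ExF A w) (h' : ExF A w') : ExF A (w - w') :=
  h.elim fun _ a => h'.elim fun _ b => ⟨_, a.sub hA b⟩

theorem ExF.congr (h : ExF A w) (he : ∀ i, ∀ x ∈ A.W i, w' i x = w i x) : ExF A w' :=
  h.elim fun _ a => ⟨_, a.congr he⟩

theorem IsDF.of_dense (hA : Orb A) (h : SmF A α) (hw : SmF A w)
    (hd : ∀ i, A.W i ⊆ closure (sat A V i))
    (he : ∀ i, ∀ x ∈ V i, extDeriv (α i) x = w i x) : IsDF A α w := by
  refine ⟨fun i => ⟨h.1 i, fun x hx => ?_⟩, h.2⟩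
  refine tendsto_nhds_unique_of_frequently_eq
    (((h.dF hA).1 i).1.at (hA.opn i) hx).continuousAt ((hw.1 i).at (hA.opn i) hx).continuousAt
    ((mem_closure_iff_frequently.1 (hd i hx)).mono ?_)
  rintro z ⟨j, y, hy, r⟩
  exact (h.dF hA).2.eq_of_rel hA hw.2 r (he j y hy)


end Pool.Agent.Work.MP_bf98aa_gt.B3
end

-- merged part: Pool.Agent.Work.MP_bf98aa_gt.B3.HO2
section
/-!
Extension, gluing and descent of families.
PLAN. `transport`: for `x ∈ sat A V i` choose `j, y ∈ V j` and an arrow `f` from `x` to `y` (`loc`), put `β i x = pb f (α j) x`. CLAIM: for any `C¹` map `g` at `x` with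
`R i z l (g z)` near `x` and `g x ∈ V l` one has `pb g (α l) x = β i x` (let `f'` be the inverse arrow, `Ar.symm`; `g ∘ f'` is a `C¹` section of `res A V` at `y`, use `SmF.ev1`
for `Orb.res`, `pb_comp`, `pb_congr`). The chosen `f` at `x` is `C¹` near `x`, so `β i =ᶠ pb f (α j)` near `x`, which is smooth at `x` (`ContDiffAt.alt_comp`,
`ContDiffAt.fderiv_right`). Invariance: compose a section with the chosen arrow at its end point and use the claim.
`extend`: take `β'` from `transport` on `sat`, zero outside; near a point of the second kind the form vanishes on a neighbourhood (`InvR.zero_of_rel`), and this passes along arrows;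
invariance by `InvR.of_weak` or directly (`sat_rel`). `glueF`: choose `a` for each point. `desc_fam`: `desc`, `Ar.cmp`.
-/

set_option autoImplicit false

open scoped Manifold ContDiff Topology Matrix ComplexConjugate
open Set Complex Filter

namespace Pool.Agent.Work.MP_bf98aa_gt.B3

open Pool.Agent.Work.MP_bf98aa_gt.Th Pool.Agent.Work.MP_bf98aa_gt.Cy

variable {ι : Type} {k : ℕ} {A : Atl ι} {V : ι → Set E6} {α α' : ι → Fm E6 k} {i j l : ι}
  {x y : E6} {f g : E6 → E6}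

theorem HO2_ev (h : ContinuousAt f x) {U : Set E6} (hU : IsOpen U) (hx : f x ∈ U) :
    ∀ᶠ z in 𝓝 x, f z ∈ U := h.eventually (hU.mem_nhds hx)

theorem isOpen_sat (hA : Orb A) (ho : ∀ i, IsOpen (V i)) (i : ι) : IsOpen (sat A V i) := by
  refine isOpen_iff_mem_nhds.2 fun x ⟨j, y, hy, hr⟩ => ?_
  obtain ⟨f, hf⟩ := hA.loc hr
  filter_upwards [hf.ev, HO2_ev hf.sm.continuousAt (ho j) (hf.eq ▸ hy)] with z h1 h2
  exact ⟨j, _, h2, h1⟩

theorem sat_sub (hA : Orb A) (i : ι) : sat A V i ⊆ A.W i := by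
  exact fun _ ⟨_, _, _, hr⟩ => (hA.mem hr).1

theorem sub_sat (hA : Orb A) (hs : ∀ i, V i ⊆ A.W i) (i : ι) : V i ⊆ sat A V i := by
  exact fun x hx => ⟨i, x, hx, hA.refl (hs i hx)⟩

theorem sat_rel (hA : Orb A) (hx : x ∈ sat A V i) (hr : A.R i x j y) : y ∈ sat A V j := by
  obtain ⟨l, z, hz, h⟩ := hx
  exact ⟨l, z, hz, hA.trans (hA.symm hr) h⟩

theorem HO2_val (hA : Orb A) (ho : ∀ i, IsOpen (V i)) (hs : ∀ i, V i ⊆ A.W i)
    (h : SmF (res A V) α) (i : ι) (x : E6) (hx : x ∈ sat A V i) : ∃ a, ∀ l g, ContDiffAt ℝ 1 g x →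
      (∀ᶠ z in 𝓝 x, A.R i z l (g z)) → g x ∈ V l → pb g (α l) x = a := by
  obtain ⟨j, y, hy, hr⟩ := hx
  obtain ⟨f, hf⟩ := hA.loc hr
  obtain ⟨f', hf', h1, -⟩ := hf.symm
  refine ⟨pb f (α j) x, fun l g hg hr hl => ?_⟩
  obtain rfl := hf'.eq
  have h2 : ContDiffAt ℝ 1 (fun w => g (f' w)) y := hg.comp y (hf'.sm.of_le FHom_one_le)
  have h3 := (h.ev1 (hA.res ho hs) (i := j) (j := l) h2 (by
    filter_upwards [hf'.ev, hf'.sm.continuousAt.eventually hr, (ho j).mem_nhds hy,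
      HO2_ev h2.continuousAt (ho l) hl] with w a b c d
    exact ⟨c, d, hA.trans (hA.symm a) b⟩)).self_of_nhds
  rw [← hf.eq] at h2
  rw [pb_congr (g := fun z => g (f' (f z))) _ (h1.mono fun z e => by simp only [e]),
    pb_comp (g := fun w => g (f' w)) _ (hf.sm.differentiableAt (by simp))
      (h2.differentiableAt (by simp))]
  exact pb_congr' (by rwa [hf.eq])

theorem transport (hA : Orb A) (ho : ∀ i, IsOpen (V i)) (hs : ∀ i, V i ⊆ A.W i)
    (h : SmF (res A V) α) :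
    ∃ β, SmF (res A (sat A V)) β ∧ ∀ i, ∀ x ∈ V i, β i x = α i x := by
  choose! β hβ using HO2_val hA ho hs h
  have key : ∀ i, ∀ x ∈ sat A V i, ∃ l g, Sec A i x l g ∧ g x ∈ V l :=
    fun i x ⟨l, y, hy, hr⟩ => (hA.loc hr).elim fun g hg => ⟨l, g, hg.sec, hg.eq ▸ hy⟩
  refine ⟨β, ⟨fun i x hx => ?_, fun i x j f hf => ?_⟩, fun i x hx => ?_⟩
  · obtain ⟨l, g, hg, hl⟩ := key i x hx
    refine ((ContDiffAt.alt_comp (((h.1 l).at (ho l) hl).comp x hg.1)
      (hg.1.fderiv_right le_rfl)).congr_of_eventuallyEq ?_).contDiffWithinAt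
    filter_upwards [(hg.1.of_le FHom_one_le).eventually (by simp), hg.2.eventually_nhds,
      HO2_ev hg.1.continuousAt (ho l) hl, (isOpen_sat hA ho i).mem_nhds hx] with z a b c d
    exact (hβ i z d l g a b c).symm
  · obtain ⟨l, g, hg, hl⟩ := key j _ hf.rel.2.1
    have h1 := hf.of_res.comp hA hg
    rw [← hβ i x hf.rel.1 l _ (h1.1.of_le FHom_one_le) h1.2 hl, pb_comp _
      (hf.1.differentiableAt (by simp)) (hg.1.differentiableAt (by simp)),
      pb_congr' (hβ j _ hf.rel.2.1 l g (hg.1.of_le FHom_one_le) hg.2 hl)]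
  · rw [← hβ i x (sub_sat hA hs i hx) i (fun z => z) contDiffAt_id
      (Eventually.mono ((hA.opn i).mem_nhds (hs i hx)) fun _ => hA.refl) hx, pb_id]

theorem extend (hA : Orb A) (ho : ∀ i, IsOpen (V i)) (hs : ∀ i, V i ⊆ A.W i)
    (h : SmF (res A V) α) (h0 : ∀ i, ∀ x ∈ A.W i, ∃ i' x', A.R i x i' x' ∧
      (x' ∈ V i' ∨ ∀ᶠ z in 𝓝 x', ∀ j, ∀ y ∈ V j, A.R i' z j y → α j y = 0)) :
    ∃ β, SmF A β ∧ (∀ i, ∀ x ∈ V i, β i x = α i x) ∧ ∀ i x, x ∉ sat A V i → β i x = 0 := by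
  obtain ⟨β, h1, h2⟩ := transport hA ho hs h
  have h3 := isOpen_sat hA ho
  refine ⟨fun i => (sat A V i).indicator (β i), ⟨fun i x hx => ?_, fun i x j f hf => ?_⟩,
    fun i x hx => (indicator_of_mem (sub_sat hA hs i hx) _).trans (h2 i x hx),
    fun i x hx => indicator_of_notMem hx _⟩
  · by_cases e : x ∈ sat A V i
    · exact (((h1.1 i).at (h3 i) e).congr_of_eventuallyEq (Eventually.mono ((h3 i).mem_nhds e)
        fun z (hz : z ∈ sat A V i) => indicator_of_mem hz _)).contDiffWithinAt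
    obtain ⟨i', x', hr, h4⟩ := h0 i x hx
    obtain ⟨f, hf⟩ := hA.loc hr
    replace h4 := h4.resolve_left fun h4 => e ⟨i', x', h4, hr⟩
    rw [← hf.eq] at h4
    refine ((contDiffAt_const (c := 0)).congr_of_eventuallyEq ?_).contDiffWithinAt
    filter_upwards [hf.ev, hf.sm.continuousAt.eventually h4] with z a b
    refine indicator_apply_eq_zero.2 fun ⟨j, y, hy, c⟩ => ?_
    exact h1.2.zero_of_rel (hA.res h3 (sat_sub hA)) ⟨⟨j, y, hy, c⟩, sub_sat hA hs j hy, c⟩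
      ((h2 j y hy).trans (b j y hy (hA.trans (hA.symm a) c)))
  · by_cases e : x ∈ sat A V i
    · have e' := sat_rel hA e hf.rel
      exact (pb_congr' (indicator_of_mem e' _)).trans
        ((h1.2 i x j f (hf.res h3 e e')).trans (indicator_of_mem e _).symm)
    · exact (pb_congr' (β := 0) (indicator_of_notMem (fun e' => e (sat_rel hA e' (hA.symm hf.rel)))
        _)).trans ((InvR.zero i x j f hf).trans (indicator_of_notMem e _).symm)

theorem glueF {T : Type} (hA : Orb A) {U : T → ι → Set E6} (ho : ∀ a i, IsOpen (U a i))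
    (hu : ∀ a i x j y, x ∈ U a i → A.R i x j y → y ∈ U a j)
    (hc : ∀ i, ∀ x ∈ A.W i, ∃ a, x ∈ U a i) {γ : T → ι → Fm E6 k}
    (hγ : ∀ a, ClF (res A (U a)) (γ a))
    (he : ∀ a a' i, ∀ x ∈ U a i, x ∈ U a' i → γ a i x = γ a' i x) :
    ∃ β, ClF A β ∧ ∀ a i, ∀ x ∈ U a i, β i x = γ a i x := by
  have : ∀ i x, ∃ b, ∀ a, x ∈ U a i → b = γ a i x := fun i x => by
    by_cases e : ∃ a, x ∈ U a i
    · exact e.elim fun a ha => ⟨_, fun a' ha' => he a a' i x ha ha'⟩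
    · exact ⟨0, fun a ha => (e ⟨a, ha⟩).elim⟩
  choose β hβ using this
  have h1 : ∀ a i, ∀ x ∈ U a i, β i =ᶠ[𝓝 x] γ a i := fun a i x hx =>
    Eventually.mono ((ho a i).mem_nhds hx) fun z => hβ i z a
  refine ⟨β, ⟨fun i => ⟨fun x hx => ?_, fun x hx => ?_⟩, fun i x j f hf => ?_⟩,
    fun a i x => hβ i x a⟩
  · obtain ⟨a, ha⟩ := hc i x hx
    exact ((((hγ a).1 i).1.at (ho a i) ha).congr_of_eventuallyEq (h1 a i x ha)).contDiffWithinAt
  · obtain ⟨a, ha⟩ := hc i x hx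
    exact (h1 a i x ha).extDeriv_eq.trans (((hγ a).1 i).2 x ha)
  · obtain ⟨a, ha⟩ := hc i x (hA.mem hf.rel).1
    have e := hu a i x j _ ha hf.rel
    exact (pb_congr' (hβ j _ a e)).trans
      (((hγ a).2 i x j f (hf.res (ho a) ha e)).trans (hβ i x a ha).symm)

variable {M : Type} [TopologicalSpace M] [ChartedSpace E6 M] [IsManifold 𝓘(ℝ, E6) ∞ M]
  {ψ : ι → E6 → M}

theorem invR_pl (hP : ∀ i, Par (ψ i) (V i))
    (hi : ∀ i j, ∀ x ∈ V i, ∀ y ∈ V j, A.R i x j y → ψ i x = ψ j y) (w : Fo M k) :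
    InvR (res A V) fun i => pl (ψ i) w := by
  exact fun i x j f hf => (Tr.pl ⟨hf.1, hf.2.mono fun z hz => (hi i j z hz.1 _ hz.2.1 hz.2.2).symm⟩
    ((hP j).sm _ hf.rel.2.1) w).symm

theorem desc_fam (hA : Orb A) (hP : ∀ i, Par (ψ i) (V i))
    (hi : ∀ i j, ∀ x ∈ V i, ∀ y ∈ V j, ψ i x = ψ j y ↔ A.R i x j y)
    (h : InvR (res A V) α) : ∃ b : Fo M k, ∀ i, ∀ x ∈ V i, pl (ψ i) b x = α i x := by
  refine desc hP α fun i j x hx y hy e => ?_
  obtain ⟨f, hf⟩ := hA.loc ((hi i j x hx y hy).1 e)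
  refine hf.cmp ?_ (h i x j f (hf.sec.res (fun i => (hP i).opn) hx (hf.eq ▸ hy)))
  filter_upwards [(hP i).opn.mem_nhds hx, HO2_ev hf.sm.continuousAt (hP j).opn (hf.eq ▸ hy)]
    with z a b c
  exact ((hi i j z a _ b).2 c).symm


end Pool.Agent.Work.MP_bf98aa_gt.B3
end

-- merged part: Pool.Agent.Work.MP_bf98aa_gt.B3.HO4
section
/-!
Replacement of the singular set.
PLAN. `M₀ = ⋃ ψ i '' V i`, `B = ⋃ N j`; `φ` from `G3_exists_cut` for `M₀`, `B` (`φ = 1` near `M₀ \ B`, `φ = 0` near `B \ M₀`). Glue the `b j` to `b'` (`glue_disj`).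
`u = (1 - φ) • b'` is smooth on `M₀` (`G3_cut`), `du` from `exists_d`, `w' = w - du` is closed on `M₀`; `transport` the family `pl (ψ i) w'` (`invR_pl`) to `sat A V`.
On `N' j`: `extend` (atlas `res A (N' j)`, sets `V i ∩ N' j i`) the family `pl (ψ i) (φ • b j)` by zero, using `hole` with `U` the open set of points near which `φ = 0`
(it contains the complement of `M₀` by `cov`; the index in `hole` is irrelevant here), call it `β j`; `γ j = e' j + dF (β j)`. On `V i ∩ N' j i` it equals `pl w'`, so on `sat ∩ N' j`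
(`eq_of_rel`). `glueF` over `Option J` gives `α`; at a point outside `sat` the form `β j` vanishes on a neighbourhood, so `α = e' j`. Take `c` with `dc = α` (`hO`);
`c - β j` is a primitive of `e' j` on `N' j`; `hN`. Descend `c` to `M₀` and the primitives `g j` to `M₀ ∩ N j` (`desc_fam`, `IsDO.of_par`, `IsDO.iUnion`, `glue_disj`);
`mv` with `b₁ = c + u`, `b₂ = b'`, `c₁ = 0`, `c₂ = -(glued u j)`.
-/

set_option autoImplicit false

open scoped Manifold ContDiff Topology Matrix ComplexConjugate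
open Set Complex Filter

namespace Pool.Agent.Work.MP_bf98aa_gt.B3

open Pool.Agent.Work.MP_bf98aa_gt.Th Pool.Agent.Work.MP_bf98aa_gt.Cy

variable {M : Type} [TopologicalSpace M] [ChartedSpace E6 M] [IsManifold 𝓘(ℝ, E6) ∞ M]
  [T2Space M] [CompactSpace M]

section
variable {ι J : Type} {k : ℕ} {A : Atl ι} {V U U' : ι → Set E6} {ψ : ι → E6 → M}
  {N : J → Set M} {N' : J → ι → Set E6} {α α' : ι → Fm E6 k}

theorem HO4_inv (h : InvR (res A U) α) (hs : ∀ i, U' i ⊆ U i) : InvR (res A U') α :=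
  fun i x j f hf => h i x j f ⟨hf.1, hf.2.mono fun _ hz => ⟨hs _ hz.1, hs _ hz.2.1, hz.2.2⟩⟩

theorem HO4_clT (hA : Orb A) (ho : ∀ i, IsOpen (V i)) (hs : ∀ i, V i ⊆ A.W i)
    (h : ClF (res A V) α) :
    ∃ β, ClF (res A (sat A V)) β ∧ ∀ i, ∀ x ∈ V i, β i x = α i x := by
  obtain ⟨β, h1, h2⟩ := transport hA ho hs h.sm
  have hS := hA.res (isOpen_sat hA ho) (sat_sub hA)
  refine ⟨β, h1.isDF.clF fun i x hx => ?_, h2⟩
  obtain ⟨j, y, hy, hr⟩ := id hx
  refine (h1.dF hS).2.zero_of_rel hS ⟨hx, sub_sat hA hs j hy, hr⟩ ?_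
  exact (Filter.EventuallyEq.extDeriv_eq
    (mem_of_superset ((ho j).mem_nhds hy) (h2 j))).trans ((h.1 j).2 y hy)

omit [T2Space M] [CompactSpace M] in
theorem HO4_desc (hA : Orb A) (hs : ∀ i, V i ⊆ A.W i) (hP : ∀ i, Par (ψ i) (V i))
    (hi : ∀ i j, ∀ x ∈ V i, ∀ y ∈ V j, ψ i x = ψ j y ↔ A.R i x j y) {a : ι → Fm E6 (k + 1)}
    (h : IsDF A α a) {w : Fo M (k + 1)} (hw : ∀ i, ∀ x ∈ V i, pl (ψ i) w x = a i x) :
    ∃ b, IsDO b w (⋃ i, ψ i '' V i) ∧ ∀ i, ∀ x ∈ V i, pl (ψ i) b x = α i x := by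
  obtain ⟨b, hb⟩ := desc_fam hA hP hi (h.2.res V)
  refine ⟨b, IsDO.iUnion (fun i => (hP i).isOpen_image (hP i).opn subset_rfl) fun i =>
    IsDO.of_par (hP i) ⟨((h.1 i).1.mono (hs i)).congr (hb i), fun x hx => ?_⟩, hb⟩
  rw [hw i x hx, ← (h.1 i).2 x (hs i hx)]
  exact Filter.EventuallyEq.extDeriv_eq (mem_of_superset ((hP i).opn.mem_nhds hx) (hb i))

omit [T2Space M] [CompactSpace M] in
theorem HO4_par (h : Rep A V ψ N N') (j : J) (i : ι) : Par (ψ i) (V i ∩ N' j i) :=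
  (h.par i).mono ((h.par i).opn.inter (h.opn' j i)) inter_subset_left

omit [IsManifold 𝓘(ℝ, E6) ∞ M] [T2Space M] [CompactSpace M] in
theorem HO4_iff (h : Rep A V ψ N N') (j : J) (i l : ι) : ∀ x ∈ V i ∩ N' j i, ∀ y ∈ V l ∩ N' j l,
    ψ i x = ψ l y ↔ (res A (N' j)).R i x l y := fun x hx y hy =>
  (h.iff i l x hx.1 y hy.1).trans ⟨fun e => ⟨hx.2, hy.2, e⟩, fun e => e.2.2⟩

omit [T2Space M] [CompactSpace M] in
theorem HO4_loc (h : Rep A V ψ N N') (j : J) {O : Set M} (hO : IsOpen O)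
    (hc : (⋃ i, ψ i '' V i)ᶜ ⊆ O) {c : Fo M k} (h1 : SmO c (N j)) (h0 : ∀ m ∈ O, c m = 0) :
    ∃ β, SmF (res A (N' j)) β ∧ (∀ i, ∀ x ∈ V i ∩ N' j i, β i x = pl (ψ i) c x) ∧
      ∀ i, ∀ x ∈ N' j i, x ∉ sat A V i → extDeriv (β i) x = 0 := by
  have hA := h.orb.res (h.opn' j) (h.sub' j)
  have z : ∀ i y, ψ i y ∈ O → pl (ψ i) c y = 0 := fun i y hy =>
    (pl_congr' (w' := 0) _ (h0 _ hy)).trans (congrFun (pl_zero _) y)
  have k0 : ∀ i, ∀ x ∈ N' j i, x ∉ sat A V i → ∀ᶠ z in 𝓝 x, ∀ l, ∀ y ∈ V l ∩ N' j l,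
      (res A (N' j)).R i z l y → pl (ψ l) c y = 0 := fun i x hx hn => by
    obtain ⟨-, -, H⟩ := (h.hole i x (h.sub' j i hx)).resolve_left hn
    exact (H O hO hc).mono fun _ hz l y hy hr => z l y (hz l y hy.1 hr.2.2)
  obtain ⟨β, b1, b2, b3⟩ := extend (α := fun i => pl (ψ i) c) hA
    (fun i => (HO4_par h j i).opn) (fun i => inter_subset_right)
    ⟨fun i => h1 _ _ (HO4_par h j i) fun x hx => (h.pre j i x hx.1).2 hx.2,
      invR_pl (HO4_par h j) (fun i l x hx y hy => (HO4_iff h j i l x hx y hy).2) c⟩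
    fun i x hx => by
      by_cases hn : x ∈ sat A V i
      · obtain ⟨l, y, hy, hr⟩ := hn
        have h2 := h.sat' j i x l y hx hr
        exact ⟨l, y, ⟨hx, h2, hr⟩, Or.inl ⟨hy, h2⟩⟩
      · exact ⟨i, x, hA.refl hx, Or.inr (k0 i x hx hn)⟩
  refine ⟨β, b1, b2, fun i x hx hn => ?_⟩
  refine (Filter.EventuallyEq.extDeriv_eq (ω₂ := fun _ => 0)
    ((k0 i x hx hn).mono fun y hy => ?_)).trans (extDeriv_const 0 x)
  by_contra h2
  obtain ⟨l, y', hy', hr⟩ := not_not.1 fun h3 => h2 (b3 i y h3)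
  exact h2 (b1.2.zero_of_rel hA hr ((b2 l y' hy').trans (hy l y' hy' hr)))

end

theorem Rep.main {ι J : Type} {k : ℕ} {A : Atl ι} {V : ι → Set E6} {ψ : ι → E6 → M}
    {N : J → Set M} {N' : J → ι → Set E6} (h : Rep A V ψ N N') {w : Fo M (k + 2)}
    (hw : ClO w univ) {b : J → Fo M (k + 1)} {e : J → Fo M (k + 2)} {e' : J → ι → Fm E6 (k + 2)}
    (hb : ∀ j, IsDO (b j) (w - e j) (N j)) (he : ∀ j, ClF (res A (N' j)) (e' j))
    (hm : ∀ j i, ∀ x ∈ V i, x ∈ N' j i → pl (ψ i) (e j) x = e' j i x)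
    (hO : ∀ α, ClF A α → (∀ j i, ∀ x ∈ N' j i, x ∉ sat A V i → α i x = e' j i x) → ExF A α)
    (hN : ∀ j c, IsDF (res A (N' j)) c (e' j) → (∀ m ∈ N j, e j m = 0) ∧
      ∃ (u : Fo M (k + 1)) (u' : ι → Fm E6 (k + 1)), ClO u (N j) ∧
        (∀ i, ∀ x ∈ V i, x ∈ N' j i → pl (ψ i) u x = u' i x) ∧ ExF (res A (N' j)) (c - u')) :
    ExO w univ := by
  have o0 : IsOpen (⋃ i, ψ i '' V i) :=
    isOpen_iUnion fun i => (h.par i).isOpen_image (h.par i).opn subset_rfl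
  have oB : IsOpen (⋃ j, N j) := isOpen_iUnion h.opn
  have cov : (⋃ i, ψ i '' V i) ∪ ⋃ j, N j = univ :=
    eq_univ_of_forall fun m => (h.cov m).imp mem_iUnion.2 mem_iUnion.2
  have m0 : ∀ i, MapsTo (ψ i) (V i) (⋃ i, ψ i '' V i) := fun i x hx =>
    mem_iUnion.2 ⟨i, x, hx, rfl⟩
  have hA := fun j => h.orb.res (h.opn' j) (h.sub' j)
  have oS := isOpen_sat h.orb fun i => (h.par i).opn
  obtain ⟨φ, f1, f2, f3⟩ := G3_exists_cut o0 oB
  simp only [cov, mem_univ, forall_true_left] at f1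
  obtain ⟨b', hb'⟩ := glue_disj h.dis b
  obtain ⟨ee, hee⟩ := glue_disj h.dis e
  have d0 : IsDO b' (w - ee) (⋃ j, N j) := IsDO.iUnion h.opn fun j =>
    (hb j).congr (hb' j) fun m hm => by rw [Pi.sub_apply, Pi.sub_apply, hee j m hm]
  obtain ⟨du, d1⟩ := exists_d o0 (G3_cut o0 oB (g := fun x => 1 - φ x)
    (fun x _ => (contDiff_const.sub contDiff_id).contDiffAt.comp_contMDiffAt (f1 x))
    (fun x hx hx' => (f2 x hx hx').mono fun y hy => by simp [hy])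
    (d0.sm.mono inter_subset_right))
  have c1 : ClO (w - du) (⋃ i, ψ i '' V i) := (hw.mono (subset_univ _)).sub d1.cl
  obtain ⟨β₀, s1, s2⟩ := HO4_clT (α := fun i => pl (ψ i) (w - du)) h.orb (fun i => (h.par i).opn)
    h.sub ⟨fun i => c1 _ _ (h.par i) (m0 i),
      invR_pl h.par (fun i l x hx y hy => (h.iff i l x hx y hy).2) _⟩
  choose β b1 b2 b3 using fun j => HO4_loc h j (c := fun m => φ m • b j m)
    (isOpen_setOfPred_eventually_nhds (p := fun y => φ y = 0))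
    (fun m hm => f3 m ((cov.ge (mem_univ m)).resolve_left hm) hm)
    (G3_cut (h.opn j) (h.opn j) (fun x _ => f1 x) (fun x hx hx' => absurd hx hx')
      ((hb j).sm.mono inter_subset_left))
    fun m hm => by rw [Filter.Eventually.self_of_nhds hm, zero_smul]
  have g1 : ∀ j, ClF (res A (N' j)) (e' j + dF (β j)) := fun j =>
    (he j).add (hA j) ((b1 j).dF (hA j))
  have g2 : ∀ j i, ∀ x ∈ sat A V i, x ∈ N' j i → β₀ i x = (e' j + dF (β j)) i x := by
    intro j i x hx hx'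
    obtain ⟨l, y, hy, hr⟩ := id hx
    have hy' := h.sat' j i x l y hx' hr
    refine (HO4_inv (U' := fun i => sat A V i ∩ N' j i) s1.2 fun _ => inter_subset_left).eq_of_rel
      (h.orb.res (fun i => (oS i).inter (h.opn' j i)) fun i _ hz => h.sub' j i hz.2)
      (HO4_inv (g1 j).2 fun _ => inter_subset_right)
      ⟨⟨hx, hx'⟩, ⟨sub_sat h.orb h.sub l hy, hy'⟩, hr⟩ ?_
    have k1 : IsDO (fun m => φ m • b j m) (w - du - e j) ((⋃ i, ψ i '' V i) ∩ N j) :=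
      (G3_sub ((hb j).mono inter_subset_right) (d1.mono inter_subset_left)).congr
        (fun m hm => by rw [Pi.sub_apply, hb' j m hm.2]; ext v; simp [sub_mul])
        fun m _ => by rw [sub_right_comm]
    have k2 := (k1 _ _ (HO4_par h j l) fun z hz => ⟨m0 l hz.1, (h.pre j l z hz.1).2 hz.2⟩).2 y
      ⟨hy, hy'⟩
    have k3 : extDeriv (β j l) y = _ := (Filter.EventuallyEq.extDeriv_eq
      (mem_of_superset ((HO4_par h j l).opn.mem_nhds ⟨hy, hy'⟩) (b2 j l))).trans k2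
    rw [s2 l y hy, Pi.add_apply, Pi.add_apply, dF, k3, ← hm j l y hy hy', pl_sub _ (w - du),
      Pi.sub_apply, add_sub_cancel]
  obtain ⟨α, a1, a2⟩ := glueF (T := Option J) h.orb (U := fun a => a.elim (sat A V) N')
    (γ := fun a => a.elim β₀ fun j => e' j + dF (β j))
    (fun a => by cases a; exacts [oS, h.opn' _])
    (fun a i x l y hx hr => by cases a; exacts [sat_rel h.orb hx hr, h.sat' _ i x l y hx hr])
    (fun i x hx => (h.hole i x hx).elim (fun k => ⟨none, k⟩) fun ⟨j, k, _⟩ => ⟨some j, k⟩)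
    (fun a => by cases a; exacts [s1, g1 _]) fun a a' i x hx hx' => by
      rcases a with _ | j <;> rcases a' with _ | j'
      exacts [rfl, g2 j' i x hx hx', (g2 j i x hx' hx).symm, by rw [h.dis' i j j' x hx hx']]
  obtain ⟨c, hc⟩ := hO α a1 fun j i x hx hn =>
    (a2 (some j) i x hx).trans ((congrArg (e' j i x + ·) (b3 j i x hx hn)).trans (add_zero _))
  have n1 := fun j => hN j (c - β j) (((hc.res (h.sub' j)).sub (hA j) (b1 j).isDF).congr
    fun i x hx => eq_sub_of_add_eq (a2 (some j) i x hx).symm)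
  choose u u' u1 u2 g hg using fun j => (n1 j).2
  obtain ⟨c₀, q1, q2⟩ := HO4_desc h.orb h.sub h.par h.iff hc (w := w - du) fun i x hx =>
    ((a2 none i x (sub_sat h.orb h.sub i hx)).trans (s2 i x hx)).symm
  choose g₀ q3 q4 using fun j => HO4_desc (hA j) (fun _ => inter_subset_right) (HO4_par h j)
    (HO4_iff h j) (hg j) (w := c₀ - (fun m => φ m • b j m) - u j) fun i x hx => by
      simp only [pl_sub, Pi.sub_apply, q2 i x hx.1, b2 j i x hx, u2 j i x hx.1 hx.2]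
  obtain ⟨u₀, hu₀⟩ := glue_disj h.dis u
  obtain ⟨g', hg'⟩ := glue_disj h.dis g₀
  rw [← cov]
  refine mv o0 oB (b₁ := c₀ + fun m => (1 - φ m) • b' m) (b₂ := b')
    ((G2a_add q1 d1).congr (fun _ _ => rfl) fun m _ => by rw [sub_add_cancel])
    (d0.congr (fun _ _ => rfl) fun m hm => ?_) ClO.zero
    (ClO.zero.sub (ClO.iUnion h.opn fun j => (u1 j).congr (hu₀ j))) ⟨g', ?_⟩
  · obtain ⟨j, hj⟩ := mem_iUnion.1 hm
    rw [Pi.sub_apply, hee j m hj, (n1 j).1 m hj, sub_zero]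
  · rw [inter_iUnion]
    refine IsDO.iUnion (fun j => o0.inter (h.opn j)) fun j => ((q3 j).mono ?_).congr
      (fun m hm => hg' j m hm.2) fun m hm => ?_
    · rintro m ⟨h1, h2⟩
      obtain ⟨i, x, hx, rfl⟩ := mem_iUnion.1 h1
      exact mem_iUnion.2 ⟨i, x, ⟨hx, (h.pre j i x hx).1 h2⟩, rfl⟩
    · simp only [Pi.sub_apply, Pi.add_apply, Pi.zero_apply, hb' j m hm.2, hu₀ j m hm.2]
      ext v
      simp [sub_mul]
      ring


end Pool.Agent.Work.MP_bf98aa_gt.B3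
end

-- merged part: Pool.Agent.Work.MP_bf98aa_gt.B3.HO3
section
/-!
Families on an atlas `B` that describes a part of `A`.
The part of `A` and the atlas `B` are put together to one atlas `HO3_C`, which is again described by `A`.
-/

set_option autoImplicit false

open scoped Manifold ContDiff Topology Matrix ComplexConjugate
open Set Complex Filter

namespace Pool.Agent.Work.MP_bf98aa_gt.B3

open Pool.Agent.Work.MP_bf98aa_gt.Th Pool.Agent.Work.MP_bf98aa_gt.Cy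

variable {ι κ : Type} {k : ℕ} {A : Atl ι} {B : Atl κ} {S : ι → E6 → κ → E6 → Prop}
  {c c' : ι → Fm E6 k} {e e' : κ → Fm E6 k}

theorem HO3_free (h : Ind A B S) {i : ι} {b : κ} {x y : E6} (s : S i x b y) (hx : FreeAt A i x) :
    FreeAt B b y := by
  obtain ⟨f, a⟩ := h.loc s
  obtain ⟨g, ⟨g1, rfl, -, g3⟩, -, g4⟩ := a.symm
  have h1 := (continuousAt_fst (p := (y, y))).eventually (g3.and g4)
  have h2 := (continuousAt_snd (p := (y, y))).eventually (g3.and g4)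
  filter_upwards [h1, h2, (g1.continuousAt.prodMap' g1.continuousAt).eventually hx]
    with p p1 p2 p3 hr
  exact p1.2.symm.trans ((congrArg f (p3 ((h.iff p1.1 p2.1).2 hr))).trans p2.2)

theorem Ind.orbB (h : Ind A B S) : Orb B := by
  refine ⟨h.opn, h.bmem, fun {b y} hy => ?_, fun {b y b' y'} hr => ?_,
    fun {b y b' y' b'' y''} hr hr' => ?_, fun {b y b' y'} hr => ?_, fun b y hy => ?_⟩
  · obtain ⟨i, x, s⟩ := h.sur b y hy
    exact (h.iff s s).1 (h.orb.refl (h.mem s).1)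
  · obtain ⟨i, x, s⟩ := h.sur b y (h.bmem hr).1
    obtain ⟨i', x', s'⟩ := h.sur b' y' (h.bmem hr).2
    exact (h.iff s' s).1 (h.orb.symm ((h.iff s s').2 hr))
  · obtain ⟨i, x, s⟩ := h.sur b y (h.bmem hr).1
    obtain ⟨i', x', s'⟩ := h.sur b' y' (h.bmem hr).2
    obtain ⟨i'', x'', s''⟩ := h.sur b'' y'' (h.bmem hr').2
    exact (h.iff s s'').1 (h.orb.trans ((h.iff s s').2 hr) ((h.iff s' s'').2 hr'))
  · obtain ⟨i, x, s⟩ := h.sur b y (h.bmem hr).1
    obtain ⟨i', x', s'⟩ := h.sur b' y' (h.bmem hr).2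
    obtain ⟨f, a1⟩ := h.loc s
    obtain ⟨g, a1, -⟩ := a1.symm
    obtain ⟨f₂, a2⟩ := h.orb.loc ((h.iff s s').2 hr)
    obtain ⟨f₃, a3⟩ := h.loc s'
    exact ⟨_, (a1.trans (R'' := fun a c => ∃ u, S i u b a ∧ A.R i u i' c) a2
      fun _ u _ h1 h2 => ⟨u, h1, h2⟩).trans a3 fun _ _ _ ⟨_, h1, h2⟩ h3 => (h.iff h1 h3).1 h2⟩
  · obtain ⟨i, x, s⟩ := h.sur b y hy
    obtain ⟨f, f1, rfl, -, f3⟩ := h.loc s
    exact mem_closure_iff_frequently.2 (Tendsto.frequently f1.continuousAt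
      (((mem_closure_iff_frequently.1 (h.orb.den i (h.mem s).1)).and_eventually f3).mono
        fun z hz => ⟨(h.mem hz.2).2, HO3_free h hz.2 hz.1.2⟩))

theorem Ind.isOpen_nb (h : Ind A B S) (i : ι) : IsOpen (nb A S i) := by
  refine isOpen_iff_mem_nhds.2 fun x ⟨i', x', b, y, h1, h2⟩ => ?_
  obtain ⟨g, g1, rfl, -, g3⟩ := h.orb.loc h1
  obtain ⟨f, a⟩ := h.loc h2
  filter_upwards [g3, g1.continuousAt.eventually a.ev] with z z1 z2
  exact ⟨i', _, b, _, z1, z2⟩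

theorem Ind.nb_sub (h : Ind A B S) (i : ι) : nb A S i ⊆ A.W i :=
  fun _ ⟨_, _, _, _, h1, _⟩ => (h.orb.mem h1).1

theorem Ind.nb_rel (h : Ind A B S) {i j : ι} {x y : E6} (hx : x ∈ nb A S i) (hr : A.R i x j y) :
    y ∈ nb A S j :=
  let ⟨i', x', b, u, h1, h2⟩ := hx
  ⟨i', x', b, u, h.orb.trans (h.orb.symm hr) h1, h2⟩

theorem Ind.orbN (h : Ind A B S) : Orb (res A (nb A S)) := h.orb.res h.isOpen_nb h.nb_sub

/-- The relation from `A` to the union. -/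
def HO3_S (A : Atl ι) (S : ι → E6 → κ → E6 → Prop) (i : ι) (x : E6) : ι ⊕ κ → E6 → Prop
  | .inl j, y => y ∈ nb A S j ∧ A.R i x j y
  | .inr b, y => S i x b y

/-- The union. -/
def HO3_C (A : Atl ι) (B : Atl κ) (S : ι → E6 → κ → E6 → Prop) : Atl (ι ⊕ κ) where
  W := Sum.elim (nb A S) B.W
  R u x v y := ∃ i x' j y', HO3_S A S i x' u x ∧ HO3_S A S j y' v y ∧ A.R i x' j y'

theorem HO3_nb (h : Ind A B S) {i : ι} {b : κ} {x y : E6} (s : S i x b y) : x ∈ nb A S i :=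
  ⟨i, x, b, y, h.orb.refl (h.mem s).1, s⟩

theorem HO3_ind (h : Ind A B S) : Ind A (HO3_C A B S) (HO3_S A S) := by
  have m : ∀ {i x u y}, HO3_S A S i x u y → x ∈ A.W i ∧ y ∈ (HO3_C A B S).W u := by
    rintro i x (j | b) y s
    exacts [⟨(h.orb.mem s.2).1, s.1⟩, h.mem s]
  have q : ∀ {i x j y u z}, HO3_S A S i x u z → HO3_S A S j y u z → A.R i x j y := by
    rintro i x j y (l | b) z s s'
    exacts [h.orb.trans s.2 (h.orb.symm s'.2), (h.iff s s').2 (h.orbB.refl (h.mem s).2)]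
  refine ⟨h.orb, Sum.rec h.isOpen_nb h.opn, m, ?_, ?_,
    fun ⟨_, _, _, _, s, s', _⟩ => ⟨(m s).2, (m s').2⟩, fun s s' => ⟨fun r => ⟨_, _, _, _, s, s', r⟩,
      fun ⟨_, _, _, _, t, t', r⟩ => h.orb.trans (q s t) (h.orb.trans r (q t' s'))⟩⟩
  · rintro i x (j | b) y s
    · obtain ⟨f, a⟩ := h.orb.loc s.2
      exact ⟨f, a.mono ((a.sm.continuousAt.eventually
        ((h.isOpen_nb j).mem_nhds (a.eq.symm ▸ s.1))).mono fun _ c d => ⟨c, d⟩)⟩
    · exact h.loc s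
  · rintro (j | b) y hy
    exacts [⟨j, y, hy, h.orb.refl (h.nb_sub j hy)⟩, h.sur b y hy]

theorem HO3_A (h : Ind A B S) {i j : ι} {x y : E6} :
    (HO3_C A B S).R (.inl i) x (.inl j) y ↔ (res A (nb A S)).R i x j y :=
  ⟨fun ⟨_, _, _, _, s, s', r⟩ => ⟨s.1, s'.1, h.orb.trans (h.orb.symm s.2) (h.orb.trans r s'.2)⟩,
    fun ⟨a, b, r⟩ => ⟨i, x, i, x, ⟨a, h.orb.refl (h.nb_sub i a)⟩, ⟨b, r⟩, h.orb.refl (h.nb_sub i a)⟩⟩

theorem HO3_B (h : Ind A B S) {b b' : κ} {y y' : E6} :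
    (HO3_C A B S).R (.inr b) y (.inr b') y' ↔ B.R b y b' y' := by
  refine ⟨fun ⟨_, _, _, _, s, s', r⟩ => (h.iff s s').1 r, fun r => ?_⟩
  obtain ⟨i, x, s⟩ := h.sur b y (h.bmem r).1
  obtain ⟨i', x', s'⟩ := h.sur b' y' (h.bmem r).2
  exact ⟨i, x, i', x', s, s', (h.iff s s').2 r⟩

theorem HO3_M (h : Ind A B S) {i : ι} {b : κ} {x y : E6} (s : S i x b y) :
    (HO3_C A B S).R (.inl i) x (.inr b) y :=
  ⟨i, x, i, x, ⟨HO3_nb h s, h.orb.refl (h.mem s).1⟩, s, h.orb.refl (h.mem s).1⟩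

theorem HO3_out (h : Ind A B S) {β : ι ⊕ κ → Fm E6 k} (hβ : SmF (HO3_C A B S) β) :
    SmF (res A (nb A S)) (fun i => β (.inl i)) ∧ SmF B (fun b => β (.inr b)) ∧
      Mat S (fun i => β (.inl i)) fun b => β (.inr b) :=
  ⟨⟨fun i => hβ.1 (.inl i), fun _ x _ f hf =>
      hβ.2 _ x _ f ⟨hf.1, hf.2.mono fun _ => (HO3_A h).2⟩⟩,
    ⟨fun b => hβ.1 (.inr b), fun _ x _ f hf =>
      hβ.2 _ x _ f ⟨hf.1, hf.2.mono fun _ => (HO3_B h).2⟩⟩,
    fun _ x _ f f1 f2 => hβ.2 _ x _ f ⟨f1, f2.mono fun _ => HO3_M h⟩⟩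

theorem HO3_in (h : Ind A B S) (hc : SmF (res A (nb A S)) c) (he : SmF B e) (hm : Mat S c e) :
    SmF (HO3_C A B S) (Sum.elim c e) := by
  have h1 : ∀ u, Sm (Sum.elim c e u) ((HO3_C A B S).W u) := Sum.rec hc.1 he.1
  have h2 : ∀ i x b y, (HO3_C A B S).R (.inl i) x (.inr b) y → ∃ f,
      Sec (HO3_C A B S) (.inl i) x (.inr b) f ∧ f x = y ∧ pb f (e b) x = c i x := by
    rintro i x b y ⟨_, _, j, u, s, s', r⟩
    obtain ⟨f, a⟩ := h.orbN.loc ⟨s.1, HO3_nb h s', h.orb.trans (h.orb.symm s.2) r⟩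
    obtain ⟨g, a'⟩ := h.loc s'
    have a2 := a.trans (R'' := fun z w => (HO3_C A B S).R (.inl i) z (.inr b) w) a'
      fun _ _ _ p q => (HO3_ind h).orbB.trans ((HO3_A h).2 p) (HO3_M h q)
    exact ⟨_, a2.sec, a2.eq, a.trans_pb a' (hc.2 _ _ _ _ a.sec) (hm _ _ _ _ a'.sm a'.ev)⟩
  refine ⟨h1, InvR.of_weak (HO3_ind h).orbB (fun u => (h1 u).continuousOn) ?_⟩
  rintro (i | i) x (j | j) y r
  · obtain ⟨f, a⟩ := h.orbN.loc ((HO3_A h).1 r)
    exact Or.inl ⟨f, ⟨a.sm, a.ev.mono fun _ => (HO3_A h).2⟩, a.eq, hc.2 _ _ _ _ a.sec⟩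
  · exact Or.inl (h2 _ _ _ _ r)
  · exact Or.inr (h2 _ _ _ _ ((HO3_ind h).orbB.symm r))
  · obtain ⟨f, a⟩ := h.orbB.loc ((HO3_B h).1 r)
    exact Or.inl ⟨f, ⟨a.sm, a.ev.mono fun _ => (HO3_B h).2⟩, a.eq, he.2 _ _ _ _ a.sec⟩

theorem Ind.push (h : Ind A B S) (hc : SmF (res A (nb A S)) c) : ∃ e, SmF B e ∧ Mat S c e := by
  obtain ⟨β, h1, h2, -⟩ := extend (V := Sum.elim (nb A S) fun _ => ∅) (α := Sum.elim c 0)
    (HO3_ind h).orbB (Sum.rec h.isOpen_nb fun _ => isOpen_empty)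
    (Sum.rec (fun _ => Subset.rfl) fun _ => empty_subset _)
    ⟨Sum.rec hc.1 fun _ => contDiffOn_empty, by
      rintro (i | i) x (j | j) f hf
      · exact hc.2 i x j f ⟨hf.1, hf.2.mono fun z hz => (HO3_A h).1 hz.2.2⟩
      exacts [hf.rel.2.1.elim, hf.rel.1.elim, hf.rel.1.elim]⟩ (by
      rintro (i | b) x hx
      · exact ⟨_, x, (HO3_ind h).orbB.refl hx, Or.inl hx⟩
      · obtain ⟨i, u, s⟩ := h.sur b x hx
        exact ⟨.inl i, u, (HO3_ind h).orbB.symm (HO3_M h s), Or.inl (HO3_nb h s)⟩)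
  obtain ⟨-, h3, h4⟩ := HO3_out h h1
  exact ⟨_, h3, fun i x b f f1 f2 =>
    (h4 i x b f f1 f2).trans (h2 (.inl i) x (HO3_nb h f2.self_of_nhds))⟩

theorem Ind.pull (h : Ind A B S) (he : SmF B e) :
    ∃ c, SmF (res A (nb A S)) c ∧ Mat S c e := by
  obtain ⟨β, h1, h2, -⟩ := extend (V := Sum.elim (fun _ => ∅) B.W) (α := Sum.elim 0 e)
    (HO3_ind h).orbB (Sum.rec (fun _ => isOpen_empty) h.opn)
    (Sum.rec (fun _ => empty_subset _) fun _ => Subset.rfl)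
    ⟨Sum.rec (fun _ => contDiffOn_empty) he.1, by
      rintro (i | i) x (j | j) f hf
      exacts [hf.rel.1.elim, hf.rel.1.elim, hf.rel.2.1.elim,
        he.2 i x j f ⟨hf.1, hf.2.mono fun z hz => (HO3_B h).1 hz.2.2⟩]⟩ (by
      rintro (i | b) x hx
      · obtain ⟨j, u, b, y, r, s⟩ := id hx
        exact ⟨.inr b, y, ⟨i, x, j, u, ⟨hx, h.orb.refl (h.nb_sub i hx)⟩, s, r⟩, Or.inl (h.mem s).2⟩
      · exact ⟨_, x, (HO3_ind h).orbB.refl hx, Or.inl hx⟩)
  obtain ⟨h3, -, h4⟩ := HO3_out h h1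
  exact ⟨_, h3, fun i x b f f1 f2 =>
    (pb_congr' (h2 (.inr b) _ (h.mem f2.self_of_nhds).2)).symm.trans (h4 i x b f f1 f2)⟩

theorem Mat.zero : Mat S (0 : ι → Fm E6 k) 0 :=
  fun _ _ _ _ _ _ => rfl

theorem Mat.add (h : Mat S c e) (h' : Mat S c' e') : Mat S (c + c') (e + e') :=
  fun i x b f f1 f2 => congrArg₂ (· + ·) (h i x b f f1 f2) (h' i x b f f1 f2)

theorem Mat.sub (h : Mat S c e) (h' : Mat S c' e') : Mat S (c - c') (e - e') :=
  fun i x b f f1 f2 => congrArg₂ (· - ·) (h i x b f f1 f2) (h' i x b f f1 f2)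

theorem Mat.smul (h : Mat S c e) (t : ℝ) : Mat S (t • c) (t • e) :=
  fun i x b f f1 f2 => congrArg (t • ·) (h i x b f f1 f2)

theorem Ind.mat_d (h : Ind A B S) (hc : SmF (res A (nb A S)) c) (he : SmF B e) (hm : Mat S c e) :
    Mat S (dF c) (dF e) :=
  (HO3_out h ((HO3_in h hc he hm).dF (HO3_ind h).orbB).sm).2.2

theorem Ind.ext_up (h : Ind A B S) (hm : Mat S c e) (hm' : Mat S c' e')
    (hc : ∀ i, ∀ x ∈ nb A S i, c i x = c' i x) : ∀ b, ∀ y ∈ B.W b, e b y = e' b y := by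
  intro b y hy
  obtain ⟨i, x, s⟩ := h.sur b y hy
  obtain ⟨f, a⟩ := h.loc s
  obtain ⟨g, -, h1⟩ := a.symm_pb (α := 0)
    (((hm.sub hm') i x b f a.sm a.ev).trans (sub_eq_zero.2 (hc i x (HO3_nb h s))))
  exact sub_eq_zero.1 h1.symm

theorem Ind.ext_dn (h : Ind A B S) (hc : InvR (res A (nb A S)) c) (hc' : InvR (res A (nb A S)) c')
    (hm : Mat S c e) (hm' : Mat S c' e') (he : ∀ b, ∀ y ∈ B.W b, e b y = e' b y) :
    ∀ i, ∀ x ∈ nb A S i, c i x = c' i x := by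
  intro i x hx
  obtain ⟨j, u, b, y, r, s⟩ := id hx
  obtain ⟨f, f1, rfl, -, f3⟩ := h.loc s
  exact hc.eq_of_rel h.orbN hc' ⟨hx, HO3_nb h s, r⟩ ((hm j u b f f1 f3).symm.trans
    ((pb_congr' (he b _ (h.mem s).2)).trans (hm' j u b f f1 f3)))

theorem Ind.pull_cl (h : Ind A B S) (he : ClF B e) :
    ∃ c, ClF (res A (nb A S)) c ∧ Mat S c e := by
  obtain ⟨c, h1, h2⟩ := h.pull he.sm
  exact ⟨c, ⟨fun i => ⟨h1.1 i, h.ext_dn (h1.dF h.orbN).2 InvR.zero (h.mat_d h1 he.sm h2) Mat.zero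
    (fun b => (he.1 b).2) i⟩, h1.2⟩, h2⟩

theorem Ind.push_isD (h : Ind A B S) {w : ι → Fm E6 (k + 1)} {v : κ → Fm E6 (k + 1)}
    (hc : IsDF (res A (nb A S)) c w) (hm : Mat S w v) : ∃ e, IsDF B e v ∧ Mat S c e := by
  obtain ⟨e, h1, h2⟩ := h.push hc.sm
  exact ⟨e, ⟨fun b => ⟨h1.1 b, h.ext_up (h.mat_d hc.sm h1 h2) hm (fun i => (hc.1 i).2) b⟩, h1.2⟩, h2⟩

theorem Ind.pull_ex (h : Ind A B S) {w : ι → Fm E6 (k + 1)} {v : κ → Fm E6 (k + 1)}
    (hw : InvR (res A (nb A S)) w) (hm : Mat S w v) (he : ExF B v) :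
    ExF (res A (nb A S)) w := by
  obtain ⟨e, he⟩ := he
  obtain ⟨c, h1, h2⟩ := h.pull he.sm
  exact ⟨c, fun i => ⟨h1.1 i, h.ext_dn (h1.dF h.orbN).2 hw (h.mat_d h1 he.sm h2) hm
    (fun b => (he.1 b).2) i⟩, h1.2⟩


end Pool.Agent.Work.MP_bf98aa_gt.B3
end

-- merged part: Pool.Agent.Work.MP_bf98aa_gt.B3.HU
section
/-!
Invariant cohomology of the neighbourhood of a fixed torus.
PLAN. With `ng z = mkc (-cc 0 z) (-cc 1 z) (cc 2 z)` (linear, equal to `io`): a smooth family is invariant iff it is periodic in `S = {(2,0), (2,1)}` and `pb ng`-invariant (`InvR.of_weak`). `torusK` on the convex set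
`kr < 1/64`, symmetrise the primitive (`pb ng c = c` for `Hor S c`). `d1 lamU = a • wedge (dc (2,0)) (dc (2,1)) + d (rot1 0 + rot1 1)`; `Hor.pair`, `cst_zero`, `Hor.eq_zero`.
-/

set_option autoImplicit false

open scoped Manifold ContDiff Topology Matrix ComplexConjugate
open Set Complex Filter

namespace Pool.Agent.Work.MP_bf98aa_gt.B3

open Pool.Agent.Work.MP_bf98aa_gt.Th Pool.Agent.Work.MP_bf98aa_gt.Cy

/-- The two classes of degree one. -/
noncomputable def stU (a : ℝ) (i : Fin 2) : Unit → Fm E6 1 :=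
  fun _ => dfn fun z => z (2, i) - (i : ℕ) * (kr z / (4 * a))

/-- The periodic directions. -/
def HU_S : Finset Cx := {(2, 0), (2, 1)}

/-- The involution. -/
noncomputable def HU_I : E6 →L[ℝ] E6 := ML (-1) 1

theorem HU_Iv (z : E6) : HU_I z = io z := (io_eq z).symm

theorem HU_kr (z : E6) : kr z = z (0, 0) ^ 2 + z (0, 1) ^ 2 + (z (1, 0) ^ 2 + z (1, 1) ^ 2) := by
  rw [kr, normSq_cc, normSq_cc]

theorem HU_krI (z : E6) : kr (HU_I z) = kr z := by simp [HU_kr, HU_Iv, io]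

theorem HU_kr2 (z : E6) (s t : ℝ) : kr (z + (s • bv (2, 0) + t • bv (2, 1))) = kr z := by
  simp [HU_kr, bv]

theorem HU_krS {i : Cx} (hi : i ∈ HU_S) (z : E6) (t : ℝ) : kr (z + t • bv i) = kr z := by
  rcases Finset.mem_insert.1 hi with rfl | h
  · simp [HU_kr, bv]
  · rw [Finset.mem_singleton.1 h]; simp [HU_kr, bv]

theorem HU_sm : ContDiff ℝ ∞ kr := by
  rw [funext HU_kr]
  fun_prop

theorem HU_dom : Dom HU_S (atlU.W ()) 0 := by
  refine Dom.of_convex (isOpen_lt HU_sm.continuous continuous_const) ?_ (by simp [atlU, HU_kr])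
    fun i hi z hz t => (HU_krS hi z t).trans_lt hz
  intro x hx y hy a b ha hb hab
  have h : ∀ u v : ℝ, (a * u + b * v) ^ 2 ≤ a * u ^ 2 + b * v ^ 2 := fun u v => by
    have : b = 1 - a := by linarith
    subst this
    nlinarith [mul_nonneg (mul_nonneg ha hb) (sq_nonneg (u - v))]
  have h2 : kr (a • x + b • y) ≤ a * kr x + b * kr y := by
    simp only [HU_kr, Pi.add_apply, Pi.smul_apply, smul_eq_mul]
    linarith [h (x (0, 0)) (y (0, 0)), h (x (0, 1)) (y (0, 1)), h (x (1, 0)) (y (1, 0)),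
      h (x (1, 1)) (y (1, 1))]
  exact h2.trans_lt (convex_Iio (1 / 64 : ℝ) hx hy ha hb hab)

theorem HU_sec {x : E6} (hx : x ∈ atlU.W ()) (n n' : ℤ) :
    Sec atlU () x () (fun z => z + ((n : ℝ) • bv (2, 0) + (n' : ℝ) • bv (2, 1))) ∧
    Sec atlU () x () (fun z => HU_I z + ((n : ℝ) • bv (2, 0) + (n' : ℝ) • bv (2, 1))) := by
  refine ⟨⟨by fun_prop, ?_⟩, by fun_prop, ?_⟩ <;>
    filter_upwards [HU_dom.opn.mem_nhds hx] with z hz
  · exact ⟨hz, (HU_kr2 _ _ _).trans_lt hz, n, n', by simp [bv], by simp [bv],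
      .inl ⟨by simp [cc, bv], by simp [cc, bv]⟩⟩
  · exact ⟨hz, ((HU_kr2 _ _ _).trans (HU_krI z)).trans_lt hz, n, n', by simp [bv, HU_Iv, io],
      by simp [bv, HU_Iv, io], .inr ⟨by simp [cc, bv, HU_Iv, io, Complex.ext_iff],
        by simp [cc, bv, HU_Iv, io, Complex.ext_iff]⟩⟩

theorem HU_inv {k : ℕ} (hA : Orb atlU) {α : Fm E6 k} (hc : Sm α (atlU.W ()))
    (hp : ∀ i ∈ HU_S, ∀ z ∈ atlU.W (), α (z + bv i) = α z)
    (hI : ∀ z ∈ atlU.W (), pb HU_I α z = α z) : InvR atlU fun _ => α := by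
  have h2 : ∀ (n n' : ℤ), ∀ z ∈ atlU.W (),
      α (z + ((n : ℝ) • bv (2, 0) + (n' : ℝ) • bv (2, 1))) = α z := fun n n' z hz => by
    have := per_int HU_dom.inv hp (fun i => if i = (2, 0) then n else n') hz
    rwa [HU_S, Finset.sum_pair (by decide), if_pos rfl, if_neg (by decide)] at this
  refine InvR.of_weak hA (fun _ => hc.continuousOn) ?_
  rintro ⟨⟩ x ⟨⟩ y ⟨hx, -, n, n', h0, h1, ⟨h3, h4⟩ | ⟨h3, h4⟩⟩ <;>
    simp only [cc, Complex.ext_iff, neg_re, neg_im] at h3 h4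
  · refine .inl ⟨_, (HU_sec hx n n').1, ?_, by rw [G6_trans, h2 n n' x hx]⟩
    apply ext6 <;> simp [bv, *]
  · refine .inl ⟨_, (HU_sec hx n n').2, ?_, ?_⟩
    · apply ext6 <;> simp [bv, HU_Iv, io, *]
    · rw [pb_comp (f := HU_I) (g := fun z => z + _) _ (by fun_prop) (by fun_prop), ← hI x hx]
      exact pb_congr' (by rw [G6_trans, h2 n n' _ ((HU_krI x).trans_lt hx)])

theorem HU_of {k : ℕ} {α : Unit → Fm E6 k} (h : InvR atlU α) :
    (∀ i ∈ HU_S, ∀ z ∈ atlU.W (), α () (z + bv i) = α () z) ∧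
      ∀ z ∈ atlU.W (), pb HU_I (α ()) z = α () z := by
  refine ⟨fun i hi z hz => ?_, fun z hz => by simpa using h _ _ _ _ (HU_sec hz 0 0).2⟩
  rcases Finset.mem_insert.1 hi with rfl | h'
  · simpa [G6_trans] using h _ _ _ _ (HU_sec hz 1 0).1
  · rw [Finset.mem_singleton.1 h']
    simpa [G6_trans] using h _ _ _ _ (HU_sec hz 0 1).1

theorem HU_hor {k : ℕ} {c : Alt E6 k} (hc : Hor HU_S c) : c.compContinuousLinearMap HU_I = c := by
  have hL : ∀ v, c (fun a => G6_L HU_S (v a)) = c v := fun v => DFunLike.congr_fun hc v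
  have h : ∀ z, G6_L HU_S (HU_I z) = G6_L HU_S z := fun z => by
    simp only [G6_L_apply]
    apply ext6 <;> simp [slice, HU_S, HU_Iv, io]
  ext v
  rw [ContinuousAlternatingMap.compContinuousLinearMap_apply, ← hL, ← hL v]
  simp only [Function.comp_apply, h]

theorem HU_cst {k : ℕ} (hA : Orb atlU) {c : Alt E6 k} (hc : Hor HU_S c) :
    ClF atlU fun _ _ => c :=
  ⟨fun _ => ⟨contDiffOn_const, fun x _ => extDeriv_const c x⟩,
    HU_inv hA contDiffOn_const (fun _ _ _ _ => rfl) fun z _ => by rw [HT_pbL, HU_hor hc]⟩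

theorem HU_torus {k : ℕ} (hA : Orb atlU) {e : Unit → Fm E6 (k + 1)} (he : ClF atlU e) :
    ∃ c, Hor HU_S c ∧ ExF atlU (e - fun _ _ => c) := by
  obtain ⟨hp0, hI⟩ := HU_of he.2
  obtain ⟨c, β, hc, hβ, hp⟩ := torusK HU_dom (he.1 ()) hp0
  have hU := HU_dom.opn
  have mI : MapsTo HU_I (atlU.W ()) (atlU.W ()) := fun z hz => (HU_krI z).trans_lt hz
  have h1 := hβ.pb hU hU HU_I.contDiff.contDiffOn mI
  have hs : Sm ((1 / 2 : ℝ) • (β + pb HU_I β)) (atlU.W ()) :=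
    ContDiffOn.const_smul (1 / 2 : ℝ) (ContDiffOn.add hβ.1 h1.1)
  refine ⟨c, hc, _, fun _ => ⟨hs, fun z hz => ?_⟩, HU_inv hA hs (fun i hi z hz => ?_) fun z _ => ?_⟩
  · have h2 : extDeriv (pb HU_I β) z = e () z - c := by
      rw [h1.2 z hz, ← hI z hz, ← HU_hor hc, HT_pbL, HT_pbL, HU_hor hc]
      exact congrArg (fun t => (e () (HU_I z)).compContinuousLinearMap HU_I - t) (HU_hor hc)
    rw [extDeriv_smul, extDeriv_add (hβ.1.diffAt hU hz) (h1.1.diffAt hU hz), hβ.2 z hz, h2,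
      ← two_smul ℝ, smul_smul]
    norm_num
  · have hb : HU_I (bv i) = bv i := by
      rcases Finset.mem_insert.1 hi with rfl | h'
      · apply ext6 <;> simp [HU_Iv, io, bv]
      · rw [Finset.mem_singleton.1 h']; apply ext6 <;> simp [HU_Iv, io, bv]
    simp only [HT_pbL, map_add, hb, Pi.smul_apply, Pi.add_apply, hp i hi _ hz, hp i hi _ (mI hz)]
  · have hII : ∀ z, HU_I (HU_I z) = z := fun z => by apply ext6 <;> simp [HU_Iv, io]
    ext v
    simp only [HT_pbL, Pi.smul_apply, Pi.add_apply, ContinuousAlternatingMap.smul_apply,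
      ContinuousAlternatingMap.add_apply, ContinuousAlternatingMap.compContinuousLinearMap_apply,
      Function.comp_def, hII]
    rw [add_comm]

theorem HU_w : Hor HU_S (wedge (dc (2, 0)) (dc (2, 1))) := hor_wedge (by decide) (by decide)

theorem HU_rho (d : HD) : IsD (fun z => alt1 (rot1 0 z + rot1 1 z))
    (d1 d.lamU - fun _ => d.a • wedge (dc (2, 0)) (dc (2, 1))) (atlU.W ()) ∧
    ∀ i ∈ HU_S, ∀ z : E6, rot1 0 (z + bv i) + rot1 1 (z + bv i) = rot1 0 z + rot1 1 z := by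
  have h : ContDiff ℝ ∞ fun z => rot1 0 z + rot1 1 z := (contDiff_rot1 0).add (contDiff_rot1 1)
  refine ⟨⟨(contDiff_alt1.comp h).contDiffOn, fun z _ => ?_⟩, fun i hi z => ?_⟩
  · have h1 : fderiv ℝ (fun z : E6 => d.a * z (2, 0)) z = d.a • dc (2, 0) :=
      ((dc (2, 0)).hasFDerivAt.const_mul d.a).fderiv
    have h2 := d1_add (x := z) (l' := fun z => (d.a * z (2, 0)) • dc (2, 1)) h.contDiffAt
      (by fun_prop)
    rw [d1_smul (by fun_prop) contDiffAt_const, d1_const, smul_zero, add_zero, h1] at h2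
    refine eq_sub_of_add_eq (Eq.trans ?_ h2.symm)
    congr 1
    refine alt_ext_two fun u v => ?_
    simp only [wedge_apply, ContinuousAlternatingMap.smul_apply, ContinuousLinearMap.smul_apply,
      smul_eq_mul]
    ring
  · rcases Finset.mem_insert.1 hi with rfl | h'
    · simp [rot1, bv]
    · rw [Finset.mem_singleton.1 h']; simp [rot1, bv]

theorem HU_om (hA : Orb atlU) (d : HD) : IsDF atlU (fun _ z => alt1 (rot1 0 z + rot1 1 z))
    ((fun _ => d1 d.lamU) - fun _ _ => d.a • wedge (dc (2, 0)) (dc (2, 1))) := by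
  refine ⟨fun _ => (HU_rho d).1, HU_inv hA (HU_rho d).1.1
    (fun i hi z _ => by rw [(HU_rho d).2 i hi]) fun z _ => ?_⟩
  rw [HT_pbL]
  refine alt_ext_one fun u => ?_
  simp [alt1_apply, rot1_apply, HU_Iv, io]

theorem HU_h1 (i : Fin 2) : Hor HU_S (alt1 (dc (2, i))) := by
  refine alt_ext_one fun u => ?_
  fin_cases i <;> simp [alt1_apply, G6_L_apply, slice, HU_S, dc]

theorem HU_st (hA : Orb atlU) (a : ℝ) (i : Fin 2) :
    IsDF atlU (fun _ => fn0 fun z => -((i : ℕ) * (kr z / (4 * a))))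
      (stU a i - fun _ _ => alt1 (dc (2, i))) := by
  have hk := HU_sm
  have h : ContDiff ℝ ∞ fun z => (i : ℕ) * (kr z / (4 * a)) := by fun_prop
  have hs := sm_fn0.2 (h.neg.contDiffOn (s := atlU.W ()))
  refine ⟨fun _ => ⟨hs, fun z _ => ?_⟩, HU_inv hA hs (fun j hj z _ => ?_) fun z _ => ?_⟩
  · have h0 := (h.differentiable (by simp) z).hasFDerivAt
    have h1 := ((dc (2, i)).hasFDerivAt.sub h0).fderiv
    rw [extDeriv_fn0]
    refine alt_ext_one fun u => ?_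
    change _ = alt1 (fderiv ℝ (⇑(dc (2, i)) - fun z => (i : ℕ) * (kr z / (4 * a))) z) ![u] - _
    rw [h1, dfn, fderiv_fun_neg]
    simp [alt1_apply]
  · have := HU_krS hj z 1
    rw [one_smul] at this
    simp only [fn0, this]
  · simp only [pb_fn0, fn0, HU_krI]

theorem cl_omU (hA : Orb atlU) (d : HD) : ClF atlU fun _ => d1 d.lamU := by
  simpa using ((HU_om hA d).cl hA).add hA (HU_cst hA (HU_w.smul d.a))

theorem cl_stU (hA : Orb atlU) (a : ℝ) (i : Fin 2) : ClF atlU (stU a i) := by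
  simpa using ((HU_st hA a i).cl hA).add hA (HU_cst hA (HU_h1 i))

theorem h2U (hA : Orb atlU) {d : HD} (hd : d.Ok) {e : Unit → Fm E6 2} (he : ClF atlU e) :
    ∃ t : ℝ, ExF atlU (e - t • fun _ => d1 d.lamU) := by
  obtain ⟨c, hc, h⟩ := HU_torus hA he
  refine ⟨c ![bv (2, 0), bv (2, 1)] / d.a,
    (h.sub hA ⟨_, (HU_om hA d).smul hA (c ![bv (2, 0), bv (2, 1)] / d.a)⟩).congr fun _ z _ => ?_⟩
  simp only [Pi.sub_apply, Pi.smul_apply, smul_sub, smul_smul, div_mul_cancel₀ _ hd.ha.ne']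
  rw [← Hor.pair (by decide) hc]
  abel

theorem h2U' {d : HD} (hd : d.Ok) {t : ℝ} (he : ExF atlU (t • fun _ => d1 d.lamU)) : t = 0 := by
  obtain ⟨β, hβ, hi⟩ := he
  obtain ⟨h1, h2⟩ := HU_rho d
  have hU := HU_dom.opn
  have h3 := cst_zero HU_dom (c := t • d.a • wedge (dc (2, 0)) (dc (2, 1)))
    (β := β () - t • fun z => alt1 (rot1 0 z + rot1 1 z))
    ⟨ContDiffOn.sub (hβ ()).1 (ContDiffOn.const_smul t h1.1), fun z hz => by
      rw [extDeriv_sub' ((hβ ()).1.diffAt hU hz) ((h1.1.diffAt hU hz).const_smul t),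
        extDeriv_smul, (hβ ()).2 z hz, h1.2 z hz]
      simp [smul_sub]⟩
    fun i hi' z hz => by simp only [Pi.sub_apply, Pi.smul_apply, (HU_of hi).1 i hi' z hz, h2 i hi']
  have h4 := DFunLike.congr_fun ((((HU_w.smul d.a).smul t).symm).trans h3) ![bv (2, 0), bv (2, 1)]
  simpa [wedge_apply, dc, bv, hd.ha.ne'] using h4

theorem h1U (hA : Orb atlU) (a : ℝ) {e : Unit → Fm E6 1} (he : ClF atlU e) :
    ∃ s t : ℝ, ExF atlU (e - (s • stU a 0 + t • stU a 1)) := by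
  obtain ⟨c, hc, h⟩ := HU_torus hA he
  have e1 : c - (c ![bv (2, 0)] • alt1 (dc (2, 0)) + c ![bv (2, 1)] • alt1 (dc (2, 1))) = 0 := by
    refine (hc.sub (((HU_h1 0).smul _).add ((HU_h1 1).smul _))).eq_zero fun r hr => ?_
    have e2 : (fun a => bv (r a)) = ![bv (r 0)] := by funext a; fin_cases a; rfl
    rw [e2]
    rcases Finset.mem_insert.1 (hr 0) with h' | h'
    · simp [h', alt1_apply, dc, bv]
    · simp [Finset.mem_singleton.1 h', alt1_apply, dc, bv]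
  refine ⟨c ![bv (2, 0)], c ![bv (2, 1)], (h.sub hA ⟨_, ((HU_st hA a 0).smul hA (c ![bv (2, 0)])).add hA
    ((HU_st hA a 1).smul hA (c ![bv (2, 1)]))⟩).congr fun _ z _ => ?_⟩
  simp only [Pi.sub_apply, Pi.add_apply, Pi.smul_apply, smul_sub]
  rw [← sub_zero (e _ z - _), ← e1]
  abel


end Pool.Agent.Work.MP_bf98aa_gt.B3
end
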