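import Pool.Agent.Work.MP_bf98aa_gt.B3.HL
import Pool.Agent.Work.MP_bf98aa_gt.B3.F1
import Pool.Agent.Work.MP_bf98aa_gt.B3.HO1

-- merged part: Pool.Agent.Work.MP_bf98aa_gt.B3.HS1
section
-- merged part: Pool.Agent.Work.MP_bf98aa_gt.B3.HS1
section
/-!
Symmetric forms on slabs: algebra, and primitives of pairs.
PLAN. `Sy.lat`: `per_int` (`lv l = ∑ i ∈ SX, ..`). `Sy.pb_ML`: an integer matrix normalises the lattice; `g ∘ io = (g - lv l') ∘ ..`: `kb (io z) = io (kb z) + lv c`, `gb (io z) = io (gb z)`;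
`PP` commutes. `torusPair`: glue to one slab `Slab (-1/8) (M_A + M_B + 1/8)`: `γ z = β true z` for `z (2,0) < M_A`, `ε • pb (gb true) (β false) z` otherwise (the two agree on `Mid`);
apply `torusE`, and put `c false = ε • c ∘ ML (G false) (-1)`, `γ false = ε • pb (gb false) γ`; `gb (!b) (gb b z) = z` (`GD.Ok.rGG`).
-/

set_option autoImplicit false

open scoped Manifold ContDiff Topology Matrix ComplexConjugate
open Set Complex Filter

namespace Pool.Agent.Work.MP_bf98aa_gt.B3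

open Pool.Agent.Work.MP_bf98aa_gt.Th Pool.Agent.Work.MP_bf98aa_gt.Cy

variable {k : ℕ} {S : Finset Cx} {U U' : Set E6} {β β' : Fm E6 k}

theorem HS1_pbA (L : E6 →L[ℝ] E6) (c : E6) (β : Fm E6 k) (z : E6) :
    pb (fun y => L y + c) β z = (β (L z + c)).compContinuousLinearMap L := by
  rw [pb, (L.hasFDerivAt.add_const c).fderiv]

theorem HS1_pbT (c : E6) (β : Fm E6 k) (z : E6) : pb (fun y => y + c) β z = β (z + c) :=
  HS1_pbA (ContinuousLinearMap.id ℝ E6) c β z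

theorem HS1_PP {μ₀ : ℝ} (hU : DomE S U μ₀) {z : E6} (hz : z ∈ U) : PP z ∈ U := by
  have e : PP z = z + (-z (2, 1)) • bv (2, 1) := by apply ext6 <;> simp [PP, bv]
  exact e ▸ hU.ang z hz _

theorem HS1_bv {μ₀ : ℝ} (hU : DomE S U μ₀) {i : Cx} (hi : i ∈ S) {z : E6} (hz : z ∈ U) :
    z + bv i ∈ U := by
  simpa using hU.inv i hi z hz 1

theorem HS1_xv (a b : E6) : xv (a + b) = xv a + xv b := by
  funext i; fin_cases i <;> rfl

theorem HS1_d {f : E6 → E6} {z : E6} (hU : IsOpen U) (hs : Sm β U) (hz : z ∈ U) (hf : ContDiff ℝ ∞ f)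
    (hm : f z ∈ U) (h : ∀ y ∈ U, pb f β y = β y) : pb f (extDeriv β) z = extDeriv β z := by
  rw [← extDeriv_pb (hs.diffAt hU hm) hf.contDiffAt]
  exact Filter.EventuallyEq.extDeriv_eq ((hU.eventually_mem hz).mono h)

theorem Sy.mono (h : Sy S U β) (hs : U' ⊆ U) : Sy S U' β := by
  exact ⟨fun i hi z hz => h.per i hi z (hs hz), fun z hz => h.evn z (hs hz),
    fun z hz => h.bas z (hs hz)⟩

theorem Sy.sub_dir {S' : Finset Cx} (h : Sy S U β) (hs : S' ⊆ S) : Sy S' U β := by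
  exact ⟨fun i hi => h.per i (hs hi), h.evn, h.bas⟩

theorem Sy.zero : Sy S U (0 : Fm E6 k) := by
  exact ⟨fun _ _ _ _ => rfl, fun _ _ => rfl, fun _ _ => rfl⟩

theorem Sy.add (h : Sy S U β) (h' : Sy S U β') : Sy S U (β + β') := by
  exact ⟨fun i hi z hz => congrArg₂ (· + ·) (h.per i hi z hz) (h'.per i hi z hz),
    fun z hz => congrArg₂ (· + ·) (h.evn z hz) (h'.evn z hz),
    fun z hz => congrArg₂ (· + ·) (h.bas z hz) (h'.bas z hz)⟩

theorem Sy.sub (h : Sy S U β) (h' : Sy S U β') : Sy S U (β - β') := by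
  exact ⟨fun i hi z hz => congrArg₂ (· - ·) (h.per i hi z hz) (h'.per i hi z hz),
    fun z hz => congrArg₂ (· - ·) (h.evn z hz) (h'.evn z hz),
    fun z hz => congrArg₂ (· - ·) (h.bas z hz) (h'.bas z hz)⟩

theorem Sy.smul (h : Sy S U β) (t : ℝ) : Sy S U (t • β) := by
  exact ⟨fun i hi z hz => congrArg (t • ·) (h.per i hi z hz),
    fun z hz => congrArg (t • ·) (h.evn z hz), fun z hz => congrArg (t • ·) (h.bas z hz)⟩

theorem Sy.lev (h : Sy S U β) (hS : S ⊆ SX) (r : ℝ → ℝ) :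
    Sy S U fun z => r (z (2, 0)) • β z := by
  refine ⟨fun i hi z hz => ?_, fun z hz => congrArg (r (z (2, 0)) • ·) (h.evn z hz),
    fun z hz => congrArg (r (z (2, 0)) • ·) (h.bas z hz)⟩
  have e : bv i (2, 0) = 0 := Pi.single_eq_of_ne (fun e => by
    subst e; exact absurd (hS hi) (by decide)) _
  rw [h.per i hi z hz, Pi.add_apply, e, add_zero]

theorem Sy.congr {μ₀ : ℝ} (hU : DomE S U μ₀) (h : Sy S U β) (he : ∀ z ∈ U, β' z = β z) :
    Sy S U β' := by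
  exact ⟨fun i hi z hz => by rw [he _ (HS1_bv hU hi hz), he z hz, h.per i hi z hz],
    fun z hz => by rw [pb_congr' (he _ (hU.io hz)), he z hz, h.evn z hz],
    fun z hz => by rw [pb_congr' (he _ (HS1_PP hU hz)), he z hz, h.bas z hz]⟩

theorem sy_const {c : Alt E6 2} (h : Hor SX c) : Sy S U fun _ => c := by
  have e : ∀ v : Fin 2 → E6, c (fun i => slice SX 0 (v i)) = c v := fun v =>
    (congrArg c (funext fun i => (G6_L_apply _ _).symm)).trans (DFunLike.congr_fun h v)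
  refine ⟨fun _ _ _ _ => rfl, fun z _ => ?_, fun z _ => ?_⟩
  · rw [pb, funext io_eq, ContinuousLinearMap.fderiv]
    ext v
    have e1 := c.map_smul_univ (fun _ => (-1 : ℝ)) fun i => slice SX 0 (v i)
    rw [e, Fin.prod_univ_two, neg_mul_neg, one_mul, one_smul] at e1
    refine (e _).symm.trans ((congrArg c (funext fun i => ?_)).trans e1)
    apply ext6 <;> simp [slice, SX, ML_apply, Matrix.neg_mulVec]
  · obtain ⟨L, hL⟩ := exists_PL
    rw [pb, funext hL, ContinuousLinearMap.fderiv]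
    ext v
    refine (e _).symm.trans ((congrArg c (funext fun i => ?_)).trans (e v))
    apply ext6 <;> simp [slice, SX, ← hL, PP]

theorem Sy.extDeriv {μ₀ : ℝ} (hU : DomE S U μ₀) (h : Sy S U β) (hs : Sm β U) :
    Sy S U (extDeriv β) := by
  exact ⟨fun i hi z hz => (HS1_pbT _ _ z).symm.trans (HS1_d hU.opn hs hz
      (contDiff_id.add contDiff_const) (HS1_bv hU hi hz) fun y hy =>
        (HS1_pbT _ _ y).trans (h.per i hi y hy)),
    fun z hz => HS1_d hU.opn hs hz contDiff_io (hU.io hz) h.evn,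
    fun z hz => HS1_d hU.opn hs hz contDiff_PP (HS1_PP hU hz) h.bas⟩

theorem Sy.shift {μ₀ : ℝ} (hU : DomE S U μ₀) (h : Sy S U β) {z : E6} (hz : z ∈ U) (s : ℝ) :
    β (z + s • bv (2, 1)) = β z := by
  refine bas_congr (h.bas z hz) (h.bas _ (hU.ang z hz s)) ?_
  apply ext6 <;> simp [PP, bv]

theorem Sy.lat {a b : ℝ} (h : Sy SX (Slab a b) β) (l : L4) {z : E6} (hz : z ∈ Slab a b) :
    β (z + lv l) = β z := by
  have e : lv l = ∑ i ∈ SX, ((![![l 0, l 1], ![l 2, l 3], ![0, 0]] i.1 i.2 : ℤ) : ℝ) • bv i := by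
    apply ext6 <;> simp [SX, lv, bv, rv]
  rw [e]
  exact per_int (domE_slab hz.1 hz.2).inv h.per _ hz

theorem Sy.pb_aff {a b : ℝ} (h : Sy SX (Slab a b) β) (l : L4) (e : Bool) {z : E6}
    (hz : z ∈ Slab a b) : pb (fun y => cond e (io y) y + lv l) β z = β z := by
  cases e
  · exact (HS1_pbT _ β z).trans (h.lat l hz)
  · refine (pb_comp (g := fun y => y + lv l) β (contDiff_io.differentiable (by simp) z)
      (by fun_prop)).trans ((pb_congr' ?_).trans (h.evn z hz))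
    exact (HS1_pbT _ β _).trans (h.lat l hz)

theorem Sy.zero_aff {a b : ℝ} (h : Sy SX (Slab a b) β) (l : L4) (e : Bool) {z y : E6}
    (hz : z ∈ Slab a b) (hy : PP y = PP (cond e (io z) z + lv l)) (h0 : β z = 0) : β y = 0 := by
  have h1 : cond e (io z) z ∈ Slab a b := by cases e <;> exact hz
  have h2 : cond e (io z) z + lv l ∈ Slab a b := by simpa [Slab, lv] using h1
  have h3 : y ∈ Slab a b := by
    have e1 : y (2, 0) = (cond e (io z) z + lv l) (2, 0) := congrFun hy (2, 0)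
    exact ⟨h2.1.trans_eq e1.symm, e1.trans_lt h2.2⟩
  rw [bas_congr (h.bas _ h2) (h.bas _ h3) hy, h.lat l h1]
  cases e
  · exact h0
  · have e2 : io (io z) = z := by apply ext6 <;> simp [io]
    change β (io z) = 0
    rw [← h.evn (io z) h1, pb, e2, h0]
    rfl

theorem kb_mem (d : HD) {z : E6} (hz : z ∈ QF) : d.kb z ∈ QF := by
  have e : d.kb z (2, 0) = -1 * z (2, 0) + 0 := rfl
  exact ⟨by linarith only [e, hz, hz.2], by linarith only [e, hz, hz.1]⟩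

theorem HD.Ok.kb_kb {d : HD} (h : d.Ok) (z : E6) : d.kb (d.kb z) = z := by
  refine ext4 ?_ (by simp [HD.kb, ML_apply]) (by simp [HD.kb, ML_apply])
  simp [HD.kb, ML_apply, HS1_xv, Matrix.mulVec_add, Matrix.mulVec_smul, h.rTT, ← rv_mulVec, h.Tc,
    rv_neg]

theorem HS1_M {d : HD} (h : d.Ok) : 3 ≤ d.M := by
  linarith [h.hμ, show d.M = d.μ₁ + 1 from rfl]

theorem HD.Ok.QF_sub {d : HD} (h : d.Ok) : QF ⊆ d.Q := by
  exact fun z hz => ⟨hz.1, by linarith only [hz, h, hz.2, HS1_M h]⟩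

theorem HD.Ok.Mid_sub {d : HD} (h : d.Ok) : d.Mid ⊆ d.Q := by
  exact fun z hz => ⟨by linarith only [hz, h, hz.1, HS1_M h], hz.2⟩

theorem HD.Ok.Tube_sub {d : HD} (h : d.Ok) {ε : ℝ} (hε : ε ≤ 1 / 4) : d.Tube ε ⊆ d.Q := by
  intro z hz
  have h1 : |z (2, 0) - d.μ₁| < ε := hz.2.2
  have h2 : d.M = d.μ₁ + 1 := rfl
  rw [abs_lt] at h1
  exact ⟨by linarith only [hε, h1, h, h.hμ], by linarith only [hε, h1, h2]⟩

theorem HD.Ok.domE_Q {d : HD} (h : d.Ok) : DomE SX d.Q 0 := by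
  exact domE_slab (by norm_num) (by linarith only [h, HS1_M h])

theorem domE_QF : DomE SX QF 0 := by
  exact domE_slab (by norm_num) (by norm_num)

theorem HS1_aff {a b a' b' m : ℝ} (h : Sy SX (Slab a b) β) (A : Z4) {x : V4} {c : L4}
    (hx : rv c = x + x) (hm : ∀ z ∈ Slab a' b', ML (rm A) (-1) z + mk4 x m 0 ∈ Slab a b) :
    Sy SX (Slab a' b') (pb (fun z => ML (rm A) (-1) z + mk4 x m 0) β) := by
  have hf : Differentiable ℝ fun z => ML (rm A) (-1) z + mk4 x m 0 := by fun_prop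
  have hi := contDiff_io.differentiable (by simp)
  have hP := contDiff_PP.differentiable (by simp)
  refine ⟨fun i hi z hz => ?_, fun z hz => ?_, fun z hz => ?_⟩
  · obtain ⟨l, e⟩ : ∃ l : L4, bv i = lv l := by
      simp only [SX, Finset.mem_insert, Finset.mem_singleton] at hi
      rcases hi with rfl | rfl | rfl | rfl
      · exact ⟨![1, 0, 0, 0], by apply ext6 <;> simp [bv, lv, rv]⟩
      · exact ⟨![0, 1, 0, 0], by apply ext6 <;> simp [bv, lv, rv]⟩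
      · exact ⟨![0, 0, 1, 0], by apply ext6 <;> simp [bv, lv, rv]⟩
      · exact ⟨![0, 0, 0, 1], by apply ext6 <;> simp [bv, lv, rv]⟩
    have e1 : ML (rm A) (-1) (lv l) = lv (A *ᵥ l) := by simp [ML_apply, lv, rv_mulVec]
    rw [HS1_pbA, HS1_pbA, e, map_add, e1, add_right_comm, h.lat _ (hm z hz)]
  · refine (pb_comp β (hi z) (hf _)).symm.trans (Eq.trans ?_ ((pb_comp (g := fun y => io y + lv c)
      β (hf z) ((hi _).add_const _)).trans (pb_congr' (h.pb_aff c true (hm z hz)))))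
    refine congrArg (pb · β z) (funext fun y => ext4 ?_ ?_ ?_)
    · simp [ML_apply, HS1_xv, io, lv, hx, Matrix.mulVec_neg]
      abel
    · simp [ML_apply, io, lv]
    · simp [ML_apply, io, lv]
  · refine (pb_comp β (hP z) (hf _)).symm.trans (Eq.trans ?_
      ((pb_comp β (hf z) (hP _)).trans (pb_congr' (h.bas _ (hm z hz)))))
    refine congrArg (pb · β z) (funext fun y => ext4 ?_ ?_ ?_) <;> simp [ML_apply, HS1_xv, PP]

theorem HD.Ok.sy_kb {d : HD} (h : d.Ok) (hβ : Sy SX QF β) : Sy SX QF (pb d.kb β) := by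
  exact HS1_aff hβ d.T (c := d.c) (by rw [← add_smul, add_halves, one_smul]) fun z => kb_mem d

variable {D : GD} {ε : ℝ} {a a' : Bool → Fm E6 k}

theorem GD.contDiff_gb (D : GD) (b : Bool) : ContDiff ℝ ∞ (D.gb b) := by
  exact (ML _ _).contDiff.add contDiff_const

theorem HS1_lev (D : GD) (b : Bool) (z : E6) :
    D.gb b z (2, 0) = (D.H b).M + (D.H (!b)).M - z (2, 0) := by
  simp [GD.gb, ML_apply, sub_eq_neg_add]

theorem HS1_gg (h : D.Ok) (b : Bool) (z : E6) : D.gb (!b) (D.gb b z) = z := by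
  refine ext4 ?_ ?_ (by simp [GD.gb, ML_apply])
  · simp [GD.gb, ML_apply, HS1_xv, h.rGG]
  · rw [HS1_lev, HS1_lev, Bool.not_not]
    ring

theorem HS1_pp (h : D.Ok) (b : Bool) (β : Fm E6 k) (z : E6) :
    pb (D.gb b) (pb (D.gb (!b)) β) z = β z := by
  rw [← pb_comp β ((D.contDiff_gb _).differentiable (by simp) _)
    ((D.contDiff_gb _).differentiable (by simp) _), funext (HS1_gg h b), pb_id]

theorem HS1_sy {a b a' b' : ℝ} (h : Sy SX (Slab a b) β) (e : Bool)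
    (hm : MapsTo (D.gb e) (Slab a' b') (Slab a b)) : Sy SX (Slab a' b') (pb (D.gb e) β) :=
  HS1_aff h (D.G e) (c := 0) (by rw [rv_zero, add_zero]) hm

theorem GD.gb_mem (D : GD) (b : Bool) {z : E6} (hz : z ∈ (D.H b).Mid) :
    D.gb b z ∈ (D.H (!b)).Mid := by
  have e := HS1_lev D b z
  exact ⟨by linarith only [e, hz, hz.2], by linarith only [e, hz, hz.1]⟩

theorem GD.Pr.add (h : D.Pr ε a) (h' : D.Pr ε a') : D.Pr ε (a + a') := by
  exact ⟨fun b => (h.sm b).add (h'.sm b), fun b => (h.sy b).add (h'.sy b), fun b z hz =>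
    (congrArg₂ (· + ·) (h.mid b z hz) (h'.mid b z hz)).trans (smul_add _ _ _).symm⟩

theorem GD.Pr.sub (h : D.Pr ε a) (h' : D.Pr ε a') : D.Pr ε (a - a') := by
  exact ⟨fun b => (h.sm b).sub (h'.sm b), fun b => (h.sy b).sub (h'.sy b), fun b z hz =>
    (congrArg₂ (· - ·) (h.mid b z hz) (h'.mid b z hz)).trans (smul_sub _ _ _).symm⟩

theorem GD.Ok.pr_low (h : D.Ok) (h1 : ∀ b, Sm (a b) (D.H b).Q) (h2 : ∀ b, Sy SX (D.H b).Q (a b))
    (h3 : ∀ b, ∀ z ∈ (D.H b).Mid, a b z = 0) : D.Pr ε a := by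
  refine ⟨h1, h2, fun b z hz => ?_⟩
  rw [pb, h3 _ _ (D.gb_mem b hz), h3 b z hz, smul_zero]
  rfl

theorem GD.Ok.pr_d (h : D.Ok) (ha : D.Pr ε a) : D.Pr ε fun b => extDeriv (a b) := by
  refine ⟨fun b => (ha.sm b).extDeriv (h.ok b).domE_Q.opn,
    fun b => (ha.sy b).extDeriv (h.ok b).domE_Q (ha.sm b), fun b z hz => ?_⟩
  rw [← extDeriv_pb ((ha.sm _).diffAt (h.ok _).domE_Q.opn ((h.ok _).Mid_sub (D.gb_mem b hz)))
    (D.contDiff_gb b).contDiffAt, ← extDeriv_smul]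
  exact Filter.EventuallyEq.extDeriv_eq
    (((domE_slab hz.1 hz.2).opn.eventually_mem hz).mono (ha.mid b))

theorem GD.pr_const (D : GD) {c : Bool → Alt E6 2} (h1 : ∀ b, Hor SX (c b))
    (h2 : ∀ b, (c (!b)).compContinuousLinearMap (ML (rm (D.G b)) (-1)) = c b) :
    D.Pr 1 fun b _ => c b := by
  exact ⟨fun _ => contDiffOn_const, fun b => sy_const (h1 b), fun b z _ =>
    (HS1_pbA _ _ _ z).trans ((h2 b).trans (one_smul _ _).symm)⟩

theorem GD.Ok.torusPair (h : D.Ok) (hε : ε = 1 ∨ ε = -1) {w : Bool → Fm E6 (k + 1)}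
    (hw : D.Pr ε w) (hc : ∀ b, ∀ z ∈ (D.H b).Q, extDeriv (w b) z = 0) :
    ∃ (c : Bool → Alt E6 (k + 1)) (γ : Bool → Fm E6 k), (∀ b, Hor SX (c b)) ∧
      (Odd (k + 1) → ∀ b, c b = 0) ∧
      (∀ b, (c (!b)).compContinuousLinearMap (ML (rm (D.G b)) (-1)) = ε • c b) ∧ D.Pr ε γ ∧
      ∀ b, ∀ z ∈ (D.H b).Q, extDeriv (γ b) z = w b z - c b := by
  have hε2 : ∀ {n : ℕ} (x : Alt E6 n), ε • ε • x = x := fun x => by
    rw [smul_smul, show ε * ε = 1 by rcases hε with rfl | rfl <;> norm_num, one_smul]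
  have hA := HS1_M (h.ok true)
  have hB := HS1_M (h.ok false)
  have d1 : DomE SX (Slab ((D.H true).M - 1 / 8) ((D.H true).M + (D.H false).M + 1 / 8))
    (D.H true).M := domE_slab (by linarith only []) (by linarith only [hB])
  have d2 : DomE SX (Slab (-1 / 8) ((D.H true).M + (D.H false).M + 1 / 8)) 0 :=
    domE_slab (by norm_num) (by linarith only [hA, hB])
  set V := Slab ((D.H true).M - 1 / 8) ((D.H true).M + (D.H false).M + 1 / 8)
  set U := Slab (-1 / 8) ((D.H true).M + (D.H false).M + 1 / 8)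
  have m1 : MapsTo (D.gb true) V (D.H false).Q := fun z hz => by
    have e : _ = (D.H true).M + (D.H false).M - _ := HS1_lev D true z
    exact ⟨by linarith only [e, hz, hz.2], by linarith only [e, hz, hz.1]⟩
  have m2 : MapsTo (D.gb false) (D.H false).Q V := fun z hz => by
    have e : _ = (D.H false).M + (D.H true).M - _ := HS1_lev D false z
    exact ⟨by linarith only [e, hz, hz.2], by linarith only [e, hz, hz.1]⟩
  have s1 : (D.H true).Q ⊆ U := fun z hz => ⟨hz.1, by linarith only [hB, hz, hz.2]⟩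
  have s2 : V ⊆ U := fun z hz => ⟨by linarith only [hA, hz, hz.1], hz.2⟩
  have s3 : U ⊆ (D.H true).Q ∪ V := fun z hz => (lt_or_ge (z (2, 0)) (D.H true).M).imp
    (fun e => ⟨hz.1, by linarith only [e]⟩) fun e => ⟨by linarith only [e], hz.2⟩
  let W : Fm E6 (k + 1) := fun z =>
    if z (2, 0) < (D.H true).M then w true z else (ε • pb (D.gb true) (w false)) z
  have e1 : ∀ z ∈ (D.H true).Q, W z = w true z := fun z hz => ite_eq_left_iff.2 fun e =>
    (congrArg (ε • ·) (hw.mid true z ⟨by linarith only [e, not_lt.1 e], hz.2⟩)).trans (hε2 _)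
  have e2 : ∀ z ∈ V, W z = (ε • pb (D.gb true) (w false)) z := fun z hz => ite_eq_right_iff.2 fun e =>
    ((congrArg (ε • ·) (hw.mid true z ⟨hz.1, by linarith only [e]⟩)).trans (hε2 _)).symm
  have y1 := (hw.sy true).congr (h.ok true).domE_Q e1
  have y2 := ((HS1_sy (hw.sy false) true m1).smul ε).congr d1 e2
  have c2 := Cl.pb ⟨hw.sm false, hc false⟩ d1.opn (h.ok false).domE_Q.opn
    (D.contDiff_gb true).contDiffOn m1
  obtain ⟨c, β, h1, h2, h3, h4⟩ := torusE d2 (α := W)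
    ⟨(((hw.sm true).congr e1).union_of_isOpen ((c2.1.const_smul ε).congr e2)
      (h.ok true).domE_Q.opn d1.opn).mono s3, fun z hz => (s3 hz).elim
      (fun e => (Filter.EventuallyEq.extDeriv_eq
        (((h.ok true).domE_Q.opn.eventually_mem e).mono e1)).trans (hc true z e)) fun e => by
      rw [Filter.EventuallyEq.extDeriv_eq ((d1.opn.eventually_mem e).mono e2), extDeriv_smul,
        c2.2 z e, smul_zero]⟩
    ⟨fun i hi z hz => (s3 hz).elim (y1.per i hi z) (y2.per i hi z),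
      fun z hz => (s3 hz).elim (y1.evn z) (y2.evn z), fun z hz => (s3 hz).elim (y1.bas z) (y2.bas z)⟩
  have p2 := h3.pb (h.ok false).domE_Q.opn d2.opn (D.contDiff_gb false).contDiffOn
    (m2.mono_right s2)
  have e3 := ((HS1_pbA _ _ _ 0).trans (congrArg (ContinuousAlternatingMap.compContinuousLinearMap · _)
    (HS1_pbA _ _ (fun _ => c) _))).symm.trans (HS1_pp h true (fun _ => c) 0)
  refine ⟨fun b => cond b c (ε • c.compContinuousLinearMap (ML (rm (D.G false)) (-1))),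
    fun b => cond b β (ε • pb (D.gb false) β), Bool.forall_bool.2 ⟨(h1.ML _ _).smul ε, h1⟩,
    fun ho => Bool.forall_bool.2 ⟨by rw [h2 ho]; exact smul_zero ε, h2 ho⟩,
    Bool.forall_bool.2 ⟨(hε2 _).symm, (congrArg (ε • ·) e3 :)⟩,
    ⟨Bool.forall_bool.2 ⟨p2.1.const_smul ε, h3.1.mono s1⟩,
      Bool.forall_bool.2 ⟨(HS1_sy h4 false (m2.mono_right s2)).smul ε, h4.mono s1⟩,
      Bool.forall_bool.2 ⟨fun z _ => (hε2 _).symm,
        fun z _ => congrArg (ε • ·) (HS1_pp h true β z)⟩⟩,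
    Bool.forall_bool.2 ⟨fun z hz => ?_, fun z hz => (h3.2 z (s1 hz)).trans (congrArg (· - c) (e1 z hz))⟩⟩
  refine (extDeriv_smul ε _).trans ((congrArg (ε • ·) (p2.2 z hz)).trans
    ((smul_sub ε (pb (D.gb false) W z) (pb (D.gb false) (fun _ => c) z)).trans
      (congrArg₂ (· - ·) ?_ (congrArg (ε • ·) (HS1_pbA _ _ _ z)))))
  rw [pb_congr' (e2 _ (m2 hz))]
  exact (hε2 _).trans (HS1_pp h false (w false) z)


end Pool.Agent.Work.MP_bf98aa_gt.B3
end

-- merged part: Pool.Agent.Work.MP_bf98aa_gt.B3.HNa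
section
/-!
Auxiliary facts for `HN`: free points, flat connections, equivariant changes of gauge.
-/

set_option autoImplicit false

open scoped Manifold ContDiff Topology Matrix ComplexConjugate
open Set Complex Filter

namespace Pool.Agent.Work.MP_bf98aa_gt.B3

open Pool.Agent.Work.MP_bf98aa_gt.Th Pool.Agent.Work.MP_bf98aa_gt.Cy

theorem HNa_dense : Dense {z : E6 | ∀ i, Irrational (z i)} := by
  have := dense_pi (s := fun _ : Cx => {x : ℝ | Irrational x}) univ fun _ _ => dense_irrational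
  simpa only [Set.pi, mem_univ, true_implies, mem_ofPred_eq] using this

theorem HNa_half {x : ℝ} (h : Irrational x) (n : ℤ) : -x + n ≠ x := fun e =>
  h ⟨(n : ℚ) / 2, by push_cast; linarith only [e]⟩

theorem HNa_sh (s : ℝ) {c : K3} (hc : c ≠ .f) (z : E6) : act s c z = z + s • bv (2, 1) := by
  cases c
  · exact HD.N4_sh z s
  · exact HD.N4_sh z s
  · exact absurd rfl hc

theorem HNa_PP {y z : E6} : PP y = PP z ↔ xv y = xv z ∧ y (2, 0) = z (2, 0) :=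
  ⟨fun e => ⟨by simpa only [PP, xv_mk4] using congrArg xv e, congrFun e (2, 0)⟩,
    fun e => by rw [PP, PP, e.1, e.2]⟩

theorem HNa_xv (e : Bool) (z : E6) : xv (cond e (io z) z) = cond e (-xv z) (xv z) := by
  cases e
  exacts [rfl, xv_mk4 _ _ _]

theorem HNa_lev (e : Bool) (z : E6) : cond e (io z) z (2, 0) = z (2, 0) := by
  cases e <;> rfl

theorem HNa_lv (z : E6) (l : L4) : xv (z + lv l) = xv z + rv l ∧ (z + lv l) (2, 0) = z (2, 0) :=
  ⟨by rw [HS1_xv, lv, xv_mk4], add_zero _⟩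

theorem HNa_comp {f g : E6 → E6} {l l' l'' : F1} {a b : ℝ} (hf : Differentiable ℝ f)
    (hg : Differentiable ℝ g) (h1 : ∀ z, pb1 f l' z = a • l z) (h2 : ∀ z, pb1 g l'' z = b • l' z)
    (z : E6) : pb1 (fun x => g (f x)) l'' z = (b * a) • l z := by
  ext v
  have e1 := congrArg (fun L => L v) (h1 z)
  have e2 := congrArg (fun L => L (fderiv ℝ f z v)) (h2 (f z))
  simp only [pb1_apply, smul_apply, smul_eq_mul] at e1 e2 ⊢
  rw [fderiv_fun_comp z (hg _) (hf _), ContinuousLinearMap.comp_apply, e2, e1, mul_assoc]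

theorem HNa_id (l : F1) (z : E6) : pb1 id l z = (1 : ℝ) • l z := by
  ext v; simp [pb1_apply]

theorem HNa_hor {k : ℕ} {S : Finset Cx} {e : Alt E6 k} (he : Hor S e) {f g : E6 → E6} {z : E6}
    (hf : DifferentiableAt ℝ f z) (hg : DifferentiableAt ℝ g z) {c : E6}
    (h : ∀ y, G6_L S (f y) = G6_L S (g y) + c) :
    pb f (fun _ => e) z = pb g (fun _ => e) z := by
  have a := ((G6_L S).hasFDerivAt.comp z hf.hasFDerivAt).fderiv
  have b := (((G6_L S).hasFDerivAt.comp z hg.hasFDerivAt).add_const c).fderiv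
  have e' : (G6_L S).comp (fderiv ℝ f z) = (G6_L S).comp (fderiv ℝ g z) := by
    rw [← a, ← b]
    exact congrArg (fderiv ℝ · z) (funext h)
  unfold pb
  rw [← he]
  ext v
  simp only [ContinuousAlternatingMap.compContinuousLinearMap_apply]
  congr 1
  funext i
  exact congrArg (fun L => L (v i)) e'

theorem HNa_L (y : E6) : G6_L SY y = mkc 0 (cc 1 y) 0 := by
  apply ext6 <;> simp [G6_L, SY, dc, cc]

theorem HNa_clo {ι : Type} {A : Atl ι} (h : Pre0 A) {i j : ι} {C : Set E6} (hC : IsCompact C)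
    (hs : C ⊆ A.W j) {x : E6} (hx : x ∈ A.W i) (hf : ∃ᶠ z in 𝓝 x, ∃ y ∈ C, A.R i z j y) :
    ∃ y ∈ C, A.R i x j y := by
  obtain ⟨u, h1, h2⟩ := mem_closure_iff_seq_limit.1 (mem_closure_iff_frequently.2 hf)
  choose w w1 w2 using h1
  obtain ⟨y, hy, φ, hφ, h3⟩ := hC.tendsto_subseq w1
  exact ⟨y, hy, h.clo hx (hs hy) (mem_closure_of_tendsto
    ((h2.comp hφ.tendsto_atTop).prodMk_nhds h3) (Eventually.of_forall fun n => w2 (φ n)))⟩

namespace HD

variable {d : HD} {x y z : E6}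

theorem HNa_th (c : K3) (z v : E6) : d.th c z v =
    v (2, 1) + bf (rm (if c = .p then d.v - E23 else d.v)) (xv z) (xv v) / 2 := by
  cases c <;> simp [th, dc_apply, lf_bf] <;> ring

theorem HNa_thD (l : L4) (n : ℤ) (z : E6) : pb1 (d.Dm l n) (d.th .m) z = (1 : ℝ) • d.th .m z := by
  ext v
  simp only [pb1_apply, N3_m_fD, HNa_th, smul_apply, smul_eq_mul, Dm, xv_mk4, mk4_21, bf_add_left,
    reduceCtorEq, if_false]
  ring

theorem HNa_thI (b : Bool) (z : E6) : pb1 (cond b io id) (d.th .m) z = (1 : ℝ) • d.th .m z := by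
  cases b
  · exact HNa_id _ z
  ext v
  simp only [pb1_apply, cond, N3_m_fI, HNa_th, smul_apply, smul_eq_mul, io, xv_mk4, mk4_21,
    bf_neg_left, bf_neg_right]
  ring

theorem Ok.HNa_thK (h : d.Ok) (b : Bool) (z : E6) :
    pb1 (cond b d.ka id) (d.th .m) z = (cond b (-1) 1 : ℝ) • d.th .m z := by
  cases b
  · exact HNa_id _ z
  ext v
  simp only [pb1_apply, cond, N3_m_fK, HNa_th, smul_apply, smul_eq_mul, ka, xv_mk4, mk4_21,
    bf_add_left, bf_smul_left, reduceCtorEq, if_false, h.bf_vT, h.N1_m_cT]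
  ring

theorem Ok.HNa_thm (h : d.Ok) (γ : L4 × ℤ × Bool × Bool) (z : E6) :
    pb1 (d.gm γ) (d.th .m) z = (cond γ.2.2.1 (-1) 1 : ℝ) • d.th .m z := by
  have a : Differentiable ℝ (cond γ.2.2.2 io id) := by
    cases γ.2.2.2
    exacts [differentiable_id, fun z => (N3_m_Ism z).differentiableAt (by simp)]
  have b : Differentiable ℝ (cond γ.2.2.1 d.ka id) := by
    cases γ.2.2.1
    exacts [differentiable_id, fun z => (N3_m_Ksm z).differentiableAt (by simp)]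
  have c := HNa_comp a b (HNa_thI _) (h.HNa_thK _)
  have := HNa_comp (f := fun x => cond γ.2.2.1 d.ka id (cond γ.2.2.2 io id x)) (b.comp a)
    (fun z => (N3_m_Dsm γ.1 γ.2.1 z).differentiableAt (by simp)) c (HNa_thD _ _) z
  rwa [one_mul, mul_one] at this

theorem HNa_thp (γ : L4 × ℤ × Bool) (z : E6) : pb1 (d.gp γ) (d.th .p) z = (1 : ℝ) • d.th .p z := by
  obtain ⟨l, n, e⟩ := γ
  ext v
  have a : fderiv ℝ (d.gp (l, n, e)) z v = mk4 (cond e (-xv v) (xv v)) (v (2, 0))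
      (v (2, 1) - bf (rm (d.v - E23)) (rv l) (cond e (-xv v) (xv v)) / 2) := by
    refine N3_m_fd ((d.grp_p.sm _).differentiable (by simp) z) fun t => ?_
    cases e <;> refine ext4 ?_ rfl ?_ <;>
      simp [gp, Dp, iop, N3_m_xv, bf_add_right, bf_smul_right, bf_neg_right] <;>
      first | module | ring
  rw [pb1_apply, a, HNa_th, gp_xv, smul_apply, HNa_th]
  cases e <;>
    simp only [xv_mk4, mk4_21, cond, bf_add_left, bf_neg_left, bf_neg_right, smul_eq_mul, if_true] <;>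
    ring

theorem Ok.HNa_free (h : d.Ok) (c : K3) (hx : ∀ i, Irrational (x i)) :
    ∀ᶠ p : E6 × E6 in 𝓝 (x, x), d.atlO.R c p.1 c p.2 → p.1 = p.2 := by
  cases c
  · refine (h.grp_m.free fun γ e z => ?_).mono fun p a b => a b.2.2
    obtain ⟨l, n, k, b⟩ := γ
    have e1 := gm_level (d := d) (l, n, k, b) x
    have e2 := gm_xv (d := d) (l, n, k, b) x
    rw [e] at e1 e2
    cases k
    · cases b
      · have l0 : l = 0 := funext fun i => by simpa [rv_apply] using congrFun e2 i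
        subst l0
        have n0 : n = 0 := by simpa [gm, Dm, rv_zero, bf_zero_left] using congrFun e (2, 1)
        subst n0
        exact Dm_zero z
      · exact absurd (congrFun e2 0).symm (HNa_half (hx _) _)
    · exact absurd (by simpa using e1.symm) (HNa_half (hx (2, 0)) 0)
  · refine (d.grp_p.free fun γ e z => ?_).mono fun p a b => a b.2.2
    obtain ⟨l, n, b⟩ := γ
    have e2 := gp_xv (d := d) (l, n, b) x
    rw [e] at e2
    cases b
    · have l0 : l = 0 := funext fun i => by simpa [rv_apply] using congrFun e2 i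
      subst l0
      have n0 : n = 0 := by simpa [gp, Dp, rv_zero, bf_zero_left] using congrFun e (2, 1)
      subst n0
      exact Dp_zero z
    · exact absurd (congrFun e2 0).symm (HNa_half (hx _) _)
  · refine (d.grp_f.free fun γ e z => ?_).mono fun p a b => a b.2.2
    obtain ⟨s, t, b⟩ := γ
    have e2 := (gf_norm (d := d) (s, t, b) x).2.2
    rw [e] at e2
    cases b
    · have s0 : s = 0 := by simpa using congrArg re e2
      have t0 : t = 0 := by simpa using congrArg im e2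
      subst s0 t0
      simpa [gf] using Df_zero z
    · exact absurd (congrArg re e2).symm (HNa_half (hx (1, 0)) _)

theorem Ok.HNa_log (h : d.Ok) (h0 : d.gz x ≠ 0) (t₀ : ℝ) (ht : d.gz x = ‖d.gz x‖ * ee t₀) :
    ∃ (θ : E6 → ℝ) (U : Set E6), IsOpen U ∧ x ∈ U ∧ θ x = t₀ ∧ ContDiffOn ℝ ∞ θ U ∧
      (∀ z ∈ U, d.gz z ≠ 0) ∧ (∀ z, d.gz z = ‖d.gz z‖ * ee (θ z)) ∧
      ∀ z y, xv y = xv z → θ y = θ z ∧ (z ∈ U → y ∈ U) := by
  have g := h.contDiff_gz
  refine ⟨fun y => t₀ + (Complex.log (d.gz y / d.gz x)).im / (2 * Real.pi),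
    {y | d.gz y / d.gz x ∈ slitPlane}, isOpen_slitPlane.preimage (g.continuous.div_const _),
    by simp [div_self h0], by simp [div_self h0], fun y hy => ?_, fun y hy e => ?_, fun y => ?_,
    fun z y e => ?_⟩
  · have h2 : ContDiffAt ℝ ∞ (fun y => Complex.log (d.gz y / d.gz x)) y :=
      ContDiffAt.comp (f := fun y => d.gz y / d.gz x) y
        ((Complex.contDiffAt_log hy).restrict_scalars ℝ) (g.contDiffAt.div_const _)
    exact (contDiffAt_const.add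
      ((Complex.imCLM.contDiff.contDiffAt.comp y h2).div_const _)).contDiffWithinAt
  · simp [e] at hy
  · have h1 := K1_arg (d.gz y / d.gz x)
    have h2 : (‖d.gz x‖ : ℂ) ≠ 0 := by exact_mod_cast norm_ne_zero_iff.2 h0
    rw [ee_add, Complex.log_im]
    calc d.gz y = d.gz x * (d.gz y / d.gz x) := by field_simp
      _ = (‖d.gz x‖ * ee t₀) * (‖d.gz y / d.gz x‖ * ee (arg (d.gz y / d.gz x) / (2 * Real.pi))) := by
          rw [← ht, ← h1]
      _ = _ := by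
          rw [norm_div]
          push_cast
          field_simp
  · have e' : d.gz y = d.gz z := by
      rw [gz, gz, ← xv_2 y, ← xv_3 y, e]; rfl
    simp only [e', mem_ofPred_eq, imp_self, and_self]

/-- Local changes of gauge in both directions. -/
theorem Ok.HNa_gauge (h : d.Ok) (hs : d.Smp x y) : ∃ (θ : E6 → ℝ) (U : Set E6), IsOpen U ∧
    ContDiffOn ℝ ∞ θ U ∧ x ∈ U ∧ y ∈ U ∧ act (θ x) .m x = y ∧ act (-θ y) .p y = x ∧
    (∀ z y, xv y = xv z → y (2, 0) = z (2, 0) → θ y = θ z ∧ (z ∈ U → y ∈ U)) ∧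
    ∀ z ∈ U, d.Smp z (act (θ z) .m z) ∧ d.Smp (act (-θ z) .p z) z := by
  obtain ⟨l1, l2, l3, -, -⟩ := h.Smp_lev hs
  obtain ⟨-, -, hx, hl, he⟩ := hs
  obtain ⟨θ, U, u1, u2, u3, u4, u5, u6, u7⟩ :=
    h.HNa_log l3 (y (2, 1) - (x (2, 1) - x (1, 0) * x (1, 1) / 2)) (by
      refine mul_left_cancel₀ (ee_ne_zero (x (2, 1) - x (1, 0) * x (1, 1) / 2)) ?_
      rw [← he, mul_left_comm, ← ee_add, add_sub_cancel, mul_comm])
  have ct := (contDiff_tt (d := d)).continuous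
  have k : ∀ z y : E6, xv y = xv z → y (2, 0) = z (2, 0) →
      θ y - y (1, 0) * y (1, 1) / 2 = θ z - z (1, 0) * z (1, 1) / 2 ∧
      (z ∈ U ∩ {z | 0 < d.tt z ∧ d.tt z < 1 / 8} → y ∈ U ∩ {z | 0 < d.tt z ∧ d.tt z < 1 / 8}) := by
    intro z y e e'
    refine ⟨by rw [(u7 z y e).1, ← xv_2 y, ← xv_3 y, e]; rfl, fun a => ⟨(u7 z y e).2 a.1, ?_⟩⟩
    simpa only [mem_ofPred_eq, tt, e'] using a.2
  have k0 := k x y hx hl
  refine ⟨fun z => θ z - z (1, 0) * z (1, 1) / 2, U ∩ {z | 0 < d.tt z ∧ d.tt z < 1 / 8},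
    u1.inter ((isOpen_lt continuous_const ct).inter (isOpen_lt ct continuous_const)),
    (u4.mono inter_subset_left).sub (((FD_co _).mul (FD_co _)).div_const _).contDiffOn,
    ⟨u2, l1, l2⟩, k0.2 ⟨u2, l1, l2⟩, ext4 ((xv_mk4 _ _ _).trans hx.symm) hl.symm ?_,
    ext4 ((xv_mk4 _ _ _).trans hx) hl ?_, k, fun z hz => ?_⟩
  · simp only [act, mk4_21, u3]; ring
  · simp only [act, mk4_21, k0.1, u3]; ring
  have μ := h.hμ
  have a := hz.2.1
  have b := hz.2.2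
  have m : z ∈ d.Wo .m := ⟨by unfold tt at a; linarith only [l1, l2, μ, a], b, .inl (u5 z hz.1)⟩
  have p : z ∈ d.Wo .p := ⟨a, by linarith only [l1, l2, b]⟩
  refine ⟨⟨m, p, xv_mk4 _ _ _, rfl, ?_⟩, (act_mem _ .m).2 m, p, (xv_mk4 _ _ _).symm, rfl, ?_⟩
  · conv_rhs => rw [u6 z]
    rw [mul_left_comm, ← ee_add, mul_comm]
    simp only [act, mk4_21]
    congr 2; ring
  · change _ * (‖d.gz z‖ : ℂ) = _ * d.gz z
    conv_rhs => rw [u6 z]
    rw [mul_left_comm, ← ee_add, mul_comm]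
    simp only [act, mk4_21, mk4_10, mk4_11, xv_2, xv_3]
    congr 2; ring

theorem HNa_Nf (hx : xv y = xv z) (hl : y (2, 0) = z (2, 0)) : y ∈ d.Nf ↔ z ∈ d.Nf := by
  simp only [Nf, mem_ofPred_eq, tt, hx, hl]

end HD

end Pool.Agent.Work.MP_bf98aa_gt.B3
end
end

-- merged part: Pool.Agent.Work.MP_bf98aa_gt.B3.HS2
section
/-!
Normalising primitives near the folds and near the kink tori.
PLAN. `fixFold`: `g' = (g - ε • pb kb g) / 2` is again a primitive of `δ = w - ε • pb kb w` (`pb kb δ = -ε δ`, `kb_kb`), `ε • pb kb g' = -g'`; `χ μ = (1 - og μ) / 2` has `χ μ + χ (-μ) = 1`, `χ = 0` for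
`1/16 ≤ μ`; `η = χ • g'` is smooth on `Q` (`FMV_cut`, or `ContDiffAt.congr_of_eventuallyEq`; define it as `0` outside `QF`), `w' = w - dη`; `pr_low`, `pr_d`.
`fixNear`: shrink `ε₀ ≤ 1/8`; `η z = χ (n z) • g (n z)` with `n z = z - lv (0, 0, round x₂, round x₃)` and `χ` a product of three even bumps in `x₂, x₃, t`, `1` on `Tube (ε₀/4)`, supported in
`|..| ≤ ε₀/2`; `η` is locally either a translate of `χ • g` or zero (`round` is locally constant off the half-integers). `yF`: `Ym` is smooth on the tube (`b_pos`), `Ym (z + bv i) = Ym z + const`,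
`Ym (io z) = -Ym z`, `Ym (PP z) = Ym z`, and `Ym (π z) = mkc 0 ⟨x₀, x₁⟩ 0` for the slice `π = slice SC (mk4 0 μ₁ 0)`. `yF_cls`: `torusE` gives `yF dyy - c = dg`; pull back by `π` and use `cst_zero`.
-/

set_option autoImplicit false

open scoped Manifold ContDiff Topology Matrix ComplexConjugate
open Set Complex Filter

namespace Pool.Agent.Work.MP_bf98aa_gt.B3

open Pool.Agent.Work.MP_bf98aa_gt.Th Pool.Agent.Work.MP_bf98aa_gt.Cy

variable {k : ℕ} {D : GD} {d : HD} {ε : ℝ}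

theorem HS2_cut {S : Finset Cx} {U U' : Set E6} {g : Fm E6 k} (hs : Sy S U g) {χ : E6 → ℝ}
    (h1 : ∀ i ∈ S, ∀ z, χ (z + bv i) = χ z) (h2 : ∀ z, χ (io z) = χ z) (h3 : ∀ z, χ (PP z) = χ z)
    (h0 : ∀ z ∈ U', z ∉ U → χ z = 0) : Sy S U' fun z => χ z • g z := by
  refine ⟨fun i hi z hz => ?_, fun z hz => ?_, fun z hz => ?_⟩ <;> by_cases hU : z ∈ U
  · rw [h1 i hi, hs.per i hi z hU]
  · rw [h1 i hi, h0 z hz hU, zero_smul, zero_smul]
  · rw [pb_fun_smul, h2, hs.evn z hU]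
  · rw [pb_fun_smul, h2, h0 z hz hU, zero_smul, zero_smul]
  · rw [pb_fun_smul, h3, hs.bas z hU]
  · rw [pb_fun_smul, h3, h0 z hz hU, zero_smul, zero_smul]

theorem HS2_sub (h : D.Ok) {w : Bool → Fm E6 (k + 1)} (hw : D.Pr ε w) {η : Bool → Fm E6 k}
    (h1 : ∀ b, Sm (η b) (D.H b).Q) (h2 : ∀ b, Sy SX (D.H b).Q (η b))
    (h3 : ∀ b, ∀ z ∈ (D.H b).Mid, η b z = 0) : D.Pr ε (w - fun b => extDeriv (η b)) ∧
      ∀ b, ∀ z ∈ (D.H b).Q, extDeriv ((w - fun b => extDeriv (η b)) b) z = extDeriv (w b) z := by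
  refine ⟨hw.sub (h.pr_d (h.pr_low h1 h2 h3)), fun b z hz => ?_⟩
  have ho := (h.ok b).domE_Q.opn
  have hc := IsD.cl (⟨h1 b, fun _ _ => rfl⟩ : IsD (η b) (extDeriv (η b)) _) ho
  rw [Pi.sub_apply, extDeriv_sub' ((hw.sm b).diffAt ho hz) (hc.1.diffAt ho hz), hc.2 z hz, sub_zero]

theorem HS2_smul {U : Set E6} {β : Fm E6 k} {α : Fm E6 (k + 1)} (h : IsD β α U) (t : ℝ) :
    IsD (t • β) (t • α) U :=
  ⟨ContDiffOn.const_smul t h.1, fun x hx => by rw [extDeriv_smul, h.2 x hx, Pi.smul_apply]⟩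

theorem HS2_kk (h : d.Ok) (β : Fm E6 k) : pb d.kb (pb d.kb β) = β := by
  have hd := d.contDiff_kb.differentiable (by simp)
  funext z
  rw [← pb_comp β (hd _) (hd _)]
  simp only [h.kb_kb, pb_id]

theorem HS2_kb0 (d : HD) (z : E6) : d.kb z (2, 0) = -z (2, 0) := by
  simp [HD.kb, ML_apply]

theorem HS2_bv0 {i : Cx} (hi : i ∈ SX) : bv i (2, 0) = 0 := by
  fin_cases hi <;> simp [bv]

theorem HS2_fold (h : d.Ok) (hε : ε * ε = 1) {w : Fm E6 (k + 1)} {g : Fm E6 k} (hs : Sy SX QF g)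
    (hg : IsD g (fun z => w z - ε • pb d.kb w z) QF) :
    ∃ η : Fm E6 k, Sm η d.Q ∧ Sy SX d.Q η ∧ (∀ z ∈ d.Mid, η z = 0) ∧
      d.Fold ε (w - extDeriv η) := by
  have hF := domE_QF.opn
  have hQ := h.domE_Q.opn
  have hk : ∀ {n : ℕ} (β : Fm E6 n), ε • pb d.kb (β - ε • pb d.kb β) = -(β - ε • pb d.kb β) := by
    intro n β
    rw [pb_sub, pb_smul, HS2_kk h, smul_sub, smul_smul, hε, one_smul, neg_sub]
  obtain ⟨g', hd, hy, hn⟩ : ∃ g' : Fm E6 k, IsD g' (w - ε • pb d.kb w) QF ∧ Sy SX QF g' ∧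
      ε • pb d.kb g' = -g' := by
    refine ⟨(1 / 2 : ℝ) • (g - ε • pb d.kb g), ?_, (hs.sub ((h.sy_kb hs).smul ε)).smul _, ?_⟩
    · have := HS2_smul (FMV_sub hF hg (HS2_smul (IsD.pb (α := w - ε • pb d.kb w) hg hF hF
        d.contDiff_kb.contDiffOn fun z => kb_mem d) ε) (α'' := (2 : ℝ) • (w - ε • pb d.kb w))
        fun z _ => by rw [hk, two_smul]; exact sub_neg_eq_add _ _) (1 / 2)
      rwa [smul_smul, one_div_mul_cancel two_ne_zero, one_smul] at this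
    · rw [pb_smul, smul_comm, hk, smul_neg]
  have h0 : ∀ z : E6, 1 / 16 ≤ z (2, 0) → (1 - og (z (2, 0))) / 2 = 0 := fun z hz => by
    rw [og_one hz, sub_self, zero_div]
  have h8 : ∀ z ∈ d.Q, z ∉ QF → 1 / 16 < z (2, 0) := fun z hz hn => by
    by_contra hc
    exact hn ⟨hz.1, by linarith only [hc, not_lt.1 hc]⟩
  have hsm : Sm (fun z : E6 => ((1 - og (z (2, 0))) / 2) • g' z) d.Q :=
    FMV_cut hQ hF (((contDiff_const.sub (contDiff_og.comp (contDiff_apply ℝ ℝ _))).div_const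
      2).contDiffOn) (fun z hz hn => ((continuous_apply (2, 0)).continuousAt.eventually
        (lt_mem_nhds (h8 z hz hn))).mono fun y hy => h0 y hy.le) (hd.1.mono inter_subset_right)
  refine ⟨_, hsm, HS2_cut hy (fun i hi z => by rw [Pi.add_apply, HS2_bv0 hi, add_zero])
    (fun _ => rfl) (fun _ => rfl) fun z hz hn => h0 z (h8 z hz hn).le, fun z hz => ?_,
    fun z hz => ?_⟩
  · rw [h0 z (by linarith only [hz, h, hz.1, h.hμ, show d.M = d.μ₁ + 1 from rfl]), zero_smul]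
  · set η := fun z : E6 => ((1 - og (z (2, 0))) / 2) • g' z
    have e : η - ε • pb d.kb η = g' := by
      funext y
      have := congrFun hn y
      simp only [η, Pi.sub_apply, Pi.smul_apply, pb_fun_smul, HS2_kb0, og_neg] at this ⊢
      rw [smul_comm, this, Pi.neg_apply]
      module
    have d1 := hsm.diffAt hQ (h.QF_sub (kb_mem d hz))
    have d2 := (Sm.pb (hsm.mono h.QF_sub) hF hF d.contDiff_kb.contDiffOn
      fun z => kb_mem d).diffAt hF hz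
    have e' := hd.2 z hz
    rw [← e, extDeriv_sub' (hsm.diffAt hQ (h.QF_sub hz)) (d2.const_smul ε), extDeriv_smul,
      extDeriv_pb d1 d.contDiff_kb.contDiffAt, Pi.sub_apply, Pi.smul_apply] at e'
    rw [pb_sub, Pi.sub_apply, Pi.sub_apply, ← one_smul ℝ (_ - _), ← hε, mul_smul, smul_sub ε]
    congr 1
    linear_combination (norm := abel1) e'

theorem GD.Ok.fixFold (h : D.Ok) (hε : ε = 1 ∨ ε = -1) {w : Bool → Fm E6 (k + 1)} (hw : D.Pr ε w)
    {g : Bool → Fm E6 k} (hs : ∀ b, Sy SX QF (g b))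
    (hg : ∀ b, IsD (g b) (fun z => w b z - ε • pb (D.H b).kb (w b) z) QF) :
    ∃ w' : Bool → Fm E6 (k + 1), D.Pr ε w' ∧ (∀ b, (D.H b).Fold ε (w' b)) ∧
      ∀ b, ∀ z ∈ (D.H b).Q, extDeriv (w' b) z = extDeriv (w b) z := by
  choose η h1 h2 h3 h4 using fun b =>
    HS2_fold (h.ok b) (by rcases hε with rfl | rfl <;> norm_num) (hs b) (hg b)
  exact ⟨_, (HS2_sub h hw h1 h2 h3).1, h4, (HS2_sub h hw h1 h2 h3).2⟩

theorem HS2_round {s : ℝ} {n : ℤ} (h : |s - n| < 1 / 2) : round s = n :=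
  round_eq_iff.2 ⟨by linarith only [h, (abs_lt.1 h).1], by linarith only [h, (abs_lt.1 h).2]⟩

theorem HS2_lin {f : E6 → E6} (L : E6 →L[ℝ] E6) (hf : ∀ z, f z = L z) {β β' : Fm E6 k} {z z' : E6}
    (h : β' (f z) = β (f z')) : pb f β' z = pb f β z' := by
  obtain rfl : f = L := funext hf
  simp only [pb, L.fderiv, h]

theorem HS2_io {i : Cx} (hi : i ∈ SX) (z : E6) (r : ℝ) : io z i = -z i ∧ PP z i = z i ∧
    io z - -r • bv i = io (z - r • bv i) ∧ PP z - r • bv i = PP (z - r • bv i) := by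
  fin_cases hi <;> refine ⟨rfl, rfl, ?_, ?_⟩ <;> apply ext6 <;> simp [io, PP, bv] <;> ring

theorem HS2_per {S : Finset Cx} {i : Cx} (hi : i ∈ SX) {β : Fm E6 k} (hs : ContDiff ℝ ∞ β)
    (hy : Sy S univ β) (h0 : ∀ y, 1 / 4 ≤ |y i| → β y = 0) :
    ∃ β' : Fm E6 k, ContDiff ℝ ∞ β' ∧ Sy (insert i S) univ β' ∧
      (∀ z, |z i| < 1 / 2 → β' z = β z) ∧ ∀ z, ∃ r : ℝ, β' z = β (z - r • bv i) := by
  have hz : ∀ (y : E6) (r : ℝ), 1 / 4 ≤ |y i - r| → β (y - r • bv i) = 0 := fun y r h =>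
    h0 _ (by simpa [bv] using h)
  refine ⟨fun z => β (z - (round (z i) : ℝ) • bv i), contDiff_iff_contDiffAt.2 fun z => ?_,
    ⟨fun j hj z _ => ?_, fun z _ => ?_, fun z _ => ?_⟩, fun z h => ?_, fun z => ⟨_, rfl⟩⟩
  · by_cases h : |z i - round (z i)| < 1 / 2
    · refine (hs.comp (contDiff_id.sub (contDiff_const
        (c := (round (z i) : ℝ) • bv i)))).contDiffAt.congr_of_eventuallyEq ?_
      have : Continuous fun y : E6 => |y i - round (z i)| := by fun_prop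
      filter_upwards [this.continuousAt.eventually (gt_mem_nhds h)] with y hy
      rw [HS2_round hy]
      rfl
    · refine (contDiffAt_const (c := 0)).congr_of_eventuallyEq ?_
      have : Continuous fun y : E6 => |z i - y i| := by fun_prop
      filter_upwards [this.continuousAt.eventually
        (gt_mem_nhds (show |z i - z i| < 1 / 4 by simp))] with y hy
      exact hz y _ (by linarith only [h, hy, round_le (z i) (round (y i)), abs_sub_le (z i) (y i) (round (y i))])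
  · by_cases e : j = i
    · subst e
      have : (z + bv j) j = z j + 1 := by simp [bv]
      rw [this, round_add_one]
      congr 1
      push_cast
      module
    · have : (z + bv j) i = z i := by simp [bv, Ne.symm e]
      rw [this, ← hy.per j ((Finset.mem_insert.1 hj).resolve_left e) (z - _) trivial,
        add_sub_right_comm]
  · obtain ⟨e1, -, e3, -⟩ := HS2_io hi z (round (z i))
    by_cases h : |z i - round (z i)| < 1 / 2
    · refine (HS2_lin _ io_eq ?_).trans (hy.evn _ trivial)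
      rw [← e3, e1, HS2_round (n := -round (z i)) (by rwa [Int.cast_neg, ← neg_sub', abs_neg]),
        Int.cast_neg]
    · rw [hz z _ (by linarith only [h]), pb_congr' (β := 0), pb_zero, Pi.zero_apply]
      refine hz _ _ ?_
      have := round_le (z i) (-round (-z i))
      rw [Int.cast_neg, ← abs_neg (_ - -_), neg_sub', neg_neg] at this
      rw [e1]
      linarith only [h, this]
  · obtain ⟨L, hL⟩ := exists_PL
    obtain ⟨-, e2, -, e4⟩ := HS2_io hi z (round (z i))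
    refine (HS2_lin L hL ?_).trans (hy.bas _ trivial)
    rw [← e4, e2]
  · simp [HS2_round (s := z i) (n := 0) (by simpa using h)]

theorem HS2_open (d : HD) (ε : ℝ) : IsOpen (d.Tube ε) := by
  unfold HD.Tube HD.tt
  refine IsOpen.and ?_ (IsOpen.and ?_ ?_) <;> exact isOpen_lt (by fun_prop) continuous_const

theorem HS2_near (d : HD) {e ε₀ : ℝ} (h0 : 0 < e) (h1 : e ≤ ε₀) (h2 : e ≤ 1 / 8) {g : Fm E6 k}
    (hs : Sy SC (d.Tube ε₀) g) (hg : Sm g (d.Tube ε₀)) :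
    ∃ η : Fm E6 k, ContDiff ℝ ∞ η ∧ Sy SX univ η ∧ (∀ z, 1 / 4 ≤ |d.tt z| → η z = 0) ∧
      ∀ z ∈ d.Tube (e / 4), η z = g z := by
  let f : ContDiffBump (0 : ℝ) := ⟨e / 4, e / 2, by positivity, by linarith only [h0]⟩
  have f0 : ∀ s, e / 2 ≤ |s| → f s = 0 := fun s hs => f.zero_of_le_dist (by simpa using hs)
  have f1 : ∀ s, |s| < e / 4 → f s = 1 := fun s hs => f.one_of_mem_closedBall (by simpa using hs.le)
  let χ : E6 → ℝ := fun z => f (z (1, 0)) * f (z (1, 1)) * f (d.tt z)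
  have c0 : ∀ z, z ∉ d.Tube (e / 2) → χ z = 0 := fun z hz => by
    simp only [HD.Tube, mem_ofPred_eq, not_and_or, not_lt] at hz
    rcases hz with hz | hz | hz <;> simp [χ, f0 _ hz]
  have hm : ∀ {a b : ℝ}, a ≤ b → d.Tube a ⊆ d.Tube b := fun hab z hz =>
    ⟨hz.1.trans_le hab, hz.2.1.trans_le hab, hz.2.2.trans_le hab⟩
  have hχ : ContDiff ℝ ∞ χ := ((f.contDiff.comp (contDiff_apply ℝ ℝ _)).mul
    (f.contDiff.comp (contDiff_apply ℝ ℝ _))).mul
      (f.contDiff.comp ((contDiff_apply ℝ ℝ _).sub contDiff_const))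
  have s0 : ContDiff ℝ ∞ fun z => χ z • g z := contDiffOn_univ.1 <|
    FMV_cut isOpen_univ (HS2_open d ε₀) hχ.contDiffOn (fun z _ hz => by
      have : IsClosed {y : E6 | |y (1, 0)| ≤ e / 2 ∧ |y (1, 1)| ≤ e / 2 ∧ |d.tt y| ≤ e / 2} := by
        unfold HD.tt
        refine IsClosed.and ?_ (IsClosed.and ?_ ?_) <;>
          exact isClosed_le (by fun_prop) continuous_const
      filter_upwards [this.isOpen_compl.mem_nhds fun hh => hz
        ⟨by linarith only [h0, h1, hh, hh.1], by linarith only [h0, h1, hh, hh.2.1], by linarith only [h0, h1, hh, hh.2.2]⟩] with y hy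
      exact c0 y fun hh => hy ⟨hh.1.le, hh.2.1.le, hh.2.2.le⟩) (hg.mono inter_subset_right)
  have y0 : Sy SC univ fun z => χ z • g z :=
    HS2_cut hs (fun i hi z => by fin_cases hi <;> simp [χ, bv, HD.tt])
      (fun z => by simp [χ, io, HD.tt, f.neg]) (fun _ => rfl)
      fun z _ hz => c0 z fun hh => hz (hm (by linarith only [h0, h1]) hh)
  obtain ⟨β₁, s1, y1, e1, r1⟩ := HS2_per (i := (1, 0)) (by decide) s0 y0 fun y hy => by
    rw [c0 y fun hh => by linarith only [h0, h2, hy, hh, hh.1], zero_smul]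
  obtain ⟨β₂, s2, y2, e2, r2⟩ := HS2_per (i := (1, 1)) (by decide) s1 y1 fun y hy => by
    obtain ⟨r, hr⟩ := r1 y
    rw [hr, c0 _ fun hh => ?_, zero_smul]
    have : |y (1, 1)| < e / 2 := by simpa [bv] using hh.2.1
    linarith only [h0, h2, hy, this]
  refine ⟨β₂, s2, y2.sub_dir (by decide), fun z hz => ?_, fun z hz => ?_⟩
  · obtain ⟨r, hr⟩ := r2 z
    obtain ⟨r', hr'⟩ := r1 (z - r • bv (1, 1))
    rw [hr, hr', c0 _ fun hh => ?_, zero_smul]
    have : |d.tt z| < e / 2 := by simpa [bv, HD.tt] using hh.2.2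
    linarith only [h0, h2, hz, this]
  · rw [e2 z (by linarith only [h0, h2, hz, hz.2.1]), e1 z (by linarith only [h0, h2, hz, hz.1])]
    simp [χ, f1 _ hz.1, f1 _ hz.2.1, f1 _ hz.2.2]

theorem GD.Ok.fixNear (h : D.Ok) {w ρ : Bool → Fm E6 (k + 1)} (hw : D.Pr ε w)
    (hF : ∀ b, (D.H b).Fold ε (w b)) {ε₀ : ℝ} (h0 : 0 < ε₀) {g : Bool → Fm E6 k}
    (hs : ∀ b, Sy SC ((D.H b).Tube ε₀) (g b))
    (hg : ∀ b, IsD (g b) (fun z => w b z - ρ b z) ((D.H b).Tube ε₀)) :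
    ∃ (w' : Bool → Fm E6 (k + 1)) (ε₁ : ℝ), 0 < ε₁ ∧ D.Pr ε w' ∧ (∀ b, (D.H b).Fold ε (w' b)) ∧
      (∀ b, ∀ z ∈ (D.H b).Q, extDeriv (w' b) z = extDeriv (w b) z) ∧
      ∀ b, ∀ z ∈ (D.H b).Tube ε₁, w' b z = ρ b z := by
  have he : 0 < min ε₀ (1 / 8) := lt_min h0 (by norm_num)
  choose η h1 h2 h3 h4 using fun b =>
    HS2_near (D.H b) he (min_le_left _ _) (min_le_right _ _) (hs b) (hg b).1
  obtain ⟨p1, p2⟩ := HS2_sub h hw (fun b => (h1 b).contDiffOn) (fun b => (h2 b).mono (subset_univ _))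
    fun b z hz => h3 b z (le_abs.2 (.inl (by
      unfold HD.tt; linarith only [hz, hz.1, show (D.H b).M = (D.H b).μ₁ + 1 from rfl])))
  refine ⟨_, _, div_pos he four_pos, p1, fun b z hz => ?_, p2, fun b z hz => ?_⟩
  · have e : ∀ y ∈ QF, (w - fun b => extDeriv (η b)) b y = w b y := fun y hy => by
      have : η b =ᶠ[𝓝 y] fun _ => 0 := by
        filter_upwards [domE_QF.opn.mem_nhds hy] with x hx
        exact h3 b x (le_abs.2 (.inr (by unfold HD.tt; linarith only [hx, h, hx.2, (h.ok b).hμ])))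
      rw [Pi.sub_apply, Pi.sub_apply, this.extDeriv_eq, extDeriv_const, sub_zero]
    rw [pb_congr' (e _ (kb_mem _ hz)), e z hz, hF b z hz]
  · have : η b =ᶠ[𝓝 z] g b := eventually_of_mem ((HS2_open _ _).mem_nhds hz) (h4 b)
    have l : min ε₀ (1 / 8) / 4 ≤ ε₀ := by linarith only [h0, min_le_left ε₀ (1 / 8)]
    rw [Pi.sub_apply, Pi.sub_apply, this.extDeriv_eq, (hg b).2 z
      ⟨hz.1.trans_le l, hz.2.1.trans_le l, hz.2.2.trans_le l⟩, sub_sub_cancel]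

theorem HD.yF_zero (d : HD) : d.yF (0 : Alt E6 k) = 0 := pb_zero d.Ym

theorem HD.yF_smul (d : HD) (t : ℝ) (c : Alt E6 k) : d.yF (t • c) = t • d.yF c :=
  pb_smul d.Ym t fun _ => c

theorem HD.yF_shift (d : HD) (c : Alt E6 k) (z : E6) (s : ℝ) :
    d.yF c (z + s • bv (2, 1)) = d.yF c z := by
  have e : (fun y : E6 => d.Ym (y + s • bv (2, 1))) = d.Ym := by
    funext y
    have : xv (y + s • bv (2, 1)) = xv y := by funext i; fin_cases i <;> simp [bv]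
    simp only [HD.Ym, HD.yc, this]
    simp [bv]
  simp only [HD.yF, pb, ← fderiv_comp_add_right, e]

theorem HD.Ok.Ym_sm (h : d.Ok) {z : E6} (hz : |d.tt z| < 1 / 4) : ContDiffAt ℝ ∞ d.Ym z := by
  have hb := (h.b_pos hz.le).ne'
  have hB : ContDiff ℝ ∞ fun y : E6 => d.b (y (2, 0)) := by
    simp only [HD.b, HD.Om0, Matrix.add_apply, Matrix.smul_apply]
    fun_prop
  have hx := DFr_contDiff_xv
  refine contDiffAt_mk contDiffAt_const contDiffAt_const (ContDiffAt.div ?_ hB.contDiffAt hb)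
    (ContDiffAt.div ?_ hB.contDiffAt hb) contDiffAt_const contDiffAt_const <;>
  · simp only [HD.Om0, bf_add, bf_smul]
    simp only [bf, dotProduct, Matrix.mulVec]
    fun_prop

theorem HD.Ok.cl_yF (h : d.Ok) (hε : ε ≤ 1 / 4) (c : Alt E6 k) : Cl (d.yF c) (d.Tube ε) :=
  Cl.pb ⟨contDiffOn_const, fun x _ => extDeriv_const c x⟩ (HS2_open d ε) isOpen_univ
    (fun _ hz => (h.Ym_sm (hz.2.2.trans_le hε)).contDiffWithinAt) (mapsTo_univ _ _)

theorem HS2_bas (h : d.Ok) (c : Alt E6 k) {z : E6} (hz : |d.tt z| < 1 / 4) :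
    pb PP (d.yF c) z = d.yF c z := by
  rw [HD.yF, ← pb_comp _ (contDiff_PP.differentiable (by simp) z)
    ((h.Ym_sm (z := PP z) hz).differentiableAt (by simp))]
  simp only [HD.Ym, HD.yc, PP, xv_mk4, mk4_20]
  rfl

theorem HD.Ok.ins_yF (h : d.Ok) (c : Alt E6 (k + 1)) {z : E6} (hz : |d.tt z| < 1 / 4) :
    ins (d.yF c) z = 0 := bas_ins0 (HS2_bas h c hz)

theorem HS2_Ym (h : d.Ok) {z : E6} (hz : |d.tt z| < 1 / 4) (u : E6) :
    d.Ym (z + G6_L SC u) = d.Ym z + (u (0, 0) • bv (1, 0) + u (0, 1) • bv (1, 1)) := by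
  have hb := (h.b_pos hz.le).ne'
  have e : xv (z + G6_L SC u) = xv z + (u (0, 0) • Pi.single 0 1 + u (0, 1) • Pi.single 1 1) := by
    funext i
    fin_cases i <;> simp [G6_L_apply, slice, SC]
  have e' : (z + G6_L SC u) (2, 0) = z (2, 0) := by simp [G6_L_apply, slice, SC]
  have s := fun x => bf_self x (d.Om0_skew (z (2, 0)))
  have s' : bf (d.Om0 (z (2, 0))) (Pi.single 0 1) (Pi.single 1 1) = d.b _ := bf_single _ 0 1
  apply ext6 <;> simp [HD.Ym, HD.yc, HD.y0, HD.y1, e, e', bv, bf_add_left, bf_add_right,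
    bf_smul_left, bf_smul_right, s, s', add_div, hb]

theorem HS2_sy (h : d.Ok) (hε : ε ≤ 1 / 4) : Sy SC (d.Tube ε) (d.yF dyy) := by
  refine ⟨fun i hi z hz => ?_, fun z hz => ?_, fun z hz => HS2_bas h _ (hz.2.2.trans_le hε)⟩
  · have e : G6_L SC (bv i) = bv i := by
      fin_cases hi <;> apply ext6 <;> simp [G6_L_apply, slice, SC, bv]
    have : (fun y => d.Ym (y + bv i)) =ᶠ[𝓝 z] fun y => d.Ym y + _ :=
      eventually_of_mem ((HS2_open d ε).mem_nhds hz) fun y hy =>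
        e ▸ HS2_Ym h (hy.2.2.trans_le hε) (bv i)
    simp only [HD.yF, pb, ← fderiv_comp_add_right, this.fderiv_eq, fderiv_add_const]
  · have e : (fun y => d.Ym (io y)) = -d.Ym := by
      funext y
      apply ext6 <;> simp [HD.Ym, HD.yc, HD.y0, HD.y1, io, bf_neg_left, bf_neg_right, neg_div]
    rw [HD.yF, ← pb_comp _ (contDiff_io.differentiable (by simp) z)
      ((h.Ym_sm (z := io z) (hz.2.2.trans_le hε)).differentiableAt (by simp)), e]
    ext v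
    simp [pb, dyy, wedge_apply, fderiv_neg]

theorem HD.Ok.yF_cls (h : d.Ok) (h0 : 0 < ε) (hε : ε ≤ 1 / 4) : ∃ g : Fm E6 1, Sy SC (d.Tube ε) g ∧
    IsD g (fun z => d.yF dyy z - wedge (dc (0, 0)) (dc (0, 1))) (d.Tube ε) := by
  have hU := domE_tube d h0
  obtain ⟨c, β, h1, -, h3, h4⟩ := torusE hU (h.cl_yF hε dyy) (HS2_sy h hε)
  suffices wedge (dc (0, 0)) (dc (0, 1)) = c from ⟨β, h4, this ▸ h3⟩
  have hH := (hor_wedge (S := SC) (i := (0, 0)) (j := (0, 1)) (by decide) (by decide)).sub h1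
  have hm := hU.dom.slice_mem
  have hπ := G6_fd SC (mk4 0 d.μ₁ 0)
  have hp := h3.pb hU.opn hU.opn (G6_sm SC _).contDiffOn fun z _ => hm z
  refine sub_eq_zero.1 (hH.symm.trans (cst_zero hU.dom ⟨hp.1, fun z hz => (hp.2 z hz).trans ?_⟩
    fun i hi z _ => ?_))
  · have e : (fun y => d.Ym (slice SC (mk4 0 d.μ₁ 0) y)) = fun y => ((dc (0, 0)).smulRight (bv (1, 0)) +
        (dc (0, 1)).smulRight (bv (1, 1))) y + d.Ym (slice SC (mk4 0 d.μ₁ 0) 0) := by
      funext y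
      rw [congrFun (G6_aff _ _) y, add_comm (G6_L _ _), HS2_Ym h ((hm 0).2.2.trans_le hε), add_comm]
      simp [dc_apply]
    refine (congrFun (pb_sub _ (d.yF dyy) fun _ => c) z).trans ?_
    rw [Pi.sub_apply, HD.yF, ← pb_comp _ (hπ z).differentiableAt
      ((h.Ym_sm ((hm z).2.2.trans_le hε)).differentiableAt (by simp)), e]
    simp only [pb, (hπ z).fderiv, fderiv_add_const, ContinuousLinearMap.fderiv]
    rw [h1]
    congr 1
    ext v
    simp [dyy, wedge_apply, dc_apply, bv]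
  · have := G6_add SC (mk4 0 d.μ₁ 0) z hi 1
    simp only [one_smul] at this
    simp only [pb, (hπ _).fderiv, this, h4.per i hi _ (hm z)]

theorem HD.Ok.near1 (h : d.Ok) (h0 : 0 < ε) {w : Fm E6 1} (hw : Cl w (d.Tube ε))
    (hs : Sy SC (d.Tube ε) w) :
    ∃ g : Fm E6 0, Sy SC (d.Tube ε) g ∧ IsD g (fun z => w z - 0) (d.Tube ε) := by
  obtain ⟨c, β, -, h2, h3, h4⟩ := torusE (domE_tube d h0) hw hs
  exact ⟨β, h4, h2 (by decide) ▸ h3⟩

theorem HD.Ok.near2 (h : d.Ok) (h0 : 0 < ε) (hε : ε ≤ 1 / 4) {w : Fm E6 2} (hw : Cl w (d.Tube ε))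
    (hs : Sy SC (d.Tube ε) w) : ∃ (t : ℝ) (g : Fm E6 1), Sy SC (d.Tube ε) g ∧
      IsD g (fun z => w z - d.yF (t • dyy) z) (d.Tube ε) := by
  obtain ⟨c, β, h1, -, h3, h4⟩ := torusE (domE_tube d h0) hw hs
  obtain ⟨g, g1, g2⟩ := h.yF_cls h0 hε
  have e := Hor.pair (i := (0, 0)) (j := (0, 1)) (by decide) h1
  set t := c ![bv (0, 0), bv (0, 1)]
  refine ⟨t, _, h4.sub (g1.smul t), FMV_sub (HS2_open d ε) h3 (HS2_smul g2 t) fun z _ => ?_⟩
  rw [HD.yF_smul, Pi.smul_apply, Pi.smul_apply, smul_sub, ← e]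
  abel

theorem HD.Ok.yF_exact (h : d.Ok) (h0 : 0 < ε) (hε : ε ≤ 1 / 4) {t : ℝ} {g : Fm E6 1}
    (hs : Sy SC (d.Tube ε) g) (hg : IsD g (d.yF (t • dyy)) (d.Tube ε)) : t = 0 := by
  obtain ⟨g', g1, g2⟩ := h.yF_cls h0 hε
  have hH := (hor_wedge (S := SC) (i := (0, 0)) (j := (0, 1)) (by decide) (by decide)).smul t
  have := hH.symm.trans (cst_zero (domE_tube d h0).dom (FMV_sub (HS2_open d ε) hg (HS2_smul g2 t)
    fun z _ => by rw [HD.yF_smul, Pi.smul_apply, Pi.smul_apply, smul_sub, sub_sub_cancel])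
    (hs.sub (g1.smul t)).per)
  simpa [wedge_apply, dc_apply, bv] using DFunLike.congr_fun this ![bv (0, 0), bv (0, 1)]


end Pool.Agent.Work.MP_bf98aa_gt.B3
end

-- merged part: Pool.Agent.Work.MP_bf98aa_gt.B3.HF
section
-- merged part: Pool.Agent.Work.MP_bf98aa_gt.B3.HN
section
/-!
Facts about the neck without holes that the cohomology layer uses.
-/

set_option autoImplicit false

open scoped Manifold ContDiff Topology Matrix ComplexConjugate
open Set Complex Filter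

namespace Pool.Agent.Work.MP_bf98aa_gt.B3

open Pool.Agent.Work.MP_bf98aa_gt.Th Pool.Agent.Work.MP_bf98aa_gt.Cy

variable {D : GD} {k : ℕ} {i j : Bool × K3} {b b' : Bool} {c : K3} {x y z : E6}

theorem mem_Vmp : z ∈ D.Vmp i ↔ i.2 ≠ .f ∧ z ∈ (D.H i.1).Wo i.2 := Iff.rfl

theorem atlO_W (D : GD) (i : Bool × K3) : D.atlO.W i = (D.H i.1).Wo i.2 := by
  obtain ⟨b, c⟩ := i
  cases b <;> cases c <;> rfl

theorem HN_comp {A : Atl (Bool × K3)} (hA : Pre0 A) {l : Bool × K3} {f g : E6 → E6} {σ τ ρ : ℝ}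
    {N N' : Set E6} (h : Eqv A i j f σ N) (h' : Eqv A j l g τ N') (e : τ * σ = ρ) :
    Eqv A i l (fun z => g (f z)) ρ (N ∩ f ⁻¹' N') where
  sg := by rcases h.sg with a | a <;> rcases h'.sg with b | b <;> simp [← e, a, b]
  opn := h.sm.continuousOn.isOpen_inter_preimage h.opn h'.opn
  sm := h'.sm.comp (h.sm.mono inter_subset_left) fun _ a => a.2
  rel z a := hA.trans (h.rel z a.1) (h'.rel _ a.2)
  inv z a s := ⟨h.inv z a.1 s, by rw [mem_preimage, h.eqv z a.1]; exact h'.inv _ a.2 _⟩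
  eqv z a s := by rw [h.eqv z a.1, h'.eqv _ a.2, ← mul_assoc, e]

theorem HN_bool (b b' : Bool) : b' = b ∨ b' = !b := by cases b <;> cases b' <;> simp

namespace GD

theorem Ok.HN_QF (h : D.Ok) (hz : z ∈ QF) : z ∈ (D.H b).Wo .m := by
  have a := hz.2
  have μ := (h.ok b).hμ
  exact ⟨by linarith only [hz, hz.1], by unfold HD.tt; linarith only [a, μ], .inr (by unfold HD.tt; linarith only [a, μ])⟩

theorem HN_Mid : z ∈ (D.H b).Mid ↔ z ∈ (D.H b).Wo .p ∧ 7 / 8 < (D.H b).tt z := by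
  simp only [HD.Mid, Slab, HD.Wo, HD.tt, HD.M, mem_ofPred_eq]
  exact ⟨fun a => ⟨⟨by linarith only [a, a.1], by linarith only [a, a.2]⟩, by linarith only [a, a.1]⟩,
    fun a => ⟨by linarith only [a, a.2], by linarith only [a, a.1.2]⟩⟩

theorem Ok.HN_gm (h : D.Ok) (b : Bool) (l : L4) (n : ℤ) (e : Bool) :
    Eqv D.atlO (b, .m) (b, .m) ((D.H b).gm (l, n, false, e)) 1 ((D.H b).Wo .m) where
  sg := .inl rfl
  opn := (h.ok b).isOpen_Wo _
  sm := (HD.N1_m_sm _).contDiffOn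
  rel z a := R_same.2 ⟨a, (h.ok b).gm_mem _ a (by simp), _, rfl⟩
  inv z a s := (HD.act_mem s _).2 a
  eqv z _ s := by rw [HD.gm_act, one_mul]; rfl

theorem Ok.HN_ka (h : D.Ok) (b : Bool) (l : L4) (n : ℤ) (e : Bool) :
    Eqv D.atlO (b, .m) (b, .m) ((D.H b).gm (l, n, true, e)) (-1) QF where
  sg := .inr rfl
  opn := domE_QF.opn
  sm := (HD.N1_m_sm _).contDiffOn
  rel z a := R_same.2 ⟨h.HN_QF a, (h.ok b).gm_mem _ (h.HN_QF a) fun _ => a.2, _, rfl⟩
  inv z a s := a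
  eqv z _ s := by rw [HD.gm_act, neg_one_mul]; rfl

theorem Ok.HN_gp (h : D.Ok) (b : Bool) (γ : L4 × ℤ × Bool) :
    Eqv D.atlO (b, .p) (b, .p) ((D.H b).gp γ) 1 ((D.H b).Wo .p) where
  sg := .inl rfl
  opn := (h.ok b).isOpen_Wo _
  sm := ((D.H b).grp_p.sm _).contDiffOn
  rel z a := R_same.2 ⟨a, (HD.gp_mem _).2 a, _, rfl⟩
  inv z a s := (HD.act_mem s _).2 a
  eqv z _ s := by rw [HD.gp_act, one_mul]

theorem Ok.HN_gf (h : D.Ok) (b : Bool) (γ : ℤ × ℤ × Bool) :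
    Eqv D.atlO (b, .f) (b, .f) ((D.H b).gf γ) 1 ((D.H b).Wo .f) where
  sg := .inl rfl
  opn := (h.ok b).isOpen_Wo _
  sm := ((D.H b).grp_f.sm _).contDiffOn
  rel z a := R_same.2 ⟨a, (HD.gf_mem _).2 a, _, rfl⟩
  inv z a s := (HD.act_mem s _).2 a
  eqv z _ s := by rw [HD.gf_act, one_mul]

theorem Ok.HN_gl (h : D.Ok) (b : Bool) :
    Eqv D.atlO (b, .p) (!b, .p) (D.gl b) (-1) (D.H b).Mid where
  sg := .inr rfl
  opn := (isOpen_lt continuous_const (continuous_apply _)).inter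
    (isOpen_lt (continuous_apply _) continuous_const)
  sm := (D.contDiff_gl b).contDiffOn
  rel z a := h.R_cross.2 ⟨rfl, rfl, (HN_Mid.1 a).1, (HN_Mid.1 a).2, (0, 0, false),
    (HD.Dp_zero _).symm⟩
  inv z a s := a
  eqv z _ s := by rw [gl_act, neg_one_mul]

theorem HN_m0 (d : HD) (z : E6) : d.gm (0, 0, false, false) z = z := HD.Dm_zero z

theorem HN_p0 (d : HD) (z : E6) : d.gp (0, 0, false) z = z := HD.Dp_zero z

theorem Ok.HN_mem (h : D.Ok) (hr : D.atlO.R i x j y) :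
    x ∈ (D.H i.1).Wo i.2 ∧ y ∈ (D.H j.1).Wo j.2 := by
  rw [← B3.atlO_W, ← B3.atlO_W]
  exact h.pre0_O.mem hr

theorem Ok.HN_Smp (h : D.Ok) (hs : (D.H b).Smp x y) : D.atlO.R (b, .m) x (b, .p) y :=
  R_same.2 ((h.ok b).R_mp.2 ⟨0, 0, false, by rwa [HN_m0]⟩)

theorem Ok.HN_mp (h : D.Ok) (hs : (D.H b).Smp x y) : ∃ f g N, Eqv D.atlO (b, .m) (b, .p) f 1 N ∧
    Eqv D.atlO (b, .p) (b, .m) g 1 N ∧ x ∈ N ∧ y ∈ N ∧ f x = y ∧ g y = x ∧
      ∀ z, PP (f z) = PP z ∧ PP (g z) = PP z := by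
  obtain ⟨θ, U, u1, u2, u3, u4, u5, u6, u7, u8⟩ := (h.ok b).HNa_gauge hs
  have k : ∀ (s : ℝ) (z : E6), θ (act s .m z) = θ z ∧ (z ∈ U → act s .m z ∈ U) := fun s z =>
    u7 z _ (xv_mk4 _ _ _) rfl
  refine ⟨fun z => act (θ z) .m z, fun z => act (-θ z) .p z, U, ⟨.inl rfl, u1,
    (HD.contDiff_act .m).comp_contDiffOn (u2.prodMk contDiffOn_id), fun z a => h.HN_Smp (u8 z a).1,
    fun z a s => (k s z).2 a, fun z _ s => ?_⟩, ⟨.inl rfl, u1,
    (HD.contDiff_act .p).comp_contDiffOn (u2.neg.prodMk contDiffOn_id),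
    fun z a => h.pre0_O.symm (h.HN_Smp (u8 z a).2), fun z a s => (k s z).2 a, fun z _ s => ?_⟩,
    u3, u4, u5, u6, fun z => ⟨HNa_PP.2 ⟨xv_mk4 _ _ _, rfl⟩, HNa_PP.2 ⟨xv_mk4 _ _ _, rfl⟩⟩⟩
  · rw [(k s z).1, one_mul, HD.act_add, add_comm]
    exact (HD.act_add s (θ z) .m z).symm
  · rw [show θ (act s .p z) = θ z from (k s z).1, one_mul, HD.act_add, add_comm]
    exact (HD.act_add s (-θ z) .m z).symm

theorem Ok.HN_ar (h : D.Ok) (hz : z ∈ D.Vmp (b, c)) (hn : z ∈ (D.H b).Nf) :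
    ContDiffAt ℝ ∞ ((D.H b).of c) z ∧ Function.Injective (fderiv ℝ ((D.H b).of c) z) ∧
      D.atlO.R (b, c) z (b, .f) ((D.H b).of c z) := by
  cases c
  · have a := ((h.ok b).omf_ar hz.2 hn).1
    exact ⟨a.sm, a.inj, R_same.2 ((h.ok b).R_mf.2 ⟨hz.2, 0, 0, false, by rwa [HN_m0],
      by rw [HN_m0]; rfl⟩)⟩
  · have a := ((h.ok b).opf_ar hz.2 hn).1
    exact ⟨a.sm, a.inj, R_same.2 ((h.ok b).R_pf.2 ⟨hz.2, (0, 0, false), by rwa [HN_p0],
      by rw [HN_p0]; rfl⟩)⟩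
  · exact absurd rfl hz.1

theorem Ok.HN_of (h : D.Ok) (b : Bool) (hc : c ≠ .f) :
    Eqv D.atlO (b, c) (b, .f) ((D.H b).of c) 1 ((D.H b).Wo c ∩ (D.H b).Nf) where
  sg := .inl rfl
  opn := ((h.ok b).isOpen_Wo _).inter (h.ok b).isOpen_Nf
  sm z a := (h.HN_ar ⟨hc, a.1⟩ a.2).1.contDiffWithinAt
  rel z a := (h.HN_ar ⟨hc, a.1⟩ a.2).2.2
  inv z a s := ⟨(HD.act_mem s _).2 a.1, by
    cases c
    exacts [(HD.HNa_Nf (xv_mk4 _ _ _) rfl).2 a.2, (HD.HNa_Nf (xv_mk4 _ _ _) rfl).2 a.2,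
      absurd rfl hc]⟩
  eqv z _ s := by
    rw [one_mul]
    cases c
    exacts [HD.omf_act s z, HD.opf_act s z, absurd rfl hc]

theorem HN_PPm (d : HD) (l : L4) (n : ℤ) (e : Bool) (z : E6) :
    PP (d.gm (l, n, false, e) z) = PP (cond e (io z) z + lv l) :=
  HNa_PP.2 ⟨by rw [HD.gm_xv, (HNa_lv _ _).1, HNa_xv]; rfl,
    by rw [HD.gm_level, (HNa_lv _ _).2, HNa_lev]; rfl⟩

theorem HN_PPk (d : HD) (l : L4) (n : ℤ) (e : Bool) (z : E6) :
    PP (d.gm (l, n, true, e) z) = PP (d.kb (cond e (io z) z) + lv l) :=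
  HNa_PP.2 ⟨by
    rw [HD.gm_xv, (HNa_lv _ _).1, HD.kb, HS1_xv, xv_mk4, ← HNa_xv]
    exact congrArg (· + _ + _) (xv_mk4 _ _ _).symm, by
    rw [HD.gm_level, (HNa_lv _ _).2]
    change -z (2, 0) = -1 * cond e (io z) z (2, 0) + 0
    rw [HNa_lev]; ring⟩

theorem HN_PPp (d : HD) (l : L4) (n : ℤ) (e : Bool) (z : E6) :
    PP (d.gp (l, n, e) z) = PP (cond e (io z) z + lv l) :=
  HNa_PP.2 ⟨by rw [HD.gp_xv, (HNa_lv _ _).1, HNa_xv], by rw [HD.gp_level, (HNa_lv _ _).2, HNa_lev]⟩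

theorem HN_gb (D : GD) (b : Bool) (z : E6) : xv (D.gb b z) = rm (D.G b) *ᵥ xv z := by
  rw [gb, HS1_xv, xv_mk4, add_zero]
  exact xv_mk4 _ _ _

theorem Ok.HN_thg (h : D.Ok) (b : Bool) (z : E6) :
    pb1 (D.gl b) ((D.H (!b)).th .p) z = (-1 : ℝ) • (D.H b).th .p z := by
  ext v
  have s := congrArg rm (h.slope b)
  rw [rm_mul, rm_mul, rm_tr, rm_neg] at s
  simp only [pb1_apply, N9_fderiv, HD.HNa_th, smul_apply, smul_eq_mul, gl, xv_mk4, mk4_21, if_true]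
  rw [← bf_pull, s, bf_neg]
  ring

theorem Ok.HN_f (h : D.Ok) (hr : D.atlO.R (b, c) x (b', .f) y) : b' = b := by
  rcases HN_bool b b' with e | rfl
  exacts [e, absurd (h.R_cross.1 hr).2.1 (by simp)]

theorem Ok.HN_relf (h : D.Ok) (hr : D.atlO.R (b, c) x (b, .f) y) (hc : c ≠ .f) :
    ∃ f, Eqv D.atlO (b, c) (b, c) f 1 ((D.H b).Wo c) ∧ f x ∈ (D.H b).Wo c ∧ f x ∈ (D.H b).Nf ∧
      (D.H b).of c (f x) = y := by
  cases c
  · obtain ⟨a, l, n, e, a1, a2⟩ := (h.ok b).R_mf.1 (R_same.1 hr)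
    exact ⟨_, h.HN_gm b l n e, (h.ok b).gm_mem _ a (by simp), a1, a2.symm⟩
  · obtain ⟨a, γ, a1, a2⟩ := (h.ok b).R_pf.1 (R_same.1 hr)
    exact ⟨_, h.HN_gp b γ, (HD.gp_mem _).2 a, a1, a2.symm⟩
  · exact absurd rfl hc

theorem Ok.HN_lev (h : D.Ok) (hz : z ∈ D.Vmp (b, c)) (hn : z ∈ (D.H b).Nf) :
    normSq (B3.cc 2 ((D.H b).of c z)) = (D.H b).hh (z (2, 0)) (xv z) ∧
    normSq (B3.cc 0 ((D.H b).of c z)) = (D.H b).hh (z (2, 0)) (xv z) - (D.H b).tt z := by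
  cases c
  · obtain ⟨-, a, -, e⟩ := (h.ok b).omf_lev hz.2 hn
    unfold HD.nuF at a
    exact ⟨e, by unfold HD.tt HD.of; linarith only [a, e]⟩
  · obtain ⟨-, a, -, e⟩ := (h.ok b).opf_lev hz.2 hn
    unfold HD.nuF at a
    exact ⟨e, by unfold HD.tt HD.of; linarith only [a, e]⟩
  · exact absurd rfl hz.1

theorem Ok.n_orb (h : D.Ok) : Orb D.atlO := by
  refine Orb.of_pre h.pre0_O fun i => ?_
  refine (HNa_dense.open_subset_closure_inter (h.pre0_O.opn i)).trans (closure_mono fun x a => ?_)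
  exact ⟨a.1, ((h.ok i.1).HNa_free i.2 a.2).mono fun p e r => e (R_same.1 r)⟩

theorem Ok.Vmp_open (h : D.Ok) (i : Bool × K3) : IsOpen (D.Vmp i) := by
  by_cases e : i.2 = .f
  · simp [Vmp, e]
  · simpa [Vmp, e] using (h.ok i.1).isOpen_Wo i.2

theorem Vmp_sub (D : GD) (i : Bool × K3) : D.Vmp i ⊆ D.atlO.W i := fun _ hz =>
  B3.atlO_W D i ▸ hz.2

theorem Vmp_Q (h : D.Ok) (hz : z ∈ D.Vmp i) : z ∈ (D.H i.1).Q := by
  obtain ⟨b, c⟩ := i
  have μ := (h.ok b).hμ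
  cases c
  · have a := hz.2.2.1
    exact ⟨hz.2.1, by unfold HD.tt at a; unfold HD.M; linarith only [a]⟩
  · have a := hz.2.1
    have a' := hz.2.2
    unfold HD.tt at a a'
    exact ⟨by linarith only [μ, a], by unfold HD.M; linarith only [a']⟩
  · exact absurd rfl hz.1

theorem n_act (D : GD) (s : ℝ) (hz : z ∈ D.atlO.W i) : act s i.2 z ∈ D.atlO.W i := by
  rw [B3.atlO_W] at hz ⊢
  exact (HD.act_mem s _).2 hz

theorem Vmp_shift (hz : z ∈ D.Vmp i) (s : ℝ) : z + s • bv (2, 1) ∈ D.Vmp i := by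
  rw [← HNa_sh s hz.1]
  exact ⟨hz.1, (HD.act_mem s _).2 hz.2⟩

theorem Ok.n_one (h : D.Ok) (hz : z ∈ D.atlO.W i) : D.atlO.R i z i (act 1 i.2 z) := by
  obtain ⟨b, c⟩ := i
  have a := D.n_act 1 hz
  rw [B3.atlO_W] at hz a
  cases c
  · exact R_same.2 ⟨hz, a, (0, 1, false, false), by simpa [HD.gm] using (HD.act_m_int 1 z).symm⟩
  · exact R_same.2 ⟨hz, a, (0, 1, false), by simpa [HD.gp] using (HD.act_p_int 1 z).symm⟩
  · exact R_same.2 ⟨hz, a, (0, 0, false), by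
      simpa [HD.gf, HD.Df_zero] using (HD.act_f_int 1 z).symm⟩

theorem Ok.n_shp (h : D.Ok) (hr : D.atlO.R i x j y) (hi : i.2 ≠ .f) (hj : j.2 ≠ .f) :
    ∃ f σ N, D.Shp i j f σ N ∧ x ∈ N ∧ f x = y := by
  obtain ⟨b, c⟩ := i
  obtain ⟨b', c'⟩ := j
  rcases HN_bool b b' with rfl | rfl
  · have r := R_same.1 hr
    cases c <;> cases c' <;> try first | exact absurd rfl hi | exact absurd rfl hj
    · obtain ⟨a, a', ⟨l, n, k, e⟩, rfl⟩ := r
      cases k
      · exact ⟨_, 1, _, ⟨h.HN_gm b' l n e, ⟨l, e, .inl ⟨rfl, rfl, fun z _ => HN_PPm _ l n e z⟩⟩,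
          fun _ z _ => (h.ok b').HNa_thm _ z⟩, a, rfl⟩
      · have := abs_lt.1 ((h.ok b').gm_ka a a' rfl)
        exact ⟨_, -1, _, ⟨h.HN_ka b' l n e,
          ⟨l, e, .inr (.inl ⟨rfl, rfl, subset_rfl, fun z _ => HN_PPk _ l n e z⟩)⟩,
          fun _ z _ => (h.ok b').HNa_thm _ z⟩, ⟨by linarith only [this, this.1], this.2⟩, rfl⟩
    · obtain ⟨l, n, e, s⟩ := (h.ok b').R_mp.1 r
      obtain ⟨f, g, N, e1, -, m1, -, rfl, -, p⟩ := h.HN_mp s
      exact ⟨_, 1, _, ⟨HN_comp h.pre0_O (h.HN_gm b' l n e) e1 (one_mul _),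
        ⟨l, e, .inl ⟨rfl, rfl, fun z _ => (p _).1.trans (HN_PPm _ l n e z)⟩⟩,
        fun a => absurd a (by simp)⟩, ⟨((h.ok b').pre0_half.mem r).1, m1⟩, rfl⟩
    · obtain ⟨⟨l, n, e⟩, s⟩ := (h.ok b').R_mp'.1 ((h.ok b').pre0_half.symm r)
      obtain ⟨f, g, N, -, e1, -, m1, -, a, p⟩ := h.HN_mp s
      exact ⟨_, 1, _, ⟨HN_comp h.pre0_O (h.HN_gp b' (l, n, e)) e1 (one_mul _),
        ⟨l, e, .inl ⟨rfl, rfl, fun z _ => (p _).2.trans (HN_PPp _ l n e z)⟩⟩,
        fun a => absurd a (by simp)⟩, ⟨((h.ok b').pre0_half.mem r).1, m1⟩, a⟩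
    · obtain ⟨a, -, ⟨l, n, e⟩, rfl⟩ := r
      exact ⟨_, 1, _, ⟨h.HN_gp b' (l, n, e), ⟨l, e, .inl ⟨rfl, rfl, fun z _ => HN_PPp _ l n e z⟩⟩,
        fun _ z _ => HD.HNa_thp _ z⟩, a, rfl⟩
  · obtain ⟨rfl, rfl, a, t, ⟨l, n, e⟩, rfl⟩ := h.R_cross.1 hr
    refine ⟨_, -1, _, ⟨HN_comp h.pre0_O (h.HN_gl b) (h.HN_gp (!b) (l, n, e)) (one_mul _),
      ⟨l, e, .inr (.inr ⟨rfl, rfl, inter_subset_left, fun z _ => HNa_PP.2 ⟨?_, ?_⟩⟩)⟩,
      fun _ z _ => ?_⟩, ⟨HN_Mid.2 ⟨a, t⟩, (N9_mem a t).1⟩, rfl⟩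
    · rw [HD.gp_xv, (HNa_lv _ _).1, HN_gb, HNa_xv, gl, xv_mk4]
      cases e <;> simp [Matrix.mulVec_neg]
    · rw [HD.gp_level, (HNa_lv _ _).2, HS1_lev, HNa_lev]; rfl
    · simpa using HNa_comp ((D.contDiff_gl b).differentiable (by simp))
        (((D.H (!b)).grp_p.sm _).differentiable (by simp)) (h.HN_thg b) (HD.HNa_thp (l, n, e)) z

theorem Ok.n_eqv (h : D.Ok) (hr : D.atlO.R i x j y) (hij : i.2 ≠ .f ∨ j.2 = .f) :
    ∃ f σ N, Eqv D.atlO i j f σ N ∧ x ∈ N ∧ f x = y := by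
  obtain ⟨b, c⟩ := i
  obtain ⟨b', c'⟩ := j
  by_cases e : c' = .f
  · subst e
    obtain rfl := h.HN_f hr
    by_cases e : c = .f
    · subst e
      obtain ⟨a, -, γ, rfl⟩ := R_same.1 hr
      exact ⟨_, 1, _, h.HN_gf b' γ, a, rfl⟩
    · obtain ⟨f, a, a1, a2, a3⟩ := h.HN_relf hr e
      exact ⟨_, 1, _, HN_comp h.pre0_O a (h.HN_of b' e) (one_mul _),
        ⟨(h.HN_mem hr).1, a1, a2⟩, a3⟩
  · obtain ⟨f, σ, N, a, a'⟩ := h.n_shp hr (hij.resolve_right e) e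
    exact ⟨f, σ, N, a.eqv, a'⟩

theorem Ok.n_lat (h : D.Ok) (hi : i.2 ≠ .f) (l : L4) (e : Bool) :
    ∃ f, Eqv D.atlO i i f 1 (D.Vmp i) ∧ ∀ z, PP (f z) = PP (cond e (io z) z + lv l) := by
  obtain ⟨b, c⟩ := i
  have w : D.Vmp (b, c) = (D.H b).Wo c := Set.ext fun z => and_iff_right hi
  rw [w]
  cases c
  exacts [⟨_, h.HN_gm b l 0 e, HN_PPm _ l 0 e⟩, ⟨_, h.HN_gp b (l, 0, e), HN_PPp _ l 0 e⟩,
    absurd rfl hi]

theorem Ok.n_fold (h : D.Ok) (b : Bool) : QF ⊆ D.Vmp (b, .m) ∧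
    ∃ f, Eqv D.atlO (b, .m) (b, .m) f (-1) QF ∧ ∀ z, PP (f z) = PP ((D.H b).kb z) := by
  refine ⟨fun z a => ⟨by simp, h.HN_QF a⟩, _, h.HN_ka b 0 0 false, fun z => ?_⟩
  rw [HN_PPk, HNa_PP, (HNa_lv _ _).1, (HNa_lv _ _).2, rv_zero, add_zero]
  exact ⟨rfl, rfl⟩

theorem Ok.n_mid (h : D.Ok) (b : Bool) : (D.H b).Mid ⊆ D.Vmp (b, .p) ∧
    ∃ f, Eqv D.atlO (b, .p) (!b, .p) f (-1) (D.H b).Mid ∧ ∀ z, PP (f z) = PP (D.gb b z) := by
  refine ⟨fun z a => ⟨by simp, (HN_Mid.1 a).1⟩, _, h.HN_gl b, fun z => HNa_PP.2 ⟨?_, ?_⟩⟩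
  · rw [HN_gb, gl, xv_mk4]
  · rw [HS1_lev]; rfl

theorem Ok.n_mp (h : D.Ok) (h1 : z ∈ D.Vmp (b, .m)) (h2 : z ∈ D.Vmp (b, .p)) :
    ∃ f N, Eqv D.atlO (b, .m) (b, .p) f 1 N ∧ z ∈ N ∧ ∀ y ∈ N, PP (f y) = PP y := by
  obtain ⟨y, s⟩ := (h.ok b).exists_p h1.2 h2.2.1
  obtain ⟨f, g, N, e1, -, m1, -, -, -, p⟩ := h.HN_mp s
  exact ⟨f, N, e1, m1, fun y _ => (p y).1⟩

theorem Ok.n_m_p (h : D.Ok) (h1 : z ∈ D.Vmp (b, .m)) (ht : 0 < (D.H b).tt z) :
    z ∈ D.Vmp (b, .p) := by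
  exact ⟨by simp, ht, by linarith only [h1, h1.2.2.1]⟩

theorem Ok.n_p_m (h : D.Ok) (h1 : z ∈ D.Vmp (b, .p)) : z ∈ D.Vmp (b, .m) ∨
    1 / 8 ≤ (D.H b).tt z ∨ ∃ n n' : ℤ, z (1, 0) = n ∧ z (1, 1) = n' := by
  by_cases g : (D.H b).gz z = 0
  · have a := (h.ok b).gz_zero.1 g
    exact .inr (.inr ⟨_, _, sub_eq_zero.1 a.1, sub_eq_zero.1 a.2⟩)
  · refine (lt_or_ge ((D.H b).tt z) (1 / 8)).imp (fun t => ⟨by simp, ?_, t, .inl g⟩) .inl
    exact (Vmp_Q h h1).1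

theorem Ok.n_cov (h : D.Ok) (hz : z ∈ (D.H b).Q) : z ∈ D.Vmp (b, .m) ∨ z ∈ D.Vmp (b, .p) ∨
    ((D.H b).tt z = 0 ∧ ∃ n n' : ℤ, z (1, 0) = n ∧ z (1, 1) = n') := by
  rcases lt_trichotomy ((D.H b).tt z) 0 with t | t | t
  · exact .inl ⟨by simp, hz.1, by linarith only [t], .inr t⟩
  · by_cases g : (D.H b).gz z = 0
    · have a := (h.ok b).gz_zero.1 g
      exact .inr (.inr ⟨t, _, _, sub_eq_zero.1 a.1, sub_eq_zero.1 a.2⟩)
    · exact .inl ⟨by simp, hz.1, by linarith only [t], .inl g⟩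
  · have a := hz.2
    exact .inr (.inl ⟨by simp, t, by unfold HD.M at a; unfold HD.tt; linarith only [a]⟩)

theorem Ok.eqOn_Q (h : D.Ok) {X : Type} [TopologicalSpace X] [T2Space X] {f g : E6 → X}
    (hf : ContinuousOn f (D.H b).Q) (hg : ContinuousOn g (D.H b).Q)
    (he : ∀ c, ∀ z ∈ D.Vmp (b, c), f z = g z) : ∀ z ∈ (D.H b).Q, f z = g z := by
  have a : Dense {z : E6 | ∀ i, z i ≠ (D.H b).μ₁} := by
    have := dense_pi (s := fun _ : Cx => {(D.H b).μ₁}ᶜ) univ fun _ _ => dense_compl_singleton _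
    simpa only [Set.pi, mem_univ, true_implies, mem_compl_singleton_iff] using this
  refine EqOn.of_subset_closure (fun z hz => ?_) hf hg inter_subset_left
    (a.open_subset_closure_inter (h.ok b).domE_Q.opn)
  rcases h.n_cov hz.1 with e | e | e
  exacts [he _ z e, he _ z e, absurd (sub_eq_zero.1 e.1) (hz.2 _)]

theorem Ok.n_pm_lev (h : D.Ok) (hr : D.atlO.R (b, .m) x (b', .p) y) :
    b' = b ∧ (D.H b).tt y = (D.H b).tt x ∧
      ∃ l e, PP y = PP (cond e (io x) x + lv l) ∧ ∃ l' e', PP x = PP (cond e' (io y) y + lv l') := by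
  rcases HN_bool b b' with rfl | rfl
  · have r := R_same.1 hr
    obtain ⟨l, n, e, s⟩ := (h.ok b').R_mp.1 r
    obtain ⟨⟨l', n', e'⟩, s'⟩ := (h.ok b').R_mp'.1 r
    refine ⟨rfl, ?_, l, e, (HNa_PP.2 ⟨s.2.2.1, s.2.2.2.1⟩).trans (HN_PPm _ l n e x), l', e',
      (HNa_PP.2 ⟨s'.2.2.1, s'.2.2.2.1⟩).symm.trans (HN_PPp _ l' n' e' y)⟩
    rw [HD.tt, HD.tt, s.2.2.2.1, HD.gm_level]; rfl
  · exact absurd (h.R_cross.1 hr).1 (by simp)

theorem Ok.n_lev (h : D.Ok) (hr : D.atlO.R (b, .m) x j y) (hj : j.2 ≠ .m) : 1 < x (2, 0) := by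
  obtain ⟨b', c⟩ := j
  have μ := (h.ok b).hμ
  cases c
  · exact absurd rfl hj
  · obtain ⟨rfl, e, -⟩ := h.n_pm_lev hr
    have a : 0 < (D.H b').tt y := (h.HN_mem hr).2.1
    rw [e, HD.tt] at a
    linarith
  · obtain rfl := h.HN_f hr
    obtain ⟨-, l, n, e, a, -⟩ := (h.ok b').R_mf.1 (R_same.1 hr)
    have := (abs_lt.1 ((h.ok b').Nf_small a).1).1
    rw [HD.tt, HD.gm_level, cond] at this
    linarith only [μ, this]

theorem Ok.n_ff (h : D.Ok) : D.atlO.R (b, .f) x (b', .f) y ↔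
    b' = b ∧ x ∈ (D.H b).Wo .f ∧ ∃ γ, (D.H b).gf γ x = y := by
  refine ⟨fun hr => ?_, ?_⟩
  · obtain rfl := h.HN_f hr
    exact ⟨rfl, (R_same.1 hr).1, (R_same.1 hr).2.2⟩
  · rintro ⟨rfl, a, γ, rfl⟩
    exact (h.HN_gf b' γ).rel x a

theorem Ok.n_of (h : D.Ok) (hz : z ∈ D.Vmp (b, c)) (hn : z ∈ (D.H b).Nf) :
    Ar (fun x y => D.atlO.R (b, c) x (b, .f) y) z ((D.H b).of c z) ((D.H b).of c) := by
  have a := h.HN_ar hz hn
  exact ⟨a.1, rfl, a.2.1, ((h.HN_of b hz.1).opn.eventually_mem ⟨hz.2, hn⟩).mono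
    (h.HN_of b hz.1).rel⟩

theorem Ok.of_pb (h : D.Ok) (hz : z ∈ D.Vmp (b, c)) (hn : z ∈ (D.H b).Nf) {e : Alt E6 k}
    (he : Hor SY e) : pb ((D.H b).of c) (fun _ => e) z = (D.H b).yF e z := by
  have a : ContDiffAt ℝ ∞ (D.H b).Ym z := contDiffAt_mkc contDiffAt_const
    ((h.ok b).yc_sm (((h.ok b).Nf_small hn).1.le.trans (by norm_num))) contDiffAt_const
  refine HNa_hor he ((h.HN_ar hz hn).1.differentiableAt (by simp)) (a.differentiableAt (by simp))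
    (c := 0) fun y => ?_
  rw [add_zero, HNa_L, HNa_L]
  cases c <;> rfl

theorem gf_pb (d : HD) (γ : ℤ × ℤ × Bool) {e : Alt E6 k} (he : Hor SY e) (ho : Odd k → e = 0)
    (z : E6) : pb (d.gf γ) (fun _ => e) z = e := by
  obtain ⟨s, t, b⟩ := γ
  have a := (d.grp_f.sm (s, t, b)).differentiable (by simp) z
  cases b
  · rw [HNa_hor he a differentiableAt_id (c := mkc 0 ⟨s, t⟩ 0) fun y => ?_]
    · ext v; simp [pb]
    · rw [HNa_L, HNa_L, (HD.gf_norm _ y).2.2]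
      apply ext6 <;> simp [B3.cc]
  · rw [HNa_hor he a (g := fun y => (-1 : ℝ) • y) (by fun_prop) (c := mkc 0 ⟨s, t⟩ 0) fun y => ?_]
    · ext v
      rcases Nat.even_or_odd k with o | o
      · have : HasFDerivAt (fun y : E6 => (-1 : ℝ) • y) ((-1 : ℝ) • ContinuousLinearMap.id ℝ E6) z :=
          (hasFDerivAt_id z).const_smul (-1 : ℝ)
        simp only [pb, this.fderiv, ContinuousAlternatingMap.compContinuousLinearMap_apply]
        have := e.map_smul_univ (fun _ => (-1 : ℝ)) v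
        rw [Finset.prod_const, Finset.card_univ, Fintype.card_fin, o.neg_one_pow, one_smul] at this
        exact this
      · simp [pb, ho o]
    · rw [HNa_L, HNa_L, (HD.gf_norm _ y).2.2]
      apply ext6 <;> simp [B3.cc]

theorem Ok.n_relf (h : D.Ok) (hr : D.atlO.R (b, .f) y i z) (hi : i.2 ≠ .f) :
    ∃ c, ∃ x ∈ D.Vmp (b, c), x ∈ (D.H b).Nf ∧ ∃ γ, (D.H b).gf γ ((D.H b).of c x) = y := by
  obtain ⟨b', c⟩ := i
  have r := h.pre0_O.symm hr
  obtain rfl := h.HN_f r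
  obtain ⟨f, -, a1, a2, a3⟩ := h.HN_relf r hi
  exact ⟨c, f z, ⟨hi, a1⟩, a2, (0, 0, false), by simpa [HD.gf, HD.Df_zero] using a3⟩

theorem Ok.n_covf (h : D.Ok) (hy : y ∈ (D.H b).Wo .f) :
    (B3.cc 0 y = 0 ∧ B3.cc 2 y = 0) ∨ y ∈ sat D.atlO D.Vmp (b, .f) := by
  by_cases u : B3.cc 0 y = 0
  · by_cases w : B3.cc 2 y = 0
    · exact .inl ⟨u, w⟩
    · obtain ⟨z, a, a', rfl⟩ := (h.ok b).opf_surj hy (by simpa [tF, u] using w)
      exact .inr ⟨(b, .p), z, ⟨by simp, a⟩, h.pre0_O.symm (h.HN_ar ⟨by simp, a⟩ a').2.2⟩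
  · obtain ⟨z, a, a', rfl⟩ := (h.ok b).omf_surj hy u
    exact .inr ⟨(b, .m), z, ⟨by simp, a⟩, h.pre0_O.symm (h.HN_ar ⟨by simp, a⟩ a').2.2⟩

theorem Ok.n_den (h : D.Ok) (i : Bool × K3) :
    D.atlO.W i ⊆ closure (sat D.atlO D.Vmp i) := by
  refine (HNa_dense.open_subset_closure_inter (h.pre0_O.opn i)).trans (closure_mono fun x a => ?_)
  obtain ⟨b, c⟩ := i
  have w := B3.atlO_W D _ ▸ a.1
  by_cases e : c = .f
  · subst e
    exact (h.n_covf w).resolve_left fun u => (a.2 (0, 0)).ne_zero (congrArg re u.1)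
  · exact ⟨_, x, ⟨e, w⟩, h.pre0_O.refl a.1⟩

theorem Ok.n_nearm (h : D.Ok) {ε : ℝ} (hε : 0 < ε) : ∃ ε', 0 < ε' ∧ ∀ b c, ∀ z ∈ D.Vmp (b, c),
    z ∈ (D.H b).Tube ε' → z ∈ (D.H b).Nf ∧
      normSq (B3.cc 0 ((D.H b).of c z)) + normSq (B3.cc 2 ((D.H b).of c z)) < ε := by
  have k : ∀ b, ∃ δ > 0, ∀ z ∈ (D.H b).Tube δ, (D.H b).hh (z (2, 0)) (xv z) < min ε 1 / 16 ∧
      |(D.H b).tt z| < min ε 1 / 16 := fun b => by
    have o := h.ok b
    have p : 0 < min ε 1 / 16 := by positivity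
    have c : Continuous fun p : ℝ × ℝ × ℝ => (D.H b).hh ((D.H b).μ₁ + p.1) ![0, 0, p.2.1, p.2.2] :=
      o.hh_cont.comp (f := fun p : ℝ × ℝ × ℝ => ((D.H b).μ₁ + p.1, ![0, 0, p.2.1, p.2.2]))
        (by fun_prop)
    obtain ⟨δ, d0, d1⟩ := Metric.eventually_nhds_iff.1
      ((c.continuousAt (x := 0)).eventually_lt continuousAt_const (show _ < min ε 1 / 16 by
        rw [o.FC_hh_kink (by simp)]
        simpa [HD.qq, HD.FC_al_low] using hε))
    refine ⟨min δ (min ε 1 / 16), lt_min d0 p, fun z a => ⟨?_, a.2.2.trans_le (min_le_right _ _)⟩⟩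
    have t : |(D.H b).tt z| ≤ 1 / 4 := by
      linarith only [a, a.2.2, min_le_right δ (min ε 1 / 16), min_le_right ε 1]
    have := d1 (y := ((D.H b).tt z, z (1, 0), z (1, 1))) (by
      simp only [dist_zero_right, Prod.norm_def, Real.norm_eq_abs, max_lt_iff]
      exact ⟨a.2.2.trans_le (min_le_left _ _), a.1.trans_le (min_le_left _ _),
        a.2.1.trans_le (min_le_left _ _)⟩)
    simp only [HD.tt, add_sub_cancel] at this
    rw [o.FC_hh_kink t] at this ⊢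
    exact this
  choose δ d0 d1 using k
  refine ⟨min (δ true) (δ false), lt_min (d0 _) (d0 _), fun b c z hz a => ?_⟩
  have m : min (δ true) (δ false) ≤ δ b := by
    cases b
    exacts [min_le_right _ _, min_le_left _ _]
  obtain ⟨a1, a2⟩ := d1 b z ⟨a.1.trans_le m, a.2.1.trans_le m, a.2.2.trans_le m⟩
  have a3 := abs_lt.1 a2
  have m1 := min_le_left ε 1
  have m2 := min_le_right ε 1
  have n : z ∈ (D.H b).Nf := ⟨by linarith only [a3, m2], by linarith only [a1, m2], by linarith only [a1, a3, m2]⟩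
  obtain ⟨e1, e2⟩ := h.HN_lev hz n
  exact ⟨n, by linarith only [hε, a1, a3, m1, e1, e2]⟩

theorem Ok.n_nearf (h : D.Ok) {ε : ℝ} (hε : 0 < ε) : ∃ ε', 0 < ε' ∧ ∀ b c, ∀ z ∈ D.Vmp (b, c),
    z ∈ (D.H b).Nf → normSq (B3.cc 0 ((D.H b).of c z)) + normSq (B3.cc 2 ((D.H b).of c z)) < ε' →
      z ∈ (D.H b).Tube ε := by
  have k : ∀ b, ∃ δ > 0, δ ≤ ε ∧ ∀ s t, (D.H b).qq s t < δ → |s| < ε ∧ |t| < ε := fun b => by
    have p := (h.ok b).hσ
    refine ⟨min ε (min ((D.H b).σ ^ 2 * ε ^ 2) (ε ^ 2 / (D.H b).σ ^ 2)), by positivity,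
      min_le_left _ _, fun s t a => ?_⟩
    simp only [lt_min_iff, HD.qq] at a
    have a1 : 0 ≤ (D.H b).σ ^ 2 * s ^ 2 := by positivity
    have a2 : 0 ≤ t ^ 2 / (D.H b).σ ^ 2 := by positivity
    exact ⟨abs_lt_of_sq_lt_sq (lt_of_mul_lt_mul_left (by linarith only [a, a2, a.2.1]) (sq_nonneg (D.H b).σ))
      hε.le, abs_lt_of_sq_lt_sq ((div_lt_div_iff_of_pos_right (pow_pos p 2)).1
        (by linarith only [a, a1, a.2.2])) hε.le⟩
  choose δ d0 d1 d2 using k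
  refine ⟨min (δ true) (δ false), lt_min (d0 _) (d0 _), fun b c z hz n a => ?_⟩
  have m : min (δ true) (δ false) ≤ δ b := by
    cases b
    exacts [min_le_right _ _, min_le_left _ _]
  have o := h.ok b
  obtain ⟨e1, e2⟩ := h.HN_lev hz n
  have p0 := normSq_nonneg (B3.cc 0 ((D.H b).of c z))
  have p2 := normSq_nonneg (B3.cc 2 ((D.H b).of c z))
  have t : |z (2, 0) - (D.H b).μ₁| ≤ 1 / 4 := (o.Nf_small n).1.le.trans (by norm_num)
  have q := HD.qq_nonneg (d := D.H b) (z (1, 0)) (z (1, 1))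
  have k1 := o.normSq_z1 t (xv z)
  have k2 := (o.ex_mem (z (2, 0)) (xv z)).1
  have k3 := o.b4
  have k4 := d2 b (z (1, 0)) (z (1, 1)) (by
    unfold HD.hh at e1
    simp only [xv_2, xv_3] at k1
    linarith only [a, m, e1, p0, p2, k1, k2, q, k3, k1.1, k1.2, mul_nonneg_of_nonpos_of_nonpos (Mathlib.Tactic.Linarith.sub_nonpos_of_le q) (Mathlib.Tactic.Linarith.sub_nonpos_of_le k1.right), mul_nonneg_of_nonpos_of_nonpos (Mathlib.Tactic.Linarith.sub_nonpos_of_le q) (Mathlib.Tactic.Linarith.sub_nonpos_of_le k3)])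
  exact ⟨k4.1, k4.2, abs_lt.2 ⟨by linarith only [a, m, e1, e2, p2, d1, d1 b], by linarith only [a, m, e1, e2, p0, d1, d1 b]⟩⟩

theorem Ok.n_supp (h : D.Ok) (hx : x ∈ D.atlO.W i) : (∃ b y, D.atlO.R i x (b, .f) y) ∨
    ∀ᶠ z in 𝓝 x, ∀ b y, D.atlO.R i z (b, .f) y → 1 / 16 < normSq (B3.cc 0 y) + normSq (B3.cc 2 y) := by
  set C : Set E6 := Metric.closedBall 0 1 ∩
    {y | normSq (B3.cc 0 y) + normSq (B3.cc 2 y) ≤ 1 / 16} with hC
  have c : IsCompact C := (isCompact_closedBall _ _).inter_right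
    (isClosed_le (by fun_prop) continuous_const)
  have s : ∀ b, C ⊆ D.atlO.W (b, .f) := fun b y a => by
    have := a.2
    simp only [mem_ofPred_eq] at this
    rw [B3.atlO_W]
    exact ⟨by linarith only [this, normSq_nonneg (B3.cc 2 y)], by linarith only [this, normSq_nonneg (B3.cc 0 y)]⟩
  refine or_iff_not_imp_right.2 fun n => ?_
  have k : ∃ b, ∃ᶠ z in 𝓝 x, ∃ y ∈ C, D.atlO.R i z (b, .f) y := by
    rw [Bool.exists_bool, ← frequently_or_distrib]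
    refine (not_eventually.1 n).mono fun z a => ?_
    push Not at a
    obtain ⟨b, y, r, a⟩ := a
    have g := HD.gf_norm (d := D.H b) (-round (y (1, 0)), -round (y (1, 1)), false) y
    refine (Bool.exists_bool (p := fun b => ∃ y ∈ C, D.atlO.R i z (b, .f) y)).1 ⟨b, _, ⟨?_, ?_⟩,
      h.pre0_O.trans r ((h.HN_gf b (-round (y (1, 0)), -round (y (1, 1)), false)).rel y
        (h.HN_mem r).2)⟩
    · set w := (D.H b).gf (-round (y (1, 0)), -round (y (1, 1)), false) y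
      have g1 : w (1, 0) = y (1, 0) - round (y (1, 0)) := by
        simpa [B3.cc, sub_eq_add_neg] using congrArg re g.2.2
      have g2 : w (1, 1) = y (1, 1) - round (y (1, 1)) := by
        simpa [B3.cc, sub_eq_add_neg] using congrArg im g.2.2
      rw [← g.1, ← g.2.1, normSq_cc, normSq_cc] at a
      have q : ∀ r : ℝ, r ^ 2 ≤ 1 / 16 → |r| ≤ 1 := fun r e => abs_le_of_sq_le_sq (by linarith only [e]) one_pos.le
      have s00 := sq_nonneg (w (0, 0))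
      have s01 := sq_nonneg (w (0, 1))
      have s20 := sq_nonneg (w (2, 0))
      have s21 := sq_nonneg (w (2, 1))
      rw [mem_closedBall_zero_iff, pi_norm_le_iff_of_nonneg one_pos.le]
      rintro ⟨i, j⟩
      fin_cases i <;> fin_cases j
      exacts [q _ (by simp only [Fin.zero_eta]; linarith only [a, s01, s20, s21]), q _ (by simp only [Fin.zero_eta, Fin.mk_one]; linarith only [a, s00, s20, s21]),
        (g1 ▸ abs_sub_round _ : |w (1, 0)| ≤ 1 / 2).trans (by norm_num),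
        (g2 ▸ abs_sub_round _ : |w (1, 1)| ≤ 1 / 2).trans (by norm_num),
        q (w (2, 0)) (by linarith only [a, s00, s01, s21]), q (w (2, 1)) (by linarith only [a, s00, s01, s20])]
    · rwa [mem_ofPred_eq, g.1, g.2.1]
  obtain ⟨b, k⟩ := k
  obtain ⟨y, -, r⟩ := HNa_clo h.pre0_O c (s b) hx k
  exact ⟨b, y, r⟩

theorem Ok.n_line (h : D.Ok) (hx : xv x = 0) (hr : D.atlO.R (b, .p) x (b', .f) y) :
    ∃ y, D.atlO.R (b, .p) x (b, .f) y ∧ B3.cc 0 y = 0 ∧ B3.cc 1 y = 0 := by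
  obtain rfl := h.HN_f hr
  have o := h.ok b'
  obtain ⟨a, γ, n, -⟩ := o.R_pf.1 (R_same.1 hr)
  have t : (D.H b').tt x < 1 / 8 := N9_tt _ γ x ▸ n.1
  have e : (D.H b').hh (x (2, 0)) (xv x) = (D.H b').tt x := by
    rw [HD.hh, o.FC_ex_zero a.1 (by rw [hx]; exact o.qq_zero.2 ⟨rfl, rfl⟩), hx, HD.z1_zero]
    simp [HD.tt]
  refine ⟨_, (h.HN_ar (c := .p) ⟨by simp, a⟩ ⟨t, by linarith only [t, e], by linarith only [e]⟩).2.2, ?_, ?_⟩
  · simp [HD.of, HD.opf, HD.uU, HD.FC_xv_pu, hx, HD.z1_zero]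
  · simp [HD.of, HD.opf, HD.yc, HD.y0, HD.y1, hx, bf_zero_left, bf_zero_right]
    rfl

end GD


end Pool.Agent.Work.MP_bf98aa_gt.B3
end

-- merged part: Pool.Agent.Work.MP_bf98aa_gt.B3.HF
section
/-!
Normal form along the kink tori.
PLAN. On `W = Wo .f` (convex, periodic in the directions `SY`), `π = slice SY 0`, `H (t, z) = z + t • (π z - z)`. `K = hK 1 H (α (b, f))` has `dK = pb π α - α` (`homotopy`, `p = 1`, `q = 0`) and is invariant
under every `gf γ` (`hK_nat`; `gf γ` commutes with `H`, `n_ff`). `pb π α` is closed on `univ`, periodic (`π (gf γ z) = ± π z + l`, and `gf γ (π z) = π (gf γ z)`) and even; `torusK` on `univ`, then symmetrise under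
`z ↦ -z` and pull back by `π`: `pb π α - e = dγ₂`, `γ₂ = pb π γ₂` invariant under all `gf γ`; `Odd → e = 0` by `cst_zero`. `γ = γ₂ - K`, `χ` a cut-off function of `|u|² + |w|²`, `1` below `1/32`, `0` above `1/16`;
`extend` the family `χ • γ` from the charts `f` (`InvR.of_weak`, `n_supp`, `gf_norm`). `NearC`: `n_nearm` with `ε = 1/32`, `n_of`, invariance of `α - dF β`, `of_pb`.
Last clause: if `x` is not related to `f` then `β` vanishes near `x` (`n_supp`, `InvR.zero_of_rel`); otherwise `n_line`, `n_eqv` give `f` with `fderiv f x (bv (2,1)) = σ • X`, `X = d/ds act s .f y`,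
`curry_pb`; at `y` (where `u = 0`, `y = 0`): `α = 0`, `K = 0` (the segment stays in the disc), `extDeriv_fsmul`, `wedge1_ins'`, `dχ X = 0`, `dπ X = 0`.
-/

set_option autoImplicit false

open scoped Manifold ContDiff Topology Matrix ComplexConjugate
open Set Complex Filter

namespace Pool.Agent.Work.MP_bf98aa_gt.B3

open Pool.Agent.Work.MP_bf98aa_gt.Th Pool.Agent.Work.MP_bf98aa_gt.Cy

variable {D : GD} {k : ℕ} {i j : Bool × K3} {b b' : Bool} {c : K3} {x y z : E6}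

theorem HF_pi (z : E6) : G6_L SY z = mkc 0 (cc 1 z) 0 := by
  apply ext6 <;> simp [G6_L_apply, slice, SY, cc]

theorem HF_H (t : ℝ) (z : E6) : z + t • (G6_L SY z - z) =
    mkc (((1 - t : ℝ) : ℂ) * cc 0 z) (cc 1 z) (((1 - t : ℝ) : ℂ) * cc 2 z) := by
  apply ext6 <;> simp [HF_pi, cc] <;> ring

theorem HF_comm (d : HD) (γ : ℤ × ℤ × Bool) (t : ℝ) (z : E6) :
    d.gf γ z + t • (G6_L SY (d.gf γ z) - d.gf γ z) = d.gf γ (z + t • (G6_L SY z - z)) := by
  rw [HF_H, HF_H]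
  obtain ⟨s, s', _ | _⟩ := γ <;> refine extc ?_ ?_ ?_ <;>
    simp only [HD.gf, HD.Df, iof, HD.psi, cond, id, cc_mkc0, cc_mkc1, cc_mkc2, mkc_10, mkc_11,
      cc_re, cc_im] <;> ring

theorem HF_gf (d : HD) (γ : ℤ × ℤ × Bool) (z : E6) :
    G6_L SY (d.gf γ z) = d.gf γ (G6_L SY z) := by
  simpa using HF_comm d γ 1 z

theorem HF_gf' (d : HD) (γ : ℤ × ℤ × Bool) (z : E6) : G6_L SY (d.gf γ z) =
    G6_L SY (cond γ.2.2 (io z) z + ∑ i ∈ SY, ((cond (i.2 = 0) γ.1 γ.2.1 : ℤ) : ℝ) • bv i) := by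
  rw [HF_pi, HF_pi, (HD.gf_norm γ z).2.2]
  obtain ⟨s, s', _ | _⟩ := γ <;> apply ext6 <;> simp [SY, bv, cc, io]

theorem HF_mem {d : HD} (γ : ℤ × ℤ × Bool) (hz : z ∈ d.Wo .f) : d.gf γ z ∈ d.Wo .f :=
  ⟨(HD.gf_norm γ z).1.trans_lt hz.1, (HD.gf_norm γ z).2.1.trans_lt hz.2⟩

theorem HF_open (d : HD) : IsOpen (d.Wo .f) :=
  (isOpen_lt (continuous_normSq.comp (continuous_cc 0)) continuous_const).inter
    (isOpen_lt (continuous_normSq.comp (continuous_cc 2)) continuous_const)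

theorem HF_seg {d : HD} {t : ℝ} (ht : t ∈ Icc (0 : ℝ) 1) (hz : z ∈ d.Wo .f) :
    z + t • (G6_L SY z - z) ∈ d.Wo .f := by
  have e : ∀ w : ℂ, normSq (((1 - t : ℝ) : ℂ) * w) ≤ normSq w := fun w => by
    rw [map_mul, normSq_ofReal]
    exact mul_le_of_le_one_left (normSq_nonneg w) (by linarith only [ht, ht.1, ht.2, mul_nonneg_of_nonpos_of_nonpos (Mathlib.Tactic.Linarith.sub_nonpos_of_le ht.left) (Mathlib.Tactic.Linarith.sub_nonpos_of_le ht.right)])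
  rw [HF_H]
  exact ⟨(e _).trans_lt hz.1, (e _).trans_lt hz.2⟩

theorem HF_conj {f g : E6 → E6} (hf : ContDiff ℝ ∞ f) (hg : ContDiff ℝ ∞ g)
    (e : ∀ z, G6_L SY (f z) = g (G6_L SY z)) {β : Fm E6 k}
    (hβ : pb g β (G6_L SY z) = β (G6_L SY z)) :
    pb f (pb (G6_L SY) β) z = pb (G6_L SY) β z := by
  rw [← pb_comp β (hf.differentiable (by simp) z) (G6_L SY).differentiableAt, funext e,
    pb_comp β (G6_L SY).differentiableAt (hg.differentiable (by simp) _)]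
  exact pb_congr' hβ

theorem HF_loc (d : HD) {a : Fm E6 (k + 2)} (ha : Cl a (d.Wo .f))
    (hi : ∀ γ, ∀ z ∈ d.Wo .f, pb (d.gf γ) a z = a z) :
    ∃ (g : Fm E6 (k + 1)) (e : Alt E6 (k + 2)), Hor SY e ∧ (Odd (k + 2) → e = 0) ∧
      IsD g (fun z => a z - e) (d.Wo .f) ∧ (∀ γ, ∀ z ∈ d.Wo .f, pb (d.gf γ) g z = g z) ∧
      ((∀ y ∈ d.Wo .f, cc 0 y = 0 → cc 1 y = 0 → a y = 0) → ∀ y ∈ d.Wo .f, cc 0 y = 0 →
        cc 1 y = 0 → ∀ X, G6_L SY X = 0 → (g y).curryLeft X = 0) := by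
  have hW := HF_open d
  have hπ : ContDiff ℝ ∞ (G6_L SY) := (G6_L SY).contDiff
  have hg := (HD.grp_f d).sm
  have hm : ∀ z, G6_L SY z ∈ d.Wo .f := fun z => by
    rw [HF_pi]
    constructor <;> simp
  have hππ : ∀ z, G6_L SY (G6_L SY z) = G6_L SY z := fun z => by rw [HF_pi, HF_pi, cc_mkc1]
  have hO := hW.preimage (FMV_H hπ).continuous
  have hK1 := homotopy hO (FMV_H hπ).contDiffOn hW (mapsTo_preimage _ _) ha hW
    (fun t ht x hx => HF_seg ht hx) 1 0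
  have key : ∀ {f : E6 → E6} (γ : ℤ × ℤ × Bool), ContDiff ℝ ∞ f →
      (∀ z, G6_L SY (f z) = G6_L SY (d.gf γ z)) →
      ∀ z, pb f (pb (G6_L SY) a) z = pb (G6_L SY) a z := fun γ hf e z =>
    HF_conj hf (hg γ) (fun z => (e z).trans (HF_gf d γ z)) (hi γ _ (hm z))
  have hU : DomE SY univ 0 := ⟨isOpen_univ, convex_univ, mem_univ _, by decide,
    fun _ _ _ _ _ => mem_univ _, mapsTo_univ _ _, fun _ _ _ => mem_univ _⟩
  obtain ⟨e, β, h1, h2, h3, h4⟩ := torusE hU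
    (ha.pb isOpen_univ hW hπ.contDiffOn fun z _ => hm z) ⟨fun i hi z _ => (HS1_pbT _ _ z).symm.trans
      (key (cond (i.2 = 0) 1 0, cond (i.2 = 0) 0 1, false) (contDiff_id.add contDiff_const)
        (fun z => by
          rw [HF_gf']
          simp only [SY, Finset.mem_insert, Finset.mem_singleton] at hi
          rcases hi with rfl | rfl <;> simp [SY]) z),
      fun z _ => key (0, 0, true) contDiff_io (fun z => by rw [HF_gf']; simp) z,
      fun z _ => key (0, 0, false) contDiff_PP (fun z => by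
        rw [HF_gf', HF_pi, HF_pi]
        simp [PP, cc]) z⟩
  have h5 := h3.pb hW isOpen_univ hπ.contDiffOn (mapsTo_univ _ _)
  refine ⟨_, e, h1, h2, FMV_sub hW h5 hK1 fun x _ => ?_, fun γ z hz => ?_,
    fun h0 y hy y0 y1 X hX => ?_⟩
  · have e1 : pb (G6_L SY) (pb (G6_L SY) a) x = pb (G6_L SY) a x :=
      HF_conj hπ contDiff_id hππ (congrFun (pb_id a) _)
    have e2 : pb (G6_L SY) (fun _ => e) x = e := by
      rw [pb, ContinuousLinearMap.fderiv]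
      exact h1
    have e3 : pb (G6_L SY) (fun z => pb (G6_L SY) a z - e) x =
        pb (G6_L SY) (pb (G6_L SY) a) x - pb (G6_L SY) (fun _ => e) x := rfl
    rw [e3, e1, e2]
    simp [hA, pb_id]
  · rw [pb_sub, Pi.sub_apply, Pi.sub_apply]
    refine congrArg₂ (· - ·) ?_ (hK_nat hO (FMV_H hπ).contDiffOn hW (mapsTo_preimage _ _) ha.1
      (hg γ) (hg γ) (fun p hp => ?_) (fun p _ => HF_comm d γ p.1 p.2) (hi γ)
      (w := fun t => 1 + 0 * t) (by fun_prop)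
      fun t ht => HF_seg ht hz)
    · have hs : ContDiff ℝ ∞ fun z => cond γ.2.2 (io z) z := by
        cases γ.2.2
        exacts [contDiff_id, contDiff_io]
      refine HF_conj (hg γ) (hs.add contDiff_const) (fun z => (HF_gf' d γ z).trans ?_)
        ((pb_comp (g := fun y => y + ∑ i ∈ SY, ((cond (i.2 = 0) γ.1 γ.2.1 : ℤ) : ℝ) • bv i) β
          (hs.differentiable (by simp) _) (by fun_prop)).trans ((pb_congr' ((HS1_pbT _ β _).trans
            (per_int hU.inv h4.per _ (mem_univ _)))).trans ?_))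
      · rw [HF_pi, HF_pi]
        cases γ.2.2 <;> apply ext6 <;> simp [SY, bv, cc, io]
      · cases γ.2.2
        exacts [congrFun (pb_id β) _, h4.evn _ (mem_univ _)]
    · exact mem_preimage.2 (HF_comm d γ p.1 p.2 ▸ HF_mem γ hp)
  · have e1 : hK (fun t => 1 + 0 * t) (fun p : ℝ × E6 => p.2 + p.1 • (G6_L SY p.2 - p.2)) a y =
        0 := by
      refine (intervalIntegral.integral_congr (g := fun _ => 0) fun t ht => ?_).trans
        intervalIntegral.integral_zero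
      rw [uIcc_of_le zero_le_one] at ht
      have e2 := h0 _ (HF_seg ht hy) (by rw [HF_H, cc_mkc0, y0, mul_zero])
        (by rw [HF_H, cc_mkc1, y1])
      simp only [e2]
      exact smul_zero _
    rw [Pi.sub_apply, e1, sub_zero, curry_pb, ContinuousLinearMap.fderiv, hX, map_zero]
    rfl

/-- The cut-off function. -/
noncomputable def HF_chi (z : E6) : ℝ :=
  Real.smoothTransition (2 - 32 * (normSq (cc 0 z) + normSq (cc 2 z)))

theorem HF_chi_sm : ContDiff ℝ ∞ HF_chi :=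
  Real.smoothTransition.contDiff.comp (contDiff_iff_contDiffAt.2 fun z => by fun_prop)

theorem GD.Ok.normC (h : D.Ok) {α : Bool × K3 → Fm E6 (k + 2)} (hα : ClF D.atlO α) :
    ∃ (β : Bool × K3 → Fm E6 (k + 1)) (ε : ℝ) (e : Bool → Alt E6 (k + 2)), SmF D.atlO β ∧ 0 < ε ∧
      (∀ b, Hor SY (e b)) ∧ (Odd (k + 2) → ∀ b, e b = 0) ∧ D.NearC ε e (α - dF β) ∧
      ∀ b, (∀ y ∈ (D.H b).Wo .f, B3.cc 0 y = 0 → B3.cc 1 y = 0 → α (b, .f) y = 0) →
        ∀ x ∈ D.Vmp (b, .p), xv x = 0 → α (b, .p) x = 0 → ins ((α - dF β) (b, .p)) x = 0 := by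
  have hA := h.n_orb
  have hW : ∀ b, ∀ z ∈ (D.H b).Wo .f, z ∈ D.atlO.W (b, .f) := fun b z hz => B3.atlO_W D (b, .f) ▸ hz
  have hs : ∀ b γ, ∀ z ∈ (D.H b).Wo .f, Sec D.atlO (b, .f) z (b, .f) ((D.H b).gf γ) :=
    fun b γ z hz => ⟨((HD.grp_f _).sm γ).contDiffAt, Eventually.mono ((HF_open _).mem_nhds hz)
      fun w hw => h.n_ff.2 ⟨rfl, hw, γ, rfl⟩⟩
  choose g e h1 h2 h3 h4 h5 using fun b => HF_loc (D.H b) (a := α (b, .f))
    (B3.atlO_W D (b, .f) ▸ hα.1 (b, .f)) fun γ z hz => hα.2 _ _ _ _ (hs b γ z hz)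
  let V : Bool × K3 → Set E6 := fun i => {z | i.2 = .f ∧ z ∈ (D.H i.1).Wo .f}
  have hVo : ∀ i, IsOpen (V i) := fun i => isOpen_const.inter (HF_open _)
  have hVs : ∀ i, V i ⊆ D.atlO.W i := by
    rintro ⟨b, c⟩ z ⟨rfl, hz⟩
    exact hW b z hz
  have hsm : ∀ i, Sm (fun z => HF_chi z • g i.1 z) (V i) := fun i =>
    HF_chi_sm.contDiffOn.smul ((h3 i.1).1.mono fun _ hz => hz.2)
  have h0 : ∀ b y, 1 / 16 < normSq (cc 0 y) + normSq (cc 2 y) → HF_chi y • g b y = 0 :=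
    fun b y hy => by rw [HF_chi, Real.smoothTransition.zero_of_nonpos (by linarith only [hy]), zero_smul]
  obtain ⟨β, hβ, b1, b2⟩ := extend (α := fun i z => HF_chi z • g i.1 z) hA hVo hVs
    ⟨hsm, InvR.of_weak (hA.res hVo hVs) (fun i => (hsm i).continuousOn) (by
      rintro ⟨b, c⟩ x ⟨b', c'⟩ y ⟨⟨rfl, hx⟩, ⟨rfl, hy⟩, hr⟩
      obtain ⟨rfl, -, γ, rfl⟩ := h.n_ff.1 hr
      refine Or.inl ⟨_, (hs _ γ x hx).res hVo ⟨rfl, hx⟩ ⟨rfl, hy⟩, rfl, ?_⟩
      rw [pb_fun_smul, h4 _ γ x hx, HF_chi, (HD.gf_norm γ x).1, (HD.gf_norm γ x).2.1]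
      rfl)⟩ fun i x hx => (h.n_supp hx).elim
      (fun ⟨b, y, hr⟩ => ⟨_, y, hr, Or.inl ⟨rfl, B3.atlO_W D (b, .f) ▸ (hA.mem hr).2⟩⟩) fun hv =>
        ⟨i, x, hA.refl hx, Or.inr (hv.mono (by
          rintro z hz ⟨b, c⟩ y ⟨rfl, -⟩ hr
          exact h0 b y (hz b y hr)))⟩
  have hI := (hα.sub hA (hβ.dF hA)).2
  have hd : ∀ b, ∀ y ∈ (D.H b).Wo .f, (α - dF β) (b, .f) y = α (b, .f) y -
      (HF_chi y • (α (b, .f) y - e b) + wedge1 (fderiv ℝ HF_chi y) (g b y)) := fun b y hy => by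
    rw [← show extDeriv (g b) y = α (b, .f) y - e b from (h3 b).2 y hy, ← extDeriv_fsmul (HF_chi_sm.differentiable (by simp) y)
      ((h3 b).1.diffAt (HF_open _) hy)]
    exact congrArg (α (b, .f) y - ·) (Filter.EventuallyEq.extDeriv_eq (Eventually.mono
      ((HF_open _).mem_nhds hy) fun w hw => b1 (b, .f) w ⟨rfl, hw⟩))
  obtain ⟨ε, hε, hn⟩ := h.n_nearm (ε := 1 / 32) (by norm_num)
  refine ⟨β, ε, e, hβ, hε, h1, fun ho b => h2 b ho, fun ⟨b, c⟩ z hz ht => ?_,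
    fun b ha x hx x0 hx0 => ?_⟩
  · obtain ⟨n1, n2⟩ := hn b c z hz ht
    have hr := h.n_of hz n1
    have e1 : HF_chi =ᶠ[𝓝 ((D.H b).of c z)] fun _ => 1 := Eventually.mono
      ((isOpen_lt (f := fun y => normSq (cc 0 y) + normSq (cc 2 y)) (by fun_prop)
        continuous_const).mem_nhds n2) fun y (hy : _ < _) =>
      Real.smoothTransition.one_of_one_le (by linarith only [hy])
    rw [← hI _ _ _ _ hr.sec, ← h.of_pb hz n1 (h1 b)]
    refine pb_congr' ?_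
    rw [hd b _ (B3.atlO_W D (b, .f) ▸ (hA.mem hr.sec.rel).2), e1.self_of_nhds, e1.fderiv_eq,
      fderiv_fun_const, one_smul, Pi.zero_apply, ← zero_smul ℝ (0 : E6 →L[ℝ] ℝ),
      ← one_smul ℝ (g b _), wedge1_smul]
    simp
  · rcases h.n_supp (D.Vmp_sub _ hx) with ⟨b', y, hr⟩ | hv
    · obtain ⟨y, hr, y0, y1⟩ := h.n_line x0 hr
      obtain ⟨f, σ, N, hf, hN, rfl⟩ := h.n_eqv hr (Or.inr rfl)
      have hy : f x ∈ (D.H b).Wo .f := B3.atlO_W D (b, .f) ▸ (hA.mem hr).2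
      have hfx := hf.sm.contDiffAt (hf.opn.mem_nhds hN)
      have hX : ∀ {Z : Type} [NormedAddCommGroup Z] [NormedSpace ℝ Z] {φ : E6 → Z},
          DifferentiableAt ℝ φ (f x) → (∀ s z, φ (act s .f z) = φ z) →
          fderiv ℝ φ (f x) (fderiv ℝ f x (bv (2, 1))) = 0 := fun {Z} _ _ {φ} hφ hi => by
        have k := HC_line (hφ.comp x (hfx.differentiableAt (by simp)))
        rw [fderiv_comp x hφ (hfx.differentiableAt (by simp))] at k
        simp only [Function.comp_apply, ← act_mp (c := .p) (by decide), hf.eqv x hN, hi] at k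
        exact k.unique (hasDerivAt_const _ _)
      have e1 := hX (HF_chi_sm.differentiable (by simp) _) fun s z => by
        simp [HF_chi, act, normSq_ee]
      have e2 := hX (G6_L SY).differentiableAt fun s z => by rw [HF_pi, HF_pi]; rfl
      rw [ContinuousLinearMap.fderiv] at e2
      have e3 : (e b).curryLeft (fderiv ℝ f x (bv (2, 1))) = 0 := by
        rw [← h1 b, ContinuousAlternatingMap.curryLeft_compContinuousLinearMap, e2, map_zero]
        rfl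
      have e4 : ((α - dF β) (b, .f) (f x)).curryLeft (fderiv ℝ f x (bv (2, 1))) = 0 := by
        rw [hd b _ hy, ha _ hy y0 y1]
        change 0 - (HF_chi (f x) • (0 - (e b).curryLeft _) + (wedge1 _ _).curryLeft _) = 0
        rw [wedge1_ins', e1, e3, h5 b ha _ hy y0 y1 _ e2, wedge1_zero]
        simp
      rw [ins, ← hI _ _ _ _ ⟨hfx, Eventually.mono (hf.opn.mem_nhds hN) hf.rel⟩, curry_pb, e4]
      rfl
    · have e1 : β (b, .p) =ᶠ[𝓝 x] fun _ => 0 := hv.mono fun z hz => by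
        by_cases hs : z ∈ sat D.atlO V (b, .p)
        · obtain ⟨⟨b', c⟩, y, ⟨rfl, hy⟩, hr⟩ := hs
          exact hβ.2.zero_of_rel hA hr ((b1 _ y ⟨rfl, hy⟩).trans (h0 b' y (hz b' y hr)))
        · exact b2 _ z hs
      change (α (b, .p) x - extDeriv (β (b, .p)) x).curryLeft _ = 0
      rw [hx0, e1.extDeriv_eq, extDeriv_const, sub_zero]
      rfl


end Pool.Agent.Work.MP_bf98aa_gt.B3
end
end

-- merged part: Pool.Agent.Work.MP_bf98aa_gt.B3.HGL
section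
-- merged part: Pool.Agent.Work.MP_bf98aa_gt.B3.HA
section
/-!
Averaging over the circle.
PLAN. For an invariant family `s ↦ pb (act s) (α i) z` is 1-periodic (`n_one`, `act_add`, `pb_comp`). Smoothness: `contDiffOn_hA`, `contDiffOn_integral` with `O = univ ×ˢ W i`, `H p = act p.1 i.2 p.2`
(`contDiff_act`, `n_act`). Invariance by `InvR.of_weak`: for a related pair use `n_eqv` in one of the two directions (`symm`); for an `Eqv` section `f` with sign `σ`: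
`pb f (pb (act (σ s)) (α j)) x = pb (act s) (pb f (α j)) x = pb (act s) (α i) x`; `pb_integral`; for `σ = -1` substitute `s ↦ 1 - s` (`intervalIntegral.integral_comp_sub_left`) and use periodicity.
`avg_ex`: `homotopy` with `p = -1/2`, `q = 1`; the primitive is `hK (fun t => -1/2 + 1 * t) H (α i)`; its integrand at time `t` is `FHom_B (pb H (α i)) (t, x)` (`FHom_hK`); with `F (s, z) = (σ s, f z)` one has
`pb F (pb H_j (α j)) = pb H_i (α i)` on `univ ×ˢ N`, so `pb f (B_j (σ s, ·)) x = σ • B_i (s, x)`; the weight `s - 1/2` changes sign under `s ↦ 1 - s`.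
-/

set_option autoImplicit false

open scoped Manifold ContDiff Topology Matrix ComplexConjugate
open Set Complex Filter

namespace Pool.Agent.Work.MP_bf98aa_gt.B3

open Pool.Agent.Work.MP_bf98aa_gt.Th Pool.Agent.Work.MP_bf98aa_gt.Cy

variable {D : GD} {k : ℕ} {i j : Bool × K3} {b b' : Bool} {c : K3} {x y z : E6}

theorem HA_sm (s : ℝ) (c : K3) : ContDiff ℝ ∞ (act s c) :=
  (HD.contDiff_act c).comp (f := fun z : E6 => (s, z)) (by fun_prop)

theorem HA_df (c : K3) (p : ℝ × E6) : DifferentiableAt ℝ (fun p : ℝ × E6 => act p.1 c p.2) p :=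
  (HD.contDiff_act c).differentiable (by simp) p

/-- The total pull-back under the action. -/
noncomputable def HA_G (α : Bool × K3 → Fm E6 k) (i : Bool × K3) : Fm (ℝ × E6) k :=
  pb (fun p : ℝ × E6 => act p.1 i.2 p.2) (α i)

theorem HA_one (h : D.Ok) {α : Bool × K3 → Fm E6 k} (hα : InvR D.atlO α)
    (hz : z ∈ D.atlO.W i) : pb (act 1 i.2) (α i) z = α i z :=
  hα i z i _ ⟨(HA_sm 1 i.2).contDiffAt,
    Filter.mem_of_superset ((h.n_orb.opn i).mem_nhds hz) fun _ hw => h.n_one hw⟩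

theorem HA_nat (h : D.Ok) {α : Bool × K3 → Fm E6 k} (hα : InvR D.atlO α) {f : E6 → E6}
    {σ τ : ℝ} {N : Set E6} (e : Eqv D.atlO i j f σ N) (hτ : σ = 1 ∧ τ = 0 ∨ σ = -1 ∧ τ = 1)
    (hx : x ∈ N) (s : ℝ) : HA_G α i (s, x) = (HA_G α j (σ * s + τ, f x)).compContinuousLinearMap
      ((σ • ContinuousLinearMap.fst ℝ ℝ E6).prod
        ((fderiv ℝ f x).comp (ContinuousLinearMap.snd ℝ ℝ E6))) := by
  have hs := e.opn.mem_nhds (e.inv x hx s)
  have hg : Sec D.atlO i (act s i.2 x) j fun z => act τ j.2 (f z) := by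
    refine ⟨(HA_sm τ j.2).contDiffAt.comp _ (e.sm.contDiffAt hs),
      Filter.mem_of_superset hs fun w hw => ?_⟩
    rcases hτ with ⟨-, rfl⟩ | ⟨-, rfl⟩
    · simpa only [mem_setOf_eq, HD.act_zero] using e.rel w hw
    · exact h.n_orb.trans (e.rel w hw) (h.n_one (h.n_orb.mem (e.rel w hw)).2)
  have df : DifferentiableAt ℝ f x :=
    (e.sm.contDiffAt (e.opn.mem_nhds hx)).differentiableAt (by simp)
  have dΦ : HasFDerivAt (fun z : ℝ × E6 => (σ * z.1 + τ, f z.2))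
      ((σ • ContinuousLinearMap.fst ℝ ℝ E6).prod
        ((fderiv ℝ f x).comp (ContinuousLinearMap.snd ℝ ℝ E6))) (s, x) :=
    ((hasFDerivAt_fst.const_mul σ).add_const τ).prodMk
      (HasFDerivAt.comp (f := Prod.snd) (s, x) df.hasFDerivAt hasFDerivAt_snd)
  have h1 : pb (fun z : ℝ × E6 => act (σ * z.1 + τ) j.2 (f z.2)) (α j) (s, x) =
      pb (fun z : ℝ × E6 => act τ j.2 (f (act z.1 i.2 z.2))) (α j) (s, x) := by
    refine pb_congr _ ?_
    filter_upwards [(isOpen_univ.prod e.opn).mem_nhds (⟨trivial, hx⟩ : (s, x) ∈ univ ×ˢ N)]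
      with z hz
    rw [e.eqv _ hz.2, HD.act_add, add_comm]
  rw [pb_comp (f := fun z : ℝ × E6 => (σ * z.1 + τ, f z.2))
      (g := fun p : ℝ × E6 => act p.1 j.2 p.2) _ dΦ.differentiableAt (HA_df _ _),
    pb_comp (f := fun p : ℝ × E6 => act p.1 i.2 p.2) (g := fun z => act τ j.2 (f z)) _
      (HA_df _ _) (hg.1.differentiableAt (by simp)),
    pb_congr' (f := fun p : ℝ × E6 => act p.1 i.2 p.2) (x := (s, x)) (β := α i)
      (hα _ _ _ _ hg)] at h1
  rw [HA_G, ← h1, pb, dΦ.fderiv]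
  rfl

theorem HA_gen (h : D.Ok) {T : Bool × K3 → ℝ × E6 → Alt E6 k}
    (hT : ∀ i, ContDiffOn ℝ ∞ (T i) (univ ×ˢ D.atlO.W i))
    (hn : ∀ i j f σ τ N, Eqv D.atlO i j f σ N → σ = 1 ∧ τ = 0 ∨ σ = -1 ∧ τ = 1 → ∀ x ∈ N, ∀ s,
      pb f (fun y => T j (σ * s + τ, y)) x = T i (s, x)) :
    SmF D.atlO fun i z => ∫ s in (0 : ℝ)..1, T i (s, z) := by
  have ho := h.n_orb.opn
  have sm := fun i => (contDiffOn_integral (isOpen_univ.prod (ho i)) (hT i) (ho i)
    fun t _ x hx => ⟨trivial, hx⟩).1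
  have key : ∀ i x j y, D.atlO.R i x j y → i.2 ≠ .f ∨ j.2 = .f → ∃ f, Sec D.atlO i x j f ∧
      f x = y ∧ pb f (fun z => ∫ s in (0 : ℝ)..1, T j (s, z)) x =
        ∫ s in (0 : ℝ)..1, T i (s, x) := by
    intro i x j y hr hij
    obtain ⟨f, σ, N, e, hx, rfl⟩ := h.n_eqv hr hij
    refine ⟨f, ⟨e.sm.contDiffAt (e.opn.mem_nhds hx),
      Filter.mem_of_superset (e.opn.mem_nhds hx) e.rel⟩, rfl, ?_⟩
    rw [pb_integral f (fun s z => T j (s, z)) x
      (FHom_slice (hT j).continuousOn fun t _ => ⟨trivial, (h.n_orb.mem hr).2⟩)]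
    rcases e.sg with rfl | rfl
    · refine intervalIntegral.integral_congr fun s _ => ?_
      simpa only [one_mul, add_zero] using hn i j f 1 0 N e (Or.inl ⟨rfl, rfl⟩) x hx s
    · have h1 := intervalIntegral.integral_comp_sub_left (a := 0) (b := 1)
        (fun s => pb f (fun z => T j (s, z)) x) 1
      rw [sub_self, sub_zero] at h1
      rw [← h1]
      refine intervalIntegral.integral_congr fun s _ => ?_
      simpa only [neg_one_mul, neg_add_eq_sub] using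
        hn i j f (-1) 1 N e (Or.inr ⟨rfl, rfl⟩) x hx s
  refine ⟨sm, InvR.of_weak h.n_orb (fun i => (sm i).continuousOn) fun i x j y hr => ?_⟩
  by_cases hi : i.2 ≠ .f ∨ j.2 = .f
  · exact Or.inl (key i x j y hr hi)
  · exact Or.inr (key j y i x (h.n_orb.symm hr) (Or.inl fun hj => hi (Or.inr hj)))

theorem HA_Gsm (h : D.Ok) {α : Bool × K3 → Fm E6 k} (hα : SmF D.atlO α) (i : Bool × K3) :
    Sm (HA_G α i) (univ ×ˢ D.atlO.W i) :=
  (hα.1 i).pb (isOpen_univ.prod (h.n_orb.opn i)) (h.n_orb.opn i)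
    (HD.contDiff_act i.2).contDiffOn fun p hp => D.n_act p.1 hp.2

theorem HA_mp (hc : c ≠ .f) (s : ℝ) : act s c = fun z => z + s • bv (2, 1) := by
  funext z
  cases c
  all_goals first | exact absurd rfl hc | (apply ext6 <;> simp [act, mk4, xv, bv])

theorem HA_pb (hc : c ≠ .f) (s : ℝ) (α : Fm E6 k) (z : E6) :
    pb (act s c) α z = α (z + s • bv (2, 1)) := by
  rw [HA_mp hc, pb, fderiv_add_const, fderiv_fun_id]
  rfl

theorem GD.Ok.avg_sm (h : D.Ok) {α : Bool × K3 → Fm E6 k} (hα : SmF D.atlO α) :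
    SmF D.atlO (avgF α) := by

  have e : avgF α = fun i z => ∫ s in (0 : ℝ)..1, FHom_A (HA_G α i) (s, z) := by
    funext i z
    exact intervalIntegral.integral_congr fun s _ =>
      FHom_hA (H := fun p : ℝ × E6 => act p.1 i.2 p.2) (α i) (HA_df _ _)
  rw [e]
  refine HA_gen h (fun i => FHom_A_smooth (isOpen_univ.prod (h.n_orb.opn i)) (HA_Gsm h hα i))
    fun i j f σ τ N e hτ x hx s => ?_
  rw [FHom_A, HA_nat h hα.2 e hτ hx s]
  ext v
  simp only [pb, FHom_A, ContinuousAlternatingMap.compContinuousLinearMap_apply]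
  congr 1
  funext m
  simp

theorem GD.Ok.avg_ex (h : D.Ok) {α : Bool × K3 → Fm E6 (k + 1)} (hα : ClF D.atlO α) :
    ExF D.atlO (α - avgF α) := by

  have ho := h.n_orb.opn
  have e : (fun (i : Bool × K3) => hK (fun t => -1 / 2 + 1 * t)
      (fun p : ℝ × E6 => act p.1 i.2 p.2) (α i)) = fun i z => ∫ s in (0 : ℝ)..1,
        (fun p : ℝ × E6 => (-1 / 2 + 1 * p.1) • FHom_B (HA_G α i) p) (s, z) := by
    funext i z
    exact FHom_hK isOpen_univ (HD.contDiff_act i.2).contDiffOn _ _ fun _ _ => trivial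
  refine ⟨fun i => hK (fun t => -1 / 2 + 1 * t) (fun p : ℝ × E6 => act p.1 i.2 p.2) (α i),
    fun i => ?_, ?_⟩
  · have h1 := homotopy (isOpen_univ.prod (ho i)) (HD.contDiff_act i.2).contDiffOn (ho i)
      (fun p hp => D.n_act p.1 hp.2) (hα.1 i) (ho i) (fun t _ x hx => ⟨trivial, hx⟩) (-1 / 2) 1
    refine ⟨h1.1, fun x hx => (h1.2 x hx).trans ?_⟩
    have e1 : hA (fun p : ℝ × E6 => act p.1 i.2 p.2) (α i) 1 x = α i x := HA_one h hα.2 hx
    have e0 : hA (fun p : ℝ × E6 => act p.1 i.2 p.2) (α i) 0 x = α i x := by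
      simp only [hA, HD.act_zero, pb_id]
    have e2 : (-1 / 2 + 1 : ℝ) • α i x - (-1 / 2 : ℝ) • α i x = α i x := by
      ext v
      simp only [ContinuousAlternatingMap.sub_apply, ContinuousAlternatingMap.smul_apply,
        smul_eq_mul]
      ring
    simp only [e1, e0, e2, one_smul]
    rfl
  · rw [e]
    refine (HA_gen h (T := fun i p => (-1 / 2 + 1 * p.1) • FHom_B (HA_G α i) p)
      (fun i => (by fun_prop : ContDiff ℝ ∞ fun z : ℝ × E6 => -1 / 2 + 1 * z.1).contDiffOn.smul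
        (FHom_B_smooth (isOpen_univ.prod (ho i)) (HA_Gsm h hα.sm i)))
      fun i j f σ τ N e hτ x hx s => ?_).2
    have e2 : -1 / 2 + 1 * (σ * s + τ) = (-1 / 2 + 1 * s) * σ := by
      rcases hτ with ⟨rfl, rfl⟩ | ⟨rfl, rfl⟩ <;> ring
    simp only [e2]
    rw [pb_fun_smul f (fun _ => (-1 / 2 + 1 * s) * σ), mul_smul, FHom_B,
      HA_nat h hα.2 e hτ hx s, ContinuousAlternatingMap.curryLeft_compContinuousLinearMap]
    congr 1
    have e3 : ((σ • ContinuousLinearMap.fst ℝ ℝ E6).prod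
        ((fderiv ℝ f x).comp (ContinuousLinearMap.snd ℝ ℝ E6))) (1, 0) = σ • ((1 : ℝ), (0 : E6)) := by
      simp
    ext v
    simp only [pb, FHom_B, ContinuousAlternatingMap.compContinuousLinearMap_apply,
      ContinuousAlternatingMap.smul_apply, ContinuousLinearMap.comp_apply,
      ContinuousAlternatingMap.compContinuousLinearMapCLM_apply, e3, map_smul]
    congr 2
    funext m
    simp

theorem avg_mp (α : Bool × K3 → Fm E6 k) (hi : i.2 ≠ .f) (z : E6) :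
    avgF α i z = ∫ s in (0 : ℝ)..1, α i (z + s • bv (2, 1)) := by
  exact intervalIntegral.integral_congr fun s _ => HA_pb hi s _ z

theorem GD.Ok.avg_inv (h : D.Ok) {α : Bool × K3 → Fm E6 k} (hα : SmF D.atlO α) :
    D.AInv (avgF α) := by

  intro i z hz s
  have hp : Function.Periodic (fun t : ℝ => α i (z + t • bv (2, 1))) 1 := fun t => by
    have h1 := HA_one h hα.2 (D.Vmp_sub i (GD.Vmp_shift hz t))
    rw [HA_pb hz.1, add_assoc, ← add_smul] at h1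
    exact h1
  have h2 := hp.intervalIntegral_add_eq s 0
  have h3 := intervalIntegral.integral_comp_add_left (a := 0) (b := 1)
    (fun t : ℝ => α i (z + t • bv (2, 1))) s
  rw [add_zero, h2, zero_add] at h3
  rw [avg_mp α hz.1, avg_mp α hz.1, ← h3]
  simp only [add_smul, add_assoc]

theorem avg_near {α : Bool × K3 → Fm E6 k} {ε : ℝ} {e : Bool → Alt E6 k} (hα : D.NearC ε e α) :
    D.NearC ε e (avgF α) := by

  intro i z hz ht
  rw [avg_mp α hz.1, intervalIntegral.integral_congr (g := fun _ => (D.H i.1).yF (e i.1) z)]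
  · simp
  · intro s _
    refine (hα i _ (GD.Vmp_shift hz s) ?_).trans (HD.yF_shift _ _ _ _)
    simpa [HD.Tube, HD.tt, bv] using ht

theorem GD.Ok.avg_ins (h : D.Ok) {α : Bool × K3 → Fm E6 (k + 1)} (hα : SmF D.atlO α)
    (hz : z ∈ D.Vmp i) {w : Alt E6 k} (hw : ∀ s : ℝ, ins (α i) (z + s • bv (2, 1)) = w) :
    ins (avgF α i) z = w := by

  have hc : Continuous fun s : ℝ => α i (z + s • bv (2, 1)) :=
    (hα.1 i).continuousOn.comp_continuous (by fun_prop)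
      fun s => D.Vmp_sub i (GD.Vmp_shift hz s)
  ext v
  have h1 := (ContinuousAlternatingMap.apply ℝ E6 ℝ
    (Matrix.vecCons (bv (2, 1)) v)).intervalIntegral_comp_comm
      (hc.intervalIntegrable (μ := MeasureTheory.volume) 0 1)
  have h2 : ∀ s : ℝ, ContinuousAlternatingMap.apply ℝ E6 ℝ (Matrix.vecCons (bv (2, 1)) v)
      (α i (z + s • bv (2, 1))) = w v := fun s => congrArg (fun a : Alt E6 k => a v) (hw s)
  simp only [h2, intervalIntegral.integral_const, sub_zero, one_smul] at h1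
  rw [ins, avg_mp α hz.1]
  exact h1.symm


end Pool.Agent.Work.MP_bf98aa_gt.B3
end

-- merged part: Pool.Agent.Work.MP_bf98aa_gt.B3.HG
section
/-!
From the neck to the slabs and back.
PLAN. `tw_one`, `tw_ins`: an `Eqv` map is a section at every point of `N`; `ins_pb`, `Eqv.fderiv`. `glueQ`: `γ b z = β (b,m) z` on `Vmp (b,m)`, else `β (b,p) z` on `Vmp (b,p)`, else `yF (e b) (z - lv (0,0,n,n'))` (`n_cov`).
`β (b,m) = β (b,p)` on the overlap (`n_mp`, `pb_gauge` with `g = id`); each `β i` is periodic and even on `Vmp i` (`n_lat`, `pb_gauge`); near a point of the third kind `γ` is a translate of `yF`; `Sy` on `Q` by `eqOn_Q`;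
`n_fold`, `n_mid`. `lift_bas`: `InvR.of_weak` on `Orb.res`, `n_shp`, `pb_gauge`, `Sy.pb_aff`, `pb_comp`. `liftC`: `T` = `transport` of `β`; `V' (b,f)` = interior of the set of `y ∈ Wo .f` with `y ∈ sat → T y = e b`;
it contains `cc 0 y = cc 2 y = 0` (`n_nearf`, `n_relf`, `n_of` with bijective derivative, `of_pb`, `gf_pb`, `gf_norm`); the family (`β` on `Vmp`, `e b` on `V' (b,f)`) is invariant (`of_weak`, `n_ff`); `extend` with `n_covf`.
`xiF_sm`: `of_weak`; `n_shp` for `(m, m)` (`th`, the level changes by `σ`, `og_neg`), `n_lev`, `xi_zero` otherwise.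
-/

set_option autoImplicit false

open scoped Manifold ContDiff Topology Matrix ComplexConjugate
open Set Complex Filter

namespace Pool.Agent.Work.MP_bf98aa_gt.B3

open Pool.Agent.Work.MP_bf98aa_gt.Th Pool.Agent.Work.MP_bf98aa_gt.Cy

variable {D : GD} {k : ℕ} {i j : Bool × K3} {b b' : Bool} {c : K3} {x y z : E6}

theorem HG_sec {A : Atl (Bool × K3)} {f : E6 → E6} {σ : ℝ} {N : Set E6} (h : Eqv A i j f σ N)
    (hz : z ∈ N) : Sec A i z j f :=
  ⟨h.sm.contDiffAt (h.opn.mem_nhds hz), eventually_of_mem (h.opn.mem_nhds hz) h.rel⟩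

theorem HG_mem (hy : y ∈ D.Vmp i) (he : PP y = PP z) : z ∈ D.Vmp i := by
  have e : z = y + (z (2, 1) - y (2, 1)) • bv (2, 1) := by
    have e1 : xv y = xv z := (xv_mk4 _ _ _).symm.trans ((congrArg xv he).trans (xv_mk4 _ _ _))
    have e2 : y (2, 0) = z (2, 0) := congrFun he (2, 0)
    refine ext4 (e1.symm.trans ?_) (by simp [bv, e2]) (by simp [bv])
    funext a; fin_cases a <;> simp [bv]
  exact e ▸ GD.Vmp_shift hy _

theorem HG_aff (l : L4) (e : Bool) : ContDiff ℝ ∞ fun y => cond e (io y) y + lv l := by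
  cases e
  exacts [contDiff_id.add contDiff_const, contDiff_io.add contDiff_const]

theorem HG_lv0 : lv 0 = 0 := by apply ext6 <;> simp [lv, rv]

theorem HG_tw (h : D.Ok) {ε σ : ℝ} {β : Bool × K3 → Fm E6 k} {f g : E6 → E6} {N : Set E6}
    (hb : ∀ i, ∀ z ∈ D.Vmp i, pb PP (β i) z = β i z) (ht : D.Tw ε β) (hi : i.2 ≠ .f)
    (hj : j.2 ≠ .f) (hf : Eqv D.atlO i j f σ N) (hg : ContDiff ℝ ∞ g)
    (he : ∀ y ∈ N, PP (f y) = PP (g y)) (hz : z ∈ N) :
    g z ∈ D.Vmp j ∧ pb g (β j) z = (if σ = 1 then 1 else ε) • β i z := by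
  have h1 : f z ∈ D.Vmp j := ⟨hj, B3.atlO_W D j ▸ (h.n_orb.mem (hf.rel z hz)).2⟩
  have h2 := HG_mem h1 (he z hz)
  exact ⟨h2, (pb_gauge ((HG_sec hf hz).1.differentiableAt (by simp)) (hg.differentiable (by simp) z)
    (eventually_of_mem (hf.opn.mem_nhds hz) he) (hb j _ h1) (hb j _ h2)).symm.trans
      (ht i j f σ N hi hj hf z hz)⟩

theorem HG_comp {φ : E6 → E6} (hφ : ContDiff ℝ ∞ φ) {a a' : Fm E6 k} {p q p' q' : ℝ}
    (ha : Sy SX (Slab p q) a) (ha' : Sy SX (Slab p' q') a') (l : L4) (e : Bool) (hx : x ∈ Slab p q)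
    (h1 : φ (cond e (io x) x) ∈ Slab p' q')
    (h2 : pb φ a' (cond e (io x) x) = (1 : ℝ) • a (cond e (io x) x)) :
    pb (fun y => φ (cond e (io y) y) + lv l) a' x = a x := by
  have d1 := (HG_aff 0 e).differentiable (by simp) x
  have d2 := hφ.differentiable (by simp)
  have e1 := ha.pb_aff 0 e hx
  simp only [HG_lv0, add_zero] at d1 e1
  rw [← e1, pb_comp (g := fun y => φ y + lv l) a' d1 ((d2 _).add_const _)]
  refine pb_congr' ((pb_comp (g := fun y => y + lv l) a' (d2 _) (by fun_prop)).trans ?_)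
  exact (pb_congr' ((HS1_pbT _ a' _).trans (ha'.lat l h1))).trans (h2.trans (one_smul _ _))

theorem tw_one {α : Bool × K3 → Fm E6 k} (hα : InvR D.atlO α) : D.Tw 1 α := by
  intro i j f σ N _ _ hf z hz
  rw [ite_self, one_smul]
  exact hα i z j f (HG_sec hf hz)

theorem tw_ins {α : Bool × K3 → Fm E6 (k + 1)} (hα : InvR D.atlO α) :
    D.Tw (-1) fun i => ins (α i) := by
  intro i j f σ N hi hj hf z hz
  have e : ins (α i) z = σ • pb f (ins (α j)) z := by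
    rw [← ins_pb (hf.fderiv hi hj hz), ins, ins, hα i z j f (HG_sec hf hz)]
  beta_reduce
  rw [e, smul_smul]
  rcases hf.sg with rfl | rfl <;> norm_num

theorem GD.Ok.glueQ (h : D.Ok) {ε ε₀ : ℝ} (h0 : 0 < ε₀) {β : Bool × K3 → Fm E6 k}
    {e : Bool → Alt E6 k} (hs : ∀ i, Sm (β i) (D.Vmp i))
    (hb : ∀ i, ∀ z ∈ D.Vmp i, pb PP (β i) z = β i z) (ht : D.Tw ε β) (hn : D.NearC ε₀ e β) :
    ∃ γ : Bool → Fm E6 k, D.Pr ε γ ∧ (∀ b, (D.H b).Fold ε (γ b)) ∧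
      (∀ i, ∀ z ∈ D.Vmp i, γ i.1 z = β i z) ∧
      ∀ b, ∀ z ∈ (D.H b).Tube ε₀, |(D.H b).tt z| < 1 / 8 → |z (1, 0)| < 1 / 2 → |z (1, 1)| < 1 / 2 →
        γ b z = (D.H b).yF (e b) z := by
  classical
  have ov : ∀ b, ∀ z ∈ D.Vmp (b, .m), z ∈ D.Vmp (b, .p) → β (b, .p) z = β (b, .m) z := by
    intro b z h1 h2
    obtain ⟨f, N, f1, f2, f3⟩ := h.n_mp h1 h2
    have := (HG_tw h hb ht h1.1 h2.1 f1 (g := fun y => y) contDiff_id f3 f2).2
    rwa [pb_id, if_pos rfl, one_smul] at this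
  obtain ⟨γ, g1, g2⟩ : ∃ γ : Bool → Fm E6 k, (∀ i, ∀ z ∈ D.Vmp i, γ i.1 z = β i z) ∧
      ∀ b z, z ∉ D.Vmp (b, .m) → z ∉ D.Vmp (b, .p) →
        γ b z = (D.H b).yF (e b) (z + lv ![0, 0, -round (z (1, 0)), -round (z (1, 1))]) := by
    refine ⟨fun b z => if z ∈ D.Vmp (b, .m) then β (b, .m) z else if z ∈ D.Vmp (b, .p) then
      β (b, .p) z else (D.H b).yF (e b) (z + lv ![0, 0, -round (z (1, 0)), -round (z (1, 1))]),
      ?_, fun b z h1 h2 => (if_neg h1).trans (if_neg h2)⟩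
    rintro ⟨b, c⟩ z hz
    cases c
    case f => exact absurd rfl hz.1
    case m => exact if_pos hz
    case p => exact ite_eq_iff'.2 ⟨fun h1 => (ov b z h1 hz).symm, fun _ => if_pos hz⟩
  have lat : ∀ (l : L4) (e : Bool) i, ∀ z ∈ D.Vmp i, cond e (io z) z + lv l ∈ D.Vmp i ∧
      pb (fun y => cond e (io y) y + lv l) (β i) z = β i z := fun l e i z hz => by
    obtain ⟨f, f1, f2⟩ := h.n_lat hz.1 l e
    have := HG_tw h hb ht hz.1 hz.1 f1 (HG_aff l e) (fun y _ => f2 y) hz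
    rwa [if_pos rfl, one_smul] at this
  have nr : ∀ b (n n' : ℤ) y, y + lv ![0, 0, -n, -n'] ∈ (D.H b).Tube ε₀ → |y (1, 0) - n| < 1 / 2 →
      |y (1, 1) - n'| < 1 / 2 → γ b y = (D.H b).yF (e b) (y + lv ![0, 0, -n, -n']) := by
    intro b n n' y h1 h2 h3
    have k1 : ∀ c, y ∈ D.Vmp (b, c) → γ b y = (D.H b).yF (e b) (y + lv ![0, 0, -n, -n']) :=
      fun c hc => by
        obtain ⟨a1, a2⟩ := lat ![0, 0, -n, -n'] false _ y hc
        exact (g1 _ y hc).trans (a2.symm.trans ((HS1_pbT _ _ y).trans (hn _ _ a1 h1)))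
    by_cases a1 : y ∈ D.Vmp (b, .m)
    · exact k1 _ a1
    by_cases a2 : y ∈ D.Vmp (b, .p)
    · exact k1 _ a2
    rw [g2 b y a1 a2, HS2_round h2, HS2_round h3]
  have sm : ∀ b, Sm (γ b) (D.H b).Q := fun b z hz => by
    have k1 : ∀ c, z ∈ D.Vmp (b, c) → ContDiffWithinAt ℝ ∞ (γ b) (D.H b).Q z := fun c hc =>
      (((hs _).at (h.Vmp_open _) hc).congr_of_eventuallyEq
        (eventually_of_mem ((h.Vmp_open _).mem_nhds hc) (g1 (b, c)))).contDiffWithinAt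
    rcases h.n_cov hz with a | a | ⟨a, n, n', a1, a2⟩
    · exact k1 _ a
    · exact k1 _ a
    have t : ∀ {r : ℝ}, 0 < r → z + lv ![0, 0, -n, -n'] ∈ (D.H b).Tube r := fun hr =>
      ⟨by simpa [lv, rv, a1] using hr, by simpa [lv, rv, a2] using hr, by
        have : (D.H b).tt (z + lv ![0, 0, -n, -n']) = (D.H b).tt z := by simp [HD.tt, lv]
        rwa [this, a, abs_zero]⟩
    have c1 : ContDiffAt ℝ ∞ (fun y : E6 => y + lv ![0, 0, -n, -n']) z := by fun_prop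
    refine (((((h.ok b).cl_yF le_rfl (e b)).1.at (HS2_open _ _) (t (by norm_num))).comp z
      c1).congr_of_eventuallyEq ?_).contDiffWithinAt
    have c2 : Continuous fun y : E6 => |y (1, 0) - n| := by fun_prop
    have c3 : Continuous fun y : E6 => |y (1, 1) - n'| := by fun_prop
    filter_upwards [HO2_ev c1.continuousAt (HS2_open _ _) (t h0),
      c2.continuousAt.eventually (gt_mem_nhds (show |z (1, 0) - n| < 1 / 2 by simp [a1])),
      c3.continuousAt.eventually (gt_mem_nhds (show |z (1, 1) - n'| < 1 / 2 by simp [a2]))]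
      with y b1 b2 b3 using nr b n n' y b1 b2 b3
  have K : ∀ b (g : E6 → E6), ContDiff ℝ ∞ g → MapsTo g (D.H b).Q (D.H b).Q →
      (∀ i, ∀ z ∈ D.Vmp i, g z ∈ D.Vmp i ∧ pb g (β i) z = β i z) →
      ∀ z ∈ (D.H b).Q, pb g (γ b) z = γ b z := fun b g c1 c2 c3 =>
    h.eqOn_Q ((sm b).pb (h.ok b).domE_Q.opn (h.ok b).domE_Q.opn c1.contDiffOn c2).continuousOn
      (sm b).continuousOn fun c z hz => (pb_congr' (g1 (b, c) _ (c3 _ z hz).1)).trans
        ((c3 _ z hz).2.trans (g1 (b, c) z hz).symm)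
  refine ⟨γ, ⟨sm, fun b => ⟨fun i hi z hz => ?_, ?_, K b PP contDiff_PP
    (fun z hz => HS1_PP (h.ok b).domE_Q hz) fun i z hz => ⟨HG_mem hz (by simp [PP]), hb i z hz⟩⟩,
    fun b z hz => ?_⟩, fun b z hz => ?_, g1, fun b z hz _ h2 h3 => ?_⟩
  · obtain ⟨l, e⟩ : ∃ l : L4, bv i = lv l := by
      fin_cases hi
      · exact ⟨![1, 0, 0, 0], by apply ext6 <;> simp [bv, lv, rv]⟩
      · exact ⟨![0, 1, 0, 0], by apply ext6 <;> simp [bv, lv, rv]⟩
      · exact ⟨![0, 0, 1, 0], by apply ext6 <;> simp [bv, lv, rv]⟩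
      · exact ⟨![0, 0, 0, 1], by apply ext6 <;> simp [bv, lv, rv]⟩
    exact (HS1_pbT _ _ z).symm.trans (K b (fun y => y + bv i) (contDiff_id.add contDiff_const)
      (fun y hy => HS1_bv (h.ok b).domE_Q hi hy) (e ▸ lat l false) z hz)
  · refine K b io contDiff_io (h.ok b).domE_Q.io ?_
    simpa only [HG_lv0, add_zero, cond_true] using lat 0 true
  · obtain ⟨a, f, f1, f2⟩ := h.n_mid b
    obtain ⟨a1, a2⟩ := HG_tw h hb ht (by simp) (by simp) f1 (D.contDiff_gb b) (fun y _ => f2 y) hz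
    rw [pb_congr' (g1 (!b, .p) _ a1), a2, if_neg (by norm_num), g1 (b, .p) z (a hz)]
  · obtain ⟨a, f, f1, f2⟩ := h.n_fold b
    obtain ⟨a1, a2⟩ := HG_tw h hb ht (by simp) (by simp) f1 (D.H b).contDiff_kb (fun y _ => f2 y) hz
    rw [pb_congr' (g1 (b, .m) _ a1), a2, if_neg (by norm_num), g1 (b, .m) z (a hz)]
  · have e0 : z + lv ![0, 0, -0, -0] = z := by apply ext6 <;> simp [lv, rv]
    have := nr b 0 0 z (e0.symm ▸ hz) (by simpa using h2) (by simpa using h3)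
    rwa [e0] at this

theorem GD.Ok.lift_bas (h : D.Ok) {a : Bool → Fm E6 k} (ha : D.Pr 1 a)
    (hF : ∀ b, (D.H b).Fold 1 (a b)) : SmF (res D.atlO D.Vmp) fun i => a i.1 := by
  have sm : ∀ i, Sm (a i.1) (D.Vmp i) := fun i => (ha.sm i.1).mono fun z hz => GD.Vmp_Q h hz
  refine ⟨sm, InvR.of_weak (h.n_orb.res h.Vmp_open D.Vmp_sub) (fun i => (sm i).continuousOn) ?_⟩
  rintro i x j _ ⟨hx, hy, hr⟩
  obtain ⟨f, σ, N, hs, hN, rfl⟩ := h.n_shp hr hx.1 hy.1
  refine .inl ⟨f, (HG_sec hs.eqv hN).res h.Vmp_open hx hy, rfl, ?_⟩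
  have K : ∀ g : E6 → E6, ContDiff ℝ ∞ g → (∀ z ∈ N, PP (f z) = PP (g z)) →
      pb f (a j.1) x = pb g (a j.1) x := fun g c1 c2 =>
    pb_gauge ((HG_sec hs.eqv hN).1.differentiableAt (by simp)) (c1.differentiable (by simp) x)
      (eventually_of_mem (hs.eqv.opn.mem_nhds hN) c2) ((ha.sy _).bas _ (GD.Vmp_Q h hy))
      ((ha.sy _).bas _ (GD.Vmp_Q h (HG_mem hy (c2 x hN))))
  obtain ⟨l, e, ⟨-, c1, c2⟩ | ⟨-, c1, c2, c3⟩ | ⟨-, c1, c2, c3⟩⟩ := hs.base
  · rw [K _ (HG_aff l e) c2, c1]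
    exact (ha.sy _).pb_aff l e (GD.Vmp_Q h hx)
  all_goals
    have d := HG_aff 0 e
    simp only [HG_lv0, add_zero] at d
  · have u : cond e (io x) x ∈ QF := by cases e <;> exact (c2 hN :)
    rw [K _ (((D.H i.1).contDiff_kb.comp d).add contDiff_const) c3, c1]
    exact HG_comp (D.H i.1).contDiff_kb (ha.sy _) (ha.sy _) l e (GD.Vmp_Q h hx)
      ((h.ok _).QF_sub (kb_mem _ u)) (hF _ _ u)
  · have u : cond e (io x) x ∈ (D.H i.1).Mid := by cases e <;> exact (c2 hN :)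
    rw [K _ (((D.contDiff_gb i.1).comp d).add contDiff_const) c3, c1]
    exact HG_comp (D.contDiff_gb i.1) (ha.sy _) (ha.sy _) l e (GD.Vmp_Q h hx)
      ((h.ok _).Mid_sub (D.gb_mem _ u)) (ha.mid _ _ u)

theorem GD.Ok.liftC (h : D.Ok) {ε : ℝ} (h0 : 0 < ε) {β : Bool × K3 → Fm E6 k}
    {e : Bool → Alt E6 k} (hβ : SmF (res D.atlO D.Vmp) β) (hn : D.NearC ε e β)
    (he : ∀ b, Hor SY (e b)) (ho : Odd k → ∀ b, e b = 0) :
    ∃ γ, SmF D.atlO γ ∧ ∀ i, ∀ z ∈ D.Vmp i, γ i z = β i z := by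
  have hA := h.n_orb
  obtain ⟨T, T1, T2⟩ := transport hA h.Vmp_open D.Vmp_sub hβ
  have T3 : ∀ i, ∀ x ∈ D.Vmp i, ∀ j f, Sec D.atlO i x j f → pb f (T j) x = β i x := by
    intro i x hx j f hf
    have a := sub_sat hA D.Vmp_sub i hx
    exact (T1.2 i x j f (hf.res (isOpen_sat hA h.Vmp_open) a (sat_rel hA a hf.rel))).trans
      (T2 i x hx)
  have gf : ∀ b γ, ∀ x ∈ (D.H b).Wo .f, Ar (fun z w => D.atlO.R (b, .f) z (b, .f) w) x
      ((D.H b).gf γ x) ((D.H b).gf γ) := fun b γ x hx =>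
    ⟨((D.H b).grp_f.sm γ).contDiffAt, rfl, (D.H b).grp_f.inj γ x,
      eventually_of_mem ((hA.opn (b, .f)).mem_nhds (B3.atlO_W D (b, .f) ▸ hx)) fun z hz =>
        h.n_ff.2 ⟨rfl, B3.atlO_W D (b, .f) ▸ hz, γ, rfl⟩⟩
  obtain ⟨U, U1, U2, U3⟩ : ∃ U : Bool → Set E6, (∀ b, IsOpen (U b)) ∧ (∀ b, ∀ y ∈ U b,
      y ∈ (D.H b).Wo .f ∧ (y ∈ sat D.atlO D.Vmp (b, .f) → T (b, .f) y = e b)) ∧
      ∀ b, ∀ y ∈ (D.H b).Wo .f, B3.cc 0 y = 0 → B3.cc 2 y = 0 → y ∈ U b := by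
    obtain ⟨ε', e0, e1⟩ := h.n_nearf h0
    refine ⟨fun b => D.atlO.W (b, .f) ∩ {w | normSq (B3.cc 0 w) + normSq (B3.cc 2 w) < ε'},
      fun b => (hA.opn _).inter (isOpen_lt (by fun_prop) continuous_const), ?_,
      fun b y hy a1 a2 => ⟨B3.atlO_W D (b, .f) ▸ hy, by simpa [a1, a2] using e0⟩⟩
    rintro b w ⟨w1, w2⟩
    refine ⟨B3.atlO_W D (b, .f) ▸ w1, fun ⟨j, z, hz, hr⟩ => ?_⟩
    obtain ⟨c, x, hx, hN, γ, rfl⟩ := h.n_relf hr hz.1
    have a1 := h.n_of hx hN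
    have a2 := a1.trans (gf b γ _ (B3.atlO_W D (b, .f) ▸ (hA.mem a1.sec.rel).2))
      (R'' := fun z w => D.atlO.R (b, c) z (b, .f) w) fun _ _ _ => hA.trans
    simp only [mem_ofPred_eq, (HD.gf_norm γ _).1, (HD.gf_norm γ _).2.1] at w2
    have a3 := a1.trans_pb (gf b γ _ (B3.atlO_W D (b, .f) ▸ (hA.mem a1.sec.rel).2))
      (h.of_pb hx hN (he b)) (GD.gf_pb _ γ (he b) (fun q => ho q b) _)
    obtain ⟨g, -, a4⟩ := a2.symm_pb (α := 0) (α' := T (b, .f) - fun _ => e b) (by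
      rw [pb_sub, Pi.sub_apply, a3, T3 _ x hx _ _ a2.sec, hn _ x hx (e1 b c x hx hN w2)]
      exact sub_self _)
    exact sub_eq_zero.1 a4.symm
  let V : Bool × K3 → Set E6 := fun i => if i.2 = .f then U i.1 else D.Vmp i
  let α : Bool × K3 → Fm E6 k := fun i => if i.2 = .f then fun _ => e i.1 else β i
  have V1 : ∀ {i}, i.2 ≠ .f → V i = D.Vmp i := fun hi => if_neg hi
  have α1 : ∀ {i}, i.2 ≠ .f → α i = β i := fun hi => if_neg hi
  have V2 : ∀ i, IsOpen (V i) := fun i => by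
    by_cases hi : i.2 = .f
    · rw [show V i = U i.1 from if_pos hi]
      exact U1 i.1
    · exact V1 hi ▸ h.Vmp_open i
  have V3 : ∀ i, V i ⊆ D.atlO.W i := by
    rintro ⟨b, c⟩
    by_cases hi : c = .f
    · subst hi
      exact fun y hy => B3.atlO_W D (b, .f) ▸ (U2 b y hy).1
    · exact V1 (i := (b, c)) hi ▸ D.Vmp_sub _
  have sm : ∀ i, Sm (α i) (V i) := fun i => by
    by_cases hi : i.2 = .f
    · rw [show α i = fun _ => e i.1 from if_pos hi]
      exact contDiffOn_const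
    · exact V1 hi ▸ α1 hi ▸ hβ.1 i
  have K : ∀ i, i.2 ≠ .f → ∀ x j y, (res D.atlO V).R i x j y →
      ∃ f, Sec (res D.atlO V) i x j f ∧ f x = y ∧ pb f (α j) x = α i x := by
    rintro i hi x ⟨b, c⟩ y ⟨hx, hy, hr⟩
    obtain ⟨f, hf⟩ := hA.loc hr
    obtain rfl := hf.eq
    refine ⟨f, hf.sec.res V2 hx hy, rfl, ?_⟩
    rw [V1 hi] at hx
    rw [α1 hi, ← T3 i x hx _ f hf.sec]
    refine pb_congr' ?_
    by_cases hc : c = .f
    · subst hc
      exact ((U2 b _ hy).2 ⟨i, x, hx, hA.symm hr⟩).symm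
    · rw [α1 (i := (b, c)) hc, T2 _ _ (V1 (i := (b, c)) hc ▸ hy)]
  obtain ⟨γ, g1, g2, -⟩ := extend hA V2 V3 (α := α) ⟨sm, InvR.of_weak (hA.res V2 V3)
    (fun i => (sm i).continuousOn) (by
      rintro ⟨b, c⟩ x ⟨b', c'⟩ y hr
      by_cases hc : c = .f
      swap
      · exact .inl (K _ hc _ _ _ hr)
      by_cases hc' : c' = .f
      swap
      · exact .inr (K _ hc' _ _ _ ((hA.res V2 V3).symm hr))
      subst hc hc'
      obtain ⟨rfl, a, γ, rfl⟩ := h.n_ff.1 hr.2.2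
      exact .inl ⟨_, (gf _ γ x a).sec.res V2 hr.1 hr.2.1, rfl,
        GD.gf_pb _ γ (he _) (fun q => ho q _) _⟩)⟩ (by
      rintro ⟨b, c⟩ x hx
      have hx' := B3.atlO_W D _ ▸ hx
      by_cases hc : c = .f
      · subst hc
        rcases h.n_covf hx' with ⟨a1, a2⟩ | ⟨j, y, hy, hr⟩
        exacts [⟨_, x, hA.refl hx, .inl (U3 b x hx' a1 a2)⟩, ⟨j, y, hr, .inl (V1 hy.1 ▸ hy)⟩]
      · exact ⟨_, x, hA.refl hx, .inl (V1 (i := (b, c)) hc ▸ ⟨hc, hx'⟩)⟩)
  exact ⟨γ, g1, fun i z hz => (g2 i z (V1 hz.1 ▸ hz)).trans (congrFun (α1 hz.1) z)⟩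

theorem GD.Ok.xiF_sm (h : D.Ok) (s : Bool → ℝ) : SmF D.atlO (D.xiF s) := by
  have hA := h.n_orb
  have sm : ∀ i, ContDiff ℝ ∞ (D.xiF s i) := fun i => by
    unfold GD.xiF
    split_ifs
    exacts [(D.H i.1).contDiff_xi.const_smul (s i.1), contDiff_const]
  have K : ∀ i x j y, D.atlO.R i x j y → j.2 ≠ .m →
      ∃ f, Sec D.atlO i x j f ∧ f x = y ∧ pb f (D.xiF s j) x = D.xiF s i x := by
    rintro ⟨b, c⟩ x j y hr hj
    obtain ⟨f, hf⟩ := hA.loc hr
    refine ⟨f, hf.sec, hf.eq, ?_⟩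
    rw [GD.xiF, GD.xiF, if_neg hj, pb_zero]
    split_ifs with hc
    · subst hc
      rw [Pi.smul_apply, HD.xi_zero _ (by linarith only [h, hr, hj, h.n_lev hr hj]), smul_zero, Pi.zero_apply]
    · rfl
  refine ⟨fun i => (sm i).contDiffOn, InvR.of_weak hA (fun i => (sm i).continuous.continuousOn) ?_⟩
  rintro ⟨b, c⟩ x ⟨b', c'⟩ y hr
  by_cases hc' : c' = .m
  swap
  · exact .inl (K _ _ _ _ hr hc')
  by_cases hc : c = .m
  swap
  · exact .inr (K _ _ _ _ (hA.symm hr) hc)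
  subst hc hc'
  obtain ⟨f, σ, N, hs, hN, rfl⟩ := h.n_shp hr (by simp) (by simp)
  refine .inl ⟨f, HG_sec hs.eqv hN, rfl, ?_⟩
  obtain ⟨rfl, a1, a2⟩ : b' = b ∧ σ * σ = 1 ∧ ∀ z ∈ N, og (f z (2, 0)) = σ • og (z (2, 0)) := by
    obtain ⟨l, e, ⟨rfl, c1, c2⟩ | ⟨rfl, c1, -, c3⟩ | ⟨-, -, c2, -⟩⟩ := hs.base
    · refine ⟨c1, one_mul _, fun z hz => ?_⟩
      rw [one_smul, show f z (2, 0) = _ from congrFun (c2 z hz) (2, 0)]
      cases e <;> simp [PP, lv, io]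
    · refine ⟨c1, by norm_num, fun z hz => ?_⟩
      rw [neg_smul, one_smul, ← og_neg, show f z (2, 0) = _ from congrFun (c3 z hz) (2, 0)]
      cases e <;> simp [PP, lv, io, HS2_kb0]
    · have a1 : (D.H b).tt x < 1 / 8 := ((B3.atlO_W D (b, .m) ▸ (hA.mem hr).1 :) : _ ∧ _).2.1
      have a2 : (D.H b).μ₁ + 1 - 1 / 8 < x (2, 0) := (c2 hN).1
      exact absurd a1 (by unfold HD.tt; linarith only [a2])
  have d0 : Differentiable ℝ fun y : E6 => og (y (2, 0)) :=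
    (contDiff_og.comp (contDiff_apply ℝ ℝ _)).differentiable (by simp)
  have a3 : (fderiv ℝ (fun y : E6 => og (y (2, 0))) (f x)).comp (fderiv ℝ f x) =
      σ • fderiv ℝ (fun y : E6 => og (y (2, 0))) x := by
    rw [← fderiv_fun_comp x (d0 _) ((HG_sec hs.eqv hN).1.differentiableAt (by simp)),
      ← fderiv_fun_const_smul (d0 x)]
    exact Filter.EventuallyEq.fderiv_eq (eventually_of_mem (hs.eqv.opn.mem_nhds hN) a2)
  have a4 := hs.th rfl x hN
  simp only [GD.xiF, if_true, pb_smul, Pi.smul_apply]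
  refine congrArg _ (alt_ext_two fun u v => ?_)
  have b1 := fun w => DFunLike.congr_fun a3 w
  have b2 := fun w => DFunLike.congr_fun a4 w
  simp only [ContinuousLinearMap.comp_apply, pb1_apply, smul_apply, smul_eq_mul] at b1 b2
  simp only [pb, HD.xi, ContinuousAlternatingMap.compContinuousLinearMap_apply, wedge_apply,
    Function.comp_apply, b1, b2, Matrix.cons_val_zero, Matrix.cons_val_one]
  linear_combination ((D.H b').th .m x u * fderiv ℝ (fun y : E6 => og (y (2, 0))) x v -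
    (D.H b').th .m x v * fderiv ℝ (fun y : E6 => og (y (2, 0))) x u) * a1


end Pool.Agent.Work.MP_bf98aa_gt.B3
end

-- merged part: Pool.Agent.Work.MP_bf98aa_gt.B3.HGL
section
/-!
The product of the connection with a basic form.
PLAN. Shrink `ε₀ ≤ 1/8`; `χ t = 0` for `t ≤ ε₀/4`, `1` for `ε₀/2 ≤ t`. In the atlas `A = res atlO Vmp`: `β₁ = χ (tt z) • wedge1 (th .p z) (a b z)` on the charts `p`, `β₂ = (1 - χ (tt z)) • wedge1 (th .m z) (a b z)` on the
charts `m`. Both are invariant on their own charts (`of_weak`, `n_shp`: `wedge1_comp`, `th`, `pb f (a j.1) = σ • a i.1` by `pb_gauge`, `wedge1_smul`; `χ` is `0` on `QF` and `1` on `Mid`). `extend` in `A` (`n_m_p`, `n_mp`, `n_p_m`,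
`n_pm_lev`, `Sy.lat`, `Sy.zero_aff`). The sum vanishes on `Tube ε₀` (`zero_of_rel`, `n_pm_lev`), `ins` of the sum is `a` (`wedge1_ins`, `bas_hor`, `th_e`; for the transported part `n_shp`, `ins_pb`, `Eqv.fderiv`, `pb_gauge`;
outside `sat` the cut-off factor times `a` vanishes). Then `liftC` with `e = 0`, and average (`avg_sm`, `avg_inv`, `avg_near`, `avg_ins`, `Sy.shift`).
-/

set_option autoImplicit false

open scoped Manifold ContDiff Topology Matrix ComplexConjugate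
open Set Complex Filter

namespace Pool.Agent.Work.MP_bf98aa_gt.B3

open Pool.Agent.Work.MP_bf98aa_gt.Th Pool.Agent.Work.MP_bf98aa_gt.Cy

variable {D : GD} {k : ℕ} {i j : Bool × K3} {b b' : Bool} {c : K3} {x y z : E6}

theorem HGL_lev (l : L4) (e : Bool) (z : E6) : (cond e (io z) z + lv l) (2, 0) = z (2, 0) := by
  cases e <;> simp [io, lv]

theorem HGL_diff (l : L4) (e : Bool) : Differentiable ℝ fun z : E6 => cond e (io z) z + lv l := by
  cases e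
  · exact differentiable_id.add_const _
  · exact (contDiff_io.differentiable (by simp)).add_const _

theorem HGL_slab {s t : ℝ} (l : L4) (e : Bool) (hz : z ∈ Slab s t) :
    cond e (io z) z + lv l ∈ Slab s t :=
  ⟨hz.1.trans_eq (HGL_lev l e z).symm, (HGL_lev l e z).trans_lt hz.2⟩

theorem HGL_cond {s t : ℝ} (e : Bool) (hz : z ∈ Slab s t) : cond e (io z) z ∈ Slab s t := by
  cases e <;> exact hz

theorem HGL_add {s t : ℝ} (l : L4) (hz : z ∈ Slab s t) : z + lv l ∈ Slab s t :=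
  HGL_slab l false hz

theorem HGL_neg {β β' : Fm E6 k} {s t s' t' : ℝ} {g f : E6 → E6} (hs : Sy SX (Slab s t) β)
    (hs' : Sy SX (Slab s' t') β') (l : L4)
    (e : Bool) (hx : x ∈ Slab s t) (hg : ContDiff ℝ ∞ g) (hf : DifferentiableAt ℝ f x)
    (he : ∀ᶠ z in 𝓝 x, PP (f z) = PP (g (cond e (io z) z) + lv l))
    (h1 : f x ∈ Slab s' t') (h2 : g (cond e (io x) x) ∈ Slab s' t')
    (h3 : pb g β' (cond e (io x) x) = (-1 : ℝ) • β (cond e (io x) x)) :
    pb f β' x = (-1 : ℝ) • β x := by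
  have hg' := hg.differentiable (by simp)
  have hc : Differentiable ℝ fun z : E6 => cond e (io z) z := by
    simpa using (HGL_diff l e).sub_const (lv l)
  have h4 : pb (fun z : E6 => cond e (io z) z) β x = β x := by
    have : lv 0 = 0 := by apply ext6 <;> simp [lv, rv]
    simpa [this] using hs.pb_aff 0 e hx
  have h5 := (hg' _).comp x (hc x)
  rw [pb_gauge (g := fun z => g (cond e (io z) z) + lv l) hf (h5.add_const _) he (hs'.bas _ h1)
    (hs'.bas _ (HGL_add l h2)), pb_comp (f := fun z => g (cond e (io z) z))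
    (g := fun y => y + lv l) β' h5 (by fun_prop),
    pb_congr' (f := fun z => g (cond e (io z) z)) ((HS1_pbT _ β' _).trans (hs'.lat l h2)),
    pb_comp β' (hc x) (hg' _), pb, h3, ← h4]
  rfl

theorem HGL_pba (h : D.Ok) {a : Bool → Fm E6 k} (ha : D.Pr (-1) a)
    (hF : ∀ b, (D.H b).Fold (-1) (a b)) {f : E6 → E6} {σ : ℝ} {N : Set E6} (hS : D.Shp i j f σ N)
    (hx : x ∈ N) (hi : x ∈ D.Vmp i) (hj : f x ∈ D.Vmp j) : pb f (a j.1) x = σ • a i.1 x := by
  have hN := hS.eqv.opn.mem_nhds hx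
  have hf : DifferentiableAt ℝ f x := (hS.eqv.sm.contDiffAt hN).differentiableAt (by simp)
  have q1 := GD.Vmp_Q h hi
  have b2 := GD.Vmp_Q h hj
  obtain ⟨l, e, ⟨rfl, e1, e2⟩ | ⟨rfl, e1, e3, e2⟩ | ⟨rfl, e1, e3, e2⟩⟩ := hS.base
  · rw [e1] at b2 ⊢
    rw [pb_gauge hf (HGL_diff l e x) (mem_of_superset hN e2) ((ha.sy _).bas _ b2)
      ((ha.sy _).bas _ (HGL_slab l e q1)), one_smul]
    exact (ha.sy _).pb_aff l e q1
  · rw [e1] at b2 ⊢
    have q2 : cond e (io x) x ∈ QF := HGL_cond e (e3 hx)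
    exact HGL_neg (ha.sy _) (ha.sy _) l e q1 (HD.contDiff_kb _) hf (mem_of_superset hN e2) b2
      ((h.ok _).QF_sub (kb_mem _ q2)) (hF _ _ q2)
  · rw [e1] at b2 ⊢
    have q2 : cond e (io x) x ∈ (D.H i.1).Mid := HGL_cond e (e3 hx)
    exact HGL_neg (ha.sy _) (ha.sy _) l e q1 (D.contDiff_gb _) hf (mem_of_superset hN e2) b2
      ((h.ok _).Mid_sub (D.gb_mem _ q2)) (ha.mid _ _ q2)

theorem HGL_tt (h : D.Ok) {r : ℝ → ℝ} {s t : ℝ} (r0 : ∀ u ≤ 0, r u = s)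
    (r1 : ∀ u, 1 / 2 ≤ u → r u = t) {f : E6 → E6} {σ : ℝ} {N : Set E6} (hS : D.Shp i j f σ N)
    (hx : x ∈ N) : r ((D.H j.1).tt (f x)) = r ((D.H i.1).tt x) := by
  obtain ⟨l, e, ⟨-, e1, e2⟩ | ⟨-, e1, e3, e2⟩ | ⟨-, e1, e3, e2⟩⟩ := hS.base
  · have e4 : f x (2, 0) = (cond e (io x) x + lv l) (2, 0) := congrFun (e2 x hx) (2, 0)
    rw [e1, HD.tt, HD.tt, e4, HGL_lev]
  · have e4 : f x (2, 0) = ((D.H i.1).kb (cond e (io x) x) + lv l) (2, 0) :=
      congrFun (e2 x hx) (2, 0)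
    have q1 := (HGL_add l (kb_mem (D.H i.1) (HGL_cond e (e3 hx)))).2
    have q2 := (e3 hx).2
    have q3 := (h.ok i.1).hμ
    rw [e1, HD.tt, HD.tt, r0, r0] <;> linarith only [q2, q3, e4, q1]
  · have e4 : f x (2, 0) = (D.gb i.1 (cond e (io x) x) + lv l) (2, 0) := congrFun (e2 x hx) (2, 0)
    have q1 := (HGL_add l (D.gb_mem i.1 (HGL_cond e (e3 hx)))).1
    have q2 := (e3 hx).1
    simp only [HD.M] at q1 q2
    rw [e1, HD.tt, HD.tt, r1, r1] <;> linarith only [q2, e4, q1]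

theorem HGL_sec (h : D.Ok) {f : E6 → E6} {σ : ℝ} {N : Set E6} (hS : D.Shp i j f σ N) (hx : x ∈ N)
    (hi : x ∈ D.Vmp i) (hj : f x ∈ D.Vmp j) : Sec (res D.atlO D.Vmp) i x j f :=
  Sec.res ⟨hS.eqv.sm.contDiffAt (hS.eqv.opn.mem_nhds hx),
    mem_of_superset (hS.eqv.opn.mem_nhds hx) hS.eqv.rel⟩ h.Vmp_open hi hj

theorem HGL_sq {A : Atl (Bool × K3)} {f : E6 → E6} {σ : ℝ} {N : Set E6} (h : Eqv A i j f σ N) :
    σ * σ = 1 := by
  rcases h.sg with rfl | rfl <;> norm_num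

theorem HGL_one (h : D.Ok) {a : Bool → Fm E6 k} (ha : D.Pr (-1) a)
    (hF : ∀ b, (D.H b).Fold (-1) (a b)) (c : K3) {r : ℝ → ℝ} {s t : ℝ} (hr : ContDiff ℝ ∞ r)
    (r0 : ∀ u ≤ 0, r u = s) (r1 : ∀ u, 1 / 2 ≤ u → r u = t)
    (hc : ∀ i, ∀ x ∈ D.Vmp i, (∃ y ∈ D.Vmp (i.1, c), D.atlO.R i x (i.1, c) y) ∨
      ∀ᶠ z in 𝓝 x, r ((D.H i.1).tt z) • a i.1 z = 0) :
    ∃ γ : Bool × K3 → Fm E6 (k + 1), SmF (res D.atlO D.Vmp) γ ∧ ∀ i, ∀ z ∈ D.Vmp i,
      ins (γ i) z = r ((D.H i.1).tt z) • a i.1 z ∧ (a i.1 z = 0 → γ i z = 0) := by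
  have hA : Orb (res D.atlO D.Vmp) := h.n_orb.res h.Vmp_open D.Vmp_sub
  obtain ⟨V, hV⟩ : ∃ V : Bool × K3 → Set E6, ∀ i z, z ∈ V i ↔ i.2 = c ∧ z ∈ D.Vmp i :=
    ⟨fun i => {z | i.2 = c ∧ z ∈ D.Vmp i}, fun _ _ => Iff.rfl⟩
  have ho : ∀ i, IsOpen (V i) := fun i => by
    by_cases hi : i.2 = c
    · rw [show V i = D.Vmp i from Set.ext fun z => by simp [hV, hi]]
      exact h.Vmp_open i
    · rw [show V i = ∅ from Set.ext fun z => by simp [hV, hi]]
      exact isOpen_empty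
  have hs : ∀ i, V i ⊆ (res D.atlO D.Vmp).W i := fun i z hz => ((hV i z).1 hz).2
  obtain ⟨β, hβ⟩ : ∃ β : Bool × K3 → Fm E6 (k + 1), ∀ i z,
      β i z = wedge1 ((D.H i.1).th c z) (r ((D.H i.1).tt z) • a i.1 z) :=
    ⟨fun i z => _, fun _ _ => rfl⟩
  have key : ∀ {i j f σ N x}, D.Shp i j f σ N → x ∈ N → x ∈ D.Vmp i → f x ∈ D.Vmp j →
      (r ((D.H j.1).tt (f x)) • a j.1 (f x)).compContinuousLinearMap (fderiv ℝ f x) =
        σ • r ((D.H i.1).tt x) • a i.1 x := by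
    intro i j f σ N x hS hx hi hj
    rw [HGL_tt h r0 r1 hS hx, smul_comm, ← HGL_pba h ha hF hS hx hi hj]
    rfl
  have zer : ∀ {i j x y}, (res D.atlO D.Vmp).R i x j y → r ((D.H i.1).tt x) • a i.1 x = 0 →
      β j y = 0 := by
    intro i j x y hr h0
    obtain ⟨f, σ, N, hS, hy, rfl⟩ := h.n_shp (h.n_orb.symm hr.2.2) hr.2.1.1 hr.1.1
    have e1 := key hS hy hr.2.1 hr.1
    rw [h0] at e1
    rw [hβ, ← one_smul ℝ (r _ • a j.1 y), ← HGL_sq hS.eqv, mul_smul, ← e1]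
    exact (congrArg _ (smul_zero σ)).trans (wedge1_zero _)
  have hsm : ∀ i, Sm (β i) (V i) := fun i => by
    rw [show β i = _ from funext (hβ i)]
    have h1 : ContDiff ℝ ∞ fun z : E6 => r ((D.H i.1).tt z) :=
      hr.comp ((contDiff_apply ℝ ℝ _).sub contDiff_const)
    exact contDiff_wedge1.comp_contDiffOn ((HD.contDiff_th _ c).contDiffOn.prodMk
      (h1.contDiffOn.smul ((ha.sm i.1).mono fun z hz => GD.Vmp_Q h (hs i hz))))
  have hinv : InvR (res (res D.atlO D.Vmp) V) β := by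
    refine InvR.of_weak (hA.res ho hs) (fun i => (hsm i).continuousOn) fun i x j y hr => Or.inl ?_
    obtain ⟨h1, h2, h3, h4, h5⟩ := hr
    obtain ⟨f, σ, N, hS, hx, rfl⟩ := h.n_shp h5 h3.1 h4.1
    refine ⟨f, (HGL_sec h hS hx h3 h4).res ho h1 h2, rfl, ?_⟩
    have e1 := ((hV _ _).1 h1).1
    have e2 := ((hV _ _).1 h2).1
    have e3 := hS.th (e1.trans e2.symm) x hx
    rw [e1, e2, pb1] at e3
    rw [pb, hβ, hβ, wedge1_comp, e3, key hS hx h3 h4, wedge1_smul, HGL_sq hS.eqv, one_smul]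
  have hsat : ∀ i x, x ∈ D.Vmp i → (∃ y ∈ D.Vmp (i.1, c), D.atlO.R i x (i.1, c) y) →
      x ∈ sat (res D.atlO D.Vmp) V i := fun i x hx ⟨y, hy, hr⟩ =>
    ⟨_, y, (hV _ _).2 ⟨rfl, hy⟩, hx, hy, hr⟩
  obtain ⟨γ, g1, g2, g3⟩ := extend hA ho hs ⟨hsm, hinv⟩ fun i x hx => by
    rcases hc i x hx with h1 | h1
    · obtain ⟨j, y, hy, hr⟩ := hsat i x hx h1
      exact ⟨j, y, hr, Or.inl hy⟩
    · exact ⟨i, x, hA.refl hx, Or.inr (h1.mono fun z hz j y _ hr => zer hr hz)⟩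
  refine ⟨γ, g1, fun i z hz => ?_⟩
  by_cases hz' : z ∈ sat (res D.atlO D.Vmp) V i
  · obtain ⟨j, y, hy, hr⟩ := hz'
    refine ⟨?_, fun h0 => g1.2.zero_of_rel hA hr ?_⟩
    · obtain ⟨f, σ, N, hS, hx, rfl⟩ := h.n_shp hr.2.2 hr.1.1 hr.2.1.1
      have e1 : ins (γ i) z = ins (pb f (γ j)) z := by
        rw [ins, ins, g1.2 _ _ _ _ (HGL_sec h hS hx hr.1 hr.2.1)]
      have e2 : ins (γ j) (f z) = r ((D.H j.1).tt (f z)) • a j.1 (f z) := by
        rw [ins, g2 j _ hy, hβ, wedge1_ins, HD.th_e, one_smul]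
        intro v n hv
        rw [ContinuousAlternatingMap.smul_apply,
          bas_hor ((ha.sy _).bas _ (GD.Vmp_Q h hr.2.1)) v n hv, smul_zero]
      rw [e1, ins_pb (hS.eqv.fderiv hr.1.1 hr.2.1.1 hx), pb, e2, key hS hx hr.1 hr.2.1, ← mul_smul,
        HGL_sq hS.eqv, one_smul]
    · rw [g2 j y hy]
      exact zer hr (by rw [h0, smul_zero])
  · refine ⟨?_, fun _ => g3 i z hz'⟩
    rw [ins, g3 i z hz', ((hc i z hz).resolve_left fun h1 => hz' (hsat i z hz h1)).self_of_nhds]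
    rfl

theorem HGL_pm (h : D.Ok) (h1 : z ∈ D.Vmp (b, .m)) (h2 : z ∈ D.Vmp (b, .p)) :
    ∃ y ∈ D.Vmp (b, .m), D.atlO.R (b, .p) z (b, .m) y := by
  obtain ⟨f, N, hE, hz, he⟩ := h.n_mp h1 h2
  have e1 := he z hz
  have e2 := hE.rel _ (hE.inv z hz (z (2, 1) - f z (2, 1)))
  have e3 : act (1 * (z (2, 1) - f z (2, 1))) K3.p (f z) = z := by
    have k0 : f z (0, 0) = z (0, 0) := congrFun e1 (0, 0)
    have k1 : f z (0, 1) = z (0, 1) := congrFun e1 (0, 1)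
    have k2 : f z (1, 0) = z (1, 0) := congrFun e1 (1, 0)
    have k3 : f z (1, 1) = z (1, 1) := congrFun e1 (1, 1)
    have k4 : f z (2, 0) = z (2, 0) := congrFun e1 (2, 0)
    exact ext6 k0 k1 k2 k3 k4 (by simp [act])
  rw [hE.eqv z hz, e3] at e2
  refine ⟨_, ?_, h.n_orb.symm e2⟩
  rw [act_mp (by simp)]
  exact GD.Vmp_shift h1 _

theorem GD.Ok.liftL (h : D.Ok) {a : Bool → Fm E6 k} (ha : D.Pr (-1) a)
    (hF : ∀ b, (D.H b).Fold (-1) (a b)) {ε₀ : ℝ} (h0 : 0 < ε₀)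
    (hz : ∀ b, ∀ z ∈ (D.H b).Tube ε₀, a b z = 0) :
    ∃ (L : Bool × K3 → Fm E6 (k + 1)) (ε : ℝ), 0 < ε ∧ SmF D.atlO L ∧ D.AInv L ∧
      (∀ i, ∀ z ∈ D.Vmp i, ins (L i) z = a i.1 z) ∧ D.NearC ε 0 L := by
  obtain ⟨ε, e0, e1, e2⟩ : ∃ ε : ℝ, 0 < ε ∧ ε ≤ ε₀ ∧ ε ≤ 1 / 8 :=
    ⟨min ε₀ (1 / 8), lt_min h0 (by norm_num), min_le_left _ _, min_le_right _ _⟩
  have hT : ∀ b, ∀ z ∈ (D.H b).Tube ε, a b z = 0 := fun b z hz' =>
    hz b z ⟨hz'.1.trans_le e1, hz'.2.1.trans_le e1, hz'.2.2.trans_le e1⟩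
  obtain ⟨χ, c0, c1, c2⟩ : ∃ χ : ℝ → ℝ, ContDiff ℝ ∞ χ ∧ (∀ u, u ≤ ε / 4 → χ u = 0) ∧
      ∀ u, ε / 2 ≤ u → χ u = 1 :=
    ⟨fun u => Real.smoothTransition (4 * u / ε - 1), Real.smoothTransition.contDiff.comp (by fun_prop),
      fun u hu => Real.smoothTransition.zero_of_nonpos (by
        rw [sub_nonpos, div_le_one e0]; linarith only [hu]),
      fun u hu => Real.smoothTransition.one_of_one_le (by
        rw [le_sub_iff_add_le, le_div_iff₀ e0]; linarith only [hu])⟩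
  have ct : ∀ b, Continuous (D.H b).tt := fun b => (continuous_apply _).sub continuous_const
  have rf : ∀ i, ∀ x ∈ D.Vmp i, ∃ y ∈ D.Vmp (i.1, i.2), D.atlO.R i x (i.1, i.2) y :=
    fun i x hx => ⟨x, hx, h.n_orb.refl (D.Vmp_sub i hx)⟩
  obtain ⟨γ₁, s1, g1⟩ := HGL_one h ha hF .p c0 (fun u hu => c1 u (by linarith only [e0, hu]))
    (fun u hu => c2 u (by linarith only [e0, e2, hu])) (by
      rintro ⟨b, c⟩ x hx
      cases c
      · by_cases ht : 0 < (D.H b).tt x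
        · obtain ⟨f, N, hE, hN, -⟩ := h.n_mp hx (h.n_m_p hx ht)
          exact Or.inl ⟨f x, ⟨by simp, B3.atlO_W D _ ▸ (h.n_orb.mem (hE.rel x hN)).2⟩, hE.rel x hN⟩
        · refine Or.inr (((ct b).continuousAt.eventually
            (gt_mem_nhds (show (D.H b).tt x < ε / 4 by linarith only [e0, ht]))).mono fun z hz' => ?_)
          rw [c1 _ hz'.le, zero_smul]
      · exact Or.inl (rf _ x hx)
      · exact absurd rfl hx.1)
  obtain ⟨γ₂, s2, g2⟩ := HGL_one h ha hF .m (r := fun u => 1 - χ u) (s := 1) (t := 0)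
    (contDiff_const.sub c0) (fun u hu => by rw [c1 u (by linarith only [e0, hu]), sub_zero])
    (fun u hu => by rw [c2 u (by linarith only [e0, e2, hu]), sub_self]) (by
      rintro ⟨b, c⟩ x hx
      cases c
      · exact Or.inl (rf _ x hx)
      · by_cases ht : ε / 2 < (D.H b).tt x
        · refine Or.inr (((ct b).continuousAt.eventually (lt_mem_nhds ht)).mono fun z hz' => ?_)
          rw [c2 _ hz'.le, sub_self, zero_smul]
        · rcases h.n_p_m hx with h1 | h1 | ⟨n, n', h1, h2⟩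
          · exact Or.inl (HGL_pm h h1 hx)
          · exact absurd (by linarith only [e0, e2, ht, h1]) ht
          · have ho : IsOpen ((fun z => z + lv ![0, 0, -n, -n']) ⁻¹' (D.H b).Tube ε) :=
              (domE_tube _ e0).opn.preimage (by fun_prop)
            have t0 : 0 < (D.H b).tt x := hx.2.1
            have hm : x + lv ![0, 0, -n, -n'] ∈ (D.H b).Tube ε := by
              refine ⟨by simp [lv, rv, h1, e0], by simp [lv, rv, h2, e0], ?_⟩
              have : (D.H b).tt (x + lv ![0, 0, -n, -n']) = (D.H b).tt x := by simp [HD.tt, lv]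
              rw [this, abs_of_pos t0]
              linarith only [ht, t0]
            refine Or.inr ?_
            filter_upwards [ho.mem_nhds hm, (h.Vmp_open _).mem_nhds hx] with z z1 z2
            rw [← (ha.sy b).lat ![0, 0, -n, -n'] (GD.Vmp_Q h z2), hT b _ z1, smul_zero]
      · exact absurd rfl hx.1)
  have y0 : ∀ b z, (D.H b).yF ((0 : Bool → Alt E6 (k + 1)) b) z = 0 := fun _ _ => rfl
  obtain ⟨γ, s, g⟩ := h.liftC e0 (s1.add s2) (e := 0) (fun i z z1 z2 => by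
    rw [y0, Pi.add_apply, Pi.add_apply, (g1 i z z1).2 (hT _ _ z2), (g2 i z z1).2 (hT _ _ z2),
      add_zero]) (fun _ => Hor.zero) fun _ _ => rfl
  refine ⟨avgF γ, ε, e0, h.avg_sm s, h.avg_inv s, fun i z z1 => h.avg_ins s z1 fun t => ?_,
    avg_near fun i z z1 z2 => ?_⟩
  · have z2 := GD.Vmp_shift z1 t
    rw [ins, g i _ z2, ← ins, Pi.add_apply, ins_add, Pi.add_apply, (g1 i _ z2).1, (g2 i _ z2).1,
      ← add_smul, add_sub_cancel, one_smul]
    exact (ha.sy _).shift (h.ok _).domE_Q (GD.Vmp_Q h z1) t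
  · rw [y0, g i z z1, Pi.add_apply, Pi.add_apply, (g1 i z z1).2 (hT _ _ z2),
      (g2 i z z1).2 (hT _ _ z2), add_zero]

end Pool.Agent.Work.MP_bf98aa_gt.B3
end
end

-- merged part: Pool.Agent.Work.MP_bf98aa_gt.B3.HH3
section
/-!
The third cohomology of the neck without holes vanishes.
PLAN. `α₁ = α - dF β` (`normC`, `e = 0`), `α₂ = avgF α₁` (`avg_ex`, `avg_inv`, `avg_near`). `B = glueQ (ins α₂)` with sign `-1` (`bas_ins`, `tw_ins`), closed (`ins_d`, `eqOn_Q`), zero on a tube. `torusPair`: `B = c + dγ`;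
`cst_zero` on `QF` for `γ + pb kb γ` (`sy_kb`, `pb_kb_const`, `Hor.ML`) and on the tube (`domE_tube`), `lin3`: `c = 0`. `torusE` on `QF` (odd degree), `fixFold`, `near1`, `fixNear` with `ρ = 0`, `liftL`: `L`.
`α₃ = α₂ + dF L` is invariant with `ins α₃ = 0` (`ins_d`), so basic (`bas_of`), zero on a tube; `A = glueQ α₃` with sign `1`, `torusPair` (odd degree): `A = da`. `torusE` on `QF`: `a - pb kb a = l + dg`,
`l ∘ T = -l` (`cst_zero`), `lin1`: `c, s`; `a' = a + c + s • gv` (`pr_const`, `pr_low`, `sy_gv`, `gv_kb`), `fixFold`, `near2`, `fixNear`, `lift_bas`, `liftC`: `γ`. Then `d (γ - xiF s) = α₃` on `Vmp`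
(`d_xi`; on `p` the form `gv` vanishes), `IsDF.of_dense`, `n_den`.
-/

set_option autoImplicit false

open scoped Manifold ContDiff Topology Matrix ComplexConjugate
open Set Complex Filter

namespace Pool.Agent.Work.MP_bf98aa_gt.B3

open Pool.Agent.Work.MP_bf98aa_gt.Th Pool.Agent.Work.MP_bf98aa_gt.Cy

variable {D : GD} {k : ℕ} {i j : Bool × K3} {b b' : Bool} {c : K3} {x y z : E6}

theorem HH3_d {U : Set E6} (hU : IsOpen U) {β β' : Fm E6 k} (he : ∀ y ∈ U, β y = β' y)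
    (hz : z ∈ U) : extDeriv β z = extDeriv β' z :=
  Filter.EventuallyEq.extDeriv_eq ((hU.eventually_mem hz).mono he)

theorem HH3_d0 {U : Set E6} (hU : IsOpen U) {β : Fm E6 k} (he : ∀ y ∈ U, β y = 0) (hz : z ∈ U) :
    extDeriv β z = 0 := (HH3_d hU he hz).trans (extDeriv_const 0 z)

theorem HH3_glue (h : D.Ok) {ε ε₀ : ℝ} (h0 : 0 < ε₀) {β : Bool × K3 → Fm E6 k}
    (hs : ∀ i, Cl (β i) (D.Vmp i)) (hb : ∀ i, ∀ z ∈ D.Vmp i, pb PP (β i) z = β i z)
    (ht : D.Tw ε β) (hn : ∀ i, ∀ z ∈ D.Vmp i, z ∈ (D.H i.1).Tube ε₀ → β i z = 0) :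
    ∃ (γ : Bool → Fm E6 k) (ε₁ : ℝ), 0 < ε₁ ∧ ε₁ ≤ 1 / 4 ∧ D.Pr ε γ ∧ (∀ b, (D.H b).Fold ε (γ b)) ∧
      (∀ i, ∀ z ∈ D.Vmp i, γ i.1 z = β i z) ∧ (∀ b, ∀ z ∈ (D.H b).Q, extDeriv (γ b) z = 0) ∧
      ∀ b, ∀ z ∈ (D.H b).Tube ε₁, γ b z = 0 := by
  obtain ⟨γ, h1, h2, h3, h4⟩ := h.glueQ (e := 0) h0 (fun i => (hs i).1) hb ht fun i z a b =>
    (hn i z a b).trans (congrFun (HD.yF_zero _) z).symm
  have a1 := min_le_left ε₀ (1 / 8)
  have a2 := min_le_right ε₀ (1 / 8)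
  refine ⟨γ, min ε₀ (1 / 8), by positivity, by linarith only [a2], h1, h2, h3, fun b => h.eqOn_Q
    ((h1.sm b).extDeriv (h.ok b).domE_Q.opn).continuousOn continuousOn_const fun c z hz =>
      (HH3_d (h.Vmp_open _) (h3 (b, c)) hz).trans ((hs _).2 z hz), fun b z hz => ?_⟩
  exact (h4 b z ⟨hz.1.trans_le a1, hz.2.1.trans_le a1, hz.2.2.trans_le a1⟩ (hz.2.2.trans_le a2)
    (by linarith only [a2, hz, hz.1]) (by linarith only [a2, hz, hz.2.1])).trans (congrFun (HD.yF_zero _) z)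

theorem HH3_def {d : HD} (h : d.Ok) (ε : ℝ) {w : Fm E6 k} (h1 : Sm w QF) (h2 : Sy SX QF w) :
    Sy SX QF (fun z => w z - ε • pb d.kb w z) ∧ IsD (fun z => w z - ε • pb d.kb w z)
      (fun z => extDeriv w z - ε • pb d.kb (extDeriv w) z) QF := by
  have a := (IsD.pb ⟨h1, fun _ _ => rfl⟩ domE_QF.opn domE_QF.opn d.contDiff_kb.contDiffOn
    fun _ => kb_mem d)
  refine ⟨h2.sub ((h.sy_kb h2).smul ε), FMV_sub (β' := ε • pb d.kb w) domE_QF.opn
    ⟨h1, fun _ _ => rfl⟩ ⟨a.1.const_smul ε, fun z hz => ?_⟩ fun _ _ => rfl⟩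
  rw [extDeriv_smul, a.2 z hz]

theorem HH3_odd {d : HD} (h : d.Ok) {g : Fm E6 1} {w : Fm E6 2} {l : Alt E6 2} (hl : Hor SX l)
    (h1 : IsD g (fun z => w z - l) QF) (h2 : Sy SX QF g) (h3 : d.Fold (-1) w) :
    l.compContinuousLinearMap (ML (rm d.T) (-1)) = (-1 : ℝ) • l := by
  obtain ⟨a1, a2⟩ := HH3_def h (-1) h1.1 h2
  have a3 := cst_zero (c := (-1 : ℝ) • l - l.compContinuousLinearMap (ML (rm d.T) (-1)))
    domE_QF.dom ⟨a2.1, fun z hz => (a2.2 z hz).trans (by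
      have e : pb d.kb (extDeriv g) z = pb d.kb w z - pb d.kb (fun _ => l) z :=
        (pb_congr' (β := w - fun _ => l) (h1.2 _ (kb_mem d hz))).trans (congrFun (pb_sub _ _ _) z)
      simp only [h1.2 z hz, e, h3 z hz, d.pb_kb_const]
      module)⟩ a1.per
  exact (sub_eq_zero.1 (((hl.smul _).sub (hl.ML _ _)).symm.trans a3)).symm

theorem HH3_sy {d : HD} (h : d.Ok) {ε : ℝ} (hε : ε ≤ 1 / 4) {w : Fm E6 k} (hw : Sy SX d.Q w) :
    Sy SC (d.Tube ε) w := (hw.mono (h.Tube_sub hε)).sub_dir (by decide)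

theorem HH3_A (h : D.Ok) {ε : ℝ} (h0 : 0 < ε) (hε : ε ≤ 1 / 4) {B : Bool → Fm E6 2}
    (h1 : D.Pr (-1) B) (h2 : ∀ b, (D.H b).Fold (-1) (B b))
    (h3 : ∀ b, ∀ z ∈ (D.H b).Q, extDeriv (B b) z = 0) (h4 : ∀ b, ∀ z ∈ (D.H b).Tube ε, B b z = 0) :
    ∃ (a : Bool → Fm E6 1) (ε₁ : ℝ), 0 < ε₁ ∧ D.Pr (-1) a ∧ (∀ b, (D.H b).Fold (-1) (a b)) ∧
      (∀ b, ∀ z ∈ (D.H b).Q, extDeriv (a b) z = B b z) ∧ ∀ b, ∀ z ∈ (D.H b).Tube ε₁, a b z = 0 := by
  obtain ⟨c, γ, c1, -, c2, g1, g2⟩ := h.torusPair (Or.inr rfl) h1 h3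
  have q := fun b => (h.ok b).QF_sub
  have t := fun b => (h.ok b).Tube_sub hε
  have c0 := h.lin3 c1 c2 (fun b => HH3_odd (h.ok b) (c1 b)
    ⟨(g1.sm b).mono (q b), fun z hz => g2 b z (q b hz)⟩ ((g1.sy b).mono (q b)) (h2 b)) fun b => by
      have := cst_zero (c := -c b) (domE_tube (D.H b) h0).dom ⟨(g1.sm b).mono (t b), fun z hz => by
        rw [g2 b z (t b hz), h4 b z hz, zero_sub]⟩ (HH3_sy (h.ok b) hε (g1.sy b)).per
      have e : ∀ i ∈ SC, G6_L SC (bv i) = bv i := fun i hi => funext fun j => by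
        rw [G6_L_apply, slice]
        split_ifs with hj
        · rfl
        · simp [bv, show j ≠ i from fun e => hj (e ▸ hi)]
      have e' := congrArg (· ![bv (0, 0), bv (0, 1)]) this
      simp only [ContinuousAlternatingMap.compContinuousLinearMap_apply] at e'
      rw [show G6_L SC ∘ ![bv (0, 0), bv (0, 1)] = ![bv (0, 0), bv (0, 1)] from funext fun j => by
        fin_cases j <;> exact e _ (by decide)] at e'
      simpa using e'
  simp only [c0, sub_zero] at g2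
  have a := fun b => HH3_def (h.ok b) (-1) ((g1.sm b).mono (q b)) ((g1.sy b).mono (q b))
  choose l g l1 l2 l3 l4 using fun b => torusE domE_QF (⟨(a b).2.1, fun z hz =>
    ((a b).2.2 z hz).trans (by
      simp only [pb_congr' (g2 b _ (q b (kb_mem _ hz))), g2 b z (q b hz), h2 b z hz]
      module)⟩ : Cl _ QF) (a b).1
  obtain ⟨w, w1, w2, w3⟩ := h.fixFold (Or.inr rfl) g1 l4 fun b => by
    simpa only [l2 b (by decide), sub_zero] using l3 b
  choose u u1 u2 using fun b => (h.ok b).near1 h0 ⟨(w1.sm b).mono (t b), fun z hz => by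
    rw [w3 b z (t b hz), g2 b z (t b hz), h4 b z hz]⟩ (HH3_sy (h.ok b) hε (w1.sy b))
  obtain ⟨v, ε₁, v0, v1, v2, v3, v4⟩ := h.fixNear (ρ := 0) w1 w2 h0 u1 u2
  exact ⟨v, ε₁, v0, v1, v2, fun b z hz => by rw [v3 b z hz, w3 b z hz, g2 b z hz], v4⟩

theorem HH3_gv (d : HD) (hz : 1 / 16 < z (2, 0)) : extDeriv d.gv z = 0 :=
  HH3_d0 (U := {y : E6 | 1 / 16 < y (2, 0)}) (isOpen_lt continuous_const (continuous_apply _))
    (fun _ hy => d.gv_zero (le_of_lt hy)) hz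

theorem HH3_B (h : D.Ok) {ε : ℝ} (h0 : 0 < ε) (hε : ε ≤ 1 / 4) {A : Bool → Fm E6 3}
    (h1 : D.Pr 1 A) (h2 : ∀ b, (D.H b).Fold 1 (A b))
    (h3 : ∀ b, ∀ z ∈ (D.H b).Q, extDeriv (A b) z = 0) (h4 : ∀ b, ∀ z ∈ (D.H b).Tube ε, A b z = 0) :
    ∃ (w : Bool → Fm E6 2) (s t : Bool → ℝ) (ε₁ : ℝ), 0 < ε₁ ∧ D.Pr 1 w ∧
      (∀ b, (D.H b).Fold 1 (w b)) ∧
      (∀ b, ∀ z ∈ (D.H b).Q, extDeriv (w b) z = A b z + s b • extDeriv (D.H b).gv z) ∧
      ∀ b, ∀ z ∈ (D.H b).Tube ε₁, w b z = (D.H b).yF (t b • dyy) z := by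
  obtain ⟨c, γ, -, c0, -, g1, g2⟩ := h.torusPair (Or.inl rfl) h1 h3
  simp only [c0 (by decide), sub_zero] at g2
  have q := fun b => (h.ok b).QF_sub
  have t := fun b => (h.ok b).Tube_sub hε
  have a := fun b => HH3_def (h.ok b) 1 ((g1.sm b).mono (q b)) ((g1.sy b).mono (q b))
  choose l g l1 l2 l3 l4 using fun b => torusE domE_QF (⟨(a b).2.1, fun z hz =>
    ((a b).2.2 z hz).trans (by
      simp only [pb_congr' (g2 b _ (q b (kb_mem _ hz))), g2 b z (q b hz), h2 b z hz]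
      module)⟩ : Cl _ QF) (a b).1
  obtain ⟨e, s, e1, e2, e3⟩ := h.lin1 l1 fun b => HH3_odd (h.ok b) (l1 b) (l3 b) (l4 b) fun z _ => by
    have k1 := (D.H b).contDiff_kb.differentiable (by simp)
    have k2 : pb (D.H b).kb (pb (D.H b).kb (γ b)) z = γ b z := by
      rw [← pb_comp _ (k1 _) (k1 _)]
      simp only [(h.ok b).kb_kb, pb_id]
    refine (congrFun (pb_sub _ (γ b) ((1 : ℝ) • pb (D.H b).kb (γ b))) z).trans ?_
    simp only [one_smul, Pi.sub_apply, k2]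
    module
  have p := (g1.add (D.pr_const e1 e2)).add (h.pr_low (a := fun b => s b • (D.H b).gv)
    (fun b => ((D.H b).contDiff_gv.const_smul (s b)).contDiffOn) (fun b => ((D.H b).sy_gv _).smul _)
    fun b z hz => by
      rw [Pi.smul_apply, (D.H b).gv_zero (by linarith only [h0, hε, hz, h, hz.1, HS1_M (h.ok b)]), smul_zero])
  obtain ⟨w, w1, w2, w3⟩ := h.fixFold (Or.inl rfl) p l4 fun b => ⟨(l3 b).1, fun z hz =>
    ((l3 b).2 z hz).trans (by
      simp only [Pi.add_apply, pb_add, pb_smul, Pi.smul_apply, (D.H b).pb_kb_const, one_smul]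
      linear_combination (norm := module) -e3 b - s b • (h.ok b).gv_kb z)⟩
  have w4 : ∀ b, ∀ z ∈ (D.H b).Q, extDeriv (w b) z = A b z + s b • extDeriv (D.H b).gv z :=
    fun b z hz => by
      have k1 := (g1.sm b).diffAt (h.ok b).domE_Q.opn hz
      rw [w3 b z hz, Pi.add_apply, Pi.add_apply, extDeriv_add (k1.add (differentiableAt_const _))
        (((D.H b).contDiff_gv.differentiable (by simp)).differentiableAt.const_smul _),
        extDeriv_add k1 (differentiableAt_const _), extDeriv_const, add_zero, extDeriv_smul,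
        g2 b z hz]
  choose r u u1 u2 using fun b => (h.ok b).near2 h0 hε ⟨(w1.sm b).mono (t b), fun z hz => by
    have := (abs_lt.1 hz.2.2).1
    rw [w4 b z (t b hz), h4 b z hz, HH3_gv _ (by unfold HD.tt at this; linarith only [h0, hε, this, h, (h.ok b).hμ]),
      smul_zero, add_zero]⟩ (HH3_sy (h.ok b) hε (w1.sy b))
  obtain ⟨v, ε₁, v0, v1, v2, v3, v4⟩ :=
    h.fixNear (ρ := fun b => (D.H b).yF (r b • dyy)) w1 w2 h0 u1 u2
  exact ⟨v, s, r, ε₁, v0, v1, v2, fun b z hz => (v3 b z hz).trans (w4 b z hz), v4⟩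

theorem GD.Ok.h3O (h : D.Ok) {α : Bool × K3 → Fm E6 3} (hα : ClF D.atlO α) : ExF D.atlO α := by
  have o := h.n_orb
  have i0 : ∀ {n : ℕ} {w : Fm E6 (n + 1)} {z : E6}, w z = 0 → ins w z = 0 := fun e => by
    simp [ins, e]
  have df : ∀ {n : ℕ} {w : Bool × K3 → Fm E6 n}, SmF D.atlO w → ∀ i, ∀ z ∈ D.Vmp i,
      DifferentiableAt ℝ (w i) z := fun e i z hz => (e.1 i).diffAt (o.opn i) (D.Vmp_sub i hz)
  obtain ⟨β, ε, e, b1, b2, -, b3, b4, -⟩ := h.normC hα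
  have a1 := hα.sub o (b1.dF o)
  have a2 := h.avg_ex a1
  have a3 := a1.sub o (a2.choose_spec.cl o)
  rw [sub_sub_cancel] at a3
  have a4 := h.avg_inv a1.sm
  have a5 : ∀ i, ∀ z ∈ D.Vmp i, z ∈ (D.H i.1).Tube ε → avgF (α - dF β) i z = 0 := fun i z h1 h2 => by
    rw [avg_near b4 i z h1 h2, b3 (by decide), HD.yF_zero, Pi.zero_apply]
  generalize avgF (α - dF β) = α₂ at a2 a3 a4 a5
  obtain ⟨B, ε₁, c0, c1, c2, c3, c4, c5, c6⟩ := HH3_glue h b2 (β := fun i => ins (α₂ i))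
    (fun i => ⟨Sm.ins ((a3.1 i).1.mono (D.Vmp_sub i)), fun z hz => neg_eq_zero.1
      ((ins_d (df a3.sm i z hz) (a4 i z hz)).symm.trans (i0 ((a3.1 i).2 z (D.Vmp_sub i hz))))⟩)
    (fun i z hz => bas_ins (a4 i z hz)) (tw_ins a3.2) fun i z h1 h2 => i0 (a5 i z h1 h2)
  obtain ⟨a, ε₂, d0, d1, d2, d3, d4⟩ := HH3_A h c0 c1 c2 c3 c5 c6
  obtain ⟨L, ε₃, l0, l1, l2, l3, l4⟩ := h.liftL d1 d2 d0 d4
  have f1 := a3.add o (l1.dF o)
  obtain ⟨A, ε₄, g0, g1, g2, g3, g4, g5, g6⟩ := HH3_glue h (lt_min b2 l0) (β := α₂ + dF L)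
    (fun i => FMV_mono (f1.1 i) (D.Vmp_sub i)) (fun i z hz => bas_of (fun s => congrArg₂ (· + ·)
      (a4 i z hz s) ((HS1_pbT _ _ z).symm.trans (HS1_d (h.Vmp_open i) ((l1.1 i).mono (D.Vmp_sub i))
        hz (contDiff_id.add contDiff_const) (GD.Vmp_shift hz s) fun y hy =>
          (HS1_pbT _ _ y).trans (l2 i y hy s)))) (by
      rw [Pi.add_apply, ins_add, Pi.add_apply, dF, ins_d (df l1 i z hz) (l2 i z hz),
        HH3_d (h.Vmp_open i) (l3 i) hz, d3 _ z (GD.Vmp_Q h hz), c4 i z hz, add_neg_cancel]))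
    (tw_one f1.2) fun i z h1 h2 => by
      have m1 := min_le_left ε ε₃
      have m2 := min_le_right ε ε₃
      rw [Pi.add_apply, Pi.add_apply, a5 i z h1 ⟨h2.1.trans_le m1, h2.2.1.trans_le m1,
        h2.2.2.trans_le m1⟩, zero_add]
      exact HH3_d0 ((h.Vmp_open i).inter (domE_tube _ l0).opn)
        (fun y hy => (l4 i y hy.1 hy.2).trans (congrFun (HD.yF_zero _) y))
        ⟨h1, h2.1.trans_le m2, h2.2.1.trans_le m2, h2.2.2.trans_le m2⟩
  obtain ⟨w, s, t, ε₅, w0, w1, w2, w3, w4⟩ := HH3_B h g0 g1 g2 g3 g5 g6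
  obtain ⟨γ, r1, r2⟩ := h.liftC w0 (e := fun b => t b • dyy) (h.lift_bas w1 w2)
    (fun i z _ h2 => w4 i.1 z h2) (fun b => (hor_wedge (by decide) (by decide)).smul _)
    fun e => absurd e (by decide)
  have r3 := IsDF.of_dense o (r1.sub (h.xiF_sm s)) f1.sm h.n_den fun i z hz => by
    rw [Pi.sub_apply, extDeriv_sub' (df r1 i z hz) (df (h.xiF_sm s) i z hz),
      HH3_d (h.Vmp_open i) (r2 i) hz, w3 _ z (GD.Vmp_Q h hz), g4 i z hz, add_sub_assoc,
      add_eq_left, sub_eq_zero, GD.xiF]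
    split_ifs with hm
    · rw [extDeriv_smul, HD.d_xi]
    · obtain ⟨b, c⟩ := i
      obtain rfl : c = .p := by
        clear * - hz hm
        cases c <;> simp_all [mem_Vmp]
      have : 0 < z (2, 0) - (D.H b).μ₁ := hz.2.1
      rw [HH3_gv _ (by linarith only [c0, c1, this, h, (h.ok b).hμ]), smul_zero]
      exact (extDeriv_const 0 z).symm
  refine (((ExF.sub o ⟨_, r3⟩ ⟨_, l1.isDF⟩).add o a2).add o ⟨_, b1.isDF⟩).congr fun i z _ => ?_
  simp


end Pool.Agent.Work.MP_bf98aa_gt.B3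
end
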