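import Pool.Agent.Work.MP_bf98aa_gt.B3.DAl
import Pool.Agent.Work.MP_bf98aa_gt.Cy.G8

-- merged part: Pool.Agent.Work.MP_bf98aa_gt.Cy.K1
section
/-!
The exponential, the gauge function and its local inverse.

PLAN. `gg` agrees near each point with one of the smooth functions `ee (n q) * g0 (p - n) q`: near a half-integer `n + 1/2` both neighbouring formulas equal `ee ((n+1) q)`.
`g0 p q * ee (-q/2) = cos (π q) + i nu p sin (π q)`. For `|p| ≤ 1/8`: `(1 - p)/2 - g0 p q = (1 + p)/2 * ee (q - 1/2)`. `ee_lift`: `G y = t₀ + arg (c y / c x) / (2 π)` or `Complex.log`.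
-/

set_option autoImplicit false

open scoped Manifold ContDiff Topology
open Set Complex

namespace Pool.Agent.Work.MP_bf98aa_gt.Cy

open Pool.Agent.Work.MP_bf98aa_gt.Th

theorem K1_ee (t : ℝ) : ee t = Complex.exp (((2 * Real.pi * t : ℝ) : ℂ) * I) := by
  unfold ee
  push_cast
  rfl

theorem ee_add (s t : ℝ) : ee (s + t) = ee s * ee t := by
  unfold ee
  rw [← Complex.exp_add]
  congr 1
  push_cast
  ring

theorem ee_zero : ee 0 = 1 := by
  simp [ee]

theorem ee_int (n : ℤ) : ee n = 1 := by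
  rw [← Complex.exp_int_mul_two_pi_mul_I n, ee]
  congr 1
  push_cast
  ring

theorem ee_half : ee (1 / 2) = -1 := by
  rw [← Complex.exp_pi_mul_I, ee]
  congr 1
  push_cast
  ring

theorem ee_mul_neg (t : ℝ) : ee t * ee (-t) = 1 := by
  rw [← ee_add, add_neg_cancel, ee_zero]

theorem norm_ee (t : ℝ) : ‖ee t‖ = 1 := by
  rw [K1_ee, Complex.norm_exp_ofReal_mul_I]

theorem normSq_ee (t : ℝ) : normSq (ee t) = 1 := by
  rw [Complex.normSq_eq_norm_sq, norm_ee, one_pow]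

theorem ee_ne_zero (t : ℝ) : ee t ≠ 0 := by
  exact Complex.exp_ne_zero _

theorem ee_re (t : ℝ) : (ee t).re = Real.cos (2 * Real.pi * t) := by
  rw [K1_ee, Complex.exp_ofReal_mul_I_re]

theorem ee_im (t : ℝ) : (ee t).im = Real.sin (2 * Real.pi * t) := by
  rw [K1_ee, Complex.exp_ofReal_mul_I_im]

theorem ee_eq_iff {s t : ℝ} : ee s = ee t ↔ ∃ n : ℤ, s = t + n := by
  refine ⟨fun h => ?_, ?_⟩
  · obtain ⟨n, hn⟩ := Complex.exp_eq_exp_iff_exists_int.1 h
    refine ⟨n, ?_⟩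
    have h1 : (2 * Real.pi * I : ℂ) * (s : ℂ) = (2 * Real.pi * I : ℂ) * ((t + n : ℝ) : ℂ) := by
      push_cast
      linear_combination hn
    exact_mod_cast mul_left_cancel₀ Complex.two_pi_I_ne_zero h1
  · rintro ⟨n, rfl⟩
    rw [ee_add, ee_int, mul_one]

theorem K1_arg (c : ℂ) : c = ‖c‖ * ee (arg c / (2 * Real.pi)) := by
  rw [K1_ee, mul_div_cancel₀ _ (by positivity), Complex.norm_mul_exp_arg_mul_I]

theorem exists_ee (c : ℂ) : ∃ t : ℝ, c = ‖c‖ * ee t := by
  exact ⟨_, K1_arg c⟩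

theorem contDiff_ee : ContDiff ℝ ∞ ee := by
  exact ((contDiff_const.mul Complex.ofRealCLM.contDiff).mul contDiff_const).cexp

theorem hasDerivAt_ee (t : ℝ) : HasDerivAt ee (2 * Real.pi * I * ee t) t := by
  have h : HasDerivAt (fun t : ℝ => (2 * Real.pi * t * I : ℂ)) (2 * Real.pi * 1 * I) t :=
    ((Complex.ofRealCLM.hasDerivAt (x := t)).const_mul (2 * Real.pi : ℂ)).mul_const I
  refine h.cexp.congr_deriv ?_
  unfold ee
  ring

theorem ee_lift {X : Type} [NormedAddCommGroup X] [NormedSpace ℝ X] {c : X → ℂ} {x : X}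
    (hc : ContDiffAt ℝ ∞ c x) (h0 : c x ≠ 0) {t₀ : ℝ} (ht : c x = ‖c x‖ * ee t₀) :
    ∃ G : X → ℝ, ContDiffAt ℝ ∞ G x ∧ G x = t₀ ∧ ∀ᶠ y in 𝓝 x, c y = ‖c y‖ * ee (G y) := by
  refine ⟨fun y => t₀ + (Complex.log (c y / c x)).im / (2 * Real.pi), ?_, ?_,
    Filter.Eventually.of_forall fun y => ?_⟩
  · have h1 : ContDiffAt ℝ ∞ Complex.log (c x / c x) :=
      (Complex.contDiffAt_log (by rw [div_self h0]; exact Complex.one_mem_slitPlane)).restrict_scalars ℝ
    have h2 : ContDiffAt ℝ ∞ (fun y => Complex.log (c y / c x)) x :=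
      ContDiffAt.comp (f := fun y => c y / c x) x h1 (hc.div_const _)
    exact contDiffAt_const.add ((Complex.imCLM.contDiff.contDiffAt.comp x h2).div_const _)
  · simp [div_self h0]
  · have h1 := K1_arg (c y / c x)
    have h2 : (‖c x‖ : ℂ) ≠ 0 := by exact_mod_cast norm_ne_zero_iff.2 h0
    rw [ee_add, Complex.log_im]
    calc c y = c x * (c y / c x) := by field_simp
      _ = (‖c x‖ * ee t₀) * (‖c y / c x‖ * ee (arg (c y / c x) / (2 * Real.pi))) := by
          rw [← ht, ← h1]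
      _ = _ := by
          rw [norm_div]
          push_cast
          field_simp

theorem contDiff_nu : ContDiff ℝ ∞ nu := by
  have h : ContDiff ℝ ∞ Real.smoothTransition := Real.smoothTransition.contDiff
  unfold nu
  exact (contDiff_id.add ((contDiff_const.sub contDiff_id).mul (h.comp (by fun_prop)))).sub
    ((contDiff_const.add contDiff_id).mul (h.comp (by fun_prop)))

theorem nu_eq {p : ℝ} (h : |p| ≤ 1 / 8) : nu p = p := by
  have h1 := abs_le.1 h
  rw [nu, Real.smoothTransition.zero_of_nonpos (by linarith only [h1]),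
    Real.smoothTransition.zero_of_nonpos (by linarith only [h1])]
  ring

theorem nu_one {p : ℝ} (h : 1 / 4 ≤ p) : nu p = 1 := by
  rw [nu, Real.smoothTransition.one_of_one_le (by linarith only [h]),
    Real.smoothTransition.zero_of_nonpos (by linarith)]
  ring

theorem nu_neg_one {p : ℝ} (h : p ≤ -1 / 4) : nu p = -1 := by
  rw [nu, Real.smoothTransition.zero_of_nonpos (by linarith only [h]),
    Real.smoothTransition.one_of_one_le (by linarith)]
  ring

theorem abs_le_nu {p : ℝ} (h : |p| ≤ 1) : |p| ≤ |nu p| := by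
  have h1 := abs_le.1 h
  rcases le_total 0 p with hp | hp
  · rw [abs_of_nonneg hp]
    refine le_trans ?_ (le_abs_self _)
    rw [nu, Real.smoothTransition.zero_of_nonpos (x := -8 * p - 1) (by linarith)]
    have := mul_nonneg (sub_nonneg.2 h1.2) (Real.smoothTransition.nonneg (8 * p - 1))
    linarith
  · rw [abs_of_nonpos hp]
    refine le_trans ?_ (neg_le_abs _)
    rw [nu, Real.smoothTransition.zero_of_nonpos (x := 8 * p - 1) (by linarith)]
    have := mul_nonneg (show 0 ≤ 1 + p by linarith) (Real.smoothTransition.nonneg (-8 * p - 1))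
    linarith

theorem K1_g0_re (p q : ℝ) :
    (g0 p q).re = (1 - nu p) / 2 + (1 + nu p) / 2 * Real.cos (2 * Real.pi * q) := by
  rw [g0, Complex.add_re, Complex.re_ofReal_mul, Complex.ofReal_re, ee_re]

theorem K1_g0_im (p q : ℝ) : (g0 p q).im = (1 + nu p) / 2 * Real.sin (2 * Real.pi * q) := by
  rw [g0, Complex.add_im, Complex.im_ofReal_mul, Complex.ofReal_im, ee_im, zero_add]

theorem normSq_g0 (p q : ℝ) :
    normSq (g0 p q) = Real.cos (Real.pi * q) ^ 2 + nu p ^ 2 * Real.sin (Real.pi * q) ^ 2 := by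
  rw [Complex.normSq_apply, K1_g0_re, K1_g0_im, mul_assoc, Real.cos_two_mul, Real.sin_two_mul]
  have h := Real.sin_sq_add_cos_sq (Real.pi * q)
  linear_combination ((1 + nu p) ^ 2 * Real.cos (Real.pi * q) ^ 2 - nu p ^ 2) * h

theorem contDiff_g0 : ContDiff ℝ ∞ fun z : ℝ × ℝ => g0 z.1 z.2 := by
  have h : ContDiff ℝ ∞ fun z : ℝ × ℝ => nu z.1 := contDiff_nu.comp contDiff_fst
  unfold g0
  exact (Complex.ofRealCLM.contDiff.comp ((contDiff_const.sub h).div_const 2)).add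
    ((Complex.ofRealCLM.contDiff.comp ((contDiff_const.add h).div_const 2)).mul
      (contDiff_ee.comp contDiff_snd))

theorem K1_g0_left {p : ℝ} (h : p ≤ -1 / 4) (q : ℝ) : g0 p q = 1 := by
  rw [g0, nu_neg_one h]
  norm_num

theorem K1_g0_right {p : ℝ} (h : 1 / 4 ≤ p) (q : ℝ) : g0 p q = ee q := by
  rw [g0, nu_one h]
  norm_num

theorem K1_gg {p : ℝ} {n : ℤ} (h : |p - n| ≤ 3 / 4) (q : ℝ) :
    gg p q = ee (n * q) * g0 (p - n) q := by
  have h1 := abs_le.1 h
  have h2 := abs_le.1 (abs_sub_round p)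
  have h3 : (round p : ℝ) < ((n + 2 : ℤ) : ℝ) := by push_cast; linarith only [h1, h2]
  have h4 : ((n - 2 : ℤ) : ℝ) < (round p : ℝ) := by push_cast; linarith only [h1, h2]
  rw [Int.cast_lt] at h3 h4
  have h5 : round p = n ∨ round p = n + 1 ∨ round p = n - 1 := by omega
  unfold gg
  rcases h5 with h5 | h5 | h5 <;> rw [h5] at h2 ⊢ <;> push_cast at h2 ⊢
  · rw [K1_g0_left (by linarith only [h1]), K1_g0_right (by linarith only [h2]), ← ee_add, mul_one]
    congr 1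
    ring
  · rw [K1_g0_right (by linarith only [h1]), K1_g0_left (by linarith only [h2]), ← ee_add, mul_one]
    congr 1
    ring

theorem contDiff_gg : ContDiff ℝ ∞ fun z : ℝ × ℝ => gg z.1 z.2 := by
  refine contDiff_iff_contDiffAt.2 fun z₀ => ?_
  have h1 : ContDiff ℝ ∞ fun z : ℝ × ℝ => ee (round z₀.1 * z.2) * g0 (z.1 - round z₀.1) z.2 :=
    (contDiff_ee.comp (contDiff_const.mul contDiff_snd)).mul
      (contDiff_g0.comp ((contDiff_fst.sub contDiff_const).prodMk contDiff_snd))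
  refine h1.contDiffAt.congr_of_eventuallyEq ?_
  have h2 : ∀ᶠ z : ℝ × ℝ in 𝓝 z₀, |z.1 - round z₀.1| < 3 / 4 :=
    ContinuousAt.eventually_lt (by fun_prop) continuousAt_const
      ((abs_sub_round z₀.1).trans_lt (by norm_num))
  filter_upwards [h2] with z hz using K1_gg hz.le _

theorem contDiff_gz : ContDiff ℝ ∞ gz := by
  have h : ContDiff ℝ ∞ fun z : E6 => (z (0, 0), z (0, 1)) :=
    (dc (0, 0)).contDiff.prodMk (dc (0, 1)).contDiff
  have h1 := contDiff_gg.comp h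
  unfold gz
  simpa only [Function.comp_def] using h1

theorem gg_add_int (p q : ℝ) (m n : ℤ) : gg (p + m) (q + n) = ee (m * q) * gg p q := by
  unfold gg g0
  have e1 : ((round p + m : ℤ) : ℝ) * (q + n) = m * q + round p * q + (((round p + m) * n : ℤ) : ℝ) := by
    push_cast
    ring
  have e2 : p + m - ((round p + m : ℤ) : ℝ) = p - round p := by
    push_cast
    ring
  rw [round_add_intCast, e1, e2, ee_add, ee_add, ee_add, ee_int, ee_int]
  ring

theorem gg_eq_g0 {p : ℝ} (h : |p| ≤ 3 / 4) (q : ℝ) : gg p q = g0 p q := by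
  rw [K1_gg (n := 0) (by simpa using h)]
  simp [ee_zero]

theorem gg_left {p : ℝ} (h : -3 / 4 ≤ p) (h' : p ≤ -1 / 4) (q : ℝ) : gg p q = 1 := by
  rw [gg_eq_g0 (abs_le.2 ⟨by linarith only [h], by linarith only [h']⟩), K1_g0_left h']

theorem gg_right {p : ℝ} (h : 1 / 4 ≤ p) (h' : p ≤ 3 / 4) (q : ℝ) : gg p q = ee q := by
  rw [gg_eq_g0 (abs_le.2 ⟨by linarith only [h], by linarith only [h']⟩), K1_g0_right h]

theorem gg_int (p : ℝ) (n : ℤ) : gg p n = 1 := by
  unfold gg g0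
  rw [← Int.cast_mul, ee_int, ee_int]
  push_cast
  ring

theorem K1_normSq_gg (p q : ℝ) : normSq (gg p q) =
    Real.cos (Real.pi * q) ^ 2 + nu (p - round p) ^ 2 * Real.sin (Real.pi * q) ^ 2 := by
  rw [gg, map_mul, normSq_ee, one_mul, normSq_g0]

theorem K1_round (p : ℝ) : |p - round p| ≤ |nu (p - round p)| :=
  abs_le_nu ((abs_sub_round p).trans (by norm_num))

theorem gg_eq_zero_iff {p q : ℝ} : gg p q = 0 ↔ (∃ m : ℤ, p = m) ∧ ∃ n : ℤ, q = n + 1 / 2 := by
  have hpi := Real.pi_pos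
  have hs := Real.sin_sq_add_cos_sq (Real.pi * q)
  rw [← Complex.normSq_eq_zero, K1_normSq_gg]
  constructor
  · intro h
    have h1 : 0 ≤ nu (p - round p) ^ 2 * Real.sin (Real.pi * q) ^ 2 := by positivity
    have h2 : Real.cos (Real.pi * q) ^ 2 = 0 := le_antisymm (by linarith) (sq_nonneg _)
    have h3 : Real.sin (Real.pi * q) ^ 2 = 1 := by linarith
    rw [h2, h3, zero_add, mul_one, sq_eq_zero_iff] at h
    have h4 := K1_round p
    rw [h, abs_zero, abs_nonpos_iff, sub_eq_zero] at h4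
    obtain ⟨k, hk⟩ := Real.cos_eq_zero_iff.1 (sq_eq_zero_iff.1 h2)
    refine ⟨⟨_, h4⟩, k, mul_left_cancel₀ hpi.ne' ?_⟩
    rw [hk]
    ring
  · rintro ⟨⟨m, rfl⟩, n, rfl⟩
    have h1 : Real.cos (Real.pi * (n + 1 / 2)) = 0 := Real.cos_eq_zero_iff.2 ⟨n, by ring⟩
    rw [h1, round_intCast, sub_self, nu_eq (by norm_num)]
    ring

theorem gg_small {p q : ℝ} (h : normSq (gg p q) < 1 / 64) :
    |p - round p| < 1 / 8 ∧ ∃ n : ℤ, |q - n - 1 / 2| < 1 / 4 := by
  have hpi := Real.pi_pos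
  constructor
  · have hs := Real.sin_sq_add_cos_sq (Real.pi * q)
    rw [K1_normSq_gg] at h
    refine (K1_round p).trans_lt ?_
    by_contra hc
    have h1 : (1 / 8) ^ 2 ≤ nu (p - round p) ^ 2 := by
      rw [← sq_abs (nu _)]
      exact pow_le_pow_left₀ (by norm_num) (not_lt.1 hc) 2
    have h2 := mul_le_mul_of_nonneg_right h1 (sq_nonneg (Real.sin (Real.pi * q)))
    linarith only [h, hs, h2, sq_nonneg (Real.cos (Real.pi * q)), sq_nonneg (Real.cos (Real.pi * q))]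
  · refine ⟨⌊q⌋, ?_⟩
    set u := q - ⌊q⌋ - 1 / 2 with hu
    have h1 := gg_add_int p (u + 1 / 2) 0 ⌊q⌋
    have e : u + 1 / 2 + ⌊q⌋ = q := by rw [hu]; ring
    rw [e, Int.cast_zero, add_zero, zero_mul, ee_zero, one_mul] at h1
    have e2 : Real.pi * (u + 1 / 2) = Real.pi * u + Real.pi / 2 := by ring
    rw [h1, K1_normSq_gg, e2, Real.cos_add_pi_div_two, neg_sq] at h
    have h2 : |u| ≤ 1 / 2 := by
      have := Int.floor_le q
      have := Int.lt_floor_add_one q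
      rw [abs_le]
      constructor <;> linarith
    have h3 := Real.mul_abs_le_abs_sin (x := Real.pi * u) (by
      rw [abs_mul, abs_of_pos hpi]
      linarith only [hpi, h2, mul_nonneg_of_nonpos_of_nonpos (le_of_lt (Mathlib.Tactic.Linarith.sub_neg_of_lt hpi)) (Mathlib.Tactic.Linarith.sub_nonpos_of_le h2)])
    have e3 : 2 / Real.pi * |Real.pi * u| = 2 * |u| := by
      rw [abs_mul, abs_of_pos hpi]
      field_simp
    rw [e3] at h3
    have h4 : 0 ≤ nu (p - round p) ^ 2 * Real.sin (Real.pi * u + Real.pi / 2) ^ 2 := by positivity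
    have h5 : |Real.sin (Real.pi * u)| < 1 / 8 :=
      abs_lt_of_sq_lt_sq (by linarith only [h, h4]) (by norm_num)
    linarith only [h3, h5]

theorem K1_re {s : ℂ} (h : normSq s ≤ 1 / 128) : |s.re| < 9 / 100 := by
  rw [Complex.normSq_apply] at h
  exact abs_lt_of_sq_lt_sq (by linarith only [h, mul_self_nonneg s.im, mul_self_nonneg s.im]) (by norm_num)

theorem K1_abs_PP {s : ℂ} (h : normSq s ≤ 1 / 128) : |PP s| < 1 / 8 := by
  have h1 := abs_lt.1 (K1_re h)
  have h2 := Complex.normSq_nonneg s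
  have h3 : 0 < 1 - s.re := by linarith only [h1]
  rw [PP, abs_lt, lt_div_iff₀ h3, div_lt_iff₀ h3]
  constructor <;> linarith only [h1, h2, h]

theorem K1_den {s : ℂ} (h : normSq s ≤ 1 / 128) : 0 < (1 - PP s) / 2 - s.re := by
  have h1 := abs_lt.1 (K1_re h)
  have h2 := abs_lt.1 (K1_abs_PP h)
  linarith only [h1, h2]

theorem contDiffAt_PP {s : ℂ} (h : normSq s ≤ 1 / 128) : ContDiffAt ℝ ∞ PP s := by
  have h1 := abs_lt.1 (K1_re h)
  have hr : ContDiff ℝ ∞ Complex.re := Complex.reCLM.contDiff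
  have hi : ContDiff ℝ ∞ Complex.im := Complex.imCLM.contDiff
  have hn : ContDiff ℝ ∞ fun s : ℂ => normSq s := (hr.mul hr).add (hi.mul hi)
  exact (hn.sub hr).contDiffAt.div (contDiff_const.sub hr).contDiffAt (by linarith only [h1])

theorem contDiffAt_QQ {s : ℂ} (h : normSq s ≤ 1 / 128) : ContDiffAt ℝ ∞ QQ s := by
  have hr : ContDiff ℝ ∞ Complex.re := Complex.reCLM.contDiff
  have hi : ContDiff ℝ ∞ Complex.im := Complex.imCLM.contDiff
  exact contDiffAt_const.add ((hi.neg.contDiffAt.div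
    (((contDiffAt_const.sub (contDiffAt_PP h)).div_const 2).sub hr.contDiffAt)
    (K1_den h).ne').arctan.div_const _)

theorem abs_PP {s : ℂ} (h : normSq s ≤ 1 / 128) : |PP s| < 1 / 8 := by
  exact K1_abs_PP h

theorem abs_QQ (s : ℂ) : |QQ s - 1 / 2| < 1 / 4 := by
  have hpi : 0 < 2 * Real.pi := by positivity
  have h1 := Real.arctan_lt_pi_div_two (-s.im / ((1 - PP s) / 2 - s.re))
  have h2 := Real.neg_pi_div_two_lt_arctan (-s.im / ((1 - PP s) / 2 - s.re))
  rw [QQ, add_sub_cancel_left, abs_lt, lt_div_iff₀ hpi, div_lt_iff₀ hpi]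
  constructor <;> linarith only [h2, h1]

theorem gg_PQ {s : ℂ} (h : normSq s ≤ 1 / 128) : gg (PP s) (QQ s) = s := by
  have h1 := abs_lt.1 (K1_re h)
  have h2 := K1_abs_PP h
  have h2' := abs_lt.1 h2
  have h3 := K1_den h
  have h4 : PP s * (1 - s.re) = s.re * s.re + s.im * s.im - s.re := by
    rw [PP, div_mul_cancel₀ _ (by linarith only [h1]), Complex.normSq_apply]
  have e : 2 * Real.pi * QQ s = Real.arctan (-s.im / ((1 - PP s) / 2 - s.re)) + Real.pi := by
    rw [QQ]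
    field_simp
    ring
  have h5 : √(1 + (-s.im / ((1 - PP s) / 2 - s.re)) ^ 2) =
      (1 + PP s) / 2 / ((1 - PP s) / 2 - s.re) := by
    rw [Real.sqrt_eq_iff_mul_self_eq (by positivity) (div_nonneg (by linarith only [h2']) h3.le)]
    set d := (1 - PP s) / 2 - s.re with hd
    field_simp
    rw [hd]
    linear_combination (-4) * h4
  have h6 : 1 + PP s ≠ 0 := by linarith only [h2']
  rw [gg_eq_g0 (by linarith only [h2])]
  apply Complex.ext
  · rw [K1_g0_re, nu_eq h2.le, e, Real.cos_add_pi, Real.cos_arctan, h5]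
    set d := (1 - PP s) / 2 - s.re with hd
    field_simp
    rw [hd]
    ring
  · rw [K1_g0_im, nu_eq h2.le, e, Real.sin_add_pi, Real.sin_arctan, h5]
    set d := (1 - PP s) / 2 - s.re with hd
    field_simp

theorem PQ_gg {p q : ℝ} (hp : |p| ≤ 1 / 8) (hq : |q - 1 / 2| < 1 / 4) :
    PP (gg p q) = p ∧ QQ (gg p q) = q := by
  have hpi := Real.pi_pos
  have hp' := abs_le.1 hp
  have hq' := abs_lt.1 hq
  set θ := 2 * Real.pi * (q - 1 / 2) with hθ
  have e : 2 * Real.pi * q = θ + Real.pi := by rw [hθ]; ring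
  have t1 : -(Real.pi / 2) < θ := by rw [hθ]; linarith only [hpi, hq', mul_pos_of_neg_of_neg (Mathlib.Tactic.Linarith.sub_neg_of_lt hpi) (Mathlib.Tactic.Linarith.sub_neg_of_lt hq'.left)]
  have t2 : θ < Real.pi / 2 := by rw [hθ]; linarith only [hpi, hq', mul_pos_of_neg_of_neg (Mathlib.Tactic.Linarith.sub_neg_of_lt hpi) (Mathlib.Tactic.Linarith.sub_neg_of_lt hq'.right)]
  have hc : 0 < Real.cos θ := Real.cos_pos_of_mem_Ioo ⟨t1, t2⟩
  have hre : (gg p q).re = (1 - p) / 2 - (1 + p) / 2 * Real.cos θ := by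
    rw [gg_eq_g0 (by linarith only [hp]), K1_g0_re, nu_eq hp, e, Real.cos_add_pi]
    ring
  have him : (gg p q).im = -((1 + p) / 2 * Real.sin θ) := by
    rw [gg_eq_g0 (by linarith only [hp]), K1_g0_im, nu_eq hp, e, Real.sin_add_pi]
    ring
  have hb : 0 < (1 + p) / 2 * Real.cos θ := mul_pos (by linarith only [hp']) hc
  have hP : PP (gg p q) = p := by
    rw [PP, div_eq_iff (by rw [hre]; linarith only [hp', hb]), Complex.normSq_apply, hre, him]
    linear_combination ((1 + p) / 2) ^ 2 * Real.sin_sq_add_cos_sq θ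
  refine ⟨hP, ?_⟩
  have h6 : 1 + p ≠ 0 := by linarith only [hp']
  have e2 : -(gg p q).im / ((1 - p) / 2 - (gg p q).re) = Real.tan θ := by
    rw [hre, him, neg_neg, sub_sub_cancel, Real.tan_eq_sin_div_cos]
    field_simp
  rw [QQ, hP, e2, Real.arctan_tan t1 t2, hθ]
  field_simp
  ring

theorem PP_zero : PP 0 = 0 := by
  simp [PP]

theorem QQ_zero : QQ 0 = 1 / 2 := by
  simp [QQ]

theorem hasFDerivAt_gz {z : E6} {n : ℤ} (h : |z (0, 0) - n| < 1 / 8) :
    HasFDerivAt gz ((dc (0, 0)).smulRight (ee (n * z (0, 1)) * ((ee (z (0, 1)) - 1) / 2)) +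
      (dc (0, 1)).smulRight (2 * Real.pi * I * (n * gz z +
        ee (n * z (0, 1)) * ((1 + (z (0, 0) - n)) / 2 * ee (z (0, 1)))))) z := by
  have hloc : ∀ w : E6, |w (0, 0) - n| < 1 / 8 → gz w = ee (n * w (0, 1)) *
      ((((1 - (w (0, 0) - n)) / 2 : ℝ) : ℂ) + (((1 + (w (0, 0) - n)) / 2 : ℝ) : ℂ) * ee (w (0, 1))) := by
    intro w hw
    rw [gz, K1_gg (n := n) (by linarith only [hw]), g0, nu_eq hw.le]
  have hev : ∀ᶠ w : E6 in 𝓝 z, |w (0, 0) - n| < 1 / 8 :=
    ContinuousAt.eventually_lt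
      (((continuous_apply ((0, 0) : Cx)).sub continuous_const).abs.continuousAt) continuousAt_const h
  have hp : HasFDerivAt (fun w : E6 => w (0, 0)) (dc (0, 0)) z := (dc (0, 0)).hasFDerivAt
  have hq : HasFDerivAt (fun w : E6 => w (0, 1)) (dc (0, 1)) z := (dc (0, 1)).hasFDerivAt
  have e1 := (hasDerivAt_ee (n * z (0, 1))).hasFDerivAt.comp z (hq.const_mul (n : ℝ))
  have e2 := (hasDerivAt_ee (z (0, 1))).hasFDerivAt.comp z hq
  have e3 := Complex.ofRealCLM.hasFDerivAt.comp z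
    (((hp.sub_const (n : ℝ)).const_sub 1).mul_const (2⁻¹ : ℝ))
  have e4 := Complex.ofRealCLM.hasFDerivAt.comp z
    (((hp.sub_const (n : ℝ)).const_add 1).mul_const (2⁻¹ : ℝ))
  refine ((e1.mul (e3.add (e4.mul e2))).congr_of_eventuallyEq ?_).congr_fderiv ?_
  · filter_upwards [hev] with w hw
    rw [hloc w hw]
    rfl
  · rw [hloc z h]
    refine ContinuousLinearMap.ext fun v => ?_
    simp
    ring


end Pool.Agent.Work.MP_bf98aa_gt.Cy
end

-- merged part: Pool.Agent.Work.MP_bf98aa_gt.B3.G0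
section
/-!
Coordinates.
-/

set_option autoImplicit false

open scoped Manifold ContDiff Topology Matrix ComplexConjugate
open Set Complex Filter

namespace Pool.Agent.Work.MP_bf98aa_gt.B3

open Pool.Agent.Work.MP_bf98aa_gt.Th Pool.Agent.Work.MP_bf98aa_gt.Cy

@[simp] theorem xv_mk4 (x : V4) (μ φ : ℝ) : xv (mk4 x μ φ) = x := by
  funext i; fin_cases i <;> rfl

@[simp] theorem mk4_00 (x : V4) (μ φ : ℝ) : mk4 x μ φ (0, 0) = x 0 := rfl
@[simp] theorem mk4_01 (x : V4) (μ φ : ℝ) : mk4 x μ φ (0, 1) = x 1 := rfl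
@[simp] theorem mk4_10 (x : V4) (μ φ : ℝ) : mk4 x μ φ (1, 0) = x 2 := rfl
@[simp] theorem mk4_11 (x : V4) (μ φ : ℝ) : mk4 x μ φ (1, 1) = x 3 := rfl
@[simp] theorem mk4_20 (x : V4) (μ φ : ℝ) : mk4 x μ φ (2, 0) = μ := rfl
@[simp] theorem mk4_21 (x : V4) (μ φ : ℝ) : mk4 x μ φ (2, 1) = φ := rfl
@[simp] theorem xv_0 (z : E6) : xv z 0 = z (0, 0) := rfl
@[simp] theorem xv_1 (z : E6) : xv z 1 = z (0, 1) := rfl
@[simp] theorem xv_2 (z : E6) : xv z 2 = z (1, 0) := rfl
@[simp] theorem xv_3 (z : E6) : xv z 3 = z (1, 1) := rfl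
@[simp] theorem cc_mkc0 (a b c : ℂ) : cc 0 (mkc a b c) = a := rfl
@[simp] theorem cc_mkc1 (a b c : ℂ) : cc 1 (mkc a b c) = b := rfl
@[simp] theorem cc_mkc2 (a b c : ℂ) : cc 2 (mkc a b c) = c := rfl
@[simp] theorem mkc_00 (a b c : ℂ) : mkc a b c (0, 0) = a.re := rfl
@[simp] theorem mkc_01 (a b c : ℂ) : mkc a b c (0, 1) = a.im := rfl
@[simp] theorem mkc_10 (a b c : ℂ) : mkc a b c (1, 0) = b.re := rfl
@[simp] theorem mkc_11 (a b c : ℂ) : mkc a b c (1, 1) = b.im := rfl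
@[simp] theorem mkc_20 (a b c : ℂ) : mkc a b c (2, 0) = c.re := rfl
@[simp] theorem mkc_21 (a b c : ℂ) : mkc a b c (2, 1) = c.im := rfl
theorem cc_re (i : Fin 3) (z : E6) : (cc i z).re = z (i, 0) := rfl
theorem cc_im (i : Fin 3) (z : E6) : (cc i z).im = z (i, 1) := rfl

theorem normSq_cc (i : Fin 3) (z : E6) : normSq (cc i z) = z (i, 0) ^ 2 + z (i, 1) ^ 2 := by
  simp [normSq_apply, cc, sq]

theorem mk4_eta (z : E6) : mk4 (xv z) (z (2, 0)) (z (2, 1)) = z :=
  ext6 rfl rfl rfl rfl rfl rfl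

theorem mkc_eta (z : E6) : mkc (cc 0 z) (cc 1 z) (cc 2 z) = z :=
  ext6 rfl rfl rfl rfl rfl rfl

theorem ext4 {z z' : E6} (h : xv z = xv z') (h1 : z (2, 0) = z' (2, 0)) (h2 : z (2, 1) = z' (2, 1)) :
    z = z' := by
  rw [← mk4_eta z, h, h1, h2, mk4_eta]

theorem extc {z z' : E6} (h0 : cc 0 z = cc 0 z') (h1 : cc 1 z = cc 1 z') (h2 : cc 2 z = cc 2 z') :
    z = z' := by
  rw [← mkc_eta z, h0, h1, h2, mkc_eta]

@[fun_prop] theorem contDiff_xv : ContDiff ℝ ∞ xv := by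
  refine contDiff_pi.2 fun i => ?_
  fin_cases i <;> exact contDiff_apply ℝ ℝ _

@[fun_prop] theorem continuous_xv : Continuous xv := contDiff_xv.continuous

theorem cc_eq (i : Fin 3) (z : E6) : cc i z = (z (i, 0) : ℂ) + (z (i, 1) : ℂ) * I :=
  (re_add_im (cc i z)).symm

@[fun_prop] theorem contDiff_cc (i : Fin 3) : ContDiff ℝ ∞ (cc i) := by
  have : cc i = fun z => ofRealCLM (z (i, 0)) + ofRealCLM (z (i, 1)) * I := funext (cc_eq i)
  rw [this]
  exact (ofRealCLM.contDiff.comp (contDiff_apply ℝ ℝ _)).add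
    ((ofRealCLM.contDiff.comp (contDiff_apply ℝ ℝ _)).mul contDiff_const)

@[fun_prop] theorem continuous_cc (i : Fin 3) : Continuous (cc i) := (contDiff_cc i).continuous

section
variable {X : Type} [NormedAddCommGroup X] [NormedSpace ℝ X] {x : X}

theorem contDiffAt_mk {a b c d e f : X → ℝ} (ha : ContDiffAt ℝ ∞ a x) (hb : ContDiffAt ℝ ∞ b x)
    (hc : ContDiffAt ℝ ∞ c x) (hd : ContDiffAt ℝ ∞ d x) (he : ContDiffAt ℝ ∞ e x)
    (hf : ContDiffAt ℝ ∞ f x) :
    ContDiffAt ℝ ∞ (fun y => mk (a y) (b y) (c y) (d y) (e y) (f y)) x := by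
  refine contDiffAt_pi.2 fun ⟨i, j⟩ => ?_
  fin_cases i <;> fin_cases j <;> assumption

@[fun_prop] theorem contDiffAt_mk4 {a : X → V4} {e f : X → ℝ} (ha : ContDiffAt ℝ ∞ a x)
    (he : ContDiffAt ℝ ∞ e x) (hf : ContDiffAt ℝ ∞ f x) :
    ContDiffAt ℝ ∞ (fun y => mk4 (a y) (e y) (f y)) x :=
  contDiffAt_mk (contDiffAt_pi.1 ha 0) (contDiffAt_pi.1 ha 1) (contDiffAt_pi.1 ha 2)
    (contDiffAt_pi.1 ha 3) he hf

@[fun_prop] theorem contDiffAt_mkc {a b c : X → ℂ} (ha : ContDiffAt ℝ ∞ a x)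
    (hb : ContDiffAt ℝ ∞ b x) (hc : ContDiffAt ℝ ∞ c x) :
    ContDiffAt ℝ ∞ (fun y => mkc (a y) (b y) (c y)) x :=
  contDiffAt_mk (reCLM.contDiff.contDiffAt.comp x ha) (imCLM.contDiff.contDiffAt.comp x ha)
    (reCLM.contDiff.contDiffAt.comp x hb) (imCLM.contDiff.contDiffAt.comp x hb)
    (reCLM.contDiff.contDiffAt.comp x hc) (imCLM.contDiff.contDiffAt.comp x hc)

theorem contDiffAt_cmk {a b : X → ℝ} (ha : ContDiffAt ℝ ∞ a x) (hb : ContDiffAt ℝ ∞ b x) :
    ContDiffAt ℝ ∞ (fun y => (⟨a y, b y⟩ : ℂ)) x := by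
  have : (fun y => (⟨a y, b y⟩ : ℂ)) = fun y => ofRealCLM (a y) + ofRealCLM (b y) * I :=
    funext fun y => (re_add_im ⟨a y, b y⟩).symm
  rw [this]
  exact (ofRealCLM.contDiff.contDiffAt.comp x ha).add
    ((ofRealCLM.contDiff.contDiffAt.comp x hb).mul contDiffAt_const)

@[fun_prop] theorem contDiffAt_ofReal {a : X → ℝ} (ha : ContDiffAt ℝ ∞ a x) :
    ContDiffAt ℝ ∞ (fun y => ((a y : ℝ) : ℂ)) x := ofRealCLM.contDiff.contDiffAt.comp x ha

@[fun_prop] theorem contDiffAt_normSq {a : X → ℂ} (ha : ContDiffAt ℝ ∞ a x) :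
    ContDiffAt ℝ ∞ (fun y => normSq (a y)) x := by
  have h1 : ContDiffAt ℝ ∞ (fun y => (a y).re) x := reCLM.contDiff.contDiffAt.comp x ha
  have h2 : ContDiffAt ℝ ∞ (fun y => (a y).im) x := imCLM.contDiff.contDiffAt.comp x ha
  simpa [normSq_apply] using (h1.mul h1).add (h2.mul h2)

@[fun_prop] theorem contDiffAt_conj {a : X → ℂ} (ha : ContDiffAt ℝ ∞ a x) :
    ContDiffAt ℝ ∞ (fun y => conj (a y)) x :=
  conjCLE.toContinuousLinearMap.contDiff.contDiffAt.comp x ha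

@[fun_prop] theorem contDiffAt_ee {a : X → ℝ} (ha : ContDiffAt ℝ ∞ a x) :
    ContDiffAt ℝ ∞ (fun y => ee (a y)) x := contDiff_ee.contDiffAt.comp x ha

@[fun_prop] theorem contDiffAt_mulVec (A : M4) {a : X → V4} (ha : ContDiffAt ℝ ∞ a x) :
    ContDiffAt ℝ ∞ (fun y => A *ᵥ a y) x :=
  (LinearMap.toContinuousLinearMap (Matrix.mulVecLin A)).contDiff.contDiffAt.comp x ha

@[fun_prop] theorem contDiffAt_bf (Ω : M4) {a b : X → V4} (ha : ContDiffAt ℝ ∞ a x)
    (hb : ContDiffAt ℝ ∞ b x) : ContDiffAt ℝ ∞ (fun y => bf Ω (a y) (b y)) x := by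
  have h := contDiffAt_mulVec Ω hb
  simp only [bf, dotProduct]
  exact ContDiffAt.sum fun i _ => (contDiffAt_pi.1 ha i).mul (contDiffAt_pi.1 h i)

end

theorem dc_apply (i : Cx) (v : E6) : dc i v = v i := rfl

theorem lf_apply (a : V4) (v : E6) : lf a v = a ⬝ᵥ xv v := by
  simp [lf, dc, dotProduct, Fin.sum_univ_four]

theorem lf_bf (Ω : M4) (x : V4) (v : E6) : lf (x ᵥ* Ω) v = bf Ω x (xv v) := by
  rw [lf_apply, bf, Matrix.dotProduct_mulVec]

theorem rot1_apply (i : Fin 3) (z v : E6) :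
    rot1 i z v = (z (i, 0) * v (i, 1) - z (i, 1) * v (i, 0)) / (2 * Real.pi) := by
  simp [rot1, dc, div_eq_inv_mul]

theorem ang_apply (g : E6 → ℂ) (z v : E6) :
    ang g z v = (conj (g z) * fderiv ℝ g z v).im / (2 * Real.pi) := by
  simp [ang, div_eq_inv_mul]; ring

theorem pb1_apply (f : E6 → E6) (l : F1) (z v : E6) : pb1 f l z v = l (f z) (fderiv ℝ f z v) := rfl

theorem norm_xv_le (z : E6) : ‖xv z‖ ≤ ‖z‖ := by
  refine (pi_norm_le_iff_of_nonneg (norm_nonneg z)).2 fun i => ?_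
  fin_cases i <;> exact norm_le_pi_norm z _

theorem abs_le_norm4 (x : V4) (i : Fin 4) : |x i| ≤ ‖x‖ := norm_le_pi_norm x i

end Pool.Agent.Work.MP_bf98aa_gt.B3
end

-- merged part: Pool.Agent.Work.MP_bf98aa_gt.B3.G1
section
/-!
Calculus of primitives.

PLAN. `d1_apply`: `extDeriv_one_apply`, `alt1` is a continuous linear map. `pb_d1`: `extDeriv_pb` and `pb f (alt1 ∘ l) = alt1 ∘ pb1 f l`. `d1_fderiv`: symmetry of the second derivative
(`ContDiffAt.isSymmSndFDerivAt`). `symp_of`: `pb_d1`, `d1_congr`, `d1_add`, `d1_fderiv`. `symp_dense`: both sides are continuous at `x` (`ContDiffAt.alt_comp`, `contDiffAt_d1`).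
`ND.pb`: an injective endomorphism of `E6` is onto. `nd_level`: test with `bv (2,1)` (gives `u (2,0) = 0`), then with `v` having `v (2,0) = 0` (gives `xv u = 0`), then with `bv (2,0)`.
`ang_*`: `ang_apply`, `fderiv_mul`, `hasDerivAt_ee`. `ang_log`: `ee_lift`, then `g = ‖g‖ * ee θ` near `x`, `ang_congr`, `ang_mul`, `ang_real`, `ang_ee` at all nearby points.
`inj_pf4`: `Ω * du = pf4 • 1` as in `Fr1`, or eliminate by `linear_combination`.
-/

set_option autoImplicit false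

open scoped Manifold ContDiff Topology Matrix ComplexConjugate
open Set Complex Filter

namespace Pool.Agent.Work.MP_bf98aa_gt.B3

open Pool.Agent.Work.MP_bf98aa_gt.Th Pool.Agent.Work.MP_bf98aa_gt.Cy

variable {l l' : F1} {f : E6 → E6} {x : E6} {g h : E6 → ℂ} {r : E6 → ℝ}

theorem G1_alt (hl : ContDiffAt ℝ ∞ l x) : ContDiffAt ℝ ∞ (fun z => alt1 (l z)) x :=
  contDiff_alt1.contDiffAt.comp x hl

theorem d1_apply (hl : ContDiffAt ℝ ∞ l x) (u v : E6) :
    d1 l x ![u, v] = fderiv ℝ l x u v - fderiv ℝ l x v u := by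
  have hd := hl.differentiableAt (by simp)
  have h1 : ∀ p q, fderiv ℝ (fun z => alt1 (l z)) x p ![q] = fderiv ℝ l x p q := fun p q => by
    have := ((ContinuousAlternatingMap.ofSubsingletonLIE (𝕜 := ℝ) (E := E6) (F := ℝ)
      (0 : Fin 1)).toContinuousLinearEquiv.toContinuousLinearMap.hasFDerivAt.comp x
        hd.hasFDerivAt).fderiv
    exact congrArg (fun A : E6 →L[ℝ] Alt E6 1 => A p ![q]) this
  rw [d1, extDeriv_one_apply (G1_alt hl |>.differentiableAt (by simp)), h1, h1]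

theorem d1_apply' (hl : ContDiffAt ℝ ∞ l x) (u v : E6) :
    d1 l x ![u, v] = fderiv ℝ (fun z => l z v) x u - fderiv ℝ (fun z => l z u) x v := by
  have hd := hl.differentiableAt (by simp)
  rw [d1_apply hl, fderiv_clm_apply hd (differentiableAt_const _),
    fderiv_clm_apply hd (differentiableAt_const _)]
  simp

theorem d1_congr (he : l =ᶠ[𝓝 x] l') : d1 l x = d1 l' x := by
  exact Filter.EventuallyEq.extDeriv_eq (he.fun_comp alt1)

theorem d1_add (hl : ContDiffAt ℝ ∞ l x) (hl' : ContDiffAt ℝ ∞ l' x) :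
    d1 (fun z => l z + l' z) x = d1 l x + d1 l' x := by
  refine alt_ext_two fun u v => ?_
  rw [ContinuousAlternatingMap.add_apply, d1_apply (hl.add hl'), d1_apply hl, d1_apply hl',
    fderiv_fun_add (hl.differentiableAt (by simp)) (hl'.differentiableAt (by simp))]
  simp only [add_apply]
  ring

theorem d1_sub (hl : ContDiffAt ℝ ∞ l x) (hl' : ContDiffAt ℝ ∞ l' x) :
    d1 (fun z => l z - l' z) x = d1 l x - d1 l' x := by
  refine alt_ext_two fun u v => ?_
  rw [ContinuousAlternatingMap.sub_apply, d1_apply (hl.sub hl'), d1_apply hl, d1_apply hl',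
    fderiv_fun_sub (hl.differentiableAt (by simp)) (hl'.differentiableAt (by simp))]
  simp only [sub_apply]
  ring

theorem d1_smul (hr : ContDiffAt ℝ ∞ r x) (hl : ContDiffAt ℝ ∞ l x) :
    d1 (fun z => r z • l z) x = wedge (fderiv ℝ r x) (l x) + r x • d1 l x := by
  refine alt_ext_two fun u v => ?_
  rw [ContinuousAlternatingMap.add_apply, ContinuousAlternatingMap.smul_apply,
    d1_apply (l := fun z => r z • l z) (hr.smul hl), d1_apply hl, wedge_apply,
    fderiv_fun_smul (hr.differentiableAt (by simp)) (hl.differentiableAt (by simp))]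
  simp
  ring

theorem d1_const (a : E6 →L[ℝ] ℝ) : d1 (fun _ => a) x = 0 := by
  exact extDeriv_const _ _

theorem d1_fderiv (hr : ContDiffAt ℝ ∞ r x) : d1 (fderiv ℝ r) x = 0 := by
  refine alt_ext_two fun u v => ?_
  rw [d1_apply (hr.fderiv_right le_rfl)]
  exact sub_eq_zero.2 (D2_symm hr u v)

theorem contDiffAt_d1 (hl : ContDiffAt ℝ ∞ l x) : ContDiffAt ℝ ∞ (d1 l) x := by
  exact (ContinuousAlternatingMap.alternatizeUncurryFinCLM ℝ E6 ℝ).contDiff.contDiffAt.comp x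
    ((G1_alt hl).fderiv_right (m := ∞) le_rfl)

theorem d1_cl {U : Set E6} (hU : IsOpen U) (hl : ∀ z ∈ U, ContDiffAt ℝ ∞ l z) : Cl (d1 l) U := by
  exact IsD.cl (β := fun z => alt1 (l z))
    ⟨fun z hz => (G1_alt (hl z hz)).contDiffWithinAt, fun _ _ => rfl⟩ hU

theorem contDiffAt_pb1 (hf : ContDiffAt ℝ ∞ f x) (hl : ContDiffAt ℝ ∞ l (f x)) :
    ContDiffAt ℝ ∞ (pb1 f l) x := by
  exact (hl.comp x hf).clm_comp (hf.fderiv_right le_rfl)

theorem pb_d1 (hf : ContDiffAt ℝ ∞ f x) (hl : ContDiffAt ℝ ∞ l (f x)) :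
    pb f (d1 l) x = d1 (pb1 f l) x := by
  rw [d1, ← extDeriv_pb ((G1_alt hl).differentiableAt (by simp)) hf]
  rfl

theorem symp_of (hf : ContDiffAt ℝ ∞ f x) (hl' : ContDiffAt ℝ ∞ l' (f x))
    (hl : ContDiffAt ℝ ∞ l x) (hr : ContDiffAt ℝ ∞ r x)
    (he : ∀ᶠ z in 𝓝 x, pb1 f l' z = l z + fderiv ℝ r z) : pb f (d1 l') x = d1 l x := by
  rw [pb_d1 hf hl', d1_congr he, d1_add hl (hr.fderiv_right le_rfl), d1_fderiv hr, add_zero]

theorem symp_of' {c : F1} (hf : ContDiffAt ℝ ∞ f x) (hl' : ContDiffAt ℝ ∞ l' (f x))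
    (hl : ContDiffAt ℝ ∞ l x) (hc : ContDiffAt ℝ ∞ c x) (h0 : d1 c x = 0)
    (he : ∀ᶠ z in 𝓝 x, pb1 f l' z = l z + c z) : pb f (d1 l') x = d1 l x := by
  rw [pb_d1 hf hl', d1_congr he, d1_add hl hc, h0, add_zero]

theorem symp_dense (hf : ContDiffAt ℝ ∞ f x) (hl' : ContDiffAt ℝ ∞ l' (f x))
    (hl : ContDiffAt ℝ ∞ l x) (he : x ∈ closure {z | pb f (d1 l') z = d1 l z}) :
    pb f (d1 l') x = d1 l x := by
  have h1 : ContinuousAt (pb f (d1 l')) x := (ContDiffAt.alt_comp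
    ((contDiffAt_d1 hl').comp x hf) (hf.fderiv_right le_rfl)).continuousAt
  by_contra hne
  obtain ⟨z, h2, h3⟩ := mem_closure_iff_nhds.1 he _
    ((h1.ne_iff_eventually_ne (contDiffAt_d1 hl).continuousAt).1 hne)
  exact h2 h3

theorem ND.inj {w w' : Fm E6 2} (hn : ND (w x)) (he : pb f w' x = w x) :
    Function.Injective (fderiv ℝ f x) := by
  refine (injective_iff_map_eq_zero _).2 fun u hu => hn u fun v => ?_
  rw [← he]
  exact (w' (f x)).map_coord_zero 0 hu

theorem ND.pb {w : Fm E6 2} (hn : ND (w (f x))) (hi : Function.Injective (fderiv ℝ f x)) :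
    ND (pb f w x) := by
  intro u hu
  refine hi ((hn _ fun v => ?_).trans (map_zero _).symm)
  obtain ⟨v, rfl⟩ := LinearMap.surjective_of_injective (f := (fderiv ℝ f x).toLinearMap) hi v
  rw [← hu v]
  exact congrArg (w (f x)) (funext fun i => by fin_cases i <;> rfl)

theorem inj_pf4 {Ω : M4} (hs : Ωᵀ = -Ω) (h0 : pf4 Ω ≠ 0) {a : V4} (ha : ∀ b, bf Ω a b = 0) :
    a = 0 := by
  have s : ∀ i j, Ω j i = -Ω i j := fun i j => congrFun (congrFun hs i) j
  have z : ∀ i, Ω i i = 0 := fun i => by have := s i i; linarith only [this]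
  have e : ∀ j, a 0 * Ω 0 j + a 1 * Ω 1 j + a 2 * Ω 2 j + a 3 * Ω 3 j = 0 := fun j => by
    simpa [bf, dotProduct, Fin.sum_univ_four] using ha (Pi.single j 1)
  have e0 := e 0
  have e1 := e 1
  have e2 := e 2
  have e3 := e 3
  rw [z, s 0 1, s 0 2, s 0 3] at e0
  rw [z, s 1 2, s 1 3] at e1
  rw [z, s 2 3] at e2
  rw [z] at e3
  funext i
  refine (mul_eq_zero_iff_right h0).1 ?_
  unfold pf4
  fin_cases i
  · show a 0 * _ = 0
    linear_combination Ω 2 3 * e1 - Ω 1 3 * e2 + Ω 1 2 * e3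
  · show a 1 * _ = 0
    linear_combination -Ω 2 3 * e0 + Ω 0 3 * e2 - Ω 0 2 * e3
  · show a 2 * _ = 0
    linear_combination Ω 1 3 * e0 - Ω 0 3 * e1 + Ω 0 1 * e3
  · show a 3 * _ = 0
    linear_combination -Ω 1 2 * e0 + Ω 0 2 * e1 - Ω 0 1 * e2

theorem nd_level {w : Alt E6 2} {Ω : M4} (hs : Ωᵀ = -Ω) (h0 : pf4 Ω ≠ 0)
    (h1 : ∀ u, w ![u, bv (2, 1)] = u (2, 0))
    (h2 : ∀ u v : E6, u (2, 0) = 0 → v (2, 0) = 0 → w ![u, v] = bf Ω (xv u) (xv v)) : ND w := by
  intro u hu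
  have a1 : u (2, 0) = 0 := (h1 u).symm.trans (hu _)
  have a2 : xv u = 0 := inj_pf4 hs h0 fun b => by
    rw [← xv_mk4 b 0 0, ← h2 u _ a1 rfl, hu]
  have a3 : u = u (2, 1) • bv (2, 1) := by
    refine ext4 (a2.trans ?_) (a1.trans ?_) ?_
    · funext i; fin_cases i <;> simp [bv]
    · simp [bv]
    · simp [bv]
  have a4 := hu (bv (2, 0))
  obtain ⟨B, hB⟩ := exists_bilin w
  have a5 := h1 (bv (2, 0))
  rw [alt2_swap, hB] at a5
  rw [hB, a3, map_smul, smul_apply, neg_eq_iff_eq_neg.1 a5] at a4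
  rw [a3, show u (2, 1) = 0 by simpa [bv] using a4, zero_smul]

theorem contDiff_rot1 (i : Fin 3) : ContDiff ℝ ∞ (rot1 i) := by
  unfold rot1
  fun_prop

theorem d1_rot1 (i : Fin 3) (u v : E6) :
    d1 (rot1 i) x ![u, v] = (u (i, 0) * v (i, 1) - u (i, 1) * v (i, 0)) / Real.pi := by
  have key : ∀ u v : E6, fderiv ℝ (fun z => rot1 i z v) x u =
      (u (i, 0) * v (i, 1) - u (i, 1) * v (i, 0)) / (2 * Real.pi) := fun u v => by
    have : (fun z => rot1 i z v) =
        ((2 * Real.pi)⁻¹ • (v (i, 1) • dc (i, 0) - v (i, 0) • dc (i, 1)) : E6 →L[ℝ] ℝ) := by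
      funext z
      simp [rot1_apply, dc_apply, div_eq_inv_mul, mul_comm]
    rw [this, ContinuousLinearMap.fderiv]
    simp [dc_apply, div_eq_inv_mul, mul_comm]
  rw [d1_apply' (contDiff_rot1 i).contDiffAt, key, key]
  field_simp
  ring

theorem contDiffAt_ang (hg : ContDiffAt ℝ ∞ g x) : ContDiffAt ℝ ∞ (ang g) x := by
  have h1 : ContDiffAt ℝ ∞ (fun y => (g y).re) x := reCLM.contDiff.contDiffAt.comp x hg
  have h2 : ContDiffAt ℝ ∞ (fun y => (g y).im) x := imCLM.contDiff.contDiffAt.comp x hg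
  have h3 : ContDiffAt ℝ ∞ (fderiv ℝ g) x := hg.fderiv_right (by simp)
  exact ((h1.smul (contDiffAt_const.clm_comp h3)).sub
    (h2.smul (contDiffAt_const.clm_comp h3))).const_smul _

theorem ang_congr (he : g =ᶠ[𝓝 x] h) : ang g x = ang h x := by
  simp only [ang, he.eq_of_nhds, he.fderiv_eq]

theorem G1_fderiv_cc (i : Fin 3) (x v : E6) : fderiv ℝ (cc i) x v = cc i v := by
  have : cc i = (ofRealCLM.comp (dc (i, 0)) + I • ofRealCLM.comp (dc (i, 1)) : E6 →L[ℝ] ℂ) := by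
    funext z
    simp [cc_eq, dc_apply, mul_comm]
  rw [this, ContinuousLinearMap.fderiv]

theorem ang_cc (i : Fin 3) : ang (cc i) x = rot1 i x := by
  ext v : 1
  simp only [ang_apply, rot1_apply, G1_fderiv_cc, mul_im, conj_re, conj_im, cc_re, cc_im]
  ring

theorem G1_pb1_ang (hf : DifferentiableAt ℝ f x) (hg : DifferentiableAt ℝ g (f x)) :
    pb1 f (ang g) x = ang (fun z => g (f z)) x := by
  ext v : 1
  rw [pb1_apply, ang_apply, ang_apply, fderiv_fun_comp x hg hf]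
  rfl

theorem pb1_rot1 (i : Fin 3) (hf : DifferentiableAt ℝ f x) :
    pb1 f (rot1 i) x = ang (fun z => cc i (f z)) x := by
  rw [← G1_pb1_ang hf ((contDiff_cc i).differentiable (by simp) _), pb1, pb1, ang_cc]

theorem pb1_ang (hf : DifferentiableAt ℝ f x) (hg : DifferentiableAt ℝ g (f x)) :
    pb1 f (ang g) x = ang (fun z => g (f z)) x := by
  exact G1_pb1_ang hf hg

theorem ang_mul (hg : DifferentiableAt ℝ g x) (hh : DifferentiableAt ℝ h x) :
    ang (fun z => g z * h z) x = normSq (h x) • ang g x + normSq (g x) • ang h x := by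
  ext v : 1
  simp only [ang_apply, fderiv_fun_mul hg hh, add_apply, smul_apply, smul_eq_mul, normSq_apply,
    mul_im, mul_re, add_re, add_im, conj_re, conj_im]
  ring

theorem ang_real (hr : DifferentiableAt ℝ r x) : ang (fun z => (r z : ℂ)) x = 0 := by
  ext v : 1
  have : HasFDerivAt (fun z => (r z : ℂ)) (ofRealCLM.comp (fderiv ℝ r x)) x :=
    ofRealCLM.hasFDerivAt.comp x hr.hasFDerivAt
  simp [ang_apply, this.fderiv]

theorem ang_const (c : ℂ) : ang (fun _ => c) x = 0 := by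
  ext v : 1
  simp [ang_apply]

theorem ang_ee (hr : DifferentiableAt ℝ r x) : ang (fun z => ee (r z)) x = fderiv ℝ r x := by
  ext v : 1
  have h1 : HasFDerivAt (fun z => ee (r z)) _ x :=
    (hasDerivAt_ee (r x)).hasFDerivAt.comp x hr.hasFDerivAt
  have h2 := normSq_ee (r x)
  rw [normSq_apply] at h2
  rw [ang_apply, h1.fderiv, div_eq_iff (by positivity)]
  simp
  linear_combination (2 * Real.pi * fderiv ℝ r x v) * h2

theorem ang_conj (hg : DifferentiableAt ℝ g x) : ang (fun z => conj (g z)) x = -ang g x := by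
  ext v : 1
  have : HasFDerivAt (fun z => conj (g z)) (conjCLE.toContinuousLinearMap.comp (fderiv ℝ g x)) x :=
    conjCLE.toContinuousLinearMap.hasFDerivAt.comp x hg.hasFDerivAt
  simp [ang_apply, this.fderiv]
  ring

theorem ang_neg : ang (fun z => -g z) x = ang g x := by
  ext v : 1
  simp [ang_apply]

theorem ang_polar {θ : E6 → ℝ} (hg : DifferentiableAt ℝ g x) (hr : DifferentiableAt ℝ r x)
    (hθ : DifferentiableAt ℝ θ x) : ang (fun z => g z * r z * ee (θ z)) x =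
      r x ^ 2 • ang g x + (normSq (g x) * r x ^ 2) • fderiv ℝ θ x := by
  have h1 : DifferentiableAt ℝ (fun z => (r z : ℂ)) x := ofRealCLM.differentiableAt.comp x hr
  have h2 : DifferentiableAt ℝ (fun z => ee (θ z)) x :=
    (hasDerivAt_ee _).differentiableAt.comp x hθ
  rw [ang_mul (hg.fun_mul h1) h2, ang_mul hg h1, ang_real hr, ang_ee hθ, normSq_ee, map_mul,
    normSq_ofReal, one_smul, smul_zero, add_zero, sq]

theorem ang_log (hg : ContDiffAt ℝ ∞ g x) (h0 : g x ≠ 0) {t₀ : ℝ} (ht : g x = ‖g x‖ * ee t₀) :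
    ∃ θ : E6 → ℝ, ContDiffAt ℝ ∞ θ x ∧ θ x = t₀ ∧
      ∀ᶠ z in 𝓝 x, g z = ‖g z‖ * ee (θ z) ∧ ang g z = normSq (g z) • fderiv ℝ θ z := by
  obtain ⟨θ, h1, h2, h3⟩ := ee_lift hg h0 ht
  refine ⟨θ, h1, h2, ?_⟩
  have h4 : ContDiffAt ℝ 1 (fun z => ‖g z‖) x := (hg.of_le (by simp)).norm ℝ h0
  filter_upwards [h3, h3.eventually_nhds, h4.eventually (by simp),
    (h1.of_le (show (1 : WithTop ℕ∞) ≤ ∞ by simp)).eventually (by simp)] with z a b c d
  refine ⟨a, ?_⟩
  have := ang_polar (g := fun _ => 1) (differentiableAt_const _) (c.differentiableAt one_ne_zero)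
    (d.differentiableAt one_ne_zero)
  simp only [one_mul, ang_const, smul_zero, zero_add, map_one] at this
  rw [ang_congr b, this, normSq_eq_norm_sq]

theorem d1_dlog (hg : ContDiffAt ℝ ∞ g x) (h0 : g x ≠ 0) :
    d1 (fun z => (normSq (g z))⁻¹ • ang g z) x = 0 := by
  obtain ⟨t, ht⟩ := exists_ee (g x)
  obtain ⟨θ, h1, -, h2⟩ := ang_log hg h0 ht
  rw [← d1_fderiv h1]
  refine d1_congr ?_
  filter_upwards [h2, hg.continuousAt.eventually_ne h0] with z a b
  rw [a.2, smul_smul, inv_mul_cancel₀ (by simpa using b), one_smul]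

end Pool.Agent.Work.MP_bf98aa_gt.B3
end
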