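import Pool.Agent.Work.MP_bf98aa_gt.B3.Ke
import Pool.Agent.Work.MP_bf98aa_gt.Cy.G6
import Pool.Agent.Work.MP_bf98aa_gt.Cy.G4
import Pool.Agent.Work.MP_bf98aa_gt.B3.G1

-- merged part: Pool.Agent.Work.MP_bf98aa_gt.B3.HDefs
section
/-!
Definitions for the cohomology layer: families of forms on an atlas with fixed points, forms on slabs,
replacement of the singular set.
-/

set_option autoImplicit false

open scoped Manifold ContDiff Topology Matrix ComplexConjugate
open Set Complex Filter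

namespace Pool.Agent.Work.MP_bf98aa_gt.B3

open Pool.Agent.Work.MP_bf98aa_gt.Th Pool.Agent.Work.MP_bf98aa_gt.Cy

noncomputable section

section
variable {ι κ J : Type} {k : ℕ}

/-- A smooth local section of the relation. -/
def Sec (A : Atl ι) (i : ι) (x : E6) (j : ι) (f : E6 → E6) : Prop :=
  ContDiffAt ℝ ∞ f x ∧ ∀ᶠ z in 𝓝 x, A.R i z j (f z)

/-- The relation is trivial near `x`. -/
def FreeAt (A : Atl ι) (i : ι) (x : E6) : Prop :=
  ∀ᶠ p : E6 × E6 in 𝓝 (x, x), A.R i p.1 i p.2 → p.1 = p.2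

/-- An etale equivalence relation with a dense set of free points. -/
structure Orb (A : Atl ι) : Prop where
  opn : ∀ i, IsOpen (A.W i)
  mem : ∀ {i x j y}, A.R i x j y → x ∈ A.W i ∧ y ∈ A.W j
  refl : ∀ {i x}, x ∈ A.W i → A.R i x i x
  symm : ∀ {i x j y}, A.R i x j y → A.R j y i x
  trans : ∀ {i x j y l z}, A.R i x j y → A.R j y l z → A.R i x l z
  loc : ∀ {i x j y}, A.R i x j y → ∃ f, Ar (fun z w => A.R i z j w) x y f
  den : ∀ i, A.W i ⊆ closure {x | x ∈ A.W i ∧ FreeAt A i x}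

/-- Invariant under all local sections. -/
def InvR (A : Atl ι) (α : ι → Fm E6 k) : Prop :=
  ∀ i x j f, Sec A i x j f → pb f (α j) x = α i x

/-- A smooth invariant family. -/
def SmF (A : Atl ι) (α : ι → Fm E6 k) : Prop := (∀ i, Sm (α i) (A.W i)) ∧ InvR A α

/-- A closed invariant family. -/
def ClF (A : Atl ι) (α : ι → Fm E6 k) : Prop := (∀ i, Cl (α i) (A.W i)) ∧ InvR A α

/-- An invariant primitive. -/
def IsDF (A : Atl ι) (β : ι → Fm E6 k) (α : ι → Fm E6 (k + 1)) : Prop :=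
  (∀ i, IsD (β i) (α i) (A.W i)) ∧ InvR A β

/-- An exact family. -/
def ExF (A : Atl ι) (α : ι → Fm E6 (k + 1)) : Prop := ∃ β, IsDF A β α

/-- The exterior derivative of a family. -/
def dF (β : ι → Fm E6 k) : ι → Fm E6 (k + 1) := fun i => extDeriv (β i)

/-- The saturation. -/
def sat (A : Atl ι) (V : ι → Set E6) (i : ι) : Set E6 := {x | ∃ j, ∃ y ∈ V j, A.R i x j y}

/-- The atlas `B` describes the part of `A` that is reached by `S`. -/
structure Ind (A : Atl ι) (B : Atl κ) (S : ι → E6 → κ → E6 → Prop) : Prop where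
  orb : Orb A
  opn : ∀ b, IsOpen (B.W b)
  mem : ∀ {i x b y}, S i x b y → x ∈ A.W i ∧ y ∈ B.W b
  loc : ∀ {i x b y}, S i x b y → ∃ f, Ar (fun z w => S i z b w) x y f
  sur : ∀ b, ∀ y ∈ B.W b, ∃ i x, S i x b y
  bmem : ∀ {b y b' y'}, B.R b y b' y' → y ∈ B.W b ∧ y' ∈ B.W b'
  iff : ∀ {i x b y i' x' b' y'}, S i x b y → S i' x' b' y' → (A.R i x i' x' ↔ B.R b y b' y')

/-- The part of `A` that is reached by `S`. -/
def nb (A : Atl ι) (S : ι → E6 → κ → E6 → Prop) (i : ι) : Set E6 :=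
  {x | ∃ i' x' b y, A.R i x i' x' ∧ S i' x' b y}

/-- The families `c` and `e` correspond under `S`. -/
def Mat (S : ι → E6 → κ → E6 → Prop) (c : ι → Fm E6 k) (e : κ → Fm E6 k) : Prop :=
  ∀ i x b f, ContDiffAt ℝ ∞ f x → (∀ᶠ z in 𝓝 x, S i z b (f z)) → pb f (e b) x = c i x

/-- The manifold `M` is obtained from the orbifold `A` by replacing the parts `N' j` with `N j`. -/
structure Rep {M : Type} [TopologicalSpace M] [ChartedSpace E6 M] (A : Atl ι) (V : ι → Set E6)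
    (ψ : ι → E6 → M) (N : J → Set M) (N' : J → ι → Set E6) : Prop where
  orb : Orb A
  sub : ∀ i, V i ⊆ A.W i
  par : ∀ i, Par (ψ i) (V i)
  iff : ∀ i j, ∀ x ∈ V i, ∀ y ∈ V j, ψ i x = ψ j y ↔ A.R i x j y
  opn : ∀ j, IsOpen (N j)
  dis : Pairwise fun j j' => Disjoint (N j) (N j')
  cov : ∀ m, (∃ i, m ∈ ψ i '' V i) ∨ ∃ j, m ∈ N j
  opn' : ∀ j i, IsOpen (N' j i)
  sub' : ∀ j i, N' j i ⊆ A.W i
  sat' : ∀ j i x i' y, x ∈ N' j i → A.R i x i' y → y ∈ N' j i'
  dis' : ∀ i j j', ∀ x ∈ N' j i, x ∈ N' j' i → j = j'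
  pre : ∀ j i, ∀ x ∈ V i, ψ i x ∈ N j ↔ x ∈ N' j i
  hole : ∀ i, ∀ x ∈ A.W i, x ∈ sat A V i ∨ ∃ j, x ∈ N' j i ∧ ∀ U : Set M, IsOpen U →
    (⋃ i, ψ i '' V i)ᶜ ⊆ U → ∀ᶠ z in 𝓝 x, ∀ i', ∀ y ∈ V i', A.R i z i' y → ψ i' y ∈ U

/-- The wedge product with a linear form. -/
def wedge1 (a : E6 →L[ℝ] ℝ) (w : Alt E6 k) : Alt E6 (k + 1) :=
  ContinuousAlternatingMap.alternatizeUncurryFin (a.smulRight w)

/-- The contraction with the circle direction. -/
def ins (α : Fm E6 (k + 1)) : Fm E6 k := fun z => (α z).curryLeft (bv (2, 1))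

/-- A function as a form of degree zero. -/
def fn0 (g : E6 → ℝ) : Fm E6 0 := fun z => G4_c E6 (g z)

/-- The differential of a function. -/
def dfn (g : E6 → ℝ) : Fm E6 1 := fun z => alt1 (fderiv ℝ g z)

/-- The constant form only depends on the coordinates `S`. -/
def Hor (S : Finset Cx) (c : Alt E6 k) : Prop := c.compContinuousLinearMap (G6_L S) = c

/-- Translations by integers in the directions `S`. -/
def TZ (S : Finset Cx) : Set (E6 → E6) :=
  {f | ∃ n : Cx → ℤ, f = fun z => z + ∑ i ∈ S, (n i : ℝ) • bv i}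

/-- An open set that retracts to the affine slice through `z₀`. -/
structure Dom (S : Finset Cx) (U : Set E6) (z₀ : E6) : Prop where
  opn : IsOpen U
  mem : z₀ ∈ U
  seg : Seg U (slice S z₀)
  inv : ∀ i ∈ S, ∀ z ∈ U, ∀ t : ℝ, z + t • bv i ∈ U

/-- Integral of a 1-form over a segment. -/
def per1 (α : Fm E6 1) (z a : E6) : ℝ := ∫ t in (0 : ℝ)..1, α (z + t • a) ![a]

/-- Integral of a 2-form over a parametrised torus. -/
def tor {M : Type} [TopologicalSpace M] [ChartedSpace E6 M] (c : ℝ × ℝ → M) (w : Fo M 2) : ℝ :=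
  ∫ s in (0 : ℝ)..1, cyl c w s

/-- Forget the angle. -/
def PP (z : E6) : E6 := mk4 (xv z) (z (2, 0)) 0

/-- A lattice vector. -/
def lv (l : L4) : E6 := mk4 (rv l) 0 0

/-- A linear map of the first four coordinates, times `σ` on the level. -/
def ML (A : M4) (σ : ℝ) : E6 →L[ℝ] E6 :=
  LinearMap.toContinuousLinearMap
    { toFun := fun z => mk4 (A *ᵥ xv z) (σ * z (2, 0)) (z (2, 1))
      map_add' := fun a b => by
        have e : xv (a + b) = xv a + xv b := by funext i; fin_cases i <;> rfl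
        apply ext6 <;> simp [e, Matrix.mulVec_add, mul_add]
      map_smul' := fun t a => by
        have e : xv (t • a) = t • xv a := by funext i; fin_cases i <;> rfl
        apply ext6 <;> simp [e, Matrix.mulVec_smul, mul_left_comm] }

/-- The four torus directions. -/
def SX : Finset Cx := {(0, 0), (0, 1), (1, 0), (1, 1)}

/-- The directions of the kink torus. -/
def SC : Finset Cx := {(0, 0), (0, 1)}

/-- The directions of the kink torus on the chart `f`. -/
def SY : Finset Cx := {(1, 0), (1, 1)}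

/-- The constant form of a skew matrix. -/
def xf (Ω : M4) : Alt E6 2 :=
  ∑ i : Fin 4, ∑ j : Fin 4, (Ω i j / 2) • wedge (lf (Pi.single i 1)) (lf (Pi.single j 1))

/-- Periodic, even and basic. -/
structure Sy (S : Finset Cx) (U : Set E6) (β : Fm E6 k) : Prop where
  per : ∀ i ∈ S, ∀ z ∈ U, β (z + bv i) = β z
  evn : ∀ z ∈ U, pb io β z = β z
  bas : ∀ z ∈ U, pb PP β z = β z

/-- A symmetric convex domain. -/
structure DomE (S : Finset Cx) (U : Set E6) (μ₀ : ℝ) : Prop where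
  opn : IsOpen U
  cvx : Convex ℝ U
  mem : mk4 0 μ₀ 0 ∈ U
  sub : S ⊆ SX
  inv : ∀ i ∈ S, ∀ z ∈ U, ∀ t : ℝ, z + t • bv i ∈ U
  io : MapsTo io U U
  ang : ∀ z ∈ U, ∀ t : ℝ, z + t • bv (2, 1) ∈ U

/-- Odd, equal to `1` for `1 / 16 ≤ t`. -/
def og (t : ℝ) : ℝ := Real.smoothTransition (16 * t) - Real.smoothTransition (-16 * t)

/-- The slab around the fold. -/
def QF : Set E6 := Slab (-1 / 8) (1 / 8)

/-- The form `dy₀ dy₁` on the chart `f`. -/
def dyy : Alt E6 2 := wedge (dc (1, 0)) (dc (1, 1))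

/-- The average over the circle. -/
def avgF (α : Bool × K3 → Fm E6 k) : Bool × K3 → Fm E6 k :=
  fun i z => ∫ s in (0 : ℝ)..1, pb (act s i.2) (α i) z

/-- An equivariant section with sign `σ` on an invariant open set. -/
structure Eqv (A : Atl (Bool × K3)) (i j : Bool × K3) (f : E6 → E6) (σ : ℝ) (N : Set E6) :
    Prop where
  sg : σ = 1 ∨ σ = -1
  opn : IsOpen N
  sm : ContDiffOn ℝ ∞ f N
  rel : ∀ z ∈ N, A.R i z j (f z)
  inv : ∀ z ∈ N, ∀ s, act s i.2 z ∈ N
  eqv : ∀ z ∈ N, ∀ s, f (act s i.2 z) = act (σ * s) j.2 (f z)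

end

namespace HD

variable (d : HD) {k : ℕ}

/-- The fold on the base. -/
def kb (z : E6) : E6 := ML (rm d.T) (-1) z + mk4 ((1 / 2 : ℝ) • rv d.c) 0 0

/-- The slab of a half. -/
def Q : Set E6 := Slab (-1 / 8) (d.M + 1 / 8)

/-- The middle slab. -/
def Mid : Set E6 := Slab (d.M - 1 / 8) (d.M + 1 / 8)

/-- A tube around the kink torus. -/
def Tube (ε : ℝ) : Set E6 := {z | |z (1, 0)| < ε ∧ |z (1, 1)| < ε ∧ |d.tt z| < ε}

/-- The projection to the kink torus. -/
def Ym (z : E6) : E6 := mkc 0 (d.yc z) 0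

/-- A constant form on the kink torus, pulled back. -/
def yF (c : Alt E6 k) : Fm E6 k := pb d.Ym fun _ => c

/-- The flat connections. -/
def th : K3 → F1
  | .p, z => dc (2, 1) + (1 / 2 : ℝ) • lf (xv z ᵥ* rm (d.v - E23))
  | _, z => dc (2, 1) + (1 / 2 : ℝ) • lf (xv z ᵥ* rm d.v)

/-- The maps to the chart `f`. -/
def of : K3 → E6 → E6
  | .p => d.opf
  | _ => d.omf

/-- Invariance under the fold, up to the sign `ε`. -/
def Fold (ε : ℝ) (β : Fm E6 k) : Prop := ∀ z ∈ QF, pb d.kb β z = ε • β z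

/-- The form `θ ∧ d g`, supported near the fold. -/
def xi : Fm E6 2 := fun z => wedge (d.th .m z) (fderiv ℝ (fun y : E6 => og (y (2, 0))) z)

/-- The basic form `(g - 1) v`. -/
def gv : Fm E6 2 := fun z => (og (z (2, 0)) - 1) • xf (rm d.v)

/-- The star-shaped region upstairs. -/
def Yo : Set E6 := {z | z ∈ d.Fo ∧ (tF z < 15 / 16 ∨ rF z - 2 * tF z < 6)}

end HD

/-- `1` for `t ≤ -1`, `0` for `-1 / 2 ≤ t`. -/
def stp (t : ℝ) : ℝ := Real.smoothTransition (-2 * t - 1)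

/-- `0` for `m ≤ -1 / 32`, `1` for `1 / 32 ≤ m`. -/
def stm (m : ℝ) : ℝ := Real.smoothTransition (16 * m + 1 / 2)

/-- The form `χ(t) dθ` in the coordinates `u = cc 0`, `t = z (2,0)`. -/
def Z0 : F1 := fun z => (stp (z (2, 0)) / normSq (cc 0 z)) • rot1 0 z

/-- The coordinates `(u, t)` on `F` and `V`. -/
def utF (z : E6) : E6 := mkc (cc 0 z) 0 ⟨tF z, 0⟩

/-- The second class upstairs. -/
def zeY : Bool → Fm E6 2 := fun b => cond b (pb utF (d1 Z0)) 0

/-- The class of degree one upstairs. -/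
def dmY : Bool → Fm E6 1 := fun b => dfn fun z => stm (cond b (tF z - 1) (1 - tF z))

/-- The untwisted neighbourhood of a fixed torus. -/
def atlU : Atl Unit where
  W _ := {z | kr z < 1 / 64}
  R _ x _ y := kr x < 1 / 64 ∧ kr y < 1 / 64 ∧ RU x y

/-- Polar coordinates in the first complex coordinate. -/
def pol (z : E6) : E6 := mkc ((z (0, 0) : ℝ) * ee (z (0, 1))) (cc 1 z) (cc 2 z)

/-- A part of the Hopf charts. -/
def WTI (a b : ℝ) : Set E6 := {z | z ∈ WT ∧ a < z (2, 0) ∧ z (2, 0) < b}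

namespace GD

variable (D : GD) {k : ℕ}

/-- The gluing map on the base. -/
def gb (b : Bool) (z : E6) : E6 :=
  ML (rm (D.G b)) (-1) z + mk4 0 ((D.H b).M + (D.H (!b)).M) 0

/-- A pair of forms on the slabs, compatible up to the sign `ε`. -/
structure Pr (ε : ℝ) (β : Bool → Fm E6 k) : Prop where
  sm : ∀ b, Sm (β b) (D.H b).Q
  sy : ∀ b, Sy SX (D.H b).Q (β b)
  mid : ∀ b, ∀ z ∈ (D.H b).Mid, pb (D.gb b) (β (!b)) z = ε • β b z

/-- The charts `m` and `p`. -/
def Vmp (i : Bool × K3) : Set E6 := {z | i.2 ≠ .f ∧ z ∈ (D.H i.1).Wo i.2}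

/-- The shape of a section between the charts `m` and `p`. -/
structure Shp (i j : Bool × K3) (f : E6 → E6) (σ : ℝ) (N : Set E6) : Prop where
  eqv : Eqv D.atlO i j f σ N
  base : ∃ (l : L4) (e : Bool),
    (σ = 1 ∧ j.1 = i.1 ∧ ∀ z ∈ N, PP (f z) = PP (cond e (io z) z + lv l)) ∨
    (σ = -1 ∧ j.1 = i.1 ∧ N ⊆ QF ∧
      ∀ z ∈ N, PP (f z) = PP ((D.H i.1).kb (cond e (io z) z) + lv l)) ∨
    (σ = -1 ∧ j.1 = !i.1 ∧ N ⊆ (D.H i.1).Mid ∧
      ∀ z ∈ N, PP (f z) = PP (D.gb i.1 (cond e (io z) z) + lv l))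
  th : i.2 = j.2 → ∀ z ∈ N, pb1 f ((D.H j.1).th j.2) z = σ • (D.H i.1).th i.2 z

/-- Invariance under equivariant sections between `m` and `p`, up to a sign. -/
def Tw (ε : ℝ) (β : Bool × K3 → Fm E6 k) : Prop :=
  ∀ i j f σ N, i.2 ≠ .f → j.2 ≠ .f → Eqv D.atlO i j f σ N →
    ∀ z ∈ N, pb f (β j) z = (if σ = 1 then 1 else ε) • β i z

/-- The family is constant near the kink tori. -/
def NearC (ε : ℝ) (c : Bool → Alt E6 k) (β : Bool × K3 → Fm E6 k) : Prop :=
  ∀ i, ∀ z ∈ D.Vmp i, z ∈ (D.H i.1).Tube ε → β i z = (D.H i.1).yF (c i.1) z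

/-- Invariant under the circle on `m` and `p`. -/
def AInv (β : Bool × K3 → Fm E6 k) : Prop :=
  ∀ i, ∀ z ∈ D.Vmp i, ∀ s : ℝ, β i (z + s • bv (2, 1)) = β i z

/-- The family of the forms `xi`. -/
def xiF (s : Bool → ℝ) : Bool × K3 → Fm E6 2 :=
  fun i => if i.2 = .m then s i.1 • (D.H i.1).xi else 0

/-- The neighbourhood of the singular sphere `j`, upstairs. -/
def atlY (j : J4) : Atl Bool where
  W b := (D.H b).Yo
  R b x b' y := x ∈ (D.H b).Yo ∧ y ∈ (D.H b').Yo ∧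
    ((b' = b ∧ Sgn x y) ∨ (b' = !b ∧ (D.LoR j b x y ∨ UpR (D.thU j) x y)))

/-- From the neck to `atlY`. -/
def SYo (j : J4) (i : Bool × K3) (x : E6) (b : Bool) (y : E6) : Prop :=
  ∃ l, i = (b, sP l) ∧ x ∈ (D.H b).Do j l ∧ y ∈ (D.H b).Yo ∧ Sgn ((D.H b).Ph j l x) y

/-- From the neck to `atlU`. -/
def SU (p : Bool × J4) (i : Bool × K3) (x : E6) (_ : Unit) (y : E6) : Prop :=
  i = (p.1, .m) ∧ x ∈ (D.H p.1).Ko p.2 ∧ y = (D.H p.1).kU p.2 x

/-- The replaced parts of the neck. -/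
def NO : Bool × J4 ⊕ J4 → Bool × K3 → Set E6 :=
  Sum.elim (fun p => nb D.atlO (D.SU p)) fun j => nb D.atlO (D.SYo j)

/-- The gluing map of the long charts. -/
def gL (j : J4) : E6 → E6 := flp (-(D.H true).M - (D.H false).M) (D.thL j)

/-- The domain of the long chart. -/
def WL : Set E6 := {z | 0 < r1 z ∧ (D.H true).tt z < r1 z ∧ (D.H true).tt z < 15 / 16 ∧
  D.sL - (D.H true).tt z < r1 z ∧ D.sL - (D.H true).tt z < 15 / 16 ∧ 2 * normSq (cc 1 z) + 1 < 8}

/-- The domain of the polar chart of the overlap of the two charts `V`; `z (0,0)` is the level. -/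
def WVV : Set E6 := {z | |z (0, 0) + (D.H true).M| < 1 / 8 ∧ normSq (cc 2 z) < 15 / 16 ∧
  2 * normSq (cc 1 z) + 1 < 8}

/-- The polar chart of the overlap of the two charts `V`. -/
def pVV (z : E6) : E6 :=
  mkc ((√(normSq (cc 2 z) + (D.H true).μ₁ - z (0, 0)) : ℝ) * ee (z (0, 1))) (cc 1 z) (cc 2 z)

/-- The domain of the polar chart of the overlap of `V` and `L`; `z (0,0)` is `|w|²`. -/
def WVL : Set E6 := {z | 0 < z (0, 0) ∧ (D.H true).tt z < z (0, 0) ∧
  D.sL - (D.H true).tt z < z (0, 0) ∧ z (0, 0) < 15 / 16 ∧ 2 * normSq (cc 1 z) + 1 < 8}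

end GD

/-- The polar chart of the overlap of `V` and `L`. -/
def pVL (z : E6) : E6 :=
  mkc ((√(2 * normSq (cc 1 z) + 1 - z (0, 0)) : ℝ) * ee (z (0, 1))) (cc 1 z) (cc 2 z)

namespace Ch

variable {M : Type} (q : Ch M) (D : GD)

/-- The long chart. -/
def LL (j : J4) (z : E6) : M :=
  if -(D.H true).M < z (2, 0) then q.X j true .L z else q.X j false .L (D.gL j z)

/-- The image of a chart `V`. -/
def OV (j : J4) (b : Bool) : Set M := q.X j b .V '' (D.H b).WX .V

/-- The image of the long chart. -/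
def OL (j : J4) : Set M := q.LL D j '' D.WL

/-- The image of a part of a Hopf chart. -/
def OT (j : J4) (a b : ℝ) (i : Bool) : Set M := q.T j i '' WTI a b

/-- The neighbourhood of the exceptional divisor without the node. -/
def OP (j : J4) : Set M := (q.OV D j true ∪ q.OV D j false) ∪ q.OL D j

/-- The neighbourhood of a resolved sphere. -/
def NW (j : J4) : Set M :=
  q.OP D j ∪ (q.OT j (-1 / 8) (1 / 8) true ∪ q.OT j (-1 / 8) (1 / 8) false)

/-- The new parts of the manifold. -/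
def NM : Bool × J4 ⊕ J4 → Set M := Sum.elim (fun p => q.K p.1 p.2 '' WK) (q.NW D)

/-- The part of the neck that is kept. -/
def VN (i : Bool × K3) : Set E6 := {z | z ∈ (D.H i.1).Wn i.2 ∧
  ∀ b k y, ‖cc 1 y‖ ≤ 1 / 128 → q.N i.1 i.2 z ≠ q.K b k y}

end Ch

end

end Pool.Agent.Work.MP_bf98aa_gt.B3
end

-- merged part: Pool.Agent.Work.MP_bf98aa_gt.B3.HM1
section
-- merged part: Pool.Agent.Work.MP_bf98aa_gt.B3.HT
section
/-!
Closed forms on tori times convex sets.
PLAN. `torusK`: copy `Deck.retr`/`torus` of Cy/G5, G6 and `G6a_step`, `avg` of Cy/G6a in degree `k + 1` (flat version): the homotopy operator for the straight homotopy to `π = slice S z₀`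
is periodic (`hK_nat` with translations); `pb π α` is closed and periodic on `univ`; average it over the directions of `S`; pull back by `π` once more: an `S`-translation invariant form pulled back
by `π` is constant and horizontal. `cst_zero`: pull back by `π`, average the primitive over all directions of `S` (`extDeriv_integral`; the average of a primitive of a constant form is again a
primitive), pull back by `π`: a constant form, whose derivative is zero. `torusE`: `io` and `PP` are linear (`io = ML (-1) 1`, `PP`), commute with each other and normalise the translations;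
`c ∘ io - c` is exact with periodic primitive, so zero, and `io` acts as `-1` on the directions of `S ⊆ SX`; replace `β` by `pb PP ((β + pb io β) / 2)`.
-/

set_option autoImplicit false

open scoped Manifold ContDiff Topology Matrix ComplexConjugate
open Set Complex Filter

namespace Pool.Agent.Work.MP_bf98aa_gt.B3

open Pool.Agent.Work.MP_bf98aa_gt.Th Pool.Agent.Work.MP_bf98aa_gt.Cy

variable {k : ℕ} {S : Finset Cx} {U : Set E6} {z₀ : E6}

theorem sum_mem_of_inv (hi : ∀ i ∈ S, ∀ z ∈ U, ∀ t : ℝ, z + t • bv i ∈ U) (a : Cx → ℝ) {z : E6}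
    (hz : z ∈ U) : z + ∑ i ∈ S, a i • bv i ∈ U := by
  induction S using Finset.induction_on with
  | empty => simpa using hz
  | insert j s hj ih =>
    rw [Finset.sum_insert hj, add_comm (a j • bv j), ← add_assoc]
    exact hi j (Finset.mem_insert_self _ _) _ (ih fun i h => hi i (Finset.mem_insert_of_mem h)) _

theorem HT_slice (S : Finset Cx) (z₀ x : E6) :
    slice S z₀ x = z₀ + ∑ i ∈ S, (x i - z₀ i) • bv i := by
  funext j
  rw [Pi.add_apply, G6_sum]
  by_cases hj : j ∈ S <;> simp [slice, hj]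

theorem Dom.slice_mem (h : Dom S U z₀) (z : E6) : slice S z₀ z ∈ U := by
  rw [HT_slice]
  exact sum_mem_of_inv h.inv _ h.mem

theorem Dom.of_convex (ho : IsOpen U) (hc : Convex ℝ U) (hz : z₀ ∈ U)
    (hi : ∀ i ∈ S, ∀ z ∈ U, ∀ t : ℝ, z + t • bv i ∈ U) : Dom S U z₀ := by
  refine ⟨ho, hz, fun x hx t ht => hc.add_smul_sub_mem hx ?_ ht, hi⟩
  rw [HT_slice]
  exact sum_mem_of_inv hi _ hz

theorem Dom.preconn (h : Dom S U z₀) : IsPreconnected U := by
  refine isPreconnected_of_forall z₀ fun y hy => ⟨(fun t : ℝ => y + t • (slice S z₀ y - y)) ''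
    Icc 0 1 ∪ range (slice S z₀), ?_, Or.inr ⟨z₀, G6_self S z₀⟩,
    Or.inl ⟨0, ⟨le_rfl, zero_le_one⟩, by simp⟩, IsPreconnected.union (slice S z₀ y)
      ⟨1, ⟨zero_le_one, le_rfl⟩, by simp⟩ ⟨y, rfl⟩
      (isPreconnected_Icc.image _ (by fun_prop)) (isPreconnected_range (G6_sm S z₀).continuous)⟩
  rintro _ (⟨t, ht, rfl⟩ | ⟨z, rfl⟩)
  · exact h.seg y hy t ht
  · exact h.slice_mem z

theorem per_int {X : Type} {g : E6 → X} (hi : ∀ i ∈ S, ∀ z ∈ U, ∀ t : ℝ, z + t • bv i ∈ U)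
    (h : ∀ i ∈ S, ∀ z ∈ U, g (z + bv i) = g z) (n : Cx → ℤ) {z : E6} (hz : z ∈ U) :
    g (z + ∑ i ∈ S, (n i : ℝ) • bv i) = g z := by
  have key : ∀ i ∈ S, ∀ z ∈ U, ∀ m : ℤ, g (z + (m : ℝ) • bv i) = g z := by
    intro i hS z hz m
    have e : ∀ t : ℝ, g (z + (t + 1) • bv i) = g (z + t • bv i) := fun t => by
      rw [add_smul, one_smul, ← add_assoc, h i hS _ (hi i hS z hz t)]
    induction m using Int.induction_on with
    | zero => simp
    | succ m ih => rw [← ih, Int.cast_add, Int.cast_one, e]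
    | pred m ih => rw [← ih, ← e, Int.cast_sub, Int.cast_one, sub_add_cancel]
  induction S using Finset.induction_on with
  | empty => simp
  | insert j s hj ih =>
    have hi' := fun i h => hi i (Finset.mem_insert_of_mem h)
    rw [Finset.sum_insert hj, add_comm (_ • bv j), ← add_assoc,
      key j (Finset.mem_insert_self _ _) _ (sum_mem_of_inv hi' _ hz)]
    exact ih hi' (fun i h' => h i (Finset.mem_insert_of_mem h'))
      fun i h' => key i (Finset.mem_insert_of_mem h')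

theorem HT_add (z₀ z : E6) {i : Cx} (hi : i ∈ S) :
    slice S z₀ (z + bv i) = slice S z₀ z + bv i := by
  simpa using G6_add S z₀ z hi 1

theorem HT_pb (γ : Fm E6 k) (x : E6) :
    pb (slice S z₀) γ x = (γ (slice S z₀ x)).compContinuousLinearMap (G6_L S) := by
  rw [pb, (G6_fd S z₀ x).fderiv]

theorem HT_hor (c : Alt E6 k) : Hor S (c.compContinuousLinearMap (G6_L S)) := by
  ext v
  simp only [ContinuousAlternatingMap.compContinuousLinearMap_apply, Function.comp_def,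
    G6_L_apply, G6_idem]

theorem HT_retr (h : Dom S U z₀) {α : Fm E6 (k + 1)} (hα : Cl α U)
    (hp : ∀ i ∈ S, ∀ z ∈ U, α (z + bv i) = α z) :
    ∃ β : Fm E6 k, IsD β (fun x => α x - pb (slice S z₀) α x) U ∧
      ∀ i ∈ S, ∀ z ∈ U, β (z + bv i) = β z := by
  have hU := h.opn
  have hH : ContDiff ℝ ∞ fun p : ℝ × E6 => p.2 + p.1 • (slice S z₀ p.2 - p.2) :=
    contDiff_snd.add (contDiff_fst.smul (((G6_sm S z₀).comp contDiff_snd).sub contDiff_snd))
  have hO : IsOpen {p : ℝ × E6 | p.2 ∈ U ∧ p.2 + p.1 • (slice S z₀ p.2 - p.2) ∈ U} :=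
    (hU.preimage continuous_snd).inter (hU.preimage hH.continuous)
  have hUO : ∀ t ∈ Icc (0 : ℝ) 1, ∀ x ∈ U,
      (t, x) ∈ {p : ℝ × E6 | p.2 ∈ U ∧ p.2 + p.1 • (slice S z₀ p.2 - p.2) ∈ U} :=
    fun t ht x hx => ⟨hx, h.seg x hx t ht⟩
  have h1 := homotopy hO hH.contDiffOn hU (fun p hp => hp.2) hα hU hUO (-1) 0
  refine ⟨_, G5_congr h1 hU (fun _ _ => rfl) fun x _ => ?_, fun i hi x hx => ?_⟩
  · simp only [hA, add_zero, zero_smul, sub_zero, one_smul, add_sub_cancel]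
    rw [pb_id]
    ext v
    simp only [ContinuousAlternatingMap.sub_apply, ContinuousAlternatingMap.smul_apply, smul_eq_mul]
    ring
  · have hc : ∀ p : ℝ × E6, p.2 + bv i + p.1 • (slice S z₀ (p.2 + bv i) - (p.2 + bv i)) =
        p.2 + p.1 • (slice S z₀ p.2 - p.2) + bv i := fun p => by
      rw [HT_add z₀ _ hi, add_sub_add_right_eq_sub, add_right_comm]
    have hm : ∀ z ∈ U, z + bv i ∈ U := fun z hz => by simpa using h.inv i hi z hz 1
    refine (G6a_pb (bv i) _ x).symm.trans ?_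
    exact hK_nat hO hH.contDiffOn hU (fun p hp => hp.2) hα.1 (f := fun y => y + bv i)
      (g := fun y => y + bv i) (contDiff_id.add contDiff_const) (contDiff_id.add contDiff_const)
      (fun p hp => ⟨hm _ hp.1, (hc p).symm ▸ hm _ hp.2⟩) (fun p _ => hc p)
      (fun y hy => (G6a_pb _ α y).trans (hp i hi y hy)) (by fun_prop) fun t ht => hUO t ht x hx

/-- Averaging over all directions of `S`. -/
theorem HT_avg (P : Fm E6 k → Prop) (hP : ∀ γ, ∀ i ∈ S, P γ →
      (∀ j ∈ S, ∀ x, γ (x + bv j) = γ x) → P fun x => ∫ t in (0 : ℝ)..1, γ (x + t • bv i))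
    {γ : Fm E6 k} (h0 : P γ) (hp : ∀ j ∈ S, ∀ x, γ (x + bv j) = γ x) (z₀ : E6) :
    ∃ γ', P γ' ∧ ∀ x, pb (slice S z₀) γ' x = (γ' z₀).compContinuousLinearMap (G6_L S) := by
  have key : ∀ S' : Finset Cx, S' ⊆ S → ∃ γ', P γ' ∧ (∀ j ∈ S, ∀ x, γ' (x + bv j) = γ' x) ∧
      ∀ i ∈ S', ∀ (x : E6) (t : ℝ), γ' (x + t • bv i) = γ' x := by
    intro S'
    induction S' using Finset.induction_on with
    | empty => exact fun _ => ⟨γ, h0, hp, fun _ h => absurd h (Finset.notMem_empty _)⟩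
    | insert j S' _ ih =>
      intro hS
      obtain ⟨γ₁, p1, q1, r1⟩ := ih ((Finset.subset_insert j S').trans hS)
      have hj := hS (Finset.mem_insert_self j S')
      refine ⟨_, hP γ₁ j hj p1 q1, fun i hi x => ?_, fun i hi x t => ?_⟩
      · simp only [add_right_comm x (bv i), q1 i hi]
      · rcases Finset.mem_insert.1 hi with rfl | hi
        · have hp : Function.Periodic (fun s : ℝ => γ₁ (x + s • bv i)) 1 := fun s => by
            simp only [add_smul, one_smul, ← add_assoc, q1 i hj]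
          have h1 := hp.intervalIntegral_add_eq t 0
          have h2 := intervalIntegral.integral_comp_add_left (a := 0) (b := 1)
            (fun s : ℝ => γ₁ (x + s • bv i)) t
          simp only [add_zero, zero_add] at h1 h2
          simp only [add_assoc, ← add_smul]
          exact h2.trans h1
        · simp only [add_right_comm x (t • bv i), r1 i hi]
  obtain ⟨γ', h1, -, h3⟩ := key S (Finset.Subset.refl S)
  refine ⟨γ', h1, fun x => ?_⟩
  rw [HT_pb, HT_slice, G6_per S (fun i hi y => h3 i hi y _)]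

theorem torusK (h : Dom S U z₀) {α : Fm E6 (k + 1)} (hα : Cl α U)
    (hp : ∀ i ∈ S, ∀ z ∈ U, α (z + bv i) = α z) :
    ∃ (c : Alt E6 (k + 1)) (β : Fm E6 k), Hor S c ∧ IsD β (fun z => α z - c) U ∧
      ∀ i ∈ S, ∀ z ∈ U, β (z + bv i) = β z := by
  have hπ := G6_sm S z₀
  obtain ⟨β₀, hβ₀, hi₀⟩ := HT_retr h hα hp
  have h0 : Cl (pb (slice S z₀) α) univ :=
    hα.pb isOpen_univ h.opn hπ.contDiffOn fun z _ => h.slice_mem z
  obtain ⟨α', ⟨β₁, hβ₁, hp₁⟩, hα'⟩ := HT_avg (S := S) (fun γ => ∃ β : Fm E6 k,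
      IsD β (pb (slice S z₀) α - γ) univ ∧ ∀ i ∈ S, ∀ x, β (x + bv i) = β x) (by
      rintro γ j hj ⟨β, d1, p1⟩ q1
      have c1 : Cl γ univ := by
        have := Cl.sub isOpen_univ h0 (d1.cl isOpen_univ)
        rwa [sub_sub_cancel] at this
      have hH : ContDiff ℝ ∞ fun p : ℝ × E6 => p.2 + p.1 • bv j :=
        contDiff_snd.add (contDiff_fst.smul contDiff_const)
      have d2 := homotopy isOpen_univ hH.contDiffOn isOpen_univ (mapsTo_univ _ _) c1 isOpen_univ
        (fun _ _ _ _ => mem_univ _) 0 1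
      have hA' : ∀ t x, hA (fun p : ℝ × E6 => p.2 + p.1 • bv j) γ t x = γ (x + t • bv j) :=
        fun t x => G6a_pb (t • bv j) γ x
      refine ⟨β + _, ⟨ContDiffOn.add d1.1 d2.1, fun x hx => ?_⟩, fun i hi x => ?_⟩
      · rw [extDeriv_add (d1.1.diffAt isOpen_univ hx) (d2.1.diffAt isOpen_univ hx), d1.2 x hx,
          d2.2 x hx]
        simp only [hA', one_smul, zero_add, zero_smul, sub_zero, q1 j hj, Pi.sub_apply,
          sub_add_sub_cancel]
      · rw [Pi.add_apply, Pi.add_apply, p1 i hi]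
        congr 1
        refine (G6a_pb (bv i) _ x).symm.trans ?_
        exact hK_nat isOpen_univ hH.contDiffOn isOpen_univ (mapsTo_univ _ _) c1.1
          (f := fun y => y + bv i) (g := fun y => y + bv i) (contDiff_id.add contDiff_const)
          (contDiff_id.add contDiff_const) (fun _ _ => mem_univ _)
          (fun p _ => add_right_comm _ _ _) (fun y _ => (G6a_pb _ γ y).trans (q1 i hi y))
          (by fun_prop) fun _ _ => mem_univ _)
    ⟨fun _ => 0, ⟨contDiffOn_const, fun x _ => by rw [extDeriv_const, sub_self]; rfl⟩,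
      fun _ _ _ => rfl⟩
    (fun i hi x => by rw [HT_pb, HT_pb, HT_add z₀ _ hi, hp i hi _ (h.slice_mem x)]) z₀
  have h1 := hβ₁.pb h.opn isOpen_univ hπ.contDiffOn (mapsTo_univ _ _)
  refine ⟨_, β₀ + pb (slice S z₀) β₁, HT_hor (α' z₀), ⟨ContDiffOn.add hβ₀.1 h1.1, fun x hx => ?_⟩,
    fun i hi x hx => ?_⟩
  · have e1 : pb (slice S z₀) (pb (slice S z₀) α) x = pb (slice S z₀) α x := by
      rw [← pb_comp _ (G6_fd S z₀ _).differentiableAt (G6_fd S z₀ _).differentiableAt]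
      simp only [G6_idem]
    rw [extDeriv_add (hβ₀.1.diffAt h.opn hx) (h1.1.diffAt h.opn hx), hβ₀.2 x hx, h1.2 x hx,
      pb_sub, Pi.sub_apply, e1, hα']
    exact sub_add_sub_cancel _ _ _
  · rw [Pi.add_apply, Pi.add_apply, hi₀ i hi x hx, HT_pb, HT_pb, HT_add z₀ _ hi, hp₁ i hi]

theorem cst_zero (h : Dom S U z₀) {c : Alt E6 (k + 1)} {β : Fm E6 k} (hβ : IsD β (fun _ => c) U)
    (hp : ∀ i ∈ S, ∀ z ∈ U, β (z + bv i) = β z) : c.compContinuousLinearMap (G6_L S) = 0 := by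
  have hπ := G6_sm S z₀
  have h0 := hβ.pb isOpen_univ h.opn hπ.contDiffOn fun z _ => h.slice_mem z
  obtain ⟨γ, h1, h2⟩ := HT_avg (S := S)
    (fun γ => IsD γ (fun _ => c.compContinuousLinearMap (G6_L S)) univ) (by
      intro γ j _ d1 _
      have hs : ContDiffOn ℝ ∞ (fun p : ℝ × E6 => γ (p.2 + p.1 • bv j)) univ :=
        ((contDiffOn_univ.1 d1.1).comp
          (contDiff_snd.add (contDiff_fst.smul contDiff_const))).contDiffOn
      refine ⟨(contDiffOn_integral isOpen_univ hs isOpen_univ fun _ _ _ _ => mem_univ _).1,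
        fun x hx => (extDeriv_integral isOpen_univ hs isOpen_univ (fun _ _ _ _ => mem_univ _)
          hx).trans ?_⟩
      have e : ∀ t : ℝ, extDeriv (fun y => γ (y + t • bv j)) x =
          c.compContinuousLinearMap (G6_L S) := fun t => by
        refine Eq.trans ?_ (d1.2 (x + t • bv j) trivial)
        rw [extDeriv, extDeriv, fderiv_comp_add_right]
      simp only [e, intervalIntegral.integral_const, sub_zero, one_smul])
    ⟨h0.1, fun x hx => (h0.2 x hx).trans (HT_pb _ x)⟩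
    (fun i hi x => by rw [HT_pb, HT_pb, HT_add z₀ _ hi, hp i hi _ (h.slice_mem x)]) z₀
  have h3 := (h1.pb isOpen_univ isOpen_univ hπ.contDiffOn (mapsTo_univ _ _)).2 z₀ trivial
  rw [funext h2, extDeriv_const, HT_pb] at h3
  exact (HT_hor c).symm.trans h3.symm

theorem Hor.eq_zero {c : Alt E6 k} (h : Hor S c)
    (h0 : ∀ r : Fin k → Cx, (∀ a, r a ∈ S) → c (fun a => bv (r a)) = 0) : c = 0 := by
  ext v
  have e : G6_L S ∘ v = fun a => ∑ i ∈ S, v a i • bv i := funext fun a => by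
    rw [Function.comp_apply, G6_L_apply, HT_slice]
    simp
  rw [← h, ContinuousAlternatingMap.compContinuousLinearMap_apply, e, c.map_sum_finset]
  refine Finset.sum_eq_zero fun r hr => ?_
  rw [c.map_smul_univ, h0 r (Fintype.mem_piFinset.1 hr), smul_zero]

theorem Hor.of_card {c : Alt E6 k} (h : Hor S c) (hk : S.card < k) : c = 0 := by
  refine h.eq_zero fun r hr => ?_
  obtain ⟨a, -, b, -, hab, e⟩ := Finset.exists_ne_map_eq_of_card_lt_of_maps_to
    (s := Finset.univ) (t := S) (by simpa using hk) (f := r) fun a _ => hr a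
  exact c.map_eq_zero_of_eq _ (congrArg bv e) hab

theorem hor_wedge {i j : Cx} (hi : i ∈ S) (hj : j ∈ S) : Hor S (wedge (dc i) (dc j)) := by
  ext v
  simp [wedge_apply, G6_L_apply, dc, slice, hi, hj]

theorem Hor.zero : Hor S (0 : Alt E6 k) := rfl

theorem Hor.add {c c' : Alt E6 k} (h : Hor S c) (h' : Hor S c') : Hor S (c + c') :=
  congrArg₂ (· + ·) h h'

theorem Hor.sub {c c' : Alt E6 k} (h : Hor S c) (h' : Hor S c') : Hor S (c - c') :=
  congrArg₂ (· - ·) h h'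

theorem Hor.smul {c : Alt E6 k} (h : Hor S c) (t : ℝ) : Hor S (t • c) := congrArg (t • ·) h

theorem Hor.pair {c : Alt E6 2} {i j : Cx} (hij : i ≠ j) (h : Hor {i, j} c) :
    c = c ![bv i, bv j] • wedge (dc i) (dc j) := by
  refine sub_eq_zero.1 ((h.sub ((hor_wedge (by simp) (by simp)).smul _)).eq_zero fun r hr => ?_)
  have e : (fun a => bv (r a)) = ![bv (r 0), bv (r 1)] := funext fun a => by fin_cases a <;> rfl
  have h0 := hr 0
  have h1 := hr 1
  have h2 := alt2_swap c (bv i) (bv i)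
  have h3 := alt2_swap c (bv j) (bv j)
  have h4 := alt2_swap c (bv j) (bv i)
  rw [Finset.mem_insert, Finset.mem_singleton] at h0 h1
  rw [e, ContinuousAlternatingMap.sub_apply, ContinuousAlternatingMap.smul_apply, wedge_apply]
  have a1 : ∀ l, dc l (bv l) = 1 := fun l => by simp [dc, bv]
  have a2 : dc i (bv j) = 0 := by simp [dc, bv, hij]
  have a3 : dc j (bv i) = 0 := by simp [dc, bv, hij.symm]
  rcases h0 with h0 | h0 <;> rcases h1 with h1 | h1 <;>
    simp only [h0, h1, Matrix.cons_val_zero, Matrix.cons_val_one, a1, a2, a3, smul_eq_mul] <;>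
    linarith

theorem HT_LX (u : E6) : G6_L SX u = mk4 (xv u) 0 0 := by
  rw [G6_L_apply]
  apply ext6 <;> rfl

theorem Hor.ML {c : Alt E6 k} (h : Hor SX c) (A : M4) (σ : ℝ) :
    Hor SX (c.compContinuousLinearMap (ML A σ)) := by
  have e : ∀ u, G6_L SX (B3.ML A σ (G6_L SX u)) = G6_L SX (B3.ML A σ u) := fun u => by
    simp only [HT_LX]
    change mk4 (xv (mk4 (A *ᵥ xv (mk4 (xv u) 0 0)) _ _)) 0 0 = mk4 (xv (mk4 (A *ᵥ xv u) _ _)) 0 0
    simp only [xv_mk4]
  rw [← h]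
  ext v
  simp only [ContinuousAlternatingMap.compContinuousLinearMap_apply, Function.comp_def, e]

theorem DomE.dom {μ₀ : ℝ} (h : DomE S U μ₀) : Dom S U (mk4 0 μ₀ 0) :=
  Dom.of_convex h.opn h.cvx h.mem h.inv

theorem HT_bv {i j : Cx} (h : j ≠ i) (z : E6) (t : ℝ) : (z + t • bv i) j = z j := by
  simp [bv, h]

theorem domE_slab {a b μ₀ : ℝ} (ha : a < μ₀) (hb : μ₀ < b) : DomE SX (Slab a b) μ₀ := by
  have e : ∀ i, (2, 0) ≠ i → ∀ z ∈ Slab a b, ∀ t : ℝ, z + t • bv i ∈ Slab a b :=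
    fun i hi z hz t => by simpa only [Slab, mem_ofPred_eq, HT_bv hi] using hz
  exact ⟨isOpen_Ioo.preimage (dc (2, 0)).continuous,
    (convex_Ioo a b).linear_preimage (dc (2, 0)).toLinearMap, ⟨ha, hb⟩, Finset.Subset.refl _,
    fun i hi => e i (by revert i; decide), fun z hz => hz, e _ (by decide)⟩

theorem domE_tube (d : HD) {ε : ℝ} (hε : 0 < ε) : DomE SC (d.Tube ε) d.μ₁ := by
  have e : ∀ i, ((1, 0) ≠ i ∧ (1, 1) ≠ i ∧ (2, 0) ≠ i) → ∀ z ∈ d.Tube ε, ∀ t : ℝ,
      z + t • bv i ∈ d.Tube ε := fun i hi z hz t => by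
    simpa only [HD.Tube, HD.tt, mem_ofPred_eq, HT_bv hi.1, HT_bv hi.2.1, HT_bv hi.2.2] using hz
  have e1 : d.Tube ε = dc (1, 0) ⁻¹' Metric.ball 0 ε ∩ (dc (1, 1) ⁻¹' Metric.ball 0 ε ∩
      dc (2, 0) ⁻¹' Metric.ball d.μ₁ ε) := by
    ext z
    simp [HD.Tube, HD.tt, dc, Real.dist_eq]
  have o : ∀ i m, IsOpen (dc i ⁻¹' Metric.ball m ε) := fun i m =>
    Metric.isOpen_ball.preimage (dc i).continuous
  have c : ∀ i m, Convex ℝ (dc i ⁻¹' Metric.ball m ε) := fun i m =>
    (convex_ball m ε).linear_preimage (dc i).toLinearMap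
  refine ⟨e1 ▸ (o _ _).inter ((o _ _).inter (o _ _)), e1 ▸ (c _ _).inter ((c _ _).inter (c _ _)),
    by simp [HD.Tube, HD.tt, hε], by decide, fun i hi => e i (by revert i; decide),
    fun z hz => by simpa [HD.Tube, HD.tt, io] using hz, e _ (by decide)⟩

theorem HT_pbL (L : E6 →L[ℝ] E6) (γ : Fm E6 k) (x : E6) :
    pb L γ x = (γ (L x)).compContinuousLinearMap L := by
  rw [pb, L.fderiv]

theorem HT_lin (hS : S ⊆ SX) : ∃ I P : E6 →L[ℝ] E6, io = I ∧ PP = P ∧ (∀ z, I (I z) = z) ∧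
    (∀ z, I (P z) = P (I z)) ∧ (∀ z, P (P z) = P z) ∧ (∀ z, G6_L S (I z) = -G6_L S z) ∧
    (∀ z, I (G6_L S z) = -G6_L S z) ∧ (∀ z, G6_L S (P z) = G6_L S z) ∧
    (∀ i ∈ S, I (bv i) = -bv i ∧ P (bv i) = bv i) ∧ ∀ z, P z = z + (-z (2, 1)) • bv (2, 1) := by
  have h1 : io = ML (-1) 1 := funext fun z => by
    change _ = mk4 ((-1 : M4) *ᵥ xv z) (1 * z (2, 0)) (z (2, 1))
    rw [Matrix.neg_mulVec, Matrix.one_mulVec, one_mul, io]
  have h2 : PP = G6_L (insert (2, 0) SX) := funext fun z => by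
    rw [G6_L_apply]
    apply ext6 <;> rfl
  have a : (2, 0) ∉ S := fun h => absurd (hS h) (by decide)
  have b : (2, 1) ∉ S := fun h => absurd (hS h) (by decide)
  refine ⟨_, _, h1, h2, ?_⟩
  rw [← h1, ← h2]
  simp only [G6_L_apply]
  refine ⟨fun z => ?_, fun z => ?_, fun z => ?_, fun z => ?_, fun z => ?_, fun z => ?_,
    fun i hi => ⟨?_, ?_⟩, fun z => ?_⟩
  · apply ext6 <;> simp [io]
  · apply ext6 <;> simp [io, PP]
  · apply ext6 <;> simp [PP]
  · apply ext6 <;> simp [io, slice, a, b, apply_ite (Neg.neg : ℝ → ℝ)]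
  · apply ext6 <;> simp [io, slice, a, b]
  · apply ext6 <;> simp [PP, slice, a, b]
  · have a' : (2, 0) ≠ i := fun h => a (h ▸ hi)
    have b' : (2, 1) ≠ i := fun h => b (h ▸ hi)
    apply ext6 <;> simp [io, bv, a', b']
  · have b' : (2, 1) ≠ i := fun h => b (h ▸ hi)
    apply ext6 <;> simp [PP, bv, b']
  · apply ext6 <;> simp [PP, bv]

theorem torusE {μ₀ : ℝ} (h : DomE S U μ₀) {α : Fm E6 (k + 1)} (hα : Cl α U) (hs : Sy S U α) :
    ∃ (c : Alt E6 (k + 1)) (β : Fm E6 k), Hor S c ∧ (Odd (k + 1) → c = 0) ∧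
      IsD β (fun z => α z - c) U ∧ Sy S U β := by
  obtain ⟨c, β, hc, hβ, hp⟩ := torusK h.dom hα hs.per
  obtain ⟨I, P, eI, eP, hII, hIP, hPP, hLI, hIL, hLP, hb, hPz⟩ := HT_lin h.sub
  have hU := h.opn
  have mI : MapsTo I U U := eI ▸ h.io
  have mP : MapsTo P U U := fun z hz => by rw [hPz]; exact h.ang z hz _
  have h1 := hβ.pb hU hU I.contDiff.contDiffOn mI
  have h2 : ∀ z ∈ U, extDeriv (pb I β) z = α z - c.compContinuousLinearMap I := fun z hz => by
    rw [h1.2 z hz, ← hs.evn z hz, eI, HT_pbL, HT_pbL]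
    rfl
  have hp' : ∀ i ∈ S, ∀ z ∈ U, pb I β (z + bv i) = pb I β z := fun i hi z hz => by
    have := hp i hi _ (h.inv i hi _ (mI hz) (-1))
    rw [neg_one_smul, neg_add_cancel_right] at this
    rw [HT_pbL, HT_pbL, map_add, (hb i hi).1, this]
  have h3 := cst_zero h.dom (c := c.compContinuousLinearMap I - c) (β := β - pb I β)
    ⟨ContDiffOn.sub hβ.1 h1.1, fun z hz => by
      rw [extDeriv_sub' (hβ.1.diffAt hU hz) (h1.1.diffAt hU hz), hβ.2 z hz, h2 z hz]
      exact sub_sub_sub_cancel_left _ _ _⟩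
    fun i hi z hz => by rw [Pi.sub_apply, Pi.sub_apply, hp i hi z hz, hp' i hi z hz]
  have hL : ∀ v, c (fun a => G6_L S (v a)) = c v := fun v => DFunLike.congr_fun hc v
  have h4 : ∀ v, c (fun a => -G6_L S (v a)) = c v := fun v => by
    have := DFunLike.congr_fun h3 v
    simp only [ContinuousAlternatingMap.compContinuousLinearMap_apply, Function.comp_def,
      ContinuousAlternatingMap.sub_apply, hIL, hL, ContinuousAlternatingMap.coe_zero,
      Pi.zero_apply] at this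
    exact sub_eq_zero.1 this
  have h5 : c.compContinuousLinearMap I = c := by
    ext v
    rw [ContinuousAlternatingMap.compContinuousLinearMap_apply, ← hL, ← h4 v]
    simp only [Function.comp_apply, hLI]
  have h6 : c.compContinuousLinearMap P = c := by
    ext v
    rw [ContinuousAlternatingMap.compContinuousLinearMap_apply, ← hL, ← hL v]
    simp only [Function.comp_apply, hLP]
  have h7 : IsD ((1 / 2 : ℝ) • (β + pb I β)) (fun z => α z - c) U :=
    ⟨ContDiffOn.const_smul (1 / 2 : ℝ) (ContDiffOn.add hβ.1 h1.1), fun z hz => by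
      rw [extDeriv_smul, extDeriv_add (hβ.1.diffAt hU hz) (h1.1.diffAt hU hz), hβ.2 z hz, h2 z hz,
        h5, ← two_smul ℝ, smul_smul]
      norm_num⟩
  have h8 := h7.pb hU hU P.contDiff.contDiffOn mP
  refine ⟨c, _, hc, fun ho => ?_, ⟨h8.1, fun z hz => ?_⟩, fun i hi z hz => ?_, fun z _ => ?_,
    fun z _ => ?_⟩
  · ext v
    have := c.map_smul_univ (fun _ => -1) fun a => G6_L S (v a)
    simp only [neg_one_smul, h4, hL, Finset.prod_const, Finset.card_univ, Fintype.card_fin,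
      ho.neg_one_pow] at this
    change c v = 0
    linarith
  · change _ = α z - c
    rw [h8.2 z hz, ← hs.bas z hz, eP, HT_pbL, HT_pbL]
    exact congrArg (fun t => (α (P z)).compContinuousLinearMap P - t) h6
  · simp only [HT_pbL P, map_add, (hb i hi).2, Pi.smul_apply, Pi.add_apply, hp i hi _ (mP hz),
      hp' i hi _ (mP hz)]
  · rw [eI]
    ext v
    simp only [HT_pbL, Pi.smul_apply, Pi.add_apply, ContinuousAlternatingMap.smul_apply,
      ContinuousAlternatingMap.add_apply, ContinuousAlternatingMap.compContinuousLinearMap_apply,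
      Function.comp_def, ← hIP, hII]
    rw [add_comm]
  · rw [eP]
    ext v
    simp only [HT_pbL P, ContinuousAlternatingMap.compContinuousLinearMap_apply,
      Function.comp_def, hPP]

end Pool.Agent.Work.MP_bf98aa_gt.B3
end

-- merged part: Pool.Agent.Work.MP_bf98aa_gt.B3.HM1
section
/-!
Charts with translation deck groups, loops and tori.
PLAN. `Par.trans`: compose the local inverses. `par_pol`: `par_of_inj` of G2 (or a local inverse from `ang_log`). `ex_deck`, `deck1`, `deck2`: `torusK` for `pl ψ w` (periodic by `Deck.inv`, `G6_trans`),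
`per_int`, `Deck.ex_of_inv`, `Hor.of_card`, `Hor.eq_zero`, `Hor.pair`, `per2_eq`, `per2_pl`. `lp_ex`: `IsDO.pl`, fundamental theorem of calculus. `mv1`: the difference of the primitives is closed of degree
zero on `A ∩ B`, locally constant through charts (`Cl.const`, `pb_deg_zero`), so constant; glue with `IsDO.iUnion` or `IsDO.of_loc`. `tor_zero`: `G = pl c w` is closed on the open set
`N ∩ c ⁻¹' O ⊇ [0,1] × ℝ²`; `homotopy` with `H = id`, `p = 1`, `q = 0` on `E = ℝ × ℝ`; the primitive `hK` is doubly periodic (directly from the formula); `G7a_flat` and the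
fundamental theorem of calculus give `∫∫ dK = 0`; the form at time `0` vanishes on `![(1,0),(0,1)]`.
-/

set_option autoImplicit false

open scoped Manifold ContDiff Topology Matrix ComplexConjugate
open Set Complex Filter

namespace Pool.Agent.Work.MP_bf98aa_gt.B3

open Pool.Agent.Work.MP_bf98aa_gt.Th Pool.Agent.Work.MP_bf98aa_gt.Cy

variable {M : Type} [TopologicalSpace M] [ChartedSpace E6 M] [IsManifold 𝓘(ℝ, E6) ∞ M]
  {k : ℕ} {ψ : E6 → M} {U U' : Set E6} {S : Finset Cx} {z₀ : E6} {O A B : Set M}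

/-- Integral of a 1-form over a path. -/
noncomputable def lp (c : ℝ → M) (b : Fo M 1) : ℝ := ∫ t in (0 : ℝ)..1, pl c b t ![1]

theorem Par.trans {f : E6 → E6} (hf : Par (M := E6) f U) (hP : Par ψ U') (hm : MapsTo f U U') :
    Par (fun z => ψ (f z)) U := by
  have hs : ∀ x ∈ U, ContDiffAt ℝ ∞ f x := fun x hx => contMDiffAt_iff_contDiffAt.1 (hf.sm x hx)
  refine ⟨hf.opn, fun x hx => (hP.sm _ (hm hx)).comp (hs x hx), fun x hx => ?_⟩
  obtain ⟨χ, h3, h4, h5⟩ := hP.inv (f x) (hm hx)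
  obtain ⟨g, g3, g4, g5⟩ := hf.inv x hx
  rw [← h4.self_of_nhds] at g3 g5
  refine ⟨fun m => g (χ m), ContMDiffAt.comp _ g3 h3, ?_, ?_⟩
  · filter_upwards [(hs x hx).continuousAt.eventually h4, g4] with z a b
    rw [a, b]
  · filter_upwards [h3.continuousAt.eventually g5, h5] with m a b
    rw [a, b]

theorem par_of_inv {f g : E6 → E6} (hU : IsOpen U) (hf : ∀ z ∈ U, ContDiffAt ℝ ∞ f z)
    (hg : ∀ z ∈ U, ContDiffAt ℝ ∞ g (f z)) (h : ∀ z ∈ U, g (f z) = z) : Par (M := E6) f U := by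
  exact par_of_inj hU hf fun z hz =>
    inj_of_left (hf z hz) (hg z hz) (mem_of_superset (hU.mem_nhds hz) h)

theorem pl_eq_pb (f : E6 → E6) (α : Fm E6 k) : pl (M := E6) f α = pb f α := by
  funext x
  simp only [pl, pb, dM, mfderiv_eq_fderiv]

theorem contDiff_pol : ContDiff ℝ ∞ pol := by
  refine contDiff_iff_contDiffAt.2 fun z => ?_
  unfold pol
  fun_prop

theorem par_pol : Par (M := E6) pol {z | 0 < z (0, 0)} := by
  refine par_of_inj (isOpen_lt continuous_const (continuous_apply _))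
    (fun z _ => contDiff_pol.contDiffAt) fun z hz => (injective_iff_map_eq_zero _).2 fun v hv => ?_
  have hd := contDiff_pol.differentiable (by simp) z
  have hW : ∀ i, (∀ y, pol y i = y i) → v i = 0 := fun i h => by
    have h1 : fderiv ℝ (fun y => pol y i) z v = 0 := by
      rw [fderiv_apply hd]
      exact congrFun hv i
    rwa [show (fun y => pol y i) = dc i from funext h, ContinuousLinearMap.fderiv] at h1
  have h0 : fderiv ℝ (fun y => cc 0 (pol y)) z v = 0 := by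
    rw [fderiv_fun_comp z ((contDiff_cc 0).differentiable (by simp) _) hd]
    simp [hv]
  have h1 : HasFDerivAt (fun y => cc 0 (pol y)) _ z :=
    (ofRealCLM.hasFDerivAt.comp z (dc (0, 0)).hasFDerivAt).mul
      ((hasDerivAt_ee _).hasFDerivAt.comp z (dc (0, 1)).hasFDerivAt)
  have h2 : (⟨v (0, 0), 2 * Real.pi * z (0, 0) * v (0, 1)⟩ : ℂ) * ee (z (0, 1)) = 0 := by
    rw [← h0, h1.fderiv, mk_eq_add_mul_I]
    simp [dc_apply]
    ring
  have h3 := (mul_eq_zero_iff_right (ee_ne_zero _)).1 h2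
  have hz' : 0 < z (0, 0) := hz
  exact ext6 (congrArg re h3) ((mul_eq_zero_iff_left (by positivity)).1 (congrArg im h3))
    (hW _ fun _ => rfl) (hW _ fun _ => rfl) (hW _ fun _ => rfl) (hW _ fun _ => rfl)

theorem pol_eq_iff {x y : E6} (hx : 0 < x (0, 0)) (hy : 0 < y (0, 0)) :
    pol x = pol y ↔ ∃ n : ℤ, y = x + (n : ℝ) • bv (0, 1) := by
  refine ⟨fun h => ?_, ?_⟩
  · have h0 : (x (0, 0) : ℂ) * ee (x (0, 1)) = y (0, 0) * ee (y (0, 1)) := congrArg (cc 0) h
    have h1 := congrArg norm h0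
    simp only [norm_mul, norm_ee, mul_one, norm_real, Real.norm_of_nonneg hx.le,
      Real.norm_of_nonneg hy.le] at h1
    rw [h1] at h0
    obtain ⟨n, hn⟩ := ee_eq_iff.1 (mul_left_cancel₀ (ofReal_ne_zero.2 hy.ne') h0).symm
    have h2 : x (1, 0) = y (1, 0) := congrFun h (1, 0)
    have h3 : x (1, 1) = y (1, 1) := congrFun h (1, 1)
    have h4 : x (2, 0) = y (2, 0) := congrFun h (2, 0)
    have h5 : x (2, 1) = y (2, 1) := congrFun h (2, 1)
    exact ⟨n, by apply ext6 <;> simp [bv, *]⟩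
  · rintro ⟨n, rfl⟩
    simp [pol, cc, bv, ee_add, ee_int]

theorem pol_surj {w : E6} (h : cc 0 w ≠ 0) : ∃ z, 0 < z (0, 0) ∧ pol z = w := by
  obtain ⟨t, ht⟩ := exists_ee (cc 0 w)
  refine ⟨mkc ⟨‖cc 0 w‖, t⟩ (cc 1 w) (cc 2 w), norm_pos_iff.2 h, ?_⟩
  rw [pol, mkc_00, mkc_01, ← ht]
  exact mkc_eta w

theorem deck_of (hP : Par ψ U) (hi : ∀ i ∈ S, ∀ z ∈ U, ∀ t : ℝ, z + t • bv i ∈ U)
    (h1 : ∀ i ∈ S, ∀ z ∈ U, ψ (z + bv i) = ψ z)
    (h2 : ∀ x ∈ U, ∀ y ∈ U, ψ x = ψ y → ∀ i, if i ∈ S then ∃ n : ℤ, y i = x i + n else y i = x i) :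
    Deck ψ U (TZ S) := by
  refine ⟨hP, ?_, ?_, ?_, fun x hx y hy e => ?_⟩
  · rintro _ ⟨n, rfl⟩
    exact contDiff_id.add contDiff_const
  · rintro _ ⟨n, rfl⟩ z hz
    exact sum_mem_of_inv hi _ hz
  · rintro _ ⟨n, rfl⟩ z hz
    exact per_int hi h1 n hz
  have h3 : ∀ i, ∃ n : ℤ, y i = x i + if i ∈ S then (n : ℝ) else 0 := fun i => by
    have := h2 x hx y hy e i
    split_ifs at this ⊢
    exacts [this, ⟨0, by rw [this, add_zero]⟩]
  choose n hn using h3
  refine ⟨_, ⟨n, rfl⟩, funext fun j => ?_⟩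
  rw [hn, Pi.add_apply, G6_sum]

theorem HM1_inv (hi : ∀ i ∈ S, ∀ z ∈ U, ∀ t : ℝ, z + t • bv i ∈ U) {β : Fm E6 k}
    (hp : ∀ i ∈ S, ∀ z ∈ U, β (z + bv i) = β z) : ∀ f ∈ TZ S, ∀ x ∈ U, pb f β x = β x := by
  rintro _ ⟨n, rfl⟩ x hx
  rw [G6_trans]
  exact per_int hi hp n hx

theorem Deck.desc_per (hD : Deck ψ U (TZ S)) (hi : ∀ i ∈ S, ∀ z ∈ U, ∀ t : ℝ, z + t • bv i ∈ U)
    {β : Fm E6 k} (hp : ∀ i ∈ S, ∀ z ∈ U, β (z + bv i) = β z) :
    ∃ b : Fo M k, ∀ x ∈ U, pl ψ b x = β x := by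
  exact hD.desc (HM1_inv hi hp)

theorem HM1_main (hD : Deck ψ U (TZ S)) (hU : Dom S U z₀) {w : Fo M (k + 1)}
    (hw : ClO w (ψ '' U)) : ∃ (c : Alt E6 (k + 1)) (β : Fm E6 k), Hor S c ∧
      IsD β (fun z => pl ψ w z - c) U ∧ (∀ i ∈ S, ∀ z ∈ U, β (z + bv i) = β z) ∧
      (c = 0 → ExO w (ψ '' U)) := by
  obtain ⟨c, β, h1, h2, h3⟩ := torusK hU (hw ψ U hD.par (mapsTo_image _ _)) fun i hi z hz => by
    refine (G6_trans _ _ _).symm.trans (hD.inv w ⟨Pi.single i 1, ?_⟩ hz)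
    rw [Finset.sum_eq_single_of_mem i hi fun j _ hj => by simp [hj]]
    simp
  refine ⟨c, β, h1, h2, h3, fun h => hD.ex_of_inv (β := β) ?_ (HM1_inv hU.inv h3)⟩
  simpa only [h, sub_zero] using h2

theorem ex_deck (hD : Deck ψ U (TZ S)) (hU : Dom S U z₀) {w : Fo M (k + 1)} (hw : ClO w (ψ '' U))
    (hk : S.card < k + 1) : ExO w (ψ '' U) := by
  obtain ⟨c, β, h1, -, -, h4⟩ := HM1_main hD hU hw
  exact h4 (h1.of_card hk)

theorem deck1 (hD : Deck ψ U (TZ S)) (hU : Dom S U z₀) {w : Fo M 1} (hw : ClO w (ψ '' U))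
    (h0 : ∀ i ∈ S, ∃ z ∈ U, lp (fun t => ψ (z + t • bv i)) w = 0) : ExO w (ψ '' U) := by
  obtain ⟨c, β, h1, h2, h3, h4⟩ := HM1_main hD hU hw
  refine h4 (h1.eq_zero fun r hr => ?_)
  obtain ⟨z, hz, h5⟩ := h0 _ (hr 0)
  have hm := hU.inv _ (hr 0) z hz
  have hγ : ∀ t : ℝ, HasDerivAt (fun t : ℝ => z + t • bv (r 0)) (bv (r 0)) t := fun t => by
    simpa using ((hasDerivAt_id t).smul_const (bv (r 0))).const_add z
  have e : ∀ t : ℝ, pl (fun t : ℝ => ψ (z + t • bv (r 0))) w t ![1] =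
      pl ψ w (z + t • bv (r 0)) fun a => bv (r a) := fun t => by
    rw [G1_pl (c := ψ) (f := fun t : ℝ => z + t • bv (r 0)) (hD.par.sm _ (hm t))
      (hγ t).differentiableAt, pb, ContinuousAlternatingMap.compContinuousLinearMap_apply]
    congr 1
    funext a
    fin_cases a
    exact (hγ t).deriv
  have hF : ∀ t : ℝ, HasDerivAt (fun t : ℝ => β (z + t • bv (r 0)) ![] + t * c fun a => bv (r a))
      (pl ψ w (z + t • bv (r 0)) fun a => bv (r a)) t := fun t => by
    have hd : DifferentiableAt ℝ (fun y => β y ![]) (z + t • bv (r 0)) :=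
      (ContinuousAlternatingMap.apply ℝ E6 ℝ ![]).differentiableAt.comp _ (h2.1.diffAt hU.opn (hm t))
    have k := h2.2 _ (hm t)
    rw [show β = fun y => G4_c E6 (β y ![]) from funext fun y => G4_zero _, G4_ext,
      eq_sub_iff_add_eq] at k
    rw [← k]
    exact (hd.hasFDerivAt.comp_hasDerivAt t (hγ t)).add (hasDerivAt_mul_const _)
  have hc : Continuous fun t : ℝ => pl ψ w (z + t • bv (r 0)) fun a => bv (r a) :=
    (ContinuousAlternatingMap.apply ℝ E6 ℝ _).continuous.comp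
      ((hw ψ U hD.par (mapsTo_image _ _)).1.continuousOn.comp_continuous (by fun_prop) hm)
  simp only [lp, e] at h5
  rw [intervalIntegral.integral_eq_sub_of_hasDerivAt (fun t _ => hF t)
    (hc.intervalIntegrable _ _)] at h5
  simpa [h3 _ (hr 0) z hz] using h5

theorem deck2 {i j : Cx} (hij : i ≠ j) (hD : Deck ψ U (TZ {i, j})) (hU : Dom {i, j} U z₀)
    {w : Fo M 2} (hw : ClO w (ψ '' U)) : ∃ κ : ℝ, (κ = 0 → ExO w (ψ '' U)) ∧
      ∀ z ∈ U, ∀ a a' b b' : ℤ, tor (lin ψ z ((a : ℝ) • bv i + (a' : ℝ) • bv j)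
        ((b : ℝ) • bv i + (b' : ℝ) • bv j)) w = (a * b' - a' * b) * κ := by
  obtain ⟨c, β, h1, h2, h3, h4⟩ := HM1_main hD hU hw
  refine ⟨c ![bv i, bv j], fun h => h4 (by rw [h1.pair hij, h, zero_smul]),
    fun z hz a a' b b' => ?_⟩
  have hm : ∀ s t : ℝ, z + s • ((a : ℝ) • bv i + (a' : ℝ) • bv j) +
      t • ((b : ℝ) • bv i + (b' : ℝ) • bv j) ∈ U := fun s t => by
    rw [show z + s • ((a : ℝ) • bv i + (a' : ℝ) • bv j) + t • ((b : ℝ) • bv i + (b' : ℝ) • bv j) =
      z + (s * a + t * b) • bv i + (s * a' + t * b') • bv j by module]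
    exact hU.inv j (by simp) _ (hU.inv i (by simp) z hz _) _
  have hT : ∀ a a' : ℤ, (fun z => z + ((a : ℝ) • bv i + (a' : ℝ) • bv j)) ∈ TZ {i, j} :=
    fun a a' => ⟨fun l => if l = i then a else a', by simp [Finset.sum_pair hij, hij.symm]⟩
  rw [tor, ← per2_pl hD.par hm, per2_eq hU.opn h2 hm (hD.sm _ (hT a a')) (hD.sm _ (hT b b'))
    (fun _ _ => rfl) (fun _ _ => rfl) (HM1_inv hU.inv h3 _ (hT a a'))
    (HM1_inv hU.inv h3 _ (hT b b'))]
  conv_lhs => rw [h1.pair hij]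
  simp [wedge_apply, dc_apply, bv, hij, hij.symm]
  ring

theorem lp_chart (hP : Par ψ U) {γ : ℝ → E6} (hγ : ContDiff ℝ ∞ γ) (hm : ∀ t, γ t ∈ U)
    (b : Fo M 1) :
    lp (fun t => ψ (γ t)) b = ∫ t in (0 : ℝ)..1, pl ψ b (γ t) ![deriv γ t] := by
  refine intervalIntegral.integral_congr fun t _ => ?_
  show pl (fun t => ψ (γ t)) b t ![1] = pl ψ b (γ t) ![deriv γ t]
  rw [pl_comp (hP.sm _ (hm t)) hγ.contDiffAt, pb,
    ContinuousAlternatingMap.compContinuousLinearMap_apply]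
  refine congrArg _ (funext fun i => ?_)
  fin_cases i
  rfl

theorem HM1_app {F : Type} [NormedAddCommGroup F] [NormedSpace ℝ F] {N : Set F} {β : Fm F k}
    (h : Sm β N) (v : Fin k → F) : ContDiffOn ℝ ∞ (fun p => β p v) N :=
  (ContinuousAlternatingMap.apply ℝ F ℝ v).contDiff.comp_contDiffOn h

theorem lp_sub {b b' : Fo M 1} (h : SmO b O) (h' : SmO b' O) (hO : IsOpen O) {c : ℝ → M}
    (hc : ∀ t, SmAt c t) (hm : ∀ t, c t ∈ O) : lp c (b - b') = lp c b - lp c b' := by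
  have hi : ∀ {a : Fo M 1}, SmO a O → IntervalIntegrable (fun t => pl c a t ![1])
      MeasureTheory.volume 0 1 := fun ha =>
    (continuousOn_univ.1 (HM1_app (ha.pl hO isOpen_univ (fun y _ => hc y) fun y _ => hm y)
      _).continuousOn).intervalIntegrable _ _
  rw [lp, lp, lp, ← intervalIntegral.integral_sub (hi h) (hi h'), pl_sub]
  rfl

theorem lp_smul (c : ℝ → M) (s : ℝ) (b : Fo M 1) : lp c (s • b) = s * lp c b := by
  rw [lp, lp, ← intervalIntegral.integral_const_mul, pl_smul]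
  rfl

theorem lp_ex {b : Fo M 1} (h : ExO b O) (hO : IsOpen O) {c : ℝ → M} (hc : ∀ t, SmAt c t)
    (hm : ∀ t, c t ∈ O) (he : c 1 = c 0) : lp c b = 0 := by
  obtain ⟨f, hf⟩ := h
  have h1 := hf.pl hO isOpen_univ (fun y _ => hc y) fun y _ => hm y
  have h2 : ContDiff ℝ ∞ fun t => pl c f t ![] := contDiffOn_univ.1 (HM1_app h1.1 _)
  have h3 : pl c f = fun t => G4_c ℝ (pl c f t ![]) := funext fun t => G4_zero _
  have h4 : ∀ t, pl c b t ![1] = deriv (fun t => pl c f t ![]) t := fun t => by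
    rw [← h1.2 t (mem_univ _), h3, G4_ext, alt1_apply, ← h3]
    rfl
  have h5 : ∀ t, pl c f t ![] = f (c t) ![] := fun t =>
    congrArg (f (c t)) (Subsingleton.elim _ _)
  rw [lp]
  simp only [h4]
  rw [intervalIntegral.integral_deriv_eq_sub (fun t _ => h2.differentiable (by simp) t)
    ((h2.continuous_deriv (by simp)).intervalIntegrable _ _), h5, h5, he, sub_self]

theorem HM1_glue (hA : IsOpen A) (hB : IsOpen B) {w : Fo M (k + 1)} {b₁ b₂ : Fo M k}
    (h₁ : IsDO b₁ w A) (h₂ : IsDO b₂ w B) (h : ∀ m ∈ A ∩ B, b₁ m = b₂ m) : ExO w (A ∪ B) := by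
  classical
  refine ⟨A.piecewise b₁ b₂, ?_⟩
  rw [union_eq_iUnion]
  refine IsDO.iUnion (fun j => by cases j; exacts [hB, hA]) fun j => ?_
  cases j
  · refine h₂.congr (fun m hm => ?_) fun _ _ => rfl
    by_cases q : m ∈ A
    · rw [piecewise_eq_of_mem _ _ _ q]
      exact h m ⟨q, hm⟩
    · exact piecewise_eq_of_notMem _ _ _ q
  · exact h₁.congr (fun m hm => piecewise_eq_of_mem _ _ _ hm) fun _ _ => rfl

omit [IsManifold 𝓘(ℝ, E6) ∞ M] in
theorem HM1_deg (ψ : E6 → M) (δ : Fo M 0) (x : E6) : pl ψ δ x = δ (ψ x) := by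
  ext v
  exact congrArg (δ (ψ x)) (Subsingleton.elim _ _)

theorem HM1_lc (hO : IsOpen O) {δ : Fo M 0} (h : ClO δ O) {m : M} (hm : m ∈ O) :
    ∀ᶠ m' in 𝓝 m, δ m' = δ m := by
  obtain ⟨ψ, U, x, hP, hx, rfl, hmp⟩ := G2a_chart hO hm
  obtain ⟨r, hr, hs⟩ := Metric.isOpen_iff.1 hP.opn x hx
  refine mem_of_superset ((hP.isOpen_image Metric.isOpen_ball hs).mem_nhds
    ⟨x, Metric.mem_ball_self hr, rfl⟩) ?_
  rintro _ ⟨y, hy, rfl⟩
  have e := (FMV_mono (h ψ U hP hmp) hs).const Metric.isOpen_ball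
    (convex_ball x r).isPreconnected hy (Metric.mem_ball_self hr)
  rwa [HM1_deg, HM1_deg] at e

theorem mv1 (hA : IsOpen A) (hB : IsOpen B) {w : Fo M 1} (h₁ : ExO w A) (h₂ : ExO w B)
    (h : IsPreconnected (A ∩ B)) : ExO w (A ∪ B) := by
  obtain ⟨b₁, h₁⟩ := h₁
  obtain ⟨b₂, h₂⟩ := h₂
  have hδ := (h₁.mono (inter_subset_left (t := B))).sub_cl (h₂.mono inter_subset_right)
  have hc : ∀ x ∈ A ∩ B, ∀ y ∈ A ∩ B, (b₁ - b₂) x = (b₁ - b₂) y := fun x hx y hy =>
    h.induction₂' (fun x y => (b₁ - b₂) x = (b₁ - b₂) y) (fun x hx =>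
      ((HM1_lc (hA.inter hB) hδ hx).filter_mono nhdsWithin_le_nhds).mono
        fun _ e => ⟨e.symm, e⟩) (fun _ _ _ _ _ _ e e' => e.trans e') hx hy
  obtain ⟨κ, hκ⟩ : ∃ κ, ∀ x ∈ A ∩ B, (b₁ - b₂) x = κ := by
    rcases (A ∩ B).eq_empty_or_nonempty with e | ⟨y, hy⟩
    · exact ⟨0, fun x hx => absurd (e ▸ hx) (notMem_empty x)⟩
    · exact ⟨_, fun x hx => hc x hx y hy⟩
  have hk : ClO (fun _ : M => κ) A := fun ψ U _ _ => by
    rw [show pl ψ (fun _ : M => κ) = fun _ => κ from funext fun x => HM1_deg ψ _ x]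
    exact ⟨contDiffOn_const, fun x _ => extDeriv_const κ x⟩
  refine HM1_glue hA hB (G3_subcl h₁ hk) h₂ fun m hm => ?_
  rw [Pi.sub_apply, ← hκ m hm, Pi.sub_apply, sub_sub_cancel]

theorem ExO.disj (hA : IsOpen A) (hB : IsOpen B) {w : Fo M (k + 1)} (h₁ : ExO w A) (h₂ : ExO w B)
    (h : Disjoint A B) : ExO w (A ∪ B) := by
  obtain ⟨b₁, h₁⟩ := h₁
  obtain ⟨b₂, h₂⟩ := h₂
  exact HM1_glue hA hB h₁ h₂ fun m hm => (disjoint_left.1 h hm.1 hm.2).elim

theorem tor_sub {w w' : Fo M 2} (h : SmO w O) (h' : SmO w' O) (hO : IsOpen O) {c : ℝ × ℝ → M}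
    (hc : ∀ p, SmAt c p) (hm : ∀ p, c p ∈ O) : tor c (w - w') = tor c w - tor c w' := by
  have hi : ∀ {a : Fo M 2}, SmO a O → ∀ s, IntervalIntegrable
      (fun t => pl c a (s, t) ![(1, 0), (0, 1)]) MeasureTheory.volume 0 1 := fun ha s =>
    (G7a_cont (G7a_app (ha.pl hO isOpen_univ (fun y _ => hc y) fun y _ => hm y) _).continuousOn
      fun t _ => mem_univ _).intervalIntegrable
  have e : ∀ s, cyl c (w - w') s = cyl c w s - cyl c w' s := fun s => by
    rw [cyl, cyl, cyl, ← intervalIntegral.integral_sub (hi h s) (hi h' s), pl_sub]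
    rfl
  rw [tor, tor, tor, ← intervalIntegral.integral_sub
    ((cyl_continuous h hO hc hm).intervalIntegrable _ _)
    ((cyl_continuous h' hO hc hm).intervalIntegrable _ _)]
  simp only [e]

theorem HM1_per {F : Type} [NormedAddCommGroup F] [NormedSpace ℝ F] [FiniteDimensional ℝ F]
    (b : Fo M k) {c : F → M} {x v : F} (hc : SmAt c (x + v)) (hp : ∀ p, c (p + v) = c p) :
    pl c b (x + v) = pl c b x := by
  have h := pl_comp (f := fun p : F => p + v) (x := x) hc (contDiffAt_id.add contDiffAt_const) b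
  rw [show (fun p : F => c (p + v)) = c from funext hp] at h
  rw [h, pb, fderiv_add_const, fderiv_fun_id]
  rfl

theorem HM1_flat {K : Fm (ℝ × ℝ) 1} {η : Fm (ℝ × ℝ) 2} (h : IsD K η univ)
    (h1 : ∀ s, K (s, 1) = K (s, 0)) (h2 : ∀ t, K (1, t) = K (0, t)) :
    ∫ s in (0 : ℝ)..1, ∫ t in (0 : ℝ)..1, η (s, t) ![(1, 0), (0, 1)] = 0 := by
  rw [intervalIntegral.integral_eq_sub_of_hasDerivAt
    (f := fun s => ∫ t in (0 : ℝ)..1, K (s, t) ![(0, 1)])
    (fun s _ => G7a_flat isOpen_univ h (fun t _ => mem_univ _) (h1 s))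
    ((G7a_int isOpen_univ (G7a_app (h.cl isOpen_univ).1 _)).1.mono
      fun s _ t _ => mem_univ _).intervalIntegrable]
  simp only [h2, sub_self]

theorem HM1_deg2 {F : Type} [NormedAddCommGroup F] [NormedSpace ℝ F] [FiniteDimensional ℝ F]
    (w : Fo M 2) {c : F → M} (L : ℝ × ℝ →L[ℝ] F) {p : ℝ × ℝ} (hc : SmAt c (L p))
    (h : L (1, 0) = 0 ∨ L (0, 1) = 0) : pl (fun q => c (L q)) w p ![(1, 0), (0, 1)] = 0 := by
  rw [pl_comp hc L.contDiff.contDiffAt, pb, L.fderiv,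
    ContinuousAlternatingMap.compContinuousLinearMap_apply]
  rcases h with h | h
  · exact (pl c w (L p)).map_coord_zero 0 h
  · exact (pl c w (L p)).map_coord_zero 1 h

theorem tor_zero {w : Fo M 2} (hw : ClO w O) (hO : IsOpen O) {c : ℝ × ℝ × ℝ → M}
    {N : Set (ℝ × ℝ × ℝ)} (hN : IsOpen N) (hc : ∀ p ∈ N, SmAt c p)
    (hm : ∀ r ∈ Icc (0 : ℝ) 1, ∀ p, (r, p) ∈ N ∧ c (r, p) ∈ O)
    (h1 : ∀ r s t, c (r, s + 1, t) = c (r, s, t)) (h2 : ∀ r s t, c (r, s, t + 1) = c (r, s, t))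
    (h0 : (∀ s t, c (0, s, t) = c (0, 0, t)) ∨ ∀ s t, c (0, s, t) = c (0, s, 0)) :
    tor (fun p => c (1, p)) w = 0 := by
  have hW : IsOpen (N ∩ c ⁻¹' O) := ContinuousOn.isOpen_inter_preimage
    (fun p hp => (ContMDiffAt.continuousAt (hc p hp)).continuousWithinAt) hN hO
  have hG := hw.pl hO hW (fun y hy => hc y hy.1) fun y hy => hy.2
  have hs : ∀ r ∈ Icc (0 : ℝ) 1, ∀ p, SmAt c (r, p) := fun r hr p => hc _ (hm r hr p).1
  have hH : ContDiffOn ℝ ∞ (fun p : ℝ × ℝ × ℝ => p) (N ∩ c ⁻¹' O) := contDiffOn_id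
  have hK := homotopy hW hH hW (fun _ h => h) hG isOpen_univ (fun r hr p _ => hm r hr p) 1 0
  have hper : ∀ v : ℝ × ℝ, (∀ r p, c (r, p + v) = c (r, p)) → ∀ p,
      Th.hK (fun t => 1 + 0 * t) (fun p : ℝ × ℝ × ℝ => p) (pl c w) (p + v) =
        Th.hK (fun t => 1 + 0 * t) (fun p : ℝ × ℝ × ℝ => p) (pl c w) p := fun v hv p => by
    rw [FHom_hK hW hH _ _ fun r hr => hm r hr _, FHom_hK hW hH _ _ fun r hr => hm r hr _, pb_id]
    refine intervalIntegral.integral_congr fun r hr => ?_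
    have e : ((r, p) + (0, v) : ℝ × ℝ × ℝ) = (r, p + v) := Prod.ext (add_zero _) rfl
    have e' := HM1_per w (c := c) (x := (r, p)) (v := (0, v))
      (e ▸ hs r (by simpa using hr) _) fun q => by
        rw [show q + (0, v) = (q.1, q.2 + v) from Prod.ext (add_zero _) rfl, hv]
    rw [e] at e'
    simp only [FHom_B, e']
  have hA : ∀ r ∈ Icc (0 : ℝ) 1, ∀ p, Th.hA (fun p : ℝ × ℝ × ℝ => p) (pl c w) r p =
      pl (fun p => c (r, p)) w p := fun r hr p =>
    (pl_comp (f := fun p : ℝ × ℝ => (r, p)) (hs r hr p)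
      (contDiffAt_const.prodMk contDiffAt_id) w).symm
  have h00 : (0 : ℝ) ∈ Icc (0 : ℝ) 1 := ⟨le_rfl, zero_le_one⟩
  have hz : ∀ p, pl (fun p => c (0, p)) w p ![(1, 0), (0, 1)] = 0 := fun p => by
    rcases h0 with h0 | h0
    · rw [show (fun p : ℝ × ℝ => c (0, p)) = fun p : ℝ × ℝ => c (0, 0, p.2) from
        funext fun p => h0 p.1 p.2]
      exact HM1_deg2 w ((0 : ℝ × ℝ →L[ℝ] ℝ).prod ((0 : ℝ × ℝ →L[ℝ] ℝ).prod
        (ContinuousLinearMap.snd ℝ ℝ ℝ))) (hs 0 h00 _) (Or.inl rfl)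
    · rw [show (fun p : ℝ × ℝ => c (0, p)) = fun p : ℝ × ℝ => c (0, p.1, 0) from
        funext fun p => h0 p.1 p.2]
      exact HM1_deg2 w ((0 : ℝ × ℝ →L[ℝ] ℝ).prod ((ContinuousLinearMap.fst ℝ ℝ ℝ).prod
        (0 : ℝ × ℝ →L[ℝ] ℝ))) (hs 0 h00 _) (Or.inr rfl)
  have e := HM1_flat hK (fun s => by
      simpa using hper (0, 1) (fun r p => by
        rw [show p + (0, 1) = (p.1, p.2 + 1) from Prod.ext (add_zero _) rfl, h2]) (s, 0))
    fun t => by
      simpa using hper (1, 0) (fun r p => by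
        rw [show p + (1, 0) = (p.1 + 1, p.2) from Prod.ext rfl (add_zero _), h1]) (0, t)
  simp only [hA 1 ⟨zero_le_one, le_rfl⟩, hA 0 h00, add_zero, one_smul, zero_smul, sub_zero,
    ContinuousAlternatingMap.sub_apply, hz] at e
  exact e


end Pool.Agent.Work.MP_bf98aa_gt.B3
end
end

-- merged part: Pool.Agent.Work.MP_bf98aa_gt.B3.HC
section
/-!
Contraction with the circle direction, wedge products, basic forms.
PLAN. `ContinuousAlternatingMap.alternatizeUncurryFin_apply`, `extDeriv` is `alternatizeUncurryFin (fderiv ..)`; split off the index `0` with `Fin.sum_univ_succ` (see `FHom_remove`, `FHom_cartan`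
in Th/FHom). `PP` is the linear map `PL`; `v = PL v + v (2,1) • bv (2,1)`. For `bas_of`: a form that vanishes when one slot is `e = bv (2,1)` is unchanged when each slot `v` is replaced by `PL v`
(induction over the slots, or `MultilinearMap.map_add_univ`). `xi`, `gv`: `d1_smul`, `d1_fderiv` of G1; `xi = og • xf v - d1 (og • th)`.
-/

set_option autoImplicit false

open scoped Manifold ContDiff Topology Matrix ComplexConjugate
open Set Complex Filter

namespace Pool.Agent.Work.MP_bf98aa_gt.B3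

open Pool.Agent.Work.MP_bf98aa_gt.Th Pool.Agent.Work.MP_bf98aa_gt.Cy

variable {k : ℕ} {α : Fm E6 (k + 1)} {β : Fm E6 k} {f g : E6 → E6} {z : E6}

theorem ML_apply (A : M4) (σ : ℝ) (z : E6) :
    ML A σ z = mk4 (A *ᵥ xv z) (σ * z (2, 0)) (z (2, 1)) := rfl

/-- The linear map `PP`. -/
noncomputable def HC_L : E6 →L[ℝ] E6 :=
  ContinuousLinearMap.id ℝ E6 - (dc (2, 1)).smulRight (bv (2, 1))

/-- The contraction as a linear map. -/
noncomputable def HC_C (k : ℕ) : Alt E6 (k + 1) →L[ℝ] Alt E6 k :=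
  (ContinuousLinearMap.apply ℝ (Alt E6 k) (bv (2, 1))).comp
    ContinuousAlternatingMap.curryLeftLI.toContinuousLinearMap

theorem HC_PP (z : E6) : PP z = HC_L z := by
  apply ext6 <;> simp [PP, HC_L, dc_apply, bv]

theorem HC_pb (β : Fm E6 k) (z : E6) : pb PP β z = (β (PP z)).compContinuousLinearMap HC_L := by
  rw [pb, show fderiv ℝ PP z = HC_L from funext HC_PP ▸ HC_L.fderiv]

theorem HC_inv (hi : ∀ s : ℝ, β (z + s • bv (2, 1)) = β z) : β (PP z) = β z := by
  rw [← hi (-z (2, 1)), HC_PP, neg_smul]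
  exact congrArg β (sub_eq_add_neg _ _)

theorem HC_hor {w : Alt E6 k} (h : ∀ (v : Fin k → E6) (i : Fin k), v i = bv (2, 1) → w v = 0) :
    w.compContinuousLinearMap HC_L = w := by
  ext v
  have e : v = HC_L ∘ v + fun i => v i (2, 1) • bv (2, 1) :=
    funext fun i => (sub_add_cancel _ _).symm
  conv_rhs => rw [e]
  refine ((w.toMultilinearMap.map_add_univ _ _).trans ?_).symm
  rw [Finset.sum_eq_single Finset.univ (fun s _ hs => ?_) fun k => absurd (Finset.mem_univ _) k,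
    Finset.piecewise_univ]
  · rfl
  · obtain ⟨i, hi⟩ := not_forall.1 (mt Finset.eq_univ_iff_forall.2 hs)
    rw [← Function.update_eq_self i (s.piecewise _ _), s.piecewise_eq_of_notMem _ _ hi,
      MultilinearMap.map_update_smul]
    exact smul_eq_zero_of_right _ (h _ i (Function.update_self _ _ _))

theorem HC_cart {F : E6 →L[ℝ] Alt E6 (k + 1)} {G : E6 →L[ℝ] Alt E6 k} {e : E6}
    (h : ∀ u, G u = (F u).curryLeft e) :
    (ContinuousAlternatingMap.alternatizeUncurryFin F).curryLeft e =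
      F e - ContinuousAlternatingMap.alternatizeUncurryFin G := by
  ext v
  simp only [ContinuousAlternatingMap.curryLeft_apply_apply, ContinuousAlternatingMap.sub_apply,
    ContinuousAlternatingMap.alternatizeUncurryFin_apply, h]
  rw [Fin.sum_univ_succ]
  simp only [FHom_remove, Fin.val_zero, pow_zero, one_smul, Matrix.cons_val_zero, Fin.val_succ,
    pow_succ, mul_neg, mul_one, neg_smul, Finset.sum_neg_distrib, Matrix.cons_val_succ,
    sub_eq_add_neg]
  rfl

theorem HC_ins (a : E6 →L[ℝ] ℝ) (w : Alt E6 (k + 1)) (e : E6) :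
    (wedge1 a w).curryLeft e = a e • w - wedge1 a (w.curryLeft e) :=
  HC_cart fun _ => rfl

theorem HC_line {V : Type} [NormedAddCommGroup V] [NormedSpace ℝ V] {φ : E6 → V}
    (h : DifferentiableAt ℝ φ z) :
    HasDerivAt (fun s : ℝ => φ (z + s • bv (2, 1))) (fderiv ℝ φ z (bv (2, 1))) 0 :=
  h.hasFDerivAt.hasLineDerivAt _

theorem io_eq (z : E6) : io z = ML (-1) 1 z := by
  rw [ML_apply, Matrix.neg_mulVec, Matrix.one_mulVec, one_mul, io]

theorem exists_PL : ∃ L : E6 →L[ℝ] E6, ∀ z, PP z = L z := by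
  exact ⟨HC_L, HC_PP⟩

theorem contDiff_PP : ContDiff ℝ ∞ PP := by
  exact funext HC_PP ▸ HC_L.contDiff

theorem contDiff_io : ContDiff ℝ ∞ io := by
  exact funext io_eq ▸ (ML (-1) 1).contDiff

theorem act_mp {c : K3} (hc : c ≠ .f) (s : ℝ) (z : E6) : act s c z = z + s • bv (2, 1) := by
  cases c
  case f => exact absurd rfl hc
  all_goals apply ext6 <;> simp [act, bv]

theorem wedge1_comp (a : E6 →L[ℝ] ℝ) (w : Alt E6 k) (L : E6 →L[ℝ] E6) :
    (wedge1 a w).compContinuousLinearMap L = wedge1 (a.comp L) (w.compContinuousLinearMap L) := by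
  ext v
  simp only [wedge1, ContinuousAlternatingMap.compContinuousLinearMap_apply,
    ContinuousAlternatingMap.alternatizeUncurryFin_apply]
  rfl

theorem wedge1_zero (a : E6 →L[ℝ] ℝ) : wedge1 a (0 : Alt E6 k) = 0 := by
  ext v
  simp [wedge1, ContinuousAlternatingMap.alternatizeUncurryFin_apply]

theorem wedge1_smul (s t : ℝ) (a : E6 →L[ℝ] ℝ) (w : Alt E6 k) :
    wedge1 (s • a) (t • w) = (s * t) • wedge1 a w := by
  rw [wedge1, wedge1, ← ContinuousAlternatingMap.alternatizeUncurryFin_smul]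
  congr 1
  ext u v
  simp [mul_mul_mul_comm]

theorem contDiff_wedge1 :
    ContDiff ℝ ∞ fun p : (E6 →L[ℝ] ℝ) × Alt E6 k => wedge1 p.1 p.2 := by
  exact (ContinuousAlternatingMap.alternatizeUncurryFinCLM ℝ E6 ℝ).contDiff.comp
    (contDiff_fst.smulRight contDiff_snd)

theorem wedge1_ins (a : E6 →L[ℝ] ℝ) {w : Alt E6 k} {e : E6}
    (h : ∀ (v : Fin k → E6) (i : Fin k), v i = e → w v = 0) :
    (wedge1 a w).curryLeft e = a e • w := by
  cases k
  · ext v
    simp only [wedge1, ContinuousAlternatingMap.curryLeft_apply_apply,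
      ContinuousAlternatingMap.alternatizeUncurryFin_apply, Fin.sum_univ_succ, Finset.univ_eq_empty,
      Finset.sum_empty, add_zero, Fin.val_zero, pow_zero, one_smul]
    rfl
  · have : w.curryLeft e = 0 := by
      ext v
      exact h _ 0 rfl
    rw [HC_ins, this, wedge1_zero, sub_zero]

theorem wedge1_ins' (a : E6 →L[ℝ] ℝ) (w : Alt E6 (k + 1)) (e : E6) :
    (wedge1 a w).curryLeft e = a e • w - wedge1 a (w.curryLeft e) := by
  exact HC_ins a w e

theorem extDeriv_fsmul {r : E6 → ℝ} (hr : DifferentiableAt ℝ r z) (hβ : DifferentiableAt ℝ β z) :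
    extDeriv (fun y => r y • β y) z = r z • extDeriv β z + wedge1 (fderiv ℝ r z) (β z) := by
  rw [extDeriv, fderiv_fun_smul hr hβ, ContinuousAlternatingMap.alternatizeUncurryFin_add,
    ContinuousAlternatingMap.alternatizeUncurryFin_smul]
  rfl

theorem Sm.ins {U : Set E6} (h : Sm α U) : Sm (ins α) U := by
  exact (HC_C k).contDiff.comp_contDiffOn h

theorem ins_add (α α' : Fm E6 (k + 1)) : ins (α + α') = ins α + ins α' := by
  exact funext fun z => map_add (HC_C k) (α z) (α' z)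

theorem ins_sub (α α' : Fm E6 (k + 1)) : ins (α - α') = ins α - ins α' := by
  exact funext fun z => map_sub (HC_C k) (α z) (α' z)

theorem ins_smul (t : ℝ) (α : Fm E6 (k + 1)) : ins (t • α) = t • ins α := by
  exact funext fun z => map_smul (HC_C k) t (α z)

theorem ins_d (hα : DifferentiableAt ℝ α z) (hi : ∀ s : ℝ, α (z + s • bv (2, 1)) = α z) :
    ins (extDeriv α) z = -extDeriv (ins α) z := by
  have h := HC_line hα
  simp only [hi] at h
  have k := HC_cart (F := fderiv ℝ α z) (G := fderiv ℝ (ins α) z) (e := bv (2, 1)) fun u =>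
    congrArg (fun L : E6 →L[ℝ] Alt E6 k => L u) ((HC_C k).hasFDerivAt.comp z hα.hasFDerivAt).fderiv
  rw [h.unique (hasDerivAt_const _ _), zero_sub] at k
  exact k

theorem curry_pb (α : Fm E6 (k + 1)) (v : E6) :
    (pb f α z).curryLeft v =
      ((α (f z)).curryLeft (fderiv ℝ f z v)).compContinuousLinearMap (fderiv ℝ f z) := by
  exact ContinuousAlternatingMap.curryLeft_compContinuousLinearMap _ _ v

theorem ins_pb {σ : ℝ} (he : fderiv ℝ f z (bv (2, 1)) = σ • bv (2, 1)) :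
    ins (pb f α) z = σ • pb f (ins α) z := by
  rw [ins, curry_pb, he, map_smul]
  rfl

theorem Eqv.fderiv {A : Atl (Bool × K3)} {i j : Bool × K3} {σ : ℝ} {N : Set E6}
    (h : Eqv A i j f σ N) (hi : i.2 ≠ .f) (hj : j.2 ≠ .f) (hz : z ∈ N) :
    fderiv ℝ f z (bv (2, 1)) = σ • bv (2, 1) := by
  have k := HC_line ((h.sm.contDiffAt (h.opn.mem_nhds hz)).differentiableAt (by simp))
  simp only [← act_mp hi, h.eqv z hz] at k
  simp only [act_mp hj] at k
  refine k.unique ?_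
  simpa using (((hasDerivAt_id (0 : ℝ)).const_mul σ).smul_const (bv (2, 1))).const_add (f z)

theorem bas_of (hi : ∀ s : ℝ, α (z + s • bv (2, 1)) = α z) (h0 : ins α z = 0) :
    pb PP α z = α z := by
  rw [HC_pb, HC_inv hi]
  refine HC_hor fun v i hv => ?_
  rw [← Fin.insertNth_self_removeNth i v, ContinuousAlternatingMap.map_insertNth, hv]
  exact smul_eq_zero_of_right _ (congrArg (fun w : Alt E6 k => w (i.removeNth v)) h0)

theorem bas_ins (hi : ∀ s : ℝ, α (z + s • bv (2, 1)) = α z) : pb PP (ins α) z = ins α z := by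
  rw [HC_pb, ins, HC_inv hi]
  exact HC_hor fun v i hv => (α z).map_eq_zero_of_eq (Matrix.vecCons (bv (2, 1)) v)
    (i := 0) (j := i.succ) hv.symm (Fin.succ_ne_zero i).symm

theorem bas_hor (h : pb PP β z = β z) (v : Fin k → E6) (i : Fin k) (hv : v i = bv (2, 1)) :
    β z v = 0 := by
  rw [← h, HC_pb]
  refine (β (PP z)).map_coord_zero i ?_
  change HC_L (v i) = 0
  simp [hv, HC_L, dc_apply, bv]

theorem bas_ins0 (h : pb PP α z = α z) : ins α z = 0 := by
  ext v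
  exact bas_hor h _ 0 rfl

theorem bas_congr {y : E6} (h : pb PP β z = β z) (h' : pb PP β y = β y) (he : PP y = PP z) :
    β y = β z := by
  rw [← h, ← h', HC_pb, HC_pb, he]

theorem pb_gauge (hf : DifferentiableAt ℝ f z) (hg : DifferentiableAt ℝ g z)
    (he : ∀ᶠ y in 𝓝 z, PP (f y) = PP (g y)) (h1 : pb PP β (f z) = β (f z))
    (h2 : pb PP β (g z) = β (g z)) : pb f β z = pb g β z := by
  have e : HC_L.comp (fderiv ℝ f z) = HC_L.comp (fderiv ℝ g z) := by
    simp only [HC_PP] at he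
    exact (HC_L.hasFDerivAt.comp z hf.hasFDerivAt).unique
      ((HC_L.hasFDerivAt.comp z hg.hasFDerivAt).congr_of_eventuallyEq he)
  rw [pb, pb, ← h1, ← h2, HC_pb, HC_pb, he.self_of_nhds]
  exact congrArg (β (PP (g z))).compContinuousLinearMap e

theorem extDeriv_fn0 (r : E6 → ℝ) : extDeriv (fn0 r) = dfn r := funext (G4_ext r)

theorem exists_fn0 (γ : Fm E6 0) : ∃ r, γ = fn0 r := ⟨fun z => γ z ![], funext fun _ => G4_zero _⟩

theorem sm_fn0 {r : E6 → ℝ} {U : Set E6} : Sm (fn0 r) U ↔ ContDiffOn ℝ ∞ r U :=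
  (ContinuousAlternatingMap.constOfIsEmptyLIE ℝ E6 ℝ
    (Fin 0)).toContinuousLinearEquiv.comp_contDiffOn_iff

theorem pb_fn0 (r : E6 → ℝ) : pb f (fn0 r) = fn0 fun y => r (f y) :=
  funext (pb_deg_zero f (fn0 r))

theorem pb_dfn {r : E6 → ℝ} (hf : DifferentiableAt ℝ f z) (hr : DifferentiableAt ℝ r (f z)) :
    pb f (dfn r) z = dfn (fun y => r (f y)) z := by
  rw [dfn, fderiv_fun_comp z hr hf]
  rfl

theorem cl_dfn {r : E6 → ℝ} {U : Set E6} (hU : IsOpen U) (hr : ContDiffOn ℝ ∞ r U) :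
    Cl (dfn r) U := G2_cl1 hU hr

theorem HC_xf (Ω : M4) (v : Fin 2 → E6) :
    xf Ω v = (bf Ω (xv (v 0)) (xv (v 1)) - bf Ω (xv (v 1)) (xv (v 0))) / 2 := by
  have e : ∀ i j, ((Ω i j / 2) • wedge (lf (Pi.single i 1)) (lf (Pi.single j 1))) v =
      Ω i j / 2 * (xv (v 0) i * xv (v 1) j - xv (v 1) i * xv (v 0) j) := fun i j => by
    rw [ContinuousAlternatingMap.smul_apply, wedge_apply]
    simp [lf_apply]
  rw [xf, ContinuousAlternatingMap.sum_apply, Finset.sum_congr rfl fun i _ =>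
    (ContinuousAlternatingMap.sum_apply _ _).trans (Finset.sum_congr rfl fun j _ => e i j)]
  simp only [bf, dotProduct, Matrix.mulVec, Fin.sum_univ_four]
  ring

theorem xf_apply {Ω : M4} (h : Ωᵀ = -Ω) (u v : E6) : xf Ω ![u, v] = bf Ω (xv u) (xv v) := by
  rw [HC_xf, Matrix.cons_val_zero, Matrix.cons_val_one, Matrix.cons_val_zero,
    bf_skew (xv v) (xv u) h]
  ring

theorem HC_comp {Ω : M4} {L : E6 →L[ℝ] E6} {s : ℝ}
    (h : ∀ u v, bf Ω (xv (L u)) (xv (L v)) = s * bf Ω (xv u) (xv v)) :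
    (xf Ω).compContinuousLinearMap L = s • xf Ω := by
  ext v
  rw [ContinuousAlternatingMap.compContinuousLinearMap_apply, ContinuousAlternatingMap.smul_apply,
    HC_xf, HC_xf, Function.comp_apply, Function.comp_apply, h, h, smul_eq_mul]
  ring

theorem hor_xf (Ω : M4) : Hor SX (xf Ω) := by
  have e : ∀ u, xv (G6_L SX u) = xv u := fun u => by
    funext i; fin_cases i <;> rfl
  exact (HC_comp (s := 1) fun u v => by rw [e, e, one_mul]).trans (one_smul _ _)

theorem contDiff_og : ContDiff ℝ ∞ og :=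
  (Real.smoothTransition.contDiff.comp (contDiff_const.mul contDiff_id)).sub
    (Real.smoothTransition.contDiff.comp (contDiff_const.mul contDiff_id))

theorem og_neg (t : ℝ) : og (-t) = -og t := by
  simp [og]

theorem og_one {t : ℝ} (h : 1 / 16 ≤ t) : og t = 1 := by
  rw [og, Real.smoothTransition.one_of_one_le (by linarith),
    Real.smoothTransition.zero_of_nonpos (by linarith), sub_zero]

theorem HC_og : ContDiff ℝ ∞ fun y : E6 => og (y (2, 0)) := contDiff_og.comp (dc (2, 0)).contDiff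

theorem HC_dog (z : E6) :
    fderiv ℝ (fun y : E6 => og (y (2, 0))) z = deriv og (z (2, 0)) • dc (2, 0) :=
  ((contDiff_og.differentiable (by simp) _).hasDerivAt.comp_hasFDerivAt z
    (dc (2, 0)).hasFDerivAt).fderiv

theorem HC_xv (z : E6) (s : ℝ) : xv (z + s • bv (2, 1)) = xv z := by
  funext i; fin_cases i <;> simp [bv]

theorem HC_th (Ω : M4) :
    ContDiff ℝ ∞ fun z : E6 => dc (2, 1) + (1 / 2 : ℝ) • lf (xv z ᵥ* Ω) := by
  refine contDiff_const.add (ContDiff.const_smul _ (contDiff_clm_apply_iff.2 fun v => ?_))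
  simp only [lf_bf]
  exact contDiff_iff_contDiffAt.2 fun _ => contDiffAt_bf Ω contDiff_xv.contDiffAt contDiffAt_const

theorem HC_dth (Ω : M4) (z : E6) :
    d1 (fun z : E6 => dc (2, 1) + (1 / 2 : ℝ) • lf (xv z ᵥ* Ω)) z = xf Ω := by
  have e : ∀ u v : E6, fderiv ℝ (fun z : E6 => (dc (2, 1) + (1 / 2 : ℝ) • lf (xv z ᵥ* Ω)) v) z u =
      bf Ω (xv u) (xv v) / 2 := fun u v => by
    have e' : (fun z : E6 => (dc (2, 1) + (1 / 2 : ℝ) • lf (xv z ᵥ* Ω)) v) =
        fun z => v (2, 1) + ((1 / 2 : ℝ) • lf (Ω *ᵥ xv v)) z := funext fun z => by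
      simp [lf_apply, dc_apply, ← Matrix.dotProduct_mulVec, dotProduct_comm (xv z)]
    rw [e', (ContinuousLinearMap.hasFDerivAt _ |>.const_add _).fderiv]
    simp [lf_apply, bf, dotProduct_comm]
    ring
  refine alt_ext_two fun u v => ?_
  rw [d1_apply' (HC_th Ω).contDiffAt, e, e, HC_xf, sub_div]
  rfl

namespace HD

variable (d : HD)

theorem contDiff_th (c : K3) : ContDiff ℝ ∞ (d.th c) := by
  cases c <;> exact HC_th _

theorem th_e (c : K3) (z : E6) : d.th c z (bv (2, 1)) = 1 := by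
  cases c <;> simp [th, lf, dc, bv]

theorem th_shift (c : K3) (z : E6) (s : ℝ) : d.th c (z + s • bv (2, 1)) = d.th c z := by
  cases c <;> simp only [th, HC_xv]

theorem contDiff_xi : ContDiff ℝ ∞ d.xi := by
  have h := contDiff_wedge.comp ((d.contDiff_th .m).prodMk (HC_og.fderiv_right (m := ∞) le_rfl))
  exact h

theorem contDiff_gv : ContDiff ℝ ∞ d.gv := (HC_og.sub contDiff_const).smul contDiff_const

theorem xi_shift (z : E6) (s : ℝ) : d.xi (z + s • bv (2, 1)) = d.xi z := by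
  rw [xi, xi, th_shift, HC_dog, HC_dog]
  simp [bv]

theorem xi_zero {z : E6} (h : 1 / 16 < z (2, 0)) : d.xi z = 0 := by
  have e : og =ᶠ[𝓝 (z (2, 0))] fun _ => 1 := (lt_mem_nhds h).mono fun t ht => og_one ht.le
  ext v
  rw [xi, HC_dog, e.deriv_eq, wedge_apply]
  simp

theorem gv_zero {z : E6} (h : 1 / 16 ≤ z (2, 0)) : d.gv z = 0 := by
  rw [gv, og_one h, sub_self, zero_smul]

theorem ins_xi (z : E6) : ins d.xi z = dfn (fun y => og (y (2, 0))) z := by
  ext v
  rw [ins, xi, dfn, ContinuousAlternatingMap.curryLeft_apply_apply, wedge_apply, alt1_apply,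
    HC_dog]
  simp only [Matrix.cons_val_zero, d.th_e]
  simp [dc, bv]

theorem d_xi (z : E6) : extDeriv d.xi z = extDeriv d.gv z := by
  have hl : ContDiff ℝ ∞ fun y : E6 => og (y (2, 0)) • d.th .m y := HC_og.smul (d.contDiff_th .m)
  have hc := d1_cl isOpen_univ fun y _ => hl.contDiffAt
  have h1 := hc.1.diffAt isOpen_univ (mem_univ z)
  have e : d.xi = d.gv - (d1 (fun y : E6 => og (y (2, 0)) • d.th .m y) - fun _ => xf (rm d.v)) := by
    funext y
    rw [Pi.sub_apply, Pi.sub_apply, d1_smul HC_og.contDiffAt (d.contDiff_th .m).contDiffAt,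
      show d1 (d.th .m) y = _ from HC_dth _ y]
    ext v
    simp [xi, gv, wedge_apply]
    ring
  rw [e, extDeriv_sub' (d.contDiff_gv.differentiable (by simp) z)
    (h1.sub (differentiableAt_const _)), extDeriv_sub' h1 (differentiableAt_const _),
    hc.2 z (mem_univ z), extDeriv_const, sub_zero, sub_zero]

theorem HC_pb {L : E6 →L[ℝ] E6} {s : ℝ} (hf : fderiv ℝ f z = L)
    (h : ∀ u v, bf (rm d.v) (xv (L u)) (xv (L v)) = s * bf (rm d.v) (xv u) (xv v)) :
    pb f d.gv z = ((og (f z (2, 0)) - 1) * s) • xf (rm d.v) := by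
  rw [mul_smul, ← HC_comp h, ← hf]
  exact pb_fun_smul f (fun y => og (y (2, 0)) - 1) (fun _ => xf (rm d.v)) z

theorem sy_gv (U : Set E6) : Sy SX U d.gv := by
  refine ⟨fun i hi z _ => ?_, fun z _ => ?_, fun z _ => ?_⟩
  · have : i ≠ (2, 0) := by rintro rfl; exact absurd hi (by decide)
    simp [gv, bv, this.symm]
  · rw [d.HC_pb (s := 1) (L := ML (-1) 1) (by rw [funext io_eq, ContinuousLinearMap.fderiv])
      fun u v => by simp [ML_apply, Matrix.neg_mulVec, bf_neg_left, bf_neg_right], mul_one]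
    rfl
  · obtain ⟨L, hL⟩ := exists_PL
    rw [d.HC_pb (s := 1) (L := L) (by rw [funext hL, ContinuousLinearMap.fderiv])
      fun u v => by simp [← hL, PP], mul_one]
    rfl

theorem contDiff_kb : ContDiff ℝ ∞ d.kb := (ML _ _).contDiff.add contDiff_const

theorem HC_kb (z : E6) : fderiv ℝ d.kb z = ML (rm d.T) (-1) :=
  ((ML _ _).hasFDerivAt.add_const _).fderiv

theorem pb_kb_const (c : Alt E6 k) (z : E6) :
    pb d.kb (fun _ => c) z = c.compContinuousLinearMap (ML (rm d.T) (-1)) := by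
  rw [pb, HC_kb]

variable {d}

theorem Ok.gv_kb (h : d.Ok) (z : E6) : d.gv z - pb d.kb d.gv z = (-2 : ℝ) • xf (rm d.v) := by
  have e : d.kb z (2, 0) = -z (2, 0) := by simp [kb, ML_apply]
  rw [d.HC_pb (s := -1) (d.HC_kb z) fun u v => by simp [ML_apply, h.bf_vT], e, og_neg, gv]
  ext v
  simp
  ring

end HD


end Pool.Agent.Work.MP_bf98aa_gt.B3
end

-- merged part: Pool.Agent.Work.MP_bf98aa_gt.B3.HL
section
/-!
Linear algebra of constant forms on the four-torus.
PLAN. A form `c` with `Hor SX c` is `xf Ω` for the skew matrix `Ω i j = c ![e i, e j]`, and `(xf Ω) ∘ ML A σ = xf (Aᵀ Ω A)` (`xf_apply`, `bf_pull`). A skew `Ω` with `Tᵀ Ω T = Ω` is a combination of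
`α, β` (conjugate with `A`: `Aᵀ Ω A` commutes with `diag (1,1,-1,-1)`). By `ind` the linear map `ℝ⁶ → skew matrices` is injective, so onto (compose with the six upper entries,
`LinearMap.injective_iff_surjective`). `lin3`: use the pairing `⟨Ω, Ω'⟩ = pf4 (Ω + Ω') - pf4 Ω - pf4 Ω'`, `pf4 (Gᵀ Ω G) = det G * pf4 Ω` for skew `Ω`, `det T = 1`, `⟨Ω, E23⟩ = Ω 0 1`;
`Ω` is orthogonal to `α, β` of both halves and to both `E23`; `slope` and `GD.Ok.Om_up` at `m = 0` (with `HD.Om_up`, `shf_high`, `shf_low`) give two independent relations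
(`M_A + M_B ≠ 0`), so `Ω` is orthogonal to both `v`, hence to all skew matrices. `lin1`: `l b` need not be a multiple of `v`; solve `ν + l/2 - s v ∈ span (α, β)` on both sides.
-/

set_option autoImplicit false

open scoped Manifold ContDiff Topology Matrix ComplexConjugate
open Set Complex Filter

namespace Pool.Agent.Work.MP_bf98aa_gt.B3

open Pool.Agent.Work.MP_bf98aa_gt.Th Pool.Agent.Work.MP_bf98aa_gt.Cy

variable {D : GD}

theorem HL_xf {c : Alt E6 2} (h : Hor SX c) : ∃ Ω : M4, Ωᵀ = -Ω ∧ c = xf Ω := by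
  obtain ⟨B, hB⟩ := exists_bilin c
  have hs : (Matrix.of fun i j : Fin 4 => c ![mk4 (Pi.single i 1) 0 0, mk4 (Pi.single j 1) 0 0])ᵀ =
      -Matrix.of fun i j : Fin 4 => c ![mk4 (Pi.single i 1) 0 0, mk4 (Pi.single j 1) 0 0] := by
    ext i j; exact alt2_swap c _ _
  refine ⟨_, hs, alt_ext_two fun u v => ?_⟩
  have e : ∀ u, G6_L SX u = ∑ i : Fin 4, xv u i • mk4 (Pi.single i 1) 0 0 := fun u => by
    rw [G6_L_apply]
    apply ext6 <;> simp [slice, SX, Fin.sum_univ_four]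
  have e2 : c ![u, v] = c ![G6_L SX u, G6_L SX v] := by
    conv_lhs => rw [← h]
    exact congrArg c (funext fun i => by fin_cases i <;> rfl)
  rw [xf_apply hs, e2, hB, e, e]
  simp only [bf, Matrix.mulVec, dotProduct, Fin.sum_univ_four, Matrix.of_apply, hB, map_add,
    map_smul, add_apply, smul_apply, smul_eq_mul]
  ring

theorem HL_comp {Ω : M4} (h : Ωᵀ = -Ω) (A : M4) (σ : ℝ) :
    (xf Ω).compContinuousLinearMap (ML A σ) = xf (Aᵀ * Ω * A) := by
  refine alt_ext_two fun u v => ?_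
  rw [xf_apply (pull_skew h A), bf_pull, ← xv_mk4 (A *ᵥ xv u) (σ * u (2, 0)) (u (2, 1)),
    ← xv_mk4 (A *ᵥ xv v) (σ * v (2, 0)) (v (2, 1)), ← xf_apply h]
  exact congrArg (xf Ω) (funext fun i => by fin_cases i <;> rfl)

theorem HL_inj {Ω Ω' : M4} (h : Ωᵀ = -Ω) (h' : Ω'ᵀ = -Ω') (e : xf Ω = xf Ω') : Ω = Ω' := by
  ext i j
  have := xf_apply h (mk4 (Pi.single i 1) 0 0) (mk4 (Pi.single j 1) 0 0)
  rw [e, xf_apply h', xv_mk4, xv_mk4, bf_single, bf_single] at this
  exact this.symm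

theorem HL_smul (t : ℝ) (Ω : M4) : t • xf Ω = xf (t • Ω) := by
  simp [xf, Finset.smul_sum, smul_smul, mul_div_assoc]

theorem HL_sub (Ω Ω' : M4) : xf Ω - xf Ω' = xf (Ω - Ω') := by
  simp only [xf, ← Finset.sum_sub_distrib, Matrix.sub_apply, sub_div]
  exact Finset.sum_congr rfl fun i _ => Finset.sum_congr rfl fun j _ => (sub_smul _ _ _).symm

theorem HL_zero : xf 0 = 0 := by simp [xf]

theorem HL_sks {Ω : M4} (h : Ωᵀ = -Ω) (t : ℝ) : (t • Ω)ᵀ = -(t • Ω) := by
  rw [Matrix.transpose_smul, h, smul_neg]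

theorem HL_skb {Ω Ω' : M4} (h : Ωᵀ = -Ω) (h' : Ω'ᵀ = -Ω') : (Ω - Ω')ᵀ = -(Ω - Ω') := by
  rw [Matrix.transpose_sub, h, h']; abel

/-- A skew matrix from its upper entries. -/
def HL_sk (a b c d e f : ℝ) : M4 := !![0, a, b, c; -a, 0, d, e; -b, -d, 0, f; -c, -e, -f, 0]

theorem HL_sk_skew (a b c d e f : ℝ) : (HL_sk a b c d e f)ᵀ = -HL_sk a b c d e f := by
  ext i j; fin_cases i <;> fin_cases j <;> simp [HL_sk]

theorem HL_eq_sk {Ω : M4} (h : Ωᵀ = -Ω) :
    Ω = HL_sk (Ω 0 1) (Ω 0 2) (Ω 0 3) (Ω 1 2) (Ω 1 3) (Ω 2 3) := by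
  have e : ∀ i j, Ω j i = -Ω i j := fun i j => congrFun (congrFun h i) j
  have e0 : ∀ i, Ω i i = 0 := fun i => by linarith [e i i]
  ext i j
  fin_cases i <;> fin_cases j <;> simp [HL_sk, e0] <;> exact e _ _

/-- The Pfaffian pairing. -/
def HL_pp (Ω W : M4) : ℝ := Ω 0 1 * W 2 3 + Ω 2 3 * W 0 1 - Ω 0 2 * W 1 3 - Ω 1 3 * W 0 2 +
  Ω 0 3 * W 1 2 + Ω 1 2 * W 0 3

theorem HL_pull {Ω W : M4} (h : Ωᵀ = -Ω) (h' : Wᵀ = -W) (G : M4) :
    HL_pp (Gᵀ * Ω * G) (Gᵀ * W * G) =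
      HL_pp (Gᵀ * rm E01 * G) (Gᵀ * rm E23 * G) * HL_pp Ω W := by
  rw [HL_eq_sk h, HL_eq_sk h']
  simp [HL_pp, HL_sk, rm, E01, E23, Matrix.mul_apply, Fin.sum_univ_four]
  ring

theorem HL_pa (Ω W W' : M4) : HL_pp Ω (W + W') = HL_pp Ω W + HL_pp Ω W' := by
  simp only [HL_pp, Matrix.add_apply]; ring

theorem HL_pb (Ω W W' : M4) : HL_pp Ω (W - W') = HL_pp Ω W - HL_pp Ω W' := by
  simp only [HL_pp, Matrix.sub_apply]; ring

theorem HL_ps (Ω W : M4) (t : ℝ) : HL_pp Ω (t • W) = t * HL_pp Ω W := by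
  simp only [HL_pp, Matrix.smul_apply, smul_eq_mul]; ring

theorem HL_pn (Ω W : M4) : HL_pp (-Ω) W = -HL_pp Ω W := by
  simp only [HL_pp, Matrix.neg_apply]; ring

theorem HL_back {G G' : M4} (h : G * G' = 1) (Ω : M4) : G'ᵀ * (Gᵀ * Ω * G) * G' = Ω := by
  calc _ = (G * G')ᵀ * Ω * (G * G') := by simp only [Matrix.transpose_mul, Matrix.mul_assoc]
    _ = _ := by rw [h]; simp

theorem HL_T {d : HD} (h : d.Ok) : (rm d.T)ᵀ * rm d.α * rm d.T = rm d.α ∧
    (rm d.T)ᵀ * rm d.β * rm d.T = rm d.β ∧ (rm d.T)ᵀ * rm d.v * rm d.T = -rm d.v := by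
  simp only [← rm_tr, ← rm_mul, h.Tα, h.Tβ, h.Tv, rm_neg, and_self]

theorem HL_even {d : HD} (h : d.Ok) {Ω : M4} (hs : Ωᵀ = -Ω)
    (hT : (rm d.T)ᵀ * Ω * rm d.T = Ω) : ∃ p q : ℝ, Ω = p • rm d.α + q • rm d.β := by
  have e1 : (rm d.A)ᵀ * Ω * rm d.A = (rm (Matrix.diagonal ![1, 1, -1, -1]))ᵀ *
      ((rm d.A)ᵀ * Ω * rm d.A) * rm (Matrix.diagonal ![1, 1, -1, -1]) := by
    calc _ = (rm d.T * rm d.A)ᵀ * Ω * (rm d.T * rm d.A) := by
          conv_lhs => rw [← hT]
          simp only [Matrix.transpose_mul, Matrix.mul_assoc]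
      _ = _ := by
          rw [← rm_mul, h.TA, rm_mul]
          simp only [Matrix.transpose_mul, Matrix.mul_assoc]
  have e2 := HL_back (show rm d.A * rm d.A' = 1 by rw [← rm_mul, h.AA, rm_one]) Ω
  have e3 := HL_eq_sk (pull_skew hs (rm d.A))
  generalize (rm d.A)ᵀ * Ω * rm d.A = W at e1 e2 e3
  have e4 : W = W 0 1 • rm E01 + W 2 3 • rm E23 := by
    have f : ∀ i j, W i j = _ := fun i j => congrFun (congrFun e1 i) j
    have f1 := f 0 2
    have f2 := f 0 3
    have f3 := f 1 2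
    have f4 := f 1 3
    simp [rm, Matrix.mul_apply, Matrix.diagonal_apply] at f1 f2 f3 f4
    rw [show W 0 2 = 0 by linarith, show W 0 3 = 0 by linarith, show W 1 2 = 0 by linarith,
      show W 1 3 = 0 by linarith] at e3
    refine e3.trans ?_
    ext i j
    fin_cases i <;> fin_cases j <;> simp [HL_sk, rm, E01, E23]
  refine ⟨W 0 1, W 2 3, ?_⟩
  rw [← e2, HD.α, HD.β, rm_mul, rm_mul, rm_mul, rm_mul, rm_tr]
  conv_lhs => rw [e4]
  simp only [Matrix.mul_add, Matrix.add_mul, Matrix.mul_smul, Matrix.smul_mul]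

theorem HL_odd {d : HD} (h : d.Ok) {Ω : M4} (hs : Ωᵀ = -Ω)
    (hT : (rm d.T)ᵀ * Ω * rm d.T = -Ω) : HL_pp Ω (rm d.α) = 0 ∧ HL_pp Ω (rm d.β) = 0 := by
  have sα := rm_skew d.α_skew
  have sβ := rm_skew d.β_skew
  have e1 := HL_pull sα sβ (rm d.A)
  have e2 := HL_pull sα sβ (rm d.T)
  have e3 := HL_pull hs sα (rm d.T)
  have e4 := HL_pull hs sβ (rm d.T)
  have hA : rm d.A' * rm d.A = 1 := by rw [← rm_mul, h.AA', rm_one]
  have e5 : HL_pp (rm d.α) (rm d.β) ≠ 0 := fun e => by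
    rw [e, mul_zero, HD.α, HD.β, rm_mul, rm_mul, rm_mul, rm_mul, rm_tr, HL_back hA, HL_back hA] at e1
    simp [HL_pp, rm, E01, E23] at e1
  rw [(HL_T h).1, (HL_T h).2.1] at e2
  have e6 := mul_right_cancel₀ e5 ((one_mul _).trans e2)
  rw [hT, HL_pn, ← e6] at e3 e4
  rw [(HL_T h).1] at e3
  rw [(HL_T h).2.1] at e4
  constructor <;> linarith

theorem HL_onto (h : D.Ok) {Ω : M4} (hs : Ωᵀ = -Ω) : ∃ s : Fin 6 → ℝ,
    s 0 • rm (D.H true).α + s 1 • rm (D.H true).β + s 2 • rm (D.H true).v +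
    (rm (D.G true))ᵀ * (s 3 • rm (D.H false).α + s 4 • rm (D.H false).β + s 5 • rm (D.H false).v) *
      rm (D.G true) = Ω := by
  let Φ : (Fin 6 → ℝ) → M4 := fun s =>
    s 0 • rm (D.H true).α + s 1 • rm (D.H true).β + s 2 • rm (D.H true).v +
    (rm (D.G true))ᵀ * (s 3 • rm (D.H false).α + s 4 • rm (D.H false).β + s 5 • rm (D.H false).v) *
      rm (D.G true)
  have sk : ∀ s, (Φ s)ᵀ = -Φ s := fun s => by
    simp only [Φ, Matrix.transpose_add, Matrix.transpose_mul, Matrix.transpose_smul,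
      Matrix.transpose_transpose, rm_skew (HD.α_skew _), rm_skew (HD.β_skew _),
      rm_skew (HD.v_skew _), smul_neg, ← neg_add, Matrix.mul_neg, Matrix.neg_mul, Matrix.mul_assoc]
  let Ψ : (Fin 6 → ℝ) →ₗ[ℝ] (Fin 6 → ℝ) :=
    { toFun := fun s => ![Φ s 0 1, Φ s 0 2, Φ s 0 3, Φ s 1 2, Φ s 1 3, Φ s 2 3]
      map_add' := fun s t => by
        have : Φ (s + t) = Φ s + Φ t := by
          simp only [Φ, Pi.add_apply, add_smul, Matrix.mul_add, Matrix.add_mul]; abel
        ext i; fin_cases i <;> simp [this]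
      map_smul' := fun c s => by
        have : Φ (c • s) = c • Φ s := by
          simp only [Φ, Pi.smul_apply, smul_eq_mul, mul_smul, ← smul_add, Matrix.mul_smul,
            Matrix.smul_mul]
        ext i; fin_cases i <;> simp [this] }
  have key : ∀ s (W : M4), Wᵀ = -W → Ψ s = ![W 0 1, W 0 2, W 0 3, W 1 2, W 1 3, W 2 3] →
      Φ s = W := fun s W hW e => by
    rw [HL_eq_sk (sk s), HL_eq_sk hW]
    exact congr (congr (congr (congr (congr (congrArg HL_sk (congrFun e 0)) (congrFun e 1))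
      (congrFun e 2)) (congrFun e 3)) (congrFun e 4)) (congrFun e 5)
  have inj : Function.Injective Ψ := (injective_iff_map_eq_zero Ψ).2 fun s e =>
    h.ind s (key s 0 (by simp) (e.trans (by ext i; fin_cases i <;> rfl)))
  obtain ⟨s, e⟩ := LinearMap.injective_iff_surjective.1 inj
    ![Ω 0 1, Ω 0 2, Ω 0 3, Ω 1 2, Ω 1 3, Ω 2 3]
  exact ⟨s, key s Ω hs e⟩

theorem GD.Ok.lin3 (h : D.Ok) {c : Bool → Alt E6 2} (h1 : ∀ b, Hor SX (c b))
    (h2 : ∀ b, (c (!b)).compContinuousLinearMap (ML (rm (D.G b)) (-1)) = (-1 : ℝ) • c b)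
    (h3 : ∀ b, (c b).compContinuousLinearMap (ML (rm (D.H b).T) (-1)) = (-1 : ℝ) • c b)
    (h4 : ∀ b, c b ![bv (0, 0), bv (0, 1)] = 0) (b : Bool) : c b = 0 := by
  choose Ω hs hc using fun b => HL_xf (h1 b)
  obtain rfl : c = fun b => xf (Ω b) := funext hc
  have k2 : ∀ b, (rm (D.G b))ᵀ * Ω (!b) * rm (D.G b) = -Ω b := fun b => by
    have := h2 b
    rw [HL_comp (hs _), HL_smul] at this
    rw [HL_inj (pull_skew (hs _) _) (HL_sks (hs b) _) this, neg_one_smul]
  have k3 : ∀ b, _ := fun b => HL_odd (h.ok b) (hs b) (by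
    have := h3 b
    rw [HL_comp (hs _), HL_smul] at this
    rw [HL_inj (pull_skew (hs _) _) (HL_sks (hs b) _) this, neg_one_smul])
  have k4 : ∀ b, HL_pp (Ω b) (rm E23) = 0 := fun b => by
    have := h4 b
    rw [xf_apply (hs b), show xv (bv (0, 0)) = Pi.single 0 1 by ext i; fin_cases i <;> simp [bv],
      show xv (bv (0, 1)) = Pi.single 1 1 by ext i; fin_cases i <;> simp [bv], bf_single] at this
    simp [HL_pp, rm, E23, this]
  have k5 : ∀ W : M4, Wᵀ = -W → HL_pp (Ω false) W = 0 →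
      HL_pp (Ω true) ((rm (D.G true))ᵀ * W * rm (D.G true)) = 0 := fun W hW e => by
    have := HL_pull (hs false) hW (rm (D.G true))
    rwa [e, mul_zero, show _ * Ω false * _ = _ from k2 true, HL_pn, neg_eq_zero] at this
  have k6 := k5 _ (rm_skew (HD.α_skew _)) (k3 false).1
  have k7 := k5 _ (rm_skew (HD.β_skew _)) (k3 false).2
  have k8 := k5 _ (rm_skew E23_skew) (k4 false)
  have m1 := (h.ok true).hμ
  have m2 := (h.ok false).hμ
  have e1 := congrArg (fun W => HL_pp (Ω true) (rm W)) (h.slope true)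
  have e2 := congrArg (HL_pp (Ω true)) (h.Om_up true (m := 0) (by norm_num))
  rw [HD.Om_up _ (by unfold HD.M; simp only [Bool.not_true]; linarith),
    HD.Om_up _ (by unfold HD.M; linarith)] at e2
  simp only [rm_mul, rm_tr, rm_sub, neg_sub, HD.Om0, Matrix.mul_add, Matrix.add_mul,
    Matrix.mul_sub, Matrix.sub_mul, Matrix.mul_smul, Matrix.smul_mul, HL_pa, HL_pb, HL_ps,
    Bool.not_true, k6, k7, k8, k4, (k3 true).1, (k3 true).2, HD.M] at e1 e2
  have x0 : HL_pp (Ω true) (rm (D.H true).v) = 0 := by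
    rw [show HL_pp (Ω true) (_ * rm (D.H false).v * _) = -HL_pp (Ω true) (rm (D.H true).v) by
      linarith] at e2
    exact (mul_eq_zero.1 (show ((D.H true).μ₁ + (D.H false).μ₁ + 2) * _ = 0 by
      linarith)).resolve_left (by linarith)
  obtain ⟨s, e⟩ := HL_onto h (HL_sk_skew (Ω true 2 3) (-Ω true 1 3) (Ω true 1 2) (Ω true 0 3)
    (-Ω true 0 2) (Ω true 0 1))
  have e3 := congrArg (HL_pp (Ω true)) e
  rw [x0, sub_zero, sub_zero] at e1
  simp only [Matrix.mul_add, Matrix.add_mul, Matrix.mul_smul, Matrix.smul_mul, HL_pa, HL_ps,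
    k6, k7, (k3 true).1, (k3 true).2, x0, e1] at e3
  simp [HL_pp, HL_sk] at e3
  have z : Ω true = 0 := by
    rw [HL_eq_sk (hs true), show Ω true 0 1 = 0 by nlinarith, show Ω true 0 2 = 0 by nlinarith,
      show Ω true 0 3 = 0 by nlinarith, show Ω true 1 2 = 0 by nlinarith,
      show Ω true 1 3 = 0 by nlinarith, show Ω true 2 3 = 0 by nlinarith]
    ext i j; fin_cases i <;> fin_cases j <;> simp [HL_sk]
  have z' : Ω false = 0 := by simpa [z] using (k2 false).symm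
  cases b
  · exact (congrArg xf z').trans HL_zero
  · exact (congrArg xf z).trans HL_zero

theorem GD.Ok.lin2 (h : D.Ok) {c : Bool → Alt E6 2} {s : Bool → ℝ} (h1 : ∀ b, Hor SX (c b))
    (h2 : ∀ b, (c (!b)).compContinuousLinearMap (ML (rm (D.G b)) (-1)) = (1 : ℝ) • c b)
    (h3 : ∀ b, c b - (c b).compContinuousLinearMap (ML (rm (D.H b).T) (-1)) =
      (2 * s b) • xf (rm (D.H b).v)) (b : Bool) : c b = 0 ∧ s b = 0 := by
  choose Ω hs hc using fun b => HL_xf (h1 b)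
  obtain rfl : c = fun b => xf (Ω b) := funext hc
  have k2 := h2 true
  rw [HL_comp (hs _), one_smul] at k2
  have k3 : ∀ b, ∃ p q : ℝ, Ω b = p • rm (D.H b).α + q • rm (D.H b).β + s b • rm (D.H b).v := by
    intro b
    have sv := rm_skew (D.H b).v_skew
    have := h3 b
    rw [HL_comp (hs _), HL_smul, HL_sub] at this
    have e := HL_inj (HL_skb (hs b) (pull_skew (hs b) _)) (HL_sks sv _) this
    obtain ⟨p, q, e'⟩ := HL_even (h.ok b) (HL_skb (hs b) (HL_sks sv (s b))) (by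
      rw [Matrix.mul_sub, Matrix.sub_mul, Matrix.mul_smul, Matrix.smul_mul, (HL_T (h.ok b)).2.2,
        ← sub_sub_cancel (Ω b) (_ * Ω b * _), e]
      module)
    exact ⟨p, q, sub_eq_iff_eq_add.1 e'⟩
  obtain ⟨p, q, e⟩ := k3 true
  obtain ⟨p', q', e'⟩ := k3 false
  have z := h.ind ![-p, -q, -s true, p', q', s false] (by
    change -p • _ + -q • _ + -s true • _ + _ * (p' • _ + q' • _ + s false • _) * _ = _
    rw [← e', show _ * Ω false * _ = _ from HL_inj (pull_skew (hs _) _) (hs true) k2, e]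
    module)
  have z0 : -p = 0 := congrFun z 0
  have z1 : -q = 0 := congrFun z 1
  have z2 : -s true = 0 := congrFun z 2
  have z3 : p' = 0 := congrFun z 3
  have z4 : q' = 0 := congrFun z 4
  have z5 : s false = 0 := congrFun z 5
  rw [neg_eq_zero] at z0 z1 z2
  cases b
  · exact ⟨by simp [e', z3, z4, z5, HL_zero], z5⟩
  · exact ⟨by simp [e, z0, z1, z2, HL_zero], z2⟩

theorem GD.Ok.lin1 (h : D.Ok) {l : Bool → Alt E6 2} (h1 : ∀ b, Hor SX (l b))
    (h3 : ∀ b, (l b).compContinuousLinearMap (ML (rm (D.H b).T) (-1)) = (-1 : ℝ) • l b) :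
    ∃ (c : Bool → Alt E6 2) (s : Bool → ℝ), (∀ b, Hor SX (c b)) ∧
      (∀ b, (c (!b)).compContinuousLinearMap (ML (rm (D.G b)) (-1)) = c b) ∧
      ∀ b, c b - (c b).compContinuousLinearMap (ML (rm (D.H b).T) (-1)) =
        (2 * s b) • xf (rm (D.H b).v) - l b := by
  choose L hs hc using fun b => HL_xf (h1 b)
  obtain rfl : l = fun b => xf (L b) := funext hc
  have k3 : ∀ b, (rm (D.H b).T)ᵀ * L b * rm (D.H b).T = (-1 : ℝ) • L b := fun b => by
    have := h3 b
    rw [HL_comp (hs _), HL_smul] at this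
    exact HL_inj (pull_skew (hs _) _) (HL_sks (hs b) _) this
  obtain ⟨s, e⟩ := HL_onto h (HL_sks (HL_skb (hs true) (pull_skew (hs false) (rm (D.G true))))
    (1 / 2))
  let p : Bool → ℝ := fun b => cond b (s 0) (-s 3)
  let q : Bool → ℝ := fun b => cond b (s 1) (-s 4)
  let r : Bool → ℝ := fun b => cond b (s 2) (-s 5)
  let C : Bool → M4 := fun b =>
    p b • rm (D.H b).α + q b • rm (D.H b).β + r b • rm (D.H b).v - (1 / 2 : ℝ) • L b
  have sk : ∀ b, (C b)ᵀ = -C b := fun b => HL_skb (by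
    simp only [Matrix.transpose_add, Matrix.transpose_smul, rm_skew (HD.α_skew _),
      rm_skew (HD.β_skew _), rm_skew (HD.v_skew _), smul_neg, neg_add]) (HL_sks (hs b) _)
  have k : (rm (D.G true))ᵀ * C false * rm (D.G true) = C true := by
    simp only [C, p, q, r, cond, Matrix.mul_add, Matrix.add_mul, Matrix.mul_sub, Matrix.sub_mul,
      Matrix.mul_smul, Matrix.smul_mul] at e ⊢
    linear_combination (norm := module) -e
  refine ⟨fun b => xf (C b), r, fun b => hor_xf _, fun b => ?_, fun b => ?_⟩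
  · rw [HL_comp (sk _)]
    cases b
    · rw [Bool.not_false, ← k, HL_back (G := rm (D.G true)) (h.rGG false)]
    · exact congrArg xf k
  · rw [HL_comp (sk _), HL_smul, HL_sub, HL_sub]
    congr 1
    simp only [C, Matrix.mul_add, Matrix.add_mul, Matrix.mul_sub, Matrix.sub_mul, Matrix.mul_smul,
      Matrix.smul_mul, HL_T (h.ok b), k3]
    module


end Pool.Agent.Work.MP_bf98aa_gt.B3
end
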