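import Pool.Agent.Work.MP_bf98aa_gt.B3.HL
import Pool.Agent.Work.MP_bf98aa_gt.B3.XMain

-- merged part: Pool.Agent.Work.MP_bf98aa_gt.B3.HX1
section
/-!
Charts of the neighbourhood of the exceptional divisor.
PLAN. Everything follows from `WM.eX` and the algebra of `amb` (X0, X1, X1b, X5b: `amb_V_inj`, `amb_L_iff`, `xt_V`, `xt_L`, `xr_V`, `xr_L`, `xbd_amb`, `ex_V`, `ex_L`, `xt_lg`, `lg_lg`); use `deck_of`, `Par.trans`, `par_of_inv`, `par_pol`,
`pol_eq_iff`. `lg D.sL θ (amb .L z) = amb .L (gL j z)` by a direct computation. Points of `V` and `L` have `xt < 15/16`; in the upper alternative of `RA` the levels add up to `2` (`RA_rad`), so it does not occur between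
such points. `Par` of `LL`: locally it is one of the two charts (`LL_A`, `LL_B`, `SmAt.congr`). `domL`: along the segment `r1 = 1 + s² (r1 z - 1)` and both levels are at most `s` times their value at `z`.
`pVV = pol ∘ (r ↦ √..)`, `pVL` likewise.
-/

set_option autoImplicit false

open scoped Manifold ContDiff Topology Matrix ComplexConjugate
open Set Complex Filter

namespace Pool.Agent.Work.MP_bf98aa_gt.B3

open Pool.Agent.Work.MP_bf98aa_gt.Th Pool.Agent.Work.MP_bf98aa_gt.Cy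

variable {M : Type} [TopologicalSpace M] [ChartedSpace E6 M] [IsManifold 𝓘(ℝ, E6) ∞ M]
  {D : GD} {q : Ch M} {η : Fo M 2} {j : J4} {b i : Bool} {k : ℕ} {z : E6}

omit [IsManifold 𝓘(ℝ, E6) ∞ M] in
theorem HX1_same (h : WM D q η) {c : X3} {x y : E6} (hx : x ∈ (D.H b).WX c)
    (hy : y ∈ (D.H b).WX c) : q.X j b c x = q.X j b c y ↔ (D.H b).amb c x = (D.H b).amb c y :=
  (h.eX j b c j b c x hx y hy).trans ⟨fun e => e.2.elim (·.2) fun a => absurd rfl a.1,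
    fun e => ⟨rfl, .inl ⟨rfl, e⟩⟩⟩

theorem HX1_par {ψ : E6 → M} {U : Set E6} (hU : IsOpen U)
    (h : ∀ x ∈ U, ∃ ψ' U', Par ψ' U' ∧ x ∈ U' ∧ ∀ y ∈ U', ψ y = ψ' y) : Par ψ U := by
  refine ⟨hU, fun x hx => ?_, fun x hx => ?_⟩ <;> obtain ⟨ψ', U', hP, a, e⟩ := h x hx
  · exact (hP.sm x a).congr (mem_of_superset (hP.opn.mem_nhds a) e)
  · obtain ⟨χ, h1, h2, h3⟩ := hP.inv x a
    rw [e x a]
    refine ⟨χ, h1, ?_, ?_⟩
    · filter_upwards [h2, hP.opn.mem_nhds a] with y b c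
      rw [e y c, b]
    · filter_upwards [h3, h1.continuousAt.eventually_mem
        (hP.opn.mem_nhds (h2.self_of_nhds.symm ▸ a))] with m b c
      rw [e _ c, b]

theorem HX1_lg {d d' : HD} {s θ : ℝ} (h : d.tt z < r1 z) :
    lg (s - d.μ₁ - d'.μ₁) θ (d.amb .L z) = d'.amb .L (flp s θ z) := by
  have e : (d.amb .L z).1 / ‖(d.amb .L z).1‖ = ee (-z (2, 1)) :=
    X5b_div (Real.sqrt_pos.2 (sub_pos.2 h)) _
  have := ee_ne_zero (z (2, 1))
  have := ee_ne_zero θ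
  rw [lg, e, xt_L h.le]
  simp only [HD.amb, HD.tt, r1, flp, cc_mkc0, cc_mkc1, mkc_20, mkc_21, conj_ee, neg_neg,
    show s - d.μ₁ - d'.μ₁ - (z (2, 0) - d.μ₁) = s - z (2, 0) - d'.μ₁ by ring]
  simp only [sub_eq_add_neg θ, two_mul, ee_add, X5b_neg]
  refine Prod.ext ?_ (Prod.ext rfl (Prod.ext rfl (Prod.ext ?_ (Prod.ext ?_ (Prod.ext ?_ rfl))))) <;>
    field_simp

theorem HX1_ns (i : Fin 3) {s : ℝ} {x y : E6} (h0 : y (i, 0) = s * x (i, 0))
    (h1 : y (i, 1) = s * x (i, 1)) : normSq (cc i y) = s ^ 2 * normSq (cc i x) := by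
  rw [normSq_cc, normSq_cc, h0, h1]
  ring

theorem HX1_neg {s u v : ℝ} (h0 : 0 ≤ s) (h1 : s ≤ 1) (hu : u < 0) (hv : v < 0) :
    s * u + (1 - s) * v < 0 := by
  rcases le_total u v with e | e
  · linarith only [hv, h0, e, mul_nonneg h0 (sub_nonneg.2 e)]
  · linarith only [hu, h1, e, mul_nonneg (sub_nonneg.2 h1) (sub_nonneg.2 e)]

theorem HX1_lt {s t r c : ℝ} (h0 : 0 ≤ s) (h1 : s ≤ 1) (h : t < r) (h' : t < 15 / 16)
    (hc : c < 0) : s * t + (1 - s) * c < 1 + s ^ 2 * (r - 1) ∧ s * t + (1 - s) * c < 15 / 16 := by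
  have a := HX1_neg h0 h1 (sub_neg.2 h') (show c - 15 / 16 < 0 by linarith only [hc])
  refine ⟨?_, by linarith only [a]⟩
  rcases le_total 1 r with e | e
  · linarith only [a, e, mul_nonneg (sq_nonneg s) (sub_nonneg.2 e)]
  · linarith only [h1, h0, h, hc, e, HX1_neg h0 h1 (sub_neg.2 h) hc,
      mul_nonneg (sub_nonneg.2 h1) (mul_nonneg h0 (sub_nonneg.2 e))]

theorem WM.deckV (h : WM D q η) (j : J4) (b : Bool) :
    Deck (q.X j b .V) ((D.H b).WX .V) (TZ ∅) :=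
  deck_of (h.pX j b .V) (by simp) (by simp) fun x hx y hy e i => by
    rw [amb_V_inj hx hy ((HX1_same h hx hy).1 e)]
    simp

theorem HD.Ok.domV {d : HD} (h : d.Ok) : Dom ∅ (d.WX .V) 0 := by
  have := h.hμ
  refine ⟨isOpen_WX d _, ?_, fun x ⟨a, b, c⟩ t ht => ?_, by simp⟩
  · simp only [HD.WX, HD.nuF, HD.M, mem_ofPred_eq, normSq_cc, Pi.zero_apply]
    refine ⟨?_, ?_, ?_⟩ <;> linarith only [this]
  · have e : ∀ i, normSq (cc i (x + t • (slice ∅ 0 x - x))) = (1 - t) ^ 2 * normSq (cc i x) :=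
      fun i => by apply HX1_ns <;> simp [slice] <;> ring
    have k : 0 ≤ (1 - t) ^ 2 ∧ (1 - t) ^ 2 ≤ 1 := ⟨sq_nonneg _, by linarith only [ht, ht.1, ht.2, mul_nonneg_of_nonpos_of_nonpos (Mathlib.Tactic.Linarith.sub_nonpos_of_le ht.left) (Mathlib.Tactic.Linarith.sub_nonpos_of_le ht.right)]⟩
    simp only [HD.WX, HD.nuF, HD.M, mem_ofPred_eq, e] at c ⊢
    generalize (1 - t) ^ 2 = s at k
    have n := fun i => mul_le_of_le_one_left (normSq_nonneg (cc i x)) k.2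
    refine ⟨(n 2).trans_lt a, by linarith only [b, n, n 1], ?_⟩
    rcases le_total (normSq (cc 0 x)) (normSq (cc 2 x)) with l | l
    · linarith only [this, l, k, mul_le_mul_of_nonneg_left l k.1]
    · linarith only [c, l, k, mul_le_mul_of_nonneg_left l (sub_nonneg.2 k.2)]

theorem GD.gL_gL (D : GD) (j : J4) (z : E6) : D.gL j (D.gL j z) = z :=
  ext6 rfl rfl rfl rfl (sub_sub_cancel _ _) (sub_sub_cancel _ _)

theorem HX1_sm (D : GD) (j : J4) : ContDiff ℝ ∞ (D.gL j) :=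
  contDiff_iff_contDiffAt.2 fun _ => contDiffAt_mkc (contDiff_cc 0).contDiffAt
    (contDiff_cc 1).contDiffAt (contDiffAt_cmk (by fun_prop) (by fun_prop))

theorem HX1_A (h : D.Ok) : z ∈ (D.H true).WX .L ↔ z ∈ D.WL ∧ -(D.H true).M - 1 / 8 < z (2, 0) := by
  have := (h.ok false).hμ
  simp only [HD.WX, GD.WL, GD.sL, HD.tt, HD.M, mem_ofPred_eq]
  exact ⟨fun ⟨a, b, c, d, e⟩ => ⟨⟨a, b, c, by linarith, by linarith, d⟩, e⟩,
    fun ⟨⟨a, b, c, _, _, d⟩, e⟩ => ⟨a, b, c, d, e⟩⟩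

theorem HX1_B (h : D.Ok) :
    D.gL j z ∈ (D.H false).WX .L ↔ z ∈ D.WL ∧ z (2, 0) < -(D.H true).M + 1 / 8 := by
  have := (h.ok true).hμ
  simp only [HD.WX, GD.WL, GD.sL, HD.tt, HD.M, mem_ofPred_eq, GD.gL, flp, r1, cc_mkc0, cc_mkc1,
    mkc_20]
  exact ⟨fun ⟨a, b, c, d, e⟩ => ⟨⟨a, by linarith, by linarith, by linarith, by linarith, d⟩,
    by linarith⟩, fun ⟨⟨a, _, _, b, c, d⟩, e⟩ => ⟨a, by linarith, by linarith, d, by linarith⟩⟩

theorem HX1_gl (hz : z ∈ (D.H true).WX .L) :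
    lg D.sL (D.thL j) ((D.H true).amb .L z) = (D.H false).amb .L (D.gL j z) := by
  rw [GD.gL, ← HX1_lg hz.2.1]
  congr 1
  simp only [GD.sL, HD.M]
  ring

omit [IsManifold 𝓘(ℝ, E6) ∞ M] in
theorem HX1_cross (h : WM D q η) (ha : z ∈ (D.H true).WX .L) (hb : D.gL j z ∈ (D.H false).WX .L) :
    q.X j true .L z = q.X j false .L (D.gL j z) := by
  refine (h.eX _ _ _ _ _ _ _ ha _ hb).2 ⟨rfl, .inr ⟨by simp, .inl ⟨?_, (HX1_gl ha).symm⟩⟩⟩
  have := ((HX1_B h.ok).1 hb).2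
  rw [xt_L ha.2.1.le, HD.tt]
  rw [HD.M] at this
  linarith only [this]

omit [IsManifold 𝓘(ℝ, E6) ∞ M] in
theorem HX1_LB (h : WM D q η) (hz : D.gL j z ∈ (D.H false).WX .L) :
    q.LL D j z = q.X j false .L (D.gL j z) := by
  unfold Ch.LL
  split_ifs with e
  exacts [HX1_cross h ((HX1_A h.ok).2 ⟨((HX1_B h.ok).1 hz).1, by linarith only [e]⟩) hz, rfl]

theorem WM.LL_A (h : WM D q η) (j : J4) (hz : z ∈ (D.H true).WX .L) :
    z ∈ D.WL ∧ q.LL D j z = q.X j true .L z := by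
  have a := ((HX1_A h.ok).1 hz).1
  refine ⟨a, ?_⟩
  unfold Ch.LL
  split_ifs with e
  exacts [rfl, (HX1_cross h hz ((HX1_B h.ok).2 ⟨a, by linarith only [e]⟩)).symm]

theorem WM.LL_B (h : WM D q η) (j : J4) (hz : z ∈ (D.H false).WX .L) :
    D.gL j z ∈ D.WL ∧ q.LL D j (D.gL j z) = q.X j false .L z := by
  rw [← D.gL_gL j z] at hz
  exact ⟨((HX1_B h.ok).1 hz).1, by rw [HX1_LB h hz, D.gL_gL]⟩

theorem GD.Ok.WL_cases (h : D.Ok) (j : J4) (hz : z ∈ D.WL) :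
    z ∈ (D.H true).WX .L ∨ D.gL j z ∈ (D.H false).WX .L :=
  (le_total (-(D.H true).M) (z (2, 0))).imp (fun _ => (HX1_A h).2 ⟨hz, by linarith⟩)
    fun _ => (HX1_B h).2 ⟨hz, by linarith⟩

theorem WM.OL_eq (h : WM D q η) (j : J4) :
    q.OL D j = q.X j true .L '' (D.H true).WX .L ∪ q.X j false .L '' (D.H false).WX .L := by
  refine Subset.antisymm ?_ ?_
  · rintro _ ⟨z, hz, rfl⟩
    exact (h.ok.WL_cases j hz).imp (fun a => ⟨z, a, (h.LL_A j a).2.symm⟩)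
      fun a => ⟨_, a, (HX1_LB h a).symm⟩
  · rintro _ (⟨z, hz, rfl⟩ | ⟨z, hz, rfl⟩)
    exacts [⟨z, h.LL_A j hz⟩, ⟨_, h.LL_B j hz⟩]

theorem HX1_open (D : GD) : IsOpen D.WL := by
  unfold GD.WL r1 HD.tt
  refine .and (isOpen_lt ?_ ?_) (.and (isOpen_lt ?_ ?_) (.and (isOpen_lt ?_ ?_) (.and (isOpen_lt ?_ ?_)
    (.and (isOpen_lt ?_ ?_) (isOpen_lt ?_ ?_))))) <;> fun_prop

theorem HX1_inv (hz : z ∈ D.WL) (t : ℝ) : z + t • bv (2, 1) ∈ D.WL := by
  simpa [GD.WL, r1, HD.tt, cc, bv] using hz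

theorem HX1_iff (h : WM D q η) {x y : E6} (hx : x ∈ D.WL) (hy : y ∈ D.WL) :
    q.LL D j x = q.LL D j y ↔ cc 0 y = cc 0 x ∧ cc 1 y = cc 1 x ∧ y (2, 0) = x (2, 0) ∧
      ∃ n : ℤ, y (2, 1) = x (2, 1) + n := by
  have BB : ∀ {x y : E6}, D.gL j x ∈ (D.H false).WX .L → D.gL j y ∈ (D.H false).WX .L →
      ((D.H false).amb .L (D.gL j x) = (D.H false).amb .L (D.gL j y) ↔ cc 0 y = cc 0 x ∧
        cc 1 y = cc 1 x ∧ y (2, 0) = x (2, 0) ∧ ∃ n : ℤ, y (2, 1) = x (2, 1) + n) := fun a b => by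
    rw [amb_L_iff a b]
    simp only [GD.gL, flp, cc_mkc0, cc_mkc1, mkc_20, mkc_21, sub_right_inj]
    refine and_congr_right' (and_congr_right' (and_congr_right' ?_))
    constructor <;> exact fun ⟨n, e⟩ => ⟨-n, by push_cast; linarith only [e]⟩
  have AB : ∀ {x y : E6}, x ∈ (D.H true).WX .L → D.gL j y ∈ (D.H false).WX .L →
      q.LL D j x = q.LL D j y → D.gL j x ∈ (D.H false).WX .L := fun a b e => by
    rw [(h.LL_A j a).2, HX1_LB h b] at e
    rcases ((h.eX _ _ _ _ _ _ _ a _ b).1 e).2 with ⟨c, -⟩ | ⟨c, ⟨e, -⟩ | ⟨e1, e2, e3⟩⟩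
    · simp at c
    · rw [xt_L a.2.1.le, HD.tt] at e
      exact (HX1_B h.ok).2 ⟨(h.LL_A j a).1, by rw [HD.M]; linarith only [e]⟩
    · have := (((xbd_amb a).upp (by linarith only [e1])).cross ((xbd_amb b).upp (by linarith only [e2])) c e3).1
      rw [xt_L a.2.1.le, xt_L b.2.1.le] at this
      linarith only [this, a, b, a.2.2.1, b.2.2.1]
  by_cases a : D.gL j x ∈ (D.H false).WX .L <;> by_cases b : D.gL j y ∈ (D.H false).WX .L
  · rw [HX1_LB h a, HX1_LB h b, HX1_same h a b, BB a b]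
  · exact iff_of_false (fun e => b (AB ((h.ok.WL_cases j hy).resolve_right b) a e.symm))
      fun e => b ((HX1_B h.ok).2 ⟨hy, e.2.2.1 ▸ ((HX1_B h.ok).1 a).2⟩)
  · exact iff_of_false (fun e => a (AB ((h.ok.WL_cases j hx).resolve_right a) b e))
      fun e => a ((HX1_B h.ok).2 ⟨hx, e.2.2.1 ▸ ((HX1_B h.ok).1 b).2⟩)
  · have a' := (h.ok.WL_cases j hx).resolve_right a
    have b' := (h.ok.WL_cases j hy).resolve_right b
    rw [(h.LL_A j a').2, (h.LL_A j b').2, HX1_same h a' b', amb_L_iff a' b']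

theorem WM.deckL (h : WM D q η) (j : J4) : Deck (q.LL D j) D.WL (TZ {(2, 1)}) := by
  refine deck_of (HX1_par (HX1_open D) fun x hx => ?_) ?_ ?_ fun x hx y hy e ⟨i, k⟩ => ?_
  · rcases h.ok.WL_cases j hx with a | a
    · exact ⟨_, _, h.pX j true .L, a, fun y b => (h.LL_A j b).2⟩
    · exact ⟨_, _, (h.pX j false .L).comp (HX1_sm D j) (HX1_sm D j) (D.gL_gL j) (D.gL_gL j), a,
        fun y b => HX1_LB h b⟩
  · simp only [Finset.mem_singleton, forall_eq]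
    exact fun z => HX1_inv
  · simp only [Finset.mem_singleton, forall_eq]
    refine fun z hz => ((HX1_iff h hz (one_smul ℝ (bv (2, 1)) ▸ HX1_inv hz 1)).2 ?_).symm
    exact ⟨by simp [cc, bv], by simp [cc, bv], by simp [bv], 1, by simp [bv]⟩
  · obtain ⟨a, b, c, d⟩ := (HX1_iff h hx hy).1 e
    fin_cases i <;> fin_cases k
    exacts [congrArg re a, congrArg im a, congrArg re b, congrArg im b, c, d]

theorem GD.Ok.domL (h : D.Ok) : Dom {(2, 1)} D.WL (Cy.mk 0 0 0 0 (-(D.H true).M) 0) := by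
  have m1 := (h.ok true).hμ
  have m2 := (h.ok false).hμ
  refine ⟨HX1_open D, ?_, fun x ⟨a, b, c, d, e, f⟩ t ht => ?_, ?_⟩
  · simp only [GD.WL, GD.sL, r1, HD.tt, HD.M, mem_ofPred_eq, normSq_cc, mk00, mk01, mk10, mk11, mk20]
    refine ⟨?_, ?_, ?_, ?_, ?_, ?_⟩ <;> linarith only [m1, m2]
  · set y := x + t • (slice {(2, 1)} (Cy.mk 0 0 0 0 (-(D.H true).M) 0) x - x) with hy
    have e0 : normSq (cc 0 y) = (1 - t) ^ 2 * normSq (cc 0 x) := by
      apply HX1_ns <;> simp [hy, slice] <;> ring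
    have e1 : normSq (cc 1 y) = (1 - t) ^ 2 * normSq (cc 1 x) := by
      apply HX1_ns <;> simp [hy, slice] <;> ring
    have e2 : r1 y = 1 + (1 - t) ^ 2 * (r1 x - 1) := by rw [r1, r1, e0, e1]; ring
    have e3 : (D.H true).tt y =
        (1 - t) * (D.H true).tt x + (1 - (1 - t)) * (-2 * (D.H true).μ₁ - 1) := by
      simp [hy, slice, HD.tt, HD.M]
      ring
    have e4 : D.sL - (D.H true).tt y =
        (1 - t) * (D.sL - (D.H true).tt x) + (1 - (1 - t)) * (-2 * (D.H false).μ₁ - 1) := by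
      rw [e3, GD.sL]
      ring
    have s0 := sub_nonneg.2 ht.2
    have s1 := sub_le_self 1 ht.1
    have k1 := HX1_lt s0 s1 b c (c := -2 * (D.H true).μ₁ - 1) (by linarith only [m1])
    have k2 := HX1_lt s0 s1 d e (c := -2 * (D.H false).μ₁ - 1) (by linarith only [m2])
    have s2 := pow_le_one₀ (n := 2) s0 s1
    have k3 := HX1_neg (sq_nonneg _) s2 (neg_neg_of_pos a) neg_one_lt_zero
    have k4 := mul_le_of_le_one_left (normSq_nonneg (cc 1 x)) s2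
    rw [← e2] at k1 k2
    rw [← e3] at k1
    rw [← e4] at k2
    exact ⟨by linarith only [e2, k3], k1.1, k1.2, k2.1, k2.2, by linarith only [f, e1, k4]⟩
  · simp only [Finset.mem_singleton, forall_eq]
    exact fun z => HX1_inv

theorem WM.pl_LL (h : WM D q η) (j : J4) (hz : z ∈ D.WL) :
    pl (q.LL D j) η z = d1 (lamX .L) z := by
  rcases h.ok.WL_cases j hz with a | a
  · rw [pl_congr (mem_of_superset ((isOpen_WX _ _).mem_nhds a) fun y b => (h.LL_A j b).2),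
      h.oX j true .L z a]
  have s := HX1_sm D j
  rw [pl_congr (c' := fun y => q.X j false .L (D.gL j y)) (mem_of_superset
    (s.continuous.continuousAt.preimage_mem_nhds ((isOpen_WX _ _).mem_nhds a))
      fun y b => HX1_LB h b), pl_comp ((h.pX j false .L).sm _ a) s.contDiffAt,
    pb_congr' (h.oX j false .L _ a)]
  refine symp_of (r := fun y => ((D.H true).M + (D.H false).M) * y (2, 1)) s.contDiffAt
    (contDiff_lamX _).contDiffAt (contDiff_lamX _).contDiffAt (by fun_prop)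
    (Eventually.of_forall fun y => ?_)
  have C : ∀ i : Cx, HasFDerivAt (fun y : E6 => y i) (dc i) y := fun i => (dc i).hasFDerivAt
  have e : D.gL j = fun y => y + (-(D.H true).M - (D.H false).M - 2 * y (2, 0)) • bv (2, 0) +
      (D.thL j - 2 * y (2, 1)) • bv (2, 1) :=
    funext fun y => by apply ext6 <;> simp [GD.gL, flp, cc, bv] <;> ring
  have G : HasFDerivAt (D.gL j) _ y := e ▸ ((hasFDerivAt_id y).fun_add ((((C _).const_mul 2).const_sub
    _).smul_const _)).fun_add ((((C _).const_mul 2).const_sub _).smul_const _)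
  ext v : 1
  rw [pb1_apply, G.fderiv, ((C _).const_mul _).fderiv]
  simp [lamX, rot1_apply, dc_apply, GD.gL, flp, cc, bv]
  ring

/-- Polar coordinates with the radius `√(ρ - z (0,0))`. -/
noncomputable def HX1_bP (ρ : ℂ → ℂ → ℝ) (z : E6) : E6 :=
  mkc ((√(ρ (cc 1 z) (cc 2 z) - z (0, 0)) : ℝ) * ee (z (0, 1))) (cc 1 z) (cc 2 z)

theorem HX1_bsm {ρ : ℂ → ℂ → ℝ} (hρ : ContDiffAt ℝ ∞ (fun z => ρ (cc 1 z) (cc 2 z)) z)
    (h0 : z (0, 0) < ρ (cc 1 z) (cc 2 z)) : ContDiffAt ℝ ∞ (HX1_bP ρ) z :=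
  contDiffAt_mkc ((contDiffAt_ofReal ((hρ.sub (X2_co _).contDiffAt).sqrt (sub_pos.2 h0).ne')).mul
    (contDiffAt_ee (X2_co _).contDiffAt)) (contDiff_cc 1).contDiffAt (contDiff_cc 2).contDiffAt

theorem HX1_bpar {ρ : ℂ → ℂ → ℝ} {U : Set E6} (hU : IsOpen U)
    (hρ : ∀ z, ContDiffAt ℝ ∞ (fun z => ρ (cc 1 z) (cc 2 z)) z)
    (h0 : ∀ z ∈ U, z (0, 0) < ρ (cc 1 z) (cc 2 z)) : Par (M := E6) (HX1_bP ρ) U := by
  have hc : ∀ (i : Cx) (z : E6), ContDiffAt ℝ ∞ (fun z : E6 => z i) z :=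
    fun i z => (X2_co i).contDiffAt
  refine Par.trans (f := fun z => mk (√(ρ (cc 1 z) (cc 2 z) - z (0, 0))) (z (0, 1)) (z (1, 0))
    (z (1, 1)) (z (2, 0)) (z (2, 1))) (par_of_inv (g := fun z => mk
      (ρ (cc 1 z) (cc 2 z) - z (0, 0) ^ 2) (z (0, 1)) (z (1, 0)) (z (1, 1)) (z (2, 0)) (z (2, 1)))
    hU (fun z hz => contDiffAt_mk (((hρ z).sub (hc _ z)).sqrt (sub_pos.2 (h0 z hz)).ne')
      (hc _ z) (hc _ z) (hc _ z) (hc _ z) (hc _ z))
    (fun z _ => contDiffAt_mk ((hρ _).sub ((hc _ _).pow 2)) (hc _ _) (hc _ _) (hc _ _) (hc _ _)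
      (hc _ _)) fun z hz => ext6 ?_ rfl rfl rfl rfl rfl) par_pol
    fun z hz => Real.sqrt_pos.2 (sub_pos.2 (h0 z hz))
  change ρ (cc 1 z) (cc 2 z) - √(ρ (cc 1 z) (cc 2 z) - z (0, 0)) ^ 2 = _
  rw [Real.sq_sqrt (sub_pos.2 (h0 z hz)).le, sub_sub_cancel]

theorem HX1_bper (ρ : ℂ → ℂ → ℝ) (z : E6) : HX1_bP ρ (z + bv (0, 1)) = HX1_bP ρ z := by
  have := ee_int 1
  simp only [Int.cast_one] at this
  simp [HX1_bP, cc, bv, ee_add, this]

theorem HX1_binj {ρ : ℂ → ℂ → ℝ} {x y : E6} (hx : x (0, 0) < ρ (cc 1 x) (cc 2 x))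
    (hy : y (0, 0) < ρ (cc 1 y) (cc 2 y)) (e : HX1_bP ρ x = HX1_bP ρ y) :
    ∃ n : ℤ, y = x + (n : ℝ) • bv (0, 1) := by
  have h1 : cc 1 x = cc 1 y := (congrArg (cc 1) e :)
  have h2 : cc 2 x = cc 2 y := (congrArg (cc 2) e :)
  have h0 := congrArg (cc 0) e
  simp only [HX1_bP, cc_mkc0] at h0
  have h3 := congrArg normSq h0
  rw [X1b_ns (sub_pos.2 hx).le, X1b_ns (sub_pos.2 hy).le] at h3
  rw [h3] at h0
  obtain ⟨n, hn⟩ := ee_eq_iff.1
    (mul_left_cancel₀ (ofReal_ne_zero.2 (Real.sqrt_pos.2 (sub_pos.2 hy)).ne') h0).symm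
  rw [h1, h2, sub_right_inj] at h3
  have h4 : x (1, 0) = y (1, 0) := congrArg re h1
  have h5 : x (1, 1) = y (1, 1) := congrArg im h1
  have h6 : x (2, 0) = y (2, 0) := congrArg re h2
  have h7 : x (2, 1) = y (2, 1) := congrArg im h2
  exact ⟨n, by apply ext6 <;> simp [bv, h3, hn, h4, h5, h6, h7]⟩

theorem HX1_bsurj (ρ : ℂ → ℂ → ℝ) (w : E6) :
    ∃ z, z (0, 0) = ρ (cc 1 w) (cc 2 w) - normSq (cc 0 w) ∧ cc 1 z = cc 1 w ∧ cc 2 z = cc 2 w ∧
      HX1_bP ρ z = w := by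
  obtain ⟨t, ht⟩ := exists_ee (cc 0 w)
  refine ⟨mkc ⟨ρ (cc 1 w) (cc 2 w) - normSq (cc 0 w), t⟩ (cc 1 w) (cc 2 w), rfl, rfl, rfl, ?_⟩
  rw [HX1_bP, cc_mkc1, cc_mkc2, mkc_00, mkc_01, sub_sub_cancel, X1b_sqrt, ← ht, mkc_eta]

theorem WM.HX1_bsame (h : WM D q η) {c c' : X3} {x y : E6} (hx : x ∈ (D.H b).WX c)
    (hy : y ∈ (D.H b).WX c') : q.X j b c x = q.X j b c' y ↔ (D.H b).amb c x = (D.H b).amb c' y := by
  rw [h.eX j b c j b c' x hx y hy]
  simp [GD.RA]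

theorem WM.HX1_bcases (h : WM D q η) {b' : Bool} {c c' : X3} {x y : E6} (hx : x ∈ (D.H b).WX c)
    (hy : y ∈ (D.H b').WX c') (h1 : xt ((D.H b).amb c x) < 15 / 16)
    (h2 : xt ((D.H b').amb c' y) < 15 / 16) (e : q.X j b c x = q.X j b' c' y) :
    (b = b' ∧ (D.H b).amb c x = (D.H b').amb c' y) ∨
      (b ≠ b' ∧ xt ((D.H b).amb c x) < -2 * (D.H b).μ₁ - 7 / 8 ∧
        (D.H b').amb c' y = lg D.sL (D.thL j) ((D.H b).amb c x)) := by
  refine ((h.eX j b c j b' c' x hx y hy).1 e).2.imp_right fun r => ⟨r.1, r.2.resolve_right ?_⟩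
  rintro ⟨a1, a2, a3⟩
  linarith only [h1, h2, a1, hx, hy, a2, r, a3, (((xbd_amb hx).upp (by linarith)).cross ((xbd_amb hy).upp (by linarith)) r.1 a3).1]

theorem HX1_bxtV {d : HD} (hz : z ∈ d.WX .V) : xt (d.amb .V z) < 15 / 16 := by
  rw [xt_V, tF]
  linarith only [hz, hz.1, normSq_nonneg (cc 0 z)]

theorem HX1_bVV (h : D.Ok) (hz : z ∈ D.WVV) : z (0, 0) < normSq (cc 2 z) + (D.H true).μ₁ := by
  have h1 := (abs_lt.1 hz.1).2
  rw [HD.M] at h1
  linarith only [h1, h, normSq_nonneg (cc 2 z), (h.ok true).hμ]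

theorem HX1_bnu (h : D.Ok) (hz : z ∈ D.WVV) : (D.H true).nuF (D.pVV z) = z (0, 0) := by
  rw [HD.nuF, GD.pVV, cc_mkc0, cc_mkc2, X1b_ns (sub_pos.2 (HX1_bVV h hz)).le]
  ring

theorem HX1_bρ : ContDiffAt ℝ ∞ (fun z => 2 * normSq (cc 1 z) + 1) z :=
  (contDiffAt_const.mul (contDiffAt_normSq (contDiff_cc 1).contDiffAt)).add contDiffAt_const

theorem HX1_br1 (hz : z ∈ D.WVL) : r1 (pVL z) = z (0, 0) := by
  rw [r1, pVL, cc_mkc0, cc_mkc1, X1b_ns (by linarith only [hz, normSq_nonneg (cc 1 z), hz.2.2.2.1])]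
  ring

theorem HX1_bcv {a c t : ℝ} (ha : 0 < a) (hc : 0 < c) (ht : t ∈ Icc (0 : ℝ) 1) :
    0 < (1 - t) * a + t * c := by
  rcases ht.1.eq_or_lt with rfl | h
  · simpa using ha
  · exact add_pos_of_nonneg_of_pos (mul_nonneg (sub_nonneg.2 ht.2) ha.le) (mul_pos h hc)

theorem HX1_bns {S : Finset Cx} {z₀ : E6} (x : E6) {t : ℝ} (ht : t ∈ Icc (0 : ℝ) 1) (i : Fin 3)
    (h1 : (i, 0) ∉ S) (h2 : (i, 1) ∉ S) (h3 : z₀ (i, 0) = 0) (h4 : z₀ (i, 1) = 0) :
    normSq (cc i (x + t • (slice S z₀ x - x))) ≤ normSq (cc i x) := by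
  have e : normSq (cc i (x + t • (slice S z₀ x - x))) = (1 - t) ^ 2 * normSq (cc i x) := by
    simp only [normSq_cc, Pi.add_apply, Pi.smul_apply, Pi.sub_apply, slice, h1, h2, h3, h4,
      if_false, smul_eq_mul]
    ring
  rw [e]
  exact mul_le_of_le_one_left (normSq_nonneg _)
    (pow_le_one₀ (sub_nonneg.2 ht.2) (by linarith [ht.1]))

theorem GD.HX1_bVVd (D : GD) : Dom {(0, 1)} D.WVV (Cy.mk (-(D.H true).M) 0 0 0 0 0) := by
  refine ⟨?_, ⟨by simp, by simp [normSq_cc], by simp [normSq_cc]⟩, fun x hx t ht => ⟨?_,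
    (HX1_bns x ht 2 (by simp) (by simp) rfl rfl).trans_lt hx.2.1, ?_⟩, fun i hi z hz t => ?_⟩
  · refine .and (isOpen_lt ?_ ?_) (.and (isOpen_lt ?_ ?_) (isOpen_lt ?_ ?_)) <;> fun_prop
  · have h1 := abs_lt.1 hx.1
    have h2 := HX1_bcv (sub_pos.2 h1.1) (show (0 : ℝ) < 1 / 8 by norm_num) ht
    have h3 := HX1_bcv (sub_pos.2 h1.2) (show (0 : ℝ) < 1 / 8 by norm_num) ht
    have e : (x + t • (slice {(0, 1)} (Cy.mk (-(D.H true).M) 0 0 0 0 0) x - x)) (0, 0) =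
        x (0, 0) + t * (-(D.H true).M - x (0, 0)) := by simp [slice]
    rw [e, abs_lt]
    constructor <;> linarith only [h2, h3]
  · linarith only [ht, hx, HX1_bns (S := {(0, 1)}) (z₀ := Cy.mk (-(D.H true).M) 0 0 0 0 0) x ht 1 (by simp)
      (by simp) rfl rfl, hx.2.2]
  · rw [Finset.mem_singleton.1 hi]
    simpa [GD.WVV, cc, bv] using hz

theorem GD.Ok.HX1_bVLd (h : D.Ok) :
    Dom {(0, 1), (2, 1)} D.WVL (Cy.mk (1 / 2) 0 0 0 (-(D.H true).M) 0) := by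
  have h1 := (h.ok true).hμ
  have h2 := (h.ok false).hμ
  have m1 : 0 < 1 / 2 - (-(D.H true).M - (D.H true).μ₁) := by rw [HD.M]; linarith only [h1]
  have m2 : 0 < 1 / 2 - (D.sL - (-(D.H true).M - (D.H true).μ₁)) := by rw [HD.M, GD.sL]; linarith only [h2]
  have hc : Continuous (D.H true).tt := (continuous_apply _).sub continuous_const
  refine ⟨?_, ⟨one_half_pos, sub_pos.1 m1, sub_pos.1 m2, by norm_num, by simp [normSq_cc]⟩,
    fun x hx t ht => ?_, fun i hi z hz t => ?_⟩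
  · refine .and (isOpen_lt ?_ ?_) (.and (isOpen_lt ?_ ?_) (.and (isOpen_lt ?_ ?_)
      (.and (isOpen_lt ?_ ?_) (isOpen_lt ?_ ?_)))) <;> fun_prop
  · have a1 := HX1_bcv hx.1 one_half_pos ht
    have a2 := HX1_bcv (sub_pos.2 hx.2.1) m1 ht
    have a3 := HX1_bcv (sub_pos.2 hx.2.2.1) m2 ht
    have a4 := HX1_bcv (sub_pos.2 hx.2.2.2.1) (show (0 : ℝ) < 7 / 16 by norm_num) ht
    have a5 := HX1_bns (S := {(0, 1), (2, 1)}) (z₀ := Cy.mk (1 / 2) 0 0 0 (-(D.H true).M) 0) x ht 1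
      (by simp) (by simp) rfl rfl
    have e : ∀ i ∉ ({(0, 1), (2, 1)} : Finset Cx), ∀ z₀ : E6,
        (x + t • (slice {(0, 1), (2, 1)} z₀ x - x)) i = x i + t * (z₀ i - x i) :=
      fun i hi z₀ => by simp only [Pi.add_apply, Pi.smul_apply, Pi.sub_apply, slice, hi, if_false,
        smul_eq_mul]
    simp only [GD.WVL, HD.tt, mem_ofPred_eq, e (0, 0) (by simp), e (2, 0) (by simp), mk00, mk20]
      at a2 a3 ⊢
    exact ⟨by linarith only [a1], by linarith only [a2], by linarith only [a3], by linarith only [a4], by linarith only [a5, hx, hx.2.2.2.2]⟩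
  · rcases Finset.mem_insert.1 hi with rfl | hi
    · simpa [GD.WVL, HD.tt, cc, bv] using hz
    · rw [Finset.mem_singleton.1 hi]
      simpa [GD.WVL, HD.tt, cc, bv] using hz

theorem GD.Ok.pVV_mem (h : D.Ok) (hz : z ∈ D.WVV) :
    D.pVV z ∈ (D.H true).WX .V ∧ ContDiffAt ℝ ∞ D.pVV z := by
  have h0 := HX1_bVV h hz
  refine ⟨⟨hz.2.1, hz.2.2, ?_⟩, HX1_bsm (ρ := fun _ c => normSq c + (D.H true).μ₁)
    ((contDiffAt_normSq (contDiff_cc 2).contDiffAt).add contDiffAt_const) h0⟩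
  rw [HX1_bnu h hz]
  linarith only [hz, (abs_lt.1 hz.1).1]

theorem WM.deckVV (h : WM D q η) (j : J4) :
    Deck (fun z => q.X j true .V (D.pVV z)) D.WVV (TZ {(0, 1)}) ∧
      (fun z => q.X j true .V (D.pVV z)) '' D.WVV = q.OV D j true ∩ q.OV D j false := by
  have hm : ∀ z ∈ D.WVV, D.pVV z ∈ (D.H true).WX .V := fun z hz => (h.ok.pVV_mem hz).1
  refine ⟨deck_of (Par.trans (HX1_bpar (ρ := fun _ c => normSq c + (D.H true).μ₁) D.HX1_bVVd.opn
    (fun z => (contDiffAt_normSq (contDiff_cc 2).contDiffAt).add contDiffAt_const)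
    fun z hz => HX1_bVV h.ok hz) (h.pX j true .V) hm) D.HX1_bVVd.inv (fun i hi z _ => ?_)
    fun x hx y hy e i => ?_, Subset.antisymm ?_ ?_⟩
  · rw [Finset.mem_singleton.1 hi]
    exact congrArg _ (HX1_bper (fun _ c => normSq c + (D.H true).μ₁) z)
  · obtain ⟨n, rfl⟩ := HX1_binj (ρ := fun _ c => normSq c + (D.H true).μ₁) (HX1_bVV h.ok hx)
      (HX1_bVV h.ok hy) (amb_V_inj (hm x hx) (hm y hy) ((h.HX1_bsame (hm x hx) (hm y hy)).1 e))
    split_ifs with hi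
    · exact ⟨n, by simp [Finset.mem_singleton.1 hi, bv]⟩
    · exact HT_bv (fun e => hi (Finset.mem_singleton.2 e)) _ _
  · rintro _ ⟨z, hz, rfl⟩
    have hl : xt ((D.H true).amb .V (D.pVV z)) < -2 * (D.H true).μ₁ - 7 / 8 := by
      have h1 := HX1_bnu h.ok hz
      have h2 := (abs_lt.1 hz.1).2
      rw [xt_V, tF]
      rw [HD.nuF] at h1
      rw [HD.M] at h2
      linarith only [h1, h2]
    obtain ⟨y, hy, e⟩ := ex_V ((xbd_amb (hm z hz)).low h.ok hl (D.thL j)).2.2.2.1 hz.2.1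
    exact ⟨⟨_, hm z hz, rfl⟩, y, hy, ((h.eX j true .V j false .V _ (hm z hz) y hy).2
      ⟨rfl, Or.inr ⟨by simp, Or.inl ⟨hl, e⟩⟩⟩).symm⟩
  · rintro _ ⟨⟨x, hx, rfl⟩, y, hy, e⟩
    have hl := ((h.HX1_bcases hx hy (HX1_bxtV hx) (HX1_bxtV hy) e.symm).resolve_left
      (fun e => by simpa using e.1)).2.1
    have h1 := hx.2.2
    rw [xt_V, tF] at hl
    rw [HD.nuF] at h1
    obtain ⟨z, h2, h3, h4, h5⟩ := HX1_bsurj (fun _ c => normSq c + (D.H true).μ₁) x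
    refine ⟨z, ⟨?_, h4 ▸ hx.1, h3 ▸ hx.2.1⟩, congrArg _ h5⟩
    rw [h2, abs_lt, HD.M] at *
    constructor <;> linarith only [h1, hl]

theorem GD.domVV (D : GD) : Dom {(0, 1)} D.WVV (Cy.mk (-(D.H true).M) 0 0 0 0 0) := by
  exact D.HX1_bVVd

theorem GD.pVL_mem (hz : z ∈ D.WVL) : pVL z ∈ D.WL ∧ ContDiffAt ℝ ∞ pVL z := by
  have h1 := HX1_br1 hz
  obtain ⟨a, b, c, e, f⟩ := hz
  refine ⟨⟨h1 ▸ a, h1 ▸ b, b.trans e, h1 ▸ c, c.trans e, f⟩,
    HX1_bsm (ρ := fun b _ => 2 * normSq b + 1) HX1_bρ ?_⟩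
  linarith only [a, e, normSq_nonneg (cc 1 z)]

theorem WM.deckVL (h : WM D q η) (j : J4) :
    Deck (fun z => q.LL D j (pVL z)) D.WVL (TZ {(0, 1), (2, 1)}) ∧
      (fun z => q.LL D j (pVL z)) '' D.WVL = (q.OV D j true ∪ q.OV D j false) ∩ q.OL D j := by
  have hm : ∀ z ∈ D.WVL, pVL z ∈ D.WL := fun z hz => (GD.pVL_mem hz).1
  have h0 : ∀ z ∈ D.WVL, z (0, 0) < 2 * normSq (cc 1 z) + 1 := fun z hz => by
    linarith only [hz, normSq_nonneg (cc 1 z), hz.2.2.2.1]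
  have hs : ∀ (z : E6) (t : ℝ), pVL (z + t • bv (2, 1)) = pVL z + t • bv (2, 1) := fun z t => by
    apply ext6 <;> simp [pVL, cc, bv]
  have hc : ∀ w ∈ D.WL, ∃ b, ∃ w' ∈ (D.H b).WX .L, q.LL D j w = q.X j b .L w' ∧ r1 w' = r1 w :=
    fun w hw => (h.ok.WL_cases j hw).elim (fun e => ⟨true, w, e, (h.LL_A j e).2, rfl⟩)
      fun e => ⟨false, _, e, by rw [← (h.LL_B j e).2, D.gL_gL], rfl⟩
  refine ⟨deck_of (Par.trans (HX1_bpar (ρ := fun b _ => 2 * normSq b + 1) h.ok.HX1_bVLd.opn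
    (fun z => HX1_bρ) h0) (h.deckL j).par hm) h.ok.HX1_bVLd.inv (fun i hi z hz => ?_)
    fun x hx y hy e i => ?_, Subset.antisymm ?_ ?_⟩
  · rcases Finset.mem_insert.1 hi with rfl | hi
    · exact congrArg _ (HX1_bper (fun b _ => 2 * normSq b + 1) z)
    · rw [Finset.mem_singleton.1 hi, ← one_smul ℝ (bv (2, 1)), hs]
      simpa using (h.deckL j).eq _ ⟨fun _ => 1, rfl⟩ _ (hm z hz)
  · obtain ⟨_, ⟨n, rfl⟩, e⟩ := (h.deckL j).trans _ (hm x hx) _ (hm y hy) e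
    simp only [Finset.sum_singleton, ← hs] at e
    obtain ⟨n', rfl⟩ := HX1_binj (ρ := fun b _ => 2 * normSq b + 1)
      (h0 _ (h.ok.HX1_bVLd.inv (2, 1) (by simp) x hx _)) (h0 y hy) e
    split_ifs with hi
    · rcases Finset.mem_insert.1 hi with rfl | hi
      · exact ⟨n', by simp [bv]⟩
      · exact ⟨n (2, 1), by simp [Finset.mem_singleton.1 hi, bv]⟩
    · rw [HT_bv fun e => hi (by simp [e]), HT_bv fun e => hi (by simp [e])]
  · rintro _ ⟨z, hz, rfl⟩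
    refine ⟨?_, _, hm z hz, rfl⟩
    obtain ⟨b, w, hw, e, e'⟩ := hc _ (hm z hz)
    obtain ⟨y, hy, e''⟩ := ex_V (xbd_amb hw)
      (show r1 w < 15 / 16 by rw [e', HX1_br1 hz]; exact hz.2.2.2.1)
    have : q.LL D j (pVL z) ∈ q.OV D j b := ⟨y, hy, ((h.HX1_bsame hy hw).2 e'').trans e.symm⟩
    cases b
    exacts [Or.inr this, Or.inl this]
  · rintro _ ⟨hV, w, hw, rfl⟩
    obtain ⟨b, x, hx, e⟩ : ∃ b, q.LL D j w ∈ q.OV D j b := hV.elim (⟨_, ·⟩) (⟨_, ·⟩)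
    obtain ⟨b', w', hw', e', e''⟩ := hc w hw
    have h1 : r1 w < 15 / 16 := by
      have h2 : ((D.H b').amb .L w').2.1 = ((D.H b).amb .V x).2.1 := by
        rcases h.HX1_bcases hx hw' (HX1_bxtV hx) (by rw [xt_L hw'.2.1.le]; exact hw'.2.2.1)
          (e.trans e') with h2 | h2
        exacts [by rw [h2.2], by rw [h2.2.2]; rfl]
      exact e'' ▸ (show r1 w' = normSq (cc 2 x) from h2) ▸ hx.1
    obtain ⟨z, h2, h3, h4, h5⟩ := HX1_bsurj (fun b _ => 2 * normSq b + 1) w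
    have h6 : (D.H true).tt z = (D.H true).tt w := congrArg (·.re - (D.H true).μ₁) h4
    have h7 : z (0, 0) = r1 w := h2
    exact ⟨z, ⟨h7 ▸ hw.1, h6 ▸ h7 ▸ hw.2.1, h6 ▸ h7 ▸ hw.2.2.2.1, h7 ▸ h1, h3 ▸ hw.2.2.2.2.2⟩,
      congrArg _ h5⟩

theorem GD.Ok.domVL (h : D.Ok) :
    Dom {(0, 1), (2, 1)} D.WVL (Cy.mk (1 / 2) 0 0 0 (-(D.H true).M) 0) := by
  exact h.HX1_bVLd

theorem WM.core_VL (h : WM D q η) (j : J4) (b : Bool) {r r' : ℝ} (hr : 0 < r) (hr' : 0 < r')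
    (h1 : r' ^ 2 < 15 / 16) (h2 : -(D.H b).M - 1 / 8 < (D.H b).μ₁ + r' ^ 2 - r ^ 2) (s t : ℝ) :
    mkc (r * ee s) 0 (r' * ee t) ∈ (D.H b).WX .V ∧
      mkc ((√(1 - r' ^ 2) : ℝ) * ee (-s - t)) 0 ⟨(D.H b).μ₁ + r' ^ 2 - r ^ 2, -s⟩ ∈ (D.H b).WX .L ∧
      q.X j b .V (mkc (r * ee s) 0 (r' * ee t)) = q.X j b .L
        (mkc ((√(1 - r' ^ 2) : ℝ) * ee (-s - t)) 0 ⟨(D.H b).μ₁ + r' ^ 2 - r ^ 2, -s⟩) := by
  have h3 : 0 ≤ 1 - r' ^ 2 := by linarith only [h1]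
  have n1 : ∀ a u : ℝ, normSq ((a : ℂ) * ee u) = a ^ 2 := fun a u => by
    rw [X1b_nr, normSq_ofReal, sq]
  have e1 : r1 (mkc ((√(1 - r' ^ 2) : ℝ) * ee (-s - t)) 0
      ⟨(D.H b).μ₁ + r' ^ 2 - r ^ 2, -s⟩) = r' ^ 2 := by
    rw [r1, cc_mkc0, cc_mkc1, X1b_ns h3, map_zero]; ring
  have e2 : (D.H b).tt (mkc ((√(1 - r' ^ 2) : ℝ) * ee (-s - t)) 0
      ⟨(D.H b).μ₁ + r' ^ 2 - r ^ 2, -s⟩) = r' ^ 2 - r ^ 2 := by
    rw [HD.tt, mkc_20]; ring
  have hx : mkc (r * ee s) 0 (r' * ee t) ∈ (D.H b).WX .V :=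
    ⟨by rw [cc_mkc2, n1]; exact h1, by simp, by rw [HD.nuF, cc_mkc0, cc_mkc2, n1, n1]; exact h2⟩
  have hy : mkc ((√(1 - r' ^ 2) : ℝ) * ee (-s - t)) 0 ⟨(D.H b).μ₁ + r' ^ 2 - r ^ 2, -s⟩ ∈
      (D.H b).WX .L :=
    ⟨by rw [e1]; positivity, by rw [e1, e2]; linarith only [hr, mul_pos_of_neg_of_neg (Mathlib.Tactic.Linarith.sub_neg_of_lt hr) (Mathlib.Tactic.Linarith.sub_neg_of_lt hr)], by rw [e2]; linarith only [h1, sq_nonneg r], by simp, h2⟩
  refine ⟨hx, hy, (h.HX1_bsame hx hy).2 ?_⟩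
  have e3 : r2 (mkc (r * ee s) 0 (r' * ee t)) = 1 - r' ^ 2 := by
    rw [r2, cc_mkc1, cc_mkc2, n1, map_zero]; ring
  have e4 : ee (-s) * ee (-(-s - t)) = ee t := by rw [← ee_add]; exact congrArg ee (by ring)
  simp only [HD.amb, e1, e2, e3, cc_mkc0, cc_mkc1, cc_mkc2, mkc_21, n1, sub_sub_cancel,
    Real.sqrt_sq hr.le, Real.sqrt_sq hr'.le, Real.sq_sqrt h3, neg_neg, zero_mul, mul_zero, map_mul,
    conj_ofReal, conj_ee, Prod.mk.injEq, true_and, and_true]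
  rw [← e4]
  ring

theorem WM.isOpen_OV (h : WM D q η) (j : J4) (b : Bool) : IsOpen (q.OV D j b) :=
  (h.pX j b .V).isOpen_image (h.pX j b .V).opn subset_rfl

theorem WM.isOpen_OL (h : WM D q η) (j : J4) : IsOpen (q.OL D j) :=
  (h.deckL j).par.isOpen_image (h.deckL j).par.opn subset_rfl

theorem WM.isOpen_OP (h : WM D q η) (j : J4) : IsOpen (q.OP D j) :=
  ((h.isOpen_OV j true).union (h.isOpen_OV j false)).union (h.isOpen_OL j)


end Pool.Agent.Work.MP_bf98aa_gt.B3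
end

-- merged part: Pool.Agent.Work.MP_bf98aa_gt.B3.HX2
section
/-!
The Hopf charts and their overlap with the neighbourhood of the exceptional divisor.
PLAN. `WM.eT`, `WM.eXT`, `ambT_iff`, `tq1_ambT`, `ambT_toT`, `tmm_ambT`, `trr_ambT`, `tv_ambT`, `Upp.tv`, `Upp.tmm_eq`, `Upp.trr_eq`, `ex_taH`, `ex_V`, `ex_L`, `XT_rad`, `tal_am0`, `tga_am0`, `amb_up`.
On the core `β = 0` one has `tal = 0`, `xu = -m`, `tga = √xu • (c / √r₁, -conj u)`. `OP_inter`: a point of `T` with `m < -1/16` comes from an ambient point `a` of the half `true` (`ex_taH`) with `xt a = 1 + m < 15/16`,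
`xr a = xu a + xt a < 8`; if `a.2.1 < 15/16` use `ex_V`, otherwise `a.1 ≠ 0` and `ex_L`; for `1/16 < m` use the half `false`.
-/

set_option autoImplicit false

open scoped Manifold ContDiff Topology Matrix ComplexConjugate
open Set Complex Filter

namespace Pool.Agent.Work.MP_bf98aa_gt.B3

open Pool.Agent.Work.MP_bf98aa_gt.Th Pool.Agent.Work.MP_bf98aa_gt.Cy

variable {M : Type} [TopologicalSpace M] [ChartedSpace E6 M] [IsManifold 𝓘(ℝ, E6) ∞ M]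
  {D : GD} {q : Ch M} {η : Fo M 2} {j : J4} {b i : Bool} {k : ℕ} {z : E6}

/-- The domain of the polar chart of the overlap of the Hopf charts. -/
def WTT (a b : ℝ) : Set E6 := {z | 0 < z (0, 0) ∧ z ∈ WTI a b}

/-- The transition map of the Hopf charts in polar coordinates. -/
noncomputable def trT (z : E6) : E6 :=
  mkc (((z (0, 0))⁻¹ : ℝ) * ee (-z (0, 1))) (-cc 1 z * ee (-2 * z (0, 1)))
    ⟨z (2, 0), z (2, 1) + z (0, 1)⟩

theorem HX2_WT : z ∈ WT ↔ -1 / 8 < z (2, 0) ∧ z (2, 0) < 1 / 8 ∧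
    z (1, 0) ^ 2 + z (1, 1) ^ 2 + 14 * z (2, 0) < 49 ∧
      z (1, 0) ^ 2 + z (1, 1) ^ 2 - 14 * z (2, 0) < 49 := by
  have e : |z (2, 0)| < 1 / 8 → (√(z (2, 0) ^ 2 + normSq (cc 1 z)) + |z (2, 0)| < 7 ↔
      z (1, 0) ^ 2 + z (1, 1) ^ 2 + 14 * |z (2, 0)| < 49) := fun h => by
    rw [← lt_sub_iff_add_lt, Real.sqrt_lt' (by linarith only [h]), normSq_cc, sub_sq, sq_abs]
    constructor <;> intro <;> linarith
  refine (and_congr_right e).trans ⟨fun ⟨h1, h2⟩ => ?_, fun ⟨h1, h2, h3, h4⟩ => ?_⟩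
  · have := le_abs_self (z (2, 0))
    have := neg_abs_le (z (2, 0))
    refine ⟨?_, ?_, ?_, ?_⟩ <;> linarith
  · rcases abs_choice (z (2, 0)) with h | h <;> rw [h] <;> constructor <;> linarith

theorem HX2_mem {a b : ℝ} {y : E6} (hz : z ∈ WTI a b) (h1 : y (2, 0) = z (2, 0))
    (h2 : normSq (cc 1 y) = normSq (cc 1 z)) : y ∈ WTI a b := by
  simp only [WTI, WT, mem_ofPred_eq, h1, h2]
  exact hz

theorem HX2_add {a b : ℝ} {i : Cx} (hi : i = (0, 1) ∨ i = (2, 1)) (hz : z ∈ WTI a b) (t : ℝ) :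
    z + t • bv i ∈ WTI a b := by
  rcases hi with rfl | rfl <;> exact HX2_mem hz (by simp [bv]) (by simp [bv, cc])

theorem HX2_open (a b : ℝ) : IsOpen (WTI a b) :=
  isOpen_WT.inter ((isOpen_lt continuous_const (continuous_apply _)).inter
    (isOpen_lt (continuous_apply _) continuous_const))

theorem HX2_core {a b : ℝ} (h1 : a < z (2, 0)) (h2 : z (2, 0) < b) (h3 : |z (2, 0)| < 1 / 8)
    (h4 : z (1, 0) = 0) (h5 : z (1, 1) = 0) : z ∈ WTI a b := by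
  rw [abs_lt] at h3
  refine ⟨HX2_WT.2 ?_, h1, h2⟩
  rw [h4, h5]
  refine ⟨?_, ?_, ?_, ?_⟩ <;> linarith only [h3, h3.1, h3.2]

theorem HX2_convex (a b : ℝ) : Convex ℝ (WTI a b) := by
  rintro x ⟨hx, x1, x2⟩ y ⟨hy, y1, y2⟩ s t hs ht hst
  rw [HX2_WT] at hx hy
  have q : ∀ u v : ℝ, (s * u + t * v) ^ 2 ≤ s * u ^ 2 + t * v ^ 2 := fun u v => by
    obtain rfl : t = 1 - s := by linarith only [hst]
    linarith only [hs, ht, mul_nonneg (mul_nonneg hs ht) (sq_nonneg (u - v)), sq_nonneg (u - v)]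
  have q1 := q (x (1, 0)) (y (1, 0))
  have q2 := q (x (1, 1)) (y (1, 1))
  have e3 := convex_Iio (𝕜 := ℝ) _ (mem_Iio.2 hx.2.2.1) (mem_Iio.2 hy.2.2.1) hs ht hst
  have e4 := convex_Iio (𝕜 := ℝ) _ (mem_Iio.2 hx.2.2.2) (mem_Iio.2 hy.2.2.2) hs ht hst
  refine ⟨HX2_WT.2 ⟨convex_Ioi (𝕜 := ℝ) (-1 / 8 : ℝ) hx.1 hy.1 hs ht hst,
    convex_Iio (𝕜 := ℝ) (1 / 8 : ℝ) hx.2.1 hy.2.1 hs ht hst, ?_, ?_⟩,
    convex_Ioi (𝕜 := ℝ) a x1 y1 hs ht hst, convex_Iio (𝕜 := ℝ) b x2 y2 hs ht hst⟩ <;>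
  simp only [mem_Iio, Pi.add_apply, Pi.smul_apply, smul_eq_mul] at e3 e4 ⊢ <;> linarith only [q1, q2, e3, e4]

theorem HX2_amb (hz : 0 < z (0, 0)) : ambT true (pol z) = ambT false (trT z) := by
  have h0 : (z (0, 0) : ℂ) ≠ 0 := ofReal_ne_zero.2 hz.ne'
  have h1 := ee_ne_zero (z (0, 1))
  have e : (√(nT (trT z)))⁻¹ = z (0, 0) * (√(nT (pol z)))⁻¹ := by
    have : nT (pol z) = z (0, 0) ^ 2 * nT (trT z) := by
      simp only [nT, pol, trT, cc_mkc0, X1b_nr, normSq_ofReal]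
      field_simp
      ring
    rw [this, Real.sqrt_mul (sq_nonneg _), Real.sqrt_sq hz.le, mul_inv, mul_inv_cancel_left₀ hz.ne']
  have e2 : ee (-2 * z (0, 1)) = (ee (z (0, 1)))⁻¹ ^ 2 := by
    rw [← X5b_neg, sq, ← ee_add]
    ring_nf
  simp only [ambT, hn, hn', e]
  generalize (√(nT (pol z)))⁻¹ = s
  simp only [pol, trT, cc_mkc0, cc_mkc1, mkc_20, mkc_21, cc_re, cc_im, e2, ee_add, map_mul,
    conj_ofReal, conj_ee, neg_neg]
  simp only [X5b_neg (z (0, 1)), Prod.smul_mk, Prod.mk_add_mk, smul_eq_mul,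
    real_smul, ofReal_mul, ofReal_inv, Prod.mk.injEq]
  refine ⟨⟨?_, ?_⟩, ?_, ?_⟩ <;> field_simp

theorem HX2_X (h : WM D q η) {m : M} (hm : m ∈ q.OP D j) : ∃ b c, ∃ x ∈ (D.H b).WX c,
    xt ((D.H b).amb c x) < 15 / 16 ∧ q.X j b c x = m := by
  have hV : ∀ b, m ∈ q.OV D j b → ∃ b c, ∃ x ∈ (D.H b).WX c,
      xt ((D.H b).amb c x) < 15 / 16 ∧ q.X j b c x = m := fun b ⟨x, hx, e⟩ =>
    ⟨b, .V, x, hx, (sub_le_self _ (normSq_nonneg _)).trans_lt hx.1, e⟩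
  rw [Ch.OP, h.OL_eq] at hm
  rcases hm with (hm | hm) | ⟨x, hx, e⟩ | ⟨x, hx, e⟩
  exacts [hV _ hm, hV _ hm, ⟨_, .L, x, hx, (xt_L hx.2.1.le).trans_lt hx.2.2.1, e⟩,
    ⟨_, .L, x, hx, (xt_L hx.2.1.le).trans_lt hx.2.2.1, e⟩]

theorem HX2_OP (h : WM D q η) (j : J4) (b i : Bool) (hz : z ∈ WT)
    (h0 : cond b (z (2, 0)) (-z (2, 0)) < -1 / 16) : q.T j i z ∈ q.OP D j := by
  obtain ⟨a, ha, e, -, e1⟩ := ex_of_T h.ok (D.thU j) b i hz
    (h0.trans_le ((by norm_num : (-1 / 16 : ℝ) ≤ 0).trans (Real.sqrt_nonneg _)))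
  have h1 : 7 / 8 < xt a := by
    have := HX2_WT.1 hz
    cases b <;> simp only [cond] at e1 <;> linarith only [this, e1, this.1, this.2.1]
  have key : ∀ c, ∀ x ∈ (D.H b).WX c, (D.H b).amb c x = a → q.X j b c x = q.T j i z :=
    fun c x hx ex => (h.eXT j b c j i x hx z hz).2 ⟨rfl, ex ▸ h1, ex ▸ e⟩
  rw [Ch.OP, h.OL_eq]
  rcases lt_or_ge a.2.1 (15 / 16) with h2 | h2
  · obtain ⟨x, hx, ex⟩ := ex_V ha h2
    cases b
    exacts [.inl (.inr ⟨x, hx, key _ x hx ex⟩), .inl (.inl ⟨x, hx, key _ x hx ex⟩)]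
  · obtain ⟨x, hx, -, ex⟩ := ex_L ha (fun h3 => by
      rw [xt, h3, map_zero] at e1
      linarith only [h0, e1, h2]) (by linarith only [h2]) (by linarith only [h0, e1])
    cases b
    exacts [.inr (.inr ⟨x, hx, key _ x hx ex⟩), .inr (.inl ⟨x, hx, key _ x hx ex⟩)]

theorem WM.deckT (h : WM D q η) (j : J4) (i : Bool) (a b : ℝ) :
    Deck (q.T j i) (WTI a b) (TZ {(2, 1)}) := by
  refine deck_of ((h.pT j i).mono (HX2_open a b) fun _ hz => hz.1)
    (fun _ hi _ hz => HX2_add (.inr (Finset.mem_singleton.1 hi)) hz) (fun c hc z hz => ?_)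
    fun x hx y hy e c => ?_
  · obtain rfl := Finset.mem_singleton.1 hc
    have := HX2_add (.inr rfl) hz 1
    rw [one_smul] at this
    exact ((h.eT j i j i z hz.1 _ this.1).2 ⟨rfl, ambT_iff.2
      ⟨by simp [bv, cc], by simp [bv, cc], by simp [bv], 1, by simp [bv]⟩⟩).symm
  · obtain ⟨e0, e1, e2, e3⟩ := ambT_iff.1 ((h.eT j i j i x hx.1 y hy.1).1 e).2
    obtain ⟨c, c'⟩ := c
    fin_cases c <;> fin_cases c'
    exacts [congrArg re e0, congrArg im e0, congrArg re e1, congrArg im e1, e2, e3]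

theorem domT {a b m : ℝ} (h1 : a < m) (h2 : m < b) (h3 : |m| < 1 / 8) :
    Dom {(2, 1)} (WTI a b) (Cy.mk 0 0 0 0 m 0) := by
  exact ⟨HX2_open a b, HX2_core h1 h2 h3 rfl rfl, fun x hx t ht =>
    (HX2_convex a b).add_smul_sub_mem hx (HX2_core h1 h2 h3 rfl rfl) ht,
    fun _ hi _ hz => HX2_add (.inr (Finset.mem_singleton.1 hi)) hz⟩

theorem convex_WTI (a b : ℝ) : Convex ℝ (WTI a b) := by
  exact HX2_convex a b

theorem WM.T_tr (h : WM D q η) (j : J4) {a b : ℝ} (hz : z ∈ WTT a b) :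
    pol z ∈ WTI a b ∧ trT z ∈ WTI a b ∧ q.T j true (pol z) = q.T j false (trT z) := by
  have h1 : pol z ∈ WTI a b := HX2_mem hz.2 rfl rfl
  have h2 : trT z ∈ WTI a b := HX2_mem hz.2 rfl ((X1b_nr _ _).trans (normSq_neg _))
  exact ⟨h1, h2, (h.eT j _ j _ _ h1.1 _ h2.1).2 ⟨rfl, HX2_amb hz.1⟩⟩

theorem contDiffAt_trT (hz : 0 < z (0, 0)) : ContDiffAt ℝ ∞ trT z := by
  refine contDiffAt_mkc ?_ ?_ (contDiffAt_cmk ?_ ?_) <;> fun_prop (disch := exact hz.ne')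

theorem HX2_openT (a b : ℝ) : IsOpen (WTT a b) :=
  (isOpen_lt continuous_const (continuous_apply _)).inter (HX2_open a b)

theorem HX2_addT {a b : ℝ} : ∀ i ∈ ({(0, 1), (2, 1)} : Finset Cx), ∀ z ∈ WTT a b, ∀ t : ℝ,
    z + t • bv i ∈ WTT a b := fun i hi z hz t => by
  have hi' : i = (0, 1) ∨ i = (2, 1) := by simpa using hi
  refine ⟨?_, HX2_add hi' hz.2 t⟩
  rcases hi' with rfl | rfl <;> simpa [bv] using hz.1

theorem WM.deckTT (h : WM D q η) (j : J4) (a b : ℝ) :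
    Deck (fun z => q.T j true (pol z)) (WTT a b) (TZ {(0, 1), (2, 1)}) ∧
      (fun z => q.T j true (pol z)) '' WTT a b = q.OT j a b true ∩ q.OT j a b false := by
  have hm : MapsTo pol (WTT a b) (WTI a b) := fun z hz => (h.T_tr j hz).1
  have hp : ∀ (z : E6) (t : ℝ), pol (z + t • bv (2, 1)) = pol z + t • bv (2, 1) := fun z t => by
    apply ext6 <;> simp [pol, bv, cc]
  refine ⟨deck_of (Par.trans (par_pol.mono (HX2_openT a b) fun _ hz => hz.1)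
    (h.deckT j true a b).par hm) HX2_addT (fun c hc z hz => ?_) fun x hx y hy e c => ?_,
    Subset.antisymm ?_ ?_⟩
  · have h1 := HX2_addT c hc z hz 1
    rw [← one_smul ℝ (bv c)]
    rcases (by simpa using hc : c = (0, 1) ∨ c = (2, 1)) with rfl | rfl
    · exact congrArg _ ((pol_eq_iff hz.1 h1.1).2 ⟨1, by rw [Int.cast_one]⟩).symm
    · rw [hp]
      exact (h.deckT j true a b).eq (fun z => z + (1 : ℝ) • bv (2, 1)) ⟨1, by simp⟩ _ (hm hz)
  · obtain ⟨_, ⟨n, rfl⟩, e1⟩ := (h.deckT j true a b).trans _ (hm hx) _ (hm hy) e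
    simp only [Finset.sum_singleton, ← hp] at e1
    obtain ⟨n', rfl⟩ := (pol_eq_iff (HX2_addT _ (by simp) x hx _).1 hy.1).1 e1
    obtain ⟨c, c'⟩ := c
    fin_cases c <;> fin_cases c' <;> simp [bv]
  · rintro _ ⟨z, hz, rfl⟩
    exact ⟨⟨_, hm hz, rfl⟩, _, (h.T_tr j hz).2.1, (h.T_tr j hz).2.2.symm⟩
  · rintro _ ⟨⟨x, hx, rfl⟩, y, hy, e⟩
    have e1 := congrArg (tq1 false) ((h.eT j _ j _ _ hy.1 _ hx.1).1 e).2
    obtain ⟨z, hz, rfl⟩ := pol_surj (w := x) fun h0 => by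
      rw [tq1_ambT, ← Bool.not_true, (X3_tq1 true x).2, h0, mul_zero] at e1
      exact mul_ne_zero (X3_ne y) (ee_ne_zero _) e1
    exact ⟨z, ⟨hz, HX2_mem hx rfl rfl⟩, rfl⟩

theorem domTT {a b m : ℝ} (h1 : a < m) (h2 : m < b) (h3 : |m| < 1 / 8) :
    Dom {(0, 1), (2, 1)} (WTT a b) (Cy.mk 1 0 0 0 m 0) := by
  have hc : Convex ℝ (WTT a b) := Convex.inter (fun _ hx _ hy _ _ hs ht hst =>
    convex_Ioi (𝕜 := ℝ) (0 : ℝ) hx hy hs ht hst) (HX2_convex a b)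
  exact ⟨HX2_openT a b, ⟨one_pos, HX2_core h1 h2 h3 rfl rfl⟩, fun x hx t ht =>
    hc.add_smul_sub_mem hx ⟨one_pos, HX2_core h1 h2 h3 rfl rfl⟩ ht, HX2_addT⟩

theorem WTI_eq : WTI (-1 / 8) (1 / 8) = WT := by
  exact Subset.antisymm (fun _ hz => hz.1) fun _ hz => ⟨hz, (HX2_WT.1 hz).1, (HX2_WT.1 hz).2.1⟩

theorem WM.isOpen_OT (h : WM D q η) (j : J4) (a b : ℝ) (i : Bool) : IsOpen (q.OT j a b i) :=
  (h.deckT j i a b).par.isOpen_image (h.deckT j i a b).par.opn subset_rfl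

theorem WM.isOpen_NW (h : WM D q η) (j : J4) : IsOpen (q.NW D j) :=
  (h.isOpen_OP j).union ((h.isOpen_OT j _ _ true).union (h.isOpen_OT j _ _ false))

theorem WM.OP_inter (h : WM D q η) (j : J4) :
    q.OP D j ∩ (q.OT j (-1 / 8) (1 / 8) true ∪ q.OT j (-1 / 8) (1 / 8) false) =
      (q.OT j (-1 / 8) (-1 / 16) true ∪ q.OT j (-1 / 8) (-1 / 16) false) ∪
        (q.OT j (1 / 16) (1 / 8) true ∪ q.OT j (1 / 16) (1 / 8) false) := by
  have u : ∀ a b, q.OT j a b true ∪ q.OT j a b false = ⋃ i, q.OT j a b i := fun a b =>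
    (iSup_bool_eq (f := q.OT j a b)).symm
  rw [u, u, u]
  refine Subset.antisymm ?_ ?_
  · rintro m ⟨hm, hm'⟩
    obtain ⟨i, y, hy, rfl⟩ := mem_iUnion.1 hm'
    obtain ⟨b, c, x, hx, h1, e⟩ := HX2_X h hm
    obtain ⟨-, h2, h3⟩ := (h.eXT j b c j i x hx y hy.1).1 e
    have h4 := (((xbd_amb hx).upp (by linarith only [h1, h2])).rad h3).2
    cases b <;> simp only [cond] at h4
    exacts [.inr (mem_iUnion.2 ⟨i, y, ⟨hy.1, by linarith only [h1, h4], hy.2.2⟩, rfl⟩),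
      .inl (mem_iUnion.2 ⟨i, y, ⟨hy.1, hy.2.1, by linarith only [h1, h4]⟩, rfl⟩)]
  · rintro m (hm | hm) <;> obtain ⟨i, y, hy, rfl⟩ := mem_iUnion.1 hm <;>
      refine ⟨?_, mem_iUnion.2 ⟨i, y, WTI_eq ▸ hy.1, rfl⟩⟩
    exacts [HX2_OP h j true i hy.1 hy.2.2, HX2_OP h j false i hy.1 (by
      simp only [cond]; linarith only [hy, hy.2.1])]

theorem WM.OT_disj (h : WM D q η) (j : J4) :
    Disjoint (q.OT j (-1 / 8) (-1 / 16) true ∪ q.OT j (-1 / 8) (-1 / 16) false)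
      (q.OT j (1 / 16) (1 / 8) true ∪ q.OT j (1 / 16) (1 / 8) false) := by
  rw [disjoint_left]
  rintro _ (⟨x, hx, rfl⟩ | ⟨x, hx, rfl⟩) (⟨y, hy, e⟩ | ⟨y, hy, e⟩) <;>
  · have e1 := congrArg tmm ((h.eT j _ j _ _ hy.1 _ hx.1).1 e).2
    rw [tmm_ambT, tmm_ambT] at e1
    linarith only [e1, hx, hy, hx.2.2, hy.2.1]

theorem HX2_bWT {d : HD} {a : XA} {θ : ℝ} (ha : XBd d a) (h1 : 7 / 8 < xt a)
    (h2 : xu a - xt a < 6) (e : taH θ b a = ambT i z) : z ∈ WT := by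
  obtain ⟨h4, h5⟩ := (ha.upp (by linarith only [h1])).rad e
  have h6 : |z (2, 0)| = |xt a - 1| := by rw [h5]; cases b <;> simp
  refine ⟨?_, ?_⟩
  · rw [h6, abs_lt]
    exact ⟨by linarith only [h1], by linarith only [ha, ha.hi]⟩
  · change rT z + _ < 7
    rw [h6, ← h4]
    rcases abs_cases (xt a - 1) with e | e <;> linarith only [e, ha, h2, ha.r8, xr_eq a]

theorem WM.HX2_OT (h : WM D q η) (j : J4) {c : X3} (hz : z ∈ (D.H b).WX c)
    (h1 : 7 / 8 < xt ((D.H b).amb c z)) (h2 : xr ((D.H b).amb c z) = 1)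
    (h0 : tq1 i (taH (D.thU j) b ((D.H b).amb c z)) ≠ 0) :
    q.X j b c z ∈ q.OT j (-1 / 8) (1 / 8) i := by
  obtain ⟨ψ, hψ⟩ := exists_ee (tq1 i (taH (D.thU j) b ((D.H b).amb c z)))
  have e := (ambT_toT (((xbd_amb hz).upp (by linarith only [h1])).tv _ b) h0 hψ).symm
  have hy := HX2_bWT (xbd_amb hz) h1 (by linarith only [h1, h2, xr_eq ((D.H b).amb c z)]) e
  exact ⟨_, WTI_eq.ge hy, ((h.eXT j b c j i z hz _ hy).2 ⟨rfl, h1, e⟩).symm⟩

theorem HX2_q {a : XA} (u : Upp a) (h1 : a.2.2.2.2.1 = 0) (h2 : a.2.2.2.2.2.1 = 0) (θ : ℝ) :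
    ∃ κ : ℝ, 0 < κ ∧ (taH θ true a).1 = (κ * (a.2.2.2.1 / (√a.2.1 : ℝ)), -(κ * conj a.1)) ∧
      (taH θ false a).1 = (ee θ * (κ * a.1), ee θ * (κ * conj (a.2.2.2.1 / (√a.2.1 : ℝ)))) := by
  refine ⟨(xu a)⁻¹ * √((xu a - (xt a - 1)) / 2),
    mul_pos (inv_pos.2 u.xu_pos) (Real.sqrt_pos.2 (by linarith only [u, u.up])), ?_, ?_⟩ <;>
    simp [taH, sharp, ta, tal, tga, h1, h2, mul_assoc]

theorem HX2_bcore {a : XA} {θ s ψ : ℝ} {ξ : ℂ} (u : Upp a) (h1 : xr a = 1) (hs : 0 < s)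
    (e1 : tq1 i (taH θ b a) = s * ee ψ) (e2 : tq1 (!i) (taH θ b a) = s * ee ψ * ξ) :
    taH θ b a = ambT i (mkc ξ 0 ⟨cond b (xt a - 1) (1 - xt a), ψ⟩) := by
  have h0 : (s : ℂ) * ee ψ ≠ 0 := mul_ne_zero (ofReal_ne_zero.2 hs.ne') (ee_ne_zero ψ)
  have e := ambT_toT (ψ := ψ) (u.tv θ b) (e1 ▸ h0) (by
    rw [e1, norm_mul, norm_ee, mul_one, norm_real, Real.norm_of_nonneg hs.le])
  obtain ⟨r1, r2⟩ := u.rad e.symm
  refine e.symm.trans (congrArg _ (extc ?_ ?_ (Complex.ext ?_ rfl)))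
  · rw [toT, cc_mkc0, e1, e2, mul_div_cancel_left₀ _ h0, cc_mkc0]
  · have h2 : xu a ^ 2 = _ :=
      (congrArg (· ^ 2) r1).trans (Real.sq_sqrt (add_nonneg (sq_nonneg _) (normSq_nonneg _)))
    have h3 : (xt a - 1) ^ 2 = toT i ψ (taH θ b a) (2, 0) ^ 2 := by rw [r2]; cases b <;> simp
    have h4 : xu a = -(xt a - 1) := by linarith only [h1, xr_eq a]
    rw [h4, neg_sq, h3, left_eq_add] at h2
    exact normSq_eq_zero.1 h2
  · cases b
    · exact (neg_eq_iff_eq_neg.2 r2).symm.trans (neg_sub _ _)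
    · exact r2.symm

theorem HD.Ok.HX2_V {d : HD} (h : d.Ok) {u w : ℂ} (h1 : normSq w < 15 / 16)
    (h2 : 7 / 8 < normSq w - normSq u) : mkc u 0 w ∈ d.WX .V ∧ d.amb .V (mkc u 0 w) =
      (u, normSq w, 1 - normSq w, w * (√(1 - normSq w) : ℝ), 0, 0, 0) := by
  refine ⟨⟨h1, by simp, ?_⟩, by simp [HD.amb, r2]⟩
  simp only [HD.nuF, HD.M, cc_mkc0, cc_mkc2]
  linarith only [h2, h, h.hμ]

theorem WM.HX2_AB (h : WM D q η) (j : J4) (b : Bool) {r r' : ℝ} (hr' : 0 < r')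
    (h1 : r' ^ 2 < 15 / 16) (h2 : 7 / 8 < r' ^ 2 - r ^ 2) (s t : ℝ) {ψ : ℝ} {ξ : ℂ}
    (he : ∀ κ : ℝ, 0 < κ → ∃ σ : ℝ, 0 < σ ∧ cond b (κ * (ee t * (√(1 - r' ^ 2) : ℝ)))
      (ee (D.thU j) * (κ * (r * ee s))) = σ * ee ψ ∧ cond b (-(κ * (r * ee (-s))))
        (ee (D.thU j) * (κ * (ee (-t) * (√(1 - r' ^ 2) : ℝ)))) = σ * ee ψ * ξ) :
    q.X j b .V (mkc (r * ee s) 0 (r' * ee t)) = q.T j true
      (mkc ξ 0 ⟨cond b (r' ^ 2 - r ^ 2 - 1) (1 - (r' ^ 2 - r ^ 2)), ψ⟩) := by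
  have n : ∀ r s : ℝ, normSq (r * ee s) = r ^ 2 := fun r s => by
    rw [X1b_nr, normSq_ofReal, sq]
  obtain ⟨hz, e⟩ := (h.ok.ok b).HX2_V (u := r * ee s) (w := r' * ee t) (by rwa [n]) (by rwa [n, n])
  have ha := xbd_amb hz
  have ht : xt ((D.H b).amb .V (mkc (r * ee s) 0 (r' * ee t))) = r' ^ 2 - r ^ 2 := by
    rw [e, xt, n, n]
  have hr : xr ((D.H b).amb .V (mkc (r * ee s) 0 (r' * ee t))) = 1 := by simp [xr_V]
  have u := ha.upp (by linarith only [h2, ht])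
  obtain ⟨κ, hκ, k1, k2⟩ := HX2_q u (by rw [e]) (by rw [e]) (D.thU j)
  obtain ⟨σ, hσ, e1, e2⟩ := he κ hκ
  have hc : (r' * ee t * (√(1 - r' ^ 2) : ℝ) / (√(r' ^ 2) : ℝ) : ℂ) = ee t * (√(1 - r' ^ 2) : ℝ) := by
    rw [Real.sqrt_sq hr'.le, mul_assoc, mul_div_cancel_left₀ _ (ofReal_ne_zero.2 hr'.ne')]
  have e3 := HX2_bcore (i := true) (θ := D.thU j) (b := b) (ψ := ψ) (ξ := ξ) u hr hσ
    (by cases b <;> simp only [← e1, tq1, cond, k1, k2] <;> simp only [e, n, hc])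
    (by cases b <;> simp only [← e2, tq1, cond, Bool.not_true, k1, k2] <;>
      simp only [e, n, hc, map_mul, conj_ofReal, conj_ee])
  rw [ht] at e3
  exact (h.eXT j b .V j true _ hz _ (HX2_bWT ha (by linarith only [h2, ht])
    (by linarith only [h2, ht, hr, xr_eq ((D.H b).amb .V (mkc (r * ee s) 0 (r' * ee t)))]) e3)).2
      ⟨rfl, by linarith only [h2, ht], e3⟩

theorem WM.coreV (h : WM D q η) (j : J4) (b : Bool) {u w : ℂ} (h1 : normSq w < 15 / 16)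
    (h2 : 7 / 8 < normSq w - normSq u) : mkc u 0 w ∈ (D.H b).WX .V ∧
      q.X j b .V (mkc u 0 w) ∈ q.OT j (-1 / 8) (1 / 8) b := by
  obtain ⟨hz, e⟩ := (h.ok.ok b).HX2_V h1 h2
  have ht : 7 / 8 < xt ((D.H b).amb .V (mkc u 0 w)) := by rwa [e]
  refine ⟨hz, h.HX2_OT j hz ht (by simp [xr_V]) ?_⟩
  obtain ⟨κ, hκ, k1, k2⟩ := HX2_q ((xbd_amb hz).upp (by linarith only [ht])) (by rw [e]) (by rw [e]) (D.thU j)
  have hw : 0 < normSq w := by linarith only [h2, normSq_nonneg u]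
  have hc : w * (√(1 - normSq w) : ℝ) / (√(normSq w) : ℝ) ≠ 0 :=
    div_ne_zero (mul_ne_zero (normSq_pos.1 hw) (ofReal_ne_zero.2 (Real.sqrt_pos.2 (by linarith only [h1, hw])).ne'))
      (ofReal_ne_zero.2 (Real.sqrt_pos.2 hw).ne')
  have hk := ofReal_ne_zero.2 hκ.ne'
  cases b <;> simp only [tq1, cond, k1, k2] <;> rw [e]
  exacts [mul_ne_zero (ee_ne_zero _) (mul_ne_zero hk ((map_ne_zero _).2 hc)), mul_ne_zero hk hc]

theorem WM.coreL (h : WM D q η) (j : J4) (b : Bool) {a : ℂ} {t : ℝ} (h1 : 7 / 8 < t)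
    (h2 : t < 15 / 16) (h3 : t < 1 - normSq a) (φ : ℝ) :
    mkc a 0 ⟨(D.H b).μ₁ + t, φ⟩ ∈ (D.H b).WX .L ∧
      q.X j b .L (mkc a 0 ⟨(D.H b).μ₁ + t, φ⟩) ∈ q.OT j (-1 / 8) (1 / 8) (!b) := by
  have e1 : r1 (mkc a 0 ⟨(D.H b).μ₁ + t, φ⟩) = 1 - normSq a := by simp [r1]
  have e2 : (D.H b).tt (mkc a 0 ⟨(D.H b).μ₁ + t, φ⟩) = t := by simp [HD.tt]
  have hz : mkc a 0 ⟨(D.H b).μ₁ + t, φ⟩ ∈ (D.H b).WX .L := by
    refine ⟨by linarith only [h1, h2, h3, e1], by linarith only [h3, e1, e2], by linarith only [h2, e2], by simp, ?_⟩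
    simp only [HD.M, mkc_20]
    linarith only [h1, h2, h, (h.ok.ok b).hμ]
  have ht : 7 / 8 < xt ((D.H b).amb .L (mkc a 0 ⟨(D.H b).μ₁ + t, φ⟩)) := by
    rwa [xt_L hz.2.1.le, e2]
  refine ⟨hz, h.HX2_OT j hz ht (by simp [xr_L]) ?_⟩
  obtain ⟨κ, hκ, k1, k2⟩ := HX2_q ((xbd_amb hz).upp (by linarith only [h1, h2, ht])) (by simp [HD.amb])
    (by simp [HD.amb]) (D.thU j)
  have hc : ((D.H b).amb .L (mkc a 0 ⟨(D.H b).μ₁ + t, φ⟩)).1 ≠ 0 :=
    mul_ne_zero (ofReal_ne_zero.2 (Real.sqrt_pos.2 (sub_pos.2 hz.2.1)).ne') (ee_ne_zero _)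
  have hk := ofReal_ne_zero.2 hκ.ne'
  cases b <;> simp only [tq1, cond, Bool.not_true, Bool.not_false, k1, k2]
  exacts [mul_ne_zero (ee_ne_zero _) (mul_ne_zero hk hc),
    neg_ne_zero.2 (mul_ne_zero hk ((map_ne_zero _).2 hc))]

theorem WM.core_VT_A (h : WM D q η) (j : J4) {r r' : ℝ} (hr : 0 < r) (hr' : 0 < r')
    (h1 : r' ^ 2 < 15 / 16) (h2 : 7 / 8 < r' ^ 2 - r ^ 2) (s t : ℝ) :
    q.X j true .V (mkc (r * ee s) 0 (r' * ee t)) = q.T j true
      (pol (Cy.mk (r / √(1 - r' ^ 2)) (1 / 2 - s - t) 0 0 (r' ^ 2 - r ^ 2 - 1) t)) := by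
  have hS : 0 < √(1 - r' ^ 2) := Real.sqrt_pos.2 (by linarith only [h1])
  refine h.HX2_AB j true hr' h1 h2 s t (ψ := t) fun κ hκ =>
    ⟨κ * √(1 - r' ^ 2), mul_pos hκ hS, ?_, ?_⟩
  · simp only [cond, ofReal_mul]
    ring
  · have hS' := ofReal_ne_zero.2 hS.ne'
    simp only [cond, ofReal_mul, ofReal_div, mk00, mk01, sub_eq_add_neg (_ : ℝ) t,
      sub_eq_add_neg (_ : ℝ) s, ee_add, ee_half, X5b_neg t]
    have := ee_ne_zero t
    field_simp

theorem WM.core_VT_B (h : WM D q η) (j : J4) {r r' : ℝ} (hr : 0 < r) (hr' : 0 < r')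
    (h1 : r' ^ 2 < 15 / 16) (h2 : 7 / 8 < r' ^ 2 - r ^ 2) (s t : ℝ) :
    q.X j false .V (mkc (r * ee s) 0 (r' * ee t)) = q.T j true
      (pol (Cy.mk (√(1 - r' ^ 2) / r) (-s - t) 0 0 (1 - (r' ^ 2 - r ^ 2)) (D.thU j + s))) := by
  refine h.HX2_AB j false hr' h1 h2 s t (ψ := D.thU j + s) fun κ hκ =>
    ⟨κ * r, mul_pos hκ hr, ?_, ?_⟩
  · simp only [cond, ofReal_mul, ee_add]
    ring
  · have hS' := ofReal_ne_zero.2 hr.ne'
    simp only [cond, ofReal_mul, ofReal_div, mk00, mk01, sub_eq_add_neg (_ : ℝ) t, ee_add,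
      X5b_neg s]
    have := ee_ne_zero s
    field_simp

theorem WM.F_sub (h : WM D q η) (j : J4) (b : Bool) (hz : z ∈ (D.H b).WX .F)
    (hy : z ∈ (D.H b).Yo) : q.X j b .F z ∈ q.NW D j := by
  have ha := xbd_amb hz
  have hX : ∀ {c y}, y ∈ (D.H b).WX c → (D.H b).amb c y = (D.H b).amb .F z →
      q.X j b c y = q.X j b .F z := fun hy e =>
    (h.eX j b _ j b .F _ hy z hz).2 ⟨rfl, Or.inl ⟨rfl, e⟩⟩
  by_cases h1 : xt ((D.H b).amb .F z) < 15 / 16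
  · left
    by_cases h2 : ((D.H b).amb .F z).2.1 < 15 / 16
    · obtain ⟨y, hy, e⟩ := ex_V ha h2
      cases b
      exacts [Or.inl (Or.inr ⟨y, hy, hX hy e⟩), Or.inl (Or.inl ⟨y, hy, hX hy e⟩)]
    · obtain ⟨y, hy, -, e⟩ := ex_L ha (fun e => h2 (by simpa [xt, e] using h1)) (by linarith only [h2]) h1
      right
      rw [h.OL_eq]
      cases b
      exacts [Or.inr ⟨y, hy, hX hy e⟩, Or.inl ⟨y, hy, hX hy e⟩]
  · have h2 : xr ((D.H b).amb .F z) - 2 * xt ((D.H b).amb .F z) < 6 := hy.2.resolve_left h1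
    obtain ⟨i, y, hy, e, -⟩ := ex_to_T ha (D.thU j) b (by linarith only [h1])
      (by linarith only [h2, xr_eq ((D.H b).amb .F z)])
    have := ((h.eXT j b .F j i z hz y hy).2 ⟨rfl, by linarith only [h1], e⟩).symm
    cases i
    exacts [Or.inr (Or.inr ⟨y, WTI_eq.ge hy, this⟩), Or.inr (Or.inl ⟨y, WTI_eq.ge hy, this⟩)]

theorem WM.F_mem (h : WM D q η) {j j' : J4} (b : Bool) (hz : z ∈ (D.H b).WX .F)
    (hm : q.X j b .F z ∈ q.NW D j') : j' = j ∧ ∃ b', ∃ y ∈ (D.H b').WX .F, y ∈ (D.H b').Yo ∧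
      q.X j b' .F y = q.X j b .F z := by
  have hr := xr_eq ((D.H b).amb .F z)
  have h0 : xu ((D.H b).amb .F z) - xt ((D.H b).amb .F z) < 6 → z ∈ (D.H b).Yo := fun e =>
    ⟨hz.1, Or.inr (by rw [← xr_F (d := D.H b), ← xt_F (d := D.H b)]; linarith)⟩
  have hX : ∀ b' c, ∀ x ∈ (D.H b').WX c, xt ((D.H b').amb c x) < 15 / 16 →
      q.X j' b' c x = q.X j b .F z → j' = j ∧ ∃ b', ∃ y ∈ (D.H b').WX .F, y ∈ (D.H b').Yo ∧
        q.X j b' .F y = q.X j b .F z := by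
    intro b' c x hx h1 e
    obtain ⟨rfl, h2⟩ := (h.eX j' b' c j b .F x hx z hz).1 e
    refine ⟨rfl, ?_⟩
    rcases RA_rad h.ok (RW_XX.2 ⟨hx, hz, h2⟩) with h3 | ⟨-, h3, h4⟩
    · obtain ⟨y, hy, e'⟩ := to_F (h.ok.ok b') hx (h3 ▸ hz.2.1)
      exact ⟨b', y, hy, ⟨hy.1, Or.inl (by rwa [← e'] at h1)⟩,
        ((h.eX j' b' .F j' b' c y hy x hx).2 ⟨rfl, Or.inl ⟨rfl, e'⟩⟩).trans e⟩
    · exact ⟨b, z, hz, h0 (by linarith only [h3, h4, hx, (xbd_amb hx).r8, xr_eq ((D.H b').amb c x)]), rfl⟩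
  have hV : ∀ b', ∀ x ∈ (D.H b').WX .V, xt ((D.H b').amb .V x) < 15 / 16 := fun b' x hx =>
    (sub_le_self _ (normSq_nonneg _)).trans_lt hx.1
  have hL : ∀ b', ∀ x ∈ (D.H b').WX .L, xt ((D.H b').amb .L x) < 15 / 16 := fun b' x hx =>
    (xt_L hx.2.1.le).trans_lt hx.2.2.1
  have hT : ∀ i, ∀ y ∈ WT, q.T j' i y = q.X j b .F z → j' = j ∧ z ∈ (D.H b).Yo := by
    intro i y hy e
    obtain ⟨h1, h2, h3⟩ := (h.eXT j b .F j' i z hz y hy).1 e.symm
    obtain ⟨h4, h5⟩ := ((xbd_amb hz).upp (by linarith only [h2])).rad h3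
    have h6 : rT y + |y (2, 0)| < 7 := hy.2
    refine ⟨h1.symm, h0 ?_⟩
    cases b <;> simp only [cond] at h5 <;> linarith only [h6, h4, h5, le_abs_self (y (2, 0)), neg_abs_le (y (2, 0))]
  rw [Ch.NW, Ch.OP, h.OL_eq] at hm
  rcases hm with ((⟨x, hx, e⟩ | ⟨x, hx, e⟩) | ⟨x, hx, e⟩ | ⟨x, hx, e⟩) | ⟨x, hx, e⟩ | ⟨x, hx, e⟩
  exacts [hX _ _ x hx (hV _ x hx) e, hX _ _ x hx (hV _ x hx) e, hX _ _ x hx (hL _ x hx) e,
    hX _ _ x hx (hL _ x hx) e, (hT _ x hx.1 e).imp_right fun h1 => ⟨b, z, hz, h1, rfl⟩,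
    (hT _ x hx.1 e).imp_right fun h1 => ⟨b, z, hz, h1, rfl⟩]


end Pool.Agent.Work.MP_bf98aa_gt.B3
end

-- merged part: Pool.Agent.Work.MP_bf98aa_gt.B3.HW1
section
/-!
Cohomology of the parts of the cotangent bundle of the 3-sphere; the two explicit classes on the neighbourhood of a resolved sphere.
PLAN. `h1T`: potentials `f₁, f₂` on the convex set `WTI a b` (`pot`, `RA_convex`), jumps `x₁, x₂` along `bv (2,1)` (`jump`). The loop `θ ↦ q.T true (pol (z + θ • bv (0,1)))` lifts to a closed loop in the first chart and to a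
path with jump `x₂` in the second (`T_tr`; on `WTT` the function `f₁ ∘ pol - f₂ ∘ trT` has zero derivative, so it is constant); so `x₂ = 0`, and `x₁ = x₂`; `ex_of_pot`, `mv1` (`Dom.preconn`, image of a preconnected set).
`h2T`: `ex_deck`; `c₁ = x • dψ₁`, `c₂ = y • dψ₂` from `dlog` (one chart each); `deck1` on `WTT`, `lp_sub`, `lp_smul`, `lp_chart`; `mv`. `exists_ze`: `G2_desc` over the charts of `atlW` (for `F` the domain `WX .F ∩ Yo`), with
`α (true, c) = pb Λ (d1 Z0)`, `Λ z = mkc (amb c z).1 0 ⟨xt (amb c z), 0⟩`, zero on the other charts; `d1 Z0 = 0` where `-1/2 < t`, or `t < -1` and `u ≠ 0` (`d1_dlog`). `exists_dm`: `dlog` with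
`l (b, c) = stm (± (xt - 1))`, `l i = stm m`.
-/

set_option autoImplicit false

open scoped Manifold ContDiff Topology Matrix ComplexConjugate
open Set Complex Filter

namespace Pool.Agent.Work.MP_bf98aa_gt.B3

open Pool.Agent.Work.MP_bf98aa_gt.Th Pool.Agent.Work.MP_bf98aa_gt.Cy

variable {M : Type} [TopologicalSpace M] [ChartedSpace E6 M] [IsManifold 𝓘(ℝ, E6) ∞ M]
  [T2Space M] [CompactSpace M] {D : GD} {q : Ch M} {η : Fo M 2} {j : J4} {b i : Bool} {k : ℕ}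

section
omit [T2Space M] [CompactSpace M]

theorem HW1_apot {ψ : E6 → M} {U : Set E6} (hP : Par ψ U) {w : Fo M 1} {f : E6 → ℝ}
    (hf : ContDiffOn ℝ ∞ f U) (h : ∀ x ∈ U, pl ψ w x = alt1 (fderiv ℝ f x)) {γ : ℝ → E6}
    (hγ : ContDiff ℝ ∞ γ) (hm : ∀ t, γ t ∈ U) : lp (fun t => ψ (γ t)) w = f (γ 1) - f (γ 0) := by
  have hg : ContDiff ℝ ∞ fun t => f (γ t) := hf.comp_contDiff hγ hm
  rw [lp_chart hP hγ hm, ← intervalIntegral.integral_deriv_eq_sub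
    (fun t _ => hg.differentiable (by simp) t) ((hg.continuous_deriv (by simp)).intervalIntegrable _ _)]
  refine intervalIntegral.integral_congr fun t _ => ?_
  show pl ψ w (γ t) ![deriv γ t] = _
  rw [h _ (hm t)]
  exact (fderiv_comp_deriv t ((hf.contDiffAt (hP.opn.mem_nhds (hm t))).differentiableAt (by simp))
    (hγ.differentiable (by simp) t)).symm

/-- The two loops in the overlap of the Hopf charts. -/
noncomputable def HW1_alo (q : Ch M) (j : J4) (z : E6) (c : Cx) (t : ℝ) : M :=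
  q.T j true (pol (z + t • bv c))

variable {s r : ℝ} {z : E6} {w : Fo M 1}

theorem HW1_aT (h : WM D q η) (hz : z ∈ WTT s r) {c : Cx}
    (hc : c ∈ ({(0, 1), (2, 1)} : Finset Cx)) (i : Bool) {f : E6 → ℝ}
    (hf : ContDiffOn ℝ ∞ f (WTI s r))
    (hw : ∀ x ∈ WTI s r, pl (q.T j i) w x = alt1 (fderiv ℝ f x)) :
    lp (HW1_alo q j z c) w = f (cond i pol trT (z + bv c)) - f (cond i pol trT z) := by
  have hm := fun t => h.T_tr j (HX2_addT c hc z hz t)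
  cases i
  · rw [show HW1_alo q j z c = _ from funext fun t => (hm t).2.2,
      HW1_apot (γ := fun t => trT (z + t • bv c)) (h.deckT j false s r).par hf hw
        (contDiff_iff_contDiffAt.2 fun t => (contDiffAt_trT (HX2_addT c hc z hz t).1).comp t
          (f := fun t : ℝ => z + t • bv c) (by fun_prop)) fun t => (hm t).2.1]
    simp
  · exact (HW1_apot (h.deckT j true s r).par hf hw (contDiff_pol.comp (by fun_prop))
      fun t => (hm t).1).trans (by simp)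

theorem HW1_aA (h : WM D q η) (hz : z ∈ WTT s r) (hw : ClO w (q.OT j s r true)) :
    lp (HW1_alo q j z (0, 1)) w = 0 := by
  obtain ⟨f, hf, e⟩ := pot (h.deckT j true s r).par (RA_convex (HX2_open s r) (HX2_convex s r) 1)
    hw (mapsTo_image _ _)
  rw [HW1_aT h hz (by simp) true hf e, sub_eq_zero]
  simp [pol, cc, bv, ee_add, show ee 1 = 1 by simpa using ee_int 1]

theorem HW1_aB (h : WM D q η) (hz : z ∈ WTT s r) (hw : ClO w (q.OT j s r false)) :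
    lp (HW1_alo q j z (0, 1)) w = lp (HW1_alo q j z (2, 1)) w := by
  obtain ⟨f, hf, e⟩ := pot (h.deckT j false s r).par (RA_convex (HX2_open s r) (HX2_convex s r) 1)
    hw (mapsTo_image _ _)
  rw [HW1_aT h hz (by simp) false hf e, HW1_aT h hz (by simp) false hf e, sub_left_inj]
  simp [trT, cc, bv, ee_add, mul_add, show ee (-1) = 1 by simpa using ee_int (-1),
    show ee (-2) = 1 by simpa using ee_int (-2), add_assoc, add_comm (1 : ℝ)]

theorem HW1_au (h : WM D q η) (j : J4) (hz : z ∈ WTT s r) (i : Bool) :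
    ∃ u : Fo M 1, ClO u (q.OT j s r i) ∧ lp (HW1_alo q j z (2, 1)) u = 1 := by
  obtain ⟨u, h1, h2⟩ := dlog (fun _ : Unit => (h.deckT j i s r).par) (l := fun _ z => z (2, 1))
    (fun _ => by fun_prop) fun _ _ x hx y hy e => by
      obtain ⟨-, -, -, n, e⟩ := ambT_iff.1 ((h.eT j i j i x hx.1 y hy.1).1 e).2
      exact ⟨n, by linarith only [e]⟩
  refine ⟨u, h1.mono (subset_iUnion (fun _ : Unit => q.OT j s r i) ()), ?_⟩
  rw [HW1_aT h hz (by simp) i (by fun_prop) (h2 ())]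
  cases i <;> simp [pol, trT, cc, bv]

end

theorem WM.h1T (h : WM D q η) (j : J4) {a b : ℝ} (ha : -1 / 8 ≤ a) (hab : a < b) (hb : b ≤ 1 / 8)
    {w : Fo M 1} (hw : ClO w (q.OT j a b true ∪ q.OT j a b false)) :
    ExO w (q.OT j a b true ∪ q.OT j a b false) := by
  have hm : |(a + b) / 2| < 1 / 8 := abs_lt.2 ⟨by linarith only [ha, hab], by linarith only [hab, hb]⟩
  have hd := domTT (a := a) (b := b) (by linarith only [hab]) (by linarith only [hab]) hm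
  have hT := domT (a := a) (b := b) (by linarith only [hab]) (by linarith only [hab]) hm
  obtain ⟨z, hz⟩ : ∃ z, z ∈ WTT a b := ⟨_, hd.mem⟩
  have h1 := hw.mono subset_union_left
  have h2 := hw.mono subset_union_right
  have h0 := (HW1_aB h hz h2).symm.trans (HW1_aA h hz h1)
  refine mv1 (h.isOpen_OT j a b _) (h.isOpen_OT j a b _)
    (deck1 (h.deckT j true a b) hT h1 fun c hc => ⟨_, (h.T_tr j hz).1, ?_⟩)
    (deck1 (h.deckT j false a b) hT h2 fun c hc => ⟨_, (h.T_tr j hz).2.1, ?_⟩)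
    ((h.deckTT j a b).2 ▸ hd.preconn.image _ (h.deckTT j a b).1.par.continuousOn) <;>
  obtain rfl := Finset.mem_singleton.1 hc <;> refine (congrArg (lp · w) (funext fun t => ?_)).trans h0
  · exact congrArg _ (by apply ext6 <;> simp [pol, bv, cc])
  · refine (congrArg _ ?_).trans (h.T_tr j (HX2_addT _ (by simp) z hz t)).2.2.symm
    apply ext6 <;> simp [trT, bv, cc, add_right_comm]

theorem WM.h2T (h : WM D q η) (j : J4) {a b : ℝ} (ha : -1 / 8 ≤ a) (hab : a < b) (hb : b ≤ 1 / 8)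
    {w : Fo M 2} (hw : ClO w (q.OT j a b true ∪ q.OT j a b false)) :
    ExO w (q.OT j a b true ∪ q.OT j a b false) := by
  have hm : |(a + b) / 2| < 1 / 8 := abs_lt.2 ⟨by linarith only [ha, hab], by linarith only [hab, hb]⟩
  have hd := domTT (a := a) (b := b) (by linarith only [hab]) (by linarith only [hab]) hm
  have hT := domT (a := a) (b := b) (by linarith only [hab]) (by linarith only [hab]) hm
  obtain ⟨z, hz⟩ : ∃ z, z ∈ WTT a b := ⟨_, hd.mem⟩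
  obtain ⟨hD, hI⟩ := h.deckTT j a b
  obtain ⟨b₁, h1⟩ := ex_deck (h.deckT j true a b) hT (hw.mono subset_union_left) (by simp)
  obtain ⟨b₂, h2⟩ := ex_deck (h.deckT j false a b) hT (hw.mono subset_union_right) (by simp)
  obtain ⟨u₁, c1, e1⟩ := HW1_au h j hz true
  obtain ⟨u₂, c2, e2⟩ := HW1_au h j hz false
  have ho := (h.isOpen_OT j a b true).inter (h.isOpen_OT j a b false)
  have hδ := (h1.mono (inter_subset_left (t := q.OT j a b false))).sub_cl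
    (h2.mono inter_subset_right)
  obtain ⟨x, hx⟩ : ∃ x, x = lp (HW1_alo q j z (0, 1)) (b₁ - b₂) := ⟨_, rfl⟩
  obtain ⟨y, hy⟩ : ∃ y, y = lp (HW1_alo q j z (2, 1)) (b₁ - b₂) := ⟨_, rfl⟩
  have k1 := hδ.sub ((c1.smul (y - x)).mono inter_subset_left)
  have k2 := (c2.smul x).mono (inter_subset_right (s := q.OT j a b true))
  refine mv (h.isOpen_OT j a b _) (h.isOpen_OT j a b _) h1 h2 (c1.smul (y - x))
    (ClO.zero.sub (c2.smul x)) ?_
  rw [← add_sub_assoc, add_zero, ← hI]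
  refine deck1 hD hd (hI ▸ k1.sub k2) fun c hc => ⟨z, hz, ?_⟩
  have s1 : ∀ t, SmAt (HW1_alo q j z c) t := fun t =>
    (hD.par.sm _ (hd.inv c hc z hz t)).comp (f := fun t : ℝ => z + t • bv c) (by fun_prop)
  have s2 : ∀ t, HW1_alo q j z c t ∈ q.OT j a b true ∩ q.OT j a b false := fun t =>
    hI ▸ mem_image_of_mem _ (hd.inv c hc z hz t)
  change lp (HW1_alo q j z c) _ = 0
  rw [lp_sub k1.sm k2.sm ho s1 s2, lp_sub hδ.sm ((c1.smul _).mono inter_subset_left).sm ho s1 s2,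
    lp_smul, lp_smul]
  rcases (by simpa using hc : c = (0, 1) ∨ c = (2, 1)) with rfl | rfl
  · rw [HW1_aA h hz c1, HW1_aB h hz c2, e2, ← hx]
    ring
  · rw [e1, e2, ← hy]
    ring

/-- The charts of the neighbourhood of a resolved sphere. -/
def HW1_Q (q : Ch M) (j : J4) : Bool × X3 ⊕ Bool → E6 → M :=
  Sum.elim (fun p => q.X j p.1 p.2) (q.T j)

theorem HW1_par (h : WM D q η) (j : J4) : ∀ c, Par (HW1_Q q j c) ((D.atlW j).W c)
  | .inl p => h.pX j p.1 p.2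
  | .inr i => h.pT j i

theorem HW1_rel (h : WM D q η) {x y : E6} : ∀ {c c'}, x ∈ (D.atlW j).W c → y ∈ (D.atlW j).W c' →
    HW1_Q q j c x = HW1_Q q j c' y → (D.atlW j).R c x c' y
  | .inl _, .inl _, hx, hy, e => ⟨hx, hy, ((h.eX _ _ _ _ _ _ x hx y hy).1 e).2⟩
  | .inl _, .inr _, hx, hy, e => ⟨hx, hy, ((h.eXT _ _ _ _ _ x hx y hy).1 e).2⟩
  | .inr _, .inl _, hx, hy, e => ⟨hy, hx, ((h.eXT _ _ _ _ _ y hy x hx).1 e.symm).2⟩
  | .inr _, .inr _, hx, hy, e => ⟨hx, hy, ((h.eT _ _ _ _ x hx y hy).1 e).2⟩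

theorem HW1_sub (h : WM D q η) (j : J4) : q.NW D j ⊆ ⋃ c, HW1_Q q j c '' (D.atlW j).W c := by
  have e := subset_iUnion fun c => HW1_Q q j c '' (D.atlW j).W c
  exact union_subset (union_subset (union_subset (e (.inl (true, .V))) (e (.inl (false, .V))))
    (h.OL_eq j ▸ union_subset (e (.inl (true, .L))) (e (.inl (false, .L)))))
    (union_subset ((image_mono fun _ a => a.1).trans (e (.inr true)))
      ((image_mono fun _ a => a.1).trans (e (.inr false))))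

theorem HW1_amb {d : HD} {c : X3} {z : E6} (hz : z ∈ d.WX c) : ContDiffAt ℝ ∞ (d.amb c) z :=
  (contDiff_am0.contDiffAt.comp z (contDiffAt_up4 hz)).congr_of_eventuallyEq
    ((X7_up hz).mono fun _ e => e.2.2)

theorem HW1_xt {d : HD} {c : X3} {z : E6} (hz : z ∈ d.WX c) :
    ContDiffAt ℝ ∞ (fun y => xt (d.amb c y)) z :=
  (HW1_amb hz).snd.fst.sub (contDiffAt_normSq (HW1_amb hz).fst)

/-- The coordinates `(u, t)` on all charts. -/
noncomputable def HW1_ut (d : HD) (c : X3) (z : E6) : E6 :=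
  mkc (d.amb c z).1 0 ⟨xt (d.amb c z), 0⟩

theorem HW1_sm {d : HD} {c : X3} {z : E6} (hz : z ∈ d.WX c) : ContDiffAt ℝ ∞ (HW1_ut d c) z :=
  contDiffAt_mkc (HW1_amb hz).fst contDiffAt_const (contDiffAt_cmk (HW1_xt hz) contDiffAt_const)

theorem HW1_one {t : ℝ} (h : t ≤ -1) : stp t = 1 :=
  Real.smoothTransition.one_of_one_le (by linarith only [h])

theorem HW1_hi {w : E6} (h : -1 / 2 < w (2, 0)) : Z0 =ᶠ[𝓝 w] fun _ => 0 :=
  ((continuous_apply _).continuousAt.eventually (eventually_gt_nhds h)).mono fun z e => by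
    rw [Z0, stp, Real.smoothTransition.zero_of_nonpos (by linarith only [e]), zero_div, zero_smul]

theorem HW1_Z {w : E6} (h : cc 0 w ≠ 0 ∨ -1 / 2 < w (2, 0)) : ContDiffAt ℝ ∞ Z0 w :=
  h.elim (fun h => (((Real.smoothTransition.contDiffAt).comp w (by fun_prop)).div
    (contDiffAt_normSq (contDiff_cc 0).contDiffAt) (by simpa using h)).smul
      (contDiff_rot1 0).contDiffAt) fun h => contDiffAt_const.congr_of_eventuallyEq (HW1_hi h)

theorem HW1_mem {d : HD} {c : X3} {z : E6} (hz : z ∈ d.WX c) :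
    cc 0 (HW1_ut d c z) ≠ 0 ∨ -1 / 2 < HW1_ut d c z (2, 0) :=
  (lt_or_ge (xt (d.amb c z)) 0).imp (xbd_amb hz).ne_zero fun e => lt_of_lt_of_le (by norm_num) e

theorem HW1_zero {d : HD} {c : X3} {z : E6} (hz : z ∈ d.WX c)
    (h : xt (d.amb c z) < -1 ∨ 7 / 8 < xt (d.amb c z)) : pb (HW1_ut d c) (d1 Z0) z = 0 := by
  have e : d1 Z0 (HW1_ut d c z) = 0 := by
    rcases h with h | h
    · refine (d1_congr (((continuous_apply (2, 0)).continuousAt.eventually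
        (eventually_lt_nhds h)).mono fun y e => ?_)).trans
        (d1_dlog (contDiff_cc 0).contDiffAt ((xbd_amb hz).ne_zero (by linarith)))
      rw [Z0, HW1_one (le_of_lt e), one_div, ang_cc]
    · exact (d1_congr (HW1_hi (lt_trans (by norm_num) h))).trans (d1_const 0)
  rw [pb, e]
  rfl

/-- The second class on the charts. -/
noncomputable def HW1_ze (D : GD) : Bool × X3 ⊕ Bool → Fm E6 2
  | .inl (true, c) => pb (HW1_ut (D.H true) c) (d1 Z0)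
  | _ => 0

theorem HW1_van (h : D.Ok) {x y : E6} : ∀ {c c'}, (D.atlW j).R c x c' y →
    (∀ e e', c = .inl (true, e) → c' ≠ .inl (true, e')) → HW1_ze D c x = 0
  | .inl (true, _), .inl (true, _), _, e => absurd rfl (e _ _ rfl)
  | .inl (true, _), .inl (false, _), r, _ => HW1_zero r.1 ((r.2.2.resolve_left (by simp)).2.imp
      (fun e => e.1.trans (by linarith only [h, (h.ok true).hμ])) fun e => e.1)
  | .inl (true, _), .inr _, r, _ => HW1_zero r.1 (Or.inr r.2.2.1)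
  | .inl (false, _), _, _, _ => rfl
  | .inr _, _, _, _ => rfl

theorem WM.exists_ze (h : WM D q η) (j : J4) : ∃ ζ : Fo M 2, ClO ζ (q.NW D j) ∧
    (∀ b, ∀ z ∈ (D.H b).WX .F, z ∈ (D.H b).Yo → pl (q.X j b .F) ζ z = zeY b z) ∧
    (∀ b, ∀ z ∈ (D.H b).WX .V, pl (q.X j b .V) ζ z = zeY b z) ∧
    ∀ z ∈ D.WL, pl (q.LL D j) ζ z = d1 (fun y => (-stp ((D.H true).tt y)) • dc (2, 1)) z := by
  obtain ⟨ζ, h1, h2⟩ := G2_desc (HW1_par h j) (HW1_ze D) (fun c => by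
      have c0 : ∀ U : Set E6, Cl (0 : Fm E6 2) U := fun U =>
        ⟨contDiffOn_const, fun x _ => extDeriv_const 0 x⟩
      obtain ⟨_ | _, c⟩ | i := c
      · exact c0 _
      · have o : IsOpen {w : E6 | cc 0 w ≠ 0 ∨ -1 / 2 < w (2, 0)} :=
          (isOpen_ne_fun (continuous_cc 0) continuous_const).union
            (isOpen_lt continuous_const (continuous_apply _))
        exact (d1_cl o fun _ => HW1_Z).pb (isOpen_WX _ c) o
          (fun _ e => (HW1_sm e).contDiffWithinAt) fun _ => HW1_mem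
      · exact c0 _) fun c c' f x hx hy hf => by
    have hr := (((HW1_par h j c).opn.eventually_mem hx).and (hf.2.and (hf.1.continuousAt.eventually
      ((HW1_par h j c').opn.eventually_mem hy)))).mono fun z e => HW1_rel h e.1 e.2.2 e.2.1.symm
    by_cases e : ∃ e e', c = .inl (true, e) ∧ c' = .inl (true, e')
    · obtain ⟨c, c', rfl, rfl⟩ := e
      refine (pb_comp _ (hf.1.differentiableAt (by simp))
        ((HW1_sm hy).differentiableAt (by simp))).symm.trans (pb_congr _ (hr.mono fun z e => ?_))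
      exact congrArg (fun a : XA => mkc a.1 0 ⟨xt a, 0⟩) (e.2.2.resolve_right (by simp)).2.symm
    · rw [pb, HW1_van h.ok hr.self_of_nhds fun _ _ a b => e ⟨_, _, a, b⟩,
        HW1_van h.ok (RW_symm h.ok hr.self_of_nhds) fun _ _ a b => e ⟨_, _, b, a⟩]
      rfl
  refine ⟨ζ, h1.mono (HW1_sub h j), fun b z hz _ => (h2 (.inl (b, .F)) z hz).trans ?_,
    fun b z hz => (h2 (.inl (b, .V)) z hz).trans ?_, fun z hz => ?_⟩
  · cases b <;> rfl
  · cases b <;> rfl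
  rcases h.ok.WL_cases j hz with hz | hz
  · have ho := (isOpen_WX _ _).eventually_mem hz
    refine (pl_congr (ho.mono fun y e => (h.LL_A j e).2) ζ).trans ((h2 (.inl (true, .L)) z hz).trans
      ((pb_d1 (HW1_sm hz) (HW1_Z (HW1_mem hz))).trans (d1_congr (ho.mono fun y e => ?_))))
    have e1 := pb1_rot1 0 ((HW1_sm e).differentiableAt (by simp))
    have e2 := X2_pol (θ := fun z => -z (2, 1)) X2_tt (X2_pL e) (by fun_prop)
    have e3 : HW1_ut (D.H true) .L y (2, 0) = (D.H true).tt y := xt_L e.2.1.le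
    have e4 : normSq (cc 0 (HW1_ut (D.H true) .L y)) = _ := X1b_ns (X2_pL e).le _
    refine (ContinuousLinearMap.smul_comp _ _ _).trans ?_
    rw [e3, e4, show (rot1 0 _).comp _ = _ from e1.trans e2, fderiv_fun_neg, X2_dco, smul_smul,
      div_mul_cancel₀ _ (X2_pL e).ne', smul_neg, ← neg_smul]
  · have hg : ContDiffAt ℝ ∞ (D.gL j) z := contDiffAt_mkc (contDiff_cc 0).contDiffAt
      (contDiff_cc 1).contDiffAt (contDiffAt_cmk (by fun_prop) (by fun_prop))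
    have ho := hg.continuousAt.eventually ((isOpen_WX _ _).eventually_mem hz)
    have e1 : pl (q.X j false .L) ζ (D.gL j z) = 0 := h2 (.inl (false, .L)) _ hz
    rw [pl_congr (ho.mono fun y e => (congrArg _ (D.gL_gL j y)).symm.trans (h.LL_B j e).2) ζ,
      pl_comp ((h.pX j false .L).sm _ hz) hg, pb, e1]
    refine ((d1_congr (ho.mono fun y e => ?_)).trans (d1_const ((-1 : ℝ) • dc (2, 1)))).symm
    have e2 : _ < -(D.H true).M - (D.H false).M - y (2, 0) := e.2.2.2.2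
    have e3 : (D.H true).M = (D.H true).μ₁ + 1 := rfl
    have e4 : (D.H true).tt y = y (2, 0) - (D.H true).μ₁ := rfl
    exact congrArg (fun t => (-t) • dc (2, 1)) (HW1_one (by linarith only [e2, e3, e4, h, (h.ok.ok true).hμ]))

theorem WM.exists_dm (h : WM D q η) (j : J4) : ∃ u : Fo M 1, ClO u (q.NW D j) ∧
    ∀ b, ∀ z ∈ (D.H b).WX .F, z ∈ (D.H b).Yo → pl (q.X j b .F) u z = dmY b z := by
  have hs : ContDiff ℝ ∞ stm := Real.smoothTransition.contDiff.comp (by fun_prop)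
  have s0 : ∀ {d : HD} {t : ℝ}, d.Ok → t < -2 * d.μ₁ - 7 / 8 → stm (t - 1) = 0 ∧ stm (1 - t) = 1 :=
    fun hd e => ⟨Real.smoothTransition.zero_of_nonpos (by linarith only [e, hd, hd.hμ]),
      Real.smoothTransition.one_of_one_le (by linarith only [e, hd, hd.hμ])⟩
  have sT : ∀ {b c i x y}, (D.atlW j).R (.inl (b, c)) x (.inr i) y →
      cond b (xt ((D.H b).amb c x) - 1) (1 - xt ((D.H b).amb c x)) = y (2, 0) := fun {b} _ _ _ _ r => by
    have e := (XT_rad h.ok r).2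
    cases b
    · exact (neg_sub _ _).symm.trans (neg_eq_iff_eq_neg.2 e)
    · exact e
  obtain ⟨u, h1, h2⟩ := dlog (HW1_par h j) (l := Sum.elim (fun p z => stm (cond p.1
      (xt ((D.H p.1).amb p.2 z) - 1) (1 - xt ((D.H p.1).amb p.2 z)))) fun _ z => stm (z (2, 0)))
    (fun c z hz => by
      refine ContDiffAt.contDiffWithinAt ?_
      obtain ⟨_ | _, c⟩ | i := c
      · exact hs.contDiffAt.comp z (contDiffAt_const.sub (HW1_xt hz))
      · exact hs.contDiffAt.comp z ((HW1_xt hz).sub contDiffAt_const)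
      · exact hs.contDiffAt.comp z (X2_co _).contDiffAt) fun c c' x hx y hy e => by
    have r := HW1_rel h hx hy e
    clear e
    have z0 : ∀ {s t : ℝ}, s = t → ∃ n : ℤ, stm t - stm s = n := fun e => ⟨0, by simp [e]⟩
    obtain ⟨b, c⟩ | i := c <;> obtain ⟨b', c'⟩ | i' := c'
    · rcases r.2.2 with ⟨rfl, e⟩ | ⟨n, ⟨e, e'⟩ | ⟨e, e', e''⟩⟩
      · exact z0 (congrArg (fun a => cond b (xt a - 1) (1 - xt a)) e)
      · obtain rfl := Bool.eq_not_of_ne n.symm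
        have a1 := s0 (h.ok.ok _) e
        have a2 := s0 (h.ok.ok _) (e' ▸ (XBd.low h.ok (xbd_amb hx) e (D.thL j)).2.2.2.2)
        cases b
        · exact ⟨-1, (congrArg₂ (· - ·) a2.1 a1.2).trans (by norm_num)⟩
        · exact ⟨1, (congrArg₂ (· - ·) a2.2 a1.1).trans (by norm_num)⟩
      · obtain rfl := Bool.eq_not_of_ne n.symm
        have a1 := (Upp.cross ((xbd_amb hx).upp (by linarith only [e])) ((xbd_amb hy).upp (by linarith only [e']))
          n e'').1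
        refine z0 ?_
        cases b
        · exact sub_eq_sub_iff_add_eq_add.2 (by linarith only [a1])
        · exact sub_eq_sub_iff_add_eq_add.2 (by linarith only [a1])
    · exact z0 (sT r)
    · exact z0 (sT (RW_TX.1 r)).symm
    · exact z0 ((tmm_ambT i x).symm.trans ((congrArg tmm r.2.2).trans (tmm_ambT i' y)))
  exact ⟨u, h1.mono (HW1_sub h j), fun b z hz _ => h2 (.inl (b, .F)) z hz⟩


end Pool.Agent.Work.MP_bf98aa_gt.B3
end

-- merged part: Pool.Agent.Work.MP_bf98aa_gt.B3.HW2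
section
/-!
The second cohomology of the neighbourhood of a resolved sphere.
PLAN. `HW2_ex`: let `bA, bB, bL` be primitives of `w` on `OV true`, `OV false`, `OL`; let `γ₁ θ = q.X true .V (pVV (z₀ + θ • bv (0,1)))`, `z₀ = mk (-M) 0 0 0 0 0`, and `γ₂ θ = q.LL (pVL (z₁ + θ • bv (0,1)))`,
`z₁ = mk (1/2) 0 0 0 (-M) 0` (a loop in `OV true ∩ OL`, `core_VL` with `s = 0`, `t = -θ`). If `lp γ₁ (bA - bB) = 0` and `lp γ₂ (bA - bL) = 0` then `w` is exact on `OP`: `deck1`, `mv`, giving `b₁` on `OV true ∪ OV false`;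
`b₁ - bA` is closed on `OV true`, so exact (`ex_deck`), `lp_ex`; correct by a multiple of `dφ` on `OL` (`dlog`), `deck1` on `WVL`, `mv`. Then `h2T`, `OP_inter`, `h1T`, `ExO.disj`, `mv` give exactness on `NW`.
For `η` take the primitives with pull-backs `alt1 ∘ lamS` on `V` and `alt1 ∘ lamX .L` on `WL` (`Deck.desc_per`, `pl_LL`): the second integral is `-1/2 - 1/2 = -1` (`lp_chart`). For `ζ` take `pb utF (alt1 ∘ Z0)`, `0`,
`-stp • dφ`: the second integral is `0`, the first is `1`. Choose `t` from the second integral, then `t'` from the first (`lp_sub`, `lp_smul`, `G2a_sub`, `G2a_smul`).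
-/

set_option autoImplicit false

open scoped Manifold ContDiff Topology Matrix ComplexConjugate
open Set Complex Filter

namespace Pool.Agent.Work.MP_bf98aa_gt.B3

open Pool.Agent.Work.MP_bf98aa_gt.Th Pool.Agent.Work.MP_bf98aa_gt.Cy

variable {M : Type} [TopologicalSpace M] [ChartedSpace E6 M] [IsManifold 𝓘(ℝ, E6) ∞ M]
  [T2Space M] [CompactSpace M] {D : GD} {q : Ch M} {η : Fo M 2} {j : J4} {b i : Bool} {k : ℕ}

/-- A curve with vanishing middle coordinate. -/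
noncomputable def HW2_c (r a : ℝ) (g : ℝ → ℂ) (t : ℝ) : E6 := mkc (r * ee (a * t)) 0 (g t)

theorem HW2_ee (r a t : ℝ) :
    HasDerivAt (fun t => r * ee (a * t)) (2 * Real.pi * I * a * (r * ee (a * t))) t :=
  (((hasDerivAt_ee _).scomp t ((hasDerivAt_id' t).const_mul a)).const_mul (r : ℂ)).congr_deriv
    (by simp; ring)

theorem HW2_rot {i : Fin 3} {z v : E6} {r a s : ℝ} (hz : cc i z = r * ee s)
    (hv : cc i v = 2 * Real.pi * I * a * (r * ee s)) : rot1 i z v = a * r ^ 2 := by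
  have h : (ee s).re * (ee s).re + (ee s).im * (ee s).im = 1 := normSq_ee s
  rw [rot1_apply, ← cc_re i z, ← cc_re i v, ← cc_im i z, ← cc_im i v, hz, hv,
    div_eq_iff (by positivity)]
  simp
  linear_combination (2 * Real.pi * a * r ^ 2) * h

theorem HW2_prim {ψ : E6 → M} {U : Set E6} {S : Finset Cx} {z₀ : E6} (hD : Deck ψ U (TZ S))
    (hU : Dom S U z₀) {l : F1} (hl : ∀ z, ContDiffAt ℝ ∞ l z)
    (hp : ∀ i ∈ S, ∀ z, l (z + bv i) = l z) {w : Fo M 2} (hw : ∀ z ∈ U, pl ψ w z = d1 l z) :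
    ∃ b : Fo M 1, IsDO b w (ψ '' U) ∧ ∀ (r a : ℝ) (g g' : ℝ → ℂ) (c : ℝ), ContDiff ℝ ∞ g →
      (∀ t, HasDerivAt g (g' t) t) → (∀ t, HW2_c r a g t ∈ U) → (∀ t v, cc 2 v = g' t →
        rot1 0 (HW2_c r a g t) v = a * r ^ 2 → rot1 1 (HW2_c r a g t) v = 0 →
          l (HW2_c r a g t) v = c) → lp (fun t => ψ (HW2_c r a g t)) b = c := by
  obtain ⟨b, hb⟩ := Deck.desc_per hD hU.inv (β := fun z => alt1 (l z)) fun i hi z _ => by
    rw [hp i hi]
  refine ⟨b, .of_par hD.par ⟨ContDiffOn.congr (fun z _ => (G1_alt (hl z)).contDiffWithinAt) hb,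
    fun z hz => (EventuallyEq.extDeriv_eq ((hU.opn.eventually_mem hz).mono hb)).trans
      (hw z hz).symm⟩, fun r a g g' c h1 h2 h3 h4 => ?_⟩
  have h5 : ∀ t, HasDerivAt (HW2_c r a g) (mkc (2 * Real.pi * I * a * (r * ee (a * t))) 0 (g' t))
      t := fun t => hasDerivAt_pi.2 fun ⟨i, j⟩ => by
    fin_cases i <;> fin_cases j
    exacts [reCLM.hasFDerivAt.comp_hasDerivAt t (HW2_ee r a t),
      imCLM.hasFDerivAt.comp_hasDerivAt t (HW2_ee r a t), hasDerivAt_const t 0,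
      hasDerivAt_const t 0, reCLM.hasFDerivAt.comp_hasDerivAt t (h2 t),
      imCLM.hasFDerivAt.comp_hasDerivAt t (h2 t)]
  rw [lp_chart hD.par (γ := HW2_c r a g) (contDiff_iff_contDiffAt.2 fun t => contDiffAt_mkc
    (by fun_prop) contDiffAt_const h1.contDiffAt) h3, intervalIntegral.integral_congr (g := fun _ => c)
      fun t _ => (DFunLike.congr_fun (hb _ (h3 t)) _).trans ((alt1_apply _ _).trans ?_)]
  · simp
  · rw [(h5 t).deriv]
    exact h4 t _ rfl (HW2_rot rfl rfl) (by simp [rot1_apply, HW2_c])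

theorem HW2_lin {O : Set M} {x y z : Fo M 1} {w w' w'' : Fo M 2} (hx : IsDO x w O)
    (hy : IsDO y w' O) (hz : IsDO z w'' O) (t t' : ℝ) :
    IsDO (x - t • y - t' • z) (w - (t • w' + t' • w'')) O ∧ ∀ c : ℝ → M, IsOpen O →
      (∀ s, SmAt c s) → (∀ s, c s ∈ O) →
        lp c (x - t • y - t' • z) = lp c x - t * lp c y - t' * lp c z := by
  have h1 := G2a_sub hx (G2a_smul hy t)
  refine ⟨sub_sub w _ _ ▸ G2a_sub h1 (G2a_smul hz t'), fun c hO hc hm => ?_⟩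
  rw [lp_sub h1.sm (G2a_smul hz t').sm hO hc hm, lp_sub hx.sm (G2a_smul hy t).sm hO hc hm,
    lp_smul, lp_smul]

theorem HW2_Z (z : E6) : ContDiffAt ℝ ∞ utF z ∧ ContDiffAt ℝ ∞ Z0 (utF z) := by
  refine ⟨contDiffAt_mkc (contDiff_cc 0).contDiffAt contDiffAt_const (contDiffAt_cmk
    ((contDiffAt_normSq (contDiff_cc 2).contDiffAt).sub (contDiffAt_normSq
      (contDiff_cc 0).contDiffAt)) contDiffAt_const), ?_⟩
  by_cases h : cc 0 z = 0
  · refine (contDiffAt_const (c := 0)).congr_of_eventuallyEq ?_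
    filter_upwards [continuousAt_const.eventually_lt (continuous_apply ((2, 0) : Cx)).continuousAt
      (show -1 / 2 < utF z (2, 0) by
        change _ < normSq _ - normSq _
        rw [h, map_zero]
        linarith only [normSq_nonneg (cc 2 z)])] with y hy
    rw [Z0, stp, Real.smoothTransition.zero_of_nonpos (by linarith only [hy]), zero_div, zero_smul]
  · exact ((Real.smoothTransition.contDiff.contDiffAt.comp (utF z)
      (show ContDiffAt ℝ ∞ (fun y : E6 => -2 * y (2, 0) - 1) _ by fun_prop)).div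
      (contDiffAt_normSq (contDiff_cc 0).contDiffAt) (mt normSq_eq_zero.1 h)).smul
      (contDiff_rot1 0).contDiffAt

theorem HW2_pZ (z v : E6) :
    pb1 utF Z0 z v = stp (tF z) / normSq (cc 0 z) * rot1 0 z v := by
  rw [← ang_cc, ← show pb1 utF (rot1 0) z = ang (cc 0) z from
    pb1_rot1 0 ((HW2_Z z).1.differentiableAt (by simp))]
  rfl

/-- A loop in the overlap of the two charts `V`. -/
noncomputable def HW2_g (D : GD) (q : Ch M) (j : J4) (t : ℝ) : M :=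
  q.X j true .V (D.pVV (Cy.mk (-(D.H true).M) 0 0 0 0 0 + t • bv (0, 1)))

/-- Loops in the overlap of `V` and `L`. -/
noncomputable def HW2_l (D : GD) (q : Ch M) (j : J4) (i : Cx) (t : ℝ) : M :=
  q.LL D j (pVL (Cy.mk (1 / 2) 0 0 0 (-(D.H true).M) 0 + t • bv i))

theorem HW2_loop {ψ : E6 → M} {U : Set E6} {S : Finset Cx} {z₀ : E6} (hD : Deck ψ U (TZ S))
    (hU : Dom S U z₀) {i : Cx} (hi : i ∈ S) : (∀ t, SmAt (fun t : ℝ => ψ (z₀ + t • bv i)) t) ∧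
      ∀ t : ℝ, ψ (z₀ + t • bv i) ∈ ψ '' U :=
  ⟨fun t => SmAt.comp (hD.par.sm _ (hU.inv i hi _ hU.mem t)) (by fun_prop),
    fun t => mem_image_of_mem _ (hU.inv i hi _ hU.mem t)⟩

theorem HW2_e1 (D : GD) (t : ℝ) : D.pVV (Cy.mk (-(D.H true).M) 0 0 0 0 0 + t • bv (0, 1)) =
    HW2_c √((D.H true).μ₁ + (D.H true).M) 1 (fun _ => 0) t := by
  refine extc ?_ ?_ ?_ <;> simp [GD.pVV, HW2_c, normSq_cc, bv, Complex.ext_iff, cc_re, cc_im]

theorem HW2_e2 (m t : ℝ) : pVL (Cy.mk (1 / 2) 0 0 0 m 0 + t • bv (0, 1)) =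
    HW2_c √(1 / 2) 1 (fun _ => ⟨m, 0⟩) t := by
  have e : (1 : ℝ) - 2⁻¹ = 2⁻¹ := by norm_num
  refine extc ?_ ?_ ?_ <;> simp [pVL, HW2_c, normSq_cc, bv, Complex.ext_iff, cc_re, cc_im, e]

theorem HW2_e3 (m t : ℝ) : pVL (Cy.mk (1 / 2) 0 0 0 m 0 + t • bv (2, 1)) =
    HW2_c √(1 / 2) 0 (fun t => ⟨m, t⟩) t := by
  have e : (1 : ℝ) - 2⁻¹ = 2⁻¹ := by norm_num
  refine extc ?_ ?_ ?_ <;> simp [pVL, HW2_c, normSq_cc, bv, Complex.ext_iff, cc_re, cc_im, e]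

theorem WM.HW2_e4 (h : WM D q η) (j : J4) : ∃ r : ℝ, ∀ t,
    HW2_c r 0 (fun t => √(1 / 2 : ℝ) * ee (-1 * t)) t ∈ (D.H true).WX .V ∧ HW2_l D q j (0, 1) t =
      q.X j true .V (HW2_c r 0 (fun t => √(1 / 2 : ℝ) * ee (-1 * t)) t) := by
  have hμ := (h.ok.ok true).hμ
  have h0 : 0 < (D.H true).μ₁ + 1 / 2 + (D.H true).M := by rw [HD.M]; linarith only [hμ]
  have h1 : √(1 / 2 : ℝ) ^ 2 = 1 / 2 := Real.sq_sqrt (by norm_num)
  refine ⟨√((D.H true).μ₁ + 1 / 2 + (D.H true).M), fun t => ?_⟩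
  obtain ⟨a, b, c⟩ := h.core_VL j true (Real.sqrt_pos.2 h0) (r' := √(1 / 2)) (by positivity)
    (by rw [h1]; norm_num) (by rw [h1, Real.sq_sqrt h0.le]; linarith only []) (0 * t) (-1 * t)
  refine ⟨a, Eq.trans ?_ ((h.LL_A j b).2.trans c.symm)⟩
  rw [HW2_l, HW2_e2, h1, Real.sq_sqrt h0.le]
  norm_num [HW2_c]

theorem WM.HW2_V (h : WM D q η) (j : J4) {l : F1} (hl : ∀ z, ContDiffAt ℝ ∞ l z) {w : Fo M 2}
    (hw : ∀ z ∈ (D.H true).WX .V, pl (q.X j true .V) w z = d1 l z) :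
    ∃ b : Fo M 1, IsDO b w (q.OV D j true) ∧ (∀ c, (∀ z v, 1 ≤ normSq (cc 0 z) → cc 2 z = 0 →
      rot1 0 z v = normSq (cc 0 z) → l z v = c) → lp (HW2_g D q j) b = c) ∧
      ∀ c, (∀ z v, rot1 0 z v = 0 → rot1 1 z v = 0 → rot1 2 z v = -1 / 2 → l z v = c) →
        lp (HW2_l D q j (0, 1)) b = c := by
  obtain ⟨b, h1, h2⟩ := HW2_prim (h.deckV j true) (h.ok.ok true).domV hl (by simp) hw
  refine ⟨b, h1, fun c hc => ?_, fun c hc => ?_⟩
  · have h0 : 1 ≤ (D.H true).μ₁ + (D.H true).M := by rw [HD.M]; linarith only [h, (h.ok.ok true).hμ]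
    have h3 : ∀ t, normSq (cc 0 (HW2_c √((D.H true).μ₁ + (D.H true).M) 1 (fun _ => 0) t)) =
        √((D.H true).μ₁ + (D.H true).M) ^ 2 := fun t => by
      rw [HW2_c, cc_mkc0, map_mul, normSq_ee, mul_one, normSq_ofReal, sq]
    refine (congrArg (lp · b) (funext fun t => congrArg _ (HW2_e1 D t))).trans
      (h2 _ _ _ _ c contDiff_const (fun t => hasDerivAt_const t 0) (fun t => HW2_e1 D t ▸
        (h.ok.pVV_mem (D.domVV.inv _ (by simp) _ D.domVV.mem t)).1) fun t v _ a _ =>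
          hc _ _ ?_ rfl (by rw [a, h3, one_mul]))
    rwa [h3, Real.sq_sqrt (by linarith)]
  · obtain ⟨r, hr⟩ := h.HW2_e4 j
    refine (congrArg (lp · b) (funext fun t => (hr t).2)).trans (h2 _ _ _ _ c
      (contDiff_iff_contDiffAt.2 fun t => by fun_prop) (HW2_ee _ _) (fun t => (hr t).1)
        fun t v e a a' => hc _ _ (by rw [a, zero_mul]) a' ((HW2_rot rfl e).trans ?_))
    rw [Real.sq_sqrt (by norm_num)]
    norm_num

theorem WM.HW2_L (h : WM D q η) (j : J4) {l : F1} (hl : ∀ z, ContDiffAt ℝ ∞ l z)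
    (hp : ∀ z, l (z + bv (2, 1)) = l z) {w : Fo M 2}
    (hw : ∀ z ∈ D.WL, pl (q.LL D j) w z = d1 l z) :
    ∃ b : Fo M 1, IsDO b w (q.OL D j) ∧ (∀ c, (∀ z v, v (2, 1) = 0 → rot1 0 z v = 1 / 2 →
      rot1 1 z v = 0 → l z v = c) → lp (HW2_l D q j (0, 1)) b = c) ∧
      ∀ c, (∀ z v, v (2, 1) = 1 → l z v = c) → lp (HW2_l D q j (2, 1)) b = c := by
  obtain ⟨b, h1, h2⟩ := HW2_prim (h.deckL j) h.ok.domL hl (by simpa using hp) hw
  have h3 := fun i hi t => (GD.pVL_mem (h.ok.domVL.inv i hi _ h.ok.domVL.mem t)).1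
  refine ⟨b, h1, fun c hc => ?_, fun c hc => ?_⟩
  · exact (congrArg (lp · b) (funext fun t => congrArg _ (HW2_e2 _ t))).trans
      (h2 _ _ _ _ c contDiff_const (fun t => hasDerivAt_const t _)
        (fun t => HW2_e2 _ t ▸ h3 _ (by simp) t) fun t v e a a' => hc _ _ (congrArg im e)
          (by rw [a, Real.sq_sqrt (by norm_num), one_mul]) a')
  · refine (congrArg (lp · b) (funext fun t => congrArg _ (HW2_e3 _ t))).trans
      (h2 _ _ _ (fun _ => I) c (contDiff_iff_contDiffAt.2 fun t => contDiffAt_cmk contDiffAt_const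
        contDiffAt_id) (fun t => ?_) (fun t => HW2_e3 _ t ▸ h3 _ (by simp) t)
          fun t v e _ _ => hc _ _ (congrArg im e))
    simpa only [Complex.mk_eq_add_mul_I, ofReal_one, one_mul] using
      ((hasDerivAt_id' t).ofReal_comp.mul_const I).const_add _

theorem WM.HW2_lo (h : WM D q η) (j : J4) : ((∀ t, SmAt (HW2_g D q j) t) ∧
    ∀ t, HW2_g D q j t ∈ q.OV D j true ∩ q.OV D j false) ∧
    (∀ i ∈ ({(0, 1), (2, 1)} : Finset Cx), (∀ t, SmAt (HW2_l D q j i) t) ∧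
      ∀ t, HW2_l D q j i t ∈ (q.OV D j true ∪ q.OV D j false) ∩ q.OL D j) ∧
    (∀ t, HW2_l D q j (0, 1) t ∈ q.OV D j true) ∧ HW2_l D q j (0, 1) 1 = HW2_l D q j (0, 1) 0 := by
  obtain ⟨r, hr⟩ := h.HW2_e4 j
  refine ⟨(h.deckVV j).2 ▸ HW2_loop (h.deckVV j).1 D.domVV (by simp), fun i hi =>
    (h.deckVL j).2 ▸ HW2_loop (h.deckVL j).1 h.ok.domVL hi,
    fun t => ⟨_, (hr t).1, (hr t).2.symm⟩, ?_⟩
  have e : ee 1 = 1 := by simpa using ee_int 1
  simp only [HW2_l, HW2_e2, HW2_c, mul_one, mul_zero, e, ee_zero]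

theorem WM.HW2_ex (h : WM D q η) (j : J4) {w : Fo M 2} (hw : ClO w (q.NW D j)) {x y z : Fo M 1}
    (hx : IsDO x w (q.OV D j true)) (hy : IsDO y w (q.OV D j false)) (hz : IsDO z w (q.OL D j))
    (h1 : lp (HW2_g D q j) x = lp (HW2_g D q j) y)
    (h2 : lp (HW2_l D q j (0, 1)) x = lp (HW2_l D q j (0, 1)) z) : ExO w (q.NW D j) := by
  obtain ⟨⟨g1, g2⟩, l1, l2, l3⟩ := h.HW2_lo j
  have oA := h.isOpen_OV j true
  have oB := h.isOpen_OV j false
  have oL := h.isOpen_OL j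
  have hx' := hx.mono (inter_subset_left (t := q.OV D j false))
  have hy' := hy.mono (inter_subset_right (s := q.OV D j true))
  obtain ⟨b, hb⟩ := mv oA oB hx hy ClO.zero ClO.zero (by
    rw [sub_zero, add_zero, ← (h.deckVV j).2]
    refine deck1 (h.deckVV j).1 D.domVV ((h.deckVV j).2 ▸ hx'.sub_cl hy') fun i hi =>
      ⟨_, D.domVV.mem, ?_⟩
    rw [Finset.mem_singleton.1 hi]
    exact (lp_sub hx'.sm hy'.sm (oA.inter oB) g1 g2).trans (sub_eq_zero.2 h1))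
  have hbA := hb.mono (subset_union_left (t := q.OV D j false))
  have h3 := lp_ex (ex_deck (h.deckV j true) (h.ok.ok true).domV (hbA.sub_cl hx) (by simp)) oA
    (l1 _ (by simp)).1 l2 l3
  rw [lp_sub hbA.sm hx.sm oA (l1 _ (by simp)).1 l2, h2] at h3
  obtain ⟨a, ha, a1, a2⟩ := h.HW2_L j (l := fun _ => dc (2, 1)) (fun _ => contDiffAt_const)
    (fun _ => rfl) (w := 0) fun z _ => by rw [pl_zero, d1_const, Pi.zero_apply]
  have hb' := hb.mono (inter_subset_left (t := q.OL D j))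
  have hz' := hz.mono (inter_subset_right (s := q.OV D j true ∪ q.OV D j false))
  have ha' := ha.mono (inter_subset_right (s := q.OV D j true ∪ q.OV D j false))
  obtain ⟨s, hs⟩ : ∃ s, s = lp (HW2_l D q j (2, 1)) b - lp (HW2_l D q j (2, 1)) z := ⟨_, rfl⟩
  obtain ⟨p, hp⟩ : ExO w (q.OP D j) := mv (oA.union oB) oL hb hz ClO.zero ((G2a_cl.2 ha).smul (-s))
    (by
      rw [← (h.deckVL j).2, show b - z - 0 + -s • a = b - (1 : ℝ) • z - s • a by module]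
      refine deck1 (h.deckVL j).1 h.ok.domVL ((h.deckVL j).2 ▸ ?_) fun i hi =>
        ⟨_, h.ok.domVL.mem, ((HW2_lin hb' hz' ha' _ _).2 _ ((oA.union oB).inter oL) (l1 i hi).1
          (l1 i hi).2).trans ?_⟩
      · exact ((one_smul ℝ z).symm ▸ hb'.sub_cl hz').sub ((G2a_cl.2 ha').smul _)
      rcases Finset.mem_insert.1 hi with rfl | hi
      · rw [a1 0 fun _ _ e _ _ => e]
        linarith only [h3]
      · rw [Finset.mem_singleton.1 hi, a2 1 (fun _ _ e => e), hs]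
        ring)
  have oT := fun a b => (h.isOpen_OT j a b true).union (h.isOpen_OT j a b false)
  obtain ⟨u, hu⟩ := h.h2T j le_rfl (by norm_num) le_rfl (hw.mono subset_union_right)
  refine mv (h.isOpen_OP j) (oT _ _) hp hu ClO.zero ClO.zero ?_
  have hc := (hp.mono inter_subset_left).sub_cl (hu.mono inter_subset_right)
  rw [sub_zero, add_zero]
  rw [h.OP_inter j] at hc ⊢
  exact ExO.disj (oT _ _) (oT _ _)
    (h.h1T j le_rfl (by norm_num) (by norm_num) (hc.mono subset_union_left))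
    (h.h1T j (by norm_num) (by norm_num) le_rfl (hc.mono subset_union_right)) (h.OT_disj j)

theorem WM.h2W (h : WM D q η) (j : J4) : ∃ ζ : Fo M 2, ClO ζ (q.NW D j) ∧
    (∀ b, ∀ z ∈ (D.H b).WX .F, z ∈ (D.H b).Yo → pl (q.X j b .F) ζ z = zeY b z) ∧
    ∀ w : Fo M 2, ClO w (q.NW D j) → ∃ t t' : ℝ, ExO (w - (t • η + t' • ζ)) (q.NW D j) := by
  obtain ⟨ζ, hζ, hF, hV, hL⟩ := h.exists_ze j
  refine ⟨ζ, hζ, hF, fun w hw => ?_⟩
  obtain ⟨⟨g1, g2⟩, l1, l2, -⟩ := h.HW2_lo j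
  have exV : ∀ b {w : Fo M 2}, ClO w (q.NW D j) → ExO w (q.OV D j b) := fun b w hw =>
    ex_deck (h.deckV j b) (h.ok.ok b).domV (hw.mono fun m hm => .inl (.inl (by
      cases b
      exacts [.inr hm, .inl hm]))) (by simp)
  obtain ⟨x, hx⟩ := exV true hw
  obtain ⟨y, hy⟩ := exV false hw
  obtain ⟨y', hy'⟩ := exV false (h.cl.mono (subset_univ _))
  obtain ⟨z, hz⟩ := ex_deck (h.deckL j) h.ok.domL (hw.mono fun m hm => .inl (.inr hm)) (by simp)
  obtain ⟨x', hx', -, e1⟩ := h.HW2_V j (fun _ => (contDiff_lamX .V).contDiffAt) (h.oX j true .V)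
  obtain ⟨z', hz', e2, -⟩ := h.HW2_L j (fun _ => (contDiff_lamX .L).contDiffAt)
    (fun z => by simp [lamX, rot1, bv]) fun z => h.pl_LL j
  obtain ⟨x'', hx'', e3, e4⟩ := h.HW2_V j (fun z => contDiffAt_pb1 (HW2_Z z).1 (HW2_Z z).2)
    fun z hz => (hV true z hz).trans (pb_d1 (HW2_Z z).1 (HW2_Z z).2)
  obtain ⟨z'', hz'', e5, -⟩ := h.HW2_L j (fun z => ((Real.smoothTransition.contDiff.contDiffAt.comp z
    (show ContDiffAt ℝ ∞ (fun y : E6 => -2 * (y (2, 0) - (D.H true).μ₁) - 1) _ by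
      fun_prop)).neg).smul contDiffAt_const) (fun z => by simp [bv]) hL
  have hy'' : IsDO 0 ζ (q.OV D j false) := (G2a_cl.1 ClO.zero).congr (fun _ _ => rfl)
    fun _ ⟨z, hz, e⟩ => e ▸ fo_ext (h.pX j false .V) hz ((hV false z hz).trans (by rw [pl_zero]; rfl))
  replace e1 := e1 (-1 / 2) fun z v a b c => by simp [lamX, lamS, a, b, c]
  replace e2 := e2 (1 / 2) fun z v a b c => by simp [lamX, dc_apply, a, b, c]
  replace e3 := e3 1 fun z v a b c => by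
    rw [HW2_pZ, c, stp, Real.smoothTransition.one_of_one_le (by rw [tF, b, map_zero]; linarith only [a]),
      div_mul_cancel₀ _ (by linarith only [a])]
  replace e4 := e4 0 fun z v a _ _ => by rw [HW2_pZ, a, mul_zero]
  replace e5 := e5 0 fun z v a _ _ => by simp [dc_apply, a]
  have e6 : lp (HW2_g D q j) (0 : Fo M 1) = 0 := by rw [← zero_smul ℝ 0, lp_smul, zero_mul]
  obtain ⟨t, ht⟩ : ∃ t, t = lp (HW2_l D q j (0, 1)) z - lp (HW2_l D q j (0, 1)) x := ⟨_, rfl⟩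
  obtain ⟨t', ht'⟩ : ∃ t', t' = lp (HW2_g D q j) x - lp (HW2_g D q j) y -
    t * (lp (HW2_g D q j) x' - lp (HW2_g D q j) y') := ⟨_, rfl⟩
  have hA := HW2_lin hx hx' hx'' t t'
  have hB := HW2_lin hy hy' hy'' t t'
  have hC := HW2_lin hz hz' hz'' t t'
  refine ⟨t, t', h.HW2_ex j (hw.sub (((h.cl.mono (subset_univ _)).smul t).add (hζ.smul t')))
    hA.1 hB.1 hC.1 ?_ ?_⟩
  · rw [hA.2 _ (h.isOpen_OV j _) g1 fun s => (g2 s).1, hB.2 _ (h.isOpen_OV j _) g1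
      fun s => (g2 s).2, e3, e6, ht']
    ring
  · rw [hA.2 _ (h.isOpen_OV j _) (l1 _ (by simp)).1 l2, hC.2 _ (h.isOpen_OL j) (l1 _ (by simp)).1
      fun s => ((l1 _ (by simp)).2 s).2, e1, e2, e4, e5, ht]
    ring


end Pool.Agent.Work.MP_bf98aa_gt.B3
end

-- merged part: Pool.Agent.Work.MP_bf98aa_gt.B3.HW3
section
/-!
The third cohomology of the neighbourhood of a resolved sphere vanishes.
PLAN. Primitives on `OV b`, `OL`, `OT i` (`ex_deck`), `b₁` on `OV true ∪ OV false` (`mv`, `deckVV`, `ex_deck`). `κ` from `deck2` for `b₁ - bL` on `WVL`, `κ'` for `bT true - bT false` on `WTT (-1/8) (1/8)`.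
The torus `c b (s, t) = q.X b .V (mkc (1/8 * ee s) 0 (√(59/64) * ee t))` lies in all four sets. `tor (c b) (b₁ - bT b) = 0` by `tor_zero` for the family `mkc (r/8 * ee s) 0 (√(29/32 + r²/64) * ee t)` in `OV b ∩ OT b`
(`coreV`), `tor (c b) (bL - bT (!b)) = 0` for the family `mkc (r * √(5/64) * ee (-s - t)) 0 ⟨μ₁ + 29/32, -s⟩` in `L b` (`coreL`, `core_VL`, `OL_eq`; take `N = univ` or the preimage of the chart domain).
So `tor (c b) (b₁ - bL) = tor (c b) (bT b - bT (!b))` (`tor_sub`). In the chart `WVL` the torus is `lin .. z a a'` with `(a, a') = ((-1,-1), (-1,0))` for `b = true`, `((-1,1), (-1,0))` for `b = false` (`LL_A`, `LL_B`);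
in the chart `WTT`: `((-1,0), (-1,1))` and `((-1,1), (-1,0))` (`core_VT_A`, `core_VT_B`). Hence `-κ = -κ'` and `κ = -κ'`, so both vanish; `mv` three times, `OP_inter`, `h2T`, `ExO.disj`.
-/

set_option autoImplicit false

open scoped Manifold ContDiff Topology Matrix ComplexConjugate
open Set Complex Filter

namespace Pool.Agent.Work.MP_bf98aa_gt.B3

open Pool.Agent.Work.MP_bf98aa_gt.Th Pool.Agent.Work.MP_bf98aa_gt.Cy

variable {M : Type} [TopologicalSpace M] [ChartedSpace E6 M] [IsManifold 𝓘(ℝ, E6) ∞ M]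
  [T2Space M] [CompactSpace M] {D : GD} {q : Ch M} {η : Fo M 2} {j : J4} {b i : Bool} {k : ℕ}

theorem HW3_mv {A B : Set M} (hA : IsOpen A) (hB : IsOpen B) {w : Fo M (k + 2)}
    {b₁ b₂ : Fo M (k + 1)} (h₁ : IsDO b₁ w A) (h₂ : IsDO b₂ w B) (h : ExO (b₁ - b₂) (A ∩ B)) :
    ExO w (A ∪ B) :=
  mv hA hB h₁ h₂ ClO.zero ClO.zero (by simpa using h)

/-- A bounded reparametrisation. -/
noncomputable def HW3_s (ρ : ℝ) : ℝ := 2 * ρ / (1 + ρ ^ 2)

theorem HW3_sq (ρ : ℝ) : HW3_s ρ ^ 2 ≤ 1 := by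
  rw [HW3_s, div_pow, div_le_one (by positivity)]
  linarith only [sq_nonneg (1 - ρ ^ 2), sq_nonneg ((1 : ℝ) - ρ ^ (2 : ℕ))]

@[fun_prop] theorem HW3_sm {X : Type} [NormedAddCommGroup X] [NormedSpace ℝ X] {x : X} {a : X → ℝ}
    (ha : ContDiffAt ℝ ∞ a x) : ContDiffAt ℝ ∞ (fun y => HW3_s (a y)) x :=
  (contDiffAt_const.mul ha).div (contDiffAt_const.add (ha.pow 2)) (by positivity)

/-- The torus. -/
noncomputable def HW3_c (q : Ch M) (j : J4) (b : Bool) (p : ℝ × ℝ) : M :=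
  q.X j b .V (mkc ((1 / 8 : ℝ) * ee p.1) 0 ((√(59 / 64) : ℝ) * ee p.2))

omit [T2Space M] [CompactSpace M] in
theorem HW3_L (h : WM D q η) (j : J4) (b : Bool) (s t : ℝ) :
    mkc ((√(5 / 64) : ℝ) * ee (-s - t)) 0 ⟨(D.H b).μ₁ + 29 / 32, -s⟩ ∈ (D.H b).WX .L ∧
    HW3_c q j b (s, t) =
      q.X j b .L (mkc ((√(5 / 64) : ℝ) * ee (-s - t)) 0 ⟨(D.H b).μ₁ + 29 / 32, -s⟩) := by
  have e : √(59 / 64) ^ 2 = (59 / 64 : ℝ) := Real.sq_sqrt (by norm_num)
  have := (h.core_VL j b (r := 1 / 8) (r' := √(59 / 64)) (by norm_num) (by positivity)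
    (by rw [e]; norm_num) (by rw [e, HD.M]; linarith only [h, (h.ok.ok b).hμ]) s t).2
  rwa [e, show (1 - 59 / 64 : ℝ) = 5 / 64 by norm_num,
    show (D.H b).μ₁ + 59 / 64 - (1 / 8) ^ 2 = (D.H b).μ₁ + 29 / 32 by ring] at this

omit [T2Space M] [CompactSpace M] in
theorem HW3_V0 (h : WM D q η) (j : J4) (b : Bool) {w : Fo M 2}
    (hw : ClO w (q.OV D j b ∩ q.OT j (-1 / 8) (1 / 8) b)) :
    (∀ p, SmAt (HW3_c q j b) p ∧ HW3_c q j b p ∈ q.OV D j b ∩ q.OT j (-1 / 8) (1 / 8) b) ∧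
      tor (HW3_c q j b) w = 0 := by
  let g : ℝ × ℝ × ℝ → E6 := fun p => mkc ((HW3_s p.1 / 8 : ℝ) * ee p.2.1) 0
    ((√(29 / 32 + HW3_s p.1 ^ 2 / 64) : ℝ) * ee p.2.2)
  have hm : ∀ p, g p ∈ (D.H b).WX .V ∧ q.X j b .V (g p) ∈ q.OT j (-1 / 8) (1 / 8) b := fun p => by
    have := HW3_sq p.1
    refine h.coreV j b ?_ ?_ <;>
      simp only [map_mul, normSq_ee, normSq_ofReal, mul_one,
        Real.mul_self_sqrt (show 0 ≤ 29 / 32 + HW3_s p.1 ^ 2 / 64 by positivity)] <;> linarith only [this]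
  have hs : ∀ p, SmAt (fun p => q.X j b .V (g p)) p := fun p => by
    refine ((h.pX j b .V).sm _ (hm p).1).comp ?_
    have : ContDiffAt ℝ ∞ (fun p : ℝ × ℝ × ℝ => √(29 / 32 + HW3_s p.1 ^ 2 / 64)) p :=
      ContDiffAt.sqrt (by fun_prop) (by positivity)
    fun_prop
  have e : HW3_c q j b = fun p => q.X j b .V (g (1, p)) := funext fun p => by
    simp only [HW3_c, g, HW3_s]
    norm_num
  rw [e]
  refine ⟨fun p => ⟨(hs (1, p)).comp (f := fun p : ℝ × ℝ => (1, p)) (by fun_prop),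
    ⟨_, (hm _).1, rfl⟩, (hm _).2⟩, tor_zero hw ((h.isOpen_OV j b).inter (h.isOpen_OT j _ _ b))
    isOpen_univ (fun p _ => hs p) (fun r _ p => ⟨trivial, ⟨_, (hm _).1, rfl⟩, (hm _).2⟩)
    (fun r s t => ?_) (fun r s t => ?_) (Or.inl fun s t => ?_)⟩
  · simp only [g, ee_add, show ee 1 = 1 by simpa using ee_int 1, mul_one]
  · simp only [g, ee_add, show ee 1 = 1 by simpa using ee_int 1, mul_one]
  · simp [g, HW3_s]

omit [T2Space M] [CompactSpace M] in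
theorem HW3_L0 (h : WM D q η) (j : J4) (b : Bool) {w : Fo M 2}
    (hw : ClO w (q.OL D j ∩ q.OT j (-1 / 8) (1 / 8) (!b))) :
    (∀ p, HW3_c q j b p ∈ q.OL D j ∩ q.OT j (-1 / 8) (1 / 8) (!b)) ∧
      tor (HW3_c q j b) w = 0 := by
  let g : ℝ × ℝ × ℝ → E6 := fun p => mkc ((HW3_s p.1 * √(5 / 64) : ℝ) * ee (-p.2.1 - p.2.2)) 0
    ⟨(D.H b).μ₁ + 29 / 32, -p.2.1⟩
  have hm : ∀ p, g p ∈ (D.H b).WX .L ∧ q.X j b .L (g p) ∈ q.OT j (-1 / 8) (1 / 8) (!b) :=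
    fun p => by
      have := HW3_sq p.1
      have e : √(5 / 64) ^ 2 = (5 / 64 : ℝ) := Real.sq_sqrt (by norm_num)
      refine h.coreL j b (by norm_num) (by norm_num) ?_ _
      rw [map_mul, normSq_ee, normSq_ofReal, mul_one, ← sq, mul_pow, e]
      linarith only [this]
  have hL : ∀ p, q.X j b .L (g p) ∈ q.OL D j := fun p => by
    rw [h.OL_eq]
    cases b
    exacts [Or.inr ⟨_, (hm p).1, rfl⟩, Or.inl ⟨_, (hm p).1, rfl⟩]
  have hs : ∀ p, SmAt (fun p => q.X j b .L (g p)) p := fun p => by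
    refine ((h.pX j b .L).sm _ (hm p).1).comp ?_
    have : ContDiffAt ℝ ∞ (fun p : ℝ × ℝ × ℝ => (⟨(D.H b).μ₁ + 29 / 32, -p.2.1⟩ : ℂ)) p :=
      contDiffAt_cmk (by fun_prop) (by fun_prop)
    fun_prop
  have e : HW3_c q j b = fun p => q.X j b .L (g (1, p)) := funext fun p => by
    rw [(HW3_L h j b p.1 p.2).2]
    simp only [g, HW3_s]
    norm_num
  have e1 : ∀ t, ee (t + 1) = ee t := fun t => by
    rw [ee_add, show ee 1 = 1 by simpa using ee_int 1, mul_one]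
  rw [e]
  refine ⟨fun p => ⟨hL _, (hm _).2⟩, tor_zero hw ((h.isOpen_OL j).inter (h.isOpen_OT j _ _ _))
    isOpen_univ (fun p _ => hs p) (fun r _ p => ⟨trivial, hL _, (hm _).2⟩)
    (fun r s t => ?_) (fun r s t => ?_) (Or.inr fun s t => ?_)⟩
  · refine (h.eX j b .L j b .L _ (hm _).1 _ (hm _).1).2 ⟨rfl, Or.inl ⟨rfl, ?_⟩⟩
    have a1 : ee (-(s + 1) - t) = ee (-s - t) := by rw [← e1]; congr 1; ring
    have a2 : ee (-(s + 1)) = ee (-s) := by rw [← e1]; congr 1; ring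
    simp only [HD.amb, g, r1, HD.tt, cc_mkc0, cc_mkc1, mkc_20, mkc_21, two_mul, ee_add, neg_neg,
      a1, a2, e1]
  · simp only [g, show -s - (t + 1) + 1 = -s - t by ring, ← e1 (-s - (t + 1))]
  · simp [g, HW3_s]

theorem WM.h3W (h : WM D q η) (j : J4) {w : Fo M 3} (hw : ClO w (q.NW D j)) :
    ExO w (q.NW D j) := by
  have oV := h.isOpen_OV j
  have oT := h.isOpen_OT j
  have oL := h.isOpen_OL j
  have sV : ∀ b, q.OV D j b ⊆ q.OV D j true ∪ q.OV D j false := fun b => by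
    cases b
    exacts [subset_union_right, subset_union_left]
  have sT : ∀ b, q.OT j (-1 / 8) (1 / 8) b ⊆ q.NW D j := fun b => by
    cases b
    exacts [subset_union_right.trans subset_union_right, subset_union_left.trans subset_union_right]
  choose bV hV using fun b => ex_deck (h.deckV j b) (h.ok.ok b).domV
    (hw.mono ((sV b).trans (subset_union_left.trans subset_union_left))) (by simp)
  obtain ⟨bL, hL⟩ := ex_deck (h.deckL j) h.ok.domL
    (hw.mono (subset_union_right.trans subset_union_left)) (by simp)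
  choose bT hT using fun i => ex_deck (h.deckT j i (-1 / 8) (1 / 8))
    (domT (m := 0) (by norm_num) (by norm_num) (by norm_num)) (hw.mono (sT i)) (by simp)
  obtain ⟨b₁, h₁⟩ := HW3_mv (oV true) (oV false) (hV true) (hV false) (by
    rw [← (h.deckVV j).2]
    refine ex_deck (h.deckVV j).1 D.domVV ?_ (by simp)
    rw [(h.deckVV j).2]
    exact ((hV true).mono inter_subset_left).sub_cl ((hV false).mono inter_subset_right))
  obtain ⟨κ, k1, k2⟩ := deck2 (by decide) (h.deckVL j).1 h.ok.domVL (w := b₁ - bL) (by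
    rw [(h.deckVL j).2]
    exact (h₁.mono inter_subset_left).sub_cl (hL.mono inter_subset_right))
  obtain ⟨κ', l1, l2⟩ := deck2 (by decide) (h.deckTT j (-1 / 8) (1 / 8)).1
    (domTT (m := 0) (by norm_num) (by norm_num) (by norm_num)) (w := bT true - bT false) (by
    rw [(h.deckTT j _ _).2]
    exact ((hT true).mono inter_subset_left).sub_cl ((hT false).mono inter_subset_right))
  have key : ∀ b, tor (HW3_c q j b) (b₁ - bL) =
      cond b 1 (-1) * tor (HW3_c q j b) (bT true - bT false) := fun b => by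
    obtain ⟨m1, t1⟩ := HW3_V0 h j b ((h₁.mono (inter_subset_left.trans (sV b))).sub_cl
      ((hT b).mono inter_subset_right))
    obtain ⟨m2, t2⟩ := HW3_L0 h j b ((hL.mono inter_subset_left).sub_cl
      ((hT (!b)).mono inter_subset_right))
    have sub : ∀ {x y : Fo M 2}, SmO x (q.OV D j b ∩ q.OT j (-1 / 8) (1 / 8) b ∩
        (q.OL D j ∩ q.OT j (-1 / 8) (1 / 8) (!b))) → SmO y _ → _ := fun hx hy =>
      tor_sub hx hy (((oV b).inter (oT _ _ b)).inter (oL.inter (oT _ _ _))) (fun p => (m1 p).1)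
        fun p => ⟨(m1 p).2, m2 p⟩
    have s1 := h₁.sm.mono ((inter_subset_left (t := q.OL D j ∩ q.OT j (-1 / 8) (1 / 8) (!b))).trans
      ((inter_subset_left (t := q.OT j (-1 / 8) (1 / 8) b)).trans (sV b)))
    have s2 := hL.sm.mono fun m (hm : m ∈ q.OV D j b ∩ q.OT j (-1 / 8) (1 / 8) b ∩
      (q.OL D j ∩ q.OT j (-1 / 8) (1 / 8) (!b))) => hm.2.1
    have s3 := (hT b).sm.mono fun m (hm : m ∈ q.OV D j b ∩ q.OT j (-1 / 8) (1 / 8) b ∩
      (q.OL D j ∩ q.OT j (-1 / 8) (1 / 8) (!b))) => hm.1.2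
    have s4 := (hT (!b)).sm.mono fun m (hm : m ∈ q.OV D j b ∩ q.OT j (-1 / 8) (1 / 8) b ∩
      (q.OL D j ∩ q.OT j (-1 / 8) (1 / 8) (!b))) => hm.2.2
    rw [sub s1 s3] at t1
    rw [sub s2 s4] at t2
    rw [sub s1 s2]
    cases b
    · have e := sub s4 s3
      simp only [Bool.not_false, cond_false] at e t2 ⊢
      linarith only [t1, e, t2]
    · have e := sub s3 s4
      simp only [Bool.not_true, cond_true] at e t2 ⊢
      linarith only [t1, e, t2]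
  have μT := (h.ok.ok true).hμ
  have μF := (h.ok.ok false).hμ
  have e59 : √(59 / 64) ^ 2 = (59 / 64 : ℝ) := Real.sq_sqrt (by norm_num)
  have wt : ∀ x y m φ : ℝ, 0 < x → |m| < 1 / 8 → Cy.mk x y 0 0 m φ ∈ WTT (-1 / 8) (1 / 8) :=
    fun x y m φ hx hm => by
      refine ⟨hx, ⟨hm, ?_⟩, by simpa [neg_div] using (abs_lt.1 hm).1, (abs_lt.1 hm).2⟩
      simp only [mk20, normSq_cc, mk10, mk11, zero_pow two_ne_zero, add_zero, Real.sqrt_sq_eq_abs]
      linarith only [hm]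
  have a1 := k2 (Cy.mk (59 / 64) 0 0 0 ((D.H true).μ₁ + 29 / 32) 0) (by
    simp only [GD.WVL, HD.tt, GD.sL, normSq_cc, mem_ofPred_eq, mk00, mk10, mk11, mk20]
    refine ⟨?_, ?_, ?_, ?_, ?_⟩ <;> linarith only [μT, μF]) (-1) (-1) (-1) 0
  have a2 := k2 (Cy.mk (59 / 64) 0 0 0
    (-(D.H true).M - (D.H false).M - ((D.H false).μ₁ + 29 / 32)) (D.thL j)) (by
    simp only [GD.WVL, HD.tt, GD.sL, HD.M, normSq_cc, mem_ofPred_eq, mk00, mk10, mk11, mk20]
    refine ⟨?_, ?_, ?_, ?_, ?_⟩ <;> linarith only [μT, μF]) (-1) 1 (-1) 0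
  have a3 := l2 _ (wt (1 / 8 / √(1 - √(59 / 64) ^ 2)) (1 / 2) (√(59 / 64) ^ 2 - (1 / 8) ^ 2 - 1) 0
    (by rw [e59]; positivity) (by rw [e59]; norm_num [abs_lt])) (-1) 0 (-1) 1
  have a4 := l2 _ (wt (√(1 - √(59 / 64) ^ 2) / (1 / 8)) 0 (1 - (√(59 / 64) ^ 2 - (1 / 8) ^ 2))
    (D.thU j) (by rw [e59]; positivity) (by rw [e59]; norm_num [abs_lt])) (-1) 1 (-1) 0
  have pv : ∀ (z : E6) (s m φ : ℝ), z = Cy.mk (59 / 64) s 0 0 m φ →
      pVL z = mkc ((√(5 / 64) : ℝ) * ee s) 0 ⟨m, φ⟩ := by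
    rintro _ s m φ rfl
    simp only [pVL, normSq_cc, mk00, mk01, mk10, mk11]
    norm_num
    rfl
  rw [show lin _ _ _ _ = HW3_c q j true from funext fun p => by
    rw [(HW3_L h j true p.1 p.2).2, ← (h.LL_A j (HW3_L h j true p.1 p.2).1).2, lin,
      pv _ (-p.1 - p.2) ((D.H true).μ₁ + 29 / 32) (-p.1) (by apply ext6 <;> simp [bv]; ring)]] at a1
  rw [show lin _ _ _ _ = HW3_c q j false from funext fun p => by
    rw [(HW3_L h j false p.1 p.2).2, ← (h.LL_B j (HW3_L h j false p.1 p.2).1).2, lin,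
      pv _ (-p.1 - p.2) (-(D.H true).M - (D.H false).M - ((D.H false).μ₁ + 29 / 32))
        (D.thL j - -p.1) (by apply ext6 <;> simp [bv]; ring)]
    rfl] at a2
  rw [show lin _ _ _ _ = HW3_c q j true from funext fun p => by
    rw [HW3_c, h.core_VT_A j (by norm_num) (by positivity) (by rw [e59]; norm_num)
      (by rw [e59]; norm_num), lin]
    congr 2
    apply ext6 <;> simp [bv]
    ring] at a3
  rw [show lin _ _ _ _ = HW3_c q j false from funext fun p => by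
    rw [HW3_c, h.core_VT_B j (by norm_num) (by positivity) (by rw [e59]; norm_num)
      (by rw [e59]; norm_num), lin]
    congr 2
    apply ext6 <;> simp [bv]
    ring] at a4
  have c1 := key true
  have c2 := key false
  rw [a1, a3] at c1
  rw [a2, a4] at c2
  norm_num at c1 c2
  obtain ⟨b₂, h₂⟩ := HW3_mv ((oV true).union (oV false)) oL h₁ hL
    ((h.deckVL j).2 ▸ k1 (by linarith only [c1, c2]))
  obtain ⟨b₃, h₃⟩ := HW3_mv (oT _ _ true) (oT _ _ false) (hT true) (hT false)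
    ((h.deckTT j _ _).2 ▸ l1 (by linarith only [c1, c2]))
  have hc := (h₂.mono inter_subset_left).sub_cl (h₃.mono inter_subset_right)
  refine HW3_mv (h.isOpen_OP j) ((oT _ _ true).union (oT _ _ false)) h₂ h₃ ?_
  change ClO _ (q.OP D j ∩ _) at hc
  rw [h.OP_inter] at hc ⊢
  exact ExO.disj ((oT _ _ true).union (oT _ _ false)) ((oT _ _ true).union (oT _ _ false))
    (h.h2T j le_rfl (by norm_num) (by norm_num) (hc.mono subset_union_left))
    (h.h2T j (by norm_num) (by norm_num) le_rfl (hc.mono subset_union_right)) (h.OT_disj j)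

end Pool.Agent.Work.MP_bf98aa_gt.B3
end
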