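import Pool.Agent.Work.MP_bf98aa_gt.B3.HO1
import Pool.Agent.Work.MP_bf98aa_gt.B3.HL
import Pool.Agent.Work.MP_bf98aa_gt.B3.XMain
import Pool.Agent.Work.MP_bf98aa_gt.B3.KMain

-- merged part: Pool.Agent.Work.MP_bf98aa_gt.B3.HY1x
section
/-!
Polar maps as covering charts, and the sections of a relation between two charts.
-/

set_option autoImplicit false

open scoped Manifold ContDiff Topology Matrix ComplexConjugate
open Set Complex Filter

namespace Pool.Agent.Work.MP_bf98aa_gt.B3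

open Pool.Agent.Work.MP_bf98aa_gt.Th Pool.Agent.Work.MP_bf98aa_gt.Cy

variable {ι : Type} {k : ℕ} {P Q : E6 → E6} {U V : Set E6} {p x y : E6} {μ s θ : ℝ}

theorem HY1_aflp (s θ : ℝ) (p : E6) : flp s θ (flp s θ p) = p := by
  simp only [flp, cc_mkc0, cc_mkc1, mkc_20, mkc_21, sub_sub_cancel]
  exact mkc_eta p

theorem HY1_asm (s θ : ℝ) (p : E6) : ContDiffAt ℝ ∞ (flp s θ) p :=
  contDiffAt_mkc (by fun_prop) (by fun_prop) (contDiffAt_cmk (by fun_prop) (by fun_prop))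

theorem HY1_ahalf (t : ℝ) : ee (t + 1 / 2) = -ee t := by rw [ee_add, ee_half, mul_neg_one]

theorem HY1_ahalf' (t : ℝ) : ee (t - 1 / 2) = -ee t := by
  rw [← neg_neg (ee _), ← HY1_ahalf, sub_add_cancel]

/-- A chart whose deck group is generated by the translation of the angle. -/
structure HY1_aPol (P : E6 → E6) (U : Set E6) : Prop where
  par : Par (M := E6) P U
  per : ∀ (z : E6) (n : ℤ), P (z + (n : ℝ) • bv (2, 1)) = P z
  inj : ∀ x ∈ U, ∀ y ∈ U, P x = P y → cc 0 y = cc 0 x ∧ cc 1 y = cc 1 x ∧ y (2, 0) = x (2, 0) ∧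
    ∃ n : ℤ, y (2, 1) = x (2, 1) + n

theorem HY1_aPol.comp (h : HY1_aPol P U) (hV : IsOpen V) (b : Bool) {f : E6 → E6}
    (hf : ∀ z, ContDiffAt ℝ ∞ f z) (hi : ∀ z, f (f z) = z)
    (hm : ∀ p ∈ V, cond b p (flp s θ p) ∈ U) :
    HY1_aPol (fun p => f (P (cond b p (flp s θ p)))) V := by
  have h1 : Par (M := E6) f univ := par_of_inv isOpen_univ (fun z _ => hf z) (fun z _ => hf _)
    fun z _ => hi z
  have h2 : Par (M := E6) (fun p => cond b p (flp s θ p)) V := by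
    cases b
    · exact par_of_inv hV (fun z _ => HY1_asm s θ z) (fun z _ => HY1_asm s θ _)
        fun z _ => HY1_aflp s θ z
    · exact par_of_inv (g := id) hV (fun z _ => contDiffAt_id) (fun z _ => contDiffAt_id)
        fun z _ => rfl
  refine ⟨Par.trans (Par.trans h2 h.par hm) h1 (mapsTo_univ _ _), fun z n => congrArg f ?_,
    fun x hx y hy e => ?_⟩
  · cases b
    · rw [← h.per (cond false z (flp s θ z)) (-n)]
      refine congrArg P ?_
      apply ext6 <;> simp [flp, cc, bv]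
      ring
    · exact h.per z n
  · obtain ⟨a, b', c, n, d⟩ := h.inj _ (hm x hx) _ (hm y hy) (by rw [← hi (P _), e, hi])
    cases b
    · exact ⟨a, b', sub_right_injective c, -n, by
        have : θ - y (2, 1) = θ - x (2, 1) + n := d
        push_cast
        linarith only [this]⟩
    · exact ⟨a, b', c, n, d⟩

theorem HY1_aPol.deck (h : HY1_aPol P U) (hi : ∀ z ∈ U, ∀ t : ℝ, z + t • bv (2, 1) ∈ U) :
    Deck (M := E6) P U (TZ {(2, 1)}) := by
  refine deck_of h.par (fun i hi' => Finset.mem_singleton.1 hi' ▸ hi) (fun i hi' z _ => ?_)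
    fun x hx y hy e ⟨i, l⟩ => ?_
  · rw [Finset.mem_singleton.1 hi']
    simpa using h.per z 1
  · obtain ⟨a, b, c, d⟩ := h.inj x hx y hy e
    fin_cases i <;> fin_cases l
    exacts [congrArg re a, congrArg im a, congrArg re b, congrArg im b, c, d]

theorem HY1_alow (μ : ℝ) : HY1_aPol (Plow μ) {z | z (2, 0) < μ} := by
  have hp : ∀ z : E6, z (2, 0) < μ → 0 < normSq (cc 0 z) - (z (2, 0) - μ) := fun z hz => by
    linarith [normSq_nonneg (cc 0 z)]
  refine ⟨?_, fun z n => ?_, fun x hx y hy e => ?_⟩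
  · have h1 : Par (M := E6) (fun z => mkc ⟨√(normSq (cc 0 z) - (z (2, 0) - μ)), -z (2, 1)⟩ (cc 1 z)
        (cc 0 z * ee (z (2, 1)))) {z | z (2, 0) < μ} := by
      refine par_of_inv (g := fun w => mkc (cc 2 w * ee (w (0, 1))) (cc 1 w)
        ⟨normSq (cc 2 w) + μ - w (0, 0) ^ 2, -w (0, 1)⟩)
        (isOpen_lt (continuous_apply _) continuous_const) (fun z hz => ?_) (fun z _ => ?_)
        fun z hz => ?_
      · exact contDiffAt_mkc (contDiffAt_cmk (ContDiffAt.sqrt (by fun_prop) (hp z hz).ne')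
          (by fun_prop)) (by fun_prop) (by fun_prop)
      · exact contDiffAt_mkc (by fun_prop) (by fun_prop)
          (contDiffAt_cmk (by fun_prop) (by fun_prop))
      · simp only [cc_mkc1, cc_mkc2, mkc_00, mkc_01, X1b_nr, Real.sq_sqrt (hp z hz).le, neg_neg,
          mul_assoc, ee_mul_neg, mul_one]
        rw [show normSq (cc 0 z) + μ - (normSq (cc 0 z) - (z (2, 0) - μ)) = z (2, 0) by ring]
        exact mkc_eta z
    exact Par.trans (ψ := pol) h1 par_pol fun z hz => Real.sqrt_pos.2 (hp z hz)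
  · have e : ∀ i : Fin 3, i ≠ 2 → cc i (z + (n : ℝ) • bv (2, 1)) = cc i z := fun i hi => by
      simp [cc, bv, hi]
    have e' : ee (-(n : ℝ)) = 1 := by exact_mod_cast ee_int (-n)
    rw [Plow, e 0 (by decide), e 1 (by decide)]
    simp [Plow, bv, ee_add, ee_int, e']
  · have h0 : ((√(normSq (cc 0 x) - (x (2, 0) - μ)) : ℝ) : ℂ) * ee (-x (2, 1)) =
        (√(normSq (cc 0 y) - (y (2, 0) - μ)) : ℝ) * ee (-y (2, 1)) := congrArg (cc 0) e
    have h2 : cc 0 x * ee (x (2, 1)) = cc 0 y * ee (y (2, 1)) := congrArg (cc 2) e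
    have h3 := congrArg normSq h0
    rw [X1b_ns (hp x hx).le, X1b_ns (hp y hy).le] at h3
    rw [h3] at h0
    obtain ⟨n, hn⟩ := ee_eq_iff.1
      (mul_left_cancel₀ (ofReal_ne_zero.2 (Real.sqrt_pos.2 (hp y hy)).ne') h0)
    have h4 : y (2, 1) = x (2, 1) + n := by linarith only [hn]
    rw [h4, ee_add, ee_int, mul_one] at h2
    have h5 := mul_right_cancel₀ (ee_ne_zero _) h2
    rw [h5] at h3
    exact ⟨h5.symm, (congrArg (cc 1) e).symm, by linarith only [h3], n, h4⟩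

theorem HY1_aup : HY1_aPol Pup {z | -1 < z (2, 0)} := by
  have h := (HY1_alow 1).comp (V := {z | -1 < z (2, 0)}) (s := 0) (θ := 0)
    (isOpen_lt continuous_const (continuous_apply _)) false
    (f := fun z => mkc (cc 2 z) (cc 1 z) (cc 0 z)) (fun z => by fun_prop) mkc_eta fun p hp => by
      have : -1 < p (2, 0) := hp
      show 0 - p (2, 0) < 1
      linarith
  rwa [show (fun p => mkc (cc 2 (Plow 1 (cond false p (flp 0 0 p))))
      (cc 1 (Plow 1 (cond false p (flp 0 0 p)))) (cc 0 (Plow 1 (cond false p (flp 0 0 p))))) = Pup from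
    funext fun p => by
      simp only [Plow, Pup, flp, cond_false, cc_mkc0, cc_mkc1, cc_mkc2, mkc_20, mkc_21, zero_sub,
        neg_neg]
      rw [show normSq (cc 0 p) - (-p (2, 0) - 1) = 1 + p (2, 0) + normSq (cc 0 p) by ring]] at h

theorem HY1_asec {A : Atl ι} {i j : ι} (hP : Par (M := E6) P U) (hQ : Par (M := E6) Q U)
    (hR : ∀ p ∈ U, A.R i (P p) j (Q p)) (hp : p ∈ U) : ∃ f, Sec A i (P p) j f ∧ f (P p) = Q p ∧
      ∀ α β : Fm E6 k, pb f β (P p) = α (P p) ↔ pb P α p = pb Q β p := by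
  obtain ⟨χ, h1, h2, h3⟩ := hP.inv p hp
  have e : χ (P p) = p := h2.self_of_nhds
  have c1 := contMDiffAt_iff_contDiffAt.1 h1
  have c2 : ContDiffAt ℝ ∞ P p := contMDiffAt_iff_contDiffAt.1 (hP.sm p hp)
  have c3 : ContDiffAt ℝ ∞ Q p := contMDiffAt_iff_contDiffAt.1 (hQ.sm p hp)
  have c4 : ContDiffAt ℝ ∞ (fun z => Q (χ z)) (P p) := ContDiffAt.comp _ (e.symm ▸ c3) c1
  have d1 := c1.differentiableAt (by simp)
  have d2 := c2.differentiableAt (by simp)
  refine ⟨fun z => Q (χ z), ⟨c4, ?_⟩, congrArg Q e, fun α β => ⟨fun h => ?_, fun h => ?_⟩⟩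
  · filter_upwards [h3, c1.continuousAt.eventually (hP.opn.mem_nhds (e.symm ▸ hp))] with z a b
    have := hR _ b
    rwa [a] at this
  · rw [← pb_congr' h, ← pb_comp β d2 (c4.differentiableAt (by simp))]
    exact pb_congr β (h2.mono fun z hz => congrArg Q hz)
  · rw [pb_comp β d1 (e.symm ▸ c3.differentiableAt (by simp)),
      ← pb_congr' (α := pb P α) (e.symm ▸ h), ← pb_comp α d1 (e.symm ▸ d2), pb_congr α h3, pb_id]

theorem HY1_acvx (i : Fin 3) : ConvexOn ℝ univ fun z : E6 => normSq (cc i z) := by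
  have h : ∀ l, ConvexOn ℝ univ fun z : E6 => z l ^ 2 := fun l =>
    (even_two.convexOn_pow (𝕜 := ℝ)).comp_linearMap (dc l).toLinearMap
  simp only [normSq_cc]
  exact (h _).add (h _)

theorem HY1_aabs (c : ℝ) : ConvexOn ℝ univ fun z : E6 => |z (2, 0) + c| := by
  refine ⟨convex_univ, fun x _ y _ a b ha hb e => ?_⟩
  have : (a • x + b • y) (2, 0) + c = a * (x (2, 0) + c) + b * (y (2, 0) + c) := by
    simp only [Pi.add_apply, Pi.smul_apply, smul_eq_mul]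
    linear_combination (-c) * e
  show |(a • x + b • y) (2, 0) + c| ≤ a * |x (2, 0) + c| + b * |y (2, 0) + c|
  rw [this]
  refine (abs_add_le _ _).trans (le_of_eq ?_)
  rw [abs_mul, abs_mul, abs_of_nonneg ha, abs_of_nonneg hb]

end Pool.Agent.Work.MP_bf98aa_gt.B3
end

-- merged part: Pool.Agent.Work.MP_bf98aa_gt.B3.HY1
section
/-!
The neighbourhood of a singular sphere upstairs: polar maps and invariant forms.
PLAN. `Pup = sw ∘ pol ∘ g`, `Plow μ = pol ∘ g'` with explicit diffeomorphisms, or `par_of_inj`; X1b: `tF_Pup`, `rF_Pup`, `ex_Pup`, `tF_Plow`, `rF_Plow`, `ex_Plow`. `invY_iff`: with a local inverse `χ` of `Pup` at `p` (`Par.inv`) the map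
`Pup ∘ flp ∘ χ` is a section at `Pup p`; conversely `InvR.of_weak` with these sections, composed with `iof` when needed; for `b = false` use the point `flp .. p` and the second alternative or `flp (flp p) = p`,
`iof (Pup p) = Pup (-z, m, φ + 1/2)`, `iof (Plow μ p) = Plow μ (-z, ν, φ)`. Pull-backs: `pb1_rot1`, `ang_polar`, `ang_mul`, `ang_ee`, `pb_d1` of G1.
-/

set_option autoImplicit false

open scoped Manifold ContDiff Topology Matrix ComplexConjugate
open Set Complex Filter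

namespace Pool.Agent.Work.MP_bf98aa_gt.B3

open Pool.Agent.Work.MP_bf98aa_gt.Th Pool.Agent.Work.MP_bf98aa_gt.Cy

variable {D : GD} {j : J4} {k : ℕ} {b : Bool} {p : E6}

/-- The domain of the upper polar coordinates. -/
def UU : Set E6 := {p | |p (2, 0)| < 1 / 8 ∧ normSq (cc 0 p) + normSq (cc 1 p) + |p (2, 0)| < 7}

/-- The domain of the lower polar coordinates. -/
def GD.LO (D : GD) : Set E6 :=
  {p | |p (2, 0) + (D.H true).M| < 1 / 8 ∧ normSq (cc 0 p) + normSq (cc 1 p) < 8}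

/-- The upper polar maps. -/
noncomputable def GD.pU (D : GD) (j : J4) (b : Bool) (p : E6) : E6 :=
  Pup (cond b p (flp 0 (D.thU j) p))

/-- The lower polar maps. -/
noncomputable def GD.pL (D : GD) (j : J4) (b : Bool) (p : E6) : E6 :=
  Plow (D.H b).μ₁ (cond b p (D.gL j p))

/-- The upper period. -/
noncomputable def GD.xU (D : GD) (j : J4) (g : Bool → Fm E6 1) : ℝ :=
  per1 (pb (D.pU j true) (g true) - pb (D.pU j false) (g false)) 0 (bv (2, 1))

/-- The lower period. -/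
noncomputable def GD.xL (D : GD) (j : J4) (g : Bool → Fm E6 1) : ℝ :=
  per1 (pb (D.pL j true) (g true) - pb (D.pL j false) (g false))
    (Cy.mk 0 0 0 0 (-(D.H true).M) 0) (bv (2, 1))

/-- A primitive of the second class. -/
noncomputable def zY : Bool → Fm E6 1 := fun b => cond b (pb utF fun z => alt1 (Z0 z)) 0

theorem HD.isOpen_Yo (d : HD) : IsOpen d.Yo := by
  have h1 : Continuous tF := by unfold tF; fun_prop
  have h2 : Continuous rF := by unfold rF; fun_prop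
  exact (isOpen_Fo d).and ((isOpen_lt h1 continuous_const).union
    (isOpen_lt (h2.sub (continuous_const.mul h1)) continuous_const))

theorem HY1_amem {d : HD} : p ∈ d.Yo ↔ rF p < 8 ∧ -2 * d.μ₁ - 9 / 8 < tF p ∧
    tF p < 9 / 8 ∧ (tF p < 15 / 16 ∨ rF p - 2 * tF p < 6) := by
  have e : d.nuF p = d.μ₁ + tF p := by rw [HD.nuF, tF, add_sub_assoc]
  simp only [HD.Yo, HD.Fo, HD.M, mem_ofPred_eq, e, abs_lt, and_assoc]
  refine and_congr_right fun _ => and_congr ?_ (and_congr_left fun _ => ?_) <;>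
    constructor <;> intro <;> linarith

theorem HD.Ok.domY {d : HD} (h : d.Ok) : Dom ∅ d.Yo 0 := by
  have hμ := h.hμ
  refine ⟨d.isOpen_Yo, HY1_amem.2 ?_, fun x hx t ht => HY1_amem.2 ?_,
    fun i hi => absurd hi (Finset.notMem_empty i)⟩
  · simp only [rF, tF, normSq_cc, Pi.zero_apply]
    exact ⟨by norm_num, by linarith only [hμ], by norm_num, .inl (by norm_num)⟩
  have e : ∀ i, normSq (cc i (x + t • (slice ∅ 0 x - x))) = (1 - t) ^ 2 * normSq (cc i x) :=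
    fun i => by simp [normSq_cc, slice]; ring
  have e1 : rF (x + t • (slice ∅ 0 x - x)) = (1 - t) ^ 2 * rF x := by simp only [rF, e]; ring
  have e2 : tF (x + t • (slice ∅ 0 x - x)) = (1 - t) ^ 2 * tF x := by simp only [tF, e]; ring
  have k : ∀ {a c : ℝ}, 0 < c → a < c → (1 - t) ^ 2 * a < c := fun {a c} hc ha => by
    have h1 : (1 - t) ^ 2 ≤ 1 := by linarith only [ht, ht.1, ht.2, mul_nonneg_of_nonpos_of_nonpos (Mathlib.Tactic.Linarith.sub_nonpos_of_le ht.left) (Mathlib.Tactic.Linarith.sub_nonpos_of_le ht.right)]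
    rcases le_total a 0 with q | q
    · exact (mul_nonpos_of_nonneg_of_nonpos (sq_nonneg _) q).trans_lt hc
    · exact (mul_le_of_le_one_left q h1).trans_lt ha
  obtain ⟨h1, h2, h3, h4⟩ := HY1_amem.1 hx
  rw [e1, e2]
  refine ⟨k (by norm_num) h1, ?_, k (by norm_num) h3, h4.imp (k (by norm_num)) fun q => ?_⟩
  · linarith [k (a := -tF x) (c := 2 * d.μ₁ + 9 / 8) (by linarith) (by linarith)]
  · linarith [k (by norm_num) q]

theorem HY1_aiof (i : Fin 3) (p : E6) : normSq (cc i (iof p)) = normSq (cc i p) := by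
  fin_cases i
  exacts [rfl, normSq_neg _, normSq_neg _]

theorem HD.iof_Yo {d : HD} (hp : p ∈ d.Yo) : iof p ∈ d.Yo := by
  simpa only [HD.Yo, HD.Fo, HD.nuF, tF, rF, mem_ofPred_eq, HY1_aiof] using hp

theorem contDiff_iof : ContDiff ℝ ∞ iof := by
  refine contDiff_iff_contDiffAt.2 fun z => ?_
  unfold iof
  fun_prop

theorem HY1_ash (i : Fin 3) (hi : i ≠ 2) (z : E6) (t : ℝ) :
    cc i (z + t • bv (2, 1)) = cc i z ∧ (z + t • bv (2, 1)) (2, 0) = z (2, 0) := by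
  simp [cc, bv, hi]

theorem domUU : Dom {(2, 1)} UU 0 ∧ Convex ℝ UU := by
  have h0 := HY1_aabs 0
  simp only [add_zero] at h0
  have hc : Convex ℝ UU := by
    simpa [UU, ofPred_and] using (h0.convex_lt (1 / 8)).inter
      ((((HY1_acvx 0).add (HY1_acvx 1)).add h0).convex_lt 7)
  refine ⟨Dom.of_convex (IsOpen.and (isOpen_lt ?_ ?_) (isOpen_lt ?_ ?_)) hc ?_
    fun i hi z hz t => ?_, hc⟩
  iterate 4 fun_prop
  · simp [UU, normSq_cc]
  · rw [Finset.mem_singleton.1 hi]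
    simpa only [UU, mem_ofPred_eq, HY1_ash 0 (by decide), HY1_ash 1 (by decide)] using hz

theorem GD.domLO (D : GD) :
    Dom {(2, 1)} D.LO (Cy.mk 0 0 0 0 (-(D.H true).M) 0) ∧ Convex ℝ D.LO := by
  have hc : Convex ℝ D.LO := by
    simpa [GD.LO, ofPred_and] using ((HY1_aabs (D.H true).M).convex_lt (1 / 8)).inter
      (((HY1_acvx 0).add (HY1_acvx 1)).convex_lt 8)
  refine ⟨Dom.of_convex (IsOpen.and (isOpen_lt ?_ ?_) (isOpen_lt ?_ ?_)) hc ?_
    fun i hi z hz t => ?_, hc⟩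
  iterate 4 fun_prop
  · simp [GD.LO, normSq_cc]
  · rw [Finset.mem_singleton.1 hi]
    simpa only [GD.LO, mem_ofPred_eq, HY1_ash 0 (by decide), HY1_ash 1 (by decide)] using hz

theorem HY1_aUU (b : Bool) (θ : ℝ) : cond b p (flp 0 θ p) ∈ UU ↔ p ∈ UU := by
  cases b <;> simp [UU, flp]

theorem HY1_acc (b : Bool) (s θ : ℝ) (p : E6) :
    cond b (cond b p (flp s θ p)) (flp s θ (cond b p (flp s θ p))) = p := by
  cases b
  exacts [HY1_aflp s θ p, rfl]

theorem HY1_aLO (b : Bool) (j : J4) : p ∈ D.LO ↔ |cond b p (D.gL j p) (2, 0) + (D.H b).M| < 1 / 8 ∧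
    normSq (cc 0 (cond b p (D.gL j p))) + normSq (cc 1 (cond b p (D.gL j p))) < 8 := by
  cases b
  · refine and_congr_left' ?_
    rw [← abs_neg]
    show |_| < _ ↔ |-(D.H true).M - (D.H false).M - p (2, 0) + (D.H false).M| < _
    rw [show -(D.H true).M - (D.H false).M - p (2, 0) + (D.H false).M =
      -(p (2, 0) + (D.H true).M) by ring]
  · rfl

theorem GD.Ok.deck_pU (h : D.Ok) (j : J4) (b : Bool) :
    Deck (M := E6) (D.pU j b) UU (TZ {(2, 1)}) ∧ D.pU j b '' UU ⊆ (D.H b).Yo ∧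
      (∀ y ∈ (D.H b).Yo, 15 / 16 ≤ tF y → y ∈ D.pU j b '' UU) ∧
      ∀ p ∈ UU, tF (D.pU j b p) = 1 + cond b (p (2, 0)) (-p (2, 0)) ∧ iof (D.pU j b p) =
        D.pU j b (mkc (-B3.cc 0 p) (-B3.cc 1 p) ⟨p (2, 0), p (2, 1) + 1 / 2⟩) := by
  have hμ := (h.ok b).hμ
  have hm : ∀ q ∈ UU, -1 < q (2, 0) := fun q hq => by linarith only [hq, (abs_lt.1 hq.1).1]
  refine ⟨(HY1_aup.comp domUU.1.opn b (f := id) (fun _ => contDiffAt_id) (fun _ => rfl)
    fun p hp => hm _ ((HY1_aUU b _).2 hp)).deck (domUU.1.inv _ (Finset.mem_singleton_self _)),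
    ?_, fun y hy h1 => ?_, fun p hp => ⟨?_, ?_⟩⟩
  · rintro _ ⟨p, hp, rfl⟩
    obtain ⟨h1, h2⟩ := (HY1_aUU b (D.thU j)).2 hp
    rw [HY1_amem, GD.pU, tF_Pup (hm _ ⟨h1, h2⟩).le, rF_Pup (hm _ ⟨h1, h2⟩).le]
    have h3 := le_abs_self (cond b p (flp 0 (D.thU j) p) (2, 0))
    have h4 := neg_le_abs (cond b p (flp 0 (D.thU j) p) (2, 0))
    exact ⟨by linarith only [h2, h3], by linarith only [hμ, h1, h4], by linarith only [h1, h3], .inr (by linarith only [h2, h4])⟩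
  · obtain ⟨h2, -, h3, h4⟩ := HY1_amem.1 hy
    obtain ⟨q, e, rfl⟩ := ex_Pup (x := y) (by linarith only [h1])
    have h5 := h4.resolve_left h1.not_gt
    rw [rF_Pup (by linarith only [h1, e])] at h2 h5
    refine ⟨_, (HY1_aUU b (D.thU j)).2 ⟨abs_lt.2 ⟨by linarith only [h1, e], by linarith only [h3, e]⟩, ?_⟩,
      congrArg Pup (HY1_acc b _ _ q)⟩
    cases abs_cases (q (2, 0)) <;> linarith
  · rw [GD.pU, tF_Pup (hm _ ((HY1_aUU b _).2 hp)).le]
    cases b <;> simp [flp]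
  · cases b <;>
      simp only [GD.pU, Pup, iof, flp, cond_true, cond_false, cc_mkc0, cc_mkc1, cc_mkc2, mkc_20,
        mkc_21, normSq_neg, neg_add', ← sub_sub, neg_sub', sub_neg_eq_add,
        HY1_ahalf, HY1_ahalf', mul_neg, neg_mul, neg_neg]

theorem GD.Ok.deck_pL (h : D.Ok) (j : J4) (b : Bool) :
    Deck (M := E6) (D.pL j b) D.LO (TZ {(2, 1)}) ∧ D.pL j b '' D.LO ⊆ (D.H b).Yo ∧
      (∀ y ∈ (D.H b).Yo, (D.H b).nuF y < -(D.H b).M + 1 / 8 → y ∈ D.pL j b '' D.LO) ∧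
      ∀ p ∈ D.LO, (D.H b).nuF (D.pL j b p) + (D.H b).M =
          cond b (p (2, 0) + (D.H true).M) (-(p (2, 0) + (D.H true).M)) ∧
        iof (D.pL j b p) = D.pL j b (mkc (-B3.cc 0 p) (-B3.cc 1 p) (B3.cc 2 p)) := by
  have hμ := (h.ok b).hμ
  have hM : (D.H b).M = (D.H b).μ₁ + 1 := rfl
  have e : ∀ z, (D.H b).nuF z = (D.H b).μ₁ + tF z := fun z => by rw [HD.nuF, tF, add_sub_assoc]
  have hm : ∀ q ∈ D.LO, cond b q (D.gL j q) (2, 0) < (D.H b).μ₁ := fun q hq => by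
    linarith only [hμ, hM, hq, (abs_lt.1 ((HY1_aLO b j).1 hq).1).2]
  refine ⟨((HY1_alow _).comp D.domLO.1.opn b (f := id) (fun _ => contDiffAt_id) (fun _ => rfl)
    hm).deck (D.domLO.1.inv _ (Finset.mem_singleton_self _)),
    ?_, fun y hy h1 => ?_, fun p hp => ⟨?_, ?_⟩⟩
  · rintro _ ⟨p, hp, rfl⟩
    obtain ⟨h1, h2⟩ := (HY1_aLO b j).1 hp
    rw [HY1_amem, GD.pL, tF_Plow (hm _ hp).le, rF_Plow]
    have h3 := abs_lt.1 h1
    exact ⟨h2, by linarith only [hM, h3], by linarith only [hμ, hM, h3], .inl (by linarith only [hμ, hM, h3])⟩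
  · obtain ⟨h2, h3, -⟩ := HY1_amem.1 hy
    rw [e] at h1
    obtain ⟨q, e, rfl⟩ := ex_Plow (x := y) (D.H b).μ₁ (by linarith only [hμ, hM, h1])
    have e' : cond b (cond b q (D.gL j q)) (D.gL j (cond b q (D.gL j q))) = q := HY1_acc b _ _ q
    rw [rF_Plow] at h2
    refine ⟨_, (HY1_aLO b j).2 ?_, congrArg (Plow _) e'⟩
    rw [e']
    exact ⟨abs_lt.2 ⟨by linarith only [hM, h3, e], by linarith only [h1, e]⟩, h2⟩
  · rw [e, GD.pL, tF_Plow (hm _ hp).le]
    cases b <;> simp [GD.gL, flp]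
    ring
  · cases b <;>
      simp only [GD.pL, GD.gL, Plow, iof, flp, cond_true, cond_false, cc_mkc0, cc_mkc1, cc_mkc2,
        mkc_20, mkc_21, normSq_neg, neg_mul, cc_re, cc_im]

theorem HY1_asgn {x y : E6} (h : Sgn x y) : rF y = rF x := by
  rcases h with rfl | rfl
  exacts [rfl, by simp only [rF, HY1_aiof]]

theorem GD.Ok.invY_iff (h : D.Ok) (hA : Orb (D.atlY j)) {e : Bool → Fm E6 k}
    (he : ∀ b, Sm (e b) (D.H b).Yo) : InvR (D.atlY j) e ↔
      (∀ b, ∀ y ∈ (D.H b).Yo, pb iof (e b) y = e b y) ∧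
      (∀ p ∈ UU, pb (D.pU j true) (e true) p = pb (D.pU j false) (e false) p) ∧
      ∀ p ∈ D.LO, pb (D.pL j true) (e true) p = pb (D.pL j false) (e false) p := by
  have s0 : ∀ b, ∀ y ∈ (D.H b).Yo, Sec (D.atlY j) b y b iof := fun b y hy =>
    ⟨contDiff_iof.contDiffAt, mem_of_superset ((D.H b).isOpen_Yo.mem_nhds hy) fun z hz =>
      ⟨hz, HD.iof_Yo hz, .inl ⟨rfl, .inr rfl⟩⟩⟩
  have rU : ∀ p ∈ UU, (D.atlY j).R true (D.pU j true p) false (D.pU j false p) := fun p hp =>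
    ⟨(h.deck_pU j true).2.1 ⟨p, hp, rfl⟩, (h.deck_pU j false).2.1 ⟨p, hp, rfl⟩,
      .inr ⟨rfl, .inr ⟨p, hp.1, rfl, .inl rfl⟩⟩⟩
  have rL : ∀ p ∈ D.LO, (D.atlY j).R true (D.pL j true p) false (D.pL j false p) := fun p hp =>
    ⟨(h.deck_pL j true).2.1 ⟨p, hp, rfl⟩, (h.deck_pL j false).2.1 ⟨p, hp, rfl⟩,
      .inr ⟨rfl, .inl ⟨p, hp.1, rfl, .inl rfl⟩⟩⟩
  refine ⟨fun hi => ⟨fun b y hy => hi _ _ _ _ (s0 b y hy), fun p hp => ?_, fun p hp => ?_⟩,
    fun ⟨h1, h2, h3⟩ => InvR.of_weak hA (fun b => (he b).continuousOn) ?_⟩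
  · obtain ⟨f, a, -, c⟩ := HY1_asec (k := k) (h.deck_pU j true).1.par (h.deck_pU j false).1.par rU hp
    exact (c _ _).1 (hi _ _ _ _ a)
  · obtain ⟨f, a, -, c⟩ := HY1_asec (k := k) (h.deck_pL j true).1.par (h.deck_pL j false).1.par rL hp
    exact (c _ _).1 (hi _ _ _ _ a)
  have K : ∀ {b b' x y z f}, y ∈ (D.H b').Yo → Sec (D.atlY j) b x b' f → f x = z → Sgn z y →
      pb f (e b') x = e b x → ∃ g, Sec (D.atlY j) b x b' g ∧ g x = y ∧ pb g (e b') x = e b x := by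
    rintro b b' x y _ f - a rfl (rfl | rfl) c
    · exact ⟨f, a, rfl, c⟩
    · have m := (hA.mem a.rel).2
      exact ⟨_, a.comp hA (s0 _ _ m), rfl, by
        rw [pb_comp _ (a.1.differentiableAt (by simp)) (contDiff_iof.differentiable (by simp) _),
          pb_congr' (h1 _ _ m), c]⟩
  have L : ∀ {P : Bool → E6 → E6} {U : Set E6}, (∀ b, Par (M := E6) (P b) U) →
      (∀ p ∈ U, (D.atlY j).R true (P true p) false (P false p)) →
      (∀ p ∈ U, pb (P true) (e true) p = pb (P false) (e false) p) → ∀ b y, y ∈ (D.H (!b)).Yo →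
      ∀ p ∈ U, Sgn (P (!b) p) y → ∃ g, Sec (D.atlY j) b (P b p) (!b) g ∧ g (P b p) = y ∧
        pb g (e (!b)) (P b p) = e b (P b p) := fun {P U} hP hR hq b y hy p hp hs => by
    cases b
    · obtain ⟨f, a, a', c⟩ := HY1_asec (k := k) (hP false) (hP true)
        (fun p hp => hA.symm (hR p hp)) hp
      exact K hy a a' hs ((c _ _).2 (hq p hp).symm)
    · obtain ⟨f, a, a', c⟩ := HY1_asec (k := k) (hP true) (hP false) hR hp
      exact K hy a a' hs ((c _ _).2 (hq p hp))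
  rintro b x b' y ⟨hx, hy, ⟨rfl, hs⟩ | ⟨rfl, ⟨q, a, rfl, hs⟩ | ⟨q, a, rfl, hs⟩⟩⟩ <;> left
  · exact K hy (f := fun z => z) ⟨contDiffAt_id, mem_of_superset ((hA.opn _).mem_nhds hx)
      fun z hz => hA.refl hz⟩ rfl hs (by rw [pb_id])
  · have e' : cond b (cond b q (D.gL j q)) (D.gL j (cond b q (D.gL j q))) = q := HY1_acc b _ _ q
    have := L (fun b => (h.deck_pL j b).1.par) rL h3 b y hy (cond b q (D.gL j q))
      ((HY1_aLO b j).2 (by rw [e', ← rF_Plow]; exact ⟨a, hx.1.1⟩)) (by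
        cases b
        · rwa [show -(D.H false).M - (D.H (!false)).M = -(D.H true).M - (D.H false).M from
            neg_sub_comm _ _] at hs
        · exact hs)
    rwa [GD.pL, e'] at this
  · have m := abs_lt.1 a
    have h4 : rF (Pup q) < 8 := hx.1.1
    have h5 : rF y < 8 := hy.1.1
    have f0 : flp 0 (D.thU j) q (2, 0) = -q (2, 0) := zero_sub _
    rw [HY1_asgn hs, rF_Pup (by linarith only [m, f0]), f0] at h5
    rw [rF_Pup (by linarith only [m])] at h4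
    have := L (fun b => (h.deck_pU j b).1.par) rU h2 b y hy (cond b q (flp 0 (D.thU j) q))
      ((HY1_aUU b _).2 ⟨a, by
        simp only [flp, cc_mkc0, cc_mkc1] at h5
        cases abs_cases (q (2, 0)) <;> linarith⟩) (by cases b <;> exact hs)
    rwa [GD.pU, HY1_acc] at this

theorem HY1_bco (i : Cx) : ContDiff ℝ ∞ fun z : E6 => z i := contDiff_apply ℝ ℝ i

theorem HY1_blam : ContDiff ℝ ∞ lamS :=
  ((contDiff_rot1 0).add (contDiff_rot1 1)).add (contDiff_rot1 2)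

theorem HY1_bpb {f : E6 → E6} (hf : DifferentiableAt ℝ f p) : pb1 f lamS p =
    ang (fun y => cc 0 (f y)) p + ang (fun y => cc 1 (f y)) p + ang (fun y => cc 2 (f y)) p := by
  rw [← pb1_rot1 0 hf, ← pb1_rot1 1 hf, ← pb1_rot1 2 hf]
  rfl

theorem HY1_bA {φ : E6 → ℝ} (hφ : ContDiffAt ℝ ∞ φ p) :
    ang (fun y => cc 0 y * ee (φ y)) p = rot1 0 p + normSq (cc 0 p) • fderiv ℝ φ p := by
  rw [ang_mul ((contDiff_cc 0).differentiable (by simp) p)
    ((contDiffAt_ee hφ).differentiableAt (by simp)), ang_ee (hφ.differentiableAt (by simp)),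
    ang_cc, normSq_ee, one_smul]

theorem HY1_bB {r φ : E6 → ℝ} (hr : ContDiffAt ℝ ∞ r p) (hφ : ContDiffAt ℝ ∞ φ p) (h0 : 0 < r p) :
    ang (fun y => ((√(r y) : ℝ) : ℂ) * ee (φ y)) p = r p • fderiv ℝ φ p := by
  have := ang_polar (g := fun _ => 1) (differentiableAt_const _)
    ((hr.sqrt h0.ne').differentiableAt (by simp)) (hφ.differentiableAt (by simp))
  simpa [ang_const, Real.sq_sqrt h0.le] using this

theorem HY1_bup {μ φ : E6 → ℝ} (hμ : ContDiffAt ℝ ∞ μ p) (hφ : ContDiffAt ℝ ∞ φ p)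
    (h0 : 0 < 1 + μ p) {f : E6 → E6} (hf : ∀ y, f y = mkc (cc 0 y * ee (-φ y)) (cc 1 y)
      ((√(1 + μ y + normSq (cc 0 y)) : ℝ) * ee (φ y))) :
    ContDiffAt ℝ ∞ f p ∧ pb1 f lamS p = rot1 0 p + rot1 1 p + (1 + μ p) • fderiv ℝ φ p := by
  obtain rfl := funext hf
  have h1 : ContDiffAt ℝ ∞ (fun y => 1 + μ y + normSq (cc 0 y)) p := by fun_prop
  have h2 : 0 < 1 + μ p + normSq (cc 0 p) := add_pos_of_pos_of_nonneg h0 (normSq_nonneg _)
  have h3 := h1.sqrt h2.ne'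
  refine (fun h => ⟨h, ?_⟩) (by fun_prop)
  rw [HY1_bpb (h.differentiableAt (by simp))]
  simp only [cc_mkc0, cc_mkc1, cc_mkc2]
  rw [HY1_bA hφ.neg, HY1_bB h1 hφ h2, ang_cc, fderiv_fun_neg]
  module

theorem HY1_blow {τ φ : E6 → ℝ} (hτ : ContDiffAt ℝ ∞ τ p) (hφ : ContDiffAt ℝ ∞ φ p)
    (h0 : τ p < 0) {f : E6 → E6} (hf : ∀ y, f y = mkc ((√(normSq (cc 0 y) - τ y) : ℝ) * ee (-φ y))
      (cc 1 y) (cc 0 y * ee (φ y))) :
    ContDiffAt ℝ ∞ f p ∧ pb1 f lamS p = rot1 0 p + rot1 1 p + τ p • fderiv ℝ φ p ∧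
      pb1 f (rot1 0) p = -normSq (cc 0 (f p)) • fderiv ℝ φ p := by
  obtain rfl := funext hf
  have h1 : ContDiffAt ℝ ∞ (fun y => normSq (cc 0 y) - τ y) p := by fun_prop
  have h2 : 0 < normSq (cc 0 p) - τ p := by linarith only [h0, normSq_nonneg (cc 0 p)]
  have h3 := h1.sqrt h2.ne'
  refine (fun h => ⟨h, ?_⟩) (by fun_prop)
  rw [HY1_bpb (h.differentiableAt (by simp)), pb1_rot1 0 (h.differentiableAt (by simp))]
  simp only [cc_mkc0, cc_mkc1, cc_mkc2]
  rw [HY1_bA hφ, HY1_bB h1 hφ.neg h2, ang_cc, fderiv_fun_neg, X1b_ns h2.le]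
  constructor <;> module

theorem HY1_bd (p : E6) : fderiv ℝ (fun y : E6 => y (2, 1)) p = dc (2, 1) := (dc (2, 1)).fderiv

theorem HY1_bd' (θ : ℝ) (p : E6) : fderiv ℝ (fun y : E6 => θ - y (2, 1)) p = -dc (2, 1) :=
  ((dc (2, 1)).hasFDerivAt.const_sub θ).fderiv

theorem HY1_bU (hp : p ∈ UU) : ContDiffAt ℝ ∞ (D.pU j b) p ∧ pb1 (D.pU j b) lamS p =
    rot1 0 p + rot1 1 p + (p (2, 0) + cond b 1 (-1)) • dc (2, 1) := by
  have h1 := abs_lt.1 hp.1
  cases b
  · refine (HY1_bup (μ := fun y => 0 - y (2, 0)) (φ := fun y => D.thU j - y (2, 1))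
      (contDiff_const.sub (HY1_bco _)).contDiffAt (contDiff_const.sub (HY1_bco _)).contDiffAt
      (by linarith only [h1]) fun _ => rfl).imp_right fun h => h.trans ?_
    rw [HY1_bd', cond_false]
    module
  · refine (HY1_bup (μ := fun y => y (2, 0)) (φ := fun y => y (2, 1)) (HY1_bco _).contDiffAt
      (HY1_bco _).contDiffAt (by linarith only [h1]) fun _ => rfl).imp_right fun h => h.trans ?_
    rw [HY1_bd, cond_true, add_comm 1]

theorem GD.Ok.HY1_bt (h : D.Ok) (hp : p ∈ D.LO) : p (2, 0) - (D.H true).μ₁ < -1 ∧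
    -(D.H true).M - (D.H false).M - p (2, 0) - (D.H false).μ₁ < -1 := by
  have h1 := abs_lt.1 hp.1
  have h2 := (h.ok true).hμ
  have h3 := (h.ok false).hμ
  simp only [HD.M] at h1 ⊢
  constructor <;> linarith only [h1, h2, h3, h1.1, h1.2]

theorem GD.Ok.HY1_bL (h : D.Ok) (hp : p ∈ D.LO) : ContDiffAt ℝ ∞ (D.pL j b) p ∧
    pb1 (D.pL j b) lamS p = rot1 0 p + rot1 1 p +
      (p (2, 0) - (D.H true).μ₁ - cond b 0 D.sL) • dc (2, 1) ∧ tF (D.pL j b p) < -1 := by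
  obtain ⟨h1, h2⟩ := h.HY1_bt hp
  cases b
  · obtain ⟨h3, h4, -⟩ := HY1_blow (f := D.pL j false)
      (τ := fun y => -(D.H true).M - (D.H false).M - y (2, 0) - (D.H false).μ₁)
      (φ := fun y => D.thL j - y (2, 1))
      ((contDiff_const.sub (HY1_bco _)).sub contDiff_const).contDiffAt
      (contDiff_const.sub (HY1_bco _)).contDiffAt (by linarith) fun _ => rfl
    refine ⟨h3, h4.trans ?_, (tF_Plow (sub_nonpos.1 (h2.le.trans (by norm_num)))).trans_lt h2⟩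
    rw [HY1_bd', cond_false, GD.sL, HD.M, HD.M]
    module
  · obtain ⟨h3, h4, -⟩ := HY1_blow (f := D.pL j true) (τ := fun y => y (2, 0) - (D.H true).μ₁)
      (φ := fun y => y (2, 1)) ((HY1_bco _).sub contDiff_const).contDiffAt
      (HY1_bco _).contDiffAt (by linarith) fun _ => rfl
    refine ⟨h3, h4.trans ?_, (tF_Plow (sub_nonpos.1 (h1.le.trans (by norm_num)))).trans_lt h1⟩
    rw [HY1_bd, cond_true, sub_zero]

theorem HY1_btU (hp : p ∈ UU) : tF (D.pU j b p) = 1 + cond b (p (2, 0)) (-p (2, 0)) := by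
  have h1 := abs_lt.1 hp.1
  cases b
  · exact (tF_Pup (show -1 ≤ 0 - p (2, 0) by linarith only [h1])).trans (congrArg _ (zero_sub _))
  · exact tF_Pup (show -1 ≤ p (2, 0) by linarith only [h1])

theorem HY1_btU' (hp : p ∈ UU) : 0 ≤ tF (D.pU j b p) := by
  have h1 := abs_lt.1 hp.1
  rw [HY1_btU hp]
  cases b <;> simp only [cond_true, cond_false] <;> linarith only [h1]

theorem pb1_pU (hp : p ∈ UU) : pb1 (D.pU j b) lamS p =
    rot1 0 p + rot1 1 p + (p (2, 0) + cond b 1 (-1)) • dc (2, 1) := by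
  exact (HY1_bU hp).2

theorem GD.Ok.pb1_pL (h : D.Ok) (hp : p ∈ D.LO) : pb1 (D.pL j b) lamS p = rot1 0 p + rot1 1 p +
    (p (2, 0) - (D.H true).μ₁ - cond b 0 D.sL) • dc (2, 1) := by
  exact (h.HY1_bL hp).2.1

theorem HY1_biof : pb1 iof lamS = lamS := funext fun y => by
  rw [HY1_bpb (contDiff_iof.differentiable (by simp) y)]
  simp only [iof, cc_mkc0, cc_mkc1, cc_mkc2]
  rw [ang_neg, ang_neg, ang_cc, ang_cc, ang_cc]
  rfl

theorem isD_lamS (d : HD) : IsD (fun z => alt1 (lamS z)) (d1 lamS) d.Yo ∧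
    ∀ y, pb iof (fun z => alt1 (lamS z)) y = alt1 (lamS y) := by
  exact ⟨⟨fun _ _ => (G1_alt HY1_blam.contDiffAt).contDiffWithinAt, fun _ _ => rfl⟩,
    fun y => congrArg alt1 (congrFun HY1_biof y)⟩

theorem HY1_b0 {f : E6 → E6} {α : Fm E6 k} (h : α (f p) = 0) : pb f α p = 0 :=
  pb_congr' (β := 0) h

theorem HY1_btF : ContDiff ℝ ∞ tF := contDiff_iff_contDiffAt.2 fun z => by
  unfold tF
  fun_prop

theorem HY1_bti (z : E6) : tF (iof z) = tF z := by
  simp only [tF, iof, cc_mkc0, cc_mkc2, normSq_neg]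

theorem HY1_but : ContDiff ℝ ∞ utF := contDiff_iff_contDiffAt.2 fun _ =>
  contDiffAt_mkc (contDiff_cc 0).contDiffAt contDiffAt_const
    (contDiffAt_cmk HY1_btF.contDiffAt contDiffAt_const)

theorem HY1_bio (α : Fm E6 k) (y : E6) : pb iof (pb utF α) y = pb utF α y := by
  rw [← pb_comp α (contDiff_iof.differentiable (by simp) y) (HY1_but.differentiable (by simp) _)]
  simp only [utF, HY1_bti]
  rfl

theorem HY1_bZ0 (hp : -1 / 2 < p (2, 0)) : Z0 =ᶠ[𝓝 p] fun _ => 0 := by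
  filter_upwards [continuousAt_const.eventually_lt (HY1_bco (2, 0)).continuous.continuousAt hp]
    with z hz
  rw [Z0, stp, Real.smoothTransition.zero_of_nonpos (by linarith only [hz]), zero_div, zero_smul]

theorem HY1_bZ (y : E6) : ContDiffAt ℝ ∞ Z0 (utF y) := by
  by_cases h : cc 0 y = 0
  · refine contDiffAt_const.congr_of_eventuallyEq (HY1_bZ0 (show -1 / 2 < tF y from ?_))
    rw [tF, h, map_zero]
    linarith only [normSq_nonneg (cc 2 y)]
  · exact ((Real.smoothTransition.contDiff.comp ((contDiff_const.mul (HY1_bco _)).sub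
      contDiff_const)).contDiffAt.div (contDiffAt_normSq (contDiff_cc 0).contDiffAt)
      (normSq_pos.2 (show cc 0 (utF y) ≠ 0 from h)).ne').smul (contDiff_rot1 0).contDiffAt

theorem HY1_bze (hp : tF p < -1) : zeY b p = 0 := by
  cases b
  · rfl
  have h0 : cc 0 (utF p) ≠ 0 := fun h => by
    rw [tF, show cc 0 p = 0 from h, map_zero] at hp
    linarith only [hp, normSq_nonneg (cc 2 p)]
  have h1 : d1 Z0 (utF p) = 0 := by
    rw [← d1_dlog (contDiff_cc 0).contDiffAt h0]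
    refine d1_congr ?_
    filter_upwards [(HY1_bco (2, 0)).continuous.continuousAt.eventually_lt continuousAt_const
      (show utF p (2, 0) < -1 from hp)] with z hz
    rw [Z0, stp, Real.smoothTransition.one_of_one_le (by linarith only [hz]), one_div, ang_cc]
  exact HY1_b0 h1

theorem isD_zY (d : HD) (b : Bool) :
    IsD (zY b) (zeY b) d.Yo ∧ ∀ y ∈ d.Yo, pb iof (zY b) y = zY b y := by
  cases b
  · exact ⟨⟨contDiffOn_const, fun x _ => extDeriv_const 0 x⟩, fun _ _ => rfl⟩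
  · exact ⟨⟨fun y _ => (G1_alt (contDiffAt_pb1 HY1_but.contDiffAt (HY1_bZ y))).contDiffWithinAt,
      fun y _ => (pb_d1 HY1_but.contDiffAt (HY1_bZ y)).symm⟩,
      fun y _ => HY1_bio (fun z => alt1 (Z0 z)) y⟩

theorem zeY_zero (hp : 0 ≤ tF p) : zeY b p = 0 := by
  cases b
  · rfl
  · exact HY1_b0 ((d1_congr (HY1_bZ0 (show -1 / 2 < tF p by linarith only [hp]))).trans (d1_const 0))

theorem GD.Ok.cl_omY (h : D.Ok) (hA : Orb (D.atlY j)) : ClF (D.atlY j) fun _ => d1 lamS := by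
  have hc : ∀ b, Cl (d1 lamS) (D.H b).Yo := fun b =>
    d1_cl (D.H b).isOpen_Yo fun _ _ => HY1_blam.contDiffAt
  have hl : ContDiff ℝ ∞ fun z : E6 => rot1 0 z + rot1 1 z + z (2, 0) • dc (2, 1) :=
    ((contDiff_rot1 0).add (contDiff_rot1 1)).add ((HY1_bco _).smul contDiff_const)
  have key : ∀ {f : E6 → E6} {U : Set E6} {p : E6} (t : ℝ), IsOpen U → p ∈ U →
      (∀ z ∈ U, ContDiffAt ℝ ∞ f z ∧
        pb1 f lamS z = rot1 0 z + rot1 1 z + (z (2, 0) + t) • dc (2, 1)) →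
      pb f (d1 lamS) p = d1 (fun z => rot1 0 z + rot1 1 z + z (2, 0) • dc (2, 1)) p :=
    fun t hU hp hf => symp_of' (hf _ hp).1 HY1_blam.contDiffAt hl.contDiffAt contDiffAt_const
      (d1_const (t • dc (2, 1))) (mem_of_superset (hU.mem_nhds hp) fun z hz =>
        (hf z hz).2.trans (by rw [add_smul, ← add_assoc]))
  refine ⟨hc, (h.invY_iff hA fun b => (hc b).1).2 ⟨fun b y _ => ?_, fun p hp => ?_, fun p hp => ?_⟩⟩
  · rw [pb_d1 contDiff_iof.contDiffAt HY1_blam.contDiffAt, HY1_biof]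
  · exact (key _ domUU.1.opn hp fun z hz => HY1_bU hz).trans
      (key _ domUU.1.opn hp fun z hz => HY1_bU hz).symm
  · have e : ∀ b, pb (D.pL j b) (d1 lamS) p = _ := fun b =>
      key (-(D.H true).μ₁ - cond b 0 D.sL) D.domLO.1.opn hp fun z hz =>
        ⟨(h.HY1_bL hz).1, by rw [h.pb1_pL hz, ← add_sub_assoc, ← sub_eq_add_neg]⟩
    exact (e true).trans (e false).symm

theorem GD.Ok.cl_zeY (h : D.Ok) (hA : Orb (D.atlY j)) : ClF (D.atlY j) zeY := by
  have hc : ∀ b, Cl (zeY b) (D.H b).Yo := fun b => (isD_zY _ b).1.cl (D.H b).isOpen_Yo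
  refine ⟨hc, (h.invY_iff hA fun b => (hc b).1).2 ⟨fun b y _ => ?_, fun p hp => ?_, fun p hp => ?_⟩⟩
  · cases b
    exacts [rfl, HY1_bio (d1 Z0) y]
  · exact (HY1_b0 (zeY_zero (HY1_btU' hp))).trans (HY1_b0 (zeY_zero (HY1_btU' hp))).symm
  · exact (HY1_b0 (HY1_bze (h.HY1_bL hp).2.2)).trans (HY1_b0 (HY1_bze (h.HY1_bL hp).2.2)).symm

theorem GD.Ok.cl_dmY (h : D.Ok) (hA : Orb (D.atlY j)) : ClF (D.atlY j) dmY := by
  have hs : ContDiff ℝ ∞ stm :=
    Real.smoothTransition.contDiff.comp ((contDiff_const.mul contDiff_id).add contDiff_const)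
  have hr : ∀ b, ContDiff ℝ ∞ fun z => stm (cond b (tF z - 1) (1 - tF z)) := fun b => by
    cases b
    exacts [hs.comp (contDiff_const.sub HY1_btF), hs.comp (HY1_btF.sub contDiff_const)]
  have hc : ∀ b, Cl (dmY b) (D.H b).Yo := fun b => cl_dfn (D.H b).isOpen_Yo (hr b).contDiffOn
  have h0 : ∀ b y, tF y < -1 → dmY b y = 0 := fun b y hy => by
    have e : (fun z => stm (cond b (tF z - 1) (1 - tF z))) =ᶠ[𝓝 y] fun _ => cond b 0 1 := by
      filter_upwards [HY1_btF.continuous.continuousAt.eventually_lt continuousAt_const hy] with z hz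
      cases b
      · exact Real.smoothTransition.one_of_one_le (show 1 ≤ 16 * (1 - tF z) + 1 / 2 by linarith only [hz])
      · exact Real.smoothTransition.zero_of_nonpos (show 16 * (tF z - 1) + 1 / 2 ≤ 0 by linarith only [hz])
    rw [dmY, dfn, e.fderiv_eq, fderiv_fun_const]
    exact map_zero (ContinuousAlternatingMap.ofSubsingletonLIE (0 : Fin 1))
  refine ⟨hc, (h.invY_iff hA fun b => (hc b).1).2 ⟨fun b y _ => ?_, fun p hp => ?_, fun p hp => ?_⟩⟩
  · rw [dmY, pb_dfn (contDiff_iof.differentiable (by simp) y) ((hr b).differentiable (by simp) _)]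
    simp only [HY1_bti]
  · have e : ∀ b, pb (D.pU j b) (dmY b) p = dfn (fun y => stm (y (2, 0))) p := fun b => by
      rw [dmY, pb_dfn ((HY1_bU hp).1.differentiableAt (by simp))
        ((hr b).differentiable (by simp) _)]
      refine congrArg alt1 (EventuallyEq.fderiv_eq ?_)
      filter_upwards [domUU.1.opn.mem_nhds hp] with z hz
      rw [HY1_btU hz]
      cases b <;> simp
    exact (e true).trans (e false).symm
  · exact (HY1_b0 (h0 _ _ (h.HY1_bL hp).2.2)).trans (HY1_b0 (h0 _ _ (h.HY1_bL hp).2.2)).symm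

theorem xU_lam (D : GD) (j : J4) : D.xU j (fun _ z => alt1 (lamS z)) = 2 := by
  refine (intervalIntegral.integral_congr (g := fun _ => 2) fun t _ => ?_).trans (by simp)
  have hp := domUU.1.inv _ (Finset.mem_singleton_self _) 0 domUU.1.mem t
  change pb1 (D.pU j true) lamS _ (bv (2, 1)) - pb1 (D.pU j false) lamS _ (bv (2, 1)) = 2
  rw [pb1_pU hp, pb1_pU hp]
  simp [dc_apply, bv]
  norm_num

theorem xU_zY (D : GD) (j : J4) : D.xU j zY = 0 := by
  refine (intervalIntegral.integral_congr (g := fun _ => 0) fun t _ => ?_).trans (by simp)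
  have hp := domUU.1.inv _ (Finset.mem_singleton_self _) 0 domUU.1.mem t
  have h1 := HY1_btU' (D := D) (j := j) (b := true) hp
  change Z0 (utF (D.pU j true _)) _ - 0 = 0
  rw [(HY1_bZ0 (show -1 / 2 < tF _ by linarith only [h1])).self_of_nhds, sub_zero]
  rfl

theorem GD.Ok.xL_zY (h : D.Ok) (j : J4) : D.xL j zY = -1 := by
  refine (intervalIntegral.integral_congr (g := fun _ => -1) fun t _ => ?_).trans (by simp)
  have hp := D.domLO.1.inv _ (Finset.mem_singleton_self _) _ D.domLO.1.mem t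
  generalize Cy.mk 0 0 0 0 (-(D.H true).M) 0 + t • bv (2, 1) = p at hp ⊢
  have h1 := (h.HY1_bL (j := j) (b := true) hp).2.2
  obtain ⟨h3, -, h4⟩ := HY1_blow (f := D.pL j true) (τ := fun y => y (2, 0) - (D.H true).μ₁)
    (φ := fun y => y (2, 1)) ((HY1_bco _).sub contDiff_const).contDiffAt
    (HY1_bco _).contDiffAt (by linarith only [h, hp, (h.HY1_bt hp).1]) fun _ => rfl
  have h5 : pb1 utF (rot1 0) (D.pL j true p) = rot1 0 (D.pL j true p) :=
    (pb1_rot1 0 (HY1_but.differentiable (by simp) _)).trans (ang_cc 0)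
  have h6 : normSq (B3.cc 0 (D.pL j true p)) ≠ 0 := fun e => by
    rw [tF, e] at h1
    linarith only [h1, normSq_nonneg (B3.cc 2 (D.pL j true p))]
  change stp (tF (D.pL j true p)) / normSq (B3.cc 0 (D.pL j true p)) *
    pb1 utF (rot1 0) (D.pL j true p) (fderiv ℝ (D.pL j true) p (bv (2, 1))) - 0 = -1
  rw [h5, ← pb1_apply, h4, HY1_bd, stp, Real.smoothTransition.one_of_one_le (by linarith only [h1])]
  simp [dc_apply, bv, h6]


end Pool.Agent.Work.MP_bf98aa_gt.B3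
end

-- merged part: Pool.Agent.Work.MP_bf98aa_gt.B3.HK
section
/-!
Cohomology of the neighbourhood of a smoothed torus.
PLAN. Use the chart `ψ z = q.K b k (ML 1 2 z)` on `WK` (`Par.comp`), `A z = ML 1 (1/2) (mvK 1 0 (ML 1 2 z))` on `U = WK ∩ {cc 0 ≠ 0}` (Kb: `Kb_RK`, `Kb_sm`): `cc 0 (A z) = -cc 0 z / normSq (cc 0 z)`, `A` shifts `z (2,0)` by `1/2`,
commutes with the integer translations, `A (A z) = z + bv (2,0)` (`K_ext`); `ψ x = ψ y` iff `y` is an integer translate of `x` or of `A x`. `HK_core`: let `dβ = pl ψ w` on `WK`, `β` periodic. `δ = β - pb A β` is closed on `U`,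
`pb A δ = -δ`. `torusK` for `pb pol δ` on the convex set `{0 < z (0,0)} ∩ WK` with `S = {(0,1), (2,0), (2,1)}`: `= c + dg`. With `A' z = mk (1/z (0,0)) (z (0,1) + 1/2) (A (pol z) (1,0)) (A (pol z) (1,1)) (z (2,0) + 1/2) (z (2,1))`,
`pol ∘ A' = A ∘ pol`, `pb A' c = c`, `g' = (g - pb A' g) / 2` is a periodic primitive with `pb A' g' = -g'`; descend it along `pol` (`deck_of`, `Deck.desc_per` for `M = E6`, `pl_eq_pb`, `IsDO.of_par`) to `g''` on `U`.
`χ = (1 + og ((r - 1) / (r + 1))) / 2`, `r = normSq (cc 0 z)`, vanishes near `r = 0`, `χ + χ ∘ A = 1`; `β' = β - d (χ • g'')` (`FMV_cut`) is invariant; `desc`, `IsDO.of_par`.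
`h3K`: `torusK`, `Hor.of_card`. `h2K`: `Hor.pair`; `lamK` is `a s dt` plus a periodic form.
-/

set_option autoImplicit false

open scoped Manifold ContDiff Topology Matrix ComplexConjugate
open Set Complex Filter

namespace Pool.Agent.Work.MP_bf98aa_gt.B3

open Pool.Agent.Work.MP_bf98aa_gt.Th Pool.Agent.Work.MP_bf98aa_gt.Cy

variable {M : Type} [TopologicalSpace M] [ChartedSpace E6 M] [IsManifold 𝓘(ℝ, E6) ∞ M]
  {D : GD} {q : Ch M} {η : Fo M 2}

section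
variable {k : ℕ} {x y z u v : E6} {S : Finset Cx} {V : Set E6}

/-- The directions of the fixed torus. -/
def HK_S : Finset Cx := {(2, 0), (2, 1)}

/-- The periodic directions in polar coordinates. -/
def HK_T : Finset Cx := {(0, 1), (2, 0), (2, 1)}

/-- The antipodal deck map. -/
noncomputable def HK_A (z : E6) : E6 := toK (-qK z) (-pK z) (z (2, 0) + 1 / 2) (z (2, 1))

/-- The antipodal deck map in polar coordinates. -/
noncomputable def HK_B (z : E6) : E6 :=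
  mkc ⟨(z (0, 0))⁻¹, z (0, 1) + 1 / 2⟩ (cc 1 (HK_A (pol z))) ⟨z (2, 0) + 1 / 2, z (2, 1)⟩

/-- The domain of the antipodal map. -/
def HK_U : Set E6 := WK ∩ {z | cc 0 z ≠ 0}

/-- The polar domain. -/
def HK_V : Set E6 := WK ∩ {z | 0 < z (0, 0)}

theorem HK_per {f : E6 → E6} (he : ∀ᶠ y in 𝓝 z, f (y + u) = f y + v) (β : Fm E6 k) :
    pb f β (z + u) = pb f (fun y => β (y + v)) z := by
  have e : (fun y => f (y + u)) =ᶠ[𝓝 z] fun y => f y + v := he
  rw [pb, pb, ← fderiv_comp_add_right, e.fderiv_eq, fderiv_add_const, he.self_of_nhds]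

theorem HK_sq {f g f' g' : E6 → E6} (hf : ContDiffAt ℝ ∞ f x) (hg : ContDiffAt ℝ ∞ g (f x))
    (hf' : ContDiffAt ℝ ∞ f' x) (hg' : ContDiffAt ℝ ∞ g' (f' x))
    (he : ∀ᶠ y in 𝓝 x, g (f y) = g' (f' y)) (β : Fm E6 k) :
    pb f (pb g β) x = pb f' (pb g' β) x := by
  rw [← pb_comp β (hf.differentiableAt (by simp)) (hg.differentiableAt (by simp)),
    ← pb_comp β (hf'.differentiableAt (by simp)) (hg'.differentiableAt (by simp))]
  exact pb_congr β he

theorem HK_two {f : E6 → E6} (hf : ContDiffAt ℝ ∞ f x) (hf' : ContDiffAt ℝ ∞ f (f x))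
    (he : ∀ᶠ y in 𝓝 x, f (f y) = y + v) (β : Fm E6 k) : pb f (pb f β) x = β (x + v) := by
  rw [← pb_comp β (hf.differentiableAt (by simp)) (hf'.differentiableAt (by simp)), ← G6_trans β]
  exact pb_congr β he

theorem HK_anti {z₀ : E6} (h : Dom S V z₀) {B : E6 → E6} (hs : ContDiffOn ℝ ∞ B V)
    (hm : MapsTo B V V) (hc : ∀ i ∈ S, ∀ z ∈ V, B (z + bv i) = B z + bv i)
    (hL : ∀ z, G6_L S (B z) = G6_L S z + u) {n : Cx → ℤ}
    (hB : ∀ z ∈ V, B (B z) = z + ∑ i ∈ S, (n i : ℝ) • bv i) {δ : Fm E6 (k + 1)} (hδ : Cl δ V)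
    (hp : ∀ i ∈ S, ∀ z ∈ V, δ (z + bv i) = δ z) (ha : ∀ z ∈ V, pb B δ z = -δ z) :
    ∃ g : Fm E6 k, IsD g δ V ∧ (∀ i ∈ S, ∀ z ∈ V, g (z + bv i) = g z) ∧
      ∀ z ∈ V, pb B g z = -g z := by
  obtain ⟨c, g, h1, h2, h3⟩ := torusK h hδ hp
  have hV := h.opn
  have sm := fun z (hz : z ∈ V) => hs.contDiffAt (hV.mem_nhds hz)
  have h4 := h2.pb hV hV hs hm
  have h5 : ∀ z ∈ V, c.compContinuousLinearMap (fderiv ℝ B z) = c := fun z hz => by
    have e := ((G6_L S).hasFDerivAt.comp z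
      ((sm z hz).differentiableAt (by simp)).hasFDerivAt).unique
      ((funext hL : (G6_L S ∘ B) = _) ▸ (G6_L S).hasFDerivAt.add_const u)
    rw [← h1]
    exact congrArg c.compContinuousLinearMap e
  have h6 := FMV_sub hV h2 h4 (α'' := fun z => (2 : ℝ) • δ z) fun z hz => by
    change _ - (pb B δ z - c.compContinuousLinearMap (fderiv ℝ B z)) = _
    rw [ha z hz, h5 z hz, two_smul]
    abel
  refine ⟨(1 / 2 : ℝ) • (g - pb B g), ⟨ContDiffOn.const_smul (1 / 2 : ℝ) h6.1, fun z hz => ?_⟩,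
    fun i hi z hz => ?_, fun z hz => ?_⟩
  · rw [extDeriv_smul, h6.2 z hz, smul_smul]
    norm_num
  · simp only [Pi.smul_apply, Pi.sub_apply]
    rw [h3 i hi z hz, HK_per (mem_of_superset (hV.mem_nhds hz) (hc i hi)),
      pb_congr' (h3 i hi _ (hm hz))]
  · rw [pb_smul, pb_sub]
    simp only [Pi.smul_apply, Pi.sub_apply]
    rw [HK_two (sm z hz) (sm _ (hm hz)) (mem_of_superset (hV.mem_nhds hz) hB),
      per_int h.inv h3 n hz]
    module

theorem HK_xv (h : xv y = xv x) :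
    qK y = qK x ∧ pK y = pK x ∧ cc 0 y = cc 0 x ∧ cc 1 y = cc 1 x := by
  rw [← mk4_eta y, h]
  exact ⟨rfl, rfl, rfl, rfl⟩

theorem HK_xs {i : Cx} (hi : i ∈ HK_S) (z : E6) (t : ℝ) : xv (z + t • bv i) = xv z := by
  have h : ∀ j ∈ SX, j ≠ i := by revert i; decide
  funext a
  fin_cases a <;> exact HT_bv (h _ (by decide)) z t

theorem HK_xs' {i : Cx} (hi : i ∈ HK_S) (z : E6) : xv (z + bv i) = xv z := by
  simpa using HK_xs hi z 1

theorem HK_ne : cc 0 z ≠ 0 ↔ (-qK z) 2 ≠ 1 := by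
  change _ ↔ -(1 - 2 / nT z) ≠ 1
  have h := (nT_pos z).ne'
  rw [not_iff_not, ← normSq_eq_zero, neg_sub, sub_eq_iff_eq_add, div_eq_iff h, nT]
  constructor <;> intro e <;> linarith only [e]

theorem HK_ts (h : cc 0 z ≠ 0) : TS (-qK z) (-pK z) := by
  simpa using Kb_ts (z := z) 1 (by simpa using HK_ne.1 h)

theorem HK_q (h : cc 0 z ≠ 0) : qK (HK_A z) = -qK z := (HK_ts h).qK _ _

theorem HK_p (h : cc 0 z ≠ 0) : pK (HK_A z) = -pK z := (HK_ts h).pK _ _

theorem HK_sm (h : cc 0 z ≠ 0) : ContDiffAt ℝ ∞ HK_A z :=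
  contDiffAt_toK contDiff_qK.contDiffAt.neg contDiff_pK.contDiffAt.neg
    ((contDiff_apply ℝ ℝ _).contDiffAt.add contDiffAt_const) (contDiff_apply ℝ ℝ _).contDiffAt
    (HK_ne.1 h)

theorem HK_c0 (h : cc 0 z ≠ 0) : cc 0 (HK_A z) = -cc 0 z / normSq (cc 0 z) := by
  have h1 := (nT_pos z).ne'
  have h2 : normSq (cc 0 z) ≠ 0 := mt normSq_eq_zero.1 h
  have e : ∀ a : ℝ, -(2 * a / nT z) / (1 - -(1 - 2 / nT z)) = -a / normSq (cc 0 z) := fun a => by
    rw [show 1 - -(1 - 2 / nT z) = 2 * normSq (cc 0 z) / nT z by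
      field_simp; rw [nT]; ring]
    field_simp
  refine Complex.ext ?_ ?_
  · rw [div_ofReal_re]
    exact e _
  · rw [div_ofReal_im]
    exact e _

theorem HK_c1 (h : cc 0 z ≠ 0) : ‖cc 1 (HK_A z)‖ = ‖cc 1 z‖ := by
  rw [← sq_eq_sq₀ (norm_nonneg _) (norm_nonneg _), ← Complex.normSq_eq_norm_sq,
    ← Complex.normSq_eq_norm_sq, ← pK_norm, ← pK_norm, HK_p h]
  simp

theorem HK_mem : MapsTo HK_A HK_U HK_U := fun z hz =>
  ⟨(HK_c1 hz.2).trans_lt hz.1, by
    have h : cc 0 z ≠ 0 := hz.2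
    simp [HK_c0 h, h]⟩

theorem HK_AA (hz : z ∈ HK_U) : HK_A (HK_A z) = z + bv (2, 0) := by
  have h := HK_xv (HK_xs' (i := (2, 0)) (by decide) z)
  refine K_ext ?_ ?_ ?_ ?_
  · rw [HK_q (HK_mem hz).2, HK_q hz.2, neg_neg, h.1]
  · rw [HK_p (HK_mem hz).2, HK_p hz.2, neg_neg, h.2.1]
  · simp [HK_A, toK_20, bv, add_assoc, ← two_mul]
  · simp [HK_A, toK_21, bv]

theorem HK_Ac {i : Cx} (hi : i ∈ HK_S) (z : E6) : HK_A (z + bv i) = HK_A z + bv i := by
  have h := HK_xv (HK_xs' hi z)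
  refine ext4 ?_ ?_ ?_
  · rw [HK_xs' hi, HK_A, HK_A, h.1, h.2.1]
    rfl
  · exact add_right_comm _ _ _
  · rfl

theorem HK_oU : IsOpen HK_U := isOpen_WK.inter (isOpen_ne_fun (continuous_cc 0) continuous_const)

theorem HK_oV : IsOpen HK_V := isOpen_WK.inter (isOpen_lt continuous_const (continuous_apply _))

theorem HK_cvx : Convex ℝ WK := by
  have e : WK = (Complex.equivRealProdCLM.symm.toContinuousLinearMap.comp
      ((dc (1, 0)).prod (dc (1, 1)))) ⁻¹' Metric.ball 0 (1 / 64) :=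
    Set.ext fun z => mem_ball_zero_iff.symm
  exact e ▸ (convex_ball _ _).linear_preimage _

theorem HK_iW : ∀ i ∈ HK_T, ∀ z ∈ WK, ∀ t : ℝ, z + t • bv i ∈ WK := fun i hi z hz t => by
  have h : (1, 0) ≠ i ∧ (1, 1) ≠ i := by revert i; decide
  simpa only [WK, cc, mem_ofPred_eq, HT_bv h.1, HT_bv h.2] using hz

theorem HK_iS : ∀ i ∈ HK_S, ∀ z ∈ WK, ∀ t : ℝ, z + t • bv i ∈ WK :=
  fun i hi => HK_iW i (by revert i; decide)

theorem HK_iV : ∀ i ∈ HK_T, ∀ z ∈ HK_V, ∀ t : ℝ, z + t • bv i ∈ HK_V := fun i hi z hz t =>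
  ⟨HK_iW i hi z hz.1 t, by
    rw [mem_ofPred_eq, HT_bv (by revert i; decide)]
    exact hz.2⟩

theorem HK_dW : Dom HK_S WK 0 :=
  Dom.of_convex isOpen_WK HK_cvx (by simp [WK, cc_eq]) HK_iS

theorem HK_dV : Dom HK_T HK_V (bv (0, 0)) :=
  Dom.of_convex HK_oV (HK_cvx.inter ((convex_Ioi 0).linear_preimage (dc (0, 0)).toLinearMap))
    ⟨by simp [WK, cc_eq, bv], by simp [bv]⟩ HK_iV

theorem HK_pm : MapsTo pol HK_V HK_U := fun _ hz =>
  ⟨hz.1, mul_ne_zero (ofReal_ne_zero.2 (ne_of_gt hz.2)) (ee_ne_zero _)⟩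

theorem HK_pc {i : Cx} (hi : i ∈ HK_S) (z : E6) : pol (z + bv i) = pol z + bv i := by
  have h := HK_xs' hi z
  refine ext4 ?_ rfl rfl
  rw [HK_xs' hi, pol, pol, (HK_xv h).2.2.2, show (z + bv i) (0, 0) = z (0, 0) from congrFun h 0,
    show (z + bv i) (0, 1) = z (0, 1) from congrFun h 1]
  rfl

theorem HK_p1 (z : E6) : pol (z + bv (0, 1)) = pol z := by
  simp [pol, cc, bv, ee_add, show ee 1 = 1 by simpa using ee_int 1]

theorem HK_pB (hz : z ∈ HK_V) : pol (HK_B z) = HK_A (pol z) := by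
  have h : (z (0, 0) : ℂ) ≠ 0 := ofReal_ne_zero.2 (ne_of_gt hz.2)
  refine extc ?_ rfl rfl
  rw [HK_c0 (HK_pm hz).2]
  simp only [pol, HK_B, cc_mkc0, mkc_00, mkc_01, ee_add, ee_half, map_mul, normSq_ee,
    normSq_ofReal]
  push_cast
  field_simp

theorem HK_Bm : MapsTo HK_B HK_V HK_V := fun z hz =>
  ⟨(HK_c1 (HK_pm hz).2).trans_lt hz.1, (inv_pos (a := z (0, 0))).2 hz.2⟩

theorem HK_Bs (hz : z ∈ HK_V) : ContDiffAt ℝ ∞ HK_B z := by
  have h := fun i => (contDiff_apply ℝ ℝ i).contDiffAt (x := z) (n := ∞)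
  exact contDiffAt_mkc (contDiffAt_cmk ((h _).inv (ne_of_gt hz.2)) ((h _).add contDiffAt_const))
    ((contDiff_cc 1).contDiffAt.comp z ((HK_sm (HK_pm hz).2).comp z contDiff_pol.contDiffAt))
    (contDiffAt_cmk ((h _).add contDiffAt_const) (h _))

theorem HK_BB (hz : z ∈ HK_V) :
    HK_B (HK_B z) = z + ∑ i ∈ HK_T, ((if i = (2, 1) then 0 else 1 : ℤ) : ℝ) • bv i := by
  have e : cc 1 (HK_A (pol (HK_B z))) = cc 1 z := by
    rw [HK_pB hz, HK_AA (HK_pm hz), (HK_xv (HK_xs' (by decide) _)).2.2.2]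
    rfl
  rw [HK_B, e]
  apply ext6 <;> rw [Pi.add_apply, G6_sum] <;> simp [HK_B, HK_T, cc, add_assoc, ← two_mul]

theorem HK_Bc : ∀ i ∈ HK_T, ∀ z ∈ HK_V, HK_B (z + bv i) = HK_B z + bv i := fun i hi z _ => by
  have h : (0, 0) ≠ i ∧ (1, 0) ≠ i ∧ (1, 1) ≠ i := by revert i; decide
  have e : cc 1 (HK_A (pol (z + bv i))) = cc 1 (HK_A (pol z)) := by
    rcases Finset.mem_insert.1 hi with rfl | hi
    · rw [HK_p1]
    · rw [HK_pc hi, HK_Ac hi, (HK_xv (HK_xs' hi _)).2.2.2]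
  rw [HK_B, e]
  apply ext6 <;> simp -implicitDefEqProofs [HK_B, bv, h, add_right_comm]

theorem HK_BL (z : E6) : G6_L HK_T (HK_B z) = G6_L HK_T z + mk 0 (1 / 2) 0 0 (1 / 2) 0 := by
  rw [G6_L_apply, G6_L_apply]
  apply ext6 <;> simp [slice, HK_T, HK_B]

theorem HK_desc {δ : Fm E6 (k + 1)} (hδ : Cl δ HK_U)
    (hp : ∀ i ∈ HK_S, ∀ z ∈ HK_U, δ (z + bv i) = δ z) (ha : ∀ z ∈ HK_U, pb HK_A δ z = -δ z) :
    ∃ g : Fm E6 k, IsD g δ HK_U ∧ (∀ i ∈ HK_S, ∀ z ∈ HK_U, g (z + bv i) = g z) ∧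
      ∀ z ∈ HK_U, pb HK_A g z = -g z := by
  have sq : ∀ {m : ℕ} (β : Fm E6 m), ∀ z ∈ HK_V, pb HK_B (pb pol β) z = pb pol (pb HK_A β) z :=
    fun β z hz => HK_sq (HK_Bs hz) contDiff_pol.contDiffAt contDiff_pol.contDiffAt
      (HK_sm (HK_pm hz).2) (mem_of_superset (HK_oV.mem_nhds hz) fun _ => HK_pB) β
  obtain ⟨g, h1, h2, h3⟩ := HK_anti HK_dV (fun z hz => (HK_Bs hz).contDiffWithinAt) HK_Bm HK_Bc
    HK_BL (fun _ => HK_BB) (hδ.pb HK_oV HK_oU contDiff_pol.contDiffOn HK_pm)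
    (fun i hi z hz => by
      rcases Finset.mem_insert.1 hi with rfl | hi
      · simpa only [add_zero] using HK_per (v := 0)
          (.of_forall fun y => (HK_p1 y).trans (add_zero _).symm) δ
      · rw [HK_per (.of_forall (HK_pc hi))]
        exact pb_congr' (hp i hi _ (HK_pm hz)))
    fun z hz => (sq δ z hz).trans (pb_congr' (β := -δ) (ha _ (HK_pm hz)))
  have hP : Par (M := E6) pol HK_V := par_pol.mono HK_oV inter_subset_right
  have hi : ∀ i ∈ ({(0, 1)} : Finset Cx), ∀ z ∈ HK_V, ∀ t : ℝ, z + t • bv i ∈ HK_V :=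
    fun i hi => HK_iV i (by revert i; decide)
  obtain ⟨g', h4⟩ := Deck.desc_per (deck_of hP hi (fun i hi z _ => by
      rw [Finset.mem_singleton.1 hi, HK_p1]) fun x hx y hy e i => by
      obtain ⟨n, rfl⟩ := (pol_eq_iff hx.2 hy.2).1 e
      split_ifs with h
      · exact ⟨n, by simp [Finset.mem_singleton.1 h, bv]⟩
      · exact HT_bv (mt Finset.mem_singleton.2 h) _ _) hi
    fun i hi => h2 i (by revert i; decide)
  have su : ∀ w ∈ HK_U, ∃ z ∈ HK_V, pol z = w := fun w hw => by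
    obtain ⟨z, hz, rfl⟩ := pol_surj hw.2
    exact ⟨z, ⟨hw.1, hz⟩, rfl⟩
  have h5 := IsDO.of_par (w := δ) hP (G5_congr h1 HK_oV h4 fun z _ => by rw [pl_eq_pb]) _ _
    (par_of_inv (f := fun z => z) (g := fun z => z) HK_oU (fun _ _ => contDiffAt_id)
      (fun _ _ => contDiffAt_id) fun _ _ => rfl) su
  rw [pl_eq_pb, pl_eq_pb, pb_id, pb_id] at h5
  rw [pl_eq_pb] at h4
  refine ⟨g', h5, fun i hi w hw => ?_, fun w hw => ?_⟩ <;> obtain ⟨z, hz, rfl⟩ := su w hw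
  · have hi' : i ∈ HK_T := Finset.mem_insert_of_mem hi
    refine fo_ext (w := fun y => g' (y + bv i)) hP hz ?_
    rw [pl_eq_pb, pl_eq_pb, ← HK_per (.of_forall (HK_pc hi)), h4 z hz,
      h4 _ (by simpa using HK_iV i hi' z hz 1), h2 i hi' z hz]
  · refine fo_ext (w' := -g') hP hz ?_
    rw [pl_neg, pl_eq_pb, pl_eq_pb, ← sq g' z hz, pb_congr' (h4 _ (HK_Bm hz)), h3 z hz,
      Pi.neg_apply, h4 z hz]

/-- The chart is the quotient by the integer translations and the antipodal map. -/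
structure HK_C (ψ : E6 → M) : Prop where
  par : Par ψ WK
  per : ∀ i ∈ HK_S, ∀ z ∈ WK, ψ (z + bv i) = ψ z
  inv : ∀ z ∈ HK_U, ψ (HK_A z) = ψ z
  orb : ∀ x ∈ WK, ∀ y ∈ WK, ψ x = ψ y → ∃ f ∈ TZ HK_S, f x = y ∨ x ∈ HK_U ∧ f (HK_A x) = y

/-- The cut-off function. -/
noncomputable def HK_x (z : E6) : ℝ := (1 + og (qK z 2)) / 2

theorem HK_x0 (h : cc 0 z = 0) : ∀ᶠ y in 𝓝 z, HK_x y = 0 := by
  have h1 : qK z 2 < -1 / 16 := by
    have := not_iff_not.1 HK_ne |>.1 h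
    rw [Pi.neg_apply] at this
    linarith only [this]
  refine (((continuous_apply 2).comp contDiff_qK.continuous).continuousAt.eventually
    (gt_mem_nhds h1)).mono fun y hy => ?_
  have h2 : qK y 2 < -1 / 16 := hy
  rw [HK_x, ← neg_neg (qK y 2), og_neg, og_one (by linarith only [h2]), add_neg_cancel, zero_div]

theorem HK_core {ψ : E6 → M} (h : HK_C ψ) {w : Fo M (k + 2)} {β : Fm E6 (k + 1)}
    (hβ : IsD β (pl ψ w) WK) (hp : ∀ i ∈ HK_S, ∀ z ∈ WK, β (z + bv i) = β z) :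
    ExO w (ψ '' WK) := by
  have tA : ∀ x ∈ HK_U, Tr ψ ψ HK_A x := fun x hx =>
    ⟨HK_sm hx.2, mem_of_superset (HK_oU.mem_nhds hx) h.inv⟩
  have h1 := hβ.pb HK_oU isOpen_WK (fun z hz => (HK_sm hz.2).contDiffWithinAt)
    fun z hz => (HK_mem hz).1
  obtain ⟨g, g1, g2, g3⟩ := HK_desc (δ := β - pb HK_A β)
    (FMV_sub HK_oU (α'' := fun _ => 0) ⟨hβ.1.mono inter_subset_left, fun z hz => hβ.2 z hz.1⟩ h1
      fun z hz => sub_eq_zero.2 ((tA z hz).pl (h.par.sm _ (HK_mem hz).1) w))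
    (fun i hi z hz => by
      rw [Pi.sub_apply, Pi.sub_apply, hp i hi z hz.1, HK_per (.of_forall (HK_Ac hi)),
        pb_congr' (hp i hi _ (HK_mem hz).1)])
    fun z hz => by
      rw [pb_sub, Pi.sub_apply, Pi.sub_apply, neg_sub, HK_two (HK_sm hz.2) (HK_sm (HK_mem hz).2)
        (mem_of_superset (HK_oU.mem_nhds hz) fun _ => HK_AA), hp _ (by decide) z hz.1]
  have sx : ContDiff ℝ ∞ HK_x :=
    (contDiff_const.add (contDiff_og.comp (contDiff_pi.1 contDiff_qK 2))).div_const _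
  set γ : Fm E6 k := fun z => HK_x z • g z with hγ
  have s1 : Sm γ WK := FMV_cut isOpen_WK (isOpen_ne_fun (continuous_cc 0) continuous_const)
    sx.contDiffOn (fun z _ hz => HK_x0 (not_not.1 hz)) g1.1
  have p1 : ∀ i ∈ HK_S, ∀ z ∈ WK, γ (z + bv i) = γ z := fun i hi z hz => by
    have e : HK_x (z + bv i) = HK_x z := by rw [HK_x, (HK_xv (HK_xs' hi z)).1, HK_x]
    simp only [hγ, e]
    by_cases h0 : cc 0 z = 0
    · rw [(HK_x0 h0).self_of_nhds, zero_smul, zero_smul]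
    · rw [g2 i hi z ⟨hz, h0⟩]
  have p2 : ∀ i ∈ HK_S, ∀ z ∈ WK, (β - extDeriv γ) (z + bv i) = (β - extDeriv γ) z :=
    fun i hi z hz => by
    rw [Pi.sub_apply, Pi.sub_apply, hp i hi z hz, ← EventuallyEq.extDeriv_eq
      (mem_of_superset (isOpen_WK.mem_nhds hz) (p1 i hi) : (fun y => γ (y + bv i)) =ᶠ[_] γ),
      extDeriv, extDeriv, fderiv_comp_add_right]
  have a1 : ∀ z ∈ HK_U, pb HK_A (β - extDeriv γ) z = (β - extDeriv γ) z := fun z hz => by
    have e : pb HK_A γ =ᶠ[𝓝 z] γ - g := mem_of_superset (HK_oU.mem_nhds hz) fun y hy => by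
      have e1 : HK_x (HK_A y) = 1 - HK_x y := by
        rw [HK_x, HK_q hy.2, Pi.neg_apply, og_neg, HK_x]
        ring
      change pb HK_A γ y = HK_x y • g y - g y
      rw [hγ, pb_fun_smul, g3 y hy, e1]
      module
    rw [pb_sub, Pi.sub_apply, Pi.sub_apply, ← extDeriv_pb (s1.diffAt isOpen_WK (HK_mem hz).1)
      (HK_sm hz.2), e.extDeriv_eq, extDeriv_sub' (s1.diffAt isOpen_WK hz.1) (g1.1.diffAt HK_oU hz),
      g1.2 z hz, Pi.sub_apply]
    abel
  have c1 : ∀ f ∈ TZ HK_S, ∀ x ∈ WK, Cmp ψ (β - extDeriv γ) x ψ (β - extDeriv γ) (f x) :=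
    fun f hf x hx => ⟨f, by
      obtain ⟨n, rfl⟩ := hf
      exact ⟨contDiffAt_id.add contDiffAt_const, mem_of_superset (isOpen_WK.mem_nhds hx)
        fun _ => per_int HK_iS h.per n⟩, rfl, HM1_inv HK_iS p2 f hf x hx⟩
  obtain ⟨b, hb⟩ := desc (ι := Unit) (q := fun _ => ψ) (fun _ => h.par) (fun _ => β - extDeriv γ)
    fun _ _ x hx y hy e => by
      obtain ⟨f, hf, rfl | ⟨hx', rfl⟩⟩ := h.orb x hx y hy e
      · exact c1 f hf x hx
      · exact Cmp.trans ⟨_, tA x hx', rfl, a1 x hx'⟩ (c1 f hf _ (HK_mem hx').1)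
  exact ⟨b, IsDO.of_par h.par (G5_congr (FMV_sub isOpen_WK (α' := fun _ => 0) hβ
    (IsD.cl ⟨s1, fun _ _ => rfl⟩ isOpen_WK) fun _ _ => sub_zero _) isOpen_WK (hb ())
    fun _ _ => rfl)⟩

theorem HK_tor {ψ : E6 → M} (h : HK_C ψ) {w : Fo M (k + 1)} (hw : ClO w (ψ '' WK)) :
    ∃ (c : Alt E6 (k + 1)) (β : Fm E6 k), Hor HK_S c ∧ IsD β (fun z => pl ψ w z - c) WK ∧
      ∀ i ∈ HK_S, ∀ z ∈ WK, β (z + bv i) = β z :=
  torusK HK_dW (hw ψ WK h.par (mapsTo_image _ _)) fun i hi z hz =>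
    (G6_trans _ _ _).symm.trans (Tr.pl ⟨contDiffAt_id.add contDiffAt_const, mem_of_superset
      (isOpen_WK.mem_nhds hz) (h.per i hi)⟩ (h.par.sm _ (by simpa using HK_iS i hi z hz 1)) w).symm

end

theorem HK_ML (σ : ℝ) (z : E6) : ML 1 σ z = mk4 (xv z) (σ * z (2, 0)) (z (2, 1)) := by
  rw [ML_apply, Matrix.one_mulVec]

theorem HK_mx (σ : ℝ) (z : E6) : xv (ML 1 σ z) = xv z := by rw [HK_ML, xv_mk4]

theorem HK_MM {σ σ' : ℝ} (h : σ * σ' = 1) (z : E6) : ML 1 σ (ML 1 σ' z) = z :=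
  ext4 ((HK_mx _ _).trans (HK_mx _ _)) (by
    change σ * (σ' * z (2, 0)) = _
    rw [← mul_assoc, h, one_mul]) rfl

theorem HK_mw (σ : ℝ) {z : E6} : ML 1 σ z ∈ WK ↔ z ∈ WK := by
  simp only [WK, mem_ofPred_eq, (HK_xv (HK_mx σ z)).2.2.2]

theorem HK_ev {x y : E6} {m n : ℤ} (h1 : y (2, 0) = x (2, 0) + m) (h2 : y (2, 1) = x (2, 1) + n)
    (h3 : qK y = qK x) (h4 : pK y = pK x) : ∃ f ∈ TZ HK_S, f x = y := by
  refine ⟨_, ⟨fun i => if i = (2, 0) then m else n, rfl⟩, ?_⟩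
  have e := HK_xv (per_int (U := univ) (fun _ _ _ _ _ => trivial) (fun i hi z _ => HK_xs' hi z)
    (fun i => if i = (2, 0) then m else n) (mem_univ x))
  refine K_ext (e.1.trans h3.symm) (e.2.1.trans h4.symm) ?_ ?_ <;>
    rw [Pi.add_apply, G6_sum] <;> simp [HK_S, h1, h2]

theorem HK_chart (h : WM D q η) (b : Bool) (j : J4) : HK_C (fun z => q.K b j (ML 1 2 z)) ∧
    (fun z => q.K b j (ML 1 2 z)) '' WK = q.K b j '' WK := by
  have e : ∀ x ∈ WK, ∀ y ∈ WK, q.K b j (ML 1 2 x) = q.K b j (ML 1 2 y) ↔ ∃ n n' : ℤ,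
      2 * y (2, 0) = 2 * x (2, 0) + n ∧ y (2, 1) = x (2, 1) + n' ∧
      qK y = ((-1 : ℝ) ^ n) • qK x ∧ pK y = ((-1 : ℝ) ^ n) • pK x := fun x hx y hy => by
    rw [h.eK b j b j _ ((HK_mw 2).2 hx) _ ((HK_mw 2).2 hy), RK, (HK_xv (HK_mx 2 x)).1,
      (HK_xv (HK_mx 2 y)).1, (HK_xv (HK_mx 2 x)).2.1, (HK_xv (HK_mx 2 y)).2.1]
    exact ⟨fun e => e.2.2, fun e => ⟨rfl, rfl, e⟩⟩
  refine ⟨⟨((h.pK b j).comp (ML 1 2).contDiff (ML 1 (1 / 2)).contDiff (HK_MM (by norm_num))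
    (HK_MM (by norm_num))).mono isOpen_WK fun z => (HK_mw 2).2, fun i hi z hz => ?_,
    fun z hz => ?_, fun x hx y hy e1 => ?_⟩, ?_⟩
  · have e1 := HK_xv (HK_xs' hi z)
    refine ((e z hz _ (by simpa using HK_iS i hi z hz 1)).2 ?_).symm
    rw [e1.1, e1.2.1]
    rcases Finset.mem_insert.1 hi with rfl | hi
    · exact ⟨2, 0, by simp [bv, mul_add], by simp [bv], by norm_num, by norm_num⟩
    · rw [Finset.mem_singleton.1 hi]
      exact ⟨0, 1, by simp [bv], by simp [bv], by simp, by simp⟩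
  · exact ((e z hz.1 _ (HK_mem hz).1).2 ⟨1, 0, by simp [HK_A, toK_20, mul_add],
      by simp [HK_A, toK_21], by simp [HK_q hz.2], by simp [HK_p hz.2]⟩).symm
  · obtain ⟨n, n', h1, h2, h3, h4⟩ := (e x hx y hy).1 e1
    obtain ⟨m, rfl | rfl⟩ := Int.even_or_odd' n
    · rw [Even.neg_one_zpow (even_two_mul _), one_smul] at h3 h4
      push_cast at h1
      exact (HK_ev (m := m) (by linarith only [h1]) h2 h3 h4).imp fun f hf => ⟨hf.1, Or.inl hf.2⟩
    · rw [Odd.neg_one_zpow (odd_two_mul_add_one _), neg_one_smul] at h3 h4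
      push_cast at h1
      have h0 : cc 0 x ≠ 0 := HK_ne.2 (h3 ▸ (ts_K y).ne)
      exact (HK_ev (x := HK_A x) (m := m) (by rw [HK_A, toK_20]; linarith only [h1]) h2
        (h3.trans (HK_q h0).symm) (h4.trans (HK_p h0).symm)).imp
          fun f hf => ⟨hf.1, Or.inr ⟨⟨hx, h0⟩, hf.2⟩⟩
  · refine Subset.antisymm ?_ ?_ <;> rintro _ ⟨z, hz, rfl⟩
    · exact ⟨_, (HK_mw 2).2 hz, rfl⟩
    · exact ⟨_, (HK_mw (1 / 2)).2 hz, congrArg (q.K b j) (HK_MM (by norm_num) z)⟩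

theorem WM.h3K (h : WM D q η) (b : Bool) (j : J4) {w : Fo M 3} (hw : ClO w (q.K b j '' WK)) :
    ExO w (q.K b j '' WK) := by
  obtain ⟨h1, e⟩ := HK_chart h b j
  rw [← e] at hw ⊢
  obtain ⟨c, β, h2, h3, h4⟩ := HK_tor h1 hw
  refine HK_core h1 ?_ h4
  simpa only [h2.of_card (by decide), sub_zero] using h3

/-- The periodic part of the primitive. -/
noncomputable def HK_l : F1 := fun z =>
  (2 * Real.pi * nT z)⁻¹ • (z (1, 0) • dc (0, 0) + z (1, 1) • dc (0, 1))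

theorem HK_ls : ContDiff ℝ ∞ HK_l :=
  ((contDiff_const.mul contDiff_nT).inv fun z =>
    mul_ne_zero Real.two_pi_pos.ne' (nT_pos z).ne').smul (by fun_prop)

theorem HK_eta (d : HD) (z : E6) : pb (ML 1 2) (d1 d.lamK) z =
    (2 * d.a) • wedge (dc (2, 0)) (dc (2, 1)) + d1 HK_l z := by
  have s : ∀ a : ℝ, ContDiff ℝ ∞ fun z : E6 => a * z (2, 0) := fun a => by fun_prop
  have e : pb1 (ML 1 2) d.lamK = fun z => (2 * d.a * z (2, 0)) • dc (2, 1) + HK_l z := by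
    funext z
    ext v : 1
    rw [pb1_apply, ContinuousLinearMap.fderiv, HK_ML, HK_ML]
    simp [HD.lamK, HK_l, dc_apply, Ka_nT, mul_assoc, mul_left_comm]
  have s' : ∀ a : ℝ, ContDiff ℝ ∞ fun z : E6 => (a * z (2, 0)) • dc (2, 1) := fun a =>
    (s a).smul contDiff_const
  rw [pb_d1 (l := d.lamK) (ML 1 2).contDiff.contDiffAt ((s' _).add HK_ls).contDiffAt, e,
    d1_add (s' _).contDiffAt HK_ls.contDiffAt,
    d1_smul (s _).contDiffAt contDiffAt_const, d1_const, smul_zero, add_zero,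
    show fderiv ℝ (fun z : E6 => 2 * d.a * z (2, 0)) z = _ from
      ((dc (2, 0)).hasFDerivAt.const_mul (2 * d.a)).fderiv]
  congr 1
  ext v
  simp [wedge_apply]
  ring

theorem WM.h2K (h : WM D q η) (b : Bool) (j : J4) {w : Fo M 2} (hw : ClO w (q.K b j '' WK)) :
    ∃ t : ℝ, ExO (w - t • η) (q.K b j '' WK) := by
  obtain ⟨h1, e⟩ := HK_chart h b j
  rw [← e] at hw ⊢
  obtain ⟨c, β, h2, h3, h4⟩ := HK_tor h1 hw
  have ha := (h.ok.ok b).ha.ne'
  set t := c ![bv (2, 0), bv (2, 1)] / (2 * (D.H b).a) with ht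
  have h5 : IsD (t • fun z => alt1 (HK_l z)) (fun z => t • d1 HK_l z) WK :=
    ⟨ContDiffOn.const_smul t (contDiff_alt1.comp HK_ls).contDiffOn, fun z _ => extDeriv_smul _ _⟩
  refine ⟨t, HK_core h1 (FMV_sub isOpen_WK h3 h5 fun z hz => ?_) fun i hi z hz => ?_⟩
  · have hz' := (HK_mw 2).2 hz
    rw [pl_sub, pl_smul, Pi.sub_apply, Pi.smul_apply,
      pl_comp ((h.pK b j).sm _ hz') (ML 1 2).contDiff.contDiffAt η, pb_congr' (h.oK b j _ hz'),
      HK_eta, smul_add, smul_smul, ht, div_mul_cancel₀ _ (mul_ne_zero two_ne_zero ha),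
      ← Hor.pair (by decide) h2, sub_sub]
  · have e1 := HK_xs' hi z
    have e2 : HK_l (z + bv i) = HK_l z := by
      rw [HK_l, HK_l, nT, nT, (HK_xv e1).2.2.1, show (z + bv i) (1, 0) = z (1, 0) from congrFun e1 2,
        show (z + bv i) (1, 1) = z (1, 1) from congrFun e1 3]
    simp only [Pi.sub_apply, Pi.smul_apply, h4 i hi z hz, e2]

theorem WM.exists_st (h : WM D q η) (b : Bool) (j : J4) (i : Fin 2) : ∃ u : Fo M 1,
    ClO u (q.K b j '' WK) ∧ ∀ z ∈ WK, pl (q.K b j) u z = dfn (fun y => y (2, i)) z := by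
  obtain ⟨u, h1, h2⟩ := dlog (ι := Unit) (q := fun _ => q.K b j) (fun _ => h.pK b j)
    (l := fun _ y => y (2, i)) (fun _ => (contDiff_apply ℝ ℝ _).contDiffOn)
    fun _ _ x hx y hy e => by
      obtain ⟨-, -, n, n', e1, e2, -⟩ := (h.eK b j b j x hx y hy).1 e
      fin_cases i
      exacts [⟨n, sub_eq_iff_eq_add'.2 e1⟩, ⟨n', sub_eq_iff_eq_add'.2 e2⟩]
  exact ⟨u, iUnion_const (ι := Unit) (q.K b j '' WK) ▸ h1, h2 ()⟩


end Pool.Agent.Work.MP_bf98aa_gt.B3
end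

-- merged part: Pool.Agent.Work.MP_bf98aa_gt.B3.HY2
section
/-!
Invariant cohomology of the neighbourhood of a singular sphere.
PLAN. `HY2_glue`: let `dg b = e b` on `Yo`, `pb iof (g b) = g b`, `xU g = 0`, `xL g = 0`; then `e` is exact. `δ = pb (pU true) (g true) - pb (pU false) (g false)` is closed on the convex set `UU`, `δ = dF` (`RA_convex`, `exists_fn0`);
`F ∘ τ - F` is a constant `c` for `τ p = (-z, m, φ + 1/2)`, `2 c = xU g = 0`; `F` descends along `pU b` to `F b` on `pU b '' UU` (`Deck.desc_per` for `M = E6`), `iof`-invariant. Similarly on `LO` (`τ' p = (-z, ν, φ)` has a fixed point).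
`g' true = g true - d (stm (tF - 1) • F true) - d ((1 - stm (nuF + M)) • F' true)`, `g' false = g false + d ((1 - stm (1 - tF)) • F false) + d (stm (-(nuF + M)) • F' false)`; the products are smooth on `Yo` (`FMV_cut`), the upper ones
vanish on the lower overlap and conversely; `invY_iff`. `xU`, `xL` are linear on smooth pairs, vanish on invariant pairs (`invY_iff`) and on pairs of closed forms (exact on the star-shaped `Yo`: `RA_star`; the loops close up).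
`h1Y`: potentials `f b`; differences are constant on `UU` and `LO`; normalise with a constant and a multiple of `stm`.
-/

set_option autoImplicit false

open scoped Manifold ContDiff Topology Matrix ComplexConjugate
open Set Complex Filter

namespace Pool.Agent.Work.MP_bf98aa_gt.B3

open Pool.Agent.Work.MP_bf98aa_gt.Th Pool.Agent.Work.MP_bf98aa_gt.Cy

variable {D : GD} {j : J4} {k : ℕ} {b : Bool} {p : E6}

/-- An overlap of the two regions, in polar coordinates. -/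
structure HY2_Ov (Y : Bool → Set E6) (U : Set E6) (z₀ : E6) (P : Bool → E6 → E6)
    (s : Bool → E6 → ℝ) : Prop where
  opn : ∀ b, IsOpen (Y b)
  dom : Dom {(2, 1)} U z₀
  cvx : Convex ℝ U
  deck : ∀ b, Deck (M := E6) (P b) U (TZ {(2, 1)})
  sub : ∀ b, MapsTo (P b) U (Y b)
  io : ∀ b, MapsTo iof (Y b) (Y b)
  sm : ∀ b, ContDiff ℝ ∞ (s b)
  sio : ∀ b y, s b (iof y) = s b y
  cov : ∀ b, ∀ y ∈ Y b, -1 / 16 ≤ s b y → y ∈ P b '' U
  opp : ∀ p ∈ U, s false (P false p) = -s true (P true p)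
  tau : ∃ τ, ContDiff ℝ ∞ τ ∧ MapsTo τ U U ∧ ∀ b, ∀ p ∈ U, P b (τ p) = iof (P b p)

/-- The difference on the overlap. -/
noncomputable def HY2_d (P : Bool → E6 → E6) (g : Bool → Fm E6 k) : Fm E6 k :=
  pb (P true) (g true) - pb (P false) (g false)

theorem HY2_lin (P : Bool → E6 → E6) (g g' : Bool → Fm E6 k) (t : ℝ) :
    HY2_d P (g + t • g') = HY2_d P g + t • HY2_d P g' := by
  simp only [HY2_d, Pi.add_apply, Pi.smul_apply, pb_add, pb_smul]
  module

theorem HY2_ii (z : E6) : iof (iof z) = z := by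
  apply ext6 <;> simp [iof, cc]

theorem HY2_cont {U : Set E6} {δ : Fm E6 1} (h : Sm δ U) {z a : E6} (hz : ∀ t : ℝ, z + t • a ∈ U) :
    IntervalIntegrable (fun t : ℝ => δ (z + t • a) ![a]) MeasureTheory.volume 0 1 :=
  ((HM1_app h ![a]).continuousOn.comp_continuous (by fun_prop) hz).intervalIntegrable _ _

theorem HY2_ftc {U : Set E6} (hU : IsOpen U) {F : Fm E6 0} {δ : Fm E6 1} (h : IsD F δ U) {z a : E6}
    (hz : ∀ t : ℝ, z + t • a ∈ U) : per1 δ z a = (F (z + a) - F z) ![] := by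
  obtain ⟨r, rfl⟩ := exists_fn0 F
  refine (intervalIntegral.integral_eq_sub_of_hasDerivAt (f := fun t : ℝ => r (z + t • a))
    (fun t _ => ?_) (HY2_cont (h.cl hU).1 hz)).trans (by simp [fn0, G4_c])
  have := (((sm_fn0.1 h.1).contDiffAt (hU.mem_nhds (hz t))).differentiableAt
    (by simp)).hasFDerivAt.comp_hasDerivAt t (((hasDerivAt_id t).smul_const a).const_add z)
  rw [← h.2 _ (hz t), extDeriv_fn0, dfn, alt1_apply]
  simpa [Function.comp_def] using this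

theorem HY2_isD_smul {U : Set E6} {β : Fm E6 k} {α : Fm E6 (k + 1)} (h : IsD β α U) (t : ℝ) :
    IsD (t • β) (t • α) U :=
  ⟨ContDiffOn.const_smul t h.1, fun x hx => by rw [extDeriv_smul, h.2 x hx, Pi.smul_apply]⟩

theorem HY2_isD_add {U : Set E6} (hU : IsOpen U) {β β' : Fm E6 k} {α α' : Fm E6 (k + 1)}
    (h : IsD β α U) (h' : IsD β' α' U) (t : ℝ) : IsD (β + t • β') (α + t • α') U := by
  have := HY2_isD_smul h' t
  exact ⟨h.1.add this.1, fun x hx => by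
    rw [extDeriv_add (h.1.diffAt hU hx) (this.1.diffAt hU hx), h.2 x hx, this.2 x hx]; rfl⟩

theorem HY2_prim {d : HD} (h : d.Ok) {e : Fm E6 (k + 1)} (he : Cl e d.Yo)
    (hi : ∀ y ∈ d.Yo, pb iof e y = e y) :
    ∃ g : Fm E6 k, IsD g e d.Yo ∧ ∀ y ∈ d.Yo, pb iof g y = g y := by
  obtain ⟨c, β, h1, h2, -⟩ := torusK h.domY he (by simp)
  obtain rfl := h1.of_card (by simp)
  have hd := contDiff_iof.differentiable (by simp)
  refine ⟨(1 / 2 : ℝ) • (β + (1 : ℝ) • pb iof β), G5_congr (HY2_isD_smul (HY2_isD_add d.isOpen_Yo h2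
    (h2.pb d.isOpen_Yo d.isOpen_Yo contDiff_iof.contDiffOn fun _ => HD.iof_Yo) 1) (1 / 2))
    d.isOpen_Yo (fun _ _ => rfl) fun x hx => ?_, fun y _ => ?_⟩
  · simp only [sub_zero, Pi.smul_apply, Pi.add_apply]
    rw [hi x hx]
    module
  · rw [one_smul, pb_smul, pb_add, Pi.smul_apply, Pi.add_apply, ← pb_comp β (hd _) (hd _)]
    simp only [HY2_ii, pb_id, Pi.smul_apply, Pi.add_apply, add_comm]

theorem HY2_stm : ContDiff ℝ ∞ stm := Real.smoothTransition.contDiff.comp (by fun_prop)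

theorem HY2_stm0 {r : ℝ} (h : r ≤ -1 / 32) : stm r = 0 ∧ stm (-r) = 1 :=
  ⟨Real.smoothTransition.zero_of_nonpos (by linarith only [h]),
    Real.smoothTransition.one_of_one_le (by linarith only [h])⟩

namespace HY2_Ov

variable {Y : Bool → Set E6} {U : Set E6} {z₀ : E6} {P : Bool → E6 → E6} {s : Bool → E6 → ℝ}
  (O : HY2_Ov Y U z₀ P s)

include O

theorem smP (b : Bool) (hp : p ∈ U) : ContDiffAt ℝ ∞ (P b) p :=
  contMDiffAt_iff_contDiffAt.1 ((O.deck b).par.sm p hp)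

theorem isD {g : Bool → Fm E6 k} {e : Bool → Fm E6 (k + 1)} (h : ∀ b, IsD (g b) (e b) (Y b)) :
    IsD (HY2_d P g) (HY2_d P e) U :=
  have a := fun b => (h b).pb O.dom.opn (O.opn b) (fun _ hp => (O.smP b hp).contDiffWithinAt) (O.sub b)
  FMV_sub O.dom.opn (a true) (a false) fun _ _ => rfl

theorem line (hp : p ∈ U) (t : ℝ) : p + t • bv (2, 1) ∈ U :=
  O.dom.inv _ (Finset.mem_singleton_self _) _ hp t

theorem per (b : Bool) (hp : p ∈ U) : P b (p + bv (2, 1)) = P b p := by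
  simpa using (O.deck b).eq _ ⟨fun _ => 1, rfl⟩ p hp

theorem add {g g' : Bool → Fm E6 1} {e e' : Bool → Fm E6 2} (h : ∀ b, IsD (g b) (e b) (Y b))
    (h' : ∀ b, IsD (g' b) (e' b) (Y b)) (t : ℝ) : per1 (HY2_d P (g + t • g')) z₀ (bv (2, 1)) =
      per1 (HY2_d P g) z₀ (bv (2, 1)) + t * per1 (HY2_d P g') z₀ (bv (2, 1)) := by
  have l := O.line O.dom.mem
  rw [HY2_lin, per1, per1, per1, ← intervalIntegral.integral_const_mul,
    ← intervalIntegral.integral_add (HY2_cont (O.isD h).1 l)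
      ((HY2_cont (O.isD h').1 l).const_mul t)]
  rfl

theorem ex {f : Bool → Fm E6 0} {g : Bool → Fm E6 1} (h : ∀ b, IsD (f b) (g b) (Y b)) :
    per1 (HY2_d P g) z₀ (bv (2, 1)) = 0 := by
  rw [HY2_ftc O.dom.opn (O.isD h) (O.line O.dom.mem)]
  simp [HY2_d, pb_deg_zero, O.per _ O.dom.mem]

theorem jump {g : Bool → Fm E6 1} {F : Fm E6 0} (hF : IsD F (HY2_d P g) U) {T ι : E6 → E6}
    (hT : ContDiff ℝ ∞ T) (hι : ContDiff ℝ ∞ ι) (hm : MapsTo T U U)
    (he : ∀ b, ∀ p ∈ U, P b (T p) = ι (P b p)) (hi : ∀ b, ∀ y ∈ Y b, pb ι (g b) y = g b y)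
    (hp : p ∈ U) : F (T p) - F p = F (T z₀) - F z₀ := by
  have a : ∀ b, ∀ z ∈ U, pb T (pb (P b) (g b)) z = pb (P b) (g b) z := fun b z hz => by
    rw [← pb_comp _ (hT.differentiable (by simp) z) ((O.smP b (hm hz)).differentiableAt (by simp)),
      pb_congr _ (eventually_of_mem (O.dom.opn.mem_nhds hz) (he b)),
      pb_comp _ ((O.smP b hz).differentiableAt (by simp)) (hι.differentiable (by simp) _),
      pb_congr' (hi b _ (O.sub b hz))]
  have := Cl.const (FMV_sub O.dom.opn (hF.pb O.dom.opn O.dom.opn hT.contDiffOn hm) hF (α'' := 0)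
    fun z hz => by rw [HY2_d, pb_sub, Pi.sub_apply, a _ z hz, a _ z hz]; exact sub_self _)
    O.dom.opn O.cvx.isPreconnected hp O.dom.mem
  simpa only [Pi.sub_apply, pb_deg_zero] using this

theorem desc (b : Bool) {F : Fm E6 0} (hF : Sm F U) (h : ∀ p ∈ U, F (p + bv (2, 1)) = F p) :
    ∃ G : Fm E6 0, Sm G (P b '' U) ∧ ∀ p ∈ U, G (P b p) = F p := by
  obtain ⟨G, hG⟩ := Deck.desc_per (O.deck b) O.dom.inv (β := F) (by simpa using h)
  simp only [HM1_deg] at hG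
  refine ⟨G, ?_, hG⟩
  rintro _ ⟨x, hx, rfl⟩
  obtain ⟨χ, h1, h2, h3⟩ := (O.deck b).par.inv x hx
  have e := h2.self_of_nhds
  have h4 := contMDiffAt_iff_contDiffAt.1 h1
  refine ((ContDiffAt.comp _ (e.symm ▸ hF.at O.dom.opn hx) h4).congr_of_eventuallyEq
    ?_).contDiffWithinAt
  filter_upwards [h3, h4.continuousAt.eventually (O.dom.opn.mem_nhds (e.symm ▸ hx))] with y a1 a2
  rw [Function.comp, ← hG _ a2, a1]

theorem main {g : Bool → Fm E6 1} (hi : ∀ b, ∀ y ∈ Y b, pb iof (g b) y = g b y)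
    (hc : Cl (HY2_d P g) U) (h0 : per1 (HY2_d P g) z₀ (bv (2, 1)) = 0) :
    ∃ γ : Bool → Fm E6 1, (∀ b, Cl (γ b) (Y b)) ∧ (∀ b, ∀ y ∈ Y b, pb iof (γ b) y = γ b y) ∧
      (∀ b y, s b y < -1 / 32 → γ b y = 0) ∧ ∀ p ∈ U, HY2_d P γ p = HY2_d P g p := by
  obtain ⟨F, hF⟩ := RA_convex O.dom.opn O.cvx 1 _ hc
  obtain ⟨τ, t1, t2, t3⟩ := O.tau
  have p1 : ∀ p ∈ U, F (p + bv (2, 1)) = F p := fun p hp => by
    rw [← sub_eq_zero, O.jump hF (T := fun z => z + bv (2, 1)) (ι := fun z => z) (by fun_prop)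
      contDiff_id (fun z hz => by simpa using O.line hz 1) (fun b z => O.per b)
      (fun b y _ => by rw [pb_id]) hp, G4_zero (_ - _),
      ← HY2_ftc O.dom.opn hF (O.line O.dom.mem), h0]
    rfl
  choose G g1 g2 using fun b => O.desc b hF.1 p1
  have p2 : ∀ p ∈ U, F (τ p) = F p := fun p hp => by
    have a := fun z => O.jump (p := z) hF t1 contDiff_iof t2 t3 hi
    have a1 := a _ (t2 hp)
    rw [← g2 true _ (t2 (t2 hp)), t3 _ _ (t2 hp), t3 _ _ hp, HY2_ii, g2 _ _ hp, ← a p hp] at a1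
    refine smul_right_injective _ (two_ne_zero (α := ℝ)) ?_
    simp only [two_smul]
    linear_combination (norm := abel1) -a1
  let u : Bool → ℝ → ℝ := fun b r => cond b (stm r) (stm (-r) - 1)
  have u0 : ∀ b r, r ≤ -1 / 32 → u b r = 0 := fun b r h => by
    cases b <;> simp [u, HY2_stm0 h]
  have u1 : ∀ b, ContDiff ℝ ∞ (u b) := fun b => by
    cases b
    exacts [(HY2_stm.comp contDiff_neg).sub contDiff_const, HY2_stm]
  have u2 : ∀ b y, s b y < -1 / 32 → ∀ᶠ x in 𝓝 y, u b (s b x) = 0 := fun b y h =>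
    ((O.sm b).continuous.continuousAt.eventually (gt_mem_nhds h)).mono fun x hx => u0 b _ hx.le
  have u3 : ∀ b, ∀ y ∈ Y b, y ∉ P b '' U → s b y < -1 / 32 := fun b y hy hn => by
    linarith only [hn, O, hy, not_le.1 fun h => hn (O.cov b y hy h)]
  have hη : ∀ b, IsD (fun y => u b (s b y) • G b y) (extDeriv fun y => u b (s b y) • G b y) (Y b) :=
    fun b => ⟨FMV_cut (O.opn b) ((O.deck b).par.isOpen_image O.dom.opn subset_rfl)
      ((u1 b).comp (O.sm b)).contDiffOn (fun y hy hn => u2 b y (u3 b y hy hn))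
      ((g1 b).mono inter_subset_right), fun _ _ => rfl⟩
  refine ⟨_, fun b => (hη b).cl (O.opn b), fun b y hy => ?_, fun b y h => ?_, fun p hp => ?_⟩
  · rw [← extDeriv_pb ((hη b).1.diffAt (O.opn b) (O.io b hy)) contDiff_iof.contDiffAt]
    refine EventuallyEq.extDeriv_eq ?_
    filter_upwards [(O.opn b).mem_nhds hy] with x hx
    rw [pb_deg_zero, O.sio]
    by_cases h : x ∈ P b '' U
    · obtain ⟨q, hq, rfl⟩ := h
      rw [← t3 _ _ hq, g2 _ _ (t2 hq), g2 _ _ hq, p2 q hq]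
    · rw [u0 b _ (u3 b x hx h).le, zero_smul, zero_smul]
  · rw [EventuallyEq.extDeriv_eq (ω₂ := fun _ => 0) ((u2 b y h).mono fun x hx => by
      simp only [hx, zero_smul]), extDeriv_const]
  · rw [← (O.isD hη).2 p hp, ← hF.2 p hp]
    refine EventuallyEq.extDeriv_eq ?_
    filter_upwards [O.dom.opn.mem_nhds hp] with x hx
    simp only [HY2_d, Pi.sub_apply, pb_deg_zero, g2 _ _ hx, O.opp x hx, u, cond, neg_neg]
    module

end HY2_Ov

theorem HY2_tF : ContDiff ℝ ∞ tF ∧ ∀ y, tF (iof y) = tF y := by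
  refine ⟨?_, fun y => by simp [tF, iof]⟩
  unfold tF
  simp only [normSq_cc]
  fun_prop

theorem HY2_nu (d : HD) (y : E6) : d.nuF y = d.μ₁ + tF y := add_sub_assoc _ _ _

theorem HY2_tau {r : E6 → ℝ} (hr : ContDiff ℝ ∞ r) :
    ContDiff ℝ ∞ fun p => mkc (-cc 0 p) (-cc 1 p) ⟨p (2, 0), r p⟩ :=
  contDiff_iff_contDiffAt.2 fun _ => by
    refine contDiffAt_mk ?_ ?_ ?_ ?_ ?_ hr.contDiffAt <;> simp only [neg_re, neg_im, cc] <;> fun_prop

theorem HY2_U (h : D.Ok) (j : J4) :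
    HY2_Ov (fun b => (D.H b).Yo) UU 0 (D.pU j) fun _ y => tF y - 1 where
  opn b := (D.H b).isOpen_Yo
  dom := domUU.1
  cvx := domUU.2
  deck b := (h.deck_pU j b).1
  sub b := mapsTo_iff_image_subset.2 (h.deck_pU j b).2.1
  io _ _ := HD.iof_Yo
  sm _ := HY2_tF.1.sub contDiff_const
  sio _ y := by rw [HY2_tF.2]
  cov b y hy hs := (h.deck_pU j b).2.2.1 y hy (by linarith only [hs])
  opp p hp := by simp [((h.deck_pU j _).2.2.2 p hp).1]
  tau := ⟨_, HY2_tau (by fun_prop), fun p hp => by simpa [UU] using hp,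
    fun b p hp => ((h.deck_pU j b).2.2.2 p hp).2.symm⟩

theorem HY2_L (h : D.Ok) (j : J4) :
    HY2_Ov (fun b => (D.H b).Yo) D.LO (Cy.mk 0 0 0 0 (-(D.H true).M) 0) (D.pL j)
      fun b y => -((D.H b).nuF y + (D.H b).M) where
  opn b := (D.H b).isOpen_Yo
  dom := D.domLO.1
  cvx := D.domLO.2
  deck b := (h.deck_pL j b).1
  sub b := mapsTo_iff_image_subset.2 (h.deck_pL j b).2.1
  io _ _ := HD.iof_Yo
  sm b := by
    simp only [HY2_nu]
    exact ((contDiff_const.add HY2_tF.1).add contDiff_const).neg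
  sio _ y := by rw [HY2_nu, HY2_nu, HY2_tF.2]
  cov b y hy hs := (h.deck_pL j b).2.2.1 y hy (by linarith only [hs])
  opp p hp := by simp only [((h.deck_pL j _).2.2.2 p hp).1, cond]
  tau := ⟨_, HY2_tau (r := fun p => p (2, 1)) (by fun_prop), fun p hp => by simpa [GD.LO] using hp,
    fun b p hp => ((h.deck_pL j b).2.2.2 p hp).2.symm⟩

theorem HY2_tU (h : D.Ok) (b : Bool) (hp : p ∈ UU) : 7 / 8 < tF (D.pU j b p) := by
  rw [((h.deck_pU j b).2.2.2 p hp).1]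
  have := abs_lt.1 hp.1
  cases b <;> simp only [cond] <;> linarith only [this]

theorem HY2_tL (h : D.Ok) (b : Bool) (hp : p ∈ D.LO) : tF (D.pL j b p) < 0 := by
  have e := ((h.deck_pL j b).2.2.2 p hp).1
  have := abs_lt.1 hp.1
  have := (h.ok b).hμ
  rw [HY2_nu, HD.M] at e
  cases b <;> simp only [cond] at e <;> linarith

theorem HY2_glue (h : D.Ok) (hA : Orb (D.atlY j)) {e : Bool → Fm E6 2} (he : ClF (D.atlY j) e)
    {g : Bool → Fm E6 1} (hg : ∀ b, IsD (g b) (e b) (D.H b).Yo)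
    (hi : ∀ b, ∀ y ∈ (D.H b).Yo, pb iof (g b) y = g b y) (hU : D.xU j g = 0) (hL : D.xL j g = 0) :
    ExF (D.atlY j) e := by
  obtain ⟨-, i1, i2⟩ := (h.invY_iff hA fun b => (he.1 b).1).1 he.2
  have cU := (HY2_U h j).isD hg
  have cL := (HY2_L h j).isD hg
  obtain ⟨γ, a1, a2, a3, a4⟩ := (HY2_U h j).main hi
    ⟨cU.1, fun p hp => (cU.2 p hp).trans (sub_eq_zero.2 (i1 p hp))⟩ hU
  obtain ⟨γ', b1, b2, b3, b4⟩ := (HY2_L h j).main hi
    ⟨cL.1, fun p hp => (cL.2 p hp).trans (sub_eq_zero.2 (i2 p hp))⟩ hL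
  have hd : ∀ b, IsD ((g - γ - γ') b) (e b) (D.H b).Yo := fun b =>
    FMV_sub (D.H b).isOpen_Yo (FMV_sub (D.H b).isOpen_Yo (hg b) (α' := 0) (a1 b) fun _ _ => sub_zero _)
      (α' := 0) (b1 b) fun _ _ => sub_zero _
  refine ⟨_, hd, (h.invY_iff hA fun b => (hd b).1).2 ⟨fun b y hy => ?_, fun p hp => ?_, fun p hp => ?_⟩⟩
  · simp only [Pi.sub_apply, pb_sub, hi b y hy, a2 b y hy, b2 b y hy]
  · have z : ∀ b, pb (D.pU j b) (γ' b) p = 0 := fun b => by
      rw [pb_congr' (β := 0) (b3 b _ ?_), pb_zero, Pi.zero_apply]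
      rw [HY2_nu, HD.M]
      linarith only [h, hp, HY2_tU (j := j) h b hp, (h.ok b).hμ]
    have := a4 p hp
    simp only [HY2_d, Pi.sub_apply, pb_sub, z] at this ⊢
    linear_combination (norm := abel1) -this
  · have z : ∀ b, pb (D.pL j b) (γ b) p = 0 := fun b => by
      rw [pb_congr' (β := 0) (a3 b _ (by linarith only [h, hp, HY2_tL (j := j) h b hp])), pb_zero, Pi.zero_apply]
    have := b4 p hp
    simp only [HY2_d, Pi.sub_apply, pb_sub, z] at this ⊢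
    linear_combination (norm := abel1) -this

/-- The standard primitive on both regions. -/
noncomputable abbrev HY2_l : Bool → Fm E6 1 := fun _ z => alt1 (lamS z)

theorem HY2_x (h : D.Ok) {g : Bool → Fm E6 1} {e : Bool → Fm E6 2}
    (hg : ∀ b, IsD (g b) (e b) (D.H b).Yo) (t t' : ℝ) :
    (∀ b, IsD ((g + t • HY2_l + t' • zY) b) (e b + t • d1 lamS + t' • zeY b) (D.H b).Yo) ∧
    D.xU j (g + t • HY2_l + t' • zY) = D.xU j g + t * 2 ∧
    D.xL j (g + t • HY2_l + t' • zY) = D.xL j g + t * D.xL j HY2_l - t' := by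
  have a : ∀ b, IsD ((g + t • HY2_l) b) (e b + t • d1 lamS) (D.H b).Yo :=
    fun b => HY2_isD_add (D.H b).isOpen_Yo (hg b) (isD_lamS _).1 t
  have z := fun b => (isD_zY (D.H b) b).1
  refine ⟨fun b => HY2_isD_add (D.H b).isOpen_Yo (a b) (z b) t', ?_, ?_⟩
  · refine ((HY2_U h j).add a z t').trans ?_
    rw [(HY2_U h j).add hg (fun b => (isD_lamS (D.H b)).1) t, ← xU_lam D j,
      show per1 (HY2_d _ zY) _ _ = 0 from xU_zY D j, mul_zero, add_zero]
    rfl
  · refine ((HY2_L h j).add a z t').trans ?_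
    rw [(HY2_L h j).add hg (fun b => (isD_lamS (D.H b)).1) t,
      show per1 (HY2_d _ zY) _ _ = -1 from h.xL_zY j, mul_neg_one]
    rfl

theorem GD.Ok.h2Y (h : D.Ok) (hA : Orb (D.atlY j)) {e : Bool → Fm E6 2} (he : ClF (D.atlY j) e) :
    ∃ t t' : ℝ, ExF (D.atlY j) (e - (t • (fun _ => d1 lamS) + t' • zeY)) := by
  choose g g1 g2 using fun b => HY2_prim (h.ok b) (he.1 b)
    (((h.invY_iff hA fun b => (he.1 b).1).1 he.2).1 b)
  set t := D.xU j g / 2
  set t' := D.xL j g - t * D.xL j HY2_l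
  obtain ⟨a1, a2, a3⟩ := HY2_x (j := j) h g1 (-t) t'
  refine ⟨t, -t', (HY2_glue h hA ((he.add hA ((h.cl_omY hA).smul hA _)).add hA
    ((h.cl_zeY hA).smul hA _)) a1 (fun b y hy => ?_) (by rw [a2]; ring)
    (by rw [a3]; ring)).congr fun b x _ => ?_⟩
  · simp only [Pi.add_apply, Pi.smul_apply, pb_add, pb_smul, g2 b y hy, (isD_lamS (D.H b)).2,
      (isD_zY _ b).2 y hy]
  · simp only [Pi.add_apply, Pi.smul_apply, Pi.sub_apply]
    module

theorem GD.Ok.h2Y' (h : D.Ok) (hA : Orb (D.atlY j)) {t t' : ℝ}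
    (he : ExF (D.atlY j) (t • (fun _ => d1 lamS) + t' • zeY)) : t = 0 ∧ t' = 0 := by
  obtain ⟨β, h1, h2⟩ := he
  obtain ⟨i0, i1, i2⟩ := (h.invY_iff hA fun b => (h1 b).1).1 h2
  obtain ⟨a1, a2, a3⟩ := HY2_x (j := j) h h1 (-t) (-t')
  choose f f1 _ using fun b => HY2_prim (h.ok b) (k := 0) ⟨(a1 b).1, fun x hx =>
    ((a1 b).2 x hx).trans (by simp only [Pi.add_apply, Pi.smul_apply]; module)⟩ fun y hy => by
      simp only [Pi.add_apply, Pi.smul_apply, pb_add, pb_smul, i0 b y hy, (isD_lamS (D.H b)).2,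
        (isD_zY _ b).2 y hy]
  have e1 : D.xU j β = 0 := by
    simp [GD.xU, per1, i1 _ ((HY2_U h j).line domUU.1.mem _), -zero_add]
  have e2 : D.xL j β = 0 := by simp [GD.xL, per1, i2 _ ((HY2_L h j).line D.domLO.1.mem _)]
  have e3 := a2.symm.trans ((HY2_U h j).ex f1)
  have e4 := a3.symm.trans ((HY2_L h j).ex f1)
  obtain rfl : t = 0 := by linarith only [e1, e3]
  exact ⟨rfl, by linarith only [e2, e4]⟩

theorem GD.Ok.h1Y (h : D.Ok) (hA : Orb (D.atlY j)) {e : Bool → Fm E6 1} (he : ClF (D.atlY j) e) :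
    ∃ s : ℝ, ExF (D.atlY j) (e - s • dmY) := by
  obtain ⟨i0, i1, i2⟩ := (h.invY_iff hA fun b => (he.1 b).1).1 he.2
  choose f f1 f2 using fun b => HY2_prim (h.ok b) (he.1 b) (i0 b)
  have cU := (HY2_U h j).isD f1
  have cL := (HY2_L h j).isD f1
  have kU := fun p hp => Cl.const ⟨cU.1, fun p hp => (cU.2 p hp).trans (sub_eq_zero.2 (i1 p hp))⟩
    domUU.1.opn domUU.2.isPreconnected (x := p) hp domUU.1.mem
  have kL := fun p hp => Cl.const ⟨cL.1, fun p hp => (cL.2 p hp).trans (sub_eq_zero.2 (i2 p hp))⟩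
    D.domLO.1.opn D.domLO.2.isPreconnected (x := p) hp D.domLO.1.mem
  generalize HY2_d (D.pU j) f 0 = c at kU
  generalize HY2_d (D.pL j) f (Cy.mk _ _ _ _ _ _) = c' at kL
  let σ : Bool → Fm E6 0 := fun b => fn0 fun z => stm (cond b (tF z - 1) (1 - tF z))
  have hσ : ∀ b, IsD (σ b) (dmY b) (D.H b).Yo := fun b =>
    ⟨sm_fn0.2 (HY2_stm.comp (by
      cases b
      exacts [contDiff_const.sub HY2_tF.1, HY2_tF.1.sub contDiff_const])).contDiffOn,
      fun x _ => congrFun (extDeriv_fn0 _) x⟩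
  have hd : ∀ b, IsD (f b - (c - c') ![] • σ b - fun _ => cond b c 0)
      ((e - (c - c') ![] • dmY) b) (D.H b).Yo := fun b =>
    FMV_sub (D.H b).isOpen_Yo (FMV_sub (D.H b).isOpen_Yo (f1 b) (HY2_isD_smul (hσ b) _)
      fun _ _ => rfl) (α' := 0) ⟨contDiffOn_const, fun x _ => extDeriv_const _ x⟩
      fun _ _ => sub_zero _
  refine ⟨_, _, hd, (h.invY_iff hA fun b => (hd b).1).2
    ⟨fun b y hy => ?_, fun p hp => ?_, fun p hp => ?_⟩⟩
  · have := f2 b y hy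
    simp only [pb_deg_zero, Pi.sub_apply, Pi.smul_apply, σ, fn0, HY2_tF.2] at this ⊢
    rw [this]
  · have := kU p hp
    simp only [HY2_d, pb_deg_zero, Pi.sub_apply, Pi.smul_apply, σ, fn0, cond,
      ((h.deck_pU j _).2.2.2 p hp).1] at this ⊢
    rw [← this, show 1 - (1 + -p (2, 0)) = 1 + p (2, 0) - 1 by ring]
    abel
  · have := kL p hp
    have a := fun b => HY2_stm0 (r := tF (D.pL j b p) - 1) (by linarith only [h, hp, HY2_tL (j := j) h b hp])
    simp only [neg_sub] at a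
    simp only [HY2_d, pb_deg_zero, Pi.sub_apply, Pi.smul_apply, σ, fn0, cond, a] at this ⊢
    ext v
    have e := DFunLike.congr_fun this ![]
    obtain rfl : v = ![] := Subsingleton.elim _ _
    simp [G4_c] at e ⊢
    linarith


end Pool.Agent.Work.MP_bf98aa_gt.B3
end
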