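import Pool.Agent.Work.MP_bf98aa_gt.B3.P9
import Pool.Agent.Work.MP_bf98aa_gt.B3.F5

-- merged part: Pool.Agent.Work.MP_bf98aa_gt.B3.PR
section
/-!
Facts about the pieces that the computation of the fundamental group uses.
-/

set_option autoImplicit false

open scoped Manifold ContDiff Topology Matrix ComplexConjugate
open Set Complex Filter

namespace Pool.Agent.Work.MP_bf98aa_gt.B3

open Pool.Agent.Work.MP_bf98aa_gt.Th Pool.Agent.Work.MP_bf98aa_gt.Cy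

theorem PR_sq {r : ℝ} (h : 0 ≤ r) (t : ℝ) : normSq ((√r : ℝ) * ee t) = r := by
  rw [map_mul, normSq_ee, normSq_ofReal, Real.mul_self_sqrt h, mul_one]

theorem PR_pol (w : ℂ) : ∃ t, ((√(normSq w) : ℝ) : ℂ) * ee t = w := by
  obtain ⟨t, ht⟩ := exists_ee w
  exact ⟨t, by rw [← Complex.norm_def, ← ht]⟩

theorem PR_up {p : E6} (h : |p (2, 0)| < 1 / 8) : normSq (cc 0 (Pup p)) = normSq (cc 0 p) ∧
    normSq (cc 1 (Pup p)) = normSq (cc 1 p) ∧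
    normSq (cc 2 (Pup p)) = 1 + p (2, 0) + normSq (cc 0 p) := by
  refine ⟨?_, rfl, PR_sq (by linarith only [h, (abs_lt.1 h).1, normSq_nonneg (cc 0 p)]) _⟩
  rw [Pup, cc_mkc0, map_mul, normSq_ee, mul_one]

theorem PR_low {p : E6} {μ : ℝ} (h : p (2, 0) ≤ μ) :
    normSq (cc 0 (Plow μ p)) = normSq (cc 0 p) - (p (2, 0) - μ) ∧
    normSq (cc 1 (Plow μ p)) = normSq (cc 1 p) ∧ normSq (cc 2 (Plow μ p)) = normSq (cc 0 p) := by
  refine ⟨PR_sq (by linarith [normSq_nonneg (cc 0 p)]) _, rfl, ?_⟩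
  rw [Plow, cc_mkc2, map_mul, normSq_ee, mul_one]

theorem PR_sgn {x y : E6} (h : Sgn x y) (i : Fin 3) : normSq (cc i y) = normSq (cc i x) := by
  rcases h with rfl | rfl
  · rfl
  · fin_cases i
    exacts [rfl, normSq_neg _, normSq_neg _]

theorem HD.PR_act (d : HD) (j : J4) (s : ℝ) (z : E6) :
    d.Ph j 0 (act s .m z) = act s .f (d.Ph j 0 z) := by
  have e : d.phH (d.trn j (act s .m z)) = d.phH (d.trn j z) + s := by
    simp only [HD.phH, HD.trn, act, mk4_20, mk4_21, xv_mk4]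
    ring
  change d.lowF (d.trn j (act s .m z)) = act s .f (d.lowF (d.trn j z))
  simp only [HD.lowF, HD.uL, HD.wL, e, neg_add, ee_add]
  simp only [HD.trn, HD.tt, act, mk4_20, xv_mk4, cc_mkc0, cc_mkc1, cc_mkc2, mul_assoc]

theorem HD.conn_up' (d : HD) :
    IsPreconnected (d.WX .F ∩ {z | 7 / 8 < tF z ∧ rF z - 2 * (tF z - 1) < 8}) := by
  rw [show {z | 7 / 8 < tF z ∧ rF z - 2 * (tF z - 1) < 8} =
      Tor (P8_poly [(1, 0, -1, -(7 / 8)), (2, 1, -1, 6)]) by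
    ext z
    simp only [rF, tF, Tor, P8_poly, mem_ofPred_eq, List.forall_mem_cons, List.not_mem_nil,
      false_imp_iff, implies_true, and_true]
    refine and_congr ?_ ?_ <;> constructor <;> intro <;> linarith, HD.P8_F]
  exact conn_toric (P8_conv _)

theorem HD.F_pt {d : HD} (h : d.Ok) :
    ∃ x ∈ d.F0, cc 0 x ≠ 0 ∧ 7 / 8 < tF x ∧ rF x - 2 * (tF x - 1) < 8 := by
  have := h.hμ
  refine ⟨Cy.mk (1 / 4) 0 2 0 1 0, ?_, by simp [cc, Complex.ext_iff], ?_⟩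
  · simp only [HD.F0, HD.WX, HD.Fo, HD.nuF, HD.M, rF, tF, normSq_cc, mem_ofPred_eq, mk00, mk01,
      mk10, mk11, mk20, mk21, abs_lt, max_lt_iff]
    refine ⟨⟨⟨?_, ?_, ?_⟩, ?_, ?_⟩, ?_, ?_⟩ <;> linarith only [this]
  · simp only [rF, tF, normSq_cc, mk00, mk01, mk10, mk11, mk20, mk21]
    norm_num

variable {M : Type} [TopologicalSpace M] [ChartedSpace E6 M]
  {D : GD} {q : Ch M} {η : Fo M 2} {b : Bool} {j k : J4} {x y z : E6}

theorem WM.K_of (h : WM D q η) (hz : z ∈ WK) (h0 : cc 1 z ≠ 0) :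
    ∃ x ∈ (D.H b).Wn .m, q.N b .m x = q.K b k z := by
  obtain ⟨x, hx, rfl⟩ := (h.ok.ok b).oK_surj k hz h0
  exact ⟨x, hx.1, h.gK b k x hx⟩

theorem WM.X_of (h : WM D q η) {c : X3} (hz : z ∈ (D.H b).WX c) (h0 : cc 1 z ≠ 0) :
    ∃ y ∈ (D.H b).WX .F, q.X j b .F y = q.X j b c z := by
  have h1 := normSq_pos.2 h0
  obtain ⟨y, hy, e⟩ := to_F (h.ok.ok b) hz (by
    cases c
    · exact xr_F.symm ▸ hz.2.1
    · simp only [xr, HD.amb, r2]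
      linarith
    · simp only [xr, HD.amb, r1]
      linarith)
  exact ⟨y, hy, (h.eX _ _ _ _ _ _ _ hy _ hz).2 ⟨rfl, Or.inl ⟨rfl, e⟩⟩⟩

theorem WM.T_of (h : WM D q η) {i : Bool} (hz : z ∈ WT) (h0 : cc 1 z ≠ 0) :
    ∃ y ∈ (D.H true).WX .F, q.X j true .F y = q.T j i z := by
  obtain ⟨y, hy, -, e⟩ := T_to_F h.ok j true i hz h0
  exact ⟨y, hy, (h.eXT _ _ _ _ _ _ hy _ hz).2 ⟨rfl, e⟩⟩

theorem WM.low_of (h : WM D q η) (hx : x ∈ (D.H b).WX .F) (h1 : tF x < -2 * (D.H b).μ₁ - 7 / 8) :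
    ∃ y ∈ (D.H (!b)).WX .F, q.X j b .F x = q.X j (!b) .F y := by
  have a1 := (h.ok.ok b).hμ
  have a2 := (h.ok.ok (!b)).hμ
  obtain ⟨t, ht⟩ := PR_pol (cc 0 x)
  obtain ⟨⟨b1, b2⟩, b3, -⟩ := id hx
  rw [abs_lt] at b2
  simp only [rF, tF, HD.nuF, HD.M] at h1 b1 b2 b3
  let p : E6 := mkc (cc 2 x * ee t) (cc 1 x) ⟨(D.H b).nuF x, -t⟩
  have p0 : normSq (cc 0 p) = normSq (cc 2 x) := by
    rw [cc_mkc0, map_mul, normSq_ee, mul_one]
  have e : x = Plow (D.H b).μ₁ p := by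
    refine extc ?_ rfl ?_
    · rw [Plow, cc_mkc0, p0]
      simp only [p, mkc_20, mkc_21, HD.nuF, neg_neg]
      refine ht.symm.trans ?_
      congr 3
      ring
    · simp only [Plow, p, cc_mkc2, cc_mkc0, mkc_21, mul_assoc, ee_mul_neg, mul_one]
  obtain ⟨c0, c1, c2⟩ := PR_low (p := flp (-(D.H b).M - (D.H (!b)).M) (D.thL j) p)
    (μ := (D.H (!b)).μ₁) (by simp only [flp, p, mkc_20, HD.nuF, HD.M]; linarith only [a2, b2, b2.1])
  have hy : Plow (D.H (!b)).μ₁ (flp (-(D.H b).M - (D.H (!b)).M) (D.thL j) p) ∈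
      (D.H (!b)).WX .F := by
    simp only [HD.WX, HD.Fo, HD.nuF, rF, tF, mem_ofPred_eq, c0, c1, c2, abs_lt]
    simp only [flp, cc_mkc0, cc_mkc1, mkc_20, p0]
    simp only [p, cc_mkc1, mkc_20, HD.nuF, HD.M]
    refine ⟨⟨?_, ?_, ?_⟩, ?_, ?_⟩ <;>
      linarith only [b1, h1, a2, b2, b3, b2.1, normSq_nonneg (cc 1 x), normSq_nonneg (cc 2 x)]
  refine ⟨_, hy, (h.eX _ _ _ _ _ _ _ hx _ hy).2 ⟨rfl, (RA_F_iff h.ok hx hy).2
    (Or.inl ⟨p, ?_, e, Or.inl rfl⟩)⟩⟩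
  simp only [p, mkc_20, HD.nuF, HD.M, abs_lt]
  constructor <;> linarith only [b2, h1, b2.1]

theorem WM.up_of (h : WM D q η) (hx : x ∈ (D.H b).WX .F) (h1 : 7 / 8 < tF x)
    (h2 : rF x - 2 * (tF x - 1) < 8) :
    ∃ y ∈ (D.H (!b)).WX .F, q.X j b .F x = q.X j (!b) .F y := by
  have a2 := (h.ok.ok (!b)).hμ
  obtain ⟨t, ht⟩ := PR_pol (cc 2 x)
  obtain ⟨⟨b1, b2⟩, b3, b4⟩ := id hx
  rw [abs_lt] at b2
  simp only [rF, tF, HD.nuF, HD.M] at h1 h2 b1 b2 b3 b4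
  let p : E6 := mkc (cc 0 x * ee t) (cc 1 x) ⟨tF x - 1, t⟩
  have p0 : normSq (cc 0 p) = normSq (cc 0 x) := by
    rw [cc_mkc0, map_mul, normSq_ee, mul_one]
  have p2 : |p (2, 0)| < 1 / 8 := by
    simp only [p, mkc_20, tF, abs_lt]
    constructor <;> linarith only [h1, b2, b2.2]
  have e : x = Pup p := by
    refine extc ?_ rfl ?_
    · simp only [Pup, p, cc_mkc0, mkc_21, mul_assoc, ee_mul_neg, mul_one]
    · rw [Pup, cc_mkc2, p0]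
      simp only [p, mkc_20, mkc_21, tF]
      refine ht.symm.trans ?_
      congr 3
      ring
  obtain ⟨c0, c1, c2⟩ := PR_up (p := flp 0 (D.thU j) p)
    (by rwa [flp, mkc_20, zero_sub, abs_neg])
  have hy : Pup (flp 0 (D.thU j) p) ∈ (D.H (!b)).WX .F := by
    simp only [HD.WX, HD.Fo, HD.nuF, rF, tF, mem_ofPred_eq, c0, c1, c2, abs_lt]
    simp only [flp, cc_mkc0, cc_mkc1, mkc_20, p0]
    simp only [p, cc_mkc1, mkc_20, tF, HD.M]
    refine ⟨⟨?_, ?_, ?_⟩, ?_, ?_⟩ <;> linarith only [h2, a2, b2, h1, b4, b3, b2.2]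
  exact ⟨_, hy, (h.eX _ _ _ _ _ _ _ hx _ hy).2 ⟨rfl, (RA_F_iff h.ok hx hy).2
    (Or.inr ⟨p, p2, e, Or.inl rfl⟩)⟩⟩

theorem WM.lu_to (h : WM D q η) (hx : x ∈ (D.H b).WX .F) (hy : y ∈ (D.H (!b)).WX .F)
    (e : q.X j b .F x = q.X j (!b) .F y) :
    tF x < -2 * (D.H b).μ₁ - 7 / 8 ∨ (7 / 8 < tF x ∧ rF x - 2 * (tF x - 1) < 8) := by
  have a1 := (h.ok.ok b).hμ
  rcases (RA_F_iff h.ok hx hy).1 ((h.eX _ _ _ _ _ _ _ hx _ hy).1 e).2 with
    ⟨p, h1, rfl, -⟩ | ⟨p, h1, rfl, h2⟩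
  · rw [abs_lt, HD.M] at h1
    obtain ⟨c0, -, c2⟩ := PR_low (p := p) (μ := (D.H b).μ₁) (by linarith only [a1, h1, h1.2])
    rw [tF, c0, c2]
    exact Or.inl (by linarith only [h1, h1.2])
  · obtain ⟨c0, c1, c2⟩ := PR_up h1
    obtain ⟨-, c3, c4⟩ := PR_up (p := flp 0 (D.thU j) p)
      (by rwa [flp, mkc_20, zero_sub, abs_neg])
    have h3 := hy.1.1
    rw [rF, PR_sgn h2, PR_sgn h2, c3, c4] at h3
    simp only [flp, cc_mkc0, cc_mkc1, mkc_20] at h3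
    rw [rF, tF, c0, c1, c2]
    exact Or.inr ⟨by linarith only [h1, (abs_lt.1 h1).1], by linarith only [h3]⟩

end Pool.Agent.Work.MP_bf98aa_gt.B3
end

-- merged part: Pool.Agent.Work.MP_bf98aa_gt.B3.PQ
section
/-!
Facts about the neck that the computation of the fundamental group uses.
-/

set_option autoImplicit false

open scoped Manifold ContDiff Topology Matrix ComplexConjugate
open Set Complex Filter

namespace Pool.Agent.Work.MP_bf98aa_gt.B3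

open Pool.Agent.Work.MP_bf98aa_gt.Th Pool.Agent.Work.MP_bf98aa_gt.Cy

namespace HD

variable {d : HD} {z : E6} {j k : J4}

theorem PQ_gm (h : d.Ok) (γ : L4 × ℤ × Bool × Bool) (hz : z ∈ d.Wn .m)
    (h1 : γ.2.2.1 = false ∨ z (2, 0) < 1 / 8) : d.gm γ z ∈ d.Wn .m :=
  (h.Wn_sat (R_mm.2 ⟨hz.1, h.gm_mem γ hz.1 fun e => h1.resolve_left (by simp [e]), γ, rfl⟩)).1 hz

theorem PQ_gp (h : d.Ok) (γ : L4 × ℤ × Bool) (hz : z ∈ d.Wn .p) : d.gp γ z ∈ d.Wn .p :=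
  (h.Wn_sat (R_pp.2 ⟨hz.1, (gp_mem γ).2 hz.1, γ, rfl⟩)).1 hz

theorem PQ_mem (h : d.Ok) (hz : z ∈ d.DP j 0) : d.Ph j 0 z ∈ d.WX .F := h.DP_WX hz

theorem PQ_cont (h : d.Ok) : ContinuousOn (d.Ph j 0) (d.DP j 0) := fun _ hz =>
  (h.Ph_sm (DP_sub hz)).continuousAt.continuousWithinAt

theorem PQ_one (z : E6) : d.gm (0, 0, false, false) z = z := Dm_zero z

end HD

variable {M : Type} [TopologicalSpace M] [ChartedSpace E6 M]
  {D : GD} {q : Ch M} {η : Fo M 2} {b b' : Bool} {c c' : K3} {j k : J4} {x y z : E6}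

theorem WM.same (h : WM D q η) (hx : x ∈ (D.H b).Wn c) (hy : y ∈ (D.H b).Wn c') :
    q.N b c x = q.N b c' y ↔ (D.H b).atlO.R c x c' y := (h.eN _ _ _ _ _ hx _ hy).trans GD.R_same

theorem WM.mm (h : WM D q η) (hx : x ∈ (D.H b).Wn .m) (hy : y ∈ (D.H b).Wn .m) :
    q.N b .m x = q.N b .m y ↔ ∃ γ, (D.H b).gm γ x = y :=
  (h.same hx hy).trans ⟨fun k => k.2.2, fun k => ⟨hx.1, hy.1, k⟩⟩

theorem WM.pp (h : WM D q η) (hx : x ∈ (D.H b).Wn .p) (hy : y ∈ (D.H b).Wn .p) :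
    q.N b .p x = q.N b .p y ↔ ∃ γ, (D.H b).gp γ x = y :=
  (h.same hx hy).trans ⟨fun k => k.2.2, fun k => ⟨hx.1, hy.1, k⟩⟩

theorem WM.mp_to (h : WM D q η) (hx : x ∈ (D.H b).Wn .m) (hy : y ∈ (D.H b).Wn .p)
    (e : q.N b .m x = q.N b .p y) : x (2, 0) = y (2, 0) ∧ (D.H b).gz y ≠ 0 := by
  obtain ⟨l, n, i, hs⟩ := (h.ok.ok b).R_mp.1 ((h.same hx hy).1 e)
  obtain ⟨-, -, h1, -, h2⟩ := (h.ok.ok b).Smp_lev hs
  exact ⟨(hs.2.2.2.1.trans (HD.gm_level (l, n, false, i) x)).symm, h2 ▸ h1⟩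

theorem WM.mp_of (h : WM D q η) (hy : y ∈ (D.H b).Wn .p) (h1 : (D.H b).tt y < 1 / 8)
    (h2 : (D.H b).gz y ≠ 0) :
    ∃ x ∈ (D.H b).Wn .m, x (2, 0) = y (2, 0) ∧ q.N b .m x = q.N b .p y := by
  obtain ⟨x, hs⟩ := (h.ok.ok b).exists_m hy.1 h1 h2
  have r := (h.ok.ok b).R_mp.2 ⟨0, 0, false, (HD.PQ_one x).symm ▸ hs⟩
  have hx := ((h.ok.ok b).Wn_sat r).2 hy
  exact ⟨x, hx, hs.2.2.2.1.symm, (h.same hx hy).2 r⟩

theorem WM.cross_to (h : WM D q η) (hx : x ∈ (D.H b).Wn c)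
    (hy : y ∈ (D.H (!b)).Wn c') (e : q.N b c x = q.N (!b) c' y) :
    c = .p ∧ c' = .p ∧ 7 / 8 < (D.H b).tt x :=
  let ⟨h1, h2, _, h3, _⟩ := h.ok.R_cross.1 ((h.eN _ _ _ _ _ hx _ hy).1 e)
  ⟨h1, h2, h3⟩

theorem WM.cross_of (h : WM D q η) (hx : x ∈ (D.H b).Wn .p) (h1 : 7 / 8 < (D.H b).tt x) :
    ∃ y ∈ (D.H (!b)).Wn .p, q.N b .p x = q.N (!b) .p y := by
  have r := (h.ok.R_cross (b := b)).2 ⟨rfl, rfl, hx.1, h1, (0, 0, false), rfl⟩
  have hy := (h.ok.Wn_sat r).1 hx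
  exact ⟨_, hy, (h.eN _ _ _ _ _ hx _ hy).2 r⟩

theorem WM.f_of (h : WM D q η) (hz : z ∈ (D.H b).Wn .f) (h0 : cc 0 z ≠ 0) :
    ∃ x ∈ (D.H b).Wn .m, q.N b .m x = q.N b .f z := by
  obtain ⟨x, h1, h2, rfl⟩ := (h.ok.ok b).omf_surj hz.1 h0
  have r := (h.ok.ok b).R_mf.2 ⟨h1, 0, 0, false, (HD.PQ_one x).symm ▸ h2, by rw [HD.PQ_one]⟩
  have hx := ((h.ok.ok b).Wn_sat r).2 hz
  exact ⟨x, hx, (h.same hx hz).2 r⟩

theorem WM.F_to (h : WM D q η) (hx : x ∈ (D.H b').Wn c) (hy : y ∈ (D.H b).WX .F)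
    (e : q.N b' c x = q.X j b .F y) : y ∈ (D.H b).F0 := by
  obtain ⟨l, z, hz, e'⟩ := h.cX _ _ _ _ _ _ hx _ hy e
  have h1 := (h.ok.ok b).DP_WX hz
  rcases ((h.eX _ _ _ _ _ _ _ h1 _ hy).1 ((h.gP j b l z hz).symm.trans
    (e'.symm.trans e))).2 with k | k
  · obtain ⟨k1, k2, -⟩ := (D.H b).Sgn_norm ((amb_F_iff h1 hy).1 k.2)
    exact ⟨hy, k1 ▸ k2 ▸ ((h.ok.ok b).Do_Wn (HD.DP_sub hz)).1 hz⟩
  · exact (k.1 rfl).elim

theorem WM.F_of (h : WM D q η) (hy : y ∈ (D.H b).F0) (h0 : cc 0 y ≠ 0) :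
    ∃ c ≠ K3.f, ∃ x ∈ (D.H b).Wn c, q.N b c x = q.X j b .F y := by
  obtain ⟨l, z, hz, rfl⟩ := (h.ok.ok b).DP_onto j hy.1.1 hy.2
  by_cases hl : l = 4
  · subst hl
    obtain ⟨x, hx, e⟩ := h.f_of hz.1 (left_ne_zero_of_mul h0)
    exact ⟨.m, nofun, x, hx, e.trans (h.gP j b 4 z hz)⟩
  · exact ⟨sP l, (by decide : ∀ l, l ≠ 4 → sP l ≠ .f) l hl, z, hz.1, h.gP j b l z hz⟩

end Pool.Agent.Work.MP_bf98aa_gt.B3
end

-- merged part: Pool.Agent.Work.MP_bf98aa_gt.B3.P10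
section
/-!
The holonomy of a half.
-/

set_option autoImplicit false

open scoped Manifold ContDiff Topology Matrix
open Set Complex

namespace Pool.Agent.Work.MP_bf98aa_gt.B3

open Pool.Agent.Work.MP_bf98aa_gt.Th Pool.Agent.Work.MP_bf98aa_gt.Cy

/-- The main charts of a half. -/
inductive PI
  | E
  | m
  | p
  | F (j : J4)

/-- The maps of the main charts. -/
def Ch.Q {M : Type} (q : Ch M) : Bool × PI → E6 → M
  | (b, .E) => q.N b .m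
  | (b, .m) => q.N b .m
  | (b, .p) => q.N b .p
  | (b, .F j) => q.X j b .F

/-- The domains of the main charts. -/
def GD.WQ (D : GD) : Bool × PI → Set E6
  | (b, .E) => (D.H b).WE
  | (b, .m) => (D.H b).Wm
  | (b, .p) => (D.H b).Wn .p
  | (b, .F _) => (D.H b).WX .F

variable {M : Type} [TopologicalSpace M] [ChartedSpace E6 M] [IsManifold 𝓘(ℝ, E6) ∞ M]
  {D : GD} {q : Ch M} {η : Fo M 2} {H : Type} [Group H] {T : Bool × PI → E6 → Bool × PI → E6 → H}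

theorem WM.parQ (h : WM D q η) : ∀ i, Par (q.Q i) (D.WQ i)
  | (b, .E) => (h.pN b .m).mono ((h.pN b .m).opn.inter
      (isOpen_lt (continuous_apply _) continuous_const)) inter_subset_left
  | (b, .m) => (h.pN b .m).mono ((h.pN b .m).opn.inter
      (isOpen_lt continuous_const (continuous_apply _))) inter_subset_left
  | (b, .p) => h.pN b .p
  | (b, .F j) => h.pX j b .F

theorem WM.scQ (h : WM D q η) : ∀ i, IsSimplyConnected (D.WQ i)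
  | (b, .E) => HD.sc_E (h.ok.ok b) (h.pN b .m).opn
  | (b, .m) => HD.sc_Wm (h.ok.ok b)
  | (b, .p) => HD.sc_Wp (h.ok.ok b)
  | (b, .F _) => HD.sc_F (h.ok.ok b)

theorem WM.connQ (h : WM D q η) (i : Bool × PI) : IsPreconnected (D.WQ i) :=
  (h.scQ i).isPathConnected.isConnected.isPreconnected

theorem WM.dkE (h : WM D q η) (b : Bool) (γ : L4 × ℤ × Bool × Bool) :
    Dk (q.Q (b, .E)) (D.WQ (b, .E)) ((D.H b).gm γ) := by
  have k : ∀ z ∈ (D.H b).WE, (D.H b).gm γ z ∈ (D.H b).Wn .m := fun z hz =>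
    HD.PQ_gm (h.ok.ok b) γ hz.1 (Or.inr hz.2)
  refine ⟨((h.ok.ok b).grp_m.sm γ).continuous.continuousOn, fun z hz => ⟨k z hz, ?_⟩,
    fun z hz => ((h.mm hz.1 (k z hz)).2 ⟨γ, rfl⟩).symm⟩
  have a1 : -1 / 8 < z (2, 0) := hz.1.1.1
  have a2 : z (2, 0) < 1 / 8 := hz.2
  change (D.H b).gm γ z (2, 0) < 1 / 8
  rw [HD.gm_level]
  cases γ.2.2.1
  · exact a2
  · change -z (2, 0) < 1 / 8
    linarith only [a1]

theorem WM.holF (h : WM D q η) (hT : Coc q.Q D.WQ T) (hK : Kill q.Q D.WQ T) (b : Bool) (j : J4) :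
    Cst q.Q D.WQ T (b, .F j) (b, .F j) 1 := by
  obtain ⟨a, a', h1, h2, h3, h4, h5⟩ := HD.v_path (h.ok.ok b)
  obtain ⟨h6, h7⟩ := HD.v_disc (h.ok.ok b)
  have e : ∀ z, (D.H b).amb .F (iof z) = (D.H b).amb .F z := fun z => by
    have e0 : cc 0 (iof z) = cc 0 z := rfl
    have e1 : cc 1 (iof z) = -cc 1 z := rfl
    have e2 : cc 2 (iof z) = -cc 2 z := rfl
    simp only [HD.amb, rF, e0, e1, e2, normSq_neg, map_neg, neg_mul_neg, neg_sq]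
  have k : MapsTo iof ((D.H b).WX .F) ((D.H b).WX .F) := fun z hz => by
    have e0 : cc 0 (iof z) = cc 0 z := rfl
    have e1 : cc 1 (iof z) = -cc 1 z := rfl
    have e2 : cc 2 (iof z) = -cc 2 z := rfl
    simpa only [HD.WX, HD.Fo, HD.nuF, rF, tF, mem_ofPred_eq, e0, e1, e2, normSq_neg] using hz
  have hc : Continuous iof := by
    refine continuous_pi fun i => ?_
    obtain ⟨i, i'⟩ := i
    fin_cases i <;> fin_cases i' <;> simp [iof, mkc, cc] <;> fun_prop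
  have hD : Dk (q.Q (b, .F j)) (D.WQ (b, .F j)) iof := ⟨hc.continuousOn, k, fun z hz =>
    (h.eX j b .F j b .F _ (k hz) _ hz).2 ⟨rfl, Or.inl ⟨rfl, e z⟩⟩⟩
  have t1 := hK (b, .F j) a a' (q.X j b .V) _ ((h.pX j b .V).continuousOn.mono h6) h7 h1 h2
    (fun s => (h3 s).1) (fun s => (h3 s).2.1) (fun s => (h.eX j b .F j b .V _ (h3 s).1 _
      (h6 (h3 s).2.1)).2 ⟨rfl, Or.inl ⟨rfl, (h3 s).2.2⟩⟩) h4
  rw [h5] at t1
  have t2 := tv_of_pt hT (h.connQ _) hD (h3 0).1 t1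
  intro x hx y hy he
  rcases ((h.eX j b .F j b .F x hx y hy).1 he).2 with k1 | k1
  · rcases HD.amb_F_inj hx k1.2 with rfl | rfl
    exacts [hT.self _ _, t2 x hx]
  · exact (k1.1 rfl).elim

theorem WM.joint0 (h : WM D q η) (hT : Coc q.Q D.WQ T) (b : Bool) (j : J4) {a : ℝ → E6}
    (ha : Continuous a) (hm : ∀ s, a s ∈ (D.H b).DP j 0 ∧ a s (2, 0) = 1 / 16) :
    T (b, .E) (a 0) (b, .F j) ((D.H b).Ph j 0 (a 0)) =
      T (b, .E) (a 1) (b, .F j) ((D.H b).Ph j 0 (a 1)) :=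
  hT.joint (S := univ) isPreconnected_univ (i := (b, .E)) (j := (b, .F j)) (a := a)
    (b := fun s => (D.H b).Ph j 0 (a s)) ha.continuousOn
    ((HD.PQ_cont (h.ok.ok b)).comp ha.continuousOn fun s _ => (hm s).1)
    (fun s _ => ⟨(hm s).1.1, (hm s).2.trans_lt (by norm_num)⟩)
    (fun s _ => HD.PQ_mem (h.ok.ok b) (hm s).1) (fun s _ => h.gP j b 0 _ (hm s).1)
    (mem_univ 0) (mem_univ 1)

theorem WM.holE (h : WM D q η) (hT : Coc q.Q D.WQ T) (hK : Kill q.Q D.WQ T) (b : Bool) :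
    Cst q.Q D.WQ T (b, .E) (b, .E) 1 := by
  have ho := h.ok.ok b
  have hc := h.connQ (b, .E)
  have dD : ∀ l n, Dk (q.Q (b, .E)) (D.WQ (b, .E)) ((D.H b).Dm l n) := fun l n =>
    h.dkE b (l, n, false, false)
  have dI : ∀ l n, Dk (q.Q (b, .E)) (D.WQ (b, .E)) fun z => (D.H b).Dm l n (io z) := fun l n =>
    h.dkE b (l, n, false, true)
  have dK : ∀ l n, Dk (q.Q (b, .E)) (D.WQ (b, .E)) fun z => (D.H b).Dm l n ((D.H b).ka z) :=
    fun l n => h.dkE b (l, n, true, false)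
  have di : Dk (q.Q (b, .E)) (D.WQ (b, .E)) io := by simpa only [HD.Dm_zero] using dI 0 0
  have dk : Dk (q.Q (b, .E)) (D.WQ (b, .E)) (D.H b).ka := by simpa only [HD.Dm_zero] using dK 0 0
  have mE : ∀ {j z}, z ∈ (D.H b).DP j 0 → z (2, 0) = 1 / 16 → z ∈ D.WQ (b, .E) := fun hz e =>
    ⟨hz.1, e.trans_lt (by norm_num)⟩
  have kI : ∀ j, Tv D.WQ T (b, .E) fun z => (D.H b).Dm (lj j) 0 (io z) := fun j => by
    obtain ⟨a, h1, h2, h3⟩ := HD.ring_path ho j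
    refine tv_of_pt hT hc (dI _ _) (mE (h2 0).1 (h2 0).2) ?_
    have m0 := HD.PQ_mem ho (h2 0).1
    have m1 := HD.PQ_mem ho (h2 1).1
    have e : q.X j b .F ((D.H b).Ph j 0 (a 0)) = q.X j b .F ((D.H b).Ph j 0 (a 1)) := by
      rw [← h.gP j b 0 _ (h2 0).1, ← h.gP j b 0 _ (h2 1).1, h3]
      exact ((dI _ _).eq _ (mE (h2 0).1 (h2 0).2)).symm
    rw [← h3, ← hT.mul _ _ (b, .F j) ((D.H b).Ph j 0 (a 1)),
      ← hT.mul _ _ (b, .F j) ((D.H b).Ph j 0 (a 0)), h.holF hT hK b j _ m0 _ m1 e, mul_one,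
      h.joint0 hT b j h1 h2, hT.mul, hT.self]
  have kZ : Tv D.WQ T (b, .E) ((D.H b).Dm 0 1) := by
    obtain ⟨a, -, h2, -⟩ := HD.ring_path ho (0, 0)
    have e1 := (D.H b).act_m_int 1 (a 0)
    have e3 := HD.act_f_int 1 ((D.H b).Ph (0, 0) 0 (a 0))
    rw [Int.cast_one] at e1 e3
    have hc' : Continuous fun s => act s .m (a 0) :=
      (HD.contDiff_act .m).continuous.comp (continuous_id.prodMk continuous_const)
    have k := h.joint0 hT b (0, 0) hc' fun s =>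
      ⟨HD.act_DP (h2 0).1 (by rw [(h2 0).2]; norm_num) s, (h2 0).2⟩
    rw [HD.PR_act (s := 1), e3, e1, HD.act_zero] at k
    refine tv_of_pt hT hc (dD _ _) (mE (h2 0).1 (h2 0).2) ?_
    rw [← hT.mul _ _ (b, .F (0, 0)) ((D.H b).Ph (0, 0) 0 (a 0)), k, hT.mul, hT.self]
  have kK : ∀ k : Fin 2, ∃ n, Tv D.WQ T (b, .E)
      fun z => (D.H b).Dm (((k : ℕ) : ℤ) • (D.H b).e) n ((D.H b).ka z) := fun k => by
    obtain ⟨a, h1, h2, h3, h4, n, h5⟩ := HD.k_path ho k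
    have mK : ∀ s, a s ∈ D.WQ (b, .E) := fun s => ⟨(h3 s).1.1, (h3 s).2.1.trans_lt (by norm_num)⟩
    refine ⟨n, tv_of_pt hT hc (dK _ _) (mK 0) ?_⟩
    rw [← h5]
    exact hK (b, .E) a _ (q.K b (k, 0)) WK (h.pK b (k, 0)).continuousOn HD.sc_WK h1 h2 mK
      (fun s => (h3 s).2.2) (fun s => h.gK b (k, 0) _ (h3 s).1) h4
  have l0 : lj (0, 0) = 0 := by decide
  have l1 : lj (1, 0) = Pi.single 0 1 := by decide
  have l2 : lj (0, 1) = Pi.single 1 1 := by decide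
  have ki : Tv D.WQ T (b, .E) io := by simpa only [l0, HD.Dm_zero] using kI (0, 0)
  obtain ⟨t1, t2⟩ := half_triv hT hc (c := (D.H b).c) (d := (D.H b).e) dD di dk HD.Dm_zero
    (fun l n z => HD.Dm_add l n 1 z) (fun l l' => HD.Dm_Dm l l' 0 0) HD.law3
    (ho.ka_io.imp fun _ e z => (e z).symm) ⟨ho.c2, ho.c3⟩ ho.e3 kZ ki ⟨0, l1 ▸ kI _⟩ ⟨0, l2 ▸ kI _⟩
    (by simpa using kK 0) (by simpa using kK 1)
  intro x hx y hy e
  obtain ⟨⟨l, n, _ | _, _ | _⟩, rfl⟩ := (h.mm hx.1 hy.1).1 e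
  · exact t1 l n x hx
  · exact ki.comp hT di (t1 l n) x hx
  · exact t2.comp hT dk (t1 l n) x hx
  · exact (ki.comp hT di t2).comp hT (di.comp dk) (t1 l n) x hx

end Pool.Agent.Work.MP_bf98aa_gt.B3
end

-- merged part: Pool.Agent.Work.MP_bf98aa_gt.B3.P11
section
/-!
The cocycle is a coboundary on the neck.
-/

set_option autoImplicit false

open scoped Manifold ContDiff Topology Matrix ComplexConjugate
open Set Complex Filter

namespace Pool.Agent.Work.MP_bf98aa_gt.B3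

open Pool.Agent.Work.MP_bf98aa_gt.Th Pool.Agent.Work.MP_bf98aa_gt.Cy

variable {M : Type} [TopologicalSpace M] [ChartedSpace E6 M] [IsManifold 𝓘(ℝ, E6) ∞ M]
  {D : GD} {q : Ch M} {η : Fo M 2} {H : Type} [Group H] {T : Bool × PI → E6 → Bool × PI → E6 → H}

/-- The chain of the charts of the neck. -/
def chn : Fin 6 → Bool × PI :=
  ![(true, .E), (true, .m), (true, .p), (false, .p), (false, .m), (false, .E)]

/-- The position in the chain. -/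
def idx : Bool × PI → Fin 6
  | (true, .m) => 1
  | (true, .p) => 2
  | (false, .p) => 3
  | (false, .m) => 4
  | (false, .E) => 5
  | _ => 0

theorem WM.holm (h : WM D q η) (hT : Coc q.Q D.WQ T) (hK : Kill q.Q D.WQ T) (b : Bool) :
    Cst q.Q D.WQ T (b, .m) (b, .m) 1 ∧ ∃ a, Cst q.Q D.WQ T (b, .m) (b, .E) a := by
  refine absorb hT h.parQ (h.holE hT hK b) (h.connQ _) (fun x hx y hy e => ?_)
    (HD.conn_Em (h.ok.ok b)) fun x => ⟨fun hx => ⟨hx.1, x, ⟨hx.1.1, hx.2⟩, rfl⟩, ?_⟩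
  · obtain ⟨⟨l, n, _ | _, i⟩, rfl⟩ := (h.mm hx.1 hy.1).1 e
    · have k : ∀ z ∈ (D.H b).Wm, (D.H b).gm (l, n, false, i) z ∈ (D.H b).Wn .m := fun z hz =>
        HD.PQ_gm (h.ok.ok b) _ hz.1 (Or.inl rfl)
      exact ⟨_, ⟨((h.ok.ok b).grp_m.sm _).continuous.continuousOn, fun z hz =>
        ⟨k z hz, hz.2.trans_eq (HD.gm_level (l, n, false, i) z).symm⟩,
        fun z hz => ((h.mm hz.1 (k z hz)).2 ⟨_, rfl⟩).symm⟩, rfl⟩
    · exact absurd (hy.2.trans_eq (HD.gm_level (l, n, true, i) x)) (not_lt.2 (neg_nonpos.2 hx.2.le))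
  · rintro ⟨hx, y, hy, e⟩
    obtain ⟨γ, rfl⟩ := (h.mm hx.1 hy.1).1 e
    have a1 : -1 / 8 < (D.H b).gm γ x (2, 0) := hy.1.1.1
    have a2 : (D.H b).gm γ x (2, 0) < 1 / 8 := hy.2
    rw [HD.gm_level] at a1 a2
    refine ⟨hx, (?_ : x (2, 0) < 1 / 8)⟩
    cases e' : γ.2.2.1 <;> simp only [e', cond_true, cond_false] at a1 a2 <;> linarith only [a2, a1]

theorem WM.holp (h : WM D q η) (hT : Coc q.Q D.WQ T) (hK : Kill q.Q D.WQ T) (b : Bool) :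
    Cst q.Q D.WQ T (b, .p) (b, .p) 1 ∧ ∃ a, Cst q.Q D.WQ T (b, .p) (b, .m) a := by
  refine absorb hT h.parQ (h.holm hT hK b).1 (h.connQ _) (fun x hx y hy e => ?_)
    (HD.conn_mp (h.ok.ok b)) fun x => ⟨fun hx => ?_, ?_⟩
  · obtain ⟨γ, rfl⟩ := (h.pp hx hy).1 e
    exact ⟨_, ⟨((D.H b).grp_p.sm γ).continuous.continuousOn, fun z hz => HD.PQ_gp (h.ok.ok b) γ hz,
      fun z hz => ((h.pp hz (HD.PQ_gp (h.ok.ok b) γ hz)).2 ⟨_, rfl⟩).symm⟩, rfl⟩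
  · obtain ⟨y, hy, e1, e2⟩ := h.mp_of hx.1 hx.2.1 hx.2.2
    have a1 : 0 < x (2, 0) - (D.H b).μ₁ := hx.1.1.1
    exact ⟨hx.1, y, ⟨hy, show 0 < y (2, 0) by linarith only [e1, a1, h, (h.ok.ok b).hμ]⟩, e2.symm⟩
  · rintro ⟨hx, y, hy, e⟩
    obtain ⟨e1, e2⟩ := h.mp_to hy.1 hx e.symm
    have a1 : y (2, 0) - (D.H b).μ₁ < 1 / 8 := hy.1.1.2.1
    exact ⟨hx, show x (2, 0) - (D.H b).μ₁ < 1 / 8 by rwa [← e1], e2⟩

theorem WM.holpp (h : WM D q η) (hT : Coc q.Q D.WQ T) (hK : Kill q.Q D.WQ T) :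
    ∃ a, Cst q.Q D.WQ T (true, .p) (false, .p) a := by
  obtain ⟨a, ha⟩ := hT.over h.parQ (i := (true, .p)) (j := (false, .p))
    (HD.conn_pp (h.ok.ok true)).isPreconnected inter_subset_left (h.holp hT hK false).1
    fun x hx => h.cross_of hx.1 hx.2
  exact ⟨a, fun x hx y hy e =>
    ha x ⟨hx, (h.cross_to (b := true) hx hy e).2.2⟩ y hy e⟩

omit [IsManifold 𝓘(ℝ, E6) ∞ M] in
theorem WM.adj (h : WM D q η) (i j : Fin 6) : ∀ x ∈ D.WQ (chn i), ∀ y ∈ D.WQ (chn j),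
    q.Q (chn i) x = q.Q (chn j) y → i.1 ≤ j.1 + 1 := fun x hx y hy e => by
  have k : ∀ {b x y}, x ∈ D.WQ (b, .E) → y ∈ D.WQ (b, .p) → q.N b .m x ≠ q.N b .p y :=
    fun {b x y} hx hy e => by
      have a1 : x (2, 0) < 1 / 8 := hx.2
      have a2 : 0 < y (2, 0) - (D.H b).μ₁ := hy.1.1
      linarith only [a1, a2, h, hx, hy, e, (h.mp_to hx.1 hy e).1, (h.ok.ok b).hμ]
  have k1 : ∀ {b c x y}, x ∈ (D.H b).Wn .m → y ∈ (D.H (!b)).Wn c →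
      q.N b .m x ≠ q.N (!b) c y := fun hx hy e => nomatch (h.cross_to hx hy e).1
  fin_cases i <;> fin_cases j <;> first
    | decide
    | exact (k hy hx e.symm).elim
    | exact (k hx hy e).elim
    | exact (k1 (b := true) (c := .p) hy.1 hx e.symm).elim
    | exact (k1 (b := true) (c := .m) hy.1 hx.1 e.symm).elim
    | exact (k1 (b := false) (c := .p) hx.1 hy e).elim

theorem WM.neck (h : WM D q η) (hT : Coc q.Q D.WQ T) (hK : Kill q.Q D.WQ T) :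
    ∃ g : Bool × PI → H, ∀ i ∈ range chn, ∀ j ∈ range chn, Cst q.Q D.WQ T i j ((g i)⁻¹ * g j) := by
  obtain ⟨g, hg⟩ := chain_cob (q := fun i => q.Q (chn i)) (W := fun i => D.WQ (chn i))
    (T := fun i x j y => T (chn i) x (chn j) y)
    ⟨fun _ _ _ _ _ _ => hT.mul .., fun _ _ => hT.lc _ _⟩
    (fun i => by
      fin_cases i
      exacts [h.holE hT hK true, (h.holm hT hK true).1, (h.holp hT hK true).1,
        (h.holp hT hK false).1, (h.holm hT hK false).1, h.holE hT hK false])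
    (fun i => by
      fin_cases i
      exacts [(h.holm hT hK true).2.elim fun _ k => ⟨_, k.symm hT⟩,
        (h.holp hT hK true).2.elim fun _ k => ⟨_, k.symm hT⟩, h.holpp hT hK,
        (h.holp hT hK false).2, (h.holm hT hK false).2]) h.adj
  refine ⟨fun i => g (idx i), ?_⟩
  rintro _ ⟨i, rfl⟩ _ ⟨j, rfl⟩
  have e : ∀ i, idx (chn i) = i := by decide
  simp only [e]
  exact hg i j

end Pool.Agent.Work.MP_bf98aa_gt.B3
end

-- merged part: Pool.Agent.Work.MP_bf98aa_gt.B3.PMain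
section
/-!
The manifold is simply connected.
-/

set_option autoImplicit false

open scoped Manifold ContDiff Topology Matrix ComplexConjugate
open Set Complex Filter

namespace Pool.Agent.Work.MP_bf98aa_gt.B3

open Pool.Agent.Work.MP_bf98aa_gt.Th Pool.Agent.Work.MP_bf98aa_gt.Cy

variable {M : Type} [TopologicalSpace M] [ChartedSpace E6 M] [IsManifold 𝓘(ℝ, E6) ∞ M]
  {D : GD} {q : Ch M} {η : Fo M 2} {H : Type} [Group H] {T : Bool × PI → E6 → Bool × PI → E6 → H}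

theorem PM_chn (b : Bool) : (b, PI.E) ∈ range chn ∧ (b, PI.m) ∈ range chn ∧
    (b, PI.p) ∈ range chn := by
  cases b
  exacts [⟨⟨5, rfl⟩, ⟨4, rfl⟩, ⟨3, rfl⟩⟩, ⟨⟨0, rfl⟩, ⟨1, rfl⟩, ⟨2, rfl⟩⟩]

theorem PM_not {c : Bool × PI} (h : c ∉ range chn) : ∃ b j, c = (b, .F j) := by
  obtain ⟨b, _ | _ | _ | j⟩ := c
  exacts [(h (PM_chn b).1).elim, (h (PM_chn b).2.1).elim, (h (PM_chn b).2.2).elim, ⟨b, j, rfl⟩]

omit [TopologicalSpace M] [ChartedSpace E6 M] [IsManifold 𝓘(ℝ, E6) ∞ M] in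
theorem PM_main {b : Bool} {c : K3} (hc : c ≠ .f) {x : E6} (hx : x ∈ (D.H b).Wn c) :
    ∃ i ∈ range chn, ∃ y ∈ D.WQ i, q.Q i y = q.N b c x := by
  cases c
  · rcases lt_or_ge 0 (x (2, 0)) with h | h
    · exact ⟨_, (PM_chn b).2.1, x, ⟨hx, h⟩, rfl⟩
    · exact ⟨_, (PM_chn b).1, x, ⟨hx, h.trans_lt (by norm_num)⟩, rfl⟩
  · exact ⟨_, (PM_chn b).2.2, x, hx, rfl⟩
  · exact (hc rfl).elim

theorem WM.cob (h : WM D q η) (hT : Coc q.Q D.WQ T) (hK : Kill q.Q D.WQ T) :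
    ∃ g : Bool × PI → H, ∀ i j, Cst q.Q D.WQ T i j ((g i)⁻¹ * g j) := by
  obtain ⟨g, hg⟩ := h.neck hT hK
  have k : ∀ b j, ∀ y ∈ (D.H b).F0, cc 0 y ≠ 0 →
      ∃ i ∈ range chn, ∃ x ∈ D.WQ i, q.Q i x = q.X j b .F y := fun b j y hy h0 => by
    obtain ⟨c, hc, x, hx, e⟩ := h.F_of (j := j) hy h0
    exact e ▸ PM_main hc hx
  refine coc_extend hT h.parQ (M₀ := {m | ∃ i ∈ range chn, ∃ x ∈ D.WQ i, q.Q i x = m})
    (fun _ => Iff.rfl) (fun c hc => ?_) (fun c hc c' hc' x hx y hy e => ?_) hg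
  · obtain ⟨b, j, rfl⟩ := PM_not hc
    refine HD.conn_F0 (d := D.H b) (fun y hy => ⟨hy.1.1, k b j y hy.1 hy.2⟩) ?_
    rintro y ⟨hy, _, ⟨i, rfl⟩, x, hx, e⟩
    fin_cases i
    exacts [h.F_to hx.1 hy e, h.F_to hx.1 hy e, h.F_to hx hy e, h.F_to hx hy e, h.F_to hx.1 hy e,
      h.F_to hx.1 hy e]
  · obtain ⟨b, j, rfl⟩ := PM_not hc
    obtain ⟨b', j', rfl⟩ := PM_not hc'
    obtain rfl : j = j' := ((h.eX _ _ _ _ _ _ _ hx _ hy).1 e).1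
    obtain ⟨x₁, a1, a2, a3⟩ := (HD.F_pts (h.ok.ok b)).1
    obtain rfl | rfl : b' = b ∨ b' = !b := by cases b <;> cases b' <;> simp
    · exact ⟨x₁, a1.1, x₁, a1.1, rfl, k _ j _ a1 a2,
        (h.holF hT hK _ j x hx y hy e).trans (hT.self _ _).symm⟩
    · rcases h.lu_to hx hy e with h1 | h1
      · obtain ⟨s, hs⟩ := hT.over h.parQ (i := (b, .F j)) (j := (!b, .F j)) (HD.conn_low _)
          inter_subset_left (h.holF hT hK _ j) fun z hz => h.low_of hz.1 hz.2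
        obtain ⟨y₁, b1, b2⟩ := h.low_of (j := j) a1.1 a3
        exact ⟨x₁, a1.1, y₁, b1, b2, k _ j _ a1 a2,
          (hs x ⟨hx, h1⟩ y hy e).trans (hs x₁ ⟨a1.1, a3⟩ y₁ b1 b2).symm⟩
      · obtain ⟨s, hs⟩ := hT.over h.parQ (i := (b, .F j)) (j := (!b, .F j)) (D.H b).conn_up'
          inter_subset_left (h.holF hT hK _ j) fun z hz => h.up_of hz.1 hz.2.1 hz.2.2
        obtain ⟨x₂, c1, c2, c3⟩ := HD.F_pt (h.ok.ok b)
        obtain ⟨y₂, b1, b2⟩ := h.up_of (j := j) c1.1 c3.1 c3.2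
        exact ⟨x₂, c1.1, y₂, b1, b2, k _ j _ c1 c2,
          (hs x ⟨hx, h1⟩ y hy e).trans (hs x₂ ⟨c1.1, c3⟩ y₂ b1 b2).symm⟩

theorem WM.sc (h : WM D q η) : SimplyConnectedSpace M := by
  have k : ∀ (i : Fin 3) (z : E6), z ∉ {z : E6 | z (i, 0) = 0 ∧ z (i, 1) = 0} → cc i z ≠ 0 :=
    fun i z hz e => hz ⟨congrArg re e, congrArg im e⟩
  have t : ∀ i : Fin 3, Thin {z : E6 | z (i, 0) = 0 ∧ z (i, 1) = 0} := fun i =>
    thin_pair (by simp) 0 0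
  have k1 : ∀ {b c x}, c ≠ .f → x ∈ (D.H b).Wn c → ∃ i, ∃ y ∈ D.WQ i, q.Q i y = q.N b c x :=
    fun hc hx => (PM_main hc hx).imp fun _ k => k.2
  refine sc_of_main h.parQ h.scQ (fun m => ?_) (true, .E) ?_ fun H _ T hT hK => h.cob hT hK
  · rcases h.cov m with ⟨b, c, x, hx, rfl⟩ | ⟨b, j, x, hx, rfl⟩ | ⟨j, b, c, x, hx, rfl⟩ |
      ⟨j, i, x, hx, rfl⟩
    · by_cases hc : c = .f
      · subst hc
        refine Or.inr ⟨_, _, x, _, h.pN b .f, hx, rfl, t 0, fun z hz h0 => ?_⟩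
        obtain ⟨y, hy, e⟩ := h.f_of hz (k 0 z h0)
        exact e ▸ k1 (c := .m) nofun hy
      · exact Or.inl (k1 hc hx)
    · refine Or.inr ⟨_, _, x, _, h.pK b j, hx, rfl, t 1, fun z hz h0 => ?_⟩
      obtain ⟨y, hy, e⟩ := h.K_of (b := b) (k := j) hz (k 1 z h0)
      exact e ▸ k1 (c := .m) nofun hy
    · exact Or.inr ⟨_, _, x, _, h.pX j b c, hx, rfl, t 1, fun z hz h0 =>
        ⟨(b, .F j), h.X_of hz (k 1 z h0)⟩⟩
    · exact Or.inr ⟨_, _, x, _, h.pT j i, hx, rfl, t 1, fun z hz h0 =>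
        ⟨(true, .F j), h.T_of hz (k 1 z h0)⟩⟩
  · let R := fun i j => ∃ x ∈ D.WQ i, ∃ y ∈ D.WQ j, q.Q i x = q.Q j y
    have s : ∀ {i j}, R i j → R j i := fun ⟨x, hx, y, hy, e⟩ => ⟨y, hy, x, hx, e.symm⟩
    have r1 : ∀ b, R (b, .m) (b, .E) := fun b => by
      obtain ⟨x, hx⟩ := (HD.conn_Em (h.ok.ok b)).nonempty
      exact ⟨x, hx.1, x, ⟨hx.1.1, hx.2⟩, rfl⟩
    have r2 : ∀ b, R (b, .p) (b, .m) := fun b => by
      obtain ⟨x, hx⟩ := (HD.conn_mp (h.ok.ok b)).nonempty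
      obtain ⟨y, hy, e1, e2⟩ := h.mp_of hx.1 hx.2.1 hx.2.2
      have a1 : 0 < x (2, 0) - (D.H b).μ₁ := hx.1.1.1
      exact ⟨x, hx.1, y, ⟨hy, show 0 < y (2, 0) by linarith only [e1, a1, h, (h.ok.ok b).hμ]⟩, e2.symm⟩
    have r3 : R (false, .p) (true, .p) := by
      obtain ⟨x, hx⟩ := (HD.conn_pp (h.ok.ok false)).nonempty
      exact ⟨x, hx.1, h.cross_of hx.1 hx.2⟩
    have r4 : ∀ b j, R (b, .F j) (b, .E) := fun b j => by
      obtain ⟨a, -, h2, -⟩ := HD.ring_path (h.ok.ok b) j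
      exact ⟨_, HD.PQ_mem (h.ok.ok b) (h2 0).1, a 0, ⟨(h2 0).1.1, (h2 0).2.trans_lt (by norm_num)⟩,
        (h.gP j b 0 _ (h2 0).1).symm⟩
    have u2 : Relation.ReflTransGen R (true, .p) (true, .E) := .head (r2 _) (.single (r1 _))
    have u4 : Relation.ReflTransGen R (false, .m) (true, .E) := .head (s (r2 _)) (.head r3 u2)
    rintro ⟨_ | _, _ | _ | _ | j⟩
    exacts [.head (s (r1 _)) u4, u4, .head r3 u2, .head (r4 _ j) (.head (s (r1 _)) u4), .refl,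
      .single (r1 _), u2, .single (r4 _ j)]

end Pool.Agent.Work.MP_bf98aa_gt.B3
end
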