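import Pool.Agent.Work.MP_bf98aa_gt.Cy.N6
import Pool.Agent.Work.MP_bf98aa_gt.Cy.N7
import Pool.Agent.Work.MP_bf98aa_gt.Cy.G10b
import Pool.Agent.Work.MP_bf98aa_gt.B3.HH3
import Pool.Agent.Work.MP_bf98aa_gt.B3.HL
import Pool.Agent.Work.MP_bf98aa_gt.B3.HO1
import Pool.Agent.Work.MP_bf98aa_gt.B3.HY2
import Pool.Agent.Work.MP_bf98aa_gt.B3.F5
import Pool.Agent.Work.MP_bf98aa_gt.B3.HW3
import Pool.Agent.Work.MP_bf98aa_gt.Cy.Q8
import Pool.Agent.Work.MP_bf98aa_gt.Cy.Q10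
import Pool.Agent.Work.MP_bf98aa_gt.Cy.Q11
import Pool.Agent.Work.MP_bf98aa_gt.Cy.StmtM
import Pool.Agent.Work.MP_bf98aa_gt.Cy.StmtQ
import Pool.Agent.Work.MP_bf98aa_gt.B3.A3
import Pool.Agent.Work.MP_bf98aa_gt.B3.PMain

-- merged part: Pool.Agent.Work.MP_bf98aa_gt.Cy.Q12
section
-- merged part: Pool.Agent.Work.MP_bf98aa_gt.Cy.N8
section
/-!
The volume is bounded; transfer along diffeomorphisms.

PLAN. `vol_bound`: with `w = η' - t η` one has `rat η η' η' η' = t ^ 3 + rat η w η' η' + rat η w (t η) η' + rat η w (t η) (t η)` (`exists_pfM`, `pf_perm`, `pf_smul`, `pf_ne_zero`), so `J r = t ^ 3 J 1` for `r = rat η η' η' η'`;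
`r` is continuous and nowhere zero, so `|r| = r` or `|r| = -r`. On the domain `pl f η' y = omA` (`pull_eq`, `alt_ext_two`, `IPf_omA`), hence `|r (f y)| * |pf (pl f η y)| = pf omA > 0` (`pf_pl`, `pf_omA`); `Vol.le`.
`transfer`: `η m = (η' (φ m)).compContinuousLinearMap (mfderiv φ m)`, `pl c η = pl (φ ∘ c) η'` at points where `c` is smooth, `Par (φ ∘ ψ) U`; compose the sphere and the domain with `φ.symm`.
-/

set_option autoImplicit false

open scoped Manifold ContDiff Topology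
open Set Complex

namespace Pool.Agent.Work.MP_bf98aa_gt.Cy

open Pool.Agent.Work.MP_bf98aa_gt.Th

variable {M : Type} [TopologicalSpace M] [ChartedSpace E6 M] [IsManifold 𝓘(ℝ, E6) ∞ M]

variable {η : Fo M 2}

theorem N8_pf (e w : Alt E6 2) (t : ℝ) : pf ![w + t • e, w + t • e, w + t • e] =
    t ^ 3 * (pf fun _ : Fin 3 => e) + pf ![w, w + t • e, w + t • e] + pf ![w, t • e, w + t • e] +
      pf ![w, t • e, t • e] := by
  obtain ⟨Φ, hΦ⟩ := exists_pfM (S := Fin 3)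
  have ad : ∀ a a' b c : Alt E6 2, pf ![a + a', b, c] = pf ![a, b, c] + pf ![a', b, c] :=
    fun a a' b c => by
      rw [← hΦ, ← hΦ, ← hΦ]
      exact Φ.cons_add ![b, c] a a'
  have s1 : ∀ a b c : Alt E6 2, pf ![a, b, c] = pf ![b, a, c] := fun a b c => by
    rw [← pf_perm ![b, a, c] (Equiv.swap 0 1)]
    exact congrArg pf (funext fun s => by fin_cases s <;> rfl)
  have s2 : ∀ a b c : Alt E6 2, pf ![a, b, c] = pf ![c, b, a] := fun a b c => by
    rw [← pf_perm ![c, b, a] (Equiv.swap 0 2)]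
    exact congrArg pf (funext fun s => by fin_cases s <;> rfl)
  have s3 : pf ![t • e, t • e, t • e] = t ^ 3 * pf fun _ : Fin 3 => e := by
    have := pf_smul (fun _ : Fin 3 => t) fun _ => e
    rw [Fin.prod_const] at this
    rw [← this]
    exact congrArg pf (funext fun s => by fin_cases s <;> rfl)
  rw [ad, s1 (t • e), ad, s2 (t • e), ad, s3]
  ring

theorem N8_cube [T2Space M] [CompactSpace M] {J : (M → ℝ) → ℝ} (hJ : Vol η J) (hη : ClO η univ)
    (hn : Form.Nondeg (E := E6) (M := M) η) {η' : Fo M 2} {t : ℝ} (hc : ClO η' univ)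
    (he : ExO (η' - t • η) univ) : J (rat η η' η' η') = t ^ 3 * J 1 := by
  have ht := hη.smul t
  have hw := (hc.sub ht).sm
  have e : rat η η' η' η' = t ^ 3 • (1 : M → ℝ) + rat η (η' - t • η) η' η' +
      rat η (η' - t • η) (t • η) η' + rat η (η' - t • η) (t • η) (t • η) := funext fun m => by
    have h1 := N8_pf (η m) (η' m - t • η m) t
    rw [sub_add_cancel] at h1
    simp only [rat, Pi.add_apply, Pi.smul_apply, Pi.sub_apply, Pi.one_apply, smul_eq_mul, h1,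
      add_div, mul_div_assoc, div_self (pf_ne_zero (η m) (hn m))]
  have c0 : Continuous (t ^ 3 • (1 : M → ℝ)) := continuous_one.const_smul _
  have c1 := cont_rat hη.sm hn hw hc.sm hc.sm
  have c2 := cont_rat hη.sm hn hw ht.sm hc.sm
  rw [e, hJ.add _ _ ((c0.add c1).add c2) (cont_rat hη.sm hn hw ht.sm ht.sm),
    hJ.add _ _ (c0.add c1) c2, hJ.add _ _ c0 c1, hJ.smul, hJ.stokes hη.sm hn he hc hc,
    hJ.stokes hη.sm hn he ht hc, hJ.stokes hη.sm hn he ht ht, add_zero, add_zero, add_zero]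

theorem vol_bound [T2Space M] [CompactSpace M] [ConnectedSpace M] (hη : ClO η univ)
    (hn : Form.Nondeg (E := E6) (M := M) η) : ∃ C : ℝ, 0 ≤ C ∧ ∀ (η' : Fo M 2) (t N : ℝ),
      ClO η' univ → Form.Nondeg (E := E6) (M := M) η' → ExO (η' - t • η) univ →
      BigDomain (n := 3) (M := M) η' N → N ≤ |t| ^ 3 * C := by
  obtain ⟨J, hJ⟩ := exists_vol hη.sm
  have P0 := pf_omA (S := Fin 3)
  refine ⟨|J 1| / pf fun _ : Fin 3 => omA, div_nonneg (abs_nonneg _) P0.le, ?_⟩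
  rintro η' t N hc hn' he ⟨W, f, hW, hf, hi, ho, hN⟩
  have e : ∀ m, rat η η' η' η' m = (pf fun _ : Fin 3 => η' m) / pf fun _ : Fin 3 => η m := fun m =>
    congrArg (fun x => pf x / _) (funext fun s => by fin_cases s <;> rfl)
  have cr := cont_rat hη.sm hn hc.sm hc.sm hc.sm
  have hb : J |rat η η' η' η'| ≤ |t| ^ 3 * |J 1| := by
    rw [← abs_pow, ← abs_mul, ← N8_cube hJ hη hn hc he]
    rcases isPreconnected_univ.mapsTo_Ioi_or_Iio (b := 0) cr.continuousOn (fun m _ => by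
      rw [e]
      exact div_ne_zero (pf_ne_zero _ (hn' m)) (pf_ne_zero _ (hn m))) with h | h
    · rw [abs_of_nonneg fun m => le_of_lt (h (mem_univ m))]
      exact le_abs_self _
    · rw [abs_of_nonpos fun m => le_of_lt (h (mem_univ m)), ← neg_one_smul ℝ, hJ.smul,
        neg_one_mul]
      exact neg_le_abs _
  have h1 := hJ.le f W hW (fun y hy => hf.contMDiffAt (hW.mem_nhds hy)) hi |rat η η' η' η'|
    cr.abs fun m => abs_nonneg _
  rw [MeasureTheory.setLIntegral_congr_fun hW.measurableSet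
    (g := fun _ => ENNReal.ofReal (pf fun _ : Fin 3 => omA)) fun y hy => ?_,
    MeasureTheory.setLIntegral_const] at h1
  · have h2 := ((mul_le_mul_right hN _).trans h1).trans (ENNReal.ofReal_le_ofReal hb)
    rw [← ENNReal.ofReal_mul P0.le, ENNReal.ofReal_le_ofReal_iff (by positivity)] at h2
    rw [← mul_div_assoc, le_div_iff₀' P0]
    exact h2
  · have h3 : pl f η' y = omA := alt_ext_two fun u v => (ho y hy u v).trans (IPf_omA u v).symm
    have h4 := pf_pl f (fun _ => η') y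
    rw [h3] at h4
    refine congrArg ENNReal.ofReal ?_
    rw [Pi.abs_apply, e, pf_pl f (fun _ => η) y, ← abs_mul, mul_left_comm,
      div_mul_cancel₀ _ (pf_ne_zero _ (hn _)), ← h4, abs_of_pos P0]


theorem transfer {M' : Type} [TopologicalSpace M'] [ChartedSpace E6 M'] [IsManifold 𝓘(ℝ, E6) ∞ M']
    (φ : Diffeomorph 𝓘(ℝ, E6) 𝓘(ℝ, E6) M M' ∞) {η' : Fo M' 2} {N : ℝ} (hc : ClO η' univ)
    (hn : Form.Nondeg (E := E6) (M := M') η') (hs : UnitSphere (E := E6) (M := M') η')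
    (hb : BigDomain (n := 3) (M := M') η' N) :
    ∃ η : Fo M 2, ClO η univ ∧ Form.Nondeg (E := E6) (M := M) η ∧ UnitSphere (E := E6) (M := M) η ∧
      BigDomain (n := 3) (M := M) η N := by
  let η : Fo M 2 := fun m =>
    (η' (φ m)).compContinuousLinearMap (mfderiv 𝓘(ℝ, E6) 𝓘(ℝ, E6) φ m : E6 →L[ℝ] E6)
  have key : ∀ {F : Type} [NormedAddCommGroup F] [NormedSpace ℝ F] {c : F → M} {y : F},
      SmAt c y → pl c η y = pl (φ ∘ c) η' y := fun {F} _ _ {c y} h => by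
    have h1 : dM (φ ∘ c) y = (mfderiv 𝓘(ℝ, E6) 𝓘(ℝ, E6) φ (c y) : E6 →L[ℝ] E6).comp (dM c y) :=
      mfderiv_comp y (φ.mdifferentiable (by simp) _) (ContMDiffAt.mdifferentiableAt h (by simp))
    unfold pl
    rw [h1]
    rfl
  have back : ∀ {F : Type} [NormedAddCommGroup F] [NormedSpace ℝ F] {c : F → M'} {y : F},
      SmAt c y → pl (φ.symm ∘ c) η y = pl c η' y := fun {F} _ _ {c y} h => by
    rw [key (φ.symm.contMDiff.contMDiffAt.comp y h),
      show φ ∘ φ.symm ∘ c = c from funext fun z => φ.apply_symm_apply _]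
  refine ⟨η, fun ψ U hP _ => G2_cl hP.opn (hc.pl isOpen_univ hP.opn
    (fun y hy => φ.contMDiff.contMDiffAt.comp y (hP.sm y hy)) (mapsTo_univ _ _))
    fun y hy => key (hP.sm y hy), fun m u hu => ?_, ?_, ?_⟩
  · let D := φ.mfderivToContinuousLinearEquiv (by simp) m
    refine D.injective ((hn (φ m) (D u) fun v => ?_).trans (map_zero D).symm)
    obtain ⟨v, rfl⟩ := D.surjective v
    exact (IPf_comp (E := E6) (η' (φ m)) (mfderiv 𝓘(ℝ, E6) 𝓘(ℝ, E6) φ m) u v).symm.trans (hu v)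
  · obtain ⟨f, hf, ⟨m, R, hR⟩, h1⟩ := hs
    refine ⟨φ.symm ∘ f, φ.symm.contMDiff.comp hf,
      ⟨φ.symm m, R, fun z hz => congrArg φ.symm (hR z hz)⟩, ?_⟩
    rw [← h1, pull_eq, pull_eq, show pl (φ.symm ∘ f) η = pl f η' from funext fun z => back (hf z)]
  · obtain ⟨W, f, hW, hf, hi, ho, hN⟩ := hb
    refine ⟨W, φ.symm ∘ f, hW, φ.symm.contMDiff.comp_contMDiffOn hf,
      φ.symm.injective.comp_injOn hi, fun y hy u v => ?_, hN⟩
    rw [← ho y hy u v, pull_eq, pull_eq, back (hf.contMDiffAt (hW.mem_nhds hy))]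


theorem bound [T2Space M] [CompactSpace M] [ConnectedSpace M] (hη : ClO η univ)
    (hn : Form.Nondeg (E := E6) (M := M) η) (h2 : ∀ w, ClO w univ → ∃ t : ℝ, ExO (w - t • η) univ)
    (hs : UnitSphere (E := E6) (M := M) η) : ∃ C : ℝ, ∀ (η' : Fo M 2) (N : ℝ), ClO η' univ →
      Form.Nondeg (E := E6) (M := M) η' → UnitSphere (E := E6) (M := M) η' →
      BigDomain (n := 3) (M := M) η' N → N ≤ C := by
  obtain ⟨D, hD⟩ := area_discrete hη h2 (unitSphere_iff.1 hs)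
  obtain ⟨C, hC0, hC⟩ := vol_bound hη hn
  refine ⟨D ^ 3 * C, fun η' N hc hn' hs' hb => ?_⟩
  obtain ⟨t, ht⟩ := h2 η' hc
  obtain ⟨f, hf, h1⟩ := unitSphere_iff.1 hs'
  have e := area_sub hc.sm hη.sm hf t
  rw [area_ex ht hf, h1] at e
  exact (hC η' t N hc hn' ht hb).trans (mul_le_mul_of_nonneg_right
    (pow_le_pow_left₀ (abs_nonneg t) (hD f hf t (by linarith)) 3) hC0)


end Pool.Agent.Work.MP_bf98aa_gt.Cy
end

-- merged part: Pool.Agent.Work.MP_bf98aa_gt.Cy.Q12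
section
/-!
Orientation and the sign of the cube of a class.

PLAN. `sign_eq`: `t ↦ top ((H t).loc p y)` is continuous on `Icc 0 1` (`contDiff_pf`) and nowhere zero (`pf_ne_zero`, `pf_pl`, `Par.bij`, `par_chart`); intermediate value theorem. `HasIntegral.congr`: `setIntegral_congr_fun`.
`int_pos`: `J` from `exists_vol`; a finite continuous partition of unity `ρ p ≥ 0` with `tsupport (ρ p) ⊆ source p` (copy `exists_part` of `Th/IMain.lean`, or the copy in `N6`; do not import `IMain`). With `r = rat o w w w` (`cont_rat`) each term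
of `HasIntegral` is `J (ρ p * r) / 8` (`Vol.loc`, `pf_pl`: `sign (pf o) * pf w = r * |pf o|`), so `c = J r / 8` (`Vol.add`). As in `vol_bound` (`N8`): `J r = l ^ 3 * J 1` (`Vol.stokes` three times), and `J 1 = ∑ J (ρ p) ≥ 0`.
-/

set_option autoImplicit false

open scoped Manifold ContDiff Topology ComplexConjugate
open Set Complex

namespace Pool.Agent.Work.MP_bf98aa_gt.Cy

open Pool.Agent.Work.MP_bf98aa_gt.Th

variable {M : Type} [TopologicalSpace M] [ChartedSpace E6 M] [IsManifold 𝓘(ℝ, E6) ∞ M]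
  {τ o w : Fo M 2} {c l : ℝ}

theorem Homotopic.sign_eq (h : Homotopic (E := E6) (M := M) τ o) (p : M) {y : E6}
    (hy : y ∈ (chartAt E6 p).target) :
    SignType.sign (top (Form.loc (E := E6) (M := M) τ p y)) =
      SignType.sign (top (Form.loc (E := E6) (M := M) o p y)) := by
  obtain ⟨H, h0, h1, hn, hs⟩ := h
  have c1 : Continuous fun t : ℝ => Form.loc (E := E6) (M := M) (H t) p y :=
    (hs p).continuousOn.comp_continuous (continuous_id.prodMk continuous_const)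
      fun t => ⟨mem_univ _, hy⟩
  have c2 : Continuous fun t : ℝ => top (Form.loc (E := E6) (M := M) (H t) p y) :=
    ((contDiff_pf (S := Fin 3)).continuous.comp (continuous_pi fun _ => c1)).div_const _
  have nz : ∀ t ∈ Icc (0 : ℝ) 1, top (Form.loc (E := E6) (M := M) (H t) p y) ≠ 0 := fun t ht =>
    div_ne_zero (N7_rat (η := H t) (hn t ht) (par_chart p) hy).1 (by positivity)
  rw [← h0, ← h1]
  rcases isPreconnected_Icc.mapsTo_Ioi_or_Iio (b := 0) c2.continuousOn nz with k | k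
  · rw [sign_pos (k (left_mem_Icc.2 zero_le_one)), sign_pos (k (right_mem_Icc.2 zero_le_one))]
  · rw [sign_neg (k (left_mem_Icc.2 zero_le_one)), sign_neg (k (right_mem_Icc.2 zero_le_one))]

theorem Homotopic.hasIntegral (h : Homotopic (E := E6) (M := M) τ o)
    (hi : HasIntegral (n := 3) (M := M) τ w c) : HasIntegral (n := 3) (M := M) o w c := by
  intro s ρ h1 h2 h3
  rw [← hi s ρ h1 h2 h3]
  refine Finset.sum_congr rfl fun p _ => MeasureTheory.setIntegral_congr_fun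
    (chartAt E6 p).open_target.measurableSet fun y hy => ?_
  rw [h.sign_eq p hy]

omit [IsManifold 𝓘(ℝ, E6) ∞ M] in
theorem Q12_sum {J : (M → ℝ) → ℝ} (hJ : Vol o J) (t : Finset M) {u : M → M → ℝ}
    (hu : ∀ p, Continuous (u p)) : J (∑ p ∈ t, u p) = ∑ p ∈ t, J (u p) := by
  classical
  induction t using Finset.induction_on with
  | empty =>
    have := hJ.smul 0 0
    rwa [zero_smul, zero_mul] at this
  | insert a s ha ih =>
    have : Continuous (∑ p ∈ s, u p) := by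
      rw [show ∑ p ∈ s, u p = fun m => ∑ p ∈ s, u p m from funext fun m => Finset.sum_apply _ _ _]
      exact continuous_finsetSum s fun p _ => hu p
    rw [Finset.sum_insert ha, Finset.sum_insert ha, hJ.add _ _ (hu a) this, ih]

theorem Q12_loc {J : (M → ℝ) → ℝ} (hJ : Vol o J) (p : M) {u : M → ℝ} (hu : Continuous u)
    (hs : tsupport u ⊆ (chartAt E6 p).source) :
    J u = ∫ y in (chartAt E6 p).target,
      u ((chartAt E6 p).symm y) * |pf fun _ : Fin 3 => pl (chartAt E6 p).symm o y| :=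
  hJ.loc _ _ (par_chart p) (chartAt E6 p).symm.injOn u hu
    (by rwa [(chartAt E6 p).symm_image_target_eq_source])

theorem Q12_sign (a b : ℝ) (ha : a ≠ 0) :
    ((SignType.sign (a / 2 ^ 3) : SignType) : ℝ) * (b / 2 ^ 3) = b / a * |a| / 8 := by
  rcases ha.lt_or_gt with h | h
  · rw [sign_neg (by linarith), abs_of_neg h]
    simp only [SignType.coe_neg, SignType.coe_one]
    field_simp
    norm_num
  · rw [sign_pos (by linarith), abs_of_pos h]
    simp only [SignType.coe_one]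
    field_simp
    norm_num

theorem int_pos [T2Space M] [CompactSpace M] (ho : ClO o univ)
    (hn : Form.Nondeg (E := E6) (M := M) o) (hw : ClO w univ) (he : ExO (w - l • o) univ)
    (hi : HasIntegral (n := 3) (M := M) o w c) (hc : 0 < c) : 0 < l := by
  obtain ⟨J, hJ⟩ := exists_vol ho.sm
  obtain ⟨t, ρ, h1, h2, h3, h4⟩ := N6_part (M := M)
  have cr := cont_rat ho.sm hn hw.sm hw.sm hw.sm
  have e1 : J 1 = ∑ p ∈ t, J (ρ p) := by
    rw [← Q12_sum hJ t h1]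
    exact congrArg J (funext fun m => by rw [Finset.sum_apply, h3, Pi.one_apply])
  have e2 : J (rat o w w w) = ∑ p ∈ t, J (ρ p * rat o w w w) := by
    rw [← Q12_sum hJ t fun p => (h1 p).mul cr]
    exact congrArg J (funext fun m => by
      simp only [Finset.sum_apply, Pi.mul_apply, ← Finset.sum_mul, h3, one_mul])
  have p1 : 0 ≤ J 1 := by
    rw [e1]
    refine Finset.sum_nonneg fun p _ => ?_
    rw [Q12_loc hJ p (h1 p) (h2 p)]
    exact MeasureTheory.integral_nonneg fun y => mul_nonneg (h4 _ _) (abs_nonneg _)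
  have e3 : c = J (rat o w w w) / 8 := by
    rw [← hi t ρ h1 h2 h3, e2, Finset.sum_div]
    refine Finset.sum_congr rfl fun p _ => ?_
    rw [Q12_loc hJ p ((h1 p).mul cr) (tsupport_mul_subset_left.trans (h2 p)),
      ← MeasureTheory.integral_div]
    refine MeasureTheory.setIntegral_congr_fun (chartAt E6 p).open_target.measurableSet
      fun y hy => ?_
    obtain ⟨k1, k2⟩ := N7_rat hn (par_chart p) hy
    have k3 : (pf ![pl (chartAt E6 p).symm w y, pl (chartAt E6 p).symm w y,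
        pl (chartAt E6 p).symm w y]) = pf fun _ : Fin 3 => pl (chartAt E6 p).symm w y :=
      congrArg pf (funext fun s => by fin_cases s <;> rfl)
    rw [Pi.mul_apply, k2, k3, mul_assoc, mul_div_assoc, ← Q12_sign _ _ k1]
    rfl
  rw [N8_cube hJ ho hn hw he] at e3
  by_contra hl
  have : l ^ 3 ≤ 0 := Odd.pow_nonpos (by decide) (not_lt.1 hl)
  nlinarith [mul_nonneg (neg_nonneg.2 this) p1]

end Pool.Agent.Work.MP_bf98aa_gt.Cy
end
end

-- merged part: Pool.Agent.Work.MP_bf98aa_gt.B3.HH2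
section
/-!
A closed 2-form on the neck without holes that vanishes on the upper strand through `0` is exact.
PLAN. `α₁ = α - dF β` (`normC`), `α₂ = avgF α₁`; `ins α₂ = 0` at the points `xv z = 0` of `p` (`avg_ins`). `B = glueQ (ins α₂)` with sign `-1`, `NearC` with `0` by `ins_yF`; closed. `torusPair` (odd degree): `B = dγ`,
`γ b = fn0 (r b)`. `r b` is a constant `t b` on a tube (`Cl.const`) and constant along `xv z = 0`, `0 < tt z < 9/8`, so `t (!b) = -t b` (`mid` at `mk4 0 M 0`); `r b + r b ∘ kb` is constant on `QF`.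
Put `r' b = r b - t b - s b * (1 - og μ)` with `s b` such that `Fold (-1)` holds; `liftL`: `L`. `α₄ = α₂ + dF L + xiF s` has `ins α₄ = 0` up to the sign of `s` (`ins_d`, `ins_xi`), `a = glueQ α₄` with sign `1`;
`a - s • gv` is closed (`d_xi`, `eqOn_Q`); `torusPair`: `= c + da₁`; `cst_zero` on `QF` and `gv_kb`, `lin2`: `c = 0`, `s = 0`. `yF_exact` with `Hor.pair`: `e = 0`. `torusE` on `QF`, `fixFold`, `near1`, `fixNear`,
`lift_bas`, `liftC`, `IsDF.of_dense`, `n_den`.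
-/

set_option autoImplicit false

open scoped Manifold ContDiff Topology Matrix ComplexConjugate
open Set Complex Filter

namespace Pool.Agent.Work.MP_bf98aa_gt.B3

open Pool.Agent.Work.MP_bf98aa_gt.Th Pool.Agent.Work.MP_bf98aa_gt.Cy

variable {D : GD} {k : ℕ} {i j : Bool × K3} {b b' : Bool} {c : K3} {x y z : E6}

theorem HH2_ev {U : Set E6} (hU : IsOpen U) {f g : Fm E6 k} (hz : z ∈ U)
    (h : ∀ y ∈ U, f y = g y) : extDeriv f z = extDeriv g z :=
  Filter.EventuallyEq.extDeriv_eq (Filter.eventually_of_mem (hU.mem_nhds hz) h)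

theorem HH2_sy0 {S : Finset Cx} {U : Set E6} (c : Alt E6 0) : Sy S U fun _ => c :=
  ⟨fun _ _ _ _ => rfl, fun _ _ => pb_deg_zero _ _ _, fun _ _ => pb_deg_zero _ _ _⟩

theorem HH2_tube {d : HD} {ε ε' : ℝ} (h : ε ≤ ε') : d.Tube ε ⊆ d.Tube ε' := fun _ hz =>
  ⟨hz.1.trans_le h, hz.2.1.trans_le h, hz.2.2.trans_le h⟩

theorem HH2_high {d : HD} (h : d.Ok) {ε : ℝ} (hε : ε ≤ 1 / 8) (hz : z ∈ d.Tube ε) :
    1 / 16 < z (2, 0) := by
  have h1 := (abs_lt.1 hz.2.2).1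
  have h2 := h.hμ
  simp only [HD.tt] at h1
  linarith

theorem HH2_mid {d : HD} (h : d.Ok) (hz : z ∈ d.Mid) : 1 / 16 < z (2, 0) := by
  have h1 : d.M - 1 / 8 < z (2, 0) := hz.1
  have h2 := HS1_M h
  linarith

theorem HH2_kb (d : HD) (z : E6) : d.kb z (2, 0) = -z (2, 0) := by
  simp [HD.kb, ML_apply]

theorem HH2_og : ContDiff ℝ ∞ fun y : E6 => og (y (2, 0)) :=
  contDiff_og.comp (dc (2, 0)).contDiff

theorem HH2_dog (s : ℝ) (z : E6) :
    extDeriv (fun y : E6 => (1 - og (y (2, 0))) • G4_c E6 s) z =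
      -(s • dfn (fun y => og (y (2, 0))) z) := by
  have e : (fun y : E6 => (1 - og (y (2, 0))) • G4_c E6 s) =
      (fun _ => G4_c E6 s) - s • fn0 fun y => og (y (2, 0)) := by
    funext y
    ext v
    simp [G4_c, fn0]
    ring
  have h1 : DifferentiableAt ℝ (fn0 fun y : E6 => og (y (2, 0))) z :=
    Sm.diffAt (sm_fn0.2 HH2_og.contDiffOn) isOpen_univ (mem_univ z)
  rw [e, extDeriv_sub' (differentiableAt_const _) (h1.const_smul s), extDeriv_const,
    extDeriv_smul, extDeriv_fn0, zero_sub]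

theorem HH2_A (h : D.Ok) {B : Bool → Fm E6 1} (hB : D.Pr (-1) B)
    (hF : ∀ b, (D.H b).Fold (-1) (B b)) (hc : ∀ b, ∀ z ∈ (D.H b).Q, extDeriv (B b) z = 0)
    {ε : ℝ} (h0 : 0 < ε) (h8 : ε ≤ 1 / 8) (hT : ∀ b, ∀ z ∈ (D.H b).Tube ε, B b z = 0)
    (hL : ∀ b, ∀ z ∈ (D.H b).Wo .p, xv z = 0 → B b z = 0) :
    ∃ (γ : Bool → Fm E6 0) (s : Bool → ℝ), D.Pr (-1) γ ∧ (∀ b, (D.H b).Fold (-1) (γ b)) ∧
      (∀ b, ∀ z ∈ (D.H b).Tube ε, γ b z = 0) ∧ ∀ b, ∀ z ∈ (D.H b).Q,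
        extDeriv (γ b) z = B b z + s b • dfn (fun y => og (y (2, 0))) z := by
  obtain ⟨c, γ, -, hc0, -, hγ, hd⟩ := h.torusPair (Or.inr rfl) hB hc
  have hd' : ∀ b, ∀ z ∈ (D.H b).Q, extDeriv (γ b) z = B b z := fun b z hz => by
    rw [hd b z hz, hc0 (by decide) b, sub_zero]
  have hQ : ∀ b, IsOpen (D.H b).Q := fun b => (h.ok b).domE_Q.opn
  have hTQ : ∀ b, (D.H b).Tube ε ⊆ (D.H b).Q := fun b => (h.ok b).Tube_sub (by linarith)
  let T : Bool → Alt E6 0 := fun b => γ b (mk4 0 (D.H b).μ₁ 0)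
  have hTc : ∀ b, ∀ z ∈ (D.H b).Tube ε, γ b z = T b := fun b z hz =>
    Cl.const ⟨(hγ.sm b).mono (hTQ b), fun y hy => (hd' b y (hTQ b hy)).trans (hT b y hy)⟩
      (domE_tube _ h0).opn (domE_tube _ h0).dom.preconn hz (domE_tube _ h0).mem
  have hM : ∀ b, γ b (mk4 0 (D.H b).M 0) = T b := by
    intro b
    have hμ := (h.ok b).hμ
    have hU := domE_slab (a := (D.H b).μ₁) (b := (D.H b).μ₁ + 9 / 8) (μ₀ := (D.H b).M)
      (by simp [HD.M]) (by simp only [HD.M]; linarith)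
    have e : ∀ y : E6, slice {(2, 0)} 0 y = mk4 0 (y (2, 0)) 0 := fun y => by
      apply ext6 <;> simp [slice]
    have hW : ∀ y ∈ Slab (D.H b).μ₁ ((D.H b).μ₁ + 9 / 8),
        slice {(2, 0)} 0 y ∈ (D.H b).Wo .p := fun y hy => by
      rw [e]
      have h1 := hy.1
      have h2 := hy.2
      constructor <;> simp only [HD.tt, mk4_20] <;> linarith
    have hWQ : ∀ y ∈ (D.H b).Wo .p, y ∈ (D.H b).Q := fun y hy =>
      GD.Vmp_Q (i := (b, .p)) h ⟨by simp, hy⟩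
    have hcl : Cl (pb (slice {(2, 0)} 0) (γ b)) (Slab (D.H b).μ₁ ((D.H b).μ₁ + 9 / 8)) := by
      refine ⟨(hγ.sm b).pb hU.opn (hQ b) (G6_sm _ _).contDiffOn fun y hy => hWQ _ (hW y hy),
        fun y hy => ?_⟩
      rw [extDeriv_pb ((hγ.sm b).diffAt (hQ b) (hWQ _ (hW y hy))) (G6_sm _ _).contDiffAt,
        pb_congr' (β := 0) ((hd' b _ (hWQ _ (hW y hy))).trans (hL b _ (hW y hy) (by simp [e]))),
        pb_zero]
      rfl
    have h1 := hcl.const hU.opn hU.dom.preconn hU.mem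
      (y := mk4 0 ((D.H b).μ₁ + ε / 2) 0) ⟨by simp [h0], by simp only [mk4_20]; linarith⟩
    rw [pb_deg_zero, pb_deg_zero, e, e, mk4_20, mk4_20] at h1
    rw [h1]
    refine hTc b _ ⟨by simpa using h0, by simpa using h0, ?_⟩
    simp only [HD.tt, mk4_20, add_sub_cancel_left]
    rw [abs_of_pos (half_pos h0)]
    exact half_lt_self h0
  have hTT : ∀ b, T (!b) = (-1 : ℝ) • T b := by
    intro b
    have h1 := hγ.mid b (mk4 0 (D.H b).M 0) ⟨by simp, by simp⟩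
    have e : D.gb b (mk4 0 (D.H b).M 0) = mk4 0 (D.H (!b)).M 0 := by
      apply ext6 <;> simp [GD.gb, ML_apply]
    rwa [pb_deg_zero, e, hM, hM] at h1
  have hκ : ∀ b, ∃ κ : Alt E6 0, ∀ z ∈ QF, γ b z + γ b ((D.H b).kb z) = κ := by
    intro b
    have hs : Sm (γ b) QF := (hγ.sm b).mono (h.ok b).QF_sub
    have hs' : Sm (pb (D.H b).kb (γ b)) QF := hs.pb domE_QF.opn domE_QF.opn
      (D.H b).contDiff_kb.contDiffOn fun y hy => kb_mem _ hy
    have hcl : Cl (γ b + pb (D.H b).kb (γ b)) QF := by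
      refine ⟨ContDiffOn.add hs hs', fun y hy => ?_⟩
      rw [extDeriv_add (hs.diffAt domE_QF.opn hy) (hs'.diffAt domE_QF.opn hy),
        extDeriv_pb (hs.diffAt domE_QF.opn (kb_mem _ hy)) (D.H b).contDiff_kb.contDiffAt,
        pb_congr' (hd' b _ ((h.ok b).QF_sub (kb_mem _ hy))), hF b y hy,
        hd' b y ((h.ok b).QF_sub hy)]
      module
    refine ⟨(γ b + pb (D.H b).kb (γ b)) (mk4 0 0 0), fun z hz => ?_⟩
    have := hcl.const domE_QF.opn domE_QF.dom.preconn hz domE_QF.mem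
    rwa [Pi.add_apply, pb_deg_zero] at this
  choose κ hκ using hκ
  let s : Bool → ℝ := fun b => ((1 / 2 : ℝ) • κ b - T b) ![]
  have hs : ∀ b, G4_c E6 (s b) = (1 / 2 : ℝ) • κ b - T b := fun b => (G4_zero _).symm
  let u : Bool → Fm E6 0 := fun b y => (1 - og (y (2, 0))) • G4_c E6 (s b)
  have hu : ∀ b, ContDiff ℝ ∞ (u b) := fun b => (contDiff_const.sub HH2_og).smul contDiff_const
  have hu0 : ∀ b y, 1 / 16 < y (2, 0) → u b y = 0 := fun b y hy => by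
    simp only [u, og_one hy.le, sub_self, zero_smul]
  refine ⟨γ - (fun b _ => T b) - u, s, (hγ.sub ⟨fun _ => contDiffOn_const, fun _ => HH2_sy0 _,
    fun b z _ => (pb_deg_zero _ _ _).trans (hTT b)⟩).sub (h.pr_low (fun b => (hu b).contDiffOn)
      (fun b => (HH2_sy0 _).lev Finset.Subset.rfl fun t => 1 - og t)
      fun b z hz => hu0 b z (HH2_mid (h.ok b) hz)), fun b z hz => ?_, fun b z hz => ?_,
    fun b z hz => ?_⟩
  · rw [pb_deg_zero]
    simp only [Pi.sub_apply, u, HH2_kb, og_neg, hs, ← hκ b z hz]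
    module
  · simp only [Pi.sub_apply, hTc b z hz, hu0 b z (HH2_high (h.ok b) h8 hz), sub_self]
  · have h1 := (hγ.sm b).diffAt (hQ b) hz
    rw [Pi.sub_apply, Pi.sub_apply, extDeriv_sub' (h1.sub (differentiableAt_const _))
      ((hu b).differentiable (by simp) z), extDeriv_sub' h1 (differentiableAt_const _),
      extDeriv_const, sub_zero, hd' b z hz, HH2_dog, sub_neg_eq_add]

theorem HH2_B (h : D.Ok) {a : Bool → Fm E6 2} (ha : D.Pr 1 a) (hF : ∀ b, (D.H b).Fold 1 (a b))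
    {s : Bool → ℝ}
    (hc : ∀ b, ∀ z ∈ (D.H b).Q, extDeriv (a b) z = s b • extDeriv (D.H b).gv z)
    {ε : ℝ} (h0 : 0 < ε) (h8 : ε ≤ 1 / 8) {e : Bool → Alt E6 2} (he : ∀ b, Hor SY (e b))
    (hT : ∀ b, ∀ z ∈ (D.H b).Tube ε, a b z = (D.H b).yF (e b) z) :
    (∀ b, s b = 0) ∧ ∃ (p : Bool → Fm E6 1) (ε' : ℝ), 0 < ε' ∧ D.Pr 1 p ∧
      (∀ b, (D.H b).Fold 1 (p b)) ∧ (∀ b, ∀ z ∈ (D.H b).Q, extDeriv (p b) z = a b z) ∧
      ∀ b, ∀ z ∈ (D.H b).Tube ε', p b z = 0 := by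
  have hQ : ∀ b, IsOpen (D.H b).Q := fun b => (h.ok b).domE_Q.opn
  have hTQ : ∀ b, (D.H b).Tube ε ⊆ (D.H b).Q := fun b => (h.ok b).Tube_sub (by linarith)
  have hg : ∀ b, ContDiff ℝ ∞ (s b • (D.H b).gv) := fun b =>
    (D.H b).contDiff_gv.const_smul (s b)
  obtain ⟨c, p, hc1, -, hc2, hp, hd⟩ := h.torusPair (w := a - fun b => s b • (D.H b).gv)
    (Or.inl rfl) (ha.sub (h.pr_low (fun b => (hg b).contDiffOn)
      (fun b => ((D.H b).sy_gv _).smul _) fun b z hz => by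
        rw [Pi.smul_apply, (D.H b).gv_zero (HH2_mid (h.ok b) hz).le, smul_zero]))
    fun b z hz => by
      rw [Pi.sub_apply, extDeriv_sub' ((ha.sm b).diffAt (hQ b) hz)
        ((hg b).differentiable (by simp) z), extDeriv_smul, hc b z hz, sub_self]
  have hs : ∀ b, Sm (p b) QF := fun b => (hp.sm b).mono (h.ok b).QF_sub
  have hs' : ∀ b, Sm (pb (D.H b).kb (p b)) QF := fun b => (hs b).pb domE_QF.opn domE_QF.opn
    (D.H b).contDiff_kb.contDiffOn fun y hy => kb_mem _ hy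
  have hsy : ∀ b, Sy SX QF (p b - pb (D.H b).kb (p b)) := fun b =>
    ((hp.sy b).mono (h.ok b).QF_sub).sub ((h.ok b).sy_kb ((hp.sy b).mono (h.ok b).QF_sub))
  have hδ : ∀ b, IsD (p b - pb (D.H b).kb (p b)) (fun _ => (2 * s b) • xf (rm (D.H b).v) -
      (c b - (c b).compContinuousLinearMap (ML (rm (D.H b).T) (-1)))) QF := by
    intro b
    refine ⟨ContDiffOn.sub (hs b) (hs' b), fun y hy => ?_⟩
    have h1 : pb (D.H b).kb (extDeriv (p b)) y =
        pb (D.H b).kb (a b - s b • (D.H b).gv - fun _ => c b) y :=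
      pb_congr' (hd b _ ((h.ok b).QF_sub (kb_mem _ hy)))
    have h2 := eq_add_of_sub_eq ((h.ok b).gv_kb y)
    rw [extDeriv_sub' ((hs b).diffAt domE_QF.opn hy) ((hs' b).diffAt domE_QF.opn hy),
      extDeriv_pb ((hs b).diffAt domE_QF.opn (kb_mem _ hy)) (D.H b).contDiff_kb.contDiffAt, h1,
      hd b y ((h.ok b).QF_sub hy), pb_sub, pb_sub, pb_smul]
    simp only [Pi.sub_apply, Pi.smul_apply]
    rw [hF b y hy, HD.pb_kb_const, h2]
    module
  have hk : ∀ b, (2 * s b) • xf (rm (D.H b).v) -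
      (c b - (c b).compContinuousLinearMap (ML (rm (D.H b).T) (-1))) = 0 := fun b =>
    (((hor_xf _).smul _).sub ((hc1 b).sub ((hc1 b).ML _ _))).symm.trans
      (cst_zero domE_QF.dom (hδ b) (hsy b).per)
  have hl := h.lin2 hc1 hc2 fun b => (sub_eq_zero.1 (hk b)).symm
  have hd' : ∀ b, ∀ z ∈ (D.H b).Q, extDeriv (p b) z = a b z := fun b z hz => by
    rw [hd b z hz, (hl b).1]
    simp [(hl b).2]
  have hsT : ∀ {q : Bool → Fm E6 1}, D.Pr 1 q → ∀ b, Sy SC ((D.H b).Tube ε) (q b) :=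
    fun hq b => ((hq.sy b).mono (hTQ b)).sub_dir (by decide)
  have hT0 : ∀ b, ∀ z ∈ (D.H b).Tube ε, a b z = 0 := by
    intro b z hz
    have h1 : e b = e b ![bv (1, 0), bv (1, 1)] • dyy := Hor.pair (by decide) (he b)
    have h2 := (h.ok b).yF_exact h0 (by linarith) (hsT hp b)
      ⟨(hp.sm b).mono (hTQ b), fun y hy => by rw [hd' b y (hTQ b hy), hT b y hy, ← h1]⟩
    rw [hT b z hz, h1, h2, zero_smul, HD.yF_zero]
    rfl
  have hE := fun b => torusE domE_QF (α := p b - pb (D.H b).kb (p b))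
    ⟨(hδ b).1, fun y hy => ((hδ b).2 y hy).trans (hk b)⟩ (hsy b)
  choose c' g _ hc' hg1 hg2 using hE
  obtain ⟨p₂, hp₂, hF₂, hd₂⟩ := h.fixFold (Or.inl rfl) hp hg2 fun b => by
    simpa [hc' b (by decide)] using hg1 b
  have hN := fun b => (h.ok b).near1 h0 (w := p₂ b) ⟨(hp₂.sm b).mono (hTQ b), fun y hy => by
    rw [hd₂ b y (hTQ b hy), hd' b y (hTQ b hy), hT0 b y hy]⟩ (hsT hp₂ b)
  choose g' hg3 hg4 using hN
  obtain ⟨p₃, ε', h1, hp₃, hF₃, hd₃, h2⟩ := h.fixNear (ρ := fun _ _ => 0) hp₂ hF₂ h0 hg3 hg4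
  exact ⟨fun b => (hl b).2, p₃, ε', h1, hp₃, hF₃,
    fun b z hz => by rw [hd₃ b z hz, hd₂ b z hz, hd' b z hz], h2⟩

theorem HH2_xi (h : D.Ok) (s : Bool → ℝ) (hz : z ∈ D.Vmp i) :
    D.xiF s i z = s i.1 • (D.H i.1).xi z := by
  obtain ⟨b, c⟩ := i
  cases c with
  | m => simp [GD.xiF]
  | f => exact (hz.1 rfl).elim
  | p =>
    have h1 : 0 < (D.H b).tt z := hz.2.1
    have h2 := (h.ok b).hμ
    simp only [HD.tt] at h1
    rw [(D.H b).xi_zero (by linarith), smul_zero]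
    simp [GD.xiF]

theorem GD.Ok.h2O (h : D.Ok) {α : Bool × K3 → Fm E6 2} (hα : ClF D.atlO α)
    (hp : ∀ b, ∀ z ∈ (D.H b).Wo .p, xv z = 0 → α (b, .p) z = 0)
    (hf : ∀ b, ∀ z ∈ (D.H b).Wo .f, B3.cc 0 z = 0 → B3.cc 1 z = 0 → α (b, .f) z = 0) :
    ExF D.atlO α := by
  have hO := h.n_orb
  have hV := h.Vmp_open
  have hQ : ∀ b, IsOpen (D.H b).Q := fun b => (h.ok b).domE_Q.opn
  have hdf : ∀ {n : ℕ} {w : Bool × K3 → Fm E6 n}, SmF D.atlO w → ∀ i, ∀ z ∈ D.Vmp i,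
      DifferentiableAt ℝ (w i) z := fun hw i z hz => (hw.1 i).diffAt (hO.opn i) (D.Vmp_sub i hz)
  obtain ⟨β, ε, e, hβ, h0, he, -, hn, hl⟩ := h.normC (k := 0) hα
  have h1 : ClF D.atlO (α - dF β) := hα.sub hO (hβ.dF hO)
  have hx := h.avg_ex h1
  have h2s := h.avg_sm h1.sm
  have h2i := h.avg_inv h1.sm
  have h2n := avg_near hn
  have h2l : ∀ b, ∀ z ∈ D.Vmp (b, .p), xv z = 0 → ins (avgF (α - dF β) (b, .p)) z = 0 :=
    fun b z hz hx => h.avg_ins h1.sm hz fun s => by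
      have e : xv (z + s • bv (2, 1)) = 0 := by
        rw [← hx]; funext r; fin_cases r <;> simp [xv, bv]
      exact hl b (hf b) _ (GD.Vmp_shift hz s) e (hp b _ (GD.Vmp_shift hz s).2 e)
  have h2c : ∀ i, ∀ z ∈ D.Vmp i, extDeriv (avgF (α - dF β) i) z = 0 := by
    obtain ⟨η, hη⟩ := hx
    intro i z hz
    have := ((h1.sub hO (hη.cl hO)).1 i).2 z (D.Vmp_sub i hz)
    rwa [sub_sub_cancel] at this
  generalize avgF (α - dF β) = α₂ at hx h2s h2i h2n h2l h2c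
  have h8 : min ε (1 / 8) ≤ 1 / 8 := min_le_right _ _
  have h0' : 0 < min ε (1 / 8) := lt_min h0 (by norm_num)
  obtain ⟨B, hB, hBF, hBe, hBT⟩ := h.glueQ (ε := -1) h0' (β := fun i => ins (α₂ i)) (e := 0)
    (fun i => Sm.ins ((h2s.1 i).mono (D.Vmp_sub i))) (fun i z hz => bas_ins (h2i i z hz))
    (tw_ins h2s.2) fun i z hz ht => by
      have h3 := (h.ok i.1).ins_yF (e i.1) (ht.2.2.trans_le (h8.trans (by norm_num)))
      rw [Pi.zero_apply, HD.yF_zero, Pi.zero_apply, ← h3]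
      simp only [ins, h2n i z hz (HH2_tube (min_le_left _ _) ht)]
  obtain ⟨γ, s, hγ, hγF, hγT, hγd⟩ := HH2_A h hB hBF
    (fun b => h.eqOn_Q (g := fun _ => 0) ((hB.sm b).extDeriv (hQ b)).continuousOn
      continuousOn_const fun c z hz => by
        rw [HH2_ev (hV (b, c)) hz (hBe (b, c)), ← neg_eq_zero,
          ← ins_d (hdf h2s _ z hz) (h2i _ z hz)]
        simp [ins, h2c _ z hz]) h0' h8
    (fun b z hz => by
      rw [hBT b z hz (hz.2.2.trans_le h8) (hz.1.trans_le (h8.trans (by norm_num)))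
        (hz.2.1.trans_le (h8.trans (by norm_num))), Pi.zero_apply, HD.yF_zero, Pi.zero_apply])
    fun b z hz hx => (hBe (b, .p) z ⟨by simp, hz⟩).trans (h2l b z ⟨by simp, hz⟩ hx)
  obtain ⟨L, ε₂, h02, hL, hLi, hLe, hLn⟩ := h.liftL hγ hγF h0' hγT
  have h3s : SmF D.atlO (α₂ + dF L) := h2s.add (hL.dF hO).sm
  have h4s := h3s.add (h.xiF_sm s)
  have h4e : ∀ i, ∀ z ∈ D.Vmp i, (α₂ + dF L + D.xiF s) i z =
      (α₂ i + extDeriv (L i) + s i.1 • (D.H i.1).xi) z := fun i z hz => by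
    simp only [Pi.add_apply, Pi.smul_apply, HH2_xi h s hz, dF]
  have h4i : D.AInv (α₂ + dF L + D.xiF s) := fun i z hz t => by
    have h5 := HS1_d (hV i) ((hL.1 i).mono (D.Vmp_sub i)) hz (f := fun y => y + t • bv (2, 1))
      (contDiff_id.add contDiff_const) (GD.Vmp_shift hz t)
      fun y hy => (HS1_pbT _ _ _).trans (hLi i y hy t)
    rw [HS1_pbT] at h5
    rw [h4e i _ (GD.Vmp_shift hz t), h4e i z hz]
    simp only [Pi.add_apply, Pi.smul_apply, h2i i z hz t, h5, HD.xi_shift]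
  have h03 : 0 < min (min ε (1 / 8)) ε₂ := lt_min h0' h02
  have h83 : min (min ε (1 / 8)) ε₂ ≤ 1 / 8 := (min_le_left _ _).trans h8
  obtain ⟨a, ha, haF, hae, haT⟩ := h.glueQ (ε := 1) h03 (β := α₂ + dF L + D.xiF s) (e := e)
    (fun i => (h4s.1 i).mono (D.Vmp_sub i))
    (fun i z hz => bas_of (h4i i z hz) (by
      have h5 : ins ((α₂ + dF L + D.xiF s) i) z =
          ins (α₂ i + extDeriv (L i) + s i.1 • (D.H i.1).xi) z := by
        simp only [ins, h4e i z hz]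
      rw [h5, ins_add, ins_add, ins_smul, Pi.add_apply, Pi.add_apply, Pi.smul_apply, HD.ins_xi,
        ins_d (hdf hL i z hz) (hLi i z hz), HH2_ev (hV i) hz (hLe i), hγd _ z (GD.Vmp_Q h hz),
        hBe i z hz]
      abel))
    (tw_one h4s.2) fun i z hz ht => by
      have h5 : extDeriv (L i) z = 0 := by
        rw [HH2_ev ((hV i).inter (domE_tube _ h02).opn) ⟨hz, HH2_tube (min_le_right _ _) ht⟩
          (g := fun _ => 0) fun y hy => by
            rw [hLn i y hy.1 hy.2, Pi.zero_apply, HD.yF_zero, Pi.zero_apply], extDeriv_const]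
      rw [h4e i z hz]
      simp only [Pi.add_apply, Pi.smul_apply, h5, add_zero, smul_zero,
        (D.H i.1).xi_zero (HH2_high (h.ok i.1) h83 ht),
        h2n i z hz (HH2_tube ((min_le_left _ _).trans (min_le_left _ _)) ht)]
  obtain ⟨hs0, p, ε₄, h04, hp1, hpF, hpd, hpT⟩ := HH2_B h ha haF (s := s)
    (fun b => h.eqOn_Q ((ha.sm b).extDeriv (hQ b)).continuousOn
      ((Sm.extDeriv (D.H b).contDiff_gv.contDiffOn (hQ b)).continuousOn.const_smul (s b))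
      fun c z hz => by
        have h5 : DifferentiableAt ℝ (extDeriv (L (b, c))) z := hdf (hL.dF hO).sm _ z hz
        have h6 : extDeriv (extDeriv (L (b, c))) z = 0 := ((hL.dF hO).1 _).2 z (D.Vmp_sub _ hz)
        rw [HH2_ev (hV (b, c)) hz fun y hy => (hae (b, c) y hy).trans (h4e _ y hy),
          extDeriv_add ((hdf h2s _ z hz).add h5)
            (((D.H b).contDiff_xi.differentiable (by simp) z).const_smul _),
          extDeriv_add (hdf h2s _ z hz) h5, h2c _ z hz, extDeriv_smul, HD.d_xi, h6, zero_add,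
          zero_add]) h03 h83 he
    fun b z hz => haT b z hz (hz.2.2.trans_le h83) (hz.1.trans_le (h83.trans (by norm_num)))
      (hz.2.1.trans_le (h83.trans (by norm_num)))
  obtain ⟨η, hη, hηe⟩ := h.liftC h04 (h.lift_bas hp1 hpF) (e := 0)
    (fun i z _ ht => by rw [hpT _ z ht, Pi.zero_apply, HD.yF_zero, Pi.zero_apply])
    (fun _ => Hor.zero) fun _ _ => rfl
  have h5 : IsDF D.atlO η (α₂ + dF L) := IsDF.of_dense hO hη h3s h.n_den fun i z hz => by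
    rw [HH2_ev (hV i) hz (hηe i), hpd _ z (GD.Vmp_Q h hz), hae i z hz, h4e i z hz, hs0, zero_smul,
      add_zero]
    rfl
  refine ExF.congr (ExF.sub hO (ExF.add hO (ExF.add hO ⟨_, hβ.isDF⟩ hx) ⟨_, h5⟩) ⟨_, hL.isDF⟩)
    fun i z _ => ?_
  simp only [Pi.add_apply, Pi.sub_apply]
  module


end Pool.Agent.Work.MP_bf98aa_gt.B3
end

-- merged part: Pool.Agent.Work.MP_bf98aa_gt.B3.HMain
section
-- merged part: Pool.Agent.Work.MP_bf98aa_gt.B3.HR1
section
/-!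
The pieces `atlU`, `atlY` describe neighbourhoods of the singular set of the neck.
PLAN. `indU`: KMain (`Ko_iff`, `isOpen_Ko`, `kU_sm`, `kI_sm`, `kI_kU`, `kU_kI`, `kU_iff`, `Ko_small`), `inj_of_left`, `R_same`, `R_mm`. `indY`: F1 (`Ph_sm`, `Ph_inj`, `isOpen_Do`, `Ph_lev`), F2 (`Sgn_*`), F3 (`Ph_surj`, `Ph_iff`),
F4 (`cross_iff`, `UpR_sgn`, `LoR_sgn`); the arrow is `Ph j l` or `iof ∘ Ph j l`. `NO_dis`: `kU_iff`, `Ph_iff`, `cross_iff`, `Ko_near`, `R_cross` (points of `m` are not related to the other half).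
`line_p`: `z ∈ Do 0 2` with `Ph 0 2 z = mkc 0 0 w` (`rP_eq`, `rho_zero'`, `z1_zero`, `z2_zero`), `Do_Wn`; `line_f` with `l = 4`.
-/

set_option autoImplicit false

open scoped Manifold ContDiff Topology Matrix ComplexConjugate
open Set Complex Filter

namespace Pool.Agent.Work.MP_bf98aa_gt.B3

open Pool.Agent.Work.MP_bf98aa_gt.Th Pool.Agent.Work.MP_bf98aa_gt.Cy

variable {D : GD}

theorem GD.Ok.indU (h : D.Ok) (p : Bool × J4) : Ind D.atlO atlU (D.SU p) := by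
  obtain ⟨b, k⟩ := p
  have o := h.ok b
  refine ⟨h.n_orb, fun _ => isOpen_lt contDiff_kr.continuous continuous_const, ?_, ?_,
    fun _ y hy => ?_, fun r => ⟨r.1, r.2.1⟩, ?_⟩
  · rintro _ x _ _ ⟨rfl, a, rfl⟩
    exact ⟨B3.atlO_W D (b, .m) ▸ a.1, a.2⟩
  · rintro _ x _ _ ⟨rfl, a, rfl⟩
    have s := (o.Ko_small a).1
    refine ⟨_, o.kU_sm s, rfl, inj_of_left (o.kU_sm s) (o.kI_sm (k := k) a.2) ?_,
      ((o.isOpen_Ko k).eventually_mem a).mono fun z e => ⟨rfl, e, rfl⟩⟩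
    exact ((o.isOpen_Ko k).eventually_mem a).mono fun z e => o.kI_kU (o.Ko_small e).1.le
  · exact ⟨_, (D.H b).kI k y, rfl, o.Ko_iff.2 (by rwa [o.kU_kI hy]), (o.kU_kI hy).symm⟩
  · rintro _ x _ _ _ x' _ _ ⟨rfl, a, rfl⟩ ⟨rfl, a', rfl⟩
    rw [GD.R_same, HD.R_mm, o.kU_iff a a']
    exact ⟨fun r => ⟨a.2, a'.2, r.2.2.2⟩, fun r => ⟨a.1, a'.1, rfl, r.2.2⟩⟩

theorem GD.Ok.indY (h : D.Ok) (j : J4) : Ind D.atlO (D.atlY j) (D.SYo j) := by
  refine ⟨h.n_orb, fun b => (D.H b).isOpen_Yo, ?_, ?_, fun b y hy => ?_, fun r => ⟨r.1, r.2.1⟩, ?_⟩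
  · rintro _ x b y ⟨l, rfl, a, m, -⟩
    exact ⟨B3.atlO_W D (b, sP l) ▸ a.1, m⟩
  · rintro _ x b y ⟨l, rfl, a, m, s⟩
    have o := h.ok b
    have c := o.Ph_sm a
    have e := (o.isOpen_Do j l).eventually_mem a
    have a1 : Ar (fun z w => z ∈ (D.H b).Do j l ∧ w = (D.H b).Ph j l z) x _ ((D.H b).Ph j l) :=
      ⟨c, rfl, o.Ph_inj a, e.mono fun z e => ⟨e, rfl⟩⟩
    rcases s with rfl | rfl
    · refine ⟨_, a1.mono ?_⟩
      filter_upwards [c.continuousAt.eventually ((D.H b).isOpen_Yo.eventually_mem m)] with z m' r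
      exact ⟨l, rfl, r.1, m', .inl rfl⟩
    · have a2 : Ar (fun z w => w ∈ (D.H b).Yo ∧ w = iof z) ((D.H b).Ph j l x) _ iof :=
        ⟨contDiff_iof.contDiffAt, rfl, inj_of_left contDiff_iof.contDiffAt contDiff_iof.contDiffAt
          (Eventually.of_forall HD.iof_iof), (contDiff_iof.continuous.continuousAt.eventually
            ((D.H b).isOpen_Yo.eventually_mem m)).mono fun z e => ⟨e, rfl⟩⟩
      exact ⟨_, a1.trans a2 fun _ _ _ r r' => ⟨l, rfl, r.1, r'.1, .inr (r.2 ▸ r'.2)⟩⟩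
  · obtain ⟨l, z, a, e⟩ := (h.ok b).Ph_surj j hy.1
    exact ⟨_, z, l, rfl, a, hy, .inl e.symm⟩
  · rintro _ x b y _ x' b' y' ⟨l, rfl, a, m, s⟩ ⟨l', rfl, a', m', s'⟩
    have t := HD.Sgn_symm s
    have t' := HD.Sgn_symm s'
    rcases HN_bool b b' with rfl | rfl
    · rw [GD.R_same, (h.ok b').Ph_iff a a']
      refine ⟨fun r => ⟨m, m', .inl ⟨rfl, HD.Sgn_trans t (HD.Sgn_trans r.2 s')⟩⟩, ?_⟩
      rintro ⟨-, -, r | r⟩
      · exact ⟨rfl, HD.Sgn_trans s (HD.Sgn_trans r.2 t')⟩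
      · exact absurd r.1 (by simp)
    · rw [h.cross_iff a a']
      refine ⟨fun r => ⟨m, m', .inr ⟨rfl, r.2.imp (GD.LoR_sgn · s s') (UpR_sgn · s s')⟩⟩, ?_⟩
      rintro ⟨-, -, r | r⟩
      · exact absurd r.1 (by simp)
      · exact ⟨rfl, r.2.imp (GD.LoR_sgn · t t') (UpR_sgn · t t')⟩


end Pool.Agent.Work.MP_bf98aa_gt.B3
end

-- merged part: Pool.Agent.Work.MP_bf98aa_gt.B3.HR4
section
/-!
The pieces `atlU`, `atlY` describe neighbourhoods of the singular set of the neck.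
PLAN. `indU`: KMain (`Ko_iff`, `isOpen_Ko`, `kU_sm`, `kI_sm`, `kI_kU`, `kU_kI`, `kU_iff`, `Ko_small`), `inj_of_left`, `R_same`, `R_mm`. `indY`: F1 (`Ph_sm`, `Ph_inj`, `isOpen_Do`, `Ph_lev`), F2 (`Sgn_*`), F3 (`Ph_surj`, `Ph_iff`),
F4 (`cross_iff`, `UpR_sgn`, `LoR_sgn`); the arrow is `Ph j l` or `iof ∘ Ph j l`. `NO_dis`: `kU_iff`, `Ph_iff`, `cross_iff`, `Ko_near`, `R_cross` (points of `m` are not related to the other half).
`line_p`: `z ∈ Do 0 2` with `Ph 0 2 z = mkc 0 0 w` (`rP_eq`, `rho_zero'`, `z1_zero`, `z2_zero`), `Do_Wn`; `line_f` with `l = 4`.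
-/

set_option autoImplicit false

open scoped Manifold ContDiff Topology Matrix ComplexConjugate
open Set Complex Filter

namespace Pool.Agent.Work.MP_bf98aa_gt.B3

open Pool.Agent.Work.MP_bf98aa_gt.Th Pool.Agent.Work.MP_bf98aa_gt.Cy

variable {D : GD}

theorem HR4_KY (h : D.Ok) {b b' : Bool} {k j : J4} {l : Fin 5} {x y : E6} (hx : x ∈ (D.H b).Ko k)
    (hy : y ∈ (D.H b').Do j l) : ¬D.atlO.R (b, .m) x (b', sP l) y := by
  intro r
  rcases HN_bool b b' with rfl | rfl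
  · exact (h.ok b').Ko_near (j := j) hx ⟨l, y, hy, le_rfl, GD.R_same.1 r⟩
  · exact absurd (h.R_cross.1 r).1 (by decide)

theorem GD.Ok.NO_dis (h : D.Ok) {P P' : Bool × J4 ⊕ J4} {i : Bool × K3} {x : E6}
    (h1 : x ∈ D.NO P i) (h2 : x ∈ D.NO P' i) : P = P' := by
  have A := h.pre0_O
  rcases P with ⟨b, k⟩ | j <;> rcases P' with ⟨b', k'⟩ | j'
  · obtain ⟨_, y, _, _, r, rfl, a, -⟩ := h1
    obtain ⟨_, y', _, _, r', rfl, a', -⟩ := h2
    have e := A.trans (A.symm r) r'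
    rcases HN_bool b b' with rfl | rfl
    · rw [show k = k' from (((h.ok b').kU_iff a a').1 (GD.R_same.1 e).2.2).1]
    · exact absurd (h.R_cross.1 e).1 (by decide)
  · obtain ⟨_, y, _, _, r, rfl, a, -⟩ := h1
    obtain ⟨_, y', _, _, r', l, rfl, a', -⟩ := h2
    exact absurd (A.trans (A.symm r) r') (HR4_KY h a a')
  · obtain ⟨_, y, _, _, r, l, rfl, a, -⟩ := h1
    obtain ⟨_, y', _, _, r', rfl, a', -⟩ := h2
    exact absurd (A.trans (A.symm r') r) (HR4_KY h a' a)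
  · obtain ⟨_, y, b, _, r, l, rfl, a, -⟩ := h1
    obtain ⟨_, y', b', _, r', l', rfl, a', -⟩ := h2
    have e := A.trans (A.symm r) r'
    rcases HN_bool b b' with rfl | rfl
    · rw [(((h.ok b').Ph_iff a a').1 (GD.R_same.1 e)).1]
    · rw [((h.cross_iff a a').1 e).1]

theorem HR4_line {d : HD} (h : d.Ok) {l : Fin 5} {z : E6} (hz : z ∈ d.Wo (sP l))
    (h0 : 0 ≤ d.rP 0 l z) (h1 : d.rP 0 l z < 2) (h2 : d.nuP l z = d.μ₁ + d.rP 0 l z) :
    z ∉ d.Wn (sP l) ∧ z ∈ d.Do 0 l ∧ d.Ph 0 l z ∈ d.Yo ∧ 0 ≤ tF (d.Ph 0 l z) := by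
  have h3 : z ∈ d.Do 0 l := ⟨hz, by linarith⟩
  obtain ⟨h4, h5, h6⟩ := h.Ph_lev h3
  rw [HD.F3_nu] at h5
  refine ⟨fun e => ?_, h3, ⟨h6, Or.inr (by linarith)⟩, by linarith⟩
  linarith [(le_max_left _ _).trans_lt ((h.Do_Wn h3).1 ⟨e, h3.2⟩)]

theorem HR4_wj : wj 0 = 0 := by
  funext i
  fin_cases i <;> simp [wj]

theorem GD.Ok.line_p (h : D.Ok) {b : Bool} {z : E6} (hz : z ∈ (D.H b).Wo .p) (h0 : xv z = 0) :
    z ∉ (D.H b).Wn .p ∧ z ∈ (D.H b).Do 0 2 ∧ (D.H b).Ph 0 2 z ∈ (D.H b).Yo ∧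
      0 ≤ tF ((D.H b).Ph 0 2 z) := by
  have e : (D.H b).rP 0 2 z = (D.H b).tt z := by
    rw [((h.ok b).rP_eq 0 z).2.2.1, h0, HR4_wj, sub_zero, (h.ok b).rho_zero']
    exact max_eq_right hz.1.le
  exact HR4_line (l := 2) (h.ok b) hz (e ▸ hz.1.le) (by linarith [hz.2])
    (by rw [e]; exact (add_sub_cancel _ _).symm)

theorem GD.Ok.line_f (h : D.Ok) {b : Bool} {z : E6} (hz : z ∈ (D.H b).Wo .f) (h0 : cc 0 z = 0)
    (h1 : cc 1 z = 0) : z ∉ (D.H b).Wn .f ∧ z ∈ (D.H b).Do 0 4 ∧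
      (D.H b).Ph 0 4 z ∈ (D.H b).Yo ∧ 0 ≤ tF ((D.H b).Ph 0 4 z) := by
  have e : (D.H b).rP 0 4 z = normSq (cc 2 z) := by
    rw [((h.ok b).rP_eq 0 z).2.2.2.2, HR4_wj, show z (1, 0) = 0 from congrArg re h1,
      show z (1, 1) = 0 from congrArg im h1]
    simp [HD.zy, normSq_mk]
  refine HR4_line (l := 4) (h.ok b) hz (e ▸ normSq_nonneg _) (by linarith [hz.2]) ?_
  change (D.H b).nuF z = _
  rw [e, HD.nuF, h0, map_zero, sub_zero]

theorem GD.Ok.mat_Ph (h : D.Ok) {k : ℕ} {j : J4} {c : Bool × K3 → Fm E6 k} {e : Bool → Fm E6 k}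
    (hm : Mat (D.SYo j) c e) {b : Bool} {l : Fin 5} {z : E6} (hz : z ∈ (D.H b).Do j l)
    (hy : (D.H b).Ph j l z ∈ (D.H b).Yo) :
    z ∈ D.NO (.inr j) (b, sP l) ∧ c (b, sP l) z = pb ((D.H b).Ph j l) (e b) z := by
  have s := (h.ok b).Ph_sm hz
  refine ⟨HO3_nb (h.indY j) ⟨l, rfl, hz, hy, HD.Sgn_refl _⟩, (hm _ _ _ _ s ?_).symm⟩
  filter_upwards [((h.ok b).isOpen_Do j l).mem_nhds hz,
    s.continuousAt.eventually ((D.H b).isOpen_Yo.mem_nhds hy)] with w a1 a2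
  exact ⟨l, rfl, a1, a2, HD.Sgn_refl _⟩

end Pool.Agent.Work.MP_bf98aa_gt.B3
end

-- merged part: Pool.Agent.Work.MP_bf98aa_gt.B3.HR2
section
/-!
The manifold is obtained from the neck by replacing neighbourhoods of the singular set.
PLAN. `S = ⋃ b k, q.K b k '' {‖cc 1 y‖ ≤ 1/128}` is compact (`cpt_atlK`, `RK_norm`, `eK`), `VN i = Wn ∩ preimage of Sᶜ` is open (`Par.isOpen_pre`), `Par.mono`. `pre_N` is stated for all points of `Wn`: for `K` use `cK`, `DK_sub`, `to_DK`, `gK`,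
`oK_mem`, `Wn_sat`; for `NW` use `cX`, `cT`, `gP`, `F_mem`, `F_sub`, `DP_WX`, `eN`; a point `y ∈ WX .F` with the same image as a point of `Wn` is `± Ph z'` with `z' ∈ DP` (`cX`, `eX`, `amb_F_iff`).
`cov`: a point of `X .F` with `max 2 (2 tF) < rF` is in the image of `DP` (`DP_onto`), otherwise it lies in `Yo` or is a point of `NW` (`rF ≤ 2`: in `Yo` unless `tF < -2`, which is also in `Yo`; `rF ≤ 2 tF`: in `Yo`); a point of `Wn` outside `VN` maps to `S`.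
`hole`: (a) `x ∈ Wn`, `x ∉ VN`: its image lies in `S`, outside the image of `VN`; continuity. (b) `x ∈ Kset`: `Kset_iff`; nearby points of `Wn` have small `kr`, map to `S` (`to_DK`), so are not related to `VN`.
(c) `x ∈ HoleC`: `hole_iff` gives `z ∈ Do j l`, move there by an arrow; if `Ph z ∈ WX .F` use the continuous map `q.X j b .F ∘ Ph j l`, whose value at `z` is not in the image of `Wn` (`cX`, `Ph_iff`, `Wn_sat`, `Do_Wn`);
otherwise `rF ≤ 1` or `xu ≤ tF - 1`, so `rF < max 2 (2 tF)` near `z` and no nearby point is in `Wn`. `matU`, `matY`: move `x` to `DK` resp. `DP` (`invR_pl`, `InvR.eq_of_rel` in `res atlO (Wn ∩ NO)`), `pl_comp`, `pl_congr`, `pb_comp`.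
-/

set_option autoImplicit false

open scoped Manifold ContDiff Topology Matrix ComplexConjugate
open Set Complex Filter

namespace Pool.Agent.Work.MP_bf98aa_gt.B3

open Pool.Agent.Work.MP_bf98aa_gt.Th Pool.Agent.Work.MP_bf98aa_gt.Cy

variable {M : Type} [TopologicalSpace M] [ChartedSpace E6 M] [IsManifold 𝓘(ℝ, E6) ∞ M]
  [T2Space M] [CompactSpace M] {D : GD} {q : Ch M} {η : Fo M 2} {k : ℕ}

section
omit [T2Space M] [CompactSpace M]

variable {i i' : Bool × K3} {x y : E6} {b : Bool} {j : J4} {l : Fin 5}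

omit [IsManifold 𝓘(ℝ, E6) ∞ M] in
theorem HR2_eq (h : WM D q η) (hx : x ∈ (D.H i.1).Wn i.2) (r : D.atlO.R i x i' y) :
    y ∈ (D.H i'.1).Wn i'.2 ∧ q.N i.1 i.2 x = q.N i'.1 i'.2 y :=
  have hy := (h.ok.Wn_sat r).1 hx
  ⟨hy, (h.eN _ _ _ _ x hx y hy).2 r⟩

omit [IsManifold 𝓘(ℝ, E6) ∞ M] in
theorem HR2_K (h : WM D q η) (hx : x ∈ (D.H i.1).Wn i.2) (r : D.atlO.R i x (b, .m) y)
    (hy : y ∈ (D.H b).Ko j) :
    ∃ w ∈ WK, ‖cc 1 w‖ = kr ((D.H b).kU j y) ∧ q.N i.1 i.2 x = q.K b j w := by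
  have o := h.ok.ok b
  obtain ⟨a, e⟩ := HR2_eq h hx r
  obtain ⟨l, n, c, e'⟩ := o.to_DK hy ((HD.Wn_iff.1 a).2.2 rfl)
  have r' : D.atlO.R (b, .m) y (b, .m) ((D.H b).Dm l n y) :=
    GD.R_same.2 (HD.R_mm.2 ⟨hy.1, (o.DK_sub c).1.1, (l, n, false, false), rfl⟩)
  exact ⟨_, (o.oK_mem c).1, (o.oK_mem c).2.trans e',
    e.trans ((HR2_eq h (i := (b, .m)) a r').2.trans (h.gK b j _ c))⟩

omit [IsManifold 𝓘(ℝ, E6) ∞ M] in
theorem HR2_P (h : WM D q η) (hx : x ∈ (D.H i.1).Wn i.2) (r : D.atlO.R i x (b, sP l) y)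
    (hy : y ∈ (D.H b).Do j l) :
    y ∈ (D.H b).DP j l ∧ q.N i.1 i.2 x = q.X j b .F ((D.H b).Ph j l y) :=
  have a := HR2_eq h hx r
  ⟨⟨a.1, hy.2⟩, a.2.trans (h.gP j b l y ⟨a.1, hy.2⟩)⟩

omit [IsManifold 𝓘(ℝ, E6) ∞ M] in
theorem HR2_F (h : WM D q η) (hx : x ∈ (D.H i.1).Wn i.2) (hy : y ∈ (D.H b).WX .F)
    (e : q.N i.1 i.2 x = q.X j b .F y) : ∃ l, ∃ z ∈ (D.H b).DP j l,
      D.atlO.R i x (b, sP l) z ∧ Sgn ((D.H b).Ph j l z) y := by
  obtain ⟨l, z, a, e'⟩ := h.cX _ _ _ _ _ x hx y hy e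
  have c := (h.ok.ok b).DP_WX a
  exact ⟨l, z, a, (h.eN _ _ _ _ x hx z a.1).1 e', (amb_F_iff c hy).1
    ((HX1_same h c hy).1 ((h.gP j b l z a).symm.trans (e'.symm.trans e)))⟩

theorem HR2_NW (h : WM D q η) {m : M} (hm : m ∈ q.NW D j) :
    (∃ b c, ∃ y ∈ (D.H b).WX c, q.X j b c y = m) ∨ ∃ a, ∃ y ∈ WT, q.T j a y = m := by
  rcases hm with hm | ⟨y, a, e⟩ | ⟨y, a, e⟩
  · obtain ⟨b, c, y, a, -, e⟩ := HX2_X h hm
    exact .inl ⟨b, c, y, a, e⟩
  · exact .inr ⟨_, y, a.1, e⟩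
  · exact .inr ⟨_, y, a.1, e⟩

end

theorem WM.pre_N (h : WM D q η) (P : Bool × J4 ⊕ J4) (i : Bool × K3) {x : E6}
    (hx : x ∈ (D.H i.1).Wn i.2) : q.N i.1 i.2 x ∈ q.NM D P ↔ x ∈ D.NO P i := by
  rcases P with ⟨b, k⟩ | j
  · constructor
    · rintro ⟨y, hy, e⟩
      obtain ⟨z, a, e'⟩ := h.cK _ _ _ _ x hx y hy e.symm
      exact ⟨(b, .m), z, (), _, (h.eN _ _ _ _ x hx z a.1).1 e', rfl, ((h.ok.ok b).DK_sub a).1, rfl⟩
    · rintro ⟨_, y, _, _, r, rfl, a, -⟩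
      obtain ⟨w, c, -, e⟩ := HR2_K h hx r a
      exact ⟨w, c, e.symm⟩
  · constructor
    · intro hm
      obtain ⟨b, l, z, a, e⟩ : ∃ b l, ∃ z ∈ (D.H b).DP j l, q.N i.1 i.2 x = q.N b (sP l) z := by
        rcases HR2_NW h hm with ⟨b, c, y, a, e⟩ | ⟨c, y, a, e⟩
        · exact ⟨b, h.cX _ _ _ _ _ x hx y a e.symm⟩
        · exact ⟨true, 2, h.cT _ _ _ _ x hx y a e.symm true⟩
      have e' := e.trans (h.gP j b l z a)
      obtain ⟨-, b', y, c, c', e''⟩ := h.F_mem b ((h.ok.ok b).DP_WX a) (e' ▸ hm)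
      obtain ⟨l', z', a', r, s⟩ := HR2_F h hx c (e'.trans e''.symm)
      exact ⟨_, z', b', y, r, l', rfl, HD.DP_sub a', c', s⟩
    · rintro ⟨_, y, b, w, r, l, rfl, a, c, s⟩
      obtain ⟨a', e⟩ := HR2_P h hx r a
      refine e ▸ h.F_sub j b ((h.ok.ok b).DP_WX a') ?_
      rcases HD.Sgn_symm s with s | s
      exacts [s ▸ c, s ▸ HD.iof_Yo c]

omit [CompactSpace M] in
theorem HR2_open (h : WM D q η) (i : Bool × K3) : IsOpen (q.VN D i) := by
  obtain ⟨C, c1, c2, c3⟩ := cpt_atlK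
  have c4 : IsCompact (C ∩ {y | ‖cc 1 y‖ ≤ 1 / 128}) :=
    c1.inter_right (isClosed_le (continuous_cc 1).norm continuous_const)
  have c5 : IsClosed (⋃ p : Bool × J4, q.K p.1 p.2 '' (C ∩ {y | ‖cc 1 y‖ ≤ 1 / 128})) :=
    isClosed_iUnion_of_finite fun p => (c4.image_of_continuousOn
      ((h.pK p.1 p.2).continuousOn.mono fun _ a => c2 a.1)).isClosed
  convert (h.pN i.1 i.2).isOpen_pre c5.isOpen_compl using 1
  ext z
  refine and_congr_right fun _ => ⟨fun a e => ?_, fun a b k y hy e => a ?_⟩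
  · obtain ⟨p, y, c, e⟩ := mem_iUnion.1 e
    exact a _ _ y c.2 e.symm
  · obtain ⟨w, c, r⟩ := c3 y hy
    exact mem_iUnion.2 ⟨(b, k), w, ⟨c, (RK_norm r).trans_le hy⟩, ((e.trans ((h.eK b k b k y
      (hy.trans_lt (by norm_num)) w (c2 c)).2 ⟨rfl, rfl, r⟩))).symm⟩

omit [T2Space M] [CompactSpace M] [IsManifold 𝓘(ℝ, E6) ∞ M] in
theorem HR2_out {i : Bool × K3} {x : E6} (hx : x ∈ (D.H i.1).Wn i.2) (h0 : x ∉ q.VN D i) :
    ∃ b k y, ‖cc 1 y‖ ≤ 1 / 128 ∧ q.N i.1 i.2 x = q.K b k y := by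
  by_contra c
  exact h0 ⟨hx, fun b k y a e => c ⟨b, k, y, a, e⟩⟩

theorem HR2_hole (h : WM D q η) (i : Bool × K3) (x : E6) (hx : x ∈ D.atlO.W i) :
    x ∈ sat D.atlO (q.VN D) i ∨ ∃ P, x ∈ D.NO P i ∧ ∀ U : Set M, IsOpen U →
      (⋃ i : Bool × K3, q.N i.1 i.2 '' q.VN D i)ᶜ ⊆ U → ∀ᶠ z in 𝓝 x, ∀ i', ∀ y ∈ q.VN D i',
        D.atlO.R i z i' y → q.N i'.1 i'.2 y ∈ U := by
  have A := h.ok.pre0_O
  by_cases h1 : x ∈ (D.H i.1).Wn i.2
  · by_cases h0 : x ∈ q.VN D i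
    · exact .inl ⟨i, x, h0, A.refl hx⟩
    obtain ⟨b, k, w, a, e⟩ := HR2_out h1 h0
    refine .inr ⟨.inl (b, k), (h.pre_N _ i h1).1 ⟨w, a.trans_lt (by norm_num), e.symm⟩,
      fun U hU hc => ?_⟩
    have m : q.N i.1 i.2 x ∈ U := hc fun c => by
      obtain ⟨i', y, c, e'⟩ := mem_iUnion.1 c
      exact c.2 b k w a (e'.trans e)
    filter_upwards [((h.pN i.1 i.2).isOpen_pre hU).mem_nhds ⟨h1, m⟩] with z c i' y _ r
    exact (HR2_eq h c.1 r).2 ▸ c.2
  obtain ⟨b, c⟩ := i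
  have o := h.ok.ok b
  have hx' : x ∈ (D.H b).Wo c := B3.atlO_W D (b, c) ▸ hx
  by_cases h2 : x ∈ (D.H b).HoleC c
  · obtain ⟨j, l, z, a, r, e⟩ := (o.hole_iff hx').1 h2
    have r' : D.atlO.R (b, c) x (b, sP l) z := GD.R_same.2 r
    have hF := (o.Ph_lev a).2.2
    refine .inr ⟨.inr j, ⟨_, z, b, _, r', l, rfl, a, ⟨hF, ?_⟩, .inl rfl⟩, fun U hU hc => ?_⟩
    · rcases le_max_iff.1 e with e | e
      · exact (lt_or_ge (tF ((D.H b).Ph j l z)) (15 / 16)).imp_right fun _ => by linarith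
      · exact .inr (by linarith)
    obtain ⟨f, hf⟩ := A.loc r'
    obtain rfl := hf.eq
    have c1 : ContinuousAt (fun w => (D.H b).Ph j l (f w)) x :=
      ContinuousAt.comp (f := f) (o.Ph_sm a).continuousAt hf.sm.continuousAt
    have c2 : ∀ᶠ w in 𝓝 x, (D.H b).Ph j l (f w) ∈ (D.H b).WX .F →
        max 2 (2 * tF ((D.H b).Ph j l (f w))) < rF ((D.H b).Ph j l (f w)) →
          q.X j b .F ((D.H b).Ph j l (f w)) ∈ U := by
      by_cases h3 : (D.H b).Ph j l (f x) ∈ (D.H b).WX .F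
      · have m : q.X j b .F ((D.H b).Ph j l (f x)) ∈ U := hc fun c => by
          obtain ⟨i', y, c, e'⟩ := mem_iUnion.1 c
          obtain ⟨l', z', a', -, s⟩ := HR2_F h c.1 h3 e'
          have t := (o.Do_Wn (HD.DP_sub a')).1 a'
          obtain ⟨s1, s2, -⟩ := HD.Sgn_norm (d := D.H b) s
          rw [← s1, ← s2] at t
          exact absurd e t.not_ge
        filter_upwards [c1.eventually (((h.pX j b .F).isOpen_pre hU).mem_nhds
          ⟨h3, m⟩)] with w a _ _ using a.2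
      · have t : rF ((D.H b).Ph j l (f x)) < max 2 (2 * tF ((D.H b).Ph j l (f x))) := by
          by_contra t
          obtain ⟨t1, t2⟩ := max_le_iff.1 (not_lt.1 t)
          exact h3 ⟨hF, by linarith, by unfold rF tF at *; linarith⟩
        have c3 : Continuous rF := by unfold rF; fun_prop
        have c4 : Continuous tF := HY1_btF.continuous
        filter_upwards [c1.eventually ((isOpen_lt c3
          (continuous_const.max (continuous_const.mul c4))).mem_nhds t)] with w a _ a'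
        exact absurd a a'.not_gt
    filter_upwards [c2, hf.ev, hf.sm.continuousAt.eventually
      ((o.isOpen_Do j l).mem_nhds a)] with w a1 a2 a3 i' y hy r
    obtain ⟨a4, e⟩ := HR2_P h hy.1 (A.trans (A.symm r) a2) a3
    exact e ▸ a1 (o.DP_WX a4) ((o.Do_Wn a3).1 a4)
  · obtain ⟨rfl, h3⟩ : c = .m ∧ x ∈ (D.H b).Kset := by
      by_contra t
      exact h1 (HD.Wn_iff.2 ⟨hx', h2, fun a a' => t ⟨a, a'⟩⟩)
    obtain ⟨l, n, e, k, a⟩ := o.Kset_iff.1 h3
    have B : ∀ w ∈ (D.H b).Wo .m, kr ((D.H b).kU k ((D.H b).gm (l, n, false, e) w)) < 1 / 128 →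
        (D.H b).gm (l, n, false, e) w ∈ (D.H b).Ko k ∧
          D.atlO.R (b, .m) w (b, .m) ((D.H b).gm (l, n, false, e) w) := fun w a1 a2 =>
      have a3 := o.Ko_iff.2 (a2.trans (by norm_num))
      ⟨a3, GD.R_same.2 (HD.R_mm.2 ⟨a1, a3.1, _, rfl⟩)⟩
    have a' := a.trans_lt (show (0 : ℝ) < 1 / 128 by norm_num)
    refine .inr ⟨.inl (b, k), ⟨_, _, (), _, (B x hx' a').2, rfl, (B x hx' a').1, rfl⟩,
      fun U _ _ => ?_⟩
    filter_upwards [(o.isOpen_Wo .m).mem_nhds hx', (isOpen_lt (contDiff_kr.continuous.comp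
      (((D.H b).continuous_kU k).comp (o.grp_m.sm (l, n, false, e)).continuous))
      continuous_const).mem_nhds a'] with w a1 a2 i' y hy r
    obtain ⟨u, -, u1, u2⟩ := HR2_K h hy.1 (A.trans (A.symm r) (B w a1 a2).2) (B w a1 a2).1
    exact absurd u2 (hy.2 b k u (u1.trans_le (le_of_lt a2)))

theorem WM.rep (h : WM D q η) :
    Rep D.atlO (q.VN D) (fun i => q.N i.1 i.2) (q.NM D) D.NO := by
  have C : ∀ b c, ∀ x ∈ (D.H b).Wn c, (∃ i : Bool × K3, q.N b c x ∈ q.N i.1 i.2 '' q.VN D i) ∨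
      ∃ P, q.N b c x ∈ q.NM D P := fun b c x hx => by
    by_cases h0 : x ∈ q.VN D (b, c)
    · exact .inl ⟨(b, c), x, h0, rfl⟩
    · obtain ⟨b', k, w, a, e⟩ := HR2_out (i := (b, c)) hx h0
      exact .inr ⟨.inl (b', k), w, a.trans_lt (by norm_num), e.symm⟩
  have E : ∀ p j, Disjoint (q.NM D (.inl p)) (q.NM D (.inr j)) := fun p j => by
    refine disjoint_left.2 ?_
    rintro _ ⟨x, hx, rfl⟩ hm
    rcases HR2_NW h hm with ⟨b, c, y, a, e⟩ | ⟨c, y, a, e⟩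
    exacts [h.dX _ _ _ _ _ x hx y a e.symm, h.dT _ _ _ _ x hx y a e.symm]
  refine ⟨h.ok.n_orb, fun i x a => B3.atlO_W D i ▸ HD.Wn_sub _ a.1,
    fun i => (h.pN i.1 i.2).mono (HR2_open h i) fun _ a => a.1,
    fun i j x a y a' => h.eN _ _ _ _ x a.1 y a'.1, ?_, ?_, fun m => ?_, ?_, ?_, ?_,
    fun i P P' x => h.ok.NO_dis, fun P i x a => h.pre_N P i a.1, HR2_hole h⟩
  · rintro (p | j)
    exacts [(h.pK p.1 p.2).isOpen_image isOpen_WK Subset.rfl, h.isOpen_NW j]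
  · rintro (p | j) (p' | j') e
    · refine disjoint_left.2 ?_
      rintro _ ⟨x, hx, rfl⟩ ⟨y, hy, e'⟩
      obtain ⟨e1, e2, -⟩ := (h.eK _ _ _ _ y hy x hx).1 e'
      exact e (congrArg _ (Prod.ext e1 e2).symm)
    · exact E p j'
    · exact (E p' j).symm
    · refine disjoint_left.2 fun m a a' => e (congrArg _ ?_)
      rcases HR2_NW h a with ⟨b, c, y, u, e1⟩ | ⟨c, y, u, e1⟩ <;>
        rcases HR2_NW h a' with ⟨b', c', y', u', e2⟩ | ⟨c', y', u', e2⟩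
      · exact ((h.eX _ _ _ _ _ _ y u y' u').1 (e1.trans e2.symm)).1
      · exact ((h.eXT _ _ _ _ _ y u y' u').1 (e1.trans e2.symm)).1
      · exact ((h.eXT _ _ _ _ _ y' u' y u).1 (e2.trans e1.symm)).1.symm
      · exact ((h.eT _ _ _ _ y u y' u').1 (e1.trans e2.symm)).1
  · rcases h.cov m with ⟨b, c, x, a, rfl⟩ | ⟨b, k, a⟩ | ⟨j, b, c, x, a, rfl⟩ | ⟨j, i, a⟩
    · exact C b c x a
    · exact .inr ⟨.inl (b, k), a⟩
    · cases c
      · by_cases hy : x ∈ (D.H b).Yo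
        · exact .inr ⟨.inr j, h.F_sub j b a hy⟩
        · obtain ⟨t1, t2⟩ := not_or.1 fun t => hy ⟨a.1, t⟩
          obtain ⟨l, z, c, rfl⟩ := (h.ok.ok b).DP_onto j a.1
            (max_lt (by linarith [not_lt.1 t1, not_lt.1 t2]) (by linarith [not_lt.1 t2]))
          exact h.gP j b l z c ▸ C b _ z c.1
      · refine .inr ⟨.inr j, .inl (.inl ?_)⟩
        cases b
        exacts [.inr ⟨x, a, rfl⟩, .inl ⟨x, a, rfl⟩]
      · refine .inr ⟨.inr j, .inl (.inr (h.OL_eq j ▸ ?_))⟩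
        cases b
        exacts [.inr ⟨x, a, rfl⟩, .inl ⟨x, a, rfl⟩]
    · rw [← WTI_eq] at a
      refine .inr ⟨.inr j, .inr ?_⟩
      cases i
      exacts [.inr a, .inl a]
  · rintro (p | j)
    exacts [(h.ok.indU p).isOpen_nb, (h.ok.indY j).isOpen_nb]
  · rintro (p | j)
    exacts [(h.ok.indU p).nb_sub, (h.ok.indY j).nb_sub]
  · rintro (p | j) i x i' y
    exacts [(h.ok.indU p).nb_rel, (h.ok.indY j).nb_rel]

end Pool.Agent.Work.MP_bf98aa_gt.B3
end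

-- merged part: Pool.Agent.Work.MP_bf98aa_gt.B3.HR3
section
/-!
Forms on the manifold that agree with a family on a piece agree with the pulled-back family.
PLAN. `not_sat`: `Wn_sat` for both halves (`R_same`, `R_cross`, levels). `matU`, `matY`: move `x` to `DK` resp. `DP` (`invR_pl`, `InvR.eq_of_rel` in `res atlO (Wn ∩ NO)`), `pl_comp`, `pl_congr`, `pb_comp`;
the exceptional set `(kV w 2).re = kr w` of `matU` is avoided by the choice of the sign of the chart point or by density and continuity.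
-/

set_option autoImplicit false

open scoped Manifold ContDiff Topology Matrix ComplexConjugate
open Set Complex Filter

namespace Pool.Agent.Work.MP_bf98aa_gt.B3

open Pool.Agent.Work.MP_bf98aa_gt.Th Pool.Agent.Work.MP_bf98aa_gt.Cy

variable {M : Type} [TopologicalSpace M] [ChartedSpace E6 M] [IsManifold 𝓘(ℝ, E6) ∞ M]
  [T2Space M] [CompactSpace M] {D : GD} {q : Ch M} {η : Fo M 2} {k : ℕ}

theorem WM.not_sat (h : WM D q η) {i : Bool × K3} {x : E6} (hx : x ∉ (D.H i.1).Wn i.2) :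
    x ∉ sat D.atlO (q.VN D) i :=
  fun ⟨_, _, hy, hr⟩ => hx ((h.ok.Wn_sat hr).2 hy.1)

theorem WM.HR3_mv (h : WM D q η) {u : Fo M k} {c : Bool × K3 → Fm E6 k}
    {N : Bool × K3 → Set E6} (ho : ∀ i, IsOpen (N i)) (hc : InvR (res D.atlO N) c)
    {i j : Bool × K3} {x z : E6} (hr : D.atlO.R i x j z) (hx : x ∈ (D.H i.1).Wn i.2)
    (hx' : x ∈ N i) (hz : z ∈ N j) (he : pl (q.N j.1 j.2) u z = c j z) :
    pl (q.N i.1 i.2) u x = c i x := by
  obtain ⟨f, a⟩ := h.ok.pre0_O.loc hr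
  obtain rfl := a.eq
  rw [← hc _ _ _ _ (a.sec.res ho hx' hz), ← pb_congr' he]
  exact (invR_pl (A := D.atlO) (ψ := fun i => q.N i.1 i.2) (fun i => h.pN i.1 i.2)
    (fun i j x hx y hy r => (h.eN i.1 i.2 j.1 j.2 x hx y hy).2 r) u _ _ _ _
    (a.sec.res (fun i => (h.pN i.1 i.2).opn) hx ((h.ok.Wn_sat hr).1 hx))).symm

theorem WM.matU (h : WM D q η) (p : Bool × J4) {u : Fo M k} {c : Bool × K3 → Fm E6 k}
    {e : Unit → Fm E6 k} (hc : InvR (res D.atlO (D.NO (.inl p))) c) (hm : Mat (D.SU p) c e)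
    (he : ∀ w, kr w < 1 / 64 → kr w ≠ 0 → (kV w 2).re ≠ kr w →
      pb (tw (D.H p.1).a) (pl (q.K p.1 p.2) u) w = e () w) :
    ∀ i, ∀ x ∈ q.VN D i, x ∈ D.NO (.inl p) i → pl (q.N i.1 i.2) u x = c i x := by
  intro i x hx hn
  obtain ⟨_, x', _, _, r, rfl, s, -⟩ := id hn
  have hd := h.ok.ok p.1
  have h1 : x' ∈ (D.H p.1).Wn .m := (h.ok.Wn_sat r).1 hx.1
  obtain ⟨l, n, h2, -⟩ := hd.to_DK s ((HD.Wn_iff.1 h1).2.2 rfl)
  have r' : D.atlO.R i x (p.1, .m) ((D.H p.1).Dm l n x') := h.ok.pre0_O.trans r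
    (GD.R_same.2 (HD.R_mm.2 ⟨s.1, (hd.DK_sub h2).1.1, (l, n, false, false), rfl⟩))
  generalize (D.H p.1).Dm l n x' = z at h2 r'
  obtain ⟨h3, h4⟩ := hd.DK_sub h2
  obtain ⟨h5, h6⟩ := hd.DK_iff.1 h2
  have h7 := hd.kU_sm (k := p.2) (z := z) (hd.small h5).1
  refine h.HR3_mv (h.ok.indU p).isOpen_nb hc r' hx.1 hn ((h.ok.indU p).nb_rel hn r') ?_
  rw [← hm (p.1, .m) z () _ h7 (((hd.isOpen_Ko p.2).eventually_mem h3).mono
    fun w a => ⟨rfl, a, rfl⟩), ← pb_congr' (he _ h5 h4 h6), ← pb_comp _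
    (h7.differentiableAt (by simp)) ((tw_sm h4 h6).differentiableAt (by simp))]
  exact (pl_congr (((hd.isOpen_DK p.2).eventually_mem h2).mono (h.gK p.1 p.2)) u).trans
    (pl_comp ((h.pK p.1 p.2).sm _ (hd.oK_mem h2).1) (hd.oK_ar h2).1.sm u)

theorem WM.matY (h : WM D q η) (j : J4) {u : Fo M k} {c : Bool × K3 → Fm E6 k}
    {e : Bool → Fm E6 k} (hc : InvR (res D.atlO (D.NO (.inr j))) c) (hm : Mat (D.SYo j) c e)
    (he : ∀ b, ∀ y ∈ (D.H b).WX .F, y ∈ (D.H b).Yo → pl (q.X j b .F) u y = e b y) :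
    ∀ i, ∀ x ∈ q.VN D i, x ∈ D.NO (.inr j) i → pl (q.N i.1 i.2) u x = c i x := by
  intro i x hx hn
  obtain ⟨_, z, b, y, r, l, rfl, s, hy, hs⟩ := id hn
  have hd := h.ok.ok b
  have h1 : z ∈ (D.H b).DP j l := ⟨(h.ok.Wn_sat r).1 hx.1, s.2⟩
  have h2 : (D.H b).Ph j l z ∈ (D.H b).Yo :=
    (HD.Sgn_symm hs).elim (fun e => e ▸ hy) fun e => e ▸ HD.iof_Yo hy
  obtain ⟨h3, h4⟩ := h.ok.mat_Ph hm s h2
  refine h.HR3_mv (h.ok.indY j).isOpen_nb hc r hx.1 hn h3 ?_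
  rw [h4, ← pb_congr' (he b _ (hd.DP_WX h1) h2)]
  exact (pl_congr (((hd.isOpen_DP j l).eventually_mem h1).mono (h.gP j b l)) u).trans
    (pl_comp ((h.pX j b .F).sm _ (hd.DP_WX h1)) (hd.Ph_sm s) u)


end Pool.Agent.Work.MP_bf98aa_gt.B3
end

-- merged part: Pool.Agent.Work.MP_bf98aa_gt.B3.HMain
section
/-!
The second and third cohomology of the manifold.
-/

set_option autoImplicit false

open scoped Manifold ContDiff Topology Matrix ComplexConjugate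
open Set Complex Filter

namespace Pool.Agent.Work.MP_bf98aa_gt.B3

open Pool.Agent.Work.MP_bf98aa_gt.Th Pool.Agent.Work.MP_bf98aa_gt.Cy

section
variable {ι κ : Type} {k : ℕ} {A : Atl ι} {B : Atl κ} {S : ι → E6 → κ → E6 → Prop}

theorem HMain_gen (hI : Ind A B S) {c : ι → Fm E6 (k + 1)} (hc : ClF (res A (nb A S)) c)
    {P : (κ → Fm E6 (k + 1)) → Prop} (hP : ∀ e, ClF B e → ∃ v, ClF B v ∧ ExF B (e - v) ∧ P v) :
    ∃ u' v, P v ∧ InvR (res A (nb A S)) u' ∧ Mat S u' v ∧ ExF (res A (nb A S)) (c - u') := by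
  obtain ⟨e, he, hm⟩ := hI.push_isD (c := c) (w := 0) (v := 0) ⟨hc.1, hc.2⟩ Mat.zero
  obtain ⟨v, hv, hx, hp⟩ := hP e (he.clF fun _ _ _ => rfl)
  obtain ⟨u', hu, hm'⟩ := hI.pull_cl hv
  exact ⟨u', v, hp, hu.2, hm', hI.pull_ex (hc.2.sub hu.2) (hm.sub hm') hx⟩

theorem HMain_zero (hI : Ind A B S) {e : ι → Fm E6 (k + 1)} {v : κ → Fm E6 (k + 1)}
    (he : ClF (res A (nb A S)) e) (hm : Mat S e v) {c : ι → Fm E6 k}
    (hc : IsDF (res A (nb A S)) c e) : ExF B v ∧ (v = 0 → ClF (res A (nb A S)) c) :=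
  ⟨(hI.push_isD hc hm).imp fun _ h => h.1, fun h0 => hc.clF
    (hI.ext_dn he.2 InvR.zero hm Mat.zero fun _ _ _ => by rw [h0])⟩

end

variable {M : Type} [TopologicalSpace M] [ChartedSpace E6 M] [IsManifold 𝓘(ℝ, E6) ∞ M]
  [T2Space M] [CompactSpace M] {D : GD} {q : Ch M} {η : Fo M 2}

theorem HMain_K (h : WM D q η) (p : Bool × J4) (t : ℝ) (w : E6) (h1 : kr w < 1 / 64)
    (h2 : kr w ≠ 0) (h3 : (kV w 2).re ≠ kr w) :
    pb (tw (D.H p.1).a) (pl (q.K p.1 p.2) (t • η)) w =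
      (t • fun _ : Unit => d1 (D.H p.1).lamU) () w := by
  have hw : tw (D.H p.1).a w ∈ WK := (tw_norm h2 h3).trans_lt h1
  rw [pl_smul, pb_smul, Pi.smul_apply, pb_congr' (h.oK _ _ _ hw), tw_symp (h.ok.ok _) h2 h3]
  rfl

theorem HMain_X (h : WM D q η) (j : J4) {ζ : Fo M 2}
    (hζ : ∀ b, ∀ z ∈ (D.H b).WX .F, z ∈ (D.H b).Yo → pl (q.X j b .F) ζ z = zeY b z) (t t' : ℝ) :
    ∀ b, ∀ y ∈ (D.H b).WX .F, y ∈ (D.H b).Yo → pl (q.X j b .F) (t • η + t' • ζ) y =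
      (t • (fun _ : Bool => d1 lamS) + t' • zeY) b y := fun b y h1 h2 => by
  rw [pl_add, pl_smul, pl_smul, Pi.add_apply, Pi.smul_apply, Pi.smul_apply, h.oX _ _ _ _ h1,
    hζ b y h1 h2]
  rfl

theorem HMain_two (h : WM D q η) (P : Bool × J4 ⊕ J4) {c : Bool × K3 → Fm E6 2}
    (hc : ClF (res D.atlO (D.NO P)) c) :
    ∃ (u : Fo M 2) (u' : Bool × K3 → Fm E6 2), ClO u (q.NM D P) ∧
      (∀ i, ∀ x ∈ q.VN D i, x ∈ D.NO P i → pl (q.N i.1 i.2) u x = u' i x) ∧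
      ExF (res D.atlO (D.NO P)) (c - u') := by
  obtain p | j := P
  · have hI := h.ok.indU p
    obtain ⟨u', _, ⟨t, rfl⟩, h1, h2, h3⟩ := HMain_gen hI hc
      (P := fun v => ∃ t : ℝ, v = t • fun _ => d1 (D.H p.1).lamU) fun e he =>
        (h2U hI.orbB (h.ok.ok _) he).elim fun t ht =>
          ⟨_, (cl_omU hI.orbB _).smul hI.orbB t, ht, t, rfl⟩
    exact ⟨t • η, u', (h.cl.smul t).mono (subset_univ _), h.matU p h1 h2 (HMain_K h p t), h3⟩
  · have hI := h.ok.indY j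
    obtain ⟨ζ, z1, z2, -⟩ := h.h2W j
    obtain ⟨u', _, ⟨t, t', rfl⟩, h1, h2, h3⟩ := HMain_gen hI hc
      (P := fun v => ∃ t t' : ℝ, v = t • (fun _ => d1 lamS) + t' • zeY) fun e he => by
        obtain ⟨t, t', ht⟩ := h.ok.h2Y hI.orbB he
        exact ⟨_, ((h.ok.cl_omY hI.orbB).smul hI.orbB t).add hI.orbB
          ((h.ok.cl_zeY hI.orbB).smul hI.orbB t'), ht, t, t', rfl⟩
    exact ⟨_, u', ((h.cl.smul t).mono (subset_univ _)).add (z1.smul t'),
      h.matY j h1 h2 (HMain_X h j z2 t t'), h3⟩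

theorem HMain_one (h : WM D q η) (P : Bool × J4 ⊕ J4) {c : Bool × K3 → Fm E6 1}
    (hc : ClF (res D.atlO (D.NO P)) c) :
    ∃ (u : Fo M 1) (u' : Bool × K3 → Fm E6 1), ClO u (q.NM D P) ∧
      (∀ i, ∀ x ∈ q.VN D i, x ∈ D.NO P i → pl (q.N i.1 i.2) u x = u' i x) ∧
      ExF (res D.atlO (D.NO P)) (c - u') := by
  obtain p | j := P
  · have hI := h.ok.indU p
    choose u u1 u2 using h.exists_st p.1 p.2
    obtain ⟨u', _, ⟨s, t, rfl⟩, h1, h2, h3⟩ := HMain_gen hI hc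
      (P := fun v => ∃ s t : ℝ, v = s • stU (D.H p.1).a 0 + t • stU (D.H p.1).a 1) fun e he => by
        obtain ⟨s, t, ht⟩ := h1U hI.orbB (D.H p.1).a he
        exact ⟨_, ((cl_stU hI.orbB _ 0).smul hI.orbB s).add hI.orbB
          ((cl_stU hI.orbB _ 1).smul hI.orbB t), ht, s, t, rfl⟩
    refine ⟨s • u 0 + t • u 1, u', ((u1 0).smul s).add ((u1 1).smul t),
      h.matU p h1 h2 fun w w1 w2 w3 => ?_, h3⟩
    have hw : tw (D.H p.1).a w ∈ WK := (tw_norm w2 w3).trans_lt w1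
    have e : ∀ i, pb (tw (D.H p.1).a) (pl (q.K p.1 p.2) (u i)) w = stU (D.H p.1).a i () w :=
      fun i => by
        rw [pb_congr' (u2 i _ hw), pb_dfn ((tw_sm w2 w3).differentiableAt (by simp))
          (differentiableAt_apply _ _), stU]
        congr 2 with y
        fin_cases i <;> simp [tw, toK_20, toK_21]
    rw [pl_add, pl_smul, pl_smul, pb_add, pb_smul, pb_smul, Pi.add_apply, Pi.smul_apply,
      Pi.smul_apply, e, e]
    rfl
  · have hI := h.ok.indY j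
    obtain ⟨u, u1, u2⟩ := h.exists_dm j
    obtain ⟨u', _, ⟨s, rfl⟩, h1, h2, h3⟩ := HMain_gen hI hc
      (P := fun v => ∃ s : ℝ, v = s • dmY) fun e he => (h.ok.h1Y hI.orbB he).elim fun s hs =>
        ⟨_, (h.ok.cl_dmY hI.orbB).smul hI.orbB s, hs, s, rfl⟩
    refine ⟨s • u, u', u1.smul s, h.matY j h1 h2 fun b y y1 y2 => ?_, h3⟩
    rw [pl_smul, Pi.smul_apply, u2 b y y1 y2]
    rfl

theorem WM.h3 (h : WM D q η) (w : Fo M 3) (hw : ClO w univ) : ExO w univ := by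
  have hb : ∀ P, ExO (w - 0) (q.NM D P) := by
    rw [sub_zero]
    rintro (p | j)
    exacts [h.h3K _ _ (hw.mono (subset_univ _)), h.h3W j (hw.mono (subset_univ _))]
  choose b hb using hb
  exact h.rep.main (k := 1) hw (e := fun _ => 0) (e' := fun _ => 0) hb (fun _ => ClF.zero)
    (fun _ _ _ _ _ => by rw [pl_zero]; rfl) (fun α hα _ => h.ok.h3O hα) fun P c hc =>
      ⟨fun _ _ => rfl, HMain_two h P (hc.clF fun _ _ _ => rfl)⟩

theorem WM.h2 (h : WM D q η) (w : Fo M 2) (hw : ClO w univ) :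
    ∃ t : ℝ, ExO (w - t • η) univ := by
  choose ζ z1 z2 z3 using h.h2W
  obtain ⟨t₀, t₁, h0⟩ := z3 0 w (hw.mono (subset_univ _))
  have hw' := hw.sub (h.cl.smul t₀)
  have key : ∀ P, ∃ (e : Fo M 2) (e' : Bool × K3 → Fm E6 2), ExO (w - t₀ • η - e) (q.NM D P) ∧
      ClF (res D.atlO (D.NO P)) e' ∧
      (∀ i, ∀ x ∈ q.VN D i, x ∈ D.NO P i → pl (q.N i.1 i.2) e x = e' i x) ∧
      (∀ c, IsDF (res D.atlO (D.NO P)) c e' → e = 0 ∧ ClF (res D.atlO (D.NO P)) c) ∧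
      (P = .inr 0 → ∃ t : ℝ, Mat (D.SYo 0) e' ((0 : ℝ) • (fun _ => d1 lamS) + t • zeY)) := by
    rintro (p | j)
    · have hI := h.ok.indU p
      obtain ⟨t, ht⟩ := h.h2K p.1 p.2 (hw'.mono (subset_univ _))
      obtain ⟨e', h1, h2⟩ := hI.pull_cl ((cl_omU hI.orbB (D.H p.1)).smul hI.orbB t)
      refine ⟨_, e', ht, h1, h.matU p h1.2 h2 (HMain_K h p t), fun c hc => ?_, nofun⟩
      obtain ⟨a1, a2⟩ := HMain_zero hI h1 h2 hc
      obtain rfl := h2U' (h.ok.ok _) a1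
      exact ⟨zero_smul _ _, a2 (zero_smul _ _)⟩
    · have hI := h.ok.indY j
      obtain ⟨t, t', ht, hj⟩ : ∃ t t' : ℝ, ExO (w - t₀ • η - (t • η + t' • ζ j)) (q.NW D j) ∧
          (j = 0 → t = 0) := by
        by_cases hj : j = 0
        · subst hj
          exact ⟨0, t₁, by rw [zero_smul, zero_add, sub_sub]; exact h0, fun _ => rfl⟩
        · obtain ⟨t, t', ht⟩ := z3 j _ (hw'.mono (subset_univ _))
          exact ⟨t, t', ht, fun e => (hj e).elim⟩
      obtain ⟨e', h1, h2⟩ := hI.pull_cl (((h.ok.cl_omY hI.orbB).smul hI.orbB t).add hI.orbB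
        ((h.ok.cl_zeY hI.orbB).smul hI.orbB t'))
      refine ⟨_, e', ht, h1, h.matY j h1.2 h2 (HMain_X h j (z2 j) t t'), fun c hc => ?_,
        fun e => ?_⟩
      · obtain ⟨a1, a2⟩ := HMain_zero hI h1 h2 hc
        obtain ⟨rfl, rfl⟩ := h.ok.h2Y' hI.orbB a1
        exact ⟨by simp, a2 (by simp)⟩
      · obtain rfl : j = 0 := Sum.inr.inj e
        obtain rfl := hj rfl
        exact ⟨t', h2⟩
  choose e e' k1 k2 k3 k4 k5 using key
  choose b hb using k1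
  obtain ⟨t, ht⟩ := k5 _ rfl
  refine ⟨t₀, h.rep.main (k := 0) hw' hb k2 k3 (fun α hα ha => ?_) fun P c hc =>
    ⟨fun _ _ => by rw [(k4 P c hc).1]; rfl, HMain_one h P (k4 P c hc).2⟩⟩
  have a : ∀ b l z, z ∉ (D.H b).Wn (sP l) ∧ z ∈ (D.H b).Do 0 l ∧
      (D.H b).Ph 0 l z ∈ (D.H b).Yo ∧ 0 ≤ tF ((D.H b).Ph 0 l z) → α (b, sP l) z = 0 :=
    fun b l z ⟨a1, a2, a3, a4⟩ => by
      obtain ⟨b1, b2⟩ := h.ok.mat_Ph ht a2 a3
      rw [ha _ _ z b1 (h.not_sat a1), b2, pb_congr' (β := 0) (by simp [zeY_zero a4]), pb_zero]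
      rfl
  exact h.ok.h2O hα (fun b z hz h0 => a b 2 z (h.ok.line_p hz h0))
    fun b z hz h0 h1 => a b 4 z (h.ok.line_f hz h0 h1)

end Pool.Agent.Work.MP_bf98aa_gt.B3
end
end

-- merged part: Pool.Agent.Work.MP_bf98aa_gt.B3.Final
section
-- merged part: Pool.Agent.Work.MP_bf98aa_gt.Cy.QMain
section
/-!
The existence question for almost symplectic forms with trivial canonical bundle.
-/

set_option autoImplicit false

open scoped Manifold ContDiff Topology ComplexConjugate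
open Set Complex

namespace Pool.Agent.Work.MP_bf98aa_gt.Cy

open Pool.Agent.Work.MP_bf98aa_gt.Th

variable {M : Type} [TopologicalSpace M] [ChartedSpace E6 M] {η τ w : Fo M 2}

theorem CalabiYau.data (hc : CalabiYau (E := E6) (M := M) η) :
    ∃ (ρ σ : Fo M 3) (J : M → E6 →L[ℝ] E6), Cont (E := E6) (M := M) ρ ∧ Cont (E := E6) (M := M) σ ∧
      (∀ x, Ty (J x) (ρ x) (σ x)) ∧ ∀ x, Tms (η x) (J x) := by
  obtain ⟨ρ, σ, h1, h2, h3⟩ := hc
  choose J a b using fun x => Tame.ty (V := E6) (η := η x) (ρ := ρ x) (σ := σ x) (h3 x)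
  exact ⟨ρ, σ, J, h1, h2, a, b⟩

theorem nondeg_smul (hn : Form.Nondeg (E := E6) (M := M) η) {t : ℝ} (ht : t ≠ 0) :
    Form.Nondeg (E := E6) (M := M) (t • η) :=
  fun x u h => hn x u fun v => (mul_eq_zero.1 (h v)).resolve_left ht

variable [IsManifold 𝓘(ℝ, E6) ∞ M] [T2Space M] [CompactSpace M] [SimplyConnectedSpace M]

theorem cy_path (hη : SmO η univ) (hc : CalabiYau (E := E6) (M := M) η) (hτ : SmO τ univ)
    (hc' : CalabiYau (E := E6) (M := M) τ) : ∃ ε : ℝ, (ε = 1 ∨ ε = -1) ∧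
      ∀ t : ℝ, 0 < ε * t → Homotopic (E := E6) (M := M) τ (t • η) := by
  obtain ⟨ρ₀, σ₀, J₀, r0, s0, y0, t0⟩ := hc.data
  obtain ⟨ρ, σ, J, r1, s1, y1, t1⟩ := hc'.data
  obtain ⟨O, F, hO, hx, hA, hI, hS⟩ := exists_frames r0 s0 y0
  let B : Bdl M M := ⟨O, fun i x => (F x x).symm.trans (F i x)⟩
  have hB : B.Ok := ⟨hO, fun x => ⟨x, hx x⟩, fun i x h => hS x i x ⟨hx x, h⟩, fun i j =>
    ((hA i).trans_cont (hA j) (hO i) (hO j)).congr fun x _ => by ext1 v; simp [B]⟩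
  have hF : ∀ w : Fo M 3, Cont (E := E6) (M := M) w → B.CF fun x => psh (F x x) (w x) :=
    fun w hw i => ((hA i).form (hO i) hw).congr fun x _ => by
      ext v
      simp [B, psh, Function.comp_def]
  obtain ⟨ε, A, hε, a1, a2, a3, a4⟩ := hB.path (hF ρ r1) (hF σ s1) fun x => (y1 x).push (F x x)
  refine ⟨ε, hε, fun t ht => homotopic_of_tame (A := fun t x => cj (F x x).symm (A t x)) hO
    (fun x => ⟨x, hx x⟩) hA (fun i => (a1 i).congr fun z _ => ?_) (fun t ht x => ?_) hτ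
    (fun ψ U hP hm => ?_) (fun x => ?_) fun x => ?_⟩
  · ext1 v
    simp [B, cj]
  · obtain ⟨β, hβ⟩ := a2 t ht x
    exact ⟨_, hβ.push _⟩
  · rw [pl_smul]
    exact ContDiffOn.const_smul t (hη ψ U hP hm)
  · obtain ⟨r, hr, e⟩ := a3 x
    have : cj (F x x).symm (A 0 x) = r • J x := cj_ext _ fun v => by simp [e, cj]
    simpa only [this, one_smul] using (t1 x).smul (a := 1) (b := r) (by rwa [one_mul])
  · have : cj (F x x).symm (A 1 x) = ε • J₀ x := cj_ext _ fun v => by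
      obtain ⟨v, rfl⟩ := (F x x).surjective v
      rw [a4, ← hI x x (hx x), map_smul, ContinuousLinearEquiv.symm_apply_apply,
        ContinuousLinearEquiv.symm_apply_apply, smul_apply]
    simpa only [this, Pi.smul_apply] using (t0 x).smul (a := t) (b := ε) (by rwa [mul_comm])

theorem q1_cy (hη : ClO η univ) (hn : Form.Nondeg (E := E6) (M := M) η)
    (hc : CalabiYau (E := E6) (M := M) η) (h2 : ∀ w, ClO w univ → ∃ t : ℝ, ExO (w - t • η) univ)
    (hτ : Form.Smooth (E := E6) (M := M) τ) (hc' : CalabiYau (E := E6) (M := M) τ)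
    (hw : Form.Closed (E := E6) (M := M) w) {c : ℝ} (hi : HasIntegral (n := 3) (M := M) τ w c)
    (c0 : 0 < c) : ∃ o : Form E6 M 2, o.Closed ∧ o.Nondeg ∧ (o.sub w).Exact ∧
      Homotopic (E := E6) (M := M) τ o := by
  have hw' := (closed_iff w).1 hw
  obtain ⟨t, ht⟩ := h2 w hw'
  have hs : SmO τ univ := SmO.of_loc fun m _ => ⟨_, _, _, par_chart m, mem_chart_target E6 m,
    (chartAt E6 m).left_inv (mem_chart_source E6 m),
    (hτ m).contDiffAt ((chartAt E6 m).open_target.mem_nhds (mem_chart_target E6 m))⟩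
  obtain ⟨ε, hε, hp⟩ := cy_path hη.sm hc hs hc'
  have e1 : ε * ε = 1 := by rcases hε with rfl | rfl <;> norm_num
  have e2 : (ε * t) • ε • η = t • η := by rw [smul_smul, mul_right_comm, e1, one_mul]
  have h0 : 0 < ε * t := int_pos (hη.smul ε) (nondeg_smul hn (left_ne_zero_of_mul_eq_one e1)) hw'
    (by rwa [e2]) ((hp ε (by rw [e1]; exact one_pos)).hasIntegral hi) c0
  refine ⟨t • η, (closed_iff _).2 (hη.smul t), nondeg_smul hn (right_ne_zero_of_mul h0.ne'),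
    exact_of ?_, hp t h0⟩
  have e3 : (-1 : ℝ) • (w - t • η) = t • η - w := by
    funext x
    ext v
    simp
  have := ht.smul (-1)
  rwa [e3] at this

end Pool.Agent.Work.MP_bf98aa_gt.Cy
end

-- merged part: Pool.Agent.Work.MP_bf98aa_gt.B3.Fam
section
/-!
From manifolds of large volume to a family of pairwise non-diffeomorphic manifolds.
-/

set_option autoImplicit false

open scoped Manifold ContDiff Topology
open Set

namespace Pool.Agent.Work.MP_bf98aa_gt.B3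

open Pool.Agent.Work.MP_bf98aa_gt.Th Pool.Agent.Work.MP_bf98aa_gt.Cy

theorem big_mono {M : Type} [TopologicalSpace M] [ChartedSpace (Sp (Fin 3)) M]
    {η : Form (Sp (Fin 3)) M 2} {N N' : ℝ} (h : BigDomain η N) (hN : N' ≤ N) : BigDomain η N' := by
  obtain ⟨W, f, h1, h2, h3, h4, h5⟩ := h
  exact ⟨W, f, h1, h2, h3, h4, (ENNReal.ofReal_le_ofReal hN).trans h5⟩

theorem family_of (h : ∀ N : ℝ, ∃ (M : Type) (_ : TopologicalSpace M) (_ : T2Space M)
    (_ : CompactSpace M) (_ : SimplyConnectedSpace M) (_ : ChartedSpace E6 M)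
    (_ : IsManifold 𝓘(ℝ, E6) ∞ M) (η : Fo M 2), ClO η univ ∧ Form.Nondeg (E := E6) (M := M) η ∧
      (∀ w : Fo M 2, ClO w univ → ∃ t : ℝ, ExO (w - t • η) univ) ∧
      (∀ w : Fo M 3, ClO w univ → ExO w univ) ∧ CalabiYau (E := E6) (M := M) η ∧
      UnitSphere (E := E6) (M := M) η ∧ BigDomain (n := 3) (M := M) η N) :
    ∃ (X : ℕ → Mfd (Sp (Fin 3))) (η : ∀ k, Form (Sp (Fin 3)) (X k).M 2),
      (∀ k, Q1CY 3 (X k).M ∧ (η k).Closed ∧ (η k).Nondeg ∧ Spans (η k) ∧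
        (∀ w : Form (Sp (Fin 3)) (X k).M 3, w.Closed → w.Exact) ∧ CalabiYau (η k) ∧
        UnitSphere (η k) ∧ BigDomain (η k) k) ∧ ∀ k l, k ≠ l → ¬(X k).Diffeo (X l) := by
  choose M i1 i2 i3 i4 i5 i6 η hc hn h2 h3 hy hs hb using h
  choose C hC using fun N => bound (M := M N) (η := η N) (hc N) (hn N) (h2 N) (hs N)
  let a : ℕ → ℝ := fun k => Nat.rec 0 (fun _ x => max x (C x) + 1) k
  have a1 : ∀ k, a (k + 1) = max (a k) (C (a k)) + 1 := fun _ => rfl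
  have a2 : Monotone a := monotone_nat_of_le_succ fun k => by
    rw [a1]; linarith [le_max_left (a k) (C (a k))]
  have a3 : ∀ k : ℕ, (k : ℝ) ≤ a k := fun k => by
    induction k with
    | zero => simp [a]
    | succ k ih => rw [a1]; push_cast; linarith [le_max_left (a k) (C (a k))]
  have key : ∀ k l, k < l →
      IsEmpty (Diffeomorph 𝓘(ℝ, E6) 𝓘(ℝ, E6) (M (a k)) (M (a l)) ∞) :=
    fun k l hkl => ⟨fun φ => by
      obtain ⟨η', q1, q2, q3, q4⟩ := transfer φ (hc _) (hn _) (hs _) (hb _)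
      have e := hC _ η' _ q1 q2 q3 q4
      have e' := a2 (Nat.succ_le_of_lt hkl)
      rw [a1] at e'
      linarith [le_max_right (a k) (C (a k))]⟩
  refine ⟨fun k => ⟨M (a k)⟩, fun k => η (a k), fun k => ⟨fun τ w hτ hc' hw c c0 hi =>
    q1_cy (hc _) (hn _) (hy _) (h2 _) hτ hc' hw hi c0, (closed_iff _).2 (hc _), hn _,
    fun w hw => (h2 _ w ((closed_iff w).1 hw)).imp fun t ht => exact_of ht,
    fun w hw => exact_of (h3 _ w ((closed_iff w).1 hw)), hy _, hs _, big_mono (hb _) (a3 k)⟩,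
    fun k l h => ?_⟩
  rintro ⟨φ⟩
  rcases lt_or_gt_of_ne h with h | h
  · exact (key k l h).false φ
  · exact (key l k h).false φ.symm

end Pool.Agent.Work.MP_bf98aa_gt.B3
end

-- merged part: Pool.Agent.Work.MP_bf98aa_gt.B3.Final
section
/-!
The family.
-/

set_option autoImplicit false

open scoped Manifold ContDiff Topology Matrix ComplexConjugate
open Set Complex Filter

namespace Pool.Agent.Work.MP_bf98aa_gt.B3

open Pool.Agent.Work.MP_bf98aa_gt.Th Pool.Agent.Work.MP_bf98aa_gt.Cy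

theorem b3_family : ∃ (X : ℕ → Mfd (Sp (Fin 3))) (η : ∀ k, Form (Sp (Fin 3)) (X k).M 2),
    (∀ k, Q1CY 3 (X k).M ∧ (η k).Closed ∧ (η k).Nondeg ∧ Spans (η k) ∧
      (∀ w : Form (Sp (Fin 3)) (X k).M 3, w.Closed → w.Exact) ∧ CalabiYau (η k) ∧
      UnitSphere (η k) ∧ BigDomain (η k) k) ∧ ∀ k l, k ≠ l → ¬(X k).Diffeo (X l) :=
  family_of fun N => by
    obtain ⟨D, hD, hN⟩ := exists_GD N
    obtain ⟨M, i1, i2, i3, i5, i6, q, η, h⟩ := exists_WM hD
    have i4 := h.sc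
    exact ⟨M, i1, i2, i3, i4, i5, i6, η, h.cl, h.nd, h.h2, h.h3, h.cy h.h2, h.sphere,
      big_mono h.big hN⟩

end Pool.Agent.Work.MP_bf98aa_gt.B3
end
end
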