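import Pool.Agent.Work.MP_bf98aa_gt.B3.G1
import Pool.Agent.Work.MP_bf98aa_gt.Cy.G8
import Pool.Agent.Work.MP_bf98aa_gt.Cy.G4
import Pool.Agent.Work.MP_bf98aa_gt.B3.DFr

-- merged part: Pool.Agent.Work.MP_bf98aa_gt.B3.RDef
section
-- merged part: Pool.Agent.Work.MP_bf98aa_gt.B3.G2
section
/-!
Arrows and atlases.

PLAN. `loc_inv`: `ContDiffAt.toOpenPartialHomeomorph` / `ContDiffAt.localInverse`, `ContDiffAt.to_localInverse` with the equivalence given by the injective endomorphism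
(`LinearEquiv.ofInjectiveEndo`, `toContinuousLinearEquiv`). `Ar.symm`: `loc_inv`, the derivative of `g` is injective by the chain rule for `g ∘ f = id` (and `fderiv f` onto); `Ar.symm_pb`: `pb_comp`, `pb_congr`, `pb_id`.
`GOk.pre0`, `GOk.invF`: copy `Cy/G8a` (`Bar` in the place of `Gl.S`). `pre0_orb`: for `clo` only finitely many `γ` occur near `(x, y)` and each graph is closed.
`free_orb`: near `(x, x)` only finitely many `γ` occur; those with `g γ x ≠ x` do not relate points near `x`. `exists_M`: `Atl.exists_mfd`, `desc`, `ClO.of_loc`, `nondeg_of`, `d1_cl` (file `G1`, import it).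
-/

set_option autoImplicit false

open scoped Manifold ContDiff Topology Matrix ComplexConjugate
open Set Complex Filter

namespace Pool.Agent.Work.MP_bf98aa_gt.B3

open Pool.Agent.Work.MP_bf98aa_gt.Th Pool.Agent.Work.MP_bf98aa_gt.Cy

variable {ι ι₁ ι₂ J Γ : Type} {R R' R'' : E6 → E6 → Prop} {x y z : E6} {f g : E6 → E6} {k : ℕ}

theorem loc_inv (hf : ContDiffAt ℝ ∞ f x) (hi : Function.Injective (fderiv ℝ f x)) :
    ∃ g : E6 → E6, ContDiffAt ℝ ∞ g (f x) ∧ g (f x) = x ∧ (∀ᶠ z in 𝓝 x, g (f z) = z) ∧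
      ∀ᶠ w in 𝓝 (f x), f (g w) = w := by
  let e : E6 ≃L[ℝ] E6 :=
    (LinearEquiv.ofInjectiveEndo (fderiv ℝ f x : E6 →ₗ[ℝ] E6) hi).toContinuousLinearEquiv
  have hd : HasFDerivAt f (e : E6 →L[ℝ] E6) x := (hf.differentiableAt (by simp)).hasFDerivAt
  have hs := hf.hasStrictFDerivAt' hd (by simp)
  exact ⟨_, hf.to_localInverse hd (by simp), hs.localInverse_apply_image,
    hs.eventually_left_inverse, hs.eventually_right_inverse⟩

theorem par_of_inj {U : Set E6} (hU : IsOpen U) (hf : ∀ z ∈ U, ContDiffAt ℝ ∞ f z)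
    (hi : ∀ z ∈ U, Function.Injective (fderiv ℝ f z)) : Par (M := E6) f U := by
  refine ⟨hU, fun z hz => (hf z hz).contMDiffAt, fun z hz => ?_⟩
  obtain ⟨g, h1, -, h2⟩ := loc_inv (hf z hz) (hi z hz)
  exact ⟨g, h1.contMDiffAt, h2⟩

theorem inj_of_left (hf : ContDiffAt ℝ ∞ f x) (hg : ContDiffAt ℝ ∞ g (f x))
    (h : ∀ᶠ z in 𝓝 x, g (f z) = z) : Function.Injective (fderiv ℝ f x) := by
  have h1 := Filter.EventuallyEq.fderiv_eq (𝕜 := ℝ) (f₁ := fun z => g (f z)) (f := fun z => z) h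
  rw [fderiv_fun_comp x (hg.differentiableAt (by simp)) (hf.differentiableAt (by simp)),
    fderiv_fun_id] at h1
  exact Function.LeftInverse.injective (g := fderiv ℝ g (f x)) fun v => DFunLike.congr_fun h1 v

theorem Ar.mono (h : Ar R x y f) (hR : ∀ᶠ z in 𝓝 x, R z (f z) → R' z (f z)) : Ar R' x y f := by
  exact ⟨h.sm, h.eq, h.inj, (h.ev.and hR).mono fun z hz => hz.2 hz.1⟩

theorem Ar.refl (h : ∀ᶠ z in 𝓝 x, R z z) : Ar R x x fun z => z := by
  refine ⟨contDiffAt_id, rfl, ?_, h⟩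
  rw [fderiv_fun_id]
  exact fun _ _ e => e

theorem Ar.trans (h : Ar R x y f) (h' : Ar R' y z g) (hR : ∀ a b c, R a b → R' b c → R'' a c) :
    Ar R'' x z fun a => g (f a) := by
  obtain rfl := h.eq
  refine ⟨h'.sm.comp x h.sm, h'.eq, ?_, ?_⟩
  · rw [fderiv_fun_comp x (h'.sm.differentiableAt (by simp)) (h.sm.differentiableAt (by simp))]
    exact h'.inj.comp h.inj
  · exact (h.ev.and (h.sm.continuousAt.eventually h'.ev)).mono fun a ha => hR _ _ _ ha.1 ha.2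

theorem Ar.symm (h : Ar R x y f) : ∃ g, Ar (fun a b => R b a) y x g ∧
    (∀ᶠ z in 𝓝 x, g (f z) = z) ∧ ∀ᶠ w in 𝓝 y, f (g w) = w := by
  obtain rfl := h.eq
  obtain ⟨g, h1, h2, h3, h4⟩ := loc_inv h.sm h.inj
  refine ⟨g, ⟨h1, h2, inj_of_left h1 (h2.symm ▸ h.sm) h4, ?_⟩, h3, h4⟩
  have h5 : ∀ᶠ z in 𝓝 (g (f x)), R z (f z) := h2.symm ▸ h.ev
  filter_upwards [h4, h1.continuousAt.eventually h5] with w e hw
  rwa [e] at hw

theorem Ar.symm_pb (h : Ar R x y f) {α α' : Fm E6 k} (he : pb f α' x = α x) :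
    ∃ g, Ar (fun a b => R b a) y x g ∧ pb g α y = α' y := by
  obtain ⟨g, h1, -, h2⟩ := h.symm
  refine ⟨g, h1, ?_⟩
  obtain rfl := h1.eq
  rw [← pb_congr' he, ← pb_comp α' (h1.sm.differentiableAt (by simp))
    (h.sm.differentiableAt (by simp)), pb_congr (g := fun w => w) α' h2, pb_id]

theorem Ar.trans_pb (h : Ar R x y f) (h' : Ar R' y z g) {α α' α'' : Fm E6 k}
    (he : pb f α' x = α x) (he' : pb g α'' y = α' y) : pb (fun a => g (f a)) α'' x = α x := by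
  obtain rfl := h.eq
  rw [pb_comp α'' (h.sm.differentiableAt (by simp)) (h'.sm.differentiableAt (by simp)),
    pb_congr' he', he]

theorem Pre0.pre {A : Atl ι} (h : Pre0 A) (hf : Free A) : A.Pre := by
  refine ⟨h.opn, h.mem, h.refl, h.symm, h.trans, fun hr => ?_, fun hx => hf _ _ hx, h.clo⟩
  obtain ⟨f, h1⟩ := h.loc hr
  exact ⟨f, h1.sm, h1.eq, h1.ev⟩

theorem Pre0.res {A : Atl ι} (h : Pre0 A) {W : ι → Set E6} (ho : ∀ i, IsOpen (W i))
    (hs : ∀ i, W i ⊆ A.W i) : Pre0 (res A W) := by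
  refine ⟨ho, fun e => ⟨e.1, e.2.1⟩, fun e => ⟨e, e, h.refl (hs _ e)⟩,
    fun e => ⟨e.2.1, e.1, h.symm e.2.2⟩, fun e e' => ⟨e.1, e'.2.1, h.trans e.2.2 e'.2.2⟩,
    fun e => ?_, fun hx hy hc => ⟨hx, hy,
      h.clo (hs _ hx) (hs _ hy) (closure_mono (fun _ hp => hp.2.2) hc)⟩⟩
  obtain ⟨f, h1⟩ := h.loc e.2.2
  refine ⟨f, h1.mono ?_⟩
  filter_upwards [(ho _).mem_nhds e.1,
    h1.sm.continuousAt.eventually ((ho _).mem_nhds (h1.eq.symm ▸ e.2.1))] with w a b c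
  exact ⟨a, b, c⟩

theorem Pre0.comap {A : Atl ι₂} (h : Pre0 A) (e : ι₁ → ι₂) : Pre0 (comap A e) := by
  exact ⟨fun i => h.opn _, h.mem, h.refl, h.symm, h.trans, h.loc, h.clo⟩

theorem pre0_fam {A : J → Atl ι} (h : ∀ j, Pre0 (A j)) : Pre0 (fam A) := by
  refine ⟨fun p => (h _).opn _, ?_, fun e => ⟨rfl, (h _).refl e⟩, ?_, ?_, ?_, ?_⟩
  · rintro ⟨j, i⟩ x ⟨j', i'⟩ y ⟨rfl, e⟩
    exact (h _).mem e
  · rintro ⟨j, i⟩ x ⟨j', i'⟩ y ⟨rfl, e⟩
    exact ⟨rfl, (h _).symm e⟩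
  · rintro ⟨j, i⟩ x ⟨j', i'⟩ y ⟨j'', i''⟩ z ⟨rfl, e⟩ ⟨rfl, e'⟩
    exact ⟨rfl, (h _).trans e e'⟩
  · rintro ⟨j, i⟩ x ⟨j', i'⟩ y ⟨rfl, e⟩
    obtain ⟨f, h1⟩ := (h _).loc e
    exact ⟨f, h1.mono (Eventually.of_forall fun _ a => ⟨rfl, a⟩)⟩
  · rintro ⟨j, i⟩ x ⟨j', i'⟩ y hx hy hc
    obtain ⟨p, rfl, -⟩ := closure_nonempty_iff.1 ⟨_, hc⟩
    exact ⟨rfl, (h _).clo hx hy (closure_mono (fun _ hp => hp.2) hc)⟩

theorem G2_ginj {g : Γ → E6 → E6} (h : Grp g) (γ : Γ) (z : E6) :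
    Function.Injective (fderiv ℝ (g γ) z) := by
  obtain ⟨γ', e⟩ := h.inv γ
  exact inj_of_left (h.sm γ).contDiffAt (h.sm γ').contDiffAt (Eventually.of_forall e)

theorem G2_lf {g : Γ → E6 → E6} (h : Grp g) :
    LocallyFinite fun γ => {p : E6 × E6 | g γ p.1 = p.2} := by
  refine fun p => ⟨{q | ‖q‖ < ‖p‖ + 1},
    (isOpen_lt continuous_norm continuous_const).mem_nhds (lt_add_one ‖p‖),
    (h.fin (‖p‖ + 1)).subset ?_⟩
  rintro γ ⟨q, a, b⟩
  exact ⟨q.1, (norm_fst_le q).trans (le_of_lt b),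
    (congrArg norm a).trans_le ((norm_snd_le q).trans (le_of_lt b))⟩

theorem G2_gcl {g : Γ → E6 → E6} (h : Grp g) (γ : Γ) :
    IsClosed {p : E6 × E6 | g γ p.1 = p.2} :=
  isClosed_eq ((h.sm γ).continuous.comp continuous_fst) continuous_snd

theorem pre0_orb {W : Set E6} {g : Γ → E6 → E6} (hW : IsOpen W) (h : Grp g) :
    Pre0 (orb W g) := by
  refine ⟨fun _ => hW, fun e => ⟨e.1, e.2.1⟩, fun e => ⟨e, e, h.one.imp fun _ a => a _⟩,
    ?_, ?_, ?_, fun hx hy hc => ⟨hx, hy, ?_⟩⟩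
  · rintro _ x _ y ⟨a, b, γ, rfl⟩
    exact ⟨b, a, (h.inv γ).imp fun _ c => c _⟩
  · rintro _ x _ y _ z ⟨a, -, γ, rfl⟩ ⟨-, b, γ', rfl⟩
    exact ⟨a, b, (h.mul γ γ').imp fun _ c => c _⟩
  · rintro _ x _ y ⟨a, b, γ, rfl⟩
    refine ⟨g γ, (h.sm γ).contDiffAt, rfl, G2_ginj h γ x, ?_⟩
    filter_upwards [hW.mem_nhds a, (h.sm γ).continuous.continuousAt.eventually (hW.mem_nhds b)]
      with w c d
    exact ⟨c, d, γ, rfl⟩
  · have h1 := closure_minimal (fun p hp => mem_iUnion.2 hp.2.2)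
      ((G2_lf h).isClosed_iUnion (G2_gcl h)) hc
    exact (mem_iUnion.1 h1 :)

theorem Grp.inj {g : Γ → E6 → E6} (h : Grp g) (γ : Γ) (z : E6) :
    Function.Injective (fderiv ℝ (g γ) z) := by
  exact G2_ginj h γ z

theorem Grp.free {g : Γ → E6 → E6} (h : Grp g) (hx : ∀ γ, g γ x = x → ∀ z, g γ z = z) :
    ∀ᶠ p : E6 × E6 in 𝓝 (x, x), (∃ γ, g γ p.1 = p.2) → p.1 = p.2 := by
  have h1 : IsClosed (⋃ γ, {p : E6 × E6 | g γ x ≠ x ∧ g γ p.1 = p.2}) :=
    ((G2_lf h).subset fun γ p hp => hp.2).isClosed_iUnion fun γ => isClosed_const.and (G2_gcl h γ)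
  filter_upwards [h1.isOpen_compl.mem_nhds fun e => (mem_iUnion.1 e).elim fun _ a => a.1 a.2]
    with p hp ⟨γ, e⟩
  by_contra hn
  exact hp (mem_iUnion.2 ⟨γ, fun a => hn ((hx γ a _).symm.trans e), e⟩)

theorem Grp.closed {g : Γ → E6 → E6} (h : Grp g) {C : Set E6} (hC : IsCompact C) :
    IsClosed {z | ∃ γ, g γ z ∈ C} := by
  obtain ⟨r, hr⟩ := hC.isBounded.exists_norm_le
  rw [ofPred_exists]
  refine LocallyFinite.isClosed_iUnion (fun z => ⟨{w | ‖w‖ < ‖z‖ + 1},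
    (isOpen_lt continuous_norm continuous_const).mem_nhds (lt_add_one ‖z‖),
    (h.fin (max (‖z‖ + 1) r)).subset ?_⟩) fun γ => hC.isClosed.preimage (h.sm γ).continuous
  rintro γ ⟨w, a, b⟩
  exact ⟨w, le_max_of_le_left (le_of_lt b), le_max_of_le_right (hr _ a)⟩

section
variable {A : Atl ι₁} {B : Atl ι₂} {S : ι₁ → E6 → ι₂ → E6 → Prop}

theorem GOk.bar (h : GOk A B S) (hA : Pre0 A) (hB : Pre0 B) {i : ι₁} {j : ι₂} (hs : S i x j y) :
    Bar A B S i x j y := by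
  exact ⟨i, x, j, y, hA.refl (h.mem hs).1, hs, hB.refl (h.mem hs).2⟩

section
variable {i i' : ι₁} {j j' : ι₂} {x' y' : E6}

theorem G2_left (hA : Pre0 A) (hr : A.R i' x' i x) (hs : Bar A B S i x j y) :
    Bar A B S i' x' j y := by
  obtain ⟨a, u, b, v, h1, h2, h3⟩ := hs
  exact ⟨a, u, b, v, hA.trans hr h1, h2, h3⟩

theorem G2_right (hB : Pre0 B) (hs : Bar A B S i x j y) (hr : B.R j y j' y') :
    Bar A B S i x j' y' := by
  obtain ⟨a, u, b, v, h1, h2, h3⟩ := hs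
  exact ⟨a, u, b, v, h1, h2, hB.trans h3 hr⟩

theorem G2_A (h : GOk A B S) (hA : Pre0 A) (hB : Pre0 B) (hs : Bar A B S i x j y)
    (hs' : Bar A B S i' x' j y) : A.R i x i' x' := by
  obtain ⟨a, u, b, v, h1, h2, h3⟩ := hs
  obtain ⟨a', u', b', v', h1', h2', h3'⟩ := hs'
  exact hA.trans (hA.trans h1 ((h.iff h2 h2').2 (hB.trans h3 (hB.symm h3')))) (hA.symm h1')

theorem G2_B (h : GOk A B S) (hA : Pre0 A) (hB : Pre0 B) (hs : Bar A B S i x j y)
    (hs' : Bar A B S i x j' y') : B.R j y j' y' := by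
  obtain ⟨a, u, b, v, h1, h2, h3⟩ := hs
  obtain ⟨a', u', b', v', h1', h2', h3'⟩ := hs'
  exact hB.trans (hB.trans (hB.symm h3) ((h.iff h2 h2').1 (hA.trans (hA.symm h1) h1'))) h3'

theorem G2_ar {f₁ f₂ f₃ : E6 → E6} (a1 : Ar (fun z w => A.R i z i' w) x x' f₁)
    (a2 : Ar (fun z w => S i' z j' w) x' y' f₂) (a3 : Ar (fun z w => B.R j' z j w) y' y f₃) :
    Ar (fun z w => Bar A B S i z j w) x y fun a => f₃ (f₂ (f₁ a)) :=
  (a1.trans (R'' := fun a c => ∃ b, A.R i a i' b ∧ S i' b j' c) a2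
    fun _ b _ h1 h2 => ⟨b, h1, h2⟩).trans a3
      fun _ c _ ⟨b, h1, h2⟩ h3 => ⟨i', b, j', c, h1, h2, h3⟩

theorem G2_loc (h : GOk A B S) (hA : Pre0 A) (hB : Pre0 B) (hs : Bar A B S i x j y) :
    ∃ f, Ar (fun z w => Bar A B S i z j w) x y f := by
  obtain ⟨a, u, b, v, h1, h2, h3⟩ := hs
  obtain ⟨f₁, a1⟩ := hA.loc h1
  obtain ⟨f₂, a2⟩ := h.loc h2
  obtain ⟨f₃, a3⟩ := hB.loc h3
  exact ⟨_, G2_ar a1 a2 a3⟩

theorem G2_clo (h : GOk A B S) (hA : Pre0 A) (hB : Pre0 B) (hx : x ∈ A.W i) (hy : y ∈ B.W j)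
    (hc : (x, y) ∈ closure {p : E6 × E6 | Bar A B S i p.1 j p.2}) : Bar A B S i x j y := by
  obtain ⟨a, u, b, v, h1, h2⟩ := h.clo hx hy hc
  obtain ⟨f, f1, rfl, -, f3⟩ := G2_loc h hA hB (G2_left hA h1 (h.bar hA hB h2))
  refine ⟨a, u, b, f x, h1, h2, hB.clo (h.mem h2).2 hy (mem_closure_iff_frequently.2 ?_)⟩
  have h4 : ContinuousAt (fun p : E6 × E6 => (f p.1, p.2)) (x, y) :=
    (ContinuousAt.comp (f := Prod.fst) (x := (x, y)) f1.continuousAt continuousAt_fst).prodMk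
      continuousAt_snd
  exact Tendsto.frequently h4 (((mem_closure_iff_frequently.1 hc).and_eventually
    ((continuousAt_fst (p := (x, y))).eventually f3)).mono fun p hp => G2_B h hA hB hp.2 hp.1)

end

theorem GOk.pre0 (h : GOk A B S) (hA : Pre0 A) (hB : Pre0 B) : Pre0 (glue A B S) := by
  refine ⟨?_, fun {i x j y} hr => ?_, fun {i x} hx => ?_, fun {i x j y} hr => ?_,
    fun {i x j y l z} hr hr' => ?_, fun {i x j y} hr => ?_, fun {i x j y} hx hy hc => ?_⟩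
  · rintro (i | i)
    exacts [hA.opn i, hB.opn i]
  · rcases i with i | i <;> rcases j with j | j
    · exact hA.mem hr
    · obtain ⟨_, _, _, _, h1, -, h3⟩ := hr
      exact ⟨(hA.mem h1).1, (hB.mem h3).2⟩
    · obtain ⟨_, _, _, _, h1, -, h3⟩ := hr
      exact ⟨(hB.mem h3).2, (hA.mem h1).1⟩
    · exact hB.mem hr
  · rcases i with i | i
    exacts [hA.refl hx, hB.refl hx]
  · rcases i with i | i <;> rcases j with j | j
    exacts [hA.symm hr, hr, hr, hB.symm hr]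
  · rcases i with i | i <;> rcases j with j | j <;> rcases l with l | l
    · exact hA.trans hr hr'
    · exact G2_left hA hr hr'
    · exact G2_A (i := i) (i' := l) h hA hB hr hr'
    · exact G2_right hB hr hr'
    · exact G2_left hA (hA.symm hr') hr
    · exact G2_B (j := i) (j' := l) h hA hB hr hr'
    · exact G2_right hB hr' (hB.symm hr)
    · exact hB.trans hr hr'
  · rcases i with i | i <;> rcases j with j | j
    · exact hA.loc hr
    · exact G2_loc h hA hB hr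
    · obtain ⟨f, hf⟩ := G2_loc h hA hB hr
      exact hf.symm.imp fun g hg => hg.1
    · exact hB.loc hr
  · rcases i with i | i <;> rcases j with j | j
    · exact hA.clo hx hy hc
    · exact G2_clo h hA hB hx hy hc
    · exact G2_clo h hA hB hy hx (map_mem_closure (f := Prod.swap) (x := (x, y)) continuous_swap hc
        fun p hp => hp)
    · exact hB.clo hx hy hc

theorem free_glue (hA : Free A) (hB : Free B) : Free (glue A B S) := by
  rintro (i | i) x hx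
  exacts [hA i x hx, hB i x hx]

theorem GOk.invF (h : GOk A B S) (hA : Pre0 A) (hB : Pre0 B) {α : ι₁ → Fm E6 k}
    {β : ι₂ → Fm E6 k} (h1 : InvF A α) (h2 : InvF B β)
    (h3 : ∀ i x j y, S i x j y →
      ∃ f, Ar (fun z w => S i z j w) x y f ∧ pb f (β j) x = α i x) :
    InvF (glue A B S) (Sum.elim α β) := by
  have key : ∀ i x j y, Bar A B S i x j y →
      ∃ f, Ar (fun z w => Bar A B S i z j w) x y f ∧ pb f (β j) x = α i x := by
    rintro i x j y ⟨a, u, b, v, r1, r2, r3⟩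
    obtain ⟨f₁, a1, e1⟩ := h1 _ _ _ _ r1
    obtain ⟨f₂, a2, e2⟩ := h3 _ _ _ _ r2
    obtain ⟨f₃, a3, e3⟩ := h2 _ _ _ _ r3
    exact ⟨_, G2_ar a1 a2 a3, a1.trans_pb (a2.trans (R'' := fun _ _ => True) a3
      fun _ _ _ _ _ => trivial) e1 (a2.trans_pb a3 e2 e3)⟩
  rintro (i | i) x (j | j) y hr
  · exact h1 i x j y hr
  · exact key i x j y hr
  · obtain ⟨f, hf, he⟩ := key j y i x hr
    exact hf.symm_pb he
  · exact h2 i x j y hr

theorem gok_empty : GOk A B fun _ _ _ _ => False := by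
  refine ⟨False.elim, False.elim, False.elim, fun _ _ hc => ?_⟩
  obtain ⟨_, _, _, _, _, -, h, -⟩ := (mem_closure_iff_frequently.1 hc).exists
  exact h.elim

end

theorem free_fam {A : J → Atl ι} (h : ∀ j, Free (A j)) : Free (fam A) := by
  exact fun p x hx => (h p.1 p.2 x hx).mono fun q hq hr => hq hr.2

theorem InvF.res {A : Atl ι} {α : ι → Fm E6 k} (h : InvF A α) {W : ι → Set E6}
    (ho : ∀ i, IsOpen (W i)) : InvF (res A W) α := by
  intro i x j y hr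
  obtain ⟨f, hf, he⟩ := h i x j y hr.2.2
  refine ⟨f, hf.mono ?_, he⟩
  filter_upwards [(ho i).mem_nhds hr.1,
    hf.sm.continuousAt.eventually ((ho j).mem_nhds (hf.eq ▸ hr.2.1))] with z h1 h2 h3
  exact ⟨h1, h2, h3⟩

theorem InvF.comap {A : Atl ι₂} {α : ι₂ → Fm E6 k} (h : InvF A α) (e : ι₁ → ι₂) :
    InvF (comap A e) fun i => α (e i) := by
  exact fun i x j y hr => h (e i) x (e j) y hr

theorem invF_fam {A : J → Atl ι} {α : J × ι → Fm E6 k}
    (h : ∀ j, InvF (A j) fun i => α (j, i)) : InvF (fam A) α := by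
  rintro ⟨j, a⟩ x ⟨j', b⟩ y ⟨rfl, hr⟩
  obtain ⟨f, hf, he⟩ := h j a x b y hr
  exact ⟨f, hf.mono (Eventually.of_forall fun z hz => ⟨rfl, hz⟩), he⟩

theorem invF_orb {W : Set E6} {g : Γ → E6 → E6} (hW : IsOpen W) (h : Grp g) {α : Fm E6 k}
    (hα : ∀ γ, ∀ z ∈ W, g γ z ∈ W → pb (g γ) α z = α z) : InvF (orb W g) fun _ => α := by
  rintro i x j y ⟨hx, hy, γ, rfl⟩
  refine ⟨g γ, ⟨(h.sm γ).contDiffAt, rfl, h.inj γ x, ?_⟩, hα γ x hx hy⟩
  filter_upwards [hW.mem_nhds hx,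
    (h.sm γ).continuous.continuousAt.eventually (hW.mem_nhds hy)] with z h1 h2
  exact ⟨h1, h2, γ, rfl⟩

theorem Ar.cmp {M : Type} [TopologicalSpace M] [ChartedSpace E6 M] {ψ ψ' : E6 → M}
    (h : Ar R x y f) (hR : ∀ᶠ z in 𝓝 x, R z (f z) → ψ' (f z) = ψ z) {α α' : Fm E6 k}
    (he : pb f α' x = α x) : Cmp ψ α x ψ' α' y := by
  exact ⟨f, ⟨h.sm, (h.ev.and hR).mono fun z hz => hz.2 hz.1⟩, h.eq, he⟩

theorem exists_M [Finite ι] {A : Atl ι} (h : Pre0 A) (hf : Free A) (hc : A.Cpt)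
    (hne : ∃ i, (A.W i).Nonempty) {l : ι → F1} (hl : ∀ i, ∀ z ∈ A.W i, ContDiffAt ℝ ∞ (l i) z)
    (hn : ∀ i, ∀ z ∈ A.W i, ND (d1 (l i) z)) (hi : InvF A fun i => d1 (l i)) :
    ∃ (M : Type) (_ : TopologicalSpace M) (_ : T2Space M) (_ : CompactSpace M)
      (_ : ChartedSpace E6 M) (_ : IsManifold 𝓘(ℝ, E6) ∞ M) (q : ι → E6 → M) (η : Fo M 2),
      (∀ i, Par (q i) (A.W i)) ∧
      (∀ i j, ∀ x ∈ A.W i, ∀ y ∈ A.W j, q i x = q j y ↔ A.R i x j y) ∧
      (∀ m, ∃ i, ∃ x ∈ A.W i, q i x = m) ∧ ClO η univ ∧ Form.Nondeg (E := E6) (M := M) η ∧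
      ∀ i, ∀ z ∈ A.W i, pl (q i) η z = d1 (l i) z := by
  obtain ⟨M, i1, i2, i3, i4, i5, q, hP, he, hs⟩ := A.exists_mfd (h.pre hf) hc hne
  obtain ⟨η, hη⟩ := desc hP (fun i => d1 (l i)) fun i j x hx y hy e => by
    obtain ⟨f, a1, a2⟩ := hi i x j y ((he i j x hx y hy).1 e)
    exact a1.cmp (Eventually.of_forall fun z hz =>
      ((he i j z (h.mem hz).1 (f z) (h.mem hz).2).2 hz).symm) a2
  refine ⟨M, i1, i2, i3, i4, i5, q, η, hP, he, hs, ?_, nondeg_of fun m => ?_, hη⟩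
  · refine (ClO.iUnion (fun i => (hP i).isOpen_image (hP i).opn subset_rfl) fun i =>
      ClO.of_par (hP i) (G2_cl (hP i).opn (d1_cl (hP i).opn (hl i)) (hη i))).mono fun m _ => ?_
    obtain ⟨i, x, hx, rfl⟩ := hs m
    exact mem_iUnion.2 ⟨i, x, hx, rfl⟩
  · obtain ⟨i, x, hx, rfl⟩ := hs m
    exact ⟨q i, A.W i, x, hP i, hx, rfl, by rw [hη i x hx]; exact hn i x hx⟩

end Pool.Agent.Work.MP_bf98aa_gt.B3
end

-- merged part: Pool.Agent.Work.MP_bf98aa_gt.B3.RDef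
section
/-!
Further definitions: relations between the regions upstairs, inverse maps, centred primitives.
-/

set_option autoImplicit false

open scoped Manifold ContDiff Topology Matrix ComplexConjugate
open Set Complex Filter

namespace Pool.Agent.Work.MP_bf98aa_gt.B3

open Pool.Agent.Work.MP_bf98aa_gt.Th Pool.Agent.Work.MP_bf98aa_gt.Cy

noncomputable section

/-- Equal up to the involution. -/
def Sgn (x y : E6) : Prop := y = x ∨ y = iof x

/-- Reversal of polar coordinates. -/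
def flp (s θ : ℝ) (p : E6) : E6 := mkc (cc 0 p) (cc 1 p) ⟨s - p (2, 0), θ - p (2, 1)⟩

/-- The relation between the two halves along the upper strand. -/
def UpR (θ : ℝ) (x y : E6) : Prop :=
  ∃ p : E6, |p (2, 0)| < 1 / 8 ∧ x = Pup p ∧ Sgn (Pup (flp 0 θ p)) y

/-- The radius on the Hopf charts. -/
def rT (z : E6) : ℝ := √(z (2, 0) ^ 2 + normSq (cc 1 z))

/-- The relation in untwisted coordinates. -/
def RU (x y : E6) : Prop := ∃ n n' : ℤ, y (2, 0) = x (2, 0) + n ∧ y (2, 1) = x (2, 1) + n' ∧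
  ((cc 0 y = cc 0 x ∧ cc 1 y = cc 1 x) ∨ (cc 0 y = -cc 0 x ∧ cc 1 y = -cc 1 x))

namespace HD

variable (d : HD)

/-- The rotation form normal to the kink torus, times `2 π q`. -/
def rq : F1 := fun z => z (1, 0) • dc (1, 1) - z (1, 1) • dc (1, 0)

/-- The centred primitive in the lower gauge. -/
def lamL : F1 := fun z => lamO d.Om z +
  (d.al (d.qq (z (1, 0)) (z (1, 1))) (d.tt z) / (2 * Real.pi * d.qq (z (1, 0)) (z (1, 1)))) • rq z

/-- The centred primitive in the upper gauge. -/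
def lamH : F1 := fun z => lamO d.Om z -
  ((d.tt z - d.ex (z (2, 0)) (xv z)) / (2 * Real.pi * d.qq (z (1, 0)) (z (1, 1)))) • rq z

/-- The centred domain of the lower map. -/
def CL : Set E6 := {z | -d.M - 1 / 8 < z (2, 0) ∧ d.tt z < 1 / 8 ∧
  (d.qq (z (1, 0)) (z (1, 1)) ≠ 0 ∨ d.tt z < 0)}

/-- The centred domain of the upper map. -/
def CU : Set E6 := {z | 0 < d.tt z ∧ d.tt z < 9 / 8 ∧
  (d.tt z < 1 / 4 ∨ d.rho (z (2, 0)) (xv z) < 8)}

/-- The inverse of the untwisted coordinates. -/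
def kI (k : J4) (w : E6) : E6 :=
  let μ := w (1, 0) / √Real.pi
  let s := w (0, 0) / √(Real.pi * d.gK μ)
  let t := w (0, 1) / √(Real.pi * d.gK μ)
  let a := w (2, 0) + μ * d.xy 0 1 s t / d.a
  let b := w (2, 1) - μ * d.xy 1 0 s t / d.a
  mk4 (rm d.A *ᵥ ![a, b, s + 1 / 4, t + ((k.1 : ℕ) : ℝ) / 2]) μ
    (w (1, 1) / √Real.pi - d.xy a b (s + 1 / 4) (t + ((k.1 : ℕ) : ℝ) / 2) / 2 +
      d.xy a b (1 / 4) (((k.1 : ℕ) : ℝ) / 2) + (((k.1 : ℕ) : ℝ) * d.e 3 / 4 + ((k.2 : ℕ) : ℝ) / 2))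

end HD

namespace GD

variable (D : GD)

/-- The relation between the two halves along the lower strand. -/
def LoR (j : J4) (b : Bool) (x y : E6) : Prop :=
  ∃ p : E6, |p (2, 0) + (D.H b).M| < 1 / 8 ∧ x = Plow (D.H b).μ₁ p ∧
    Sgn (Plow (D.H (!b)).μ₁ (flp (-(D.H b).M - (D.H (!b)).M) (D.thL j) p)) y

/-- The primitives on the neighbourhood of a resolved sphere. -/
def lamW : Bool × X3 ⊕ Bool → F1 := Sum.elim (fun p => lamX p.2) fun _ => lamT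

/-- A radius on the neighbourhood of a resolved sphere. -/
def radW : Bool × X3 ⊕ Bool → E6 → ℝ :=
  Sum.elim (fun p z => xr ((D.H p.1).amb p.2 z)) fun _ z => rT z + |z (2, 0)| + 1

end GD

end

end Pool.Agent.Work.MP_bf98aa_gt.B3
end
end

-- merged part: Pool.Agent.Work.MP_bf98aa_gt.B3.Kb
section
-- merged part: Pool.Agent.Work.MP_bf98aa_gt.B3.Ka
section
/-!
Stereographic coordinates and the Veronese map.

PLAN. `nT z = 1 + z(0,0)² + z(0,1)² > 0` (`normSq_cc`), then `field_simp; ring` or `linear_combination`. For `y = toK q P s t`: `nT y = 2 / (1 - q 2)` and `π · ξ = P 2 / (1 - q 2)`.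
`ver_inj`: `V 0 - I V 1 = 2 a²`, `V 0 + I V 1 = -2 b²`, `V 2 = -2 a b`. `ver_surj`: square roots `a² = (U 0 - I U 1) / 2`, `b² = -(U 0 + I U 1) / 2` (`IsSquare` in `ℂ`: `IsAlgClosed.exists_mul_self`), `(a b)² = (U 2 / 2)²`, change the sign of `b`.
`kV_facts`: the sum of the squares of `kV` is `0` and the sum of `normSq` is `2 kr²` (`normSq (ee t) = 1`); take real and imaginary parts.
-/

set_option autoImplicit false

open scoped Manifold ContDiff Topology Matrix ComplexConjugate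
open Set Complex Filter

namespace Pool.Agent.Work.MP_bf98aa_gt.B3

open Pool.Agent.Work.MP_bf98aa_gt.Th Pool.Agent.Work.MP_bf98aa_gt.Cy

variable {q P : Fin 3 → ℝ} {s t : ℝ} {x y z w : E6}

/-- A point of the cotangent bundle of the sphere in the domain of the chart. -/
structure TS (q P : Fin 3 → ℝ) : Prop where
  one : q 0 ^ 2 + q 1 ^ 2 + q 2 ^ 2 = 1
  orth : q 0 * P 0 + q 1 * P 1 + q 2 * P 2 = 0
  ne : q 2 ≠ 1

theorem nT_pos (z : E6) : 0 < nT z := by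
  have := normSq_nonneg (cc 0 z)
  unfold nT
  linarith only [this]

theorem Ka_nT (z : E6) : nT z = 1 + (z (0, 0) ^ 2 + z (0, 1) ^ 2) := by
  rw [nT, normSq_cc]

theorem ts_K (z : E6) : TS (qK z) (pK z) := by
  have h := (nT_pos z).ne'
  have e := Ka_nT z
  refine ⟨?_, ?_, ?_⟩
  · change (2 * z (0, 0) / nT z) ^ 2 + (2 * z (0, 1) / nT z) ^ 2 + (1 - 2 / nT z) ^ 2 = 1
    field_simp
    rw [e]
    ring
  · change 2 * z (0, 0) / nT z * (z (1, 0) - 2 * z (0, 0) *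
      (z (1, 0) * z (0, 0) + z (1, 1) * z (0, 1)) / nT z) + 2 * z (0, 1) / nT z * (z (1, 1) -
      2 * z (0, 1) * (z (1, 0) * z (0, 0) + z (1, 1) * z (0, 1)) / nT z) + (1 - 2 / nT z) *
      (2 * (z (1, 0) * z (0, 0) + z (1, 1) * z (0, 1)) / nT z) = 0
    field_simp
    rw [e]
    ring
  · change 1 - 2 / nT z ≠ 1
    simp [h]

theorem pK_norm (z : E6) : pK z 0 ^ 2 + pK z 1 ^ 2 + pK z 2 ^ 2 = normSq (cc 1 z) := by
  have h := (nT_pos z).ne'
  have e := Ka_nT z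
  change (z (1, 0) - 2 * z (0, 0) * (z (1, 0) * z (0, 0) + z (1, 1) * z (0, 1)) / nT z) ^ 2 +
    (z (1, 1) - 2 * z (0, 1) * (z (1, 0) * z (0, 0) + z (1, 1) * z (0, 1)) / nT z) ^ 2 +
    (2 * (z (1, 0) * z (0, 0) + z (1, 1) * z (0, 1)) / nT z) ^ 2 = _
  rw [normSq_cc]
  field_simp
  rw [e]
  ring

theorem toK_K (z : E6) : toK (qK z) (pK z) (z (2, 0)) (z (2, 1)) = z := by
  have h := (nT_pos z).ne'
  refine ext6 ?_ ?_ ?_ ?_ rfl rfl
  · change 2 * z (0, 0) / nT z / (1 - (1 - 2 / nT z)) = _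
    rw [sub_sub_cancel]
    field_simp
  · change 2 * z (0, 1) / nT z / (1 - (1 - 2 / nT z)) = _
    rw [sub_sub_cancel]
    field_simp
  · change z (1, 0) - 2 * z (0, 0) * (z (1, 0) * z (0, 0) + z (1, 1) * z (0, 1)) / nT z +
      2 * (z (1, 0) * z (0, 0) + z (1, 1) * z (0, 1)) / nT z * (2 * z (0, 0) / nT z) /
        (1 - (1 - 2 / nT z)) = _
    rw [sub_sub_cancel]
    field_simp
    ring
  · change z (1, 1) - 2 * z (0, 1) * (z (1, 0) * z (0, 0) + z (1, 1) * z (0, 1)) / nT z +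
      2 * (z (1, 0) * z (0, 0) + z (1, 1) * z (0, 1)) / nT z * (2 * z (0, 1) / nT z) /
        (1 - (1 - 2 / nT z)) = _
    rw [sub_sub_cancel]
    field_simp
    ring

theorem toK_20 : toK q P s t (2, 0) = s := rfl

theorem toK_21 : toK q P s t (2, 1) = t := rfl

theorem Ka_nT_toK (h : TS q P) (s t : ℝ) : nT (toK q P s t) = 2 / (1 - q 2) := by
  have h1 := sub_ne_zero.2 h.ne.symm
  rw [Ka_nT]
  change 1 + ((q 0 / (1 - q 2)) ^ 2 + (q 1 / (1 - q 2)) ^ 2) = _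
  field_simp
  linear_combination h.one

theorem Ka_dot (h : TS q P) : (P 0 + P 2 * q 0 / (1 - q 2)) * (q 0 / (1 - q 2)) +
    (P 1 + P 2 * q 1 / (1 - q 2)) * (q 1 / (1 - q 2)) = P 2 / (1 - q 2) := by
  have h1 := sub_ne_zero.2 h.ne.symm
  field_simp
  linear_combination (1 - q 2) * h.orth + P 2 * h.one

theorem TS.qK (h : TS q P) (s t : ℝ) : qK (toK q P s t) = q := by
  have h1 := sub_ne_zero.2 h.ne.symm
  have e := Ka_nT_toK h s t
  funext i
  fin_cases i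
  · change 2 * (q 0 / (1 - q 2)) / nT _ = q 0
    rw [e]
    field_simp
  · change 2 * (q 1 / (1 - q 2)) / nT _ = q 1
    rw [e]
    field_simp
  · change 1 - 2 / nT _ = q 2
    rw [e]
    field_simp
    ring

theorem TS.pK (h : TS q P) (s t : ℝ) : pK (toK q P s t) = P := by
  have h1 := sub_ne_zero.2 h.ne.symm
  have e := Ka_nT_toK h s t
  have d := Ka_dot h
  funext i
  fin_cases i
  · change P 0 + P 2 * q 0 / (1 - q 2) - 2 * (q 0 / (1 - q 2)) * (_ * (q 0 / (1 - q 2)) +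
      _ * (q 1 / (1 - q 2))) / nT _ = P 0
    erw [d, e]
    field_simp
    ring
  · change P 1 + P 2 * q 1 / (1 - q 2) - 2 * (q 1 / (1 - q 2)) * (_ * (q 0 / (1 - q 2)) +
      _ * (q 1 / (1 - q 2))) / nT _ = P 1
    erw [d, e]
    field_simp
    ring
  · change 2 * (_ * (q 0 / (1 - q 2)) + _ * (q 1 / (1 - q 2))) / nT _ = P 2
    erw [d, e]
    field_simp

theorem qK_le (z : E6) : qK z 2 ≤ 0 ↔ normSq (cc 0 z) ≤ 1 := by
  change 1 - 2 / nT z ≤ 0 ↔ _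
  rw [sub_nonpos, le_div_iff₀ (nT_pos z), nT]
  constructor <;> intro h <;> linarith only [h]

theorem K_ext (h1 : qK y = qK x) (h2 : pK y = pK x) (h3 : y (2, 0) = x (2, 0))
    (h4 : y (2, 1) = x (2, 1)) : y = x := by
  rw [← toK_K y, h1, h2, h3, h4, toK_K]

theorem RK_norm (h : RK x y) : ‖cc 1 y‖ = ‖cc 1 x‖ := by
  obtain ⟨n, -, -, -, -, h⟩ := h
  have h1 : ((-1 : ℝ) ^ n) ^ 2 = 1 := by
    rw [← zpow_natCast, ← zpow_mul, mul_comm, zpow_mul]
    norm_num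
  rw [← sq_eq_sq₀ (norm_nonneg _) (norm_nonneg _), ← Complex.normSq_eq_norm_sq,
    ← Complex.normSq_eq_norm_sq, ← pK_norm, ← pK_norm, h]
  simp only [Pi.smul_apply, smul_eq_mul, mul_pow, h1, one_mul]

theorem contDiff_nT : ContDiff ℝ ∞ nT := by
  rw [show nT = _ from funext Ka_nT]
  fun_prop

theorem contDiff_qK : ContDiff ℝ ∞ qK := by
  have h := contDiff_nT
  have h' := fun z => (nT_pos z).ne'
  refine contDiff_pi.2 fun i => ?_
  fin_cases i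
  · exact ContDiff.div (f := fun z : E6 => 2 * z (0, 0)) (by fun_prop) h h'
  · exact ContDiff.div (f := fun z : E6 => 2 * z (0, 1)) (by fun_prop) h h'
  · exact contDiff_const.sub (contDiff_const.div h h')

theorem contDiff_pK : ContDiff ℝ ∞ pK := by
  have h := contDiff_nT
  have h' := fun z => (nT_pos z).ne'
  refine contDiff_pi.2 fun i => ?_
  fin_cases i
  · exact (contDiff_apply ℝ ℝ _).sub (ContDiff.div (f := fun z : E6 =>
      2 * z (0, 0) * (z (1, 0) * z (0, 0) + z (1, 1) * z (0, 1))) (by fun_prop) h h')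
  · exact (contDiff_apply ℝ ℝ _).sub (ContDiff.div (f := fun z : E6 =>
      2 * z (0, 1) * (z (1, 0) * z (0, 0) + z (1, 1) * z (0, 1))) (by fun_prop) h h')
  · exact ContDiff.div (f := fun z : E6 => 2 * (z (1, 0) * z (0, 0) + z (1, 1) * z (0, 1)))
      (by fun_prop) h h'

theorem contDiffAt_toK {q P : E6 → Fin 3 → ℝ} {s t : E6 → ℝ} (hq : ContDiffAt ℝ ∞ q z)
    (hP : ContDiffAt ℝ ∞ P z) (hs : ContDiffAt ℝ ∞ s z) (ht : ContDiffAt ℝ ∞ t z)
    (h : q z 2 ≠ 1) : ContDiffAt ℝ ∞ (fun y => toK (q y) (P y) (s y) (t y)) z := by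
  have a := contDiffAt_pi.1 hq
  have b := contDiffAt_pi.1 hP
  have c : ContDiffAt ℝ ∞ (fun y => 1 - q y 2) z := contDiffAt_const.sub (a 2)
  have h1 := sub_ne_zero.2 h.symm
  exact contDiffAt_mk ((a 0).div c h1) ((a 1).div c h1) ((b 0).add (((b 2).mul (a 0)).div c h1))
    ((b 1).add (((b 2).mul (a 1)).div c h1)) hs ht

theorem ver_null (a b : ℂ) : ver a b 0 ^ 2 + ver a b 1 ^ 2 + ver a b 2 ^ 2 = 0 := by
  change (a ^ 2 - b ^ 2) ^ 2 + (I * (a ^ 2 + b ^ 2)) ^ 2 + (-2 * a * b) ^ 2 = 0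
  rw [mul_pow, I_sq]
  ring

theorem ver_norm (a b : ℂ) : normSq (ver a b 0) + normSq (ver a b 1) + normSq (ver a b 2) =
    2 * (normSq a + normSq b) ^ 2 := by
  change normSq (a ^ 2 - b ^ 2) + normSq (I * (a ^ 2 + b ^ 2)) + normSq (-2 * a * b) = _
  simp [normSq_apply, sq]
  ring

theorem ver_inj {a b a' b' : ℂ} : ver a' b' = ver a b ↔ (a' = a ∧ b' = b) ∨ (a' = -a ∧ b' = -b) := by
  constructor
  · intro h
    have h0 : a' ^ 2 - b' ^ 2 = a ^ 2 - b ^ 2 := congrFun h 0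
    have h1 : a' ^ 2 + b' ^ 2 = a ^ 2 + b ^ 2 := mul_left_cancel₀ I_ne_zero (congrFun h 1)
    have h2 : -2 * a' * b' = -2 * a * b := congrFun h 2
    have h3 : a' ^ 2 = a ^ 2 := by linear_combination (h0 + h1) / 2
    have h4 : b' ^ 2 = b ^ 2 := by linear_combination (h1 - h0) / 2
    rcases sq_eq_sq_iff_eq_or_eq_neg.1 h3 with e | e <;>
      rcases sq_eq_sq_iff_eq_or_eq_neg.1 h4 with f | f
    · exact Or.inl ⟨e, f⟩
    · rw [e, f] at h2
      rcases mul_eq_zero.1 (show a * b = 0 by linear_combination h2 / 4) with g | g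
      · exact Or.inr ⟨by rw [e, g, neg_zero], f⟩
      · exact Or.inl ⟨e, by rw [f, g, neg_zero]⟩
    · rw [e, f] at h2
      rcases mul_eq_zero.1 (show a * b = 0 by linear_combination h2 / 4) with g | g
      · exact Or.inl ⟨by rw [e, g, neg_zero], f⟩
      · exact Or.inr ⟨e, by rw [f, g, neg_zero]⟩
    · exact Or.inr ⟨e, f⟩
  · rintro (⟨rfl, rfl⟩ | ⟨rfl, rfl⟩)
    · rfl
    · simp [ver]

theorem ver_surj {U : Fin 3 → ℂ} (h : U 0 ^ 2 + U 1 ^ 2 + U 2 ^ 2 = 0) : ∃ a b, ver a b = U := by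
  obtain ⟨a, ha⟩ := IsAlgClosed.exists_eq_mul_self ((U 0 - I * U 1) / 2)
  obtain ⟨b, hb⟩ := IsAlgClosed.exists_eq_mul_self (-(U 0 + I * U 1) / 2)
  have key : ∀ b : ℂ, -(U 0 + I * U 1) / 2 = b * b → -2 * a * b = U 2 → ver a b = U := by
    intro b hb h2
    funext i
    fin_cases i
    · change a ^ 2 - b ^ 2 = U 0
      linear_combination hb - ha
    · change I * (a ^ 2 + b ^ 2) = U 1
      linear_combination -I * ha - I * hb - U 1 * I_sq
    · exact h2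
  have h3 : (-2 * a * b) ^ 2 = U 2 ^ 2 := by
    linear_combination -4 * b * b * ha - 2 * (U 0 - I * U 1) * hb - h + U 1 ^ 2 * I_sq
  rcases sq_eq_sq_iff_eq_or_eq_neg.1 h3 with e | e
  · exact ⟨a, b, key b hb e⟩
  · exact ⟨a, -b, key (-b) (by rw [hb]; ring) (by linear_combination -e)⟩

theorem kr_nonneg (w : E6) : 0 ≤ kr w := by
  exact add_nonneg (normSq_nonneg _) (normSq_nonneg _)

theorem contDiff_kr : ContDiff ℝ ∞ kr := by
  rw [show kr = fun z : E6 => z (0, 0) ^ 2 + z (0, 1) ^ 2 + (z (1, 0) ^ 2 + z (1, 1) ^ 2) from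
    funext fun z => by rw [kr, normSq_cc, normSq_cc]]
  fun_prop

theorem contDiff_kV : ContDiff ℝ ∞ kV := by
  have h : ContDiff ℝ ∞ fun z : E6 => ee (-z (2, 0) / 2) := contDiff_ee.comp (by fun_prop)
  refine contDiff_pi.2 fun i => ?_
  fin_cases i
  · exact h.mul (f := fun z : E6 => ee (-z (2, 0) / 2)) (g := fun z => cc 0 z ^ 2 - cc 1 z ^ 2)
      (by fun_prop)
  · exact h.mul (f := fun z : E6 => ee (-z (2, 0) / 2))
      (g := fun z => I * (cc 0 z ^ 2 + cc 1 z ^ 2)) (by fun_prop)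
  · exact h.mul (f := fun z : E6 => ee (-z (2, 0) / 2)) (g := fun z => -2 * cc 0 z * cc 1 z)
      (by fun_prop)

theorem kV_facts (w : E6) : (kV w 0).re ^ 2 + (kV w 1).re ^ 2 + (kV w 2).re ^ 2 = kr w ^ 2 ∧
    (kV w 0).im ^ 2 + (kV w 1).im ^ 2 + (kV w 2).im ^ 2 = kr w ^ 2 ∧
    (kV w 0).re * (kV w 0).im + (kV w 1).re * (kV w 1).im + (kV w 2).re * (kV w 2).im = 0 := by
  have h1 : kV w 0 ^ 2 + kV w 1 ^ 2 + kV w 2 ^ 2 = 0 := by
    simp only [kV, Pi.smul_apply, smul_eq_mul, mul_pow]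
    rw [← mul_add, ← mul_add, ver_null, mul_zero]
  have h2 : normSq (kV w 0) + normSq (kV w 1) + normSq (kV w 2) = 2 * kr w ^ 2 := by
    simp only [kV, Pi.smul_apply, smul_eq_mul, map_mul, normSq_ee, one_mul]
    exact ver_norm _ _
  have h3 := congrArg re h1
  have h4 := congrArg im h1
  simp only [normSq_apply, sq, add_re, add_im, mul_re, mul_im, zero_re, zero_im] at h2 h3 h4 ⊢
  refine ⟨by linarith only [h2, h3], by linarith only [h2, h3], by linarith only [h4]⟩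

theorem kr_ne (h : (kV w 2).re ≠ kr w) : kr w ≠ 0 := by
  intro e
  have := (kV_facts w).1
  rw [e] at this h
  exact h (by nlinarith [sq_nonneg (kV w 0).re, sq_nonneg (kV w 1).re, sq_nonneg (kV w 2).re])

theorem ts_kV (h : (kV w 2).re ≠ kr w) :
    TS (fun i => (kV w i).re / kr w) fun i => -(kV w i).im := by
  have h1 := kr_ne h
  obtain ⟨a, -, c⟩ := kV_facts w
  refine ⟨?_, ?_, fun e => h ((div_eq_one_iff_eq h1).1 e)⟩
  · field_simp
    exact a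
  · field_simp
    linarith only [c]

end Pool.Agent.Work.MP_bf98aa_gt.B3
end

-- merged part: Pool.Agent.Work.MP_bf98aa_gt.B3.Kb
section
/-!
The chart `K` as an atlas.

PLAN. `RK_ar`: near `x` the first vector keeps its third entry `≠ 1` (at `x` it is `qK y`), so `TS` holds there (`((-1) ^ n)² = 1`) and `TS.qK`, `TS.pK` give `RK`; the derivative is injective by `inj_of_left` with `mvK (-n) (-n')` (`K_ext`).
`pre0_atlK`, `clo`: the set `{p | RK p.1 p.2}` is closed: it is a locally finite union, or: take `n = round (y (2,0) - x (2,0))`; near `(x, y)` the integers differ from `y (2,0) - x (2,0)` by less than `1 / 4`, so they are determined, and `mem_closure_iff_frequently` with a closed set for fixed `n`, `n'`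
(first, `y (2,0) - x (2,0)` lies in the closed set `range Int.cast`). `free_atlK`: `|p.2 (2,i) - p.1 (2,i)| < 1` forces `n = n' = 0`, then `K_ext`.
`cpt_atlK`: `C = {‖cc 0‖ ≤ 1, ‖cc 1‖ ≤ 1 / 128, |s| ≤ 1, |t| ≤ 1}`; `n` is even if `qK x 2 ≤ 0` and odd otherwise, `|s + n| ≤ 1`; `y = mvK n n' x`, `qK_le`.
-/

set_option autoImplicit false

open scoped Manifold ContDiff Topology Matrix ComplexConjugate
open Set Complex Filter

namespace Pool.Agent.Work.MP_bf98aa_gt.B3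

open Pool.Agent.Work.MP_bf98aa_gt.Th Pool.Agent.Work.MP_bf98aa_gt.Cy

variable {x y z : E6}

/-- The deck transformations. -/
noncomputable def mvK (n n' : ℤ) (z : E6) : E6 :=
  toK (((-1 : ℝ) ^ n) • qK z) (((-1 : ℝ) ^ n) • pK z) (z (2, 0) + n) (z (2, 1) + n')

theorem Kb_sq (n : ℤ) : ((-1 : ℝ) ^ n) * (-1 : ℝ) ^ n = 1 := by
  rw [← mul_zpow]; simp

theorem Kb_neg (n : ℤ) : ((-1 : ℝ) ^ (-n)) * (-1 : ℝ) ^ n = 1 := by
  rw [← zpow_add₀ (by norm_num)]; simp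

theorem Kb_ts (n : ℤ) (h : (((-1 : ℝ) ^ n) • qK z) 2 ≠ 1) :
    TS (((-1 : ℝ) ^ n) • qK z) (((-1 : ℝ) ^ n) • pK z) := by
  have h1 := (ts_K z).one
  have h2 := (ts_K z).orth
  have h3 := Kb_sq n
  refine ⟨?_, ?_, h⟩ <;> simp only [Pi.smul_apply, smul_eq_mul]
  · linear_combination h1 * ((-1 : ℝ) ^ n * (-1 : ℝ) ^ n) + h3
  · linear_combination h2 * ((-1 : ℝ) ^ n * (-1 : ℝ) ^ n)

theorem Kb_RK (n n' : ℤ) (h : TS (((-1 : ℝ) ^ n) • qK z) (((-1 : ℝ) ^ n) • pK z)) :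
    RK z (mvK n n' z) :=
  ⟨n, n', rfl, rfl, h.qK _ _, h.pK _ _⟩

theorem Kb_sm (n n' : ℤ) (h : (((-1 : ℝ) ^ n) • qK z) 2 ≠ 1) :
    ContDiffAt ℝ ∞ (mvK n n') z :=
  contDiffAt_toK (contDiff_qK.contDiffAt.const_smul _) (contDiff_pK.contDiffAt.const_smul _)
    ((contDiff_apply ℝ ℝ _).contDiffAt.add contDiffAt_const)
    ((contDiff_apply ℝ ℝ _).contDiffAt.add contDiffAt_const) h

theorem Kb_inv (n n' : ℤ) (h : TS (((-1 : ℝ) ^ n) • qK z) (((-1 : ℝ) ^ n) • pK z)) :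
    mvK (-n) (-n') (mvK n n' z) = z := by
  have e1 : qK (mvK n n' z) = _ := h.qK _ _
  have e2 : pK (mvK n n' z) = _ := h.pK _ _
  have e3 : mvK n n' z (2, 0) = z (2, 0) + n := rfl
  have e4 : mvK n n' z (2, 1) = z (2, 1) + n' := rfl
  rw [mvK, e1, e2, e3, e4, smul_smul, smul_smul, Kb_neg, one_smul, one_smul]
  simpa using toK_K z

theorem RK_refl (x : E6) : RK x x := ⟨0, 0, by simp, by simp, by simp, by simp⟩

theorem RK_symm (h : RK x y) : RK y x := by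
  obtain ⟨n, n', h1, h2, h3, h4⟩ := h
  refine ⟨-n, -n', by simp [h1], by simp [h2], ?_, ?_⟩
  · rw [h3, smul_smul, Kb_neg, one_smul]
  · rw [h4, smul_smul, Kb_neg, one_smul]

theorem RK_trans (h : RK x y) (h' : RK y z) : RK x z := by
  obtain ⟨n, n', h1, h2, h3, h4⟩ := h
  obtain ⟨m, m', k1, k2, k3, k4⟩ := h'
  refine ⟨m + n, m' + n', by rw [k1, h1]; push_cast; ring, by rw [k2, h2]; push_cast; ring,
    ?_, ?_⟩
  · rw [k3, h3, smul_smul, zpow_add₀ (by norm_num)]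
  · rw [k4, h4, smul_smul, zpow_add₀ (by norm_num)]

theorem isOpen_WK : IsOpen WK :=
  isOpen_lt (continuous_cc 1).norm continuous_const

theorem Kb_mem (hx : x ∈ WK) (h : RK x y) : y ∈ WK := (RK_norm h).trans_lt hx

theorem RK_ar (hx : x ∈ WK) (h : RK x y) : ∃ n n' : ℤ,
    Ar (fun a b => atlK.R () a () b) x y (mvK n n') ∧
      ∀ᶠ z in 𝓝 x, TS (((-1 : ℝ) ^ n) • qK z) (((-1 : ℝ) ^ n) • pK z) := by
  obtain ⟨n, n', h1, h2, h3, h4⟩ := h
  have hne : (((-1 : ℝ) ^ n) • qK x) 2 ≠ 1 := h3 ▸ (ts_K y).ne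
  have hc : Continuous fun z => (((-1 : ℝ) ^ n) • qK z) 2 :=
    (continuous_apply 2).comp (contDiff_qK.continuous.const_smul ((-1 : ℝ) ^ n))
  have hev : ∀ᶠ z in 𝓝 x, TS (((-1 : ℝ) ^ n) • qK z) (((-1 : ℝ) ^ n) • pK z) :=
    (hc.continuousAt.eventually_ne hne).mono fun z hz => Kb_ts n hz
  have hx' := Kb_ts n hne
  have e : mvK n n' x = y :=
    K_ext ((hx'.qK _ _).trans h3.symm) ((hx'.pK _ _).trans h4.symm) h1.symm h2.symm
  refine ⟨n, n', ⟨Kb_sm n n' hne, e, inj_of_left (g := mvK (-n) (-n')) (Kb_sm n n' hne)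
    (Kb_sm _ _ ?_) (hev.mono fun z hz => Kb_inv n n' hz), ?_⟩, hev⟩
  · rw [e, h3, smul_smul, Kb_neg, one_smul]
    exact (ts_K x).ne
  · filter_upwards [hev, isOpen_WK.mem_nhds hx] with z hz hw
    exact ⟨hw, Kb_mem hw (Kb_RK n n' hz), Kb_RK n n' hz⟩

theorem Kb_iff : RK x y ↔ y (2, 0) - x (2, 0) ∈ range ((↑) : ℤ → ℝ) ∧
    y (2, 1) - x (2, 1) ∈ range ((↑) : ℤ → ℝ) ∧
    qK y = Real.cos ((y (2, 0) - x (2, 0)) * Real.pi) • qK x ∧
    pK y = Real.cos ((y (2, 0) - x (2, 0)) * Real.pi) • pK x := by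
  constructor
  · rintro ⟨n, n', h1, h2, h3, h4⟩
    have e : y (2, 0) - x (2, 0) = n := by rw [h1]; ring
    rw [e, Real.cos_int_mul_pi]
    exact ⟨⟨n, rfl⟩, ⟨n', by rw [h2]; ring⟩, h3, h4⟩
  · rintro ⟨⟨n, e⟩, ⟨n', e'⟩, h3, h4⟩
    rw [← e, Real.cos_int_mul_pi] at h3 h4
    exact ⟨n, n', by rw [e]; ring, by rw [e']; ring, h3, h4⟩

theorem Kb_closed : IsClosed {p : E6 × E6 | RK p.1 p.2} := by
  have hq := contDiff_qK.continuous
  have hp := contDiff_pK.continuous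
  have hZ := Int.isClosedEmbedding_coe_real.isClosed_range
  have c0 : Continuous fun p : E6 × E6 => p.2 (2, 0) - p.1 (2, 0) := by fun_prop
  have c1 : Continuous fun p : E6 × E6 => p.2 (2, 1) - p.1 (2, 1) := by fun_prop
  simp only [Kb_iff]
  exact (hZ.preimage c0).inter ((hZ.preimage c1).inter
    ((isClosed_eq (by fun_prop) (by fun_prop)).inter (isClosed_eq (by fun_prop) (by fun_prop))))

theorem pre0_atlK : Pre0 atlK := by
  refine ⟨fun _ => isOpen_WK, fun e => ⟨e.1, e.2.1⟩, fun e => ⟨e, e, RK_refl _⟩,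
    fun e => ⟨e.2.1, e.1, RK_symm e.2.2⟩, fun e e' => ⟨e.1, e'.2.1, RK_trans e.2.2 e'.2.2⟩,
    fun e => ?_, fun hx hy hc => ⟨hx, hy,
      Kb_closed.closure_subset (closure_mono (fun _ hp => hp.2.2) hc)⟩⟩
  obtain ⟨n, n', h, -⟩ := RK_ar e.1 e.2.2
  exact ⟨_, h⟩

theorem Kb_zero {a b : ℝ} {n : ℤ} (e : b = a + n) (h : |b - a| < 1) : n = 0 := by
  rw [e, add_sub_cancel_left] at h
  exact Int.abs_lt_one_iff.1 (by exact_mod_cast h)

theorem free_atlK : Free atlK := by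
  intro _ x _
  have c0 : Continuous fun p : E6 × E6 => |p.2 (2, 0) - p.1 (2, 0)| := by fun_prop
  have c1 : Continuous fun p : E6 × E6 => |p.2 (2, 1) - p.1 (2, 1)| := by fun_prop
  filter_upwards [(isOpen_lt c0 (continuous_const (y := 1))).mem_nhds (x := (x, x)) (by simp),
    (isOpen_lt c1 (continuous_const (y := 1))).mem_nhds (x := (x, x)) (by simp)] with p a b
  rintro ⟨-, -, n, n', h1, h2, h3, h4⟩
  obtain rfl := Kb_zero h1 a
  obtain rfl := Kb_zero h2 b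
  exact (K_ext (by simpa using h3) (by simpa using h4) (by simpa using h1)
    (by simpa using h2)).symm

theorem Kb_par (s c : ℝ) : ∃ n : ℤ, |s + n| ≤ 1 ∧ (-1 : ℝ) ^ n * c ≤ 0 := by
  have key : ∀ r : ℝ, |r - 2 * round (r / 2)| ≤ 1 := fun r => by
    have := abs_le.1 (abs_sub_round (r / 2))
    exact abs_le.2 ⟨by linarith only [this, this.1], by linarith only [this, this.2]⟩
  rcases le_total c 0 with h | h
  · refine ⟨2 * -round (s / 2), by simpa [sub_eq_add_neg] using key s, ?_⟩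
    rw [Even.neg_one_zpow (even_two_mul _), one_mul]
    exact h
  · refine ⟨2 * -round ((s + 1) / 2) + 1, ?_, ?_⟩
    · refine le_of_eq_of_le (congrArg abs ?_) (key (s + 1))
      push_cast; ring
    · rw [Odd.neg_one_zpow (odd_two_mul_add_one _)]
      linarith

theorem cpt_atlK : ∃ C : Set E6, IsCompact C ∧ C ⊆ WK ∧
    ∀ x, ‖cc 1 x‖ ≤ 1 / 128 → ∃ y ∈ C, RK x y := by
  refine ⟨Metric.closedBall 0 1 ∩ {z | ‖cc 1 z‖ ≤ 1 / 128}, (isCompact_closedBall _ _).inter_right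
    (isClosed_le (continuous_cc 1).norm continuous_const),
    fun z hz => lt_of_le_of_lt hz.2 (by norm_num : (1 / 128 : ℝ) < 1 / 64), fun x hx => ?_⟩
  obtain ⟨n, h1, h2⟩ := Kb_par (x (2, 0)) (qK x 2)
  have ht : TS (((-1 : ℝ) ^ n) • qK x) (((-1 : ℝ) ^ n) • pK x) :=
    Kb_ts n (ne_of_lt (lt_of_le_of_lt h2 one_pos))
  have hr := Kb_RK n (-round (x (2, 1))) ht
  have hn := (RK_norm hr).trans_le hx
  refine ⟨_, ⟨?_, hn⟩, hr⟩
  set y := mvK n (-round (x (2, 1))) x with hy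
  have e1 : qK y = _ := ht.qK _ _
  have h0 : ‖cc 0 y‖ ≤ 1 := by
    have := (qK_le y).1 (e1 ▸ h2)
    rw [normSq_eq_norm_sq] at this
    exact (sq_le_one_iff₀ (norm_nonneg _)).1 this
  have h3 : ‖cc 1 y‖ ≤ 1 := hn.trans (by norm_num)
  have h4 : |y (2, 1)| ≤ 1 := by
    have e4 : y (2, 1) = x (2, 1) - round (x (2, 1)) := by
      rw [hy, mvK, toK_21]; push_cast; ring
    rw [e4]
    exact (abs_sub_round _).trans (by norm_num)
  rw [mem_closedBall_zero_iff]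
  refine (pi_norm_le_iff_of_nonneg zero_le_one).2 fun ⟨i, j⟩ => ?_
  fin_cases i <;> fin_cases j
  · exact (abs_re_le_norm (cc 0 y)).trans h0
  · exact (abs_im_le_norm (cc 0 y)).trans h0
  · exact (abs_re_le_norm (cc 1 y)).trans h3
  · exact (abs_im_le_norm (cc 1 y)).trans h3
  · exact h1
  · exact h4

end Pool.Agent.Work.MP_bf98aa_gt.B3
end
end

-- merged part: Pool.Agent.Work.MP_bf98aa_gt.B3.N1
section
/-!
The groups of the charts.

PLAN. All identities by `ext4` / `extc`, the `bf_*` lemmas of `DAl` and `bf_rv`. `Dm_Dm`: `n'' = n + n' - v(l, l') / 2` (`v_even`). `io_Dm`: `io (Dm l n z) = Dm (-l) (n + l 3) (io z)`.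
`ka_Dm`: `l' = T l`, the constant `v(l, c) / 2 - l 3 / 2 - (T l) 3 / 2 - n` is an integer (`T_two`, `v_even`). `ka_io`: `c 3` is even. `Dp_Dp`: the constant is
`-(v - C)(l, l') / 2 + l 2 (1 + l 3) / 2 + l' 2 (1 + l' 3) / 2 - (l + l') 2 (1 + (l + l') 3) / 2 ≡ (l 2 l' 3 - l 3 l' 2 - l 2 l' 3 - l' 2 l 3) / 2 = -l 3 l' 2`. `Df_Df`: the phase is off by the integer `v 0 1 (s' t - t' s) / 2`.
`fin`: `l` is bounded by `‖xv (g z)‖ + (bound of the linear part)`, then `n`; finite product of `Set.finite_Icc`.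
-/

set_option autoImplicit false

open scoped Manifold ContDiff Topology Matrix ComplexConjugate
open Set Complex Filter

namespace Pool.Agent.Work.MP_bf98aa_gt.B3

open Pool.Agent.Work.MP_bf98aa_gt.Th Pool.Agent.Work.MP_bf98aa_gt.Cy

namespace HD

variable {d : HD} {z y : E6}

theorem N1_m_D0 (l : L4) (n : ℤ) (z : E6) : d.Dm l n z (2, 0) = z (2, 0) := (rfl)

theorem N1_m_K0 (z : E6) : d.ka z (2, 0) = -z (2, 0) := (rfl)

theorem N1_m_I0 (z : E6) : io z (2, 0) = z (2, 0) := (rfl)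

theorem N1_m_even (l l' : L4) : ∃ k : ℤ, bf (rm d.v) (rv l) (rv l') = 2 * k :=
  ⟨l ⬝ᵥ (d.A'ᵀ * d.vA * d.A') *ᵥ l', by rw [v, rm_smul, bf_smul, bf_rv]; norm_num⟩

theorem N1_m_self (x : V4) : bf (rm d.v) x x = 0 := bf_self x (rm_skew d.v_skew)

theorem Ok.N1_m_c (h : d.Ok) : rm d.T *ᵥ rv d.c = -rv d.c := by rw [← rv_mulVec, h.Tc, rv_neg]

theorem Ok.N1_m_cT (h : d.Ok) (x : V4) :
    bf (rm d.v) (rv d.c) (rm d.T *ᵥ x) = bf (rm d.v) (rv d.c) x := by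
  have := h.bf_vT (rv d.c) x
  rwa [h.N1_m_c, bf_neg_left, neg_inj] at this

theorem io_io (z : E6) : io (io z) = z := by
  refine ext4 ?_ rfl rfl
  simp [io]

theorem Ok.ka_ka (h : d.Ok) (z : E6) : d.ka (d.ka z) = z := by
  refine ext4 ?_ (neg_neg _) ?_
  · simp [ka, Matrix.mulVec_add, Matrix.mulVec_smul, h.TTv, h.N1_m_c, -Matrix.mulVec_mulVec]
  · simp only [ka, xv_mk4, mk4_21, bf_add_right, bf_smul_right, N1_m_self, h.N1_m_cT]
    ring

theorem Dm_zero (z : E6) : d.Dm 0 0 z = z := by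
  refine ext4 ?_ (by simp only [N1_m_D0]) ?_ <;> simp [Dm, rv_zero, bf_zero_left]

theorem Dm_add (l : L4) (n n' : ℤ) (z : E6) : d.Dm 0 n' (d.Dm l n z) = d.Dm l (n + n') z := by
  refine ext4 ?_ (by simp only [N1_m_D0]) ?_ <;> simp [Dm, rv_zero, bf_zero_left, add_assoc]

theorem Dm_Dm (l l' : L4) (n n' : ℤ) :
    ∃ n'' : ℤ, ∀ z, d.Dm l n (d.Dm l' n' z) = d.Dm (l + l') n'' z := by
  obtain ⟨k, hk⟩ := N1_m_even (d := d) l l'
  refine ⟨n + n' - k, fun z => ext4 ?_ (by simp only [N1_m_D0]) ?_⟩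
  · simp only [Dm, xv_mk4, rv_add]
    abel
  · simp only [Dm, xv_mk4, mk4_21, rv_add, bf_add_left, bf_add_right, hk, Pi.add_apply]
    push_cast
    ring

theorem io_Dm (l : L4) (n : ℤ) (z : E6) : io (d.Dm l n z) = d.Dm (-l) (n + l 3) (io z) := by
  refine ext4 ?_ (by simp only [N1_m_D0, N1_m_I0]) ?_
  · simp only [Dm, io, xv_mk4, rv_neg, neg_add]
  · simp only [Dm, io, xv_mk4, mk4_21, rv_neg, bf_neg_left, bf_neg_right, Pi.neg_apply]
    push_cast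
    ring

theorem Ok.ka_Dm (h : d.Ok) (l : L4) (n : ℤ) :
    ∃ n' : ℤ, ∀ z, d.ka (d.Dm l n z) = d.Dm (d.T *ᵥ l) n' (d.ka z) := by
  obtain ⟨k, hk⟩ := N1_m_even (d := d) l d.c
  obtain ⟨j, hj⟩ : Even (((d.T - 1) *ᵥ l) 3) :=
    Finset.even_sum (s := Finset.univ) (fun i => (d.T - 1) 3 i * l i) fun i _ =>
      (h.T_two 3 i).mul_right _
  rw [Matrix.sub_mulVec, Matrix.one_mulVec, Pi.sub_apply, sub_eq_iff_eq_add] at hj
  refine ⟨k - n - j - l 3, fun z => ext4 ?_ (by simp only [N1_m_D0, N1_m_K0]) ?_⟩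
  · simp only [Dm, ka, xv_mk4, rv_mulVec, Matrix.mulVec_add]
    abel
  · have h1 := bf_skew (rv d.c) (rv l) (rm_skew d.v_skew)
    have h2 := bf_skew (rm d.T *ᵥ rv l) (rv d.c) (rm_skew d.v_skew)
    simp only [Dm, ka, xv_mk4, mk4_21, rv_mulVec, bf_add_right, bf_smul_right, h.bf_vT, h2,
      h.N1_m_cT, h1, hk, hj]
    push_cast
    ring

theorem Ok.ka_io (h : d.Ok) : ∃ n : ℤ, ∀ z, d.ka (io z) = d.Dm d.c n (io (d.ka z)) := by
  obtain ⟨j, hj⟩ : Even (d.c 3) := h.c3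
  refine ⟨-j, fun z => ext4 ?_ (by simp only [N1_m_D0, N1_m_K0, N1_m_I0]) ?_⟩
  · simp only [Dm, ka, io, xv_mk4, Matrix.mulVec_neg]
    module
  · simp only [Dm, ka, io, xv_mk4, mk4_21, bf_add_right, bf_smul_right, bf_neg_right, h.N1_m_cT,
      N1_m_self, hj]
    push_cast
    ring

theorem N1_m_inv (l : L4) (n : ℤ) : ∃ l' n', ∀ z, d.Dm l' n' (d.Dm l n z) = z := by
  obtain ⟨m, hm⟩ := Dm_Dm (d := d) (-l) l 0 n
  exact ⟨-l, 0 + -m, fun z => by rw [← Dm_add, hm, neg_add_cancel, Dm_add, add_neg_cancel, Dm_zero]⟩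

theorem N1_m_D {f : E6 → E6} (hf : ∃ γ, ∀ z, d.gm γ z = f z) (l : L4) (n : ℤ) :
    ∃ γ, ∀ z, d.gm γ z = d.Dm l n (f z) := by
  obtain ⟨⟨l', n', k, i⟩, hf⟩ := hf
  obtain ⟨m, hm⟩ := Dm_Dm (d := d) l l' n n'
  exact ⟨⟨l + l', m, k, i⟩, fun z => by rw [← hf, gm, gm, hm]⟩

theorem Ok.N1_m_K (h : d.Ok) {f : E6 → E6} (hf : ∃ γ, ∀ z, d.gm γ z = f z) (b : Bool) :
    ∃ γ, ∀ z, d.gm γ z = cond b d.ka id (f z) := by
  cases b
  · exact hf
  obtain ⟨⟨l, n, k, i⟩, hf⟩ := hf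
  obtain ⟨m, hm⟩ := h.ka_Dm l n
  exact ⟨⟨d.T *ᵥ l, m, !k, i⟩, fun z => by cases k <;> simp [← hf, gm, hm, h.ka_ka]⟩

theorem Ok.N1_m_I (h : d.Ok) {f : E6 → E6} (hf : ∃ γ, ∀ z, d.gm γ z = f z) (b : Bool) :
    ∃ γ, ∀ z, d.gm γ z = cond b io id (f z) := by
  cases b
  · exact hf
  obtain ⟨⟨l, n, k, i⟩, hf⟩ := hf
  obtain ⟨m, hm⟩ := h.ka_io
  obtain ⟨l', m', hm'⟩ := N1_m_inv (d := d) d.c m
  have e : ∀ z, io (d.ka z) = d.Dm l' m' (d.ka (io z)) := fun z => by rw [hm, hm']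
  cases k
  · exact ⟨⟨-l, n + l 3, false, !i⟩, fun z => by cases i <;> simp [← hf, gm, io_Dm, io_io]⟩
  · obtain ⟨γ, hγ⟩ := N1_m_D (d := d) ⟨(l', m', true, !i), fun _ => rfl⟩ (-l) (n + l 3)
    exact ⟨γ, fun z => by rw [hγ, ← hf]; cases i <;> simp [gm, io_Dm, io_io, e]⟩

theorem N1_m_sm (γ : L4 × ℤ × Bool × Bool) : ContDiff ℝ ∞ (d.gm γ) := by
  have e : ∀ i, ContDiff ℝ ∞ fun z : E6 => z i := fun i => contDiff_apply ℝ ℝ i
  have h1 : ContDiff ℝ ∞ (d.Dm γ.1 γ.2.1) := contDiff_iff_contDiffAt.2 fun z => by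
    unfold Dm
    fun_prop
  have h2 : ContDiff ℝ ∞ d.ka := contDiff_iff_contDiffAt.2 fun z => by
    unfold ka
    fun_prop
  have h3 : ContDiff ℝ ∞ io := contDiff_iff_contDiffAt.2 fun z => by
    unfold io
    fun_prop
  obtain ⟨l, n, k, i⟩ := γ
  cases k <;> cases i
  exacts [h1, h1.comp h3, h1.comp h2, h1.comp (h2.comp h3)]

theorem N1_m_int (C : ℝ) : {m : ℤ | |(m : ℝ)| ≤ C}.Finite :=
  (finite_Icc (-⌈C⌉) ⌈C⌉).subset fun m hm => abs_le.1 (by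
    exact_mod_cast (hm.trans (Int.le_ceil C) : |(m : ℝ)| ≤ ⌈C⌉))

theorem Ok.grp_m (h : d.Ok) : Grp d.gm := by
  have h1 : ∃ γ, ∀ z, d.gm γ z = z := ⟨(0, 0, false, false), Dm_zero⟩
  refine ⟨N1_m_sm, h1, fun ⟨l, n, k, i⟩ => ?_,
    fun γ γ' => N1_m_D (h.N1_m_K (h.N1_m_I ⟨γ, fun _ => rfl⟩ _) _) _ _, fun r => ?_⟩
  · obtain ⟨l', n', e⟩ := N1_m_inv (d := d) l n
    obtain ⟨γ, hγ⟩ := h.N1_m_I (h.N1_m_K (N1_m_D h1 l' n') k) i
    exact ⟨γ, fun z => by rw [hγ, gm, e]; cases k <;> cases i <;> simp [io_io, h.ka_ka]⟩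
  · choose R hR using fun γ => (isCompact_closedBall (0 : E6) r).exists_bound_of_continuousOn
      (N1_m_sm (d := d) γ).continuous.continuousOn
    refine (finite_iUnion fun p : Bool × Bool => (Finite.pi' fun _ : Fin 4 =>
      N1_m_int (r + R (0, 0, p))).biUnion fun l _ =>
        (N1_m_int (r + R (l, 0, p))).image fun n => (l, n, p)).subset ?_
    rintro ⟨l, n, p⟩ ⟨z, hz, hg⟩
    have hz' := mem_closedBall_zero_iff.2 hz
    refine mem_iUnion.2 ⟨p, mem_biUnion (fun j => ?_) ⟨n, ?_, rfl⟩⟩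
    · have e : (l j : ℝ) = xv (d.gm (l, n, p) z) j - xv (d.gm (0, 0, p) z) j := by
        simp [gm, Dm, rv_apply]
      exact (congrArg abs e).trans_le <| (abs_sub _ _).trans (add_le_add
        ((abs_le_norm4 _ _).trans ((norm_xv_le _).trans hg))
        ((abs_le_norm4 _ _).trans ((norm_xv_le _).trans (hR _ z hz'))))
    · have e : (n : ℝ) = d.gm (l, n, p) z (2, 1) - d.gm (l, 0, p) z (2, 1) := by simp [gm, Dm]
      exact (congrArg abs e).trans_le <| (abs_sub _ _).trans (add_le_add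
        ((norm_le_pi_norm _ _).trans hg)
        ((norm_le_pi_norm _ _).trans (hR _ z hz')))

theorem gm_level (γ : L4 × ℤ × Bool × Bool) (z : E6) :
    d.gm γ z (2, 0) = cond γ.2.2.1 (-z (2, 0)) (z (2, 0)) := by
  obtain ⟨l, n, k, i⟩ := γ
  cases k <;> cases i <;> rfl

theorem gm_xv (γ : L4 × ℤ × Bool × Bool) (z : E6) : xv (d.gm γ z) =
    cond γ.2.2.1 (rm d.T *ᵥ cond γ.2.2.2 (-xv z) (xv z) + (1 / 2 : ℝ) • rv d.c)
      (cond γ.2.2.2 (-xv z) (xv z)) + rv γ.1 := by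
  obtain ⟨l, n, k, i⟩ := γ
  cases k <;> cases i <;> simp [gm, Dm, ka, io]

theorem Dp_zero (z : E6) : d.Dp 0 0 z = z := by
  exact ext4 (by simp [Dp, rv_zero]) rfl (by simp [Dp, rv_zero, bf_zero_left])

theorem Dp_add (l : L4) (n n' : ℤ) (z : E6) : d.Dp 0 n' (d.Dp l n z) = d.Dp l (n + n') z := by
  exact ext4 (by simp [Dp, rv_zero]) (by simp only [Dp, mk4_20])
    (by simp [Dp, rv_zero, bf_zero_left, add_assoc])

theorem Dp_Dp (l l' : L4) (n n' : ℤ) :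
    ∃ n'' : ℤ, ∀ z, d.Dp l n (d.Dp l' n' z) = d.Dp (l + l') n'' z := by
  have e : bf (rm d.v) (rv l) (rv l') = 2 * (l ⬝ᵥ (d.A'ᵀ * d.vA * d.A') *ᵥ l' : ℤ) := by
    rw [v, rm_smul, bf_smul, bf_rv]; norm_num
  refine ⟨n + n' - l ⬝ᵥ (d.A'ᵀ * d.vA * d.A') *ᵥ l' - l 3 * l' 2, fun z =>
    ext4 (by simp only [Dp, xv_mk4, rv_add]; abel) (by simp only [Dp, mk4_20]) ?_⟩
  simp only [Dp, xv_mk4, mk4_21, rv_add, bf_add_left, bf_add_right, rm_sub, bf_sub, e, bf_E23,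
    rv_apply, Pi.add_apply]
  push_cast
  ring

theorem iop_Dp (l : L4) (n : ℤ) : ∃ n' : ℤ, ∀ z, iop (d.Dp l n z) = d.Dp (-l) n' (iop z) := by
  refine ⟨n + l 2, fun z => ext4 (by simp only [Dp, iop, xv_mk4, rv_neg]; abel)
    (by simp only [Dp, iop, mk4_20]) ?_⟩
  simp only [Dp, iop, xv_mk4, mk4_21, rv_neg, bf_neg_left, bf_neg_right, Pi.neg_apply]
  push_cast
  ring

theorem iop_iop (z : E6) : iop (iop z) = d.Dp 0 1 z := by
  refine ext4 (by simp [Dp, iop, rv_zero]) (by simp only [Dp, iop, mk4_20]) ?_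
  simp only [Dp, iop, mk4_21, rv_zero, bf_zero_left, Pi.zero_apply]
  push_cast
  ring

theorem N1_inv (l : L4) (n : ℤ) : ∃ n' : ℤ, ∀ z, d.Dp (-l) n' (d.Dp l n z) = z := by
  obtain ⟨m, hm⟩ := Dp_Dp (d := d) (-l) l 0 n
  refine ⟨0 + -m, fun z => ?_⟩
  rw [← Dp_add, hm, Dp_add, neg_add_cancel, add_neg_cancel, Dp_zero]

theorem N1_int (C : ℝ) : {n : ℤ | |(n : ℝ)| ≤ C}.Finite :=
  (Set.finite_Icc (-⌈C⌉) ⌈C⌉).subset fun n h =>
    abs_le.1 (by exact_mod_cast (le_trans h (Int.le_ceil C) : |(n : ℝ)| ≤ (⌈C⌉ : ℤ)))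

theorem grp_p (d : HD) : Grp d.gp := by
  refine ⟨fun ⟨l, n, b⟩ => contDiff_iff_contDiffAt.2 fun z => ?_, ⟨(0, 0, false), Dp_zero⟩,
    fun ⟨l, n, b⟩ => ?_, fun ⟨l, n, b⟩ ⟨l', n', b'⟩ => ?_, fun r => ?_⟩
  · have h1 : ∀ z, ContDiffAt ℝ ∞ (d.Dp l n) z := fun z => by unfold Dp; fun_prop
    have h2 : ContDiffAt ℝ ∞ iop z := by unfold iop; fun_prop
    cases b
    exacts [h1 z, (h1 _).comp z h2]
  · cases b
    · obtain ⟨m, hm⟩ := N1_inv (d := d) l n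
      exact ⟨(-l, m, false), hm⟩
    · obtain ⟨m, hm⟩ := iop_Dp (d := d) l n
      obtain ⟨k, hk⟩ := Dp_Dp (d := d) (-l) 0 m 1
      obtain ⟨j, hj⟩ := N1_inv (d := d) (-l + 0) k
      refine ⟨(-(-l + 0), j, true), fun z => ?_⟩
      change d.Dp _ j (iop (d.Dp l n (iop z))) = z
      rw [hm, iop_iop (d := d), hk, hj]
  · cases b'
    · obtain ⟨m, hm⟩ := Dp_Dp (d := d) l' l n' n
      exact ⟨(l' + l, m, b), fun z => (hm _).symm⟩
    · obtain ⟨m, hm⟩ := iop_Dp (d := d) l n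
      obtain ⟨k, hk⟩ := Dp_Dp (d := d) l' (-l) n' m
      cases b
      · refine ⟨(l' + -l, k, true), fun z => ?_⟩
        change d.Dp _ k (iop z) = d.Dp l' n' (iop (d.Dp l n z))
        rw [hm, hk]
      · obtain ⟨j, hj⟩ := Dp_Dp (d := d) (l' + -l) 0 k 1
        refine ⟨(l' + -l + 0, j, false), fun z => ?_⟩
        change d.Dp _ j z = d.Dp l' n' (iop (d.Dp l n (iop z)))
        rw [hm, hk, iop_iop (d := d), hj]
  · have hl : {l : L4 | ‖rv l‖ ≤ 2 * r}.Finite :=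
      (Set.Finite.pi' fun _ => N1_int (2 * r)).subset fun l h i => (abs_le_norm4 (rv l) i).trans h
    have hC : ∀ l : L4, ∃ C, ∀ x ∈ Metric.closedBall (0 : V4) r,
        ‖bf (rm (d.v - E23)) (rv l) x‖ ≤ C := fun l =>
      (isCompact_closedBall _ _).exists_bound_of_continuousOn fun x _ =>
        (contDiffAt_bf _ contDiffAt_const contDiffAt_id).continuousAt.continuousWithinAt
    choose C hC using hC
    refine (hl.biUnion fun l _ => (finite_singleton l).prod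
      ((N1_int (2 * r + 1 + C l + |(l 2 * (1 + l 3) / 2 : ℝ)|)).prod finite_univ)).subset ?_
    rintro ⟨l, n, b⟩ ⟨z, hz, hg⟩
    have h1 := (norm_xv_le z).trans hz
    have h2 := (norm_xv_le _).trans hg
    have h3 : |z (2, 1)| ≤ r := (norm_le_pi_norm z _).trans hz
    have h4 : |d.gp (l, n, b) z (2, 1)| ≤ r := (norm_le_pi_norm (d.gp (l, n, b) z) _).trans hg
    have h5 := hC l _ (mem_closedBall_zero_iff.2 h1)
    have h6 := abs_le.1 (le_refl |(l 2 * (1 + l 3) / 2 : ℝ)|)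
    rw [Real.norm_eq_abs, abs_le] at h5
    rw [abs_le] at h3 h4
    refine mem_biUnion (x := l) ?_ ⟨rfl, ?_, trivial⟩
    · change ‖rv l‖ ≤ 2 * r
      cases b
      · change ‖xv z + rv l‖ ≤ r at h2
        have := norm_sub_le (xv z + rv l) (xv z)
        rw [add_sub_cancel_left] at this
        linarith only [h1, h2, this]
      · change ‖-xv z + rv l‖ ≤ r at h2
        have := norm_add_le (xv z) (-xv z + rv l)
        rw [add_neg_cancel_left] at this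
        linarith only [h1, h2, this]
    · change |(n : ℝ)| ≤ _
      rw [abs_le]
      cases b <;> simp only [gp, Dp, iop, cond, id, xv_mk4, mk4_21, bf_neg_right] at h4 <;>
        constructor <;> linarith only [h3, h5, h6, h4, h3.1, h3.2, h4.1, h4.2, h5.1, h5.2, h6.1, h6.2]

theorem gp_level (γ : L4 × ℤ × Bool) (z : E6) : d.gp γ z (2, 0) = z (2, 0) := by
  obtain ⟨l, n, _ | _⟩ := γ <;> simp only [gp, Dp, iop, cond, id, mk4_20]

theorem gp_xv (γ : L4 × ℤ × Bool) (z : E6) :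
    xv (d.gp γ z) = cond γ.2.2 (-xv z) (xv z) + rv γ.1 := by
  obtain ⟨l, n, _ | _⟩ := γ <;> simp only [gp, Dp, iop, cond, id, xv_mk4]

theorem iof_iof (z : E6) : iof (iof z) = z := by
  exact extc rfl (neg_neg _) (neg_neg _)

theorem Df_zero (z : E6) : d.Df 0 0 z = z := by
  refine extc ?_ ?_ ?_ <;> simp [Df, psi, ee_zero, Complex.ext_iff]

theorem Df_Df' (s t s' t' : ℝ) (z : E6) : d.Df s t (d.Df s' t' z) =
    act (-(d.v 0 1 * (s * t' - t * s') / 2)) .f (d.Df (s + s') (t + t') z) := by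
  have e : d.psi s t (d.Df s' t' z) =
      d.psi (s + s') (t + t') z + d.v 0 1 * (s * t' - t * s') / 2 - d.psi s' t' z := by
    simp only [psi, Df, mkc_10, mkc_11, add_re, add_im, cc_re, cc_im]; ring
  refine extc ?_ ?_ ?_
  · change cc 0 z * ee _ * ee (d.psi s t _) = cc 0 z * ee _ * ee _
    rw [e, mul_assoc, mul_assoc, ← ee_add, ← ee_add]; congr 2; ring
  · change cc 1 z + _ + _ = cc 1 z + _
    rw [add_assoc]; congr 1
    exact Complex.ext (add_comm _ _) (add_comm _ _)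
  · change cc 2 z * ee _ * ee (-d.psi s t _) = cc 2 z * ee _ * ee _
    rw [e, mul_assoc, mul_assoc, ← ee_add, ← ee_add]; congr 2; ring

theorem Df_Df (s t s' t' : ℤ) (z : E6) :
    d.Df s t (d.Df s' t' z) = d.Df ((s + s' : ℤ) : ℝ) ((t + t' : ℤ) : ℝ) z := by
  obtain ⟨k, hk⟩ := d.v_even 0 1
  have e : -((d.v 0 1 : ℝ) * (s * t' - t * s') / 2) = (-(k * (s * t' - t * s')) : ℤ) := by
    rw [hk]; push_cast; ring
  rw [Df_Df', e, Int.cast_add, Int.cast_add]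
  refine extc ?_ ?_ ?_ <;>
    simp only [act, cc_mkc0, cc_mkc1, cc_mkc2, ← Int.cast_neg, ee_int, mul_one]

theorem iof_Df (s t : ℝ) (z : E6) : iof (d.Df s t z) = d.Df (-s) (-t) (iof z) := by
  have e : d.psi (-s) (-t) (iof z) = d.psi s t z := by
    simp only [psi, iof, mkc_10, mkc_11, neg_re, neg_im, cc_re, cc_im]; ring
  refine extc ?_ ?_ ?_
  · change _ = cc 0 z * ee (d.psi (-s) (-t) _)
    rw [e]; rfl
  · exact neg_add (cc 1 z) _
  · change -(cc 2 z * _) = -cc 2 z * ee (-d.psi (-s) (-t) _)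
    rw [e, neg_mul]

theorem grp_f (d : HD) : Grp d.gf := by
  have hi : ∀ (s t : ℤ) z, iof (d.Df s t z) = d.Df (-s : ℤ) (-t : ℤ) (iof z) := fun s t z => by
    rw [iof_Df, Int.cast_neg, Int.cast_neg]
  refine ⟨fun ⟨s, t, b⟩ => contDiff_iff_contDiffAt.2 fun z => ?_,
    ⟨(0, 0, false), fun z => by simpa [gf] using Df_zero z⟩,
    fun ⟨s, t, b⟩ => ?_, fun ⟨s, t, b⟩ ⟨s', t', b'⟩ => ?_, fun r => ?_⟩
  · have h1 : ∀ z, ContDiffAt ℝ ∞ (d.Df s t) z := fun z => by unfold Df psi; fun_prop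
    have h2 : ContDiffAt ℝ ∞ iof z := by unfold iof; fun_prop
    cases b
    exacts [h1 z, (h1 _).comp z h2]
  · cases b
    · refine ⟨(-s, -t, false), fun z => (Df_Df _ _ _ _ z).trans ?_⟩
      simpa using Df_zero z
    · refine ⟨(s, t, true), fun z => ?_⟩
      change d.Df s t (iof (d.Df s t (iof z))) = z
      rw [hi, iof_iof, Df_Df]
      simpa using Df_zero z
  · cases b'
    · exact ⟨(s' + s, t' + t, b), fun z => (Df_Df _ _ _ _ _).symm⟩
    · refine ⟨(s' + -s, t' + -t, !b), fun z => ?_⟩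
      change _ = d.Df s' t' (iof (d.Df s t _))
      rw [hi, Df_Df]
      cases b
      · rfl
      · exact congrArg _ (iof_iof z).symm
  · refine ((N1_int (2 * r)).prod ((N1_int (2 * r)).prod finite_univ)).subset ?_
    rintro ⟨s, t, b⟩ ⟨z, hz, hg⟩
    have h1 : |z (1, 0)| ≤ r := (norm_le_pi_norm z _).trans hz
    have h2 : |z (1, 1)| ≤ r := (norm_le_pi_norm z _).trans hz
    have h3 : |d.gf (s, t, b) z (1, 0)| ≤ r := (norm_le_pi_norm (d.gf (s, t, b) z) _).trans hg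
    have h4 : |d.gf (s, t, b) z (1, 1)| ≤ r := (norm_le_pi_norm (d.gf (s, t, b) z) _).trans hg
    rw [abs_le] at h1 h2 h3 h4
    refine ⟨(abs_le.2 ?_ : |(s : ℝ)| ≤ _), (abs_le.2 ?_ : |(t : ℝ)| ≤ _), trivial⟩ <;> cases b <;>
      simp only [gf, Df, iof, cond, id, mkc_10, mkc_11, cc_mkc1, add_re, add_im, neg_re, neg_im,
        cc_re, cc_im] at h3 h4 <;>
      constructor <;> linarith only [h1, h3, h2, h4, h1.1, h1.2, h2.1, h2.2, h3.1, h3.2, h4.1, h4.2]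

theorem gf_norm (γ : ℤ × ℤ × Bool) (z : E6) : normSq (cc 0 (d.gf γ z)) = normSq (cc 0 z) ∧
    normSq (cc 2 (d.gf γ z)) = normSq (cc 2 z) ∧
    cc 1 (d.gf γ z) = cond γ.2.2 (-cc 1 z) (cc 1 z) + ⟨γ.1, γ.2.1⟩ := by
  obtain ⟨s, t, _ | _⟩ := γ <;>
    simp only [gf, Df, iof, cond, id, cc_mkc0, cc_mkc1, cc_mkc2, map_mul, normSq_ee, mul_one,
      normSq_neg, and_self]

theorem act_add (s t : ℝ) (c : K3) (z : E6) : act s c (act t c z) = act (s + t) c z := by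
  cases c <;> simp -implicitDefEqProofs only [act, xv_mk4, mk4_20, mk4_21, cc_mkc0, cc_mkc1, cc_mkc2,
    neg_add, add_comm s, ee_add, add_assoc, mul_assoc]

theorem act_zero (c : K3) (z : E6) : act 0 c z = z := by
  cases c <;> simp only [act, add_zero, neg_zero, ee_zero, mul_one, mk4_eta, mkc_eta]

theorem act_m_int (n : ℤ) (z : E6) : act n .m z = d.Dm 0 n z := by
  simp [act, Dm, rv_zero, bf_zero_left]

theorem act_p_int (n : ℤ) (z : E6) : act n .p z = d.Dp 0 n z := by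
  simp [act, Dp, rv_zero, bf_zero_left]

theorem act_f_int (n : ℤ) (z : E6) : act n .f z = z := by
  rw [act, ← Int.cast_neg, ee_int, ee_int, mul_one, mul_one, mkc_eta]

theorem contDiff_act (c : K3) : ContDiff ℝ ∞ fun p : ℝ × E6 => act p.1 c p.2 := by
  refine contDiff_iff_contDiffAt.2 fun p => ?_
  cases c <;> simp only [act] <;> fun_prop

theorem gm_act (γ : L4 × ℤ × Bool × Bool) (s : ℝ) (z : E6) :
    d.gm γ (act s .m z) = act (cond γ.2.2.1 (-s) s) .m (d.gm γ z) := by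
  obtain ⟨l, n, _ | _, _ | _⟩ := γ <;> refine ext4 ?_ ?_ ?_ <;>
    simp -implicitDefEqProofs only [gm, Dm, ka, io, act, cond, id, xv_mk4, mk4_20, mk4_21] <;> ring

theorem gp_act (γ : L4 × ℤ × Bool) (s : ℝ) (z : E6) :
    d.gp γ (act s .p z) = act s .p (d.gp γ z) := by
  obtain ⟨l, n, _ | _⟩ := γ <;> refine ext4 ?_ ?_ ?_ <;>
    simp -implicitDefEqProofs only [gp, Dp, iop, act, cond, id, xv_mk4, mk4_20, mk4_21] <;> ring

theorem gf_act (γ : ℤ × ℤ × Bool) (s : ℝ) (z : E6) :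
    d.gf γ (act s .f z) = act s .f (d.gf γ z) := by
  obtain ⟨a, b, _ | _⟩ := γ <;> refine extc ?_ ?_ ?_ <;>
    simp -implicitDefEqProofs only [gf, Df, iof, psi, act, cond, id, cc_mkc0, cc_mkc1, cc_mkc2, mkc_10, mkc_11,
      cc_re, cc_im] <;> ring

end HD

end Pool.Agent.Work.MP_bf98aa_gt.B3
end

-- merged part: Pool.Agent.Work.MP_bf98aa_gt.B3.Ke
section
/-!
Fold coordinates and untwisted coordinates.

PLAN. `bf_v`, `bf_Om0`: `rm_smul`, `rm_mul`, `bf_pull`, then expand the `4 × 4` sum. `XX_ka`: `A'T`, `A' c = e₂` from `AA'`. `kr_kU`: `normSq_mul`, `normSq_ofReal`, `Real.mul_self_sqrt`.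
`small`: `π (μ² + kf²) ≤ kr < 1 / 64` and `3 < π` give `|μ|, |kf| < 1 / 8`, then `hK`. `continuous_kU`: `fun_prop` after unfolding (`Real.continuous_sqrt`, `contDiffAt_cmk` or `Complex.mk_eq_add_mul_I`).
`kI_kU`, `kU_kI`: first the level, `√π * μ / √π = μ`; then `s`, `t`; then `a`, `b`; `A A' = 1`; `xy` is bilinear, `ring`.
-/

set_option autoImplicit false

open scoped Manifold ContDiff Topology Matrix ComplexConjugate
open Set Complex Filter

namespace Pool.Agent.Work.MP_bf98aa_gt.B3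

open Pool.Agent.Work.MP_bf98aa_gt.Th Pool.Agent.Work.MP_bf98aa_gt.Cy

namespace HD

variable {d : HD} {z w : E6} {k : J4}

theorem bf_v (d : HD) (x y : V4) : bf (rm d.v) x y =
    d.xy ((rm d.A' *ᵥ x) 0) ((rm d.A' *ᵥ x) 1) ((rm d.A' *ᵥ y) 2) ((rm d.A' *ᵥ y) 3) -
      d.xy ((rm d.A' *ᵥ y) 0) ((rm d.A' *ᵥ y) 1) ((rm d.A' *ᵥ x) 2) ((rm d.A' *ᵥ x) 3) := by
  rw [v, rm_smul, bf_smul, rm_mul, rm_mul, rm_tr, bf_pull]
  generalize rm d.A' *ᵥ x = X
  generalize rm d.A' *ᵥ y = Y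
  simp [bf, xy, vA, rm, dotProduct, Matrix.mulVec, Fin.sum_univ_four]
  ring

theorem bf_Om0 (d : HD) (μ : ℝ) (x y : V4) : bf (d.Om0 μ) x y =
    d.a * ((rm d.A' *ᵥ x) 0 * (rm d.A' *ᵥ y) 1 - (rm d.A' *ᵥ x) 1 * (rm d.A' *ᵥ y) 0) +
    d.a' * ((rm d.A' *ᵥ x) 2 * (rm d.A' *ᵥ y) 3 - (rm d.A' *ᵥ x) 3 * (rm d.A' *ᵥ y) 2) +
    μ * bf (rm d.v) x y := by
  simp only [Om0, α, β, bf_add, bf_smul, rm_mul, rm_tr, bf_pull, bf_E01, bf_E23]

theorem Ok.A_XX (h : d.Ok) (z : E6) : rm d.A *ᵥ d.XX z = xv z := by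
  rw [XX, Matrix.mulVec_mulVec, ← rm_mul, h.AA, rm_one, Matrix.one_mulVec]

theorem Ok.XX_A (h : d.Ok) (X : V4) (μ φ : ℝ) : d.XX (mk4 (rm d.A *ᵥ X) μ φ) = X := by
  rw [XX, xv_mk4, Matrix.mulVec_mulVec, ← rm_mul, h.AA', rm_one, Matrix.one_mulVec]

theorem XX_Dm (l : L4) (n : ℤ) (z : E6) : d.XX (d.Dm l n z) = d.XX z + rv (d.A' *ᵥ l) := by
  rw [XX, XX, Dm, xv_mk4, Matrix.mulVec_add, rv_mulVec]

theorem XX_io (z : E6) : d.XX (io z) = -d.XX z := by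
  rw [XX, XX, io, xv_mk4, Matrix.mulVec_neg]

theorem Ok.XX_ka (h : d.Ok) (z : E6) :
    d.XX (d.ka z) = ![d.XX z 0, d.XX z 1, 1 / 2 - d.XX z 2, -d.XX z 3] := by
  have h1 : d.A' *ᵥ d.c = fun i => (1 : Z4) i 2 := funext fun i => congrFun (congrFun h.AA' i) 2
  rw [XX, XX, ka, xv_mk4, Matrix.mulVec_add, Matrix.mulVec_smul, ← rv_mulVec, h1,
    Matrix.mulVec_mulVec, ← rm_mul, h.A'T, rm_mul, ← Matrix.mulVec_mulVec]
  generalize rm d.A' *ᵥ xv z = X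
  funext i
  fin_cases i <;> simp [rm, rv, dotProduct, Matrix.mulVec, Fin.sum_univ_four, Matrix.one_apply]
  ring

theorem contDiff_XX (d : HD) : ContDiff ℝ ∞ d.XX := by
  exact contDiff_iff_contDiffAt.2 fun z => contDiffAt_mulVec _ contDiff_xv.contDiffAt

theorem Ke_X (d : HD) (i : Fin 4) : ContDiff ℝ ∞ fun z => d.XX z i :=
  contDiff_pi.1 d.contDiff_XX i

theorem Ke_c (i : Cx) : ContDiff ℝ ∞ fun z : E6 => z i := contDiff_apply ℝ ℝ i

theorem contDiff_kf (d : HD) (k : J4) : ContDiff ℝ ∞ (d.kf k) := by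
  have := d.Ke_X
  have := Ke_c
  unfold kf xy
  fun_prop

theorem contDiff_ks (d : HD) (k : J4) : ContDiff ℝ ∞ (d.ks k) := by
  have := d.Ke_X
  have := Ke_c
  unfold ks xy
  fun_prop

theorem contDiff_kt (d : HD) (k : J4) : ContDiff ℝ ∞ (d.kt k) := by
  have := d.Ke_X
  have := Ke_c
  unfold kt xy
  fun_prop

theorem Ke_gK (d : HD) : ContDiff ℝ ∞ d.gK := by
  unfold gK
  fun_prop

theorem Ke_00 (d : HD) (k : J4) (z : E6) :
    d.kU k z (0, 0) = √(Real.pi * d.gK (z (2, 0))) * (d.XX z 2 - 1 / 4) := re_ofReal_mul _ _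

theorem Ke_01 (d : HD) (k : J4) (z : E6) : d.kU k z (0, 1) =
    √(Real.pi * d.gK (z (2, 0))) * (d.XX z 3 - ((k.1 : ℕ) : ℝ) / 2) := im_ofReal_mul _ _

theorem Ke_10 (d : HD) (k : J4) (z : E6) : d.kU k z (1, 0) = √Real.pi * z (2, 0) :=
  re_ofReal_mul _ _

theorem Ke_11 (d : HD) (k : J4) (z : E6) : d.kU k z (1, 1) = √Real.pi * d.kf k z :=
  im_ofReal_mul _ _

theorem Ke_20 (d : HD) (k : J4) (z : E6) : d.kU k z (2, 0) = d.ks k z := (rfl)

theorem Ke_21 (d : HD) (k : J4) (z : E6) : d.kU k z (2, 1) = d.kt k z := (rfl)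

theorem Ke_eq (d : HD) (k : J4) : d.kU k = fun z =>
    Cy.mk (√(Real.pi * d.gK (z (2, 0))) * (d.XX z 2 - 1 / 4))
      (√(Real.pi * d.gK (z (2, 0))) * (d.XX z 3 - ((k.1 : ℕ) : ℝ) / 2)) (√Real.pi * z (2, 0))
      (√Real.pi * d.kf k z) (d.ks k z) (d.kt k z) :=
  funext fun z => ext6 (d.Ke_00 k z) (d.Ke_01 k z) (d.Ke_10 k z) (d.Ke_11 k z) rfl rfl

theorem continuous_kU (d : HD) (k : J4) : Continuous (d.kU k) := by
  have h1 := fun i => (d.Ke_X i).continuous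
  have h2 : Continuous fun z : E6 => √(Real.pi * d.gK (z (2, 0))) :=
    (continuous_const.mul (d.Ke_gK.continuous.comp (continuous_apply _))).sqrt
  rw [Ke_eq]
  refine continuous_pi fun ⟨i, j⟩ => ?_
  fin_cases i <;> fin_cases j
  exacts [h2.mul ((h1 2).sub continuous_const), h2.mul ((h1 3).sub continuous_const),
    continuous_const.mul (continuous_apply (2, 0)),
    continuous_const.mul (d.contDiff_kf k).continuous, (d.contDiff_ks k).continuous,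
    (d.contDiff_kt k).continuous]

theorem Ok.Ke_pos (h : d.Ok) {μ : ℝ} (hz : |μ| ≤ 1 / 8) : 0 < Real.pi * d.gK μ :=
  mul_pos Real.pi_pos (one_pos.trans_le (h.hK μ hz))

theorem Ke_kr (d : HD) (k : J4) (z : E6) : kr (d.kU k z) = √(Real.pi * d.gK (z (2, 0))) ^ 2 *
    ((d.XX z 2 - 1 / 4) ^ 2 + (d.XX z 3 - ((k.1 : ℕ) : ℝ) / 2) ^ 2) +
      Real.pi * (z (2, 0) ^ 2 + d.kf k z ^ 2) := by
  rw [kr, normSq_cc, normSq_cc, Ke_00, Ke_01, Ke_10, Ke_11, mul_pow √Real.pi, mul_pow √Real.pi,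
    Real.sq_sqrt Real.pi_pos.le]
  ring

theorem Ke_abs {c s t : ℝ} (hc : 1 ≤ c) (h : c * (s ^ 2 + t ^ 2) < 1 / 64) :
    |s| < 1 / 8 ∧ |t| < 1 / 8 := by
  have h1 : s ^ 2 + t ^ 2 < (1 / 8) ^ 2 := by
    have := le_mul_of_one_le_left (by positivity : 0 ≤ s ^ 2 + t ^ 2) hc
    linarith only [h, this]
  exact ⟨abs_lt_of_sq_lt_sq (by linarith only [h1, sq_nonneg t]) (by norm_num),
    abs_lt_of_sq_lt_sq (by linarith only [h1, sq_nonneg s]) (by norm_num)⟩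

theorem Ok.kr_kU (h : d.Ok) (hz : |z (2, 0)| ≤ 1 / 8) : kr (d.kU k z) =
    Real.pi * d.gK (z (2, 0)) * ((d.XX z 2 - 1 / 4) ^ 2 + (d.XX z 3 - ((k.1 : ℕ) : ℝ) / 2) ^ 2) +
      Real.pi * (z (2, 0) ^ 2 + d.kf k z ^ 2) := by
  rw [Ke_kr, Real.sq_sqrt (h.Ke_pos hz).le]

theorem Ok.small (h : d.Ok) (hz : kr (d.kU k z) < 1 / 64) : |z (2, 0)| < 1 / 8 ∧
    |d.kf k z| < 1 / 8 ∧ |d.XX z 2 - 1 / 4| < 1 / 8 ∧ |d.XX z 3 - ((k.1 : ℕ) : ℝ) / 2| < 1 / 8 := by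
  have hp : 1 ≤ Real.pi := by linarith only [Real.pi_gt_three]
  obtain ⟨h1, h2⟩ := Ke_abs (s := z (2, 0)) (t := d.kf k z) hp
    (lt_of_le_of_lt (by rw [Ke_kr]; exact le_add_of_nonneg_left (by positivity)) hz)
  exact ⟨h1, h2, Ke_abs (one_le_mul_of_one_le_of_one_le hp (h.hK _ h1.le))
    (lt_of_le_of_lt (by rw [h.kr_kU h1.le]; exact le_add_of_nonneg_right (by positivity)) hz)⟩

theorem Ok.kr_zero (h : d.Ok) : kr (d.kU k z) = 0 ↔
    z (2, 0) = 0 ∧ d.kf k z = 0 ∧ d.XX z 2 = 1 / 4 ∧ d.XX z 3 = ((k.1 : ℕ) : ℝ) / 2 := by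
  refine ⟨fun h0 => ?_, fun ⟨h1, h2, h3, h4⟩ => by simp [Ke_kr, h1, h2, h3, h4]⟩
  have h1 := (h.small (k := k) (z := z) (by rw [h0]; norm_num)).1.le
  have h2 := h.Ke_pos h1
  rw [h.kr_kU h1, add_eq_zero_iff_of_nonneg (by positivity) (by positivity),
    mul_eq_zero_iff_left h2.ne', mul_eq_zero_iff_left Real.pi_ne_zero,
    add_eq_zero_iff_of_nonneg (sq_nonneg _) (sq_nonneg _),
    add_eq_zero_iff_of_nonneg (sq_nonneg _) (sq_nonneg _)] at h0
  simp only [sq_eq_zero_iff, sub_eq_zero] at h0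
  exact ⟨h0.2.1, h0.2.2, h0.1⟩

theorem Ok.kU_sm (h : d.Ok) (hz : |z (2, 0)| < 1 / 8) : ContDiffAt ℝ ∞ (d.kU k) z := by
  have h1 := fun i => (d.Ke_X i).contDiffAt (x := z)
  have h2 : ContDiffAt ℝ ∞ (fun z : E6 => √(Real.pi * d.gK (z (2, 0)))) z :=
    (contDiff_const.mul (d.Ke_gK.comp (Ke_c _))).contDiffAt.sqrt (h.Ke_pos hz.le).ne'
  rw [Ke_eq]
  exact contDiffAt_mk (h2.mul ((h1 2).sub contDiffAt_const))
    (h2.mul ((h1 3).sub contDiffAt_const)) (contDiff_const.mul (Ke_c _)).contDiffAt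
    (contDiff_const.mul (d.contDiff_kf k)).contDiffAt (d.contDiff_ks k).contDiffAt
    (d.contDiff_kt k).contDiffAt

theorem Ke_lev (hw : kr w < 1 / 64) : |w (1, 0) / √Real.pi| ≤ 1 / 8 := by
  have hp : 1 ≤ √Real.pi := Real.one_le_sqrt.2 (by linarith only [Real.pi_gt_three])
  have h1 := (Ke_abs (s := w (1, 0)) (t := w (1, 1)) le_rfl (lt_of_le_of_lt (by
    rw [one_mul, ← normSq_cc]
    exact le_add_of_nonneg_left (normSq_nonneg _)) hw)).1
  rw [abs_div, abs_of_nonneg (Real.sqrt_nonneg _)]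
  exact (div_le_self (abs_nonneg _) hp).trans h1.le

theorem Ok.kI_sm (h : d.Ok) (hw : kr w < 1 / 64) : ContDiffAt ℝ ∞ (d.kI k) w := by
  have c := fun i => (Ke_c i).contDiffAt (x := w)
  have hμ : ContDiffAt ℝ ∞ (fun w : E6 => w (1, 0) / √Real.pi) w := (c _).div_const _
  have h0 := h.Ke_pos (Ke_lev hw)
  have hr : ContDiffAt ℝ ∞ (fun w : E6 => √(Real.pi * d.gK (w (1, 0) / √Real.pi))) w :=
    (contDiffAt_const.mul (d.Ke_gK.contDiffAt.comp w hμ)).sqrt h0.ne'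
  have hs := (c (0, 0)).div hr (Real.sqrt_pos.2 h0).ne'
  have ht := (c (0, 1)).div hr (Real.sqrt_pos.2 h0).ne'
  have hx : ∀ {s t u v : E6 → ℝ}, ContDiffAt ℝ ∞ s w → ContDiffAt ℝ ∞ t w → ContDiffAt ℝ ∞ u w →
      ContDiffAt ℝ ∞ v w → ContDiffAt ℝ ∞ (fun y => d.xy (s y) (t y) (u y) (v y)) w := by
    intro s t u v _ _ _ _
    unfold xy
    fun_prop
  have ha := (c (2, 0)).add ((hμ.mul
    (hx (s := fun _ => 0) (t := fun _ => 1) contDiffAt_const contDiffAt_const hs ht)).div_const d.a)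
  have hb := (c (2, 1)).sub ((hμ.mul
    (hx (s := fun _ => 1) (t := fun _ => 0) contDiffAt_const contDiffAt_const hs ht)).div_const d.a)
  have hs' := hs.add (contDiffAt_const (c := (1 / 4 : ℝ)))
  have ht' := ht.add (contDiffAt_const (c := ((k.1 : ℕ) : ℝ) / 2))
  refine contDiffAt_mk4 (contDiffAt_mulVec _ (contDiffAt_pi.2 fun i => ?_)) hμ
    (((((c _).div_const _).sub ((hx ha hb hs' ht').div_const _)).add
      (hx ha hb contDiffAt_const contDiffAt_const)).add contDiffAt_const)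
  fin_cases i
  exacts [ha, hb, hs', ht']

theorem Ok.kI_kU (h : d.Ok) (hz : |z (2, 0)| ≤ 1 / 8) : d.kI k (d.kU k z) = z := by
  have h0 := (Real.sqrt_pos.2 (h.Ke_pos hz)).ne'
  have h1 := (Real.sqrt_pos.2 Real.pi_pos).ne'
  have e : ![d.XX z 0, d.XX z 1, d.XX z 2, d.XX z 3] = d.XX z := by
    funext i
    fin_cases i <;> rfl
  simp only [kI, Ke_00, Ke_01, Ke_10, Ke_11, Ke_20, Ke_21, mul_div_cancel_left₀ _ h0,
    mul_div_cancel_left₀ _ h1, ks, kt, sub_add_cancel, add_sub_cancel_right, e, h.A_XX]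
  refine ext4 (xv_mk4 _ _ _) (mk4_20 _ _ _) ?_
  rw [mk4_21, kf]
  ring

theorem Ok.kU_kI (h : d.Ok) (hw : kr w < 1 / 64) : d.kU k (d.kI k w) = w := by
  have h0 := (Real.sqrt_pos.2 (h.Ke_pos (Ke_lev hw))).ne'
  have h1 := (Real.sqrt_pos.2 Real.pi_pos).ne'
  apply ext6 <;>
    simp only [kI, Ke_00, Ke_01, Ke_10, Ke_11, Ke_20, Ke_21, ks, kt, kf, h.XX_A, mk4_20, mk4_21,
      Matrix.cons_val, add_sub_cancel_right, sub_add_cancel, mul_div_cancel₀ _ h0,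
      mul_div_cancel₀ _ h1]
  refine Eq.trans (congrArg _ ?_) (mul_div_cancel₀ _ h1)
  ring

theorem Ok.Ko_iff (h : d.Ok) : z ∈ d.Ko k ↔ kr (d.kU k z) < 1 / 64 := by
  refine ⟨fun hz => hz.2, fun hz => ⟨?_, hz⟩⟩
  have h1 := abs_lt.1 (h.small hz).1
  have h2 : d.tt z < 0 := by
    have := h.hμ
    unfold tt
    linarith only [h1, this]
  exact ⟨by linarith only [h1], by linarith only [h2], Or.inr h2⟩

theorem Ok.Ko_small (h : d.Ok) (hz : z ∈ d.Ko k) : |z (2, 0)| < 1 / 8 ∧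
    |d.XX z 2 - 1 / 4| < 1 / 8 ∧ |d.XX z 3 - ((k.1 : ℕ) : ℝ) / 2| < 1 / 8 := by
  exact ⟨(h.small hz.2).1, (h.small hz.2).2.2⟩

theorem Ok.isOpen_Ko (h : d.Ok) (k : J4) : IsOpen (d.Ko k) := by
  have : d.Ko k = {z | kr (d.kU k z) < 1 / 64} := Set.ext fun _ => h.Ko_iff
  rw [this]
  refine isOpen_lt (Continuous.comp (g := kr) ?_ (d.continuous_kU k)) continuous_const
  exact (continuous_normSq.comp (continuous_cc 0)).add (continuous_normSq.comp (continuous_cc 1))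

end HD

end Pool.Agent.Work.MP_bf98aa_gt.B3
end
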