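import Pool.Agent.Work.MP_bf98aa_gt.B3.Ke

-- merged part: Pool.Agent.Work.MP_bf98aa_gt.B3.N2
section
-- merged part: Pool.Agent.Work.MP_bf98aa_gt.B3.N2
section
/-!
Cut-off functions, domains, smoothness of the primitives.

PLAN. `al_supp`: `al q t ≠ 0` gives `0 < t`, `c₀ q / t < M₂`, `b3`. `al_sm`: for `t₀ > 0` a composition; for `t₀ < 0` locally zero; for `t₀ = 0`, `q₀ > 0` locally zero (`c₀ q / t ≥ M₂` for small `t > 0`).
`al_lower`: mean value theorem for `η` on `[0, r]`, `1 - η r ≤ r / 2`. `al_mono`: `r ↦ κ r + al r t` has derivative `≥ κ - c₀ / 2`.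
`rd_ev`: `round` is locally constant where `|rd s| < 1 / 2`. `a0_zero`: if `1 / 32 < |rd x₂|` or `1 / 32 < |rd x₃|` is approached then `qr ≥ min / 1024` nearby (`rd` is not continuous at half integers, but `|rd|` is:
`|rd s| = dist s ℤ`, `abs_sub_round_eq_min`). `lam_sm`: at a point with `|rd x₂|, |rd x₃| < 1 / 16` replace `round` by a constant; otherwise `a0 = 0` nearby. On `p` at a zero of `g`: `t - shf t - a0 = t (1 - ss t) (1 - η ..)` vanishes nearby.
`rho_small'`: apply `b1` to `s • x` for some `s > 1`. `hh_small`: `c₀ q ≤ 1 < 2 M₂`, scale as well. `ang_gz_near`: `g (p + n) = ee (..) * g p`, `near`, `ang_mul`, `ang_ee`. `ang_gz_far`: `far`.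
-/

set_option autoImplicit false

open scoped Manifold ContDiff Topology Matrix ComplexConjugate
open Set Complex Filter

namespace Pool.Agent.Work.MP_bf98aa_gt.B3

open Pool.Agent.Work.MP_bf98aa_gt.Th Pool.Agent.Work.MP_bf98aa_gt.Cy

theorem N2_round {s : ℝ} {n : ℤ} (h : |s - n| < 1 / 2) : round s = n :=
  round_eq_iff.2 ⟨by linarith [(abs_lt.1 h).1], by linarith [(abs_lt.1 h).2]⟩

theorem N2_neg (s : ℝ) : |-s - ((-round s : ℤ) : ℝ)| = |rd s| := by
  rw [Int.cast_neg, ← neg_sub', abs_neg, rd]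

theorem rd_add_int (s : ℝ) (n : ℤ) : rd (s + n) = rd s := by
  rw [rd, round_add_intCast, Int.cast_add, add_sub_add_right_eq_sub, rd]

theorem rd_eq {s : ℝ} (h : |s| < 1 / 2) : rd s = s ∧ round s = 0 := by
  have e : round s = 0 := N2_round (by simpa using h)
  exact ⟨by rw [rd, e, Int.cast_zero, sub_zero], e⟩

theorem rd_neg {s : ℝ} (h : |rd s| < 1 / 2) : rd (-s) = -rd s ∧ round (-s) = -round s := by
  have e := N2_round ((N2_neg s).trans_lt h)
  exact ⟨by rw [rd, e, Int.cast_neg, ← neg_sub', rd], e⟩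

theorem abs_rd_neg (s : ℝ) : |rd (-s)| = |rd s| := by
  have e : ∀ s, |rd (-s)| ≤ |rd s| := fun s => (round_le _ _).trans_eq (N2_neg s)
  exact (e s).antisymm (by simpa using e (-s))

theorem continuous_abs_rd : Continuous fun s => |rd s| := by
  refine (LipschitzWith.of_le_add fun s t => (round_le s (round t)).trans ?_).continuous
  rw [add_comm]
  exact abs_sub_le _ _ _

theorem rd_ev {s : ℝ} (h : |rd s| < 1 / 2) : ∀ᶠ s' in 𝓝 s, round s' = round s := by
  exact ((isOpen_lt (f := fun s' : ℝ => |s' - round s|) (by fun_prop)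
    continuous_const).eventually_mem h).mono fun _ e => N2_round e

theorem deriv_shf_low {t : ℝ} (h : t < 1 / 4) : deriv shf t = 0 := by
  exact (Filter.EventuallyEq.deriv_eq ((eventually_lt_nhds h).mono fun _ e =>
    shf_low e.le)).trans (deriv_const t 0)

theorem deriv_shf_high {t : ℝ} (h : 1 / 2 < t) : deriv shf t = 1 := by
  exact (Filter.EventuallyEq.deriv_eq ((eventually_gt_nhds h).mono fun _ e =>
    shf_high e.le)).trans (deriv_id t)

theorem contDiff_deriv_shf : ContDiff ℝ ∞ (deriv shf) := by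
  exact (contDiff_infty_iff_deriv.1 contDiff_shf).2

namespace HD

variable {d : HD} {z y : E6} {q t ν s u : ℝ} {x : V4}

theorem qq_nonneg (s u : ℝ) : 0 ≤ d.qq s u := by
  unfold qq
  positivity

theorem Ok.qq_zero (h : d.Ok) : d.qq s u = 0 ↔ s = 0 ∧ u = 0 := by
  have := h.hσ.ne'
  rw [qq, add_eq_zero_iff_of_nonneg (by positivity) (by positivity)]
  simp [this]

theorem normSq_sig (s u : ℝ) : normSq (⟨d.σ * s, u / d.σ⟩ : ℂ) = d.qq s u := by
  rw [normSq_mk, qq]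
  ring

theorem Ok.qq_small (h : d.Ok) (hq : d.c₀ * d.qq s u ≤ 2 * d.M₂) : |s| ≤ 1 / 32 ∧ |u| ≤ 1 / 32 := by
  have h0 : 0 < d.σ ^ 2 := pow_pos h.hσ 2
  have h1 : 1024 * d.qq s u ≤ min (d.σ ^ 2) (1 / d.σ ^ 2) :=
    le_of_mul_le_mul_left (a := d.c₀) (by linarith [h.b3]) (by linarith [h.b4])
  rw [le_min_iff, qq] at h1
  have h2 : 0 ≤ u ^ 2 / d.σ ^ 2 := by positivity
  have h3 : 0 ≤ d.σ ^ 2 * s ^ 2 := by positivity
  have h4 : 1024 * u ^ 2 / d.σ ^ 2 ≤ 1 / d.σ ^ 2 := by rw [mul_div_assoc]; linarith [h1.2]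
  rw [div_le_div_iff_of_pos_right h0] at h4
  have h5 : s ^ 2 ≤ (1 / 32) ^ 2 := le_of_mul_le_mul_left (by linarith [h1.1]) h0
  exact ⟨abs_le_of_sq_le_sq' h5 (by norm_num) |> abs_le.2,
    abs_le_of_sq_le_sq' (by linarith) (by norm_num) |> abs_le.2⟩

theorem Ok.M12 (h : d.Ok) : 1 ≤ d.M₁ ∧ d.M₁ < d.M₂ := by
  exact ⟨h.hη.pos, not_le.1 fun e =>
    one_ne_zero ((h.hη.one _ le_rfl).symm.trans (h.hη.zero _ e))⟩

theorem al_neg (ht : t ≤ 0) : d.al q t = 0 := by
  exact if_neg (not_lt.2 ht)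

theorem N2_pos (ht : 0 < t) (q : ℝ) : d.al q t = t * (1 - ss t) * d.η (d.c₀ * q / t) := if_pos ht

theorem N2_ss (t : ℝ) : 0 ≤ ss t ∧ ss t ≤ 1 :=
  ⟨Real.smoothTransition.nonneg _, Real.smoothTransition.le_one _⟩

theorem al_high (ht : 1 / 2 ≤ t) : d.al q t = 0 := by
  rw [N2_pos (by linarith), ss, Real.smoothTransition.one_of_one_le (by linarith), sub_self,
    mul_zero, zero_mul]

theorem Ok.al_mem (h : d.Ok) (q t : ℝ) : 0 ≤ d.al q t ∧ d.al q t + shf t ≤ max 0 t := by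
  rcases le_or_gt t 0 with ht | ht
  · rw [al_neg ht, zero_add]
    exact ⟨le_rfl, (shf_mem t).2⟩
  · have h1 := mul_nonneg ht.le (sub_nonneg.2 (N2_ss t).2)
    have h2 := mul_le_of_le_one_right h1 (h.hη.mem (d.c₀ * q / t)).2
    rw [N2_pos ht, shf]
    exact ⟨mul_nonneg h1 (h.hη.mem _).1, le_max_of_le_right (by linarith)⟩

theorem Ok.al_one (h : d.Ok) (ht : 0 < t) (hq : d.c₀ * q ≤ d.M₁ * t) : d.al q t + shf t = t := by
  rw [N2_pos ht, h.hη.one _ ((div_le_iff₀ ht).2 hq), shf]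
  ring

theorem Ok.al_supp (h : d.Ok) (h0 : d.al q t ≠ 0) : 0 < t ∧ t < 1 / 2 ∧ d.c₀ * q < d.M₂ * t := by
  have ht : 0 < t := not_le.1 fun e => h0 (al_neg e)
  exact ⟨ht, not_le.1 fun e => h0 (al_high e), not_le.1 fun e => h0 (by
    rw [N2_pos ht, h.hη.zero _ ((le_div_iff₀ ht).2 e), mul_zero])⟩

theorem N2_mono (h : d.Ok) {q' : ℝ} (hq : q ≤ q') :
    d.al q t + d.c₀ * q / 2 ≤ d.al q' t + d.c₀ * q' / 2 := by
  have hc := mul_le_mul_of_nonneg_left hq (show 0 ≤ d.c₀ by linarith [h.b4])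
  rcases le_or_gt t 0 with ht | ht
  · rw [al_neg ht, al_neg ht]
    linarith
  have hd := h.hη.sm.differentiable (by simp)
  have h1 : Monotone fun r => d.η r + r / 2 := monotone_of_deriv_nonneg (by fun_prop) fun r => by
    rw [((hd r).hasDerivAt.fun_add ((hasDerivAt_id' r).div_const 2)).deriv]
    linarith [h.hη.der r]
  have h2 := div_le_div_of_nonneg_right hc ht.le
  have h3 := mul_le_mul_of_nonneg_left (h1 h2) (mul_nonneg ht.le (sub_nonneg.2 (N2_ss t).2))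
  have h4 := mul_le_mul_of_nonneg_left h2 (mul_nonneg ht.le (N2_ss t).1)
  have h5 := mul_div_cancel₀ (d.c₀ * q) ht.ne'
  have h6 := mul_div_cancel₀ (d.c₀ * q') ht.ne'
  rw [N2_pos ht, N2_pos ht]
  linarith

theorem Ok.al_lower (h : d.Ok) (hq : 0 ≤ q) : t - shf t - d.al q t ≤ d.c₀ * q / 2 := by
  have h1 := N2_mono (t := t) h hq
  rcases le_or_gt t 0 with ht | ht
  · rw [al_neg ht, al_neg ht] at h1
    linarith [al_neg (d := d) (q := q) ht, (shf_mem t).1]
  · linarith [h.al_one (q := 0) ht (by rw [mul_zero]; exact mul_nonneg (by linarith [h.M12.1]) ht.le)]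

theorem Ok.al_mono (h : d.Ok) {q' : ℝ} (hq : q ≤ q') :
    d.al q t + d.c₀ * q / 2 ≤ d.al q' t + d.c₀ * q' / 2 := by
  exact N2_mono h hq

theorem Ok.al_sm (h : d.Ok) (h0 : 0 < q ∨ t ≠ 0) :
    ContDiffAt ℝ ∞ (fun p : ℝ × ℝ => d.al p.1 p.2) (q, t) := by
  rcases lt_trichotomy t 0 with ht | rfl | ht
  · exact (contDiffAt_const (c := 0)).congr_of_eventuallyEq
      ((continuousAt_snd.eventually (eventually_lt_nhds ht)).mono fun _ e => al_neg e.le)
  · refine (contDiffAt_const (c := 0)).congr_of_eventuallyEq (((isOpen_lt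
      (f := fun p : ℝ × ℝ => d.M₂ * p.2) (g := fun p => d.c₀ * p.1) (by fun_prop)
      (by fun_prop)).eventually_mem ?_).mono fun _ e => not_not.1 fun e' =>
        (h.al_supp e').2.2.not_gt e)
    exact (mul_zero _).trans_lt (mul_pos (by linarith [h.b4]) (h0.resolve_right fun e => e rfl))
  · refine ContDiffAt.congr_of_eventuallyEq ?_
      ((continuousAt_snd.eventually (eventually_gt_nhds ht)).mono fun _ e => N2_pos e _)
    exact (contDiffAt_snd.mul (contDiffAt_const.sub (contDiff_ss.contDiffAt.comp _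
      contDiffAt_snd))).mul (h.hη.sm.contDiffAt.comp _
        ((contDiffAt_const.mul contDiffAt_fst).div contDiffAt_snd ht.ne'))

theorem Ok.al_cont (h : d.Ok) : Continuous fun p : ℝ × ℝ => d.al p.1 p.2 := by
  refine continuous_iff_continuousAt.2 fun ⟨q, t⟩ => ?_
  rcases eq_or_ne t 0 with rfl | ht
  · rw [ContinuousAt, al_neg le_rfl]
    exact squeeze_zero (g := fun p : ℝ × ℝ => max 0 p.2) (fun p => (h.al_mem _ _).1)
      (fun p => by linarith [(h.al_mem p.1 p.2).2, (shf_mem p.2).1])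
      ((continuous_const.max continuous_snd).tendsto' _ _ (max_self _))
  · exact (h.al_sm (Or.inr ht)).continuousAt

theorem Ok.hasDerivAt_al (h : d.Ok) (ht : 0 < t) (q : ℝ) :
    HasDerivAt (fun r => d.al r t) ((1 - ss t) * d.c₀ * deriv d.η (d.c₀ * q / t)) q := by
  rw [funext (N2_pos ht)]
  refine (((h.hη.sm.differentiable (by simp) _).hasDerivAt.comp q
    (((hasDerivAt_id' q).const_mul d.c₀).div_const t)).const_mul _).congr_deriv ?_
  field_simp

theorem Ok.ex_mem (h : d.Ok) (ν : ℝ) (x : V4) : 0 ≤ d.ex ν x ∧ d.ex ν x ≤ max 0 (ν - d.μ₁) := by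
  exact ⟨add_nonneg (h.al_mem _ _).1 (shf_mem _).1, (h.al_mem _ _).2⟩

theorem Ok.N2_hh (h : d.Ok) : Continuous fun p : ℝ × V4 => d.hh p.1 p.2 :=
  (continuous_normSq.comp h.contDiff_z1.continuous).add
    ((h.al_cont.comp (f := fun p : ℝ × V4 => (d.qq (p.2 2) (p.2 3), p.1 - d.μ₁))
      (by unfold qq; fun_prop)).add (contDiff_shf.continuous.comp (by fun_prop)))

theorem Ok.rho_cont (h : d.Ok) : Continuous fun p : ℝ × V4 => d.rho p.1 p.2 := by
  exact h.N2_hh.add (continuous_normSq.comp h.contDiff_z2.continuous)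

theorem Ok.hh_cont (h : d.Ok) : Continuous fun p : ℝ × V4 => d.hh p.1 p.2 := by
  exact h.N2_hh

theorem rho_neg (ν : ℝ) (x : V4) : d.rho ν (-x) = d.rho ν x ∧ d.hh ν (-x) = d.hh ν x ∧
    d.ex ν (-x) = d.ex ν x := by
  simp only [rho, hh, ex, qq, z1_neg, z2_neg, normSq_neg, Pi.neg_apply, neg_sq, and_self]

theorem Ok.rho_small (h : d.Ok) (hν : |ν| ≤ d.M + 1 / 8) (hx : d.rho ν x ≤ 8) :
    ‖x‖ ≤ 1 / 32 ∧ ‖rm d.T *ᵥ x‖ ≤ 1 / 32 ∧ ‖rm d.A' *ᵥ x‖ ≤ 1 / 32 := by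
  refine h.b1 ν hν x ?_
  have := (h.ex_mem ν x).1
  unfold rho hh at hx
  linarith

theorem Ok.rho_small' (h : d.Ok) (hν : |ν| ≤ d.M + 1 / 8) (hx : d.rho ν x < 8) :
    ‖x‖ < 1 / 32 ∧ ‖rm d.T *ᵥ x‖ < 1 / 32 ∧ ‖rm d.A' *ᵥ x‖ < 1 / 32 := by
  have h0 := (h.ex_mem ν x).1
  unfold rho hh at hx
  have c : Continuous fun s : ℝ => s ^ 2 * (normSq (d.z1 ν x) + normSq (d.z2 ν x)) := by fun_prop
  obtain ⟨s, h1, h2⟩ := (((c.tendsto 1).eventually (gt_mem_nhds (show _ < (8 : ℝ) by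
    linarith))).filter_mono nhdsWithin_le_nhds |>.and (self_mem_nhdsWithin (s := Ioi 1))).exists
  have h3 : (1 : ℝ) < s := h2
  have h4 := h.b1 ν hν (s • x) (by
    rw [z1_smul, z2_smul, map_mul, map_mul, normSq_ofReal]; linarith)
  simp only [Matrix.mulVec_smul, norm_smul, Real.norm_eq_abs, abs_of_pos (one_pos.trans h3)] at h4
  have k : ∀ a : ℝ, s * a ≤ 1 / 32 → a < 1 / 32 := fun a ha => by nlinarith
  exact ⟨k _ h4.1, k _ h4.2.1, k _ h4.2.2⟩

theorem Ok.N2_z1 (h : d.Ok) (hν : |ν - d.μ₁| ≤ 1 / 4) (x : V4) :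
    normSq (d.z1 ν x) = d.kap ν * d.qq (x 2) (x 3) ∧ d.c₀ ≤ d.kap ν := by
  have h1 := abs_le.1 hν
  have h2 := (h.b5 ν (by linarith) (by unfold M; linarith)).2
  refine ⟨?_, h2⟩
  rw [h.f1 ν hν, map_mul, normSq_ofReal, normSq_sig, Real.mul_self_sqrt (by linarith [h.b4])]

theorem Ok.hh_small (h : d.Ok) (hν : |ν - d.μ₁| ≤ 1 / 4) (hx : d.hh ν x ≤ 1) :
    |x 2| < 1 / 32 ∧ |x 3| < 1 / 32 := by
  obtain ⟨h1, h2⟩ := h.N2_z1 hν x
  have h3 := (h.ex_mem ν x).1
  have h4 := mul_le_mul_of_nonneg_right h2 (qq_nonneg (d := d) (x 2) (x 3))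
  have h5 := h.M12
  have e : d.qq (5 / 4 * x 2) (5 / 4 * x 3) = 25 / 16 * d.qq (x 2) (x 3) := by unfold qq; ring
  unfold hh at hx
  have h6 := h.qq_small (s := 5 / 4 * x 2) (u := 5 / 4 * x 3) (by rw [e]; linarith)
  rw [abs_mul, abs_mul, abs_of_pos (by norm_num : (0 : ℝ) < 5 / 4)] at h6
  constructor <;> linarith

theorem Ok.normSq_z1 (h : d.Ok) (hν : |ν - d.μ₁| ≤ 1 / 4) (x : V4) :
    normSq (d.z1 ν x) = d.kap ν * d.qq (x 2) (x 3) ∧ d.c₀ ≤ d.kap ν := by
  exact h.N2_z1 hν x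

theorem Ok.ex_high (h : d.Ok) (h1 : d.μ₁ + 1 / 8 ≤ ν) (h2 : ν ≤ d.M + 1 / 8)
    (hx : normSq (d.z1 ν x) + normSq (d.z2 ν x) ≤ 8) : d.ex ν x = ν - d.μ₁ := by
  have h3 := h.b2 ν h1 h2 x hx
  have h4 := h.M12.1
  exact h.al_one (by linarith) (by nlinarith)

theorem Ok.N2_per (h : d.Ok) (z : E6) (m n : ℤ) :
    d.gz z = ee ((m + n) / 2 + m * (z (1, 1) - n)) * d.g (z (1, 0) - m, z (1, 1) - n) := by
  rw [← h.hg.per, sub_add_cancel, sub_add_cancel, gz]

theorem Ok.gz_zero (h : d.Ok) : d.gz z = 0 ↔ rd (z (1, 0)) = 0 ∧ rd (z (1, 1)) = 0 := by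
  refine ⟨fun e => ?_, fun ⟨a, b⟩ => ?_⟩
  · obtain ⟨⟨m, a⟩, n, b⟩ := h.hg.zero _ _ e
    simp [a, b, rd]
  · rw [rd] at a b
    rw [h.N2_per z (round (z (1, 0))) (round (z (1, 1))), a, b, h.hg.near 0 0 (by simp) (by simp)]
    simp [Complex.ext_iff]

theorem Ok.gz_qr (h : d.Ok) : d.gz z = 0 ↔ d.qr z = 0 := by
  exact h.gz_zero.trans h.qq_zero.symm

theorem Ok.contDiff_gz (h : d.Ok) : ContDiff ℝ ∞ d.gz := by
  exact h.hg.sm.comp ((contDiff_apply ℝ ℝ _).prodMk (contDiff_apply ℝ ℝ _))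

theorem contDiff_tt : ContDiff ℝ ∞ d.tt := by
  exact (contDiff_apply ℝ ℝ _).sub contDiff_const

theorem contDiff_nuF : ContDiff ℝ ∞ d.nuF := by
  exact contDiff_iff_contDiffAt.2 fun z => (contDiffAt_const.add (contDiffAt_normSq
    (contDiff_cc 2).contDiffAt)).sub (contDiffAt_normSq (contDiff_cc 0).contDiffAt)

theorem Ok.gz_shift (h : d.Ok) {l : L4} (hy : xv y = xv z + rv l) :
    d.gz y = ee ((l 2 + l 3) / 2 + l 2 * z (1, 1)) * d.gz z ∧ d.qr y = d.qr z := by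
  have a : y (1, 0) = z (1, 0) + l 2 := congrFun hy 2
  have b : y (1, 1) = z (1, 1) + l 3 := congrFun hy 3
  exact ⟨by rw [gz, a, b, h.hg.per, gz], by rw [qr, a, b, rd_add_int, rd_add_int, qr]⟩

theorem Ok.gz_neg (h : d.Ok) (hy : xv y = -xv z) : d.gz y = -d.gz z ∧ d.qr y = d.qr z := by
  have a : y (1, 0) = -z (1, 0) := congrFun hy 2
  have b : y (1, 1) = -z (1, 1) := congrFun hy 3
  exact ⟨by rw [gz, a, b, h.hg.odd, gz], by
    rw [qr, qr, qq, qq, a, b, sq_eq_sq_iff_abs_eq_abs _ _ |>.2 (abs_rd_neg (z (1, 0))),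
      sq_eq_sq_iff_abs_eq_abs _ _ |>.2 (abs_rd_neg (z (1, 1)))]⟩

theorem Ok.N2_supp (h : d.Ok) (h0 : d.a0 z ≠ 0) :
    |rd (z (1, 0))| ≤ 1 / 64 ∧ |rd (z (1, 1))| ≤ 1 / 64 := by
  obtain ⟨-, a, b⟩ := h.al_supp h0
  have := h.qq_small (s := 2 * rd (z (1, 0))) (u := 2 * rd (z (1, 1))) (by
    rw [show d.qq _ _ = 4 * d.qr z by rw [qr, qq, qq]; ring]
    nlinarith [h.M12.1, h.M12.2])
  rw [abs_mul, abs_mul, abs_two] at this
  constructor <;> linarith [this.1, this.2]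

theorem Ok.N2_zero (h : d.Ok) (h0 : 1 / 64 < |rd (z (1, 0))| ∨ 1 / 64 < |rd (z (1, 1))|) :
    ∀ᶠ y in 𝓝 z, d.a0 y = 0 := by
  have c : ∀ i, Continuous fun y : E6 => |rd (y i)| := fun i =>
    continuous_abs_rd.comp (continuous_apply i)
  rcases h0 with a | a <;>
    refine (continuousAt_const.eventually_lt (c _).continuousAt a).mono fun y hy =>
      by_contra fun e => hy.not_ge ?_
  exacts [(h.N2_supp e).1, (h.N2_supp e).2]

theorem Ok.a0_supp (h : d.Ok) (h0 : d.a0 z ≠ 0) :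
    |rd (z (1, 0))| ≤ 1 / 32 ∧ |rd (z (1, 1))| ≤ 1 / 32 := by
  constructor <;> linarith [(h.N2_supp h0).1, (h.N2_supp h0).2]

theorem Ok.a0_zero (h : d.Ok) (h0 : 1 / 32 < |rd (z (1, 0))| ∨ 1 / 32 < |rd (z (1, 1))|) :
    ∀ᶠ y in 𝓝 z, d.a0 y = 0 := by
  exact h.N2_zero (h0.imp (fun _ => by linarith) fun _ => by linarith)

theorem Ok.a0_zero' (h : d.Ok) (h0 : 1 / 32 ≤ |rd (z (1, 0))| ∨ 1 / 32 ≤ |rd (z (1, 1))|) :
    ∀ᶠ y in 𝓝 z, d.a0 y = 0 := by
  exact h.N2_zero (h0.imp (fun _ => by linarith) fun _ => by linarith)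

theorem Ok.a0_sm (h : d.Ok) (h0 : d.gz z ≠ 0 ∨ d.tt z ≠ 0) : ContDiffAt ℝ ∞ d.a0 z := by
  by_cases e : 1 / 32 ≤ |rd (z (1, 0))| ∨ 1 / 32 ≤ |rd (z (1, 1))|
  · exact (contDiffAt_const (c := 0)).congr_of_eventuallyEq (h.a0_zero' e)
  rw [not_or, not_le, not_le] at e
  have h1 : ContDiffAt ℝ ∞ d.qr z := by
    refine ContDiffAt.congr_of_eventuallyEq (f := fun y : E6 =>
      d.qq (y (1, 0) - round (z (1, 0))) (y (1, 1) - round (z (1, 1)))) (by unfold qq; fun_prop) ?_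
    filter_upwards [(continuous_apply _).continuousAt.eventually (rd_ev (e.1.trans (by norm_num))),
      (continuous_apply _).continuousAt.eventually (rd_ev (e.2.trans (by norm_num)))] with y a b
    rw [qr, rd, rd, a, b]
  exact (h.al_sm (h0.imp_left fun a => (qq_nonneg _ _).lt_of_ne' (mt h.gz_qr.2 a))).comp z
    (h1.prodMk contDiff_tt.contDiffAt)

theorem Ok.ang_gz_near (h : d.Ok) (h1 : |rd (z (1, 0))| < 1 / 32) (h2 : |rd (z (1, 1))| < 1 / 32) :
    normSq (d.gz z) = d.qr z ∧ ang d.gz z = (d.qr z * round (z (1, 0))) • dc (1, 1) +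
      (2 * Real.pi)⁻¹ • (rd (z (1, 0)) • dc (1, 1) - rd (z (1, 1)) • dc (1, 0)) := by
  rw [qr]
  unfold rd at *
  generalize round (z (1, 0)) = m at *
  generalize round (z (1, 1)) = n at *
  have h3 : d.gz =ᶠ[𝓝 z] fun y => ee ((m + n) / 2 + m * (y (1, 1) - n)) *
      ⟨d.σ * (y (1, 0) - m), (y (1, 1) - n) / d.σ⟩ := by
    have c : ∀ i (r : ℝ), ContinuousAt (fun y : E6 => |y i - r|) z := fun i r =>
      ((continuous_apply i).sub continuous_const).abs.continuousAt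
    filter_upwards [(c _ _).eventually_lt continuousAt_const h1,
      (c _ _).eventually_lt continuousAt_const h2] with y a b
    rw [h.N2_per y m n, h.hg.near _ _ a.le b.le]
  have h4 : HasFDerivAt (fun y : E6 => ((m : ℝ) + n) / 2 + m * (y (1, 1) - n))
      ((m : ℝ) • dc (1, 1)) z :=
    (((dc (1, 1)).hasFDerivAt.sub_const (n : ℝ)).const_mul (m : ℝ)).const_add _
  have h5 : HasFDerivAt (fun y : E6 => (⟨d.σ * (y (1, 0) - m), (y (1, 1) - n) / d.σ⟩ : ℂ))
      (ofRealCLM.comp (d.σ • dc (1, 0)) + I • ofRealCLM.comp (d.σ⁻¹ • dc (1, 1))) z :=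
    ((ContinuousLinearMap.hasFDerivAt _).sub_const
      (⟨d.σ * m, n / d.σ⟩ : ℂ)).congr_of_eventuallyEq (Eventually.of_forall fun y =>
        Complex.ext (by simp [dc_apply, mul_sub]) (by simp [dc_apply]; ring))
  have h6 : DifferentiableAt ℝ (fun y : E6 => ee (((m : ℝ) + n) / 2 + m * (y (1, 1) - n))) z :=
    (contDiff_ee.differentiable (by simp) _).comp z h4.differentiableAt
  refine ⟨by rw [h3.eq_of_nhds, map_mul, normSq_ee, one_mul, normSq_sig], ?_⟩
  rw [ang_congr h3, ang_mul h6 h5.differentiableAt, ang_ee h4.differentiableAt, h4.fderiv,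
    normSq_ee, normSq_sig, smul_smul, one_smul]
  refine congrArg _ (ContinuousLinearMap.ext fun v => ?_)
  have := h.hσ.ne'
  simp [ang_apply, h5.fderiv, dc_apply]
  field_simp
  ring

theorem Ok.gz_far (h : d.Ok) {n : ℤ} (h1 : |z (1, 0) - (n + 1 / 2)| ≤ 1 / 4) :
    d.gz z = ee ((n + 1 / 2) * z (1, 1) + n / 2) := by
  rw [abs_le] at h1
  rw [h.N2_per z n 0, h.hg.far _ _ (by linarith [h1.1]) (by linarith [h1.2]), ← ee_add]
  exact congrArg ee (by push_cast; ring)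

theorem Ok.isOpen_Wo (h : d.Ok) (c : K3) : IsOpen (d.Wo c) := by
  have ct := (contDiff_tt (d := d)).continuous
  cases c
  · exact (isOpen_lt continuous_const (continuous_apply _)).inter
      ((isOpen_lt ct continuous_const).inter
        ((isOpen_ne_fun h.contDiff_gz.continuous continuous_const).union
          (isOpen_lt ct continuous_const)))
  · exact (isOpen_lt continuous_const ct).inter (isOpen_lt ct continuous_const)
  · exact (isOpen_lt (continuous_normSq.comp (continuous_cc 0)) continuous_const).inter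
      (isOpen_lt (continuous_normSq.comp (continuous_cc 2)) continuous_const)

theorem N2_lf (d : HD) : ContDiff ℝ ∞ fun z : E6 => lf (xv z ᵥ* d.Om0 (z (2, 0))) := by
  have c : ∀ j, ContDiff ℝ ∞ fun z : E6 => (xv z ᵥ* d.Om0 (z (2, 0))) j := fun j => by
    simp only [Matrix.vecMul, dotProduct, Om0, Matrix.add_apply, Matrix.smul_apply, smul_eq_mul]
    exact ContDiff.sum fun i _ => (contDiff_pi.1 contDiff_xv i).mul (by fun_prop)
  unfold lf
  exact ((((c 0).smul contDiff_const).add ((c 1).smul contDiff_const)).add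
    ((c 2).smul contDiff_const)).add ((c 3).smul contDiff_const)

theorem N2_rnd {i : Cx} (e : |rd (z i)| < 1 / 32) :
    ContDiffAt ℝ ∞ (fun y : E6 => (round (y i) : ℝ)) z ∧ ContDiffAt ℝ ∞ (fun y : E6 => rd (y i)) z := by
  have k : ContDiffAt ℝ ∞ (fun y : E6 => (round (y i) : ℝ)) z :=
    (contDiffAt_const (c := (round (z i) : ℝ))).congr_of_eventuallyEq
      (((continuous_apply i).continuousAt.eventually (rd_ev (e.trans (by norm_num)))).mono
        fun y a => congrArg _ a)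
  exact ⟨k, (dc i).contDiff.contDiffAt.sub k⟩

theorem N2_qr (e : |rd (z (1, 0))| < 1 / 32) (e' : |rd (z (1, 1))| < 1 / 32) :
    ContDiffAt ℝ ∞ d.qr z :=
  (contDiffAt_const.mul ((N2_rnd e).2.pow 2)).add (((N2_rnd e').2.pow 2).div_const _)

theorem Ok.lam_sm (h : d.Ok) {c : K3} (hz : z ∈ d.Wo c) : ContDiffAt ℝ ∞ (d.lam c) z := by
  have co : ∀ i, ContDiffAt ℝ ∞ (fun y : E6 => y i) z := fun i => (dc i).contDiff.contDiffAt
  have ct : ContDiffAt ℝ ∞ d.tt z := contDiff_tt.contDiffAt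
  have cl := (N2_lf d).contDiffAt.const_smul (1 / 2 : ℝ) (x := z)
  have ce : (1 / 32 ≤ |rd (z (1, 0))| ∨ 1 / 32 ≤ |rd (z (1, 1))|) ∨
      |rd (z (1, 0))| < 1 / 32 ∧ |rd (z (1, 1))| < 1 / 32 := by
    rw [← not_le, ← not_le, ← not_or]
    exact em _
  cases c <;> unfold lam
  · refine ((ct.smul contDiffAt_const).add cl).add ?_
    have k : (∀ᶠ y in 𝓝 z, d.a0 y = 0) → ContDiffAt ℝ ∞ (fun z => (d.a0 z / (2 * Real.pi * d.qr z)) •
        (rd (z (1, 0)) • dc (1, 1) - rd (z (1, 1)) • dc (1, 0))) z := fun e =>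
      (contDiffAt_const (c := 0)).congr_of_eventuallyEq (e.mono fun y a => by simp [a])
    rcases hz.2.2 with g | g
    · rcases ce with e | e
      · exact k (h.a0_zero' e)
      · exact ((h.a0_sm (.inl g)).div (contDiffAt_const.mul (N2_qr e.1 e.2))
          (mul_ne_zero Real.two_pi_pos.ne' (mt h.gz_qr.2 g))).smul
          (((N2_rnd e.1).2.smul contDiffAt_const).sub ((N2_rnd e.2).2.smul contDiffAt_const))
    · exact k ((ct.continuousAt.eventually_lt continuousAt_const g).mono fun y a => al_neg a.le)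
  · have ca := h.a0_sm (.inr hz.1.ne')
    have cs : ContDiffAt ℝ ∞ (fun y => shf (d.tt y)) z := contDiff_shf.contDiffAt.comp z ct
    have cg := h.contDiff_gz.contDiffAt (x := z)
    refine ((((ct.smul contDiffAt_const).add ((ct.div_const 2).smul (((co _).smul
      contDiffAt_const).add ((co _).smul contDiffAt_const)))).add cl).sub
      (ContDiffAt.smul (𝕜' := ℝ) ?_ (contDiffAt_ang cg))).sub (((cs.mul (co _)).add ?_).smul contDiffAt_const)
    · by_cases g : d.gz z = 0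
      · have e := h.gz_zero.1 g
        have cq := N2_qr (d := d) (z := z) (by rw [e.1]; norm_num) (by rw [e.2]; norm_num)
        refine (contDiffAt_const (c := 0)).congr_of_eventuallyEq ?_
        filter_upwards [continuousAt_const.eventually_lt ct.continuousAt hz.1,
          (continuousAt_const.mul cq.continuousAt).eventually_lt
            (continuousAt_const.mul ct.continuousAt) (show d.c₀ * d.qr z < d.M₁ * d.tt z by
              rw [h.gz_qr.1 g, mul_zero]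
              exact mul_pos (by linarith [h.M12.1]) hz.1)] with y a b
        rw [show d.tt y - shf (d.tt y) - d.a0 y = 0 by linarith [h.al_one a b.le, a0.eq_1 d y],
          zero_div]
      · exact ((ct.sub cs).sub ca).div (contDiffAt_normSq cg) (mt normSq_eq_zero.1 g)
    · rcases ce with e | e
      · exact (contDiffAt_const (c := 0)).congr_of_eventuallyEq
          ((h.a0_zero' e).mono fun y a => by simp [a])
      · exact ca.mul (N2_rnd e.1).1
  · have k : ContDiffAt ℝ ∞ (fun z => d.b (d.nuF z)) z := by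
      have := (contDiff_nuF (d := d)).contDiffAt (x := z)
      simp only [b, Om0, Matrix.add_apply, Matrix.smul_apply, smul_eq_mul]
      fun_prop
    exact ((contDiff_rot1 0).add (contDiff_rot1 2)).contDiffAt.add ((k.div_const 2).smul
      (((co _).smul contDiffAt_const).sub ((co _).smul contDiffAt_const)))

theorem Ok.gm_mem (h : d.Ok) (γ : L4 × ℤ × Bool × Bool) (hz : z ∈ d.Wo .m)
    (hγ : γ.2.2.1 = true → z (2, 0) < 1 / 8) : d.gm γ z ∈ d.Wo .m := by
  have e := gm_level (d := d) γ z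
  have ex := gm_xv (d := d) γ z
  have hμ := h.hμ
  obtain ⟨h1, h2, h3⟩ := hz
  obtain ⟨l, n, k, b⟩ := γ
  simp only [Wo, tt, mem_ofPred_eq, e] at h2 h3 ⊢
  cases k
  · refine ⟨h1, h2, h3.imp_left fun h4 h5 => h4 ?_⟩
    rw [h.gz_qr] at h5 ⊢
    cases b
    · rw [← (h.gz_shift ex).2, h5]
    · rw [← (h.gz_neg (y := io z) (xv_mk4 _ _ _)).2,
        ← (h.gz_shift (z := io z) (ex.trans (by rw [io, xv_mk4]; rfl))).2, h5]
  · have := hγ rfl
    simp only [cond]
    exact ⟨by linarith, by linarith, Or.inr (by linarith)⟩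

theorem Ok.gm_ka (h : d.Ok) {γ : L4 × ℤ × Bool × Bool} (hz : z ∈ d.Wo .m)
    (hγ : d.gm γ z ∈ d.Wo .m) (hk : γ.2.2.1 = true) : |z (2, 0)| < 1 / 8 := by
  have h1 := hz.1
  have h2 := hγ.1
  rw [gm_level, hk, cond] at h2
  exact abs_lt.2 ⟨by linarith, by linarith⟩

theorem gp_mem (γ : L4 × ℤ × Bool) : d.gp γ z ∈ d.Wo .p ↔ z ∈ d.Wo .p := by
  simp only [Wo, tt, mem_ofPred_eq, gp_level]

theorem gf_mem (γ : ℤ × ℤ × Bool) : d.gf γ z ∈ d.Wo .f ↔ z ∈ d.Wo .f := by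
  simp only [Wo, mem_ofPred_eq, (gf_norm γ z).1, (gf_norm γ z).2.1]

theorem act_mem (s : ℝ) (c : K3) : act s c z ∈ d.Wo c ↔ z ∈ d.Wo c := by
  cases c <;> simp only [Wo, tt, gz, act, mem_ofPred_eq, mk4_20, mk4_10, mk4_11, xv_2, xv_3, cc_mkc0,
    cc_mkc2, map_mul, normSq_ee, mul_one]

end HD

end Pool.Agent.Work.MP_bf98aa_gt.B3
end

-- merged part: Pool.Agent.Work.MP_bf98aa_gt.B3.N3f
section
/-!
The group of the chart `f` preserves the symplectic form.
-/

set_option autoImplicit false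

open scoped Manifold ContDiff Topology Matrix ComplexConjugate
open Set Complex Filter

namespace Pool.Agent.Work.MP_bf98aa_gt.B3

open Pool.Agent.Work.MP_bf98aa_gt.Th Pool.Agent.Work.MP_bf98aa_gt.Cy

theorem N3_f_coord {f : E6 → E6} {x : E6} (hf : DifferentiableAt ℝ f x) (i : Cx) (v : E6) :
    fderiv ℝ f x v i = fderiv ℝ (fun z => f z i) x v := by
  rw [show (fun z => f z i) = dc i ∘ f from rfl,
    ((dc i).hasFDerivAt.comp x hf.hasFDerivAt).fderiv]
  rfl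

namespace HD

variable {d : HD}

theorem N3_f_b (z : E6) :
    d.b (d.nuF z) = d.b d.μ₁ + (normSq (cc 2 z) - normSq (cc 0 z)) * d.v 0 1 := by
  rw [← b_add, nuF, add_sub_assoc]

theorem N3_f_sm (d : HD) : ContDiff ℝ ∞ (d.lam .f) := by
  have h : ContDiff ℝ ∞ fun z => d.b (d.nuF z) / 2 := by
    simp only [N3_f_b]
    exact contDiff_iff_contDiffAt.2 fun z => by fun_prop
  refine ((contDiff_rot1 0).add (contDiff_rot1 2)).add (h.smul ?_)
  fun_prop

theorem N3_f_pb {f : E6 → E6} {x : E6} (hf : DifferentiableAt ℝ f x) (v : E6) :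
    pb1 f (d.lam .f) x v = ang (fun z => cc 0 (f z)) x v + ang (fun z => cc 2 (f z)) x v +
      d.b (d.nuF (f x)) / 2 * (f x (1, 0) * fderiv ℝ (fun z => f z (1, 1)) x v -
        f x (1, 1) * fderiv ℝ (fun z => f z (1, 0)) x v) := by
  rw [← pb1_rot1 0 hf, ← pb1_rot1 2 hf, ← N3_f_coord hf, ← N3_f_coord hf]
  rfl

theorem N3_f_Df (s t : ℝ) (z : E6) : pb (d.Df s t) (d1 (d.lam .f)) z = d1 (d.lam .f) z := by
  have h1 : ∀ z, ContDiffAt ℝ ∞ (d.Df s t) z := fun z => by unfold Df psi; fun_prop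
  refine symp_of' (c := fun _ => (d.b d.μ₁ / 2) • (s • dc (1, 1) - t • dc (1, 0))) (h1 z)
    d.N3_f_sm.contDiffAt d.N3_f_sm.contDiffAt contDiffAt_const (d1_const _)
    (Eventually.of_forall fun x => ?_)
  have hψ : HasFDerivAt (d.psi s t)
      (((d.v 0 1 : ℝ) / 2) • (s • dc (1, 1) - t • dc (1, 0))) x := by
    have : d.psi s t = (((d.v 0 1 : ℝ) / 2) • (s • dc (1, 1) - t • dc (1, 0)) : E6 →L[ℝ] ℝ) := by
      funext y
      simp [psi, dc_apply]
      ring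
    rw [this]
    exact ContinuousLinearMap.hasFDerivAt _
  have hc : ∀ i, DifferentiableAt ℝ (cc i) x := fun i => (contDiff_cc i).differentiable (by simp) _
  have he : ∀ {r : E6 → ℝ}, DifferentiableAt ℝ r x → DifferentiableAt ℝ (fun y => ee (r y)) x :=
    fun hr => (hasDerivAt_ee _).differentiableAt.comp x hr
  have e0 : fderiv ℝ (fun y => d.Df s t y (1, 0)) x = dc (1, 0) :=
    ((dc (1, 0)).hasFDerivAt.add_const s).fderiv
  have e1 : fderiv ℝ (fun y => d.Df s t y (1, 1)) x = dc (1, 1) :=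
    ((dc (1, 1)).hasFDerivAt.add_const t).fderiv
  ext v : 1
  rw [N3_f_pb ((h1 x).differentiableAt (by simp)), e0, e1, N3_f_b]
  simp only [Df, cc_mkc0, cc_mkc2, map_mul, normSq_ee, mul_one]
  rw [ang_mul (hc 0) (he hψ.differentiableAt), ang_mul (hc 2) (he hψ.differentiableAt.fun_neg),
    ang_ee hψ.differentiableAt, ang_ee hψ.differentiableAt.fun_neg, hψ.fderiv, hψ.fun_neg.fderiv,
    ang_cc, ang_cc]
  simp only [lam, N3_f_b, normSq_ee, one_smul, add_apply,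
    smul_apply, sub_apply, neg_apply,
    smul_eq_mul, mkc_10, mkc_11, add_re, add_im, cc_re, cc_im]
  ring

theorem N3_f_iof (z : E6) : pb iof (d1 (d.lam .f)) z = d1 (d.lam .f) z := by
  have h1 : ∀ z, ContDiffAt ℝ ∞ iof z := fun z => by unfold iof; fun_prop
  rw [pb_d1 (h1 z) d.N3_f_sm.contDiffAt]
  refine d1_congr (Eventually.of_forall fun x => ?_)
  have e0 : fderiv ℝ (fun y => iof y (1, 0)) x = -dc (1, 0) := (dc (1, 0)).hasFDerivAt.neg.fderiv
  have e1 : fderiv ℝ (fun y => iof y (1, 1)) x = -dc (1, 1) := (dc (1, 1)).hasFDerivAt.neg.fderiv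
  ext v : 1
  rw [N3_f_pb ((h1 x).differentiableAt (by simp)), e0, e1, N3_f_b]
  simp only [iof, cc_mkc0, cc_mkc2, normSq_neg]
  rw [ang_neg, ang_cc, ang_cc]
  simp only [lam, N3_f_b, add_apply,
    smul_apply, sub_apply, neg_apply,
    smul_eq_mul, mkc_10, mkc_11, neg_re, neg_im, cc_re, cc_im]
  ring

theorem N3_f_gf (γ : ℤ × ℤ × Bool) (z : E6) :
    pb (d.gf γ) (d1 (d.lam .f)) z = d1 (d.lam .f) z := by
  obtain ⟨s, t, _ | _⟩ := γ
  · exact N3_f_Df s t z
  · have h1 : ∀ z, ContDiffAt ℝ ∞ (d.Df s t) z := fun z => by unfold Df psi; fun_prop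
    have h2 : ContDiffAt ℝ ∞ iof z := by unfold iof; fun_prop
    refine (pb_comp _ (h2.differentiableAt (by simp)) ((h1 _).differentiableAt (by simp))).trans ?_
    rw [funext (N3_f_Df s t), N3_f_iof]

end HD

end Pool.Agent.Work.MP_bf98aa_gt.B3
end

-- merged part: Pool.Agent.Work.MP_bf98aa_gt.B3.N3p
section
/-!
Invariance of the symplectic form on the chart above the kink.
-/

set_option autoImplicit false

open scoped Manifold ContDiff Topology Matrix ComplexConjugate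
open Set Complex Filter

namespace Pool.Agent.Work.MP_bf98aa_gt.B3

open Pool.Agent.Work.MP_bf98aa_gt.Th Pool.Agent.Work.MP_bf98aa_gt.Cy

theorem N3_p_fd {F : Type} [NormedAddCommGroup F] [NormedSpace ℝ F] {f : E6 → F} {z w : E6} {u : F}
    (hf : DifferentiableAt ℝ f z) (h : ∀ s : ℝ, f (z + s • w) = f z + s • u) :
    fderiv ℝ f z w = u := by
  rw [← hf.lineDeriv_eq_fderiv]
  refine HasLineDerivAt.lineDeriv ?_
  simp only [HasLineDerivAt, h]
  simpa using ((hasDerivAt_id (0 : ℝ)).smul_const u).const_add (f z)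

theorem N3_p_xv (z w : E6) (s : ℝ) : xv (z + s • w) = xv z + s • xv w := by
  funext i; fin_cases i <;> rfl

theorem N3_p_const (l : F1) (a : E6 →L[ℝ] ℝ) (z : E6) : d1 (fun y => l y + a) z = d1 l z := by
  simp only [d1, extDeriv, alt1, map_add, fderiv_add_const]

namespace HD

variable {d : HD} {z y : E6}

theorem N3_p_tt : ContinuousAt d.tt z := (contDiff_tt (d := d)).continuous.continuousAt

theorem Ok.N3_p_c (h : d.Ok) (hz : z ∈ d.Wo .p) :
    (d.tt z - shf (d.tt z) - d.a0 z) / normSq (d.gz z) * normSq (d.gz z) =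
      d.tt z - shf (d.tt z) - d.a0 z := by
  by_cases h0 : d.gz z = 0
  · have := h.al_one (q := d.qr z) hz.1 (by
      rw [h.gz_qr.1 h0, mul_zero]
      exact mul_nonneg (zero_le_one.trans h.M12.1) hz.1.le)
    rw [h0, map_zero, mul_zero, a0]
    linarith
  · exact div_mul_cancel₀ _ (normSq_pos.2 h0).ne'

theorem Ok.N3_p_Dp (h : d.Ok) (l : L4) (n : ℤ) (hz : z ∈ d.Wo .p) :
    pb (d.Dp l n) (d1 (d.lam .p)) z = d1 (d.lam .p) z := by
  have hs : ContDiff ℝ ∞ (d.Dp l n) := (grp_p d).sm (l, n, false)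
  have hd : ∀ y, DifferentiableAt ℝ (d.Dp l n) y := fun y => hs.differentiable (by simp) y
  have hg : ∀ y, DifferentiableAt ℝ d.gz y := fun y => h.contDiff_gz.differentiable (by simp) y
  refine symp_of' (c := fun _ => (1 / 2 : ℝ) • lf (rv l ᵥ* d.Om0 d.μ₁)) hs.contDiffAt
    (h.lam_sm ((gp_mem (l, n, false)).2 hz)) (h.lam_sm hz) contDiffAt_const (d1_const _) ?_
  filter_upwards [(h.isOpen_Wo .p).mem_nhds hz] with y hy
  have hθ : ContDiffAt ℝ ∞ (fun y : E6 => ((l 2 : ℝ) + l 3) / 2 + l 2 * y (1, 1)) y := by fun_prop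
  have e1 : ∀ y, d.gz (d.Dp l n y) = ee ((l 2 + l 3) / 2 + l 2 * y (1, 1)) * d.gz y ∧
      d.qr (d.Dp l n y) = d.qr y := fun y => h.gz_shift (xv_mk4 _ _ _)
  have e2 := pb1_ang (hd y) (hg _)
  rw [funext fun y => (e1 y).1,
    ang_mul ((contDiffAt_ee hθ).differentiableAt (by simp)) (hg y), normSq_ee,
    ang_ee (hθ.differentiableAt (by simp))] at e2
  ext w
  have e3 : fderiv ℝ (d.Dp l n) y w =
      mk4 (xv w) (w (2, 0)) (w (2, 1) - bf (rm (d.v - E23)) (rv l) (xv w) / 2) :=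
    N3_p_fd (hd y) fun s => ext4 (by simp [Dp, N3_p_xv, add_right_comm]) rfl (by
      simp [Dp, N3_p_xv, bf_add_right, bf_smul_right]; ring)
  have e4 : fderiv ℝ (fun y : E6 => ((l 2 : ℝ) + l 3) / 2 + l 2 * y (1, 1)) y w = l 2 * w (1, 1) :=
    N3_p_fd (hθ.differentiableAt (by simp)) fun s => by simp; ring
  have e5 := congrArg (fun a : E6 →L[ℝ] ℝ => a w) e2
  have e6 : d.a0 (d.Dp l n y) = d.a0 y := by rw [a0, (e1 y).2]; rfl
  have e7 : d.tt (d.Dp l n y) = d.tt y := rfl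
  have e8 : d.Om0 (y (2, 0)) = d.Om0 d.μ₁ + d.tt y • rm d.v := by
    rw [← Om0_add, tt, add_sub_cancel]
  have e9 := h.N3_p_c hy
  simp only [pb1_apply, add_apply, smul_apply, e4,
    smul_eq_mul] at e5
  simp only [pb1_apply, lam, add_apply, sub_apply,
    smul_apply, smul_eq_mul, e5, e6, e7, (e1 y).1, map_mul, normSq_ee, lf_bf,
    dc_apply]
  simp only [e3, Dp, xv_mk4, mk4_20, mk4_21, mk4_10, mk4_11, e8, bf_add, bf_smul, bf_add_left,
    rm_sub, bf_sub, bf_E23, Pi.add_apply, rv_apply, xv_2, xv_3, round_add_intCast, Int.cast_add,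
    one_mul]
  linear_combination (-(l 2 : ℝ) * w (1, 1)) * e9

theorem Ok.N3_p_iop (h : d.Ok) (hz : z ∈ d.Wo .p) :
    pb iop (d1 (d.lam .p)) z = d1 (d.lam .p) z := by
  have hs : ∀ y, ContDiffAt ℝ ∞ iop y := fun y => by unfold iop; fun_prop
  have hd : ∀ y, DifferentiableAt ℝ iop y := fun y => (hs y).differentiableAt (by simp)
  refine symp_of' (c := fun _ => 0) (hs z) (h.lam_sm (z := iop z) hz) (h.lam_sm hz)
    contDiffAt_const (d1_const _) (Eventually.of_forall fun y => ?_)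
  have e1 : ∀ y, d.gz (iop y) = -d.gz y ∧ d.qr (iop y) = d.qr y :=
    fun y => h.gz_neg (xv_mk4 _ _ _)
  have e2 := pb1_ang (hd y) (h.contDiff_gz.differentiable (by simp) _)
  rw [funext fun y => (e1 y).1, ang_neg] at e2
  ext w
  have e3 : fderiv ℝ iop y w = mk4 (-xv w) (w (2, 0)) (w (2, 1)) :=
    N3_p_fd (hd y) fun s => ext4 (by simp [iop, N3_p_xv, add_comm]) rfl (by simp [iop]; ring)
  have e5 := congrArg (fun a : E6 →L[ℝ] ℝ => a w) e2
  have e6 : d.a0 (iop y) = d.a0 y := by rw [a0, (e1 y).2]; rfl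
  have e7 : d.tt (iop y) = d.tt y := rfl
  have e9 : d.a0 y * round (-y (1, 0)) = -(d.a0 y * round (y (1, 0))) := by
    by_cases h0 : d.a0 y = 0
    · simp [h0]
    · rw [(rd_neg ((h.a0_supp h0).1.trans_lt (by norm_num))).2, Int.cast_neg, mul_neg]
  simp only [pb1_apply] at e5
  simp only [pb1_apply, lam, add_apply, sub_apply,
    smul_apply, smul_eq_mul, e5, e6, e7, (e1 y).1, normSq_neg, lf_bf,
    dc_apply, add_zero]
  simp only [e3, iop, xv_mk4, mk4_20, mk4_21, mk4_10, mk4_11, bf_neg_left, bf_neg_right,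
    Pi.neg_apply, xv_2, xv_3, e9]
  ring

theorem Ok.N3_p_gp (h : d.Ok) (γ : L4 × ℤ × Bool) (hz : z ∈ d.Wo .p) :
    pb (d.gp γ) (d1 (d.lam .p)) z = d1 (d.lam .p) z := by
  obtain ⟨l, n, _ | _⟩ := γ
  · exact h.N3_p_Dp l n hz
  · have hs : ContDiffAt ℝ ∞ iop z := by unfold iop; fun_prop
    refine (pb_comp (f := iop) (g := d.Dp l n) _ (hs.differentiableAt (by simp))
      (((grp_p d).sm (l, n, false)).differentiable (by simp) _)).trans ?_
    rw [pb, h.N3_p_Dp l n (z := iop z) hz]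
    exact h.N3_p_iop hz

theorem Ok.N3_p_mid (h : d.Ok) (hz : 1 / 2 < d.tt z) :
    d1 (d.lam .p) z = d1 (lamO d.Om) z := by
  rw [← N3_p_const (d.lam .p) (d.μ₁ • dc (2, 1))]
  refine d1_congr ?_
  filter_upwards [N3_p_tt.eventually (lt_mem_nhds hz)] with y hy
  have e1 : d.a0 y = 0 := al_high hy.le
  have e2 : d.Om (y (2, 0)) = d.Om0 (y (2, 0)) - d.tt y • rm E23 := by
    rw [d.Om_up (ν := y (2, 0)) (by have := h.hμ; rw [tt] at hy; linarith)]
    exact congrArg (fun r => _ - r • rm E23) (shf_high hy.le)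
  ext w
  simp only [lam, lamO, add_apply, sub_apply,
    smul_apply, smul_eq_mul, e1, e2, shf_high hy.le, lf_bf, dc_apply, bf_sub,
    bf_smul, bf_E23, xv_2, xv_3, sub_self, zero_div]
  rw [tt]
  ring

end HD

end Pool.Agent.Work.MP_bf98aa_gt.B3
end
end

-- merged part: Pool.Agent.Work.MP_bf98aa_gt.B3.N3m
section
/-!
The group of the chart `m` preserves the symplectic form.
-/

set_option autoImplicit false

open scoped Manifold ContDiff Topology Matrix ComplexConjugate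
open Set Complex Filter

namespace Pool.Agent.Work.MP_bf98aa_gt.B3

open Pool.Agent.Work.MP_bf98aa_gt.Th Pool.Agent.Work.MP_bf98aa_gt.Cy

theorem N3_m_fd {f : E6 → E6} {z v w : E6} (hf : DifferentiableAt ℝ f z)
    (h : ∀ t : ℝ, f (z + t • v) = f z + t • w) : fderiv ℝ f z v = w := by
  have h1 : HasDerivAt (fun t : ℝ => f (z + t • v)) (fderiv ℝ f z v) 0 :=
    hf.hasFDerivAt.hasLineDerivAt v
  rw [funext h] at h1
  simpa using h1.unique (((hasDerivAt_id (0 : ℝ)).smul_const w).const_add (f z))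

theorem N3_m_xv (z v : E6) (t : ℝ) : xv (z + t • v) = xv z + t • xv v := by
  funext i; fin_cases i <;> rfl

theorem N3_m_comp {f g : E6 → E6} {α : Fm E6 2} {x : E6} (hf : DifferentiableAt ℝ f x)
    (hg : DifferentiableAt ℝ g (f x)) (h1 : pb f α x = α x) (h2 : pb g α (f x) = α (f x)) :
    pb (fun a => g (f a)) α x = α x := by
  rw [pb_comp α hf hg, pb_congr' h2, h1]

theorem N3_m_d1c (l : F1) (c : E6 →L[ℝ] ℝ) (x : E6) : d1 (fun z => l z + c) x = d1 l x := by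
  have : (fun z => alt1 (l z + c)) = fun z => alt1 (l z) + alt1 c := by
    funext z; ext v; simp [alt1_apply]
  simp only [d1, extDeriv, this, fderiv_add_const]

namespace HD

variable {d : HD} {z y : E6}

theorem N3_m_Dsm (l : L4) (n : ℤ) (z : E6) : ContDiffAt ℝ ∞ (d.Dm l n) z :=
  (N1_m_sm (d := d) (l, n, false, false)).contDiffAt

theorem N3_m_Ism (z : E6) : ContDiffAt ℝ ∞ io z := by
  have e : ∀ i, ContDiff ℝ ∞ fun z : E6 => z i := fun i => contDiff_apply ℝ ℝ i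
  unfold io
  fun_prop

theorem N3_m_Ksm (z : E6) : ContDiffAt ℝ ∞ d.ka z := by
  have e : ∀ i, ContDiff ℝ ∞ fun z : E6 => z i := fun i => contDiff_apply ℝ ℝ i
  unfold ka
  fun_prop

theorem N3_m_fD (l : L4) (n : ℤ) (z v : E6) : fderiv ℝ (d.Dm l n) z v =
    mk4 (xv v) (v (2, 0)) (v (2, 1) - bf (rm d.v) (rv l) (xv v) / 2) := by
  refine N3_m_fd ((N3_m_Dsm l n z).differentiableAt (by simp)) fun t => ext4 ?_ rfl ?_
  · simp only [Dm, xv_mk4, N3_m_xv]
    abel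
  · simp only [Dm, xv_mk4, N3_m_xv, mk4_21, Pi.add_apply, Pi.smul_apply, smul_eq_mul, bf_add_right,
      bf_smul_right]
    ring

theorem N3_m_fI (z v : E6) : fderiv ℝ io z v = mk4 (-xv v) (v (2, 0)) (v (2, 1)) := by
  refine N3_m_fd ((N3_m_Ism z).differentiableAt (by simp)) fun t => ext4 ?_ rfl rfl
  simp only [io, xv_mk4, N3_m_xv]
  module

theorem N3_m_fK (z v : E6) : fderiv ℝ d.ka z v =
    mk4 (rm d.T *ᵥ xv v) (-v (2, 0)) (-v (2, 1) - bf (rm d.v) (rv d.c) (xv v) / 4) := by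
  refine N3_m_fd ((N3_m_Ksm z).differentiableAt (by simp)) fun t => ext4 ?_ ?_ ?_
  · simp only [ka, xv_mk4, N3_m_xv, Matrix.mulVec_add, Matrix.mulVec_smul]
    abel
  · simp only [ka, mk4_20, Pi.add_apply, Pi.smul_apply, smul_eq_mul]
    ring
  · simp only [ka, xv_mk4, N3_m_xv, mk4_21, Pi.add_apply, Pi.smul_apply, smul_eq_mul, bf_add_right,
      bf_smul_right]
    ring

theorem N3_m_lam (z v : E6) : d.lam .m z v = d.tt z * v (2, 1) +
    bf (d.Om0 (z (2, 0))) (xv z) (xv v) / 2 + d.a0 z / (2 * Real.pi * d.qr z) *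
      (rd (z (1, 0)) * v (1, 1) - rd (z (1, 1)) * v (1, 0)) := by
  simp only [lam, add_apply, smul_apply, sub_apply, smul_eq_mul, dc_apply, lf_bf]
  ring

theorem Ok.N3_m_Dm (h : d.Ok) (l : L4) (n : ℤ) (hz : z ∈ d.Wo .m) :
    pb (d.Dm l n) (d1 (d.lam .m)) z = d1 (d.lam .m) z := by
  refine symp_of' (c := fun _ => (1 / 2 : ℝ) • lf (rv l ᵥ* d.Om0 d.μ₁)) (N3_m_Dsm l n z)
    (h.lam_sm (h.gm_mem (l, n, false, false) hz nofun)) (h.lam_sm hz) contDiffAt_const
    (d1_const _) (Eventually.of_forall fun y => ?_)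
  ext v : 1
  have e1 : d.qr (d.Dm l n y) = d.qr y := (h.gz_shift (xv_mk4 _ _ _)).2
  have e2 : d.tt (d.Dm l n y) = d.tt y := rfl
  have e3 : d.Om0 (y (2, 0)) = d.Om0 d.μ₁ + d.tt y • rm d.v := by
    rw [← Om0_add, tt, add_sub_cancel]
  rw [pb1_apply, N3_m_fD, add_apply, N3_m_lam, N3_m_lam, a0, a0, e1, e2]
  simp only [Dm, xv_mk4, mk4_20, mk4_21, mk4_10, mk4_11, Pi.add_apply, xv_2, xv_3, rv_apply,
    rd_add_int, smul_apply, smul_eq_mul, lf_bf, bf_add_left, e3, bf_add, bf_smul]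
  ring

theorem Ok.N3_m_Imem (h : d.Ok) (hz : z ∈ d.Wo .m) : io z ∈ d.Wo .m :=
  Dm_zero (d := d) (io z) ▸ h.gm_mem (0, 0, false, true) hz nofun

theorem Ok.N3_m_io (h : d.Ok) (hz : z ∈ d.Wo .m) :
    pb io (d1 (d.lam .m)) z = d1 (d.lam .m) z := by
  refine symp_of' (c := fun _ => 0) (N3_m_Ism z) (h.lam_sm (h.N3_m_Imem hz)) (h.lam_sm hz)
    contDiffAt_const (d1_const _) (Eventually.of_forall fun y => ?_)
  ext v : 1
  have e1 : d.qr (io y) = d.qr y := (h.gz_neg (xv_mk4 _ _ _)).2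
  have e2 : d.a0 (io y) = d.a0 y := by rw [a0, a0, e1]; rfl
  have e3 : d.tt (io y) = d.tt y := rfl
  rw [pb1_apply, N3_m_fI, add_zero, N3_m_lam, N3_m_lam, e1, e2, e3]
  simp only [io, xv_mk4, mk4_20, mk4_21, mk4_10, mk4_11, Pi.neg_apply, xv_2, xv_3, bf_neg_left,
    bf_neg_right, neg_neg]
  by_cases h0 : d.a0 y = 0
  · simp [h0]
  · obtain ⟨h1, h2⟩ := h.a0_supp h0
    rw [(rd_neg (h1.trans_lt (by norm_num))).1, (rd_neg (h2.trans_lt (by norm_num))).1]
    ring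

theorem Ok.N3_m_low (h : d.Ok) (hz : |z (2, 0)| < 1 / 8) : z ∈ d.Wo .m ∧ d.tt z < 0 := by
  have h1 := abs_lt.1 hz
  have h2 : d.tt z < 0 := by rw [tt]; linarith [h.hμ]
  exact ⟨⟨by linarith, by linarith, Or.inr h2⟩, h2⟩

theorem Ok.N3_m_ka (h : d.Ok) (hz : |z (2, 0)| < 1 / 8) :
    pb d.ka (d1 (d.lam .m)) z = d1 (d.lam .m) z := by
  have hk : ∀ {y : E6}, |y (2, 0)| < 1 / 8 → |d.ka y (2, 0)| < 1 / 8 := fun hy => by
    rwa [N1_m_K0, abs_neg]
  refine symp_of'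
    (c := fun _ => (2 * d.μ₁) • dc (2, 1) - (1 / 4 : ℝ) • lf (rv d.c ᵥ* d.Om0 (-d.μ₁)))
    (N3_m_Ksm z) (h.lam_sm (h.N3_m_low (hk hz)).1) (h.lam_sm (h.N3_m_low hz).1)
    contDiffAt_const (d1_const _) ?_
  filter_upwards [(isOpen_lt (continuous_apply (2, 0)).abs continuous_const).mem_nhds hz] with y hy
  ext v : 1
  have e1 : d.a0 y = 0 := al_neg (h.N3_m_low hy).2.le
  have e2 : d.a0 (d.ka y) = 0 := al_neg (h.N3_m_low (hk hy)).2.le
  have e3 : ∀ a b, bf (d.Om0 (-y (2, 0))) (rm d.T *ᵥ a) (rm d.T *ᵥ b) =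
      bf (d.Om0 (y (2, 0))) a b := fun a b => by rw [← bf_pull, ← h.Om0_neg, neg_neg]
  have e4 := e3 (rv d.c) (xv v)
  have e5 : d.Om0 (y (2, 0)) = d.Om0 (-d.μ₁) + (y (2, 0) + d.μ₁) • rm d.v := by
    rw [← Om0_add]; congr 1; ring
  rw [h.N1_m_c, bf_neg_left, e5, bf_add, bf_smul] at e4
  rw [pb1_apply, N3_m_fK, add_apply, N3_m_lam, N3_m_lam, e1, e2]
  simp only [tt, ka, xv_mk4, mk4_20, mk4_21, sub_apply, smul_apply, smul_eq_mul, lf_bf, dc_apply,
    bf_add_left, bf_smul_left, e3, zero_div, zero_mul]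
  linear_combination -e4 / 4

theorem Ok.N3_m_gm (h : d.Ok) (γ : L4 × ℤ × Bool × Bool) (hz : z ∈ d.Wo .m)
    (hγ : d.gm γ z ∈ d.Wo .m) : pb (d.gm γ) (d1 (d.lam .m)) z = d1 (d.lam .m) z := by
  have hk := h.gm_ka hz hγ
  obtain ⟨l, n, k, i⟩ := γ
  have dD : ∀ z, DifferentiableAt ℝ (d.Dm l n) z := fun z =>
    (N3_m_Dsm l n z).differentiableAt (by simp)
  have dI : ∀ z, DifferentiableAt ℝ io z := fun z => (N3_m_Ism z).differentiableAt (by simp)
  have dK : ∀ z, DifferentiableAt ℝ d.ka z := fun z => (N3_m_Ksm z).differentiableAt (by simp)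
  have hK : ∀ {y : E6}, |y (2, 0)| < 1 / 8 →
      pb (fun a => d.Dm l n (d.ka a)) (d1 (d.lam .m)) y = d1 (d.lam .m) y := fun hy =>
    N3_m_comp (dK _) (dD _) (h.N3_m_ka hy)
      (h.N3_m_Dm l n (h.N3_m_low (by rwa [N1_m_K0, abs_neg])).1)
  cases k <;> cases i
  · exact h.N3_m_Dm l n hz
  · exact N3_m_comp (f := io) (dI _) (dD _) (h.N3_m_io hz) (h.N3_m_Dm l n (h.N3_m_Imem hz))
  · exact hK (hk rfl)
  · exact N3_m_comp (g := fun a => d.Dm l n (d.ka a)) (dI _) ((dD _).comp _ (dK _)) (h.N3_m_io hz)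
      (hK (hk rfl))

theorem N3_m_flat (hz : d.tt z < 0) (hz' : -d.μ₁ < z (2, 0)) :
    d1 (d.lam .m) z = d1 (lamO d.Om) z := by
  rw [← N3_m_d1c (lamO d.Om) (-d.μ₁ • dc (2, 1))]
  refine d1_congr ?_
  filter_upwards [(isOpen_lt contDiff_tt.continuous continuous_const).mem_nhds hz,
    (isOpen_lt continuous_const (continuous_apply (2, 0))).mem_nhds hz'] with y h1 h2
  have h3 : y (2, 0) - d.μ₁ < 0 := h1
  have h4 : -d.μ₁ < y (2, 0) := h2
  rw [lam, lamO, show d.a0 y = 0 from al_neg h1.le, d.Om_mid (by linarith) (by linarith), tt]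
  module

end HD

end Pool.Agent.Work.MP_bf98aa_gt.B3
end
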