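import Pool.Agent.Work.MP_bf98aa_gt.B3.N3m
import Pool.Agent.Work.MP_bf98aa_gt.B3.FD

-- merged part: Pool.Agent.Work.MP_bf98aa_gt.B3.N3n
section
/-!
Nondegeneracy of the forms on the neck.
-/

set_option autoImplicit false

open scoped Manifold ContDiff Topology Matrix ComplexConjugate
open Set Complex Filter

namespace Pool.Agent.Work.MP_bf98aa_gt.B3

open Pool.Agent.Work.MP_bf98aa_gt.Th Pool.Agent.Work.MP_bf98aa_gt.Cy

theorem N3_n_level {w : Alt E6 2} {Ω : M4} (h0 : ∀ a : V4, (∀ b, bf Ω a b = 0) → a = 0)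
    (h1 : ∀ u, w ![u, bv (2, 1)] = u (2, 0))
    (h2 : ∀ u v : E6, u (2, 0) = 0 → v (2, 0) = 0 → w ![u, v] = bf Ω (xv u) (xv v)) : ND w := by
  intro u hu
  have a1 : u (2, 0) = 0 := (h1 u).symm.trans (hu _)
  have a2 : xv u = 0 := h0 _ fun b => by rw [← xv_mk4 b 0 0, ← h2 u _ a1 rfl, hu]
  have a3 : u = u (2, 1) • bv (2, 1) := by
    refine ext4 (a2.trans ?_) (a1.trans ?_) ?_
    · funext i; fin_cases i <;> simp [bv]
    · simp [bv]
    · simp [bv]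
  have a4 := hu (bv (2, 0))
  obtain ⟨B, hB⟩ := exists_bilin w
  have a5 := h1 (bv (2, 0))
  rw [alt2_swap, hB] at a5
  rw [hB, a3, map_smul, smul_apply, neg_eq_iff_eq_neg.1 a5] at a4
  rw [a3, show u (2, 1) = 0 by simpa [bv] using a4, zero_smul]

variable {z u : E6} {f : E6 → ℝ} {ρ ρ' θ : F1} {r r' a b c : ℝ}

theorem N3_n_line (hf : ContDiffAt ℝ ∞ f z) (h : HasDerivAt (fun s : ℝ => f (z + s • u)) a 0) :
    fderiv ℝ f z u = a :=
  (hf.differentiableAt (by simp)).lineDeriv_eq_fderiv.symm.trans (HasLineDerivAt.lineDeriv h)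

theorem N3_n_poly (hf : ContDiffAt ℝ ∞ f z)
    (h : ∀ s : ℝ, f (z + s • u) = a + s * b + s ^ 2 * c) : fderiv ℝ f z u = b := by
  refine N3_n_line hf ?_
  rw [funext h]
  simpa using (((hasDerivAt_id' (0 : ℝ)).mul_const b).const_add a).fun_add
    ((hasDerivAt_pow 2 (0 : ℝ)).mul_const c)

/-- The derivative of `ρ` is basic and equal to `r dx₂ dx₃` on the level. -/
structure N3_n_P (z : E6) (ρ : F1) (r : ℝ) : Prop where
  sm : ContDiffAt ℝ ∞ ρ z
  bas : ∀ u, d1 ρ z ![u, bv (2, 1)] = 0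
  lev : ∀ u v : E6, u (2, 0) = 0 → v (2, 0) = 0 →
    d1 ρ z ![u, v] = r * (u (1, 0) * v (1, 1) - u (1, 1) * v (1, 0))

theorem N3_n_P.add (h : N3_n_P z ρ r) (h' : N3_n_P z ρ' r') :
    N3_n_P z (fun y => ρ y + ρ' y) (r + r') :=
  ⟨h.sm.add h'.sm, fun u => by
    rw [d1_add h.sm h'.sm, ContinuousAlternatingMap.add_apply, h.bas, h'.bas, add_zero],
    fun u v hu hv => by
    rw [d1_add h.sm h'.sm, ContinuousAlternatingMap.add_apply, h.lev u v hu hv, h'.lev u v hu hv,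
      add_mul]⟩

theorem N3_n_P.congr (h : N3_n_P z ρ r) (e : ρ' =ᶠ[𝓝 z] ρ) : N3_n_P z ρ' r :=
  ⟨h.sm.congr_of_eventuallyEq e, d1_congr e ▸ h.bas, d1_congr e ▸ h.lev⟩

theorem N3_n_zero : N3_n_P z (fun _ => 0) 0 :=
  ⟨contDiffAt_const, fun u => by rw [d1_const]; rfl, fun u v _ _ => by rw [d1_const, zero_mul]; rfl⟩

theorem N3_n_smul (hf : ContDiffAt ℝ ∞ f z) (hθ : ContDiffAt ℝ ∞ θ z) (h0 : d1 θ z = 0)
    (h1 : θ z (bv (2, 1)) = 0)
    (h2 : ∀ u : E6, u (2, 0) = 0 → fderiv ℝ f z u = a * u (1, 0) + b * u (1, 1))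
    (h3 : ∀ u v : E6, (a * u (1, 0) + b * u (1, 1)) * θ z v - (a * v (1, 0) + b * v (1, 1)) * θ z u =
      r * (u (1, 0) * v (1, 1) - u (1, 1) * v (1, 0))) : N3_n_P z (fun y => f y • θ y) r := by
  refine ⟨hf.smul hθ, fun u => ?_, fun u v hu hv => ?_⟩ <;>
    rw [d1_smul hf hθ, h0, smul_zero, add_zero, wedge_apply, Matrix.cons_val_zero,
      Matrix.cons_val_one, Matrix.cons_val_zero]
  · rw [h1, h2 (bv (2, 1)) (by simp [bv])]
    simp [bv]
  · rw [h2 u hu, h2 v hv, h3]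

theorem N3_n_c1 (hf : ContDiffAt ℝ ∞ f z)
    (h2 : ∀ u : E6, u (2, 0) = 0 → fderiv ℝ f z u = a * u (1, 0) + b * u (1, 1)) :
    N3_n_P z (fun y => f y • dc (1, 1)) a :=
  N3_n_smul hf contDiffAt_const (d1_const _) (by simp [dc_apply, bv]) h2 fun u v => by
    simp only [dc_apply]; ring

theorem N3_n_c0 (hf : ContDiffAt ℝ ∞ f z)
    (h2 : ∀ u : E6, u (2, 0) = 0 → fderiv ℝ f z u = a * u (1, 0) + b * u (1, 1)) :
    N3_n_P z (fun y => f y • dc (1, 0)) (-b) :=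
  N3_n_smul hf contDiffAt_const (d1_const _) (by simp [dc_apply, bv]) h2 fun u v => by
    simp only [dc_apply]; ring

theorem N3_n_xv (z u : E6) (s : ℝ) : xv (z + s • u) = xv z + s • xv u := by
  funext i; fin_cases i <;> rfl

namespace HD

variable {d : HD}

theorem N3_n_nd {l : F1} (he : ∀ᶠ y in 𝓝 z, l y =
      d.tt y • dc (2, 1) + (1 / 2 : ℝ) • lf (xv y ᵥ* d.Om0 (y (2, 0))) + ρ y) (hρ : N3_n_P z ρ r)
    (h0 : ∀ a : V4, (∀ b, bf (d.Om0 (z (2, 0)) - (-r) • rm E23) a b = 0) → a = 0) :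
    ND (d1 l z) := by
  obtain ⟨m, hm⟩ : ∃ m : F1, m = fun y =>
    d.tt y • dc (2, 1) + (1 / 2 : ℝ) • lf (xv y ᵥ* d.Om0 (y (2, 0))) := ⟨_, rfl⟩
  have e : ∀ y v, m y v = d.tt y * v (2, 1) + 1 / 2 * (bf (d.Om0 (z (2, 0))) (xv y) (xv v) +
      (y (2, 0) - z (2, 0)) * bf (rm d.v) (xv y) (xv v)) := fun y v => by
    rw [← bf_smul, ← bf_add, ← Om0_add, add_sub_cancel, ← lf_bf, hm]
    rfl
  have s1 : ∀ v, ContDiff ℝ ∞ fun y => m y v := fun v => contDiff_iff_contDiffAt.2 fun y => by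
    have := (contDiff_tt (d := d)).contDiffAt (x := y)
    simp only [e]
    fun_prop
  have s2 : ContDiffAt ℝ ∞ m z := (contDiff_clm_apply_iff.2 s1).contDiffAt
  have e2 : ∀ u v, fderiv ℝ (fun y => m y v) z u = u (2, 0) * v (2, 1) +
      1 / 2 * (bf (d.Om0 (z (2, 0))) (xv u) (xv v) + u (2, 0) * bf (rm d.v) (xv z) (xv v)) :=
    fun u v => N3_n_poly (a := m z v) (c := 1 / 2 * (u (2, 0) * bf (rm d.v) (xv u) (xv v)))
      (s1 v).contDiffAt fun s => by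
        simp only [e, tt, N3_n_xv, bf_add_left, bf_smul_left, Pi.add_apply, Pi.smul_apply,
          smul_eq_mul]
        ring
  have x0 : xv (bv (2, 1)) = 0 := by funext i; fin_cases i <;> simp [bv]
  rw [d1_congr (l' := fun y => m y + ρ y) (hm ▸ he), d1_add s2 hρ.sm]
  refine N3_n_level h0 (fun u => ?_) fun u v hu hv => ?_ <;>
    rw [ContinuousAlternatingMap.add_apply, d1_apply' s2, e2, e2]
  · rw [hρ.bas, x0]
    simp [bv, bf_zero_left, bf_zero_right]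
  · rw [hρ.lev u v hu hv, hu, hv, bf_sub, bf_smul, bf_E23, bf_skew (xv v) _ (d.Om0_skew _)]
    simp only [xv_2, xv_3]
    ring

theorem Ok.N3_n_pf (h : d.Ok) {μ : ℝ} (h1 : d.μ₁ - 1 / 4 ≤ μ) (h2 : μ ≤ d.M + 1 / 8)
    (hr : 0 < d.c₀ + Real.pi * r) (a : V4)
    (ha : ∀ b, bf (d.Om0 μ - (-r) • rm E23) a b = 0) : a = 0 := by
  obtain ⟨b1, b2⟩ := h.b5 μ h1 h2
  refine inj_pf4 ?_ (fun e => ?_) ha
  · rw [Matrix.transpose_sub, Matrix.transpose_smul, d.Om0_skew, rm_skew E23_skew, smul_neg]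
    abel
  · rw [pf4_sub, sub_eq_zero] at e
    rw [kap, le_div_iff₀ b1, e] at b2
    have := mul_pos hr b1
    rw [HD.b] at this b2
    linarith only [b2, this]

theorem N3_n_qr (h1 : |rd (z (1, 0))| < 1 / 2) (h2 : |rd (z (1, 1))| < 1 / 2) :
    ∀ᶠ y in 𝓝 z, round (y (1, 0)) = round (z (1, 0)) ∧
      d.qr y = d.qq (y (1, 0) - round (z (1, 0))) (y (1, 1) - round (z (1, 1))) := by
  filter_upwards [(continuous_apply (1, 0)).continuousAt.eventually (rd_ev h1),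
    (continuous_apply (1, 1)).continuousAt.eventually (rd_ev h2)] with y a b
  exact ⟨a, by rw [qr, rd, rd, a, b]⟩

/-- The closed form `d arg g / (2 π)`. -/
noncomputable def N3_n_th (d : HD) : F1 := fun y => (normSq (d.gz y))⁻¹ • ang d.gz y

theorem Ok.N3_n_th (h : d.Ok) (hg : d.gz z ≠ 0) : ContDiffAt ℝ ∞ d.N3_n_th z ∧
    d1 d.N3_n_th z = 0 ∧ d.N3_n_th z (bv (2, 1)) = 0 := by
  have s := h.contDiff_gz.contDiffAt (x := z)
  refine ⟨((contDiffAt_normSq s).inv (by simpa using hg)).smul (contDiffAt_ang s),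
    d1_dlog s hg, ?_⟩
  have e : fderiv ℝ d.gz z (bv (2, 1)) = 0 := by
    rw [← (s.differentiableAt (by simp)).lineDeriv_eq_fderiv]
    simp [lineDeriv, gz, bv]
  simp [HD.N3_n_th, ang_apply, e]

theorem Ok.N3_n_near (h : d.Ok) (hg : d.gz z ≠ 0) (h1 : |rd (z (1, 0))| < 1 / 32)
    (h2 : |rd (z (1, 1))| < 1 / 32) : d.N3_n_th z = (round (z (1, 0)) : ℝ) • dc (1, 1) +
      (2 * Real.pi * d.qr z)⁻¹ • (rd (z (1, 0)) • dc (1, 1) - rd (z (1, 1)) • dc (1, 0)) := by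
  obtain ⟨e1, e2⟩ := h.ang_gz_near h1 h2
  rw [HD.N3_n_th, e1, e2, smul_add, smul_smul, smul_smul,
    inv_mul_cancel_left₀ (mt h.gz_qr.2 hg), mul_inv _ (d.qr z), mul_comm (d.qr z)⁻¹]

theorem Ok.N3_n_key (h : d.Ok) (hg : d.gz z ≠ 0) : ∃ r, -d.c₀ / 2 ≤ Real.pi * r ∧ N3_n_P z
    (fun y => d.a0 y • d.N3_n_th y + (-(d.a0 y * round (y (1, 0)))) • dc (1, 1)) r := by
  have c0 := h.b4
  by_cases h0 : 1 / 32 ≤ |rd (z (1, 0))| ∨ 1 / 32 ≤ |rd (z (1, 1))|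
  · exact ⟨0, by linarith only [c0], N3_n_zero.congr ((h.a0_zero' h0).mono fun y hy => by simp [hy])⟩
  rw [not_or, not_le, not_le] at h0
  obtain ⟨A, a1, a2⟩ : ∃ A, -d.c₀ / 2 ≤ A ∧ HasDerivAt (fun r => d.al r (d.tt z)) A (d.qr z) := by
    rcases le_or_gt (d.tt z) 0 with ht | ht
    · exact ⟨0, by linarith only [c0], by simpa only [al_neg ht] using hasDerivAt_const _ _⟩
    · refine ⟨_, ?_, h.hasDerivAt_al ht _⟩
      have b1 := h.hη.der (d.c₀ * d.qr z / d.tt z)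
      have b2 : 0 ≤ ss (d.tt z) := Real.smoothTransition.nonneg _
      have b3 : ss (d.tt z) ≤ 1 := Real.smoothTransition.le_one _
      linarith only [b3, c0, b1, b2, mul_nonneg (mul_nonneg (sub_nonneg.2 b3) (by linarith : 0 ≤ d.c₀))
        (sub_nonneg.2 b1), mul_nonneg b2 (by linarith : 0 ≤ d.c₀)]
  have s := h.a0_sm (Or.inl hg)
  have ev := N3_n_qr (d := d) (h0.1.trans (by norm_num)) (h0.2.trans (by norm_num))
  have da : ∀ u : E6, u (2, 0) = 0 → fderiv ℝ d.a0 z u =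
      A * (2 * d.σ ^ 2 * rd (z (1, 0))) * u (1, 0) + A * (2 * rd (z (1, 1)) / d.σ ^ 2) * u (1, 1) := by
    intro u hu
    have l1 : Tendsto (fun s : ℝ => z + s • u) (𝓝 0) (𝓝 z) :=
      Continuous.tendsto' (by fun_prop) _ _ (by simp)
    have l2 : HasDerivAt (fun s : ℝ => d.qq (s * u (1, 0) + rd (z (1, 0)))
        (s * u (1, 1) + rd (z (1, 1)))) _ 0 :=
      ((((hasDerivAt_mul_const _).add_const _).fun_pow 2).const_mul _).fun_add
        ((((hasDerivAt_mul_const _).add_const _).fun_pow 2).div_const _)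
    refine N3_n_line s (((a2.comp_of_eq 0 l2 (by simp [qr])).congr_deriv
      (by simp; ring)).congr_of_eventuallyEq ?_)
    filter_upwards [l1.eventually ev] with s hs
    simp only [a0, hs.2, tt, rd, Pi.add_apply, Pi.smul_apply, hu, smul_eq_mul, mul_zero, add_zero,
      Function.comp]
    congr 2 <;> ring
  obtain ⟨t1, t2, t3⟩ := h.N3_n_th hg
  have q0 : d.qr z ≠ 0 := mt h.gz_qr.2 hg
  have p1 := N3_n_smul (r := A * (2 * d.σ ^ 2 * rd (z (1, 0))) * round (z (1, 0)) + A / Real.pi)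
    s t1 t2 t3 da fun u v => by
      have e : A / Real.pi = A * (2 * d.qr z) * (2 * Real.pi * d.qr z)⁻¹ := by field_simp
      rw [h.N3_n_near hg h0.1 h0.2, e]
      generalize (2 * Real.pi * d.qr z)⁻¹ = k
      simp only [add_apply, smul_apply, sub_apply, dc_apply, smul_eq_mul, qr, qq]
      ring
  have p2 := N3_n_c1 (f := fun y => -(round (z (1, 0)) : ℝ) * d.a0 y)
    (a := -round (z (1, 0)) * (A * (2 * d.σ ^ 2 * rd (z (1, 0)))))
    (b := -round (z (1, 0)) * (A * (2 * rd (z (1, 1)) / d.σ ^ 2))) (contDiffAt_const.mul s)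
    fun u hu => by
      rw [fderiv_const_mul (s.differentiableAt (by simp)), smul_apply, da u hu, smul_eq_mul]
      ring
  refine ⟨_, ?_, (p1.add p2).congr (ev.mono fun y hy => by simp only [hy.1, neg_mul, mul_comm])⟩
  have : Real.pi * (A / Real.pi) = A := mul_div_cancel₀ _ Real.pi_ne_zero
  linarith only [a1, this]

theorem Ok.N3_n_m (h : d.Ok) (hz : z ∈ d.Wo .m) : ND (d1 (d.lam .m) z) := by
  obtain ⟨h1, h2, h3⟩ := hz
  have hμ := h.hμ
  rw [tt] at h2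
  rcases lt_or_ge (d.tt z) 0 with ht | ht
  · refine N3_n_nd (d := d) ?_ N3_n_zero fun a ha => ?_
    · filter_upwards [contDiff_tt.continuous.continuousAt.eventually_lt continuousAt_const ht]
        with y hy
      simp only [lam, a0, al_neg hy.le, zero_div, zero_smul]
    · have hν : |z (2, 0)| ≤ d.M + 1 / 8 := by rw [abs_le, M]; constructor <;> linarith only [h1, hμ, h2]
      rw [neg_zero, zero_smul, sub_zero, ← d.Om_mid (by linarith only [h2]) (by linarith only [h1, hμ])] at ha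
      refine Matrix.mulVec_injective_iff_isUnit.2 (h.cf_unit hν) (Eq.trans (inj_pf4 (Ω := JJ)
        (rm_skew (by decide)) (by simp [pf4, JJ, rm, E01, E23]) fun c => ?_)
        (Matrix.mulVec_zero _).symm)
      obtain ⟨b, rfl⟩ := Matrix.mulVec_surjective_iff_isUnit.2 (h.cf_unit hν) c
      rw [h.bf_cf hν, ha, mul_zero]
  · have hg := h3.resolve_right ht.not_gt
    obtain ⟨r, r1, r2⟩ := h.N3_n_key hg
    rw [tt] at ht
    refine N3_n_nd ?_ r2 (h.N3_n_pf (by linarith only [ht]) (by rw [M]; linarith only [h2]) (by linarith only [r1, h, h.b4]))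
    filter_upwards [h.contDiff_gz.continuous.continuousAt.eventually_ne hg] with y hy
    by_cases h0 : 1 / 32 ≤ |rd (y (1, 0))| ∨ 1 / 32 ≤ |rd (y (1, 1))|
    · simp [lam, (h.a0_zero' h0).self_of_nhds]
    · rw [not_or, not_le, not_le] at h0
      rw [h.N3_n_near hy h0.1 h0.2, lam, div_eq_mul_inv (d.a0 y)]
      module

theorem Ok.N3_n_p (h : d.Ok) (hz : z ∈ d.Wo .p) : ND (d1 (d.lam .p) z) := by
  obtain ⟨h1, h2⟩ := hz
  have s1 := (contDiff_tt (d := d)).contDiffAt (x := z)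
  have s2 : ContDiffAt ℝ ∞ (fun y => shf (d.tt y)) z := contDiff_shf.contDiffAt.comp z s1
  have et : ∀ u : E6, u (2, 0) = 0 → ∀ s : ℝ, d.tt (z + s • u) = d.tt z := fun u hu s => by
    simp [tt, hu]
  have p1 := N3_n_c1 (f := fun y => (d.tt y / 2 - shf (d.tt y)) * y (1, 0))
    (a := d.tt z / 2 - shf (d.tt z)) (b := 0) (by fun_prop) fun u hu =>
      N3_n_poly (a := (d.tt z / 2 - shf (d.tt z)) * z (1, 0)) (c := 0) (by fun_prop) fun s => by
        simp only [et u hu, Pi.add_apply, Pi.smul_apply, smul_eq_mul]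
        ring
  have p2 := N3_n_c0 (f := fun y => d.tt y / 2 * y (1, 1)) (a := 0) (b := d.tt z / 2)
    (by fun_prop) fun u hu =>
      N3_n_poly (a := d.tt z / 2 * z (1, 1)) (c := 0) (by fun_prop) fun s => by
        simp only [et u hu, Pi.add_apply, Pi.smul_apply, smul_eq_mul]
        ring
  have p3 : ∀ k : ℝ, ∀ u : E6, u (2, 0) = 0 → fderiv ℝ (fun y => (shf (d.tt y) - d.tt y) * k) z u =
      0 * u (1, 0) + 0 * u (1, 1) := fun k u hu =>
    N3_n_poly (a := (shf (d.tt z) - d.tt z) * k) (c := 0) (by fun_prop) fun s => by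
      simp only [et u hu]
      ring
  have b1 := (shf_mem (d.tt z)).2
  rw [max_eq_right h1.le] at b1
  have b2 := mul_le_mul_of_nonneg_left (b1.trans h2.le) Real.pi_pos.le
  have b3 := Real.pi_lt_d2
  have b4 := h.b4
  have b5 : d.μ₁ - 1 / 4 ≤ z (2, 0) ∧ z (2, 0) ≤ d.M + 1 / 8 := by
    rw [tt] at h1 h2
    rw [M]
    constructor <;> linarith only [h1, h2]
  by_cases hg : d.gz z = 0
  · refine N3_n_nd ?_ ((p1.add p2).add (N3_n_c1 (by fun_prop) (p3 (round (z (1, 0))))))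
      (h.N3_n_pf b5.1 b5.2 (by linarith only [b2, b3, b4]))
    obtain ⟨z1, z2⟩ := h.gz_zero.1 hg
    have c1 : ContinuousAt (fun y : E6 => d.c₀ *
        d.qq (y (1, 0) - round (z (1, 0))) (y (1, 1) - round (z (1, 1)))) z := by
      unfold qq
      fun_prop
    filter_upwards [N3_n_qr (d := d) (z := z) (by rw [z1]; norm_num) (by rw [z2]; norm_num),
      continuousAt_const.eventually_lt s1.continuousAt h1,
      c1.eventually_lt (continuousAt_const.mul s1.continuousAt) (by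
        have : d.qq (rd (z (1, 0))) (rd (z (1, 1))) = 0 := h.gz_qr.1 hg
        rw [rd, rd] at this
        rw [this, mul_zero]
        exact mul_pos (one_pos.trans_le h.hη.pos) h1)] with y a b c
    have e : d.a0 y = d.tt y - shf (d.tt y) :=
      eq_sub_of_add_eq (h.al_one b (a.2 ▸ c.le))
    rw [lam, e, sub_self, zero_div, a.1]
    module
  · obtain ⟨r, r1, r2⟩ := h.N3_n_key hg
    obtain ⟨t1, t2, t3⟩ := h.N3_n_th hg
    refine N3_n_nd (.of_forall fun y => ?_) (((p1.add p2).add (N3_n_smul (r := 0)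
      ((s2.sub s1).mul contDiffAt_const) t1 t2 t3 (p3 1) fun u v => by ring)).add r2)
      (h.N3_n_pf b5.1 b5.2 (by linarith only [b2, b3, b4, r1]))
    rw [lam, HD.N3_n_th, div_eq_mul_inv _ (normSq _)]
    module

theorem Ok.N3_n_f (h : d.Ok) (hz : z ∈ d.Wo .f) : ND (d1 (d.lam .f) z) := by
  have p := Real.pi_pos
  have e : ∀ y, Real.pi * d.b (d.nuF y) = Real.pi * (d.b d.μ₁ +
      (y (2, 0) ^ 2 + y (2, 1) ^ 2 - (y (0, 0) ^ 2 + y (0, 1) ^ 2)) * d.v 0 1) := fun y => by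
    rw [← b_add, nuF, normSq_cc, normSq_cc, add_sub_assoc]
  have s : ContDiffAt ℝ ∞ (fun y => Real.pi * d.b (d.nuF y)) z := by
    simp only [e]
    fun_prop
  have e1 : d.lam .f = fun y => rot1 0 y + rot1 2 y + (Real.pi * d.b (d.nuF y)) • rot1 1 y := by
    funext y
    rw [lam, rot1.eq_def 1, smul_smul]
    congr 2
    field_simp
  have e2 : ∀ u, fderiv ℝ (fun y => Real.pi * d.b (d.nuF y)) z u = 2 * Real.pi * (d.v 0 1 *
      (z (2, 0) * u (2, 0) + z (2, 1) * u (2, 1) - z (0, 0) * u (0, 0) - z (0, 1) * u (0, 1))) :=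
    fun u => N3_n_poly (a := Real.pi * d.b (d.nuF z)) (c := Real.pi *
      ((u (2, 0) ^ 2 + u (2, 1) ^ 2 - (u (0, 0) ^ 2 + u (0, 1) ^ 2)) * d.v 0 1)) s fun s => by
        simp only [e, Pi.add_apply, Pi.smul_apply, smul_eq_mul]
        ring
  have r := fun i => (contDiff_rot1 i).contDiffAt (x := z)
  have hb : 0 < d.b (d.nuF z) := h.b_pos (by
    have := normSq_nonneg (cc 0 z)
    have := normSq_nonneg (cc 2 z)
    rw [nuF, abs_le]
    constructor <;> linarith [hz.1, hz.2])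
  intro u hu
  have e3 : ∀ v : E6, u (0, 0) * v (0, 1) - u (0, 1) * v (0, 0) +
      (u (2, 0) * v (2, 1) - u (2, 1) * v (2, 0)) + Real.pi * (d.v 0 1 *
      ((z (2, 0) * u (2, 0) + z (2, 1) * u (2, 1) - z (0, 0) * u (0, 0) - z (0, 1) * u (0, 1)) *
        (z (1, 0) * v (1, 1) - z (1, 1) * v (1, 0)) -
      (z (2, 0) * v (2, 0) + z (2, 1) * v (2, 1) - z (0, 0) * v (0, 0) - z (0, 1) * v (0, 1)) *
        (z (1, 0) * u (1, 1) - z (1, 1) * u (1, 0))) +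
      d.b (d.nuF z) * (u (1, 0) * v (1, 1) - u (1, 1) * v (1, 0))) = 0 := fun v => by
    have := hu v
    rw [e1, d1_add (l' := fun y => _ • rot1 1 y) ((r 0).add (r 2)) (s.smul (r 1)),
      d1_add (r 0) (r 2), d1_smul s (r 1)] at this
    simp only [ContinuousAlternatingMap.add_apply, ContinuousAlternatingMap.smul_apply,
      wedge_apply, d1_rot1, rot1_apply, e2, smul_eq_mul, Matrix.cons_val_zero,
      Matrix.cons_val_one] at this
    field_simp at this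
    linear_combination this
  have k0 := e3 (bv (0, 0))
  have k1 := e3 (bv (0, 1))
  have k2 := e3 (bv (1, 0))
  have k3 := e3 (bv (1, 1))
  have k4 := e3 (bv (2, 0))
  have k5 := e3 (bv (2, 1))
  simp [bv, -mul_eq_zero] at k0 k1 k2 k3 k4 k5
  have n : z (2, 0) * u (2, 0) + z (2, 1) * u (2, 1) - z (0, 0) * u (0, 0) - z (0, 1) * u (0, 1) =
      0 := by
    linear_combination z (2, 0) * k5 - z (2, 1) * k4 - z (0, 0) * k1 + z (0, 1) * k0
  rw [n] at k2 k3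
  have u1 : u (1, 1) = 0 := by simpa [p.ne', hb.ne'] using k2
  have u0 : u (1, 0) = 0 := by simpa [p.ne', hb.ne'] using k3
  simp [u0, u1] at k0 k1 k4 k5
  exact ext6 k1 k0 u0 u1 k5 k4

end HD

end Pool.Agent.Work.MP_bf98aa_gt.B3
end

-- merged part: Pool.Agent.Work.MP_bf98aa_gt.B3.N5
section
-- merged part: Pool.Agent.Work.MP_bf98aa_gt.B3.N3
section
/-!
The groups preserve the symplectic forms; nondegeneracy.

PLAN. `symp_of` with an explicit potential. `Dm`: `pb1 (Dm l n) (lam m) = lam m + d ((bf (Om0 μ₁) l x) / 2)` (the `a0` term is invariant, `rd_add_int`, `gz_shift`). `io`: no potential (`a0_supp`, `rd_neg`).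
`ka` (`|μ| < 1 / 8`, so `a0 = 0` nearby): `Om0_neg`, `bf_vT`, potential `2 μ₁ φ + linear`. `Dp`: `pb1_ang`, `gz_shift`, `ang_mul`, `ang_ee`: the angle form changes by `normSq g * l 2 dx₃` (if `g = 0` the coefficient `t - shf t - a0` vanishes).
`Df`: `pb1_rot1`, `ang_mul`, `ang_ee`, `b_add`; potential `b μ₁ (s y₁ - t y₀) / 2`. For the compositions use `pb_comp`.
`nd_lam`: `nd_level` on `m`, `p` with `Ω = Om0 μ - r • rm E23`, `r = shf t - (1 - ss t) c₀ η' / π` (zero `η'` term where `a0 = 0` nearby), `pf4_sub`, `b5`, `b4`; below the kink `Ω = Om0 μ = Om μ` and `pf4 ≠ 0` can be replaced by `bf_cf`, `cf_unit`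
(use `nd_level'`). On `f`: test with the basis vectors `bv (1, j)` first; or pull back `lamS` by `fF` (`fF_symp` is in `N6`, not available here).
-/

set_option autoImplicit false

open scoped Manifold ContDiff Topology Matrix ComplexConjugate
open Set Complex Filter

namespace Pool.Agent.Work.MP_bf98aa_gt.B3

open Pool.Agent.Work.MP_bf98aa_gt.Th Pool.Agent.Work.MP_bf98aa_gt.Cy

theorem nd_level' {w : Alt E6 2} {Ω : M4} (h0 : ∀ a : V4, (∀ b, bf Ω a b = 0) → a = 0)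
    (h1 : ∀ u, w ![u, bv (2, 1)] = u (2, 0))
    (h2 : ∀ u v : E6, u (2, 0) = 0 → v (2, 0) = 0 → w ![u, v] = bf Ω (xv u) (xv v)) : ND w :=
  N3_n_level h0 h1 h2

namespace HD

variable {d : HD} {z y : E6}

theorem Ok.Dm_symp (h : d.Ok) (l : L4) (n : ℤ) (hz : z ∈ d.Wo .m) :
    pb (d.Dm l n) (d1 (d.lam .m)) z = d1 (d.lam .m) z :=
  h.N3_m_Dm l n hz

theorem Ok.io_symp (h : d.Ok) (hz : z ∈ d.Wo .m) : pb io (d1 (d.lam .m)) z = d1 (d.lam .m) z :=
  h.N3_m_io hz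

theorem Ok.ka_symp (h : d.Ok) (hz : |z (2, 0)| < 1 / 8) :
    pb d.ka (d1 (d.lam .m)) z = d1 (d.lam .m) z :=
  h.N3_m_ka hz

theorem Ok.gm_symp (h : d.Ok) (γ : L4 × ℤ × Bool × Bool) (hz : z ∈ d.Wo .m)
    (hγ : d.gm γ z ∈ d.Wo .m) : pb (d.gm γ) (d1 (d.lam .m)) z = d1 (d.lam .m) z :=
  h.N3_m_gm γ hz hγ

theorem Ok.Dp_symp (h : d.Ok) (l : L4) (n : ℤ) (hz : z ∈ d.Wo .p) :
    pb (d.Dp l n) (d1 (d.lam .p)) z = d1 (d.lam .p) z :=
  h.N3_p_Dp l n hz

theorem Ok.iop_symp (h : d.Ok) (hz : z ∈ d.Wo .p) :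
    pb iop (d1 (d.lam .p)) z = d1 (d.lam .p) z :=
  h.N3_p_iop hz

theorem Ok.gp_symp (h : d.Ok) (γ : L4 × ℤ × Bool) (hz : z ∈ d.Wo .p) :
    pb (d.gp γ) (d1 (d.lam .p)) z = d1 (d.lam .p) z :=
  h.N3_p_gp γ hz

theorem contDiff_lam_f (d : HD) : ContDiff ℝ ∞ (d.lam .f) := d.N3_f_sm

theorem Df_symp (s t : ℝ) (z : E6) : pb (d.Df s t) (d1 (d.lam .f)) z = d1 (d.lam .f) z :=
  N3_f_Df s t z

theorem gf_symp (γ : ℤ × ℤ × Bool) (z : E6) :
    pb (d.gf γ) (d1 (d.lam .f)) z = d1 (d.lam .f) z :=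
  N3_f_gf γ z

theorem Ok.lam_flat (h : d.Ok) (hz : d.tt z < 0) (hz' : -d.μ₁ < z (2, 0)) :
    d1 (d.lam .m) z = d1 (lamO d.Om) z :=
  N3_m_flat hz hz'

theorem Ok.lam_mid (h : d.Ok) (hz : 1 / 2 < d.tt z) :
    d1 (d.lam .p) z = d1 (lamO d.Om) z :=
  h.N3_p_mid hz

theorem Ok.nd_m (h : d.Ok) (hz : z ∈ d.Wo .m) : ND (d1 (d.lam .m) z) :=
  h.N3_n_m hz

theorem Ok.nd_p (h : d.Ok) (hz : z ∈ d.Wo .p) : ND (d1 (d.lam .p) z) :=
  h.N3_n_p hz

theorem Ok.nd_f (h : d.Ok) (hz : z ∈ d.Wo .f) : ND (d1 (d.lam .f) z) :=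
  h.N3_n_f hz

theorem Ok.nd_lam (h : d.Ok) {c : K3} (hz : z ∈ d.Wo c) : ND (d1 (d.lam c) z) := by
  cases c
  exacts [h.nd_m hz, h.nd_p hz, h.nd_f hz]

end HD

end Pool.Agent.Work.MP_bf98aa_gt.B3
end

-- merged part: Pool.Agent.Work.MP_bf98aa_gt.B3.N4
section
/-!
The change of gauge from `m` to `p`.

PLAN. On `Smp z y` one has `0 < tt z < 1 / 8` and `gz z ≠ 0`. `Smp_ar`: `ang_log` gives `θ` with `θ z = y (2,1) - z (2,1) + x₂ x₃ / 2`; `f a = mk4 (xv a) μ (φ - x₂ x₃ / 2 + θ a)`; `pb1 f (lam p) = lam m` exactly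
(`shf t = 0`; `ang_gz_near` where `a0 ≠ 0`, `a0_supp`; `ang gz = normSq gz • dθ`); `ND.inj` with `nd_m`. `Smp_Dm`, `Smp_io`: `gz_shift`, `gz_neg`, `ee_add`, `ee_eq_iff`; the phases differ by the integer `l 3 - l 2 l 3`.
`gok_mp.clo`: `Bar` means `Smp (gm γ x) y` for some `γ` without `κ` (`bar_mp`); in the limit `|tt x| = tt y > 0`... precisely `x (2,0) = y (2,0)` by continuity, so `0 < tt x`, `gz x ≠ 0`, and `exists_p` applies.
-/

set_option autoImplicit false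

open scoped Manifold ContDiff Topology Matrix ComplexConjugate
open Set Complex Filter

namespace Pool.Agent.Work.MP_bf98aa_gt.B3

open Pool.Agent.Work.MP_bf98aa_gt.Th Pool.Agent.Work.MP_bf98aa_gt.Cy

namespace HD

variable {d : HD} {z y z' y' : E6}

theorem Ok.Smp_lev (h : d.Ok) (hs : d.Smp z y) :
    0 < d.tt z ∧ d.tt z < 1 / 8 ∧ d.gz z ≠ 0 ∧ d.tt y = d.tt z ∧ d.gz y = d.gz z := by
  obtain ⟨hz, hy, hx, hl, -⟩ := hs
  have ht : d.tt y = d.tt z := by rw [tt, tt, hl]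
  have h0 : 0 < d.tt z := ht ▸ hy.1
  refine ⟨h0, hz.2.1, hz.2.2.resolve_right (not_lt.2 h0.le), ht, ?_⟩
  rw [gz, gz, ← xv_2 y, ← xv_3 y, hx, xv_2, xv_3]

theorem Ok.exists_p (h : d.Ok) (hz : z ∈ d.Wo .m) (ht : 0 < d.tt z) : ∃ y, d.Smp z y := by
  obtain ⟨t, e⟩ := exists_ee (d.gz z)
  refine ⟨mk4 (xv z) (z (2, 0)) (z (2, 1) - z (1, 0) * z (1, 1) / 2 + t), hz,
    ⟨ht, lt_trans hz.2.1 (by norm_num)⟩, xv_mk4 _ _ _, rfl, ?_⟩
  rw [mk4_21, ee_add, mul_assoc, mul_comm (ee t), ← e]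

theorem Ok.exists_m (h : d.Ok) (hy : y ∈ d.Wo .p) (ht : d.tt y < 1 / 8) (hg : d.gz y ≠ 0) :
    ∃ z, d.Smp z y := by
  obtain ⟨t, e⟩ := exists_ee (d.gz y)
  have h0 : 0 < y (2, 0) - d.μ₁ := hy.1
  refine ⟨mk4 (xv y) (y (2, 0)) (y (2, 1) + y (1, 0) * y (1, 1) / 2 - t),
    ⟨by rw [mk4_20]; linarith only [h0, h, h.hμ], ht, Or.inl hg⟩, hy, (xv_mk4 _ _ _).symm, rfl, ?_⟩
  show ee (y (2, 1)) * ‖d.gz y‖ =
    ee (y (2, 1) + y (1, 0) * y (1, 1) / 2 - t - y (1, 0) * y (1, 1) / 2) * d.gz y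
  conv_rhs => rw [e, mul_comm _ (ee t), ← mul_assoc, ← ee_add]
  congr 2
  ring

theorem Ok.Smp_uniq (h : d.Ok) (hs : d.Smp z y) (hs' : d.Smp z y') : ∃ n : ℤ, y' = d.Dp 0 n y := by
  have hg : ((‖d.gz z‖ : ℝ) : ℂ) ≠ 0 := by simpa using (h.Smp_lev hs).2.2.1
  obtain ⟨n, hn⟩ := ee_eq_iff.1 (mul_right_cancel₀ hg (hs'.2.2.2.2.trans hs.2.2.2.2.symm))
  refine ⟨n, ?_⟩
  rw [← act_p_int]
  exact ext4 (hs'.2.2.1.trans (hs.2.2.1.symm.trans (xv_mk4 _ _ _).symm))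
    (hs'.2.2.2.1.trans hs.2.2.2.1.symm) hn

theorem Ok.Smp_uniq' (h : d.Ok) (hs : d.Smp z y) (hs' : d.Smp z' y) : ∃ n : ℤ, z' = d.Dm 0 n z := by
  obtain ⟨-, -, hg, -, e⟩ := h.Smp_lev hs
  have e' := (h.Smp_lev hs').2.2.2.2
  have hx : xv z' = xv z := hs'.2.2.1.symm.trans hs.2.2.1
  have h2 : z' (1, 0) = z (1, 0) := congrFun hx 2
  have h3 : z' (1, 1) = z (1, 1) := congrFun hx 3
  have k := hs'.2.2.2.2
  rw [← e', e, hs.2.2.2.2, h2, h3] at k
  obtain ⟨n, hn⟩ := ee_eq_iff.1 (mul_right_cancel₀ hg k).symm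
  refine ⟨n, ?_⟩
  rw [← act_m_int]
  exact ext4 (hx.trans (xv_mk4 _ _ _).symm) (hs'.2.2.2.1.symm.trans hs.2.2.2.1)
    (by show z' (2, 1) = z (2, 1) + n; linarith only [hn])

theorem Ok.Smp_Dm (h : d.Ok) (hs : d.Smp z y) (l : L4) (n n' : ℤ) :
    d.Smp (d.Dm l n z) (d.Dp l n' y) := by
  obtain ⟨hz, hy, hx, hl, e⟩ := hs
  have hg := (h.gz_shift (z := z) (y := d.Dm l n z) (l := l) (xv_mk4 _ _ _)).1
  refine ⟨h.gm_mem (l, n, false, false) hz (by simp), (gp_mem (l, n', false)).2 hy,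
    by simp only [Dm, Dp, xv_mk4, hx], hl, ?_⟩
  have e1 : d.Dp l n' y (2, 1) = (-(bf (rm d.v) (rv l) (xv z) / 2) + (l 2 * z (1, 1) -
      l 3 * z (1, 0)) / 2 + l 2 * (1 + l 3) / 2 + n') + y (2, 1) := by
    simp only [Dp, mk4_21, hx, rm_sub, bf_sub, bf_E23, rv_apply, xv_2, xv_3]
    ring
  rw [hg, norm_mul, norm_ee, one_mul, e1, ee_add, mul_assoc, e, ← mul_assoc, ← mul_assoc, ← ee_add,
    ← ee_add]
  congr 1
  refine ee_eq_iff.2 ⟨n' - n - l 3 + l 2 * l 3, ?_⟩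
  simp only [Dm, mk4_21, mk4_10, mk4_11, Pi.add_apply, rv_apply, xv_2, xv_3]
  push_cast
  ring

theorem Ok.Smp_io (h : d.Ok) (hs : d.Smp z y) : d.Smp (io z) (iop y) := by
  obtain ⟨hz, hy, hx, hl, e⟩ := hs
  have hg := (h.gz_neg (z := z) (y := io z) (xv_mk4 _ _ _)).1
  refine ⟨Dm_zero (d := d) (io z) ▸ h.gm_mem (0, 0, false, true) hz (by simp), hy,
    by simp only [io, iop, xv_mk4, hx], hl, ?_⟩
  rw [hg, norm_neg]
  simp only [io, iop, mk4_21, mk4_10, mk4_11, Pi.neg_apply, xv_2, xv_3, ee_add, ee_half,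
    neg_mul_neg]
  linear_combination -e

theorem Ok.Smp_g (h : d.Ok) (hs : d.Smp z y) (l : L4) (n n' : ℤ) (e : Bool) :
    d.Smp (d.gm (l, n, false, e) z) (d.gp (l, n', e) y) := by
  cases e
  exacts [h.Smp_Dm hs l n n', h.Smp_Dm (h.Smp_io hs) l n n']

theorem Ok.Smp_act (h : d.Ok) (hs : d.Smp z y) (s : ℝ) : d.Smp (act s .m z) (act s .p y) := by
  obtain ⟨hz, hy, hx, hl, e⟩ := hs
  refine ⟨(act_mem s .m).2 hz, (act_mem s .p).2 hy, by simp only [act, xv_mk4, hx], hl, ?_⟩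
  show ee (y (2, 1) + s) * ‖d.gz z‖ = ee (z (2, 1) + s - z (1, 0) * z (1, 1) / 2) * d.gz z
  rw [add_sub_right_comm, ee_add, ee_add]
  linear_combination ee s * e

/-- The local form of the change of gauge. -/
noncomputable def N4_f (θ : E6 → ℝ) (a : E6) : E6 :=
  mk4 (xv a) (a (2, 0)) (a (2, 1) + (θ a - a (1, 0) * a (1, 1) / 2))

theorem N4_sh (a : E6) (r : ℝ) : mk4 (xv a) (a (2, 0)) (a (2, 1) + r) = a + r • bv (2, 1) := by
  refine ext6 ?_ ?_ ?_ ?_ ?_ ?_ <;> simp [bv]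

theorem N4_fd {θ : E6 → ℝ} (hθ : DifferentiableAt ℝ θ z) : DifferentiableAt ℝ (N4_f θ) z ∧
    ∀ v, fderiv ℝ (N4_f θ) z v = mk4 (xv v) (v (2, 0))
      (v (2, 1) + (fderiv ℝ θ z v - (z (1, 0) * v (1, 1) + z (1, 1) * v (1, 0)) / 2)) := by
  have h1 := (hasFDerivAt_id z).add ((hθ.hasFDerivAt.sub
    (((dc (1, 0)).hasFDerivAt.mul (dc (1, 1)).hasFDerivAt).mul_const (2⁻¹ : ℝ))).smul_const
      (bv (2, 1)))
  have h2 : HasFDerivAt (N4_f θ) _ z := h1.congr_of_eventuallyEq (.of_forall fun a => N4_sh a _)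
  refine ⟨h2.differentiableAt, fun v => ?_⟩
  rw [h2.fderiv, N4_sh]
  simp [dc_apply, div_eq_inv_mul, mul_add]

theorem Ok.N4_pb (h : d.Ok) {θ : E6 → ℝ} (hθ : DifferentiableAt ℝ θ z)
    (h1 : ang d.gz z = normSq (d.gz z) • fderiv ℝ θ z) (h2 : d.gz z ≠ 0) (h3 : d.tt z < 1 / 8) :
    pb1 (N4_f θ) (d.lam .p) z = d.lam .m z := by
  obtain ⟨a1, a2⟩ := N4_fd hθ
  ext v : 1
  have a3 : ang d.gz (N4_f θ z) (fderiv ℝ (N4_f θ) z v) = normSq (d.gz z) * fderiv ℝ θ z v := by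
    rw [← pb1_apply, pb1_ang a1 (h.contDiff_gz.differentiable (by simp) _)]
    exact congrArg (fun L : E6 →L[ℝ] ℝ => L v) h1
  have a4 : normSq (d.gz z) ≠ 0 := by simpa using h2
  have a5 : d.a0 z * (fderiv ℝ θ z v - round (z (1, 0)) * v (1, 1)) =
      d.a0 z / (2 * Real.pi * d.qr z) * (rd (z (1, 0)) * v (1, 1) - rd (z (1, 1)) * v (1, 0)) := by
    by_cases h0 : d.a0 z = 0
    · simp [h0]
    obtain ⟨b1, b2⟩ := h.ang_gz_near (z := z)
      (not_le.1 fun c => h0 (h.a0_zero' (Or.inl c)).self_of_nhds)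
      (not_le.1 fun c => h0 (h.a0_zero' (Or.inr c)).self_of_nhds)
    have b3 := congrArg (fun L : E6 →L[ℝ] ℝ => L v) (h1.symm.trans b2)
    rw [b1] at a4 b3
    simp only [add_apply, sub_apply, smul_apply, smul_eq_mul, dc_apply] at b3
    field_simp at b3 ⊢
    linear_combination b3
  have e1 : d.tt (N4_f θ z) = d.tt z := rfl
  have e2 : d.a0 (N4_f θ z) = d.a0 z := rfl
  have e3 : d.gz (N4_f θ z) = d.gz z := rfl
  rw [pb1_apply]
  simp only [lam, add_apply, sub_apply, smul_apply, smul_eq_mul, a3, e1, e2, e3,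
    shf_low (h3.le.trans (by norm_num)), lf_bf]
  simp only [a2, N4_f, dc_apply, xv_mk4, mk4_10, mk4_11, mk4_20, mk4_21, xv_2, xv_3]
  rw [← a5]
  field_simp
  ring

theorem Ok.Smp_ar (h : d.Ok) (hs : d.Smp z y) :
    ∃ f, Ar d.Smp z y f ∧ pb f (d1 (d.lam .p)) z = d1 (d.lam .m) z := by
  obtain ⟨-, h2, h3, -, -⟩ := h.Smp_lev hs
  obtain ⟨a1, a2, a3, a4, a5⟩ := hs
  obtain ⟨θ, b1, b2, b3⟩ := ang_log (t₀ := y (2, 1) - (z (2, 1) - z (1, 0) * z (1, 1) / 2))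
    h.contDiff_gz.contDiffAt h3 (mul_left_cancel₀
      (ee_ne_zero (z (2, 1) - z (1, 0) * z (1, 1) / 2)) (by
        rw [← a5, mul_left_comm, ← ee_add, add_sub_cancel, mul_comm]))
  have e : ∀ i, ContDiff ℝ ∞ fun a : E6 => a i := fun i => contDiff_apply ℝ ℝ i
  have c1 : ContDiffAt ℝ ∞ (N4_f θ) z := by
    unfold N4_f
    fun_prop
  have c2 : N4_f θ z = y := ext4 ((xv_mk4 _ _ _).trans a3.symm) a4.symm (by
    rw [N4_f, mk4_21, b2]
    ring)
  have c3 : pb (N4_f θ) (d1 (d.lam .p)) z = d1 (d.lam .m) z := by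
    rw [pb_d1 c1 (h.lam_sm (c2 ▸ a2))]
    refine d1_congr ?_
    filter_upwards [b3, h.contDiff_gz.continuous.continuousAt.eventually_ne h3,
      contDiff_tt.continuous.continuousAt.eventually_lt continuousAt_const h2,
      (b1.of_le (show (1 : WithTop ℕ∞) ≤ ∞ by simp)).eventually (by simp)] with a e1 e2 e3 e4
    exact h.N4_pb (e4.differentiableAt one_ne_zero) e1.2 e2 e3
  refine ⟨N4_f θ, ⟨c1, c2, (h.nd_m a1).inj c3, ?_⟩, c3⟩
  filter_upwards [b3, (h.isOpen_Wo _).mem_nhds a1,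
    c1.continuousAt.eventually ((h.isOpen_Wo _).mem_nhds (c2 ▸ a2))] with a e1 e2 e3
  refine ⟨e2, e3, xv_mk4 _ _ _, rfl, ?_⟩
  rw [N4_f, mk4_21, show a (2, 1) + (θ a - a (1, 0) * a (1, 1) / 2) =
    a (2, 1) - a (1, 0) * a (1, 1) / 2 + θ a by ring, ee_add, mul_assoc, mul_comm (ee (θ a)),
    ← e1.1]

theorem Ok.Smp_iff (h : d.Ok) (hs : d.Smp z y) (hs' : d.Smp z' y') :
    (∃ γ, d.gm γ z = z') ↔ ∃ γ, d.gp γ y = y' := by
  constructor
  · rintro ⟨⟨l, n, k, e⟩, rfl⟩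
    cases k
    · obtain ⟨m, hm⟩ := h.Smp_uniq (h.Smp_g hs l n 0 e) hs'
      exact ⟨(l, 0 + m, e), by rw [hm, gp, gp, Dp_add]⟩
    · have h1 : 0 < z (2, 0) - d.μ₁ := (h.Smp_lev hs).1
      have h2 := (h.Smp_lev hs').1
      rw [tt, gm_level] at h2
      exact absurd h2 (by simp only [cond]; linarith only [h1, h, h.hμ])
  · rintro ⟨⟨l, n, e⟩, rfl⟩
    obtain ⟨m, hm⟩ := h.Smp_uniq' (h.Smp_g hs l 0 n e) hs'
    exact ⟨(l, 0 + m, false, e), by rw [hm, gm, gm, Dm_add]⟩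

theorem Ok.bar_mp (h : d.Ok) : d.atlMP.R (.inl ()) z (.inr ()) y ↔
    ∃ l n e, d.Smp (d.gm (l, n, false, e) z) y := by
  constructor
  · rintro ⟨_, x', _, y', ⟨hz, hx', ⟨l, n, k, e⟩, rfl⟩, hs, -, -, ⟨l', n', e'⟩, rfl⟩
    cases k
    · have k := h.Smp_g hs l' 0 n' e'
      cases e'
      · obtain ⟨m, hm⟩ := Dm_Dm (d := d) l' l 0 n
        exact ⟨l' + l, m, e, by rw [gm, ← hm]; exact k⟩
      · obtain ⟨m, hm⟩ := Dm_Dm (d := d) l' (-l) 0 (n + l 3)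
        refine ⟨l' + -l, m, !e, ?_⟩
        have e1 : d.gm (l' + -l, m, false, !e) z =
            d.gm (l', 0, false, true) (d.gm (l, n, false, e) z) := by
          cases e <;> simp [gm, io_Dm, io_io, hm]
        rw [e1]; exact k
    · have h1 := abs_lt.1 (h.gm_ka hz hx' rfl)
      have h2 := (h.Smp_lev hs).1
      rw [tt, gm_level] at h2
      exact absurd h2 (by simp only [cond]; linarith only [h1, h, h.hμ, h1.1])
  · rintro ⟨l, n, e, hs⟩
    obtain ⟨l', n', hi⟩ := N1_m_inv (d := d) l n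
    have h1 := h.gm_mem (l', n', false, false) hs.1 (by simp)
    have h2 := h.gm_mem (0, 0, false, e) h1 (by simp)
    have e1 : d.gm (0, 0, false, e) (d.gm (l', n', false, false) (d.gm (l, n, false, e) z)) = z := by
      cases e <;> simp [gm, hi, io_io, Dm_zero]
    rw [e1] at h2
    exact ⟨(), _, (), y, ⟨h2, hs.1, _, rfl⟩, hs, hs.2.1, hs.2.1, (0, 0, false), Dp_zero y⟩

theorem Ok.gok_mp (h : d.Ok) :
    GOk (orb (d.Wo .m) d.gm) (orb (d.Wo .p) d.gp) fun _ z _ y => d.Smp z y := by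
  refine ⟨fun hs => ⟨hs.1, hs.2.1⟩, fun hs => (h.Smp_ar hs).imp fun _ hf => hf.1,
    fun hs hs' => ?_, fun {_ x _ y} hx hy hc => ?_⟩
  · exact ⟨fun e => ⟨hs.2.1, hs'.2.1, (h.Smp_iff hs hs').1 e.2.2⟩,
      fun e => ⟨hs.1, hs'.1, (h.Smp_iff hs hs').2 e.2.2⟩⟩
  · have h1 : (x, y) ∈ {p : E6 × E6 | p.2 (2, 0) = p.1 (2, 0)} := by
      refine closure_minimal (fun p hp => ?_) (isClosed_eq (by fun_prop) (by fun_prop)) hc
      obtain ⟨l, n, e, hs⟩ := h.bar_mp.1 hp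
      exact hs.2.2.2.1.trans (gm_level _ _)
    have h2 : 0 < d.tt x := by
      have h3 : 0 < d.tt y := hy.1
      rwa [tt, show y (2, 0) = x (2, 0) from h1] at h3
    obtain ⟨y', hs⟩ := h.exists_p hx h2
    exact ⟨(), x, (), y', ⟨hx, hx, h.grp_m.one.imp fun _ e => e x⟩, hs⟩

theorem Ok.pre0_mp (h : d.Ok) : Pre0 d.atlMP :=
  h.gok_mp.pre0 (pre0_orb (h.isOpen_Wo _) h.grp_m) (pre0_orb (h.isOpen_Wo _) d.grp_p)

end HD

end Pool.Agent.Work.MP_bf98aa_gt.B3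
end

-- merged part: Pool.Agent.Work.MP_bf98aa_gt.B3.N5
section
/-!
The lower and the upper map in centred coordinates: sizes, injectivity, surjectivity.

PLAN. Put `r = normSq z₁`, `t = tt z`. On `CL`: for `t < 0`, `ex = 0`; for `0 ≤ t < 1 / 8`, `r = kap * qq > 0`, `hh - t = r - (t - al) ≥ (kap - c₀ / 2) qq > 0` (`normSq_z1`, `al_lower`).
On `CU`: `hh > 0` (`hh - t ≥ 0`); `t - ex = 0` if `z₁ = 0` or `1 / 8 ≤ t` (`al_one`, `ex_high`). Injectivity: the level from `nuF`; `hh` is a strictly increasing function of `r` at a fixed level (`al_mono`; for `t ≤ 0` or `ex = t` trivial;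
at one level `t ≥ 1 / 4` both points have `rho < 8`), so `r = r'`; `ee φ'` from `u` (resp. `w`), then `z₁`; `x` by `z_inj` (resp. from `z₁` and `yc`: `f2`). Surjectivity: intermediate value theorem for
`q ↦ kap * q + al q t` on `[0, ∞)` (value `max 0 t` at `0`, `al_cont`), `exists_ee`, `z_surj`.
-/

set_option autoImplicit false

open scoped Manifold ContDiff Topology Matrix ComplexConjugate
open Set Complex Filter

namespace Pool.Agent.Work.MP_bf98aa_gt.B3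

open Pool.Agent.Work.MP_bf98aa_gt.Th Pool.Agent.Work.MP_bf98aa_gt.Cy

namespace HD

variable {d : HD} {z y z' : E6}

theorem Ok.isOpen_CL (h : d.Ok) : IsOpen d.CL := by
  exact d.FD_isOpen_CL

theorem Ok.isOpen_CU (h : d.Ok) : IsOpen d.CU := by
  exact h.FD_isOpen_CU

theorem Ok.CL_lev (h : d.Ok) (hz : z ∈ d.CL) : |z (2, 0)| < d.M + 1 / 8 := by
  have a := hz.1
  have b := hz.2.1
  unfold tt at b
  exact abs_lt.2 ⟨by linarith only [a], by unfold M; linarith only [b]⟩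

theorem Ok.CU_lev (h : d.Ok) (hz : z ∈ d.CU) : |z (2, 0)| < d.M + 1 / 8 := by
  have a := hz.1
  have b := hz.2.1
  unfold tt at a b
  exact abs_lt.2 ⟨by unfold M; linarith only [a, h, h.hμ], by unfold M; linarith only [b]⟩

theorem Ok.low_norm (h : d.Ok) (hz : z ∈ d.CL) : 0 < d.hh (z (2, 0)) (xv z) - d.tt z ∧
    normSq (d.uL z) = d.hh (z (2, 0)) (xv z) - d.tt z ∧
    normSq (d.wL z) = d.hh (z (2, 0)) (xv z) := by
  exact ⟨sub_pos.2 (h.FC_CL_gt hz), h.FC_normSq_uL hz, h.FC_normSq_wL hz⟩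

theorem Ok.upp_norm (h : d.Ok) (hz : z ∈ d.CU) : 0 < d.hh (z (2, 0)) (xv z) ∧
    normSq (d.uU z) = d.hh (z (2, 0)) (xv z) - d.tt z ∧
    normSq (d.wU z) = d.hh (z (2, 0)) (xv z) := by
  exact ⟨hz.1.trans_le (h.FC_CU_ge hz), h.FC_normSq_uU hz, h.FC_normSq_wU z⟩

theorem Ok.lowF_lev (h : d.Ok) (hz : z ∈ d.CL) : rF (d.lowF z) = d.rho (z (2, 0)) (xv z) ∧
    d.nuF (d.lowF z) = z (2, 0) ∧ tF (d.lowF z) = d.tt z ∧ cc 0 (d.lowF z) ≠ 0 := by
  exact ⟨h.FC_rF_lowF hz, h.FC_nuF_lowF hz, h.FC_tF_lowF hz, h.FC_uL_ne hz⟩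

theorem Ok.uppF_lev (h : d.Ok) (hz : z ∈ d.CU) : rF (d.uppF z) = d.rho (z (2, 0)) (xv z) ∧
    d.nuF (d.uppF z) = z (2, 0) ∧ tF (d.uppF z) = d.tt z ∧ cc 2 (d.uppF z) ≠ 0 := by
  exact ⟨h.FC_rF_uppF z, h.FC_nuF_uppF hz, h.FC_tF_uppF hz, h.FC_wU_ne hz⟩

theorem Ok.low_inj (h : d.Ok) (hz : z ∈ d.CL) (hz' : z' ∈ d.CL) (h1 : d.uL z = d.uL z')
    (h2 : d.wL z = d.wL z') : z' (2, 0) = z (2, 0) ∧
      d.z1 (z (2, 0)) (xv z') = d.z1 (z (2, 0)) (xv z) ∧ ∃ n : ℤ, d.phH z' = d.phH z + n := by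
  have a := h.FC_normSq_wL hz
  have b := h.FC_normSq_uL hz
  rw [h2, h.FC_normSq_wL hz'] at a
  rw [h1, h.FC_normSq_uL hz', tt, tt] at b
  have l : z' (2, 0) = z (2, 0) := by linarith only [a, b]
  rw [l] at a
  have p := (FC_polar (Real.sqrt_pos.2 (sub_pos.2 (h.FC_CL_gt hz))) (Real.sqrt_nonneg _) h1).2
  have p' := FC_neg p
  rw [neg_neg, neg_neg] at p'
  obtain ⟨n, x⟩ := h.FC_hh_inj (le_trans hz.2.1.le (by norm_num)) a.symm
  rw [wL, wL, l, ← x] at h2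
  exact ⟨l, (FC_cancel n p' (fun c => add_pos_of_pos_of_nonneg (normSq_pos.2 c) (h.ex_mem _ _).1)
    h2).symm, ee_eq_iff.1 p'.symm⟩

theorem Ok.upp_inj (h : d.Ok) (hz : z ∈ d.CU) (hz' : z' ∈ d.CU) (h1 : d.uU z = d.uU z')
    (h2 : d.wU z = d.wU z') : z' (2, 0) = z (2, 0) ∧
      d.z1 (z (2, 0)) (xv z') = d.z1 (z (2, 0)) (xv z) ∧ ∃ n : ℤ, d.phH z' = d.phH z + n := by
  have a := h.FC_normSq_wU z
  have b := h.FC_normSq_uU hz
  rw [h2, h.FC_normSq_wU] at a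
  rw [h1, h.FC_normSq_uU hz', tt, tt] at b
  have l : z' (2, 0) = z (2, 0) := by linarith only [a, b]
  have l' : d.tt z' = d.tt z := by rw [tt, tt, l]
  rw [l] at a
  have p := (FC_polar (Real.sqrt_pos.2 (hz.1.trans_le (h.FC_CU_ge hz))) (Real.sqrt_nonneg _) h2).2
  obtain ⟨n, x⟩ : normSq (d.z1 (z (2, 0)) (xv z)) = normSq (d.z1 (z (2, 0)) (xv z')) ∧
      d.ex (z (2, 0)) (xv z) = d.ex (z (2, 0)) (xv z') := by
    rcases le_or_gt (d.tt z) (1 / 4) with ht | ht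
    · exact h.FC_hh_inj ht a.symm
    · have b := h.FC_CU_hi hz ht.le
      have b' := h.FC_CU_hi hz' (l' ▸ ht.le)
      rw [l, l'] at b'
      unfold hh at a
      exact ⟨by linarith only [a, b, b'], by linarith only [b, b']⟩
  rw [FC_uU_eq, FC_uU_eq, l, l', ← x] at h1
  exact ⟨l, (FC_cancel n (FC_neg p)
    (fun c => by have := h.FC_CU_gt hz c; unfold hh at this; linarith only [this]) h1).symm, ee_eq_iff.1 p.symm⟩

theorem Ok.lowF_inj (h : d.Ok) (hz : z ∈ d.CL) (hz' : z' ∈ d.CL) (he : d.lowF z = d.lowF z') :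
    ∃ n : ℤ, z' = act n .m z := by
  obtain ⟨a, b, n, c⟩ := (h.FC_lowF_iff hz hz').1 he
  exact ⟨n, ext4 (a.trans (xv_mk4 _ _ _).symm) b c⟩

theorem Ok.uppF_inj (h : d.Ok) (hz : z ∈ d.CU) (hz' : z' ∈ d.CU) (he : d.uppF z = d.uppF z') :
    ∃ n : ℤ, z' = act n .m z := by
  obtain ⟨a, b, n, c⟩ := (h.FC_uppF_iff hz hz').1 he
  exact ⟨n, ext4 (a.trans (xv_mk4 _ _ _).symm) b c⟩

theorem Ok.lowF_surj (h : d.Ok) (h0 : cc 0 y ≠ 0) (h1 : -d.M - 1 / 8 < d.nuF y)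
    (h2 : tF y < 1 / 8) : ∃ z ∈ d.CL, d.lowF z = y := by
  exact h.FC_lowF_surj h0 h1 h2

theorem Ok.uppF_surj (h : d.Ok) (h1 : 0 < tF y) (h2 : tF y < 9 / 8)
    (h3 : tF y < 1 / 4 ∨ rF y < 8) : ∃ z ∈ d.CU, d.uppF z = y := by
  exact h.FC_uppF_surj h1 h2 h3

theorem lowF_act (s : ℝ) (z : E6) : d.lowF (act s .m z) = act s .f (d.lowF z) := by
  exact FC_lowF_act s z

theorem uppF_act (s : ℝ) (z : E6) : d.uppF (act s .m z) = act s .f (d.uppF z) := by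
  exact FC_uppF_act s z

theorem Ok.lowF_io (h : d.Ok) (z : E6) : d.lowF (io z) = iof (d.lowF z) := by
  exact h.FC_lowF_io z

theorem Ok.uppF_io (h : d.Ok) (z : E6) : d.uppF (iop z) = iof (d.uppF z) := by
  exact h.FC_uppF_iop z

theorem lowF_polar (ht : d.tt z ≤ 0) : d.lowF z = Plow d.μ₁ (d.uni z) := by
  have e : d.ex (z (2, 0)) (xv z) = 0 := FC_ex_low ht
  simp [lowF, Plow, uni, uL, wL, hh, e, tt]

theorem uppF_polar (ht : 1 / 2 ≤ d.tt z) :
    d.uppF z = Pup (mkc (cc 0 (d.uni z)) (cc 1 (d.uni z)) ⟨d.tt z - 1, d.phH z⟩) := by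
  have e : d.ex (z (2, 0)) (xv z) = d.tt z := FC_ex_top ht
  simp [uppF, Pup, uni, uU, wU, hh, e, add_comm]

theorem Ok.low_upp (h : d.Ok) (hz : z ∈ d.CL) (ht : 0 < d.tt z) (hx : xv y = xv z)
    (hl : y (2, 0) = z (2, 0)) (he : ee (y (2, 1)) * ‖(⟨d.σ * z (1, 0), z (1, 1) / d.σ⟩ : ℂ)‖ =
      ee (z (2, 1)) * (⟨d.σ * z (1, 0), z (1, 1) / d.σ⟩ : ℂ)) :
    d.uU y = d.uL z ∧ d.wU y = d.wL z := by
  have a : |d.tt z| ≤ 1 / 4 := abs_le.2 ⟨by linarith only [ht], by linarith only [ht, hz, hz.2.1]⟩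
  have hy : y ∈ d.CU := by
    have e : d.tt y = d.tt z := by rw [tt, tt, hl]
    exact ⟨e ▸ ht, by linarith only [ht, e, hz, hz.2.1], .inl (by linarith only [ht, e, hz, hz.2.1])⟩
  have e := (h.FC_low_upp hz hy).2 ⟨hx, hl, by
    rw [h.f1 _ a, norm_mul, norm_real, Real.norm_of_nonneg (Real.sqrt_nonneg _), ofReal_mul,
      xv_2, xv_3]
    linear_combination (√(d.kap (z (2, 0))) : ℝ) * he⟩
  exact ⟨(congrArg (cc 0) e).symm, (congrArg (cc 2) e).symm⟩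

end HD

end Pool.Agent.Work.MP_bf98aa_gt.B3
end
end

-- merged part: Pool.Agent.Work.MP_bf98aa_gt.B3.N6
section
/-!
The lower and the upper map are symplectic.

PLAN. Smoothness of `wL`: `ex / normSq z₁` is locally zero for `t < 0`; for `0 ≤ t`, `z₁ ≠ 0` and `al_sm`. Of `uU`: `t - ex` is locally zero if `z₁ = 0` or `1 / 8 < t` (strict inequalities in `al_one`, `b2`), else a quotient.
`lowF_symp`: `pb1_rot1`, `ang_polar`: `ang uL = -(hh - t) dφ'`, `ang wL = (1 + ex / r) ang z₁ + hh dφ'`; so `pb1 lowF lamS = t dφ' + ang z₁ + ang z₂ + (ex / r) ang z₁`; `lemF`; where `ex ≠ 0`, `f1` gives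
`ang z₁ = kap / (2 π) • rq` (`ang_mul`, `ang_real`); the difference with `lamL` is `d (μ Hh - μ₁ φ')`. `uppF_symp`: the same with `-(t - ex) / r`.
`fF_symp`: `ang (zy ..) = b / 2 • rq` (`ang_mul`, `ang_real`, `Matrix.det_fin_two`). `omf`, `opf`: `lowF = fF ∘ omf` near the point (`fF_omf`), so `pb omf (d1 (lam f)) = pb omf (pb fF (d1 lamS)) = pb lowF (d1 lamS)` (`pb_comp`, `pb_congr`, `pb_congr'`).
`lamL_m`: on `Nf` or near a centre `rd = id` near the point or both `a0` and `al` vanish; `Om_mid`. `pu_symp`: potential from `shf t • d (x₂ x₃ / 2)`: `pb1 pu lamH - lam p = d (μ₁ φ + ..)` up to the closed form `d ((μ (1 - shf' t) - t + shf t) x₂ x₃ / 2) + (function of the level times x₂ x₃) dμ`;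
in detail `μ d (a(t) P) = d (μ a P) - a P dμ` and `(t - shf t) dP = d ((t - shf t) P) - a P dμ` for `a = 1 - shf'`, `P = x₂ x₃ / 2`.
-/

set_option autoImplicit false

open scoped Manifold ContDiff Topology Matrix ComplexConjugate
open Set Complex Filter

namespace Pool.Agent.Work.MP_bf98aa_gt.B3

open Pool.Agent.Work.MP_bf98aa_gt.Th Pool.Agent.Work.MP_bf98aa_gt.Cy

namespace HD

variable {d : HD} {z y : E6}

theorem Ok.uL_sm (h : d.Ok) (hz : z ∈ d.CL) :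
    ContDiffAt ℝ ∞ d.uL z ∧ ContDiffAt ℝ ∞ d.wL z := by
  exact ⟨h.FD_uL_sm hz, h.FD_wL_sm hz⟩

theorem Ok.uU_sm (h : d.Ok) (hz : z ∈ d.CU) :
    ContDiffAt ℝ ∞ d.uU z ∧ ContDiffAt ℝ ∞ d.wU z := by
  exact ⟨h.FD_uU_sm hz, h.FD_wU_sm hz⟩

theorem Ok.lowF_sm (h : d.Ok) (hz : z ∈ d.CL) : ContDiffAt ℝ ∞ d.lowF z := by
  exact h.FD_lowF_sm hz

theorem Ok.uppF_sm (h : d.Ok) (hz : z ∈ d.CU) : ContDiffAt ℝ ∞ d.uppF z := by
  exact h.FD_uppF_sm hz

theorem contDiff_lamO (d : HD) : ContDiff ℝ ∞ (lamO d.Om) := by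
  exact d.FD_contDiff_lamO

theorem Ok.lamL_sm (h : d.Ok) (hz : z ∈ d.CL) : ContDiffAt ℝ ∞ d.lamL z := by
  exact h.FD_lamL_sm hz

theorem Ok.lamH_sm (h : d.Ok) (hz : 0 < d.tt z) : ContDiffAt ℝ ∞ d.lamH z := by
  refine d.FD_contDiff_lamO.contDiffAt.sub (ContDiffAt.fun_smul ?_ FD_contDiff_rq.contDiffAt)
  have c := d.FD_contDiff_tt.continuous.continuousAt (x := z)
  by_cases q : d.qq (z (1, 0)) (z (1, 1)) = 0
  · refine (contDiffAt_const (c := 0)).congr_of_eventuallyEq ?_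
    filter_upwards [continuousAt_const.eventually_lt c hz,
      (continuousAt_const.mul d.FD_contDiff_qqE.continuous.continuousAt).eventually_lt
        (continuousAt_const.mul c) (show d.c₀ * d.qq _ _ < d.M₁ * d.tt z by
          rw [q, mul_zero]; exact mul_pos (by linarith [h.hη.pos]) hz)] with y h1 h2
    rw [h.FC_ex_one h1 h2.le, tt, sub_self, zero_div]
  · exact (d.FD_contDiff_tt.contDiffAt.sub (h.FD_ex_sm (.inr hz.ne'))).div
      (contDiffAt_const.mul d.FD_contDiff_qqE.contDiffAt) (mul_ne_zero Real.two_pi_pos.ne' q)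

theorem contDiff_lamS : ContDiff ℝ ∞ lamS := by
  exact FD_lamS

theorem Ok.lowF_symp (h : d.Ok) (hz : z ∈ d.CL) : pb d.lowF (d1 lamS) z = d1 d.lamL z := by
  exact h.FD_lowF_symp hz

theorem Ok.uppF_symp (h : d.Ok) (hz : z ∈ d.CU) : pb d.uppF (d1 lamS) z = d1 d.lamH z := by
  exact h.FD_uppF_symp hz

theorem N6_b (d : HD) : ContDiff ℝ ∞ d.b := by
  have e : d.b = fun μ => d.b 0 + μ * d.v 0 1 := funext fun μ => by rw [← d.b_add, zero_add]
  rw [e]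
  fun_prop

theorem N6_bf (d : HD) {a b : E6 → V4} (ha : ContDiffAt ℝ ∞ a z) (hb : ContDiffAt ℝ ∞ b z) :
    ContDiffAt ℝ ∞ (fun y => bf (d.Om0 (y (2, 0))) (a y) (b y)) z := by
  have e : ∀ μ x y, bf (d.Om0 μ) x y = bf (d.Om0 0) x y + μ * bf (rm d.v) x y := fun μ x y => by
    rw [← bf_smul, ← bf_add, ← d.Om0_add, zero_add]
  have e' : (fun y : E6 => bf (d.Om0 (y (2, 0))) (a y) (b y)) =
      fun y => bf (d.Om0 0) (a y) (b y) + y (2, 0) * bf (rm d.v) (a y) (b y) :=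
    funext fun y => e _ _ _
  rw [e']
  exact (contDiffAt_bf _ ha hb).add
    ((contDiff_apply ℝ ℝ _).contDiffAt.mul (contDiffAt_bf _ ha hb))

theorem N6_nu (y : E6) : d.nuF y - d.μ₁ = tF y := by
  rw [nuF, tF]; ring

theorem Ok.zy_sm (h : d.Ok) {μ s t : ℝ} (hμ : |μ - d.μ₁| ≤ 1 / 4) :
    ContDiffAt ℝ ∞ (fun p : ℝ × ℝ × ℝ => d.zy p.1 p.2.1 p.2.2) (μ, s, t) := by
  have h1 : ContDiffAt ℝ ∞ (fun p : ℝ × ℝ × ℝ => √(Real.pi * d.b p.1 / d.Y.det)) (μ, s, t) :=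
    ContDiffAt.sqrt ((contDiff_const.mul (d.N6_b.comp contDiff_fst)).div_const _).contDiffAt
      (div_pos (mul_pos Real.pi_pos (h.b_pos hμ)) h.hY).ne'
  exact (contDiffAt_ofReal h1).mul (contDiffAt_cmk (by fun_prop) (by fun_prop))

theorem Ok.fF_sm (h : d.Ok) (hz : |tF z| < 1 / 4) : ContDiffAt ℝ ∞ d.fF z := by
  have h1 : ContDiffAt ℝ ∞ (fun y : E6 => (d.nuF y, y (1, 0), y (1, 1))) z :=
    contDiff_nuF.contDiffAt.prodMk (by fun_prop)
  have h2 := (h.zy_sm (μ := d.nuF z) (s := z (1, 0)) (t := z (1, 1))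
    (by rw [N6_nu]; exact hz.le)).comp z h1
  exact contDiffAt_mkc (contDiff_cc 0).contDiffAt h2 (contDiff_cc 2).contDiffAt

theorem Ok.fF_symp (h : d.Ok) (hz : |tF z| < 1 / 4) :
    pb d.fF (d1 lamS) z = d1 (d.lam .f) z := by
  rw [pb_d1 (h.fF_sm hz) contDiff_lamS.contDiffAt]
  refine d1_congr ?_
  have hc : Continuous fun y => |tF y| := by
    have : tF = fun y => d.nuF y - d.μ₁ := funext fun y => (N6_nu y).symm
    rw [this]
    exact (contDiff_nuF.continuous.sub continuous_const).abs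
  filter_upwards [(isOpen_lt hc continuous_const).mem_nhds hz] with y hy
  have hf := (h.fF_sm hy).differentiableAt (by simp)
  have hb : 0 < Real.pi * d.b (d.nuF y) / d.Y.det :=
    div_pos (mul_pos Real.pi_pos (h.b_pos (by rw [N6_nu]; exact le_of_lt hy))) h.hY
  have hr : DifferentiableAt ℝ (fun x => √(Real.pi * d.b (d.nuF x) / d.Y.det)) y :=
    (ContDiffAt.sqrt ((contDiff_const.mul (d.N6_b.comp contDiff_nuF)).div_const _).contDiffAt
      hb.ne').differentiableAt (by simp)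
  have ha : ∀ p q : ℝ, HasFDerivAt (fun x : E6 => p * x (1, 0) + q * x (1, 1))
      (p • dc (1, 0) + q • dc (1, 1)) y := fun p q =>
    ((dc (1, 0)).hasFDerivAt.const_mul p).add ((dc (1, 1)).hasFDerivAt.const_mul q)
  have hg : DifferentiableAt ℝ (fun x : E6 => (⟨d.Y 0 0 * x (1, 0) + d.Y 0 1 * x (1, 1),
      d.Y 1 0 * x (1, 0) + d.Y 1 1 * x (1, 1)⟩ : ℂ)) y :=
    (contDiffAt_cmk (by fun_prop) (by fun_prop)).differentiableAt (by simp)
  have e1 : pb1 d.fF (rot1 1) y =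
      (d.b (d.nuF y) / 2) • (y (1, 0) • dc (1, 1) - y (1, 1) • dc (1, 0)) := by
    rw [pb1_rot1 1 hf]
    refine (ang_mul (ofRealCLM.differentiableAt.comp y hr) hg).trans ?_
    refine ContinuousLinearMap.ext fun v => ?_
    have e := ang_real hr
    simp only [Function.comp_def, ofRealCLM_apply, e, smul_zero, zero_add,
      smul_apply, DFr_ang (ha _ _) (ha _ _), normSq_ofReal,
      Real.mul_self_sqrt hb.le, add_apply, sub_apply,
      dc_apply, smul_eq_mul]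
    have hY := h.hY.ne'
    have hp := Real.pi_ne_zero
    field_simp
    rw [Matrix.det_fin_two]
    ring
  have e0 : pb1 d.fF (rot1 0) y = rot1 0 y := (pb1_rot1 0 hf).trans (ang_cc 0)
  have e2 : pb1 d.fF (rot1 2) y = rot1 2 y := (pb1_rot1 2 hf).trans (ang_cc 2)
  change pb1 d.fF (rot1 0) y + pb1 d.fF (rot1 1) y + pb1 d.fF (rot1 2) y = _
  rw [e0, e1, e2, add_right_comm]
  rfl

theorem Ok.yc_sm (h : d.Ok) (hz : |d.tt z| ≤ 1 / 4) : ContDiffAt ℝ ∞ d.yc z := by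
  have hb : ContDiffAt ℝ ∞ (fun y : E6 => d.b (y (2, 0))) z :=
    (d.N6_b.comp (contDiff_apply ℝ ℝ _)).contDiffAt
  have h0 := (h.b_pos hz).ne'
  refine contDiffAt_cmk (ContDiffAt.div ?_ hb h0) (ContDiffAt.div ?_ hb h0)
  · exact d.N6_bf contDiff_xv.contDiffAt contDiffAt_const
  · exact d.N6_bf contDiffAt_const contDiff_xv.contDiffAt

theorem contDiff_pu (d : HD) : ContDiff ℝ ∞ d.pu := by
  refine contDiff_iff_contDiffAt.2 fun z => contDiffAt_mk4 contDiff_xv.contDiffAt (by fun_prop) ?_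
  have h1 : ContDiffAt ℝ ∞ (fun y => deriv shf (d.tt y)) z :=
    (contDiff_deriv_shf.comp contDiff_tt).contDiffAt
  fun_prop

theorem Ok.lamL_m (h : d.Ok) (hz : z ∈ d.Wo .m)
    (hs : d.tt z < 0 ∨ (|z (1, 0)| < 1 / 2 ∧ |z (1, 1)| < 1 / 2)) :
    z ∈ d.CL ∧ d1 d.lamL z = d1 (d.lam .m) z := by
  have hμ := h.hμ
  refine ⟨⟨by have := hz.1; rw [M]; linarith only [hμ, this], hz.2.1, ?_⟩, ?_⟩
  · rcases hs with hs | hs
    · exact Or.inr hs
    · refine hz.2.2.imp_left fun h0 h1 => h0 (h.gz_qr.2 ?_)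
      rw [qr, (rd_eq hs.1).1, (rd_eq hs.2).1, h1]
  · have e : d.lamL =ᶠ[𝓝 z] fun y => d.lam .m y + d.μ₁ • dc (2, 1) := by
      have hc : ∀ i, Continuous fun y : E6 => y i := fun i => continuous_apply i
      have h1 : ∀ᶠ y in 𝓝 z, d.tt y < 0 ∨ (|y (1, 0)| < 1 / 2 ∧ |y (1, 1)| < 1 / 2) := by
        rcases hs with hs | hs
        · filter_upwards [(isOpen_lt contDiff_tt.continuous continuous_const).mem_nhds hs] with y hy
          exact Or.inl hy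
        · filter_upwards [(isOpen_lt (hc _).abs continuous_const).mem_nhds hs.1,
            (isOpen_lt (hc _).abs continuous_const).mem_nhds hs.2] with y h1 h2
          exact Or.inr ⟨h1, h2⟩
      filter_upwards [h1, (h.isOpen_Wo .m).mem_nhds hz] with y hy hw
      have h2 := hw.1
      have h3 : y (2, 0) - d.μ₁ < 1 / 8 := hw.2.1
      have h4 : d.Om (y (2, 0)) = d.Om0 (y (2, 0)) := d.Om_mid (by linarith only [h3]) (by linarith only [hμ, h2])
      have h5 : (d.al (d.qq (y (1, 0)) (y (1, 1))) (d.tt y) /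
          (2 * Real.pi * d.qq (y (1, 0)) (y (1, 1)))) • rq y =
          (d.a0 y / (2 * Real.pi * d.qr y)) •
            (rd (y (1, 0)) • dc (1, 1) - rd (y (1, 1)) • dc (1, 0)) := by
        rcases hy with hy | hy
        · rw [a0, al_neg hy.le, al_neg hy.le, zero_div, zero_div, zero_smul, zero_smul]
        · rw [a0, qr, (rd_eq hy.1).1, (rd_eq hy.2).1, rq]
      simp only [lamL, lamO, lam, h4, h5]
      rw [tt]
      module
    rw [d1_congr e, d1_add (h.lam_sm hz) contDiffAt_const, d1_const, add_zero]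

theorem Ok.pu_symp (h : d.Ok) (hz : z ∈ d.Wo .p) (h1 : |z (1, 0)| < 1 / 32)
    (h2 : |z (1, 1)| < 1 / 32) :
    pb d.pu (d1 d.lamH) z = d1 (d.lam .p) z := by
  have hμ := h.hμ
  obtain ⟨g, hg⟩ : ∃ g : E6 → ℝ, ∀ y, g y = (1 - deriv shf (d.tt y)) * (y (1, 0) * y (1, 1)) / 2 :=
    ⟨_, fun _ => rfl⟩
  have c : ∀ i : Cx, ContDiff ℝ ∞ fun y : E6 => y i := fun i => contDiff_apply ℝ ℝ i
  have g1 : ContDiff ℝ ∞ g := funext hg ▸
    ((contDiff_const.sub (contDiff_deriv_shf.comp contDiff_tt)).mul ((c _).mul (c _))).div_const 2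
  have e : d.pu = fun y => y + g y • bv (2, 1) :=
    funext fun y => by apply ext6 <;> simp [pu, bv, hg]
  have o : ∀ i : Cx, IsOpen {y : E6 | |y i| < 1 / 32} := fun i =>
    isOpen_lt (c i).continuous.abs continuous_const
  refine symp_of (r := fun y => d.μ₁ * y (2, 1) + y (2, 0) * g y -
    (d.tt y - shf (d.tt y)) * (y (1, 0) * y (1, 1) * 2⁻¹)) d.contDiff_pu.contDiffAt (h.lamH_sm hz.1)
    (h.lam_sm hz) (((contDiff_const.mul (c _)).add ((c _).mul g1)).sub ((contDiff_tt.sub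
      (contDiff_shf.comp contDiff_tt)).mul (((c _).mul (c _)).mul contDiff_const))).contDiffAt ?_
  filter_upwards [(h.isOpen_Wo .p).mem_nhds hz, (o _).mem_nhds h1, (o _).mem_nhds h2] with y hy a b
  have C : ∀ i : Cx, HasFDerivAt (fun y : E6 => y i) (dc i) y := fun i => (dc i).hasFDerivAt
  have G := (g1.differentiable (by simp) y).hasFDerivAt
  have T : HasFDerivAt d.tt (dc (2, 0)) y := (C _).sub_const _
  have S : HasFDerivAt (fun y => shf (d.tt y)) _ y := (contDiff_shf.differentiable (by simp) (d.tt y)).hasDerivAt.comp_hasFDerivAt y T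
  have R := (((C (2, 1)).const_mul d.μ₁).fun_add ((C (2, 0)).fun_mul G)).fun_sub
    ((T.fun_sub S).fun_mul (((C (1, 0)).fun_mul (C (1, 1))).mul_const 2⁻¹))
  have D : HasFDerivAt d.pu _ y := e ▸ (hasFDerivAt_id y).fun_add (G.smul_const (bv (2, 1)))
  obtain ⟨a1, a2⟩ := rd_eq (a.trans (by norm_num : (1 / 32 : ℝ) < 1 / 2))
  obtain ⟨b1, -⟩ := rd_eq (b.trans (by norm_num : (1 / 32 : ℝ) < 1 / 2))
  obtain ⟨n1, n2⟩ := h.ang_gz_near (z := y) (by rwa [a1]) (by rwa [b1])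
  have t1 : y (2, 0) = d.tt y + d.μ₁ := (sub_add_cancel _ _).symm
  have O := d.Om_up (ν := y (2, 0)) (by linarith only [hμ, t1, hy, hy.1])
  ext v : 1
  have x1 : xv (v + fderiv ℝ g y v • bv (2, 1)) = xv v := by
    funext i
    fin_cases i <;> simp [bv]
  have x2 : d.lamH (d.pu y) = d.lamH y := by
    simp only [lamH, lamO, rq, tt, pu, xv_mk4, mk4_20, mk4_10, mk4_11, xv_2, xv_3]
  rw [pb1_apply, x2, R.fderiv, D.fderiv]
  simp only [lamH, lamO, lam, rq, ex, a0, qr, a1, a2, b1, n1, n2, O, add_apply, sub_apply, smul_apply,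
    ContinuousLinearMap.id_apply, ContinuousLinearMap.smulRight_apply, lf_bf, x1, bf_sub, bf_smul,
    bf_E23, dc_apply, smul_eq_mul, xv_2, xv_3, hg, Pi.add_apply, Pi.smul_apply]
  simp [bv, tt]
  ring

end HD

end Pool.Agent.Work.MP_bf98aa_gt.B3
end
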