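import Pool.Agent.Work.MP_bf98aa_gt.Cy.G8
import Pool.Agent.Work.MP_735653_gt.Nerve
import Pool.Agent.Work.MP_bf98aa_gt.Cy.G4

-- merged part: Pool.Agent.Work.MP_bf98aa_gt.B3.P2
section
-- merged part: Pool.Agent.Work.MP_bf98aa_gt.Cy.G9a
section
/-!
Locally constant cocycles.

PLAN. `joint`: the function `s ↦ T i (a s) j (b s)` on the subtype `S` is locally constant (`IsLocallyConstant.iff_eventually_eq`, `IsLocallyConstant.apply_eq_of_preconnectedSpace`), by `lc`.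
`over`: choose `y x` for `x ∈ S`; `T i x j y` does not depend on `y` (`mul`, `hj`); near `x₀` use the lift `f` of `Par.tr` (`f x ∈ W j`, `q j (f x) = q i x`) and `lc`.
-/

set_option autoImplicit false

open scoped Manifold ContDiff Topology
open Set

namespace Pool.Agent.Work.MP_bf98aa_gt.Cy

open Pool.Agent.Work.MP_bf98aa_gt.Th

variable {M : Type} [TopologicalSpace M] [ChartedSpace E6 M] [IsManifold 𝓘(ℝ, E6) ∞ M]
  {F F' : Type} [NormedAddCommGroup F] [NormedSpace ℝ F] [FiniteDimensional ℝ F]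
  [NormedAddCommGroup F'] [NormedSpace ℝ F'] [FiniteDimensional ℝ F'] {k : ℕ}
  {ψ ψ' ψ'' : E6 → M} {U U' U'' V : Set E6} {O O' A B : Set M}

variable {ι H : Type} [Group H] {q : ι → E6 → M} {W : ι → Set E6} {T : ι → E6 → ι → E6 → H}

theorem Coc.self (h : Coc q W T) (i : ι) (x : E6) : T i x i x = 1 :=
  mul_eq_left.1 (h.mul i x i x i x)

theorem Coc.inv (h : Coc q W T) (i : ι) (x : E6) (j : ι) (y : E6) : T j y i x = (T i x j y)⁻¹ :=
  eq_inv_of_mul_eq_one_right ((h.mul i x j y i x).trans (h.self i x))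

theorem G9a_const {X Y : Type} [TopologicalSpace X] {S : Set X} (hS : IsPreconnected S) {φ : X → Y}
    (h : ∀ s ∈ S, ∀ᶠ t in 𝓝[S] s, φ t = φ s) {s s' : X} (hs : s ∈ S) (hs' : s' ∈ S) :
    φ s = φ s' :=
  hS.induction₂' (fun a b => φ a = φ b) (fun x hx => (h x hx).mono fun _ e => ⟨e.symm, e⟩)
    (fun _ _ _ _ _ _ => Eq.trans) hs hs'

theorem Coc.joint (h : Coc q W T) {X : Type} [TopologicalSpace X] {S : Set X}
    (hS : IsPreconnected S) {i j : ι} {a b : X → E6} (ha : ContinuousOn a S)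
    (hb : ContinuousOn b S) (hi : MapsTo a S (W i)) (hj : MapsTo b S (W j))
    (he : ∀ s ∈ S, q i (a s) = q j (b s)) {s s' : X} (hs : s ∈ S) (hs' : s' ∈ S) :
    T i (a s) j (b s) = T i (a s') j (b s') := by
  refine G9a_const (φ := fun s => T i (a s) j (b s)) hS (fun x hx => ?_) hs hs'
  filter_upwards [((ha x hx).prodMk (hb x hx)).eventually
    (h.lc i j _ (hi hx) _ (hj hx) (he x hx)), self_mem_nhdsWithin] with t k ht using k (he t ht)

theorem Coc.over (h : Coc q W T) (hP : ∀ i, Par (q i) (W i)) {i j : ι} {S : Set E6}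
    (hS : IsPreconnected S) (hi : S ⊆ W i)
    (hj : ∀ y ∈ W j, ∀ y' ∈ W j, q j y = q j y' → T j y j y' = 1)
    (he : ∀ x ∈ S, ∃ y ∈ W j, q i x = q j y) :
    ∃ g : H, ∀ x ∈ S, ∀ y ∈ W j, q i x = q j y → T i x j y = g := by
  choose! y hy e using he
  have a : ∀ x ∈ S, ∀ z ∈ W j, q i x = q j z → T i x j z = T i x j (y x) := fun x hx z hz k => by
    rw [← h.mul i x j (y x) j z, hj _ (hy x hx) _ hz ((e x hx).symm.trans k), mul_one]
  rcases S.eq_empty_or_nonempty with rfl | ⟨x₀, h₀⟩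
  · exact ⟨1, fun _ k => k.elim⟩
  refine ⟨T i x₀ j (y x₀), fun x hx z hz k => (a x hx z hz k).trans
    (G9a_const (φ := fun s => T i s j (y s)) hS (fun x hx => ?_) hx h₀)⟩
  obtain ⟨f, ⟨f1, f2⟩, f3⟩ := (hP j).tr (hy x hx) ((hP i).sm x (hi hx)) (e x hx)
  have c : ContinuousAt (fun t => (t, f t)) x := continuousAt_id.prodMk f1.continuousAt
  have l := h.lc i j _ (hi hx) _ (hy x hx) (e x hx)
  have m := (hP j).opn.mem_nhds (hy x hx)
  rw [← f3] at l m
  filter_upwards [nhdsWithin_le_nhds (c.eventually l), nhdsWithin_le_nhds f2,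
    nhdsWithin_le_nhds (f1.continuousAt.eventually m), self_mem_nhdsWithin] with t k1 k2 k3 ht
  rw [← a t ht _ k3 k2.symm, k1 k2.symm, f3]

end Pool.Agent.Work.MP_bf98aa_gt.Cy
end

-- merged part: Pool.Agent.Work.MP_bf98aa_gt.Cy.G9
section
/-!
Simple connectivity from locally constant cocycles.

PLAN. `M` is path connected (images of the `W i`, `hconn`). Take the path weight `Wt` of `Nerve_W`; for each `i` let `D i x` be the weight of the image of a path in `W i` from a base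
point to `x` (independent of the path, `W i` being contractible: `Nerve_homotopic` in `E6`, then `Path.Homotopic.map` along the restriction of `q i` to the subtype) and
`T i x j y = D i x * (D j y)⁻¹`. It is locally constant: join `x` to `x'` by a short segment and lift its image to `W j` by a transition map (`Par.tr`, `Par.inv`).
With `g` from `h` the function `Fn (q i x) = g i * D i x` is well defined and `Fn a * Wt α = Fn b` for paths `α` inside a small neighbourhood of any point, hence for all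
paths (subdivision, or a clopen argument on `[0, 1]`, see the end of `simplyConnected_of_nerve`).
-/

set_option autoImplicit false

open scoped Manifold ContDiff Topology
open Set

namespace Pool.Agent.Work.MP_bf98aa_gt.Cy

open Pool.Agent.Work.MP_bf98aa_gt.Th

variable {M : Type} [TopologicalSpace M] [ChartedSpace E6 M] [IsManifold 𝓘(ℝ, E6) ∞ M]
  {F F' : Type} [NormedAddCommGroup F] [NormedSpace ℝ F] [FiniteDimensional ℝ F]
  [NormedAddCommGroup F'] [NormedSpace ℝ F'] [FiniteDimensional ℝ F'] {k : ℕ}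
  {ψ ψ' ψ'' : E6 → M} {U U' U'' V : Set E6} {O O' A B : Set M}

variable {ι H : Type} [Group H] {q : ι → E6 → M} {W : ι → Set E6} {T : ι → E6 → ι → E6 → H}

/-- The weight of the image of a path from a base point, on a simply connected piece. -/
theorem G9_dev {X Y G : Type} [TopologicalSpace X] [TopologicalSpace Y] [Group G]
    (Wt : ∀ a b : Y, Path a b → G)
    (hWt : ∀ (a b c : Y) (α : Path a b) (β : Path b c), Wt a c (α.trans β) = Wt a b α * Wt b c β)
    (hWh : ∀ (a b : Y) (α β : Path a b), α.Homotopic β → Wt a b α = Wt a b β)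
    {f : X → Y} {S : Set X} (hf : ContinuousOn f S) (hS : ContractibleSpace S) :
    ∃ D : X → G, ∀ (a b : Y) (α : Path a b) (γ : unitInterval → X), Continuous γ →
      (∀ t, γ t ∈ S) → (∀ t, f (γ t) = α t) → D (γ 0) * Wt a b α = D (γ 1) := by
  classical
  obtain ⟨x₀⟩ : Nonempty S := inferInstance
  let Q : C(S, Y) := ⟨fun x => f x.1, hf.domRestrict⟩
  refine ⟨fun x => if hx : x ∈ S then
    Wt _ _ ((PathConnectedSpace.somePath x₀ ⟨x, hx⟩).map Q.continuous) else 1, ?_⟩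
  intro a b α γ hγ hγS hγα
  have ha : Q ⟨γ 0, hγS 0⟩ = a := (hγα 0).trans α.source
  have hb : Q ⟨γ 1, hγS 1⟩ = b := (hγα 1).trans α.target
  subst ha hb
  let γ' : Path (⟨γ 0, hγS 0⟩ : S) ⟨γ 1, hγS 1⟩ :=
    { toFun := fun t => ⟨γ t, hγS t⟩
      continuous_toFun := hγ.subtype_mk _
      source' := rfl
      target' := rfl }
  have he : α = γ'.map Q.continuous := by
    ext t
    exact (hγα t).symm
  simp only [dif_pos (hγS 0), dif_pos (hγS 1)]
  rw [he, ← hWt, ← Path.map_trans]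
  exact hWh _ _ _ _ ((SimplyConnectedSpace.paths_homotopic _ _).map Q)

/-- A local primitive of the weight function forces the weights of loops to be trivial. -/
theorem G9_glob {Y G : Type} [TopologicalSpace Y] [Group G] (Wt : ∀ a b : Y, Path a b → G)
    (hWt : ∀ (a b c : Y) (α : Path a b) (β : Path b c), Wt a c (α.trans β) = Wt a b α * Wt b c β)
    (hWh : ∀ (a b : Y) (α β : Path a b), α.Homotopic β → Wt a b α = Wt a b β) (L : Y → G)
    (hloc : ∀ m : Y, ∃ N ∈ 𝓝 m, ∀ (a b : Y) (α : Path a b), (∀ t, α t ∈ N) →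
      L a * Wt a b α = L b) (x : Y) (α : Path x x) : Wt x x α = 1 := by
  choose N hN hL using hloc
  have hcast : ∀ (x y x' y' : Y) (hx : x' = x) (hy : y' = y) (α : Path x y),
      Wt x' y' (α.cast hx hy) = Wt x y α := by
    intro x y x' y' hx hy α
    subst hx hy
    rfl
  obtain ⟨t, ht0, htm, ⟨n, hn⟩, hti⟩ := exists_monotone_Icc_subset_open_cover_unitInterval
    (c := fun p => α ⁻¹' interior (N p)) (fun p => isOpen_interior.preimage α.continuous)
    (fun s _ => Set.mem_iUnion.mpr ⟨α s, mem_interior_iff_mem_nhds.2 (hN _)⟩)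
  have hind : ∀ m, L (α 0) * Wt _ _ (α.subpath 0 (t m)) = L (α (t m)) := by
    intro m
    induction m with
    | zero =>
      refine hL (α 0) _ _ _ fun s => ?_
      have hs : α.subpath 0 (t 0) s ∈ Set.range (α.subpath 0 (t 0)) := ⟨s, rfl⟩
      rw [Path.range_subpath] at hs
      obtain ⟨u, hu, hus⟩ := hs
      have : u = 0 := by simpa [ht0] using hu
      rw [← hus, this]
      exact mem_of_mem_nhds (hN _)
    | succ m ih =>
      obtain ⟨p, hp⟩ := hti m
      rw [← hWh _ _ _ _ ⟨Path.Homotopy.subpathTransSubpath α 0 (t m) (t (m + 1))⟩, hWt,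
        ← mul_assoc, ih]
      refine hL p _ _ _ fun s => ?_
      have hs : α.subpath (t m) (t (m + 1)) s ∈ Set.range (α.subpath (t m) (t (m + 1))) :=
        ⟨s, rfl⟩
      rw [Path.range_subpath_of_le _ _ _ (htm (Nat.le_succ m))] at hs
      obtain ⟨u, hu, hus⟩ := hs
      rw [← hus]
      exact interior_subset (hp hu)
  have hfin := hind n
  rw [hn n le_rfl, Path.subpath_zero_one, hcast] at hfin
  simpa using hfin

/-- A continuous local section. -/
theorem G9_sec (hP : Par ψ U) {x : E6} (hx : x ∈ U) : ∃ (χ : M → E6) (N : Set M), N ∈ 𝓝 (ψ x) ∧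
    ContinuousOn χ N ∧ (∀ n ∈ N, χ n ∈ U ∧ ψ (χ n) = n) ∧ ∀ᶠ z in 𝓝 x, χ (ψ z) = z := by
  obtain ⟨χ, h1, h2, h3⟩ := hP.inv x hx
  have h4 : ContMDiffAt 𝓘(ℝ, E6) 𝓘(ℝ, E6) 0 χ (ψ x) := h1.of_le (by simp)
  obtain ⟨u, hu, hc⟩ := (contMDiffAt_iff_contMDiffOn_nhds (by simp)).1 h4
  have h5 : χ ⁻¹' U ∈ 𝓝 (ψ x) := h1.continuousAt.preimage_mem_nhds (by
    rw [h2.self_of_nhds]
    exact hP.opn.mem_nhds hx)
  exact ⟨χ, u ∩ (χ ⁻¹' U ∩ {m | ψ (χ m) = m}), Filter.inter_mem hu (Filter.inter_mem h5 h3),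
    hc.continuousOn.mono inter_subset_left, fun n hn => hn.2, h2⟩

omit [IsManifold 𝓘(ℝ, E6) ∞ M] in
theorem G9_cont (hP : Par ψ U) : ContinuousOn ψ U := fun x hx =>
  (hP.sm x hx).continuousAt.continuousWithinAt

omit [IsManifold 𝓘(ℝ, E6) ∞ M] in
theorem G9_pc (hP : ∀ i, Par (q i) (W i)) (hU : ∀ i, ContractibleSpace (W i))
    (hcov : ∀ m, ∃ i, ∃ x ∈ W i, q i x = m) (i₀ : ι)
    (hconn : ∀ i, Relation.ReflTransGen (fun i j => ∃ x ∈ W i, ∃ y ∈ W j, q i x = q j y) i i₀) :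
    PathConnectedSpace M := by
  have hj : ∀ i, ∀ x ∈ W i, ∀ y ∈ W i, Joined (q i x) (q i y) := by
    intro i x hx y hy
    have := hU i
    have h1 : IsPathConnected (W i) := isPathConnected_iff_pathConnectedSpace.mpr inferInstance
    exact ((h1.image' (G9_cont (hP i))).joinedIn _ ⟨x, hx, rfl⟩ _ ⟨y, hy, rfl⟩).joined
  have := hU i₀
  obtain ⟨b⟩ : Nonempty (W i₀) := inferInstance
  have hb : ∀ i, ∀ x ∈ W i, Joined (q i x) (q i₀ b.1) := by
    intro i
    refine Relation.ReflTransGen.head_induction_on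
      (motive := fun i _ => ∀ x ∈ W i, Joined (q i x) (q i₀ b.1)) (hconn i)
      (fun x hx => hj i₀ x hx b.1 b.2) ?_
    rintro a c ⟨y, hy, z, hz, he⟩ _ ih x hx
    exact (hj a x hx y hy).trans (he ▸ ih z hz)
  refine ⟨⟨q i₀ b.1⟩, fun m m' => ?_⟩
  obtain ⟨i, x, hx, rfl⟩ := hcov m
  obtain ⟨j, y, hy, rfl⟩ := hcov m'
  exact (hb i x hx).trans (hb j y hy).symm

theorem sc_of_coc (hP : ∀ i, Par (q i) (W i)) (hU : ∀ i, ContractibleSpace (W i))
    (hcov : ∀ m, ∃ i, ∃ x ∈ W i, q i x = m) (i₀ : ι)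
    (hconn : ∀ i, Relation.ReflTransGen (fun i j => ∃ x ∈ W i, ∃ y ∈ W j, q i x = q j y) i i₀)
    (h : ∀ (H : Type) [Group H] (T : ι → E6 → ι → E6 → H), Coc q W T →
      ∃ g : ι → H, ∀ i j, ∀ x ∈ W i, ∀ y ∈ W j, q i x = q j y → T i x j y = (g i)⁻¹ * g j) :
    SimplyConnectedSpace M := by
  have := G9_pc hP hU hcov i₀ hconn
  have : LocallyPathConnectedSpace M := ChartedSpace.locallyPathConnectedSpace E6 M
  obtain ⟨G, _, Wt, hWt, hWh, hW1⟩ := Pool.Agent.Work.MP_735653_gt.Nerve_W M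
  choose D hD using fun i => G9_dev Wt hWt hWh (G9_cont (hP i)) (hU i)
  have hsec : ∀ i, ∀ x ∈ W i, ∃ (χ : M → E6) (N : Set M), N ∈ 𝓝 (q i x) ∧
      (∀ n ∈ N, χ n ∈ W i ∧ q i (χ n) = n) ∧ (∀ᶠ z in 𝓝 x, χ (q i z) = z) ∧
      ∀ (a b : M) (α : Path a b), (∀ t, α t ∈ N) → D i (χ a) * Wt a b α = D i (χ b) := by
    intro i x hx
    obtain ⟨χ, N, h1, h2, h3, h4⟩ := G9_sec (hP i) hx
    refine ⟨χ, N, h1, h3, h4, fun a b α hα => ?_⟩
    have h5 := hD i a b α (fun t => χ (α t)) (h2.comp_continuous α.continuous hα)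
      (fun t => (h3 _ (hα t)).1) (fun t => (h3 _ (hα t)).2)
    simpa only [α.source, α.target] using h5
  obtain ⟨g, hg⟩ := h G (fun i x j y => D i x * (D j y)⁻¹) ⟨fun i x j y l z => by group, by
    intro i j x hx y hy he
    obtain ⟨χ, N, h1, -, h3, h4⟩ := hsec i x hx
    obtain ⟨χ', N', h1', -, h3', h4'⟩ := hsec j y hy
    have h5 : pathComponentIn (N ∩ N') (q i x) ∈ 𝓝 (q i x) :=
      pathComponentIn_mem_nhds (Filter.inter_mem h1 (he ▸ h1'))
    have h6 : ∀ᶠ z in 𝓝 x, q i z ∈ pathComponentIn (N ∩ N') (q i x) :=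
      ((hP i).sm x hx).continuousAt.preimage_mem_nhds h5
    have t1 : Filter.Tendsto (fun p : E6 × E6 => p.1) (𝓝 (x, y)) (𝓝 x) := continuous_fst.tendsto _
    have t2 : Filter.Tendsto (fun p : E6 × E6 => p.2) (𝓝 (x, y)) (𝓝 y) := continuous_snd.tendsto _
    filter_upwards [t1.eventually h3, t2.eventually h3', t1.eventually h6] with p e1 e2 e3 e4
    obtain ⟨α, hα⟩ : JoinedIn (N ∩ N') (q i x) (q i p.1) := e3
    have f1 := h4 _ _ α fun t => (hα t).1
    have f2 := h4' _ _ α fun t => (hα t).2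
    have f3 : χ' (q i x) = y := by rw [he]; exact h3'.self_of_nhds
    have f4 : χ' (q i p.1) = p.2 := by rw [e4]; exact e2
    rw [h3.self_of_nhds, e1] at f1
    rw [f3, f4] at f2
    rw [← f1, ← f2]
    group⟩
  choose ix px hpx hq using hcov
  have hL : ∀ i, ∀ x ∈ W i, ∀ m, q i x = m → g (ix m) * D (ix m) (px m) = g i * D i x := by
    intro i x hx m hm
    have h1 : D i x * (D (ix m) (px m))⁻¹ = (g i)⁻¹ * g (ix m) :=
      hg i (ix m) x hx (px m) (hpx m) (hm.trans (hq m).symm)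
    calc g (ix m) * D (ix m) (px m) = g i * ((g i)⁻¹ * g (ix m)) * D (ix m) (px m) := by group
      _ = g i * D i x := by rw [← h1]; group
  rw [simply_connected_iff_loops_nullhomotopic]
  refine ⟨inferInstance, fun x α => hW1 x α
    (G9_glob Wt hWt hWh (fun m => g (ix m) * D (ix m) (px m)) (fun m => ?_) x α)⟩
  obtain ⟨χ, N, h1, h2, -, h4⟩ := hsec (ix m) (px m) (hpx m)
  refine ⟨N, hq m ▸ h1, fun a b β hβ => ?_⟩
  have ha : a ∈ N := by simpa using hβ 0
  have hb : b ∈ N := by simpa using hβ 1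
  rw [hL _ _ (h2 a ha).1 a (h2 a ha).2, hL _ _ (h2 b hb).1 b (h2 b hb).2, mul_assoc, h4 a b β hβ]

end Pool.Agent.Work.MP_bf98aa_gt.Cy
end

-- merged part: Pool.Agent.Work.MP_bf98aa_gt.B3.PDefs
section
/-!
Definitions for the fundamental group.
-/

set_option autoImplicit false

open scoped Manifold ContDiff Topology
open Set

namespace Pool.Agent.Work.MP_bf98aa_gt.B3

open Pool.Agent.Work.MP_bf98aa_gt.Th Pool.Agent.Work.MP_bf98aa_gt.Cy

/-- A weight of paths. -/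
structure PW {Y G : Type} [TopologicalSpace Y] [Group G] (Wt : ∀ a b : Y, Path a b → G) : Prop where
  mul : ∀ (a b c : Y) (α : Path a b) (β : Path b c), Wt a c (α.trans β) = Wt a b α * Wt b c β
  htp : ∀ (a b : Y) (α β : Path a b), α.Homotopic β → Wt a b α = Wt a b β

/-- A primitive of the weight along `f` on `S`. -/
def IsDev {Y G : Type} [TopologicalSpace Y] [Group G] (Wt : ∀ a b : Y, Path a b → G) (f : E6 → Y)
    (S : Set E6) (D : E6 → G) : Prop :=
  ∀ (a b : Y) (α : Path a b) (γ : unitInterval → E6), Continuous γ → (∀ t, γ t ∈ S) →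
    (∀ t, f (γ t) = α t) → D (γ 0) * Wt a b α = D (γ 1)

/-- The projection to the first four coordinates. -/
noncomputable def px : E6 →L[ℝ] E6 :=
  ContinuousLinearMap.pi fun i => if i.1 = 2 then 0 else dc i

theorem px_apply (z : E6) (i : Cx) : px z i = if i.1 = 2 then 0 else z i := by
  rw [px, ContinuousLinearMap.pi_apply]
  split_ifs <;> rfl

/-- Scaling of the first four coordinates about `c`. -/
noncomputable def rad (c : E6) (s : ℝ) (z : E6) : E6 := z + (s - 1) • px (z - c)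

/-- A closed set that does not separate. -/
structure Thin (Z : Set E6) : Prop where
  clo : IsClosed Z
  dense : Dense Zᶜ
  conn : ∀ X, IsOpen X → IsPreconnected X → IsPreconnected (X \ Z)

section
variable {M ι H : Type} [Group H]

/-- The cocycle is trivial on paths whose image is a loop in a simply connected piece. -/
def Kill [TopologicalSpace M] (q : ι → E6 → M) (W : ι → Set E6) (T : ι → E6 → ι → E6 → H) : Prop :=
  ∀ (i : ι) (a b : ℝ → E6) (ψ : E6 → M) (S : Set E6), ContinuousOn ψ S → IsSimplyConnected S →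
    Continuous a → Continuous b → (∀ t, a t ∈ W i) → (∀ t, b t ∈ S) → (∀ t, q i (a t) = ψ (b t)) →
    b 0 = b 1 → T i (a 0) i (a 1) = 1

/-- A deck transformation. -/
structure Dk (ψ : E6 → M) (U : Set E6) (f : E6 → E6) : Prop where
  cont : ContinuousOn f U
  maps : MapsTo f U U
  eq : ∀ x ∈ U, ψ (f x) = ψ x

/-- Trivial holonomy. -/
def Tv (W : ι → Set E6) (T : ι → E6 → ι → E6 → H) (i : ι) (f : E6 → E6) : Prop :=
  ∀ x ∈ W i, T i x i (f x) = 1

/-- The cocycle is the constant `g` on the pairs of two charts. -/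
def Cst (q : ι → E6 → M) (W : ι → Set E6) (T : ι → E6 → ι → E6 → H) (i j : ι) (g : H) : Prop :=
  ∀ x ∈ W i, ∀ y ∈ W j, q i x = q j y → T i x j y = g

end

end Pool.Agent.Work.MP_bf98aa_gt.B3
end

-- merged part: Pool.Agent.Work.MP_bf98aa_gt.B3.P1
section
/-!
Primitives of path weights.

PLAN. `dev_of_sc`: copy `G9_dev`. `dev_loc`: subdivision as in `G9_glob` (`α.subpath` with the lift `γ` reparametrised), or the function `t ↦ (D (γ 0) * Wt (α.subpath 0 t)) * (D (γ t))⁻¹` is locally constant.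
`IsDev.lc`: join `x` to `y` by the segment in a ball. `sc_of_dev`: `Y = S`, `f z = if z ∈ S then ⟨z, _⟩ else x₀`, `Nerve_W`, `simply_connected_iff_loops_nullhomotopic`.
`coc_glob`: copy `sign_glob` (`Cy/Q6a`) on the subtype `X` (`IsOpen.locallyPathConnectedSpace` or similar), fibre `G` with the topology `⊥`, `coordChange i j x v = c j i x * v`; `ε k x` is the second component of `Z.localTriv k (σ x)`.
-/

set_option autoImplicit false

open scoped Manifold ContDiff Topology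
open Set

namespace Pool.Agent.Work.MP_bf98aa_gt.B3

open Pool.Agent.Work.MP_bf98aa_gt.Th Pool.Agent.Work.MP_bf98aa_gt.Cy

variable {Y G : Type} [TopologicalSpace Y] [Group G] {Wt : ∀ a b : Y, Path a b → G} {f : E6 → Y}
  {S S' : Set E6} {D D' : E6 → G}

theorem dev_of_sc (hW : PW Wt) (hf : ContinuousOn f S) (hS : IsSimplyConnected S) :
    ∃ D, IsDev Wt f S D := by
  classical
  have := hS.simplyConnectedSpace
  obtain ⟨x₀⟩ : Nonempty S := inferInstance
  let Q : C(S, Y) := ⟨fun x => f x.1, hf.domRestrict⟩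
  refine ⟨fun x => if hx : x ∈ S then
    Wt _ _ ((PathConnectedSpace.somePath x₀ ⟨x, hx⟩).map Q.continuous) else 1, ?_⟩
  intro a b α γ hγ hγS hγα
  have ha : Q ⟨γ 0, hγS 0⟩ = a := (hγα 0).trans α.source
  have hb : Q ⟨γ 1, hγS 1⟩ = b := (hγα 1).trans α.target
  subst ha hb
  let γ' : Path (⟨γ 0, hγS 0⟩ : S) ⟨γ 1, hγS 1⟩ :=
    { toFun := fun t => ⟨γ t, hγS t⟩
      continuous_toFun := hγ.subtype_mk _
      source' := rfl
      target' := rfl }
  have he : α = γ'.map Q.continuous := by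
    ext t
    exact (hγα t).symm
  simp only [dif_pos (hγS 0), dif_pos (hγS 1)]
  rw [he, ← hW.mul, ← Path.map_trans]
  exact hW.htp _ _ _ _ ((SimplyConnectedSpace.paths_homotopic _ _).map Q)

theorem IsDev.mono (h : IsDev Wt f S D) (hs : S' ⊆ S) : IsDev Wt f S' D := by
  exact fun a b α γ hγ hγS hγα => h a b α γ hγ (fun t => hs (hγS t)) hγα

theorem IsDev.congr (h : IsDev Wt f S D) (c : G) (he : ∀ x ∈ S, D' x = c * D x) :
    IsDev Wt f S D' := by
  intro a b α γ hγ hγS hγα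
  rw [he _ (hγS 0), he _ (hγS 1), mul_assoc, h a b α γ hγ hγS hγα]

theorem dev_loc (hW : PW Wt) (h : ∀ x ∈ S, ∃ N ∈ 𝓝 x, IsDev Wt f (N ∩ S) D) : IsDev Wt f S D := by
  intro a b α γ hγ hγS hγα
  choose N hN hL using fun p : unitInterval => h (γ p) (hγS p)
  have hcast : ∀ (x y x' y' : Y) (hx : x' = x) (hy : y' = y) (α : Path x y),
      Wt x' y' (α.cast hx hy) = Wt x y α := by
    intro x y x' y' hx hy α
    subst hx hy
    rfl
  have piece : ∀ p u v : unitInterval, (∀ s ∈ uIcc u v, γ s ∈ N p) →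
      D (γ u) * Wt _ _ (α.subpath u v) = D (γ v) := by
    intro p u v huv
    have := hL p _ _ (α.subpath u v) (γ ∘ Icc.convexComb u v)
      (hγ.comp (Icc.continuous_convexComb u v))
      (fun s => ⟨huv _ (Path.range_subpathAux u v ▸ mem_range_self s), hγS _⟩) fun s => hγα _
    simpa using this
  obtain ⟨t, ht0, htm, ⟨n, hn⟩, hti⟩ := exists_monotone_Icc_subset_open_cover_unitInterval
    (c := fun p => γ ⁻¹' interior (N p)) (fun p => isOpen_interior.preimage hγ)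
    (fun s _ => Set.mem_iUnion.mpr ⟨s, mem_interior_iff_mem_nhds.2 (hN _)⟩)
  have hind : ∀ m, D (γ 0) * Wt _ _ (α.subpath 0 (t m)) = D (γ (t m)) := by
    intro m
    induction m with
    | zero =>
      refine piece 0 _ _ fun s hs => ?_
      have : s = 0 := by simpa [ht0] using hs
      rw [this]
      exact mem_of_mem_nhds (hN _)
    | succ m ih =>
      obtain ⟨p, hp⟩ := hti m
      rw [← hW.htp _ _ _ _ ⟨Path.Homotopy.subpathTransSubpath α 0 (t m) (t (m + 1))⟩, hW.mul,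
        ← mul_assoc, ih]
      refine piece p _ _ fun s hs => ?_
      rw [uIcc_of_le (htm (Nat.le_succ m))] at hs
      exact interior_subset (hp hs)
  have hfin := hind n
  rwa [hn n le_rfl, Path.subpath_zero_one, hcast] at hfin

theorem IsDev.lc (h : IsDev Wt f S D) (h' : IsDev Wt f S D') (hf : ContinuousOn f S) {x : E6}
    (hx : S ∈ 𝓝 x) : ∀ᶠ y in 𝓝 x, D y * (D' y)⁻¹ = D x * (D' x)⁻¹ := by
  obtain ⟨r, hr, hb⟩ := Metric.mem_nhds_iff.1 hx
  filter_upwards [Metric.ball_mem_nhds x hr] with y hy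
  have hγ : ∀ t, Path.segment x y t ∈ S := fun t =>
    hb ((convex_ball x r).segment_subset (Metric.mem_ball_self hr) hy
      (Path.range_segment x y ▸ mem_range_self t))
  let α : Path (f x) (f y) :=
    { toFun := fun t => f (Path.segment x y t)
      continuous_toFun := hf.comp_continuous (Path.segment x y).continuous hγ
      source' := by rw [Path.source]
      target' := by rw [Path.target] }
  have h1 := h _ _ α _ (Path.segment x y).continuous hγ fun _ => rfl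
  have h2 := h' _ _ α _ (Path.segment x y).continuous hγ fun _ => rfl
  rw [Path.source, Path.target] at h1 h2
  rw [← h1, ← h2]
  group

theorem sc_of_dev (hS : IsPathConnected S)
    (h : ∀ (Y G : Type) [TopologicalSpace Y] [Group G] (Wt : ∀ a b : Y, Path a b → G), PW Wt →
      ∀ f : E6 → Y, ContinuousOn f S → ∃ D, IsDev Wt f S D) : IsSimplyConnected S := by
  classical
  have := isPathConnected_iff_pathConnectedSpace.1 hS
  obtain ⟨x₀⟩ : Nonempty S := inferInstance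
  obtain ⟨G, _, Wt, hWt, hWh, hW1⟩ := Pool.Agent.Work.MP_735653_gt.Nerve_W S
  obtain ⟨D, hD⟩ := h S G Wt ⟨hWt, hWh⟩ (fun z => if hz : z ∈ S then ⟨z, hz⟩ else x₀)
    (continuousOn_iff_continuous_domRestrict.2 (continuous_id.congr fun z => by
      change z = if hz : z.1 ∈ S then ⟨z.1, hz⟩ else x₀
      rw [dif_pos z.2]))
  refine simply_connected_iff_loops_nullhomotopic.2 ⟨this, fun x α => hW1 x α ?_⟩
  have h1 := hD x x α (fun t => (α t).1) (continuous_subtype_val.comp α.continuous)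
    (fun t => (α t).2) fun t => dif_pos (α t).2
  simpa using h1

theorem coc_glob {κ : Type} {X : Set E6} (hX : IsOpen X) (hc : IsSimplyConnected X)
    {N : κ → Set E6} (hN : ∀ k, IsOpen (N k)) (hcov : ∀ x ∈ X, ∃ k, x ∈ N k)
    {c : κ → κ → E6 → G} (h1 : ∀ k, ∀ x ∈ X ∩ N k, c k k x = 1)
    (h2 : ∀ k l m, ∀ x ∈ X ∩ N k ∩ N l ∩ N m, c k l x * c l m x = c k m x)
    (h3 : ∀ k l, ∀ x ∈ X ∩ N k ∩ N l, ∀ᶠ y in 𝓝 x, c k l y = c k l x) :
    ∃ ε : κ → E6 → G, (∀ k, ∀ x ∈ X ∩ N k, ∀ᶠ y in 𝓝 x, ε k y = ε k x) ∧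
      ∀ k l, ∀ x ∈ X ∩ N k ∩ N l, ε k x = c k l x * ε l x := by
  classical
  have := hc.simplyConnectedSpace
  have := hX.locallyPathConnectedSpace
  let _ : TopologicalSpace G := ⊥
  have : DiscreteTopology G := ⟨rfl⟩
  choose k₀ hk₀ using fun x : X => hcov x.1 x.2
  let Z : FiberBundleCore κ X G :=
    { baseSet := fun k => Subtype.val ⁻¹' N k
      isOpen_baseSet := fun k => (hN k).preimage continuous_subtype_val
      indexAt := k₀
      mem_baseSet_at := hk₀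
      coordChange := fun i j x v => c j i x * v
      coordChange_self := fun i x hx v => by rw [h1 i x ⟨x.2, hx⟩, one_mul]
      continuousOn_coordChange := fun i j p hp => ((ContinuousAt.comp (f := fun p : X × G => p.1.1)
        (Filter.EventuallyEq.continuousAt (h3 j i p.1 ⟨⟨p.1.2, hp.1.2⟩, hp.1.1⟩))
        (continuous_subtype_val.comp continuous_fst).continuousAt).mul
          continuous_snd.continuousAt).continuousWithinAt
      coordChange_comp := fun i j k x hx v => by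
        rw [← mul_assoc, h2 k j i x ⟨⟨⟨x.2, hx.2⟩, hx.1.2⟩, hx.1.1⟩] }
  have hcv : IsCoveringMap Z.proj :=
    IsFiberBundle.isCoveringMap fun x => ⟨Z.localTriv (k₀ x), hk₀ x⟩
  obtain ⟨x₀⟩ : Nonempty X := inferInstance
  obtain ⟨σ, ⟨-, hσ⟩, -⟩ := hcv.existsUnique_continuousMap_lifts (ContinuousMap.id X) x₀
    ⟨x₀, (1 : G)⟩ rfl
  have hσ' : ∀ x, (σ x).1 = x := congrFun hσ
  let v : X → G := fun x => (σ x).2
  let e : κ → X → G := fun k x => c k (k₀ x) x * v x
  have he : ∀ k, ContinuousOn (e k) (Subtype.val ⁻¹' N k) := fun k => by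
    have h4 : ContinuousOn (fun x => Z.localTriv k (σ x)) (Subtype.val ⁻¹' N k) :=
      (Z.localTriv k).continuousOn.comp σ.continuous.continuousOn fun x hx => by
        change (σ x).1 ∈ Subtype.val ⁻¹' N k
        rwa [hσ']
    refine (continuous_snd.comp_continuousOn h4).congr fun x _ => ?_
    change c k (k₀ x) x * v x = c k (k₀ (σ x).1) (σ x).1 * v x
    rw [hσ']
  refine ⟨fun k x => if hx : x ∈ X then e k ⟨x, hx⟩ else 1, fun k x hx => ?_, fun k l x hx => ?_⟩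
  · have h5 : ContinuousAt (e k) ⟨x, hx.1⟩ :=
      (he k).continuousAt (((hN k).preimage continuous_subtype_val).mem_nhds hx.2)
    rw [← hX.isOpenEmbedding_subtypeVal.map_nhds_eq ⟨x, hx.1⟩, Filter.eventually_map]
    filter_upwards [h5.eventually (isOpen_discrete {e k ⟨x, hx.1⟩} |>.mem_nhds rfl)] with y hy
    rw [dif_pos y.2, dif_pos hx.1]
    exact hy
  · simp only [dif_pos hx.1.1, e]
    rw [← mul_assoc, h2 k l _ x ⟨hx, hk₀ ⟨x, hx.1.1⟩⟩]

end Pool.Agent.Work.MP_bf98aa_gt.B3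
end

-- merged part: Pool.Agent.Work.MP_bf98aa_gt.B3.P2
section
/-!
Removing and adding pieces.

PLAN. `conn_fill`: if `W ⊆ U ∪ V` (open, disjoint on `W`), put `U' = (W ∩ U) ∪ ⋃ {Y k | Y k ∩ W ⊆ U}` and `V'` likewise; they cover `X` and are disjoint on `X`.
`sc_fill`: `sc_of_dev` (`IsOpen.isConnected_iff_isPathConnected`). Cover `X` by the `Y k` and by balls in `W` (index `κ ⊕ W`), with primitives `D k` on `N k ∩ W`. For `z ∈ N k ∩ N l` there is `v` with
`∀ᶠ p in 𝓝 z, p ∈ W → D k p * (D l p)⁻¹ = v` (`IsDev.lc`, `G9a_const`), unique if `z ∈ closure W`; `c k l z = if k = l then 1 else v`. With `ε` from `coc_glob`, `D z = (ε k z)⁻¹ * D k z` on `W` (`dev_loc`).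
`sc_union`: `D₁ * D₂⁻¹` is constant on the intersection; glue. `sc_seg`: homotopy equivalence of the subtypes as in `contractible_seg` (`ContinuousMap.HomotopyEquiv.simplyConnectedSpace`).
-/

set_option autoImplicit false

open scoped Manifold ContDiff Topology
open Set

namespace Pool.Agent.Work.MP_bf98aa_gt.B3

open Pool.Agent.Work.MP_bf98aa_gt.Th Pool.Agent.Work.MP_bf98aa_gt.Cy

variable {X W S S' : Set E6} {κ : Type} {Y : κ → Set E6}

theorem P2_star {z : E6} (hz : z ∈ S) (h : StarConvex ℝ z S) : IsSimplyConnected S := by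
  have := h.contractibleSpace ⟨z, hz⟩
  exact SimplyConnectedSpace.ofContractible S

theorem conn_fill (hW : IsOpen W) (hs : W ⊆ X) (hc : IsPreconnected X) (ho : ∀ k, IsOpen (Y k))
    (hcov : ∀ z ∈ X, z ∉ W → ∃ k, z ∈ Y k) (hY : ∀ k, IsConnected (Y k ∩ W))
    (hl : ∀ k l, ∀ z ∈ X ∩ Y k ∩ Y l, z ∉ W → k = l ∨ z ∈ closure W) : IsPreconnected W := by
  rw [isPreconnected_iff_subset_of_disjoint] at hc ⊢
  intro U V hU hV hUV hd
  have hd' : ∀ p ∈ W, p ∈ U → p ∈ V → False := fun p h1 h2 h3 =>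
    (Set.eq_empty_iff_forall_notMem.1 hd) p ⟨h1, h2, h3⟩
  have op : ∀ U : Set E6, IsOpen U → IsOpen ((W ∩ U) ∪ ⋃ k ∈ {k | Y k ∩ W ⊆ U}, Y k) :=
    fun U hU => (hW.inter hU).union (isOpen_biUnion fun k _ => ho k)
  have back : ∀ U : Set E6, ∀ p ∈ W, p ∈ (W ∩ U) ∪ ⋃ k ∈ {k | Y k ∩ W ⊆ U}, Y k → p ∈ U := by
    rintro U p hp (h | h)
    · exact h.2
    · obtain ⟨k, hk, h⟩ := mem_iUnion₂.1 h
      exact hk ⟨h, hp⟩
  have := hc _ _ (op U hU) (op V hV) (fun z hz => ?_) ?_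
  · exact this.imp (fun h p hp => back U p hp (h (hs hp))) (fun h p hp => back V p hp (h (hs hp)))
  · by_cases hzW : z ∈ W
    · exact (hUV hzW).imp (fun h => Or.inl ⟨hzW, h⟩) (fun h => Or.inl ⟨hzW, h⟩)
    · obtain ⟨k, hk⟩ := hcov z hz hzW
      refine (isPreconnected_iff_subset_of_disjoint.1 (hY k).2 U V hU hV
        (fun p hp => hUV hp.2) ?_).imp (fun h => Or.inr (mem_iUnion₂.2 ⟨k, h, hk⟩))
        (fun h => Or.inr (mem_iUnion₂.2 ⟨k, h, hk⟩))
      exact Set.eq_empty_iff_forall_notMem.2 fun p hp => hd' p hp.1.2 hp.2.1 hp.2.2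
  · refine Set.eq_empty_iff_forall_notMem.2 ?_
    rintro z ⟨hz, h1, h2⟩
    by_cases hzW : z ∈ W
    · exact hd' z hzW (back U z hzW h1) (back V z hzW h2)
    obtain ⟨k, hk, h1⟩ := mem_iUnion₂.1 (h1.resolve_left fun h => hzW h.1)
    obtain ⟨l, hl', h2⟩ := mem_iUnion₂.1 (h2.resolve_left fun h => hzW h.1)
    rcases hl k l z ⟨⟨hz, h1⟩, h2⟩ hzW with rfl | h
    · obtain ⟨p, hp⟩ := (hY k).1
      exact hd' p hp.2 (hk hp) (hl' hp)
    · obtain ⟨p, hp, hpW⟩ := mem_closure_iff.1 h _ ((ho k).inter (ho l)) ⟨h1, h2⟩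
      exact hd' p hpW (hk ⟨hp.1, hpW⟩) (hl' ⟨hp.2, hpW⟩)

theorem sc_fill (hX : IsOpen X) (hW : IsOpen W) (hs : W ⊆ X) (hc : IsSimplyConnected X)
    (ho : ∀ k, IsOpen (Y k)) (hcov : ∀ z ∈ X, z ∉ W → ∃ k, z ∈ Y k)
    (hY : ∀ k, IsSimplyConnected (Y k ∩ W))
    (hl : ∀ k l, ∀ z ∈ X ∩ Y k ∩ Y l, z ∉ W → k = l ∨
      (z ∈ closure W ∧ ∃ N ∈ 𝓝 z, N ⊆ Y k ∩ Y l ∧ IsPreconnected (N ∩ W))) :
    IsSimplyConnected W := by
  classical
  have hWc : IsConnected W := by
    refine ⟨?_, conn_fill hW hs hc.isPathConnected.isConnected.2 ho hcov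
      (fun k => (hY k).isPathConnected.isConnected)
      (fun k l z hz hzW => (hl k l z hz hzW).imp id fun h => h.1)⟩
    obtain ⟨x, hx⟩ := hc.nonempty
    by_cases hxW : x ∈ W
    · exact ⟨x, hxW⟩
    · obtain ⟨k, -⟩ := hcov x hx hxW
      exact (hY k).nonempty.mono inter_subset_right
  refine sc_of_dev (hW.isConnected_iff_isPathConnected.1 hWc) fun Z G _ _ Wt hWt f hf => ?_
  choose r hr0 hr using fun w : W => Metric.isOpen_iff.1 hW w.1 w.2
  let N : κ ⊕ W → Set E6 := fun i => Sum.elim Y (fun w => Metric.ball w.1 (r w)) i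
  have hNo : ∀ i, IsOpen (N i) := by
    rintro (k | w)
    · exact ho k
    · exact Metric.isOpen_ball
  have hNs : ∀ i, IsSimplyConnected (N i ∩ W) := by
    rintro (k | w)
    · exact hY k
    · show IsSimplyConnected (Metric.ball w.1 (r w) ∩ W)
      rw [inter_eq_left.2 (hr w)]
      exact P2_star (Metric.mem_ball_self (hr0 w))
        ((convex_ball _ _).starConvex (Metric.mem_ball_self (hr0 w)))
  choose D hD using fun i => dev_of_sc hWt (hf.mono inter_subset_right) (hNs i)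
  have lc : ∀ i j, ∀ p ∈ N i ∩ N j ∩ W, ∀ᶠ y in 𝓝 p, D i y * (D j y)⁻¹ = D i p * (D j p)⁻¹ :=
    fun i j p hp => IsDev.lc (S := N i ∩ N j ∩ W) ((hD i).mono fun _ h => ⟨h.1.1, h.2⟩)
      ((hD j).mono fun _ h => ⟨h.1.2, h.2⟩) (hf.mono inter_subset_right)
      ((((hNo i).inter (hNo j)).inter hW).mem_nhds hp)
  have ex : ∀ i j, ∀ z ∈ X ∩ N i ∩ N j, i = j ∨ (z ∈ closure W ∧
      ∃ v, ∀ᶠ p in 𝓝 z, p ∈ W → D i p * (D j p)⁻¹ = v) := by
    intro i j z hz
    by_cases hzW : z ∈ W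
    · exact Or.inr ⟨subset_closure hzW, _,
        (lc i j z ⟨⟨hz.1.2, hz.2⟩, hzW⟩).mono fun _ h _ => h⟩
    rcases i with k | w
    swap
    · exact absurd (hr w hz.1.2) hzW
    rcases j with l | w
    swap
    · exact absurd (hr w hz.2) hzW
    rcases hl k l z hz hzW with rfl | ⟨h1, M, hM, h2, h3⟩
    · exact Or.inl rfl
    obtain ⟨p0, hp0⟩ := mem_closure_iff_nhds.1 h1 M hM
    refine Or.inr ⟨h1, D (Sum.inl k) p0 * (D (Sum.inl l) p0)⁻¹, ?_⟩
    filter_upwards [hM] with p hp hpW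
    exact G9a_const (φ := fun p => D (Sum.inl k) p * (D (Sum.inl l) p)⁻¹) h3
      (fun s hs' => (lc (Sum.inl k) (Sum.inl l) s ⟨h2 hs'.1, hs'.2⟩).filter_mono nhdsWithin_le_nhds) ⟨hp, hpW⟩ hp0
  let c : κ ⊕ W → κ ⊕ W → E6 → G := fun i j z =>
    if i = j then 1 else Classical.epsilon fun v => ∀ᶠ p in 𝓝 z, p ∈ W → D i p * (D j p)⁻¹ = v
  have cF : ∀ i j, ∀ z ∈ X ∩ N i ∩ N j, ∀ᶠ p in 𝓝 z, p ∈ W → D i p * (D j p)⁻¹ = c i j z := by
    intro i j z hz
    by_cases e : i = j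
    · subst e
      exact Filter.Eventually.of_forall fun p _ => by simp [c]
    · simp only [c, if_neg e]
      exact Classical.epsilon_spec ((ex i j z hz).resolve_left e).2
  have uq : ∀ z ∈ closure W, ∀ (φ : E6 → G) (v v' : G), (∀ᶠ p in 𝓝 z, p ∈ W → φ p = v) →
      (∀ᶠ p in 𝓝 z, p ∈ W → φ p = v') → v = v' := by
    intro z hz φ v v' h1 h2
    obtain ⟨p, hp, hpW⟩ := mem_closure_iff_nhds.1 hz _ (h1.and h2)
    exact (hp.1 hpW).symm.trans (hp.2 hpW)
  obtain ⟨ε, e1, e2⟩ := coc_glob (c := c) hX hc hNo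
    (fun x hx => by
      by_cases hxW : x ∈ W
      · exact ⟨Sum.inr ⟨x, hxW⟩, Metric.mem_ball_self (hr0 _)⟩
      · obtain ⟨k, hk⟩ := hcov x hx hxW
        exact ⟨Sum.inl k, hk⟩)
    (fun k x _ => by simp [c])
    (fun k l m x hx => by
      by_cases hxc : x ∈ closure W
      · refine uq x hxc (fun p => D k p * (D m p)⁻¹) _ _ ?_ (cF k m x ⟨hx.1.1, hx.2⟩)
        filter_upwards [cF k l x hx.1, cF l m x ⟨⟨hx.1.1.1, hx.1.2⟩, hx.2⟩] with p h1 h2 hp
        rw [← h1 hp, ← h2 hp]; group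
      · obtain rfl := (ex k l x hx.1).resolve_right fun h => hxc h.1
        obtain rfl := (ex k m x ⟨hx.1.1, hx.2⟩).resolve_right fun h => hxc h.1
        simp [c])
    (fun k l x hx => by
      by_cases e : k = l
      · subst e
        exact Filter.Eventually.of_forall fun y => by simp [c]
      filter_upwards [(cF k l x hx).eventually_nhds,
        ((hX.inter (hNo k)).inter (hNo l)).mem_nhds hx] with y h1 h2
      exact uq y ((ex k l y h2).resolve_left e).1 _ _ _ (cF k l y h2) h1)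
  refine ⟨fun z => if h : z ∈ W then (ε (Sum.inr ⟨z, h⟩) z)⁻¹ * D (Sum.inr ⟨z, h⟩) z else 1,
    dev_loc hWt fun x hx => ?_⟩
  have hxN : x ∈ N (Sum.inr ⟨x, hx⟩) := Metric.mem_ball_self (hr0 _)
  refine ⟨{y | ε (Sum.inr ⟨x, hx⟩) y = ε (Sum.inr ⟨x, hx⟩) x} ∩ N (Sum.inr ⟨x, hx⟩),
    Filter.inter_mem (e1 _ x ⟨hs hx, hxN⟩) ((hNo _).mem_nhds hxN), ?_⟩
  refine ((hD (Sum.inr ⟨x, hx⟩)).mono fun _ h => ⟨h.1.2, h.2⟩).congr
    (ε (Sum.inr ⟨x, hx⟩) x)⁻¹ fun z hz => ?_
  obtain ⟨⟨z1, z2⟩, z3⟩ := hz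
  have z1' : ε (Sum.inr ⟨x, hx⟩) z = ε (Sum.inr ⟨x, hx⟩) x := z1
  have hzN : z ∈ X ∩ N (Sum.inr ⟨x, hx⟩) ∩ N (Sum.inr ⟨z, z3⟩) :=
    ⟨⟨hs z3, z2⟩, Metric.mem_ball_self (hr0 ⟨z, z3⟩)⟩
  rw [dif_pos z3, ← z1', e2 _ _ z hzN, ← (cF _ _ z hzN).self_of_nhds z3]
  group

theorem sc_union (hS : IsOpen S) (hS' : IsOpen S') (h : IsSimplyConnected S)
    (h' : IsSimplyConnected S') (hc : IsConnected (S ∩ S')) : IsSimplyConnected (S ∪ S') := by
  classical
  refine sc_of_dev (h.isPathConnected.union h'.isPathConnected hc.1) fun Z G _ _ Wt hWt f hf => ?_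
  obtain ⟨D, hD⟩ := dev_of_sc hWt (hf.mono subset_union_left) h
  obtain ⟨D', hD'⟩ := dev_of_sc hWt (hf.mono subset_union_right) h'
  obtain ⟨p, hp⟩ := hc.1
  have key : ∀ z ∈ S ∩ S', D z * (D' z)⁻¹ = D p * (D' p)⁻¹ := fun z hz =>
    G9a_const (φ := fun z => D z * (D' z)⁻¹) hc.2 (fun s hs =>
      (IsDev.lc (hD.mono inter_subset_left) (hD'.mono inter_subset_right)
        (hf.mono (inter_subset_left.trans subset_union_left))
        ((hS.inter hS').mem_nhds hs)).filter_mono nhdsWithin_le_nhds) hz hp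
  refine ⟨fun z => if z ∈ S then D z else D p * (D' p)⁻¹ * D' z, dev_loc hWt ?_⟩
  rintro x (hx | hx)
  · exact ⟨S, hS.mem_nhds hx, (hD.mono inter_subset_left).congr 1 fun z hz => by simp [hz.1]⟩
  · refine ⟨S', hS'.mem_nhds hx,
      (hD'.mono inter_subset_left).congr (D p * (D' p)⁻¹) fun z hz => ?_⟩
    split_ifs with e
    · rw [← key z ⟨e, hz.1⟩]; group
    · rfl

theorem sc_seg {π : E6 → E6} (hπ : ContinuousOn π S) (hm : MapsTo π S S') (hs : S' ⊆ S)
    (hg : Seg S π) (hg' : Seg S' π) : IsSimplyConnected S ↔ IsSimplyConnected S' := by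
  have h1 : Continuous fun x : S => π x := hπ.domRestrict
  have h2 : Continuous fun x : S' => π x := (hπ.mono hs).domRestrict
  let e : ContinuousMap.HomotopyEquiv S S' :=
    { toFun := ⟨fun x => ⟨π x, hm x.2⟩, h1.subtype_mk _⟩
      invFun := ⟨fun x => ⟨x.1, hs x.2⟩, continuous_subtype_val.subtype_mk _⟩
      left_inv := ContinuousMap.Homotopic.symm ⟨
        { toFun := fun q => ⟨q.2.1 + (q.1 : ℝ) • (π q.2.1 - q.2.1), hg _ q.2.2 _ q.1.2⟩
          continuous_toFun := ((continuous_subtype_val.comp continuous_snd).add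
            ((continuous_subtype_val.comp continuous_fst).smul ((h1.comp continuous_snd).sub
              (continuous_subtype_val.comp continuous_snd)))).subtype_mk _
          map_zero_left := fun x => Subtype.ext (by simp)
          map_one_left := fun x => Subtype.ext (by simp) }⟩
      right_inv := ContinuousMap.Homotopic.symm ⟨
        { toFun := fun q => ⟨q.2.1 + (q.1 : ℝ) • (π q.2.1 - q.2.1), hg' _ q.2.2 _ q.1.2⟩
          continuous_toFun := ((continuous_subtype_val.comp continuous_snd).add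
            ((continuous_subtype_val.comp continuous_fst).smul ((h2.comp continuous_snd).sub
              (continuous_subtype_val.comp continuous_snd)))).subtype_mk _
          map_zero_left := fun x => Subtype.ext (by simp)
          map_one_left := fun x => Subtype.ext (by simp) }⟩ }
  exact e.simplyConnectedSpace_iff

theorem sc_star {z : E6} (hz : z ∈ S) (h : StarConvex ℝ z S) : IsSimplyConnected S := by
  exact P2_star hz h

end Pool.Agent.Work.MP_bf98aa_gt.B3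
end

-- merged part: Pool.Agent.Work.MP_bf98aa_gt.B3.P4
section
/-!
Thin sets, and simple connectivity from a dense family of charts.

PLAN. `thin_of_ball`: `conn_fill` with small balls. `thin_pair`: a ball (a box) about a point of the set, minus the set, is a chain of the four convex sets `z i < a`, `z j < b`, `z i > a`, `z j > b`.
`Thin.of_loc`: `ball \ Z` lies between `ball \ Z'` and its closure (`IsPreconnected.subset_closure`). `sc_of_coc'`: copy `G9_pc`, `sc_of_coc` with `dev_of_sc`; `Kill`: both primitives along the same path, so its weight is one.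
`Coc.extend`: for `z` in the preimage of `M₀` the element `g i * T i y c z` (`q i y = q c z`, `i` main) does not depend on `i, y` and is locally constant (`Par.tr`, `lc`, as in `Coc.over`); a related pair is approximated by related pairs over `M₀`.
`sc_of_main`: `sc_of_coc'` for the family `ι ⊕ κ`, `κ` the type of all `(ψ, x, r, Z)` with `Par ψ (ball x r)`, `0 < r`, `Thin Z` and `ψ (ball \ Z) ⊆ M₀`.
-/

set_option autoImplicit false

open scoped Manifold ContDiff Topology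
open Set

namespace Pool.Agent.Work.MP_bf98aa_gt.B3

open Pool.Agent.Work.MP_bf98aa_gt.Th Pool.Agent.Work.MP_bf98aa_gt.Cy

variable {Z Z' : Set E6}

/-- Small balls lie in a given neighbourhood. -/
theorem P4_small {z : E6} {N : Set E6} (hN : N ∈ 𝓝 z) :
    ∀ᶠ r in 𝓝[>] (0 : ℝ), 0 < r ∧ Metric.ball z r ⊆ N := by
  obtain ⟨ε, h0, h1⟩ := Metric.mem_nhds_iff.1 hN
  filter_upwards [Ioo_mem_nhdsGT h0] with r hr
  exact ⟨hr.1, (Metric.ball_subset_ball hr.2.le).trans h1⟩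

theorem thin_of_ball (hZ : IsClosed Z) (hd : Dense Zᶜ)
    (h : ∀ z ∈ Z, ∀ᶠ r in 𝓝[>] (0 : ℝ), IsPreconnected (Metric.ball z r \ Z)) : Thin Z := by
  refine ⟨hZ, hd, fun X hX hc => ?_⟩
  have hr : ∀ k : ↥(X ∩ Z), ∃ r : ℝ, 0 < r ∧ Metric.ball k.1 r ⊆ X ∧
      IsPreconnected (Metric.ball k.1 r \ Z) := by
    intro k
    obtain ⟨r, h1, h2⟩ := ((P4_small (hX.mem_nhds k.2.1)).and (h k.1 k.2.2)).exists
    exact ⟨r, h1.1, h1.2, h2⟩
  choose r h0 h1 h2 using hr
  refine conn_fill (X := X) (Y := fun k : ↥(X ∩ Z) => Metric.ball k.1 (r k)) (hX.sdiff hZ)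
    sdiff_subset hc (fun _ => Metric.isOpen_ball) (fun z hz hn => ?_) (fun k => ?_)
    (fun k l z hz _ => Or.inr (hd.open_subset_closure_inter hX hz.1.1))
  · have hz' : z ∈ Z := by
      by_contra hh
      exact hn ⟨hz, hh⟩
    exact ⟨⟨z, hz, hz'⟩, Metric.mem_ball_self (h0 _)⟩
  · have e : Metric.ball k.1 (r k) ∩ (X \ Z) = Metric.ball k.1 (r k) \ Z :=
      Set.ext fun p => ⟨fun hp => ⟨hp.1, hp.2.2⟩, fun hp => ⟨hp.1, h1 k hp.1, hp.2⟩⟩
    rw [e]
    exact ⟨hd.inter_open_nonempty _ Metric.isOpen_ball ⟨k.1, Metric.mem_ball_self (h0 k)⟩, h2 k⟩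

/-- A point of the ball with two coordinates moved. -/
theorem P4_pt {i j : Cx} (h : i ≠ j) (z : E6) {r s t : ℝ} (hr : 0 < r) (hs : |s| < r)
    (ht : |t| < r) : ∃ p ∈ Metric.ball z r, p i = z i + s ∧ p j = z j + t := by
  refine ⟨fun k => z k + (if k = i then s else if k = j then t else 0), ?_, by simp, by
    simp [h.symm]⟩
  rw [Metric.mem_ball, dist_pi_lt_iff hr]
  intro k
  rw [Real.dist_eq, add_sub_cancel_left]
  split_ifs
  · exact hs
  · exact ht
  · simpa using hr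

theorem thin_pair {i j : Cx} (h : i ≠ j) (a b : ℝ) : Thin {z | z i = a ∧ z j = b} := by
  refine thin_of_ball ((isClosed_eq (continuous_apply i) continuous_const).inter
    (isClosed_eq (continuous_apply j) continuous_const)) ?_ ?_
  · refine Dense.mono ?_ ((dense_compl_singleton a).preimage
      (isOpenMap_eval (X := fun _ : Cx => ℝ) i))
    intro z hz hz'
    exact hz hz'.1
  · rintro z ⟨ha, hb⟩
    filter_upwards [self_mem_nhdsWithin] with r hr
    have hr0 : (0 : ℝ) < r := hr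
    have l : ∀ k : Cx, IsLinearMap ℝ fun z : E6 => z k := fun k => ⟨fun _ _ => rfl, fun _ _ => rfl⟩
    have c1 : ∀ (k : Cx) (c : ℝ), IsPreconnected (Metric.ball z r ∩ {p : E6 | p k < c}) :=
      fun k c => ((convex_ball z r).inter (convex_halfSpace_lt (l k) c)).isPreconnected
    have c2 : ∀ (k : Cx) (c : ℝ), IsPreconnected (Metric.ball z r ∩ {p : E6 | c < p k}) :=
      fun k c => ((convex_ball z r).inter (convex_halfSpace_gt (l k) c)).isPreconnected
    have p1 : |r / 2| < r := by rw [abs_of_pos (by linarith)]; linarith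
    have p2 : |-(r / 2)| < r := by rw [abs_neg]; exact p1
    obtain ⟨x, x0, x1, x2⟩ := P4_pt h z hr0 p2 p2
    obtain ⟨y, y0, y1, y2⟩ := P4_pt h z hr0 p1 p2
    obtain ⟨w, w0, w1, w2⟩ := P4_pt h z hr0 p1 p1
    have u1 := (c1 i a).union' (s := Metric.ball z r ∩ {p : E6 | p i < a})
      (t := Metric.ball z r ∩ {p : E6 | p j < b})
      ⟨x, ⟨x0, by show x i < a; linarith⟩, x0, by show x j < b; linarith⟩ (c1 j b)
    have u2 := u1.union' (t := Metric.ball z r ∩ {p : E6 | a < p i})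
      ⟨y, Or.inr ⟨y0, by show y j < b; linarith⟩, y0, by show a < y i; linarith⟩ (c2 i a)
    have u3 := u2.union' (t := Metric.ball z r ∩ {p : E6 | b < p j})
      ⟨w, Or.inr ⟨w0, by show a < w i; linarith⟩, w0, by show b < w j; linarith⟩ (c2 j b)
    convert u3 using 1
    ext p
    constructor
    · rintro ⟨h1, h2⟩
      rcases lt_trichotomy (p i) a with k | k | k
      · exact Or.inl (Or.inl (Or.inl ⟨h1, k⟩))
      · rcases lt_trichotomy (p j) b with m | m | m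
        · exact Or.inl (Or.inl (Or.inr ⟨h1, m⟩))
        · exact (h2 ⟨k, m⟩).elim
        · exact Or.inr ⟨h1, m⟩
      · exact Or.inl (Or.inr ⟨h1, k⟩)
    · rintro (((⟨h1, k⟩ | ⟨h1, k⟩) | ⟨h1, k⟩) | ⟨h1, k⟩)
      · exact ⟨h1, fun e => (ne_of_lt k) e.1⟩
      · exact ⟨h1, fun e => (ne_of_lt k) e.2⟩
      · exact ⟨h1, fun e => (ne_of_gt k) e.1⟩
      · exact ⟨h1, fun e => (ne_of_gt k) e.2⟩

theorem Thin.union (h : Thin Z) (h' : Thin Z') : Thin (Z ∪ Z') := by
  refine ⟨h.clo.union h'.clo, ?_, fun X hX hc => ?_⟩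
  · rw [compl_union]
    exact h.dense.inter_of_isOpen_left h'.dense h.clo.isOpen_compl
  · rw [← Set.sdiff_sdiff]
    exact h'.conn _ (hX.sdiff h.clo) (h.conn X hX hc)

theorem Thin.of_loc (hZ : IsClosed Z) (h : ∀ z ∈ Z, ∃ Z', Thin Z' ∧ ∀ᶠ p in 𝓝 z, p ∈ Z → p ∈ Z') :
    Thin Z := by
  refine thin_of_ball hZ (fun z => ?_) fun z hz => ?_
  · by_cases hz : z ∈ Z
    · obtain ⟨Z', h1, h2⟩ := h z hz
      rw [mem_closure_iff_nhds]
      intro t ht
      obtain ⟨p, hp, hp'⟩ := h1.dense.inter_nhds_nonempty (Filter.inter_mem ht h2)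
      exact ⟨p, hp'.1, fun k => hp (hp'.2 k)⟩
    · exact subset_closure hz
  · obtain ⟨Z', h1, h2⟩ := h z hz
    filter_upwards [P4_small h2] with r hr
    refine (h1.conn _ Metric.isOpen_ball (convex_ball z r).isPreconnected).subset_closure
      (fun p hp => ⟨hp.1, fun k => hp.2 (hr.2 hp.1 k)⟩) ?_
    exact sdiff_subset.trans (h1.dense.open_subset_closure_inter Metric.isOpen_ball)

theorem thin_lat {i j : Cx} (h : i ≠ j) :
    Thin {z | (∃ n : ℤ, z i = n) ∧ ∃ n : ℤ, z j = n} := by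
  have c : ∀ k : Cx, IsClosed {z : E6 | ∃ n : ℤ, z k = n} := fun k => by
    have e : {z : E6 | ∃ n : ℤ, z k = n} = (fun z : E6 => z k) ⁻¹' range ((↑) : ℤ → ℝ) :=
      Set.ext fun z => ⟨fun ⟨n, hn⟩ => ⟨n, hn.symm⟩, fun ⟨n, hn⟩ => ⟨n, hn.symm⟩⟩
    rw [e]
    exact Int.isClosedEmbedding_coe_real.isClosed_range.preimage (continuous_apply k)
  refine Thin.of_loc ((c i).inter (c j)) ?_
  rintro z ⟨⟨n, hn⟩, ⟨m, hm⟩⟩
  refine ⟨_, thin_pair h n m, ?_⟩
  have e : ∀ (k : Cx) (p : E6), p ∈ Metric.ball z 1 → ∀ u v : ℤ, z k = u → p k = v → p k = u := by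
    intro k p hp u v hu hv
    have h1 := (dist_pi_lt_iff one_pos).1 (Metric.mem_ball.1 hp) k
    rw [Real.dist_eq, hu, hv, ← Int.cast_sub, ← Int.cast_abs] at h1
    have h2 : |v - u| < 1 := by exact_mod_cast h1
    rw [hv, sub_eq_zero.1 (Int.abs_lt_one_iff.1 h2)]
  filter_upwards [Metric.ball_mem_nhds z one_pos] with p hp
  rintro ⟨⟨n', hn'⟩, ⟨m', hm'⟩⟩
  exact ⟨e i p hp n n' hn hn', e j p hp m m' hm hm'⟩

variable {M : Type} [TopologicalSpace M] [ChartedSpace E6 M] [IsManifold 𝓘(ℝ, E6) ∞ M]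
  {ι H : Type} [Group H] {q : ι → E6 → M} {W : ι → Set E6} {T : ι → E6 → ι → E6 → H}

omit [IsManifold 𝓘(ℝ, E6) ∞ M] in
theorem P4_pc (hP : ∀ i, Par (q i) (W i)) (hU : ∀ i, IsSimplyConnected (W i))
    (hcov : ∀ m, ∃ i, ∃ x ∈ W i, q i x = m) (i₀ : ι)
    (hconn : ∀ i, Relation.ReflTransGen (fun i j => ∃ x ∈ W i, ∃ y ∈ W j, q i x = q j y) i i₀) :
    PathConnectedSpace M := by
  have hj : ∀ i, ∀ x ∈ W i, ∀ y ∈ W i, Joined (q i x) (q i y) := fun i x hx y hy =>
    (((hU i).isPathConnected.image' (G9_cont (hP i))).joinedIn _ ⟨x, hx, rfl⟩ _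
      ⟨y, hy, rfl⟩).joined
  obtain ⟨b, hb0⟩ := (hU i₀).nonempty
  have hb : ∀ i, ∀ x ∈ W i, Joined (q i x) (q i₀ b) := by
    intro i
    refine Relation.ReflTransGen.head_induction_on
      (motive := fun i _ => ∀ x ∈ W i, Joined (q i x) (q i₀ b)) (hconn i)
      (fun x hx => hj i₀ x hx b hb0) ?_
    rintro a c ⟨y, hy, z, hz, he⟩ _ ih x hx
    exact (hj a x hx y hy).trans (he ▸ ih z hz)
  refine ⟨⟨q i₀ b⟩, fun m m' => ?_⟩
  obtain ⟨i, x, hx, rfl⟩ := hcov m
  obtain ⟨j, y, hy, rfl⟩ := hcov m'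
  exact (hb i x hx).trans (hb j y hy).symm

theorem sc_of_coc' (hP : ∀ i, Par (q i) (W i)) (hU : ∀ i, IsSimplyConnected (W i))
    (hcov : ∀ m, ∃ i, ∃ x ∈ W i, q i x = m) (i₀ : ι)
    (hconn : ∀ i, Relation.ReflTransGen (fun i j => ∃ x ∈ W i, ∃ y ∈ W j, q i x = q j y) i i₀)
    (h : ∀ (H : Type) [Group H] (T : ι → E6 → ι → E6 → H), Coc q W T → Kill q W T →
      ∃ g : ι → H, ∀ i j, Cst q W T i j ((g i)⁻¹ * g j)) : SimplyConnectedSpace M := by
  have := P4_pc hP hU hcov i₀ hconn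
  have : LocallyPathConnectedSpace M := ChartedSpace.locallyPathConnectedSpace E6 M
  obtain ⟨G, _, Wt, hWt, hWh, hW1⟩ := Pool.Agent.Work.MP_735653_gt.Nerve_W M
  have hW : PW Wt := ⟨hWt, hWh⟩
  choose D hD using fun i => dev_of_sc hW (G9_cont (hP i)) (hU i)
  have hsec : ∀ i, ∀ x ∈ W i, ∃ (χ : M → E6) (N : Set M), N ∈ 𝓝 (q i x) ∧
      (∀ n ∈ N, χ n ∈ W i ∧ q i (χ n) = n) ∧ (∀ᶠ z in 𝓝 x, χ (q i z) = z) ∧
      ∀ (a b : M) (α : Path a b), (∀ t, α t ∈ N) → D i (χ a) * Wt a b α = D i (χ b) := by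
    intro i x hx
    obtain ⟨χ, N, h1, h2, h3, h4⟩ := G9_sec (hP i) hx
    refine ⟨χ, N, h1, h3, h4, fun a b α hα => ?_⟩
    have h5 := hD i a b α (fun t => χ (α t)) (h2.comp_continuous α.continuous hα)
      (fun t => (h3 _ (hα t)).1) (fun t => (h3 _ (hα t)).2)
    simpa only [α.source, α.target] using h5
  obtain ⟨g, hg⟩ := h G (fun i x j y => D i x * (D j y)⁻¹) ⟨fun i x j y l z => by group, by
    intro i j x hx y hy he
    obtain ⟨χ, N, h1, -, h3, h4⟩ := hsec i x hx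
    obtain ⟨χ', N', h1', -, h3', h4'⟩ := hsec j y hy
    have h5 : pathComponentIn (N ∩ N') (q i x) ∈ 𝓝 (q i x) :=
      pathComponentIn_mem_nhds (Filter.inter_mem h1 (he ▸ h1'))
    have h6 : ∀ᶠ z in 𝓝 x, q i z ∈ pathComponentIn (N ∩ N') (q i x) :=
      ((hP i).sm x hx).continuousAt.preimage_mem_nhds h5
    have t1 : Filter.Tendsto (fun p : E6 × E6 => p.1) (𝓝 (x, y)) (𝓝 x) := continuous_fst.tendsto _
    have t2 : Filter.Tendsto (fun p : E6 × E6 => p.2) (𝓝 (x, y)) (𝓝 y) := continuous_snd.tendsto _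
    filter_upwards [t1.eventually h3, t2.eventually h3', t1.eventually h6] with p e1 e2 e3 e4
    obtain ⟨α, hα⟩ : JoinedIn (N ∩ N') (q i x) (q i p.1) := e3
    have f1 := h4 _ _ α fun t => (hα t).1
    have f2 := h4' _ _ α fun t => (hα t).2
    have f3 : χ' (q i x) = y := by rw [he]; exact h3'.self_of_nhds
    have f4 : χ' (q i p.1) = p.2 := by rw [e4]; exact e2
    rw [h3.self_of_nhds, e1] at f1
    rw [f3, f4] at f2
    rw [← f1, ← f2]
    group⟩ (by
    intro i a b ψ S hψ hS ha hb haW hbS he h01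
    obtain ⟨D', hD'⟩ := dev_of_sc hW hψ hS
    have ca : Continuous fun t : unitInterval => a t := ha.comp continuous_subtype_val
    have cb : Continuous fun t : unitInterval => b t := hb.comp continuous_subtype_val
    let α : Path (q i (a 0)) (q i (a 1)) :=
      { toFun := fun t => q i (a t)
        continuous_toFun := (G9_cont (hP i)).comp_continuous ca fun t => haW t
        source' := rfl
        target' := rfl }
    have k1 : D i (a 0) * Wt _ _ α = D i (a 1) :=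
      hD i _ _ α (fun t => a t) ca (fun t => haW t) fun _ => rfl
    have k2 : D' (b 0) * Wt _ _ α = D' (b 1) :=
      hD' _ _ α (fun t => b t) cb (fun t => hbS t) fun t => (he t).symm
    rw [← h01, mul_eq_left] at k2
    rw [k2, mul_one] at k1
    show D i (a 0) * (D i (a 1))⁻¹ = 1
    rw [k1, mul_inv_cancel])
  choose ix px hpx hq using hcov
  have hL : ∀ i, ∀ x ∈ W i, ∀ m, q i x = m → g (ix m) * D (ix m) (px m) = g i * D i x := by
    intro i x hx m hm
    have h1 : D i x * (D (ix m) (px m))⁻¹ = (g i)⁻¹ * g (ix m) :=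
      hg i (ix m) x hx (px m) (hpx m) (hm.trans (hq m).symm)
    calc g (ix m) * D (ix m) (px m) = g i * ((g i)⁻¹ * g (ix m)) * D (ix m) (px m) := by group
      _ = g i * D i x := by rw [← h1]; group
  rw [simply_connected_iff_loops_nullhomotopic]
  refine ⟨inferInstance, fun x α => hW1 x α
    (G9_glob Wt hWt hWh (fun m => g (ix m) * D (ix m) (px m)) (fun m => ?_) x α)⟩
  obtain ⟨χ, N, h1, h2, -, h4⟩ := hsec (ix m) (px m) (hpx m)
  refine ⟨N, hq m ▸ h1, fun a b β hβ => ?_⟩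
  have ha : a ∈ N := by simpa using hβ 0
  have hb : b ∈ N := by simpa using hβ 1
  rw [hL _ _ (h2 a ha).1 a (h2 a ha).2, hL _ _ (h2 b hb).1 b (h2 b hb).2, mul_assoc, h4 a b β hβ]

/-- A related pair moves along a local lift without changing the cocycle. -/
theorem P4_lift (hT : Coc q W T) (hP : ∀ i, Par (q i) (W i)) {c d : ι} {x y : E6} (hx : x ∈ W c)
    (hy : y ∈ W d) (he : q c x = q d y) :
    ∀ᶠ t in 𝓝 x, ∃ u ∈ W d, q c t = q d u ∧ T c t d u = T c x d y := by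
  obtain ⟨f, ⟨f1, f2⟩, f3⟩ := (hP d).tr hy ((hP c).sm x hx) he
  have c0 : ContinuousAt (fun t => (t, f t)) x := continuousAt_id.prodMk f1.continuousAt
  have l := hT.lc c d _ hx _ hy he
  have m := (hP d).opn.mem_nhds hy
  rw [← f3] at l m
  filter_upwards [c0.eventually l, f2, f1.continuousAt.eventually m] with t k1 k2 k3
  exact ⟨f t, k3, k2.symm, by rw [k1 k2.symm, f3]⟩

theorem Coc.extend (hT : Coc q W T) (hP : ∀ i, Par (q i) (W i)) {A : Set ι} {M₀ : Set M}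
    (hM : ∀ m, m ∈ M₀ ↔ ∃ i ∈ A, ∃ x ∈ W i, q i x = m)
    (h1 : ∀ c ∉ A, IsPreconnected (W c ∩ q c ⁻¹' M₀))
    (h2 : ∀ c ∉ A, W c ⊆ closure (W c ∩ q c ⁻¹' M₀)) {g : ι → H}
    (hg : ∀ i ∈ A, ∀ j ∈ A, Cst q W T i j ((g i)⁻¹ * g j)) :
    ∃ g' : ι → H, ∀ i j, Cst q W T i j ((g' i)⁻¹ * g' j) := by
  have ind : ∀ (c : ι) (z : E6), ∀ i ∈ A, ∀ y ∈ W i, ∀ j ∈ A, ∀ w ∈ W j, q i y = q j w →
      g i * T i y c z = g j * T j w c z := by
    intro c z i hi y hy j hj w hw he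
    rw [← hT.mul i y j w c z, hg i hi j hj y hy w hw he]
    group
  have key : ∀ c, ∃ v : H, ∀ z ∈ W c, ∀ i ∈ A, ∀ y ∈ W i, q i y = q c z →
      g i * T i y c z = v := by
    intro c
    by_cases hc : c ∈ A
    · refine ⟨g c, fun z hz i hi y hy he => ?_⟩
      rw [hg i hi c hc y hy z hz he]
      group
    · have ex : ∀ z ∈ W c ∩ q c ⁻¹' M₀, ∃ p : ι × E6, p.1 ∈ A ∧ p.2 ∈ W p.1 ∧
          q p.1 p.2 = q c z := fun z hz => by
        obtain ⟨i, hi, y, hy, e⟩ := (hM _).1 hz.2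
        exact ⟨(i, y), hi, hy, e⟩
      rcases (W c ∩ q c ⁻¹' M₀).eq_empty_or_nonempty with e | ⟨z₀, h₀⟩
      · refine ⟨1, fun z hz i hi y hy he => ?_⟩
        have : z ∈ W c ∩ q c ⁻¹' M₀ := ⟨hz, (hM _).2 ⟨i, hi, y, hy, he⟩⟩
        rw [e] at this
        exact this.elim
      obtain ⟨p₀, -⟩ := ex z₀ h₀
      have : Nonempty (ι × E6) := ⟨p₀⟩
      choose! p p1 p2 p3 using ex
      refine ⟨g (p z₀).1 * T (p z₀).1 (p z₀).2 c z₀, fun z hz i hi y hy he => ?_⟩
      have hz' : z ∈ W c ∩ q c ⁻¹' M₀ := ⟨hz, (hM _).2 ⟨i, hi, y, hy, he⟩⟩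
      refine (ind c z i hi y hy _ (p1 z hz') _ (p2 z hz') (he.trans (p3 z hz').symm)).trans
        (G9a_const (φ := fun s => g (p s).1 * T (p s).1 (p s).2 c s) (h1 c hc)
          (fun x hx => ?_) hz' h₀)
      filter_upwards [nhdsWithin_le_nhds (P4_lift hT hP hx.1 (p2 x hx) (p3 x hx).symm),
        self_mem_nhdsWithin] with t ⟨u, u1, u2, u3⟩ ht
      rw [ind c t _ (p1 t ht) _ (p2 t ht) _ (p1 x hx) u u1 ((p3 t ht).trans u2),
        hT.inv c t _ u, u3, ← hT.inv c x _ _]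
  choose v hv using key
  have main : ∀ c d, ∀ x ∈ W c, ∀ y ∈ W d, q c x = q d y → q c x ∈ M₀ →
      T c x d y = (v c)⁻¹ * v d := by
    intro c d x hx y hy he hm
    obtain ⟨i, hi, w, hw, e⟩ := (hM _).1 hm
    rw [← hv c x hx i hi w hw e, ← hv d y hy i hi w hw (e.trans he), ← hT.mul c x i w d y,
      hT.inv i w c x]
    group
  refine ⟨v, fun c d x hx y hy he => ?_⟩
  by_cases hc : c ∈ A
  · exact main c d x hx y hy he ((hM _).2 ⟨c, hc, x, hx, rfl⟩)
  · obtain ⟨t, ⟨u, u1, u2, u3⟩, ht⟩ :=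
      mem_closure_iff_nhds.1 (h2 c hc hx) _ (P4_lift hT hP hx hy he)
    rw [← u3]
    exact main c d t ht.1 u u1 u2 ht.2

theorem sc_of_main (hP : ∀ i, Par (q i) (W i)) (hU : ∀ i, IsSimplyConnected (W i))
    (hcov : ∀ m, (∃ i, ∃ x ∈ W i, q i x = m) ∨ ∃ ψ U x Z, Par ψ U ∧ x ∈ U ∧ ψ x = m ∧ Thin Z ∧
      ∀ z ∈ U, z ∉ Z → ∃ i, ∃ y ∈ W i, q i y = ψ z) (i₀ : ι)
    (hconn : ∀ i, Relation.ReflTransGen (fun i j => ∃ x ∈ W i, ∃ y ∈ W j, q i x = q j y) i i₀)
    (h : ∀ (H : Type) [Group H] (T : ι → E6 → ι → E6 → H), Coc q W T → Kill q W T →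
      ∃ g : ι → H, ∀ i j, Cst q W T i j ((g i)⁻¹ * g j)) : SimplyConnectedSpace M := by
  let κ : Type := {p : (E6 → M) × E6 × ℝ × Set E6 // Par p.1 (Metric.ball p.2.1 p.2.2.1) ∧
    0 < p.2.2.1 ∧ Thin p.2.2.2 ∧
      ∀ z ∈ Metric.ball p.2.1 p.2.2.1, z ∉ p.2.2.2 → ∃ i, ∃ y ∈ W i, q i y = p.1 z}
  let q' : ι ⊕ κ → E6 → M := Sum.elim q fun k => k.1.1
  let W' : ι ⊕ κ → Set E6 := Sum.elim W fun k => Metric.ball k.1.2.1 k.1.2.2.1
  have hP' : ∀ i, Par (q' i) (W' i) := by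
    rintro (i | k)
    · exact hP i
    · exact k.2.1
  have hl : ∀ i, Relation.ReflTransGen (fun i j => ∃ x ∈ W' i, ∃ y ∈ W' j, q' i x = q' j y)
      (Sum.inl i) (Sum.inl i₀) := fun i =>
    Relation.ReflTransGen.lift (p := fun i j => ∃ x ∈ W' i, ∃ y ∈ W' j, q' i x = q' j y)
      Sum.inl (fun _ _ k => k) _ _ (hconn i)
  refine sc_of_coc' hP' ?_ (fun m => ?_) (Sum.inl i₀) ?_ ?_
  · rintro (i | k)
    · exact hU i
    · exact sc_star (Metric.mem_ball_self k.2.2.1)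
        ((convex_ball _ _).starConvex (Metric.mem_ball_self k.2.2.1))
  · rcases hcov m with ⟨i, x, hx, e⟩ | ⟨ψ, U, x, Z, h1, h2, h3, h4, h5⟩
    · exact ⟨Sum.inl i, x, hx, e⟩
    · obtain ⟨r, r0, r1⟩ := Metric.mem_nhds_iff.1 (h1.opn.mem_nhds h2)
      exact ⟨Sum.inr ⟨(ψ, x, r, Z), h1.mono Metric.isOpen_ball r1, r0, h4,
        fun z hz => h5 z (r1 hz)⟩, x, Metric.mem_ball_self r0, h3⟩
  · rintro (i | k)
    · exact hl i
    · obtain ⟨z, z1, z2⟩ := k.2.2.2.1.dense.inter_open_nonempty _ Metric.isOpen_ball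
        ⟨_, Metric.mem_ball_self (x := k.1.2.1) k.2.2.1⟩
      obtain ⟨i, y, hy, e⟩ := k.2.2.2.2 z z1 z2
      exact Relation.ReflTransGen.head (b := Sum.inl i) ⟨z, z1, y, hy, e.symm⟩ (hl i)
  · intro H _ T hT hK
    obtain ⟨g, hg⟩ := h H (fun i x j y => T (Sum.inl i) x (Sum.inl j) y)
      ⟨fun _ _ _ _ _ _ => hT.mul _ _ _ _ _ _, fun i j => hT.lc (Sum.inl i) (Sum.inl j)⟩
      (fun i => hK (Sum.inl i))
    have sub : ∀ k : κ, Metric.ball k.1.2.1 k.1.2.2.1 \ k.1.2.2.2 ⊆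
        W' (Sum.inr k) ∩ q' (Sum.inr k) ⁻¹' {m | ∃ i, ∃ x ∈ W i, q i x = m} :=
      fun k z hz => ⟨hz.1, k.2.2.2.2 z hz.1 hz.2⟩
    have den : ∀ k : κ, W' (Sum.inr k) ⊆ closure (Metric.ball k.1.2.1 k.1.2.2.1 \ k.1.2.2.2) :=
      fun k => k.2.2.2.1.dense.open_subset_closure_inter Metric.isOpen_ball
    refine Coc.extend hT hP' (A := range Sum.inl) (M₀ := {m | ∃ i, ∃ x ∈ W i, q i x = m})
      (g := Sum.elim g fun _ => 1) (fun m => ⟨?_, ?_⟩) ?_ ?_ ?_
    · rintro ⟨i, x, hx, e⟩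
      exact ⟨Sum.inl i, ⟨i, rfl⟩, x, hx, e⟩
    · rintro ⟨_, ⟨i, rfl⟩, x, hx, e⟩
      exact ⟨i, x, hx, e⟩
    · rintro (i | k) hc
      · exact (hc ⟨i, rfl⟩).elim
      · exact (k.2.2.2.1.conn _ Metric.isOpen_ball (convex_ball _ _).isPreconnected).subset_closure
          (sub k) (inter_subset_left.trans (den k))
    · rintro (i | k) hc
      · exact (hc ⟨i, rfl⟩).elim
      · exact (den k).trans (closure_mono (sub k))
    · rintro _ ⟨i, rfl⟩ _ ⟨j, rfl⟩
      exact hg i j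

end Pool.Agent.Work.MP_bf98aa_gt.B3
end
end

-- merged part: Pool.Agent.Work.MP_bf98aa_gt.B3.P5
section
/-!
Holonomy.

PLAN. `tv_of_pt`: `Coc.joint` with `a = id`, `b = f`. `Tv.conj`: `T (g x) (g (f x)) = T (g x) x * T x (f x) * T (f x) (g (f x))` and `T x (g x)` is constant. `absorb`: `Coc.over` on `S`; for `x ∈ W i`, `x' = f x`, use `tv_of_pt` at a point of `S`.
`half_triv`: `Tv (D l n)` does not depend on `n` (`Int.induction_on`); the set of `l` with `Tv (D l 0)` is a subgroup (closed under sums; `D l n ∘ D (-l) 0 = D 0 n'`), contains `2 m` (conjugate `ι` by `D m 0`), `e 0`, `e 1`, `c` (conjugate `ι` by `κ`) and `d`.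
`chain_cob`: `g 0 = 1`, `g (i + 1) = g i * a i` (`Fin.induction` or `Nat.rec`).
-/

set_option autoImplicit false

open scoped Manifold ContDiff Topology
open Set

namespace Pool.Agent.Work.MP_bf98aa_gt.B3

open Pool.Agent.Work.MP_bf98aa_gt.Th Pool.Agent.Work.MP_bf98aa_gt.Cy

variable {M : Type} [TopologicalSpace M] [ChartedSpace E6 M] [IsManifold 𝓘(ℝ, E6) ∞ M]
  {ι H : Type} [Group H] {q : ι → E6 → M} {W : ι → Set E6} {T : ι → E6 → ι → E6 → H} {i j : ι}
  {f f' g : E6 → E6} {x : E6}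

theorem Dk.comp {ψ : E6 → M} {U : Set E6} (hf : Dk ψ U f) (hg : Dk ψ U g) :
    Dk ψ U fun z => g (f z) := by
  exact ⟨hg.cont.comp hf.cont hf.maps, hg.maps.comp hf.maps,
    fun x hx => (hg.eq _ (hf.maps hx)).trans (hf.eq x hx)⟩

theorem tv_of_pt (hT : Coc q W T) (hW : IsPreconnected (W i)) (hf : Dk (q i) (W i) f)
    (hx : x ∈ W i) (h : T i x i (f x) = 1) : Tv W T i f := by
  intro y hy
  exact (hT.joint hW continuousOn_id hf.cont (mapsTo_id _) hf.maps
    (fun s hs => (hf.eq s hs).symm) hy hx).trans h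

theorem Tv.comp (hT : Coc q W T) (hf : Dk (q i) (W i) f) (h : Tv W T i f) (h' : Tv W T i g) :
    Tv W T i fun z => g (f z) := by
  intro y hy
  have k := hT.mul i y i (f y) i (g (f y))
  rw [h y hy, h' _ (hf.maps hy), one_mul] at k
  exact k.symm

theorem Tv.cancel (hT : Coc q W T) (hW : IsPreconnected (W i)) (hf : Dk (q i) (W i) f)
    (hg : Dk (q i) (W i) g) (h : Tv W T i f) (h' : Tv W T i fun z => g (f z)) : Tv W T i g := by
  intro y hy
  have k := hT.mul i y i (f y) i (g (f y))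
  rw [h y hy, one_mul] at k
  exact tv_of_pt hT hW hg (hf.maps hy) (k.trans (h' y hy)) y hy

theorem Tv.conj (hT : Coc q W T) (hW : IsPreconnected (W i)) (hf : Dk (q i) (W i) f)
    (hf' : Dk (q i) (W i) f') (hg : Dk (q i) (W i) g) (h : Tv W T i f)
    (he : ∀ z, f' (g z) = g (f z)) : Tv W T i f' := by
  intro y hy
  refine tv_of_pt hT hW hf' (hg.maps hy) ?_ y hy
  have k : T i (f y) i (g (f y)) = T i y i (g y) :=
    hT.joint hW continuousOn_id hg.cont (mapsTo_id _) hg.maps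
      (fun s hs => (hg.eq s hs).symm) (hf.maps hy) hy
  rw [he, ← hT.mul i (g y) i (f y) i (g (f y)), ← hT.mul i (g y) i y i (f y), h y hy, mul_one, k,
    hT.mul, hT.self]

theorem absorb (hT : Coc q W T) (hP : ∀ i, Par (q i) (W i)) (hj : Cst q W T j j 1)
    (hW : IsPreconnected (W i))
    (hD : ∀ x ∈ W i, ∀ y ∈ W i, q i x = q i y → ∃ f, Dk (q i) (W i) f ∧ f x = y) {S : Set E6}
    (hS : IsConnected S) (he : ∀ x, x ∈ S ↔ x ∈ W i ∧ ∃ y ∈ W j, q i x = q j y) :
    Cst q W T i i 1 ∧ ∃ a, Cst q W T i j a := by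
  obtain ⟨a, ha⟩ := hT.over hP (i := i) (j := j) hS.2 (fun x hx => ((he x).1 hx).1) hj
    (fun x hx => ((he x).1 hx).2)
  refine ⟨fun x hx y hy e => ?_, a, fun x hx y hy e => ha x ((he x).2 ⟨hx, y, hy, e⟩) y hy e⟩
  obtain ⟨f, hf, rfl⟩ := hD x hx y hy e
  obtain ⟨s, hs⟩ := hS.1
  obtain ⟨hs1, z, hz, ez⟩ := (he s).1 hs
  have e2 : q i (f s) = q j z := (hf.eq s hs1).trans ez
  refine tv_of_pt hT hW hf hs1 ?_ x hx
  rw [← hT.mul i s j z i (f s), hT.inv i (f s) j z, ha s hs z hz ez,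
    ha (f s) ((he _).2 ⟨hf.maps hs1, z, hz, e2⟩) z hz e2, mul_inv_cancel]

theorem P5_left (hT : Coc q W T) (hf : Dk (q i) (W i) f) (h : Tv W T i g)
    (h' : Tv W T i fun z => g (f z)) : Tv W T i f := by
  intro y hy
  have k := hT.mul i y i (f y) i (g (f y))
  rw [h _ (hf.maps hy), mul_one] at k
  exact k.trans (h' y hy)

theorem P5_all (G : AddSubgroup (Fin 4 → ℤ)) {c d : Fin 4 → ℤ} (tw : ∀ l, l + l ∈ G)
    (e0 : Pi.single 0 1 ∈ G) (e1 : Pi.single 1 1 ∈ G) (mc : c ∈ G) (md : d ∈ G)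
    (hc : Odd (c 2) ∧ Even (c 3)) (hd : Odd (d 3)) (l : Fin 4 → ℤ) : l ∈ G := by
  obtain ⟨⟨a, ha⟩, b, hb⟩ := hc
  obtain ⟨u, hu⟩ := hd
  have e2 : Pi.single 2 1 ∈ G := by
    have : (Pi.single 2 1 : Fin 4 → ℤ) = c - c 0 • Pi.single 0 1 - c 1 • Pi.single 1 1 -
        (![0, 0, a, b] + ![0, 0, a, b]) := by
      ext k
      fin_cases k <;> simp <;> omega
    rw [this]
    exact G.sub_mem (G.sub_mem (G.sub_mem mc (G.zsmul_mem e0 _)) (G.zsmul_mem e1 _)) (tw _)
  have e3 : Pi.single 3 1 ∈ G := by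
    have : (Pi.single 3 1 : Fin 4 → ℤ) = d - d 0 • Pi.single 0 1 - d 1 • Pi.single 1 1 -
        d 2 • Pi.single 2 1 - (![0, 0, 0, u] + ![0, 0, 0, u]) := by
      ext k
      fin_cases k <;> simp <;> omega
    rw [this]
    exact G.sub_mem (G.sub_mem (G.sub_mem (G.sub_mem md (G.zsmul_mem e0 _)) (G.zsmul_mem e1 _))
      (G.zsmul_mem e2 _)) (tw _)
  have : l = l 0 • Pi.single 0 1 + l 1 • Pi.single 1 1 + l 2 • Pi.single 2 1 +
      l 3 • Pi.single 3 1 := by
    ext k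
    fin_cases k <;> simp
  rw [this]
  exact G.add_mem (G.add_mem (G.add_mem (G.zsmul_mem e0 _) (G.zsmul_mem e1 _))
    (G.zsmul_mem e2 _)) (G.zsmul_mem e3 _)

theorem half_triv (hT : Coc q W T) (hW : IsPreconnected (W i)) {D : (Fin 4 → ℤ) → ℤ → E6 → E6}
    {io ka : E6 → E6} {c d : Fin 4 → ℤ} (hD : ∀ l n, Dk (q i) (W i) (D l n))
    (hi : Dk (q i) (W i) io) (hk : Dk (q i) (W i) ka) (g0 : ∀ z, D 0 0 z = z)
    (g1 : ∀ l n z, D 0 1 (D l n z) = D l (n + 1) z)
    (g2 : ∀ l l', ∃ n, ∀ z, D l 0 (D l' 0 z) = D (l + l') n z)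
    (g3 : ∀ l, ∃ n, ∀ z, D (l + l) n (io (D l 0 z)) = D l 0 (io z))
    (g4 : ∃ n, ∀ z, D c n (io (ka z)) = ka (io z))
    (hc : Odd (c 2) ∧ Even (c 3)) (hd : Odd (d 3)) (k0 : Tv W T i (D 0 1)) (k1 : Tv W T i io)
    (k2 : ∃ n, Tv W T i fun z => D (Pi.single 0 1) n (io z))
    (k3 : ∃ n, Tv W T i fun z => D (Pi.single 1 1) n (io z))
    (k4 : ∃ n, Tv W T i fun z => D 0 n (ka z)) (k5 : ∃ n, Tv W T i fun z => D d n (ka z)) :
    (∀ l n, Tv W T i (D l n)) ∧ Tv W T i ka := by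
  have st : ∀ l n, Tv W T i (D l (n + 1)) ↔ Tv W T i (D l n) := fun l n => by
    have e : D l (n + 1) = fun z => D 0 1 (D l n z) := funext fun z => (g1 l n z).symm
    rw [e]
    exact ⟨P5_left hT (hD l n) k0, fun h => h.comp hT (hD l n) k0⟩
  have A : ∀ l n, Tv W T i (D l n) ↔ Tv W T i (D l 0) := fun l n => by
    induction n using Int.induction_on with
    | zero => exact Iff.rfl
    | succ k ih => exact (st l k).trans ih
    | pred k ih =>
      refine Iff.trans ?_ ih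
      rw [← st l (-(k : ℤ) - 1), sub_add_cancel]
  have P0 : Tv W T i (D 0 0) := fun z _ => by rw [g0, hT.self]
  let G : AddSubgroup (Fin 4 → ℤ) :=
    { carrier := {l | Tv W T i (D l 0)}
      zero_mem' := P0
      add_mem' := fun {l l'} h h' => by
        obtain ⟨n, e⟩ := g2 l l'
        refine (A _ n).1 ?_
        rw [← funext e]
        exact Tv.comp hT (hD l' 0) h' h
      neg_mem' := fun {l} h => by
        obtain ⟨n, e⟩ := g2 l (-l)
        refine P5_left hT (hD (-l) 0) h ?_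
        rw [funext e, add_neg_cancel]
        exact (A 0 n).2 P0 }
  have mem : ∀ l n, Tv W T i (D l n) → l ∈ G := fun l n h => (A l n).1 h
  have tw : ∀ l, l + l ∈ G := fun l => by
    obtain ⟨n, e⟩ := g3 l
    exact mem _ n (Tv.cancel hT hW hi (hD _ n) k1
      (Tv.conj hT hW hi (hi.comp (hD (l + l) n)) (hD l 0) k1 e))
  have e0 : Pi.single 0 1 ∈ G := by
    obtain ⟨n, h⟩ := k2
    exact mem _ n (Tv.cancel hT hW hi (hD _ n) k1 h)
  have e1 : Pi.single 1 1 ∈ G := by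
    obtain ⟨n, h⟩ := k3
    exact mem _ n (Tv.cancel hT hW hi (hD _ n) k1 h)
  have K : Tv W T i ka := by
    obtain ⟨n, h⟩ := k4
    exact P5_left hT hk ((A 0 n).2 P0) h
  have mc : c ∈ G := by
    obtain ⟨n, e⟩ := g4
    exact mem _ n (Tv.cancel hT hW hi (hD _ n) k1
      (Tv.conj hT hW hi (hi.comp (hD c n)) hk k1 e))
  have md : d ∈ G := by
    obtain ⟨n, h⟩ := k5
    exact mem _ n (Tv.cancel hT hW hk (hD _ n) K h)
  exact ⟨fun l n => (A l n).2 (P5_all G tw e0 e1 mc md hc hd l), K⟩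

theorem P5_symm (hT : Coc q W T) {a : H} (h : Cst q W T i j a) : Cst q W T j i a⁻¹ := by
  intro y hy x hx e
  rw [hT.inv i x j y, h x hx y hy e.symm]

theorem chain_cob {n : ℕ} {q : Fin (n + 1) → E6 → M} {W : Fin (n + 1) → Set E6}
    {T : Fin (n + 1) → E6 → Fin (n + 1) → E6 → H} (hT : Coc q W T) (h0 : ∀ i, Cst q W T i i 1)
    (h1 : ∀ i : Fin n, ∃ a, Cst q W T i.castSucc i.succ a)
    (h2 : ∀ i j, ∀ x ∈ W i, ∀ y ∈ W j, q i x = q j y → i.1 ≤ j.1 + 1) :
    ∃ g : Fin (n + 1) → H, ∀ i j, Cst q W T i j ((g i)⁻¹ * g j) := by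
  choose a ha using h1
  let g : ℕ → H := fun k =>
    Nat.rec 1 (fun m r => if h : m < n then r * a ⟨m, h⟩ else r) k
  have gs : ∀ m : Fin n, (g m.castSucc.1)⁻¹ * g m.succ.1 = a m := fun m => by
    have : g (m.1 + 1) = g m.1 * a m := dif_pos m.2
    rw [Fin.val_succ, Fin.val_castSucc, this, inv_mul_cancel_left]
  refine ⟨fun i => g i.1, fun i j x hx y hy e => ?_⟩
  have l1 := h2 i j x hx y hy e
  have l2 := h2 j i y hy x hx e.symm
  rcases lt_trichotomy i.1 j.1 with l | l | l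
  · obtain ⟨m, rfl, rfl⟩ : ∃ m : Fin n, i = m.castSucc ∧ j = m.succ :=
      ⟨⟨i.1, by omega⟩, Fin.ext rfl, Fin.ext (show j.1 = i.1 + 1 by omega)⟩
    exact (ha m x hx y hy e).trans (gs m).symm
  · obtain rfl : i = j := Fin.ext l
    rw [inv_mul_cancel]
    exact h0 i x hx y hy e
  · obtain ⟨m, rfl, rfl⟩ : ∃ m : Fin n, j = m.castSucc ∧ i = m.succ :=
      ⟨⟨j.1, by omega⟩, Fin.ext rfl, Fin.ext (show i.1 = j.1 + 1 by omega)⟩
    rw [P5_symm hT (ha m) x hx y hy e, ← gs m, mul_inv_rev, inv_inv]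

theorem Cst.symm (hT : Coc q W T) {a : H} (h : Cst q W T i j a) : Cst q W T j i a⁻¹ := by
  exact P5_symm hT h

end Pool.Agent.Work.MP_bf98aa_gt.B3
end
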