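import Pool.Agent.Work.MP_bf98aa_gt.B3.P5
import Pool.Agent.Work.MP_bf98aa_gt.Cy.G8
import Pool.Agent.Work.MP_bf98aa_gt.B3.G1
import Pool.Agent.Work.MP_bf98aa_gt.B3.DAl

-- merged part: Pool.Agent.Work.MP_bf98aa_gt.B3.P3
section
/-!
Holes of codimension four.

PLAN. `sc_punct`: with `e = bv (0, 0)`, the sets `{z | ∀ t ≥ 0, px z ≠ t • e}` and `{z | ∀ t ≤ 0, px z ≠ t • e}` are open and star convex about `-e`, `e`; the intersection is the complement of a subspace of codimension three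
(`isPathConnected_compl_of_one_lt_codim`, or four convex pieces); `sc_union`. `sc_shell`: `sc_seg` from `{px z ≠ 0}` with `π z = (R / ‖px z‖) • px z`, then translate (`Homeomorph.isSimplyConnected_preimage`).
`sc_ball`: `sc_seg` to the shell of radius `r / 2`. `sc_rm4`: `sc_fill` with `Y z = Ψ ⁻¹' ball (Ψ z) r`. `sc_holes`: `B` is contractible (`contractible_seg`); `sc_fill` with `Y l = {‖px (z - c l)‖ < r}`;
`Y l ∩ W` retracts (`sc_seg`, `π z = rad (c l) (R / ‖px (z - c l)‖) z`, `R = (ε + r) / 2`; the segment consists of points `rad (c l) s z`) to `B ∩ {‖px (z - c l)‖ = R}`, which retracts to the shell.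
-/

set_option autoImplicit false

open scoped Manifold ContDiff Topology
open Set

namespace Pool.Agent.Work.MP_bf98aa_gt.B3

open Pool.Agent.Work.MP_bf98aa_gt.Th Pool.Agent.Work.MP_bf98aa_gt.Cy

variable {X B W : Set E6}

theorem P3_px (z : E6) : px (px z) = px z := funext fun i => by
  rw [px_apply, px_apply]
  split_ifs <;> rfl

theorem P3_two (z : E6) (j : Fin 2) : px z (2, j) = 0 := by rw [px_apply, if_pos rfl]

theorem P3_ext {z w : E6} (h : px z = px w) (h0 : z (2, 0) = w (2, 0)) (h1 : z (2, 1) = w (2, 1)) :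
    z = w := by
  funext ⟨i, j⟩
  by_cases e : i = 2
  · subst e
    fin_cases j
    exacts [h0, h1]
  · simpa only [px_apply, if_neg e] using congrFun h (i, j)

theorem P3_fix {π : E6 → E6} (h : ∀ z ∈ X, π z = z) : Seg X π := fun z hz t _ => by
  rwa [h z hz, sub_self, smul_zero, add_zero]

theorem P3_rad (c : E6) (s : ℝ) (z : E6) : px (rad c s z - c) = s • px (z - c) := by
  rw [rad, add_sub_right_comm, map_add, map_smul, P3_px, sub_smul, one_smul, add_sub_cancel]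

theorem P3_pos {t a : ℝ} (ht : t ∈ Icc (0 : ℝ) 1) (ha : 0 < a) : 0 < 1 + t * (a - 1) := by
  rcases ht.2.eq_or_lt with rfl | h
  · linarith
  · linarith only [h, ht, ha, mul_nonneg ht.1 ha.le]

theorem P3_ret {c w : E6} (hw : px (w - c) = 0) {R : ℝ} (hR : 0 < R) (hX : Convex ℝ X)
    (hm : ∀ v, ‖v‖ = R → w + v ∈ X) : IsSimplyConnected (X ∩ {z : E6 | px (z - c) ≠ 0}) ↔
      IsSimplyConnected {z : E6 | ‖px (z - c)‖ = R ∧ z (2, 0) = w (2, 0) ∧ z (2, 1) = w (2, 1)} := by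
  have h1 : ∀ (s : ℝ) z, px (w + s • px (z - c) - c) = s • px (z - c) := fun s z => by
    rw [add_sub_right_comm, map_add, hw, zero_add, map_smul, P3_px]
  have h2 : ∀ (s : ℝ) z j, (w + s • px (z - c)) (2, j) = w (2, j) := fun s z j => by
    rw [Pi.add_apply, Pi.smul_apply, P3_two, smul_zero, add_zero]
  have h3 : ∀ z, px (z - c) ≠ 0 → ‖(R / ‖px (z - c)‖) • px (z - c)‖ = R := fun z hz => by
    rw [norm_smul, norm_div, norm_norm, div_mul_cancel₀ _ (norm_ne_zero_iff.2 hz),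
      Real.norm_of_nonneg hR.le]
  have h4 : ∀ z ∈ {z : E6 | ‖px (z - c)‖ = R ∧ z (2, 0) = w (2, 0) ∧ z (2, 1) = w (2, 1)},
      w + (R / ‖px (z - c)‖) • px (z - c) = z := fun z hz => by
    refine P3_ext ?_ ((h2 _ _ _).trans hz.2.1.symm) ((h2 _ _ _).trans hz.2.2.symm)
    have := h1 (R / ‖px (z - c)‖) z
    rw [hz.1, div_self hR.ne', one_smul, map_sub] at this
    rw [hz.1, div_self hR.ne', one_smul]
    exact sub_left_inj.1 (this.trans (map_sub px z c))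
  refine sc_seg (π := fun z => w + (R / ‖px (z - c)‖) • px (z - c)) ?_
    (fun z hz => ⟨by rw [h1, h3 z hz.2], h2 _ _ _, h2 _ _ _⟩) (fun z hz => ?_) (fun z hz t ht => ⟨?_, ?_⟩)
    (P3_fix h4)
  · exact continuousOn_const.add ((continuousOn_const.div (by fun_prop) fun z hz =>
      norm_ne_zero_iff.2 hz.2).smul (by fun_prop))
  · have : px (z - c) ≠ 0 := norm_pos_iff.1 (hz.1 ▸ hR)
    exact ⟨h4 z hz ▸ hm _ (h3 z this), this⟩
  · exact hX.add_smul_sub_mem hz.1 (hm _ (h3 z hz.2)) ht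
  · have : px (z + t • (w + (R / ‖px (z - c)‖) • px (z - c) - z) - c) =
        (1 + t * (R / ‖px (z - c)‖ - 1)) • px (z - c) := by
      rw [add_sub_right_comm, map_add, map_smul, ← sub_sub_sub_cancel_right _ z c, map_sub px _ (z - c), h1]
      module
    rw [mem_setOf_eq, this]
    exact smul_ne_zero (P3_pos ht (div_pos hR (norm_pos_iff.2 hz.2))).ne' hz.2

theorem sc_punct : IsSimplyConnected {z : E6 | px z ≠ 0} := by
  let φ : E6 →L[ℝ] ℝ × ℝ × ℝ := (dc (0, 1)).prod ((dc (1, 0)).prod (dc (1, 1)))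
  have h0 : φ (bv (0, 0)) = 0 := by simp [φ, dc, bv]
  have h1 : ∀ σ : ℝ, IsOpen {z : E6 | 0 < σ * z (0, 0) ∨ φ z ≠ 0} := fun σ =>
    (isOpen_lt (g := fun z : E6 => σ * z (0, 0)) continuous_const (by fun_prop)).union
      (isOpen_ne_fun φ.continuous continuous_const)
  have h2 : ∀ σ : ℝ, σ * σ = 1 → IsSimplyConnected {z : E6 | 0 < σ * z (0, 0) ∨ φ z ≠ 0} :=
    fun σ hσ => sc_star (z := σ • bv (0, 0)) (Or.inl (by simp [bv, hσ])) fun z hz a b ha hb e => by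
      have : σ * (a • σ • bv (0, 0) + b • z) (0, 0) = a + b * (σ * z (0, 0)) := by
        simp only [bv, Pi.add_apply, Pi.smul_apply, Pi.single_eq_same, smul_eq_mul]
        linear_combination a * hσ
      rw [mem_setOf_eq, this, map_add, map_smul, map_smul, map_smul, h0, smul_zero, smul_zero, zero_add]
      rcases hb.eq_or_lt with rfl | hb
      · exact Or.inl (by linarith)
      · exact hz.imp (fun h => add_pos_of_nonneg_of_pos ha (mul_pos hb h)) (smul_ne_zero hb.ne')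
  have h3 : IsConnected (φ.ker : Set E6)ᶜ := isConnected_compl_of_one_lt_codim (by
    rw [(φ.toLinearMap.quotKerEquivOfSurjective fun x => ⟨mk 0 x.1 x.2.1 x.2.2 0 0, rfl⟩).rank_eq]
    simp only [rank_prod', Module.rank_self]
    norm_num)
  have h4 := sc_union (h1 1) (h1 (-1)) (h2 1 (by norm_num)) (h2 (-1) (by norm_num)) (by
    refine (congrArg IsConnected (Set.ext fun z => ?_)).mp h3
    exact ⟨fun h => ⟨Or.inr h, Or.inr h⟩, fun h => h.1.elim
      (fun a => h.2.elim (fun b => absurd a (by linarith)) id) id⟩)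
  refine (congrArg IsSimplyConnected (Set.ext fun z => ?_)).mp h4
  have h5 : px z = 0 ↔ z (0, 0) = 0 ∧ φ z = 0 := by
    simp [funext_iff, px_apply, φ, dc, Fin.forall_fin_succ, and_assoc]
  simp only [mem_union, mem_setOf_eq, ne_eq, h5, one_mul, neg_mul, Left.neg_pos_iff, not_and_or,
    ← lt_or_lt_iff_ne]
  tauto

theorem sc_shell (c : E6) {R : ℝ} (hR : 0 < R) (a b : ℝ) :
    IsSimplyConnected {z : E6 | ‖px (z - c)‖ = R ∧ z (2, 0) = a ∧ z (2, 1) = b} := by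
  have h := P3_ret (c := c) (w := px c + mk 0 0 0 0 a b) (by
    rw [map_sub, map_add, P3_px, add_sub_cancel_left]
    simp [funext_iff, px_apply, Fin.forall_fin_succ, mk]) hR convex_univ fun _ _ => trivial
  rw [univ_inter, Pi.add_apply, Pi.add_apply, P3_two, P3_two, zero_add, zero_add] at h
  exact h.1 ((Homeomorph.subRight c).isSimplyConnected_preimage.2 sc_punct)

theorem sc_ball {c : E6} (hc : px c = 0) {r : ℝ} (hr : 0 < r) :
    IsSimplyConnected (Metric.ball c r ∩ {z : E6 | px z ≠ 0}) := by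
  have h := (P3_ret (c := c) (w := c) (by rw [sub_self, map_zero]) (half_pos hr) (convex_ball c r)
    fun v hv => by simpa [hv] using hr).2 (sc_shell c (half_pos hr) _ _)
  simpa only [map_sub, hc, sub_zero] using h

theorem sc_rm4 (hX : IsOpen X) (hW : IsOpen W) (hs : W ⊆ X) (hc : IsSimplyConnected X)
    (h : ∀ z ∈ X, z ∉ W → ∃ Ψ : E6 ≃ₜ E6, ∀ᶠ p in 𝓝 z, p ∈ W ↔ px (Ψ p) ≠ 0) :
    IsSimplyConnected W := by
  have key : ∀ z ∈ X, z ∉ W → ∀ V ∈ 𝓝 z, ∃ N, IsOpen N ∧ z ∈ N ∧ N ⊆ V ∧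
      IsSimplyConnected (N ∩ W) := fun z hz hn V hV => by
    obtain ⟨Ψ, h1⟩ := h z hz hn
    obtain ⟨r, hr, h2⟩ := Metric.mem_nhds_iff.1 (Ψ.isOpenMap.image_mem_nhds (Filter.inter_mem hV h1))
    have h3 : Ψ ⁻¹' Metric.ball (Ψ z) r ⊆ V ∩ {p | p ∈ W ↔ px (Ψ p) ≠ 0} := fun p hp =>
      (Ψ.injective.mem_set_image).1 (h2 hp)
    refine ⟨_, Metric.isOpen_ball.preimage Ψ.continuous, Metric.mem_ball_self hr,
      h3.trans inter_subset_left, ?_⟩
    refine (congrArg IsSimplyConnected (Set.ext fun p => ?_)).mp (Ψ.isSimplyConnected_preimage.2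
      (sc_ball (not_not.1 fun e => hn (h1.self_of_nhds.2 e)) hr))
    exact and_congr_right fun hp => (h3 hp).2.symm
  choose N h1 h2 _ h3 using fun k : {z // z ∈ X ∧ z ∉ W} => key k k.2.1 k.2.2 univ Filter.univ_mem
  refine sc_fill hX hW hs hc h1 (fun z a b => ⟨⟨z, a, b⟩, h2 _⟩) h3 fun k l z hz hn => Or.inr
    ⟨mem_closure_iff_nhds.2 fun V hV => ?_, ?_⟩
  · obtain ⟨M, -, -, a, b⟩ := key z hz.1.1 hn V hV
    exact b.nonempty.mono (inter_subset_inter_left _ a)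
  · obtain ⟨M, a, b, e, f⟩ := key z hz.1.1 hn _ (((h1 k).inter (h1 l)).mem_nhds ⟨hz.1.2, hz.2⟩)
    exact ⟨M, a.mem_nhds b, e, f.isPathConnected.isConnected.isPreconnected⟩

theorem sc_holes (hB : IsOpen B) (hW : IsOpen W) (hs : W ⊆ B) {μ : ℝ}
    (h0 : ∀ z, z (2, 0) = μ → z ∈ B) (h1 : Seg B fun z => px z + μ • bv (2, 0))
    {Λ : Type} {c : Λ → E6} {ε r : ℝ} (hε : 0 ≤ ε) (hr : ε < r)
    (hsep : ∀ l l', l ≠ l' → r + ε ≤ ‖px (c l - c l')‖)
    (h2 : ∀ z ∈ B, z ∉ W → ∃ l, ‖px (z - c l)‖ ≤ ε)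
    (h3 : ∀ l, ∀ z ∈ B, px (z - c l) ≠ 0 → ‖px (z - c l)‖ < r → ∀ s : ℝ, 0 < s →
      s * ‖px (z - c l)‖ < r → rad (c l) s z ∈ B)
    (h4 : ∀ l, ∀ z ∈ W, px (z - c l) ≠ 0)
    (h5 : ∀ l, ∀ z ∈ B, z ∉ W → ‖px (z - c l)‖ ≤ ε → ∀ s : ℝ, 0 < s → s ≤ 1 → rad (c l) s z ∉ W) :
    IsSimplyConnected W := by
  have e0 : ∀ z, px (px z + μ • bv (2, 0)) = px z := fun z => by
    rw [map_add, P3_px, add_eq_left]
    simp [funext_iff, px_apply, bv, Pi.single_apply, Prod.ext_iff]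
  have e1 : ∀ z, (px z + μ • bv (2, 0)) (2, 0) = μ := fun z => by simp [P3_two, bv]
  have e2 : ∀ z, (px z + μ • bv (2, 0)) (2, 1) = 0 := fun z => by simp [P3_two, bv]
  have hu : ∀ z l m, ‖px (z - c l)‖ < r → ‖px (z - c m)‖ ≤ ε → l = m := fun z l m a b => by
    by_contra e
    have := hsep l m e
    rw [← sub_sub_sub_cancel_left (c m) (c l) z, map_sub] at this
    linarith only [a, b, this, norm_sub_le (px (z - c m)) (px (z - c l))]
  have hA : ∀ l, ∀ z ∈ B, z ∉ W → ‖px (z - c l)‖ < r → ‖px (z - c l)‖ ≤ ε := fun l z a b e => by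
    obtain ⟨m, hm⟩ := h2 z a b
    rwa [hu z l m e hm]
  have := contractible_seg (V := {z | z (2, 0) = μ}) (by fun_prop) (fun z _ => e1 z) h0 h1
    (convex_hyperplane (dc (2, 0)).toLinearMap.isLinear μ) ⟨_, e1 0⟩
  refine sc_fill (Y := fun l => {z | ‖px (z - c l)‖ < r}) hB hW hs
    (SimplyConnectedSpace.ofContractible B) (fun l => isOpen_lt (by fun_prop) continuous_const)
    (fun z a b => (h2 z a b).imp fun l h => h.trans_lt hr) (fun l => ?_) fun k l z hz hn => Or.inl ?_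
  swap
  · obtain ⟨m, hm⟩ := h2 z hz.1.1 hn
    rw [hu z k m hz.1.2 hm, hu z l m hz.2 hm]
  obtain ⟨R, r1, r2⟩ := exists_between hr
  have hR := hε.trans_lt r1
  have hn : ∀ z (s : ℝ), 0 < s → ‖px (rad (c l) s z - c l)‖ = s * ‖px (z - c l)‖ := fun z s a => by
    rw [P3_rad, norm_smul, Real.norm_of_nonneg a.le]
  refine (sc_seg (S' := B ∩ {z | ‖px (z - c l)‖ = R}) (π := fun z => rad (c l) (R / ‖px (z - c l)‖) z)
    ?_ (fun z hz => ?_) (fun z hz => ?_) (fun z hz t ht => ?_) (P3_fix fun z hz => ?_)).2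
    ((sc_seg (S := B ∩ {z | ‖px (z - c l)‖ = R})
      (S' := {z | ‖px (z - c l)‖ = R ∧ z (2, 0) = μ ∧ z (2, 1) = 0})
      (π := fun z => px z + μ • bv (2, 0)) (by fun_prop) (fun z hz => ⟨?_, e1 z, e2 z⟩)
      (fun z hz => ⟨h0 z hz.2.1, hz.1⟩) (fun z hz t ht => ⟨h1 z hz.1 t ht, ?_⟩)
      (P3_fix fun z hz => P3_ext (e0 z) ((e1 z).trans hz.2.1.symm) ((e2 z).trans hz.2.2.symm))).2
      (sc_shell (c l) hR μ 0))
  · exact continuousOn_id.add (((continuousOn_const.div (by fun_prop) fun z hz =>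
      norm_ne_zero_iff.2 (h4 l z hz.2)).sub continuousOn_const).smul (by fun_prop))
  · have a := norm_pos_iff.2 (h4 l z hz.2)
    have b := div_mul_cancel₀ R a.ne'
    exact ⟨h3 l z (hs hz.2) (h4 l z hz.2) hz.1 _ (div_pos hR a) (b.trans_lt r2),
      (hn z _ (div_pos hR a)).trans b⟩
  · have a := hz.2.trans_lt r2
    exact ⟨a, by_contra fun b => (hA l z hz.1 b a).not_gt (r1.trans_eq hz.2.symm)⟩
  · have a := norm_pos_iff.2 (h4 l z hz.2)
    have b := P3_pos ht (div_pos hR a)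
    have e : z + t • (rad (c l) (R / ‖px (z - c l)‖) z - z) =
        rad (c l) (1 + t * (R / ‖px (z - c l)‖ - 1)) z := by
      rw [rad, rad]
      module
    have f : (1 + t * (R / ‖px (z - c l)‖ - 1)) * ‖px (z - c l)‖ =
        (1 - t) * ‖px (z - c l)‖ + t * R := by
      field_simp
      ring
    have g : (1 - t) * ‖px (z - c l)‖ + t * R < r :=
      (convex_Iio r) hz.1 r2 (sub_nonneg.2 ht.2) ht.1 (sub_add_cancel 1 t)
    rw [e]
    generalize 1 + t * (R / ‖px (z - c l)‖ - 1) = s at b f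
    have k := h3 l z (hs hz.2) (h4 l z hz.2) hz.1 s b (f.trans_lt g)
    have m := (hn z s b).trans_lt (f.trans_lt g)
    refine ⟨m, by_contra fun n => h5 l _ k n (hA l _ k n m) s⁻¹ (inv_pos.2 b)
      (inv_le_one_of_one_le₀ (le_of_not_gt fun u => ?_)) ?_⟩
    · have := hA l _ k n m
      rw [hn z s b] at this
      have v : t * R < t * ‖px (z - c l)‖ := by linarith only [f, a, u, mul_pos_of_neg_of_neg (Mathlib.Tactic.Linarith.sub_neg_of_lt a) (Mathlib.Tactic.Linarith.sub_neg_of_lt u)]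
      have := lt_of_mul_lt_mul_left v ht.1
      nlinarith [mul_nonneg (sub_nonneg.2 ht.2) (sub_pos.2 this).le]
    · rw [rad, P3_rad, rad, smul_smul, sub_mul, inv_mul_cancel₀ b.ne', add_assoc, ← add_smul, one_mul,
        sub_add_sub_cancel, sub_self, zero_smul, add_zero]
      exact hz.2
  · rw [rad, hz.2, div_self hR.ne', sub_self, zero_smul, add_zero]
  · rw [map_sub, e0, ← map_sub]
    exact hz.2
  · rw [mem_setOf_eq, add_sub_right_comm, map_add, map_smul, map_sub px _ z, e0, sub_self, smul_zero,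
      add_zero]
    exact hz.2

end Pool.Agent.Work.MP_bf98aa_gt.B3
end

-- merged part: Pool.Agent.Work.MP_bf98aa_gt.B3.P8
section
-- merged part: Pool.Agent.Work.MP_bf98aa_gt.B3.P7
section
/-!
The neck without its holes is simply connected.

PLAN. `rho_mono`: `ex = 0` for `t ≤ 0`; for `0 < t ≤ 1 / 4` one has `|z₁|² = kap * qq` (`f1`) and `r ↦ kap * r + t (1 - ss t) η (c₀ r / t)` is monotone (`monotone_of_deriv_nonneg`, `hη.der`, `b5`);
for `1 / 8 ≤ t` both values of `η` are one (`b2`). `hole_near`: `b1`, `T * T = 1`. `open_hole`: `rho` is continuous (`|al q t| ≤ |t|` at `t = 0`); near `z₀` only the finitely many (at most one) `l` with `‖xv z₀ - l / 2‖ < 1 / 8` matter.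
`sc_m`, `sc_p`: `sc_holes` with `Λ = {l : L4 // Even (l 3)}`, `c l = mk4 (l / 2) 0 0`, `ε = 1 / 32`, `r = 1 / 4`; two centres within `1 / 16` of each other are equal.
-/

set_option autoImplicit false

open scoped Manifold ContDiff Topology Matrix
open Set Complex

namespace Pool.Agent.Work.MP_bf98aa_gt.B3

open Pool.Agent.Work.MP_bf98aa_gt.Th Pool.Agent.Work.MP_bf98aa_gt.Cy

theorem P7_xv (x : V4) (μ φ : ℝ) : xv (mk4 x μ φ) = x := by
  funext i
  fin_cases i <;> rfl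

theorem P7_cxv : Continuous xv := by
  refine continuous_pi fun i => ?_
  fin_cases i
  exacts [continuous_apply (0, 0), continuous_apply (0, 1), continuous_apply (1, 0),
    continuous_apply (1, 1)]

theorem P7_sep {l l' : L4} (h : ‖(1 / 2 : ℝ) • rv l - (1 / 2 : ℝ) • rv l'‖ < 1 / 2) : l = l' := by
  funext i
  have h1 := (norm_le_pi_norm _ i).trans_lt h
  simp only [Pi.sub_apply, Pi.smul_apply, smul_eq_mul, rv, Real.norm_eq_abs] at h1
  obtain ⟨h2, h3⟩ := abs_lt.1 h1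
  have h4 : ((l i - l' i : ℤ) : ℝ) < (1 : ℤ) := by push_cast; linarith only [h3]
  have h5 : ((-1 : ℤ) : ℝ) < (l i - l' i : ℤ) := by push_cast; linarith only [h2]
  have h6 := Int.cast_lt.1 h4
  have h7 := Int.cast_lt.1 h5
  omega

theorem P7_eq {x : V4} {l l' : L4} (h : ‖x - (1 / 2 : ℝ) • rv l‖ < 1 / 4)
    (h' : ‖x - (1 / 2 : ℝ) • rv l'‖ < 1 / 4) : l = l' := by
  refine P7_sep ?_
  have := norm_sub_le_norm_sub_add_norm_sub ((1 / 2 : ℝ) • rv l) x ((1 / 2 : ℝ) • rv l')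
  rw [norm_sub_rev _ x] at this
  linarith only [h, h', this]

theorem P7_ss (t : ℝ) : 0 ≤ ss t ∧ ss t ≤ 1 :=
  ⟨Real.smoothTransition.nonneg _, Real.smoothTransition.le_one _⟩

theorem P7_ss0 {t : ℝ} (ht : t ≤ 0) : ss t = 0 :=
  Real.smoothTransition.zero_of_nonpos (by linarith)

theorem P7_css : Continuous ss := Real.smoothTransition.continuous.comp (by fun_prop)

theorem P7_shf (t : ℝ) : 0 ≤ shf t := by
  rcases le_total t 0 with h | h
  · rw [shf, P7_ss0 h, mul_zero]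
  · exact mul_nonneg h (P7_ss t).1

theorem P7_rm_mul (A B : Z4) : rm (A * B) = rm A * rm B := by
  ext i j
  simp [rm, Matrix.mul_apply]

theorem P7_rm_one : rm 1 = 1 := by
  ext i j
  by_cases e : i = j <;> simp [rm, Matrix.one_apply, e]

theorem P7_seg (μ t : ℝ) (z : E6) :
    (z + t • (px z + μ • bv (2, 0) - z)) (2, 0) = z (2, 0) + t * (μ - z (2, 0)) ∧
    (z + t • (px z + μ • bv (2, 0) - z)) (1, 0) = z (1, 0) ∧
    (z + t • (px z + μ • bv (2, 0) - z)) (1, 1) = z (1, 1) := by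
  refine ⟨?_, ?_, ?_⟩ <;> simp [px_apply, bv]

theorem P7_lt {u v w t : ℝ} (ht : t ∈ Icc (0 : ℝ) 1) (h1 : u < v) (h2 : u < w) :
    u < v + t * (w - v) := by
  rcases le_total v w with h | h
  · linarith only [h1, ht, h, mul_nonneg ht.1 (sub_nonneg.2 h)]
  · nlinarith [mul_nonneg (sub_nonneg.2 ht.2) (sub_nonneg.2 h)]

theorem P7_gt {u v w t : ℝ} (ht : t ∈ Icc (0 : ℝ) 1) (h1 : v < u) (h2 : w < u) :
    v + t * (w - v) < u := by
  have := P7_lt ht (neg_lt_neg h1) (neg_lt_neg h2)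
  linarith

theorem P7_slab (a b : ℝ) : IsOpen (Slab a b) :=
  (isOpen_lt continuous_const (continuous_apply _)).inter
    (isOpen_lt (continuous_apply _) continuous_const)

theorem P7_int {u s : ℝ} {k n : ℤ} (hs : 0 < s) (h : s * |u - 1 / 2 * k| < 1 / 4)
    (e : 1 / 2 * k + s * (u - 1 / 2 * k) = n) : u = n := by
  have h1 : |s * (u - 1 / 2 * k)| < 1 / 4 := by rwa [abs_mul, abs_of_pos hs]
  obtain ⟨h2, h3⟩ := abs_lt.1 h1
  have h4 : ((2 * n - k : ℤ) : ℝ) < (1 : ℤ) := by push_cast; linarith only [e, h3]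
  have h5 : ((-1 : ℤ) : ℝ) < (2 * n - k : ℤ) := by push_cast; linarith only [e, h2]
  have h6 := Int.cast_lt.1 h4
  have h7 := Int.cast_lt.1 h5
  have h8 : k = 2 * n := by omega
  have h9 : (k : ℝ) = 2 * n := by exact_mod_cast h8
  have h10 : s * (u - 1 / 2 * k) = 0 := by linarith only [e, h9]
  have h11 := (mul_eq_zero.1 h10).resolve_left hs.ne'
  linarith only [h9, h11]

theorem norm_px (z : E6) (c : V4) : ‖px (z - mk4 c 0 0)‖ = ‖xv z - c‖ := by
  apply le_antisymm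
  · refine (pi_norm_le_iff_of_nonneg (norm_nonneg _)).2 fun ⟨i, j⟩ => ?_
    rw [px_apply]
    fin_cases i <;> fin_cases j
    exacts [norm_le_pi_norm (xv z - c) 0, norm_le_pi_norm (xv z - c) 1, norm_le_pi_norm (xv z - c) 2,
      norm_le_pi_norm (xv z - c) 3, by simp, by simp]
  · refine (pi_norm_le_iff_of_nonneg (norm_nonneg _)).2 fun i => ?_
    fin_cases i
    exacts [norm_le_pi_norm (px (z - mk4 c 0 0)) (0, 0), norm_le_pi_norm (px (z - mk4 c 0 0)) (0, 1),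
      norm_le_pi_norm (px (z - mk4 c 0 0)) (1, 0), norm_le_pi_norm (px (z - mk4 c 0 0)) (1, 1)]

theorem rad_eq (z : E6) (c : V4) (s : ℝ) :
    rad (mk4 c 0 0) s z = mk4 (c + s • (xv z - c)) (z (2, 0)) (z (2, 1)) := by
  funext ⟨i, j⟩
  fin_cases i <;> fin_cases j <;>
    simp [rad, px_apply, mk4, xv, Matrix.vecHead, Matrix.vecTail] <;> ring

namespace HD

variable {d : HD} {ν a b : ℝ} {x : V4} {z : E6}

theorem P7_al (h : d.Ok) (q t : ℝ) : 0 ≤ d.al q t ∧ d.al q t ≤ |t| := by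
  unfold al
  split_ifs with ht
  · have h1 := P7_ss t
    have h2 := h.hη.mem (d.c₀ * q / t)
    have h3 : 0 ≤ t * (1 - ss t) := mul_nonneg ht.le (by linarith only [h1])
    refine ⟨mul_nonneg h3 h2.1, ?_⟩
    rw [abs_of_pos ht]
    linarith only [h2, h3, ht, h1, mul_le_mul_of_nonneg_left h2.2 h3, mul_nonneg ht.le h1.1]
  · exact ⟨le_rfl, abs_nonneg t⟩

theorem P7_cal (h : d.Ok) : Continuous fun p : ℝ × ℝ => d.al p.1 p.2 := by
  refine continuous_iff_continuousAt.2 fun p => ?_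
  by_cases hp : p.2 = 0
  · have h0 : d.al p.1 p.2 = 0 := by rw [al, hp, if_neg (lt_irrefl _)]
    rw [ContinuousAt, h0]
    have h1 : Filter.Tendsto (fun y : ℝ × ℝ => |y.2|) (𝓝 p) (𝓝 0) := by
      have := (continuous_snd.abs.tendsto p)
      rwa [hp, abs_zero] at this
    exact squeeze_zero (fun y => (P7_al h _ _).1) (fun y => (P7_al h _ _).2) h1
  · have e : (fun p : ℝ × ℝ => d.al p.1 p.2) =
        fun p => max p.2 0 * (1 - ss p.2) * d.η (d.c₀ * p.1 / p.2) := by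
      funext y
      unfold al
      split_ifs with ht
      · rw [max_eq_left ht.le]
      · rw [max_eq_right (not_lt.1 ht), zero_mul, zero_mul]
    rw [e]
    have h1 : ContinuousAt (fun y : ℝ × ℝ => d.c₀ * y.1 / y.2) p :=
      (continuousAt_const.mul continuousAt_fst).div continuousAt_snd hp
    exact (((continuous_snd.max continuous_const).mul
      (continuous_const.sub (P7_css.comp continuous_snd))).continuousAt).mul
      (ContinuousAt.comp (f := fun y : ℝ × ℝ => d.c₀ * y.1 / y.2)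
        h.hη.sm.continuous.continuousAt h1)

theorem P7_crho (h : d.Ok) {f : E6 → ℝ} {g : E6 → V4} (hf : Continuous f) (hg : Continuous g) :
    Continuous fun z => d.rho (f z) (g z) := by
  have h1 : ∀ i, Continuous fun z => (d.cf (f z) *ᵥ g z) i := fun i => by
    simp only [Matrix.mulVec, dotProduct]
    exact continuous_finsetSum _ fun j _ =>
      ((h.smg i j).continuous.comp hf).mul ((continuous_apply j).comp hg)
  have h2 : ∀ i, Continuous fun z => g z i := fun i => (continuous_apply i).comp hg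
  have h3 : Continuous fun z => d.qq (g z 2) (g z 3) := by
    unfold qq
    exact (continuous_const.mul ((h2 2).pow 2)).add (((h2 3).pow 2).div_const _)
  have h4 : Continuous fun z => f z - d.μ₁ := hf.sub continuous_const
  have h5 := (P7_cal h).comp (h3.prodMk h4)
  simp only [rho, hh, ex, z1, z2, normSq_mk, shf]
  exact ((((h1 0).mul (h1 0)).add ((h1 1).mul (h1 1))).add
    (h5.add (h4.mul (P7_css.comp h4)))).add (((h1 2).mul (h1 2)).add ((h1 3).mul (h1 3)))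

theorem P7_TT (h : d.Ok) (x : V4) : rm d.T *ᵥ (rm d.T *ᵥ x) = x := by
  have h1 : (Matrix.diagonal ![1, 1, -1, -1] * Matrix.diagonal ![1, 1, -1, -1] : Z4) = 1 := by decide
  have h2 : d.T * d.T = 1 := by
    calc d.T * d.T = d.A * (Matrix.diagonal ![1, 1, -1, -1] * (d.A' * d.A) *
          Matrix.diagonal ![1, 1, -1, -1]) * d.A' := by simp only [T, Matrix.mul_assoc]
      _ = 1 := by rw [h.AA', Matrix.mul_one, h1, Matrix.mul_one, h.AA]
  rw [Matrix.mulVec_mulVec, ← P7_rm_mul, h2, P7_rm_one, Matrix.one_mulVec]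

theorem P7_eta (h : d.Ok) {u v : ℝ} (huv : u ≤ v) : d.η u - d.η v ≤ (v - u) / 2 := by
  have hd : Differentiable ℝ d.η := h.hη.sm.differentiable (by simp)
  have h1 : ∀ r, HasDerivAt (fun r => d.η r + r / 2) (deriv d.η r + 1 / 2) r := fun r =>
    (hd r).hasDerivAt.add ((hasDerivAt_id r).div_const 2)
  have h2 : Monotone fun r => d.η r + r / 2 :=
    monotone_of_deriv_nonneg (fun r => (h1 r).differentiableAt) fun r => by
      rw [(h1 r).deriv]
      linarith only [h, h.hη.der r]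
  have h3 : d.η u + u / 2 ≤ d.η v + v / 2 := h2 huv
  linarith only [h3]

theorem P7_lev (h : d.Ok) (hz : z ∈ Slab (-1 / 8) (d.μ₁ + 9 / 8)) :
    |z (2, 0)| ≤ d.M + 1 / 8 ∧ max 2 (2 * d.tt z) ≤ 8 := by
  have h1 := h.hμ
  obtain ⟨h2, h3⟩ := hz
  exact ⟨abs_le.2 ⟨by rw [M]; linarith only [h1, h2], by rw [M]; linarith only [h3]⟩,
    max_le (by norm_num) (by rw [tt]; linarith only [h3])⟩

theorem gz_zero_iff (h : d.Ok) :
    d.gz z = 0 ↔ (∃ n : ℤ, z (1, 0) = n) ∧ ∃ n : ℤ, z (1, 1) = n := by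
  refine ⟨h.hg.zero _ _, fun ⟨⟨m, hm⟩, n, hn⟩ => ?_⟩
  have h0 : d.g (0, 0) = 0 := by
    rw [h.hg.near 0 0 (by norm_num) (by norm_num)]
    apply Complex.ext <;> simp
  have h1 := h.hg.per 0 0 m n
  rw [h0, mul_zero, zero_add, zero_add] at h1
  rw [gz, hm, hn, h1]

theorem le_rho (h : d.Ok) : normSq (d.z1 ν x) + normSq (d.z2 ν x) ≤ d.rho ν x := by
  have h1 := (P7_al h (d.qq (x 2) (x 3)) (ν - d.μ₁)).1
  have h2 := P7_shf (ν - d.μ₁)
  simp only [rho, hh, ex]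
  linarith

theorem rho_zero (h : d.Ok) : d.rho ν 0 = max 0 (ν - d.μ₁) := by
  have h1 : d.η 0 = 1 := h.hη.one 0 (by linarith [h.hη.pos])
  simp only [rho, hh, ex, z1, z2, Matrix.mulVec_zero, Pi.zero_apply, normSq_mk, qq, al, shf]
  split_ifs with ht
  · rw [max_eq_right ht.le]
    simp only [ne_eq, OfNat.ofNat_ne_zero, not_false_eq_true, zero_pow, mul_zero, zero_div, add_zero,
      h1]
    ring
  · rw [max_eq_left (not_lt.1 ht), P7_ss0 (not_lt.1 ht)]
    ring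

theorem rho_mono (h : d.Ok) (hν : |ν| ≤ d.M + 1 / 8) (hx : d.rho ν x ≤ 8) {s : ℝ} (h0 : 0 < s)
    (h1 : s ≤ 1) : d.rho ν (s • x) ≤ d.rho ν x := by
  have e1 : normSq (d.z1 ν (s • x)) = s ^ 2 * normSq (d.z1 ν x) := by
    simp only [z1, Matrix.mulVec_smul, normSq_mk, Pi.smul_apply, smul_eq_mul]
    ring
  have e2 : normSq (d.z2 ν (s • x)) = s ^ 2 * normSq (d.z2 ν x) := by
    simp only [z2, Matrix.mulVec_smul, normSq_mk, Pi.smul_apply, smul_eq_mul]
    ring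
  have e3 : d.qq ((s • x) 2) ((s • x) 3) = s ^ 2 * d.qq (x 2) (x 3) := by
    simp only [qq, Pi.smul_apply, smul_eq_mul]
    ring
  have hq : 0 ≤ d.qq (x 2) (x 3) := by unfold qq; positivity
  have hs : 0 ≤ 1 - s ^ 2 := by linarith only [h1, h0, mul_nonneg_of_nonpos_of_nonpos (le_of_lt (Mathlib.Tactic.Linarith.sub_neg_of_lt h0)) (Mathlib.Tactic.Linarith.sub_nonpos_of_le h1)]
  have n1 := mul_nonneg hs (normSq_nonneg (d.z1 ν x))
  have n2 := mul_nonneg hs (normSq_nonneg (d.z2 ν x))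
  have hc : 0 < d.c₀ := by linarith only [h, h.b4]
  have hν' := (abs_le.1 hν).2
  have key : d.al (s ^ 2 * d.qq (x 2) (x 3)) (ν - d.μ₁) - d.al (d.qq (x 2) (x 3)) (ν - d.μ₁) ≤
      (1 - s ^ 2) * normSq (d.z1 ν x) := by
    unfold al
    split_ifs with ht
    · have a0 : d.c₀ * (s ^ 2 * d.qq (x 2) (x 3)) / (ν - d.μ₁) ≤ d.c₀ * d.qq (x 2) (x 3) / (ν - d.μ₁) :=
        div_le_div_of_nonneg_right (mul_le_mul_of_nonneg_left (by linarith only [hq, hs, mul_nonneg_of_nonpos_of_nonpos (Mathlib.Tactic.Linarith.sub_nonpos_of_le hq) (Mathlib.Tactic.Linarith.sub_nonpos_of_le hs)]) hc.le) ht.le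
      rcases le_total (ν - d.μ₁) (1 / 8) with h8 | h8
      · obtain ⟨-, b⟩ := h.b5 ν (by linarith only [ht, h8]) hν'
        have a1 : normSq (d.z1 ν x) = d.kap ν * d.qq (x 2) (x 3) := by
          rw [h.f1 ν (abs_le.2 ⟨by linarith only [ht, h8], by linarith only [ht, h8]⟩) x, normSq_mul, normSq_ofReal,
            Real.mul_self_sqrt (by linarith only [hc, b]), normSq_mk, qq]
          ring
        have a2 := P7_eta h a0
        have a3 := P7_ss (ν - d.μ₁)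
        have a4 : 0 ≤ (ν - d.μ₁) * (1 - ss (ν - d.μ₁)) := mul_nonneg ht.le (by linarith only [a3])
        have a5 := mul_le_mul_of_nonneg_left a2 a4
        have a6 : (ν - d.μ₁) * (1 - ss (ν - d.μ₁)) * ((d.c₀ * d.qq (x 2) (x 3) / (ν - d.μ₁) -
            d.c₀ * (s ^ 2 * d.qq (x 2) (x 3)) / (ν - d.μ₁)) / 2) =
            (1 - ss (ν - d.μ₁)) / 2 * d.c₀ * ((1 - s ^ 2) * d.qq (x 2) (x 3)) := by
          field_simp
        have a7 : (1 - ss (ν - d.μ₁)) / 2 * d.c₀ ≤ d.kap ν := by linarith only [b, hc, ht, h8, a3, mul_pos_of_neg_of_neg (Mathlib.Tactic.Linarith.sub_neg_of_lt hc) (Mathlib.Tactic.Linarith.sub_neg_of_lt ht), mul_nonneg_of_nonpos_of_nonpos (le_of_lt (Mathlib.Tactic.Linarith.sub_neg_of_lt hc)) (Mathlib.Tactic.Linarith.sub_nonpos_of_le h8), mul_nonneg_of_nonpos_of_nonpos (le_of_lt (Mathlib.Tactic.Linarith.sub_neg_of_lt hc)) (Mathlib.Tactic.Linarith.sub_nonpos_of_le a3.left)]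
        have a8 := mul_le_mul_of_nonneg_right a7 (mul_nonneg hs hq)
        rw [a1]
        linarith only [a5, a6, a8]
      · have a1 := h.b2 ν (by linarith only [h8]) hν' x ((le_rho h).trans hx)
        have a2 : d.c₀ * d.qq (x 2) (x 3) / (ν - d.μ₁) ≤ d.M₁ := by
          rw [div_le_iff₀ ht]
          linarith only [h8, a1, h, h.hη.pos, mul_nonneg_of_nonpos_of_nonpos (Mathlib.Tactic.Linarith.sub_nonpos_of_le h8) (Mathlib.Tactic.Linarith.sub_nonpos_of_le h.hη.pos)]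
        rw [h.hη.one _ a2, h.hη.one _ (a0.trans a2), sub_self]
        exact n1
    · rw [sub_self]
      exact n1
  simp only [rho, hh, ex, e1, e2, e3]
  linarith only [n2, key]

theorem hole_near (h : d.Ok) (hν : |z (2, 0)| ≤ d.M + 1 / 8) {l : L4}
    (hl : d.rho (z (2, 0)) (xv z - (1 / 2 : ℝ) • rv l) ≤ 8 ∨
      d.rho (-z (2, 0)) (rm d.T *ᵥ (xv z - (1 / 2 : ℝ) • rv l)) ≤ 8) :
    ‖xv z - (1 / 2 : ℝ) • rv l‖ ≤ 1 / 32 := by
  rcases hl with hl | hl
  · exact (h.b1 _ hν _ ((le_rho h).trans hl)).1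
  · have := (h.b1 _ (by rwa [abs_neg]) _ ((le_rho h).trans hl)).2.1
    rwa [P7_TT h] at this

theorem P7_near (h : d.Ok) (hz : z ∈ Slab (-1 / 8) (d.μ₁ + 9 / 8)) {l : L4}
    (hl : (Even (l 2) ∧ d.rho (z (2, 0)) (xv z - (1 / 2 : ℝ) • rv l) ≤ max 2 (2 * d.tt z)) ∨
      (Odd (l 2) ∧ d.rho (-z (2, 0)) (rm d.T *ᵥ (xv z - (1 / 2 : ℝ) • rv l)) ≤ 2)) :
    ‖xv z - (1 / 2 : ℝ) • rv l‖ ≤ 1 / 32 :=
  hole_near h (P7_lev h hz).1 (hl.imp (fun e => e.2.trans (P7_lev h hz).2)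
    fun e => e.2.trans (by norm_num))

theorem open_hole (h : d.Ok) : IsOpen (Slab (-1 / 8) (d.μ₁ + 9 / 8) \ d.Hole) := by
  have c0 : Continuous fun z : E6 => z (2, 0) := continuous_apply _
  have hc : ∀ l : L4, IsClosed {z : E6 | Even (l 3) ∧
      ((Even (l 2) ∧ d.rho (z (2, 0)) (xv z - (1 / 2 : ℝ) • rv l) ≤ max 2 (2 * d.tt z)) ∨
        (Odd (l 2) ∧ d.rho (-z (2, 0)) (rm d.T *ᵥ (xv z - (1 / 2 : ℝ) • rv l)) ≤ 2))} := fun l => by
    have c1 : Continuous fun z : E6 => xv z - (1 / 2 : ℝ) • rv l := P7_cxv.sub continuous_const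
    have c2 : Continuous fun z : E6 => max 2 (2 * d.tt z) :=
      continuous_const.max (continuous_const.mul (c0.sub continuous_const))
    exact isClosed_const.inter ((isClosed_const.inter (isClosed_le (P7_crho h c0 c1) c2)).union
      (isClosed_const.inter (isClosed_le (P7_crho h c0.neg (continuous_const.matrix_mulVec c1))
        continuous_const)))
  refine isOpen_iff_mem_nhds.2 fun z₀ hz₀ => ?_
  have h1 : ∀ᶠ z in 𝓝 z₀, ‖xv z₀ - xv z‖ < 1 / 8 := by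
    refine (isOpen_lt (continuous_const.sub P7_cxv).norm continuous_const).mem_nhds ?_
    simp
  have h2 : ∀ z ∈ Slab (-1 / 8) (d.μ₁ + 9 / 8), ‖xv z₀ - xv z‖ < 1 / 8 → ∀ l : L4,
      ‖xv z - (1 / 2 : ℝ) • rv l‖ ≤ 1 / 32 → ‖xv z₀ - (1 / 2 : ℝ) • rv l‖ < 1 / 4 :=
    fun z _ a l b => by
      linarith only [a, b, norm_sub_le_norm_sub_add_norm_sub (xv z₀) (xv z) ((1 / 2 : ℝ) • rv l)]
  have h3 : ∃ l₀ : L4, ∀ l : L4, ‖xv z₀ - (1 / 2 : ℝ) • rv l‖ < 1 / 4 → l = l₀ := by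
    by_cases e : ∃ l₀ : L4, ‖xv z₀ - (1 / 2 : ℝ) • rv l₀‖ < 1 / 4
    · obtain ⟨l₀, e⟩ := e
      exact ⟨l₀, fun l a => P7_eq a e⟩
    · exact ⟨0, fun l a => absurd ⟨l, a⟩ e⟩
  obtain ⟨l₀, h3⟩ := h3
  filter_upwards [h1, (P7_slab _ _).mem_nhds hz₀.1,
    (hc l₀).isOpen_compl.mem_nhds fun a => hz₀.2 ⟨l₀, a⟩] with z a b c
  refine ⟨b, fun ⟨l, e⟩ => c ?_⟩
  obtain rfl := h3 l (h2 z b a l (P7_near h b e.2))
  exact e

theorem P7_gen (h : d.Ok) {B : Set E6} (hB : IsOpen B) (hs : B ⊆ Slab (-1 / 8) (d.μ₁ + 9 / 8))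
    {μ : ℝ} (h0 : ∀ z, z (2, 0) = μ → z ∈ B) (h1 : Seg B fun z => px z + μ • bv (2, 0))
    (h3 : ∀ l : L4, ∀ z ∈ B, ∀ s : ℝ, 0 < s → s * ‖xv z - (1 / 2 : ℝ) • rv l‖ < 1 / 4 →
      mk4 ((1 / 2 : ℝ) • rv l + s • (xv z - (1 / 2 : ℝ) • rv l)) (z (2, 0)) (z (2, 1)) ∈ B) :
    IsSimplyConnected (B \ d.Hole) := by
  have hW : IsOpen (B \ d.Hole) := by
    have e : B \ d.Hole = B ∩ (Slab (-1 / 8) (d.μ₁ + 9 / 8) \ d.Hole) :=
      Set.ext fun z => ⟨fun a => ⟨a.1, hs a.1, a.2⟩, fun a => ⟨a.1, a.2.2⟩⟩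
    rw [e]
    exact hB.inter (open_hole h)
  have hH : ∀ z ∈ B, z ∉ B \ d.Hole → z ∈ d.Hole := fun z hz hn => by
    by_contra e
    exact hn ⟨hz, e⟩
  refine sc_holes (Λ := {l : L4 // Even (l 3)}) (c := fun l => mk4 ((1 / 2 : ℝ) • rv l.1) 0 0)
    (ε := 1 / 32) (r := 1 / 4) hB hW sdiff_subset h0 h1 (by norm_num) (by norm_num)
    (fun l l' e => ?_) (fun z hz hn => ?_) (fun l z hz _ _ s hs0 hs1 => ?_) (fun l z hz e => ?_)
    fun l z hz hn hl s hs0 hs1 hw => ?_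
  · rw [norm_px, P7_xv]
    by_contra hlt
    exact e (Subtype.ext (P7_sep (by linarith only [hlt, not_le.1 hlt])))
  · obtain ⟨l, h4, h5⟩ := hH z hz hn
    exact ⟨⟨l, h4⟩, by rw [norm_px]; exact P7_near h (hs hz) h5⟩
  · rw [norm_px] at hs1
    rw [rad_eq]
    exact h3 l.1 z hz s hs0 hs1
  · have e1 : xv z - (1 / 2 : ℝ) • rv l.1 = 0 := by rw [← norm_eq_zero, ← norm_px, e, norm_zero]
    refine hz.2 ⟨l.1, l.2, (Int.even_or_odd (l.1 2)).imp (fun a => ⟨a, ?_⟩) fun a => ⟨a, ?_⟩⟩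
    · rw [e1, rho_zero h, tt]
      refine max_le (le_max_of_le_left (by norm_num)) ?_
      rcases le_total (z (2, 0) - d.μ₁) 0 with a | a
      · exact le_max_of_le_left (by linarith only [a])
      · exact le_max_of_le_right (by linarith)
    · rw [e1, Matrix.mulVec_zero, rho_zero h]
      have a1 := h.hμ
      have a2 := (hs hz.1).1
      exact max_le (by norm_num) (by linarith only [a1, a2])
  · obtain ⟨l', h4, h5⟩ := hH z hz hn
    rw [norm_px] at hl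
    have h6 := P7_near h (hs hz) h5
    have e : l.1 = l' := P7_eq (hl.trans_lt (by norm_num)) (h6.trans_lt (by norm_num))
    subst e
    obtain ⟨h7, h8⟩ := P7_lev h (hs hz)
    rw [rad_eq] at hw
    refine hw.2 ⟨l.1, l.2, h5.imp (fun a => ⟨a.1, ?_⟩) fun a => ⟨a.1, ?_⟩⟩
    · rw [P7_xv, add_sub_cancel_left]
      exact (rho_mono h h7 (a.2.trans h8) hs0 hs1).trans a.2
    · rw [P7_xv, add_sub_cancel_left, Matrix.mulVec_smul]
      exact (rho_mono h (by rwa [abs_neg]) (a.2.trans (by norm_num)) hs0 hs1).trans a.2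

theorem sc_m (h : d.Ok) (ha : -1 / 8 ≤ a) (hab : a < b) (hb : a < d.μ₁) :
    IsSimplyConnected ((d.Wo .m ∩ Slab a b) \ d.Hole) := by
  have c0 : Continuous fun z : E6 => z (2, 0) := continuous_apply _
  have ct : Continuous d.tt := c0.sub continuous_const
  have cg : Continuous d.gz :=
    h.hg.sm.continuous.comp ((continuous_apply _).prodMk (continuous_apply _))
  have hm := lt_min hab hb
  have m1 := min_le_left b d.μ₁
  have m2 := min_le_right b d.μ₁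
  refine P7_gen h (μ := (a + min b d.μ₁) / 2) (((isOpen_lt continuous_const c0).inter
    ((isOpen_lt ct continuous_const).inter ((isOpen_ne_fun cg continuous_const).union
      (isOpen_lt ct continuous_const)))).inter (P7_slab a b)) (fun z hz => ⟨hz.1.1, ?_⟩)
    (fun z hz => ⟨⟨?_, ?_, Or.inr ?_⟩, ?_, ?_⟩) (fun z hz t ht => ?_) fun l z hz s hs0 hs1 => ?_
  · have := hz.1.2.1
    rw [tt] at this
    linarith only [this]
  · linarith only [ha, hm, hz]
  · rw [tt]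
    linarith only [hb, m2, hz]
  · rw [tt]
    linarith only [hb, m2, hz]
  · linarith only [hm, hz]
  · linarith only [hab, m1, hz]
  · obtain ⟨e0, e1, e2⟩ := P7_seg ((a + min b d.μ₁) / 2) t z
    obtain ⟨⟨a1, a2, a3⟩, a4, a5⟩ := hz
    rw [tt] at a2 a3
    refine ⟨⟨?_, ?_, a3.imp (fun e => ?_) fun e => ?_⟩, ?_, ?_⟩
    · rw [e0]
      exact P7_lt ht a1 (by linarith only [ha, hm])
    · rw [tt, e0, sub_lt_iff_lt_add]
      exact P7_gt ht (by linarith only [a2]) (by linarith only [hb, m2])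
    · rwa [gz, e1, e2]
    · rw [tt, e0, sub_lt_iff_lt_add]
      exact P7_gt ht (by linarith only [e]) (by linarith only [m2, a4, e])
    · rw [e0]
      exact P7_lt ht a4 (by linarith only [hm])
    · rw [e0]
      exact P7_gt ht a5 (by linarith only [m1, a4, a5])
  · obtain ⟨⟨a1, a2, a3⟩, a4⟩ := hz
    refine ⟨⟨a1, a2, a3.imp (fun e e' => e ?_) id⟩, a4⟩
    obtain ⟨⟨m, hm⟩, n, hn⟩ := (gz_zero_iff h).1 e'
    have b : ∀ i, s * |(xv z - (1 / 2 : ℝ) • rv l) i| < 1 / 4 := fun i =>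
      (mul_le_mul_of_nonneg_left (norm_le_pi_norm (xv z - (1 / 2 : ℝ) • rv l) i) hs0.le).trans_lt hs1
    exact (gz_zero_iff h).2 ⟨⟨m, P7_int (k := l 2) hs0 (b 2) hm⟩, n, P7_int (k := l 3) hs0 (b 3) hn⟩

theorem sc_p (h : d.Ok) (ha : d.μ₁ ≤ a) (hab : a < b) (hb : b ≤ d.μ₁ + 9 / 8) :
    IsSimplyConnected (Slab a b \ d.Hole) := by
  have h1 := h.hμ
  refine P7_gen h (μ := (a + b) / 2) (P7_slab a b)
    (fun z hz => ⟨by linarith only [ha, h1, hz, hz.1], by linarith only [hb, hz, hz.2]⟩)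
    (fun z hz => ⟨by linarith only [hab, hz], by linarith only [hab, hz]⟩) (fun z hz t ht => ?_) fun l z hz s _ _ => hz
  obtain ⟨e0, -, -⟩ := P7_seg ((a + b) / 2) t z
  refine ⟨?_, ?_⟩ <;> rw [e0]
  exacts [P7_lt ht hz.1 (by linarith only [hab]), P7_gt ht hz.2 (by linarith only [hab])]

end HD

end Pool.Agent.Work.MP_bf98aa_gt.B3
end

-- merged part: Pool.Agent.Work.MP_bf98aa_gt.B3.P6
section
/-!
Toric domains; extension of a coboundary.

PLAN. Let `pol p = mkc (√(p (0,0)) * ee (p (0,1))) ..` and `S = {p | (fun i => p (i,0)) ∈ P ∧ ∀ i, 0 ≤ p (i,0)}`, a convex set with `pol '' S = Tor P` (`exists_ee` in `Cy/K*`, or `norm_mul_exp_arg_mul_I`).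
`sc_toric`: `sc_of_dev`; let `E` be a primitive along `f ∘ pol` on `S` (`dev_of_sc`, `Convex.contractibleSpace`). If `p (i,0) = 0` then `E (p + t • bv (i,1)) = E p` (constant path, `PW.mul` gives weight one).
`p ↦ E (p + bv (i,1))` is a primitive too, so `IsDev.const` and a point with `p (i,0) = 0` give periodicity. Hence `pol p = pol p' → E p = E p'`; put `D (pol p) = E p`. Near `z₀`, with a primitive `D'` on a ball `N`:
the set `S'` of `p ∈ S` with `|p (i,0) - p₀ (i,0)| < δ` and (`p₀ (i,0) ≠ 0 → |p (i,1) - p₀ (i,1)| < δ`) is convex, `pol` maps it into `N` and onto a neighbourhood of `z₀`; `IsDev.const` on `S'`, `IsDev.congr`, `dev_loc`.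
`coc_extend`: as `Coc.extend` in `P4`.
-/

set_option autoImplicit false

open scoped Manifold ContDiff Topology
open Set Complex

namespace Pool.Agent.Work.MP_bf98aa_gt.B3

open Pool.Agent.Work.MP_bf98aa_gt.Th Pool.Agent.Work.MP_bf98aa_gt.Cy

/-- A toric domain. -/
def Tor (P : Set (Fin 3 → ℝ)) : Set E6 := {z | (fun i => normSq (cc i z)) ∈ P}

theorem IsDev.const {Y G : Type} [TopologicalSpace Y] [Group G] {Wt : ∀ a b : Y, Path a b → G}
    {f : E6 → Y} {S : Set E6} {D D' : E6 → G} (h : IsDev Wt f S D) (h' : IsDev Wt f S D')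
    (hf : ContinuousOn f S) (hS : IsPathConnected S) {x y : E6} (hx : x ∈ S) (hy : y ∈ S) :
    D y * (D' y)⁻¹ = D x * (D' x)⁻¹ := by
  obtain ⟨γ, hγ⟩ := hS.joinedIn x hx y hy
  let α : Path (f x) (f y) :=
    { toFun := fun t => f (γ t)
      continuous_toFun := hf.comp_continuous γ.continuous hγ
      source' := by rw [Path.source]
      target' := by rw [Path.target] }
  have h1 := h _ _ α _ γ.continuous hγ fun _ => rfl
  have h2 := h' _ _ α _ γ.continuous hγ fun _ => rfl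
  rw [Path.source, Path.target] at h1 h2
  rw [← h1, ← h2]
  group

/-- A point from three pairs. -/
def P6_mk (x : Fin 3 → ℝ × ℝ) : E6 := fun c => ![(x c.1).1, (x c.1).2] c.2

/-- Polar coordinates. -/
noncomputable def P6_pol (p : E6) : E6 :=
  P6_mk fun i => ((√(p (i, 0)) * ee (p (i, 1)) : ℂ).re, (√(p (i, 0)) * ee (p (i, 1)) : ℂ).im)

/-- The domain of the polar coordinates. -/
def P6_S (P : Set (Fin 3 → ℝ)) : Set E6 := {p | (fun i => p (i, 0)) ∈ P ∧ ∀ i, 0 ≤ p (i, 0)}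

theorem P6_cc (i : Fin 3) (p : E6) : cc i (P6_pol p) = √(p (i, 0)) * ee (p (i, 1)) := rfl

theorem P6_ext {z z' : E6} (h : ∀ i, cc i z = cc i z') : z = z' :=
  ext6 (congrArg re (h 0)) (congrArg im (h 0)) (congrArg re (h 1)) (congrArg im (h 1))
    (congrArg re (h 2)) (congrArg im (h 2))

theorem P6_cont1 : Continuous fun x : ℝ × ℝ => (√x.1 * ee x.2 : ℂ) :=
  (continuous_ofReal.comp (Real.continuous_sqrt.comp continuous_fst)).mul
    (contDiff_ee.continuous.comp continuous_snd)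

theorem P6_cont : Continuous P6_pol := by
  refine continuous_pi fun ⟨i, j⟩ => ?_
  have h : Continuous fun p : E6 => (√(p (i, 0)) * ee (p (i, 1)) : ℂ) :=
    P6_cont1.comp (f := fun p : E6 => (p (i, 0), p (i, 1))) (by fun_prop)
  fin_cases j
  · exact continuous_re.comp h
  · exact continuous_im.comp h

theorem P6_cc_cont (i : Fin 3) : Continuous (cc i) := by
  have : cc i = fun z : E6 => (z (i, 0) : ℂ) + z (i, 1) * I := funext fun z => by
    apply Complex.ext <;> simp [cc]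
  rw [this]
  fun_prop

theorem P6_normSq {p : E6} (hp : ∀ i, 0 ≤ p (i, 0)) :
    (fun i => normSq (cc i (P6_pol p))) = fun i => p (i, 0) := by
  funext i
  rw [P6_cc, map_mul, normSq_ee, normSq_ofReal, Real.mul_self_sqrt (hp i), mul_one]

theorem P6_image (P : Set (Fin 3 → ℝ)) : P6_pol '' P6_S P = Tor P := by
  refine Subset.antisymm ?_ fun z hz => ?_
  · rintro _ ⟨p, hp, rfl⟩
    change (fun i => normSq (cc i (P6_pol p))) ∈ P
    rw [P6_normSq hp.2]
    exact hp.1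
  · choose t ht using fun i => exists_ee (cc i z)
    refine ⟨P6_mk fun i => (normSq (cc i z), t i), ⟨hz, fun i => normSq_nonneg _⟩,
      P6_ext fun i => ?_⟩
    rw [P6_cc]
    exact (ht i).symm

theorem P6_convex {P : Set (Fin 3 → ℝ)} (hP : Convex ℝ P) : Convex ℝ (P6_S P) :=
  fun _ hx _ hy _ _ ha hb hab => ⟨hP hx.1 hy.1 ha hb hab, fun i =>
    add_nonneg (mul_nonneg ha (hx.2 i)) (mul_nonneg hb (hy.2 i))⟩

theorem P6_sc {S : Set E6} (hS : Convex ℝ S) (hne : S.Nonempty) : IsSimplyConnected S := by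
  have := hS.contractibleSpace hne
  exact SimplyConnectedSpace.ofContractible _

/-- Convex polar boxes are neighbourhoods. -/
theorem P6_box (c₀ : ℂ) {r : ℝ} (hr : 0 < r) : ∃ C : Set (ℝ × ℝ), Convex ℝ C ∧
    (∀ x ∈ C, 0 ≤ x.1 ∧ ‖(√x.1 * ee x.2 : ℂ) - c₀‖ < r) ∧
      ∀ᶠ c in 𝓝 c₀, ∃ x ∈ C, (√x.1 * ee x.2 : ℂ) = c := by
  by_cases h0 : c₀ = 0
  · subst h0
    refine ⟨Ico 0 (r ^ 2) ×ˢ univ, (convex_Ico _ _).prod convex_univ, fun x hx => ⟨hx.1.1, ?_⟩, ?_⟩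
    · rw [sub_zero, norm_mul, norm_ee, mul_one, norm_real, Real.norm_of_nonneg (Real.sqrt_nonneg _)]
      exact (Real.sqrt_lt' hr).2 hx.1.2
    · filter_upwards [Metric.ball_mem_nhds (0 : ℂ) hr] with c hc
      obtain ⟨t, ht⟩ := exists_ee c
      refine ⟨(normSq c, t), ⟨⟨normSq_nonneg _, ?_⟩, mem_univ _⟩, ht.symm⟩
      rw [normSq_eq_norm_sq]
      exact pow_lt_pow_left₀ (mem_ball_zero_iff.1 hc) (norm_nonneg _) two_ne_zero
  · obtain ⟨t₀, ht₀⟩ := exists_ee c₀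
    obtain ⟨G, hG, hG0, hG1⟩ := ee_lift (c := id) (x := c₀) contDiffAt_id h0 ht₀
    have e1 : ∀ᶠ x : ℝ × ℝ in 𝓝 (normSq c₀, t₀), 0 < x.1 :=
      continuous_fst.continuousAt.eventually (lt_mem_nhds (normSq_pos.2 h0))
    have e2 : ∀ᶠ x : ℝ × ℝ in 𝓝 (normSq c₀, t₀), (√x.1 * ee x.2 : ℂ) ∈ Metric.ball c₀ r :=
      P6_cont1.continuousAt.eventually (Metric.isOpen_ball.mem_nhds (by
        change (‖c₀‖ * ee t₀ : ℂ) ∈ _
        rw [← ht₀]
        exact Metric.mem_ball_self hr))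
    obtain ⟨δ, hδ, hb⟩ := Metric.mem_nhds_iff.1 (e1.and e2)
    have e3 : ContinuousAt (fun c => (normSq c, G c)) c₀ :=
      continuous_normSq.continuousAt.prodMk hG.continuousAt
    refine ⟨Metric.ball (normSq c₀, t₀) δ, convex_ball _ _,
      fun x hx => ⟨(hb hx).1.le, mem_ball_iff_norm.1 (hb hx).2⟩, ?_⟩
    filter_upwards [hG1, e3.eventually (Metric.ball_mem_nhds _ hδ)] with c h1 h2
    exact ⟨(normSq c, G c), hG0 ▸ h2, h1.symm⟩

/-- A primitive along the polar map descends to a function. -/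
theorem P6_desc {Y G : Type} [TopologicalSpace Y] [Group G] {Wt : ∀ a b : Y, Path a b → G}
    (hW : PW Wt) {f : E6 → Y} {P : Set (Fin 3 → ℝ)} (hP : Convex ℝ P)
    (h : ∀ i, ∃ a ∈ P, (∀ k, 0 ≤ a k) ∧ a i = 0) (hf : ContinuousOn (f ∘ P6_pol) (P6_S P))
    {E : E6 → G} (hE : IsDev Wt (f ∘ P6_pol) (P6_S P) E) {p p' : E6} (hp : p ∈ P6_S P)
    (hp' : p' ∈ P6_S P) (he : P6_pol p = P6_pol p') : E p = E p' := by
  have s0 : ∀ (p : E6) (i k : Fin 3) (t : ℝ), (p + t • bv (i, 1)) (k, 0) = p (k, 0) := by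
    intro p i k t
    simp [bv]
  have s1 : ∀ p ∈ P6_S P, ∀ (i : Fin 3) (t : ℝ), p + t • bv (i, 1) ∈ P6_S P := by
    intro p hp i t
    simpa only [P6_S, mem_ofPred_eq, s0] using hp
  have s2 : ∀ (p : E6) (i : Fin 3) (t : ℝ), (p (i, 0) = 0 ∨ ∃ n : ℤ, t = n) →
      P6_pol (p + t • bv (i, 1)) = P6_pol p := by
    intro p i t ht
    refine P6_ext fun k => ?_
    rw [P6_cc, P6_cc, s0]
    by_cases hk : k = i
    · subst hk
      rcases ht with ht | ⟨n, rfl⟩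
      · simp [ht]
      · simp [bv, ee_add, ee_int]
    · simp [bv, hk]
  have w1 : ∀ a, Wt a a (Path.refl a) = 1 := fun a => by
    have := hW.mul _ _ _ (Path.refl a) (Path.refl a)
    rwa [Path.refl_trans_refl, left_eq_mul] at this
  have a0 : ∀ p ∈ P6_S P, ∀ (i : Fin 3) (t : ℝ), p (i, 0) = 0 → E (p + t • bv (i, 1)) = E p := by
    intro p hp i t h0
    have := hE _ _ (Path.refl (f (P6_pol p))) (fun s => p + ((s : ℝ) * t) • bv (i, 1))
      (by fun_prop) (fun s => s1 p hp i _) fun s => congrArg f (s2 p i _ (.inl h0))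
    simpa [w1] using this.symm
  have a1 : ∀ p ∈ P6_S P, ∀ (i : Fin 3) (t : ℝ), (p (i, 0) = 0 ∨ ∃ n : ℤ, t = n) →
      E (p + t • bv (i, 1)) = E p := by
    rintro p hp i t (h0 | ht)
    · exact a0 p hp i t h0
    obtain ⟨a, ha, ha0, hai⟩ := h i
    have hE' : IsDev Wt (f ∘ P6_pol) (P6_S P) fun p => E (p + t • bv (i, 1)) :=
      fun a b α γ hγ hγS hγα => hE a b α (fun s => γ s + t • bv (i, 1)) (by fun_prop)
        (fun s => s1 _ (hγS s) i t) fun s => (congrArg f (s2 _ i t (.inr ht))).trans (hγα s)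
    have hA : (P6_mk fun k => (a k, 0)) ∈ P6_S P := ⟨ha, ha0⟩
    have := hE'.const hE hf ((P6_convex hP).isPathConnected ⟨p, hp⟩) hA hp
    rwa [a0 _ hA i t hai, mul_inv_cancel, mul_inv_eq_one] at this
  have e0 : ∀ i, p' (i, 0) = p (i, 0) := fun i => by
    rw [← congrFun (P6_normSq hp.2) i, ← congrFun (P6_normSq hp'.2) i, he]
  have e1 : ∀ i, p (i, 0) = 0 ∨ ∃ n : ℤ, p' (i, 1) - p (i, 1) = n := fun i => by
    refine (hp.2 i).eq_or_lt.symm.imp (fun hi => ?_) Eq.symm |>.symm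
    have := congrArg (cc i) he
    rw [P6_cc, P6_cc, e0] at this
    obtain ⟨n, hn⟩ := ee_eq_iff.1 (mul_left_cancel₀
      (ofReal_ne_zero.2 (Real.sqrt_pos.2 hi).ne') this).symm
    exact ⟨n, by rw [hn]; ring⟩
  have e2 : p' = p + (p' (0, 1) - p (0, 1)) • bv (0, 1) + (p' (1, 1) - p (1, 1)) • bv (1, 1) +
      (p' (2, 1) - p (2, 1)) • bv (2, 1) := by
    apply ext6 <;> simp [bv, e0]
  rw [e2, a1 _ (s1 _ (s1 _ hp _ _) _ _) _ _ (by rw [s0, s0]; exact e1 2),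
    a1 _ (s1 _ hp _ _) _ _ (by rw [s0]; exact e1 1), a1 _ hp _ _ (e1 0)]

theorem conn_toric {P : Set (Fin 3 → ℝ)} (hP : Convex ℝ P) : IsPreconnected (Tor P) := by
  rw [← P6_image]
  exact (P6_convex hP).isPreconnected.image _ P6_cont.continuousOn

theorem sc_toric {P : Set (Fin 3 → ℝ)} (hP : Convex ℝ P) (ho : IsOpen P)
    (h : ∀ i, ∃ a ∈ P, (∀ k, 0 ≤ a k) ∧ a i = 0) : IsSimplyConnected (Tor P) := by
  classical
  obtain ⟨a, ha, ha0, -⟩ := h 0
  have hne : (P6_S P).Nonempty := ⟨P6_mk fun k => (a k, 0), ha, ha0⟩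
  have hm : MapsTo P6_pol (P6_S P) (Tor P) := fun p hp => P6_image P ▸ mem_image_of_mem _ hp
  refine sc_of_dev (P6_image P ▸ ((P6_convex hP).isPathConnected hne).image P6_cont) ?_
  intro Y G _ _ Wt hW f hf
  have hg : ContinuousOn (f ∘ P6_pol) (P6_S P) := hf.comp P6_cont.continuousOn hm
  obtain ⟨E, hE⟩ := dev_of_sc hW hg (P6_sc (P6_convex hP) hne)
  obtain ⟨D, hD⟩ : ∃ D : E6 → G, ∀ p ∈ P6_S P, D (P6_pol p) = E p :=
    ⟨fun z => if hz : z ∈ P6_pol '' P6_S P then E hz.choose else 1, fun p hp => by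
      have hz : P6_pol p ∈ P6_pol '' P6_S P := mem_image_of_mem _ hp
      simp only [dif_pos hz]
      exact P6_desc hW hP h hg hE hz.choose_spec.1 hp hz.choose_spec.2⟩
  refine ⟨D, dev_loc hW fun z₀ hz₀ => ?_⟩
  have hT : IsOpen (Tor P) :=
    ho.preimage (continuous_pi fun i => continuous_normSq.comp (P6_cc_cont i))
  obtain ⟨r, hr, hb⟩ := Metric.isOpen_iff.1 hT z₀ hz₀
  obtain ⟨D', hD'⟩ := dev_of_sc hW (hf.mono hb)
    (P6_sc (convex_ball z₀ r) ⟨z₀, Metric.mem_ball_self hr⟩)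
  choose C hC1 hC2 hC3 using fun i => P6_box (cc i z₀) hr
  let S' : Set E6 := {p | ∀ i, (p (i, 0), p (i, 1)) ∈ C i}
  have c1 : Convex ℝ S' := fun _ hx _ hy _ _ ha hb hab i => hC1 i (hx i) (hy i) ha hb hab
  have c2 : MapsTo P6_pol S' (Metric.ball z₀ r) := fun p hp => by
    refine mem_ball_iff_norm.2 ((pi_norm_lt_iff hr).2 fun ⟨i, j⟩ => ?_)
    have := (hC2 i _ (hp i)).2
    fin_cases j
    · exact (abs_re_le_norm (cc i (P6_pol p) - cc i z₀)).trans_lt this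
    · exact (abs_im_le_norm (cc i (P6_pol p) - cc i z₀)).trans_lt this
  have c3 : S' ⊆ P6_S P := fun p hp => by
    have h0 : ∀ i, 0 ≤ p (i, 0) := fun i => (hC2 i _ (hp i)).1
    exact ⟨P6_normSq h0 ▸ hb (c2 hp), h0⟩
  have c4 : P6_pol '' S' ∈ 𝓝 z₀ := by
    filter_upwards [Filter.eventually_all.2 fun i =>
      (P6_cc_cont i).continuousAt.eventually (hC3 i)] with z hz
    choose x hx1 hx2 using hz
    exact ⟨P6_mk x, hx1, P6_ext hx2⟩
  obtain ⟨p₀, hp₀, -⟩ := mem_of_mem_nhds c4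
  have c5 : IsDev Wt (f ∘ P6_pol) S' (D' ∘ P6_pol) := fun a b α γ hγ hγS hγα =>
    hD' a b α (P6_pol ∘ γ) (P6_cont.comp hγ) (fun t => c2 (hγS t)) hγα
  refine ⟨_, c4, (hD'.mono fun z hz => image_subset_iff.2 c2 hz.1).congr
    (E p₀ * (D' (P6_pol p₀))⁻¹) ?_⟩
  rintro _ ⟨⟨p, hp, rfl⟩, -⟩
  rw [hD p (c3 hp)]
  exact mul_inv_eq_iff_eq_mul.1
    ((hE.mono c3).const c5 (hg.mono c3) (c1.isPathConnected ⟨p, hp⟩) hp₀ hp)

variable {M : Type} [TopologicalSpace M] [ChartedSpace E6 M] [IsManifold 𝓘(ℝ, E6) ∞ M]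
  {ι H : Type} [Group H] {q : ι → E6 → M} {W : ι → Set E6} {T : ι → E6 → ι → E6 → H}

/-- A related pair moves along a local lift without changing the cocycle. -/
theorem P6_lift (hT : Coc q W T) (hP : ∀ i, Par (q i) (W i)) {c d : ι} {x y : E6} (hx : x ∈ W c)
    (hy : y ∈ W d) (he : q c x = q d y) :
    ∀ᶠ t in 𝓝 x, ∃ u ∈ W d, q c t = q d u ∧ T c t d u = T c x d y := by
  obtain ⟨f, ⟨f1, f2⟩, f3⟩ := (hP d).tr hy ((hP c).sm x hx) he
  have c0 : ContinuousAt (fun t => (t, f t)) x := continuousAt_id.prodMk f1.continuousAt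
  have l := hT.lc c d _ hx _ hy he
  have m := (hP d).opn.mem_nhds hy
  rw [← f3] at l m
  filter_upwards [c0.eventually l, f2, f1.continuousAt.eventually m] with t k1 k2 k3
  exact ⟨f t, k3, k2.symm, by rw [k1 k2.symm, f3]⟩

theorem coc_extend (hT : Coc q W T) (hP : ∀ i, Par (q i) (W i)) {A : Set ι} {M₀ : Set M}
    (hM : ∀ m, m ∈ M₀ ↔ ∃ i ∈ A, ∃ x ∈ W i, q i x = m)
    (h1 : ∀ c ∉ A, IsPreconnected (W c ∩ q c ⁻¹' M₀))
    (h2 : ∀ c ∉ A, ∀ c' ∉ A, ∀ x ∈ W c, ∀ y ∈ W c', q c x = q c' y → ∃ x' ∈ W c, ∃ y' ∈ W c',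
      q c x' = q c' y' ∧ q c x' ∈ M₀ ∧ T c x c' y = T c x' c' y') {g : ι → H}
    (hg : ∀ i ∈ A, ∀ j ∈ A, Cst q W T i j ((g i)⁻¹ * g j)) :
    ∃ g' : ι → H, ∀ i j, Cst q W T i j ((g' i)⁻¹ * g' j) := by
  have ind : ∀ (c : ι) (z : E6), ∀ i ∈ A, ∀ y ∈ W i, ∀ j ∈ A, ∀ w ∈ W j, q i y = q j w →
      g i * T i y c z = g j * T j w c z := by
    intro c z i hi y hy j hj w hw he
    rw [← hT.mul i y j w c z, hg i hi j hj y hy w hw he]
    group
  have key : ∀ c, ∃ v : H, ∀ z ∈ W c, ∀ i ∈ A, ∀ y ∈ W i, q i y = q c z →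
      g i * T i y c z = v := by
    intro c
    by_cases hc : c ∈ A
    · refine ⟨g c, fun z hz i hi y hy he => ?_⟩
      rw [hg i hi c hc y hy z hz he]
      group
    · have ex : ∀ z ∈ W c ∩ q c ⁻¹' M₀, ∃ p : ι × E6, p.1 ∈ A ∧ p.2 ∈ W p.1 ∧
          q p.1 p.2 = q c z := fun z hz => by
        obtain ⟨i, hi, y, hy, e⟩ := (hM _).1 hz.2
        exact ⟨(i, y), hi, hy, e⟩
      rcases (W c ∩ q c ⁻¹' M₀).eq_empty_or_nonempty with e | ⟨z₀, h₀⟩
      · refine ⟨1, fun z hz i hi y hy he => ?_⟩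
        have : z ∈ W c ∩ q c ⁻¹' M₀ := ⟨hz, (hM _).2 ⟨i, hi, y, hy, he⟩⟩
        rw [e] at this
        exact this.elim
      obtain ⟨p₀, -⟩ := ex z₀ h₀
      have : Nonempty (ι × E6) := ⟨p₀⟩
      choose! p p1 p2 p3 using ex
      refine ⟨g (p z₀).1 * T (p z₀).1 (p z₀).2 c z₀, fun z hz i hi y hy he => ?_⟩
      have hz' : z ∈ W c ∩ q c ⁻¹' M₀ := ⟨hz, (hM _).2 ⟨i, hi, y, hy, he⟩⟩
      refine (ind c z i hi y hy _ (p1 z hz') _ (p2 z hz') (he.trans (p3 z hz').symm)).trans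
        (G9a_const (φ := fun s => g (p s).1 * T (p s).1 (p s).2 c s) (h1 c hc)
          (fun x hx => ?_) hz' h₀)
      filter_upwards [nhdsWithin_le_nhds (P6_lift hT hP hx.1 (p2 x hx) (p3 x hx).symm),
        self_mem_nhdsWithin] with t ⟨u, u1, u2, u3⟩ ht
      rw [ind c t _ (p1 t ht) _ (p2 t ht) _ (p1 x hx) u u1 ((p3 t ht).trans u2),
        hT.inv c t _ u, u3, ← hT.inv c x _ _]
  choose v hv using key
  have main : ∀ c d, ∀ x ∈ W c, ∀ y ∈ W d, q c x = q d y → q c x ∈ M₀ →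
      T c x d y = (v c)⁻¹ * v d := by
    intro c d x hx y hy he hm
    obtain ⟨i, hi, w, hw, e⟩ := (hM _).1 hm
    rw [← hv c x hx i hi w hw e, ← hv d y hy i hi w hw (e.trans he), ← hT.mul c x i w d y,
      hT.inv i w c x]
    group
  refine ⟨v, fun c d x hx y hy he => ?_⟩
  by_cases hc : c ∈ A
  · exact main c d x hx y hy he ((hM _).2 ⟨c, hc, x, hx, rfl⟩)
  by_cases hd : d ∈ A
  · exact main c d x hx y hy he ((hM _).2 ⟨d, hd, y, hy, he.symm⟩)
  obtain ⟨x', hx', y', hy', e, hm, ht⟩ := h2 c hc d hd x hx y hy he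
  rw [ht]
  exact main c d x' hx' y' hy' e hm

end Pool.Agent.Work.MP_bf98aa_gt.B3
end

-- merged part: Pool.Agent.Work.MP_bf98aa_gt.B3.P8
section
/-!
The domains of the main charts.

PLAN. `kset_loc`: let `Dm l n (ka z) = z`. In fold coordinates `X = A' x`, `l' = A' l`, the equations for `p` read `l' 0 = l' 1 = 0`, `2 X 2 = 1 / 2 + l' 2`, `2 X 3 = l' 3`, `μ = 0`, `2 φ = ` an affine function of `x` plus `n`.
Near `z` a fixed point of `Dm l₁ n₁ ∘ ka` has `l₁ = l` and `n₁ = n` (integers that differ by less than one). Take `Ψ p = L (p - z)` with the injective linear map `L p = mk (X 2) (X 3) μ (φ - linear part) (X 0) (X 1)`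
(`LinearEquiv.ofInjectiveEndo`, `toContinuousLinearEquiv`). `sc_E`: `sc_rm4` with `sc_m`, `open_hole`. `conn_mp`: `sc_p`, `thin_lat`, `gz_zero_iff`.
The sets in the chart `F` are `Tor P` for convex `P` (intersections of half spaces; `|·| < c` and `max` split into two).
-/

set_option autoImplicit false

open scoped Manifold ContDiff Topology Matrix
open Set Complex

namespace Pool.Agent.Work.MP_bf98aa_gt.B3

open Pool.Agent.Work.MP_bf98aa_gt.Th Pool.Agent.Work.MP_bf98aa_gt.Cy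

theorem P8_xv (x : V4) (μ φ : ℝ) : xv (mk4 x μ φ) = x := funext fun i => by fin_cases i <;> rfl

theorem P8_mk4 {x : V4} {μ φ : ℝ} {p : E6} :
    mk4 x μ φ = p ↔ x = xv p ∧ μ = p (2, 0) ∧ φ = p (2, 1) := by
  refine ⟨?_, ?_⟩
  · rintro rfl
    exact ⟨(P8_xv _ _ _).symm, rfl, rfl⟩
  · rintro ⟨rfl, rfl, rfl⟩
    exact ext6 rfl rfl rfl rfl rfl rfl

@[fun_prop] theorem P8_cxv : Continuous xv :=
  continuous_pi fun i => by fin_cases i <;> exact continuous_apply _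

theorem P8_cmk {a b c d e f : E6 → ℝ} (ha : Continuous a) (hb : Continuous b) (hc : Continuous c)
    (hd : Continuous d) (he : Continuous e) (hf : Continuous f) :
    Continuous fun p => mk (a p) (b p) (c p) (d p) (e p) (f p) :=
  continuous_pi fun ⟨i, j⟩ => by fin_cases i <;> fin_cases j <;> assumption

theorem P8_px {p : E6} : px p = 0 ↔ p (0, 0) = 0 ∧ p (0, 1) = 0 ∧ p (1, 0) = 0 ∧ p (1, 1) = 0 :=
  ⟨fun h => ⟨(px_apply p _).symm.trans (congrFun h (0, 0)), (px_apply p _).symm.trans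
    (congrFun h (0, 1)), (px_apply p _).symm.trans (congrFun h (1, 0)),
    (px_apply p _).symm.trans (congrFun h (1, 1))⟩,
    fun ⟨a, b, c, d⟩ => ext6 ((px_apply p _).trans a) ((px_apply p _).trans b)
      ((px_apply p _).trans c) ((px_apply p _).trans d) (px_apply p _) (px_apply p _)⟩

theorem P8_homeo {A A' : M4} (h : A * A' = 1) (h' : A' * A = 1) (z : E6) {g : V4 → ℝ}
    (hg : Continuous g) : ∃ Ψ : E6 ≃ₜ E6, ∀ p, px (Ψ p) = 0 ↔ (A' *ᵥ (xv p - xv z)) 2 = 0 ∧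
      (A' *ᵥ (xv p - xv z)) 3 = 0 ∧ p (2, 0) = 0 ∧ p (2, 1) = g (xv p) := by
  refine ⟨⟨⟨fun p => mk ((A' *ᵥ (xv p - xv z)) 2) ((A' *ᵥ (xv p - xv z)) 3) (p (2, 0))
    (p (2, 1) - g (xv p)) ((A' *ᵥ (xv p - xv z)) 0) ((A' *ᵥ (xv p - xv z)) 1), fun q =>
    mk4 (xv z + A *ᵥ ![q (2, 0), q (2, 1), q (0, 0), q (0, 1)]) (q (1, 0))
      (q (1, 1) + g (xv z + A *ᵥ ![q (2, 0), q (2, 1), q (0, 0), q (0, 1)])), fun p => ?_,
    fun q => ?_⟩, ?_, ?_⟩, fun p => P8_px.trans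
      (and_congr_right' (and_congr_right' (and_congr_right' sub_eq_zero)))⟩
  · have : ∀ X : V4, ![X 0, X 1, X 2, X 3] = X := fun X => funext fun i => by fin_cases i <;> rfl
    simp [P8_mk4, this, h]
  · simp only [P8_xv, add_sub_cancel_left, Matrix.mulVec_mulVec, h', Matrix.one_mulVec]
    exact ext6 rfl rfl rfl (add_sub_cancel_right _ _) rfl rfl
  · apply P8_cmk <;> fun_prop
  · apply P8_cmk <;> fun_prop

theorem P8_int {a b : ℤ} {s : ℝ} (h : |s| < 1) (e : (a : ℝ) = b + s) : a = b := by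
  rw [show s = (a - b : ℤ) by push_cast; linarith] at h
  have : |a - b| < 1 := by exact_mod_cast h
  exact sub_eq_zero.1 (Int.abs_lt_one_iff.1 this)

/-- An intersection of half spaces. -/
def P8_poly (l : List (ℝ × ℝ × ℝ × ℝ)) : Set (Fin 3 → ℝ) :=
  {a | ∀ q ∈ l, q.1 * a 0 + q.2.1 * a 1 + q.2.2.1 * a 2 < q.2.2.2}

theorem P8_conv (l : List (ℝ × ℝ × ℝ × ℝ)) : Convex ℝ (P8_poly l) := by
  rw [P8_poly, ofPred_forall]
  refine convex_iInter fun q => ?_
  rw [ofPred_forall]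
  exact convex_iInter fun _ => convex_halfSpace_lt
    ⟨fun _ _ => by simp only [Pi.add_apply]; ring, fun _ _ => by simp; ring⟩ _

theorem P8_open (l : List (ℝ × ℝ × ℝ × ℝ)) : IsOpen (P8_poly l) := by
  rw [show P8_poly l = ⋂ q ∈ {q | q ∈ l}, {a | q.1 * a 0 + q.2.1 * a 1 + q.2.2.1 * a 2 < q.2.2.2} by
    ext; simp [P8_poly]]
  exact l.finite_toSet.isOpen_biInter fun q _ => isOpen_lt (by fun_prop) continuous_const

theorem P8_tor {P : Set (Fin 3 → ℝ)} (h : IsOpen P) : IsOpen (Tor P) :=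
  h.preimage (continuous_pi fun i => by simp only [cc, normSq_mk]; fun_prop)

theorem P8_slab (a b : ℝ) : IsOpen (Slab a b) :=
  (isOpen_lt continuous_const (continuous_apply _)).inter
    (isOpen_lt (continuous_apply _) continuous_const)

namespace HD

variable (d : HD)

/-- The domain near the fold. -/
def WE : Set E6 := d.Wn .m ∩ {z | z (2, 0) < 1 / 8}

/-- The domain above the fold. -/
def Wm : Set E6 := d.Wn .m ∩ {z | 0 < z (2, 0)}

/-- The part of `F` outside the holes. -/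
def F0 : Set E6 := {z | z ∈ d.WX .F ∧ max 2 (2 * tF z) < rF z}

variable {d} {z : E6}

theorem kset_mu (hz : z ∈ d.Kset) : z (2, 0) = 0 := by
  obtain ⟨l, n, e⟩ := hz
  have : -z (2, 0) = z (2, 0) := congrFun e (2, 0)
  linarith only [this]

theorem P8_fix {l : L4} {n : ℤ} {p : E6} : d.Dm l n (d.ka p) = p ↔
    rm d.T *ᵥ xv p + (1 / 2 : ℝ) • rv d.c + rv l = xv p ∧ p (2, 0) = 0 ∧
      p (2, 1) = (n - bf (rm d.v) (rv d.c) (xv p) / 4 - bf (rm d.v) (rv l)
        (rm d.T *ᵥ xv p + (1 / 2 : ℝ) • rv d.c) / 2 + l 3 / 2) / 2 := by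
  rw [Dm, P8_mk4, ka, P8_xv]
  refine and_congr_right fun _ => and_congr ?_ ?_ <;> simp only [mk4, mk20, mk21] <;>
    constructor <;> intro <;> linarith

theorem kset_loc (h : d.Ok) (hz : z ∈ d.Kset) :
    ∃ Ψ : E6 ≃ₜ E6, ∀ᶠ p in 𝓝 z, p ∈ d.Kset ↔ px (Ψ p) = 0 := by
  obtain ⟨l, n, e⟩ := hz
  obtain ⟨e1, -, e2⟩ := P8_fix.1 e
  have hA : rm d.A * rm d.A' = 1 := by rw [← rm_mul, h.AA, rm_one]
  set g : V4 → ℝ := fun x => (n - bf (rm d.v) (rv d.c) x / 4 - bf (rm d.v) (rv l)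
    (rm d.T *ᵥ x + (1 / 2 : ℝ) • rv d.c) / 2 + l 3 / 2) / 2 with hg
  have hc : Continuous g := by
    unfold g bf
    fun_prop
  obtain ⟨Ψ, hΨ⟩ := P8_homeo hA (by rw [← rm_mul, h.AA', rm_one]) z hc
  have h1 : ∀ᶠ p in 𝓝 z, ‖xv p - xv z - rm d.T *ᵥ (xv p - xv z)‖ < 1 :=
    ContinuousAt.eventually_lt (by fun_prop) continuousAt_const (by simp)
  have h2 : ∀ᶠ p in 𝓝 z, |2 * (p (2, 1) - g (xv p))| < 1 :=
    ContinuousAt.eventually_lt (by fun_prop) continuousAt_const (by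
      rw [show z (2, 1) = g (xv z) from e2]; simp)
  have key : ∀ u : V4, rm d.T *ᵥ u = u ↔ (rm d.A' *ᵥ u) 2 = 0 ∧ (rm d.A' *ᵥ u) 3 = 0 := by
    intro u
    have a : rm d.A' *ᵥ (rm d.T *ᵥ u) = ![(rm d.A' *ᵥ u) 0, (rm d.A' *ᵥ u) 1, -(rm d.A' *ᵥ u) 2,
        -(rm d.A' *ᵥ u) 3] := by
      rw [Matrix.mulVec_mulVec, ← rm_mul, h.A'T, rm_mul, ← Matrix.mulVec_mulVec]
      generalize rm d.A' *ᵥ u = X
      funext i
      fin_cases i <;> simp [rm, Matrix.mulVec, dotProduct, Fin.sum_univ_four]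
    refine ⟨fun e => ?_, fun e => ?_⟩
    · rw [e] at a
      have a2 : _ = -(rm d.A' *ᵥ u) 2 := congrFun a 2
      have a3 : _ = -(rm d.A' *ᵥ u) 3 := congrFun a 3
      constructor <;> linarith only [a2, a3]
    · rw [← Matrix.one_mulVec (rm d.T *ᵥ u), ← hA, ← Matrix.mulVec_mulVec, a,
        show ![_, _, _, _] = rm d.A' *ᵥ u from funext fun i => by fin_cases i <;> simp [e.1, e.2],
        Matrix.mulVec_mulVec, hA, Matrix.one_mulVec]
  refine ⟨Ψ, (h1.and h2).mono fun p ⟨h1, h2⟩ => ?_⟩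
  rw [hΨ, ← and_assoc, ← key, Matrix.mulVec_sub]
  refine ⟨fun ⟨l', n', e'⟩ => ?_, fun ⟨a, b, c⟩ => ⟨l, n, P8_fix.2 ⟨?_, b, c⟩⟩⟩
  · obtain ⟨a, b, c⟩ := P8_fix.1 e'
    obtain rfl : l' = l := funext fun i => P8_int ((norm_le_pi_norm _ i).trans_lt h1) (by
      have := congrFun a i
      have := congrFun e1 i
      simp only [Matrix.mulVec_sub, Pi.add_apply, Pi.sub_apply, rv_apply] at *
      linarith)
    obtain rfl : n' = n := P8_int h2 (by rw [c, hg]; ring)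
    exact ⟨by linear_combination a - e1, b, c⟩
  · linear_combination a + e1

theorem sc_E (h : d.Ok) (ho : IsOpen (d.Wn .m)) : IsSimplyConnected d.WE := by
  have := h.hμ
  have hX : IsOpen ((d.Wo .m ∩ Slab (-1 / 8) (1 / 8)) \ d.Hole) := by
    convert (open_hole h).inter (P8_slab (-1 / 8) (1 / 8)) using 1
    ext z
    exact ⟨fun ⟨⟨_, a⟩, b⟩ => ⟨⟨⟨a.1, by linarith only [this, a, a.2]⟩, b⟩, a⟩, fun ⟨⟨_, b⟩, a⟩ => ⟨⟨⟨a.1,
      by linarith only [this, a, a.2, show d.tt z = z (2, 0) - d.μ₁ from rfl],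
      .inr (by linarith only [this, a, a.2, show d.tt z = z (2, 0) - d.μ₁ from rfl])⟩, a⟩, b⟩⟩
  refine sc_rm4 hX (ho.inter (isOpen_lt (continuous_apply _) continuous_const))
    (fun z ⟨⟨a, b⟩, c⟩ => ⟨⟨a, a.1, c⟩, fun e => b (.inl e)⟩)
    (sc_m h le_rfl (by norm_num) (by linarith only [this])) fun z hz hz' => ?_
  obtain ⟨Ψ, hΨ⟩ := kset_loc h (by_contra fun e => hz' ⟨⟨hz.1.1, fun a => a.elim hz.2 e⟩, hz.1.2.2⟩)
  refine ⟨Ψ, (hΨ.and (hX.mem_nhds hz)).mono fun p ⟨a, b⟩ => ⟨fun c e => c.1.2 (.inr (a.2 e)),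
    fun c => ⟨⟨b.1.1, fun e => e.elim b.2 fun e => c (a.1 e)⟩, b.1.2.2⟩⟩⟩

theorem P8_Wm (b : ℝ) : d.Wm ∩ {z | z (2, 0) < b} = (d.Wo .m ∩ Slab 0 b) \ d.Hole :=
  Set.ext fun _ => ⟨fun ⟨⟨⟨a, b⟩, c⟩, e⟩ => ⟨⟨a, c, e⟩, fun e => b (.inl e)⟩,
    fun ⟨⟨a, c, e⟩, b⟩ => ⟨⟨⟨a, fun e => e.elim b fun e => c.ne' (kset_mu e)⟩, c⟩, e⟩⟩

theorem sc_Wm (h : d.Ok) : IsSimplyConnected d.Wm := by
  have := h.hμ
  rw [← inter_eq_left.2 (show d.Wm ⊆ {z | z (2, 0) < d.μ₁ + 1 / 8} from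
    fun z hz => sub_lt_iff_lt_add'.1 hz.1.1.2.1), P8_Wm]
  exact sc_m h (by norm_num) (by linarith only [this]) (by linarith)

theorem sc_Wp (h : d.Ok) : IsSimplyConnected (d.Wn .p) := by
  convert sc_p h le_rfl (by linarith only []) le_rfl using 1
  ext z
  exact and_congr_left' (and_congr sub_pos sub_lt_iff_lt_add')

theorem conn_Em (h : d.Ok) : IsConnected (d.Wm ∩ {z | z (2, 0) < 1 / 8}) := by
  rw [P8_Wm]
  exact (sc_m h (by norm_num) (by norm_num) (by linarith [h.hμ])).isPathConnected.isConnected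

theorem conn_mp (h : d.Ok) : IsConnected (d.Wn .p ∩ {z | d.tt z < 1 / 8 ∧ d.gz z ≠ 0}) := by
  have := h.hμ
  have h1 := (sc_p h (b := d.μ₁ + 1 / 8) le_rfl (by linarith only [])
    (by linarith only [])).isPathConnected.isConnected
  have h2 : IsOpen (Slab d.μ₁ (d.μ₁ + 1 / 8) \ d.Hole) := by
    convert (open_hole h).inter (P8_slab d.μ₁ (d.μ₁ + 1 / 8)) using 1
    ext z
    exact ⟨fun ⟨a, b⟩ => ⟨⟨⟨by linarith only [this, a, a.1], by linarith only [a, a.2]⟩, b⟩, a⟩, fun ⟨⟨_, b⟩, a⟩ => ⟨a, b⟩⟩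
  have h3 := thin_lat (i := (1, 0)) (j := (1, 1)) (by decide)
  have h4 : IsConnected (_ \ _) := ⟨h3.dense.inter_open_nonempty _ h2 h1.1, h3.conn _ h2 h1.2⟩
  convert h4 using 1
  ext z
  exact ⟨fun ⟨⟨a, b⟩, c, e⟩ => ⟨⟨⟨sub_pos.1 a.1, sub_lt_iff_lt_add'.1 c⟩, b⟩,
    mt (gz_zero_iff h).2 e⟩, fun ⟨⟨a, b⟩, e⟩ => ⟨⟨⟨sub_pos.2 a.1, sub_lt_iff_lt_add'.2
      (by linarith only [a, a.2])⟩, b⟩, sub_lt_iff_lt_add'.2 a.2, mt (gz_zero_iff h).1 e⟩⟩

theorem conn_pp (h : d.Ok) : IsConnected (d.Wn .p ∩ {z | 7 / 8 < d.tt z}) := by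
  convert (sc_p h (a := d.μ₁ + 7 / 8) (by linarith only []) (by linarith only [])
    le_rfl).isPathConnected.isConnected using 1
  ext z
  exact ⟨fun ⟨⟨a, b⟩, c⟩ => ⟨⟨lt_sub_iff_add_lt'.1 c, sub_lt_iff_lt_add'.1 a.2⟩, b⟩,
    fun ⟨a, b⟩ => ⟨⟨⟨sub_pos.2 (by linarith only [a, a.1]), sub_lt_iff_lt_add'.2 a.2⟩, b⟩,
      lt_sub_iff_add_lt'.2 a.1⟩⟩

theorem P8_F (l : List (ℝ × ℝ × ℝ × ℝ)) : d.WX .F ∩ Tor (P8_poly l) =
    Tor (P8_poly ((0, 1, 1, 8) :: (1, 0, -1, d.M + 1 / 8 + d.μ₁) :: (-1, 0, 1, d.M + 1 / 8 - d.μ₁) ::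
      (0, -1, -1, -1) :: (-2, -1, 1, 1) :: l)) := by
  ext z
  simp only [WX, Fo, rF, nuF, tF, abs_lt, Tor, P8_poly, mem_inter_iff, mem_ofPred_eq,
    List.forall_mem_cons, and_assoc]
  refine and_congr ?_ (and_congr ?_ (and_congr ?_ (and_congr ?_ (and_congr ?_ Iff.rfl)))) <;>
    constructor <;> intro <;> linarith

theorem sc_F (h : d.Ok) : IsSimplyConnected (d.WX .F) := by
  have := h.hμ
  rw [← inter_eq_left.2 (show d.WX .F ⊆ Tor (P8_poly []) from fun _ _ _ a => nomatch a), P8_F]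
  refine sc_toric (P8_conv _) (P8_open _) fun i => ?_
  refine ⟨if i = 1 then ![2, 0, 2] else ![0, 2, 0], ?_, fun k => ?_, by fin_cases i <;> rfl⟩
  · split_ifs <;> simp [P8_poly, M] <;> norm_num <;> constructor <;> linarith only [this]
  · split_ifs <;> fin_cases k <;> norm_num

theorem conn_F0 {S : Set E6} (h1 : d.F0 ∩ {z | cc 0 z ≠ 0} ⊆ S) (h2 : S ⊆ d.F0) :
    IsPreconnected S := by
  have e : d.F0 = d.WX .F ∩ Tor (P8_poly [(0, -1, -1, -2), (-2, -1, 1, 0)]) := by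
    ext z
    simp only [F0, rF, tF, Tor, P8_poly, mem_inter_iff, mem_ofPred_eq, max_lt_iff,
      List.forall_mem_cons, List.not_mem_nil, false_imp_iff, implies_true, and_true]
    refine and_congr_right fun _ => and_congr ?_ ?_ <;> constructor <;> intro <;> linarith
  have h3 := thin_pair (i := (0, 0)) (j := (0, 1)) (by decide) 0 0
  have h4 : IsOpen d.F0 := by
    rw [e, P8_F]
    exact P8_tor (P8_open _)
  have h5 : {z : E6 | cc 0 z ≠ 0} = {z | z (0, 0) = 0 ∧ z (0, 1) = 0}ᶜ := by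
    ext z
    simp [cc, Complex.ext_iff]
  rw [h5] at h1
  refine (h3.conn _ h4 ?_).subset_closure h1 (h2.trans (h3.dense.open_subset_closure_inter h4))
  rw [e, P8_F]
  exact conn_toric (P8_conv _)

theorem conn_low (a : ℝ) : IsPreconnected (d.WX .F ∩ {z | tF z < a}) := by
  rw [show {z | tF z < a} = Tor (P8_poly [(-1, 0, 1, a)]) by
    ext; simp [Tor, P8_poly, tF, sub_eq_neg_add], P8_F]
  exact conn_toric (P8_conv _)

theorem conn_up (a : ℝ) : IsPreconnected (d.WX .F ∩ {z | a < tF z}) := by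
  rw [show {z | a < tF z} = Tor (P8_poly [(1, 0, -1, -a)]) by
    ext; simp [Tor, P8_poly, tF, sub_eq_add_neg], P8_F]
  exact conn_toric (P8_conv _)

theorem amb_F_inj {x y : E6} (hx : x ∈ d.WX .F) (e : d.amb .F x = d.amb .F y) :
    y = x ∨ y = iof x := by
  simp only [amb, Prod.mk.injEq] at e
  obtain ⟨e0, e1, e2, -, e3, e4, e5⟩ := e
  have hs : ((√((rF x - 1) / 2) : ℝ) : ℂ) ≠ 0 :=
    ofReal_ne_zero.2 (Real.sqrt_pos.2 (by linarith only [hx, hx.2.1])).ne'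
  rw [show rF y = rF x by rw [rF, rF, e1, e2], mul_right_inj' hs] at e3 e4 e5
  have key : ∀ w : E6, cc 0 y = cc 0 w → cc 1 y = cc 1 w → cc 2 y = cc 2 w → y = w :=
    fun w a b c => ext6 (congrArg re a) (congrArg im a) (congrArg re b) (congrArg im b)
      (congrArg re c) (congrArg im c)
  have : (cc 1 y = cc 1 x ∧ cc 2 y = cc 2 x) ∨ (cc 1 y = -cc 1 x ∧ cc 2 y = -cc 2 x) := by
    rcases sq_eq_sq_iff_eq_or_eq_neg.1 e3.symm with a | a <;>
      rcases sq_eq_sq_iff_eq_or_eq_neg.1 e5.symm with b | b <;> grind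
  exact this.imp (fun a => key _ e0.symm a.1 a.2) fun a => key _ e0.symm a.1 a.2

end HD

end Pool.Agent.Work.MP_bf98aa_gt.B3
end
end
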