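import Pool.Agent.Work.MP_bf98aa_gt.B3.P8
import Pool.Agent.Work.MP_bf98aa_gt.B3.P5
import Pool.Agent.Work.MP_bf98aa_gt.B3.KMain
import Pool.Agent.Work.MP_bf98aa_gt.B3.XMain

/-!
The paths that close up in the pieces.

PLAN. `act_DP`: `act s .m` changes only `z (2,1)`; `kset_mu`. `ring_path`: `cf ν` is injective (`b1`, scale a kernel vector), hence invertible (`Matrix.mulVec_injective_iff_isUnit`);
`a s = mk4 (wj j + (cf ν)⁻¹ *ᵥ ![2 cos (π s), 2 sin (π s), 0, 0]) ν (φ₀ s)` with `ν = 1 / 16` and `φ₀ s = s * φ₁`, `φ₁` the angle of `Dm (lj j) 0 (io (a 0))`; there `rho = 4` (`ex = 0` below the kink), other holes are excluded by `hole_near` (two half periods within `1 / 32` of a point are equal; for `l 2` even and odd the centres differ), `Kset` by `kset_mu`.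
`k_path`: `a s = kI (k, 0) (w s)`, `w s = mkc (r * ee (s / 2)) 0 0`, `r² = 1 / 128`; `kU_kI`, `kI_sm`, `DK_iff`, `oK_mem`, `tw_sm`; `kV (w 0) = kV (w 1)`; last part: `kI_kU`, `kf_ka` with `l = k • e` (`A' e` is the fourth basis vector), `n = -N`, `XX_Dm`, `XX_ka`.
`v_path`: `a s = mkc 0 (√2 * ee (s / 2)) 0` (`rF = 2`), `b s = mkc 0 (√(1 / 2) * ee s) 0` (`r2 = 2`). `v_disc`: convex. `sc_WK`: convex. `F_pts`: `mkc u 2 0` with `|u|² = 2 μ₁ + 1`; `mkc (1 / 4) 2 1`.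
-/

set_option autoImplicit false

open scoped Manifold ContDiff Topology Matrix ComplexConjugate
open Set Complex Filter

namespace Pool.Agent.Work.MP_bf98aa_gt.B3

open Pool.Agent.Work.MP_bf98aa_gt.Th Pool.Agent.Work.MP_bf98aa_gt.Cy

/-- Twice the half period. -/
def lj (j : J4) : L4 := ![((j.1 : ℕ) : ℤ), ((j.2 : ℕ) : ℤ), 0, 0]

theorem P9_wj (j : J4) : (1 / 2 : ℝ) • rv (lj j) = wj j := by
  funext i
  fin_cases i <;> simp [rv, lj, wj, div_eq_inv_mul]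

theorem P9_smul (i : Fin 3) (t : ℝ) (z : E6) : cc i (t • z) = t * cc i z := by
  apply Complex.ext <;> simp [cc]

theorem P9_cmkc {b : ℝ → ℂ} {c : ℝ → ℂ} (hb : Continuous b) (hc : Continuous c) :
    Continuous fun s => mkc (b s) (c s) 0 := by
  refine continuous_pi fun ⟨i, j⟩ => ?_
  fin_cases i <;> fin_cases j
  exacts [continuous_re.comp hb, continuous_im.comp hb, continuous_re.comp hc,
    continuous_im.comp hc, continuous_const, continuous_const]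

theorem P9_nsq {r : ℝ} (hr : 0 ≤ r) (s : ℝ) : normSq ((√r : ℝ) * ee s) = r := by
  rw [normSq_mul, normSq_ee, normSq_ofReal, Real.mul_self_sqrt hr, mul_one]

namespace HD

variable {d : HD} {z : E6}

theorem P9_rP (j : J4) (z : E6) : d.rP j 0 z = d.rho (z (2, 0)) (xv z - wj j) := by
  rw [rP, if_neg (by decide)]
  exact congrArg (d.rho (z (2, 0))) (xv_mk4 _ _ _)

theorem P9_flip (h : d.Ok) (k : Fin 2) : ∃ n, ∀ z : E6, z (2, 0) = 0 →
    d.kU (k, 0) (d.Dm (((k : ℕ) : ℤ) • d.e) n (d.ka z)) =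
      mkc (-cc 0 (d.kU (k, 0) z)) (-cc 1 (d.kU (k, 0) z)) (cc 2 (d.kU (k, 0) z)) := by
  have h1 : d.A' *ᵥ d.e = fun i => (1 : Z4) i 3 := funext fun i => congrFun (congrFun h.AA' i) 3
  have h2 : d.A' *ᵥ (((k : ℕ) : ℤ) • d.e) = ![0, 0, 0, ((k : ℕ) : ℤ)] := by
    rw [Matrix.mulVec_smul, h1]
    funext i
    fin_cases i <;> simp [Matrix.one_apply]
  obtain ⟨N, hN⟩ := h.kf_ka (k, 0) (l := ((k : ℕ) : ℤ) • d.e) (by rw [h2]; rfl) (by rw [h2]; rfl)
  refine ⟨-N, fun z hz => ?_⟩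
  have h3 : d.Dm (((k : ℕ) : ℤ) • d.e) (-N) (d.ka z) (2, 0) = 0 := by
    rw [N1_m_D0, N1_m_K0, hz, neg_zero]
  have h4 := XX_Dm (d := d) (((k : ℕ) : ℤ) • d.e) (-N) (d.ka z)
  rw [h.XX_ka, h2] at h4
  apply ext6 <;>
    simp only [mkc_00, mkc_01, mkc_10, mkc_11, mkc_20, mkc_21, neg_re, neg_im, cc_re, cc_im, Ke_00,
      Ke_01, Ke_10, Ke_11, Ke_20, Ke_21, ks, kt, h3, hz, h4, hN, Pi.add_apply, rv_apply,
      Matrix.cons_val, Int.cast_zero, Int.cast_natCast, Int.cast_neg] <;> ring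

theorem law3 (l : L4) : ∃ n, ∀ z, d.Dm (l + l) n (io (d.Dm l 0 z)) = d.Dm l 0 (io z) := by
  obtain ⟨n, hn⟩ := d.Dm_Dm (l + l) (-l) 0 (0 + l 3)
  refine ⟨0 + -n, fun z => ?_⟩
  rw [← Dm_add, io_Dm, hn, Dm_add, add_neg_cancel_right, add_neg_cancel]

theorem act_DP {j : J4} (hz : z ∈ d.DP j 0) (h0 : z (2, 0) ≠ 0) (s : ℝ) :
    act s .m z ∈ d.DP j 0 := by
  have e : xv (act s .m z) = xv z := xv_mk4 _ _ _
  have e0 : act s .m z (2, 0) = z (2, 0) := mk4_20 _ _ _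
  have e1 : d.tt (act s .m z) = d.tt z := by rw [tt, tt, e0]
  have e2 : d.gz (act s .m z) = d.gz z := rfl
  obtain ⟨⟨⟨a1, a2, a3⟩, a4⟩, a5⟩ := hz
  refine ⟨⟨⟨by rwa [e0], by rwa [e1], by rwa [e1, e2]⟩, ?_⟩, ?_⟩
  · rintro (⟨l, hl⟩ | a)
    · rw [e, e0, e1] at hl
      exact a4 (.inl ⟨l, hl⟩)
    · exact h0 (e0.symm.trans (kset_mu a))
  · rwa [P9_rP, e, e0, ← P9_rP]

theorem ring_path (h : d.Ok) (j : J4) : ∃ a : ℝ → E6, Continuous a ∧
    (∀ s, a s ∈ d.DP j 0 ∧ a s (2, 0) = 1 / 16) ∧ a 1 = d.Dm (lj j) 0 (io (a 0)) := by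
  have hμ := h.hμ
  have hν : |(1 / 16 : ℝ)| ≤ d.M + 1 / 8 := by
    rw [M, abs_of_pos (by norm_num)]
    linarith
  obtain ⟨x, x1, x2⟩ := h.z_surj hν 2 0
  obtain ⟨y, y1, y2⟩ := h.z_surj hν (2 * I) 0
  have hr : ∀ s : ℝ, d.rho (1 / 16) (Real.cos (Real.pi * s) • x + Real.sin (Real.pi * s) • y) = 4 := by
    intro s
    rw [rho, hh, ex, al, if_neg (by linarith), shf_low (by linarith), z1_add, z2_add, z1_smul,
      z1_smul, z2_smul, z2_smul, x1, x2, y1, y2]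
    simp only [normSq_apply, add_re, add_im, mul_re, mul_im, ofReal_re, ofReal_im, re_ofNat, im_ofNat,
      I_re, I_im, zero_re, zero_im]
    nlinarith [Real.cos_sq_add_sin_sq (Real.pi * s)]
  refine ⟨fun s => mk4 (wj j + (Real.cos (Real.pi * s) • x + Real.sin (Real.pi * s) • y)) (1 / 16)
    (s * d.Dm (lj j) 0 (io (mk4 (wj j + x) (1 / 16) 0)) (2, 1)), ?_, fun s => ⟨?_, rfl⟩, ?_⟩
  · refine continuous_iff_continuousAt.2 fun s => ContDiffAt.continuousAt (𝕜 := ℝ) (n := ∞) ?_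
    refine contDiffAt_mk4 ?_ contDiffAt_const ?_ <;> fun_prop
  · have := hr s
    beta_reduce
    generalize Real.cos (Real.pi * s) • x + Real.sin (Real.pi * s) • y = u at this ⊢
    generalize s * _ = φ
    have e : xv (mk4 (wj j + u) (1 / 16) φ) - wj j = u := by rw [xv_mk4, add_sub_cancel_left]
    have t : d.tt (mk4 (wj j + u) (1 / 16) φ) = 1 / 16 - d.μ₁ := rfl
    refine ⟨⟨⟨by rw [mk4_20]; norm_num, by linarith, .inr (by linarith)⟩, ?_⟩, ?_⟩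
    · rintro (⟨l, -, hl⟩ | a)
      · have h1 := P7_near h ⟨by rw [mk4_20]; norm_num, by rw [mk4_20]; linarith⟩ hl
        have h2 := hole_near h (z := mk4 (wj j + u) (1 / 16) φ) hν (l := lj j)
          (.inl (by rw [P9_wj, e, mk4_20, this]; norm_num))
        obtain rfl := P7_eq (h1.trans_lt (by norm_num)) (h2.trans_lt (by norm_num))
        rcases hl with ⟨-, hl⟩ | ⟨hl, -⟩
        · rw [P9_wj, e, mk4_20, this, t, le_max_iff] at hl
          rcases hl with hl | hl <;> linarith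
        · exact absurd hl (show ¬ Odd (0 : ℤ) by decide)
      · have := kset_mu a
        rw [mk4_20] at this
        norm_num at this
    · rw [P9_rP, e, mk4_20, this]
      norm_num
  · simp only [mul_one, mul_zero, zero_mul, one_mul, Real.cos_pi, Real.sin_pi, Real.cos_zero,
      Real.sin_zero, zero_smul, one_smul, add_zero]
    refine ext4 ?_ rfl rfl
    rw [Dm, io, xv_mk4, xv_mk4, xv_mk4, xv_mk4, ← P9_wj]
    module

theorem k_path (h : d.Ok) (k : Fin 2) : ∃ a : ℝ → E6, Continuous a ∧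
    Continuous (fun s => d.oK (k, 0) (a s)) ∧
    (∀ s, a s ∈ d.DK (k, 0) ∧ a s (2, 0) = 0 ∧ d.oK (k, 0) (a s) ∈ WK) ∧
    d.oK (k, 0) (a 0) = d.oK (k, 0) (a 1) ∧
    ∃ n, a 1 = d.Dm (((k : ℕ) : ℤ) • d.e) n (d.ka (a 0)) := by
  set w : ℝ → E6 := fun s => mkc ((√(1 / 128) : ℝ) * ee (s / 2)) 0 0 with hw
  have c : Continuous w := P9_cmkc (continuous_const.mul (contDiff_ee.continuous.comp
    (continuous_id.div_const 2))) continuous_const
  have h1 : ∀ s, kr (w s) = 1 / 128 := fun s => by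
    rw [kr, cc_mkc0, cc_mkc1, P9_nsq (by norm_num), normSq_zero, add_zero]
  have h2 : ∀ s, kr (w s) < 1 / 64 := fun s => by rw [h1]; norm_num
  have h3 : ∀ s, (kV (w s) 2).re ≠ kr (w s) := fun s => by
    rw [h1]
    simp [kV, ver, hw]
  have h4 : ∀ s, d.kI (k, 0) (w s) ∈ d.DK (k, 0) := fun s =>
    h.DK_iff.2 (by rw [h.kU_kI (h2 s)]; exact ⟨h2 s, h3 s⟩)
  have h5 : ∀ s, d.oK (k, 0) (d.kI (k, 0) (w s)) = tw d.a (w s) := fun s => by
    rw [oK, h.kU_kI (h2 s)]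
  have h6 : ∀ s, d.kI (k, 0) (w s) (2, 0) = 0 := fun s => zero_div _
  have h7 : w 1 = mkc (-cc 0 (w 0)) (-cc 1 (w 0)) (cc 2 (w 0)) := by
    simp only [hw, cc_mkc0, cc_mkc1, cc_mkc2, ee_half, zero_div, ee_zero, neg_zero, mul_neg]
  refine ⟨fun s => d.kI (k, 0) (w s), ?_, ?_, fun s => ⟨h4 s, h6 s, (h.oK_mem (h4 s)).1⟩, ?_, ?_⟩
  · exact continuous_iff_continuousAt.2 fun s => (h.kI_sm (h2 s)).continuousAt.comp c.continuousAt
  · simp only [h5]
    exact continuous_iff_continuousAt.2 fun s =>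
      (tw_sm (kr_ne (h3 s)) (h3 s)).continuousAt.comp c.continuousAt
  · have e : kV (w 0) = kV (w 1) := by
      rw [h7, kV, kV, cc_mkc0 (-_), cc_mkc1 (-_), ver_inj.2 (.inr ⟨rfl, rfl⟩)]
      rfl
    simp only [h5, tw, e, h1]
    rfl
  · obtain ⟨n, hn⟩ := P9_flip h k
    refine ⟨n, ?_⟩
    have := hn _ (h6 0)
    rw [h.kU_kI (h2 0), ← h7] at this
    beta_reduce
    rw [← this, h.kI_kU (by rw [N1_m_D0, N1_m_K0, h6]; norm_num)]

theorem v_path (h : d.Ok) : ∃ a b : ℝ → E6, Continuous a ∧ Continuous b ∧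
    (∀ s, a s ∈ d.WX .F ∧ b s ∈ Metric.ball (0 : E6) (5 / 4) ∩ {z | cc 0 z = 0 ∧ cc 2 z = 0} ∧
      d.amb .F (a s) = d.amb .V (b s)) ∧ b 0 = b 1 ∧ a 1 = iof (a 0) := by
  have hμ := h.hμ
  refine ⟨fun s => mkc 0 ((√2 : ℝ) * ee (s / 2)) 0, fun s => mkc 0 ((√(1 / 2) : ℝ) * ee s) 0,
    P9_cmkc continuous_const (continuous_const.mul (contDiff_ee.continuous.comp
      (continuous_id.div_const 2))),
    P9_cmkc continuous_const (continuous_const.mul contDiff_ee.continuous), fun s => ?_, ?_, ?_⟩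
  · have a := P9_nsq (r := 2) (by norm_num) (s / 2)
    have b := P9_nsq (r := 1 / 2) (by norm_num) s
    refine ⟨?_, ⟨?_, rfl, rfl⟩, ?_⟩
    · simp only [WX, Fo, rF, nuF, tF, M, mem_ofPred_eq, cc_mkc0, cc_mkc1, cc_mkc2, a, normSq_zero,
        abs_lt]
      refine ⟨⟨?_, ?_, ?_⟩, ?_, ?_⟩ <;> linarith
    · beta_reduce
      generalize (√(1 / 2) : ℝ) * ee s = u at b ⊢
      rw [normSq_apply] at b
      have b0 := mul_self_nonneg u.re
      have b0 := mul_self_nonneg u.im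
      have b1 : |u.re| < 5 / 4 := abs_lt.2 ⟨by nlinarith, by nlinarith⟩
      have b2 : |u.im| < 5 / 4 := abs_lt.2 ⟨by nlinarith, by nlinarith⟩
      have b3 : |(0 : ℝ)| < 5 / 4 := by norm_num
      refine mem_ball_zero_iff.2 ((pi_norm_lt_iff (by norm_num)).2 fun ⟨i, j⟩ => ?_)
      fin_cases i <;> fin_cases j
      exacts [b3, b3, b1, b2, b3, b3]
    · have e : ((√2 : ℝ) * ee (s / 2)) ^ 2 = 2 * ee s := by
        rw [mul_pow, ← ofReal_pow, Real.sq_sqrt (by norm_num), sq, ← ee_add, add_halves]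
        rfl
      simp only [amb, rF, r2, cc_mkc0, cc_mkc1, cc_mkc2, a, b, e, normSq_zero]
      norm_num
      ring
  · have := ee_int 1
    rw [Int.cast_one] at this
    simp only [this, ee_zero]
  · simp only [iof, cc_mkc0, cc_mkc1, cc_mkc2, ee_half, zero_div, ee_zero, neg_zero, mul_neg]

theorem v_disc (h : d.Ok) :
    Metric.ball (0 : E6) (5 / 4) ∩ {z | cc 0 z = 0 ∧ cc 2 z = 0} ⊆ d.WX .V ∧
      IsSimplyConnected (Metric.ball (0 : E6) (5 / 4) ∩ {z | cc 0 z = 0 ∧ cc 2 z = 0}) := by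
  have hμ := h.hμ
  refine ⟨fun z ⟨a, b, c⟩ => ?_, sc_star (z := 0) ⟨Metric.mem_ball_self (by norm_num), rfl, rfl⟩
    (((convex_ball _ _).starConvex (Metric.mem_ball_self (by norm_num))).inter
      (starConvex_zero_iff.2 fun z ⟨a, b⟩ t _ _ => ⟨?_, ?_⟩))⟩
  · have a1 := abs_lt.1 ((norm_le_pi_norm z (1, 0)).trans_lt (mem_ball_zero_iff.1 a))
    have a2 := abs_lt.1 ((norm_le_pi_norm z (1, 1)).trans_lt (mem_ball_zero_iff.1 a))
    simp only [WX, nuF, M, mem_ofPred_eq, b, c, normSq_zero, normSq_cc 1]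
    exact ⟨by norm_num, by nlinarith [a1.1, a1.2, a2.1, a2.2], by linarith⟩
  · rw [P9_smul, a, mul_zero]
  · rw [P9_smul, b, mul_zero]

theorem sc_WK : IsSimplyConnected WK := by
  refine sc_star (z := 0) (show ‖(0 : ℂ)‖ < 1 / 64 by norm_num)
    (starConvex_zero_iff.2 fun z a t h0 h1 => ?_)
  change ‖cc 1 (t • z)‖ < 1 / 64
  rw [P9_smul, norm_mul, norm_real, Real.norm_of_nonneg h0]
  exact (mul_le_of_le_one_left (norm_nonneg _) h1).trans_lt a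

theorem F_pts (h : d.Ok) : (∃ x ∈ d.F0, cc 0 x ≠ 0 ∧ tF x < -2 * d.μ₁ - 7 / 8) ∧
    ∃ x ∈ d.F0, cc 0 x ≠ 0 ∧ 7 / 8 < tF x := by
  have hμ := h.hμ
  have a := P9_nsq (r := 2 * d.μ₁ + 1) (by linarith) 0
  have b : normSq (2 : ℂ) = 4 := by rw [normSq_ofNat]; norm_num
  have c : normSq (1 / 4 : ℂ) = 1 / 16 := by rw [map_div₀, normSq_one, normSq_ofNat]; norm_num
  refine ⟨⟨mkc ((√(2 * d.μ₁ + 1) : ℝ) * ee 0) 2 0, ?_, fun e => ?_, ?_⟩,
    mkc (1 / 4) 2 1, ?_, by rw [cc_mkc0]; norm_num, ?_⟩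
  · simp only [F0, WX, Fo, rF, nuF, tF, M, mem_ofPred_eq, cc_mkc0, cc_mkc1, cc_mkc2, a, b,
      normSq_zero, abs_lt, max_lt_iff]
    refine ⟨⟨⟨?_, ?_, ?_⟩, ?_, ?_⟩, ?_, ?_⟩ <;> linarith
  · rw [cc_mkc0] at e
    rw [e, normSq_zero] at a
    linarith
  · rw [tF, cc_mkc0, cc_mkc2, a, normSq_zero]
    linarith
  · simp only [F0, WX, Fo, rF, nuF, tF, M, mem_ofPred_eq, cc_mkc0, cc_mkc1, cc_mkc2, b, c,
      normSq_one, abs_lt, max_lt_iff]
    refine ⟨⟨⟨?_, ?_, ?_⟩, ?_, ?_⟩, ?_, ?_⟩ <;> linarith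
  · rw [tF, cc_mkc0, cc_mkc2, c, normSq_one]
    norm_num

end HD

end Pool.Agent.Work.MP_bf98aa_gt.B3
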